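import Mathlib

/-! Circle lemmas for block (III) of `ExitHalf`: `w` on the circle `|w - 1/2| = 1/2`,
`v = w - b`, `z = v / (v - 1)`, `|b| ≥ 1`. -/

set_option autoImplicit false

namespace EQS

open Complex

/-- `Re (h v/(v-1))` -/
theorem re_mul_z (h v : ℂ) : (h * (v / (v - 1))).re =
    (h.re * (‖v‖ ^ 2 - v.re) + h.im * v.im) / ‖v - 1‖ ^ 2 := by
  rcases eq_or_ne (v - 1) 0 with h0 | h0
  · rw [h0]; simp
  have h1 : (normSq (v - 1)) ≠ 0 := by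
    intro h2; exact h0 (normSq_eq_zero.mp h2)
  rw [← normSq_eq_norm_sq, ← normSq_eq_norm_sq, mul_div_assoc', div_re, ← add_div]
  congr 1
  simp only [mul_re, mul_im, sub_re, sub_im, one_re, one_im, normSq_apply]
  ring

theorem z_re (v : ℂ) : (v / (v - 1)).re = (‖v‖ ^ 2 - v.re) / ‖v - 1‖ ^ 2 := by
  have h := re_mul_z 1 v
  simpa using h

theorem z_im (v : ℂ) : (v / (v - 1)).im = -v.im / ‖v - 1‖ ^ 2 := by
  have h := re_mul_z (-I) v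
  have h2 : (-I * (v / (v - 1))).re = (v / (v - 1)).im := by
    simp [mul_re]
  rw [h2] at h
  rw [h]
  congr 1
  simp

/-- `|v|² - Re v ≥ |b| (|b| - 1)` -/
theorem circ_sq {w b : ℂ} (hw : ‖w - 1 / 2‖ = 1 / 2) (hb : 1 ≤ ‖b‖) :
    ‖b‖ * (‖b‖ - 1) ≤ ‖w - b‖ ^ 2 - (w - b).re := by
  have h1 : ‖w - b‖ ^ 2 - (w - b).re = ‖b - (w - 1 / 2)‖ ^ 2 - 1 / 4 := by
    rw [← normSq_eq_norm_sq, ← normSq_eq_norm_sq, normSq_apply, normSq_apply]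
    simp only [sub_re, sub_im]
    norm_num
    ring
  have h2 : ‖b‖ - 1 / 2 ≤ ‖b - (w - 1 / 2)‖ := by
    have := norm_sub_norm_le b (w - 1 / 2)
    rw [hw] at this
    exact this
  have h3 : (‖b‖ - 1 / 2) ^ 2 ≤ ‖b - (w - 1 / 2)‖ ^ 2 := by
    apply pow_le_pow_left₀ _ h2
    linarith
  rw [h1]
  nlinarith

/-- `Re z ≥ 0` -/
theorem circ_z_re {w b : ℂ} (hw : ‖w - 1 / 2‖ = 1 / 2) (hb : 1 ≤ ‖b‖) :
    0 ≤ ((w - b) / (w - b - 1)).re := by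
  rw [z_re]
  apply div_nonneg _ (by positivity)
  have := circ_sq hw hb
  nlinarith [norm_nonneg b]

/-- `Re z ≤ |b| / (|b| - 1)` -/
theorem circ_z_re_le {w b : ℂ} (hw : ‖w - 1 / 2‖ = 1 / 2) (hb : 1 < ‖b‖) :
    ((w - b) / (w - b - 1)).re ≤ ‖b‖ / (‖b‖ - 1) := by
  set y : ℂ := (w - b) - 1 / 2 with hy
  have e1 : ‖w - b‖ ^ 2 - (w - b).re = ‖y‖ ^ 2 - 1 / 4 := by
    rw [← normSq_eq_norm_sq, ← normSq_eq_norm_sq, normSq_apply, normSq_apply, hy]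
    simp only [sub_re, sub_im]
    norm_num
    ring
  have e2 : w - b - 1 = y - 1 / 2 := by rw [hy]; ring
  have h2 : ‖b‖ - 1 / 2 ≤ ‖y‖ := by
    have h3 : y = -(b - (w - 1 / 2)) := by rw [hy]; ring
    rw [h3, norm_neg]
    have := norm_sub_norm_le b (w - 1 / 2)
    rw [hw] at this
    exact this
  have h4 : ‖y‖ - 1 / 2 ≤ ‖y - 1 / 2‖ := by
    have := norm_sub_norm_le y (1 / 2 : ℂ)
    have h5 : ‖(1 / 2 : ℂ)‖ = 1 / 2 := by norm_num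
    rw [h5] at this
    exact this
  have h6 : 0 < ‖y‖ - 1 / 2 := by linarith
  have h7 : (‖y‖ - 1 / 2) ^ 2 ≤ ‖y - 1 / 2‖ ^ 2 := pow_le_pow_left₀ h6.le h4 2
  have h9 : 0 < ‖y - 1 / 2‖ := by linarith
  rw [z_re, e1, e2, div_le_div_iff₀ (by positivity) (by linarith)]
  have h8 : (‖y‖ ^ 2 - 1 / 4) * (‖b‖ - 1) ≤ ‖b‖ * (‖y‖ - 1 / 2) ^ 2 := by
    have : ‖b‖ * (‖y‖ - 1 / 2) ^ 2 - (‖y‖ ^ 2 - 1 / 4) * (‖b‖ - 1) =
        (‖y‖ - 1 / 2) * (‖y‖ + 1 / 2 - ‖b‖) := by ring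
    nlinarith
  nlinarith [norm_nonneg b]

theorem circ_key0 {x y q B : ℝ} (h0 : 0 ≤ x) (h1 : 0 ≤ y) (hB : 1 ≤ B) (hq : q ≤ 0)
    (h2 : y ≤ (2 * B - 2) * x) :
    0 ≤ x ^ 2 * B * (B - 1) - x * y * q * (2 * B - 1) + y ^ 2 * (q ^ 2 - 1 / 4) := by
  have h3 : y ^ 2 ≤ ((2 * B - 2) * x) ^ 2 := pow_le_pow_left₀ h1 h2 2
  have h4 : 0 ≤ x ^ 2 * (B - 1) := mul_nonneg (sq_nonneg x) (by linarith)
  have h5 : 0 ≤ x * y * (-q) * (2 * B - 1) :=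
    mul_nonneg (mul_nonneg (mul_nonneg h0 h1) (by linarith)) (by linarith)
  have h6 : 0 ≤ (y * q) ^ 2 := sq_nonneg _
  nlinarith

theorem circ_key1 {x y q B : ℝ} (h1 : 0 ≤ y) (hB : 1 ≤ B) (hq : 0 ≤ q)
    (h2 : (2 * q + 1) * y ≤ (2 * B - 2) * x) :
    0 ≤ x ^ 2 * B * (B - 1) - x * y * q * (2 * B - 1) + y ^ 2 * (q ^ 2 - 1 / 4) := by
  rcases eq_or_lt_of_le hB with hb1 | hb1
  · have hy0 : y = 0 := by
      rw [← hb1] at h2
      have h3 : (2 * q + 1) * y ≤ 0 := by linarith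
      have h4 : 0 ≤ q * y := mul_nonneg hq h1
      linarith
    rw [hy0, ← hb1]
    norm_num
  · have hpos : 0 < 4 * (B - 1) := by linarith
    have h5 : 0 ≤ x * (2 * B - 2) - (2 * q + 1) * y := by linarith
    have h6 : 4 * (B - 1) * (x ^ 2 * B * (B - 1) - x * y * q * (2 * B - 1) +
        y ^ 2 * (q ^ 2 - 1 / 4)) = B * (x * (2 * B - 2) - (2 * q + 1) * y) ^ 2 +
          2 * (B + q) * ((x * (2 * B - 2) - (2 * q + 1) * y) * y) +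
          (2 * q + 1) * y ^ 2 := by
      ring
    have h7 : 0 ≤ B * (x * (2 * B - 2) - (2 * q + 1) * y) ^ 2 +
          2 * (B + q) * ((x * (2 * B - 2) - (2 * q + 1) * y) * y) +
          (2 * q + 1) * y ^ 2 := by
      have h8 := mul_nonneg h5 h1
      have h9 : 0 ≤ B + q := by linarith
      have h10 : 0 ≤ B * (x * (2 * B - 2) - (2 * q + 1) * y) ^ 2 :=
        mul_nonneg (by linarith) (sq_nonneg _)
      have h11 : 0 ≤ (2 * q + 1) * y ^ 2 := mul_nonneg (by linarith) (sq_nonneg _)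
      have h12 : 0 ≤ 2 * (B + q) * ((x * (2 * B - 2) - (2 * q + 1) * y) * y) :=
        mul_nonneg (by linarith) h8
      linarith
    rw [← h6] at h7
    exact nonneg_of_mul_nonneg_right h7 hpos

/-- real form -/
theorem circ_real {x y p q c1 c2 : ℝ} (hc : c1 ^ 2 + c2 ^ 2 = 1 / 4) (h0 : 0 ≤ x) (h1 : 0 ≤ y)
    (hB : 1 ≤ p ^ 2 + q ^ 2)
    (h2 : (2 * max q 0 + 1) * y ≤ (2 * (p ^ 2 + q ^ 2) - 2) * x) :
    0 ≤ x * (p ^ 2 + q ^ 2) - y * q + (c1 * (-2 * x * p) + c2 * (y - 2 * x * q)) := by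
  have key : 0 ≤ x ^ 2 * (p ^ 2 + q ^ 2) * ((p ^ 2 + q ^ 2) - 1) -
      x * y * q * (2 * (p ^ 2 + q ^ 2) - 1) + y ^ 2 * (q ^ 2 - 1 / 4) := by
    rcases le_total q 0 with hq | hq
    · rw [max_eq_right hq] at h2
      exact circ_key0 h0 h1 hB hq (by linarith)
    · rw [max_eq_left hq] at h2
      exact circ_key1 h1 hB hq h2
  have hD : 0 ≤ x * (p ^ 2 + q ^ 2) - y * q := by
    have h3 : y * q ≤ y * max q 0 := mul_le_mul_of_nonneg_left (le_max_left _ _) h1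
    linarith
  have hDD : x ^ 2 * (4 * p ^ 2) + (y - 2 * x * q) ^ 2 ≤
      4 * (x * (p ^ 2 + q ^ 2) - y * q) ^ 2 := by
    have : 4 * (x * (p ^ 2 + q ^ 2) - y * q) ^ 2 - (x ^ 2 * (4 * p ^ 2) + (y - 2 * x * q) ^ 2) =
      4 * (x ^ 2 * (p ^ 2 + q ^ 2) * ((p ^ 2 + q ^ 2) - 1) -
      x * y * q * (2 * (p ^ 2 + q ^ 2) - 1) + y ^ 2 * (q ^ 2 - 1 / 4)) := by ring
    linarith
  have hCS : (c1 * (-2 * x * p) + c2 * (y - 2 * x * q)) ^ 2 ≤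
      (x * (p ^ 2 + q ^ 2) - y * q) ^ 2 := by
    have h3 : (c1 * (-2 * x * p) + c2 * (y - 2 * x * q)) ^ 2 ≤
        (c1 ^ 2 + c2 ^ 2) * ((-2 * x * p) ^ 2 + (y - 2 * x * q) ^ 2) := by
      have : (c1 ^ 2 + c2 ^ 2) * ((-2 * x * p) ^ 2 + (y - 2 * x * q) ^ 2) -
          (c1 * (-2 * x * p) + c2 * (y - 2 * x * q)) ^ 2 =
          (c1 * (y - 2 * x * q) - c2 * (-2 * x * p)) ^ 2 := by ring
      linarith [sq_nonneg (c1 * (y - 2 * x * q) - c2 * (-2 * x * p))]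
    rw [hc] at h3
    have h4 : (-2 * x * p) ^ 2 = x ^ 2 * (4 * p ^ 2) := by ring
    linarith
  have h3 := abs_le_of_sq_le_sq' hCS hD
  linarith [h3.1]

/-- (4), sharp form of the pure circle lemma: `Re (h z) ≥ 0` -/
theorem circ_re {w b h : ℂ} (hw : ‖w - 1 / 2‖ = 1 / 2) (hb : 1 ≤ ‖b‖) (h0 : 0 ≤ h.re)
    (h1 : 0 ≤ h.im) (h2 : (2 * max b.im 0 + 1) * h.im ≤ (2 * ‖b‖ ^ 2 - 2) * h.re) :
    0 ≤ (h * ((w - b) / (w - b - 1))).re := by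
  rw [re_mul_z]
  apply div_nonneg _ (by positivity)
  have hc : (w.re - 1 / 2) ^ 2 + w.im ^ 2 = 1 / 4 := by
    have h3 : ‖w - 1 / 2‖ ^ 2 = 1 / 4 := by rw [hw]; norm_num
    rw [← normSq_eq_norm_sq, normSq_apply] at h3
    simp only [sub_re, sub_im] at h3
    norm_num at h3
    linarith
  have hB : ‖b‖ ^ 2 = b.re ^ 2 + b.im ^ 2 := by
    rw [← normSq_eq_norm_sq, normSq_apply]; ring
  have hB1 : 1 ≤ b.re ^ 2 + b.im ^ 2 := by
    rw [← hB]; exact one_le_pow₀ hb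
  rw [hB] at h2
  have h3 := circ_real hc h0 h1 hB1 h2
  have e2 : ‖w - b‖ ^ 2 = (w.re - b.re) ^ 2 + (w.im - b.im) ^ 2 := by
    rw [← normSq_eq_norm_sq, normSq_apply]
    simp only [sub_re, sub_im]
    ring
  rw [e2]
  simp only [sub_re, sub_im]
  have e3 : h.re * ((w.re - b.re) ^ 2 + (w.im - b.im) ^ 2 - (w.re - b.re)) +
      h.im * (w.im - b.im) = h.re * (b.re ^ 2 + b.im ^ 2) - h.im * b.im +
        ((w.re - 1 / 2) * (-2 * h.re * b.re) + w.im * (h.im - 2 * h.re * b.im)) +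
        h.re * ((w.re - 1 / 2) ^ 2 + w.im ^ 2 - 1 / 4) := by ring
  rw [e3, hc]
  linarith

/-- (3): `Im v ≥ 0`, `h` in the closed first quadrant: `Re (h z) ≥ 0` -/
theorem circ_re0 {w b h : ℂ} (hw : ‖w - 1 / 2‖ = 1 / 2) (hb : 1 ≤ ‖b‖) (h0 : 0 ≤ h.re)
    (h1 : 0 ≤ h.im) (h2 : 0 ≤ (w - b).im) :
    0 ≤ (h * ((w - b) / (w - b - 1))).re := by
  rw [re_mul_z]
  apply div_nonneg _ (by positivity)
  have h3 := circ_sq hw hb
  have h4 : 0 ≤ ‖w - b‖ ^ 2 - (w - b).re := by nlinarith [norm_nonneg b]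
  positivity

/-- (3'): `Im v ≥ 0`, `Im h ≥ 0`, `Re h ≥ -c`: `Re (h z) ≥ - c |b|/(|b|-1)` -/
theorem circ_re1 {w b h : ℂ} {c : ℝ} (hw : ‖w - 1 / 2‖ = 1 / 2) (hb : 1 < ‖b‖) (hc : 0 ≤ c)
    (h0 : -c ≤ h.re) (h1 : 0 ≤ h.im) (h2 : 0 ≤ (w - b).im) :
    -(c * (‖b‖ / (‖b‖ - 1))) ≤ (h * ((w - b) / (w - b - 1))).re := by
  have h3 : (h * ((w - b) / (w - b - 1))).re =
      ((h + (c : ℂ)) * ((w - b) / (w - b - 1))).re - c * ((w - b) / (w - b - 1)).re := by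
    rw [add_mul, add_re, re_ofReal_mul]; ring
  have h4 := circ_re0 (h := h + (c : ℂ)) hw hb.le (by simp; linarith) (by simpa using h1) h2
  have h5 := circ_z_re_le hw hb
  have h6 := mul_le_mul_of_nonneg_left h5 hc
  rw [h3]
  linarith

/-- `|1 + ζ| ≥ 1 + Re ζ` -/
theorem one_add_re_le (ζ : ℂ) : 1 + ζ.re ≤ ‖1 + ζ‖ := by
  have := Complex.re_le_norm (1 + ζ)
  simpa using this

/-- the ratio: `(e^lam v - 1)/(v - 1) = 1 + (e^lam - 1) v/(v - 1)` -/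
theorem ratio_eq {v m : ℂ} (hv : v ≠ 1) :
    (m * v - 1) / (v - 1) = 1 + (m - 1) * (v / (v - 1)) := by
  have : v - 1 ≠ 0 := sub_ne_zero.mpr hv
  field_simp
  ring

/-- `s ≥ 2 - (3 a0² + a1²)/2` -/
theorem s_quad (a0 a1 : ℝ) : 2 - (3 * a0 ^ 2 + a1 ^ 2) / 2 ≤
    Real.cos a0 * (Real.cos a0 + Real.cos a1) := by
  have h1 : Real.cos a0 ^ 2 = 1 - Real.sin a0 ^ 2 := by
    have := Real.sin_sq_add_cos_sq a0; linarith
  have h2 : Real.sin a0 ^ 2 ≤ a0 ^ 2 := Real.sin_sq_le_sq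
  have h3 : Real.cos a0 * Real.cos a1 =
      (Real.cos (a0 + a1) + Real.cos (a0 - a1)) / 2 := by
    rw [Real.cos_add, Real.cos_sub]; ring
  have h4 := Real.one_sub_sq_div_two_le_cos (x := a0 + a1)
  have h5 := Real.one_sub_sq_div_two_le_cos (x := a0 - a1)
  nlinarith

/-- exact criterion for `|v - 1| ≤ |v e^lam - 1|` -/
theorem crit_le {v lam : ℂ}
    (h : 2 * ((exp lam - 1) * v).re ≤ ‖v‖ ^ 2 * (Real.exp (2 * lam.re) - 1)) :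
    ‖v - 1‖ ≤ ‖v * exp lam - 1‖ := by
  have e1 : ‖v * exp lam - 1‖ ^ 2 - ‖v - 1‖ ^ 2 =
      ‖v‖ ^ 2 * (Real.exp (2 * lam.re) - 1) - 2 * ((exp lam - 1) * v).re := by
    have n1 : ∀ z : ℂ, ‖z - 1‖ ^ 2 = ‖z‖ ^ 2 - 2 * z.re + 1 := by
      intro z
      rw [← normSq_eq_norm_sq, ← normSq_eq_norm_sq, normSq_apply, normSq_apply]
      simp only [sub_re, sub_im, one_re, one_im]
      ring
    rw [n1, n1, norm_mul, mul_pow, Complex.norm_exp]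
    have e2 : Real.exp lam.re ^ 2 = Real.exp (2 * lam.re) := by
      rw [← Real.exp_nat_mul]; norm_num
    have e3 : ((exp lam - 1) * v).re = (v * exp lam).re - v.re := by
      rw [sub_mul, one_mul, sub_re, mul_comm]
    rw [e2, e3]
    ring
  have h2 : ‖v - 1‖ ^ 2 ≤ ‖v * exp lam - 1‖ ^ 2 := by linarith
  exact le_of_sq_le_sq h2 (norm_nonneg _)

/-- criterion with `h = e^lam - 1` in components -/
theorem crit_comp {v lam : ℂ}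
    (h : 2 * ((exp lam - 1).re * v.re + |(exp lam - 1).im| * |v.im|) ≤
      ‖v‖ ^ 2 * (Real.exp (2 * lam.re) - 1)) :
    ‖v - 1‖ ≤ ‖v * exp lam - 1‖ := by
  apply crit_le
  refine le_trans ?_ h
  have h1 : -((exp lam - 1).im * v.im) ≤ |(exp lam - 1).im| * |v.im| := by
    rw [← abs_mul]; exact neg_le_abs _
  rw [mul_re]
  linarith

/-- criterion for `Im v ≥ 0`: only `Re h` counts -/
theorem crit_im {v lam : ℂ} (hv : 0 ≤ v.im) (hl : 0 ≤ lam.im) (hl2 : lam.im ≤ Real.pi)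
    (h : 2 * ((exp lam - 1).re * v.re) ≤ ‖v‖ ^ 2 * (Real.exp (2 * lam.re) - 1)) :
    ‖v - 1‖ ≤ ‖v * exp lam - 1‖ := by
  apply crit_le
  refine le_trans ?_ h
  have h1 : 0 ≤ (exp lam - 1).im := by
    rw [sub_im, one_im, sub_zero, exp_im]
    exact mul_nonneg (Real.exp_pos _).le (Real.sin_nonneg_of_nonneg_of_le_pi hl hl2)
  have h2 := mul_nonneg h1 hv
  rw [mul_re]
  linarith

/-- `v` in the closed first quadrant, `|v|² ≥ Re v`, `Re lam ≥ 0`, `0 ≤ Im lam ≤ π` -/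
theorem crit_quad {v lam : ℂ} (hr : 0 ≤ v.re) (hv : 0 ≤ v.im) (hn : v.re ≤ ‖v‖ ^ 2)
    (h0 : 0 ≤ lam.re) (hl : 0 ≤ lam.im) (hl2 : lam.im ≤ Real.pi) :
    ‖v - 1‖ ≤ ‖v * exp lam - 1‖ := by
  apply crit_im hv hl hl2
  have e1 : Real.exp (2 * lam.re) = Real.exp lam.re ^ 2 := by
    rw [← Real.exp_nat_mul]; norm_num
  have e2 : (exp lam - 1).re ≤ Real.exp lam.re - 1 := by
    rw [sub_re, one_re, exp_re]
    have := mul_le_mul_of_nonneg_left (Real.cos_le_one lam.im) (Real.exp_pos lam.re).le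
    linarith
  have e3 : 1 ≤ Real.exp lam.re := Real.one_le_exp h0
  rw [e1]
  have h3 := mul_le_mul_of_nonneg_right e2 hr
  have h4 : (Real.exp lam.re - 1) * v.re ≤ (Real.exp lam.re - 1) * ‖v‖ ^ 2 :=
    mul_le_mul_of_nonneg_left hn (by linarith)
  have h5 : 0 ≤ (Real.exp lam.re - 1) * (Real.exp lam.re - 1) * ‖v‖ ^ 2 :=
    mul_nonneg (mul_self_nonneg _) (sq_nonneg _)
  nlinarith

/-- helper70's exact criterion for `σ < π`: `v = w - b` on the circle -/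
theorem crit_circ {w b lam : ℂ} (hw : ‖w - 1 / 2‖ = 1 / 2) (hb : 1 ≤ ‖b‖)
    (hr : 0 ≤ (w - b).re) (hv : 0 ≤ (w - b).im)
    (h0 : 0 ≤ lam.re) (hl : 0 ≤ lam.im) (hl2 : lam.im ≤ Real.pi) :
    ‖w - b - 1‖ ≤ ‖(w - b) * exp lam - 1‖ := by
  apply crit_quad hr hv _ h0 hl hl2
  have := circ_sq hw hb
  nlinarith [norm_nonneg b]

/-- the Pick ratio as `1 + h z`: `|1 + (e^lam - 1) z| ≥ 1` from the criterion -/
theorem crit_ratio {v lam : ℂ} (hv : v ≠ 1) (h : ‖v - 1‖ ≤ ‖v * exp lam - 1‖) :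
    1 ≤ ‖1 + (exp lam - 1) * (v / (v - 1))‖ := by
  rw [← ratio_eq hv, norm_div, le_div_iff₀ (norm_pos_iff.2 (sub_ne_zero.2 hv)), one_mul, mul_comm]
  exact h

end EQS
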