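import Mathlib
import Pool.Agent.Lib.MP_226de1_co.E.Circ

/-! Exact circle criterion: for `w` on the circle `|w - 1/2| = 1/2` and `v = w - b` the inequality
`|v - 1| ≤ |v e^lam - 1|` holds for all `w` iff `b` has distance at least `1/2 + |c|` from
`1/2 - conj c`, where `c = (e^lam - 1)/(e^{2 Re lam} - 1)`. -/

set_option autoImplicit false

namespace EQS

open Complex

/-- the disc criterion -/
theorem apol_disc {w b c : ℂ} (hw : ‖w - 1 / 2‖ = 1 / 2)
    (h : 1 / 2 + ‖c‖ ≤ ‖b + (starRingEnd ℂ) c - 1 / 2‖) :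
    2 * (c * (w - b)).re ≤ ‖w - b‖ ^ 2 := by
  have h1 : ‖c‖ ≤ ‖(w - b) - (starRingEnd ℂ) c‖ := by
    have e : (w - b) - (starRingEnd ℂ) c = (w - 1 / 2) - (b + (starRingEnd ℂ) c - 1 / 2) := by ring
    have := norm_sub_norm_le (b + (starRingEnd ℂ) c - 1 / 2) (w - 1 / 2)
    rw [hw] at this
    rw [e, norm_sub_rev]
    linarith
  have h2 : ‖c‖ ^ 2 ≤ ‖(w - b) - (starRingEnd ℂ) c‖ ^ 2 := pow_le_pow_left₀ (norm_nonneg _) h1 2
  rw [← normSq_eq_norm_sq, ← normSq_eq_norm_sq, normSq_apply, normSq_apply] at h2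
  rw [← normSq_eq_norm_sq, normSq_apply]
  simp only [sub_re, sub_im, conj_re, conj_im, mul_re] at h2 ⊢
  nlinarith

/-- real form of the criterion -/
theorem apol_real {w b lam : ℂ} {cr ci : ℝ} (hw : ‖w - 1 / 2‖ = 1 / 2) (hx : 0 < lam.re)
    (hcr : cr * (Real.exp (2 * lam.re) - 1) = Real.exp lam.re * Real.cos lam.im - 1)
    (hci : ci * (Real.exp (2 * lam.re) - 1) = Real.exp lam.re * Real.sin lam.im)
    (h : cr + ‖(⟨cr, ci⟩ : ℂ)‖ ≤ ‖b‖ ^ 2 - b.re * (1 - 2 * cr) - 2 * b.im * ci) :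
    ‖w - b - 1‖ ≤ ‖(w - b) * exp lam - 1‖ := by
  apply crit_le
  have hE : 0 < Real.exp (2 * lam.re) - 1 := by
    have := Real.one_lt_exp_iff.2 (show (0 : ℝ) < 2 * lam.re by linarith)
    linarith
  have hc : exp lam - 1 = ((Real.exp (2 * lam.re) - 1 : ℝ) : ℂ) * (⟨cr, ci⟩ : ℂ) := by
    apply Complex.ext
    · rw [re_ofReal_mul, sub_re, one_re, exp_re, ← hcr, mul_comm]
    · rw [im_ofReal_mul, sub_im, one_im, exp_im, ← hci, mul_comm, sub_zero]
  set c : ℂ := ⟨cr, ci⟩ with hcdef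
  have hd : 1 / 2 + ‖c‖ ≤ ‖b + (starRingEnd ℂ) c - 1 / 2‖ := by
    apply le_of_sq_le_sq _ (norm_nonneg _)
    have e1 : ‖b + (starRingEnd ℂ) c - 1 / 2‖ ^ 2 =
        ‖b‖ ^ 2 + ‖c‖ ^ 2 + 1 / 4 - b.re * (1 - 2 * cr) - 2 * b.im * ci - cr := by
      rw [← normSq_eq_norm_sq, ← normSq_eq_norm_sq, ← normSq_eq_norm_sq, normSq_apply,
        normSq_apply, normSq_apply, hcdef]
      simp only [sub_re, sub_im, add_re, add_im, conj_re, conj_im]
      norm_num
      ring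
    rw [e1]
    nlinarith
  have h1 := apol_disc hw hd
  rw [hc, mul_assoc, re_ofReal_mul]
  nlinarith

/-- `|c| ≤ |cr| + |ci|` -/
theorem norm_mk_le (cr ci : ℝ) : ‖(⟨cr, ci⟩ : ℂ)‖ ≤ |cr| + |ci| :=
  Complex.norm_le_abs_re_add_abs_im _

/-- `cr ≤ 1/2` -/
theorem cr_le {x y cr : ℝ} (hx : 0 < x)
    (hcr : cr * (Real.exp (2 * x) - 1) = Real.exp x * Real.cos y - 1) : cr ≤ 1 / 2 := by
  have hE : 0 < Real.exp (2 * x) - 1 := by
    have := Real.one_lt_exp_iff.2 (show (0 : ℝ) < 2 * x by linarith)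
    linarith
  have e : Real.exp (2 * x) = Real.exp x ^ 2 := by
    rw [← Real.exp_nat_mul]; norm_num
  have h1 : Real.exp x * Real.cos y ≤ Real.exp x := by
    have := mul_le_mul_of_nonneg_left (Real.cos_le_one y) (Real.exp_pos x).le
    linarith
  by_contra hcon
  push Not at hcon
  have h2 := mul_lt_mul_of_pos_right hcon hE
  rw [hcr, e] at h2
  nlinarith [sq_nonneg (Real.exp x - 1)]

/-- `|ci| ≤ c` when `|y| ≤ 2 x c` -/
theorem ci_le {x y ci c : ℝ} (hx : 0 < x) (hc : 0 ≤ c) (hy : |y| ≤ 2 * x * c)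
    (hci : ci * (Real.exp (2 * x) - 1) = Real.exp x * Real.sin y) : |ci| ≤ c := by
  have hE : 0 < Real.exp (2 * x) - 1 := by
    have := Real.one_lt_exp_iff.2 (show (0 : ℝ) < 2 * x by linarith)
    linarith
  have e : Real.exp (2 * x) - 1 = 2 * Real.exp x * Real.sinh x := by
    rw [Real.sinh_eq]
    have e1 : Real.exp (2 * x) = Real.exp x * Real.exp x := by
      rw [← Real.exp_add]; ring_nf
    have e2 : Real.exp x * Real.exp (-x) = 1 := by rw [← Real.exp_add]; simp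
    rw [e1]
    linear_combination e2
  have hs : x ≤ Real.sinh x := Real.self_le_sinh_iff.2 hx.le
  have h1 : |ci| * (Real.exp (2 * x) - 1) = Real.exp x * |Real.sin y| := by
    have := congrArg abs hci
    rw [abs_mul, abs_mul, abs_of_pos hE, abs_of_pos (Real.exp_pos x)] at this
    exact this
  have h2 : |Real.sin y| ≤ 2 * Real.sinh x * c := by
    have h3 : |Real.sin y| ≤ |y| := Real.abs_sin_le_abs
    nlinarith [mul_le_mul_of_nonneg_right hs hc]
  have h3 : |ci| * (Real.exp (2 * x) - 1) ≤ c * (Real.exp (2 * x) - 1) := by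
    rw [h1, e]
    have := mul_le_mul_of_nonneg_left h2 (Real.exp_pos x).le
    linarith
  exact le_of_mul_le_mul_right h3 hE

/-- criterion (A): `Re b ≤ 0` -/
theorem apolA {w b lam : ℂ} {c : ℝ} (hw : ‖w - 1 / 2‖ = 1 / 2) (hx : 0 < lam.re) (hc : 0 ≤ c)
    (hy : |lam.im| ≤ 2 * lam.re * c) (hb : b.re ≤ 0)
    (h : c * (2 * |b.im| + 1) ≤ ‖b‖ ^ 2 - 1) :
    ‖w - b - 1‖ ≤ ‖(w - b) * exp lam - 1‖ := by
  have hE : 0 < Real.exp (2 * lam.re) - 1 := by
    have := Real.one_lt_exp_iff.2 (show (0 : ℝ) < 2 * lam.re by linarith)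
    linarith
  set cr := (Real.exp lam.re * Real.cos lam.im - 1) / (Real.exp (2 * lam.re) - 1) with hcr
  set ci := (Real.exp lam.re * Real.sin lam.im) / (Real.exp (2 * lam.re) - 1) with hci
  have e1 : cr * (Real.exp (2 * lam.re) - 1) = Real.exp lam.re * Real.cos lam.im - 1 := by
    rw [hcr]; field_simp
  have e2 : ci * (Real.exp (2 * lam.re) - 1) = Real.exp lam.re * Real.sin lam.im := by
    rw [hci]; field_simp
  apply apol_real hw hx e1 e2
  have h1 := cr_le hx e1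
  have h2 := ci_le hx hc hy e2
  have h3 := norm_mk_le cr ci
  have h4 : cr + |cr| ≤ 1 := by
    rcases abs_cases cr with ⟨h, _⟩ | ⟨h, _⟩ <;> rw [h] <;> linarith
  have h5 : 0 ≤ -b.re * (1 - 2 * cr) := mul_nonneg (by linarith) (by linarith)
  have h6 : b.im * ci ≤ |b.im| * c := by
    refine (le_abs_self _).trans ?_
    rw [abs_mul]
    exact mul_le_mul_of_nonneg_left h2 (abs_nonneg _)
  nlinarith

/-- criterion (B): `0 ≤ cr`, no condition on `Re b` -/
theorem apolB {w b lam : ℂ} {c : ℝ} (hw : ‖w - 1 / 2‖ = 1 / 2) (hx : 0 < lam.re) (hc : 0 ≤ c)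
    (hy : |lam.im| ≤ 2 * lam.re * c) (hcr0 : 1 ≤ Real.exp lam.re * Real.cos lam.im)
    (h : c * (2 * |b.im| + 1) ≤ ‖b‖ ^ 2 - 1) (h' : 2 * c + 4 * c ^ 2 ≤ ‖b‖ ^ 2 - 1) :
    ‖w - b - 1‖ ≤ ‖(w - b) * exp lam - 1‖ := by
  have hE : 0 < Real.exp (2 * lam.re) - 1 := by
    have := Real.one_lt_exp_iff.2 (show (0 : ℝ) < 2 * lam.re by linarith)
    linarith
  set cr := (Real.exp lam.re * Real.cos lam.im - 1) / (Real.exp (2 * lam.re) - 1) with hcr
  set ci := (Real.exp lam.re * Real.sin lam.im) / (Real.exp (2 * lam.re) - 1) with hci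
  have e1 : cr * (Real.exp (2 * lam.re) - 1) = Real.exp lam.re * Real.cos lam.im - 1 := by
    rw [hcr]; field_simp
  have e2 : ci * (Real.exp (2 * lam.re) - 1) = Real.exp lam.re * Real.sin lam.im := by
    rw [hci]; field_simp
  apply apol_real hw hx e1 e2
  have h1 := cr_le hx e1
  have h2 := ci_le hx hc hy e2
  have h3 := norm_mk_le cr ci
  have h0 : 0 ≤ cr := div_nonneg (by linarith) hE.le
  rw [abs_of_nonneg h0] at h3
  have h6 : b.im * ci ≤ |b.im| * c := by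
    refine (le_abs_self _).trans ?_
    rw [abs_mul]
    exact mul_le_mul_of_nonneg_left h2 (abs_nonneg _)
  rcases le_or_gt b.re 1 with hb | hb
  · have h5 : 0 ≤ (1 - b.re) * (1 - 2 * cr) := mul_nonneg (by linarith) (by linarith)
    nlinarith
  · have h5 : 0 ≤ (b.re - 1) * (2 * cr) := mul_nonneg (by linarith) (by linarith)
    -- Cauchy: `b.re + 2 c |b.im| ≤ ‖b‖² - c`
    have hB : ‖b‖ ^ 2 = b.re ^ 2 + b.im ^ 2 := by
      rw [← normSq_eq_norm_sq, normSq_apply]; ring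
    have hBc : 0 ≤ ‖b‖ ^ 2 - c := by nlinarith
    have h7 : b.re + 2 * c * |b.im| ≤ ‖b‖ ^ 2 - c := by
      apply le_of_sq_le_sq _ hBc
      have h8 : (b.re + 2 * c * |b.im|) ^ 2 ≤ (1 + 4 * c ^ 2) * ‖b‖ ^ 2 := by
        rw [hB]
        have h9 : |b.im| ^ 2 = b.im ^ 2 := sq_abs _
        nlinarith [sq_nonneg (2 * c * b.re - |b.im|)]
      have h10 : (1 + 4 * c ^ 2) * ‖b‖ ^ 2 ≤ (‖b‖ ^ 2 - c) ^ 2 := by
        have : (1 + 4 * c ^ 2) * ‖b‖ ^ 2 ≤ (‖b‖ ^ 2 - 2 * c) * ‖b‖ ^ 2 :=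
          mul_le_mul_of_nonneg_right (by linarith) (sq_nonneg _)
        nlinarith [sq_nonneg c]
      exact h8.trans h10
    nlinarith

end EQS
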