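import Pool.Agent.Lib.MP_226de1_co.K.GeoW1
import Pool.Agent.Lib.MP_226de1_co.K.GeoW2

/-! The exponent `1`: the ends of the axis chord are at the same distance from the two centres.
The weighted areas `∫_K |Im z|^(s-2)`, `s → 1+`, give `∑ r log r` on the axis. -/

set_option autoImplicit false

namespace EQE

open Complex Set Filter Topology MeasureTheory EQ2 EQK

variable {K : Set ℂ}

private theorem ao_split (f : ℝ → ENNReal) {a b c : ℝ} (hab : a < b) (hbc : b < c) :
    ∫⁻ θ in Ioo a c, f θ = (∫⁻ θ in Ioo a b, f θ) + ∫⁻ θ in Ioo b c, f θ := by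
  have h1 : ∫⁻ θ in Ioo a c, f θ = ∫⁻ θ in Ioc a b ∪ Ioo b c, f θ := by
    rw [Ioc_union_Ioo_eq_Ioo hab.le hbc]
  rw [h1, lintegral_union measurableSet_Ioo]
  · congr 1
    exact setLIntegral_congr Ioo_ae_eq_Ioc.symm
  · rw [Set.disjoint_left]
    intro θ h1 h2
    exact absurd h1.2 (not_le.2 h2.1)

private theorem ao_shift (f : ℝ → ENNReal) (a b c : ℝ) :
    ∫⁻ θ in Ioo a b, f (θ + c) = ∫⁻ θ in Ioo (a + c) (b + c), f θ := by
  rw [← lintegral_indicator measurableSet_Ioo, ← lintegral_indicator measurableSet_Ioo,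
    ← lintegral_add_right_eq_self ((Ioo (a + c) (b + c)).indicator f) c]
  refine lintegral_congr fun θ => ?_
  by_cases h : θ ∈ Ioo a b
  · have h' : θ + c ∈ Ioo (a + c) (b + c) := ⟨by linarith [h.1], by linarith [h.2]⟩
    rw [indicator_of_mem h, indicator_of_mem h']
  · have h' : θ + c ∉ Ioo (a + c) (b + c) := by
      intro h'
      exact h ⟨by linarith [h'.1], by linarith [h'.2]⟩
    rw [indicator_of_notMem h, indicator_of_notMem h']

/-- twice the weighted area, chords about `x` -/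
private theorem ao_two {k : ℝ} (hk : 1 < k) (hc : Convex ℝ K) (hK : IsCompact K) {x : ℝ}
    (hi : (x : ℂ) ∈ interior K) :
    2 * ∫⁻ z in K, ENNReal.ofReal (|z.im| ^ (k - 2)) =
      ∫⁻ θ in Ioo (-Real.pi) Real.pi, ENNReal.ofReal (|Real.sin θ| ^ (k - 2) *
        (((1 / gK K (x : ℂ) (Complex.exp (θ * Complex.I))) ^ k +
          (1 / gK K (x : ℂ) (-Complex.exp (θ * Complex.I))) ^ k) / k)) := by
  have hpi := Real.pi_pos
  have hk0 : 0 < k := by linarith
  have hgc := gK_continuous hc hi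
  have hexp : ∀ θ : ℝ, Complex.exp (θ * Complex.I) ≠ 0 := fun θ => Complex.exp_ne_zero _
  have hpos : ∀ θ : ℝ, 0 < gK K (x : ℂ) (Complex.exp (θ * Complex.I)) :=
    fun θ => gK_pos hK hi (hexp θ)
  have hpos' : ∀ θ : ℝ, 0 < gK K (x : ℂ) (-Complex.exp (θ * Complex.I)) :=
    fun θ => gK_pos hK hi (neg_ne_zero.2 (hexp θ))
  set F : ℝ → ENNReal := fun θ => ENNReal.ofReal (|Real.sin θ| ^ (k - 2) *
        ((1 / gK K (x : ℂ) (Complex.exp (θ * Complex.I))) ^ k / k)) with hF
  set F' : ℝ → ENNReal := fun θ => ENNReal.ofReal (|Real.sin θ| ^ (k - 2) *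
        ((1 / gK K (x : ℂ) (-Complex.exp (θ * Complex.I))) ^ k / k)) with hF'
  have hFm : Measurable F := by
    apply ENNReal.measurable_ofReal.comp
    apply Measurable.mul
    · exact (continuous_abs.measurable.comp Real.measurable_sin).pow_const _
    · apply Measurable.div_const
      apply Measurable.pow_const
      apply Measurable.const_div
      have h1 : Continuous (fun θ : ℝ => gK K (x : ℂ) (Complex.exp (θ * Complex.I))) :=
        hgc.comp (by fun_prop)
      exact h1.measurable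
  have hsh1 : ∀ θ, F' θ = F (θ + Real.pi) := by
    intro θ
    have h2 : Complex.exp (((θ + Real.pi : ℝ) : ℂ) * Complex.I) =
        -Complex.exp (θ * Complex.I) := by
      push_cast
      rw [add_mul, Complex.exp_add, Complex.exp_pi_mul_I]
      ring
    simp only [hF, hF', h2, Real.sin_add_pi, abs_neg]
  have hsh2 : ∀ θ, F' θ = F (θ + -Real.pi) := by
    intro θ
    have h2 : Complex.exp (((θ + -Real.pi : ℝ) : ℂ) * Complex.I) =
        -Complex.exp (θ * Complex.I) := by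
      push_cast
      rw [add_mul, Complex.exp_add, neg_mul, Complex.exp_neg, Complex.exp_pi_mul_I]
      norm_num
    have h3 : Real.sin (θ + -Real.pi) = -Real.sin θ := by
      rw [← sub_eq_add_neg, Real.sin_sub_pi]
    simp only [hF, hF', h2, h3, abs_neg]
  have hFF' : ∫⁻ θ in Ioo (-Real.pi) Real.pi, F' θ = ∫⁻ θ in Ioo (-Real.pi) Real.pi, F θ := by
    rw [ao_split F' (a := -Real.pi) (b := 0) (c := Real.pi) (by linarith) hpi,
      ao_split F (a := -Real.pi) (b := 0) (c := Real.pi) (by linarith) hpi]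
    have e1 : ∫⁻ θ in Ioo (-Real.pi) 0, F' θ = ∫⁻ θ in Ioo 0 Real.pi, F θ := by
      rw [lintegral_congr hsh1, ao_shift, neg_add_cancel, zero_add]
    have e2 : ∫⁻ θ in Ioo 0 Real.pi, F' θ = ∫⁻ θ in Ioo (-Real.pi) 0, F θ := by
      rw [lintegral_congr hsh2, ao_shift, add_neg_cancel, zero_add]
    rw [e1, e2, add_comm]
  have hsum : ∀ θ, F θ + F' θ = ENNReal.ofReal (|Real.sin θ| ^ (k - 2) *
        (((1 / gK K (x : ℂ) (Complex.exp (θ * Complex.I))) ^ k +
          (1 / gK K (x : ℂ) (-Complex.exp (θ * Complex.I))) ^ k) / k)) := by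
    intro θ
    have h4 := hpos θ
    have h5 := hpos' θ
    simp only [hF, hF']
    rw [← ENNReal.ofReal_add (by positivity) (by positivity)]
    congr 1
    ring
  rw [wlint_polar hk hc hK hi]
  change 2 * ∫⁻ θ in Ioo (-Real.pi) Real.pi, F θ = _
  rw [two_mul]
  nth_rewrite 2 [← hFF']
  rw [← lintegral_add_left hFm, lintegral_congr hsum]

/-- integrability of the weight -/
private theorem ao_int {k : ℝ} (hk : 1 < k) :
    IntervalIntegrable (fun θ : ℝ => |Real.sin θ| ^ (k - 2)) volume (-Real.pi) Real.pi := by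
  have hpi := Real.pi_pos
  rw [intervalIntegrable_iff_integrableOn_Ioo_of_le (by linarith)]
  have hm : Measurable (fun θ : ℝ => |Real.sin θ| ^ (k - 2)) :=
    (continuous_abs.measurable.comp Real.measurable_sin).pow_const _
  exact (lintegral_ofReal_ne_top_iff_integrable hm.aestronglyMeasurable
    (Filter.Eventually.of_forall fun θ => by positivity)).1 (sin_lint hk).2.ne

/-- the weight has large mass as `k → 1` -/
private theorem ao_mass {k : ℝ} (hk : 1 < k) (hk2 : k ≤ 2) :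
    1 / (k - 1) ≤ ∫ θ in (-Real.pi)..Real.pi, |Real.sin θ| ^ (k - 2) := by
  have hpi := Real.pi_gt_three
  have h1 := ao_int hk
  have h2 : ∫ θ in (0 : ℝ)..1, |Real.sin θ| ^ (k - 2) ≤
      ∫ θ in (-Real.pi)..Real.pi, |Real.sin θ| ^ (k - 2) := by
    apply intervalIntegral.integral_mono_interval (by linarith) (by norm_num) (by linarith)
    · exact Filter.Eventually.of_forall fun θ => by
        show (0 : ℝ) ≤ |Real.sin θ| ^ (k - 2)
        positivity
    · exact h1
  refine le_trans ?_ h2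
  have h3 : ∫ θ in (0 : ℝ)..1, θ ^ (k - 2) = 1 / (k - 1) := by
    rw [integral_rpow (Or.inl (by linarith))]
    rw [Real.one_rpow, Real.zero_rpow (by linarith)]
    congr 1 <;> ring
  rw [← h3]
  apply intervalIntegral.integral_mono_on_of_le_Ioo (by norm_num)
  · exact intervalIntegral.intervalIntegrable_rpow' (by linarith)
  · exact h1.mono_set (by
      rw [uIcc_of_le (by norm_num), uIcc_of_le (by linarith)]
      exact Icc_subset_Icc (by linarith) (by linarith))
  · intro θ hθ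
    have h4 : 0 < Real.sin θ := Real.sin_pos_of_pos_of_lt_pi hθ.1 (by linarith [hθ.2])
    rw [abs_of_pos h4]
    exact Real.rpow_le_rpow_of_nonpos h4 (Real.sin_le hθ.1.le) (by linarith)

/-- equality of the weighted integrals about the two centres, `1 < k` -/
private theorem ao_eq {k : ℝ} (hk : 1 < k) (hc : Convex ℝ K) (hK : IsCompact K) {x₁ x₂ : ℝ}
    (h₁ : (x₁ : ℂ) ∈ interior K) (h₂ : (x₂ : ℂ) ∈ interior K) :
    ∫ θ in (-Real.pi)..Real.pi, |Real.sin θ| ^ (k - 2) *
        ((1 / gK K (x₁ : ℂ) (Complex.exp (θ * Complex.I))) ^ k +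
          (1 / gK K (x₁ : ℂ) (-Complex.exp (θ * Complex.I))) ^ k) =
    ∫ θ in (-Real.pi)..Real.pi, |Real.sin θ| ^ (k - 2) *
        ((1 / gK K (x₂ : ℂ) (Complex.exp (θ * Complex.I))) ^ k +
          (1 / gK K (x₂ : ℂ) (-Complex.exp (θ * Complex.I))) ^ k) := by
  have hpi := Real.pi_pos
  have hk0 : 0 < k := by linarith
  have key : ∀ x : ℝ, (x : ℂ) ∈ interior K →
      ∫ θ in (-Real.pi)..Real.pi, |Real.sin θ| ^ (k - 2) *
        ((1 / gK K (x : ℂ) (Complex.exp (θ * Complex.I))) ^ k +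
          (1 / gK K (x : ℂ) (-Complex.exp (θ * Complex.I))) ^ k) =
      k * (2 * ∫⁻ z in K, ENNReal.ofReal (|z.im| ^ (k - 2))).toReal := by
    intro x hi
    have hgc := gK_continuous hc hi
    have hpos : ∀ θ : ℝ, 0 < gK K (x : ℂ) (Complex.exp (θ * Complex.I)) :=
      fun θ => gK_pos hK hi (Complex.exp_ne_zero _)
    have hpos' : ∀ θ : ℝ, 0 < gK K (x : ℂ) (-Complex.exp (θ * Complex.I)) :=
      fun θ => gK_pos hK hi (neg_ne_zero.2 (Complex.exp_ne_zero _))
    rw [ao_two hk hc hK hi, ← integral_eq_lintegral_of_nonneg_ae]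
    · rw [intervalIntegral.integral_of_le (by linarith), integral_Ioc_eq_integral_Ioo,
        ← integral_const_mul]
      congr 1
      funext θ
      field_simp
    · exact Filter.Eventually.of_forall fun θ => by
        have h4 := hpos θ
        have h5 := hpos' θ
        show (0 : ℝ) ≤ _
        positivity
    · apply Measurable.aestronglyMeasurable
      apply Measurable.mul
      · exact (continuous_abs.measurable.comp Real.measurable_sin).pow_const _
      · apply Measurable.div_const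
        apply Measurable.add
        · apply Measurable.pow_const
          apply Measurable.const_div
          have h1 : Continuous (fun θ : ℝ => gK K (x : ℂ) (Complex.exp (θ * Complex.I))) :=
            hgc.comp (by fun_prop)
          exact h1.measurable
        · apply Measurable.pow_const
          apply Measurable.const_div
          have h1 : Continuous (fun θ : ℝ => gK K (x : ℂ) (-Complex.exp (θ * Complex.I))) :=
            hgc.comp (by fun_prop)
          exact h1.measurable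
  rw [key x₁ h₁, key x₂ h₂]

/-- `x^(1+t)` against `x + t x log x` -/
private theorem ao_pow {x t L : ℝ} (hx : 0 < x) (ht : 0 < t) (hL : |Real.log x| ≤ L)
    (htL : t * L ≤ 1) :
    x + t * (x * Real.log x) ≤ x ^ (1 + t) ∧
      x ^ (1 + t) ≤ x + t * (x * Real.log x) + t ^ 2 * (x * L ^ 2) := by
  have h1 : x ^ (1 + t) = x * Real.exp (t * Real.log x) := by
    rw [Real.rpow_add hx, Real.rpow_one, Real.rpow_def_of_pos hx, mul_comm (Real.log x) t]
  have hu : |t * Real.log x| ≤ 1 := by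
    rw [abs_mul, abs_of_pos ht]
    exact (mul_le_mul_of_nonneg_left hL ht.le).trans htL
  rw [h1]
  constructor
  · have h2 := Real.add_one_le_exp (t * Real.log x)
    nlinarith [mul_le_mul_of_nonneg_left h2 hx.le]
  · have h2 := Real.abs_exp_sub_one_sub_id_le hu
    have h3 := (le_abs_self _).trans h2
    have h4 : (t * Real.log x) ^ 2 ≤ t ^ 2 * L ^ 2 := by
      rw [mul_pow]
      refine mul_le_mul_of_nonneg_left ?_ (by positivity)
      exact sq_le_sq' (by linarith [neg_abs_le (Real.log x)]) (by linarith [le_abs_self (Real.log x)])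
    have h5 : x * Real.exp (t * Real.log x) ≤ x * (1 + t * Real.log x + t ^ 2 * L ^ 2) :=
      mul_le_mul_of_nonneg_left (by linarith) hx.le
    linarith

/-- on the axis chord `∑ r log r` is at most the same sum for the other centre -/
private theorem ao_le (hc : Convex ℝ K) (hK : IsCompact K) {x₁ x₂ : ℝ}
    (h₁ : (x₁ : ℂ) ∈ interior K) (h₂ : (x₂ : ℂ) ∈ interior K) {c : ℝ}
    (e₁ : ∀ w : ℂ, ‖w‖ = 1 → 1 / gK K (x₁ : ℂ) w + 1 / gK K (x₁ : ℂ) (-w) = c)
    (e₂ : ∀ w : ℂ, ‖w‖ = 1 → 1 / gK K (x₂ : ℂ) w + 1 / gK K (x₂ : ℂ) (-w) = c)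
    {f : ℝ → ℝ} (hf : ∀ x, f x = x * Real.log x) :
    f (1 / gK K (x₁ : ℂ) 1) + f (1 / gK K (x₁ : ℂ) (-1)) ≤
      f (1 / gK K (x₂ : ℂ) 1) + f (1 / gK K (x₂ : ℂ) (-1)) := by
  by_contra hcon
  push Not at hcon
  have hpi := Real.pi_pos
  obtain ⟨u, hu⟩ : ∃ u : ℝ → ℝ → ℝ, u = fun (x θ : ℝ) => 1 / gK K (x : ℂ) (Complex.exp ((θ : ℂ) * I)) :=
    ⟨_, rfl⟩
  obtain ⟨v, hv⟩ : ∃ v : ℝ → ℝ → ℝ, v = fun (x θ : ℝ) => 1 / gK K (x : ℂ) (-Complex.exp ((θ : ℂ) * I)) :=
    ⟨_, rfl⟩
  have hupos : ∀ x : ℝ, (x : ℂ) ∈ interior K → ∀ θ, 0 < u x θ := by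
    intro x hi θ
    have := gK_pos hK hi (Complex.exp_ne_zero (θ * I))
    rw [hu]
    positivity
  have hvpos : ∀ x : ℝ, (x : ℂ) ∈ interior K → ∀ θ, 0 < v x θ := by
    intro x hi θ
    have := gK_pos hK hi (neg_ne_zero.2 (Complex.exp_ne_zero (θ * I)))
    rw [hv]
    positivity
  have hucont : ∀ x : ℝ, (x : ℂ) ∈ interior K → Continuous (u x) := by
    intro x hi
    rw [hu]
    have h1 : Continuous (fun θ : ℝ => gK K (x : ℂ) (Complex.exp (θ * I))) :=
      (gK_continuous hc hi).comp (by fun_prop)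
    exact continuous_const.div h1 fun θ => (gK_pos hK hi (Complex.exp_ne_zero _)).ne'
  have hvcont : ∀ x : ℝ, (x : ℂ) ∈ interior K → Continuous (v x) := by
    intro x hi
    rw [hv]
    have h1 : Continuous (fun θ : ℝ => gK K (x : ℂ) (-Complex.exp (θ * I))) :=
      (gK_continuous hc hi).comp (by fun_prop)
    exact continuous_const.div h1 fun θ =>
      (gK_pos hK hi (neg_ne_zero.2 (Complex.exp_ne_zero _))).ne'
  have hsum₁ : ∀ θ, u x₁ θ + v x₁ θ = c := by
    intro θ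
    rw [hu, hv]
    exact e₁ _ (Complex.norm_exp_ofReal_mul_I θ)
  have hsum₂ : ∀ θ, u x₂ θ + v x₂ θ = c := by
    intro θ
    rw [hu, hv]
    exact e₂ _ (Complex.norm_exp_ofReal_mul_I θ)
  have hu0 : ∀ x, u x 0 = 1 / gK K (x : ℂ) 1 := by
    intro x; rw [hu]; simp
  have hv0 : ∀ x, v x 0 = 1 / gK K (x : ℂ) (-1) := by
    intro x; rw [hv]; simp
  have hupi : ∀ x, u x Real.pi = v x 0 := by
    intro x; rw [hu, hv]; simp [Complex.exp_pi_mul_I]
  have hvpi : ∀ x, v x Real.pi = u x 0 := by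
    intro x; rw [hu, hv]; simp [Complex.exp_pi_mul_I]
  have hexpn : Complex.exp (((-Real.pi : ℝ) : ℂ) * I) = -1 := by
    push_cast
    rw [neg_mul, Complex.exp_neg, Complex.exp_pi_mul_I]
    norm_num
  have hunpi : ∀ x, u x (-Real.pi) = v x 0 := by
    intro x; rw [hu, hv]; simp only [hexpn]; simp
  have hvnpi : ∀ x, v x (-Real.pi) = u x 0 := by
    intro x; rw [hu, hv]; simp only [hexpn]; simp
  have hfc : ∀ g : ℝ → ℝ, Continuous g → (∀ θ, 0 < g θ) → Continuous fun θ => f (g θ) := by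
    intro g hg hg0
    have : (fun θ => f (g θ)) = fun θ => g θ * Real.log (g θ) := by
      funext θ; exact hf _
    rw [this]
    exact hg.mul (hg.log fun θ => (hg0 θ).ne')
  obtain ⟨G, hG⟩ : ∃ G : ℝ → ℝ, G = fun θ =>
    (f (u x₁ θ) + f (v x₁ θ)) - (f (u x₂ θ) + f (v x₂ θ)) := ⟨_, rfl⟩
  have hGc : Continuous G := by
    rw [hG]
    exact ((hfc _ (hucont _ h₁) (hupos _ h₁)).add (hfc _ (hvcont _ h₁) (hvpos _ h₁))).sub
      ((hfc _ (hucont _ h₂) (hupos _ h₂)).add (hfc _ (hvcont _ h₂) (hvpos _ h₂)))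
  have hG0 : 0 < G 0 := by
    rw [hG]
    simp only [hu0, hv0]
    linarith
  have hGpi : G Real.pi = G 0 := by
    rw [hG]
    simp only [hupi, hvpi]
    ring
  have hGnpi : G (-Real.pi) = G 0 := by
    rw [hG]
    simp only [hunpi, hvnpi]
    ring
  -- near the zeros of the sine `G` is large
  obtain ⟨σ, hσ, hσG⟩ : ∃ σ, 0 < σ ∧ ∀ θ ∈ Icc (-Real.pi) Real.pi, |Real.sin θ| < σ →
      G 0 / 2 ≤ G θ := by
    set S : Set ℝ := {θ | θ ∈ Icc (-Real.pi) Real.pi ∧ G θ ≤ G 0 / 2} with hS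
    have hSc : IsCompact S := by
      have h1 : S = Icc (-Real.pi) Real.pi ∩ {θ | G θ ≤ G 0 / 2} := rfl
      rw [h1]
      exact isCompact_Icc.inter_right (isClosed_le hGc continuous_const)
    rcases S.eq_empty_or_nonempty with hE | hE
    · refine ⟨1, one_pos, fun θ hθ _ => ?_⟩
      by_contra h
      push Not at h
      have : θ ∈ S := ⟨hθ, h.le⟩
      rw [hE] at this
      exact this
    · obtain ⟨θ₀, hθ₀, hmin⟩ := hSc.exists_isMinOn hE
        (Real.continuous_sin.abs.continuousOn : ContinuousOn (fun θ => |Real.sin θ|) S)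
      refine ⟨|Real.sin θ₀|, ?_, fun θ hθ hs => ?_⟩
      · rw [abs_pos]
        intro h0
        obtain ⟨⟨ha, hb⟩, hle⟩ := hθ₀
        have h3 : θ₀ = -Real.pi ∨ θ₀ = 0 ∨ θ₀ = Real.pi := by
          rcases lt_trichotomy θ₀ 0 with h4 | h4 | h4
          · left
            by_contra hne
            have h5 : -Real.pi < θ₀ := lt_of_le_of_ne ha (Ne.symm hne)
            have := Real.sin_neg_of_neg_of_neg_pi_lt h4 h5
            linarith
          · right; left; exact h4
          · right; right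
            by_contra hne
            have h5 : θ₀ < Real.pi := lt_of_le_of_ne hb hne
            have := Real.sin_pos_of_pos_of_lt_pi h4 h5
            linarith
        rcases h3 with h3 | h3 | h3 <;> rw [h3] at hle
        · rw [hGnpi] at hle; linarith
        · linarith
        · rw [hGpi] at hle; linarith
      · by_contra h
        push Not at h
        have h1 : θ ∈ S := ⟨hθ, h.le⟩
        have h2 : |Real.sin θ₀| ≤ |Real.sin θ| := hmin h1
        linarith
  -- bounds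
  obtain ⟨M, hM⟩ := isCompact_Icc.exists_bound_of_continuousOn
    (hGc.continuousOn : ContinuousOn G (Icc (-Real.pi) Real.pi))
  have hMG0 : G 0 ≤ M := by
    have := hM 0 ⟨by linarith, by linarith⟩
    rw [Real.norm_eq_abs] at this
    exact (le_abs_self _).trans this
  have hlogb : ∀ g : ℝ → ℝ, Continuous g → (∀ θ, 0 < g θ) →
      ∃ L, ∀ θ ∈ Icc (-Real.pi) Real.pi, |Real.log (g θ)| ≤ L := by
    intro g hg hg0
    obtain ⟨L, hL⟩ := isCompact_Icc.exists_bound_of_continuousOn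
      ((hg.log fun θ => (hg0 θ).ne').continuousOn :
        ContinuousOn (fun θ => Real.log (g θ)) (Icc (-Real.pi) Real.pi))
    exact ⟨L, fun θ hθ => by
      have := hL θ hθ
      rwa [Real.norm_eq_abs] at this⟩
  obtain ⟨L1, hL1⟩ := hlogb _ (hucont _ h₁) (hupos _ h₁)
  obtain ⟨L2, hL2⟩ := hlogb _ (hvcont _ h₁) (hvpos _ h₁)
  obtain ⟨L3, hL3⟩ := hlogb _ (hucont _ h₂) (hupos _ h₂)
  obtain ⟨L4, hL4⟩ := hlogb _ (hvcont _ h₂) (hvpos _ h₂)
  obtain ⟨L, hL0, hL⟩ : ∃ L : ℝ, 0 < L ∧ ∀ θ ∈ Icc (-Real.pi) Real.pi,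
      |Real.log (u x₁ θ)| ≤ L ∧ |Real.log (v x₁ θ)| ≤ L ∧ |Real.log (u x₂ θ)| ≤ L ∧
        |Real.log (v x₂ θ)| ≤ L := by
    refine ⟨max (max L1 L2) (max L3 L4) + 1, ?_, fun θ hθ => ?_⟩
    · have h1 := hL1 0 ⟨by linarith, by linarith⟩
      have h2 : L1 ≤ max (max L1 L2) (max L3 L4) := (le_max_left _ _).trans (le_max_left _ _)
      have h3 := abs_nonneg (Real.log (u x₁ 0))
      linarith
    · have h1 := hL1 θ hθ
      have h2 := hL2 θ hθ
      have h3 := hL3 θ hθ
      have h4 := hL4 θ hθ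
      have m1 : L1 ≤ max (max L1 L2) (max L3 L4) := (le_max_left _ _).trans (le_max_left _ _)
      have m2 : L2 ≤ max (max L1 L2) (max L3 L4) := (le_max_right _ _).trans (le_max_left _ _)
      have m3 : L3 ≤ max (max L1 L2) (max L3 L4) := (le_max_left _ _).trans (le_max_right _ _)
      have m4 : L4 ≤ max (max L1 L2) (max L3 L4) := (le_max_right _ _).trans (le_max_right _ _)
      exact ⟨by linarith, by linarith, by linarith, by linarith⟩
  have hc0 : 0 < c := by
    rw [← hsum₁ 0]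
    exact add_pos (hupos _ h₁ 0) (hvpos _ h₁ 0)
  obtain ⟨A, hA⟩ : ∃ A : ℝ, A = (M + G 0 / 2) / σ := ⟨_, rfl⟩
  have hA0 : 0 < A := by
    rw [hA]
    have : 0 < M := by linarith
    positivity
  have hlow : ∀ θ ∈ Icc (-Real.pi) Real.pi, G 0 / 2 - A * |Real.sin θ| ≤ G θ := by
    intro θ hθ
    rcases lt_or_ge |Real.sin θ| σ with h1 | h1
    · have h2 := hσG θ hθ h1
      have h3 : 0 ≤ A * |Real.sin θ| := by positivity
      linarith
    · have h2 := hM θ hθ
      rw [Real.norm_eq_abs] at h2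
      have h3 := neg_abs_le (G θ)
      have h4 : M + G 0 / 2 ≤ A * |Real.sin θ| := by
        rw [hA, div_mul_eq_mul_div, le_div_iff₀ hσ]
        exact mul_le_mul_of_nonneg_left h1 (by linarith)
      linarith
  -- the exponent
  obtain ⟨t, ht0, ht1, htL, htc, htA⟩ : ∃ t : ℝ, 0 < t ∧ t ≤ 1 ∧ t * L ≤ 1 ∧
      t * (c * L ^ 2) ≤ G 0 / 4 ∧ t * (8 * Real.pi * A + 1) ≤ G 0 := by
    refine ⟨min (min 1 (1 / L)) (min (G 0 / 4 / (c * L ^ 2)) (G 0 / (8 * Real.pi * A + 1))),
      ?_, ?_, ?_, ?_, ?_⟩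
    · positivity
    · exact (min_le_left _ _).trans (min_le_left _ _)
    · rw [← le_div_iff₀ hL0]
      exact (min_le_left _ _).trans (min_le_right _ _)
    · rw [← le_div_iff₀ (by positivity)]
      exact (min_le_right _ _).trans (min_le_left _ _)
    · rw [← le_div_iff₀ (by positivity)]
      exact (min_le_right _ _).trans (min_le_right _ _)
  have hk : 1 < 1 + t := by linarith
  have hint := ao_int hk
  have heq := ao_eq hk hc hK h₁ h₂
  have hmass := ao_mass hk (by linarith)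
  have hpt : ∀ θ ∈ Icc (-Real.pi) Real.pi,
      |Real.sin θ| ^ (1 + t - 2) * ((u x₂ θ) ^ (1 + t) + (v x₂ θ) ^ (1 + t)) +
        (|Real.sin θ| ^ (1 + t - 2) * (t * (G 0 / 4)) - t * A) ≤
      |Real.sin θ| ^ (1 + t - 2) * ((u x₁ θ) ^ (1 + t) + (v x₁ θ) ^ (1 + t)) := by
    intro θ hθ
    obtain ⟨l1, l2, l3, l4⟩ := hL θ hθ
    have p1 := (ao_pow (hupos _ h₁ θ) ht0 l1 htL).1
    have p2 := (ao_pow (hvpos _ h₁ θ) ht0 l2 htL).1
    have p3 := (ao_pow (hupos _ h₂ θ) ht0 l3 htL).2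
    have p4 := (ao_pow (hvpos _ h₂ θ) ht0 l4 htL).2
    have q1 := hsum₁ θ
    have q2 := hsum₂ θ
    have q3 : G θ = (u x₁ θ * Real.log (u x₁ θ) + v x₁ θ * Real.log (v x₁ θ)) -
        (u x₂ θ * Real.log (u x₂ θ) + v x₂ θ * Real.log (v x₂ θ)) := by
      rw [hG]
      simp only [hf]
    have q4 := hlow θ hθ
    have q5 : t * (G 0 / 4) - t * (A * |Real.sin θ|) ≤
        ((u x₁ θ) ^ (1 + t) + (v x₁ θ) ^ (1 + t)) -
          ((u x₂ θ) ^ (1 + t) + (v x₂ θ) ^ (1 + t)) := by
      have r1 : t * (G 0 / 2 - A * |Real.sin θ|) ≤ t * G θ := mul_le_mul_of_nonneg_left q4 ht0.le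
      have r2 : t * (t * (c * L ^ 2)) ≤ t * (G 0 / 4) := mul_le_mul_of_nonneg_left htc ht0.le
      have r3 : t ^ 2 * (u x₂ θ * L ^ 2) + t ^ 2 * (v x₂ θ * L ^ 2) = t * (t * (c * L ^ 2)) := by
        rw [← q2]; ring
      rw [q3] at r1
      nlinarith [r1, r2, r3, p1, p2, p3, p4]
    have w0 : 0 ≤ |Real.sin θ| ^ (1 + t - 2) := by positivity
    have w1 : |Real.sin θ| ^ (1 + t - 2) * |Real.sin θ| ≤ 1 := by
      rcases (abs_nonneg (Real.sin θ)).eq_or_lt with h0 | h0
      · rw [← h0, mul_zero]; exact zero_le_one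
      · have h3 : |Real.sin θ| ^ (1 + t - 2) * |Real.sin θ| = |Real.sin θ| ^ t := by
          nth_rewrite 2 [← Real.rpow_one |Real.sin θ|]
          rw [← Real.rpow_add h0]
          congr 1
          ring
        rw [h3]
        exact Real.rpow_le_one h0.le (Real.abs_sin_le_one θ) ht0.le
    have w2 := mul_le_mul_of_nonneg_left q5 w0
    have w3 : t * A * (|Real.sin θ| ^ (1 + t - 2) * |Real.sin θ|) ≤ t * A * 1 :=
      mul_le_mul_of_nonneg_left w1 (by positivity)
    nlinarith [w2, w3]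
  have hpc : ∀ g : ℝ → ℝ, Continuous g → (∀ θ, 0 < g θ) → Continuous fun θ => g θ ^ (1 + t) :=
    fun g hg hg0 => hg.rpow_const fun θ => Or.inl (hg0 θ).ne'
  have i1 : IntervalIntegrable (fun θ => |Real.sin θ| ^ (1 + t - 2) *
      ((u x₁ θ) ^ (1 + t) + (v x₁ θ) ^ (1 + t))) volume (-Real.pi) Real.pi :=
    hint.mul_continuousOn ((hpc _ (hucont _ h₁) (hupos _ h₁)).add
      (hpc _ (hvcont _ h₁) (hvpos _ h₁))).continuousOn
  have i2 : IntervalIntegrable (fun θ => |Real.sin θ| ^ (1 + t - 2) *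
      ((u x₂ θ) ^ (1 + t) + (v x₂ θ) ^ (1 + t))) volume (-Real.pi) Real.pi :=
    hint.mul_continuousOn ((hpc _ (hucont _ h₂) (hupos _ h₂)).add
      (hpc _ (hvcont _ h₂) (hvpos _ h₂))).continuousOn
  have i3 : IntervalIntegrable (fun θ => |Real.sin θ| ^ (1 + t - 2) * (t * (G 0 / 4)) - t * A)
      volume (-Real.pi) Real.pi :=
    (hint.mul_const _).sub intervalIntegrable_const
  have hI := intervalIntegral.integral_mono_on (by linarith) (i2.add i3) i1 hpt
  rw [intervalIntegral.integral_add i2 i3, intervalIntegral.integral_sub (hint.mul_const _)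
    intervalIntegrable_const, intervalIntegral.integral_mul_const,
    intervalIntegral.integral_const] at hI
  have heq' : ∫ θ in (-Real.pi)..Real.pi, |Real.sin θ| ^ (1 + t - 2) *
      ((u x₁ θ) ^ (1 + t) + (v x₁ θ) ^ (1 + t)) =
      ∫ θ in (-Real.pi)..Real.pi, |Real.sin θ| ^ (1 + t - 2) *
      ((u x₂ θ) ^ (1 + t) + (v x₂ θ) ^ (1 + t)) := by
    rw [hu, hv]
    exact heq
  rw [heq'] at hI
  simp only [smul_eq_mul] at hI
  have e1 : 1 + t - 1 = t := by ring
  rw [e1] at hmass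
  have j1 : 1 / t * (t * (G 0 / 4)) ≤
      (∫ θ in (-Real.pi)..Real.pi, |Real.sin θ| ^ (1 + t - 2)) * (t * (G 0 / 4)) :=
    mul_le_mul_of_nonneg_right hmass (by positivity)
  have j2 : 1 / t * (t * (G 0 / 4)) = G 0 / 4 := by
    field_simp
  rw [j2] at j1
  nlinarith [hI, j1, htA, ht0]

/-- the entropies agree -/
theorem axis_entropy (hc : Convex ℝ K) (hK : IsCompact K) {x₁ x₂ : ℝ}
    (h₁ : (x₁ : ℂ) ∈ interior K) (h₂ : (x₂ : ℂ) ∈ interior K) {c : ℝ}
    (e₁ : ∀ w : ℂ, ‖w‖ = 1 → 1 / gK K (x₁ : ℂ) w + 1 / gK K (x₁ : ℂ) (-w) = c)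
    (e₂ : ∀ w : ℂ, ‖w‖ = 1 → 1 / gK K (x₂ : ℂ) w + 1 / gK K (x₂ : ℂ) (-w) = c)
    {f : ℝ → ℝ} (hf : ∀ x, f x = x * Real.log x) :
    f (1 / gK K (x₁ : ℂ) 1) + f (1 / gK K (x₁ : ℂ) (-1)) =
      f (1 / gK K (x₂ : ℂ) 1) + f (1 / gK K (x₂ : ℂ) (-1)) :=
  le_antisymm (ao_le hc hK h₁ h₂ e₁ e₂ hf) (ao_le hc hK h₂ h₁ e₂ e₁ hf)

/-- a strictly convex function has strictly increasing differences -/
private theorem ao_strict {f : ℝ → ℝ} (hf : StrictConvexOn ℝ (Ici 0) f) {x y d : ℝ} (hx : 0 < x)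
    (hxy : x < y) (hd : 0 < d) : f (d + x) - f x < f (d + y) - f y := by
  have hD : 0 < y + d - x := by linarith
  have hxm : x ∈ Ici (0 : ℝ) := hx.le
  have hym : y + d ∈ Ici (0 : ℝ) := by
    rw [mem_Ici]; linarith
  have hne : x ≠ y + d := by linarith
  have ht : 0 < (y - x) / (y + d - x) := div_pos (by linarith) hD
  have ht' : 0 < d / (y + d - x) := div_pos hd hD
  have hsum : (y - x) / (y + d - x) + d / (y + d - x) = 1 := by
    field_simp
    ring
  have h1 := hf.2 hxm hym hne ht ht' hsum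
  have h2 := hf.2 hxm hym hne ht' ht (by rw [add_comm]; exact hsum)
  simp only [smul_eq_mul] at h1 h2
  have e1 : (y - x) / (y + d - x) * x + d / (y + d - x) * (y + d) = d + x := by
    field_simp
    ring
  have e2 : d / (y + d - x) * x + (y - x) / (y + d - x) * (y + d) = y := by
    field_simp
    ring
  rw [e1] at h1
  rw [e2] at h2
  have e3 : (y - x) / (y + d - x) = 1 - d / (y + d - x) := by linarith
  rw [e3] at h1 h2
  have e4 : y + d = d + y := add_comm _ _
  rw [e4] at h1 h2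
  nlinarith [h1, h2]

/-- Exponent `1`: the two centres `-a`, `a` are at the same distance from the nearer ends of the axis
chord.  `f1`, `f2`: the other ends (`TwoEqui.far`). -/
theorem axis_eq (hc : Convex ℝ K) (hK : IsCompact K) {a c : ℝ} (ha : 0 < a)
    (h₁ : ((-a : ℝ) : ℂ) ∈ interior K) (h₂ : ((a : ℝ) : ℂ) ∈ interior K)
    (e₁ : ∀ w : ℂ, ‖w‖ = 1 → 1 / gK K ((-a : ℝ) : ℂ) w + 1 / gK K ((-a : ℝ) : ℂ) (-w) = c)
    (e₂ : ∀ w : ℂ, ‖w‖ = 1 → 1 / gK K ((a : ℝ) : ℂ) w + 1 / gK K ((a : ℝ) : ℂ) (-w) = c)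
    (f1 : 1 / gK K ((-a : ℝ) : ℂ) 1 = 2 * a + 1 / gK K ((a : ℝ) : ℂ) 1)
    (f2 : 1 / gK K ((a : ℝ) : ℂ) (-1) = 2 * a + 1 / gK K ((-a : ℝ) : ℂ) (-1)) :
    1 / gK K ((-a : ℝ) : ℂ) (-1) = 1 / gK K ((a : ℝ) : ℂ) 1 := by
  have h3 := axis_entropy hc hK h₁ h₂ e₁ e₂ (f := fun x => x * Real.log x) (fun x => rfl)
  rw [f1, f2] at h3
  have hp : 0 < 1 / gK K ((-a : ℝ) : ℂ) (-1) := by
    have := gK_pos hK h₁ (neg_ne_zero.2 (one_ne_zero (α := ℂ)))
    positivity
  have hp' : 0 < 1 / gK K ((a : ℝ) : ℂ) 1 := by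
    have := gK_pos hK h₂ (one_ne_zero (α := ℂ))
    positivity
  have hd : 0 < 2 * a := by linarith
  rcases lt_trichotomy (1 / gK K ((-a : ℝ) : ℂ) (-1)) (1 / gK K ((a : ℝ) : ℂ) 1) with hlt | heq | hgt
  · have := ao_strict Real.strictConvexOn_mul_log hp hlt hd
    linarith
  · exact heq
  · have := ao_strict Real.strictConvexOn_mul_log hp' hgt hd
    linarith

end EQE
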