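import Mathlib
import Pool.Agent.Lib.MP_226de1_co.Sw.Exit

/-! Pointwise algebra of the exit states `EQS.St`.

`p = pv k C X d` has modulus `exp (k Re (X - d)) / C` and lifted argument `k Im (X - d)`;
`b_1 = exp (k (X2 - X1))`, `b_2 = exp (k (X3 - X2))`. -/

set_option autoImplicit false

namespace EQS

open Complex

variable {k C : ℝ} {X Y d e : ℂ}

theorem pv_ne (hC : 0 < C) : pv k C X d ≠ 0 := by
  unfold pv
  exact div_ne_zero (exp_ne_zero _) (by exact_mod_cast hC.ne')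

theorem norm_pv (hC : 0 < C) : ‖pv k C X d‖ = Real.exp (k * (X - d).re) / C := by
  unfold pv
  rw [norm_div, norm_exp, re_ofReal_mul, Complex.norm_real, Real.norm_of_nonneg hC.le]

theorem pv_re : (pv k C X d).re =
    Real.exp (k * (X - d).re) / C * Real.cos (k * (X - d).im) := by
  unfold pv
  rw [div_ofReal_re, exp_re, re_ofReal_mul, im_ofReal_mul]
  ring

theorem pv_im : (pv k C X d).im =
    Real.exp (k * (X - d).re) / C * Real.sin (k * (X - d).im) := by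
  unfold pv
  rw [div_ofReal_im, exp_im, re_ofReal_mul, im_ofReal_mul]
  ring

/-- change of the first argument: multiplication by `b = exp (k (Y - X))` -/
theorem pv_mul : pv k C Y d = exp ((k : ℂ) * (Y - X)) * pv k C X d := by
  unfold pv
  rw [← mul_div_assoc, ← exp_add]
  congr 2
  ring

/-- change of the step -/
theorem pv_step : pv k C X e = exp ((k : ℂ) * (d - e)) * pv k C X d := by
  unfold pv
  rw [← mul_div_assoc, ← exp_add]
  congr 2
  ring

theorem pv_re_pos (hC : 0 < C) (h : |k * (X - d).im| < Real.pi / 2) : 0 < (pv k C X d).re := by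
  rw [pv_re]
  have := abs_lt.1 h
  exact mul_pos (div_pos (Real.exp_pos _) hC) (Real.cos_pos_of_mem_Ioo ⟨by linarith, by linarith⟩)

theorem pv_re_nonneg (hC : 0 < C) (h : |k * (X - d).im| ≤ Real.pi / 2) :
    0 ≤ (pv k C X d).re := by
  rw [pv_re]
  have := abs_le.1 h
  exact mul_nonneg (div_pos (Real.exp_pos _) hC).le
    (Real.cos_nonneg_of_mem_Icc ⟨by linarith, by linarith⟩)

theorem pv_re_zero (h : |k * (X - d).im| = Real.pi / 2) : (pv k C X d).re = 0 := by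
  rw [pv_re]
  rcases abs_cases (k * (X - d).im) with ⟨h1, _⟩ | ⟨h1, _⟩
  · rw [show k * (X - d).im = Real.pi / 2 by rw [← h1]; exact h, Real.cos_pi_div_two, mul_zero]
  · rw [show k * (X - d).im = -(Real.pi / 2) by linarith, Real.cos_neg, Real.cos_pi_div_two,
      mul_zero]

/-- `(xi_{-3})^2` from `(xi_{-2})^2`, `(xi_{-1})^2` and the steps -/
theorem xi_rel {q1 q2 q3 D1 D2 ρ : ℂ} (h1 : q1 = q2 + D1) (h2 : q2 = q3 + D2)
    (hρ : D2 = ρ * D1) :
    1 + q3 ^ 2 = (1 + ρ) * ((1 + q2 ^ 2) + ρ * D1 ^ 2) - ρ * (1 + q1 ^ 2) := by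
  have h3 : q3 = q2 - ρ * D1 := by rw [h2, hρ]; ring
  rw [h3, h1]
  ring

/-- the second quadrant in polar form: `q = - a + i v`, `1 + q ^ 2 = R ^ 2 e ^ {-2 i α}` -/
theorem quad_polar {q X : ℂ} (hx : exp (2 * X) = 1 + q ^ 2) :
    1 + q.re ^ 2 - q.im ^ 2 = Real.exp X.re ^ 2 * Real.cos (2 * X.im) ∧
      2 * q.re * q.im = Real.exp X.re ^ 2 * Real.sin (2 * X.im) := by
  have e1 : Real.exp X.re ^ 2 = Real.exp (2 * X).re := by
    rw [← Real.exp_nat_mul]
    congr 1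
    simp
  have e2 : (2 * X).im = 2 * X.im := by simp
  have h1 := congrArg Complex.re hx
  have h2 := congrArg Complex.im hx
  rw [exp_re, e2, ← e1] at h1
  rw [exp_im, e2, ← e1] at h2
  constructor
  · rw [h1]
    simp only [add_re, one_re, pow_two, mul_re]
    ring
  · rw [h2]
    simp only [add_im, one_im, pow_two, mul_im]
    ring

/-- `|xi|^2 cos^2 α - a^2 = ...`: the point is to the right of the vertical through `-|xi| cos α`:
`(- Re q) < |xi| cos (Im X)` -/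
theorem quad_lt {q X : ℂ} (hx : exp (2 * X) = 1 + q ^ 2) (hi : 0 < q.im) (hr : q.re ≤ 0)
    (ha : |X.im| < Real.pi / 2) : -q.re < Real.exp X.re * Real.cos X.im := by
  obtain ⟨h1, h2⟩ := quad_polar hx
  have hc : 0 < Real.cos X.im := by
    have := abs_lt.1 ha
    exact Real.cos_pos_of_mem_Ioo ⟨by linarith, by linarith⟩
  have he : 0 < Real.exp X.re := Real.exp_pos _
  have hs := Real.sin_sq_add_cos_sq X.im
  rw [Real.cos_two_mul] at h1
  rw [Real.sin_two_mul] at h2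
  set R := Real.exp X.re
  set c := Real.cos X.im
  set s := Real.sin X.im
  set a := -q.re with ha'
  have ha0 : 0 ≤ a := by simp [ha']; exact hr
  by_contra hcon
  push Not at hcon
  have hpos : 0 < R * c := mul_pos he hc
  have hapos : 0 < a := lt_of_lt_of_le hpos hcon
  -- `a v = - R^2 s c`, `a >= R c`: `v <= - R s`
  have h3 : a * q.im = -(R * s) * (R * c) := by
    have : a = -q.re := rfl
    rw [this]
    nlinarith [h2]
  have hv : q.im ≤ -(R * s) := by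
    by_contra hv
    push Not at hv
    have h5 : 0 < -(R * s) := by
      by_contra h6
      push Not at h6
      have h7 : a * q.im ≤ 0 := by rw [h3]; exact mul_nonpos_of_nonpos_of_nonneg h6 hpos.le
      have : 0 < a * q.im := mul_pos hapos hi
      linarith
    have : -(R * s) * (R * c) < q.im * a := by
      calc -(R * s) * (R * c) < q.im * (R * c) := by nlinarith
        _ ≤ q.im * a := mul_le_mul_of_nonneg_left hcon hi.le
    linarith
  have h8 : q.re ^ 2 = a ^ 2 := by simp [ha']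
  rw [h8] at h1
  have h9 : (R * c) ^ 2 ≤ a ^ 2 := by
    apply pow_le_pow_left₀ hpos.le hcon
  have h10 : q.im ^ 2 ≤ (R * s) ^ 2 := by
    have : q.im ^ 2 ≤ (-(R * s)) ^ 2 := pow_le_pow_left₀ hi.le hv 2
    nlinarith
  nlinarith

section St

variable {q0 q1 q2 q3 d0 d1 d2 X1 X2 X3 : ℂ}

theorem St.C0 (h : St k C q0 q1 q2 q3 d0 d1 d2 X1 X2 X3) : 0 < C := by linarith [h.hC]

theorem St.k0 (h : St k C q0 q1 q2 q3 d0 d1 d2 X1 X2 X3) : 0 < k := by linarith [h.hk]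

/-- `f_{-1} = 1 - p_{-1}` -/
theorem St.f1_eq (h : St k C q0 q1 q2 q3 d0 d1 d2 X1 X2 X3) :
    pv k C X1 d1 = 1 - pv k C X1 d0 := by linear_combination h.f1

theorem St.f2_eq (h : St k C q0 q1 q2 q3 d0 d1 d2 X1 X2 X3) :
    pv k C X2 d2 = 1 - pv k C X2 d1 := by linear_combination h.f2

/-- `p_{-2} = b_1 f_{-1}` -/
theorem St.P_eq (h : St k C q0 q1 q2 q3 d0 d1 d2 X1 X2 X3) :
    pv k C X2 d1 = exp ((k : ℂ) * (X2 - X1)) * (1 - pv k C X1 d0) := by
  rw [pv_mul (X := X1) (Y := X2), h.f1_eq]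

/-- `p_{-3} = b_2 f_{-2}` -/
theorem St.P3_eq (h : St k C q0 q1 q2 q3 d0 d1 d2 X1 X2 X3) :
    pv k C X3 d2 = exp ((k : ℂ) * (X3 - X2)) * (1 - pv k C X2 d1) := by
  rw [pv_mul (X := X2) (Y := X3), h.f2_eq]

theorem St.P_pos (h : St k C q0 q1 q2 q3 d0 d1 d2 X1 X2 X3) : 0 < (pv k C X2 d1).re :=
  pv_re_pos h.C0 h.p2

theorem St.P3_pos (h : St k C q0 q1 q2 q3 d0 d1 d2 X1 X2 X3) : 0 < (pv k C X3 d2).re :=
  pv_re_pos h.C0 h.p3

theorem St.f1_re_le (h : St k C q0 q1 q2 q3 d0 d1 d2 X1 X2 X3) : (pv k C X1 d1).re ≤ 1 := by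
  rw [h.f1_eq, sub_re, one_re]
  linarith [pv_re_nonneg h.C0 h.p1]

theorem St.f2_re_lt (h : St k C q0 q1 q2 q3 d0 d1 d2 X1 X2 X3) : (pv k C X2 d2).re < 1 := by
  rw [h.f2_eq, sub_re, one_re]
  linarith [h.P_pos]

theorem St.r01 (h : St k C q0 q1 q2 q3 d0 d1 d2 X1 X2 X3) : q1.re < q0.re := by
  have := congrArg Complex.re h.s0
  rw [add_re] at this
  linarith [h.D0]

theorem St.r12 (h : St k C q0 q1 q2 q3 d0 d1 d2 X1 X2 X3) : q2.re < q1.re := by
  have := congrArg Complex.re h.s1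
  rw [add_re] at this
  linarith [h.D1]

theorem St.r23 (h : St k C q0 q1 q2 q3 d0 d1 d2 X1 X2 X3) : q3.re < q2.re := by
  have := congrArg Complex.re h.s2
  rw [add_re] at this
  linarith [h.D2]

theorem St.q1neg (h : St k C q0 q1 q2 q3 d0 d1 d2 X1 X2 X3) : q1.re < 0 := by
  linarith [h.r01, h.r0]

theorem St.D0_le (h : St k C q0 q1 q2 q3 d0 d1 d2 X1 X2 X3) : (exp d0).re ≤ -q1.re := by
  have := congrArg Complex.re h.s0
  rw [add_re] at this
  linarith [h.r0]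

/-- relation between three consecutive `xi ^ 2` -/
theorem St.rel (h : St k C q0 q1 q2 q3 d0 d1 d2 X1 X2 X3) :
    exp (2 * X3) = (1 + exp (d2 - d1)) * (exp (2 * X2) + exp (d2 - d1) * exp d1 ^ 2) -
      exp (d2 - d1) * exp (2 * X1) := by
  rw [h.x1, h.x2, h.x3]
  exact xi_rel h.s1 h.s2 (by rw [← exp_add]; congr 1; ring)

theorem St.abs1 (h : St k C q0 q1 q2 q3 d0 d1 d2 X1 X2 X3) : |X1.im| < Real.pi / 2 :=
  abs_lt.2 ⟨h.a1.1, by linarith [h.a1.2, Real.pi_pos]⟩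

theorem St.abs2 (h : St k C q0 q1 q2 q3 d0 d1 d2 X1 X2 X3) : |X2.im| < Real.pi / 2 :=
  abs_lt.2 ⟨h.a2.1, by linarith [h.a2.2, Real.pi_pos]⟩

theorem St.abs3 (h : St k C q0 q1 q2 q3 d0 d1 d2 X1 X2 X3) : |X3.im| < Real.pi / 2 :=
  abs_lt.2 ⟨h.a3.1, by linarith [h.a3.2, Real.pi_pos]⟩

/-- `- Re q_{-1} < |xi_{-1}| cos A_{-1}` -/
theorem St.xh1 (h : St k C q0 q1 q2 q3 d0 d1 d2 X1 X2 X3) :
    -q1.re < Real.exp X1.re * Real.cos X1.im := quad_lt h.x1 h.i1 h.q1neg.le h.abs1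

end St

end EQS
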