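import Mathlib

/-! Numerical inequalities for `E/BigL.lean`: `2 sinh (M t) < e^{-dt} (cos dt - e^{-2Lt} cos θt)` for
`0 < t ≤ 1/8`. -/

set_option autoImplicit false

namespace EQS

theorem exp_neg_le_quad {x : ℝ} (hx : 0 ≤ x) : Real.exp (-x) ≤ 1 - x + x ^ 2 / 2 := by
  have h1 := Real.quadratic_le_exp_of_nonneg hx
  have h2 := Real.exp_pos (-x)
  have h3 : Real.exp (-x) * Real.exp x = 1 := by rw [← Real.exp_add, neg_add_cancel, Real.exp_zero]
  have h4 : Real.exp (-x) * (1 + x + x ^ 2 / 2) ≤ 1 := by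
    calc Real.exp (-x) * (1 + x + x ^ 2 / 2) ≤ Real.exp (-x) * Real.exp x :=
          mul_le_mul_of_nonneg_left h1 h2.le
      _ = 1 := h3
  have h5 : 0 < 1 + x + x ^ 2 / 2 := by positivity
  have h6 : (1 : ℝ) ≤ (1 - x + x ^ 2 / 2) * (1 + x + x ^ 2 / 2) := by
    nlinarith [sq_nonneg (x ^ 2)]
  by_contra hcon
  push Not at hcon
  nlinarith

theorem exp_le_cubic {x : ℝ} (hx : 0 ≤ x) (hx1 : x ≤ 1) :
    Real.exp x ≤ 1 + x + x ^ 2 / 2 + 2 / 9 * x ^ 3 := by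
  have h := Real.exp_bound' hx hx1 (n := 3) (by norm_num)
  simp only [Finset.sum_range_succ, Finset.sum_range_zero] at h
  norm_num [Nat.factorial] at h
  linarith

theorem exp_neg_ge_cubic {x : ℝ} (hx : 0 ≤ x) (hx1 : x ≤ 1) :
    1 - x + x ^ 2 / 2 - x ^ 3 / 4 ≤ Real.exp (-x) := by
  have h1 := exp_le_cubic hx hx1
  have h2 := Real.exp_pos (-x)
  have h3 : Real.exp (-x) * Real.exp x = 1 := by rw [← Real.exp_add, neg_add_cancel, Real.exp_zero]
  have h4 : 1 ≤ Real.exp (-x) * (1 + x + x ^ 2 / 2 + 2 / 9 * x ^ 3) := by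
    calc (1 : ℝ) = Real.exp (-x) * Real.exp x := h3.symm
      _ ≤ _ := mul_le_mul_of_nonneg_left h1 h2.le
  have h5 : 0 < 1 + x + x ^ 2 / 2 + 2 / 9 * x ^ 3 := by positivity
  have h6 : (1 - x + x ^ 2 / 2 - x ^ 3 / 4) * (1 + x + x ^ 2 / 2 + 2 / 9 * x ^ 3) ≤ 1 := by
    have e : 1 - (1 - x + x ^ 2 / 2 - x ^ 3 / 4) * (1 + x + x ^ 2 / 2 + 2 / 9 * x ^ 3) =
        x ^ 3 * (1 / 36 + x * (2 / 9) + x ^ 2 * (1 / 72) + x ^ 3 / 18) := by ring
    have : 0 ≤ x ^ 3 * (1 / 36 + x * (2 / 9) + x ^ 2 * (1 / 72) + x ^ 3 / 18) := by positivity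
    linarith
  by_contra hcon
  push Not at hcon
  nlinarith

theorem two_sinh_le {x : ℝ} (hx : 0 ≤ x) (hx1 : x ≤ 1) :
    2 * Real.sinh x ≤ 2 * x + 1 / 2 * x ^ 3 := by
  have h1 := exp_le_cubic hx hx1
  have h2 := exp_neg_ge_cubic hx hx1
  rw [Real.sinh_eq]
  have : 0 ≤ x ^ 3 := by positivity
  linarith

theorem cos_le_quartic {x : ℝ} (hx : |x| ≤ 1) :
    Real.cos x ≤ 1 - x ^ 2 / 2 + 5 / 96 * x ^ 4 := by
  have h := (abs_le.1 (Real.cos_bound hx)).2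
  have e : |x| ^ 4 = x ^ 4 := by
    rw [show (4 : ℕ) = 2 * 2 by norm_num, pow_mul, pow_mul, sq_abs]
  rw [e] at h
  linarith

/-- the reduction to polynomials -/
theorem num_red {M d K θ t : ℝ} (ht : 0 < t) (hM : 0 ≤ M) (hM1 : M * t ≤ 1) (hd : 0 ≤ d)
    (hd1 : d * t ≤ 1) (hK : 0 ≤ K) (hKt : K * t ≤ 1) (hθ : 0 ≤ θ) (hθ1 : θ * t ≤ 1)
    (hpos : 0 ≤ (1 - (d * t) ^ 2 / 2) - (1 - K * t + (K * t) ^ 2 / 2) *
      (1 - (θ * t) ^ 2 / 2 + 5 / 96 * (θ * t) ^ 4))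
    (h : 2 * (M * t) + 1 / 2 * (M * t) ^ 3 <
      (1 - d * t + (d * t) ^ 2 / 2 - (d * t) ^ 3 / 4) *
        ((1 - (d * t) ^ 2 / 2) - (1 - K * t + (K * t) ^ 2 / 2) *
          (1 - (θ * t) ^ 2 / 2 + 5 / 96 * (θ * t) ^ 4))) :
    2 * Real.sinh (M * t) <
      Real.exp (-(d * t)) * (Real.cos (d * t) - Real.exp (-(K * t)) * Real.cos (θ * t)) := by
  have h1 := two_sinh_le (mul_nonneg hM ht.le) hM1
  have h2 := exp_neg_ge_cubic (mul_nonneg hd ht.le) hd1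
  have h3 := Real.one_sub_sq_div_two_le_cos (x := d * t)
  have h4 := exp_neg_le_quad (mul_nonneg hK ht.le)
  have hθt : 0 ≤ θ * t := mul_nonneg hθ ht.le
  have h5 := cos_le_quartic (x := θ * t) (by rw [abs_of_nonneg hθt]; exact hθ1)
  have hc : 0 ≤ Real.cos (θ * t) := by
    apply Real.cos_nonneg_of_mem_Icc
    constructor
    · linarith [Real.pi_pos]
    · linarith [Real.pi_gt_three]
  have h6 : Real.exp (-(K * t)) * Real.cos (θ * t) ≤ (1 - K * t + (K * t) ^ 2 / 2) *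
      (1 - (θ * t) ^ 2 / 2 + 5 / 96 * (θ * t) ^ 4) := by
    apply mul_le_mul h4 h5 hc
    nlinarith [sq_nonneg (K * t)]
  have h7 : (1 - (d * t) ^ 2 / 2) - (1 - K * t + (K * t) ^ 2 / 2) *
      (1 - (θ * t) ^ 2 / 2 + 5 / 96 * (θ * t) ^ 4) ≤
      Real.cos (d * t) - Real.exp (-(K * t)) * Real.cos (θ * t) := by linarith
  calc 2 * Real.sinh (M * t) ≤ 2 * (M * t) + 1 / 2 * (M * t) ^ 3 := h1
    _ < _ := h
    _ ≤ _ := by
        apply mul_le_mul h2 h7 hpos (Real.exp_pos _).le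

/-- `L ≥ 2.1`, `F < π/2` -/
theorem numA {t : ℝ} (ht : 0 < t) (ht1 : t ≤ 1 / 8) :
    2 * Real.sinh ((1.14 + 0.131) * t) < Real.exp (-(1.14 * t)) *
      (Real.cos (1.14 * t) - Real.exp (-(4.2 * t)) * Real.cos (0 * t)) := by
  have a1 := mul_pos ht ht
  have a2 := pow_pos ht 3
  have a3 := pow_pos ht 4
  have a4 := pow_pos ht 5
  have a5 := pow_pos ht 6
  have a6 := pow_pos ht 7
  have a7 := pow_pos ht 8
  have b0 := mul_nonneg ht.le (sub_nonneg.2 ht1)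
  have b1 := mul_nonneg (pow_pos ht 2).le (sub_nonneg.2 ht1)
  have b2 := mul_nonneg (pow_pos ht 3).le (sub_nonneg.2 ht1)
  have b3 := mul_nonneg (pow_pos ht 4).le (sub_nonneg.2 ht1)
  have b4 := mul_nonneg (pow_pos ht 5).le (sub_nonneg.2 ht1)
  have b5 := mul_nonneg (pow_pos ht 6).le (sub_nonneg.2 ht1)
  have b6 := mul_nonneg (pow_pos ht 7).le (sub_nonneg.2 ht1)
  have b7 := mul_nonneg (pow_pos ht 8).le (sub_nonneg.2 ht1)
  apply num_red ht (by norm_num) (by linarith) (by norm_num) (by linarith) (by norm_num)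
    (by linarith) (by norm_num) (by linarith)
  · nlinarith
  · nlinarith

/-- `L ≥ 1.7`, `σ ≥ π/2`, `0 < F < π/2` -/
theorem numB {t : ℝ} (ht : 0 < t) (ht1 : t ≤ 1 / 8) :
    2 * Real.sinh ((1.02 + 0.096) * t) < Real.exp (-(1.02 * t)) *
      (Real.cos (1.02 * t) - Real.exp (-(3.4 * t)) * Real.cos (2.12 * t)) := by
  have a1 := mul_pos ht ht
  have a2 := pow_pos ht 3
  have a3 := pow_pos ht 4
  have a4 := pow_pos ht 5
  have a5 := pow_pos ht 6
  have a6 := pow_pos ht 7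
  have a7 := pow_pos ht 8
  have b0 := mul_nonneg ht.le (sub_nonneg.2 ht1)
  have b1 := mul_nonneg (pow_pos ht 2).le (sub_nonneg.2 ht1)
  have b2 := mul_nonneg (pow_pos ht 3).le (sub_nonneg.2 ht1)
  have b3 := mul_nonneg (pow_pos ht 4).le (sub_nonneg.2 ht1)
  have b4 := mul_nonneg (pow_pos ht 5).le (sub_nonneg.2 ht1)
  have b5 := mul_nonneg (pow_pos ht 6).le (sub_nonneg.2 ht1)
  have b6 := mul_nonneg (pow_pos ht 7).le (sub_nonneg.2 ht1)
  have b7 := mul_nonneg (pow_pos ht 8).le (sub_nonneg.2 ht1)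
  apply num_red ht (by norm_num) (by linarith) (by norm_num) (by linarith) (by norm_num)
    (by linarith) (by norm_num) (by linarith)
  · nlinarith
  · nlinarith

/-- `L ≥ 2`, `σ ≥ 3π/2` -/
theorem numC {t : ℝ} (ht : 0 < t) (ht1 : t ≤ 1 / 8) :
    2 * Real.sinh ((1.63 + 0.1455) * t) < Real.exp (-(1.63 * t)) *
      (Real.cos (1.63 * t) - Real.exp (-(4 * t)) * Real.cos (7.85 * t)) := by
  have a1 := mul_pos ht ht
  have a2 := pow_pos ht 3
  have a3 := pow_pos ht 4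
  have a4 := pow_pos ht 5
  have a5 := pow_pos ht 6
  have a6 := pow_pos ht 7
  have a7 := pow_pos ht 8
  have b0 := mul_nonneg ht.le (sub_nonneg.2 ht1)
  have b1 := mul_nonneg (pow_pos ht 2).le (sub_nonneg.2 ht1)
  have b2 := mul_nonneg (pow_pos ht 3).le (sub_nonneg.2 ht1)
  have b3 := mul_nonneg (pow_pos ht 4).le (sub_nonneg.2 ht1)
  have b4 := mul_nonneg (pow_pos ht 5).le (sub_nonneg.2 ht1)
  have b5 := mul_nonneg (pow_pos ht 6).le (sub_nonneg.2 ht1)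
  have b6 := mul_nonneg (pow_pos ht 7).le (sub_nonneg.2 ht1)
  have b7 := mul_nonneg (pow_pos ht 8).le (sub_nonneg.2 ht1)
  apply num_red ht (by norm_num) (by linarith) (by norm_num) (by linarith) (by norm_num)
    (by linarith) (by norm_num) (by linarith)
  · nlinarith
  · nlinarith

/-- `1.7 ≤ L ≤ 2`, `σ ≥ 3π/2` -/
theorem numF {t : ℝ} (ht : 0 < t) (ht1 : t ≤ 1 / 8) :
    2 * Real.sinh ((1.25 + 0.203) * t) < Real.exp (-(1.25 * t)) *
      (Real.cos (1.25 * t) - Real.exp (-(3.4 * t)) * Real.cos (7.85 * t)) := by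
  have a1 := mul_pos ht ht
  have a2 := pow_pos ht 3
  have a3 := pow_pos ht 4
  have a4 := pow_pos ht 5
  have a5 := pow_pos ht 6
  have a6 := pow_pos ht 7
  have a7 := pow_pos ht 8
  have b0 := mul_nonneg ht.le (sub_nonneg.2 ht1)
  have b1 := mul_nonneg (pow_pos ht 2).le (sub_nonneg.2 ht1)
  have b2 := mul_nonneg (pow_pos ht 3).le (sub_nonneg.2 ht1)
  have b3 := mul_nonneg (pow_pos ht 4).le (sub_nonneg.2 ht1)
  have b4 := mul_nonneg (pow_pos ht 5).le (sub_nonneg.2 ht1)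
  have b5 := mul_nonneg (pow_pos ht 6).le (sub_nonneg.2 ht1)
  have b6 := mul_nonneg (pow_pos ht 7).le (sub_nonneg.2 ht1)
  have b7 := mul_nonneg (pow_pos ht 8).le (sub_nonneg.2 ht1)
  apply num_red ht (by norm_num) (by linarith) (by norm_num) (by linarith) (by norm_num)
    (by linarith) (by norm_num) (by linarith)
  · nlinarith
  · nlinarith

/-- `L ≥ 2`, `F > 3π/2`, `σ ≤ 3π/2` -/
theorem numD {t : ℝ} (ht : 0 < t) (ht1 : t ≤ 1 / 8) :
    2 * Real.sinh ((1.63 + 0.0702) * t) < Real.exp (-(1.63 * t)) *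
      (Real.cos (1.63 * t) - Real.exp (-(4 * t)) * Real.cos (6.28 * t)) := by
  have a1 := mul_pos ht ht
  have a2 := pow_pos ht 3
  have a3 := pow_pos ht 4
  have a4 := pow_pos ht 5
  have a5 := pow_pos ht 6
  have a6 := pow_pos ht 7
  have a7 := pow_pos ht 8
  have b0 := mul_nonneg ht.le (sub_nonneg.2 ht1)
  have b1 := mul_nonneg (pow_pos ht 2).le (sub_nonneg.2 ht1)
  have b2 := mul_nonneg (pow_pos ht 3).le (sub_nonneg.2 ht1)
  have b3 := mul_nonneg (pow_pos ht 4).le (sub_nonneg.2 ht1)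
  have b4 := mul_nonneg (pow_pos ht 5).le (sub_nonneg.2 ht1)
  have b5 := mul_nonneg (pow_pos ht 6).le (sub_nonneg.2 ht1)
  have b6 := mul_nonneg (pow_pos ht 7).le (sub_nonneg.2 ht1)
  have b7 := mul_nonneg (pow_pos ht 8).le (sub_nonneg.2 ht1)
  apply num_red ht (by norm_num) (by linarith) (by norm_num) (by linarith) (by norm_num)
    (by linarith) (by norm_num) (by linarith)
  · nlinarith
  · nlinarith

/-- `1.7 ≤ L ≤ 2`, `F > 3π/2`, `σ ≤ 3π/2` -/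
theorem numE {t : ℝ} (ht : 0 < t) (ht1 : t ≤ 1 / 8) :
    2 * Real.sinh ((1.5 + 0.096) * t) < Real.exp (-(1.5 * t)) *
      (Real.cos (1.5 * t) - Real.exp (-(3.4 * t)) * Real.cos (6.28 * t)) := by
  have a1 := mul_pos ht ht
  have a2 := pow_pos ht 3
  have a3 := pow_pos ht 4
  have a4 := pow_pos ht 5
  have a5 := pow_pos ht 6
  have a6 := pow_pos ht 7
  have a7 := pow_pos ht 8
  have b0 := mul_nonneg ht.le (sub_nonneg.2 ht1)
  have b1 := mul_nonneg (pow_pos ht 2).le (sub_nonneg.2 ht1)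
  have b2 := mul_nonneg (pow_pos ht 3).le (sub_nonneg.2 ht1)
  have b3 := mul_nonneg (pow_pos ht 4).le (sub_nonneg.2 ht1)
  have b4 := mul_nonneg (pow_pos ht 5).le (sub_nonneg.2 ht1)
  have b5 := mul_nonneg (pow_pos ht 6).le (sub_nonneg.2 ht1)
  have b6 := mul_nonneg (pow_pos ht 7).le (sub_nonneg.2 ht1)
  have b7 := mul_nonneg (pow_pos ht 8).le (sub_nonneg.2 ht1)
  apply num_red ht (by norm_num) (by linarith) (by norm_num) (by linarith) (by norm_num)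
    (by linarith) (by norm_num) (by linarith)
  · nlinarith
  · nlinarith

end EQS
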