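import Mathlib
import Pool.Agent.Lib.MP_226de1_co.E.Basics

/-! Exact lower bounds for `log |b_1|` and `log |b_2|` at the exit states.

Notation: `Lam = X2 - X1`, `Lam2 = X3 - X2` (`b_j = exp (k Lam_j)`), `A_j = - Im X_j`,
`c1 = Im (X2 - d1)`, `c2 = Im (X3 - d2)` (`k c1 = arg p_{-2}`, `k c2 = arg p_{-3}`),
`g1 = Im (X1 - d1)`. -/

set_option autoImplicit false

namespace EQS

open Complex

variable {k C : ℝ} {q0 q1 q2 q3 d0 d1 d2 X1 X2 X3 : ℂ}

/-- the flow formula: `2 sinh Lam2 = eps (1 - e^{-2 Lam} + X (1 + tau))` -/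
theorem St.flow (h : St k C q0 q1 q2 q3 d0 d1 d2 X1 X2 X3) :
    2 * sinh (X3 - X2) = exp ((X2 - d1) - (X3 - d2)) *
      (1 - exp (-(2 * (X2 - X1))) + exp (2 * (d1 - X2)) * (1 + exp (d2 - d1))) := by
  have hr := h.rel
  have e : ∀ z : ℂ, exp (2 * z) = exp z ^ 2 := by
    intro z
    rw [← Complex.exp_nat_mul]
    congr 1
  have h1 := exp_ne_zero X1
  have h2 := exp_ne_zero X2
  have h3 := exp_ne_zero X3
  have h4 := exp_ne_zero d1
  have h5 := exp_ne_zero d2
  rw [e, e, e, exp_sub] at hr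
  have e1 : (2 : ℂ) * sinh (X3 - X2) = exp X3 / exp X2 - exp X2 / exp X3 := by
    rw [Complex.sinh, neg_sub, exp_sub, exp_sub]
    ring
  have e2 : exp (-(2 * (X2 - X1))) = exp X1 ^ 2 / exp X2 ^ 2 := by
    rw [← e, ← e, ← exp_sub]
    congr 1
    ring
  have e3 : exp (2 * (d1 - X2)) = exp d1 ^ 2 / exp X2 ^ 2 := by
    rw [← e, ← e, ← exp_sub]
    congr 1
    ring
  rw [e1, e2, e3, exp_sub, exp_sub, exp_sub, exp_sub]
  field_simp
  field_simp at hr
  linear_combination hr

/-- the geometric term of the flow formula has nonnegative real part -/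
theorem St.flow_re (h : St k C q0 q1 q2 q3 d0 d1 d2 X1 X2 X3) (hk : 8 ≤ k)
    (ht : Real.exp (d2 - d1).re ≤ 2) :
    0 ≤ (exp ((X2 - d1) - (X3 - d2)) * (exp (2 * (d1 - X2)) * (1 + exp (d2 - d1)))).re := by
  have k0 : 0 < k := by linarith
  have hpi := Real.pi_pos
  set c1 := (X2 - d1).im with hc1
  set c2 := (X3 - d2).im with hc2
  have hh : Real.pi / k ≤ Real.pi / 8 := by
    apply div_le_div_of_nonneg_left hpi.le (by norm_num) hk
  have b1 : |c1| < Real.pi / (2 * k) := by
    have := h.p2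
    rw [abs_mul, abs_of_pos k0] at this
    rw [lt_div_iff₀ (by linarith)]
    nlinarith
  have b2 : |c2| < Real.pi / (2 * k) := by
    have := h.p3
    rw [abs_mul, abs_of_pos k0] at this
    rw [lt_div_iff₀ (by linarith)]
    nlinarith
  have hhalf : Real.pi / (2 * k) = Real.pi / k / 2 := by
    field_simp
  rw [hhalf] at b1 b2
  rw [abs_lt] at b1 b2
  have e1 : exp ((X2 - d1) - (X3 - d2)) * (exp (2 * (d1 - X2)) * (1 + exp (d2 - d1))) =
      exp (-(X2 - d1) - (X3 - d2)) + exp (-(X2 - d1) - (X3 - d2) + (d2 - d1)) := by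
    rw [mul_add, mul_one, mul_add, ← exp_add, ← exp_add, ← exp_add]
    congr 2 <;> ring
  rw [e1, add_re, exp_re, exp_re]
  have i1 : (-(X2 - d1) - (X3 - d2)).im = -(c1 + c2) := by
    simp only [sub_im, neg_im, hc1, hc2]
    ring
  have i2 : (-(X2 - d1) - (X3 - d2) + (d2 - d1)).im = -(X2.im + 2 * c2 - X3.im) := by
    simp only [sub_im, neg_im, add_im, hc2]
    ring
  have r2 : (-(X2 - d1) - (X3 - d2) + (d2 - d1)).re =
      (-(X2 - d1) - (X3 - d2)).re + (d2 - d1).re := by
    rw [add_re]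
  rw [i1, i2, r2, Real.cos_neg, Real.cos_neg, Real.exp_add]
  -- `A3 + c2 < π/2`
  have hA3 : -X3.im + c2 < Real.pi / 2 := by
    have hD := h.D2
    rw [exp_re] at hD
    have hcos : 0 < Real.cos d2.im := (mul_pos_iff_of_pos_left (Real.exp_pos _)).1 hD
    by_contra hcon
    push Not at hcon
    have hd2 : d2.im = -(-X3.im + c2) := by
      simp only [hc2, sub_im]
      ring
    rw [hd2, Real.cos_neg] at hcos
    have h1 : -X3.im + c2 ≤ Real.pi + Real.pi / 2 := by linarith [h.a3.1]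
    have := Real.cos_nonpos_of_pi_div_two_le_of_le hcon h1
    linarith
  have h1 : Real.cos (Real.pi / 8) ≤ Real.cos (c1 + c2) := by
    rw [← Real.cos_abs (c1 + c2)]
    apply Real.cos_le_cos_of_nonneg_of_le_pi (abs_nonneg _) (by linarith)
    rw [abs_le]
    constructor <;> linarith
  have h2 : -Real.sin (Real.pi / 8) ≤ Real.cos (X2.im + 2 * c2 - X3.im) := by
    rw [← Real.cos_add_pi_div_two, ← Real.cos_abs (X2.im + 2 * c2 - X3.im)]
    apply Real.cos_le_cos_of_nonneg_of_le_pi (abs_nonneg _) (by linarith)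
    rw [abs_le]
    constructor
    · linarith [h.a2.1, h.a3.2]
    · linarith [h.a2.2]
  have h3 : 2 * Real.sin (Real.pi / 8) ≤ Real.cos (Real.pi / 8) := by
    have s1 : Real.sin (Real.pi / 8) ≤ Real.pi / 8 := Real.sin_le (by positivity)
    have s2 := Real.one_sub_sq_div_two_le_cos (x := Real.pi / 8)
    have s3 := Real.pi_lt_d4
    nlinarith
  have h4 : 0 ≤ Real.cos (c1 + c2) + Real.exp (d2 - d1).re *
      Real.cos (X2.im + 2 * c2 - X3.im) := by
    have s1 : 0 ≤ Real.sin (Real.pi / 8) :=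
      Real.sin_nonneg_of_nonneg_of_le_pi (by positivity) (by linarith)
    have s2 := Real.exp_pos (d2 - d1).re
    nlinarith
  have h5 := Real.exp_pos (-(X2 - d1) - (X3 - d2)).re
  nlinarith

/-- `Re (2 sinh z) = 2 sinh (Re z) cos (Im z)` -/
theorem two_sinh_re (z : ℂ) : (2 * sinh z).re = 2 * Real.sinh z.re * Real.cos z.im := by
  have : (2 : ℂ) * sinh z = exp z - exp (-z) := by
    rw [Complex.sinh]
    ring
  rw [this, sub_re, exp_re, exp_re, neg_re, neg_im, Real.cos_neg, Real.sinh_eq]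
  ring

/-- (LB): `2 sinh (Re Lam2) ≥ Re (eps (1 - e^{-2 Lam}))` when the right side is nonnegative -/
theorem St.LB (h : St k C q0 q1 q2 q3 d0 d1 d2 X1 X2 X3) (hk : 8 ≤ k)
    (ht : Real.exp (d2 - d1).re ≤ 2)
    (h0 : 0 ≤ (exp ((X2 - d1) - (X3 - d2)) * (1 - exp (-(2 * (X2 - X1))))).re) :
    (exp ((X2 - d1) - (X3 - d2)) * (1 - exp (-(2 * (X2 - X1))))).re ≤
      2 * Real.sinh (X3 - X2).re := by
  have h1 := h.flow_re hk ht
  have h2 := congrArg Complex.re h.flow
  rw [two_sinh_re, mul_add, add_re] at h2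
  have hc : 0 < Real.cos (X3 - X2).im := by
    rw [sub_im]
    apply Real.cos_pos_of_mem_Ioo
    constructor
    · linarith [h.a2.2, h.a3.1]
    · linarith [h.a2.1, h.a3.2]
  have hc1 := Real.cos_le_one (X3 - X2).im
  have h3 : 0 ≤ Real.sinh (X3 - X2).re := by
    by_contra hcon
    push Not at hcon
    have := mul_neg_of_neg_of_pos hcon hc
    linarith
  nlinarith

/-- the same with the real part written out -/
theorem St.LB_re (eps Lam : ℂ) :
    (exp eps * (1 - exp (-(2 * Lam)))).re =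
      Real.exp eps.re * (Real.cos eps.im - Real.exp (-(2 * Lam.re)) *
        Real.cos (eps.im - 2 * Lam.im)) := by
  rw [mul_sub, mul_one, ← exp_add, sub_re, exp_re, exp_re, add_re, add_im, Real.exp_add]
  have e1 : (-(2 * Lam)).re = -(2 * Lam.re) := by simp
  have e2 : (-(2 * Lam)).im = -(2 * Lam.im) := by simp
  rw [e1, e2]
  rw [← sub_eq_add_neg]
  ring

/-- (F1), real part: with `m = A1 - c1`, `v = A2 - A1`,
`e^{2 lam} cos (m + v) = cos (m - v) + 2 a |D| / |xi|^2 + (|D|/|xi|)^2 cos (arg D)`, `a = - Re q1` -/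
theorem St.F1_re (h : St k C q0 q1 q2 q3 d0 d1 d2 X1 X2 X3) :
    Real.exp (2 * (X2 - X1).re) * Real.cos (-X2.im - (X2 - d1).im) =
      Real.cos (-X1.im - (X1 - d1).im) +
        (2 * (-q1.re) * Real.exp (d1 - 2 * X1).re +
          Real.exp (2 * (d1 - X1)).re * Real.cos d1.im) := by
  -- `exp (2 (X2 - X1)) = 1 - 2 q1 D / xi^2 + D^2 / xi^2`, rotated
  have e : ∀ z : ℂ, exp (2 * z) = exp z ^ 2 := by
    intro z
    rw [← Complex.exp_nat_mul]
    congr 1
  have hq : q2 = q1 - exp d1 := by rw [h.s1]; ring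
  have h1 : exp (2 * (X2 - X1)) = 1 - 2 * q1 * exp (d1 - 2 * X1) + exp (2 * (d1 - X1)) := by
    have h2 : exp (2 * X2) = exp (2 * X1) - 2 * q1 * exp d1 + exp d1 ^ 2 := by
      rw [h.x2, h.x1, hq]
      ring
    have h3 : exp (2 * (X2 - X1)) = exp (2 * X2) * exp (-(2 * X1)) := by
      rw [← exp_add]
      congr 1
      ring
    have h4 : exp (d1 - 2 * X1) = exp d1 * exp (-(2 * X1)) := by
      rw [← exp_add]
      congr 1
    have h5 : exp (2 * (d1 - X1)) = exp d1 ^ 2 * exp (-(2 * X1)) := by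
      rw [← e, ← exp_add]
      congr 1
      ring
    have h6 : exp (2 * X1) * exp (-(2 * X1)) = 1 := by
      rw [← exp_add, add_neg_cancel, exp_zero]
    rw [h3, h4, h5, h2]
    linear_combination h6
  -- multiply by `exp (-i a')`, `a' = Im (d1 - 2 X1)`
  set a' : ℝ := (d1 - 2 * X1).im with ha'
  have h2 := congrArg (fun z => (z * exp (-(a' : ℂ) * I)).re) h1
  have hr : ∀ z : ℂ, (exp z * exp (-(a' : ℂ) * I)).re = Real.exp z.re * Real.cos (z.im - a') := by
    intro z
    rw [← exp_add, exp_re]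
    congr 2
    · simp
    · simp
      ring
  simp only [add_mul, sub_mul, add_re, sub_re, one_mul] at h2
  rw [hr, hr] at h2
  have h3 : (exp (-(a' : ℂ) * I)).re = Real.cos a' := by
    have := hr 0
    rw [exp_zero, one_mul] at this
    rw [this]
    simp
  have h4 : (2 * q1 * exp (d1 - 2 * X1) * exp (-(a' : ℂ) * I)).re =
      2 * q1.re * Real.exp (d1 - 2 * X1).re := by
    have e5 : exp (d1 - 2 * X1) * exp (-(a' : ℂ) * I) =
        ((Real.exp (d1 - 2 * X1).re : ℝ) : ℂ) := by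
      rw [← exp_add, ofReal_exp]
      congr 1
      apply Complex.ext
      · simp
      · simp [ha']
    rw [mul_assoc, e5, re_mul_ofReal]
    simp
  rw [h3, h4] at h2
  have t1 : (2 * (X2 - X1)).re = 2 * (X2 - X1).re := by simp
  have t2 : (2 * (X2 - X1)).im - a' = -(-X2.im - (X2 - d1).im) := by
    simp [ha']
    ring
  have t3 : a' = -X1.im - (X1 - d1).im := by
    simp [ha']
    ring
  have t4 : (2 * (d1 - X1)).im - a' = d1.im := by
    simp [ha']
    ring
  rw [t1, t2, t4, Real.cos_neg] at h2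
  have t5 : Real.cos a' = Real.cos (-X1.im - (X1 - d1).im) := by
    rw [← t3]
  rw [t5] at h2
  rw [h2]
  ring

/-- `e^{2z} (1 - z) ≤ 1 + z` for `z ≥ 0` -/
theorem exp_two_mul_le {z : ℝ} (hz : 0 ≤ z) : Real.exp (2 * z) * (1 - z) ≤ 1 + z := by
  have h : MonotoneOn (fun z : ℝ => (1 + z) * Real.exp (-z) - (1 - z) * Real.exp z) (Set.Ici 0) := by
    apply monotoneOn_of_deriv_nonneg (convex_Ici 0)
    · apply Continuous.continuousOn
      fun_prop
    · intro x _
      apply DifferentiableAt.differentiableWithinAt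
      fun_prop
    · intro x hx
      rw [interior_Ici] at hx
      have hx0 : 0 < x := hx
      have h1 : HasDerivAt (fun z : ℝ => (1 + z) * Real.exp (-z) - (1 - z) * Real.exp z)
          ((1 * Real.exp (-x) + (1 + x) * (Real.exp (-x) * -1)) -
            ((-1) * Real.exp x + (1 - x) * Real.exp x)) x := by
        have a1 : HasDerivAt (fun z : ℝ => 1 + z) 1 x := (hasDerivAt_id x).const_add 1
        have a2 : HasDerivAt (fun z : ℝ => 1 - z) (-1) x := by
          simpa using (hasDerivAt_id x).const_sub 1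
        have a3 : HasDerivAt (fun z : ℝ => Real.exp (-z)) (Real.exp (-x) * -1) x :=
          (Real.hasDerivAt_exp (-x)).comp x (hasDerivAt_neg x)
        exact (a1.mul a3).sub (a2.mul (Real.hasDerivAt_exp x))
      rw [h1.deriv]
      have h2 : Real.exp (-x) ≤ Real.exp x := Real.exp_le_exp.2 (by linarith)
      nlinarith
  have h1 := h (Set.mem_Ici.2 le_rfl) (Set.mem_Ici.2 hz) hz
  simp only [add_zero, neg_zero, Real.exp_zero, mul_one, sub_zero, sub_self] at h1
  have h2 : Real.exp (2 * z) = Real.exp z * Real.exp z := by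
    rw [← Real.exp_add]
    congr 1
    ring
  have h3 : Real.exp (-z) * Real.exp z = 1 := by
    rw [← Real.exp_add, neg_add_cancel, Real.exp_zero]
  have h4 := Real.exp_pos z
  have h5 : 0 ≤ ((1 + z) * Real.exp (-z) - (1 - z) * Real.exp z) * Real.exp z :=
    mul_nonneg h1 h4.le
  have h6 : ((1 + z) * Real.exp (-z) - (1 - z) * Real.exp z) * Real.exp z =
      (1 + z) * (Real.exp (-z) * Real.exp z) - (1 - z) * (Real.exp z * Real.exp z) := by ring
  rw [h6, h3] at h5
  rw [h2]
  linarith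

/-- `cos (m - v) ≥ e^{2 tan m tan v} cos (m + v)` -/
theorem cos_ratio {m v : ℝ} (hm : 0 ≤ m) (hv : 0 ≤ v) (hmv : m + v < Real.pi / 2) :
    Real.exp (2 * (Real.tan m * Real.tan v)) * Real.cos (m + v) ≤ Real.cos (m - v) := by
  have hpi := Real.pi_pos
  have hcm : 0 < Real.cos m := Real.cos_pos_of_mem_Ioo ⟨by linarith, by linarith⟩
  have hcv : 0 < Real.cos v := Real.cos_pos_of_mem_Ioo ⟨by linarith, by linarith⟩
  have hz : 0 ≤ Real.tan m * Real.tan v :=
    mul_nonneg (Real.tan_nonneg_of_nonneg_of_le_pi_div_two hm (by linarith))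
      (Real.tan_nonneg_of_nonneg_of_le_pi_div_two hv (by linarith))
  have h1 := exp_two_mul_le hz
  have h2 : Real.cos (m + v) = Real.cos m * Real.cos v * (1 - Real.tan m * Real.tan v) := by
    rw [Real.cos_add, Real.tan_eq_sin_div_cos, Real.tan_eq_sin_div_cos]
    field_simp
  have h3 : Real.cos (m - v) = Real.cos m * Real.cos v * (1 + Real.tan m * Real.tan v) := by
    rw [Real.cos_sub, Real.tan_eq_sin_div_cos, Real.tan_eq_sin_div_cos]
    field_simp
  rw [h2, h3]
  have h4 : 0 < Real.cos m * Real.cos v := mul_pos hcm hcv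
  nlinarith

/-- at an exit the step `D_0` is at least as long as `D_{-1}` -/
theorem St.exit_len (h : St k C q0 q1 q2 q3 d0 d1 d2 X1 X2 X3)
    (he : |k * (X1 - d0).im| = Real.pi / 2) : d1.re ≤ d0.re := by
  have h0 := pv_re_zero (C := C) he
  have h1 := h.f1_eq
  have h2 : ‖pv k C X1 d0‖ ^ 2 ≤ ‖pv k C X1 d1‖ ^ 2 := by
    rw [h1, ← Complex.normSq_eq_norm_sq, ← Complex.normSq_eq_norm_sq, Complex.normSq_apply,
      Complex.normSq_apply, sub_re, sub_im, one_re, one_im, h0]
    nlinarith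
  have h3 : ‖pv k C X1 d0‖ ≤ ‖pv k C X1 d1‖ := by
    apply le_of_sq_le_sq h2 (norm_nonneg _)
  rw [norm_pv h.C0, norm_pv h.C0, div_le_div_iff_of_pos_right h.C0, Real.exp_le_exp,
    mul_le_mul_iff_right₀ h.k0, sub_re, sub_re] at h3
  linarith

/-- cosine of the argument of a step with positive real part -/
theorem cos_pos_of_re {d : ℂ} (h : 0 < (exp d).re) : 0 < Real.cos d.im := by
  rw [exp_re] at h
  exact (mul_pos_iff_of_pos_left (Real.exp_pos _)).1 h

/-- (F1) as an inequality: `e^{2 lam} cos (m + v) ≥ cos (m - v) + |r|^{-2} (2 cos a0 + cos a1)` -/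
theorem St.F1_ge (h : St k C q0 q1 q2 q3 d0 d1 d2 X1 X2 X3)
    (he : |k * (X1 - d0).im| = Real.pi / 2) :
    Real.cos (-X1.im - (X1 - d1).im) +
        Real.exp (2 * (d1 - X1)).re * (2 * Real.cos d0.im + Real.cos d1.im) ≤
      Real.exp (2 * (X2 - X1).re) * Real.cos (-X2.im - (X2 - d1).im) := by
  rw [h.F1_re]
  have h1 := h.exit_len he
  have h2 := h.D0_le
  have hc := cos_pos_of_re h.D0
  rw [exp_re] at h2
  have h3 : Real.exp d1.re * Real.cos d0.im ≤ -q1.re := by
    refine le_trans ?_ h2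
    exact mul_le_mul_of_nonneg_right (Real.exp_le_exp.2 h1) hc.le
  have h4 : Real.exp (2 * (d1 - X1)).re = Real.exp d1.re * Real.exp (d1 - 2 * X1).re := by
    rw [← Real.exp_add]
    congr 1
    simp
    ring
  have h5 : Real.exp (2 * (d1 - X1)).re * Real.cos d0.im ≤
      -q1.re * Real.exp (d1 - 2 * X1).re := by
    rw [h4]
    have := mul_le_mul_of_nonneg_right h3 (Real.exp_pos (d1 - 2 * X1).re).le
    nlinarith
  nlinarith

/-- `A2 + c1 < π/2` (from `Re D_{-1} > 0`), in the form `-(π/2) < Im d1` -/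
theorem St.d1_im (h : St k C q0 q1 q2 q3 d0 d1 d2 X1 X2 X3) :
    -(Real.pi / 2) < d1.im ∧ d1.im < Real.pi / 4 := by
  have hpi := Real.pi_pos
  have k0 := h.k0
  have hk := h.hk
  have b1 : |(X2 - d1).im| < Real.pi / 4 := by
    have := h.p2
    rw [abs_mul, abs_of_pos k0] at this
    nlinarith [abs_nonneg (X2 - d1).im]
  have b2 := abs_lt.1 b1
  have hc := cos_pos_of_re h.D1
  have e1 : d1.im = X2.im - (X2 - d1).im := by
    rw [sub_im]
    ring
  constructor
  · by_contra hcon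
    push Not at hcon
    have h2 := Real.cos_nonpos_of_pi_div_two_le_of_le (x := -d1.im) (by linarith)
      (by linarith [h.a2.1])
    rw [Real.cos_neg] at h2
    linarith
  · linarith [h.a2.2]

/-- `|A2 - c1| < π/2` when `A1 ≤ π/4` -/
theorem St.mv_lt (h : St k C q0 q1 q2 q3 d0 d1 d2 X1 X2 X3) (hA : -(Real.pi / 4) ≤ X1.im) :
    -(Real.pi / 4) < -X2.im - (X2 - d1).im ∧ -X2.im - (X2 - d1).im < Real.pi / 2 := by
  have hpi := Real.pi_pos
  have h1 := h.F1_re
  have k0 := h.k0
  have hk := h.hk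
  have b1 : |(X2 - d1).im| < Real.pi / 4 := by
    have := h.p2
    rw [abs_mul, abs_of_pos k0] at this
    nlinarith [abs_nonneg (X2 - d1).im]
  have b2 := abs_lt.1 b1
  have hc1 : 0 < Real.cos d1.im := cos_pos_of_re h.D1
  refine ⟨by linarith [h.a2.2], ?_⟩
  have hpos : 0 < 2 * (-q1.re) * Real.exp (d1 - 2 * X1).re +
          Real.exp (2 * (d1 - X1)).re * Real.cos d1.im := by
    have := h.q1neg
    have e1 := Real.exp_pos (d1 - 2 * X1).re
    have e2 := Real.exp_pos (2 * (d1 - X1)).re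
    have : 0 < 2 * (-q1.re) * Real.exp (d1 - 2 * X1).re := by
      apply mul_pos (by linarith) e1
    have := mul_pos e2 hc1
    linarith
  by_contra hcon
  push Not at hcon
  have h2 := Real.cos_nonpos_of_pi_div_two_le_of_le hcon (by linarith [h.a2.1])
  have h3 : 0 ≤ Real.cos (-X1.im - (X1 - d1).im) := by
    have hd := h.d1_im
    have e1 : d1.im = X2.im - (X2 - d1).im := by
      rw [sub_im]
      ring
    apply Real.cos_nonneg_of_mem_Icc
    rw [sub_im]
    constructor
    · linarith [h.a1.2]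
    · linarith
  have h4 := Real.exp_pos (2 * (X2 - X1).re)
  have h5 : Real.exp (2 * (X2 - X1).re) * Real.cos (-X2.im - (X2 - d1).im) ≤ 0 :=
    mul_nonpos_of_nonneg_of_nonpos h4.le h2
  linarith

/-- (F2) `lam ≥ tan m tan v`, `m = A1 - c1`, `v = A2 - A1` -/
theorem St.F2 (h : St k C q0 q1 q2 q3 d0 d1 d2 X1 X2 X3) (hA : -(Real.pi / 4) ≤ X1.im)
    (hm : 0 ≤ -X1.im - (X2 - d1).im) (hv : X2.im ≤ X1.im) :
    Real.tan (-X1.im - (X2 - d1).im) * Real.tan (X1.im - X2.im) ≤ (X2 - X1).re := by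
  have hpi := Real.pi_pos
  obtain ⟨_, hlt⟩ := h.mv_lt hA
  have h1 := h.F1_re
  set m := -X1.im - (X2 - d1).im with hm'
  set v := X1.im - X2.im with hv'
  have e1 : -X2.im - (X2 - d1).im = m + v := by rw [hm', hv']; ring
  have e2 : -X1.im - (X1 - d1).im = m - v := by
    rw [hm', hv']
    simp only [sub_im]
    ring
  rw [e1] at hlt h1
  rw [e2] at h1
  have hpos : 0 ≤ 2 * (-q1.re) * Real.exp (d1 - 2 * X1).re +
          Real.exp (2 * (d1 - X1)).re * Real.cos d1.im := by
    have h2 := h.q1neg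
    have e1 := Real.exp_pos (d1 - 2 * X1).re
    have e2 := Real.exp_pos (2 * (d1 - X1)).re
    have hc1 : 0 < Real.cos d1.im := cos_pos_of_re h.D1
    have : 0 < 2 * (-q1.re) * Real.exp (d1 - 2 * X1).re := by
      apply mul_pos (by linarith) e1
    have := mul_pos e2 hc1
    linarith
  have h3 := cos_ratio hm (show 0 ≤ v by rw [hv']; linarith) hlt
  have hc : 0 < Real.cos (m + v) :=
    Real.cos_pos_of_mem_Ioo ⟨by rw [← e1] at *; linarith [h.mv_lt hA |>.1], hlt⟩
  have h4 : Real.exp (2 * (Real.tan m * Real.tan v)) * Real.cos (m + v) ≤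
      Real.exp (2 * (X2 - X1).re) * Real.cos (m + v) := by linarith
  have h5 := le_of_mul_le_mul_right h4 hc
  rw [Real.exp_le_exp] at h5
  linarith

end EQS
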