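import Mathlib

/-! The log form of the value Pick inequality: in `Re > 0` the hyperbolic distance is at least the
Euclidean distance of the logarithms. -/

set_option autoImplicit false

namespace EQS

open Complex Set

/-- `sinh r ≤ r cosh r` -/
theorem sinh_le_mul_cosh {r : ℝ} (hr : 0 ≤ r) : Real.sinh r ≤ r * Real.cosh r := by
  have h : MonotoneOn (fun r : ℝ => r * Real.cosh r - Real.sinh r) (Ici 0) := by
    apply monotoneOn_of_deriv_nonneg (convex_Ici 0)
    · exact ((continuous_id.mul Real.continuous_cosh).sub Real.continuous_sinh).continuousOn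
    · intro x _
      apply DifferentiableAt.differentiableWithinAt
      apply DifferentiableAt.sub
      · exact differentiableAt_id.mul (Real.differentiable_cosh x)
      · exact Real.differentiable_sinh x
    · intro x hx
      rw [interior_Ici] at hx
      have h1 : HasDerivAt (fun r : ℝ => r * Real.cosh r - Real.sinh r)
          (1 * Real.cosh x + x * Real.sinh x - Real.cosh x) x :=
        ((hasDerivAt_id x).mul (Real.hasDerivAt_cosh x)).sub (Real.hasDerivAt_sinh x)
      rw [h1.deriv]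
      have := mul_nonneg hx.le (Real.sinh_nonneg_iff.2 hx.le)
      linarith
  have := h (mem_Ici.2 le_rfl) (mem_Ici.2 hr) hr
  simp only [Real.sinh_zero, zero_mul, sub_zero] at this
  linarith

/-- `b cos b ≤ sin b` on `[0, π/2]` -/
theorem mul_cos_le_sin' {b : ℝ} (hb : 0 ≤ b) (hb' : b < Real.pi / 2) :
    b * Real.cos b ≤ Real.sin b := by
  have h0 : 0 < Real.cos b := Real.cos_pos_of_mem_Ioo ⟨by linarith [Real.pi_pos], hb'⟩
  have h1 := Real.le_tan hb hb'
  rw [Real.tan_eq_sin_div_cos, le_div_iff₀ h0] at h1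
  exact h1

/-- the strip metric: `cosh √(a² + b²) cos b ≤ cosh a` for `|b| < π/2` -/
theorem cosh_sqrt_mul_cos_le {a b : ℝ} (hb : 0 ≤ b) (hb' : b < Real.pi / 2) :
    Real.cosh (Real.sqrt (a ^ 2 + b ^ 2)) * Real.cos b ≤ Real.cosh a := by
  have h : AntitoneOn (fun b : ℝ => Real.cosh (Real.sqrt (a ^ 2 + b ^ 2)) * Real.cos b)
      (Ico 0 (Real.pi / 2)) := by
    apply antitoneOn_of_deriv_nonpos (convex_Ico 0 _)
    · apply Continuous.continuousOn
      fun_prop
    · intro x hx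
      rw [interior_Ico] at hx
      apply DifferentiableAt.differentiableWithinAt
      have : a ^ 2 + x ^ 2 ≠ 0 := by
        have := hx.1
        positivity
      fun_prop (disch := assumption)
    · intro x hx
      rw [interior_Ico] at hx
      have hx0 : 0 < x := hx.1
      have hs : 0 < a ^ 2 + x ^ 2 := by positivity
      set r := Real.sqrt (a ^ 2 + x ^ 2) with hr
      have hr0 : 0 < r := Real.sqrt_pos.2 hs
      have hd : HasDerivAt (fun b : ℝ => Real.cosh (Real.sqrt (a ^ 2 + b ^ 2)) * Real.cos b)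
          (Real.sinh r * (x / r) * Real.cos x + Real.cosh r * (-Real.sin x)) x := by
        have h1 : HasDerivAt (fun b : ℝ => a ^ 2 + b ^ 2) (2 * x) x := by
          have := (hasDerivAt_pow 2 x).const_add (a ^ 2)
          simpa using this
        have h2 := (h1.sqrt hs.ne').cosh
        have h3 := h2.mul (Real.hasDerivAt_cos x)
        rw [← hr] at h3
        have h4 : Real.sinh r * (2 * x / (2 * r)) * Real.cos x + Real.cosh r * -Real.sin x =
            Real.sinh r * (x / r) * Real.cos x + Real.cosh r * (-Real.sin x) := by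
          field_simp
        rw [h4] at h3
        exact h3
      rw [hd.deriv]
      have hc : 0 < Real.cos x :=
        Real.cos_pos_of_mem_Ioo ⟨by linarith [Real.pi_pos], hx.2⟩
      have h4 := sinh_le_mul_cosh hr0.le
      have h5 := mul_cos_le_sin' hx0.le hx.2
      have h6 : Real.sinh r * (x / r) * Real.cos x = (Real.sinh r / r) * (x * Real.cos x) := by
        field_simp
      have h7 : Real.sinh r / r ≤ Real.cosh r := by
        rw [div_le_iff₀ hr0]
        linarith
      have h8 : (Real.sinh r / r) * (x * Real.cos x) ≤ Real.cosh r * Real.sin x := by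
        apply mul_le_mul h7 h5 (by positivity) (Real.cosh_pos _).le
      rw [h6]
      linarith
  have := h (show (0 : ℝ) ∈ Ico 0 (Real.pi / 2) from ⟨le_rfl, by linarith⟩)
    (show b ∈ Ico 0 (Real.pi / 2) from ⟨hb, hb'⟩) hb
  simp only [Real.cos_zero, mul_one] at this
  have e : Real.sqrt (a ^ 2 + 0 ^ 2) = |a| := by
    rw [zero_pow two_ne_zero, add_zero, Real.sqrt_sq_eq_abs]
  rw [e, Real.cosh_abs] at this
  exact this

/-- hyperbolic versus Euclidean distance in the strip: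
`sinh² |a + i b| cos² b ≤ sinh² a + sin² b` -/
theorem sinh_sq_mul_cos_sq_le {a b : ℝ} (hb : |b| < Real.pi / 2) :
    Real.sinh (Real.sqrt (a ^ 2 + b ^ 2)) ^ 2 * Real.cos b ^ 2 ≤
      Real.sinh a ^ 2 + Real.sin b ^ 2 := by
  have h := cosh_sqrt_mul_cos_le (a := a) (abs_nonneg b) hb
  rw [sq_abs, Real.cos_abs] at h
  have hc : 0 < Real.cos b := by
    apply Real.cos_pos_of_mem_Ioo
    rw [abs_lt] at hb
    exact ⟨hb.1, hb.2⟩
  have h2 := pow_le_pow_left₀ (by positivity) h 2
  rw [mul_pow, Real.cosh_sq, Real.cosh_sq a] at h2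
  have h3 := Real.sin_sq_add_cos_sq b
  nlinarith

/-- `|p - q|² ≥ 4 (sinh² (X/2) + sin² (Y/2)) |p| |q|` (an equality), `X + iY = Log p - Log q` -/
theorem norm_sub_sq_log {p q : ℂ} (hp : p ≠ 0) (hq : q ≠ 0) :
    ‖p - q‖ ^ 2 = 4 * (Real.sinh ((Complex.log p - Complex.log q).re / 2) ^ 2 +
      Real.sin ((Complex.log p - Complex.log q).im / 2) ^ 2) * (‖p‖ * ‖q‖) := by
  have hp0 : 0 < ‖p‖ := norm_pos_iff.2 hp
  have hq0 : 0 < ‖q‖ := norm_pos_iff.2 hq
  rw [Complex.sub_re, Complex.sub_im, Complex.log_re, Complex.log_re, Complex.log_im,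
    Complex.log_im]
  have hp1 : p.re = ‖p‖ * Real.cos p.arg := (Complex.norm_mul_cos_arg p).symm
  have hp2 : p.im = ‖p‖ * Real.sin p.arg := (Complex.norm_mul_sin_arg p).symm
  have hq1 : q.re = ‖q‖ * Real.cos q.arg := (Complex.norm_mul_cos_arg q).symm
  have hq2 : q.im = ‖q‖ * Real.sin q.arg := (Complex.norm_mul_sin_arg q).symm
  have e1 : ‖p - q‖ ^ 2 = ‖p‖ ^ 2 + ‖q‖ ^ 2 - 2 * (‖p‖ * ‖q‖) * Real.cos (p.arg - q.arg) := by
    rw [← Complex.normSq_eq_norm_sq, Complex.normSq_apply, Complex.sub_re, Complex.sub_im,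
      Real.cos_sub, hp1, hp2, hq1, hq2]
    have s1 := Real.sin_sq_add_cos_sq p.arg
    have s2 := Real.sin_sq_add_cos_sq q.arg
    linear_combination (‖p‖ ^ 2) * s1 + (‖q‖ ^ 2) * s2
  have e2 : Real.cos (p.arg - q.arg) = 1 - 2 * Real.sin ((p.arg - q.arg) / 2) ^ 2 := by
    have h := Real.cos_two_mul ((p.arg - q.arg) / 2)
    have h1 := Real.sin_sq_add_cos_sq ((p.arg - q.arg) / 2)
    have h2 : 2 * ((p.arg - q.arg) / 2) = p.arg - q.arg := by ring
    rw [h2] at h
    rw [h]
    linear_combination 2 * h1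
  have e3 : 4 * Real.sinh ((Real.log ‖p‖ - Real.log ‖q‖) / 2) ^ 2 * (‖p‖ * ‖q‖) =
      ‖p‖ ^ 2 + ‖q‖ ^ 2 - 2 * (‖p‖ * ‖q‖) := by
    have h := Real.cosh_two_mul ((Real.log ‖p‖ - Real.log ‖q‖) / 2)
    have h1 := Real.cosh_sq ((Real.log ‖p‖ - Real.log ‖q‖) / 2)
    have h2 : 2 * ((Real.log ‖p‖ - Real.log ‖q‖) / 2) = Real.log ‖p‖ - Real.log ‖q‖ := by ring
    have h3 : Real.cosh (Real.log ‖p‖ - Real.log ‖q‖) = (‖p‖ / ‖q‖ + ‖q‖ / ‖p‖) / 2 := by
      rw [Real.cosh_eq, neg_sub, Real.exp_sub, Real.exp_sub, Real.exp_log hp0, Real.exp_log hq0]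
    rw [h2, h3] at h
    have h4 : 4 * Real.sinh ((Real.log ‖p‖ - Real.log ‖q‖) / 2) ^ 2 =
        ‖p‖ / ‖q‖ + ‖q‖ / ‖p‖ - 2 := by
      linear_combination (-2) * h - 2 * h1
    rw [h4]
    field_simp
  rw [e1, e2]
  linear_combination -e3

/-- **Log form of the value Pick inequality**, pointwise: if `s |p - q|² ≤ Re p Re q` then
`4 s sinh² (|Log p - Log q| / 2) ≤ 1`. -/
theorem log_pick {p q : ℂ} {s : ℝ} (hp : 0 < p.re) (hq : 0 < q.re) (hs : 0 ≤ s)
    (h : s * ‖p - q‖ ^ 2 ≤ p.re * q.re) :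
    4 * s * Real.sinh (‖Complex.log p - Complex.log q‖ / 2) ^ 2 ≤ 1 := by
  have hp' : p ≠ 0 := by
    rintro rfl
    exact lt_irrefl _ hp
  have hq' : q ≠ 0 := by
    rintro rfl
    exact lt_irrefl _ hq
  have hp0 : 0 < ‖p‖ := norm_pos_iff.2 hp'
  have hq0 : 0 < ‖q‖ := norm_pos_iff.2 hq'
  have key := norm_sub_sq_log hp' hq'
  set ω := Complex.log p - Complex.log q with hω
  have him : ω.im = p.arg - q.arg := by
    rw [hω, Complex.sub_im, Complex.log_im, Complex.log_im]
  have hpa : |p.arg| < Real.pi / 2 := Complex.abs_arg_lt_pi_div_two_iff.2 (Or.inl hp)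
  have hqa : |q.arg| < Real.pi / 2 := Complex.abs_arg_lt_pi_div_two_iff.2 (Or.inl hq)
  have hb : |ω.im / 2| < Real.pi / 2 := by
    rw [him]
    rw [abs_lt] at hpa hqa ⊢
    constructor
    · linarith [hpa.1, hqa.2]
    · linarith [hpa.2, hqa.1]
  have hbc : 0 < Real.cos (ω.im / 2) := by
    apply Real.cos_pos_of_mem_Ioo
    rw [abs_lt] at hb
    exact ⟨hb.1, hb.2⟩
  -- `Re p Re q ≤ |p| |q| cos² (Y/2)`
  have h1 : p.re * q.re ≤ ‖p‖ * ‖q‖ * Real.cos (ω.im / 2) ^ 2 := by
    have hp1 : p.re = ‖p‖ * Real.cos p.arg := (Complex.norm_mul_cos_arg p).symm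
    have hq1 : q.re = ‖q‖ * Real.cos q.arg := (Complex.norm_mul_cos_arg q).symm
    have h2 : Real.cos p.arg * Real.cos q.arg ≤ Real.cos (ω.im / 2) ^ 2 := by
      rw [him]
      have a1 : Real.cos (p.arg - q.arg) = 2 * Real.cos ((p.arg - q.arg) / 2) ^ 2 - 1 := by
        rw [← Real.cos_two_mul]
        congr 1
        ring
      have a2 : Real.cos (p.arg - q.arg) + Real.cos (p.arg + q.arg) =
          2 * (Real.cos p.arg * Real.cos q.arg) := by
        rw [Real.cos_sub, Real.cos_add]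
        ring
      have a3 := Real.cos_le_one (p.arg + q.arg)
      linarith
    calc p.re * q.re = ‖p‖ * ‖q‖ * (Real.cos p.arg * Real.cos q.arg) := by
          rw [hp1, hq1]
          ring
      _ ≤ _ := by
          apply mul_le_mul_of_nonneg_left h2 (by positivity)
  have h3 : ‖ω‖ / 2 = Real.sqrt ((ω.re / 2) ^ 2 + (ω.im / 2) ^ 2) := by
    have : (ω.re / 2) ^ 2 + (ω.im / 2) ^ 2 = (‖ω‖ / 2) ^ 2 := by
      have e : ‖ω‖ ^ 2 = ω.re ^ 2 + ω.im ^ 2 := by
        rw [← Complex.normSq_eq_norm_sq, Complex.normSq_apply]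
        ring
      linear_combination (-1 / 4) * e
    rw [this, Real.sqrt_sq (by positivity)]
  have h4 := sinh_sq_mul_cos_sq_le (a := ω.re / 2) hb
  rw [← h3] at h4
  -- combine
  have h5 : 4 * s * (Real.sinh (ω.re / 2) ^ 2 + Real.sin (ω.im / 2) ^ 2) ≤
      Real.cos (ω.im / 2) ^ 2 := by
    rw [key] at h
    have h6 := h.trans h1
    have hpq : 0 < ‖p‖ * ‖q‖ := mul_pos hp0 hq0
    nlinarith
  have hc2 : 0 < Real.cos (ω.im / 2) ^ 2 := by positivity
  have h7 : 4 * s * (Real.sinh (‖ω‖ / 2) ^ 2 * Real.cos (ω.im / 2) ^ 2) ≤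
      Real.cos (ω.im / 2) ^ 2 := by
    refine le_trans ?_ h5
    apply mul_le_mul_of_nonneg_left h4 (by linarith)
  nlinarith

end EQS
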