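import Mathlib
import Pool.Agent.Lib.MP_226de1_co.E.LowerL
import Pool.Agent.Lib.MP_226de1_co.E.PickLog

/-! `om = Log p_{-3} - Log p_{-2} = k ((X3 - d2) - (X2 - d1))` for an exit state, the log form of
the Pick inequality, and the modulus relation `Re om = log |b_2| + log |1 - 1/p_{-2}|`. -/

set_option autoImplicit false

namespace EQS

open Complex

variable {k C : ℝ} {q0 q1 q2 q3 d0 d1 d2 X1 X2 X3 : ℂ}

theorem log_pv {X d : ℂ} (hC : 0 < C) (h : |k * (X - d).im| < Real.pi / 2) :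
    Complex.log (pv k C X d) = (k : ℂ) * (X - d) - (Real.log C : ℂ) := by
  have hpi := Real.pi_pos
  have h1 : pv k C X d = exp ((k : ℂ) * (X - d) - (Real.log C : ℂ)) := by
    rw [exp_sub, ← ofReal_exp, Real.exp_log hC]
    rfl
  have h2 : ((k : ℂ) * (X - d) - (Real.log C : ℂ)).im = k * (X - d).im := by
    rw [sub_im, ofReal_im, sub_zero, im_ofReal_mul]
  have h3 := abs_lt.1 h
  rw [h1, Complex.log_exp]
  · rw [h2]
    linarith
  · rw [h2]
    linarith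

/-- `om = Log p_{-3} - Log p_{-2}` -/
theorem St.om_eq (h : St k C q0 q1 q2 q3 d0 d1 d2 X1 X2 X3) :
    Complex.log (pv k C X3 d2) - Complex.log (pv k C X2 d1) =
      (k : ℂ) * ((X3 - d2) - (X2 - d1)) := by
  rw [log_pv h.C0 h.p3, log_pv h.C0 h.p2]
  ring

/-- the log form of the Pick inequality for a state: `4 s sinh² (|om|/2) ≤ 1` -/
theorem St.spl (h : St k C q0 q1 q2 q3 d0 d1 d2 X1 X2 X3) {s : ℝ} (hs : 0 ≤ s)
    (hs' : s * ‖exp d1‖ ^ 2 ≤ (exp d0).re * (exp d0 + exp d1).re)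
    (hn : ‖pv k C X2 d1 - pv k C X3 d2‖ ^ 2 * ((exp d0).re * (exp d0 + exp d1).re) ≤
      ‖exp d1‖ ^ 2 * ((pv k C X2 d1).re * (pv k C X3 d2).re)) :
    4 * s * Real.sinh (‖(k : ℂ) * ((X3 - d2) - (X2 - d1))‖ / 2) ^ 2 ≤ 1 := by
  have hD : 0 < ‖exp d1‖ ^ 2 := by
    have := norm_pos_iff.2 (exp_ne_zero d1)
    positivity
  have h1 : s * ‖pv k C X3 d2 - pv k C X2 d1‖ ^ 2 ≤ (pv k C X3 d2).re * (pv k C X2 d1).re := by
    rw [norm_sub_rev]
    have h2 : ‖exp d1‖ ^ 2 * (s * ‖pv k C X2 d1 - pv k C X3 d2‖ ^ 2) ≤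
        ‖exp d1‖ ^ 2 * ((pv k C X3 d2).re * (pv k C X2 d1).re) := by
      calc ‖exp d1‖ ^ 2 * (s * ‖pv k C X2 d1 - pv k C X3 d2‖ ^ 2) =
            ‖pv k C X2 d1 - pv k C X3 d2‖ ^ 2 * (s * ‖exp d1‖ ^ 2) := by ring
        _ ≤ ‖pv k C X2 d1 - pv k C X3 d2‖ ^ 2 * ((exp d0).re * (exp d0 + exp d1).re) :=
            mul_le_mul_of_nonneg_left hs' (sq_nonneg _)
        _ ≤ _ := hn
        _ = _ := by ring
    exact le_of_mul_le_mul_left h2 hD
  rw [← h.om_eq]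
  exact log_pick h.P3_pos h.P_pos hs h1

/-- `e^om = b_2 (1/p_{-2} - 1)` -/
theorem St.exp_om (h : St k C q0 q1 q2 q3 d0 d1 d2 X1 X2 X3) :
    exp ((k : ℂ) * ((X3 - d2) - (X2 - d1))) =
      exp ((k : ℂ) * (X3 - X2)) * ((pv k C X2 d1)⁻¹ - 1) := by
  have hP : pv k C X2 d1 ≠ 0 := pv_ne h.C0
  have hC : (C : ℂ) ≠ 0 := by exact_mod_cast h.C0.ne'
  have h1 : exp ((k : ℂ) * ((X3 - d2) - (X2 - d1))) * pv k C X2 d1 = pv k C X3 d2 := by
    unfold pv
    rw [← mul_div_assoc, ← exp_add]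
    congr 2
    ring
  have h2 := h.P3_eq
  rw [← h1] at h2
  field_simp
  linear_combination h2

/-- the size of `f_{-1}` at an exit -/
theorem St.f1_norm (h : St k C q0 q1 q2 q3 d0 d1 d2 X1 X2 X3)
    (he : |k * (X1 - d0).im| = Real.pi / 2) : 1 ≤ ‖1 - pv k C X1 d0‖ := by
  have h0 := pv_re_zero (C := C) he
  have h1 := Complex.abs_re_le_norm (1 - pv k C X1 d0)
  rw [sub_re, one_re, h0, sub_zero, abs_one] at h1
  exact h1

/-- `|p_{-2}| ≥ |b_1|` -/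
theorem St.P_norm (h : St k C q0 q1 q2 q3 d0 d1 d2 X1 X2 X3)
    (he : |k * (X1 - d0).im| = Real.pi / 2) :
    Real.exp (k * (X2 - X1).re) ≤ ‖pv k C X2 d1‖ := by
  rw [h.P_eq, norm_mul, norm_exp, re_ofReal_mul]
  have := h.f1_norm he
  have h2 := Real.exp_pos (k * (X2 - X1).re)
  nlinarith

/-- `|1/p_{-2} - 1| ≥ 1 - e^{-L}`, `L = log |b_1|` -/
theorem St.inv_norm (h : St k C q0 q1 q2 q3 d0 d1 d2 X1 X2 X3)
    (he : |k * (X1 - d0).im| = Real.pi / 2) :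
    1 - Real.exp (-(k * (X2 - X1).re)) ≤ ‖(pv k C X2 d1)⁻¹ - 1‖ := by
  have h1 := h.P_norm he
  have h2 : ‖(pv k C X2 d1)⁻¹‖ ≤ Real.exp (-(k * (X2 - X1).re)) := by
    rw [norm_inv, Real.exp_neg]
    exact inv_anti₀ (Real.exp_pos _) h1
  have h3 := norm_sub_norm_le (1 : ℂ) (pv k C X2 d1)⁻¹
  rw [norm_one, norm_sub_rev] at h3
  linarith

/-- `e^{Re om} = |b_2| |1/p_{-2} - 1|` -/
theorem St.om_re (h : St k C q0 q1 q2 q3 d0 d1 d2 X1 X2 X3) :
    Real.exp ((k : ℂ) * ((X3 - d2) - (X2 - d1))).re =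
      Real.exp (k * (X3 - X2).re) * ‖(pv k C X2 d1)⁻¹ - 1‖ := by
  have := congrArg norm h.exp_om
  rw [norm_exp, norm_mul, norm_exp] at this
  rw [this, re_ofReal_mul]

/-- `|tau|^k |1/p_{-2} - 1| = 1` -/
theorem St.tau_norm (h : St k C q0 q1 q2 q3 d0 d1 d2 X1 X2 X3) :
    Real.exp (k * (d2 - d1).re) * ‖(pv k C X2 d1)⁻¹ - 1‖ = 1 := by
  have h1 : pv k C X2 d2 = exp ((k : ℂ) * (d1 - d2)) * pv k C X2 d1 := pv_step
  have hP : pv k C X2 d1 ≠ 0 := pv_ne h.C0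
  have h2 : exp ((k : ℂ) * (d2 - d1)) * ((pv k C X2 d1)⁻¹ - 1) = 1 := by
    have h3 : exp ((k : ℂ) * (d2 - d1)) * exp ((k : ℂ) * (d1 - d2)) = 1 := by
      rw [← exp_add, ← exp_zero]
      congr 1
      ring
    have h4 := h.f2_eq
    rw [h1] at h4
    have h5 : (pv k C X2 d1)⁻¹ - 1 = exp ((k : ℂ) * (d1 - d2)) := by
      field_simp
      linear_combination -h4
    rw [h5, h3]
  have := congrArg norm h2
  rw [norm_mul, norm_exp, re_ofReal_mul, norm_one] at this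
  exact this

/-- lower bound for `s = Re D0 Re (D0 + D1) / |D1|^2` at an exit -/
theorem St.s_ge (h : St k C q0 q1 q2 q3 d0 d1 d2 X1 X2 X3)
    (he : |k * (X1 - d0).im| = Real.pi / 2) :
    Real.cos d0.im * (Real.cos d0.im + Real.cos d1.im) * ‖exp d1‖ ^ 2 ≤
      (exp d0).re * (exp d0 + exp d1).re := by
  have h1 := Real.exp_le_exp.2 (h.exit_len he)
  have c0 := cos_pos_of_re h.D0
  have c1 := cos_pos_of_re h.D1
  rw [norm_exp, add_re, exp_re, exp_re]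
  have e0 := Real.exp_pos d0.re
  have e1 := Real.exp_pos d1.re
  have h2 : Real.exp d1.re * Real.cos d0.im ≤ Real.exp d0.re * Real.cos d0.im :=
    mul_le_mul_of_nonneg_right h1 c0.le
  calc Real.cos d0.im * (Real.cos d0.im + Real.cos d1.im) * Real.exp d1.re ^ 2 =
        (Real.exp d1.re * Real.cos d0.im) *
          (Real.exp d1.re * Real.cos d0.im + Real.exp d1.re * Real.cos d1.im) := by ring
    _ ≤ _ := by
        apply mul_le_mul h2 (by linarith) (by positivity) (by positivity)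

end EQS
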