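import Mathlib
import Pool.Agent.Lib.MP_226de1_co.E.Omega

/-! The real part of `om`: in the zone `|om| ≤ d` the modulus relation and (LB) give
`e^{-dt} (cos dt - e^{-2Lt} cos θt) ≤ 2 sinh ((d + r) t)`, `t = 1/k`. -/

set_option autoImplicit false

namespace EQS

open Complex

variable {k C : ℝ} {q0 q1 q2 q3 d0 d1 d2 X1 X2 X3 : ℂ}

/-- the zone: `|om| < d` when the Pick inequality holds -/
theorem St.norm_om_lt (h : St k C q0 q1 q2 q3 d0 d1 d2 X1 X2 X3)
    (he : |k * (X1 - d0).im| = Real.pi / 2)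
    (hn : ‖pv k C X2 d1 - pv k C X3 d2‖ ^ 2 * ((exp d0).re * (exp d0 + exp d1).re) ≤
      ‖exp d1‖ ^ 2 * ((pv k C X2 d1).re * (pv k C X3 d2).re))
    {s d : ℝ} (hs : 0 < s) (hss : s ≤ Real.cos d0.im * (Real.cos d0.im + Real.cos d1.im))
    (hd : 0 ≤ d) (hsd : 1 < 4 * s * Real.sinh (d / 2) ^ 2) :
    ‖(k : ℂ) * ((X3 - d2) - (X2 - d1))‖ < d := by
  have h1 : s * ‖exp d1‖ ^ 2 ≤ (exp d0).re * (exp d0 + exp d1).re :=
    le_trans (mul_le_mul_of_nonneg_right hss (sq_nonneg _)) (h.s_ge he)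
  have h2 := h.spl hs.le h1 hn
  by_contra hcon
  push Not at hcon
  set w := ‖(k : ℂ) * ((X3 - d2) - (X2 - d1))‖ with hw
  have h3 : Real.sinh (d / 2) ≤ Real.sinh (w / 2) := Real.sinh_le_sinh.2 (by linarith)
  have h4 : 0 ≤ Real.sinh (d / 2) := Real.sinh_nonneg_iff.2 (by linarith)
  have h5 : Real.sinh (d / 2) ^ 2 ≤ Real.sinh (w / 2) ^ 2 := pow_le_pow_left₀ h4 h3 2
  nlinarith

/-- the real-part inequality in the zone -/
theorem St.real_ineq (h : St k C q0 q1 q2 q3 d0 d1 d2 X1 X2 X3) (hk : 8 ≤ k)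
    {d r L θ : ℝ} (hw : ‖(k : ℂ) * ((X3 - d2) - (X2 - d1))‖ ≤ d) (hd : d ≤ 2) (hr1 : r ≤ 1)
    (hr : Real.exp (-r) ≤ ‖(pv k C X2 d1)⁻¹ - 1‖)
    (hL : L ≤ k * (X2 - X1).re) (hθ : 0 ≤ θ) (hθ2 : θ / k ≤ 3 / 2)
    (hθ1 : θ = 0 ∨ θ ≤ 2 * (k * (X1 - X2).im) - ((k : ℂ) * ((X3 - d2) - (X2 - d1))).im)
    (hpos : 0 ≤ Real.cos (d / k) - Real.exp (-(2 * L / k)) * Real.cos (θ / k)) :
    Real.exp (-(d / k)) * (Real.cos (d / k) - Real.exp (-(2 * L / k)) * Real.cos (θ / k)) ≤
      2 * Real.sinh ((d + r) / k) := by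
  have hpi := Real.pi_pos
  have hpi3 := Real.pi_gt_three
  have k0 : 0 < k := by linarith
  have d0' : 0 ≤ d := le_trans (norm_nonneg _) hw
  set w : ℂ := (k : ℂ) * ((X3 - d2) - (X2 - d1)) with hwdef
  have hwr : |w.re| ≤ d := (Complex.abs_re_le_norm w).trans hw
  have hwi : |w.im| ≤ d := (Complex.abs_im_le_norm w).trans hw
  have e_re : ((X2 - d1) - (X3 - d2)).re = -(w.re / k) := by
    have : w.re = k * ((X3 - d2) - (X2 - d1)).re := by rw [hwdef, re_ofReal_mul]
    rw [this, mul_div_cancel_left₀ _ k0.ne']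
    simp
  have e_im : ((X2 - d1) - (X3 - d2)).im = -(w.im / k) := by
    have : w.im = k * ((X3 - d2) - (X2 - d1)).im := by rw [hwdef, im_ofReal_mul]
    rw [this, mul_div_cancel_left₀ _ k0.ne']
    simp
  -- `|tau| ≤ 2`
  have htau : Real.exp (d2 - d1).re ≤ 2 := by
    have h1 := h.tau_norm
    have h2 : Real.exp (k * (d2 - d1).re) ≤ Real.exp r := by
      have h3 : Real.exp (k * (d2 - d1).re) * Real.exp (-r) ≤ 1 := by
        rw [← h1]
        exact mul_le_mul_of_nonneg_left hr (Real.exp_pos _).le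
      have h4 : Real.exp r * Real.exp (-r) = 1 := by
        rw [← Real.exp_add, add_neg_cancel, Real.exp_zero]
      have h5 := Real.exp_pos (-r)
      nlinarith
    have h3 := Real.exp_le_exp.1 h2
    have h4 : (d2 - d1).re ≤ 1 / 8 := by
      by_contra hcon
      push Not at hcon
      nlinarith
    have h5 := Real.exp_le_exp.2 h4
    have h6 : Real.exp (1 / 8 : ℝ) ≤ Real.exp (Real.log 2) := by
      apply Real.exp_le_exp.2
      linarith [Real.log_two_gt_d9]
    rw [Real.exp_log (by norm_num)] at h6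
    linarith
  -- the angles
  have hv1 : (X1 - X2).im < Real.pi / 2 := by
    rw [sub_im]
    linarith [h.a1.2, h.a2.1]
  set A : ℝ := ((X2 - d1) - (X3 - d2)).im - 2 * (X2 - X1).im with hAdef
  have hA1 : A = (2 * (k * (X1 - X2).im) - w.im) / k := by
    rw [hAdef, e_im]
    simp only [sub_im]
    field_simp
    ring
  have hdk : d / k ≤ 1 / 4 := by
    rw [div_le_iff₀ k0]
    linarith
  have hcosA : Real.cos A ≤ Real.cos (θ / k) := by
    rcases hθ1 with h1 | h1
    · rw [h1, zero_div, Real.cos_zero]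
      exact Real.cos_le_one _
    · have h2 : θ / k ≤ A := by
        rw [hA1]
        exact div_le_div_of_nonneg_right h1 k0.le
      have h3 : A ≤ Real.pi + 1 / 4 := by
        have h4 : A = 2 * (X1 - X2).im - w.im / k := by
          rw [hA1]
          field_simp
        have h5 : -(w.im / k) ≤ 1 / 4 := by
          have := (abs_le.1 hwi).1
          rw [← neg_div, div_le_iff₀ k0]
          linarith
        rw [h4]
        linarith
      have h0 : 0 ≤ θ / k := div_nonneg hθ k0.le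
      rcases le_or_gt A Real.pi with h6 | h6
      · exact Real.cos_le_cos_of_nonneg_of_le_pi h0 h6 h2
      · have h7 : Real.cos A = Real.cos (2 * Real.pi - A) := by
          rw [Real.cos_two_pi_sub]
        rw [h7]
        apply Real.cos_le_cos_of_nonneg_of_le_pi h0 (by linarith) (by linarith)
  have hcos1 : Real.cos (d / k) ≤ Real.cos ((X2 - d1) - (X3 - d2)).im := by
    rw [e_im, Real.cos_neg, ← Real.cos_abs (w.im / k)]
    apply Real.cos_le_cos_of_nonneg_of_le_pi (abs_nonneg _) (by linarith)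
    rw [abs_div, abs_of_pos k0]
    exact div_le_div_of_nonneg_right hwi k0.le
  have hexpL : Real.exp (-(2 * (X2 - X1).re)) ≤ Real.exp (-(2 * L / k)) := by
    apply Real.exp_le_exp.2
    have : L / k ≤ (X2 - X1).re := by
      rw [div_le_iff₀ k0]
      linarith
    have e : 2 * L / k = 2 * (L / k) := by ring
    rw [e]
    linarith
  have hθk : 0 ≤ Real.cos (θ / k) := by
    apply Real.cos_nonneg_of_mem_Icc
    constructor
    · have := div_nonneg hθ k0.le
      linarith
    · linarith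
  -- bracket comparison
  have hbr : Real.cos (d / k) - Real.exp (-(2 * L / k)) * Real.cos (θ / k) ≤
      Real.cos ((X2 - d1) - (X3 - d2)).im - Real.exp (-(2 * (X2 - X1).re)) * Real.cos A := by
    have h2 := Real.exp_pos (-(2 * (X2 - X1).re))
    have h3 : Real.exp (-(2 * (X2 - X1).re)) * Real.cos A ≤
        Real.exp (-(2 * (X2 - X1).re)) * Real.cos (θ / k) :=
      mul_le_mul_of_nonneg_left hcosA h2.le
    have h4 : Real.exp (-(2 * (X2 - X1).re)) * Real.cos (θ / k) ≤
        Real.exp (-(2 * L / k)) * Real.cos (θ / k) :=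
      mul_le_mul_of_nonneg_right hexpL hθk
    linarith
  have hexpd : Real.exp (-(d / k)) ≤ Real.exp ((X2 - d1) - (X3 - d2)).re := by
    rw [e_re]
    apply Real.exp_le_exp.2
    have : w.re / k ≤ d / k := div_le_div_of_nonneg_right ((le_abs_self _).trans hwr) k0.le
    linarith
  have hLB1 := St.LB_re ((X2 - d1) - (X3 - d2)) (X2 - X1)
  have hprod : Real.exp (-(d / k)) * (Real.cos (d / k) -
      Real.exp (-(2 * L / k)) * Real.cos (θ / k)) ≤
      (exp ((X2 - d1) - (X3 - d2)) * (1 - exp (-(2 * (X2 - X1))))).re := by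
    rw [hLB1]
    exact mul_le_mul hexpd hbr hpos (Real.exp_pos _).le
  have hLB2 := h.LB hk htau (le_trans (mul_nonneg (Real.exp_pos _).le hpos) hprod)
  refine le_trans (le_trans hprod hLB2) ?_
  -- `L2 ≤ d + r`
  have h1 := h.om_re
  rw [← hwdef] at h1
  have h2 : Real.exp (k * (X3 - X2).re) * Real.exp (-r) ≤ Real.exp w.re := by
    rw [h1]
    exact mul_le_mul_of_nonneg_left hr (Real.exp_pos _).le
  rw [← Real.exp_add, Real.exp_le_exp] at h2
  have h3 : (X3 - X2).re ≤ (d + r) / k := by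
    rw [le_div_iff₀ k0]
    have := (le_abs_self _).trans hwr
    linarith
  have h4 := Real.sinh_le_sinh.2 h3
  linarith

end EQS
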