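import Mathlib
import Pool.Agent.Lib.MP_226de1_co.E.Basics

/-! Facts at an exit of `Re f_{-1} < 1` (`Re p_{-1} = 0`).

* `s_lower`: `Re D_0 Re (D_0 + D_{-1}) ≥ |D_{-1}|^2 cos a_0 (cos a_0 + cos a_1)`;
* `circ`: with `1/p_{-2} = 1 + r e^{i φ}`, `φ = arg p_{-3} - arg p_{-2} + σ_2`, `E = 1/|b_1|`:
  `r^2 + r (2 cos φ - E cos (φ - σ)) + 1 - E cos σ = 0`;
* `phase`: `2 sin φ ≤ E (1 + sin (φ - σ))`. -/

set_option autoImplicit false

namespace EQS

open Complex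

section W1

variable {k C : ℝ} {q0 q1 q2 q3 d0 d1 d2 X1 X2 X3 : ℂ}

/-- at a `W1` exit the last step is not shorter than the one before -/
theorem St.step_le (h : St k C q0 q1 q2 q3 d0 d1 d2 X1 X2 X3)
    (he : |k * (X1 - d0).im| = Real.pi / 2) : d1.re ≤ d0.re := by
  have hC := h.C0
  have hk := h.k0
  have h1 : (pv k C X1 d0).re = 0 := pv_re_zero he
  have h2 : ‖pv k C X1 d0‖ ≤ ‖pv k C X1 d1‖ := by
    rw [h.f1_eq]
    have e1 : Complex.normSq (pv k C X1 d0) ≤ Complex.normSq (1 - pv k C X1 d0) := by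
      rw [Complex.normSq_apply, Complex.normSq_apply, sub_re, sub_im, one_re, one_im, h1]
      nlinarith
    rw [Complex.normSq_eq_norm_sq, Complex.normSq_eq_norm_sq] at e1
    exact le_of_sq_le_sq e1 (norm_nonneg _)
  rw [norm_pv hC, norm_pv hC, div_le_div_iff_of_pos_right hC, Real.exp_le_exp, sub_re, sub_re]
    at h2
  have h3 := le_of_mul_le_mul_left h2 hk
  linarith

theorem St.cos0 (h : St k C q0 q1 q2 q3 d0 d1 d2 X1 X2 X3) : 0 < Real.cos d0.im := by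
  have := h.D0
  rw [exp_re] at this
  exact (pos_iff_pos_of_mul_pos this).1 (Real.exp_pos _)

theorem St.cos1 (h : St k C q0 q1 q2 q3 d0 d1 d2 X1 X2 X3) : 0 < Real.cos d1.im := by
  have := h.D1
  rw [exp_re] at this
  exact (pos_iff_pos_of_mul_pos this).1 (Real.exp_pos _)

/-- lower bound of `s = Re D_0 Re (D_0 + D_{-1}) / |D_{-1}|^2` at a `W1` exit -/
theorem St.s_lower (h : St k C q0 q1 q2 q3 d0 d1 d2 X1 X2 X3)
    (he : |k * (X1 - d0).im| = Real.pi / 2) :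
    ‖exp d1‖ ^ 2 * (Real.cos d0.im * (Real.cos d0.im + Real.cos d1.im)) ≤
      (exp d0).re * (exp d0 + exp d1).re := by
  have h1 := h.step_le he
  have c0 := h.cos0
  have c1 := h.cos1
  rw [norm_exp, add_re, exp_re, exp_re]
  have e1 : Real.exp d1.re ≤ Real.exp d0.re := Real.exp_le_exp.2 h1
  have e0 : 0 < Real.exp d1.re := Real.exp_pos _
  have e2 : Real.exp d1.re * Real.cos d0.im ≤ Real.exp d0.re * Real.cos d0.im :=
    mul_le_mul_of_nonneg_right e1 c0.le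
  have e3 : 0 < Real.exp d1.re * Real.cos d0.im := mul_pos e0 c0
  have e4 : 0 < Real.exp d1.re * Real.cos d1.im := mul_pos e0 c1
  calc Real.exp d1.re ^ 2 * (Real.cos d0.im * (Real.cos d0.im + Real.cos d1.im)) =
        (Real.exp d1.re * Real.cos d0.im) *
          (Real.exp d1.re * Real.cos d0.im + Real.exp d1.re * Real.cos d1.im) := by ring
    _ ≤ (Real.exp d0.re * Real.cos d0.im) *
          (Real.exp d0.re * Real.cos d0.im + Real.exp d1.re * Real.cos d1.im) := by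
        apply mul_le_mul e2 (by linarith) (by linarith) (by linarith)

/-- argument of `D_0` at the exit -/
theorem St.im_d0 (h : St k C q0 q1 q2 q3 d0 d1 d2 X1 X2 X3)
    (he : |k * (X1 - d0).im| = Real.pi / 2) :
    d0.im = X1.im - Real.pi / (2 * k) ∨ d0.im = X1.im + Real.pi / (2 * k) := by
  have hk := h.k0
  rcases abs_cases (k * (X1 - d0).im) with ⟨h1, _⟩ | ⟨h1, _⟩
  · left
    have : k * (X1 - d0).im = Real.pi / 2 := by rw [← h1]; exact he
    rw [sub_im] at this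
    field_simp
    nlinarith
  · right
    have : k * (X1 - d0).im = -(Real.pi / 2) := by linarith
    rw [sub_im] at this
    field_simp
    nlinarith

/-- `1/f_{-1}` lies on the circle with diameter `[0,1]` -/
theorem St.w_circ (h : St k C q0 q1 q2 q3 d0 d1 d2 X1 X2 X3)
    (he : |k * (X1 - d0).im| = Real.pi / 2) :
    ‖1 / pv k C X1 d1 - 1 / 2‖ = 1 / 2 := by
  have h0 : pv k C X1 d1 ≠ 0 := pv_ne h.C0
  have h1 : (pv k C X1 d1).re = 1 := by
    rw [h.f1_eq, sub_re, one_re, pv_re_zero he, sub_zero]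
  have h2 : (1 : ℂ) / pv k C X1 d1 - 1 / 2 = (2 - pv k C X1 d1) / (2 * pv k C X1 d1) := by
    field_simp
  have h3 : ‖2 - pv k C X1 d1‖ = ‖pv k C X1 d1‖ := by
    have : Complex.normSq (2 - pv k C X1 d1) = Complex.normSq (pv k C X1 d1) := by
      rw [Complex.normSq_apply, Complex.normSq_apply, sub_re, sub_im, h1]
      norm_num
    rw [Complex.normSq_eq_norm_sq, Complex.normSq_eq_norm_sq] at this
    have := congrArg Real.sqrt this
    rwa [Real.sqrt_sq (norm_nonneg _), Real.sqrt_sq (norm_nonneg _)] at this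
  rw [h2, norm_div, norm_mul, h3]
  have h4 : ‖pv k C X1 d1‖ ≠ 0 := norm_ne_zero_iff.2 h0
  have h5 : ‖(2 : ℂ)‖ = 2 := by simp
  rw [h5]
  field_simp

/-- `E = 1/|b_1|`, `σ = - arg b_1`, `φ = arg p_{-3} - arg p_{-2} - arg b_2` (lifted),
`r = |p_{-3}| / (|p_{-2}| |b_2|)` -/
theorem St.inv_P (h : St k C q0 q1 q2 q3 d0 d1 d2 X1 X2 X3) :
    1 / pv k C X2 d1 = 1 + ((Real.exp (k * ((X3 - d2).re - (X2 - d1).re - (X3 - X2).re)) : ℝ) : ℂ) *
      exp (((k * ((X3 - d2).im - (X2 - d1).im - (X3 - X2).im) : ℝ) : ℂ) * I) := by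
  have hC := h.C0
  have hP : pv k C X2 d1 ≠ 0 := pv_ne hC
  have h1 := h.P3_eq
  have h2 : pv k C X3 d2 = exp ((k : ℂ) * ((X3 - d2) - (X2 - d1))) * pv k C X2 d1 := by
    unfold pv
    rw [← mul_div_assoc, ← exp_add]
    congr 2
    ring
  have h3 : exp ((k : ℂ) * ((X3 - d2) - (X2 - d1) - (X3 - X2))) * pv k C X2 d1 =
      1 - pv k C X2 d1 := by
    have h4 : exp ((k : ℂ) * (X3 - X2)) ≠ 0 := exp_ne_zero _
    apply mul_left_cancel₀ h4
    rw [← h1, h2, ← mul_assoc, ← exp_add]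
    congr 2
    ring
  have h5 : exp ((k : ℂ) * ((X3 - d2) - (X2 - d1) - (X3 - X2))) =
      ((Real.exp (k * ((X3 - d2).re - (X2 - d1).re - (X3 - X2).re)) : ℝ) : ℂ) *
      exp (((k * ((X3 - d2).im - (X2 - d1).im - (X3 - X2).im) : ℝ) : ℂ) * I) := by
    rw [ofReal_exp, ← exp_add]
    congr 1
    apply Complex.ext
    · simp
    · simp
  rw [← h5]
  field_simp
  linear_combination -h3

/-- the circle equation for `(r, φ)` -/
theorem circ_alg {E σ φ r : ℝ} {z : ℂ} (hz : z = 1 + (r : ℂ) * exp ((φ : ℂ) * I))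
    (hc : ‖z - (E / 2 : ℝ) * exp ((σ : ℂ) * I)‖ = E / 2) :
    r ^ 2 + r * (2 * Real.cos φ - E * Real.cos (φ - σ)) + 1 - E * Real.cos σ = 0 := by
  have h1 : Complex.normSq (z - (E / 2 : ℝ) * exp ((σ : ℂ) * I)) = (E / 2) ^ 2 := by
    rw [Complex.normSq_eq_norm_sq, hc]
  rw [hz, Complex.normSq_apply] at h1
  simp only [sub_re, add_re, one_re, mul_re, ofReal_re, ofReal_im, exp_ofReal_mul_I_re,
    exp_ofReal_mul_I_im, sub_im, add_im, one_im, mul_im] at h1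
  have hs1 := Real.sin_sq_add_cos_sq φ
  have hs2 := Real.sin_sq_add_cos_sq σ
  rw [Real.cos_sub]
  nlinarith

/-- necessary condition of phase -/
theorem phase_alg {E σ φ r : ℝ} {z : ℂ} (hz : z = 1 + (r : ℂ) * exp ((φ : ℂ) * I))
    (hc : ‖z - (E / 2 : ℝ) * exp ((σ : ℂ) * I)‖ = E / 2) :
    2 * Real.sin φ ≤ E * (1 + Real.sin (φ - σ)) := by
  have h1 : -(E / 2) ≤ (exp (((-φ : ℝ) : ℂ) * I) * (z - (E / 2 : ℝ) * exp ((σ : ℂ) * I))).im := by
    have h2 := Complex.abs_im_le_norm (exp (((-φ : ℝ) : ℂ) * I) *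
      (z - (E / 2 : ℝ) * exp ((σ : ℂ) * I)))
    rw [norm_mul, Complex.norm_exp_ofReal_mul_I, one_mul, hc] at h2
    linarith [(abs_le.1 h2).1]
  rw [hz] at h1
  simp only [sub_re, add_re, one_re, mul_re, ofReal_re, ofReal_im, exp_ofReal_mul_I_re,
    exp_ofReal_mul_I_im, sub_im, add_im, one_im, mul_im, Real.cos_neg, Real.sin_neg] at h1
  rw [Real.sin_sub]
  nlinarith

/-- `1/p_{-2}` lies on the circle with diameter `[0, 1/b_1]` -/
theorem St.z_circ (h : St k C q0 q1 q2 q3 d0 d1 d2 X1 X2 X3)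
    (he : |k * (X1 - d0).im| = Real.pi / 2) :
    ‖1 / pv k C X2 d1 - (Real.exp (-(k * (X2 - X1).re)) / 2 : ℝ) *
      exp (((-(k * (X2 - X1).im) : ℝ) : ℂ) * I)‖ = Real.exp (-(k * (X2 - X1).re)) / 2 := by
  have h1 := h.w_circ he
  have h2 : exp ((k : ℂ) * (X2 - X1)) ≠ 0 := exp_ne_zero _
  have h0 : pv k C X1 d1 ≠ 0 := pv_ne h.C0
  have h3 : (1 : ℂ) / pv k C X2 d1 = exp (-((k : ℂ) * (X2 - X1))) * (1 / pv k C X1 d1) := by
    rw [pv_mul (X := X1) (Y := X2), exp_neg]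
    field_simp
  have h4 : exp (-((k : ℂ) * (X2 - X1))) = ((Real.exp (-(k * (X2 - X1).re)) : ℝ) : ℂ) *
      exp (((-(k * (X2 - X1).im) : ℝ) : ℂ) * I) := by
    rw [ofReal_exp, ← exp_add]
    congr 1
    apply Complex.ext
    · simp
    · simp
  have h5 : (1 : ℂ) / pv k C X2 d1 - (Real.exp (-(k * (X2 - X1).re)) / 2 : ℝ) *
      exp (((-(k * (X2 - X1).im) : ℝ) : ℂ) * I) =
      exp (-((k : ℂ) * (X2 - X1))) * (1 / pv k C X1 d1 - 1 / 2) := by
    have h6 : ∀ x y : ℂ, x * (y - 1 / 2) = x * y - x / 2 := by intro x y; ring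
    rw [h3, h6, h4]
    push_cast
    ring
  rw [h5, norm_mul, h1, norm_exp]
  simp
  ring

/-- **phase condition** at a `W1` exit -/
theorem St.phase (h : St k C q0 q1 q2 q3 d0 d1 d2 X1 X2 X3)
    (he : |k * (X1 - d0).im| = Real.pi / 2) {φ : ℝ}
    (hφ : φ = k * ((X3 - d2).im - (X2 - d1).im - (X3 - X2).im)) :
    2 * Real.sin φ ≤ Real.exp (-(k * (X2 - X1).re)) *
      (1 + Real.sin (φ - -(k * (X2 - X1).im))) := by
  rw [hφ]
  exact phase_alg h.inv_P (h.z_circ he)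

/-- **circle equation** at a `W1` exit -/
theorem St.circ (h : St k C q0 q1 q2 q3 d0 d1 d2 X1 X2 X3)
    (he : |k * (X1 - d0).im| = Real.pi / 2) {φ r : ℝ}
    (hφ : φ = k * ((X3 - d2).im - (X2 - d1).im - (X3 - X2).im))
    (hr : r = Real.exp (k * ((X3 - d2).re - (X2 - d1).re - (X3 - X2).re))) :
    r ^ 2 + r * (2 * Real.cos φ - Real.exp (-(k * (X2 - X1).re)) *
      Real.cos (φ - -(k * (X2 - X1).im))) + 1 - Real.exp (-(k * (X2 - X1).re)) *
      Real.cos (-(k * (X2 - X1).im)) = 0 := by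
  rw [hφ, hr]
  exact circ_alg h.inv_P (h.z_circ he)

/-- if `|b_1| ≥ 1` then `cos φ < 0` (`φ` as in `phase`) -/
theorem St.cos_phase (h : St k C q0 q1 q2 q3 d0 d1 d2 X1 X2 X3)
    (he : |k * (X1 - d0).im| = Real.pi / 2) (hb : 0 ≤ (X2 - X1).re) {φ : ℝ}
    (hφ : φ = k * ((X3 - d2).im - (X2 - d1).im - (X3 - X2).im)) :
    Real.cos φ ≤ 0 := by
  have h1 := h.inv_P
  have h2 := h.z_circ he
  set E := Real.exp (-(k * (X2 - X1).re)) with hE
  set r := Real.exp (k * ((X3 - d2).re - (X2 - d1).re - (X3 - X2).re)) with hr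
  have hr0 : 0 < r := Real.exp_pos _
  have hE1 : E ≤ 1 := by
    rw [hE]
    exact Real.exp_le_one_iff.2 (by have := mul_nonneg h.k0.le hb; linarith)
  have hE0 : 0 < E := Real.exp_pos _
  rw [← hφ] at h1
  have h3 : ‖1 / pv k C X2 d1‖ ≤ E := by
    have e1 : ‖((E / 2 : ℝ) : ℂ) * exp (((-(k * (X2 - X1).im) : ℝ) : ℂ) * I)‖ = E / 2 := by
      rw [norm_mul, Complex.norm_exp_ofReal_mul_I, mul_one, Complex.norm_real,
        Real.norm_of_nonneg (by positivity)]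
    calc ‖1 / pv k C X2 d1‖ = ‖(1 / pv k C X2 d1 - (E / 2 : ℝ) *
          exp (((-(k * (X2 - X1).im) : ℝ) : ℂ) * I)) + (E / 2 : ℝ) *
          exp (((-(k * (X2 - X1).im) : ℝ) : ℂ) * I)‖ := by congr 1; ring
      _ ≤ _ := norm_add_le _ _
      _ = E := by rw [h2, e1]; ring
  have h4 : (1 / pv k C X2 d1).re ≤ 1 := by
    linarith [Complex.re_le_norm (1 / pv k C X2 d1)]
  rw [h1] at h4
  simp only [add_re, one_re, mul_re, ofReal_re, ofReal_im, exp_ofReal_mul_I_re,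
    zero_mul, sub_zero] at h4
  by_contra hc
  push Not at hc
  have := mul_pos hr0 hc
  linarith

end W1

end EQS
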