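import Mathlib
import Pool.Agent.Lib.MP_226de1_co.E.RealPart
import Pool.Agent.Lib.MP_226de1_co.E.NumReal
import Pool.Agent.Lib.MP_226de1_co.E.Zone

/-! Block (I) of `ExitHalf 8`: large `L = log |b_1|`, by the real part of `om` alone. -/

set_option autoImplicit false

namespace EQS

open Complex

variable {k C : ℝ} {q0 q1 q2 q3 d0 d1 d2 X1 X2 X3 : ℂ}

theorem sqrt_two_ge : (1.41421 : ℝ) ≤ Real.sqrt 2 := by
  apply Real.le_sqrt_of_sq_le
  norm_num

theorem cos_b2 {x : ℝ} (hx : |x| ≤ Real.pi / 4) : 0.7071 ≤ Real.cos x := by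
  have h1 : Real.cos (Real.pi / 4) ≤ Real.cos x := by
    rw [← Real.cos_abs x]
    apply Real.cos_le_cos_of_nonneg_of_le_pi (abs_nonneg _) (by linarith [Real.pi_pos]) hx
  rw [Real.cos_pi_div_four] at h1
  linarith [sqrt_two_ge]

theorem cos_b1 {x : ℝ} (hx : |x| ≤ Real.pi / 4 + Real.pi / 16) : 0.5546 ≤ Real.cos x := by
  have hpi := Real.pi_pos
  have h1 : Real.cos (Real.pi / 4 + Real.pi / 16) ≤ Real.cos x := by
    rw [← Real.cos_abs x]
    apply Real.cos_le_cos_of_nonneg_of_le_pi (abs_nonneg _) (by linarith) hx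
  rw [Real.cos_add, Real.cos_pi_div_four, Real.sin_pi_div_four] at h1
  have h2 := Real.one_sub_sq_div_two_le_cos (x := Real.pi / 16)
  have h3 : Real.sin (Real.pi / 16) ≤ Real.pi / 16 := Real.sin_le (by positivity)
  have h4 := Real.pi_lt_d4
  have h5 : 0.7843 ≤ Real.cos (Real.pi / 16) - Real.sin (Real.pi / 16) := by
    nlinarith
  have h6 := sqrt_two_ge
  nlinarith

/-- the driver: zone + numerical inequality give a contradiction -/
theorem St.contra (h : St k C q0 q1 q2 q3 d0 d1 d2 X1 X2 X3) (hk : 8 ≤ k)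
    (he : |k * (X1 - d0).im| = Real.pi / 2)
    (hn : ‖pv k C X2 d1 - pv k C X3 d2‖ ^ 2 * ((exp d0).re * (exp d0 + exp d1).re) ≤
      ‖exp d1‖ ^ 2 * ((pv k C X2 d1).re * (pv k C X3 d2).re))
    {s d r K θ : ℝ} (hs : 0 < s)
    (hss : s ≤ Real.cos d0.im * (Real.cos d0.im + Real.cos d1.im))
    (hd : 0 ≤ d) (hd2 : d ≤ 2) (hsd : 1 < 4 * s * Real.sinh (d / 2) ^ 2) (hr1 : r ≤ 1)
    (hr0 : 0 ≤ r)
    (hr : Real.exp (-r) ≤ ‖(pv k C X2 d1)⁻¹ - 1‖) (hK : K ≤ 2 * (k * (X2 - X1).re))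
    (hθ : 0 ≤ θ) (hθ2 : θ ≤ 12)
    (hθ1 : θ = 0 ∨ θ ≤ 2 * (k * (X1 - X2).im) - ((k : ℂ) * ((X3 - d2) - (X2 - d1))).im)
    (num : 2 * Real.sinh ((d + r) * (1 / k)) < Real.exp (-(d * (1 / k))) *
      (Real.cos (d * (1 / k)) - Real.exp (-(K * (1 / k))) * Real.cos (θ * (1 / k)))) : False := by
  have k0 : 0 < k := by linarith
  have hz := h.norm_om_lt he hn hs hss hd hsd
  rw [mul_one_div, mul_one_div, mul_one_div, mul_one_div] at num
  have hpos : 0 ≤ Real.cos (d / k) - Real.exp (-(K / k)) * Real.cos (θ / k) := by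
    have h1 : 0 ≤ 2 * Real.sinh ((d + r) / k) := by
      have : 0 ≤ Real.sinh ((d + r) / k) := Real.sinh_nonneg_iff.2 (by positivity)
      linarith
    have h2 : 0 < Real.exp (-(d / k)) * (Real.cos (d / k) - Real.exp (-(K / k)) *
      Real.cos (θ / k)) := by linarith
    exact ((mul_pos_iff_of_pos_left (Real.exp_pos _)).1 h2).le
  have e : 2 * (K / 2) / k = K / k := by ring
  have h3 := h.real_ineq hk (d := d) (r := r) (L := K / 2) (θ := θ) hz.le hd2 hr1 hr
    (by linarith) hθ (by rw [div_le_iff₀ k0]; linarith) hθ1 (by rw [e]; exact hpos)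
  rw [e] at h3
  linarith

/-- size of the argument of `D_0` at an exit -/
theorem St.d0_abs (h : St k C q0 q1 q2 q3 d0 d1 d2 X1 X2 X3) (hk : 8 ≤ k)
    (hA : -(Real.pi / 4) ≤ X1.im) (he : |k * (X1 - d0).im| = Real.pi / 2) :
    |d0.im| ≤ Real.pi / 4 + Real.pi / 16 := by
  have hpi := Real.pi_pos
  have k0 : 0 < k := by linarith
  have h1 : |(X1 - d0).im| ≤ Real.pi / 16 := by
    rw [abs_mul, abs_of_pos k0] at he
    nlinarith [abs_nonneg (X1 - d0).im]
  rw [sub_im] at h1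
  have h2 := abs_le.1 h1
  rw [abs_le]
  constructor
  · linarith
  · linarith [h.a1.2]

/-- `cos F > 0`, `F = k Im (X1 - d1)` the lifted argument of `f_{-1}` -/
theorem St.cosF (h : St k C q0 q1 q2 q3 d0 d1 d2 X1 X2 X3)
    (he : |k * (X1 - d0).im| = Real.pi / 2) : 0 < Real.cos (k * (X1 - d1).im) := by
  have h0 := pv_re_zero (C := C) he
  have h1 : (pv k C X1 d1).re = 1 := by
    rw [h.f1_eq, sub_re, one_re, h0, sub_zero]
  rw [pv_re] at h1
  have h2 : 0 < Real.exp (k * (X1 - d1).re) / C := div_pos (Real.exp_pos _) h.C0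
  by_contra hcon
  push Not at hcon
  have := mul_nonpos_of_nonneg_of_nonpos h2.le hcon
  linarith

/-- `0 < F < π/2` forces `arg p_{-1} = -π/2` -/
theorem St.argp_of_pos (h : St k C q0 q1 q2 q3 d0 d1 d2 X1 X2 X3)
    (he : |k * (X1 - d0).im| = Real.pi / 2) (hF0 : 0 < k * (X1 - d1).im)
    (hF1 : k * (X1 - d1).im < Real.pi / 2) : k * (X1 - d0).im = -(Real.pi / 2) := by
  have hpi := Real.pi_pos
  rcases abs_cases (k * (X1 - d0).im) with ⟨h1, _⟩ | ⟨h1, _⟩
  · exfalso
    have h2 : k * (X1 - d0).im = Real.pi / 2 := by linarith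
    have h3 : (pv k C X1 d1).im = -(pv k C X1 d0).im := by
      rw [h.f1_eq]
      simp
    rw [pv_im, pv_im, h2, Real.sin_pi_div_two] at h3
    have h4 : 0 < Real.exp (k * (X1 - d1).re) / C := div_pos (Real.exp_pos _) h.C0
    have h5 : 0 < Real.exp (k * (X1 - d0).re) / C := div_pos (Real.exp_pos _) h.C0
    have h6 : 0 < Real.sin (k * (X1 - d1).im) := Real.sin_pos_of_pos_of_lt_pi hF0 (by linarith)
    have h7 := mul_pos h4 h6
    linarith
  · linarith

/-- `Im om = arg p_{-3} - arg p_{-2}` -/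
theorem om_im : ((k : ℂ) * ((X3 - d2) - (X2 - d1))).im =
    k * (X3 - d2).im - k * (X2 - d1).im := by
  rw [im_ofReal_mul, sub_im]
  ring

theorem St.c1_abs (h : St k C q0 q1 q2 q3 d0 d1 d2 X1 X2 X3) (hk : 8 ≤ k) :
    |(X2 - d1).im| < Real.pi / 16 := by
  have k0 : 0 < k := by linarith
  have := h.p2
  rw [abs_mul, abs_of_pos k0] at this
  nlinarith [abs_nonneg (X2 - d1).im, Real.pi_pos]

/-- lower bound for `cos d1.im` when `F < π/2` -/
theorem St.cosd1 (h : St k C q0 q1 q2 q3 d0 d1 d2 X1 X2 X3) (hk : 8 ≤ k)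
    (hA : -(Real.pi / 4) ≤ X1.im) (hF1 : k * (X1 - d1).im < Real.pi / 2) :
    0.5546 ≤ Real.cos d1.im := by
  have hpi := Real.pi_pos
  have k0 : 0 < k := by linarith
  apply cos_b1
  have h1 : (X1 - d1).im ≤ Real.pi / 16 := by
    by_contra hcon
    push Not at hcon
    nlinarith
  rw [sub_im] at h1
  rw [abs_le]
  constructor
  · linarith
  · linarith [h.d1_im.2]

/-- `s ≥ .6997` when `F < π/2` -/
theorem St.s_NP (h : St k C q0 q1 q2 q3 d0 d1 d2 X1 X2 X3) (hk : 8 ≤ k)
    (hA : -(Real.pi / 4) ≤ X1.im) (he : |k * (X1 - d0).im| = Real.pi / 2)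
    (hF1 : k * (X1 - d1).im < Real.pi / 2) :
    0.6997 ≤ Real.cos d0.im * (Real.cos d0.im + Real.cos d1.im) := by
  have hpi := Real.pi_pos
  have k0 : 0 < k := by linarith
  rcases le_or_gt (k * (X1 - d1).im) 0 with hF | hF
  · have h0 := cos_b1 (h.d0_abs hk hA he)
    have h1 : 0.7071 ≤ Real.cos d1.im := by
      apply cos_b2
      have h2 : (X1 - d1).im ≤ 0 := by
        by_contra hcon
        push Not at hcon
        have := mul_pos k0 hcon
        linarith
      rw [sub_im] at h2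
      rw [abs_le]
      constructor
      · linarith
      · exact h.d1_im.2.le
    nlinarith
  · have h0 := h.argp_of_pos he hF hF1
    have h1 : 0.7071 ≤ Real.cos d0.im := by
      apply cos_b2
      have h2 : (X1 - d0).im = -(Real.pi / 2) / k := by
        field_simp
        linarith
      have h3 : 0 < Real.pi / 2 / k := by positivity
      have h4 : Real.pi / 2 / k ≤ Real.pi / 16 := by
        rw [div_le_iff₀ k0]
        nlinarith
      rw [sub_im, neg_div] at h2
      rw [abs_le]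
      constructor
      · linarith
      · linarith [h.a1.2]
    have h2 := h.cosd1 hk hA hF1
    nlinarith

/-- `s ≥ .892` when `0 < F < π/2` -/
theorem St.s_P (h : St k C q0 q1 q2 q3 d0 d1 d2 X1 X2 X3) (hk : 8 ≤ k)
    (hA : -(Real.pi / 4) ≤ X1.im) (he : |k * (X1 - d0).im| = Real.pi / 2)
    (hF0 : 0 < k * (X1 - d1).im) (hF1 : k * (X1 - d1).im < Real.pi / 2) :
    0.892 ≤ Real.cos d0.im * (Real.cos d0.im + Real.cos d1.im) := by
  have hpi := Real.pi_pos
  have k0 : 0 < k := by linarith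
  have h0 := h.argp_of_pos he hF0 hF1
  have h1 : 0.7071 ≤ Real.cos d0.im := by
    apply cos_b2
    have h2 : (X1 - d0).im = -(Real.pi / 2) / k := by
      field_simp
      linarith
    have h3 : 0 < Real.pi / 2 / k := by positivity
    have h4 : Real.pi / 2 / k ≤ Real.pi / 16 := by
      rw [div_le_iff₀ k0]
      nlinarith
    rw [sub_im, neg_div] at h2
    rw [abs_le]
    constructor
    · linarith
    · linarith [h.a1.2]
  have h2 := h.cosd1 hk hA hF1
  nlinarith

/-- `s ≥ .3075` always -/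
theorem St.s_all (h : St k C q0 q1 q2 q3 d0 d1 d2 X1 X2 X3) (hk : 8 ≤ k)
    (hA : -(Real.pi / 4) ≤ X1.im) (he : |k * (X1 - d0).im| = Real.pi / 2) :
    0.3075 ≤ Real.cos d0.im * (Real.cos d0.im + Real.cos d1.im) := by
  have h0 := cos_b1 (h.d0_abs hk hA he)
  have h1 := cos_pos_of_re h.D1
  nlinarith

theorem sinh_ge {x : ℝ} (hx : 0 ≤ x) : x + x ^ 3 / 6 ≤ Real.sinh x := by
  have h : MonotoneOn (fun z : ℝ => Real.sinh z - z - z ^ 3 / 6) (Set.Ici 0) := by
    apply monotoneOn_of_deriv_nonneg (convex_Ici 0)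
    · apply Continuous.continuousOn
      fun_prop
    · intro y _
      apply DifferentiableAt.differentiableWithinAt
      fun_prop
    · intro y hy
      rw [interior_Ici] at hy
      have e : HasDerivAt (fun z : ℝ => Real.sinh z - z - z ^ 3 / 6)
          (Real.cosh y - 1 - (3 * y ^ 2) / 6) y := by
        have h1 := (Real.hasDerivAt_sinh y).fun_sub (hasDerivAt_id' y)
        have h2 := (hasDerivAt_pow 3 y).div_const 6
        have h3 := h1.fun_sub h2
        simpa using h3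
      rw [e.deriv]
      have hc : Real.cosh y = 1 + 2 * Real.sinh (y / 2) ^ 2 := by
        have h1 := Real.cosh_two_mul (y / 2)
        have h2 := Real.cosh_sq (y / 2)
        rw [show 2 * (y / 2) = y by ring] at h1
        rw [h1, h2]
        ring
      have hs : y / 2 ≤ Real.sinh (y / 2) :=
        Real.self_le_sinh_iff.2 (by have := Set.mem_Ioi.1 hy; linarith)
      have hy0 : (0 : ℝ) ≤ y / 2 := by have := Set.mem_Ioi.1 hy; linarith
      rw [hc]
      nlinarith
  have := h (Set.mem_Ici.2 le_rfl) (Set.mem_Ici.2 hx) hx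
  simp at this
  linarith

/-- `|1/p_{-2} - 1| ≥ 1 - e^{-L} / 2` when `cos σ ≤ 0` -/
theorem St.inv_norm2 (h : St k C q0 q1 q2 q3 d0 d1 d2 X1 X2 X3)
    (he : |k * (X1 - d0).im| = Real.pi / 2) (hc : Real.cos (k * (X1 - X2).im) ≤ 0) :
    1 - Real.exp (-(k * (X2 - X1).re)) / 2 ≤ ‖(pv k C X2 d1)⁻¹ - 1‖ := by
  have h1 := h.z_circ he
  set E := Real.exp (-(k * (X2 - X1).re)) with hE
  set c : ℂ := (E / 2 : ℝ) * exp (((-(k * (X2 - X1).im) : ℝ) : ℂ) * I) with hcd
  have hE0 : 0 < E := Real.exp_pos _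
  have h2 : 1 ≤ ‖1 - c‖ := by
    have h3 := Complex.re_le_norm (1 - c)
    have h4 : (1 - c).re = 1 - E / 2 * Real.cos (k * (X1 - X2).im) := by
      rw [hcd, sub_re, one_re, re_ofReal_mul, exp_ofReal_mul_I_re]
      congr 3
      simp only [sub_im]
      ring
    rw [h4] at h3
    have : E / 2 * Real.cos (k * (X1 - X2).im) ≤ 0 :=
      mul_nonpos_of_nonneg_of_nonpos (by positivity) hc
    linarith
  have h5 : ‖1 - c‖ ≤ ‖(pv k C X2 d1)⁻¹ - 1‖ + ‖1 / pv k C X2 d1 - c‖ := by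
    have e : 1 - c = (1 / pv k C X2 d1 - c) - ((pv k C X2 d1)⁻¹ - 1) := by
      rw [one_div]
      ring
    rw [e]
    linarith [norm_sub_le (1 / pv k C X2 d1 - c) ((pv k C X2 d1)⁻¹ - 1)]
  rw [h1] at h5
  linarith

theorem exp_lower {x y : ℝ} (hx : 0 ≤ x)
    (h : y ≤ 1 + x + x ^ 2 / 2 + x ^ 3 / 6) : y ≤ Real.exp x := by
  have := Real.sum_le_exp_of_nonneg hx 4
  simp only [Finset.sum_range_succ, Finset.sum_range_zero] at this
  norm_num [Nat.factorial] at this
  linarith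

/-- `e^{-r} ≤ w` from `1 ≤ w * e^r` -/
theorem exp_neg_le_of {r w y : ℝ} (hr : 0 ≤ r) (hw : 0 ≤ w)
    (hy : y ≤ 1 + r + r ^ 2 / 2 + r ^ 3 / 6) (h : 1 ≤ w * y) : Real.exp (-r) ≤ w := by
  have h1 := exp_lower hr hy
  have h2 : 1 ≤ w * Real.exp r := h.trans (mul_le_mul_of_nonneg_left h1 hw)
  have h3 := Real.exp_pos (-r)
  have h4 : Real.exp r * Real.exp (-r) = 1 := by
    rw [← Real.exp_add, add_neg_cancel, Real.exp_zero]
  nlinarith

theorem exp_neg_two_le : Real.exp (-2) ≤ 0.13534 := by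
  have h1 := Real.exp_one_gt_d9
  have h2 : Real.exp 2 = Real.exp 1 * Real.exp 1 := by rw [← Real.exp_add]; norm_num
  have h3 : Real.exp 2 * Real.exp (-2) = 1 := by
    rw [← Real.exp_add]
    norm_num
  have h4 := Real.exp_pos (-2)
  have h5 : 7.389056 ≤ Real.exp 2 := by
    rw [h2]
    nlinarith
  nlinarith

theorem exp_neg_21_le : Real.exp (-2.1) ≤ 0.12247 := by
  have h1 : Real.exp (-2.1) = Real.exp (-2) * Real.exp (-0.1) := by
    rw [← Real.exp_add]
    norm_num
  have h2 := exp_neg_two_le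
  have h3 : Real.exp (-0.1) ≤ 0.904842 := by
    have := exp_neg_le_of (r := 0.1) (w := 0.904842) (y := 1.1051666) (by norm_num) (by norm_num)
      (by norm_num) (by norm_num)
    exact this
  have h4 := Real.exp_pos (-0.1 : ℝ)
  rw [h1]
  nlinarith

theorem exp_neg_17_le : Real.exp (-1.7) ≤ 0.18271 := by
  have h1 : Real.exp (-1.7) = Real.exp (-2) * Real.exp 0.3 := by
    rw [← Real.exp_add]
    norm_num
  have h2 := exp_neg_two_le
  have h3 : Real.exp (0.3 : ℝ) ≤ 1.34988 := by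
    have h := Real.exp_bound' (x := 0.3) (by norm_num) (by norm_num) (n := 6) (by norm_num)
    simp only [Finset.sum_range_succ, Finset.sum_range_zero] at h
    norm_num [Nat.factorial] at h
    norm_num
    linarith
  have h4 := Real.exp_pos (0.3 : ℝ)
  rw [h1]
  nlinarith

end EQS
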