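import Mathlib
import Pool.Agent.Lib.MP_226de1_co.E.Big

/-! Block (I) of `ExitHalf 8`: `L ≥ 2.1` (any `σ`), and `L ≥ 1.7`, `σ ≥ π/2`. Statements in the form:
the Pick inequality `hn` at an exit gives `False`. -/

set_option autoImplicit false

namespace EQS

open Complex

variable {k C : ℝ} {q0 q1 q2 q3 d0 d1 d2 X1 X2 X3 : ℂ}

/-- `F = σ + κ` -/
theorem F_eq : k * (X1 - d1).im = k * (X1 - X2).im + k * (X2 - d1).im := by
  simp only [sub_im]
  ring

/-- `L ≥ 2.1`, `F < π/2` -/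
theorem St.bigNP (h : St k C q0 q1 q2 q3 d0 d1 d2 X1 X2 X3) (hk : 8 ≤ k)
    (hA : -(Real.pi / 4) ≤ X1.im) (he : |k * (X1 - d0).im| = Real.pi / 2)
    (hn : ‖pv k C X2 d1 - pv k C X3 d2‖ ^ 2 * ((exp d0).re * (exp d0 + exp d1).re) ≤
      ‖exp d1‖ ^ 2 * ((pv k C X2 d1).re * (pv k C X3 d2).re))
    (hF : k * (X1 - d1).im < Real.pi / 2) (hL : 2.1 ≤ k * (X2 - X1).re) : False := by
  have k0 : 0 < k := by linarith
  have hs := h.s_NP hk hA he hF
  have hsinh := sinh_ge (x := 1.14 / 2) (by norm_num)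
  have hE : Real.exp (-(k * (X2 - X1).re)) ≤ 0.12247 :=
    le_trans (Real.exp_le_exp.2 (by linarith)) exp_neg_21_le
  apply h.contra hk he hn (s := 0.6997) (d := 1.14) (r := 0.131) (K := 4.2) (θ := 0)
    (by norm_num) hs (by norm_num) (by norm_num) _ (by norm_num) (by norm_num) _ (by linarith)
    le_rfl (by norm_num) (Or.inl rfl) (numA (by positivity)
      (one_div_le_one_div_of_le (by norm_num) hk))
  · nlinarith
  · refine le_trans ?_ (h.inv_norm he)
    refine le_trans (exp_neg_le_of (w := 0.87753) (y := 1.13995) (by norm_num) (by norm_num)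
      (by norm_num) (by norm_num)) (by linarith)

/-- `L ≥ 1.7`, `σ ≥ π/2`, `F < π/2` -/
theorem St.bigP (h : St k C q0 q1 q2 q3 d0 d1 d2 X1 X2 X3) (hk : 8 ≤ k)
    (hA : -(Real.pi / 4) ≤ X1.im) (he : |k * (X1 - d0).im| = Real.pi / 2)
    (hn : ‖pv k C X2 d1 - pv k C X3 d2‖ ^ 2 * ((exp d0).re * (exp d0 + exp d1).re) ≤
      ‖exp d1‖ ^ 2 * ((pv k C X2 d1).re * (pv k C X3 d2).re))
    (hF : k * (X1 - d1).im < Real.pi / 2) (hL : 1.7 ≤ k * (X2 - X1).re)
    (hσ : Real.pi / 2 ≤ k * (X1 - X2).im) : False := by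
  have hpi := Real.pi_pos
  have hpi3 := Real.pi_gt_d4
  have k0 : 0 < k := by linarith
  have hκ := abs_lt.1 h.p2
  have hFe := F_eq (k := k) (X1 := X1) (X2 := X2) (d1 := d1)
  have hF0 : 0 < k * (X1 - d1).im := by linarith
  have hs := h.s_P hk hA he hF0 hF
  have hsinh := sinh_ge (x := 1.02 / 2) (by norm_num)
  have hsd : (1 : ℝ) < 4 * 0.892 * Real.sinh (1.02 / 2) ^ 2 := by nlinarith
  have hE : Real.exp (-(k * (X2 - X1).re)) ≤ 0.18271 :=
    le_trans (Real.exp_le_exp.2 (by linarith)) exp_neg_17_le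
  have hcos : Real.cos (k * (X1 - X2).im) ≤ 0 :=
    Real.cos_nonpos_of_pi_div_two_le_of_le hσ (by linarith)
  have hz := h.norm_om_lt he hn (s := 0.892) (d := 1.02) (by norm_num) hs (by norm_num) hsd
  have hz2 := (le_abs_self _).trans ((Complex.abs_im_le_norm _).trans hz.le)
  apply h.contra hk he hn (s := 0.892) (d := 1.02) (r := 0.096) (K := 3.4) (θ := 2.12)
    (by norm_num) hs (by norm_num) (by norm_num) hsd (by norm_num) (by norm_num) _ (by linarith)
    (by norm_num) (by norm_num) (Or.inr (by linarith)) (numB (by positivity)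
      (one_div_le_one_div_of_le (by norm_num) hk))
  refine le_trans ?_ (h.inv_norm2 he hcos)
  refine le_trans (exp_neg_le_of (w := 0.908645) (y := 1.10075) (by norm_num) (by norm_num)
      (by norm_num) (by norm_num)) (by linarith)

/-- `F ≥ π/2` implies `F > 3π/2`, `σ > π` and `2 σ - Im om > σ + π` -/
theorem St.J_facts (h : St k C q0 q1 q2 q3 d0 d1 d2 X1 X2 X3)
    (he : |k * (X1 - d0).im| = Real.pi / 2) (hF : Real.pi / 2 ≤ k * (X1 - d1).im) :
    3 * Real.pi / 2 < k * (X1 - d1).im ∧ Real.pi < k * (X1 - X2).im ∧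
      k * (X1 - X2).im + Real.pi <
        2 * (k * (X1 - X2).im) - ((k : ℂ) * ((X3 - d2) - (X2 - d1))).im := by
  have hpi := Real.pi_pos
  have h1 : 3 * Real.pi / 2 < k * (X1 - d1).im := by
    by_contra hcon
    push Not at hcon
    have := Real.cos_nonpos_of_pi_div_two_le_of_le hF (by linarith)
    linarith [h.cosF he]
  have hκ := abs_lt.1 h.p2
  have hκ3 := abs_lt.1 h.p3
  have hFe := F_eq (k := k) (X1 := X1) (X2 := X2) (d1 := d1)
  refine ⟨h1, by linarith, ?_⟩
  rw [om_im]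
  linarith

/-- `F ≥ π/2`, `L ≥ 2` -/
theorem St.bigJ (h : St k C q0 q1 q2 q3 d0 d1 d2 X1 X2 X3) (hk : 8 ≤ k)
    (hA : -(Real.pi / 4) ≤ X1.im) (he : |k * (X1 - d0).im| = Real.pi / 2)
    (hn : ‖pv k C X2 d1 - pv k C X3 d2‖ ^ 2 * ((exp d0).re * (exp d0 + exp d1).re) ≤
      ‖exp d1‖ ^ 2 * ((pv k C X2 d1).re * (pv k C X3 d2).re))
    (hF : Real.pi / 2 ≤ k * (X1 - d1).im) (hL : 2 ≤ k * (X2 - X1).re) : False := by
  have hpi := Real.pi_pos
  have hpi3 := Real.pi_gt_d4
  have k0 : 0 < k := by linarith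
  obtain ⟨hF1, hσ, hom⟩ := h.J_facts he hF
  have hs := h.s_all hk hA he
  have hsinh := sinh_ge (x := 1.63 / 2) (by norm_num)
  have hsd : (1 : ℝ) < 4 * 0.3075 * Real.sinh (1.63 / 2) ^ 2 := by nlinarith
  have hE : Real.exp (-(k * (X2 - X1).re)) ≤ 0.13534 :=
    le_trans (Real.exp_le_exp.2 (by linarith)) exp_neg_two_le
  have ht1 : 1 / k ≤ 1 / 8 := one_div_le_one_div_of_le (by norm_num) hk
  rcases le_or_gt (k * (X1 - X2).im) (3 * Real.pi / 2) with hσ2 | hσ2
  · have hcos : Real.cos (k * (X1 - X2).im) ≤ 0 :=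
      Real.cos_nonpos_of_pi_div_two_le_of_le (by linarith) (by linarith)
    apply h.contra hk he hn (s := 0.3075) (d := 1.63) (r := 0.0702) (K := 4) (θ := 6.28)
      (by norm_num) hs (by norm_num) (by norm_num) hsd (by norm_num) (by norm_num) _ (by linarith)
      (by norm_num) (by norm_num) (Or.inr (by linarith)) (numD (by positivity) ht1)
    refine le_trans ?_ (h.inv_norm2 he hcos)
    refine le_trans (exp_neg_le_of (w := 0.93233) (y := 1.0727) (by norm_num) (by norm_num)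
      (by norm_num) (by norm_num)) (by linarith)
  · apply h.contra hk he hn (s := 0.3075) (d := 1.63) (r := 0.1455) (K := 4) (θ := 7.85)
      (by norm_num) hs (by norm_num) (by norm_num) hsd (by norm_num) (by norm_num) _ (by linarith)
      (by norm_num) (by norm_num) (Or.inr (by linarith)) (numC (by positivity) ht1)
    refine le_trans ?_ (h.inv_norm he)
    refine le_trans (exp_neg_le_of (w := 0.86466) (y := 1.15659) (by norm_num) (by norm_num)
      (by norm_num) (by norm_num)) (by linarith)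

end EQS
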