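import Mathlib
import Pool.Agent.Lib.MP_226de1_co.E.BigL

/-! `1.7 ≤ L ≤ 2`, `F > 3π/2`, with (F3): `Im (X1 - X2) ≤ - Im X1`. -/

set_option autoImplicit false

namespace EQS

open Complex

variable {k C : ℝ} {q0 q1 q2 q3 d0 d1 d2 X1 X2 X3 : ℂ}

/-- `cos x ≥ c` when `tan x ≤ t`, `0 ≤ x < π/2` and `c² (1 + t²) ≤ 1` -/
theorem cos_ge_of_tan {x t c : ℝ} (hx : 0 ≤ x) (hx2 : x < Real.pi / 2) (ht : Real.tan x ≤ t)
    (hc : c ^ 2 * (1 + t ^ 2) ≤ 1) : c ≤ Real.cos x := by
  have h0 : 0 < Real.cos x := Real.cos_pos_of_mem_Ioo ⟨by linarith [Real.pi_pos], hx2⟩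
  have h1 : 0 ≤ Real.tan x := Real.tan_nonneg_of_nonneg_of_le_pi_div_two hx hx2.le
  have h2 : Real.cos x ^ 2 * (1 + Real.tan x ^ 2) = 1 := by
    rw [Real.tan_eq_sin_div_cos]
    field_simp
    linarith [Real.sin_sq_add_cos_sq x]
  by_contra hcon
  push Not at hcon
  have h3 : Real.cos x ^ 2 < c ^ 2 := pow_lt_pow_left₀ hcon h0.le (by norm_num)
  have h4 : Real.tan x ^ 2 ≤ t ^ 2 := pow_le_pow_left₀ h1 ht 2
  have h5 : 0 < 1 + Real.tan x ^ 2 := by positivity
  nlinarith

/-- common estimates for `F > 3π/2`: with `m = -X1.im - κ/k`, `v = (X1 - X2).im`: if `m ≤ M` with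
`cos M ≥ c`, then `cos (m + v) ≥ e^{-1/2} c` -/
theorem St.cos_mv (h : St k C q0 q1 q2 q3 d0 d1 d2 X1 X2 X3) (hk : 8 ≤ k)
    (hA : -(Real.pi / 4) ≤ X1.im) (he : |k * (X1 - d0).im| = Real.pi / 2)
    (hL2 : k * (X2 - X1).re ≤ 2) (hF3 : (X1 - X2).im ≤ -X1.im) (hv : 0 ≤ (X1 - X2).im)
    {c t : ℝ} (hc : c ≤ 0.98) (hct : c ^ 2 * (1 + t ^ 2) ≤ 1)
    (ht : 0 ≤ -X1.im - (X2 - d1).im → Real.tan (-X1.im - (X2 - d1).im) ≤ t) :
    0.6065 * c ≤ Real.cos (-X2.im - (X2 - d1).im) := by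
  have hpi := Real.pi_pos
  have hpi4 := Real.pi_lt_d4
  have k0 : 0 < k := by linarith
  obtain ⟨_, hlt⟩ := h.mv_lt hA
  have hc1 := abs_lt.1 (h.c1_abs hk)
  have h1 := h.F1_ge he
  have hlam : (X2 - X1).re ≤ 1 / 4 := by
    by_contra hcon
    push Not at hcon
    nlinarith
  have c0 := h.cos0
  have c1 := h.cos1
  have h2 : Real.cos (-X1.im - (X1 - d1).im) ≤
      Real.exp (2 * (X2 - X1).re) * Real.cos (-X2.im - (X2 - d1).im) := by
    have : 0 ≤ Real.exp (2 * (d1 - X1)).re * (2 * Real.cos d0.im + Real.cos d1.im) := by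
      positivity
    linarith
  -- `cos (m - v) ≥ c`
  have h3 : c ≤ Real.cos (-X1.im - (X1 - d1).im) := by
    have e : -X1.im - (X1 - d1).im = (-X1.im - (X2 - d1).im) - (X1 - X2).im := by
      simp only [sub_im]
      ring
    rw [e]
    rcases le_or_gt 0 ((-X1.im - (X2 - d1).im) - (X1 - X2).im) with h4 | h4
    · have h5 : 0 ≤ -X1.im - (X2 - d1).im := by linarith
      have h6 : -X1.im - (X2 - d1).im < Real.pi / 2 := by
        have : -X2.im - (X2 - d1).im = (-X1.im - (X2 - d1).im) + (X1 - X2).im := by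
          simp only [sub_im]
          ring
        linarith
      have h7 := cos_ge_of_tan h5 h6 (ht h5) hct
      refine h7.trans ?_
      apply Real.cos_le_cos_of_nonneg_of_le_pi h4 (by linarith) (by linarith)
    · have h5 : |(-X1.im - (X2 - d1).im) - (X1 - X2).im| ≤ Real.pi / 16 := by
        rw [abs_of_neg h4]
        linarith
      have h6 := Real.one_sub_sq_div_two_le_cos (x := (-X1.im - (X2 - d1).im) - (X1 - X2).im)
      have h7 : ((-X1.im - (X2 - d1).im) - (X1 - X2).im) ^ 2 ≤ (Real.pi / 16) ^ 2 := by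
        rw [← sq_abs]
        exact pow_le_pow_left₀ (abs_nonneg _) h5 2
      nlinarith
  have h4 : Real.exp (2 * (X2 - X1).re) ≤ 1.6488 := by
    have h5 : Real.exp (2 * (X2 - X1).re) ≤ Real.exp (1 / 2) := Real.exp_le_exp.2 (by linarith)
    have h6 : Real.exp (1 / 2 : ℝ) ^ 2 = Real.exp 1 := by
      rw [← Real.exp_nat_mul]
      norm_num
    have h7 := Real.exp_one_lt_d9
    have h8 := Real.exp_pos (1 / 2 : ℝ)
    have h9 : Real.exp (1 / 2 : ℝ) ≤ 1.6488 := by
      by_contra hcon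
      push Not at hcon
      nlinarith
    linarith
  have h5 := Real.exp_pos (2 * (X2 - X1).re)
  rcases le_or_gt c 0 with hc0 | hc0
  · by_contra hcon
    push Not at hcon
    have h6 : Real.cos (-X2.im - (X2 - d1).im) < 0 := by linarith
    have h7 : 0 < Real.cos (-X2.im - (X2 - d1).im) := by
      apply Real.cos_pos_of_mem_Ioo
      obtain ⟨h8, _⟩ := h.mv_lt hA
      exact ⟨by linarith, hlt⟩
    linarith
  · by_contra hcon
    push Not at hcon
    have h6 : 0 < Real.cos (-X2.im - (X2 - d1).im) := by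
      by_contra h7
      push Not at h7
      have := mul_nonpos_of_nonneg_of_nonpos h5.le h7
      linarith
    nlinarith

/-- `cos d1.im` from `cos (m + v)` -/
theorem St.cosd1_mv (h : St k C q0 q1 q2 q3 d0 d1 d2 X1 X2 X3) (hk : 8 ≤ k)
    {u w : ℝ} (hu : u ≤ Real.cos (-X2.im - (X2 - d1).im)) (hu0 : 0 ≤ u) (hw : 0 ≤ w)
    (huw : 1 ≤ u ^ 2 + w ^ 2) : 0.9228 * u - 0.3927 * w ≤ Real.cos d1.im := by
  have hpi := Real.pi_pos
  have hpi4 := Real.pi_lt_d4
  have hc1 := abs_lt.1 (h.c1_abs hk)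
  have e : -d1.im = (-X2.im - (X2 - d1).im) + 2 * (X2 - d1).im := by
    simp only [sub_im]
    ring
  have h1 : Real.cos d1.im = Real.cos (-X2.im - (X2 - d1).im) * Real.cos (2 * (X2 - d1).im) -
      Real.sin (-X2.im - (X2 - d1).im) * Real.sin (2 * (X2 - d1).im) := by
    rw [← Real.cos_add, ← e, Real.cos_neg]
  have h2 : |2 * (X2 - d1).im| ≤ Real.pi / 8 := by
    rw [abs_le]
    constructor <;> linarith
  have h3 : 0.9228 ≤ Real.cos (2 * (X2 - d1).im) := by
    have h4 := Real.one_sub_sq_div_two_le_cos (x := 2 * (X2 - d1).im)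
    have h5 : (2 * (X2 - d1).im) ^ 2 ≤ (Real.pi / 8) ^ 2 := by
      rw [← sq_abs (2 * (X2 - d1).im)]
      exact pow_le_pow_left₀ (abs_nonneg _) h2 2
    nlinarith
  have h4 : |Real.sin (2 * (X2 - d1).im)| ≤ 0.3927 := by
    have h5 := Real.abs_sin_le_abs (x := 2 * (X2 - d1).im)
    linarith
  have h5 : |Real.sin (-X2.im - (X2 - d1).im)| ≤ w := by
    apply abs_le_of_sq_le_sq _ hw
    have h6 := Real.sin_sq_add_cos_sq (-X2.im - (X2 - d1).im)
    have h7 : u ^ 2 ≤ Real.cos (-X2.im - (X2 - d1).im) ^ 2 := pow_le_pow_left₀ hu0 hu 2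
    linarith
  have h6 : Real.sin (-X2.im - (X2 - d1).im) * Real.sin (2 * (X2 - d1).im) ≤ 0.3927 * w := by
    refine (le_abs_self _).trans ?_
    rw [abs_mul]
    calc _ ≤ w * 0.3927 := mul_le_mul h5 h4 (abs_nonneg _) hw
      _ = _ := by ring
  have h7 : 0.9228 * u ≤ Real.cos (-X2.im - (X2 - d1).im) * Real.cos (2 * (X2 - d1).im) := by
    calc 0.9228 * u = u * 0.9228 := by ring
      _ ≤ _ := mul_le_mul hu h3 (by norm_num) (by linarith)
  linarith

/-- `tan m ≤ L / σ` -/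
theorem St.tan_m (h : St k C q0 q1 q2 q3 d0 d1 d2 X1 X2 X3)
    (hA : -(Real.pi / 4) ≤ X1.im) {S T : ℝ} (hS : 0 < S) (hσ : S ≤ k * (X1 - X2).im)
    (hT : k * (X2 - X1).re ≤ T) (hm : 0 ≤ -X1.im - (X2 - d1).im) :
    Real.tan (-X1.im - (X2 - d1).im) ≤ T / S := by
  have hpi := Real.pi_pos
  have k0 := h.k0
  have hv0 : 0 < (X1 - X2).im := by
    by_contra hcon
    push Not at hcon
    nlinarith
  have hv1 : X2.im ≤ X1.im := by
    rw [sub_im] at hv0
    linarith
  obtain ⟨_, hlt⟩ := h.mv_lt hA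
  have h1 := h.F2 hA hm hv1
  have h2 : (X1 - X2).im ≤ Real.tan (X1.im - X2.im) := by
    rw [sub_im] at hv0 ⊢
    apply Real.le_tan hv0.le
    linarith [h.a1.2, h.a2.1]
  have h3 : 0 ≤ Real.tan (-X1.im - (X2 - d1).im) := by
    apply Real.tan_nonneg_of_nonneg_of_le_pi_div_two hm
    have : -X2.im - (X2 - d1).im = (-X1.im - (X2 - d1).im) + (X1 - X2).im := by
      simp only [sub_im]
      ring
    linarith
  rw [le_div_iff₀ hS]
  calc Real.tan (-X1.im - (X2 - d1).im) * S ≤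
        Real.tan (-X1.im - (X2 - d1).im) * (k * (X1 - X2).im) :=
          mul_le_mul_of_nonneg_left hσ h3
    _ ≤ Real.tan (-X1.im - (X2 - d1).im) * (k * Real.tan (X1.im - X2.im)) :=
          mul_le_mul_of_nonneg_left (mul_le_mul_of_nonneg_left h2 k0.le) h3
    _ = k * (Real.tan (-X1.im - (X2 - d1).im) * Real.tan (X1.im - X2.im)) := by ring
    _ ≤ k * (X2 - X1).re := mul_le_mul_of_nonneg_left h1 k0.le
    _ ≤ T := hT

/-- `F ≥ π/2`, `1.7 ≤ L ≤ 2`, with (F3) -/
theorem St.bigJ2 (h : St k C q0 q1 q2 q3 d0 d1 d2 X1 X2 X3) (hk : 8 ≤ k)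
    (hA : -(Real.pi / 4) ≤ X1.im) (he : |k * (X1 - d0).im| = Real.pi / 2)
    (hn : ‖pv k C X2 d1 - pv k C X3 d2‖ ^ 2 * ((exp d0).re * (exp d0 + exp d1).re) ≤
      ‖exp d1‖ ^ 2 * ((pv k C X2 d1).re * (pv k C X3 d2).re))
    (hF3 : (X1 - X2).im ≤ -X1.im)
    (hF : Real.pi / 2 ≤ k * (X1 - d1).im) (hL : 1.7 ≤ k * (X2 - X1).re)
    (hL2 : k * (X2 - X1).re ≤ 2) : False := by
  have hpi := Real.pi_pos
  have hpi3 := Real.pi_gt_d4
  have hpi4 := Real.pi_lt_d4
  have k0 : 0 < k := by linarith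
  obtain ⟨hF1, hσ, hom⟩ := h.J_facts he hF
  have hv : 0 ≤ (X1 - X2).im := by
    by_contra hcon
    push Not at hcon
    nlinarith
  have hE : Real.exp (-(k * (X2 - X1).re)) ≤ 0.18271 :=
    le_trans (Real.exp_le_exp.2 (by linarith)) exp_neg_17_le
  have ht1 : 1 / k ≤ 1 / 8 := one_div_le_one_div_of_le (by norm_num) hk
  rcases le_or_gt (k * (X1 - X2).im) (3 * Real.pi / 2) with hσ2 | hσ2
  · have hcos : Real.cos (k * (X1 - X2).im) ≤ 0 :=
      Real.cos_nonpos_of_pi_div_two_le_of_le (by linarith) (by linarith)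
    have hm := h.cos_mv hk hA he hL2 hF3 hv (c := 0.8435) (t := 2 / Real.pi) (by norm_num)
      (by
        have : 2 / Real.pi ≤ 0.63664 := by
          rw [div_le_iff₀ hpi]
          nlinarith
        have h0 : 0 ≤ 2 / Real.pi := by positivity
        nlinarith) (h.tan_m hA hpi hσ.le hL2)
    have hd := h.cosd1_mv hk (u := 0.5115) (w := 0.8593) (by linarith) (by norm_num) (by norm_num)
      (by norm_num)
    have hd0 := cos_b1 (h.d0_abs hk hA he)
    have hs : 0.372 ≤ Real.cos d0.im * (Real.cos d0.im + Real.cos d1.im) := by nlinarith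
    have hsinh := sinh_ge (x := 1.5 / 2) (by norm_num)
    have hsd : (1 : ℝ) < 4 * 0.372 * Real.sinh (1.5 / 2) ^ 2 := by nlinarith
    apply h.contra hk he hn (s := 0.372) (d := 1.5) (r := 0.096) (K := 3.4) (θ := 6.28)
      (by norm_num) hs (by norm_num) (by norm_num) hsd (by norm_num) (by norm_num) _ (by linarith)
      (by norm_num) (by norm_num) (Or.inr (by linarith)) (numE (by positivity) ht1)
    refine le_trans ?_ (h.inv_norm2 he hcos)
    refine le_trans (exp_neg_le_of (w := 0.908645) (y := 1.10075) (by norm_num) (by norm_num)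
      (by norm_num) (by norm_num)) (by linarith)
  · have hT : (2 : ℝ) / (3 * Real.pi / 2) ≤ 0.42443 := by
      rw [div_le_iff₀ (by positivity)]
      nlinarith
    have htan := h.tan_m hA (S := 3 * Real.pi / 2) (by positivity) hσ2.le hL2
    have hm := h.cos_mv hk hA he hL2 hF3 hv (c := 0.9205) (t := 2 / (3 * Real.pi / 2))
      (by norm_num)
      (by
        have h0 : (0 : ℝ) ≤ 2 / (3 * Real.pi / 2) := by positivity
        nlinarith) htan
    have hd := h.cosd1_mv hk (u := 0.558) (w := 0.82985) (by linarith) (by norm_num) (by norm_num)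
      (by norm_num)
    -- `- X1.im ≤ .6208`
    have hc1 := abs_lt.1 (h.c1_abs hk)
    have hal : -X1.im ≤ 0.42443 + Real.pi / 16 := by
      rcases le_or_gt 0 (-X1.im - (X2 - d1).im) with h5 | h5
      · obtain ⟨_, hlt⟩ := h.mv_lt hA
        have h6 : -X1.im - (X2 - d1).im < Real.pi / 2 := by
          have : -X2.im - (X2 - d1).im = (-X1.im - (X2 - d1).im) + (X1 - X2).im := by
            simp only [sub_im]
            ring
          linarith
        have h7 := Real.le_tan h5 h6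
        have h8 := htan h5
        linarith
      · linarith
    have hd0' : |d0.im| ≤ 0.42443 + Real.pi / 8 := by
      have h1 : |(X1 - d0).im| ≤ Real.pi / 16 := by
        rw [abs_mul, abs_of_pos k0] at he
        nlinarith [abs_nonneg (X1 - d0).im]
      rw [sub_im] at h1
      have h2 := abs_le.1 h1
      rw [abs_le]
      constructor
      · linarith
      · linarith [h.a1.2]
    have hd0 : 0.665 ≤ Real.cos d0.im := by
      have h1 := Real.one_sub_sq_div_two_le_cos (x := d0.im)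
      have h2 : d0.im ^ 2 ≤ (0.42443 + Real.pi / 8) ^ 2 := by
        rw [← sq_abs d0.im]
        exact pow_le_pow_left₀ (abs_nonneg _) hd0' 2
      nlinarith
    have hs : 0.567 ≤ Real.cos d0.im * (Real.cos d0.im + Real.cos d1.im) := by nlinarith
    have hsinh := sinh_ge (x := 1.25 / 2) (by norm_num)
    have hsd : (1 : ℝ) < 4 * 0.567 * Real.sinh (1.25 / 2) ^ 2 := by nlinarith
    apply h.contra hk he hn (s := 0.567) (d := 1.25) (r := 0.203) (K := 3.4) (θ := 7.85)
      (by norm_num) hs (by norm_num) (by norm_num) hsd (by norm_num) (by norm_num) _ (by linarith)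
      (by norm_num) (by norm_num) (Or.inr (by linarith)) (numF (by positivity) ht1)
    refine le_trans ?_ (h.inv_norm he)
    refine le_trans (exp_neg_le_of (w := 0.81729) (y := 1.2249) (by norm_num) (by norm_num)
      (by norm_num) (by norm_num)) (by linarith)

end EQS
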