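import Mathlib

/-! Real-variable core of the phase blocks (C2): bounds for `θ₂` from the flow identity.

All angles are unscaled (`γ = k gm`, ...), `gm = c2 - c1`. -/

set_option autoImplicit false

namespace EQS

open Real

/-- `x + x^3/6 ≤ sinh x` -/
theorem c2_sinh_ge_cube {x : ℝ} (hx : 0 ≤ x) : x + x ^ 3 / 6 ≤ sinh x := by
  have hm : MonotoneOn (fun x : ℝ => sinh x - (x + x ^ 3 / 6)) (Set.Ici 0) := by
    apply monotoneOn_of_deriv_nonneg (convex_Ici 0)
    · apply Continuous.continuousOn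
      fun_prop
    · intro x _
      apply DifferentiableAt.differentiableWithinAt
      fun_prop
    · intro x hx
      have h1 : HasDerivAt (fun x : ℝ => sinh x - (x + x ^ 3 / 6))
          (cosh x - (1 + (3 * x ^ 2) / 6)) x := by
        have a1 := Real.hasDerivAt_sinh x
        have a2 : HasDerivAt (fun x : ℝ => x ^ 3) (3 * x ^ 2) x := by
          simpa using hasDerivAt_pow 3 x
        exact a1.sub ((hasDerivAt_id x).add (a2.div_const 6))
      rw [h1.deriv]
      rw [interior_Ici] at hx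
      have hx0 : 0 < x := hx
      have h2 : x / 2 ≤ sinh (x / 2) := Real.self_le_sinh_iff.2 (by linarith)
      have h3 : cosh x = 1 + 2 * sinh (x / 2) ^ 2 := by
        have h4 := Real.cosh_two_mul (x / 2)
        have h5 := Real.cosh_sq (x / 2)
        rw [show 2 * (x / 2) = x by ring] at h4
        linarith
      rw [h3]
      nlinarith
  have := hm (Set.mem_Ici.2 le_rfl) hx hx
  simp only [sinh_zero] at this
  linarith

/-- the Schwarz-Pick distance for `s ≥ 0.617` -/
theorem c2_om_sq_le {y s : ℝ} (hy : 0 ≤ y) (hs : 617 / 1000 ≤ s)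
    (h : 4 * s * sinh (y / 2) ^ 2 ≤ 1) : y ^ 2 ≤ 14465 / 10000 := by
  by_contra hcon
  push Not at hcon
  have h1 : (12027 / 10000 : ℝ) < y + 1 / 10000 := by nlinarith
  have h1' : (12026 / 10000 : ℝ) < y := by linarith
  have h2 := c2_sinh_ge_cube (x := y / 2) (by linarith)
  have h3 : (6375 / 10000 : ℝ) ≤ y / 2 + (y / 2) ^ 3 / 6 := by
    have : (6013 / 10000 : ℝ) ≤ y / 2 := by linarith
    have h4 : (6013 / 10000 : ℝ) ^ 3 ≤ (y / 2) ^ 3 := pow_le_pow_left₀ (by norm_num) this 3
    norm_num at h4 ⊢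
    linarith
  have h4 : (6375 / 10000 : ℝ) ≤ sinh (y / 2) := le_trans h3 h2
  have h5 : (6375 / 10000 : ℝ) ^ 2 ≤ sinh (y / 2) ^ 2 := pow_le_pow_left₀ (by norm_num) h4 2
  norm_num at h5
  nlinarith

/-- `e^{-x} ≤ 1 - x + x^2/2` for `x ≥ 0` -/
theorem c2_exp_neg_le_quad {x : ℝ} (hx : 0 ≤ x) : exp (-x) ≤ 1 - x + x ^ 2 / 2 := by
  have h1 := Real.quadratic_le_exp_of_nonneg hx
  have h2 : exp (-x) * exp x = 1 := by rw [← exp_add, neg_add_cancel, exp_zero]
  have h3 := exp_pos (-x)
  have h4 : exp (-x) * (1 + x + x ^ 2 / 2) ≤ 1 := by nlinarith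
  have h5 : 0 < 1 + x + x ^ 2 / 2 := by positivity
  have h6 : 1 ≤ (1 - x + x ^ 2 / 2) * (1 + x + x ^ 2 / 2) := by nlinarith [sq_nonneg (x ^ 2)]
  by_contra hcon
  push Not at hcon
  have : (1 - x + x ^ 2 / 2) * (1 + x + x ^ 2 / 2) < exp (-x) * (1 + x + x ^ 2 / 2) :=
    mul_lt_mul_of_pos_right hcon h5
  linarith

/-- `e^x ≤ 1 + x + x^2` for `0 ≤ x ≤ 1` -/
theorem c2_exp_le_sq {x : ℝ} (hx : 0 ≤ x) (hx1 : x ≤ 1) : exp x ≤ 1 + x + x ^ 2 := by
  have h := c2_exp_neg_le_quad hx
  have h2 : exp (-x) * exp x = 1 := by rw [← exp_add, neg_add_cancel, exp_zero]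
  have h3 := exp_pos x
  have h4 : 1 - x ≤ exp (-x) := by
    have := add_one_le_exp (-x)
    linarith
  have h5 := Real.abs_exp_sub_one_sub_id_le (x := x) (by rw [abs_of_nonneg hx]; exact hx1)
  have := (abs_le.1 h5).2
  linarith

theorem c2_cosh_small {x : ℝ} (hx : 0 ≤ x) (hx1 : x ≤ 21 / 100) : cosh x ≤ 10225 / 10000 := by
  have h1 := Real.cosh_le_exp_half_sq x
  have h2 : x ^ 2 / 2 ≤ 2205 / 100000 := by nlinarith
  have h3 : exp (x ^ 2 / 2) ≤ exp (2205 / 100000) := exp_le_exp.2 h2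
  have h4 := c2_exp_le_sq (x := 2205 / 100000) (by norm_num) (by norm_num)
  have h5 : (1 : ℝ) + 2205 / 100000 + (2205 / 100000) ^ 2 ≤ 102254 / 100000 := by norm_num
  -- refine: use the sharper bound below
  have h6 : exp (2205 / 100000 : ℝ) ≤ 10225 / 10000 := by
    have a1 : (1 : ℝ) - 2205 / 100000 ≤ exp (-(2205 / 100000)) := by
      have := add_one_le_exp (-(2205 / 100000) : ℝ)
      linarith
    have a2 : exp (-(2205 / 100000 : ℝ)) * exp (2205 / 100000) = 1 := by
      rw [← exp_add, neg_add_cancel, exp_zero]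
    have a4 : 1 - 2205 / 100000 + (2205 / 100000 : ℝ) ^ 2 / 2 -
        (2205 / 100000 : ℝ) ^ 3 ≤ exp (-(2205 / 100000)) := by
      have b1 := Real.exp_bound (x := -(2205 / 100000 : ℝ)) (n := 3)
        (by rw [abs_neg, abs_of_nonneg (by norm_num)]; norm_num) (by norm_num)
      have b2 := (abs_le.1 b1).1
      rw [abs_neg, abs_of_nonneg (by norm_num : (0 : ℝ) ≤ 2205 / 100000)] at b2
      norm_num [Finset.sum_range_succ, Nat.factorial] at b2 ⊢
      linarith
    have a3 := exp_pos (2205 / 100000 : ℝ)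
    nlinarith
  linarith

/-- `sinh x ≤ 1.0225 x` for `0 ≤ x ≤ 0.21` -/
theorem c2_sinh_small {x : ℝ} (hx : 0 ≤ x) (hx1 : x ≤ 21 / 100) : sinh x ≤ 10225 / 10000 * x := by
  have h1 : sinh x ≤ x * cosh x := by
    have hm : MonotoneOn (fun x : ℝ => x * cosh x - sinh x) (Set.Ici 0) := by
      apply monotoneOn_of_deriv_nonneg (convex_Ici 0)
      · apply Continuous.continuousOn
        fun_prop
      · intro x _
        apply DifferentiableAt.differentiableWithinAt
        fun_prop
      · intro x hx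
        have h1 : HasDerivAt (fun x : ℝ => x * cosh x - sinh x)
            ((1 * cosh x + x * sinh x) - cosh x) x :=
          ((hasDerivAt_id x).mul (Real.hasDerivAt_cosh x)).sub (Real.hasDerivAt_sinh x)
        rw [h1.deriv]
        rw [interior_Ici] at hx
        have hx0 : 0 < x := hx
        have := mul_nonneg hx0.le (Real.sinh_nonneg_iff.2 hx0.le)
        linarith
    have := hm (Set.mem_Ici.2 le_rfl) hx hx
    simp only [sinh_zero, zero_mul] at this
    linarith
  have h2 := c2_cosh_small hx hx1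
  nlinarith

end EQS
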