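import Mathlib
import Pool.Agent.Lib.MP_226de1_co.E.C2Core

/-! Real-variable core of the phase blocks (C2), continued.

`G = k gr`, `gm = c2 - c1`, `A = c1 + c2`, `B = th2 + 2 c2`. -/

set_option autoImplicit false

namespace EQS

open Real

theorem c2_cos_pi8 : (9238 / 10000 : ℝ) ≤ cos (π / 8) := by
  rw [Real.cos_pi_div_eight]
  have h2 : (141363 / 100000 : ℝ) ≤ √2 := Real.le_sqrt_of_sq_le (by norm_num)
  have h3 : (18476 / 10000 : ℝ) ≤ √(2 + √2) := by
    apply Real.le_sqrt_of_sq_le
    nlinarith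
  linarith

/-- bound of `XX (cos A + T cos B)` from the real part of the flow identity -/
theorem c2_KR {k l th gm gr rr th2 XX CC a b q : ℝ} (hk : 8 ≤ k) (hG : 0 < gr)
    (hD : (k * gr) ^ 2 + (k * gm) ^ 2 ≤ 14465 / 10000) (ha : k * rr ≤ a) (ha' : a ≤ 46 / 100)
    (hlam : 0 < gr + rr) (hY : exp (-(2 * l)) ≤ 1 - b / k)
    (hq : q + 905 / 10000 + 2045 / 1000 * a ≤ b)
    (hre : 2 * sinh (gr + rr) * cos th2 =
      exp (-gr) * (cos gm - exp (-(2 * l)) * cos (2 * th - gm) + XX * CC)) :
    XX * CC ≤ (2535 / 1000 * (k * gr) - q) / k := by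
  have k0 : 0 < k := by linarith
  set G := k * gr with hGdef
  have hG0 : 0 < G := mul_pos k0 hG
  have hG1 : G ≤ 12028 / 10000 := by nlinarith [sq_nonneg (k * gm)]
  have hgr : gr = G / k := by rw [hGdef]; field_simp
  have hgrle : gr ≤ G / 8 := by
    rw [hgr]
    exact div_le_div_of_nonneg_left hG0.le (by norm_num) hk
  have he : exp gr ≤ 1 + 1438 / 10000 * G := by
    have h1 := c2_exp_le_sq hG.le (by linarith)
    nlinarith
  have hrr : gr + rr ≤ (G + a) / k := by
    rw [le_div_iff₀ k0]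
    nlinarith
  have hlam2 : gr + rr ≤ 21 / 100 := by
    refine le_trans hrr ?_
    rw [div_le_iff₀ k0]
    nlinarith
  have hs := c2_sinh_small hlam.le hlam2
  have hs0 : 0 ≤ sinh (gr + rr) := Real.sinh_nonneg_iff.2 hlam.le
  -- multiply by `exp gr`
  have h1 : exp gr * exp (-gr) = 1 := by rw [← exp_add, add_neg_cancel, exp_zero]
  have h2 : XX * CC = exp gr * (2 * sinh (gr + rr) * cos th2) - cos gm +
      exp (-(2 * l)) * cos (2 * th - gm) := by
    rw [hre, ← mul_assoc, h1]
    ring
  have h3 : 2 * sinh (gr + rr) * cos th2 ≤ 2 * sinh (gr + rr) := by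
    have := Real.cos_le_one th2
    nlinarith
  have h4 : exp gr * (2 * sinh (gr + rr) * cos th2) ≤
      (1 + 1438 / 10000 * G) * (2045 / 1000 * ((G + a) / k)) := by
    calc exp gr * (2 * sinh (gr + rr) * cos th2) ≤ exp gr * (2 * sinh (gr + rr)) :=
          mul_le_mul_of_nonneg_left h3 (exp_pos _).le
      _ ≤ (1 + 1438 / 10000 * G) * (2 * sinh (gr + rr)) :=
          mul_le_mul_of_nonneg_right he (by linarith)
      _ ≤ _ := by
          apply mul_le_mul_of_nonneg_left _ (by linarith)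
          linarith
  have h5 : (1 + 1438 / 10000 * G) * (2045 / 1000 * ((G + a) / k)) ≤
      (2045 / 1000 * a + 2535 / 1000 * G) / k := by
    rw [show (1 + 1438 / 10000 * G) * (2045 / 1000 * ((G + a) / k)) =
      ((1 + 1438 / 10000 * G) * (2045 / 1000 * (G + a))) / k by ring]
    apply div_le_div_of_nonneg_right _ k0.le
    nlinarith
  have h6 : 1 - gm ^ 2 / 2 ≤ cos gm := Real.one_sub_sq_div_two_le_cos
  have h7 : gm ^ 2 / 2 ≤ 905 / 10000 / k := by
    rw [le_div_iff₀ k0]
    have e1 : (k * gm) ^ 2 ≤ 14465 / 10000 := by nlinarith [sq_nonneg (k * gr)]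
    have e2 : k * (k * gm ^ 2) ≤ 14465 / 10000 := by nlinarith
    have e3 : 8 * (k * gm ^ 2) ≤ k * (k * gm ^ 2) :=
      mul_le_mul_of_nonneg_right hk (by positivity)
    linarith
  have h8 : exp (-(2 * l)) * cos (2 * th - gm) ≤ exp (-(2 * l)) := by
    have := Real.cos_le_one (2 * th - gm)
    have := exp_pos (-(2 * l))
    nlinarith
  rw [h2]
  have h9 : (2535 / 1000 * G - q) / k = (2045 / 1000 * a + 2535 / 1000 * G) / k -
      (q + 905 / 10000 + 2045 / 1000 * a) / k + 905 / 10000 / k := by ring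
  have h10 : (q + 905 / 10000 + 2045 / 1000 * a) / k ≤ b / k :=
    div_le_div_of_nonneg_right hq k0.le
  rw [h9]
  linarith

/-- `S₁ = sin gm + e^{-2l} sin (2 th - gm) ≤ 2 s₀ / k` -/
theorem c2_S1 {k l th gm s0 : ℝ} (hk : 8 ≤ k) (hgm : |k * gm| ≤ 12028 / 10000)
    (hl : 0 ≤ l) (hth : k * th ≤ s0) (hth' : -(π / 4) < th) (hs : 61 / 100 ≤ s0)
    (hs' : s0 ≤ 16 / 10) :
    sin gm + exp (-(2 * l)) * sin (2 * th - gm) ≤ 2 * s0 / k := by
  have k0 : 0 < k := by linarith
  have hpi := Real.pi_gt_d2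
  set Y := exp (-(2 * l)) with hY
  have hY0 : 0 < Y := exp_pos _
  have hY1 : Y ≤ 1 := by
    rw [hY]
    exact Real.exp_le_one_iff.2 (by linarith)
  have hg := abs_le.1 hgm
  have hgm1 : gm ≤ 12028 / 10000 / k := by
    rw [le_div_iff₀ k0]
    linarith
  have hgm2 : -(12028 / 10000 / k) ≤ gm := by
    rw [neg_le, le_div_iff₀ k0]
    linarith
  have hk8 : 12028 / 10000 / k ≤ 151 / 1000 := by
    rw [div_le_iff₀ k0]
    linarith
  have h1 : sin gm ≤ 12028 / 10000 / k := by
    rcases le_or_gt gm 0 with h | h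
    · have : sin gm ≤ 0 := Real.sin_nonpos_of_nonpos_of_neg_pi_le h (by linarith)
      have : 0 < 12028 / 10000 / k := by positivity
      linarith
    · exact le_trans (Real.sin_lt h).le hgm1
  have h2 : sin gm + sin (2 * th - gm) = 2 * (sin th * cos (th - gm)) := by
    rw [show 2 * th - gm = th + (th - gm) by ring, Real.sin_add]
    have : sin gm = sin th * cos (th - gm) - cos th * sin (th - gm) := by
      rw [← Real.sin_sub]
      congr 1
      ring
    rw [this]
    ring
  have h3 : sin th * cos (th - gm) ≤ s0 / k := by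
    have hs0k : 0 < s0 / k := by positivity
    rcases le_or_gt th 0 with h | h
    · have e1 : sin th ≤ 0 := Real.sin_nonpos_of_nonpos_of_neg_pi_le h (by linarith)
      have e2 : 0 ≤ cos (th - gm) := by
        apply Real.cos_nonneg_of_mem_Icc
        constructor <;> linarith
      have := mul_nonpos_of_nonpos_of_nonneg e1 e2
      linarith
    · have e0 : th ≤ s0 / k := by
        rw [le_div_iff₀ k0]
        linarith
      have e00 : s0 / k ≤ 2 / 10 := by
        rw [div_le_iff₀ k0]
        linarith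
      have e1 : 0 ≤ sin th := Real.sin_nonneg_of_nonneg_of_le_pi h.le (by linarith)
      have e2 : sin th ≤ th := (Real.sin_lt h).le
      have e3 := Real.cos_le_one (th - gm)
      nlinarith
  have h4 : sin gm + Y * sin (2 * th - gm) =
      (1 - Y) * sin gm + Y * (sin gm + sin (2 * th - gm)) := by ring
  rw [h4, h2]
  have h5 : (1 - Y) * sin gm ≤ (1 - Y) * (2 * s0 / k) := by
    apply mul_le_mul_of_nonneg_left _ (by linarith)
    refine le_trans h1 ?_
    apply div_le_div_of_nonneg_right _ k0.le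
    linarith
  have h6 : Y * (2 * (sin th * cos (th - gm))) ≤ Y * (2 * s0 / k) := by
    apply mul_le_mul_of_nonneg_left _ hY0.le
    have : 2 * s0 / k = 2 * (s0 / k) := by ring
    rw [this]
    linarith
  linarith

end EQS
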