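import Mathlib
import Pool.Agent.Lib.MP_226de1_co.E.C2Core2

/-! Real-variable core of the phase blocks (C2): the bounds of `φ = γ + θ₂`. -/

set_option autoImplicit false

namespace EQS

open Real

/-- sign information from the real part: `0 < gr + rr` and `0 < gr` -/
theorem c2_pos {k l th gm gr rr th2 XX CC a b q : ℝ} (hk : 8 ≤ k)
    (hD : (k * gr) ^ 2 + (k * gm) ^ 2 ≤ 14465 / 10000) (ha : k * rr ≤ a) (ha' : a ≤ 46 / 100)
    (hY : exp (-(2 * l)) ≤ 1 - b / k) (hq0 : 0 < q)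
    (hq : q + 905 / 10000 + 2045 / 1000 * a ≤ b) (ha0 : 0 ≤ a)
    (hX : 0 < XX) (hC : 0 < CC) (hc : 0 < cos th2)
    (hre : 2 * sinh (gr + rr) * cos th2 =
      exp (-gr) * (cos gm - exp (-(2 * l)) * cos (2 * th - gm) + XX * CC)) :
    0 < gr + rr ∧ 0 < gr := by
  have k0 : 0 < k := by linarith
  have h6 : 1 - gm ^ 2 / 2 ≤ cos gm := Real.one_sub_sq_div_two_le_cos
  have h7 : gm ^ 2 / 2 ≤ 905 / 10000 / k := by
    rw [le_div_iff₀ k0]
    have e1 : (k * gm) ^ 2 ≤ 14465 / 10000 := by nlinarith [sq_nonneg (k * gr)]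
    have e2 : k * (k * gm ^ 2) ≤ 14465 / 10000 := by nlinarith
    have e3 : 8 * (k * gm ^ 2) ≤ k * (k * gm ^ 2) :=
      mul_le_mul_of_nonneg_right hk (by positivity)
    linarith
  have h8 : exp (-(2 * l)) * cos (2 * th - gm) ≤ exp (-(2 * l)) := by
    have := Real.cos_le_one (2 * th - gm)
    have := exp_pos (-(2 * l))
    nlinarith
  have hXC : 0 < XX * CC := mul_pos hX hC
  have h10 : (q + 905 / 10000 + 2045 / 1000 * a) / k ≤ b / k :=
    div_le_div_of_nonneg_right hq k0.le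
  have h11 : (q + 905 / 10000 + 2045 / 1000 * a) / k =
      q / k + 905 / 10000 / k + 2045 / 1000 * (a / k) := by ring
  have hak : 0 ≤ a / k := by positivity
  have hqk : 0 < q / k := by positivity
  have h12 : q / k + 2045 / 1000 * (a / k) <
      cos gm - exp (-(2 * l)) * cos (2 * th - gm) + XX * CC := by linarith
  have hpos : 0 < gr + rr := by
    by_contra hcon
    push Not at hcon
    have e1 : sinh (gr + rr) ≤ 0 := Real.sinh_nonpos_iff.2 hcon
    have e2 : 2 * sinh (gr + rr) * cos th2 ≤ 0 := by nlinarith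
    have e3 : 0 < exp (-gr) * (cos gm - exp (-(2 * l)) * cos (2 * th - gm) + XX * CC) :=
      mul_pos (exp_pos _) (by linarith)
    linarith
  refine ⟨hpos, ?_⟩
  by_contra hcon
  push Not at hcon
  have e1 : 1 ≤ exp (-gr) := Real.one_le_exp (by linarith)
  have e2 : gr + rr ≤ a / k := by
    rw [le_div_iff₀ k0]
    nlinarith
  have e3 : gr + rr ≤ 21 / 100 := by
    refine le_trans e2 ?_
    rw [div_le_iff₀ k0]
    linarith
  have e4 := c2_sinh_small hpos.le e3
  have e5 : 0 ≤ sinh (gr + rr) := Real.sinh_nonneg_iff.2 hpos.le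
  have e6 := Real.cos_le_one th2
  have e7 : 2 * sinh (gr + rr) * cos th2 ≤ 2 * sinh (gr + rr) := by nlinarith
  have e8 : q / k + 2045 / 1000 * (a / k) <
      exp (-gr) * (cos gm - exp (-(2 * l)) * cos (2 * th - gm) + XX * CC) := by nlinarith
  linarith

/-- lower bound of `cos A + T cos B`, crude -/
theorem c2_CC0 {A B T : ℝ} (hA : |A| ≤ π / 8) (hB1 : -(14 / 10) ≤ B) (hB2 : B ≤ π / 2 + π / 16)
    (hT0 : 0 ≤ T) (hT : T ≤ 1061 / 1000) : 7154 / 10000 ≤ cos A + T * cos B := by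
  have hpi := Real.pi_lt_d4
  have hpi' := Real.pi_gt_d2
  have h1 : (9238 / 10000 : ℝ) ≤ cos A := by
    refine le_trans c2_cos_pi8 ?_
    rw [← Real.cos_abs A]
    exact Real.cos_le_cos_of_nonneg_of_le_pi (abs_nonneg _) (by linarith) hA
  have h2 : -(1964 / 10000 : ℝ) ≤ cos B := by
    rcases le_or_gt B (π / 2) with h | h
    · have : 0 ≤ cos B := Real.cos_nonneg_of_mem_Icc ⟨by linarith, h⟩
      linarith
    · have e1 : cos B = -sin (B - π / 2) := by
        rw [Real.sin_sub_pi_div_two, neg_neg]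
      have e2 : sin (B - π / 2) < B - π / 2 := Real.sin_lt (by linarith)
      rw [e1]
      linarith
  nlinarith

/-- lower bound of `cos A + T cos B` for `|B| ≤ β` -/
theorem c2_CC1 {A B T β c : ℝ} (hA : |A| ≤ π / 8) (hB : |B| ≤ β)
    (hT : 96 / 100 ≤ T) (hc : c ≤ 9238 / 10000 + 96 / 100 * (1 - β ^ 2 / 2))
    (hβ : 0 ≤ 1 - β ^ 2 / 2) : c ≤ cos A + T * cos B := by
  have hpi' := Real.pi_gt_d2
  have h1 : (9238 / 10000 : ℝ) ≤ cos A := by
    refine le_trans c2_cos_pi8 ?_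
    rw [← Real.cos_abs A]
    exact Real.cos_le_cos_of_nonneg_of_le_pi (abs_nonneg _) (by linarith) hA
  have h2 : 1 - B ^ 2 / 2 ≤ cos B := Real.one_sub_sq_div_two_le_cos
  have h3 : B ^ 2 ≤ β ^ 2 := by
    rw [← sq_abs B]
    exact pow_le_pow_left₀ (abs_nonneg _) hB 2
  have h4 : 1 - β ^ 2 / 2 ≤ cos B := by linarith
  nlinarith

theorem c2_sin_le_max {x y : ℝ} (hx : -π ≤ x) (hxy : x ≤ y) (hy : 0 ≤ y) : sin x ≤ y := by
  rcases le_or_gt x 0 with h | h
  · have := Real.sin_nonpos_of_nonpos_of_neg_pi_le h hx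
    linarith
  · exact le_trans (Real.sin_lt h).le hxy

/-- `th2 < 0.492` -/
theorem c2_th2 {u th2 s0 q G XX CC SS : ℝ} (hu0 : 0 < u) (hu : u ≤ 1 / 8)
    (hG1 : G ≤ 12028 / 10000)
    (hX : 0 < XX) (hC : 7154 / 10000 ≤ CC)
    (hXC : XX * CC ≤ (2535 / 1000 * G - q) * u)
    (hS : SS ≤ 14537 / 10000)
    (hth2' : th2 < π / 2)
    (h0 : 2 * s0 + 20321 / 10000 * (30491 / 10000 - q) ≤ 754 / 100)
    (hsin : 2 * sin th2 ≤ 2 * s0 * u + XX * SS) : th2 < 492 / 1000 := by
  by_contra hcon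
  push Not at hcon
  have h1 : (4721 / 10000 : ℝ) ≤ sin th2 := by
    have e1 := Real.sin_gt_sub_cube (x := 492 / 1000) (by norm_num)
    have e2 : sin (492 / 1000) ≤ sin th2 :=
      Real.sin_le_sin_of_le_of_le_pi_div_two (by linarith [Real.pi_pos]) hth2'.le hcon
    norm_num at e1
    linarith
  have h2 : XX * (7154 / 10000) ≤ (30491 / 10000 - q) * u := by
    have e1 : XX * (7154 / 10000) ≤ XX * CC := mul_le_mul_of_nonneg_left hC hX.le
    have e2 : (2535 / 1000 * G - q) * u ≤ (30491 / 10000 - q) * u := by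
      apply mul_le_mul_of_nonneg_right _ hu0.le
      linarith
    linarith
  have h3 : XX * SS ≤ XX * (14537 / 10000) := mul_le_mul_of_nonneg_left hS hX.le
  have h4 : XX * (14537 / 10000) ≤ 20321 / 10000 * ((30491 / 10000 - q) * u) := by
    linarith
  have h5 : 2 * sin th2 ≤ (2 * s0 + 20321 / 10000 * (30491 / 10000 - q)) * u := by
    calc 2 * sin th2 ≤ 2 * s0 * u + XX * SS := hsin
      _ ≤ 2 * s0 * u + 20321 / 10000 * ((30491 / 10000 - q) * u) := by linarith
      _ = _ := by ring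
  have h6 : (2 * s0 + 20321 / 10000 * (30491 / 10000 - q)) * u ≤ 754 / 100 * u :=
    mul_le_mul_of_nonneg_right h0 hu0.le
  linarith

end EQS
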