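import Mathlib
import Pool.Agent.Lib.MP_226de1_co.E.C2Core3

/-! Real-variable core of the phase blocks (C2): the final bounds of `φ = γ + θ₂`. -/

set_option autoImplicit false

namespace EQS

open Real

/-- stage A: `φ < 2.98` -/
theorem c2_stageA {k gm th2 s0 q gr XX CC SS : ℝ} (hk : 8 ≤ k) (hgr : 0 < gr)
    (hD : (k * gr) ^ 2 + (k * gm) ^ 2 ≤ 14465 / 10000)
    (hC : 15081 / 10000 ≤ CC) (hX : 0 < XX)
    (hXC : XX * CC ≤ (2535 / 1000 * (k * gr) - q) / k)
    (hS : SS ≤ 13314 / 10000)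
    (hth2 : 0 < th2) (hth2' : th2 ≤ 492 / 1000)
    (hA : s0 - 44145 / 100000 * q ≤ 10831 / 10000)
    (hsin : 2 * sin th2 ≤ 2 * s0 / k + XX * SS) :
    k * gm + k * th2 < 298 / 100 ∧
      9596 / 10000 * (k * th2) ≤ 10831 / 10000 + 11191 / 10000 * (k * gr) := by
  have k0 : 0 < k := by linarith
  have h1 : XX * SS ≤ 8829 / 10000 * ((2535 / 1000 * (k * gr) - q) / k) := by
    have e1 : SS ≤ 8829 / 10000 * CC := by linarith
    calc XX * SS ≤ XX * (8829 / 10000 * CC) := mul_le_mul_of_nonneg_left e1 hX.le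
      _ = 8829 / 10000 * (XX * CC) := by ring
      _ ≤ _ := mul_le_mul_of_nonneg_left hXC (by norm_num)
  have h2 : 9596 / 10000 * th2 ≤ sin th2 := by
    have e1 := Real.sin_gt_sub_cube hth2
    have e2 : th2 ^ 3 ≤ (492 / 1000) ^ 2 * th2 := by
      have : th2 ^ 2 ≤ (492 / 1000) ^ 2 := pow_le_pow_left₀ hth2.le hth2' 2
      calc th2 ^ 3 = th2 ^ 2 * th2 := by ring
        _ ≤ _ := mul_le_mul_of_nonneg_right this hth2.le
    norm_num at e2
    linarith
  have h3 : 2 * (9596 / 10000 * th2) ≤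
      (2 * s0 + 8829 / 10000 * (2535 / 1000 * (k * gr) - q)) / k := by
    have : (2 * s0 + 8829 / 10000 * (2535 / 1000 * (k * gr) - q)) / k =
      2 * s0 / k + 8829 / 10000 * ((2535 / 1000 * (k * gr) - q) / k) := by ring
    rw [this]
    linarith
  rw [le_div_iff₀ k0] at h3
  have hG0 : 0 < k * gr := mul_pos k0 hgr
  set G := k * gr with hG
  set Γ := k * gm with hΓ
  have h4 : 9596 / 10000 * (k * th2) ≤
      s0 - 44145 / 100000 * q + 44145 / 100000 * (2535 / 1000) * G := by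
    nlinarith
  have hGsq : G ^ 2 ≤ 14465 / 10000 := by nlinarith [sq_nonneg Γ]
  have h : 44145 / 100000 * (2535 / 1000) * G ≤ 11191 / 10000 * G := by
    nlinarith
  have h5 : 9596 / 10000 * Γ + 11191 / 10000 * G ≤ 17732 / 10000 := by
    have e1 : (9596 / 10000 * Γ + 11191 / 10000 * G) ^ 2 ≤
        ((9596 / 10000) ^ 2 + (11191 / 10000) ^ 2) * (G ^ 2 + Γ ^ 2) := by
      nlinarith [sq_nonneg (9596 / 10000 * G - 11191 / 10000 * Γ)]
    have e2 : (9596 / 10000 * Γ + 11191 / 10000 * G) ^ 2 ≤ (17732 / 10000) ^ 2 := by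
      refine le_trans e1 ?_
      have : ((9596 / 10000 : ℝ) ^ 2 + (11191 / 10000) ^ 2) * (G ^ 2 + Γ ^ 2) ≤
          ((9596 / 10000) ^ 2 + (11191 / 10000) ^ 2) * (14465 / 10000) :=
        mul_le_mul_of_nonneg_left hD (by positivity)
      refine le_trans this ?_
      norm_num
    exact (abs_le_of_sq_le_sq' e2 (by norm_num)).2
  constructor
  · nlinarith
  · linarith

/-- stage B: `φ < 2.64` -/
theorem c2_stageB {k gm th2 s0 q gr XX CC SS : ℝ} (hk : 8 ≤ k) (hgr : 0 < gr)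
    (hD : (k * gr) ^ 2 + (k * gm) ^ 2 ≤ 14465 / 10000)
    (hC : 17525 / 10000 ≤ CC) (hX : 0 < XX)
    (hXC : XX * CC ≤ (2535 / 1000 * (k * gr) - q) / k)
    (hS : SS ≤ 70516 / 100000)
    (hth2 : 0 < th2) (hth2' : th2 ≤ 3165 / 10000)
    (hA : s0 - 2012 / 10000 * q ≤ 12556 / 10000)
    (hsin : 2 * sin th2 ≤ 2 * s0 / k + XX * SS) :
    k * gm + k * th2 < 264 / 100 := by
  have k0 : 0 < k := by linarith
  have h1 : XX * SS ≤ 4024 / 10000 * ((2535 / 1000 * (k * gr) - q) / k) := by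
    have e1 : SS ≤ 4024 / 10000 * CC := by linarith
    calc XX * SS ≤ XX * (4024 / 10000 * CC) := mul_le_mul_of_nonneg_left e1 hX.le
      _ = 4024 / 10000 * (XX * CC) := by ring
      _ ≤ _ := mul_le_mul_of_nonneg_left hXC (by norm_num)
  have h2 : 9833 / 10000 * th2 ≤ sin th2 := by
    have e1 := Real.sin_gt_sub_cube hth2
    have e2 : th2 ^ 3 ≤ (3165 / 10000) ^ 2 * th2 := by
      have : th2 ^ 2 ≤ (3165 / 10000) ^ 2 := pow_le_pow_left₀ hth2.le hth2' 2
      calc th2 ^ 3 = th2 ^ 2 * th2 := by ring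
        _ ≤ _ := mul_le_mul_of_nonneg_right this hth2.le
    norm_num at e2
    linarith
  have h3 : 2 * (9833 / 10000 * th2) ≤
      (2 * s0 + 4024 / 10000 * (2535 / 1000 * (k * gr) - q)) / k := by
    have : (2 * s0 + 4024 / 10000 * (2535 / 1000 * (k * gr) - q)) / k =
      2 * s0 / k + 4024 / 10000 * ((2535 / 1000 * (k * gr) - q) / k) := by ring
    rw [this]
    linarith
  rw [le_div_iff₀ k0] at h3
  have hG0 : 0 < k * gr := mul_pos k0 hgr
  set G := k * gr with hG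
  set Γ := k * gm with hΓ
  have h4 : 9833 / 10000 * (k * th2) ≤
      s0 - 2012 / 10000 * q + 2012 / 10000 * (2535 / 1000) * G := by
    nlinarith
  have h : 2012 / 10000 * (2535 / 1000) * G ≤ 5101 / 10000 * G := by
    nlinarith
  have h5 : 9833 / 10000 * Γ + 5101 / 10000 * G ≤ 13325 / 10000 := by
    have e1 : (9833 / 10000 * Γ + 5101 / 10000 * G) ^ 2 ≤
        ((9833 / 10000) ^ 2 + (5101 / 10000) ^ 2) * (G ^ 2 + Γ ^ 2) := by
      nlinarith [sq_nonneg (9833 / 10000 * G - 5101 / 10000 * Γ)]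
    have e2 : (9833 / 10000 * Γ + 5101 / 10000 * G) ^ 2 ≤ (13325 / 10000) ^ 2 := by
      refine le_trans e1 ?_
      have : ((9833 / 10000 : ℝ) ^ 2 + (5101 / 10000) ^ 2) * (G ^ 2 + Γ ^ 2) ≤
          ((9833 / 10000) ^ 2 + (5101 / 10000) ^ 2) * (14465 / 10000) :=
        mul_le_mul_of_nonneg_left hD (by positivity)
      refine le_trans this ?_
      norm_num
    exact (abs_le_of_sq_le_sq' e2 (by norm_num)).2
  nlinarith

theorem c2_T {k rr : ℝ} (hk : 8 ≤ k) (ha : k * rr ≤ 46 / 100) (hr : -(32 / 100) ≤ k * rr) :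
    96 / 100 ≤ exp rr ∧ exp rr ≤ 1061 / 1000 := by
  have k0 : 0 < k := by linarith
  constructor
  · have e1 : -(4 / 100) ≤ rr := by
      by_contra hcon
      push Not at hcon
      nlinarith
    have := add_one_le_exp rr
    linarith
  · have e1 : rr ≤ 575 / 10000 := by
      by_contra hcon
      push Not at hcon
      nlinarith
    have e2 : exp rr ≤ exp (575 / 10000) := exp_le_exp.2 e1
    have e3 := c2_exp_le_sq (x := 575 / 10000) (by norm_num) (by norm_num)
    norm_num at e3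
    linarith

/-- **upper side**: the bounds of `φ = k (gm + th2)` when `th2 > 0` -/
theorem c2_phi {k l th c1 c2 gr rr th2 XX s0 q a b : ℝ}
    (hk : 8 ≤ k) (hl : 0 ≤ l) (hth : k * th ≤ s0) (hth' : -(π / 4) < th)
    (hs : 61 / 100 ≤ s0) (hs' : s0 ≤ 16 / 10)
    (h1 : |k * c1| < π / 2) (h2 : |k * c2| < π / 2)
    (hD : (k * gr) ^ 2 + (k * (c2 - c1)) ^ 2 ≤ 14465 / 10000)
    (ha : k * rr ≤ a) (ha' : a ≤ 46 / 100) (ha0 : 0 ≤ a) (hr : -(32 / 100) ≤ k * rr)
    (hX : 0 < XX)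
    (hY : exp (-(2 * l)) ≤ 1 - b / k) (hq0 : 0 < q)
    (hq : q + 905 / 10000 + 2045 / 1000 * a ≤ b)
    (hre : 2 * sinh (gr + rr) * cos th2 = exp (-gr) * (cos (c2 - c1) -
      exp (-(2 * l)) * cos (2 * th - (c2 - c1)) +
      XX * (cos (c1 + c2) + exp rr * cos (th2 + 2 * c2))))
    (him : 2 * cosh (gr + rr) * sin th2 = exp (-gr) * (sin (c2 - c1) +
      exp (-(2 * l)) * sin (2 * th - (c2 - c1)) +
      XX * (sin (c1 + c2) + exp rr * sin (th2 + 2 * c2))))
    (hth2 : 0 < th2) (hth2' : th2 < π / 2) (hB : th2 + 2 * c2 < π / 2 + c2)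
    (h0 : 2 * s0 + 20321 / 10000 * (30491 / 10000 - q) ≤ 754 / 100)
    (hA : s0 - 44145 / 100000 * q ≤ 10831 / 10000)
    (hA2 : s0 - 2012 / 10000 * q ≤ 12556 / 10000) :
    k * (c2 - c1) + k * th2 < 298 / 100 ∧
      (c1 < 0 → k * (c2 - c1) + k * th2 < 264 / 100) := by
  have k0 : 0 < k := by linarith
  have hpi := Real.pi_lt_d4
  have hpi' := Real.pi_gt_d2
  obtain ⟨hT1, hT2⟩ := c2_T hk (le_trans ha ha') hr
  have hT0 := exp_pos rr
  have hc1 : |c1| < π / 16 := by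
    rw [abs_mul, abs_of_pos k0] at h1
    nlinarith [abs_nonneg c1]
  have hc2 : |c2| < π / 16 := by
    rw [abs_mul, abs_of_pos k0] at h2
    nlinarith [abs_nonneg c2]
  have hc1' := abs_lt.1 hc1
  have hc2' := abs_lt.1 hc2
  have hAabs : |c1 + c2| ≤ π / 8 := by
    rw [abs_le]
    constructor <;> linarith
  set gm := c2 - c1 with hgm
  set T := exp rr with hT
  set CC := cos (c1 + c2) + T * cos (th2 + 2 * c2) with hCC
  set SS := sin (c1 + c2) + T * sin (th2 + 2 * c2) with hSS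
  have hCC0 : 7154 / 10000 ≤ CC :=
    c2_CC0 hAabs (by linarith) (by linarith) hT0.le hT2
  have hcos2 : 0 < cos th2 := Real.cos_pos_of_mem_Ioo ⟨by linarith, hth2'⟩
  obtain ⟨hlam, hgr⟩ := c2_pos hk hD ha ha' hY hq0 hq ha0 hX (by linarith) hcos2 hre
  have hXC := c2_KR hk hgr hD ha ha' hlam hY hq hre
  have hGpos : 0 < k * gr := mul_pos k0 hgr
  have hG1 : k * gr ≤ 12028 / 10000 := by nlinarith [sq_nonneg (k * gm)]
  have hΓ1 : |k * gm| ≤ 12028 / 10000 := by
    apply abs_le_of_sq_le_sq _ (by norm_num)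
    nlinarith [sq_nonneg (k * gr)]
  have hS1 := c2_S1 hk hΓ1 hl hth hth' hs hs'
  -- `2 sin th2 ≤ 2 s0 / k + XX SS`
  have hsinpos : 0 < sin th2 := Real.sin_pos_of_pos_of_lt_pi hth2 (by linarith)
  have hsin : 2 * sin th2 ≤ 2 * s0 / k + XX * SS := by
    have e1 : 2 * sin th2 ≤ 2 * cosh (gr + rr) * sin th2 := by
      have := Real.one_le_cosh (gr + rr)
      nlinarith
    have e2 : exp (-gr) ≤ 1 := Real.exp_le_one_iff.2 (by linarith)
    have e3 := exp_pos (-gr)
    rw [him] at e1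
    have e4 : 0 < sin gm + exp (-(2 * l)) * sin (2 * th - gm) + XX * SS := by
      have : 0 < exp (-gr) * (sin gm + exp (-(2 * l)) * sin (2 * th - gm) + XX * SS) := by
        linarith
      exact (pos_iff_pos_of_mul_pos this).1 e3
    have e5 : exp (-gr) * (sin gm + exp (-(2 * l)) * sin (2 * th - gm) + XX * SS) ≤
        sin gm + exp (-(2 * l)) * sin (2 * th - gm) + XX * SS := by nlinarith
    linarith
  have hu : 1 / k ≤ 1 / 8 := one_div_le_one_div_of_le (by norm_num) hk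
  have hsA : sin (c1 + c2) ≤ 3927 / 10000 :=
    c2_sin_le_max (by linarith [(abs_le.1 hAabs).1]) (by linarith [(abs_le.1 hAabs).2]) (by norm_num)
  have hth492 : th2 < 492 / 1000 := by
    apply c2_th2 (u := 1 / k) (s0 := s0) (q := q) (G := k * gr) (XX := XX) (CC := CC) (SS := SS)
      (by positivity) hu hG1 hX hCC0 _ _ hth2' h0
    · rw [mul_one_div]
      exact hsin
    · rw [mul_one_div]
      exact hXC
    · have e1 : T * sin (th2 + 2 * c2) ≤ 1061 / 1000 := by
        have := Real.sin_le_one (th2 + 2 * c2)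
        nlinarith
      linarith
  -- stage A
  have hB1 : th2 + 2 * c2 ≤ 8847 / 10000 := by linarith
  have hB2 : -(3927 / 10000) ≤ th2 + 2 * c2 := by linarith
  have hCCA : 15081 / 10000 ≤ CC :=
    c2_CC1 (β := 8847 / 10000) hAabs (abs_le.2 ⟨by linarith, hB1⟩) hT1 (by norm_num)
      (by norm_num)
  have hSSA : SS ≤ 13314 / 10000 := by
    have e1 : sin (th2 + 2 * c2) ≤ 8847 / 10000 := c2_sin_le_max (by linarith) hB1 (by norm_num)
    have e2 : T * sin (th2 + 2 * c2) ≤ T * (8847 / 10000) :=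
      mul_le_mul_of_nonneg_left e1 hT0.le
    linarith
  obtain ⟨hφA, hΘ⟩ := c2_stageA hk hgr hD hCCA hX hXC hSSA hth2 hth492.le hA hsin
  refine ⟨hφA, fun hc1neg => ?_⟩
  -- stage B
  have hΓ2 := abs_le.1 hΓ1
  have hgmle : gm ≤ 15035 / 100000 := by
    by_contra hcon
    push Not at hcon
    nlinarith
  have hA1 : c1 + c2 ≤ 15035 / 100000 := by
    have : c1 + c2 = gm + 2 * c1 := by rw [hgm]; ring
    linarith
  have hph : gm + th2 ≤ 3725 / 10000 := by
    by_contra hcon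
    push Not at hcon
    nlinarith
  have hB3 : th2 + 2 * c2 ≤ 52285 / 100000 := by
    have : th2 + 2 * c2 = (c1 + c2) + (gm + th2) := by rw [hgm]; ring
    linarith
  have hCCB : 17525 / 10000 ≤ CC :=
    c2_CC1 (β := 5229 / 10000) hAabs (abs_le.2 ⟨by linarith, by linarith⟩) hT1 (by norm_num)
      (by norm_num)
  have hSSB : SS ≤ 70516 / 100000 := by
    have e0 : sin (c1 + c2) ≤ 15035 / 100000 :=
      c2_sin_le_max (by linarith [(abs_le.1 hAabs).1]) hA1 (by norm_num)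
    have e1 : sin (th2 + 2 * c2) ≤ 52285 / 100000 := c2_sin_le_max (by linarith) hB3 (by norm_num)
    have e2 : T * sin (th2 + 2 * c2) ≤ T * (52285 / 100000) :=
      mul_le_mul_of_nonneg_left e1 hT0.le
    linarith
  have hth3165 : th2 ≤ 3165 / 10000 := by
    by_contra hcon
    push Not at hcon
    nlinarith
  exact c2_stageB hk hgr hD hCCB hX hXC hSSB hth2 hth3165 hA2 hsin

end EQS
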