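import Mathlib
import Pool.Agent.Lib.MP_226de1_co.E.Basics

/-! One backward step `q' = q - D`, `xi^2 = 1 + q^2`, `xi'^2 = 1 + q'^2`, in real form.

`phi = Im (X - d)` is the argument of `r = xi / D`, `om = Im (X' - d)` the argument of `xi' / D`;
`R = |xi|`, `R' = |xi'|`. -/

set_option autoImplicit false

namespace EQS

open Complex

variable {k C : ℝ} {q q' X X' d : ℂ}

theorem exp_two_sub (X d : ℂ) : exp (2 * (X - d)) * exp d ^ 2 = exp (2 * X) := by
  rw [← Complex.exp_nat_mul, ← exp_add]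
  congr 1
  push_cast
  ring

/-- `R'^2 cos 2 om = R^2 cos 2 phi - 2 Re (q conj D) + |D|^2` and
`R'^2 sin 2 om = R^2 sin 2 phi - 2 Im (q conj D)` -/
theorem step_id (hx : exp (2 * X) = 1 + q ^ 2) (hx' : exp (2 * X') = 1 + q' ^ 2)
    (hq : q = q' + exp d) :
    Real.exp X'.re ^ 2 * Real.cos (2 * (X' - d).im) =
        Real.exp X.re ^ 2 * Real.cos (2 * (X - d).im) -
          2 * (q.re * (exp d).re + q.im * (exp d).im) + ‖exp d‖ ^ 2 ∧
      Real.exp X'.re ^ 2 * Real.sin (2 * (X' - d).im) =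
        Real.exp X.re ^ 2 * Real.sin (2 * (X - d).im) -
          2 * (q.im * (exp d).re - q.re * (exp d).im) := by
  have hq' : q' = q - exp d := by rw [hq]; ring
  have key : exp (2 * (X' - d)) * exp d ^ 2 =
      exp (2 * (X - d)) * exp d ^ 2 - 2 * q * exp d + exp d ^ 2 := by
    rw [exp_two_sub, exp_two_sub, hx, hx', hq']
    ring
  -- multiply by `conj (D^2)` and divide by `|D|^2`
  have hD : exp d ≠ 0 := exp_ne_zero d
  have hN : ∀ Y : ℂ, exp (2 * (Y - d)) * (‖exp d‖ ^ 2 : ℝ) =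
      ((Real.exp Y.re ^ 2 * Real.cos (2 * (Y - d).im) : ℝ) : ℂ) +
        ((Real.exp Y.re ^ 2 * Real.sin (2 * (Y - d).im) : ℝ) : ℂ) * I := by
    intro Y
    have e1 : ‖exp d‖ = Real.exp d.re := norm_exp d
    have e2 : exp (2 * (Y - d)) = ((Real.exp (2 * (Y - d).re) : ℝ) : ℂ) *
        (((Real.cos (2 * (Y - d).im) : ℝ) : ℂ) + ((Real.sin (2 * (Y - d).im) : ℝ) : ℂ) * I) := by
      rw [exp_eq_exp_re_mul_sin_add_cos]
      have e3 : (2 * (Y - d)).re = 2 * (Y - d).re := by simp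
      have e4 : (2 * (Y - d)).im = 2 * (Y - d).im := by simp
      rw [e3, e4]
      push_cast
      ring
    have e5 : Real.exp (2 * (Y - d).re) * Real.exp d.re ^ 2 = Real.exp Y.re ^ 2 := by
      rw [← Real.exp_nat_mul, ← Real.exp_nat_mul, ← Real.exp_add]
      congr 1
      simp only [sub_re]
      push_cast
      ring
    rw [e2, e1]
    have e6 : ((Real.exp (2 * (Y - d).re) : ℝ) : ℂ) * ((Real.exp d.re ^ 2 : ℝ) : ℂ) =
        ((Real.exp Y.re ^ 2 : ℝ) : ℂ) := by rw [← e5]; push_cast; ring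
    push_cast at e6 ⊢
    linear_combination (cos (2 * ((Y - d).im : ℂ)) + sin (2 * ((Y - d).im : ℂ)) * I) * e6
  have h1 : exp (2 * (X' - d)) = exp (2 * (X - d)) - 2 * (q / exp d) + 1 := by
    have h2 : exp d ^ 2 ≠ 0 := pow_ne_zero 2 hD
    have h3 := congrArg (fun z => z / exp d ^ 2) key
    rw [mul_div_assoc, div_self h2, mul_one] at h3
    rw [h3]
    field_simp
  have h4 : (q / exp d) * ((‖exp d‖ ^ 2 : ℝ) : ℂ) = q * (starRingEnd ℂ) (exp d) := by
    rw [← Complex.normSq_eq_norm_sq, ← Complex.mul_conj]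
    field_simp
  have h5 := hN X'
  rw [h1] at h5
  have h6 : (exp (2 * (X - d)) - 2 * (q / exp d) + 1) * ((‖exp d‖ ^ 2 : ℝ) : ℂ) =
      exp (2 * (X - d)) * ((‖exp d‖ ^ 2 : ℝ) : ℂ) - 2 * (q * (starRingEnd ℂ) (exp d)) +
        ((‖exp d‖ ^ 2 : ℝ) : ℂ) := by
    linear_combination (-2) * h4
  rw [h6, hN X] at h5
  constructor
  · have := congrArg Complex.re h5
    simp only [sub_re, add_re, mul_re, ofReal_re, ofReal_im, I_re, I_im, conj_re, conj_im,
      re_ofNat, im_ofNat, mul_im, sub_im] at this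
    simp only [sub_im]
    linarith
  · have := congrArg Complex.im h5
    simp only [sub_im, add_im, mul_re, ofReal_re, ofReal_im, I_re, I_im, conj_re, conj_im,
      re_ofNat, im_ofNat, mul_im] at this
    simp only [sub_im]
    linarith

/-- the same after multiplication by `a = - Re q` (`2 a v = R^2 sin 2 A`, `A = - Im X`):
`a (R^2 sin 2 phi - R'^2 sin 2 om) = R^2 sin 2 A Re D + 2 a^2 Im D` -/
theorem step_sin_a (hx : exp (2 * X) = 1 + q ^ 2) (hx' : exp (2 * X') = 1 + q' ^ 2)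
    (hq : q = q' + exp d) :
    -q.re * (Real.exp X.re ^ 2 * Real.sin (2 * (X - d).im) -
        Real.exp X'.re ^ 2 * Real.sin (2 * (X' - d).im)) =
      Real.exp X.re ^ 2 * Real.sin (-(2 * X.im)) * (exp d).re + 2 * q.re ^ 2 * (exp d).im := by
  obtain ⟨_, h2⟩ := step_id hx hx' hq
  obtain ⟨_, h4⟩ := quad_polar hx
  rw [Real.sin_neg]
  have h5 : Real.exp X.re ^ 2 * Real.sin (2 * (X - d).im) -
        Real.exp X'.re ^ 2 * Real.sin (2 * (X' - d).im) =
      2 * (q.im * (exp d).re - q.re * (exp d).im) := by linarith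
  rw [h5, mul_neg, ← h4]
  ring

/-- Lemma (G) of helper23 (any `k`, any target): if `arg p_{-j-1} ≤ 0` then
`a sin 2 phi ≤ Re D sin 2 A + 2 (a^2/R^2) Im D`, `a = -Re q`, `A = - arg xi`. -/
theorem lemG (hx : exp (2 * X) = 1 + q ^ 2) (hx' : exp (2 * X') = 1 + q' ^ 2)
    (hq : q = q' + exp d) (ha : q.re ≤ 0) (h1 : -(Real.pi / 2) ≤ (X' - d).im)
    (h2 : (X' - d).im ≤ 0) :
    -q.re * Real.sin (2 * (X - d).im) ≤
      (exp d).re * Real.sin (-(2 * X.im)) + 2 * (q.re ^ 2 / Real.exp X.re ^ 2) * (exp d).im := by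
  have h := step_sin_a hx hx' hq
  have hR : 0 < Real.exp X.re ^ 2 := by positivity
  have hs : Real.sin (2 * (X' - d).im) ≤ 0 :=
    Real.sin_nonpos_of_nonpos_of_neg_pi_le (by linarith) (by linarith)
  have h3 : 0 ≤ -q.re * -(Real.exp X'.re ^ 2 * Real.sin (2 * (X' - d).im)) := by
    apply mul_nonneg (by linarith)
    have : 0 ≤ Real.exp X'.re ^ 2 := by positivity
    nlinarith
  have h4 : -q.re * (Real.exp X.re ^ 2 * Real.sin (2 * (X - d).im)) ≤
      Real.exp X.re ^ 2 * Real.sin (-(2 * X.im)) * (exp d).re + 2 * q.re ^ 2 * (exp d).im := by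
    rw [← h]
    linarith
  rw [← mul_le_mul_iff_right₀ hR]
  calc Real.exp X.re ^ 2 * (-q.re * Real.sin (2 * (X - d).im)) =
        -q.re * (Real.exp X.re ^ 2 * Real.sin (2 * (X - d).im)) := by ring
    _ ≤ _ := h4
    _ = _ := by field_simp

end EQS
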