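import Mathlib
import Pool.Agent.Lib.MP_226de1_co.E.Step
import Pool.Agent.Lib.MP_226de1_co.E.BigJ

/-! (F3) of helper9 and helper70: at a `W1` exit with `σ ≥ π/2` one has
`Im (X1 - X2) ≤ - Im X1` (`arg xi_{-2} ≤ 2 arg xi_{-1}` in absolute value), `k ≥ 8`. -/

set_option autoImplicit false

namespace EQS

open Complex

variable {k C : ℝ} {q0 q1 q2 q3 d0 d1 d2 X1 X2 X3 : ℂ}

/-- the exact relation: imaginary part of `(xi_{-2}/xi_{-1})^2` rotated by `e^{2 i θ}` -/
theorem St.f3_id (h : St k C q0 q1 q2 q3 d0 d1 d2 X1 X2 X3) :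
    Real.exp X1.re ^ 2 * Real.sin (2 * (X1 - X2).im) =
      2 * Real.exp d1.re * (q1.re * Real.sin (-X2.im - (X2 - d1).im) +
        q1.im * Real.cos (-X2.im - (X2 - d1).im)) +
      Real.exp d1.re ^ 2 * Real.sin (2 * (X2 - d1).im) := by
  obtain ⟨h1, h2⟩ := step_id h.x1 h.x2 h.s1
  have e0 : 2 * (X1 - X2).im = 2 * (X1 - d1).im - 2 * (X2 - d1).im := by
    simp only [sub_im]
    ring
  have e1 : -X2.im - (X2 - d1).im = -(d1.im + 2 * (X2 - d1).im) := by
    simp only [sub_im]
    ring
  have hs := Real.sin_sq_add_cos_sq (2 * (X2 - d1).im)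
  rw [norm_exp, exp_re, exp_im] at h1
  rw [exp_re, exp_im] at h2
  rw [e0, e1, Real.sin_sub, Real.sin_neg, Real.cos_neg, Real.sin_add, Real.cos_add]
  generalize Real.sin (2 * (X2 - d1).im) = s2 at *
  generalize Real.cos (2 * (X2 - d1).im) = c2 at *
  linear_combination s2 * h1 - c2 * h2

/-- (F3) -/
theorem St.f3 (h : St k C q0 q1 q2 q3 d0 d1 d2 X1 X2 X3) (hk : 8 ≤ k)
    (hA : -(Real.pi / 4) ≤ X1.im) (he : |k * (X1 - d0).im| = Real.pi / 2)
    (hσ : Real.pi / 2 ≤ k * (X1 - X2).im) : (X1 - X2).im ≤ -X1.im := by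
  have hpi := Real.pi_pos
  have k0 : 0 < k := by linarith
  set η := Real.pi / (2 * k) with hη
  have hkη : k * η = Real.pi / 2 := by rw [hη]; field_simp
  have hη0 : 0 < η := by positivity
  have hη1 : η ≤ Real.pi / 16 := by
    rw [hη, div_le_div_iff₀ (by positivity) (by norm_num)]
    nlinarith
  set θ := (X1 - X2).im with hθ
  set κ := (X2 - d1).im with hκ
  have hθη : η ≤ θ := by
    by_contra hcon
    push Not at hcon
    nlinarith
  have hκ1 : |κ| < η := by
    have h1 := h.p2
    rw [abs_mul, abs_of_pos k0] at h1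
    by_contra hcon
    push Not at hcon
    nlinarith
  have hκ2 := abs_lt.1 hκ1
  have hid := h.f3_id
  rw [← hθ, ← hκ] at hid
  set φ := -X2.im - κ with hφ
  have hX2 : -X2.im = -X1.im + θ := by
    rw [hθ, sub_im]
    ring
  have hα0 := h.a1.2
  have hα2 := h.a2.1
  have c0 := h.cos0
  -- `|a0| ≤ α + η`, and `|a0| ≤ α - η` or so in the case `κ < 0`
  have hd0 := h.im_d0 he
  rw [← hη] at hd0
  have key : |d0.im| ≤ φ ∧ Real.sin (2 * κ) ≤ 2 * Real.cos d0.im * Real.sin φ := by
    rcases lt_or_ge (k * (X1 - d1).im) (Real.pi / 2) with hF | hF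
    · -- `0 < F < π/2`
      have hF' := F_eq (k := k) (X1 := X1) (X2 := X2) (d1 := d1)
      rw [← hθ, ← hκ] at hF'
      have hκ0 : κ < 0 := by
        by_contra hcon
        push Not at hcon
        have := mul_nonneg k0.le hcon
        linarith
      have hF0 : 0 < k * (X1 - d1).im := by
        rw [hF']
        have : -(Real.pi / 2) < k * κ := by nlinarith
        linarith
      have h0 := h.argp_of_pos he hF0 hF
      have h1 : d0.im = X1.im + η := by
        have : k * (X1 - d0).im = -(k * η) := by rw [h0, hkη]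
        have h2 : (X1 - d0).im = -η := by
          have h3 : k * ((X1 - d0).im + η) = 0 := by linarith
          rcases mul_eq_zero.1 h3 with h4 | h4
          · exact absurd h4 k0.ne'
          · linarith
        rw [sub_im] at h2
        linarith
      refine ⟨?_, ?_⟩
      · rw [h1, abs_le]
        constructor <;> linarith
      · have h2 : Real.sin (2 * κ) ≤ 0 :=
          Real.sin_nonpos_of_nonpos_of_neg_pi_le (by linarith) (by linarith)
        have h3 : 0 ≤ Real.sin φ :=
          Real.sin_nonneg_of_nonneg_of_le_pi (by linarith) (by linarith)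
        have := mul_nonneg (mul_nonneg (by norm_num : (0:ℝ) ≤ 2) c0.le) h3
        linarith
    · obtain ⟨_, hσ2, _⟩ := h.J_facts he hF
      rw [← hθ] at hσ2
      have hθ2 : 2 * η < θ := by
        by_contra hcon
        push Not at hcon
        nlinarith
      have h1 : |d0.im| ≤ -X1.im + η := by
        rw [abs_le]
        rcases hd0 with h2 | h2
        · constructor <;> linarith
        · constructor <;> linarith
      refine ⟨by linarith, ?_⟩
      have h2 : Real.cos (-X1.im + η) ≤ Real.cos d0.im := by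
        rw [← Real.cos_abs d0.im]
        exact Real.cos_le_cos_of_nonneg_of_le_pi (abs_nonneg _) (by linarith) h1
      have hx : 0 ≤ -X1.im + η := by linarith
      have hx1 : -X1.im + η ≤ Real.pi / 4 + Real.pi / 16 := by linarith
      have h3 : Real.sin (-X1.im + η) ≤ Real.sin φ := by
        rcases le_or_gt φ (Real.pi / 2) with h4 | h4
        · exact Real.sin_le_sin_of_le_of_le_pi_div_two (by linarith) h4 (by linarith)
        · rw [← Real.sin_pi_sub φ]
          apply Real.sin_le_sin_of_le_of_le_pi_div_two (by linarith) (by linarith)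
          linarith
      have h5 : 0 ≤ Real.sin (-X1.im + η) :=
        Real.sin_nonneg_of_nonneg_of_le_pi hx (by linarith)
      have h6 : 0 ≤ Real.cos (-X1.im + η) :=
        Real.cos_nonneg_of_mem_Icc ⟨by linarith, by linarith⟩
      have h7 : Real.sin (2 * κ) ≤ Real.sin (2 * (-X1.im + η)) := by
        rcases le_or_gt (2 * (-X1.im + η)) (Real.pi / 2) with h8 | h8
        · exact Real.sin_le_sin_of_le_of_le_pi_div_two (by linarith) h8 (by linarith)
        · rw [← Real.sin_pi_sub (2 * (-X1.im + η))]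
          apply Real.sin_le_sin_of_le_of_le_pi_div_two (by linarith) (by linarith)
          linarith
      rw [Real.sin_two_mul (-X1.im + η)] at h7
      have h8 : Real.sin (-X1.im + η) * Real.cos (-X1.im + η) ≤
          Real.sin φ * Real.cos d0.im := mul_le_mul h3 h2 h6 (by linarith)
      linarith
  obtain ⟨key1, key2⟩ := key
  -- `|D_{-1}| cos a0 ≤ a`
  have hδ : Real.exp d1.re * Real.cos d0.im ≤ -q1.re := by
    have h1 := h.D0_le
    rw [exp_re] at h1
    have h2 : Real.exp d1.re ≤ Real.exp d0.re := Real.exp_le_exp.2 (h.step_le he)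
    have h3 := mul_le_mul_of_nonneg_right h2 c0.le
    linarith
  have hδ0 := Real.exp_pos d1.re
  have hφ0 : 0 ≤ φ := (abs_nonneg _).trans key1
  have hsφ : 0 ≤ Real.sin φ := Real.sin_nonneg_of_nonneg_of_le_pi hφ0 (by linarith)
  obtain ⟨_, hp2⟩ := quad_polar h.x1
  have hR : 0 < Real.exp X1.re ^ 2 := by positivity
  have hsin2α : 0 ≤ Real.sin (2 * -X1.im) :=
    Real.sin_nonneg_of_nonneg_of_le_pi (by linarith) (by linarith)
  have hav : 2 * (-q1.re) * q1.im = Real.exp X1.re ^ 2 * Real.sin (2 * -X1.im) := by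
    have : Real.sin (2 * -X1.im) = -Real.sin (2 * X1.im) := by
      rw [mul_neg, Real.sin_neg]
    rw [this]
    linarith
  have hmain : Real.exp X1.re ^ 2 * Real.sin (2 * θ) ≤
      Real.exp X1.re ^ 2 * Real.sin (2 * -X1.im) := by
    have h1 : Real.exp d1.re ^ 2 * Real.sin (2 * κ) ≤
        2 * Real.exp d1.re * (-q1.re * Real.sin φ) := by
      calc Real.exp d1.re ^ 2 * Real.sin (2 * κ) ≤
            Real.exp d1.re ^ 2 * (2 * Real.cos d0.im * Real.sin φ) :=
            mul_le_mul_of_nonneg_left key2 (by positivity)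
        _ = 2 * Real.exp d1.re * ((Real.exp d1.re * Real.cos d0.im) * Real.sin φ) := by ring
        _ ≤ _ := mul_le_mul_of_nonneg_left (mul_le_mul_of_nonneg_right hδ hsφ) (by positivity)
    have h2 : Real.exp X1.re ^ 2 * Real.sin (2 * θ) ≤
        2 * Real.exp d1.re * (q1.im * Real.cos φ) := by
      rw [hid]
      linarith
    have h3 : Real.cos φ ≤ Real.cos d0.im := by
      rw [← Real.cos_abs d0.im]
      exact Real.cos_le_cos_of_nonneg_of_le_pi (abs_nonneg _) (by linarith) key1
    have h4 : 2 * Real.exp d1.re * (q1.im * Real.cos φ) ≤ 2 * (-q1.re) * q1.im := by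
      have h5 : q1.im * Real.cos φ ≤ q1.im * Real.cos d0.im :=
        mul_le_mul_of_nonneg_left h3 h.i1.le
      calc 2 * Real.exp d1.re * (q1.im * Real.cos φ) ≤
            2 * Real.exp d1.re * (q1.im * Real.cos d0.im) :=
            mul_le_mul_of_nonneg_left h5 (by positivity)
        _ = 2 * (Real.exp d1.re * Real.cos d0.im) * q1.im := by ring
        _ ≤ _ := mul_le_mul_of_nonneg_right (by linarith) h.i1.le
    linarith
  have hmain2 : Real.sin (2 * θ) ≤ Real.sin (2 * -X1.im) := le_of_mul_le_mul_left hmain hR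
  by_contra hcon
  push Not at hcon
  have h1 : Real.sin (2 * -X1.im) < Real.sin (2 * θ) := by
    rcases le_or_gt (2 * θ) (Real.pi / 2) with h2 | h2
    · exact Real.sin_lt_sin_of_lt_of_le_pi_div_two (by linarith) h2 (by linarith)
    · rw [← Real.sin_pi_sub (2 * θ)]
      apply Real.sin_lt_sin_of_lt_of_le_pi_div_two (by linarith) (by linarith)
      linarith
  linarith

end EQS
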