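import Mathlib
import Pool.Agent.Lib.MP_226de1_co.E.FThree

/-! Assembly of `ExitHalf 8`. `Blk Q`: no exit state with `k ≥ 8` satisfying the Pick inequality has
`Q L σ F`, where `L = log |b_1| = k Re (X2 - X1)`, `σ = k Im (X1 - X2)`, `F = k Im (X1 - d1)`. -/

set_option autoImplicit false

namespace EQS

open Complex

/-- a block of `ExitHalf 8` (contradiction form) -/
def Blk (Q : ℝ → ℝ → ℝ → Prop) : Prop :=
  ∀ (k C : ℝ) (q0 q1 q2 q3 d0 d1 d2 X1 X2 X3 : ℂ), 8 ≤ k →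
    St k C q0 q1 q2 q3 d0 d1 d2 X1 X2 X3 → -(Real.pi / 4) ≤ X1.im →
    |k * (X1 - d0).im| = Real.pi / 2 →
    ‖pv k C X2 d1 - pv k C X3 d2‖ ^ 2 * ((exp d0).re * (exp d0 + exp d1).re) ≤
      ‖exp d1‖ ^ 2 * ((pv k C X2 d1).re * (pv k C X3 d2).re) →
    Q (k * (X2 - X1).re) (k * (X1 - X2).im) (k * (X1 - d1).im) → False

/-- the same in the form of the conclusion of `ExitHalf` -/
def BlkG (Q : ℝ → ℝ → ℝ → Prop) : Prop :=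
  ∀ (k C : ℝ) (q0 q1 q2 q3 d0 d1 d2 X1 X2 X3 : ℂ), 8 ≤ k →
    St k C q0 q1 q2 q3 d0 d1 d2 X1 X2 X3 → -(Real.pi / 4) ≤ X1.im →
    |k * (X1 - d0).im| = Real.pi / 2 →
    Q (k * (X2 - X1).re) (k * (X1 - X2).im) (k * (X1 - d1).im) →
    ‖exp d1‖ ^ 2 * ((pv k C X2 d1).re * (pv k C X3 d2).re) <
      ‖pv k C X2 d1 - pv k C X3 d2‖ ^ 2 * ((exp d0).re * (exp d0 + exp d1).re)

theorem BlkG.blk {Q : ℝ → ℝ → ℝ → Prop} (h : BlkG Q) : Blk Q := by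
  intro k C q0 q1 q2 q3 d0 d1 d2 X1 X2 X3 hk hs hA he hn hQ
  exact absurd hn (not_le.2 (h k C q0 q1 q2 q3 d0 d1 d2 X1 X2 X3 hk hs hA he hQ))

theorem Blk.blkG {Q : ℝ → ℝ → ℝ → Prop} (h : Blk Q) : BlkG Q := by
  intro k C q0 q1 q2 q3 d0 d1 d2 X1 X2 X3 hk hs hA he hQ
  by_contra hcon
  push Not at hcon
  exact h k C q0 q1 q2 q3 d0 d1 d2 X1 X2 X3 hk hs hA he hcon hQ

theorem blk_big : Blk (fun L _ _ => 2.1 ≤ L) := by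
  intro k C q0 q1 q2 q3 d0 d1 d2 X1 X2 X3 hk h hA he hn hQ
  rcases lt_or_ge (k * (X1 - d1).im) (Real.pi / 2) with hF | hF
  · exact h.bigNP hk hA he hn hF hQ
  · exact h.bigJ hk hA he hn hF (by linarith)

theorem blk_big2 : Blk (fun L σ _ => 1.7 ≤ L ∧ Real.pi / 2 ≤ σ) := by
  intro k C q0 q1 q2 q3 d0 d1 d2 X1 X2 X3 hk h hA he hn hQ
  rcases lt_or_ge (k * (X1 - d1).im) (Real.pi / 2) with hF | hF
  · exact h.bigP hk hA he hn hF hQ.1 hQ.2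
  · rcases le_or_gt 2 (k * (X2 - X1).re) with hL | hL
    · exact h.bigJ hk hA he hn hF hL
    · exact h.bigJ2 hk hA he hn (h.f3 hk hA he hQ.2) hF hQ.1 hL.le

/-- the assembly of `ExitHalf 8` from the blocks -/
theorem exitHalf8_of
    (hneg : Blk (fun L _ _ => L < 0))
    (hC2 : Blk (fun L σ _ => 1 ≤ L ∧ L ≤ 2.1 ∧ σ ≤ 1.4))
    (hC3 : Blk (fun L σ _ => 1.7 ≤ L ∧ L ≤ 2.1 ∧ 1.4 ≤ σ ∧ σ ≤ Real.pi / 2))
    (hII : Blk (fun L σ _ => 0 ≤ L ∧ L ≤ 1 ∧ σ ≤ 1.4))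
    (hIII : Blk (fun L σ _ => 0 ≤ L ∧ L ≤ 1.7 ∧ 1.4 ≤ σ)) : ExitHalf 8 := by
  intro k C q0 q1 q2 q3 d0 d1 d2 X1 X2 X3 hk h hA he
  by_contra hcon
  push Not at hcon
  rcases lt_or_ge (k * (X2 - X1).re) 0 with h0 | h0
  · exact hneg k C q0 q1 q2 q3 d0 d1 d2 X1 X2 X3 hk h hA he hcon h0
  rcases le_or_gt 2.1 (k * (X2 - X1).re) with h1 | h1
  · exact blk_big k C q0 q1 q2 q3 d0 d1 d2 X1 X2 X3 hk h hA he hcon h1
  rcases le_or_gt (k * (X1 - X2).im) 1.4 with h2 | h2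
  · rcases le_or_gt 1 (k * (X2 - X1).re) with h3 | h3
    · exact hC2 k C q0 q1 q2 q3 d0 d1 d2 X1 X2 X3 hk h hA he hcon ⟨h3, h1.le, h2⟩
    · exact hII k C q0 q1 q2 q3 d0 d1 d2 X1 X2 X3 hk h hA he hcon ⟨h0, h3.le, h2⟩
  · rcases le_or_gt 1.7 (k * (X2 - X1).re) with h3 | h3
    · rcases le_or_gt (k * (X1 - X2).im) (Real.pi / 2) with h4 | h4
      · exact hC3 k C q0 q1 q2 q3 d0 d1 d2 X1 X2 X3 hk h hA he hcon ⟨h3, h1.le, h2.le, h4⟩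
      · exact blk_big2 k C q0 q1 q2 q3 d0 d1 d2 X1 X2 X3 hk h hA he hcon ⟨h3, h4.le⟩
    · exact hIII k C q0 q1 q2 q3 d0 d1 d2 X1 X2 X3 hk h hA he hcon ⟨h0, h3.le, h2.le⟩

end EQS
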