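import Mathlib
import Pool.Agent.Lib.MP_226de1_co.E.LowerL
import Pool.Agent.Lib.MP_226de1_co.E.Omega
import Pool.Agent.Lib.MP_226de1_co.E.Zone

/-! Real and imaginary parts of the flow identity
`2 sinh Lam2 = e^{-om/k} (1 - e^{-2 Lam} + X (1 + tau))` in real variables, and the bounds of
`|X|`, `|tau|` used in the phase blocks.

Notation: `l = Re (X2 - X1) = L/k`, `th = Im (X1 - X2) = σ/k`, `c1 = Im (X2 - d1) = ψ/k`,
`gm = Im (X3 - d2) - Im (X2 - d1) = γ/k`, `ph = Im d1 - Im d2 = φ/k`,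
`gr = Re (X3 - d2) - Re (X2 - d1) = g/k`. -/

set_option autoImplicit false

namespace EQS

open Complex

variable {k C : ℝ} {q0 q1 q2 q3 d0 d1 d2 X1 X2 X3 : ℂ}

theorem two_sinh_im (z : ℂ) : (2 * sinh z).im = 2 * Real.cosh z.re * Real.sin z.im := by
  have : (2 : ℂ) * sinh z = exp z - exp (-z) := by
    rw [Complex.sinh]
    ring
  rw [this, sub_im, exp_im, exp_im, neg_re, neg_im, Real.sin_neg, Real.cosh_eq]
  ring

/-- the four exponentials of the flow identity -/
theorem flow_expand (X1 X2 X3 d1 d2 : ℂ) :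
    exp ((X2 - d1) - (X3 - d2)) *
      (1 - exp (-(2 * (X2 - X1))) + exp (2 * (d1 - X2)) * (1 + exp (d2 - d1))) =
    exp (-((X3 - d2) - (X2 - d1))) - exp (-((X3 - d2) - (X2 - d1)) - 2 * (X2 - X1)) +
      exp (-((X3 - d2) - (X2 - d1)) + 2 * (d1 - X2)) +
      exp (-((X3 - d2) - (X2 - d1)) + 2 * (d1 - X2) + (d2 - d1)) := by
  have e0 : (X2 - d1) - (X3 - d2) = -((X3 - d2) - (X2 - d1)) := by ring
  rw [e0, sub_eq_add_neg (-((X3 - d2) - (X2 - d1))) (2 * (X2 - X1)), exp_add, exp_add, exp_add,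
    exp_add]
  ring

/-- imaginary part of the flow identity (with the opposite sign) -/
theorem St.flow_im (h : St k C q0 q1 q2 q3 d0 d1 d2 X1 X2 X3) :
    2 * Real.cosh (X3 - X2).re * Real.sin (X2 - X3).im =
      Real.exp (-((X3 - d2).re - (X2 - d1).re)) *
        (Real.sin ((X3 - d2).im - (X2 - d1).im) +
          Real.exp (-(2 * (X2 - X1).re)) *
            Real.sin (2 * (X1 - X2).im - ((X3 - d2).im - (X2 - d1).im)) +
          Real.exp (2 * (d1 - X2).re) *
            (Real.sin (2 * (X2 - d1).im + ((X3 - d2).im - (X2 - d1).im)) +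
              Real.exp (d2 - d1).re *
                Real.sin (2 * (X2 - d1).im + ((X3 - d2).im - (X2 - d1).im) + (d1 - d2).im))) := by
  have h1 := congrArg Complex.im h.flow
  have key : ∀ a b c d : ℂ, (a - b + c + d).im = a.im - b.im + c.im + d.im := by
    intro a b c d
    simp
  rw [two_sinh_im, flow_expand, key, exp_im, exp_im, exp_im, exp_im] at h1
  have r1 : (-((X3 - d2) - (X2 - d1))).re = -((X3 - d2).re - (X2 - d1).re) := by simp
  have i1 : (-((X3 - d2) - (X2 - d1))).im = -((X3 - d2).im - (X2 - d1).im) := by simp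
  have r2 : (-((X3 - d2) - (X2 - d1)) - 2 * (X2 - X1)).re =
      -((X3 - d2).re - (X2 - d1).re) + -(2 * (X2 - X1).re) := by simp; ring
  have i2 : (-((X3 - d2) - (X2 - d1)) - 2 * (X2 - X1)).im =
      2 * (X1 - X2).im - ((X3 - d2).im - (X2 - d1).im) := by simp; ring
  have r3 : (-((X3 - d2) - (X2 - d1)) + 2 * (d1 - X2)).re =
      -((X3 - d2).re - (X2 - d1).re) + 2 * (d1 - X2).re := by simp
  have i3 : (-((X3 - d2) - (X2 - d1)) + 2 * (d1 - X2)).im =
      -(2 * (X2 - d1).im + ((X3 - d2).im - (X2 - d1).im)) := by simp; ring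
  have r4 : (-((X3 - d2) - (X2 - d1)) + 2 * (d1 - X2) + (d2 - d1)).re =
      -((X3 - d2).re - (X2 - d1).re) + 2 * (d1 - X2).re + (d2 - d1).re := by simp
  have i4 : (-((X3 - d2) - (X2 - d1)) + 2 * (d1 - X2) + (d2 - d1)).im =
      -(2 * (X2 - d1).im + ((X3 - d2).im - (X2 - d1).im) + (d1 - d2).im) := by simp; ring
  have i5 : (X3 - X2).im = -(X2 - X3).im := by simp
  rw [r1, i1, r2, i2, r3, i3, r4, i4, i5, Real.sin_neg, Real.sin_neg, Real.sin_neg, Real.sin_neg,
    Real.exp_add, Real.exp_add, Real.exp_add, Real.exp_add] at h1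
  linarith

/-- real part of the flow identity -/
theorem St.flow_real (h : St k C q0 q1 q2 q3 d0 d1 d2 X1 X2 X3) :
    2 * Real.sinh (X3 - X2).re * Real.cos (X2 - X3).im =
      Real.exp (-((X3 - d2).re - (X2 - d1).re)) *
        (Real.cos ((X3 - d2).im - (X2 - d1).im) -
          Real.exp (-(2 * (X2 - X1).re)) *
            Real.cos (2 * (X1 - X2).im - ((X3 - d2).im - (X2 - d1).im)) +
          Real.exp (2 * (d1 - X2).re) *
            (Real.cos (2 * (X2 - d1).im + ((X3 - d2).im - (X2 - d1).im)) +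
              Real.exp (d2 - d1).re *
                Real.cos (2 * (X2 - d1).im + ((X3 - d2).im - (X2 - d1).im) + (d1 - d2).im))) := by
  have h1 := congrArg Complex.re h.flow
  have key : ∀ a b c d : ℂ, (a - b + c + d).re = a.re - b.re + c.re + d.re := by
    intro a b c d
    simp
  rw [two_sinh_re, flow_expand, key, exp_re, exp_re, exp_re, exp_re] at h1
  have r1 : (-((X3 - d2) - (X2 - d1))).re = -((X3 - d2).re - (X2 - d1).re) := by simp
  have i1 : (-((X3 - d2) - (X2 - d1))).im = -((X3 - d2).im - (X2 - d1).im) := by simp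
  have r2 : (-((X3 - d2) - (X2 - d1)) - 2 * (X2 - X1)).re =
      -((X3 - d2).re - (X2 - d1).re) + -(2 * (X2 - X1).re) := by simp; ring
  have i2 : (-((X3 - d2) - (X2 - d1)) - 2 * (X2 - X1)).im =
      2 * (X1 - X2).im - ((X3 - d2).im - (X2 - d1).im) := by simp; ring
  have r3 : (-((X3 - d2) - (X2 - d1)) + 2 * (d1 - X2)).re =
      -((X3 - d2).re - (X2 - d1).re) + 2 * (d1 - X2).re := by simp
  have i3 : (-((X3 - d2) - (X2 - d1)) + 2 * (d1 - X2)).im =
      -(2 * (X2 - d1).im + ((X3 - d2).im - (X2 - d1).im)) := by simp; ring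
  have r4 : (-((X3 - d2) - (X2 - d1)) + 2 * (d1 - X2) + (d2 - d1)).re =
      -((X3 - d2).re - (X2 - d1).re) + 2 * (d1 - X2).re + (d2 - d1).re := by simp
  have i4 : (-((X3 - d2) - (X2 - d1)) + 2 * (d1 - X2) + (d2 - d1)).im =
      -(2 * (X2 - d1).im + ((X3 - d2).im - (X2 - d1).im) + (d1 - d2).im) := by simp; ring
  have i5 : (X3 - X2).im = -(X2 - X3).im := by simp
  rw [r1, i1, r2, i2, r3, i3, r4, i4, i5, Real.cos_neg, Real.cos_neg, Real.cos_neg, Real.cos_neg,
    Real.exp_add, Real.exp_add, Real.exp_add, Real.exp_add] at h1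
  linarith

end EQS
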