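import Mathlib
import Pool.Agent.Lib.MP_226de1_co.E.Step

/-! Lemma (N): one backward step `q' = q - D`; if `A' < A` (`A = - arg xi`) then `arg (xi'/D) < 0`
and either `A - A' < |arg (xi'/D)|` or `|D| ≥ |xi|`. -/

set_option autoImplicit false

namespace EQS

open Complex

variable {q q' X X' d : ℂ}

/-- `R^2 sin 2 th = 2 |D| (v cos β - a sin β) + |D|^2 sin 2 c`, `β = A' - c`, `c = Im (X' - d)` -/
theorem stepN_id (hx : exp (2 * X) = 1 + q ^ 2) (hx' : exp (2 * X') = 1 + q' ^ 2)
    (hq : q = q' + exp d) :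
    Real.exp X.re ^ 2 * Real.sin (2 * (X - X').im) =
      2 * Real.exp d.re * (q.im * Real.cos (-X'.im - (X' - d).im) +
        q.re * Real.sin (-X'.im - (X' - d).im)) +
      Real.exp d.re ^ 2 * Real.sin (2 * (X' - d).im) := by
  have hq' : q' = q - exp d := by rw [hq]; ring
  have key : exp (2 * X) = exp (2 * X') + 2 * (q * exp d) - exp (2 * d) := by
    have e : exp (2 * d) = exp d ^ 2 := by
      rw [← Complex.exp_nat_mul]
      congr 1
    rw [hx, hx', hq', e]
    ring
  have hr : ∀ z : ℂ, (exp z * exp (((-(2 * X'.im) : ℝ) : ℂ) * I)) =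
      ((Real.exp z.re * Real.cos (z.im - 2 * X'.im) : ℝ) : ℂ) +
        ((Real.exp z.re * Real.sin (z.im - 2 * X'.im) : ℝ) : ℂ) * I := by
    intro z
    rw [← exp_add]
    have hw1 : (z + ((-(2 * X'.im) : ℝ) : ℂ) * I).re = z.re := by simp
    have hw2 : (z + ((-(2 * X'.im) : ℝ) : ℂ) * I).im = z.im - 2 * X'.im := by
      simp
      ring
    apply Complex.ext
    · rw [exp_re, hw1, hw2]
      simp only [add_re, ofReal_re, mul_re, ofReal_im, I_re, I_im]
      ring
    · rw [exp_im, hw1, hw2]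
      simp only [add_im, ofReal_re, mul_im, ofReal_im, I_re, I_im]
      ring
  have h1 : (exp (2 * X) * exp (((-(2 * X'.im) : ℝ) : ℂ) * I)).im =
      ((exp (2 * X') + 2 * (q * exp d) - exp (2 * d)) * exp (((-(2 * X'.im) : ℝ) : ℂ) * I)).im := by
    rw [key]
  have e1 : (exp (2 * X') + 2 * (q * exp d) - exp (2 * d)) * exp (((-(2 * X'.im) : ℝ) : ℂ) * I) =
      exp (2 * X') * exp (((-(2 * X'.im) : ℝ) : ℂ) * I) +
        2 * (q * (exp d * exp (((-(2 * X'.im) : ℝ) : ℂ) * I))) -
        exp (2 * d) * exp (((-(2 * X'.im) : ℝ) : ℂ) * I) := by ring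
  rw [e1, hr, hr, hr, hr] at h1
  simp only [add_im, sub_im, mul_im, mul_re, add_re, ofReal_re, ofReal_im, I_re, I_im,
    re_ofNat, im_ofNat] at h1
  have a1 : 2 * X.im - 2 * X'.im = 2 * (X.im - X'.im) := by ring
  have a2 : 2 * X'.im - 2 * X'.im = 0 := by ring
  have a3 : d.im - 2 * X'.im = -X'.im - (X'.im - d.im) := by ring
  have a4 : 2 * d.im - 2 * X'.im = -(2 * (X'.im - d.im)) := by ring
  have b1 : Real.exp (2 * X.re) = Real.exp X.re ^ 2 := by
    rw [← Real.exp_nat_mul]
    norm_num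
  have b2 : Real.exp (2 * d.re) = Real.exp d.re ^ 2 := by
    rw [← Real.exp_nat_mul]
    norm_num
  simp only [zero_mul, sub_zero, add_zero, zero_add, mul_zero, mul_one] at h1
  rw [a1, a2, a3, a4, b1, b2, Real.sin_neg, Real.sin_zero, mul_zero] at h1
  simp only [sub_im]
  linarith

/-- Lemma (N) -/
theorem stepN (hx : exp (2 * X) = 1 + q ^ 2) (hx' : exp (2 * X') = 1 + q' ^ 2)
    (hq : q = q' + exp d) (hi : 0 < q.im) (hr : q.re < 0)
    (ha : -(Real.pi / 2) < X.im) (ha0 : X.im < 0) (hb0 : X'.im < 0)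
    (hc : |(X' - d).im| < Real.pi / 8)
    (hβ : -X'.im - (X' - d).im ≤ Real.pi / 2)
    (hth : (X - X').im < 0) (hA : -X.im ≤ 1) :
    (X' - d).im < 0 ∧ (-(X - X').im < -(X' - d).im ∨ Real.exp X.re ≤ Real.exp d.re) := by
  have hpi := Real.pi_gt_d2
  have hpi' := Real.pi_lt_d2
  have hid := stepN_id hx hx' hq
  obtain ⟨_, hp2⟩ := quad_polar hx
  have hlt := quad_lt hx hi hr.le (abs_lt.2 ⟨ha, by linarith⟩)
  set R := Real.exp X.re with hR
  set D := Real.exp d.re with hD
  set A := -X.im with hAdef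
  set th := (X - X').im with hthdef
  set c := (X' - d).im with hcdef
  set β := -X'.im - c with hβdef
  have hR0 : 0 < R := Real.exp_pos _
  have hD0 : 0 < D := Real.exp_pos _
  have hXim : X.im = -A := by rw [hAdef]; ring
  have hA0 : 0 < A := by rw [hAdef]; linarith
  have hcos : Real.cos X.im = Real.cos A := by rw [hXim, Real.cos_neg]
  rw [hcos] at hlt
  have hp2' : -q.re * q.im = R ^ 2 * (Real.sin A * Real.cos A) := by
    rw [hXim, show 2 * -A = -(2 * A) by ring, Real.sin_neg, Real.sin_two_mul] at hp2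
    linarith
  have hsA : 0 < Real.sin A := Real.sin_pos_of_pos_of_lt_pi hA0 (by linarith)
  have hcA : 0 < Real.cos A := Real.cos_pos_of_mem_Ioo ⟨by linarith, by linarith⟩
  have hv : R * Real.sin A ≤ q.im := by
    by_contra hcon
    push Not at hcon
    have e1 : -q.re * q.im < -q.re * (R * Real.sin A) :=
      mul_lt_mul_of_pos_left hcon (by linarith)
    have e2 : -q.re * (R * Real.sin A) ≤ (R * Real.cos A) * (R * Real.sin A) :=
      mul_le_mul_of_nonneg_right hlt.le (by positivity)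
    have e3 : (R * Real.cos A) * (R * Real.sin A) = R ^ 2 * (Real.sin A * Real.cos A) := by ring
    linarith
  have hc' := abs_lt.1 hc
  have hβth : β = A + th - c := by
    rw [hβdef, hthdef, hAdef, sub_im]
    ring
  have hβlow : -(Real.pi / 8) < β := by
    rw [hβdef]
    linarith
  have hcβ : 0 ≤ Real.cos β := Real.cos_nonneg_of_mem_Icc ⟨by linarith, hβ⟩
  -- the bracket
  have hbr : (0 ≤ c - th → 0 ≤ q.im * Real.cos β + q.re * Real.sin β) := by
    intro hct
    rcases le_or_gt 0 β with h | h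
    · have hsβ : 0 ≤ Real.sin β := Real.sin_nonneg_of_nonneg_of_le_pi h (by linarith)
      have e1 : R * Real.sin A * Real.cos β ≤ q.im * Real.cos β :=
        mul_le_mul_of_nonneg_right hv hcβ
      have e2 : -(R * Real.cos A) * Real.sin β ≤ q.re * Real.sin β :=
        mul_le_mul_of_nonneg_right (by linarith) hsβ
      have e3 : R * Real.sin (A - β) = R * Real.sin A * Real.cos β -
          R * Real.cos A * Real.sin β := by
        rw [Real.sin_sub]
        ring
      have e4 : 0 ≤ Real.sin (A - β) := by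
        apply Real.sin_nonneg_of_nonneg_of_le_pi
        · rw [hβth]
          linarith
        · linarith
      have := mul_nonneg hR0.le e4
      linarith
    · have hsβ : Real.sin β ≤ 0 :=
        Real.sin_nonpos_of_nonpos_of_neg_pi_le h.le (by linarith)
      have e1 : 0 ≤ q.im * Real.cos β := mul_nonneg hi.le hcβ
      have e2 : 0 ≤ q.re * Real.sin β := mul_nonneg_of_nonpos_of_nonpos hr.le hsβ
      linarith
  have hthlow : -A < th := by
    rw [hthdef, hAdef, sub_im]
    linarith
  have hsth : Real.sin (2 * th) < 0 :=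
    Real.sin_neg_of_neg_of_neg_pi_lt (by linarith) (by linarith)
  have hLneg : R ^ 2 * Real.sin (2 * th) < 0 := mul_neg_of_pos_of_neg (by positivity) hsth
  have hcneg : c < 0 := by
    by_contra hcon
    push Not at hcon
    have e1 := hbr (by linarith)
    have e2 : 0 ≤ Real.sin (2 * c) :=
      Real.sin_nonneg_of_nonneg_of_le_pi (by linarith) (by linarith)
    have e3 : 0 ≤ 2 * D * (q.im * Real.cos β + q.re * Real.sin β) := by positivity
    have e4 : 0 ≤ D ^ 2 * Real.sin (2 * c) := by positivity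
    linarith
  refine ⟨hcneg, ?_⟩
  by_contra hcon
  push Not at hcon
  obtain ⟨g1, g2⟩ := hcon
  have e1 := hbr (by linarith)
  have e3 : 0 ≤ 2 * D * (q.im * Real.cos β + q.re * Real.sin β) := by positivity
  have e4 : D ^ 2 * Real.sin (2 * c) ≤ R ^ 2 * Real.sin (2 * th) := by linarith
  -- `sin (2|c|) ≤ sin (2|th|)`
  have e5 : Real.sin (-(2 * c)) ≤ Real.sin (-(2 * th)) := by
    rcases le_or_gt (-(2 * th)) (Real.pi / 2) with h | h
    · exact Real.sin_le_sin_of_le_of_le_pi_div_two (by linarith) h (by linarith)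
    · rw [← Real.sin_pi_sub (-(2 * th))]
      exact Real.sin_le_sin_of_le_of_le_pi_div_two (by linarith) (by linarith) (by linarith)
  rw [Real.sin_neg, Real.sin_neg] at e5
  have e6 : D ^ 2 < R ^ 2 := by
    apply pow_lt_pow_left₀ g2 hD0.le (by norm_num)
  have e7 : 0 < -Real.sin (2 * th) := by linarith
  have e8 : D ^ 2 * (-Real.sin (2 * c)) ≤ D ^ 2 * (-Real.sin (2 * th)) :=
    mul_le_mul_of_nonneg_left e5 (by positivity)
  have e9 : D ^ 2 * (-Real.sin (2 * th)) < R ^ 2 * (-Real.sin (2 * th)) :=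
    mul_lt_mul_of_pos_right e6 e7
  linarith

end EQS
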