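import Mathlib
import Pool.Agent.Lib.MP_226de1_co.E.ExitHalf8
import Pool.Agent.Lib.MP_226de1_co.E.FlowIm
import Pool.Agent.Lib.MP_226de1_co.E.C2Core4
import Pool.Agent.Lib.MP_226de1_co.E.StepN

/-! Preparations for blocks (C2), (C3) of `ExitHalf 8`. -/

set_option autoImplicit false

namespace EQS

open Complex

variable {k C : ℝ} {q0 q1 q2 q3 d0 d1 d2 X1 X2 X3 : ℂ}

theorem c2_sin_pi8 : Real.sin (Real.pi / 8) ≤ 3827 / 10000 := by
  rw [Real.sin_pi_div_eight]
  have h2 : (141421 / 100000 : ℝ) ≤ Real.sqrt 2 := Real.le_sqrt_of_sq_le (by norm_num)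
  have h3 : Real.sqrt (2 - Real.sqrt 2) ≤ 7654 / 10000 := by
    apply Real.sqrt_le_iff.2
    constructor
    · norm_num
    · norm_num
      linarith
  linarith

theorem c2_cos_516 {x : ℝ} (hx : |x| ≤ Real.pi / 4 + Real.pi / 16) : 5555 / 10000 ≤ Real.cos x := by
  have hpi := Real.pi_pos
  have h1 : Real.cos (Real.pi / 4 + Real.pi / 16) ≤ Real.cos x := by
    rw [← Real.cos_abs x]
    apply Real.cos_le_cos_of_nonneg_of_le_pi (abs_nonneg _) (by linarith) hx
  have h2 := Real.cos_sq (Real.pi / 4 + Real.pi / 16)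
  have h3 : Real.cos (2 * (Real.pi / 4 + Real.pi / 16)) = -Real.sin (Real.pi / 8) := by
    rw [show 2 * (Real.pi / 4 + Real.pi / 16) = Real.pi / 8 + Real.pi / 2 by ring,
      Real.cos_add_pi_div_two]
  rw [h3] at h2
  have h4 := c2_sin_pi8
  have h5 : 0 ≤ Real.cos (Real.pi / 4 + Real.pi / 16) :=
    Real.cos_nonneg_of_mem_Icc ⟨by linarith, by linarith⟩
  have h6 : (5555 / 10000 : ℝ) ≤ Real.cos (Real.pi / 4 + Real.pi / 16) := by
    by_contra hcon
    push Not at hcon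
    nlinarith
  linarith

/-- `|Im d1| ≤ 5π/16` when `σ < π` -/
theorem St.d1_abs (h : St k C q0 q1 q2 q3 d0 d1 d2 X1 X2 X3) (hk : 8 ≤ k)
    (hA : -(Real.pi / 4) ≤ X1.im) (he : |k * (X1 - d0).im| = Real.pi / 2)
    (hσ : k * (X1 - X2).im < Real.pi) : |d1.im| ≤ Real.pi / 4 + Real.pi / 16 := by
  have hpi := Real.pi_pos
  have k0 : 0 < k := by linarith
  have hF : k * (X1 - d1).im < Real.pi / 2 := by
    by_contra hcon
    push Not at hcon
    have h1 := h.cosF he
    have h2 := (abs_lt.1 h.p2).2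
    have h3 : k * (X1 - d1).im = k * (X1 - X2).im + k * (X2 - d1).im := by
      simp only [sub_im]
      ring
    have h4 : Real.cos (k * (X1 - d1).im) ≤ 0 :=
      Real.cos_nonpos_of_pi_div_two_le_of_le hcon (by linarith)
    linarith
  have h1 : (X1 - d1).im ≤ Real.pi / 16 := by
    by_contra hcon
    push Not at hcon
    nlinarith
  have h2 := abs_lt.1 (h.c1_abs hk)
  rw [sub_im] at h1 h2
  rw [abs_le]
  constructor
  · linarith
  · linarith [h.a2.2]

/-- Schwarz-Pick distance of an exit state with `σ < π` -/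
theorem St.om_le (h : St k C q0 q1 q2 q3 d0 d1 d2 X1 X2 X3) (hk : 8 ≤ k)
    (hA : -(Real.pi / 4) ≤ X1.im) (he : |k * (X1 - d0).im| = Real.pi / 2)
    (hn : ‖pv k C X2 d1 - pv k C X3 d2‖ ^ 2 * ((exp d0).re * (exp d0 + exp d1).re) ≤
      ‖exp d1‖ ^ 2 * ((pv k C X2 d1).re * (pv k C X3 d2).re))
    (hσ : k * (X1 - X2).im < Real.pi) :
    (k * ((X3 - d2).re - (X2 - d1).re)) ^ 2 + (k * ((X3 - d2).im - (X2 - d1).im)) ^ 2 ≤
      14465 / 10000 := by
  have c0 := c2_cos_516 (h.d0_abs hk hA he)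
  have c1 := c2_cos_516 (h.d1_abs hk hA he hσ)
  have hs : (617 / 1000 : ℝ) ≤ Real.cos d0.im * (Real.cos d0.im + Real.cos d1.im) := by
    nlinarith
  have h1 := h.s_lower he
  have h2 : (617 / 1000 : ℝ) * ‖exp d1‖ ^ 2 ≤ (exp d0).re * (exp d0 + exp d1).re := by
    refine le_trans ?_ h1
    have : 0 ≤ ‖exp d1‖ ^ 2 := by positivity
    nlinarith
  have h3 := h.spl (s := 617 / 1000) (by norm_num) h2 hn
  have h4 := c2_om_sq_le (norm_nonneg _) le_rfl h3
  rw [← Complex.normSq_eq_norm_sq, Complex.normSq_apply] at h4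
  have e1 : ((k : ℂ) * ((X3 - d2) - (X2 - d1))).re = k * ((X3 - d2).re - (X2 - d1).re) := by
    rw [re_ofReal_mul, sub_re]
  have e2 : ((k : ℂ) * ((X3 - d2) - (X2 - d1))).im = k * ((X3 - d2).im - (X2 - d1).im) := by
    rw [im_ofReal_mul, sub_im]
  rw [e1, e2] at h4
  nlinarith

/-- upper bound of `|1/p_{-2} - 1|` -/
theorem St.inv_norm_le (h : St k C q0 q1 q2 q3 d0 d1 d2 X1 X2 X3)
    (he : |k * (X1 - d0).im| = Real.pi / 2) :
    ‖(pv k C X2 d1)⁻¹ - 1‖ ≤ 1 + Real.exp (-(k * (X2 - X1).re)) := by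
  have h1 := h.P_norm he
  have h2 : ‖(pv k C X2 d1)⁻¹‖ ≤ Real.exp (-(k * (X2 - X1).re)) := by
    rw [norm_inv, Real.exp_neg]
    exact inv_anti₀ (Real.exp_pos _) h1
  have h3 := norm_sub_le (pv k C X2 d1)⁻¹ 1
  rw [norm_one] at h3
  linarith

/-- sign of the imaginary part: `sin φ` and `sin (arg p_{-2})` have opposite signs -/
theorem St.sin_sign (h : St k C q0 q1 q2 q3 d0 d1 d2 X1 X2 X3) :
    Real.exp (k * ((X3 - d2).re - (X2 - d1).re - (X3 - X2).re)) *
      Real.sin (k * ((X3 - d2).im - (X2 - d1).im) + k * (X2 - X3).im) =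
      -((Real.exp (k * (X2 - d1).re) / C / Complex.normSq (pv k C X2 d1)) *
        Real.sin (k * (X2 - d1).im)) := by
  have h1 := congrArg Complex.im h.inv_P
  rw [one_div, inv_im, pv_im] at h1
  simp only [add_im, one_im, mul_im, ofReal_re, ofReal_im, exp_ofReal_mul_I_im, zero_mul,
    add_zero, zero_add] at h1
  have e1 : k * ((X3 - d2).im - (X2 - d1).im - (X3 - X2).im) =
      k * ((X3 - d2).im - (X2 - d1).im) + k * (X2 - X3).im := by
    simp only [sub_im]
    ring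
  rw [← e1]
  rw [← h1]
  ring

theorem c2_phase_alg {E σ φ r : ℝ} {z : ℂ} (hz : z = 1 + (r : ℂ) * exp ((φ : ℂ) * I))
    (hc : ‖z - (E / 2 : ℝ) * exp ((σ : ℂ) * I)‖ = E / 2) :
    -(2 * Real.sin φ) ≤ E * (1 - Real.sin (φ - σ)) := by
  have h1 : (exp (((-φ : ℝ) : ℂ) * I) * (z - (E / 2 : ℝ) * exp ((σ : ℂ) * I))).im ≤ E / 2 := by
    have h2 := Complex.abs_im_le_norm (exp (((-φ : ℝ) : ℂ) * I) *
      (z - (E / 2 : ℝ) * exp ((σ : ℂ) * I)))
    rw [norm_mul, Complex.norm_exp_ofReal_mul_I, one_mul, hc] at h2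
    linarith [(abs_le.1 h2).2]
  rw [hz] at h1
  simp only [sub_re, add_re, one_re, mul_re, ofReal_re, ofReal_im, exp_ofReal_mul_I_re,
    exp_ofReal_mul_I_im, sub_im, add_im, one_im, mul_im, Real.cos_neg, Real.sin_neg] at h1
  rw [Real.sin_sub]
  nlinarith

/-- mirrored phase condition at a `W1` exit -/
theorem St.c2_phase' (h : St k C q0 q1 q2 q3 d0 d1 d2 X1 X2 X3)
    (he : |k * (X1 - d0).im| = Real.pi / 2) {φ : ℝ}
    (hφ : φ = k * ((X3 - d2).im - (X2 - d1).im - (X3 - X2).im)) :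
    -(2 * Real.sin φ) ≤ Real.exp (-(k * (X2 - X1).re)) *
      (1 - Real.sin (φ - -(k * (X2 - X1).im))) := by
  rw [hφ]
  exact c2_phase_alg h.inv_P (h.z_circ he)

/-- both phase bounds -/
theorem St.c2_abs_sin (h : St k C q0 q1 q2 q3 d0 d1 d2 X1 X2 X3)
    (he : |k * (X1 - d0).im| = Real.pi / 2) {φ E : ℝ}
    (hE : Real.exp (-(k * (X2 - X1).re)) ≤ E)
    (hφ : φ = k * ((X3 - d2).im - (X2 - d1).im - (X3 - X2).im)) : |Real.sin φ| ≤ E := by
  have h1 := h.phase he hφ
  have h2 := h.c2_phase' he hφ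
  have h3 := Real.sin_le_one (φ - -(k * (X2 - X1).im))
  have h4 := Real.neg_one_le_sin (φ - -(k * (X2 - X1).im))
  have h5 := Real.exp_pos (-(k * (X2 - X1).re))
  set s := Real.sin (φ - -(k * (X2 - X1).im)) with hs
  set E' := Real.exp (-(k * (X2 - X1).re)) with hE'
  have h6 : E' * (1 + s) ≤ E' * 2 := mul_le_mul_of_nonneg_left (by linarith) h5.le
  have h7 : E' * (1 - s) ≤ E' * 2 := mul_le_mul_of_nonneg_left (by linarith) h5.le
  rw [abs_le]
  constructor <;> linarith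

/-- bounds of `k Re (d2 - d1)` -/
theorem c2_rr {y r E a : ℝ} (htau : Real.exp y * r = 1) (hr1 : 1 - E ≤ r) (hr2 : r ≤ 1 + E)
    (hE : E ≤ 368 / 1000) (hEa : Real.exp (-a) ≤ 1 - E) : -(32 / 100) ≤ y ∧ y ≤ a := by
  have hrpos : 0 < r := by linarith
  constructor
  · rw [← Real.exp_le_exp]
    by_contra hcon
    push Not at hcon
    have e1 : 1 < Real.exp (-(32 / 100)) * r := by
      rw [← htau]
      exact mul_lt_mul_of_pos_right hcon hrpos
    have e2 : Real.exp (-(32 / 100)) ≤ 7293 / 10000 := by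
      have a1 := Real.quadratic_le_exp_of_nonneg (x := 32 / 100) (by norm_num)
      have a2 : Real.exp (-(32 / 100)) * Real.exp (32 / 100) = 1 := by
        rw [← Real.exp_add, neg_add_cancel, Real.exp_zero]
      have a3 := Real.exp_pos (-(32 / 100) : ℝ)
      norm_num at a1
      have a4 : Real.exp (-(32 / 100)) * (1 + 32 / 100 + (32 / 100) ^ 2 / 2) ≤ 1 := by
        rw [← a2]
        apply mul_le_mul_of_nonneg_left _ a3.le
        linarith
      linarith
    have e3 : r ≤ 1368 / 1000 := by linarith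
    have e4 : Real.exp (-(32 / 100)) * r ≤ 7293 / 10000 * (1368 / 1000) :=
      mul_le_mul e2 e3 hrpos.le (by norm_num)
    linarith
  · rw [← Real.exp_le_exp]
    by_contra hcon
    push Not at hcon
    have e1 : Real.exp a * r < 1 := by
      rw [← htau]
      exact mul_lt_mul_of_pos_right hcon hrpos
    have e2 : Real.exp a * Real.exp (-a) = 1 := by
      rw [← Real.exp_add, add_neg_cancel, Real.exp_zero]
    have e3 := Real.exp_pos a
    have e4 : Real.exp a * Real.exp (-a) ≤ Real.exp a * r :=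
      mul_le_mul_of_nonneg_left (by linarith) e3.le
    linarith

end EQS
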