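import Mathlib
import Pool.Agent.Lib.MP_226de1_co.E.C2Core4

/-! Real-variable form of the phase block. -/

set_option autoImplicit false

namespace EQS

open Real

theorem c2_low {k l th c1 c2 gr rr th2 XX q a b : ℝ}
    (hk : 8 ≤ k) (h1 : |k * c1| < π / 2) (h2 : |k * c2| < π / 2)
    (hD : (k * gr) ^ 2 + (k * (c2 - c1)) ^ 2 ≤ 14465 / 10000)
    (ha : k * rr ≤ a) (ha' : a ≤ 46 / 100) (ha0 : 0 ≤ a) (hr : -(32 / 100) ≤ k * rr)
    (hX : 0 < XX)
    (hY : exp (-(2 * l)) ≤ 1 - b / k) (hq0 : 0 < q)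
    (hq : q + 905 / 10000 + 2045 / 1000 * a ≤ b)
    (hre : 2 * sinh (gr + rr) * cos th2 = exp (-gr) * (cos (c2 - c1) -
      exp (-(2 * l)) * cos (2 * th - (c2 - c1)) +
      XX * (cos (c1 + c2) + exp rr * cos (th2 + 2 * c2))))
    (hth2 : -1 ≤ th2) (hth2' : th2 < 0) : XX * exp rr ^ 2 < 1 := by
  have k0 : 0 < k := by linarith
  have hpi := Real.pi_lt_d4
  have hpi' := Real.pi_gt_d2
  obtain ⟨hT1, hT2⟩ := c2_T hk (le_trans ha ha') hr
  have hT0 := exp_pos rr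
  have hc1 : |c1| < π / 16 := by
    rw [abs_mul, abs_of_pos k0] at h1
    nlinarith [abs_nonneg c1]
  have hc2 : |c2| < π / 16 := by
    rw [abs_mul, abs_of_pos k0] at h2
    nlinarith [abs_nonneg c2]
  have hc1' := abs_lt.1 hc1
  have hc2' := abs_lt.1 hc2
  have hAabs : |c1 + c2| ≤ π / 8 := by
    rw [abs_le]
    constructor <;> linarith
  set T := exp rr with hT
  set CC := cos (c1 + c2) + T * cos (th2 + 2 * c2) with hCC
  have hCC0 : 7154 / 10000 ≤ CC :=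
    c2_CC0 hAabs (by linarith) (by linarith) hT0.le hT2
  have hcos2 : 0 < cos th2 := Real.cos_pos_of_mem_Ioo ⟨by linarith, by linarith⟩
  obtain ⟨hlam, hgr⟩ := c2_pos hk hD ha ha' hY hq0 hq ha0 hX (by linarith) hcos2 hre
  have hXC := c2_KR hk hgr hD ha ha' hlam hY hq hre
  have hGpos : 0 < k * gr := mul_pos k0 hgr
  have hG1 : k * gr ≤ 12028 / 10000 := by
    have : (k * gr) ^ 2 ≤ (12028 / 10000) ^ 2 := by
      have := sq_nonneg (k * (c2 - c1))
      norm_num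
      linarith
    exact (abs_le_of_sq_le_sq' this (by norm_num)).2
  have e1 : (2535 / 1000 * (k * gr) - q) / k ≤ 3812 / 10000 := by
    rw [div_le_iff₀ k0]
    linarith
  have e2 : XX * (7154 / 10000) ≤ XX * CC := mul_le_mul_of_nonneg_left hCC0 hX.le
  have e3 : XX ≤ 54 / 100 := by linarith
  have e4 : T ^ 2 ≤ (1061 / 1000) ^ 2 := pow_le_pow_left₀ hT0.le hT2 2
  calc XX * T ^ 2 ≤ 54 / 100 * (1061 / 1000) ^ 2 :=
        mul_le_mul e3 e4 (by positivity) (by norm_num)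
    _ < 1 := by norm_num

theorem c2_end_up {φ : ℝ} (h1 : π / 2 ≤ φ) (h2 : φ < 264 / 100) (h3 : |sin φ| ≤ 368 / 1000) :
    False := by
  have hpi' := Real.pi_gt_d4
  have e1 := Real.sin_gt_sub_cube (x := 1 / 2) (by norm_num)
  have e2 : sin (1 / 2) ≤ sin (π - φ) :=
    Real.sin_le_sin_of_le_of_le_pi_div_two (by linarith) (by linarith) (by linarith)
  rw [Real.sin_pi_sub] at e2
  have e3 := (abs_le.1 h3).2
  norm_num at e1
  linarith

theorem c2_end_low {φ : ℝ} (h1 : φ ≤ -(π / 2)) (h2 : -(264 / 100) < φ)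
    (h3 : |sin φ| ≤ 368 / 1000) : False := by
  apply c2_end_up (φ := -φ) (by linarith) (by linarith)
  rw [Real.sin_neg, abs_neg]
  exact h3

/-- the phase block, real form -/
theorem c2_block_real {k l th c1 c2 gr rr th2 XX s0 q a b φ : ℝ}
    (hk : 8 ≤ k) (hl : 0 ≤ l) (hth : k * th ≤ s0) (hth' : -(π / 4) < th)
    (hs : 61 / 100 ≤ s0) (hs' : s0 ≤ 16 / 10)
    (h1 : |k * c1| < π / 2) (h2 : |k * c2| < π / 2)
    (hD : (k * gr) ^ 2 + (k * (c2 - c1)) ^ 2 ≤ 14465 / 10000)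
    (ha : k * rr ≤ a) (ha' : a ≤ 46 / 100) (ha0 : 0 ≤ a) (hr : -(32 / 100) ≤ k * rr)
    (hX : 0 < XX)
    (hY : exp (-(2 * l)) ≤ 1 - b / k) (hq0 : 0 < q)
    (hq : q + 905 / 10000 + 2045 / 1000 * a ≤ b)
    (hre : 2 * sinh (gr + rr) * cos th2 = exp (-gr) * (cos (c2 - c1) -
      exp (-(2 * l)) * cos (2 * th - (c2 - c1)) +
      XX * (cos (c1 + c2) + exp rr * cos (th2 + 2 * c2))))
    (him : 2 * cosh (gr + rr) * sin th2 = exp (-gr) * (sin (c2 - c1) +
      exp (-(2 * l)) * sin (2 * th - (c2 - c1)) +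
      XX * (sin (c1 + c2) + exp rr * sin (th2 + 2 * c2))))
    (hth2 : -1 ≤ th2) (hth2' : th2 < π / 2) (hB : th2 + 2 * c2 < π / 2 + c2)
    (h0 : 2 * s0 + 20321 / 10000 * (30491 / 10000 - q) ≤ 754 / 100)
    (hA : s0 - 44145 / 100000 * q ≤ 10831 / 10000)
    (hA2 : s0 - 2012 / 10000 * q ≤ 12556 / 10000)
    (hφ : φ = k * (c2 - c1) + k * th2) (hcos : cos φ ≤ 0) (hsin : |sin φ| ≤ 368 / 1000)
    (hsg1 : 0 < sin φ → c1 < 0) (hsg2 : sin φ < 0 → 0 < c1)
    (hstep : th2 < 0 → XX * exp rr ^ 2 < 1 → c2 < 0 ∧ -th2 < -c2) : False := by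
  have k0 : 0 < k := by linarith
  have hpi := Real.pi_lt_d4
  have hpi' := Real.pi_gt_d4
  have hΓ : |k * (c2 - c1)| ≤ 12028 / 10000 := by
    apply abs_le_of_sq_le_sq _ (by norm_num)
    have := sq_nonneg (k * gr)
    norm_num
    linarith
  have hΓ' := abs_le.1 hΓ
  rcases le_or_gt (π / 2) φ with hup | hup
  · have hpos : 0 < th2 := by
      by_contra hcon
      push Not at hcon
      have : k * th2 ≤ 0 := mul_nonpos_of_nonneg_of_nonpos k0.le hcon
      linarith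
    obtain ⟨g1, g2⟩ := c2_phi hk hl hth hth' hs hs' h1 h2 hD ha ha' ha0 hr hX hY hq0 hq hre him
      hpos hth2' hB h0 hA hA2
    rw [← hφ] at g1 g2
    have g3 : 0 < sin φ := Real.sin_pos_of_pos_of_lt_pi (by linarith) (by linarith)
    exact c2_end_up hup (g2 (hsg1 g3)) hsin
  rcases lt_or_ge (-(π / 2)) φ with hlo | hlo
  · have := Real.cos_pos_of_mem_Ioo ⟨hlo, hup⟩
    linarith
  have hneg : th2 < 0 := by
    by_contra hcon
    push Not at hcon
    have : 0 ≤ k * th2 := mul_nonneg k0.le hcon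
    linarith
  have hlt := c2_low hk h1 h2 hD ha ha' ha0 hr hX hY hq0 hq hre hth2 hneg
  obtain ⟨g1, g2⟩ := hstep hneg hlt
  have g3 : k * c2 < k * th2 := mul_lt_mul_of_pos_left (by linarith) k0
  have g4 := (abs_lt.1 h2).1
  have g5 : sin φ < 0 := Real.sin_neg_of_neg_of_neg_pi_lt (by linarith) (by linarith)
  have g6 := hsg2 g5
  have g7 : 0 < k * c1 := mul_pos k0 g6
  have g8 : k * (c2 - c1) = k * c2 - k * c1 := by ring
  exact c2_end_low hlo (by linarith) hsin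

end EQS
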