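import Mathlib
import Pool.Agent.Lib.MP_226de1_co.E.ExitHalf8
import Pool.Agent.Lib.MP_226de1_co.E.FlowIm
import Pool.Agent.Lib.MP_226de1_co.E.CTwoA
import Pool.Agent.Lib.MP_226de1_co.E.CTwoB
import Pool.Agent.Lib.MP_226de1_co.E.StepN

/-! Blocks (C2), (C3) of `ExitHalf 8`: `L ≥ 1, σ ≤ 1.4` and `L ≥ 1.7, σ ≤ π/2`, by the phase. -/

set_option autoImplicit false

namespace EQS

open Complex

variable {k C : ℝ} {q0 q1 q2 q3 d0 d1 d2 X1 X2 X3 : ℂ}

/-- the geometric side conditions of the phase block -/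
theorem St.c2_geo (h : St k C q0 q1 q2 q3 d0 d1 d2 X1 X2 X3) (hA : -(Real.pi / 4) ≤ X1.im)
    (hth : (X1 - X2).im ≤ 2 / 10) :
    -X2.im ≤ 1 ∧ -1 ≤ (X2 - X3).im ∧ (X2 - X3).im < Real.pi / 2 ∧
      (X2 - X3).im + 2 * (X3 - d2).im < Real.pi / 2 + (X3 - d2).im := by
  have hpi := Real.pi_lt_d4
  have h2 := h.a2
  have h3 := h.a3
  simp only [sub_im] at *
  refine ⟨by linarith, by linarith, by linarith, ?_⟩
  have hd2 : -(Real.pi / 2) < d2.im := by
    by_contra hcon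
    push Not at hcon
    have hcos := cos_pos_of_re h.D2
    -- `cos (-d2.im) ≤ 0` since `π/2 ≤ -d2.im ≤ 3π/2`
    have e3 := h.p3
    have e4 : 2 * |(X3 - d2).im| < Real.pi / 2 := by
      rw [abs_mul, abs_of_pos h.k0] at e3
      have := h.hk
      have e5 : 2 * |(X3 - d2).im| ≤ k * |(X3 - d2).im| :=
        mul_le_mul_of_nonneg_right this.le (abs_nonneg _)
      linarith
    rw [sub_im] at e4
    have e6 := (abs_lt.1 (show |X3.im - d2.im| < Real.pi / 4 by linarith)).2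
    have e2 : Real.cos (-d2.im) ≤ 0 := by
      apply Real.cos_nonpos_of_pi_div_two_le_of_le (by linarith)
      linarith
    rw [Real.cos_neg] at e2
    linarith
  linarith

/-- the step estimate of the phase block -/
theorem St.c2_step (h : St k C q0 q1 q2 q3 d0 d1 d2 X1 X2 X3) (hk : 8 ≤ k)
    (hX2 : -X2.im ≤ 1) (hth : (X2 - X3).im < 0)
    (hlt : Real.exp (2 * (d1 - X2).re) * Real.exp (d2 - d1).re ^ 2 < 1) :
    (X3 - d2).im < 0 ∧ -(X2 - X3).im < -(X3 - d2).im := by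
  have hpi := Real.pi_gt_d4
  have hpi' := Real.pi_lt_d4
  have hc : |(X3 - d2).im| < Real.pi / 16 := by
    have e3 := h.p3
    rw [abs_mul, abs_of_pos h.k0] at e3
    have e5 : 8 * |(X3 - d2).im| ≤ k * |(X3 - d2).im| :=
      mul_le_mul_of_nonneg_right hk (abs_nonneg _)
    linarith
  have hc' := abs_lt.1 hc
  have hth3 : -X3.im - (X3 - d2).im ≤ Real.pi / 2 := by
    have : (X2 - X3).im = X2.im - X3.im := sub_im _ _
    linarith
  have h1 := stepN h.x2 h.x3 h.s2 h.i2 (by linarith [h.r12, h.q1neg]) h.a2.1 h.a2.2 h.a3.2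
    (by linarith) hth3 hth hX2
  refine ⟨h1.1, h1.2.resolve_right ?_⟩
  intro hcon
  rw [Real.exp_le_exp] at hcon
  have e1 : Real.exp (2 * (d1 - X2).re) * Real.exp (d2 - d1).re ^ 2 =
      Real.exp (2 * (d2.re - X2.re)) := by
    rw [← Real.exp_nat_mul, ← Real.exp_add]
    congr 1
    simp only [sub_re]
    push_cast
    ring
  rw [e1] at hlt
  have e2 : 1 ≤ Real.exp (2 * (d2.re - X2.re)) := Real.one_le_exp (by linarith)
  linarith

/-- the general phase block -/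
theorem St.phase_block (h : St k C q0 q1 q2 q3 d0 d1 d2 X1 X2 X3) (hk : 8 ≤ k)
    (hA : -(Real.pi / 4) ≤ X1.im) (he : |k * (X1 - d0).im| = Real.pi / 2)
    (hn : ‖pv k C X2 d1 - pv k C X3 d2‖ ^ 2 * ((exp d0).re * (exp d0 + exp d1).re) ≤
      ‖exp d1‖ ^ 2 * ((pv k C X2 d1).re * (pv k C X3 d2).re))
    {s0 q a b : ℝ} (hs : 61 / 100 ≤ s0) (hs' : s0 ≤ 16 / 10)
    (hσ : k * (X1 - X2).im ≤ s0) (hl : 0 ≤ (X2 - X1).re)
    (hE : Real.exp (-(k * (X2 - X1).re)) ≤ 368 / 1000)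
    (hEa : Real.exp (-a) ≤ 1 - Real.exp (-(k * (X2 - X1).re)))
    (ha' : a ≤ 46 / 100) (ha0 : 0 ≤ a) (hq0 : 0 < q)
    (hY : Real.exp (-(2 * (X2 - X1).re)) ≤ 1 - b / k)
    (hq : q + 905 / 10000 + 2045 / 1000 * a ≤ b)
    (h0 : 2 * s0 + 20321 / 10000 * (30491 / 10000 - q) ≤ 754 / 100)
    (hA1 : s0 - 44145 / 100000 * q ≤ 10831 / 10000)
    (hA2 : s0 - 2012 / 10000 * q ≤ 12556 / 10000) : False := by
  have k0 : 0 < k := by linarith
  have hpi := Real.pi_lt_d4
  have hpi' := Real.pi_gt_d2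
  have hσπ : k * (X1 - X2).im < Real.pi := by linarith
  have hD := h.om_le hk hA he hn hσπ
  obtain ⟨hr, ha⟩ := c2_rr h.tau_norm (h.inv_norm he) (h.inv_norm_le he) hE hEa
  have hthle : (X1 - X2).im ≤ 2 / 10 := by
    by_contra hcon
    push Not at hcon
    have : 8 * (2 / 10) < k * (X1 - X2).im :=
      mul_lt_mul' hk hcon (by norm_num) k0
    linarith
  obtain ⟨g1, g2, g3, g4⟩ := h.c2_geo hA hthle
  have hlam : (X3 - X2).re = ((X3 - d2).re - (X2 - d1).re) + (d2 - d1).re := by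
    simp only [sub_re]
    ring
  have hre := h.flow_real
  have him := h.flow_im
  rw [hlam] at hre him
  have ea : 2 * (X2 - d1).im + ((X3 - d2).im - (X2 - d1).im) = (X2 - d1).im + (X3 - d2).im := by
    ring
  have eb : (X2 - d1).im + (X3 - d2).im + (d1 - d2).im = (X2 - X3).im + 2 * (X3 - d2).im := by
    simp only [sub_im]
    ring
  have hth' : -(Real.pi / 4) < (X1 - X2).im := by
    rw [sub_im]
    linarith [h.a2.2]
  have hφeq : k * ((X3 - d2).im - (X2 - d1).im) + k * (X2 - X3).im =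
      k * ((X3 - d2).im - (X2 - d1).im - (X3 - X2).im) := by
    simp only [sub_im]
    ring
  have hsg := h.sin_sign
  have hP : 0 < Real.exp (k * (X2 - d1).re) / C / Complex.normSq (pv k C X2 d1) := by
    have := h.C0
    have := Complex.normSq_pos.2 (pv_ne (k := k) (X := X2) (d := d1) h.C0)
    positivity
  have hR : 0 < Real.exp (k * ((X3 - d2).re - (X2 - d1).re - (X3 - X2).re)) := Real.exp_pos _
  have hc1 := abs_lt.1 h.p2
  apply c2_block_real (k := k) (l := (X2 - X1).re) (th := (X1 - X2).im) (c1 := (X2 - d1).im)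
    (c2 := (X3 - d2).im) (gr := (X3 - d2).re - (X2 - d1).re) (rr := (d2 - d1).re)
    (th2 := (X2 - X3).im) (XX := Real.exp (2 * (d1 - X2).re)) (s0 := s0) (q := q) (a := a)
    (b := b) (φ := k * ((X3 - d2).im - (X2 - d1).im) + k * (X2 - X3).im)
    hk hl hσ hth' hs hs' h.p2 h.p3 hD ha ha' ha0 hr (Real.exp_pos _) hY hq0 hq
    (by rw [← eb, ← ea]; exact hre) (by rw [← eb, ← ea]; exact him) g2 g3 g4 h0 hA1 hA2 rfl
    (h.cos_phase he hl hφeq) (h.c2_abs_sin he hE hφeq)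
  · intro hpos
    have e1 := mul_pos hR hpos
    rw [hsg] at e1
    by_contra hcon
    push Not at hcon
    have e2 : 0 ≤ k * (X2 - d1).im := mul_nonneg k0.le hcon
    have e3 : 0 ≤ Real.sin (k * (X2 - d1).im) :=
      Real.sin_nonneg_of_nonneg_of_le_pi e2 (by linarith)
    have e4 := mul_nonneg hP.le e3
    linarith
  · intro hneg
    have e1 := mul_neg_of_pos_of_neg hR hneg
    rw [hsg] at e1
    by_contra hcon
    push Not at hcon
    have e2 : k * (X2 - d1).im ≤ 0 := mul_nonpos_of_nonneg_of_nonpos k0.le hcon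
    have e3 : Real.sin (k * (X2 - d1).im) ≤ 0 :=
      Real.sin_nonpos_of_nonpos_of_neg_pi_le e2 (by linarith)
    have e4 := mul_nonpos_of_nonneg_of_nonpos hP.le e3
    linarith
  · intro hneg hlt
    exact h.c2_step hk g1 hneg hlt

end EQS
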