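import Mathlib
import Pool.Agent.Lib.MP_226de1_co.E.CTwo

/-! Blocks (C2), (C3) of `ExitHalf 8`. -/

set_option autoImplicit false

namespace EQS

open Complex

theorem c2_hY {k l m b : ℝ} (hk : 8 ≤ k) (hm : 0 ≤ m) (hl : m ≤ k * l)
    (hb : b ≤ 2 * m - m ^ 2 / 4) : Real.exp (-(2 * l)) ≤ 1 - b / k := by
  have k0 : 0 < k := by linarith
  have h1 : m / k ≤ l := by
    rw [div_le_iff₀ k0]
    linarith
  have h2 : Real.exp (-(2 * l)) ≤ Real.exp (-(2 * (m / k))) := Real.exp_le_exp.2 (by linarith)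
  have h3 := c2_exp_neg_le_quad (x := 2 * (m / k)) (by positivity)
  have h4 : (2 * (m / k)) ^ 2 / 2 ≤ (m ^ 2 / 4) / k := by
    rw [show (2 * (m / k)) ^ 2 / 2 = (2 * m ^ 2 / k) / k by field_simp]
    apply div_le_div_of_nonneg_right _ k0.le
    rw [div_le_iff₀ k0]
    have : m ^ 2 / 4 * 8 ≤ m ^ 2 / 4 * k := mul_le_mul_of_nonneg_left hk (by positivity)
    linarith
  have h5 : b / k ≤ (2 * m - m ^ 2 / 4) / k := div_le_div_of_nonneg_right hb k0.le
  have h6 : (2 * m - m ^ 2 / 4) / k = 2 * (m / k) - (m ^ 2 / 4) / k := by ring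
  linarith

theorem c2_hEa {a s E : ℝ} (h : 1 ≤ s * (1 - E)) (hE : E < 1) (hs : s ≤ Real.exp a) :
    Real.exp (-a) ≤ 1 - E := by
  have h1 := Real.exp_pos (-a)
  have h2 : Real.exp (-a) * Real.exp a = 1 := by
    rw [← Real.exp_add, neg_add_cancel, Real.exp_zero]
  have h3 : Real.exp (-a) * (s * (1 - E)) ≤ Real.exp (-a) * (Real.exp a * (1 - E)) := by
    apply mul_le_mul_of_nonneg_left _ h1.le
    exact mul_le_mul_of_nonneg_right hs (by linarith)
  have h4 : Real.exp (-a) * (Real.exp a * (1 - E)) = 1 - E := by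
    rw [← mul_assoc, h2, one_mul]
  have h5 : Real.exp (-a) * 1 ≤ Real.exp (-a) * (s * (1 - E)) :=
    mul_le_mul_of_nonneg_left h h1.le
  linarith

theorem c2_exp_taylor {x : ℝ} (hx : 0 ≤ x) :
    1 + x + x ^ 2 / 2 + x ^ 3 / 6 + x ^ 4 / 24 ≤ Real.exp x := by
  have h := Real.sum_le_exp_of_nonneg hx 5
  simp only [Finset.sum_range_succ, Finset.sum_range_zero, Nat.factorial] at h
  norm_num at h
  linarith

/-- block (C2) without the upper bound of `L` -/
theorem blk_C2' : Blk (fun L σ _ => 1 ≤ L ∧ σ ≤ 1.4) := by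
  intro k C q0 q1 q2 q3 d0 d1 d2 X1 X2 X3 hk h hA he hn ⟨hL, hσ⟩
  have k0 : 0 < k := by linarith
  have hl : 0 ≤ (X2 - X1).re := by
    by_contra hcon
    push Not at hcon
    have : k * (X2 - X1).re < 0 := mul_neg_of_pos_of_neg k0 hcon
    linarith
  have hE0 : Real.exp (-(k * (X2 - X1).re)) ≤ Real.exp (-1) := Real.exp_le_exp.2 (by linarith)
  have hE1 := Real.exp_neg_one_lt_d9
  have hE2 : Real.exp (-(k * (X2 - X1).re)) ≤ 36788 / 100000 := by
    refine le_trans hE0 (le_trans hE1.le ?_)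
    norm_num
  have ht := c2_exp_taylor (x := 46 / 100) (by norm_num)
  refine h.phase_block hk hA he hn (s0 := 14 / 10) (q := 718 / 1000) (a := 46 / 100)
    (b := 175 / 100) (by norm_num) (by norm_num) (le_trans hσ (by norm_num)) hl
    (by linarith) ?_ (by norm_num) (by norm_num) (by norm_num)
    (c2_hY hk (m := 1) (by norm_num) hL (by norm_num)) (by norm_num) (by norm_num) (by norm_num)
    (by norm_num)
  have h1 : Real.exp (-(46 / 100)) ≤ 1 - (36788 / 100000 : ℝ) := by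
    apply c2_hEa (s := 1583 / 1000) (by norm_num) (by norm_num)
    norm_num at ht ⊢
    linarith
  linarith

/-- block (C3) without the bounds `L ≤ 2.1` and `1.4 ≤ σ` -/
theorem blk_C3' : Blk (fun L σ _ => 1.7 ≤ L ∧ σ ≤ Real.pi / 2) := by
  intro k C q0 q1 q2 q3 d0 d1 d2 X1 X2 X3 hk h hA he hn ⟨hL, hσ⟩
  have k0 : 0 < k := by linarith
  have hpi := Real.pi_lt_d4
  have hl : 0 ≤ (X2 - X1).re := by
    by_contra hcon
    push Not at hcon
    have h1 : k * (X2 - X1).re < 0 := mul_neg_of_pos_of_neg k0 hcon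
    have h2 := lt_of_le_of_lt hL h1
    norm_num at h2
  have hE0 : Real.exp (-(k * (X2 - X1).re)) ≤ Real.exp (-1.7) := Real.exp_le_exp.2 (by linarith)
  have hE1 := exp_neg_17_le
  have hE2 : Real.exp (-(k * (X2 - X1).re)) ≤ 18271 / 100000 := by
    refine le_trans hE0 (le_trans hE1 ?_)
    norm_num
  have ht := c2_exp_taylor (x := 205 / 1000) (by norm_num)
  refine h.phase_block hk hA he hn (s0 := 1571 / 1000) (q := 21 / 10) (a := 205 / 1000)
    (b := 26775 / 10000) (by norm_num) (by norm_num) (by linarith) hl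
    (by linarith) ?_ (by norm_num) (by norm_num) (by norm_num)
    (c2_hY hk (m := 17 / 10) (by norm_num) (le_trans (by norm_num) hL) (by norm_num))
    (by norm_num) (by norm_num) (by norm_num) (by norm_num)
  have h1 : Real.exp (-(205 / 1000)) ≤ 1 - (18271 / 100000 : ℝ) := by
    apply c2_hEa (s := 1225 / 1000) (by norm_num) (by norm_num)
    norm_num at ht ⊢
    linarith
  linarith

theorem blk_C2 : Blk (fun L σ _ => 1 ≤ L ∧ L ≤ 2.1 ∧ σ ≤ 1.4) := by
  intro k C q0 q1 q2 q3 d0 d1 d2 X1 X2 X3 hk h hA he hn hQ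
  exact blk_C2' k C q0 q1 q2 q3 d0 d1 d2 X1 X2 X3 hk h hA he hn ⟨hQ.1, hQ.2.2⟩

theorem blk_C3 : Blk (fun L σ _ => 1.7 ≤ L ∧ L ≤ 2.1 ∧ 1.4 ≤ σ ∧ σ ≤ Real.pi / 2) := by
  intro k C q0 q1 q2 q3 d0 d1 d2 X1 X2 X3 hk h hA he hn hQ
  exact blk_C3' k C q0 q1 q2 q3 d0 d1 d2 X1 X2 X3 hk h hA he hn ⟨hQ.1, hQ.2.2.2⟩

end EQS
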