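import Mathlib

/-! Unit disc exit, case `F_1 < 0`: `P_3 + kap ≥ π/2` if `cos 2A ≤ 1/4` and `r t ≤ 1`
(step (4) of dnote 1946, with the bound of `u` corrected as in dnote 1965). -/

set_option autoImplicit false

namespace EQN

open Real

/-- one-variable inequality, `t ≤ 3/2` -/
theorem pol1 {e : ℝ} (h0 : 0 ≤ e) (h1 : e ≤ 1 / 2) :
    192 * e * (1 + e) ^ 8 ≤ (2 + e) ^ 3 * (((2 + e) * (1 + e)) ^ 2 - 1) ^ 2 := by
  have key : ∀ x y : ℝ, 0 ≤ x → 0 ≤ y → 0 ≤
      147456 * x ^ 0 * y ^ 11 +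
      2125824 * x ^ 1 * y ^ 10 +
      13741056 * x ^ 2 * y ^ 9 +
      52468992 * x ^ 3 * y ^ 8 +
      131176960 * x ^ 4 * y ^ 7 +
      224682112 * x ^ 5 * y ^ 6 +
      267663296 * x ^ 6 * y ^ 5 +
      220009264 * x ^ 7 * y ^ 4 +
      120629568 * x ^ 8 * y ^ 3 +
      40944616 * x ^ 9 * y ^ 2 +
      7293748 * x ^ 10 * y ^ 1 +
      421277 * x ^ 11 * y ^ 0 := by
    intro x y hx hy
    positivity
  have h := key e (1 / 2 - e) h0 (by linarith)
  have id : (2 + e) ^ 3 * (((2 + e) * (1 + e)) ^ 2 - 1) ^ 2 - 192 * e * (1 + e) ^ 8 =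
      147456 * e ^ 0 * (1 / 2 - e) ^ 11 +
      2125824 * e ^ 1 * (1 / 2 - e) ^ 10 +
      13741056 * e ^ 2 * (1 / 2 - e) ^ 9 +
      52468992 * e ^ 3 * (1 / 2 - e) ^ 8 +
      131176960 * e ^ 4 * (1 / 2 - e) ^ 7 +
      224682112 * e ^ 5 * (1 / 2 - e) ^ 6 +
      267663296 * e ^ 6 * (1 / 2 - e) ^ 5 +
      220009264 * e ^ 7 * (1 / 2 - e) ^ 4 +
      120629568 * e ^ 8 * (1 / 2 - e) ^ 3 +
      40944616 * e ^ 9 * (1 / 2 - e) ^ 2 +
      7293748 * e ^ 10 * (1 / 2 - e) ^ 1 +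
      421277 * e ^ 11 * (1 / 2 - e) ^ 0 := by
    ring
  rw [← id] at h
  linarith

/-- one-variable inequality, `t ≥ 3/2` -/
theorem pol2 {e : ℝ} (h0 : 1 / 2 ≤ e) (h1 : e ≤ 62 / 100) :
    (27 * (248 / 100) ^ 2) * e * (1 + e) ^ 8 ≤
      (2 + e) ^ 3 * (((2 + e) * (1 + e)) ^ 2 - 1) ^ 2 := by
  have key : ∀ x y : ℝ, 0 ≤ x → 0 ≤ y → 0 ≤
      2627433216094970703125 / 362797056 * x ^ 0 * y ^ 11 +
      28808139166412353515625 / 362797056 * x ^ 1 * y ^ 10 +
      142901105641473388671875 / 362797056 * x ^ 2 * y ^ 9 +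
      141009788303233642578125 / 120932352 * x ^ 3 * y ^ 8 +
      138279555434995888671875 / 60466176 * x ^ 4 * y ^ 7 +
      188462124496982824609375 / 60466176 * x ^ 5 * y ^ 6 +
      181882382541558292140625 / 60466176 * x ^ 6 * y ^ 5 +
      124069067997196812258125 / 60466176 * x ^ 7 * y ^ 4 +
      116954919332702702271875 / 120932352 * x ^ 8 * y ^ 3 +
      108443708689956347288333 / 362797056 * x ^ 9 * y ^ 2 +
      19679047484614294831591 / 362797056 * x ^ 10 * y ^ 1 +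
      1575604468468758950939 / 362797056 * x ^ 11 * y ^ 0 := by
    intro x y hx hy
    positivity
  have h := key (e - 1 / 2) (62 / 100 - e) (by linarith) (by linarith)
  have id : (2 + e) ^ 3 * (((2 + e) * (1 + e)) ^ 2 - 1) ^ 2 -
      (27 * (248 / 100) ^ 2) * e * (1 + e) ^ 8 =
      2627433216094970703125 / 362797056 * (e - 1 / 2) ^ 0 * (62 / 100 - e) ^ 11 +
      28808139166412353515625 / 362797056 * (e - 1 / 2) ^ 1 * (62 / 100 - e) ^ 10 +
      142901105641473388671875 / 362797056 * (e - 1 / 2) ^ 2 * (62 / 100 - e) ^ 9 +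
      141009788303233642578125 / 120932352 * (e - 1 / 2) ^ 3 * (62 / 100 - e) ^ 8 +
      138279555434995888671875 / 60466176 * (e - 1 / 2) ^ 4 * (62 / 100 - e) ^ 7 +
      188462124496982824609375 / 60466176 * (e - 1 / 2) ^ 5 * (62 / 100 - e) ^ 6 +
      181882382541558292140625 / 60466176 * (e - 1 / 2) ^ 6 * (62 / 100 - e) ^ 5 +
      124069067997196812258125 / 60466176 * (e - 1 / 2) ^ 7 * (62 / 100 - e) ^ 4 +
      116954919332702702271875 / 120932352 * (e - 1 / 2) ^ 8 * (62 / 100 - e) ^ 3 +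
      108443708689956347288333 / 362797056 * (e - 1 / 2) ^ 9 * (62 / 100 - e) ^ 2 +
      19679047484614294831591 / 362797056 * (e - 1 / 2) ^ 10 * (62 / 100 - e) ^ 1 +
      1575604468468758950939 / 362797056 * (e - 1 / 2) ^ 11 * (62 / 100 - e) ^ 0 := by
    ring
  rw [← id] at h
  linarith

theorem amgm4 {R X : ℝ} (hR : 0 ≤ R) (hX : 0 ≤ X) : 256 * R * X ^ 3 ≤ 27 * (R + X) ^ 4 := by
  have h : 27 * (R + X) ^ 4 - 256 * R * X ^ 3 =
      (X - 3 * R) ^ 2 * (27 * X ^ 2 + 14 * X * R + 3 * R ^ 2) := by ring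
  have h2 : 0 ≤ (X - 3 * R) ^ 2 * (27 * X ^ 2 + 14 * X * R + 3 * R ^ 2) := by positivity
  linarith

theorem alg4 {r t F : ℝ} (hr : 0 < r) (ht : 1 ≤ t) (hrt : r * t ≤ 1)
    (hp : 27 * F ^ 2 * (t - 1) * t ^ 8 ≤ (1 + t) ^ 3 * (((1 + t) * t) ^ 2 - 1) ^ 2) :
    16 * F * (t - 1) ^ 2 * r * t ^ 2 ≤ (r ^ 2 + t ^ 2 - 1) ^ 2 * ((1 + t) ^ 2 - r ^ 2) := by
  have t0 : 0 < t := by linarith
  have hr1 : r ≤ 1 := by nlinarith
  have hX : 0 ≤ t ^ 2 - 1 := by nlinarith
  have h1 := amgm4 (sq_nonneg r) hX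
  have hrt2 : (r * t) ^ 2 ≤ 1 := by
    have : 0 ≤ r * t := by positivity
    nlinarith
  have hW0 : 0 ≤ (1 + t) ^ 2 - r ^ 2 := by nlinarith
  have hW : ((1 + t) * t) ^ 2 - 1 ≤ ((1 + t) ^ 2 - r ^ 2) * t ^ 2 := by nlinarith
  have hW1 : 0 ≤ ((1 + t) * t) ^ 2 - 1 := by
    have : 1 ≤ (1 + t) * t := by nlinarith
    nlinarith
  have hW2 : (((1 + t) * t) ^ 2 - 1) ^ 2 ≤ (((1 + t) ^ 2 - r ^ 2) * t ^ 2) ^ 2 :=
    pow_le_pow_left₀ hW1 hW 2
  apply le_of_sq_le_sq _ (by positivity)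
  -- multiply by `27 t^4`
  have e1 : 256 * r ^ 2 * (t ^ 2 - 1) ^ 3 * (((1 + t) * t) ^ 2 - 1) ^ 2 ≤
      27 * (r ^ 2 + (t ^ 2 - 1)) ^ 4 * (((1 + t) ^ 2 - r ^ 2) * t ^ 2) ^ 2 :=
    mul_le_mul h1 hW2 (by positivity) (by positivity)
  have e2 : 256 * r ^ 2 * (t - 1) ^ 3 * (27 * F ^ 2 * (t - 1) * t ^ 8) ≤
      256 * r ^ 2 * (t - 1) ^ 3 * ((1 + t) ^ 3 * (((1 + t) * t) ^ 2 - 1) ^ 2) := by
    apply mul_le_mul_of_nonneg_left hp
    have : 0 ≤ t - 1 := by linarith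
    positivity
  have e3 : 27 * t ^ 4 * (16 * F * (t - 1) ^ 2 * r * t ^ 2) ^ 2 ≤
      27 * t ^ 4 * ((r ^ 2 + t ^ 2 - 1) ^ 2 * ((1 + t) ^ 2 - r ^ 2)) ^ 2 := by
    calc _ = 256 * r ^ 2 * (t - 1) ^ 3 * (27 * F ^ 2 * (t - 1) * t ^ 8) := by ring
      _ ≤ _ := e2
      _ = 256 * r ^ 2 * (t ^ 2 - 1) ^ 3 * (((1 + t) * t) ^ 2 - 1) ^ 2 := by ring
      _ ≤ _ := e1
      _ = _ := by ring
  exact le_of_mul_le_mul_left e3 (by positivity)

theorem alg4a {r t : ℝ} (hr : 0 < r) (ht : 1 ≤ t) (hrt : r * t ≤ 1) (ht2 : t ≤ 3 / 2) :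
    16 * (8 / 3) * (t - 1) ^ 2 * r * t ^ 2 ≤
      (r ^ 2 + t ^ 2 - 1) ^ 2 * ((1 + t) ^ 2 - r ^ 2) := by
  apply alg4 hr ht hrt
  have h := pol1 (e := t - 1) (by linarith) (by linarith)
  have e1 : 2 + (t - 1) = 1 + t := by ring
  have e2 : 1 + (t - 1) = t := by ring
  rw [e1, e2] at h
  linarith

theorem alg4b {r t : ℝ} (hr : 0 < r) (ht : 3 / 2 ≤ t) (hrt : r * t ≤ 1) (htr : t - 1 ≤ r) :
    16 * (248 / 100) * (t - 1) ^ 2 * r * t ^ 2 ≤
      (r ^ 2 + t ^ 2 - 1) ^ 2 * ((1 + t) ^ 2 - r ^ 2) := by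
  apply alg4 hr (by linarith) hrt
  have h1 : t ≤ 162 / 100 := by nlinarith
  have h := pol2 (e := t - 1) (by linarith) (by linarith)
  have e1 : 2 + (t - 1) = 1 + t := by ring
  have e2 : 1 + (t - 1) = t := by ring
  rw [e1, e2] at h
  linarith

/-- the geometry of the triangle `0, 1, t e^{-i kap}`; `psi = th + kap - pi/2` -/
theorem geo4 {r t κ θ : ℝ} (hr : 0 < r) (hr1 : r < 1) (ht : 1 ≤ t)
    (h1 : t * cos κ = 1 - r * cos θ) (h2 : t * sin κ = r * sin θ)
    (hθ0 : 0 ≤ θ) (hθ1 : θ ≤ π) (hκ0 : 0 < κ) (hκ1 : κ ≤ π / 3) :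
    2 * r * t * sin (θ + κ - π / 2) = r ^ 2 + t ^ 2 - 1 ∧
      4 * t * cos (κ / 2) ^ 2 = (1 + t) ^ 2 - r ^ 2 ∧ t - 1 ≤ r ∧
      κ / 2 ≤ θ + κ - π / 2 ∧ θ + κ - π / 2 ≤ π / 2 - κ ∧
      (t - 1) * cos (κ / 2) = r * sin (θ + κ - π / 2 - κ / 2) := by
  have hpi := pi_pos
  have t0 : 0 < t := by linarith
  have hsθ : 0 ≤ sin θ := sin_nonneg_of_nonneg_of_le_pi hθ0 hθ1
  have sc := sin_sq_add_cos_sq θ
  have sck := sin_sq_add_cos_sq κ
  have r2 : r ^ 2 = 1 - 2 * (t * cos κ) + t ^ 2 := by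
    have e1 : r ^ 2 = (r * sin θ) ^ 2 + (r * cos θ) ^ 2 := by
      rw [mul_pow, mul_pow, ← mul_add, sc, mul_one]
    have e2 : r * cos θ = 1 - t * cos κ := by linarith
    rw [e1, e2, ← h2]
    linear_combination t ^ 2 * sck
  have g1 : 2 * r * t * sin (θ + κ - π / 2) = r ^ 2 + t ^ 2 - 1 := by
    rw [sin_sub_pi_div_two, cos_add]
    have e : 2 * r * t * -(cos θ * cos κ - sin θ * sin κ) =
        -(2 * (r * cos θ) * (t * cos κ)) + 2 * (r * sin θ) * (t * sin κ) := by ring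
    have e2 : r * cos θ = 1 - t * cos κ := by linarith
    rw [e, e2, ← h2, r2]
    linear_combination 2 * t ^ 2 * sck
  have hck : cos κ = 2 * cos (κ / 2) ^ 2 - 1 := by
    rw [← cos_two_mul]
    congr 1
    ring
  have g2 : 4 * t * cos (κ / 2) ^ 2 = (1 + t) ^ 2 - r ^ 2 := by
    rw [r2, hck]
    ring
  have hr3 : t - 1 ≤ r := by
    apply le_of_sq_le_sq _ hr.le
    rw [r2]
    nlinarith [cos_le_one κ]
  have hk2 : 0 < sin (κ / 2) := sin_pos_of_pos_of_lt_pi (by linarith) (by linarith)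
  have hkk : sin κ = 2 * sin (κ / 2) * cos (κ / 2) := by
    rw [← sin_two_mul]
    congr 1
    ring
  have hkk2 : 1 - cos κ = 2 * sin (κ / 2) ^ 2 := by
    have := sin_sq_add_cos_sq (κ / 2)
    rw [hck]
    linarith
  have g4 : κ / 2 ≤ θ + κ - π / 2 := by
    have e1 : t * (sin κ * cos θ) ≤ t * ((1 - cos κ) * sin θ) := by
      have : t * ((1 - cos κ) * sin θ) - t * (sin κ * cos θ) = (t - 1) * sin θ := by
        linear_combination (-sin θ) * h1 - cos θ * h2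
      have h5 : 0 ≤ (t - 1) * sin θ := mul_nonneg (by linarith) hsθ
      linarith
    have e2 := le_of_mul_le_mul_left e1 t0
    rw [hkk, hkk2] at e2
    have e3 : 2 * sin (κ / 2) * (cos (θ + κ / 2)) ≤ 2 * sin (κ / 2) * 0 := by
      rw [cos_add]
      linarith
    have e4 := le_of_mul_le_mul_left e3 (by positivity)
    by_contra hc
    have : 0 < cos (θ + κ / 2) := cos_pos_of_mem_Ioo ⟨by linarith, by linarith⟩
    linarith
  have g5 : θ + κ - π / 2 ≤ π / 2 - κ := by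
    by_contra hc
    have e1 : t ^ 2 * sin (θ + 2 * κ) = (1 - r ^ 2) * sin θ := by
      rw [sin_add, sin_two_mul, cos_two_mul']
      have : t ^ 2 * (sin θ * (cos κ ^ 2 - sin κ ^ 2) + cos θ * (2 * sin κ * cos κ)) =
          sin θ * ((t * cos κ) ^ 2 - (t * sin κ) ^ 2) +
            2 * cos θ * (t * sin κ) * (t * cos κ) := by ring
      rw [this, h1, h2]
      linear_combination (-(r ^ 2) * sin θ) * sc
    have e2 : sin (θ + 2 * κ) < 0 := by
      have := sin_neg_of_neg_of_neg_pi_lt (x := θ + 2 * κ - 2 * π) (by linarith) (by linarith)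
      rwa [sin_sub_two_pi] at this
    have e3 : 0 ≤ (1 - r ^ 2) * sin θ := mul_nonneg (by nlinarith) hsθ
    have e4 : t ^ 2 * sin (θ + 2 * κ) < 0 := mul_neg_of_pos_of_neg (by positivity) e2
    linarith
  refine ⟨g1, g2, hr3, g4, g5, ?_⟩
  rw [show θ + κ - π / 2 - κ / 2 = (θ + κ / 2) - π / 2 by ring, sin_sub_pi_div_two, cos_add]
  -- `t cos (κ/2) = cos (κ/2) - r cos (θ + κ/2)`
  have e1 : cos (κ / 2) = cos κ * cos (κ / 2) + sin κ * sin (κ / 2) := by
    rw [← cos_sub]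
    congr 1
    ring
  have e2 : t * cos (κ / 2) = (t * cos κ) * cos (κ / 2) + (t * sin κ) * sin (κ / 2) := by
    calc t * cos (κ / 2) = t * (cos κ * cos (κ / 2) + sin κ * sin (κ / 2)) := by rw [← e1]
      _ = _ := by ring
  rw [h1, h2] at e2
  linarith

/-- `sin (psi - kap/2) ≤ sin psi cos^2 (kap/2)` -/
theorem sin_sub_half {ψ κ : ℝ} (hκ0 : 0 < κ) (hκ1 : κ ≤ π / 3) (h0 : κ / 2 ≤ ψ)
    (h1 : ψ ≤ π / 2 - κ) : sin (ψ - κ / 2) ≤ sin ψ * cos (κ / 2) ^ 2 := by
  have hpi := pi_pos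
  have sk : 0 < sin (κ / 2) := sin_pos_of_pos_of_lt_pi (by linarith) (by linarith)
  have ck : 0 < cos (κ / 2) := cos_pos_of_mem_Ioo ⟨by linarith, by linarith⟩
  have ck1 : cos (κ / 2) ≤ 1 := cos_le_one _
  have sc := sin_sq_add_cos_sq (κ / 2)
  have hc1 : sin ψ ≤ cos κ := by
    rw [← sin_pi_div_two_sub]
    exact sin_le_sin_of_le_of_le_pi_div_two (by linarith) (by linarith) h1
  have hc2 : sin κ ≤ cos ψ := by
    rw [← cos_pi_div_two_sub]
    exact cos_le_cos_of_nonneg_of_le_pi (by linarith) (by linarith) (by linarith)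
  have hkk : sin κ = 2 * sin (κ / 2) * cos (κ / 2) := by
    rw [← sin_two_mul]
    congr 1
    ring
  have e1 : sin ψ * (cos (κ / 2) * (1 - cos (κ / 2))) ≤ 1 * (cos (κ / 2) * sin (κ / 2) ^ 2) := by
    apply mul_le_mul (sin_le_one _) _ (mul_nonneg ck.le (by linarith)) zero_le_one
    apply mul_le_mul_of_nonneg_left _ ck.le
    nlinarith
  have e2 : sin κ * sin (κ / 2) ≤ cos ψ * sin (κ / 2) := mul_le_mul_of_nonneg_right hc2 sk.le
  rw [hkk] at e2
  have e3 : 0 ≤ cos (κ / 2) * sin (κ / 2) ^ 2 := by positivity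
  rw [sin_sub]
  nlinarith

/-- `(1 + 2 S) (1 - 2 S^2) ≤ 1.32` -/
theorem SS {S : ℝ} (h : 0 ≤ S) : (1 - 2 * S ^ 2) * (1 + 2 * S) ≤ 132 / 100 := by
  nlinarith [mul_nonneg h (sq_nonneg (S - 27 / 100)), sq_nonneg (S - 27 / 100)]

theorem sig84 {r t : ℝ} (hr : 0 < r) (ht : 3 / 2 ≤ t) (hrt : r * t ≤ 1) :
    2 * r * t * (84 / 100) ≤ r ^ 2 + t ^ 2 - 1 := by
  have t0 : 0 < t := by linarith
  have hr1 : r ≤ 2 / 3 := by nlinarith
  -- monotone in `r`, at `r = 1/t`
  have h1 : 0 ≤ (1 - r * t) * (168 / 100 * t ^ 2 - (1 + r * t)) := by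
    apply mul_nonneg (by linarith)
    nlinarith
  have h2 : 0 ≤ 1 + t ^ 4 - t ^ 2 - 168 / 100 * t ^ 2 := by nlinarith [sq_nonneg (t ^ 2 - 9 / 4)]
  have h3 : 0 ≤ t ^ 2 * (r ^ 2 + t ^ 2 - 1 - 2 * r * t * (84 / 100)) := by nlinarith
  have h4 := nonneg_of_mul_nonneg_right h3 (by positivity)
  linarith

/-- `K (t - 1) ≤ √(r t) sin psi cos (kap/2) sin A` for `K = cos (A - b)` -/
theorem K_bound {r t κ β A b K : ℝ} (hr : 0 < r) (ht : 1 ≤ t) (hrt : r * t ≤ 1)
    (g1 : 2 * r * t * cos (2 * β) = r ^ 2 + t ^ 2 - 1)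
    (g2 : 4 * t * cos (κ / 2) ^ 2 = (1 + t) ^ 2 - r ^ 2) (g3 : t - 1 ≤ r)
    (hσ : 0 < cos (2 * β)) (hcβ : cos (2 * β) = 1 - 2 * sin β ^ 2)
    (ck : 0 < cos (κ / 2)) (sA : 0 < sin A) (cA : 0 < cos A)
    (scA : sin A ^ 2 + cos A ^ 2 = 1) (hsA : 3 / 8 ≤ sin A ^ 2)
    (hK0 : 0 ≤ K) (hK1 : K ≤ 1) (hKe : K = cos A * cos b + sin A * sin b)
    (hsb : sin b ≤ sin β) :
    K * (t - 1) ≤ √(r * t) * cos (2 * β) * cos (κ / 2) * sin A := by
  have t0 : 0 < t := by linarith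
  obtain ⟨F, hF1, hF2⟩ : ∃ F : ℝ, K ^ 2 ≤ F * sin A ^ 2 ∧
      16 * F * (t - 1) ^ 2 * r * t ^ 2 ≤
        (r ^ 2 + t ^ 2 - 1) ^ 2 * ((1 + t) ^ 2 - r ^ 2) := by
    rcases le_total t (3 / 2) with h | h
    · refine ⟨8 / 3, ?_, alg4a hr ht hrt h⟩
      have : K ^ 2 ≤ 1 := pow_le_one₀ hK0 hK1
      linarith
    · refine ⟨248 / 100, ?_, alg4b hr h hrt g3⟩
      have hs1 : 84 / 100 ≤ cos (2 * β) := by
        have e1 : 2 * r * t * (84 / 100) ≤ 2 * r * t * cos (2 * β) := by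
          rw [g1]
          exact sig84 hr h hrt
        exact le_of_mul_le_mul_left e1 (by positivity)
      have hS1 : sin β ≤ 283 / 1000 := by
        apply le_of_sq_le_sq _ (by norm_num)
        linarith
      have hcA2 : cos A ≤ 1291 / 1000 * sin A := by
        apply le_of_sq_le_sq _ (by positivity)
        rw [mul_pow]
        linarith
      have hK2 : K ≤ 1574 / 1000 * sin A := by
        rw [hKe]
        have e1 : cos A * cos b ≤ cos A * 1 := mul_le_mul_of_nonneg_left (cos_le_one _) cA.le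
        have e2 : sin A * sin b ≤ sin A * (283 / 1000) :=
          mul_le_mul_of_nonneg_left (by linarith) sA.le
        linarith
      have hK3 := pow_le_pow_left₀ hK0 hK2 2
      rw [mul_pow] at hK3
      linarith [sq_nonneg (sin A)]
  have e1 : F * (t - 1) ^ 2 ≤ r * t * cos (2 * β) ^ 2 * cos (κ / 2) ^ 2 := by
    rw [← g1, ← g2] at hF2
    have e2 : 16 * (r * t ^ 2) * (F * (t - 1) ^ 2) ≤
        16 * (r * t ^ 2) * (r * t * cos (2 * β) ^ 2 * cos (κ / 2) ^ 2) := by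
      calc _ = 16 * F * (t - 1) ^ 2 * r * t ^ 2 := by ring
        _ ≤ _ := hF2
        _ = _ := by ring
    exact le_of_mul_le_mul_left e2 (by positivity)
  apply le_of_sq_le_sq _ (by positivity)
  have e3 : (√(r * t) * cos (2 * β) * cos (κ / 2) * sin A) ^ 2 =
      r * t * cos (2 * β) ^ 2 * cos (κ / 2) ^ 2 * sin A ^ 2 := by
    rw [mul_pow, mul_pow, mul_pow, sq_sqrt (by positivity)]
  rw [e3, mul_pow]
  calc K ^ 2 * (t - 1) ^ 2 ≤ F * sin A ^ 2 * (t - 1) ^ 2 :=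
        mul_le_mul_of_nonneg_right hF1 (sq_nonneg _)
    _ = F * (t - 1) ^ 2 * sin A ^ 2 := by ring
    _ ≤ _ := mul_le_mul_of_nonneg_right e1 (sq_nonneg _)

/-- the term with `P` -/
theorem P_bound {l r a κ β A b u w P : ℝ} (hl0 : 0 < l) (hl1 : l ≤ 1) (hr : 0 < r)
    (ha0 : 0 < a) (ha1 : a ≤ 1) (hra : r ≤ a) (hκ0 : 0 < κ) (hκ1 : κ ≤ π / 3)
    (hβ0 : κ / 2 ≤ β) (hβ1 : β ≤ π / 4) (hS0 : 0 ≤ sin β)
    (hcβ : cos (2 * β) = 1 - 2 * sin β ^ 2) (hσ : 0 < cos (2 * β)) (hA : A ≤ π / 4)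
    (sA : 0 < sin A) (cA : 0 < cos A) (scA : sin A ^ 2 + cos A ^ 2 = 1)
    (hsA : 3 / 8 ≤ sin A ^ 2) (hcb : 7 / 10 ≤ cos b) (hu0 : 0 ≤ u) (hw0 : 0 ≤ w)
    (hwu : w * sin A ≤ u * cos A) (hu2 : u ≤ r * cos (2 * β)) (hP : 0 ≤ P)
    (hPu : 4 * P * sin A * cos A = (u * cos A - w * sin A) * (w * cos A + u * sin A))
    (hA0 : 0 < A) :
    P * (sin (l * (π / 2 - κ)) - 2 * a * sin (l * (κ - β))) * sin A ≤
      a * cos b * (u * cos A - w * sin A) := by
  have hpi := pi_pos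
  obtain ⟨c, hc⟩ : ∃ c, c = sin (l * (π / 2 - κ)) - 2 * a * sin (l * (κ - β)) :=
    ⟨_, rfl⟩
  rw [← hc]
  have hq1 : 0 ≤ u * cos A - w * sin A := by linarith
  have hq2 : 0 ≤ w * cos A + u * sin A := by positivity
  have hR : 0 ≤ a * cos b * (u * cos A - w * sin A) := by positivity
  rcases le_or_gt c 0 with h | h
  · have : P * c * sin A ≤ 0 := by
      have := mul_nonneg (mul_nonneg hP (neg_nonneg.2 h)) sA.le
      linarith
    linarith
  · have hc1 : c ≤ 1 + 2 * sin β := by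
      have e1 : sin (l * (π / 2 - κ)) ≤ 1 := sin_le_one _
      have e2 : -(a * sin (l * (κ - β))) ≤ sin β := by
        rcases le_or_gt β κ with h5 | h5
        · have : 0 ≤ sin (l * (κ - β)) := by
            apply sin_nonneg_of_nonneg_of_le_pi (mul_nonneg hl0.le (by linarith))
            have : l * (κ - β) ≤ κ - β := mul_le_of_le_one_left (by linarith) hl1
            linarith
          have : 0 ≤ a * sin (l * (κ - β)) := mul_nonneg ha0.le this
          linarith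
        · have e3 : -sin (l * (κ - β)) = sin (l * (β - κ)) := by
            rw [← sin_neg]
            congr 1
            ring
          have e4 : l * (β - κ) ≤ β - κ := mul_le_of_le_one_left (by linarith) hl1
          have e5 : 0 ≤ l * (β - κ) := mul_nonneg hl0.le (by linarith)
          have e6 : 0 ≤ sin (l * (β - κ)) :=
            sin_nonneg_of_nonneg_of_le_pi e5 (by linarith)
          have e7 : sin (l * (β - κ)) ≤ sin β :=
            sin_le_sin_of_le_of_le_pi_div_two (by linarith) (by linarith) (by linarith)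
          calc -(a * sin (l * (κ - β))) =
              a * sin (l * (β - κ)) := by rw [← e3]; ring
            _ ≤ 1 * sin (l * (β - κ)) := mul_le_mul_of_nonneg_right ha1 e6
            _ ≤ sin β := by rw [one_mul]; exact e7
      rw [hc]
      linarith
    have hu3 : u * c ≤ 132 / 100 * a := by
      have e1 : 0 < 1 + 2 * sin β := by linarith
      calc u * c ≤ (r * cos (2 * β)) * (1 + 2 * sin β) :=
            mul_le_mul hu2 hc1 h.le (by positivity)
        _ = r * ((1 - 2 * sin β ^ 2) * (1 + 2 * sin β)) := by rw [hcβ]; ring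
        _ ≤ a * (132 / 100) := by
            apply mul_le_mul hra (SS hS0) _ ha0.le
            rw [← hcβ]
            positivity
        _ = _ := by ring
    have hsc : 484 / 1000 ≤ sin A * cos A := by
      apply le_of_sq_le_sq _ (by positivity)
      have : (sin A * cos A) ^ 2 = sin A ^ 2 * (1 - sin A ^ 2) := by
        rw [mul_pow]
        congr 1
        linarith
      rw [this]
      have h5 : 1 / 2 ≤ cos A ^ 2 := by
        have h6 : 0 ≤ cos (2 * A) := cos_nonneg_of_mem_Icc ⟨by linarith, by linarith⟩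
        rw [cos_two_mul] at h6
        linarith
      nlinarith
    have hq3 : (w * cos A + u * sin A) * sin A ≤ u := by
      have : (w * cos A + u * sin A) * sin A = (w * sin A) * cos A + u * sin A ^ 2 := by ring
      rw [this]
      have e1 : (w * sin A) * cos A ≤ (u * cos A) * cos A :=
        mul_le_mul_of_nonneg_right hwu cA.le
      nlinarith
    have hfin : (w * cos A + u * sin A) * c ≤ 4 * a * cos b * cos A := by
      have e1 : ((w * cos A + u * sin A) * c) * sin A ≤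
          (4 * a * cos b * cos A) * sin A := by
        calc ((w * cos A + u * sin A) * c) * sin A =
              ((w * cos A + u * sin A) * sin A) * c := by ring
          _ ≤ u * c := mul_le_mul_of_nonneg_right hq3 h.le
          _ ≤ 132 / 100 * a := hu3
          _ ≤ (4 * ((7 / 10) * (484 / 1000))) * a := by
              apply mul_le_mul_of_nonneg_right _ ha0.le
              norm_num
          _ ≤ (4 * (cos b * (sin A * cos A))) * a := by
              apply mul_le_mul_of_nonneg_right _ ha0.le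
              apply mul_le_mul_of_nonneg_left _ (by norm_num)
              exact mul_le_mul hcb hsc (by norm_num) (by linarith)
          _ = _ := by ring
      exact le_of_mul_le_mul_right e1 sA
    have e8 : (4 * cos A) * (P * c * sin A) ≤
        (4 * cos A) * (a * cos b * (u * cos A - w * sin A)) := by
      calc (4 * cos A) * (P * c * sin A) = (4 * P * sin A * cos A) * c := by ring
        _ = (u * cos A - w * sin A) * ((w * cos A + u * sin A) * c) := by rw [hPu]; ring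
        _ ≤ (u * cos A - w * sin A) * (4 * a * cos b * cos A) :=
            mul_le_mul_of_nonneg_left hfin hq1
        _ = _ := by ring
    exact le_of_mul_le_mul_left e8 (by positivity)

/-- **step (4)**: `Im (e^{-i lam chi} p_3^lam) ≥ 0` for `chi = π/2 - kap` -/
theorem h90 {l r t κ θ s A P u w : ℝ} (hl0 : 0 < l) (hl1 : l ≤ 1) (hr : 0 < r) (hr1 : r < 1)
    (ht : 1 ≤ t) (hrt : r * t ≤ 1)
    (h1 : t * cos κ = 1 - r * cos θ) (h2 : t * sin κ = r * sin θ)
    (hθ0 : 0 ≤ θ) (hθ1 : θ ≤ π) (hκ0 : 0 < κ) (hκ1 : κ ≤ π / 3) (hs0 : 0 ≤ s) (hs : s ≤ 2 * κ)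
    (hA0 : 0 < A) (hA : A ≤ π / 4) (hA2 : cos (2 * A) ≤ 1 / 4) (hP : 0 ≤ P)
    (hu : u = t ^ l * cos (l * (κ - s / 2)) - (1 + P) * cos (l * (s / 2)))
    (hw : w = t ^ l * sin (l * (κ - s / 2)) - (1 - P) * sin (l * (s / 2)))
    (hu0 : 0 ≤ u) (hw0 : 0 ≤ w) (hwu : w * sin A ≤ u * cos A)
    (hPu : 4 * P * sin A * cos A = (u * cos A - w * sin A) * (w * cos A + u * sin A)) :
    0 ≤ r ^ l * sin (l * (θ - (π / 2 - κ))) - P * sin (l * (π / 2 - κ)) +
      (r / t) ^ (l / 2) * (t ^ l * sin (l * ((θ - κ) / 2 - (π / 2 - κ))) -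
        sin (l * ((θ + κ) / 2 - s - (π / 2 - κ))) +
        P * sin (l * ((θ + κ) / 2 - (π / 2 - κ)))) := by
  have hpi := pi_pos
  have t0 : 0 < t := by linarith
  obtain ⟨g1, g2, g3, g4, g5, g6⟩ := geo4 hr hr1 ht h1 h2 hθ0 hθ1 hκ0 hκ1
  obtain ⟨β, hβ⟩ : ∃ β, θ = π - κ - 2 * β := ⟨(π - κ - θ) / 2, by ring⟩
  have hψ : θ + κ - π / 2 = π / 2 - 2 * β := by rw [hβ]; ring
  have hss := sin_sub_half hκ0 hκ1 g4 g5
  rw [hψ] at g1 g4 g5 g6 hss
  have eψ : sin (π / 2 - 2 * β) = cos (2 * β) := by rw [sin_pi_div_two_sub]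
  -- trigonometric values
  have ck : 0 < cos (κ / 2) := cos_pos_of_mem_Ioo ⟨by linarith, by linarith⟩
  have sA : 0 < sin A := sin_pos_of_pos_of_lt_pi hA0 (by linarith)
  have cA : 0 < cos A := cos_pos_of_mem_Ioo ⟨by linarith, by linarith⟩
  have scA := sin_sq_add_cos_sq A
  have hsA : 3 / 8 ≤ sin A ^ 2 := by
    have := cos_two_mul A
    linarith
  have hcA : cos A ^ 2 ≤ 5 / 8 := by linarith
  have hS0 : 0 ≤ sin β := sin_nonneg_of_nonneg_of_le_pi (by linarith) (by linarith)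
  have hcβ : cos (2 * β) = 1 - 2 * sin β ^ 2 := by
    rw [cos_two_mul]
    linarith [sin_sq_add_cos_sq β]
  have hσ : 0 < cos (2 * β) := by
    apply cos_pos_of_mem_Ioo
    constructor <;> linarith
  -- `T`
  have hT1 : 1 ≤ t ^ l := one_le_rpow ht hl0.le
  have hT2 : t ^ l - 1 ≤ l * (t - 1) := by
    have := rpow_one_add_le_one_add_mul_self (s := t - 1) (by linarith) hl0.le hl1
    rw [show 1 + (t - 1) = t by ring] at this
    linarith
  -- bound of `u`
  have hum : u * cos (κ / 2) ≤ l * (t - 1) := by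
    have e1 : u * cos (l * (κ / 2)) + w * sin (l * (κ / 2)) =
        (t ^ l - 1) * cos (l * ((s - κ) / 2)) - P * cos (l * ((s + κ) / 2)) := by
      have a1 : cos (l * ((s - κ) / 2)) =
          cos (l * (κ - s / 2)) * cos (l * (κ / 2)) + sin (l * (κ - s / 2)) * sin (l * (κ / 2)) := by
        rw [← cos_sub, ← cos_neg]
        congr 1
        ring
      have a2 : cos (l * ((s - κ) / 2)) =
          cos (l * (s / 2)) * cos (l * (κ / 2)) + sin (l * (s / 2)) * sin (l * (κ / 2)) := by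
        rw [← cos_sub]
        congr 1
        ring
      have a3 : cos (l * ((s + κ) / 2)) =
          cos (l * (s / 2)) * cos (l * (κ / 2)) - sin (l * (s / 2)) * sin (l * (κ / 2)) := by
        rw [← cos_add]
        congr 1
        ring
      rw [sub_mul, a3]
      rw [show t ^ l * cos (l * ((s - κ) / 2)) = t ^ l * (cos (l * (κ - s / 2)) * cos (l * (κ / 2)) +
        sin (l * (κ - s / 2)) * sin (l * (κ / 2))) by rw [← a1]]
      rw [a2, hu, hw]
      ring
    have lκ : l * (κ / 2) ≤ κ / 2 := mul_le_of_le_one_left (by linarith) hl1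
    have lκ0 : 0 ≤ l * (κ / 2) := by positivity
    have e2 : 0 ≤ w * sin (l * (κ / 2)) :=
      mul_nonneg hw0 (sin_nonneg_of_nonneg_of_le_pi lκ0 (by linarith))
    have e3 : 0 ≤ P * cos (l * ((s + κ) / 2)) := by
      apply mul_nonneg hP
      have : l * ((s + κ) / 2) ≤ (s + κ) / 2 := mul_le_of_le_one_left (by linarith) hl1
      have : 0 ≤ l * ((s + κ) / 2) := mul_nonneg hl0.le (by linarith)
      apply cos_nonneg_of_mem_Icc
      constructor <;> linarith
    have e4 : (t ^ l - 1) * cos (l * ((s - κ) / 2)) ≤ t ^ l - 1 :=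
      mul_le_of_le_one_right (by linarith) (cos_le_one _)
    have e5 : cos (κ / 2) ≤ cos (l * (κ / 2)) :=
      cos_le_cos_of_nonneg_of_le_pi lκ0 (by linarith) lκ
    have e6 : u * cos (κ / 2) ≤ u * cos (l * (κ / 2)) := mul_le_mul_of_nonneg_left e5 hu0
    linarith
  -- `u ≤ r sin ψ`
  have hu2 : u ≤ r * cos (2 * β) := by
    have e1 : u * cos (κ / 2) ^ 2 ≤ (r * cos (2 * β)) * cos (κ / 2) ^ 2 := by
      calc u * cos (κ / 2) ^ 2 = (u * cos (κ / 2)) * cos (κ / 2) := by ring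
        _ ≤ (l * (t - 1)) * cos (κ / 2) := mul_le_mul_of_nonneg_right hum ck.le
        _ ≤ (1 * (t - 1)) * cos (κ / 2) := by
            apply mul_le_mul_of_nonneg_right _ ck.le
            exact mul_le_mul_of_nonneg_right hl1 (by linarith)
        _ = r * sin (π / 2 - 2 * β - κ / 2) := by rw [one_mul, g6]
        _ ≤ r * (sin (π / 2 - 2 * β) * cos (κ / 2) ^ 2) := mul_le_mul_of_nonneg_left hss hr.le
        _ = _ := by rw [eψ]; ring
    exact le_of_mul_le_mul_right e1 (by positivity)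
  -- `a`
  have hrt1 : r / t ≤ 1 := by
    rw [div_le_one t0]
    linarith
  have hrt0 : 0 < r / t := by positivity
  have ha0 : 0 < (r / t) ^ (l / 2) := rpow_pos_of_pos hrt0 _
  have ha1 : (r / t) ^ (l / 2) ≤ 1 := rpow_le_one hrt0.le hrt1 (by linarith)
  have hra : r ≤ (r / t) ^ (l / 2) := by
    have e1 : (r / t) ^ (1 / 2 : ℝ) ≤ (r / t) ^ (l / 2) :=
      rpow_le_rpow_of_exponent_ge hrt0 hrt1 (by linarith)
    refine le_trans ?_ e1
    rw [← sqrt_eq_rpow]
    apply Real.le_sqrt_of_sq_le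
    rw [le_div_iff₀ t0]
    nlinarith
  have hrl : r ^ l = (r / t) ^ (l / 2) * (r * t) ^ (l / 2) := by
    rw [← mul_rpow hrt0.le (by positivity), show r / t * (r * t) = r ^ 2 by field_simp,
      ← rpow_natCast, ← rpow_mul hr.le]
    congr 1
    push_cast
    ring
  have hy : √(r * t) ≤ (r * t) ^ (l / 2) := by
    rw [sqrt_eq_rpow]
    exact rpow_le_rpow_of_exponent_ge (by positivity) hrt (by linarith)
  -- `b`
  obtain ⟨b, hb⟩ : ∃ b, b = l * (β - κ + s / 2) := ⟨_, rfl⟩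
  have hb1 : b ≤ β := by
    rw [hb]
    rcases le_or_gt 0 (β - κ + s / 2) with h | h
    · have : l * (β - κ + s / 2) ≤ β - κ + s / 2 := mul_le_of_le_one_left h hl1
      linarith
    · have : l * (β - κ + s / 2) < 0 := mul_neg_of_pos_of_neg hl0 h
      linarith
  have hb0 : -(π / 6) ≤ b := by
    rw [hb]
    rcases le_or_gt 0 (β - κ + s / 2) with h | h
    · have : 0 ≤ l * (β - κ + s / 2) := mul_nonneg hl0.le h
      linarith
    · have : 0 ≤ (1 - l) * (-(β - κ + s / 2)) := mul_nonneg (by linarith) (by linarith)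
      linarith
  have hcb : 7 / 10 ≤ cos b := by
    have h3 : cos (π / 4) ≤ cos b := by
      rw [← cos_abs b]
      apply cos_le_cos_of_nonneg_of_le_pi (abs_nonneg _) (by linarith)
      exact abs_le.2 ⟨by linarith, by linarith⟩
    rw [cos_pi_div_four] at h3
    have : (14 : ℝ) / 10 ≤ √2 := le_sqrt_of_sq_le (by norm_num)
    linarith
  have hsb : sin b ≤ sin β :=
    sin_le_sin_of_le_of_le_pi_div_two (by linarith) (by linarith) hb1
  -- `K = cos (A - b)`
  obtain ⟨K, hK⟩ : ∃ K, K = cos (A - b) := ⟨_, rfl⟩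
  have hKe : K = cos A * cos b + sin A * sin b := by rw [hK, cos_sub]
  have hK0 : 0 ≤ K := by
    rw [hK]
    apply cos_nonneg_of_mem_Icc
    constructor <;> linarith
  have hK1 : K ≤ 1 := by rw [hK]; exact cos_le_one _
  have hKt : K * (t - 1) ≤ √(r * t) * cos (2 * β) * cos (κ / 2) * sin A := by
    rw [eψ] at g1
    exact K_bound hr ht hrt g1 g2 g3 hσ hcβ ck sA cA scA hsA hK0 hK1 hKe hsb
  have hlψ : l * cos (2 * β) ≤ sin (l * (π / 2 - 2 * β)) := by
    have hc := strictConcaveOn_sin_Icc.concaveOn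
    have e1 := hc.2 (show (0 : ℝ) ∈ Set.Icc 0 π from ⟨le_refl _, hpi.le⟩)
      (show π / 2 - 2 * β ∈ Set.Icc 0 π from ⟨by linarith, by linarith⟩)
      (show (0 : ℝ) ≤ 1 - l by linarith) hl0.le (by ring)
    simp only [smul_eq_mul, sin_zero, mul_zero, zero_add] at e1
    rw [eψ] at e1
    exact e1
  have hmain : u * K ≤ (r * t) ^ (l / 2) * sin (l * (π / 2 - 2 * β)) * sin A := by
    have e1 : (u * K) * cos (κ / 2) ≤ (√(r * t) * (l * cos (2 * β)) * sin A) * cos (κ / 2) := by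
      calc (u * K) * cos (κ / 2) = (u * cos (κ / 2)) * K := by ring
        _ ≤ (l * (t - 1)) * K := mul_le_mul_of_nonneg_right hum hK0
        _ = l * (K * (t - 1)) := by ring
        _ ≤ l * (√(r * t) * cos (2 * β) * cos (κ / 2) * sin A) :=
            mul_le_mul_of_nonneg_left hKt hl0.le
        _ = _ := by ring
    have e2 := le_of_mul_le_mul_right e1 ck
    refine le_trans e2 ?_
    apply mul_le_mul_of_nonneg_right _ sA.le
    exact mul_le_mul hy hlψ (by positivity) (rpow_nonneg (by positivity) _)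
  -- the term with `P`
  have hPc : P * (sin (l * (π / 2 - κ)) - 2 * (r / t) ^ (l / 2) * sin (l * (κ - β))) * sin A ≤
      (r / t) ^ (l / 2) * cos b * (u * cos A - w * sin A) :=
    P_bound hl0 hl1 hr ha0 ha1 hra hκ0 hκ1 (by linarith) (by linarith) hS0 hcβ hσ hA sA cA scA
      hsA hcb hu0 hw0 hwu hu2 hP hPu hA0
  -- the bracket
  have hbr : t ^ l * sin (l * ((θ - κ) / 2 - (π / 2 - κ))) -
        sin (l * ((θ + κ) / 2 - s - (π / 2 - κ))) +
        P * sin (l * ((θ + κ) / 2 - (π / 2 - κ))) =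
      -(u * sin b + w * cos b) + 2 * P * sin (l * (κ - β)) := by
    have a1 : l * ((θ - κ) / 2 - (π / 2 - κ)) = -(b + l * (κ - s / 2)) := by
      rw [hb, hβ]; ring
    have a2 : l * ((θ + κ) / 2 - s - (π / 2 - κ)) = -(b + l * (s / 2)) := by
      rw [hb, hβ]; ring
    have a3 : l * ((θ + κ) / 2 - (π / 2 - κ)) = l * (s / 2) - b := by
      rw [hb, hβ]; ring
    have a4 : l * (κ - β) = l * (s / 2) - b := by
      rw [hb]; ring
    rw [a1, a2, a3, a4, sin_neg, sin_neg, sin_add, sin_add, sin_sub, hu, hw]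
    ring
  have hθe : θ - (π / 2 - κ) = π / 2 - 2 * β := by rw [hβ]; ring
  rw [hbr, hθe, hrl]
  apply le_of_mul_le_mul_right _ sA
  rw [zero_mul]
  have hm2 : (r / t) ^ (l / 2) * (u * K) ≤
      (r / t) ^ (l / 2) * ((r * t) ^ (l / 2) * sin (l * (π / 2 - 2 * β)) * sin A) :=
    mul_le_mul_of_nonneg_left hmain ha0.le
  rw [hKe] at hm2
  linarith

end EQN
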