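import Mathlib

/-! Real-variable tools for block (II) of the exit from the half plane. -/

set_option autoImplicit false

namespace EQS

open Real Set

/-- comparison by derivatives on `[0, ∞)` -/
theorem le_of_deriv_le {f g f' g' : ℝ → ℝ} (hf : ∀ x, HasDerivAt f (f' x) x)
    (hg : ∀ x, HasDerivAt g (g' x) x) (h0 : f 0 ≤ g 0) (h : ∀ x, 0 ≤ x → f' x ≤ g' x) {x : ℝ}
    (hx : 0 ≤ x) : f x ≤ g x := by
  have hm : MonotoneOn (fun x => g x - f x) (Ici 0) := by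
    apply monotoneOn_of_deriv_nonneg (convex_Ici 0)
    · apply ContinuousOn.sub
      · exact fun y _ => (hg y).continuousAt.continuousWithinAt
      · exact fun y _ => (hf y).continuousAt.continuousWithinAt
    · intro y _
      exact ((hg y).sub (hf y)).differentiableAt.differentiableWithinAt
    · intro y hy
      rw [interior_Ici] at hy
      have := ((hg y).sub (hf y)).deriv
      have e : deriv (fun x => g x - f x) y = g' y - f' y := this
      rw [e]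
      linarith [h y (le_of_lt hy)]
  have := hm (mem_Ici.2 le_rfl) (mem_Ici.2 hx) hx
  simp only at this
  linarith

theorem sin_ge3 {x : ℝ} (hx : 0 ≤ x) : x - x ^ 3 / 6 ≤ Real.sin x := by
  apply le_of_deriv_le (f := fun x : ℝ => x - x ^ 3 / 6) (f' := fun x => 1 - x ^ 2 / 2)
    (g' := Real.cos) _ Real.hasDerivAt_sin (by simp) _ hx
  · intro y
    refine ((hasDerivAt_id' y).fun_sub ((hasDerivAt_pow 3 y).div_const 6)).congr_deriv ?_
    norm_num
    try ring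
  · intro y _
    exact Real.one_sub_sq_div_two_le_cos

theorem cos_le4 {x : ℝ} (hx : 0 ≤ x) : Real.cos x ≤ 1 - x ^ 2 / 2 + x ^ 4 / 24 := by
  apply le_of_deriv_le (f' := fun x => -Real.sin x)
    (g := fun x : ℝ => 1 - x ^ 2 / 2 + x ^ 4 / 24) (g' := fun x => -x + x ^ 3 / 6)
    Real.hasDerivAt_cos _ (by simp) _ hx
  · intro y
    refine (((hasDerivAt_const y (1 : ℝ)).fun_sub ((hasDerivAt_pow 2 y).div_const 2)).fun_add
      ((hasDerivAt_pow 4 y).div_const 24)).congr_deriv ?_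
    norm_num
    try ring
  · intro y hy
    have := sin_ge3 hy
    linarith

theorem sin_le5 {x : ℝ} (hx : 0 ≤ x) : Real.sin x ≤ x - x ^ 3 / 6 + x ^ 5 / 120 := by
  apply le_of_deriv_le (f' := Real.cos)
    (g := fun x : ℝ => x - x ^ 3 / 6 + x ^ 5 / 120) (g' := fun x => 1 - x ^ 2 / 2 + x ^ 4 / 24)
    Real.hasDerivAt_sin _ (by simp) _ hx
  · intro y
    refine (((hasDerivAt_id' y).fun_sub ((hasDerivAt_pow 3 y).div_const 6)).fun_add
      ((hasDerivAt_pow 5 y).div_const 120)).congr_deriv ?_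
    norm_num
    try ring
  · intro y hy
    exact cos_le4 hy

theorem cos_ge6 {x : ℝ} (hx : 0 ≤ x) :
    1 - x ^ 2 / 2 + x ^ 4 / 24 - x ^ 6 / 720 ≤ Real.cos x := by
  apply le_of_deriv_le (g' := fun x => -Real.sin x)
    (f := fun x : ℝ => 1 - x ^ 2 / 2 + x ^ 4 / 24 - x ^ 6 / 720)
    (f' := fun x => -x + x ^ 3 / 6 - x ^ 5 / 120) _ Real.hasDerivAt_cos (by simp) _ hx
  · intro y
    refine ((((hasDerivAt_const y (1 : ℝ)).fun_sub ((hasDerivAt_pow 2 y).div_const 2)).fun_add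
      ((hasDerivAt_pow 4 y).div_const 24)).fun_sub ((hasDerivAt_pow 6 y).div_const 720)).congr_deriv ?_
    norm_num
    try ring
  · intro y hy
    have := sin_le5 hy
    linarith

theorem sinh_ge3 {x : ℝ} (hx : 0 ≤ x) : x + x ^ 3 / 6 ≤ Real.sinh x := by
  have hc : ∀ y : ℝ, 0 ≤ y → 1 + y ^ 2 / 2 ≤ Real.cosh y := by
    intro y hy
    apply le_of_deriv_le (f := fun x : ℝ => 1 + x ^ 2 / 2) (f' := fun x => x)
      (g' := Real.sinh) _ Real.hasDerivAt_cosh (by simp) _ hy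
    · intro y
      refine ((hasDerivAt_const y (1 : ℝ)).fun_add ((hasDerivAt_pow 2 y).div_const 2)).congr_deriv ?_
      norm_num
      try ring
    · intro y hy
      exact Real.self_le_sinh_iff.2 hy
  apply le_of_deriv_le (f := fun x : ℝ => x + x ^ 3 / 6) (f' := fun x => 1 + x ^ 2 / 2)
    (g' := Real.cosh) _ Real.hasDerivAt_sinh (by simp) _ hx
  · intro y
    refine ((hasDerivAt_id' y).fun_add ((hasDerivAt_pow 3 y).div_const 6)).congr_deriv ?_
    norm_num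
    try ring
  · intro y hy
    exact hc y hy

/-- `sinh r ≤ r cosh r` -/
theorem sinh_le_mul_cosh' {r : ℝ} (hr : 0 ≤ r) : Real.sinh r ≤ r * Real.cosh r := by
  have h := le_of_deriv_le (f := Real.sinh) (f' := Real.cosh) (g := fun r => r * Real.cosh r)
    (g' := fun x => 1 * Real.cosh x + x * Real.sinh x) Real.hasDerivAt_sinh
    (fun y => (hasDerivAt_id' y).fun_mul (Real.hasDerivAt_cosh y)) (by simp) (fun y hy => by
      have := mul_nonneg hy (Real.sinh_nonneg_iff.2 hy)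
      linarith) hr
  exact h

theorem exp_le_quad {y : ℝ} (hy : |y| ≤ 3 / 20) : Real.exp y ≤ 1 + y + 3 / 5 * y ^ 2 := by
  have h := Real.exp_bound (x := y) (by linarith) (n := 3) (by norm_num)
  simp only [Finset.sum_range_succ, Finset.sum_range_zero] at h
  norm_num [Nat.factorial] at h
  have h1 := (abs_le.1 h).2
  have h2 : |y| ^ 3 ≤ 3 / 20 * y ^ 2 := by
    have : |y| ^ 3 = |y| * y ^ 2 := by rw [pow_succ, sq_abs]; ring
    rw [this]
    exact mul_le_mul_of_nonneg_right hy (sq_nonneg y)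
  nlinarith [sq_nonneg y]

/-- upper bound for `e^{-x}`, `x ≥ 0` -/
theorem exp_neg_le4 {x : ℝ} (hx : 0 ≤ x) :
    Real.exp (-x) ≤ 1 - x + x ^ 2 / 2 - x ^ 3 / 6 + x ^ 4 / 24 := by
  have hd : ∀ y : ℝ, HasDerivAt (fun x : ℝ => Real.exp (-x)) (-Real.exp (-y)) y := by
    intro y
    have h := (Real.hasDerivAt_exp (-y)).comp y (hasDerivAt_neg y)
    refine h.congr_deriv ?_
    ring
  have h1 : ∀ y : ℝ, 0 ≤ y → 1 - y ≤ Real.exp (-y) := fun y _ => by
    have := Real.add_one_le_exp (-y)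
    linarith
  have h2 : ∀ y : ℝ, 0 ≤ y → Real.exp (-y) ≤ 1 - y + y ^ 2 / 2 := by
    intro y hy
    apply le_of_deriv_le (f' := fun y => -Real.exp (-y)) (g := fun x : ℝ => 1 - x + x ^ 2 / 2)
      (g' := fun x => -1 + x) hd _ (by simp) _ hy
    · intro y
      refine (((hasDerivAt_const y (1 : ℝ)).fun_sub (hasDerivAt_id' y)).fun_add
        ((hasDerivAt_pow 2 y).div_const 2)).congr_deriv ?_
      norm_num
    · intro y hy
      linarith [h1 y hy]
  have h3 : ∀ y : ℝ, 0 ≤ y → 1 - y + y ^ 2 / 2 - y ^ 3 / 6 ≤ Real.exp (-y) := by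
    intro y hy
    apply le_of_deriv_le (g' := fun y => -Real.exp (-y))
      (f := fun x : ℝ => 1 - x + x ^ 2 / 2 - x ^ 3 / 6)
      (f' := fun x => -1 + x - x ^ 2 / 2) _ hd (by simp) _ hy
    · intro y
      refine ((((hasDerivAt_const y (1 : ℝ)).fun_sub (hasDerivAt_id' y)).fun_add
        ((hasDerivAt_pow 2 y).div_const 2)).fun_sub ((hasDerivAt_pow 3 y).div_const 6)).congr_deriv ?_
      norm_num
      try ring
    · intro y hy
      linarith [h2 y hy]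
  apply le_of_deriv_le (f' := fun y => -Real.exp (-y))
    (g := fun x : ℝ => 1 - x + x ^ 2 / 2 - x ^ 3 / 6 + x ^ 4 / 24)
    (g' := fun x => -1 + x - x ^ 2 / 2 + x ^ 3 / 6) hd _ (by simp) _ hx
  · intro y
    refine (((((hasDerivAt_const y (1 : ℝ)).fun_sub (hasDerivAt_id' y)).fun_add
      ((hasDerivAt_pow 2 y).div_const 2)).fun_sub ((hasDerivAt_pow 3 y).div_const 6)).fun_add
      ((hasDerivAt_pow 4 y).div_const 24)).congr_deriv ?_
    norm_num
    try ring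
  · intro y hy
    linarith [h3 y hy]

/-- the radius of the Pick disc -/
theorem pick_radius {s s0 N D : ℝ} (hN : 0 ≤ N) (hD : 0 ≤ D) (hs0 : 0 ≤ s0) (hs : s0 ≤ s)
    (h : 4 * s * Real.sinh (N / 2) ^ 2 ≤ 1)
    (hn : 1 < 4 * s0 * (D / 2 + (D / 2) ^ 3 / 6) ^ 2) : N ≤ D := by
  by_contra hcon
  push Not at hcon
  have h1 : D / 2 + (D / 2) ^ 3 / 6 ≤ Real.sinh (D / 2) := sinh_ge3 (by linarith)
  have h2 : Real.sinh (D / 2) ≤ Real.sinh (N / 2) := Real.sinh_le_sinh.2 (by linarith)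
  have h3 : 0 ≤ D / 2 + (D / 2) ^ 3 / 6 := by positivity
  have h4 : (D / 2 + (D / 2) ^ 3 / 6) ^ 2 ≤ Real.sinh (N / 2) ^ 2 :=
    pow_le_pow_left₀ h3 (h1.trans h2) 2
  have h5 : 4 * s0 * (D / 2 + (D / 2) ^ 3 / 6) ^ 2 ≤ 4 * s * Real.sinh (N / 2) ^ 2 := by
    apply mul_le_mul (by linarith) h4 (by positivity) (by linarith)
  linarith

/-- upper bound of `φ = γ + σ_2` from `k sin w ≤ e^{-gr} B` -/
theorem ub_phi {k g gr w B D : ℝ} (hk : 8 ≤ k) (hw : 0 ≤ w) (hB : 0 ≤ B) (hD0 : 0 ≤ D)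
    (hD1 : D ≤ 6 / 5) (hD : (k * gr) ^ 2 + (k * g) ^ 2 ≤ D ^ 2)
    (hs : k * Real.sin w ≤ Real.exp (-gr) * B) :
    k * g + k * w ≤ B + (D + (D * B ^ 2 / 2 + 3 / 5 * D ^ 2 * B + (k * w) ^ 3 / 6) / 64) := by
  have k0 : 0 < k := by linarith
  have h1 : |k * gr| ≤ D := by
    rw [← sq_le_sq₀ (abs_nonneg _) hD0, sq_abs]
    nlinarith [sq_nonneg (k * g)]
  have h2 : |-gr| ≤ 3 / 20 := by
    rw [abs_neg]
    rw [abs_mul, abs_of_pos k0] at h1
    by_contra hcon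
    push Not at hcon
    nlinarith
  have h3 := exp_le_quad h2
  have h4 : Real.exp (-gr) * B ≤ (1 + -gr + 3 / 5 * (-gr) ^ 2) * B :=
    mul_le_mul_of_nonneg_right h3 hB
  -- `3/5 gr^2 B ≤ 3/5 D^2 B / 64`
  have h5 : 64 * gr ^ 2 ≤ D ^ 2 := by
    have e1 : (k * gr) ^ 2 ≤ D ^ 2 := by nlinarith [sq_nonneg (k * g)]
    have e2 : 64 * gr ^ 2 ≤ k ^ 2 * gr ^ 2 :=
      mul_le_mul_of_nonneg_right (by nlinarith) (sq_nonneg gr)
    nlinarith
  have h6 : (-gr) ^ 2 * B ≤ D ^ 2 * B / 64 := by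
    have := mul_le_mul_of_nonneg_right h5 hB
    nlinarith
  -- `k g - gr B ≤ D (1 + B^2/128)`
  have h7 : k * g - gr * B ≤ D * (1 + B ^ 2 / 128) := by
    have hx : (k * g - gr * B) ^ 2 ≤ (D * (1 + B ^ 2 / 128)) ^ 2 := by
      have e1 : (k * g - gr * B) ^ 2 ≤ ((k * gr) ^ 2 + (k * g) ^ 2) * (1 + (B / k) ^ 2) := by
        have : ((k * gr) ^ 2 + (k * g) ^ 2) * (1 + (B / k) ^ 2) - (k * g - gr * B) ^ 2 =
            (k * gr + g * B) ^ 2 := by
          field_simp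
          ring
        nlinarith [sq_nonneg (k * gr + g * B)]
      have e2 : (B / k) ^ 2 ≤ B ^ 2 / 64 := by
        rw [div_pow]
        apply div_le_div_of_nonneg_left (sq_nonneg _) (by norm_num)
        nlinarith
      have e3 : ((k * gr) ^ 2 + (k * g) ^ 2) * (1 + (B / k) ^ 2) ≤ D ^ 2 * (1 + B ^ 2 / 64) := by
        apply mul_le_mul hD (by linarith) (by positivity) (by positivity)
      have e4 : D ^ 2 * (1 + B ^ 2 / 64) ≤ (D * (1 + B ^ 2 / 128)) ^ 2 := by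
        have : (D * (1 + B ^ 2 / 128)) ^ 2 - D ^ 2 * (1 + B ^ 2 / 64) =
            (D * (B ^ 2 / 128)) ^ 2 := by ring
        nlinarith [sq_nonneg (D * (B ^ 2 / 128))]
      linarith
    have hpos : 0 ≤ D * (1 + B ^ 2 / 128) := by positivity
    exact (le_abs_self _).trans (abs_le_of_sq_le_sq hx hpos)
  -- `k w ≤ k sin w + (k w)^3 / 384`
  have h8 := sin_ge3 hw
  have h9 : k * w ^ 3 / 6 ≤ (k * w) ^ 3 / 6 / 64 := by
    have e1 : 64 ≤ k ^ 2 := by nlinarith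
    have e2 : 0 ≤ w ^ 3 := by positivity
    have e3 : 64 * (k * w ^ 3) ≤ k ^ 2 * (k * w ^ 3) :=
      mul_le_mul_of_nonneg_right e1 (by positivity)
    have e4 : (k * w) ^ 3 = k ^ 2 * (k * w ^ 3) := by ring
    rw [e4]
    linarith
  have h10 : k * w ≤ k * Real.sin w + k * w ^ 3 / 6 := by
    have := mul_le_mul_of_nonneg_left h8 k0.le
    linarith
  nlinarith

/-- second bound of `k w` -/
theorem kw_le {k gr w B D T : ℝ} (hk : 8 ≤ k) (hw : 0 ≤ w) (hB : 0 ≤ B) (hD0 : 0 ≤ D)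
    (hD1 : D ≤ 6 / 5) (hD : |k * gr| ≤ D) (hT : k * w ≤ T)
    (hs : k * Real.sin w ≤ Real.exp (-gr) * B) :
    k * w ≤ (1 + D / 8 + 3 / 5 * (D / 8) ^ 2) * B + T ^ 3 / 384 := by
  have k0 : 0 < k := by linarith
  have h1 : |gr| ≤ D / 8 := by
    rw [abs_mul, abs_of_pos k0] at hD
    rw [le_div_iff₀ (by norm_num)]
    nlinarith [abs_nonneg gr]
  have h2 : |-gr| ≤ 3 / 20 := by rw [abs_neg]; linarith
  have h3 := exp_le_quad h2
  have h4 : Real.exp (-gr) ≤ 1 + D / 8 + 3 / 5 * (D / 8) ^ 2 := by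
    have e1 : -gr ≤ D / 8 := by linarith [(abs_le.1 h1).1]
    have e2 : (-gr) ^ 2 ≤ (D / 8) ^ 2 := by
      rw [neg_sq, ← sq_abs]
      exact pow_le_pow_left₀ (abs_nonneg _) h1 2
    linarith
  have h5 := mul_le_mul_of_nonneg_right h4 hB
  have h8 := sin_ge3 hw
  have h9 : k * w ^ 3 / 6 ≤ (k * w) ^ 3 / 384 := by
    have e1 : 64 ≤ k ^ 2 := by nlinarith
    have e3 : 64 * (k * w ^ 3) ≤ k ^ 2 * (k * w ^ 3) :=
      mul_le_mul_of_nonneg_right e1 (by positivity)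
    have e4 : (k * w) ^ 3 = k ^ 2 * (k * w ^ 3) := by ring
    rw [e4]
    linarith
  have h10 : (k * w) ^ 3 ≤ T ^ 3 := pow_le_pow_left₀ (by positivity) hT 3
  have h11 : k * w ≤ k * Real.sin w + k * w ^ 3 / 6 := by
    have := mul_le_mul_of_nonneg_left h8 k0.le
    linarith
  linarith

/-- `sin x ≤ y` if `x ≤ y`, `0 ≤ y`, `-π ≤ x` -/
theorem sin_le_of_le {x y : ℝ} (h : x ≤ y) (hy : 0 ≤ y) (hx : -π ≤ x) : Real.sin x ≤ y := by
  rcases le_total 0 x with h0 | h0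
  · exact (Real.sin_le h0).trans h
  · exact (Real.sin_nonpos_of_nonpos_of_neg_pi_le h0 hx).trans hy

/-- `r ≤ cos m` when `tan m ≤ ρ` -/
theorem cos_ge_tan {m ρ r : ℝ} (hm : 0 ≤ m) (hm' : m < π / 2) (hr : 0 ≤ r) (hρ : Real.tan m ≤ ρ)
    (h : r ^ 2 * (1 + ρ ^ 2) ≤ 1) : r ≤ Real.cos m := by
  have hpi := Real.pi_pos
  have hc : 0 < Real.cos m := Real.cos_pos_of_mem_Ioo ⟨by linarith, hm'⟩
  have ht : 0 ≤ Real.tan m := Real.tan_nonneg_of_nonneg_of_le_pi_div_two hm hm'.le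
  have h1 : Real.cos m ^ 2 * (1 + Real.tan m ^ 2) = 1 := by
    rw [Real.tan_eq_sin_div_cos]
    field_simp
    linarith [Real.sin_sq_add_cos_sq m]
  by_contra hcon
  push Not at hcon
  have h2 : Real.tan m ^ 2 ≤ ρ ^ 2 := pow_le_pow_left₀ ht hρ 2
  have h3 : Real.cos m ^ 2 < r ^ 2 := pow_lt_pow_left₀ hcon hc.le (by norm_num)
  have h4 : Real.cos m ^ 2 * (1 + Real.tan m ^ 2) < r ^ 2 * (1 + ρ ^ 2) := by
    apply mul_lt_mul h3 (by linarith) (by positivity) (by positivity)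
  linarith

/-- `cos (m + c) ≥ r (1 - c²/2 - ρ c)` -/
theorem cos_add_ge {m ρ r c : ℝ} (hm : 0 ≤ m) (hm' : m < π / 2) (hr : 0 ≤ r)
    (hρ : Real.tan m ≤ ρ) (h : r ^ 2 * (1 + ρ ^ 2) ≤ 1) (hc : 0 ≤ c) (hρ0 : 0 ≤ ρ)
    (hp : 0 ≤ 1 - c ^ 2 / 2 - ρ * c) (hc' : c ≤ π / 2) :
    r * (1 - c ^ 2 / 2 - ρ * c) ≤ Real.cos (m + c) := by
  have hpi := Real.pi_pos
  have h1 := cos_ge_tan hm hm' hr hρ h
  have hcm : 0 < Real.cos m := Real.cos_pos_of_mem_Ioo ⟨by linarith, hm'⟩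
  have h2 : Real.sin m = Real.tan m * Real.cos m := by
    rw [Real.tan_eq_sin_div_cos]
    field_simp
  have h3 : Real.cos (m + c) = Real.cos m * (Real.cos c - Real.tan m * Real.sin c) := by
    rw [Real.cos_add, h2]
    ring
  have h4 := Real.one_sub_sq_div_two_le_cos (x := c)
  have h5 := Real.sin_le hc
  have h6 : 0 ≤ Real.sin c := Real.sin_nonneg_of_nonneg_of_le_pi hc (by linarith)
  have h7 : Real.tan m * Real.sin c ≤ ρ * c :=
    mul_le_mul hρ h5 h6 hρ0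
  rw [h3]
  apply mul_le_mul h1 (by linarith) hp hcm.le

theorem cos_pi16 {x : ℝ} (h0 : |x| ≤ π / 16) : 9807 / 10000 ≤ Real.cos x := by
  have h1 := Real.pi_lt_d4
  have h2 := Real.one_sub_sq_div_two_le_cos (x := x)
  have h4 : |x| ≤ 19636 / 100000 := by linarith
  have h5 : 0 ≤ |x| := abs_nonneg x
  have h6 : |x| ^ 2 ≤ (19636 / 100000) ^ 2 := pow_le_pow_left₀ h5 h4 2
  rw [sq_abs] at h6
  linarith

end EQS
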