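import Mathlib
import Pool.Agent.Lib.MP_226de1_co.E.TwoNum

/-!
Disc exit, case N (first real part negative): the angle `Φ` is at least `π/4`.
Pure real inequality (3) of the note of helper38.
-/

open Real

namespace EQN

/-- common data of the triangle `1 = t e^{-i kap} + r e^{i theta}`. -/
structure Tri (r t kap psi : ℝ) : Prop where
  r0 : 0 < r
  r1 : r ≤ 1
  k0 : 0 < kap
  k1 : kap ≤ π / 3
  p0 : kap / 2 ≤ psi
  p1 : psi ≤ π / 2 - kap
  rc : r * Real.cos psi = Real.sin kap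
  tc : t = Real.cos kap + r * Real.sin psi

namespace Tri

variable {r t kap psi : ℝ} (h : Tri r t kap psi)
include h

theorem psi_pos : 0 < psi := by have := h.k0; have := h.p0; linarith

theorem psi_lt : psi < π / 2 := by have := h.k0; have := h.p1; linarith

theorem cpsi : 0 < Real.cos psi :=
  Real.cos_pos_of_mem_Ioo ⟨by have := h.psi_pos; have := Real.pi_pos; linarith, h.psi_lt⟩

theorem spsi : 0 < Real.sin psi :=
  Real.sin_pos_of_pos_of_lt_pi h.psi_pos (by have := h.psi_lt; have := Real.pi_pos; linarith)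

theorem ckap : 1 / 2 ≤ Real.cos kap := by
  rw [← Real.cos_pi_div_three]
  exact Real.cos_le_cos_of_nonneg_of_le_pi h.k0.le (by have := Real.pi_pos; linarith) h.k1

theorem skap : 0 < Real.sin kap :=
  Real.sin_pos_of_pos_of_lt_pi h.k0 (by have := h.k1; have := Real.pi_pos; linarith)

theorem t_ge : 1 ≤ t := by
  -- r sin psi ≥ 1 - cos kap as r cos psi = sin kap, psi ≥ kap/2
  have h1 : Real.sin (kap / 2) * Real.cos psi ≤ Real.sin psi * Real.cos (kap / 2) := by
    have h2 : 0 ≤ Real.sin (psi - kap / 2) :=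
      Real.sin_nonneg_of_nonneg_of_le_pi (by have := h.p0; linarith)
        (by have := h.psi_lt; have := h.k0; have := Real.pi_pos; linarith)
    rw [Real.sin_sub] at h2
    linarith
  have hs : Real.sin kap = 2 * Real.sin (kap / 2) * Real.cos (kap / 2) := by
    rw [← Real.sin_two_mul]; ring_nf
  have hc : Real.cos kap = 1 - 2 * Real.sin (kap / 2) ^ 2 := by
    have := Real.cos_two_mul (kap / 2)
    have h3 := Real.sin_sq_add_cos_sq (kap / 2)
    rw [show 2 * (kap / 2) = kap by ring] at this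
    nlinarith
  have hs2 : 0 < Real.sin (kap / 2) :=
    Real.sin_pos_of_pos_of_lt_pi (by have := h.k0; linarith)
      (by have := h.k1; have := Real.pi_pos; linarith)
  have hc2 : 0 < Real.cos (kap / 2) :=
    Real.cos_pos_of_mem_Ioo ⟨by have := h.k0; have := Real.pi_pos; linarith,
      by have := h.k1; have := Real.pi_pos; linarith⟩
  have h4 : 2 * Real.sin (kap / 2) ^ 2 ≤ r * Real.sin psi := by
    have h5 : r * Real.cos psi * Real.sin (kap / 2) ≤ r * Real.sin psi * Real.cos (kap / 2) := by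
      nlinarith [h.r0]
    rw [h.rc, hs] at h5
    by_contra hcon
    push Not at hcon
    nlinarith
  rw [h.tc, hc]
  linarith

theorem t_pos : 0 < t := lt_of_lt_of_le one_pos h.t_ge

theorem t_le : t ≤ 2 * Real.cos kap := by
  have h1 : Real.sin psi ≤ Real.cos kap := by
    rw [← Real.sin_pi_div_two_sub kap]
    exact Real.sin_le_sin_of_le_of_le_pi_div_two (by have := h.psi_pos; have := Real.pi_pos; linarith)
      (by have := h.k0; linarith) h.p1
  rw [h.tc]
  nlinarith [h.r1, h.r0, h.spsi]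

theorem tcos : t * Real.cos psi = Real.cos (psi - kap) := by
  rw [h.tc, Real.cos_sub]
  have := h.rc
  linear_combination Real.sin psi * this

theorem tsin : t * Real.sin kap = r * Real.cos (psi - kap) := by
  rw [← h.tcos]
  have := h.rc
  linear_combination t * (-this)

theorem cpk : 0 < Real.cos (psi - kap) := by
  rw [← h.tcos]; exact mul_pos h.t_pos h.cpsi

theorem c_cases : Real.sin (2 * kap) ≤ Real.cos (psi - kap) ∨
    Real.cos (kap / 2) ≤ Real.cos (psi - kap) := by
  rcases le_total kap psi with hp | hp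
  · left
    rw [← Real.cos_pi_div_two_sub]
    exact Real.cos_le_cos_of_nonneg_of_le_pi (by linarith)
      (by have := h.k0; have := Real.pi_pos; linarith) (by have := h.p1; linarith)
  · right
    rw [← Real.cos_neg (psi - kap)]
    exact Real.cos_le_cos_of_nonneg_of_le_pi (by linarith)
      (by have := h.k1; have := Real.pi_pos; linarith) (by have := h.p0; linarith)

end Tri

theorem mul_sin_le {l x : ℝ} (hl0 : 0 ≤ l) (hl1 : l ≤ 1) (hx0 : 0 ≤ x) (hx1 : x ≤ π) :
    l * Real.sin x ≤ Real.sin (l * x) := by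
  have h := strictConcaveOn_sin_Icc.concaveOn.2 (x := x) (y := 0) ⟨hx0, hx1⟩
    ⟨le_refl 0, Real.pi_pos.le⟩ hl0 (sub_nonneg.mpr hl1) (by ring)
  simpa using h

theorem sin_sub_sin_le {u v : ℝ} (h : v ≤ u) : Real.sin u - Real.sin v ≤ u - v := by
  rw [Real.sin_sub_sin]
  rcases le_or_gt ((u - v) / 2) (π) with h1 | h1
  · have h2 : 0 ≤ Real.sin ((u - v) / 2) := Real.sin_nonneg_of_nonneg_of_le_pi (by linarith) h1
    have h3 : Real.sin ((u - v) / 2) ≤ (u - v) / 2 := Real.sin_le (by linarith)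
    have h4 := Real.cos_le_one ((u + v) / 2)
    nlinarith
  · have h2 := Real.sin_le_one ((u - v) / 2)
    have h3 := Real.neg_one_le_sin ((u - v) / 2)
    have h4 := Real.cos_le_one ((u + v) / 2)
    have h5 := Real.neg_one_le_cos ((u + v) / 2)
    have h6 := Real.pi_gt_three
    nlinarith [mul_nonneg (sub_nonneg.mpr h2) (sub_nonneg.mpr h4),
      mul_nonneg (sub_nonneg.mpr h2) (by linarith : (0:ℝ) ≤ Real.cos ((u + v) / 2) + 1),
      mul_nonneg (by linarith : (0:ℝ) ≤ Real.sin ((u - v) / 2) + 1) (sub_nonneg.mpr h4)]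

/-- `1 - cos x + sin x ≥ x (1 + 0.34 x)` on `[0, π/4]` -/
theorem W_ge {x : ℝ} (h0 : 0 ≤ x) (h1 : x ≤ π / 4) :
    x * (1 + 34 / 100 * x) ≤ 1 - Real.cos x + Real.sin x := by
  have h2 := EQS.sin_ge3 h0
  have h3 := EQS.cos_le4 h0
  have hx : x ≤ 0.7855 := by have := Real.pi_lt_d4; linarith
  have h4 : 0 ≤ x ^ 2 * (16 / 100 - x / 6 - x ^ 2 / 24) := by
    apply mul_nonneg (by positivity)
    nlinarith
  nlinarith

theorem numA1 {x : ℝ} (h0 : 0 ≤ x) (h1 : x ≤ π / 4) :
    x ^ 2 ≤ Real.cos x * (1 - Real.cos x + Real.sin x) ^ 2 := by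
  have hW := W_ge h0 h1
  have hx : x ≤ 0.7855 := by have := Real.pi_lt_d4; linarith
  have hc := Real.one_sub_sq_div_two_le_cos (x := x)
  have hc0 : 0 ≤ 1 - x ^ 2 / 2 := by nlinarith
  have h2 : (x * (1 + 34 / 100 * x)) ^ 2 ≤ (1 - Real.cos x + Real.sin x) ^ 2 :=
    pow_le_pow_left₀ (by positivity) hW 2
  have h3 : (1 - x ^ 2 / 2) * (x * (1 + 34 / 100 * x)) ^ 2 ≤
      Real.cos x * (1 - Real.cos x + Real.sin x) ^ 2 :=
    mul_le_mul hc h2 (by positivity) (by linarith)
  have h4 : 1 ≤ (1 - x ^ 2 / 2) * (1 + 34 / 100 * x) ^ 2 := by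
    have h5 : 0 ≤ x * (68 / 100 - 0.3844 * x - 0.34 * x ^ 2 - 0.0578 * x ^ 3) := by
      apply mul_nonneg h0
      have h6 : x ^ 2 ≤ 0.62 := by nlinarith
      have h7 : x ^ 3 ≤ 0.49 := by nlinarith
      nlinarith
    nlinarith
  nlinarith [mul_le_mul_of_nonneg_left h4 (sq_nonneg x)]

theorem numA2 {x : ℝ} (h0 : 0 ≤ x) (h1 : x ≤ π / 4) :
    2 * x ^ 2 * Real.sin x ≤ Real.cos (x / 2) * (1 - Real.cos x + Real.sin x) ^ 2 := by
  have hW := W_ge h0 h1
  have hx : x ≤ 0.7855 := by have := Real.pi_lt_d4; linarith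
  have hc := Real.one_sub_sq_div_two_le_cos (x := x / 2)
  have hc0 : 0 ≤ 1 - (x / 2) ^ 2 / 2 := by nlinarith
  have h2 : (x * (1 + 34 / 100 * x)) ^ 2 ≤ (1 - Real.cos x + Real.sin x) ^ 2 :=
    pow_le_pow_left₀ (by positivity) hW 2
  have h3 : (1 - (x / 2) ^ 2 / 2) * (x * (1 + 34 / 100 * x)) ^ 2 ≤
      Real.cos (x / 2) * (1 - Real.cos x + Real.sin x) ^ 2 :=
    mul_le_mul hc h2 (by positivity) (by linarith)
  have hs := EQS.sin_le5 h0
  have h4 : 2 * (x - x ^ 3 / 6 + x ^ 5 / 120) ≤ (1 - (x / 2) ^ 2 / 2) * (1 + 34 / 100 * x) ^ 2 := by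
    have h5 : (0.7855 : ℝ) ^ 2 * 3 * x - 2 * 0.7855 ^ 3 ≤ x ^ 3 := by
      nlinarith [mul_nonneg (sq_nonneg (x - 0.7855)) (by linarith : (0:ℝ) ≤ x + 2 * 0.7855)]
    have h6 : x ^ 4 ≤ 0.7855 * x ^ 3 := by nlinarith [pow_nonneg h0 3]
    have h7 : x ^ 5 ≤ 0.7855 ^ 2 * x ^ 3 := by nlinarith [pow_nonneg h0 3, pow_nonneg h0 4]
    nlinarith
  nlinarith [mul_le_mul_of_nonneg_left h4 (sq_nonneg x),
    mul_le_mul_of_nonneg_left hs (sq_nonneg x)]

theorem rpow_bern {t l : ℝ} (ht : 1 ≤ t) (hl0 : 0 ≤ l) (hl1 : l ≤ 1) : t ^ l - 1 ≤ l * (t - 1) := by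
  have := _root_.rpow_one_add_le_one_add_mul_self (s := t - 1) (by linarith) hl0 hl1
  rw [show 1 + (t - 1) = t by ring] at this
  linarith

namespace Tri

variable {r t kap psi : ℝ} (h : Tri r t kap psi)
include h

theorem coreM {l : ℝ} (hl0 : 0 < l) (hl1 : l ≤ 1) (hk : kap ≤ π / 4) :
    l * (r ^ l / r) * (√2 / 2) * t * (1 - Real.cos kap + Real.sin kap) ≤
      r ^ l * Real.sin (l * (π / 4 + psi)) - (t ^ l - 1) * Real.sin (l * (π / 4 - kap)) := by
  have hr := h.r0
  have hg : 1 ≤ r ^ l / r := by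
    rw [le_div_iff₀ hr, one_mul]
    have := Real.rpow_le_rpow_of_exponent_ge hr h.r1 hl1
    rwa [Real.rpow_one] at this
  have hgr : r ^ l = (r ^ l / r) * r := by field_simp
  set g := r ^ l / r with hgdef
  have hpp := h.psi_lt
  have hp0 := h.psi_pos
  have hpi := Real.pi_pos
  have h1 : l * Real.sin (π / 4 + psi) ≤ Real.sin (l * (π / 4 + psi)) :=
    mul_sin_le hl0.le hl1 (by linarith) (by linarith)
  have h2 : Real.sin (l * (π / 4 - kap)) ≤ Real.sin (π / 4 - kap) := by
    apply Real.sin_le_sin_of_le_of_le_pi_div_two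
    · nlinarith
    · have := h.k0; linarith
    · nlinarith
  have h2' : 0 ≤ Real.sin (l * (π / 4 - kap)) :=
    Real.sin_nonneg_of_nonneg_of_le_pi (by nlinarith) (by nlinarith [h.k0])
  have h3 := rpow_bern h.t_ge hl0.le hl1
  have h3' : 0 ≤ t ^ l - 1 := by
    have := Real.one_le_rpow h.t_ge hl0.le
    linarith
  have h4 : (t ^ l - 1) * Real.sin (l * (π / 4 - kap)) ≤
      (l * (t - 1)) * Real.sin (π / 4 - kap) :=
    mul_le_mul h3 h2 h2' (by nlinarith [h.t_ge])
  have h5 : (l * (t - 1)) * Real.sin (π / 4 - kap) ≤ g * ((l * (t - 1)) * Real.sin (π / 4 - kap)) := by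
    have : 0 ≤ (l * (t - 1)) * Real.sin (π / 4 - kap) :=
      mul_nonneg (by nlinarith [h.t_ge]) (by linarith)
    nlinarith
  have h6 : g * r * (l * Real.sin (π / 4 + psi)) ≤ g * r * Real.sin (l * (π / 4 + psi)) :=
    mul_le_mul_of_nonneg_left h1 (by positivity)
  have h7 : g * r * (l * Real.sin (π / 4 + psi)) - g * ((l * (t - 1)) * Real.sin (π / 4 - kap)) =
      l * g * (√2 / 2) * t * (1 - Real.cos kap + Real.sin kap) := by
    rw [Real.sin_add, Real.sin_sub, Real.sin_pi_div_four, Real.cos_pi_div_four]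
    have e1 := h.rc
    have e2 := h.tc
    linear_combination (g * l * (√2 / 2)) * e1 - (g * l * (√2 / 2)) * e2
  rw [hgr]
  linarith

theorem a_le {l : ℝ} (hl0 : 0 < l) (hl1 : l ≤ 1) :
    (r / t) ^ (l / 2) * √(t / r) ≤ r ^ l / r * t := by
  have hr := h.r0
  have ht := h.t_pos
  have hlt : 0 ≤ Real.log t := Real.log_nonneg h.t_ge
  have hlr : Real.log r ≤ 0 := Real.log_nonpos hr.le h.r1
  rw [Real.sqrt_eq_rpow, Real.rpow_def_of_pos (div_pos hr ht), Real.rpow_def_of_pos (div_pos ht hr),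
    Real.rpow_def_of_pos hr, ← Real.exp_add, Real.log_div hr.ne' ht.ne', Real.log_div ht.ne' hr.ne']
  calc Real.exp ((Real.log r - Real.log t) * (l / 2) + (Real.log t - Real.log r) * (1 / 2))
      ≤ Real.exp (Real.log r * l - Real.log r + Real.log t) := by
        apply Real.exp_le_exp.mpr
        nlinarith
    _ = Real.exp (Real.log r * l) / r * t := by
        rw [Real.exp_add, Real.exp_sub, Real.exp_log hr, Real.exp_log ht]

theorem kap_le (hk : kap ≤ π / 4) :
    kap ≤ √(t / r) * (√2 / 2) * (1 - Real.cos kap + Real.sin kap) := by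
  have hr := h.r0
  have ht := h.t_pos
  have hs := h.skap
  have hW0 : 0 ≤ 1 - Real.cos kap + Real.sin kap := by
    have := Real.cos_le_one kap; linarith
  set v := √(t / r) with hv
  have hv0 : 0 ≤ v := Real.sqrt_nonneg _
  have hv2 : v ^ 2 = t / r := Real.sq_sqrt (by positivity)
  have hv3 : v ^ 2 * Real.sin kap = Real.cos (psi - kap) := by
    rw [hv2]
    have := h.tsin
    field_simp
    linarith
  have h2 : (√2 / 2 : ℝ) ^ 2 = 1 / 2 := by
    rw [div_pow, Real.sq_sqrt (by norm_num)]; norm_num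
  have key : kap ^ 2 ≤ (v * (√2 / 2) * (1 - Real.cos kap + Real.sin kap)) ^ 2 := by
    rw [mul_pow, mul_pow, h2]
    set W := 1 - Real.cos kap + Real.sin kap with hWd
    have hk0 := h.k0
    rcases h.c_cases with hc | hc
    · have h3 := numA1 hk0.le hk
      rw [← hv3, Real.sin_two_mul] at hc
      have h4 : 2 * Real.cos kap ≤ v ^ 2 := by
        by_contra hcon
        push Not at hcon
        nlinarith
      rw [← hWd] at h3
      nlinarith [mul_le_mul_of_nonneg_right h4 (sq_nonneg W)]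
    · have h3 := numA2 hk0.le hk
      rw [← hWd] at h3
      rw [← hv3] at hc
      have h4 : 2 * kap ^ 2 * Real.sin kap ≤ v ^ 2 * W ^ 2 * Real.sin kap := by
        nlinarith [mul_le_mul_of_nonneg_right hc (sq_nonneg W)]
      have h5 : 2 * kap ^ 2 ≤ v ^ 2 * W ^ 2 := le_of_mul_le_mul_right h4 hs
      linarith
  exact le_of_sq_le_sq key (by positivity)

theorem a_pos {l : ℝ} : 0 < (r / t) ^ (l / 2) := Real.rpow_pos_of_pos (div_pos h.r0 h.t_pos) _

theorem apow {l : ℝ} : r ^ l = (r / t) ^ (l / 2) * (r * t) ^ (l / 2) := by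
  have hr := h.r0
  have ht := h.t_pos
  rw [← Real.mul_rpow (div_pos hr ht).le (mul_pos hr ht).le,
    show r / t * (r * t) = r ^ (2:ℕ) by field_simp, ← Real.rpow_natCast, ← Real.rpow_mul hr.le]
  congr 1; push_cast; ring

/-- case `kap ≤ π/4`, `s ≤ kap` -/
theorem caseA {l P s : ℝ} (hl0 : 0 < l) (hl1 : l ≤ 1) (hk : kap ≤ π / 4) (hs0 : 0 ≤ s)
    (hs : s ≤ kap) (hP0 : 0 ≤ P) (hP : P ≤ t ^ l - 1) :
    0 ≤ r ^ l * Real.sin (l * (π / 4 + psi)) - P * Real.sin (l * (π / 4 - kap)) +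
      (r / t) ^ (l / 2) * (t ^ l * Real.sin (l * (psi / 2)) - Real.sin (l * (psi / 2 + kap - s)) +
        P * Real.sin (l * (psi / 2 + kap))) := by
  have hr := h.r0
  have ht := h.t_pos
  have hpi := Real.pi_pos
  have hp0 := h.psi_pos
  have hp1 := h.psi_lt
  have hpk := h.p1
  have hk0 := h.k0
  have h1 := h.coreM hl0 hl1 hk
  have h2 := h.a_le hl0 hl1
  have h3 := h.kap_le hk
  set a := (r / t) ^ (l / 2) with ha
  have ha0 : 0 < a := h.a_pos
  have hW0 : 0 ≤ 1 - Real.cos kap + Real.sin kap := by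
    have := Real.cos_le_one kap; have := h.skap; linarith
  have h4 : a * kap ≤ (r ^ l / r) * t * ((√2 / 2) * (1 - Real.cos kap + Real.sin kap)) := by
    calc a * kap ≤ a * (√(t / r) * (√2 / 2) * (1 - Real.cos kap + Real.sin kap)) :=
          mul_le_mul_of_nonneg_left h3 ha0.le
      _ = (a * √(t / r)) * ((√2 / 2) * (1 - Real.cos kap + Real.sin kap)) := by ring
      _ ≤ _ := mul_le_mul_of_nonneg_right h2 (by positivity)
  have h5 : l * (a * kap) ≤
      r ^ l * Real.sin (l * (π / 4 + psi)) - (t ^ l - 1) * Real.sin (l * (π / 4 - kap)) := by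
    have := mul_le_mul_of_nonneg_left h4 hl0.le
    linarith
  have hs1 : 0 ≤ Real.sin (l * (π / 4 - kap)) :=
    Real.sin_nonneg_of_nonneg_of_le_pi (by nlinarith) (by nlinarith)
  have h6 : P * Real.sin (l * (π / 4 - kap)) ≤ (t ^ l - 1) * Real.sin (l * (π / 4 - kap)) :=
    mul_le_mul_of_nonneg_right hP hs1
  have hs2 : 0 ≤ Real.sin (l * (psi / 2 + kap)) :=
    Real.sin_nonneg_of_nonneg_of_le_pi (by positivity) (by nlinarith)
  have hs3 : 0 ≤ Real.sin (l * (psi / 2)) :=
    Real.sin_nonneg_of_nonneg_of_le_pi (by positivity) (by nlinarith)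
  have h7 : Real.sin (l * (psi / 2 + kap - s)) - Real.sin (l * (psi / 2)) ≤
      l * (psi / 2 + kap - s) - l * (psi / 2) := sin_sub_sin_le (by nlinarith)
  have hT : 1 ≤ t ^ l := Real.one_le_rpow h.t_ge hl0.le
  have h8 : Real.sin (l * (psi / 2)) ≤ t ^ l * Real.sin (l * (psi / 2)) := by nlinarith
  have h9 : a * (-(l * kap)) ≤ a * (t ^ l * Real.sin (l * (psi / 2)) -
      Real.sin (l * (psi / 2 + kap - s)) + P * Real.sin (l * (psi / 2 + kap))) := by
    apply mul_le_mul_of_nonneg_left _ ha0.le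
    have : 0 ≤ P * Real.sin (l * (psi / 2 + kap)) := mul_nonneg hP0 hs2
    nlinarith
  nlinarith

/-- case `kap ≤ π/4`, `kap ≤ s` -/
theorem caseB {l P s : ℝ} (hl0 : 0 < l) (hl1 : l ≤ 1) (hk : kap ≤ π / 4) (hs1 : s ≤ π / 3)
    (hs : kap ≤ s) (hs2 : s ≤ 2 * kap) (hP0 : 0 ≤ P)
    (hP : P ≤ t ^ l - 1 + t ^ l * Real.tan (l * (s / 2)) * Real.sin (l * (s - kap))) :
    0 ≤ r ^ l * Real.sin (l * (π / 4 + psi)) - P * Real.sin (l * (π / 4 - kap)) +
      (r / t) ^ (l / 2) * (t ^ l * Real.sin (l * (psi / 2)) - Real.sin (l * (psi / 2 + kap - s)) +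
        P * Real.sin (l * (psi / 2 + kap))) := by
  have hr := h.r0
  have ht := h.t_pos
  have hpi := Real.pi_pos
  have hp0 := h.psi_pos
  have hp1 := h.psi_lt
  have hpk := h.p1
  have hk0 := h.k0
  have h1 := h.coreM hl0 hl1 hk
  have hW0 : 0 ≤ 1 - Real.cos kap + Real.sin kap := by
    have := Real.cos_le_one kap; have := h.skap; linarith
  set a := (r / t) ^ (l / 2) with ha
  have ha0 : 0 < a := h.a_pos
  have h1' : 0 ≤ l * (r ^ l / r) * (√2 / 2) * t * (1 - Real.cos kap + Real.sin kap) := by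
    positivity
  have hs0 : 0 ≤ s := by linarith
  set x := s - kap with hx
  have hx0 : 0 ≤ x := by linarith
  have hxk : x ≤ kap := by linarith
  set S := Real.sin (l * (π / 4 - kap)) with hS
  have hS0 : 0 ≤ S := Real.sin_nonneg_of_nonneg_of_le_pi (by nlinarith) (by nlinarith)
  have hS1 : S ≤ Real.sin (π / 4 - kap) :=
    Real.sin_le_sin_of_le_of_le_pi_div_two (by nlinarith) (by linarith) (by nlinarith)
  have h6 := mul_le_mul_of_nonneg_right hP hS0
  have hs2' : 0 ≤ Real.sin (l * (psi / 2 + kap)) :=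
    Real.sin_nonneg_of_nonneg_of_le_pi (by positivity) (by nlinarith)
  have hs3 : 0 ≤ Real.sin (l * (psi / 2)) :=
    Real.sin_nonneg_of_nonneg_of_le_pi (by positivity) (by nlinarith)
  have hT : 1 ≤ t ^ l := Real.one_le_rpow h.t_ge hl0.le
  have h8 : Real.sin (l * (psi / 2)) ≤ t ^ l * Real.sin (l * (psi / 2)) := by nlinarith
  have e1 : Real.sin (l * (psi / 2)) - Real.sin (l * (psi / 2 + kap - s)) =
      2 * Real.sin (l * x / 2) * Real.cos (l * (psi - x) / 2) := by
    rw [Real.sin_sub_sin]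
    congr 1
    · congr 2; rw [hx]; ring
    · congr 1; rw [hx]; ring
  have e2 : Real.sin (l * x) = 2 * Real.sin (l * x / 2) * Real.cos (l * x / 2) := by
    rw [← Real.sin_two_mul]; ring_nf
  have hsx : 0 ≤ Real.sin (l * x / 2) :=
    Real.sin_nonneg_of_nonneg_of_le_pi (by positivity) (by nlinarith)
  have hlx : l * x ≤ x := by nlinarith
  have hcx : 0 ≤ Real.cos (l * x / 2) :=
    Real.cos_nonneg_of_mem_Icc ⟨by nlinarith, by nlinarith⟩
  have hcx1 := Real.cos_le_one (l * x / 2)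
  have hcp : √2 / 2 ≤ Real.cos (l * (psi - x) / 2) := by
    rw [← Real.cos_pi_div_four, ← Real.cos_abs (l * (psi - x) / 2)]
    apply Real.cos_le_cos_of_nonneg_of_le_pi (abs_nonneg _) (by linarith)
    rw [abs_le]
    constructor
    · nlinarith
    · nlinarith
  -- the tangent
  have htan0 : 0 ≤ Real.tan (l * (s / 2)) :=
    Real.tan_nonneg_of_nonneg_of_le_pi_div_two (by positivity) (by nlinarith)
  have htan1 : Real.tan (l * (s / 2)) ≤ Real.tan kap := by
    rcases eq_or_lt_of_le (show l * (s / 2) ≤ kap by nlinarith) with he | hlt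
    · rw [he]
    · exact (Real.tan_lt_tan_of_nonneg_of_lt_pi_div_two (by positivity) (by linarith) hlt).le
  have hck := h.ckap
  have hsk := h.skap
  have htk : Real.tan kap = Real.sin kap / Real.cos kap := Real.tan_eq_sin_div_cos kap
  -- `T * v ≤ a * ...`
  have hTa : t ^ l ≤ a * √(t ^ 3 / r) := by
    have hlt : 0 ≤ Real.log t := Real.log_nonneg h.t_ge
    have hlr : Real.log r ≤ 0 := Real.log_nonpos hr.le h.r1
    rw [ha, Real.sqrt_eq_rpow, Real.rpow_def_of_pos (div_pos hr ht),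
      Real.rpow_def_of_pos (div_pos (pow_pos ht 3) hr), Real.rpow_def_of_pos ht, ← Real.exp_add,
      Real.log_div hr.ne' ht.ne', Real.log_div (pow_pos ht 3).ne' hr.ne', Real.log_pow]
    apply Real.exp_le_exp.mpr
    push_cast
    nlinarith
  set v := √(t ^ 3 / r) with hv
  have hv0 : 0 ≤ v := Real.sqrt_nonneg _
  have hv2 : v ^ 2 = t ^ 3 / r := Real.sq_sqrt (by positivity)
  have hv3 : v ^ 2 * Real.sin kap ≤ (2 * Real.cos kap) ^ 2 := by
    have e3 : v ^ 2 * Real.sin kap = t ^ 2 * Real.cos (psi - kap) := by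
      rw [hv2]
      have := h.tsin
      field_simp
      linarith
    rw [e3]
    have := Real.cos_le_one (psi - kap)
    have h10 : t ^ 2 ≤ (2 * Real.cos kap) ^ 2 := pow_le_pow_left₀ ht.le h.t_le 2
    have := h.cpk
    nlinarith [sq_nonneg t]
  have hc7 : 7 / 10 ≤ Real.cos kap := by
    have h11 : Real.cos (π / 4) ≤ Real.cos kap :=
      Real.cos_le_cos_of_nonneg_of_le_pi hk0.le (by linarith) hk
    rw [Real.cos_pi_div_four] at h11
    have : (1.4 : ℝ) ≤ √2 := Real.le_sqrt_of_sq_le (by norm_num)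
    linarith
  have hpure : v * Real.tan kap * Real.sin (π / 4 - kap) ≤ √2 / 2 := by
    have hss : 0 ≤ Real.sin (π / 4 - kap) :=
      Real.sin_nonneg_of_nonneg_of_le_pi (by linarith) (by linarith)
    apply le_of_sq_le_sq _ (by positivity)
    have h2 : (√2 / 2 : ℝ) ^ 2 = 1 / 2 := by
      rw [div_pow, Real.sq_sqrt (by norm_num)]; norm_num
    have h12 : Real.sin (π / 4 - kap) = √2 / 2 * (Real.cos kap - Real.sin kap) := by
      rw [Real.sin_sub, Real.sin_pi_div_four, Real.cos_pi_div_four]; ring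
    rw [mul_pow, mul_pow, h12, mul_pow, h2, htk, div_pow]
    have hsc := Real.sin_sq_add_cos_sq kap
    have h13 : (Real.cos kap - Real.sin kap) ^ 2 = 1 - 2 * Real.sin kap * Real.cos kap := by
      nlinarith
    rw [h13]
    have h15 : 0 ≤ 1 - 2 * Real.sin kap * Real.cos kap := by rw [← h13]; positivity
    have h14 : v ^ 2 * Real.sin kap ^ 2 ≤ 4 * Real.cos kap ^ 2 * Real.sin kap := by
      nlinarith
    have h16 : 4 * Real.sin kap * (1 - 2 * Real.sin kap * Real.cos kap) ≤ 1 := by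
      nlinarith [sq_nonneg (14 / 5 * Real.sin kap - 1), mul_pos hsk hsk]
    have hc0 : 0 < Real.cos kap ^ 2 := by positivity
    calc v ^ 2 * (Real.sin kap ^ 2 / Real.cos kap ^ 2) *
          (1 / 2 * (1 - 2 * Real.sin kap * Real.cos kap))
        = (v ^ 2 * Real.sin kap ^ 2) / Real.cos kap ^ 2 *
          (1 / 2 * (1 - 2 * Real.sin kap * Real.cos kap)) := by ring
      _ ≤ (4 * Real.cos kap ^ 2 * Real.sin kap) / Real.cos kap ^ 2 *
          (1 / 2 * (1 - 2 * Real.sin kap * Real.cos kap)) := by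
          apply mul_le_mul_of_nonneg_right _ (by positivity)
          exact div_le_div_of_nonneg_right h14 hc0.le
      _ = 1 / 2 * (4 * Real.sin kap * (1 - 2 * Real.sin kap * Real.cos kap)) := by
          field_simp
      _ ≤ 1 / 2 := by linarith
  -- main comparison
  have hmain : t ^ l * Real.tan (l * (s / 2)) * Real.sin (l * x) * S ≤
      a * (2 * Real.sin (l * x / 2) * Real.cos (l * (psi - x) / 2)) := by
    rw [e2]
    have hsk4 : 0 ≤ Real.sin (π / 4 - kap) :=
      Real.sin_nonneg_of_nonneg_of_le_pi (by linarith) (by linarith)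
    have htk0 : 0 ≤ Real.tan kap := htan0.trans htan1
    have h20 : t ^ l * Real.tan (l * (s / 2)) * S ≤ a * v * Real.tan kap * Real.sin (π / 4 - kap) := by
      apply mul_le_mul _ hS1 hS0 (by positivity)
      exact mul_le_mul hTa htan1 htan0 (by positivity)
    have h21 : a * v * Real.tan kap * Real.sin (π / 4 - kap) ≤ a * (√2 / 2) := by
      have := mul_le_mul_of_nonneg_left hpure ha0.le
      linarith
    have h22 : t ^ l * Real.tan (l * (s / 2)) * S ≤ a * Real.cos (l * (psi - x) / 2) := by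
      have := mul_le_mul_of_nonneg_left hcp ha0.le
      linarith
    have h23 : 0 ≤ t ^ l * Real.tan (l * (s / 2)) * S := by positivity
    calc t ^ l * Real.tan (l * (s / 2)) * (2 * Real.sin (l * x / 2) * Real.cos (l * x / 2)) * S
        = (t ^ l * Real.tan (l * (s / 2)) * S) * (2 * Real.sin (l * x / 2)) *
          Real.cos (l * x / 2) := by ring
      _ ≤ (t ^ l * Real.tan (l * (s / 2)) * S) * (2 * Real.sin (l * x / 2)) * 1 :=
          mul_le_mul_of_nonneg_left hcx1 (by positivity)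
      _ ≤ (a * Real.cos (l * (psi - x) / 2)) * (2 * Real.sin (l * x / 2)) * 1 := by
          rw [mul_one, mul_one]
          exact mul_le_mul_of_nonneg_right h22 (by positivity)
      _ = _ := by ring
  have h30 : 0 ≤ a * (P * Real.sin (l * (psi / 2 + kap))) := by positivity
  have h31 : a * (2 * Real.sin (l * x / 2) * Real.cos (l * (psi - x) / 2)) ≤
      a * (t ^ l * Real.sin (l * (psi / 2)) - Real.sin (l * (psi / 2 + kap - s))) := by
    apply mul_le_mul_of_nonneg_left _ ha0.le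
    rw [← e1]; linarith
  have h32 : (t ^ l - 1 + t ^ l * Real.tan (l * (s / 2)) * Real.sin (l * x)) * S =
      (t ^ l - 1) * S + t ^ l * Real.tan (l * (s / 2)) * Real.sin (l * x) * S := by ring
  rw [h32] at h6
  nlinarith

/-- case `π/4 ≤ kap` -/
theorem caseC {l P s : ℝ} (hl0 : 0 < l) (hl1 : l ≤ 1) (hk : π / 4 ≤ kap) (hs0 : 0 ≤ s)
    (hs1 : s ≤ π / 3) (hP0 : 0 ≤ P) :
    0 ≤ r ^ l * Real.sin (l * (π / 4 + psi)) - P * Real.sin (l * (π / 4 - kap)) +
      (r / t) ^ (l / 2) * (t ^ l * Real.sin (l * (psi / 2)) - Real.sin (l * (psi / 2 + kap - s)) +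
        P * Real.sin (l * (psi / 2 + kap))) := by
  have hr := h.r0
  have ht := h.t_pos
  have hpi := Real.pi_pos
  have hpi2 := Real.pi_gt_d4
  have hp0 := h.psi_pos
  have hp1 := h.psi_lt
  have hpk := h.p1
  have hpk0 := h.p0
  have hk0 := h.k0
  have hk1 := h.k1
  have hap := h.apow (l := l)
  set a := (r / t) ^ (l / 2) with ha
  have ha0 : 0 < a := h.a_pos
  have hs2' : 0 ≤ Real.sin (l * (psi / 2 + kap)) :=
    Real.sin_nonneg_of_nonneg_of_le_pi (by positivity) (by nlinarith)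
  have hs3 : 0 ≤ Real.sin (l * (psi / 2)) :=
    Real.sin_nonneg_of_nonneg_of_le_pi (by positivity) (by nlinarith)
  have hT : 1 ≤ t ^ l := Real.one_le_rpow h.t_ge hl0.le
  have h8 : Real.sin (l * (psi / 2)) ≤ t ^ l * Real.sin (l * (psi / 2)) := by nlinarith
  have hneg : Real.sin (l * (π / 4 - kap)) ≤ 0 :=
    Real.sin_nonpos_of_nonpos_of_neg_pi_le (by nlinarith) (by nlinarith)
  set S := Real.sin (l * (π / 4 + psi)) with hS
  have hS0 : 0 ≤ S := Real.sin_nonneg_of_nonneg_of_le_pi (by positivity) (by nlinarith)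
  have hS1 : S ≤ 1 := Real.sin_le_one _
  have hcmp : Real.sin (l * (psi / 2 + kap - s)) ≤ S := by
    apply Real.sin_le_sin_of_le_of_le_pi_div_two
    · nlinarith
    · nlinarith
    · apply mul_le_mul_of_nonneg_left _ hl0.le
      linarith
  -- rt ≥ 2 sin (kap/2)
  have hrt : 0.765 ≤ r * t := by
    have hc2 : 0 < Real.cos (kap / 2) := Real.cos_pos_of_mem_Ioo ⟨by linarith, by linarith⟩
    have h1 : Real.cos (kap / 2) ≤ Real.cos (psi - kap) := by
      rw [← Real.cos_neg (psi - kap)]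
      exact Real.cos_le_cos_of_nonneg_of_le_pi (by linarith) (by linarith) (by linarith)
    have h2 : Real.cos psi ≤ Real.cos (kap / 2) :=
      Real.cos_le_cos_of_nonneg_of_le_pi (by linarith) (by linarith) (by linarith)
    have h3 : r * t * Real.cos psi ^ 2 = Real.sin kap * Real.cos (psi - kap) := by
      have e1 := h.rc
      have e2 := h.tcos
      rw [← e1, ← e2]; ring
    have h4 : Real.sin kap = 2 * Real.sin (kap / 2) * Real.cos (kap / 2) := by
      rw [← Real.sin_two_mul]; ring_nf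
    have h5 : 0.3825 ≤ Real.sin (kap / 2) := by
      have h6 : Real.sin 0.3926 ≤ Real.sin (kap / 2) :=
        Real.sin_le_sin_of_le_of_le_pi_div_two (by linarith) (by linarith) (by linarith)
      have h7 := EQS.sin_ge3 (x := 0.3926) (by norm_num)
      norm_num at h7 ⊢
      norm_num at h6
      linarith
    have h8 : 2 * Real.sin (kap / 2) * Real.cos (kap / 2) ^ 2 ≤ r * t * Real.cos (kap / 2) ^ 2 := by
      calc 2 * Real.sin (kap / 2) * Real.cos (kap / 2) ^ 2 = Real.sin kap * Real.cos (kap / 2) := by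
            rw [h4]; ring
        _ ≤ Real.sin kap * Real.cos (psi - kap) := mul_le_mul_of_nonneg_left h1 h.skap.le
        _ = r * t * Real.cos psi ^ 2 := h3.symm
        _ ≤ r * t * Real.cos (kap / 2) ^ 2 := by
            apply mul_le_mul_of_nonneg_left _ (by positivity)
            exact pow_le_pow_left₀ h.cpsi.le h2 2
    have h9 : 2 * Real.sin (kap / 2) ≤ r * t := le_of_mul_le_mul_right h8 (by positivity)
    linarith
  have hpow : 1 - l / 2 * (1 / 0.765 - 1) ≤ (r * t) ^ (l / 2) := by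
    have h1 : (0.765 : ℝ) ^ (l / 2) ≤ (r * t) ^ (l / 2) :=
      Real.rpow_le_rpow (by norm_num) hrt (by positivity)
    have h2 : 1 - l / 2 * (1 / 0.765 - 1) ≤ (0.765 : ℝ) ^ (l / 2) := by
      rw [Real.rpow_def_of_pos (by norm_num)]
      have h3 := Real.add_one_le_exp (Real.log 0.765 * (l / 2))
      have h4 := Real.one_sub_inv_le_log_of_pos (show (0:ℝ) < 0.765 by norm_num)
      have h5 : (1 - (0.765 : ℝ)⁻¹) * (l / 2) ≤ Real.log 0.765 * (l / 2) :=
        mul_le_mul_of_nonneg_right h4 (by positivity)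
      rw [one_div]
      linarith
    linarith
  have hsp : l * 0.19 ≤ Real.sin (l * (psi / 2)) := by
    have h1 : l * Real.sin (psi / 2) ≤ Real.sin (l * (psi / 2)) :=
      mul_sin_le hl0.le hl1 (by linarith) (by linarith)
    have h2 : 0.19 ≤ Real.sin (psi / 2) := by
      have h6 : Real.sin 0.196 ≤ Real.sin (psi / 2) :=
        Real.sin_le_sin_of_le_of_le_pi_div_two (by linarith) (by linarith) (by linarith)
      have h7 := EQS.sin_ge3 (x := 0.196) (by norm_num)
      norm_num at h7 ⊢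
      norm_num at h6
      linarith
    nlinarith
  have hbr : 0 ≤ (r * t) ^ (l / 2) * S + (t ^ l * Real.sin (l * (psi / 2)) -
      Real.sin (l * (psi / 2 + kap - s)) + P * Real.sin (l * (psi / 2 + kap))) := by
    have h1 : (1 - l / 2 * (1 / 0.765 - 1)) * S ≤ (r * t) ^ (l / 2) * S :=
      mul_le_mul_of_nonneg_right hpow hS0
    have h2 : 0 ≤ P * Real.sin (l * (psi / 2 + kap)) := by positivity
    have h3 : l / 2 * (1 / 0.765 - 1) * S ≤ l * 0.16 := by
      have : l / 2 * (1 / 0.765 - 1) ≤ l * 0.16 := by norm_num; linarith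
      have h5 : l / 2 * (1 / 0.765 - 1) * S ≤ l / 2 * (1 / 0.765 - 1) * 1 := by
        apply mul_le_mul_of_nonneg_left hS1
        norm_num; linarith
      linarith
    linarith
  have hfin : 0 ≤ a * ((r * t) ^ (l / 2) * S + (t ^ l * Real.sin (l * (psi / 2)) -
      Real.sin (l * (psi / 2 + kap - s)) + P * Real.sin (l * (psi / 2 + kap)))) :=
    mul_nonneg ha0.le hbr
  rw [hap]
  nlinarith [mul_nonneg hP0 (neg_nonneg.mpr hneg)]

/-- **(3)** of case N: `Φ ≥ π/4` in analytic form. -/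
theorem phi_quarter {l P s : ℝ} (hl0 : 0 < l) (hl1 : l ≤ 1) (hs0 : 0 ≤ s) (hs1 : s ≤ π / 3)
    (hs2 : s ≤ 2 * kap) (hP0 : 0 ≤ P) (hPa : s ≤ kap → P ≤ t ^ l - 1)
    (hPb : kap ≤ s →
      P ≤ t ^ l - 1 + t ^ l * Real.tan (l * (s / 2)) * Real.sin (l * (s - kap))) :
    0 ≤ r ^ l * Real.sin (l * (π / 4 + psi)) - P * Real.sin (l * (π / 4 - kap)) +
      (r / t) ^ (l / 2) * (t ^ l * Real.sin (l * (psi / 2)) - Real.sin (l * (psi / 2 + kap - s)) +
        P * Real.sin (l * (psi / 2 + kap))) := by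
  rcases le_total (π / 4) kap with hk | hk
  · exact h.caseC hl0 hl1 hk hs0 hs1 hP0
  · rcases le_total s kap with hs | hs
    · exact h.caseA hl0 hl1 hk hs0 hs hP0 (hPa hs)
    · exact h.caseB hl0 hl1 hk hs1 hs hs2 hP0 (hPb hs)

end Tri

end EQN
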