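import Mathlib
import Pool.Agent.Lib.MP_226de1_co.E.LowerL

/-! Exact relations of one backward step and the inequality (F3) `A_1 ≥ A_2 - A_1` for
`k (A_2 - A_1) ≥ π / 2` at a `W1` exit.

Notation: `al = - Im X1`, `th = Im X1 - Im X2` (`sigma = k th`), `kp = Im (X2 - d1)`
(`k kp = arg p_{-2}`), `D = |D_{-1}| = exp (Re d1)`, `R = |xi_{-1}|`, `R2 = |xi_{-2}|`,
`q_{-1} = - a + i y`, `arg D_{-1} = Im d1 = -(al + th + kp)`. -/

set_option autoImplicit false

namespace EQS

open Complex

variable {k C : ℝ} {q0 q1 q2 q3 d0 d1 d2 X1 X2 X3 : ℂ}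

/-- the step in polar form, real part:
`R2² cos (al + th - kp) = R² cos (al - kp - th) + 2 a D + D² cos (Im d1)` -/
theorem St.E1 (h : St k C q0 q1 q2 q3 d0 d1 d2 X1 X2 X3) :
    Real.exp X2.re ^ 2 * Real.cos (-X2.im - (X2 - d1).im) =
      Real.exp X1.re ^ 2 * Real.cos (-X1.im - (X1 - d1).im) +
        (2 * (-q1.re) * Real.exp d1.re + Real.exp d1.re ^ 2 * Real.cos d1.im) := by
  have h1 := h.F1_re
  have e1 : Real.exp X2.re ^ 2 = Real.exp (2 * (X2 - X1).re) * Real.exp X1.re ^ 2 := by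
    rw [← Real.exp_nat_mul, ← Real.exp_nat_mul, ← Real.exp_add]
    congr 1
    simp only [sub_re]
    push_cast
    ring
  have e2 : Real.exp (d1 - 2 * X1).re * Real.exp X1.re ^ 2 = Real.exp d1.re := by
    rw [← Real.exp_nat_mul, ← Real.exp_add]
    congr 1
    simp
  have e3 : Real.exp (2 * (d1 - X1)).re * Real.exp X1.re ^ 2 = Real.exp d1.re ^ 2 := by
    rw [← Real.exp_nat_mul, ← Real.exp_nat_mul, ← Real.exp_add]
    congr 1
    simp
    ring
  rw [e1]
  linear_combination (Real.exp X1.re ^ 2) * h1 + (2 * (-q1.re)) * e2 + Real.cos d1.im * e3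

/-- the step in polar form, imaginary part:
`R2² sin (al + th - kp) = R² sin (al - kp - th) + 2 y D - D² sin (Im d1)` -/
theorem St.E2 (h : St k C q0 q1 q2 q3 d0 d1 d2 X1 X2 X3) :
    Real.exp X2.re ^ 2 * Real.sin (-X2.im - (X2 - d1).im) =
      Real.exp X1.re ^ 2 * Real.sin (-X1.im - (X1 - d1).im) +
        (2 * q1.im * Real.exp d1.re - Real.exp d1.re ^ 2 * Real.sin d1.im) := by
  have hq : q2 = q1 - exp d1 := by rw [h.s1]; ring
  have h1 : exp (2 * X2) = exp (2 * X1) - 2 * q1 * exp d1 + exp (2 * d1) := by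
    have e : exp (2 * d1) = exp d1 ^ 2 := by
      rw [← Complex.exp_nat_mul]
      congr 1
    rw [h.x2, h.x1, hq, e]
    ring
  set a' : ℝ := d1.im with ha'
  have h2 := congrArg (fun z => (z * exp (-(a' : ℂ) * I)).im) h1
  have hi : ∀ z : ℂ, (exp z * exp (-(a' : ℂ) * I)).im = Real.exp z.re * Real.sin (z.im - a') := by
    intro z
    rw [← exp_add, exp_im]
    congr 2
    · simp
    · simp
      ring
  simp only [add_mul, sub_mul, add_im, sub_im] at h2
  rw [hi, hi, hi] at h2
  have h4 : (2 * q1 * exp d1 * exp (-(a' : ℂ) * I)).im =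
      2 * q1.im * Real.exp d1.re := by
    have e5 : exp d1 * exp (-(a' : ℂ) * I) = ((Real.exp d1.re : ℝ) : ℂ) := by
      rw [← exp_add, ofReal_exp]
      congr 1
      apply Complex.ext
      · simp
      · simp [ha']
    rw [mul_assoc, e5, im_mul_ofReal]
    simp
  rw [h4] at h2
  have r : ∀ z : ℂ, Real.exp (2 * z).re = Real.exp z.re ^ 2 := by
    intro z
    rw [← Real.exp_nat_mul]
    congr 1
    simp
  rw [r, r, r] at h2
  have t2 : (2 * X2).im - a' = -(-X2.im - (X2 - d1).im) := by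
    simp [ha']
    ring
  have t3 : (2 * X1).im - a' = -(-X1.im - (X1 - d1).im) := by
    simp [ha']
    ring
  have t4 : (2 * d1).im - a' = d1.im := by
    simp [ha']
    ring
  rw [t2, t3, t4, Real.sin_neg, Real.sin_neg] at h2
  linear_combination -h2

/-- (E3): `R² sin 2th = 2 y D cos (al + th - kp) + D² sin 2kp - 2 a D sin (al + th - kp)` -/
theorem St.E3 (h : St k C q0 q1 q2 q3 d0 d1 d2 X1 X2 X3) :
    Real.exp X1.re ^ 2 * Real.sin (2 * (X1.im - X2.im)) =
      2 * q1.im * Real.exp d1.re * Real.cos (-X2.im - (X2 - d1).im) +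
        Real.exp d1.re ^ 2 * Real.sin (2 * (X2 - d1).im) -
        2 * (-q1.re) * Real.exp d1.re * Real.sin (-X2.im - (X2 - d1).im) := by
  have h1 := h.E1
  have h2 := h.E2
  have e1 : Real.sin (2 * (X1.im - X2.im)) =
      Real.sin (-X2.im - (X2 - d1).im) * Real.cos (-X1.im - (X1 - d1).im) -
        Real.cos (-X2.im - (X2 - d1).im) * Real.sin (-X1.im - (X1 - d1).im) := by
    rw [← Real.sin_sub]
    congr 1
    simp only [sub_im]
    ring
  have e2 : Real.sin (2 * (X2 - d1).im) =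
      -(Real.sin (-X2.im - (X2 - d1).im) * Real.cos d1.im +
        Real.cos (-X2.im - (X2 - d1).im) * Real.sin d1.im) := by
    rw [← Real.sin_add, ← Real.sin_neg]
    congr 1
    simp only [sub_im]
    ring
  rw [e1, e2]
  linear_combination Real.cos (-X2.im - (X2 - d1).im) * h2 -
    Real.sin (-X2.im - (X2 - d1).im) * h1

/-- `R² sin (2 al) = 2 a y` -/
theorem St.ay (h : St k C q0 q1 q2 q3 d0 d1 d2 X1 X2 X3) :
    Real.exp X1.re ^ 2 * Real.sin (-(2 * X1.im)) = 2 * (-q1.re) * q1.im := by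
  obtain ⟨_, h2⟩ := quad_polar h.x1
  rw [Real.sin_neg]
  linear_combination h2

/-- `|D_{-1}| cos (Im d0) ≤ a` at a `W1` exit -/
theorem St.D_le (h : St k C q0 q1 q2 q3 d0 d1 d2 X1 X2 X3)
    (he : |k * (X1 - d0).im| = Real.pi / 2) : Real.exp d1.re * Real.cos d0.im ≤ -q1.re := by
  have h1 := h.exit_len he
  have h2 := h.D0_le
  have hc := cos_pos_of_re h.D0
  rw [exp_re] at h2
  refine le_trans ?_ h2
  exact mul_le_mul_of_nonneg_right (Real.exp_le_exp.2 h1) hc.le

/-- the real part of `f_{-1}` is `1`: the lifted argument has positive cosine -/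
theorem St.cos_tau (h : St k C q0 q1 q2 q3 d0 d1 d2 X1 X2 X3)
    (he : |k * (X1 - d0).im| = Real.pi / 2) : 0 < Real.cos (k * (X1 - d1).im) := by
  have h1 : (pv k C X1 d1).re = 1 := by
    rw [h.f1_eq, sub_re, one_re, pv_re_zero he, sub_zero]
  rw [pv_re] at h1
  by_contra hcon
  push Not at hcon
  have := div_pos (Real.exp_pos (k * (X1 - d1).re)) h.C0
  nlinarith

/-- `sigma - arg p_{-2} ≥ π/2` when `sigma ≥ π/2` -/
theorem St.tau_gap (h : St k C q0 q1 q2 q3 d0 d1 d2 X1 X2 X3)
    (he : |k * (X1 - d0).im| = Real.pi / 2) (hs : Real.pi / 2 ≤ k * (X1.im - X2.im)) :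
    Real.pi / 2 ≤ k * (X1.im - X2.im) - k * (X2 - d1).im := by
  have hpi := Real.pi_pos
  rcases le_or_gt (k * (X2 - d1).im) 0 with h0 | h0
  · linarith
  have h1 := h.cos_tau he
  have h2 := abs_lt.1 h.p2
  have e : k * (X1 - d1).im = k * (X1.im - X2.im) + k * (X2 - d1).im := by
    simp only [sub_im]
    ring
  rw [e] at h1
  have h3 : 3 * Real.pi / 2 < k * (X1.im - X2.im) + k * (X2 - d1).im := by
    by_contra hcon
    push Not at hcon
    have := Real.cos_nonpos_of_pi_div_two_le_of_le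
      (x := k * (X1.im - X2.im) + k * (X2 - d1).im) (by linarith) (by linarith)
    linarith
  linarith

/-- `|Im d0| ≤ al + π / (2 k)` -/
theorem St.d0_im (h : St k C q0 q1 q2 q3 d0 d1 d2 X1 X2 X3)
    (he : |k * (X1 - d0).im| = Real.pi / 2) : |d0.im| ≤ -X1.im + Real.pi / (2 * k) := by
  have k0 := h.k0
  have hpi := Real.pi_pos
  have h1 : |(X1 - d0).im| = Real.pi / (2 * k) := by
    rw [abs_mul, abs_of_pos k0] at he
    field_simp
    linarith
  have e : d0.im = X1.im - (X1 - d0).im := by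
    simp only [sub_im]
    ring
  rw [e]
  have h2 := abs_sub X1.im (X1 - d0).im
  rw [h1, abs_of_neg h.a1.2] at h2
  exact h2

/-- (F3) `A_1 ≥ A_2 - A_1` for `sigma ≥ π/2`, all sheets -/
theorem St.F3 (h : St k C q0 q1 q2 q3 d0 d1 d2 X1 X2 X3) (hk : 4 ≤ k)
    (hA : -(Real.pi / 4) ≤ X1.im)
    (he : |k * (X1 - d0).im| = Real.pi / 2) (hs : Real.pi / 2 ≤ k * (X1.im - X2.im)) :
    X1.im - X2.im ≤ -X1.im := by
  have hpi := Real.pi_pos
  have k0 := h.k0
  have hgap := h.tau_gap he hs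
  have h3 := h.E3
  have hay := h.ay
  have hD := h.D_le he
  have hd0 := h.d0_im he
  obtain ⟨_, hlt⟩ := h.mv_lt hA
  have b2 := abs_lt.1 h.p2
  set δ := Real.pi / (2 * k) with hδ
  have hδk : k * δ = Real.pi / 2 := by rw [hδ]; field_simp
  have hδ0 : 0 < δ := by rw [hδ]; positivity
  have hδ8 : δ ≤ Real.pi / 8 := by
    rw [hδ]
    apply div_le_div_of_nonneg_left hpi.le (by norm_num) (by linarith)
  set kp := (X2 - d1).im with hkp
  set m := -X2.im - kp with hm
  set al := -X1.im with hal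
  set th := X1.im - X2.im with hth
  -- `th - kp ≥ δ`, `kp ≤ δ`
  have g1 : δ ≤ th - kp := by
    have : k * δ ≤ k * (th - kp) := by rw [hδk]; linarith
    exact le_of_mul_le_mul_left this k0
  have g2 : kp ≤ δ := by
    have : k * kp ≤ k * δ := by rw [hδk]; linarith
    exact le_of_mul_le_mul_left this k0
  have g3 : -δ ≤ kp := by
    have : k * (-δ) ≤ k * kp := by linarith
    exact le_of_mul_le_mul_left this k0
  have em : m = al + (th - kp) := by rw [hm, hal, hth]; ring
  have hal0 : 0 < al := by rw [hal]; linarith [h.a1.2]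
  have hal4 : al ≤ Real.pi / 4 := by rw [hal]; linarith
  have hm0 : al + δ ≤ m := by rw [em]; linarith
  have hmd : |d0.im| ≤ m := le_trans hd0 (by linarith)
  have hy := h.i1
  have ha := h.q1neg
  set D := Real.exp d1.re with hDdef
  have hDpos : 0 < D := Real.exp_pos _
  set R := Real.exp X1.re with hR
  have hRpos : 0 < R := Real.exp_pos _
  -- cos m ≤ cos (Im d0)
  have c1 : Real.cos m ≤ Real.cos d0.im := by
    rw [← Real.cos_abs d0.im]
    exact Real.cos_le_cos_of_nonneg_of_le_pi (abs_nonneg _) (by linarith) hmd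
  have c2 : Real.cos (al + δ) ≤ Real.cos d0.im := by
    rw [← Real.cos_abs d0.im]
    apply Real.cos_le_cos_of_nonneg_of_le_pi (abs_nonneg _) (by linarith) (le_trans hd0 le_rfl)
  have c3 : 0 < Real.cos (al + δ) :=
    Real.cos_pos_of_mem_Ioo ⟨by linarith, by linarith⟩
  have s1 : Real.sin (al + δ) ≤ Real.sin m :=
    Real.sin_le_sin_of_le_of_le_pi_div_two (by linarith) hlt.le hm0
  have s0 : 0 < Real.sin (al + δ) := Real.sin_pos_of_pos_of_lt_pi (by linarith) (by linarith)
  have hcm : 0 < Real.cos m := Real.cos_pos_of_mem_Ioo ⟨by linarith, hlt⟩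
  -- sin 2kp ≤ sin 2δ ≤ sin (2 (al + δ))
  have s2 : Real.sin (2 * kp) ≤ 2 * Real.sin (al + δ) * Real.cos (al + δ) := by
    rw [← Real.sin_two_mul]
    have e1 : Real.sin (2 * kp) ≤ Real.sin (2 * δ) :=
      Real.sin_le_sin_of_le_of_le_pi_div_two (by linarith) (by linarith) (by linarith)
    refine le_trans e1 ?_
    rcases le_or_gt (2 * (al + δ)) (Real.pi / 2) with h5 | h5
    · exact Real.sin_le_sin_of_le_of_le_pi_div_two (by linarith) h5 (by linarith)
    · rw [← Real.sin_pi_sub (2 * (al + δ))]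
      exact Real.sin_le_sin_of_le_of_le_pi_div_two (by linarith) (by linarith) (by linarith)
  -- the bracket
  have br : D * Real.sin (2 * kp) ≤ 2 * (-q1.re) * Real.sin m := by
    calc D * Real.sin (2 * kp) ≤ D * (2 * Real.sin (al + δ) * Real.cos (al + δ)) :=
          mul_le_mul_of_nonneg_left s2 hDpos.le
      _ = 2 * (D * Real.cos (al + δ)) * Real.sin (al + δ) := by ring
      _ ≤ 2 * (-q1.re) * Real.sin (al + δ) := by
          apply mul_le_mul_of_nonneg_right _ s0.le
          have : D * Real.cos (al + δ) ≤ D * Real.cos d0.im :=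
            mul_le_mul_of_nonneg_left c2 hDpos.le
          linarith
      _ ≤ 2 * (-q1.re) * Real.sin m := mul_le_mul_of_nonneg_left s1 (by linarith)
  have m1 : D * Real.cos m ≤ -q1.re := by
    have : D * Real.cos m ≤ D * Real.cos d0.im := mul_le_mul_of_nonneg_left c1 hDpos.le
    linarith
  have h4 : R ^ 2 * Real.sin (2 * th) ≤ R ^ 2 * Real.sin (2 * al) := by
    have e1 : R ^ 2 * Real.sin (2 * al) = 2 * (-q1.re) * q1.im := by
      rw [← hay, hal]
      congr 2
      ring
    rw [e1, h3]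
    nlinarith [mul_le_mul_of_nonneg_left br hDpos.le, mul_le_mul_of_nonneg_left m1 hy.le]
  have h5 : Real.sin (2 * th) ≤ Real.sin (2 * al) := le_of_mul_le_mul_left h4 (by positivity)
  by_contra hcon
  push Not at hcon
  have h6 : th < Real.pi / 2 - al := by
    rw [hth, hal]
    linarith [h.a2.1]
  have h7 : Real.sin (2 * al) < Real.sin (2 * th) := by
    rcases le_or_gt (2 * th) (Real.pi / 2) with h5 | h5
    · exact Real.sin_lt_sin_of_lt_of_le_pi_div_two (by linarith) h5 (by linarith)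
    · rw [← Real.sin_pi_sub (2 * th)]
      exact Real.sin_lt_sin_of_lt_of_le_pi_div_two (by linarith) (by linarith) (by linarith)
  linarith

/-- `Re (X2 - X1) ≥ tan (th - kp) tan th ≥ th (th - kp)` for `sigma ≥ π/2`, all sheets -/
theorem St.L_ge (h : St k C q0 q1 q2 q3 d0 d1 d2 X1 X2 X3) (hk : 4 ≤ k)
    (hA : -(Real.pi / 4) ≤ X1.im)
    (he : |k * (X1 - d0).im| = Real.pi / 2) (hs : Real.pi / 2 ≤ k * (X1.im - X2.im)) :
    (X1.im - X2.im) * (X1.im - X2.im - (X2 - d1).im) ≤ (X2 - X1).re := by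
  have hpi := Real.pi_pos
  have k0 := h.k0
  have hgap := h.tau_gap he hs
  have hF3 := h.F3 hk hA he hs
  obtain ⟨_, hlt⟩ := h.mv_lt hA
  set kp := (X2 - d1).im with hkp
  have g1 : 0 < X1.im - X2.im - kp := by
    by_contra hcon
    push Not at hcon
    have : k * (X1.im - X2.im - kp) ≤ 0 := mul_nonpos_of_nonneg_of_nonpos k0.le hcon
    linarith
  have g2 : 0 < X1.im - X2.im := by
    by_contra hcon
    push Not at hcon
    have : k * (X1.im - X2.im) ≤ 0 := mul_nonpos_of_nonneg_of_nonpos k0.le hcon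
    linarith
  have h1 := h.F2 hA (by linarith) (by linarith)
  refine le_trans ?_ h1
  have t1 : X1.im - X2.im - kp ≤ Real.tan (-X1.im - kp) := by
    refine le_trans ?_ (Real.le_tan (by linarith) (by linarith))
    linarith
  have t2 : X1.im - X2.im ≤ Real.tan (X1.im - X2.im) := by
    apply Real.le_tan g2.le
    linarith
  calc (X1.im - X2.im) * (X1.im - X2.im - kp) = (X1.im - X2.im - kp) * (X1.im - X2.im) := by ring
    _ ≤ Real.tan (-X1.im - kp) * Real.tan (X1.im - X2.im) :=
      mul_le_mul t1 t2 g2.le (by linarith)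

end EQS
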