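import Mathlib
import Pool.Agent.Lib.MP_226de1_co.E.F3

/-! The continuous flow of one backward step: along `q(t) = q - t D`, `D = exp d`, put
`U = Re log xi(q(t))`, `V = Im log xi(q(t)) - Im d`. Then `U' = ρ cos (γ + V)`,
`V' = - ρ sin (γ + V)` with `ρ > 0` and `0 < γ < π/2`. -/

set_option autoImplicit false

namespace EQS

open Complex

/-- the logarithm of `xi = (1 + q ^ 2) ^ (1/2)` on the second quadrant -/
noncomputable def Xq (q : ℂ) : ℂ := Complex.log (1 + q ^ 2) / 2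

theorem one_add_sq_im {q : ℂ} (hr : q.re < 0) (hi : 0 < q.im) : (1 + q ^ 2).im < 0 := by
  have e : (1 + q ^ 2).im = 2 * (q.re * q.im) := by
    rw [add_im, one_im, pow_two, mul_im]
    ring
  rw [e]
  have := mul_neg_of_neg_of_pos hr hi
  linarith

theorem Xq_exp {q : ℂ} (hr : q.re < 0) (hi : 0 < q.im) : exp (2 * Xq q) = 1 + q ^ 2 := by
  have h0 : 1 + q ^ 2 ≠ 0 := by
    intro h0
    have h1 := one_add_sq_im hr hi
    rw [h0] at h1
    simp at h1
  unfold Xq
  rw [mul_div_cancel₀ _ (two_ne_zero), exp_log h0]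

theorem Xq_im_eq (q : ℂ) : (Xq q).im = Complex.arg (1 + q ^ 2) / 2 := by
  unfold Xq
  have e : Complex.log (1 + q ^ 2) / 2 = Complex.log (1 + q ^ 2) / ((2 : ℝ) : ℂ) := by norm_num
  rw [e, div_ofReal_im, log_im]

theorem Xq_im {q : ℂ} (hr : q.re < 0) (hi : 0 < q.im) :
    -(Real.pi / 2) < (Xq q).im ∧ (Xq q).im < 0 := by
  rw [Xq_im_eq]
  have h1 := Complex.neg_pi_lt_arg (1 + q ^ 2)
  have h2 := Complex.arg_neg_iff.2 (one_add_sq_im hr hi)
  constructor <;> linarith

theorem Xq_eq {q X : ℂ} (hx : exp (2 * X) = 1 + q ^ 2) (h : -(Real.pi / 2) < X.im ∧ X.im < 0) :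
    X = Xq q := by
  have hpi := Real.pi_pos
  unfold Xq
  have e : (2 * X).im = 2 * X.im := by simp
  rw [← hx, Complex.log_exp (by rw [e]; linarith) (by rw [e]; linarith)]
  ring

theorem Xq_hasDerivAt {q : ℂ} (hr : q.re < 0) (hi : 0 < q.im) :
    HasDerivAt Xq (q / (1 + q ^ 2)) q := by
  have h0 : 1 + q ^ 2 ∈ slitPlane := by
    right
    exact (one_add_sq_im hr hi).ne
  have h1 : HasDerivAt (fun z : ℂ => 1 + z ^ 2) (2 * q) q := by
    have := (hasDerivAt_pow 2 q).const_add 1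
    simpa using this
  have h2 := (h1.clog h0).div_const 2
  have e : 2 * q / (1 + q ^ 2) / 2 = q / (1 + q ^ 2) := by ring
  rw [e] at h2
  exact h2

/-- `α = - arg (-q)`, `γ = α - A` -/
theorem gamma_mem {q : ℂ} (hr : q.re < 0) (hi : 0 < q.im) :
    0 < -(Complex.arg (-q)) + (Xq q).im ∧ -(Complex.arg (-q)) + (Xq q).im < Real.pi / 2 := by
  have hpi := Real.pi_pos
  have hXi := Xq_im hr hi
  have h1 : Complex.arg (-q) < 0 := Complex.arg_neg_iff.2 (by simpa using hi)
  have h2 : -(Real.pi / 2) < Complex.arg (-q) := by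
    have := Complex.abs_arg_lt_pi_div_two_iff (z := -q)
    have h3 : |Complex.arg (-q)| < Real.pi / 2 := this.2 (Or.inl (by simpa using hr))
    have := abs_lt.1 h3
    linarith
  set α : ℝ := -(Complex.arg (-q)) with hα
  have hq : -q = ((‖q‖ : ℝ) : ℂ) * exp (((-α : ℝ) : ℂ) * I) := by
    have := Complex.norm_mul_exp_arg_mul_I (-q)
    rw [norm_neg] at this
    rw [hα, neg_neg]
    exact this.symm
  have hq0 : 0 < ‖q‖ := by
    rw [norm_pos_iff]
    intro h0
    rw [h0] at hr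
    simp at hr
  have hx := Xq_exp hr hi
  set X := Xq q with hX
  -- `|xi|^2 = e^{2iA} + |q|^2 e^{2i(A - α)}`
  have h3 : ((Real.exp (2 * X.re) : ℝ) : ℂ) = exp (((-(2 * X.im) : ℝ) : ℂ) * I) +
      ((‖q‖ ^ 2 : ℝ) : ℂ) * exp (((-(2 * X.im) - 2 * α : ℝ) : ℂ) * I) := by
    have e1 : (2 * X : ℂ) = ((2 * X.re : ℝ) : ℂ) + ((2 * X.im : ℝ) : ℂ) * I := by
      apply Complex.ext <;> simp
    have e2 : q ^ 2 = ((‖q‖ ^ 2 : ℝ) : ℂ) * exp (((-(2 * α) : ℝ) : ℂ) * I) := by
      have : q ^ 2 = (-q) ^ 2 := by ring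
      rw [this, hq, mul_pow, ← Complex.exp_nat_mul]
      congr 1
      · push_cast
        ring
      · congr 1
        push_cast
        ring
    have e3 : exp (2 * X) * exp (((-(2 * X.im) : ℝ) : ℂ) * I) =
        ((Real.exp (2 * X.re) : ℝ) : ℂ) := by
      rw [e1, ← exp_add, ofReal_exp]
      congr 1
      push_cast
      ring
    rw [← e3, hx, add_mul, one_mul, e2, mul_assoc, ← exp_add]
    congr 3
    push_cast
    ring
  have h4 := congrArg Complex.im h3
  rw [ofReal_im, add_im, im_ofReal_mul, exp_ofReal_mul_I_im, exp_ofReal_mul_I_im] at h4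
  have e5 : -(2 * X.im) - 2 * α = -(2 * (α + X.im)) := by ring
  rw [e5, Real.sin_neg, Real.sin_neg] at h4
  have h6 : 0 < Real.sin (-(2 * X.im)) := Real.sin_pos_of_pos_of_lt_pi (by linarith) (by linarith)
  rw [Real.sin_neg] at h6
  have h7 : 0 < Real.sin (2 * (α + X.im)) := by
    have h8 : 0 < ‖q‖ ^ 2 * Real.sin (2 * (α + X.im)) := by linarith
    exact (pos_iff_pos_of_mul_pos h8).1 (by positivity)
  constructor
  · by_contra hc
    have := Real.sin_nonpos_of_nonpos_of_neg_pi_le (x := 2 * (α + X.im))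
      (by linarith) (by linarith)
    linarith
  · by_contra hc
    have h9 : Real.pi / 2 ≤ α + X.im := not_lt.1 hc
    linarith

/-- the velocity of the flow in polar form -/
theorem flow_polar {q : ℂ} (d : ℂ) (hr : q.re < 0) (hi : 0 < q.im) :
    ∃ ρ : ℝ, 0 < ρ ∧ q / (1 + q ^ 2) * (-exp d) =
      (ρ : ℂ) * exp (((-((-(Complex.arg (-q)) + (Xq q).im) + ((Xq q).im - d.im)) : ℝ) : ℂ) * I) := by
  have hq : -q = ((‖q‖ : ℝ) : ℂ) * exp (((Complex.arg (-q) : ℝ) : ℂ) * I) := by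
    have := Complex.norm_mul_exp_arg_mul_I (-q)
    rw [norm_neg] at this
    exact this.symm
  have hq0 : 0 < ‖q‖ := by
    rw [norm_pos_iff]
    intro h0
    rw [h0] at hr
    simp at hr
  have hx := Xq_exp hr hi
  set X := Xq q with hX
  refine ⟨‖q‖ * Real.exp (d.re - 2 * X.re), by positivity, ?_⟩
  have e1 : q / (1 + q ^ 2) * (-exp d) = (-q) * exp (d - 2 * X) := by
    rw [exp_sub, hx]
    ring
  rw [e1]
  nth_rewrite 1 [hq]
  push_cast
  rw [mul_assoc, mul_assoc, ← exp_add, ← exp_add]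
  congr 2
  apply Complex.ext
  · simp
  · simp
    ring

/-- barrier: a function which is negative at `0` and has negative derivative at its zeros stays
negative -/
theorem barrier {f f' : ℝ → ℝ} {a b : ℝ} (hd : ∀ t ∈ Set.Icc a b, HasDerivAt f (f' t) t)
    (h0 : f a < 0) (hz : ∀ t ∈ Set.Icc a b, f t = 0 → f' t < 0) : ∀ t ∈ Set.Icc a b, f t < 0 := by
  by_contra hcon
  push Not at hcon
  obtain ⟨t1, ht1, hft1⟩ := hcon
  have hcont : ContinuousOn f (Set.Icc a b) := fun t ht => (hd t ht).continuousAt.continuousWithinAt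
  set S : Set ℝ := {t | t ∈ Set.Icc a b ∧ 0 ≤ f t} with hS
  have hSne : S.Nonempty := ⟨t1, ht1, hft1⟩
  have hSb : BddBelow S := ⟨a, fun t ht => ht.1.1⟩
  have hScl : IsClosed S := by
    have : S = Set.Icc a b ∩ f ⁻¹' (Set.Ici 0) := by
      ext t
      simp [hS]
    rw [this]
    exact hcont.preimage_isClosed_of_isClosed isClosed_Icc isClosed_Ici
  have hm := hScl.csInf_mem hSne hSb
  set t0 := sInf S with ht0
  obtain ⟨h1, h2⟩ := hm
  have hat : a < t0 := by
    rcases h1.1.lt_or_eq with h | h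
    · exact h
    · exfalso
      rw [← h] at h2
      linarith
  have hlt : ∀ t, a ≤ t → t < t0 → f t < 0 := by
    intro t hta htt
    by_contra hc
    exact absurd (csInf_le hSb ⟨⟨hta, htt.le.trans h1.2⟩, not_lt.1 hc⟩) (not_le.2 htt)
  have hz0 : f t0 = 0 := by
    refine le_antisymm ?_ h2
    have hc : ContinuousWithinAt f (Set.Iio t0) t0 := (hd t0 h1).continuousAt.continuousWithinAt
    refine le_of_tendsto hc ?_
    have : Set.Ioo a t0 ∈ nhdsWithin t0 (Set.Iio t0) := Ioo_mem_nhdsLT hat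
    filter_upwards [this] with t ht
    exact (hlt t ht.1.le ht.2).le
  have hneg := hz t0 h1 hz0
  have hd0 := (hd t0 h1).hasDerivWithinAt (s := Set.Iio t0)
  rw [hasDerivWithinAt_iff_tendsto_slope' (by simp)] at hd0
  have hge : 0 ≤ f' t0 := by
    refine ge_of_tendsto hd0 ?_
    have : Set.Ioo a t0 ∈ nhdsWithin t0 (Set.Iio t0) := Ioo_mem_nhdsLT hat
    filter_upwards [this] with t ht
    rw [slope_def_field, hz0, sub_zero]
    exact (div_pos_of_neg_of_neg (hlt t ht.1.le ht.2) (by linarith [ht.2])).le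
  linarith

/-- the flow of one step in real variables -/
structure Flow (U V ρ γ : ℝ → ℝ) : Prop where
  dU : ∀ t ∈ Set.Icc (0 : ℝ) 1, HasDerivAt U (ρ t * Real.cos (γ t + V t)) t
  dV : ∀ t ∈ Set.Icc (0 : ℝ) 1, HasDerivAt V (-(ρ t * Real.sin (γ t + V t))) t
  hρ : ∀ t ∈ Set.Icc (0 : ℝ) 1, 0 < ρ t
  hγ : ∀ t ∈ Set.Icc (0 : ℝ) 1, 0 < γ t ∧ γ t < Real.pi / 2

theorem flow_exists {q q' d X X' : ℂ} (hx : exp (2 * X) = 1 + q ^ 2)
    (hX : -(Real.pi / 2) < X.im ∧ X.im < 0) (hx' : exp (2 * X') = 1 + q' ^ 2)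
    (hX' : -(Real.pi / 2) < X'.im ∧ X'.im < 0) (hq : q = q' + exp d) (hr : q.re < 0)
    (hi : 0 < q.im) (hi' : 0 < q'.im) (hD : 0 < (exp d).re) :
    ∃ U V ρ γ : ℝ → ℝ, Flow U V ρ γ ∧ U 0 = X.re ∧ V 0 = (X - d).im ∧ U 1 = X'.re ∧
      V 1 = (X' - d).im := by
  set c : ℝ → ℂ := fun t => q - (t : ℂ) * exp d with hc
  have hcr : ∀ t ∈ Set.Icc (0 : ℝ) 1, (c t).re < 0 := by
    intro t ht
    have e : (c t).re = q.re - t * (exp d).re := by simp [hc]
    rw [e]
    have := mul_nonneg ht.1 hD.le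
    linarith
  have hq' : q'.im = q.im - (exp d).im := by
    rw [hq, add_im]
    ring
  have hci : ∀ t ∈ Set.Icc (0 : ℝ) 1, 0 < (c t).im := by
    intro t ht
    have e : (c t).im = (1 - t) * q.im + t * q'.im := by
      rw [hq']
      simp only [hc, sub_im, im_ofReal_mul]
      ring
    rw [e]
    rcases ht.1.lt_or_eq with h | h
    · have h1 := mul_nonneg (show 0 ≤ 1 - t by linarith [ht.2]) hi.le
      have h2 := mul_pos h hi'
      linarith
    · rw [← h]
      linarith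
  choose! ρ hρ0 hρ using fun t (ht : t ∈ Set.Icc (0 : ℝ) 1) => flow_polar d (hcr t ht) (hci t ht)
  set γ : ℝ → ℝ := fun t => -(Complex.arg (-(c t))) + (Xq (c t)).im with hγ
  have hder : ∀ t ∈ Set.Icc (0 : ℝ) 1, HasDerivAt (fun s : ℝ => Xq (c s))
      ((ρ t : ℂ) * exp (((-(γ t + ((Xq (c t)).im - d.im)) : ℝ) : ℂ) * I)) t := by
    intro t ht
    rw [← hρ t ht]
    have h1 := Xq_hasDerivAt (hcr t ht) (hci t ht)
    have h2 : HasDerivAt c (-exp d) t := by
      have := ((hasDerivAt_id t).ofReal_comp.mul_const (exp d)).const_sub q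
      simpa [hc] using this
    have h3 := HasDerivAt.comp_of_eq t (h₂ := Xq) (h := c) h1 h2 rfl
    exact h3
  refine ⟨fun t => (Xq (c t)).re, fun t => (Xq (c t)).im - d.im, ρ, γ, ⟨?_, ?_, hρ0, ?_⟩, ?_, ?_,
    ?_, ?_⟩
  · intro t ht
    have h1 := hder t ht
    have h2 := (Complex.reCLM.hasFDerivAt (x := Xq (c t))).comp_hasDerivAt t h1
    have e : Complex.reCLM ((ρ t : ℂ) * exp (((-(γ t + ((Xq (c t)).im - d.im)) : ℝ) : ℂ) * I)) =
        ρ t * Real.cos (γ t + ((Xq (c t)).im - d.im)) := by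
      rw [Complex.reCLM_apply, re_ofReal_mul, exp_ofReal_mul_I_re, Real.cos_neg]
    rw [e] at h2
    exact h2
  · intro t ht
    have h1 := hder t ht
    have h2 := (Complex.imCLM.hasFDerivAt (x := Xq (c t))).comp_hasDerivAt t h1
    have e : Complex.imCLM ((ρ t : ℂ) * exp (((-(γ t + ((Xq (c t)).im - d.im)) : ℝ) : ℂ) * I)) =
        -(ρ t * Real.sin (γ t + ((Xq (c t)).im - d.im))) := by
      rw [Complex.imCLM_apply, im_ofReal_mul, exp_ofReal_mul_I_im, Real.sin_neg]
      ring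
    rw [e] at h2
    exact h2.sub_const d.im
  · intro t ht
    exact gamma_mem (hcr t ht) (hci t ht)
  · have e : c 0 = q := by simp [hc]
    show (Xq (c 0)).re = X.re
    rw [e, ← Xq_eq hx hX]
  · have e : c 0 = q := by simp [hc]
    show (Xq (c 0)).im - d.im = (X - d).im
    rw [e, ← Xq_eq hx hX, sub_im]
  · have e : c 1 = q' := by simp [hc, hq]
    show (Xq (c 1)).re = X'.re
    rw [e, ← Xq_eq hx' hX']
  · have e : c 1 = q' := by simp [hc, hq]
    show (Xq (c 1)).im - d.im = (X' - d).im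
    rw [e, ← Xq_eq hx' hX', sub_im]

section FlowLemmas

variable {U V ρ γ : ℝ → ℝ}

/-- `V` stays negative -/
theorem Flow.neg (h : Flow U V ρ γ) (h0 : V 0 < 0) : ∀ t ∈ Set.Icc (0 : ℝ) 1, V t < 0 := by
  have hpi := Real.pi_pos
  refine barrier h.dV h0 ?_
  intro t ht hz
  have hg := h.hγ t ht
  rw [hz, add_zero]
  have := mul_pos (h.hρ t ht) (Real.sin_pos_of_pos_of_lt_pi hg.1 (by linarith [hg.2]))
  linarith

/-- `V` stays above `- π/2` -/
theorem Flow.low (h : Flow U V ρ γ) (h0 : -(Real.pi / 2) < V 0) :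
    ∀ t ∈ Set.Icc (0 : ℝ) 1, -(Real.pi / 2) < V t := by
  have hpi := Real.pi_pos
  have h1 : ∀ t ∈ Set.Icc (0 : ℝ) 1, -(Real.pi / 2) - V t < 0 := by
    refine barrier (f := fun t => -(Real.pi / 2) - V t)
      (f' := fun t => - -(ρ t * Real.sin (γ t + V t))) (fun t ht => (h.dV t ht).const_sub _)
      (by linarith) ?_
    intro t ht hz
    have hg := h.hγ t ht
    have hV : V t = -(Real.pi / 2) := by linarith
    have h2 : Real.sin (γ t + V t) < 0 := by
      rw [hV]
      exact Real.sin_neg_of_neg_of_neg_pi_lt (by linarith [hg.2]) (by linarith [hg.1])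
    have := mul_neg_of_pos_of_neg (h.hρ t ht) h2
    simpa using this
  intro t ht
  linarith [h1 t ht]

/-- `U` is nondecreasing if `-π/2 < V 0 < 0` -/
theorem Flow.mono (h : Flow U V ρ γ) (h0 : V 0 < 0) (h1 : -(Real.pi / 2) < V 0) :
    MonotoneOn U (Set.Icc (0 : ℝ) 1) := by
  have hn := h.neg h0
  have hl := h.low h1
  refine monotoneOn_of_deriv_nonneg (convex_Icc 0 1)
    (fun t ht => (h.dU t ht).continuousAt.continuousWithinAt)
    (fun t ht => (h.dU t (interior_subset ht)).differentiableAt.differentiableWithinAt) ?_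
  intro t ht
  have ht' : t ∈ Set.Icc (0 : ℝ) 1 := interior_subset ht
  rw [(h.dU t ht').deriv]
  have hg := h.hγ t ht'
  exact mul_nonneg (h.hρ t ht').le (Real.cos_nonneg_of_mem_Icc
    ⟨by linarith [hl t ht', hg.1], by linarith [hn t ht', hg.2]⟩)

/-- `k U - log cos (k V)` is nondecreasing as long as `-π/3 ≤ k V ≤ 0` -/
theorem Flow.mono_cos (h : Flow U V ρ γ) {k t0 : ℝ} (hk : 2 ≤ k) (ht0 : 0 ≤ t0) (ht1 : t0 ≤ 1)
    (hV : ∀ t ∈ Set.Icc t0 1, -(Real.pi / 3) ≤ k * V t ∧ k * V t ≤ 0) :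
    k * U t0 - Real.log (Real.cos (k * V t0)) ≤ k * U 1 - Real.log (Real.cos (k * V 1)) := by
  have hpi := Real.pi_pos
  have hsub : Set.Icc t0 1 ⊆ Set.Icc (0 : ℝ) 1 := Set.Icc_subset_Icc_left ht0
  have hc : ∀ t ∈ Set.Icc t0 1, 0 < Real.cos (k * V t) := fun t ht =>
    Real.cos_pos_of_mem_Ioo ⟨by linarith [(hV t ht).1], by linarith [(hV t ht).2]⟩
  have hder : ∀ t ∈ Set.Icc t0 1, HasDerivAt (fun t => k * U t - Real.log (Real.cos (k * V t)))
      (k * (ρ t * Real.cos (γ t + V t)) -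
        -Real.sin (k * V t) * (k * -(ρ t * Real.sin (γ t + V t))) / Real.cos (k * V t)) t := by
    intro t ht
    have ht' := hsub ht
    exact ((h.dU t ht').const_mul k).sub ((((h.dV t ht').const_mul k).cos).log (hc t ht).ne')
  have hm : MonotoneOn (fun t => k * U t - Real.log (Real.cos (k * V t))) (Set.Icc t0 1) := by
    refine monotoneOn_of_deriv_nonneg (convex_Icc t0 1)
      (fun t ht => (hder t ht).continuousAt.continuousWithinAt)
      (fun t ht => (hder t (interior_subset ht)).differentiableAt.differentiableWithinAt) ?_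
    intro t ht
    have ht' : t ∈ Set.Icc t0 1 := interior_subset ht
    rw [(hder t ht').deriv]
    have hg := h.hγ t (hsub ht')
    have hv := hV t ht'
    have hcp := hc t ht'
    have e : k * (ρ t * Real.cos (γ t + V t)) -
        -Real.sin (k * V t) * (k * -(ρ t * Real.sin (γ t + V t))) / Real.cos (k * V t) =
        k * ρ t * Real.cos (γ t + V t + k * V t) / Real.cos (k * V t) := by
      rw [Real.cos_add (γ t + V t)]
      field_simp
    rw [e]
    have hk0 : 0 < k := by linarith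
    have hVt : -(Real.pi / 6) ≤ V t := by
      by_contra hcon
      have h1 := mul_lt_mul_of_pos_left (not_le.1 hcon) hk0
      have h2 : k * -(Real.pi / 6) ≤ 2 * -(Real.pi / 6) := by
        have := mul_le_mul_of_nonneg_right hk (show 0 ≤ Real.pi / 6 by positivity)
        linarith
      linarith [hv.1]
    have hVt' : V t ≤ 0 := by
      by_contra hcon
      have := mul_pos hk0 (not_le.1 hcon)
      linarith [hv.2]
    have h3 : 0 ≤ Real.cos (γ t + V t + k * V t) :=
      Real.cos_nonneg_of_mem_Icc ⟨by linarith [hg.1, hv.1], by linarith [hg.2, hv.2]⟩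
    have := (h.hρ t (hsub ht')).le
    positivity
  exact hm (Set.left_mem_Icc.2 ht1) (Set.right_mem_Icc.2 ht1) ht1

/-- if `k V` starts below `-π/3` and ends above it (and below `0`) then
`e^{k (U 1 - U 0)} ≥ 2 cos (k V 1)` -/
theorem Flow.two_cos (h : Flow U V ρ γ) {k : ℝ} (hk : 2 ≤ k) (h0 : V 0 < 0)
    (h1 : -(Real.pi / 2) < V 0) (hs : k * V 0 ≤ -(Real.pi / 3)) (he : -(Real.pi / 3) < k * V 1) :
    2 * Real.cos (k * V 1) ≤ Real.exp (k * (U 1 - U 0)) := by
  have hpi := Real.pi_pos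
  have hk0 : 0 < k := by linarith
  have hn := h.neg h0
  have hm := h.mono h0 h1
  have hcont : ContinuousOn (fun t => k * V t) (Set.Icc (0 : ℝ) 1) := fun t ht =>
    ((h.dV t ht).const_mul k).continuousAt.continuousWithinAt
  set S : Set ℝ := {t | t ∈ Set.Icc (0 : ℝ) 1 ∧ k * V t ≤ -(Real.pi / 3)} with hS
  have hSne : S.Nonempty := ⟨0, ⟨by norm_num, by norm_num⟩, hs⟩
  have hSb : BddAbove S := ⟨1, fun t ht => ht.1.2⟩
  have hScl : IsClosed S := by
    have : S = Set.Icc (0 : ℝ) 1 ∩ (fun t => k * V t) ⁻¹' (Set.Iic (-(Real.pi / 3))) := by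
      ext t
      simp [hS]
    rw [this]
    exact hcont.preimage_isClosed_of_isClosed isClosed_Icc isClosed_Iic
  obtain ⟨hm1, hm2⟩ := hScl.csSup_mem hSne hSb
  set t0 := sSup S with ht0
  have ht1 : t0 < 1 := by
    rcases hm1.2.lt_or_eq with hh | hh
    · exact hh
    · exfalso
      rw [hh] at hm2
      linarith
  have hgt : ∀ t, t0 < t → t ≤ 1 → -(Real.pi / 3) < k * V t := by
    intro t h2 h3
    by_contra hcon
    exact absurd (le_csSup hSb ⟨⟨hm1.1.trans h2.le, h3⟩, not_lt.1 hcon⟩) (not_le.2 h2)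
  have heq : k * V t0 = -(Real.pi / 3) := by
    refine le_antisymm hm2 ?_
    have hc : ContinuousWithinAt (fun t => k * V t) (Set.Ioi t0) t0 :=
      ((h.dV t0 hm1).const_mul k).continuousAt.continuousWithinAt
    refine ge_of_tendsto hc ?_
    have : Set.Ioo t0 1 ∈ nhdsWithin t0 (Set.Ioi t0) := Ioo_mem_nhdsGT ht1
    filter_upwards [this] with t ht
    exact (hgt t ht.1 ht.2.le).le
  have h2 := h.mono_cos hk hm1.1 ht1.le (fun t ht => by
    refine ⟨?_, ?_⟩
    · rcases ht.1.lt_or_eq with hh | hh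
      · exact (hgt t hh ht.2).le
      · rw [← hh, heq]
    · exact (mul_neg_of_pos_of_neg hk0 (hn t ⟨hm1.1.trans ht.1, ht.2⟩)).le)
  rw [heq, Real.cos_neg, Real.cos_pi_div_three] at h2
  have h3 : U 0 ≤ U t0 := hm ⟨le_refl _, by norm_num⟩ hm1 hm1.1
  have hcp : 0 < Real.cos (k * V 1) := Real.cos_pos_of_mem_Ioo
    ⟨by linarith, by linarith [mul_neg_of_pos_of_neg hk0 (hn 1 ⟨by norm_num, le_refl _⟩)]⟩
  have h4 := mul_le_mul_of_nonneg_left h3 hk0.le
  have h5 : Real.log (2 * Real.cos (k * V 1)) ≤ k * (U 1 - U 0) := by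
    rw [Real.log_mul (by norm_num) hcp.ne']
    have e : Real.log (1 / 2) = -Real.log 2 := by
      rw [one_div, Real.log_inv]
    rw [e] at h2
    linarith
  calc 2 * Real.cos (k * V 1) = Real.exp (Real.log (2 * Real.cos (k * V 1))) := by
        rw [Real.exp_log (by positivity)]
    _ ≤ _ := Real.exp_le_exp.2 h5

end FlowLemmas

end EQS
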