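import Mathlib
import Pool.Agent.Lib.MP_226de1_co.E.DFlow

/-! Unit disc exit, first step, case `F_1 < 0`: `2 arg p_{-2} < F_1`, `|b_1| ≥ 1`,
`F_1 ≥ - π/3`, `A_1 ≤ π/4`. -/

set_option autoImplicit false

namespace EQS

open Complex

/-- the symmetric form of one step -/
theorem sym_id {q q' d X X' : ℂ} (hx : exp (2 * X) = 1 + q ^ 2) (hx' : exp (2 * X') = 1 + q' ^ 2)
    (hq : q = q' + exp d) :
    exp (2 * X' - X - d) = exp (X - d) + exp (d - X) - 2 * (q * exp (-X)) := by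
  have e1 : exp (2 * X' - X - d) = exp (2 * X') * (exp (-X) * exp (-d)) := by
    rw [← exp_add, ← exp_add]
    congr 1
    ring
  have hq' : q' = q - exp d := by rw [hq]; ring
  have e2 : exp (2 * X') = exp (2 * X) - 2 * (q * exp d) + exp d * exp d := by
    rw [hx, hx', hq']
    ring
  have e3 : exp (2 * X) * (exp (-X) * exp (-d)) = exp (X - d) := by
    rw [← exp_add, ← exp_add]
    congr 1
    ring
  have e4 : exp d * exp (-d) = 1 := by
    rw [← exp_add, add_neg_cancel, exp_zero]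
  have e5 : exp (-X) * exp d = exp (d - X) := by
    rw [← exp_add]
    congr 1
    ring
  rw [e1, e2]
  calc (exp (2 * X) - 2 * (q * exp d) + exp d * exp d) * (exp (-X) * exp (-d)) =
      exp (2 * X) * (exp (-X) * exp (-d)) - 2 * (q * exp (-X)) * (exp d * exp (-d)) +
        exp (-X) * exp d * (exp d * exp (-d)) := by ring
    _ = _ := by
      rw [e3, e4, e5]
      ring

theorem sym_im {q q' d X X' : ℂ} (hx : exp (2 * X) = 1 + q ^ 2) (hx' : exp (2 * X') = 1 + q' ^ 2)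
    (hq : q = q' + exp d) :
    Real.exp (2 * X' - X - d).re * Real.sin (2 * (X' - d).im - (X - d).im) =
      (Real.exp (X - d).re - Real.exp (-(X - d).re)) * Real.sin (X - d).im -
        2 * (q * exp (-X)).im := by
  have h1 := congrArg Complex.im (sym_id hx hx' hq)
  have e1 : (2 * X' - X - d).im = 2 * (X' - d).im - (X - d).im := by
    simp
    ring
  have e2 : (d - X).re = -(X - d).re := by simp
  have e3 : (d - X).im = -(X - d).im := by simp
  have e4 : ∀ a b c : ℂ, (a + b - 2 * c).im = a.im + b.im - 2 * c.im := by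
    intro a b c
    simp
  rw [e4, exp_im, e1, exp_im (X - d), exp_im (d - X), e2, e3, Real.sin_neg] at h1
  linarith

theorem sym_re {q q' d X X' : ℂ} (hx : exp (2 * X) = 1 + q ^ 2) (hx' : exp (2 * X') = 1 + q' ^ 2)
    (hq : q = q' + exp d) :
    Real.exp (2 * X' - X - d).re * Real.cos (2 * (X' - d).im - (X - d).im) =
      (Real.exp (X - d).re + Real.exp (-(X - d).re)) * Real.cos (X - d).im -
        2 * (q * exp (-X)).re := by
  have h1 := congrArg Complex.re (sym_id hx hx' hq)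
  have e1 : (2 * X' - X - d).im = 2 * (X' - d).im - (X - d).im := by
    simp
    ring
  have e2 : (d - X).re = -(X - d).re := by simp
  have e3 : (d - X).im = -(X - d).im := by simp
  have e4 : ∀ a b c : ℂ, (a + b - 2 * c).re = a.re + b.re - 2 * c.re := by
    intro a b c
    simp
  rw [e4, exp_re, e1, exp_re (X - d), exp_re (d - X), e2, e3, Real.cos_neg] at h1
  linarith

theorem q_exp_mem {q X : ℂ} (hx : exp (2 * X) = 1 + q ^ 2)
    (hX : -(Real.pi / 2) < X.im ∧ X.im < 0) (hr : q.re < 0) (hi : 0 < q.im) :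
    0 < (q * exp (-X)).im ∧ (q * exp (-X)).re < 0 := by
  have hpi := Real.pi_pos
  have hg := gamma_mem hr hi
  rw [← Xq_eq hx hX] at hg
  have hq : -q = ((‖q‖ : ℝ) : ℂ) * exp (((Complex.arg (-q) : ℝ) : ℂ) * I) := by
    have := Complex.norm_mul_exp_arg_mul_I (-q)
    rw [norm_neg] at this
    exact this.symm
  have hq0 : 0 < ‖q‖ := by
    rw [norm_pos_iff]
    intro h0
    rw [h0] at hr
    simp at hr
  set a : ℝ := Complex.arg (-q) with ha
  have e1 : q * exp (-X) = ((-‖q‖ : ℝ) : ℂ) * exp ((a : ℂ) * I - X) := by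
    have : q = -(-q) := by ring
    rw [this, hq, exp_sub, exp_neg]
    push_cast
    rw [norm_neg, norm_mul, Complex.norm_exp_ofReal_mul_I, Complex.norm_real, norm_norm]
    push_cast
    ring
  have e2 : ((a : ℂ) * I - X).im = -(-a + X.im) := by
    simp
    ring
  rw [e1, im_ofReal_mul, re_ofReal_mul, exp_im, exp_re, e2, Real.sin_neg, Real.cos_neg]
  have h1 : 0 < Real.sin (-a + X.im) := Real.sin_pos_of_pos_of_lt_pi hg.1 (by linarith [hg.2])
  have h2 : 0 < Real.cos (-a + X.im) := Real.cos_pos_of_mem_Ioo ⟨by linarith [hg.1], hg.2⟩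
  have h3 := Real.exp_pos ((a : ℂ) * I - X).re
  constructor
  · have := mul_pos hq0 (mul_pos h3 h1)
    linarith
  · have := mul_pos hq0 (mul_pos h3 h2)
    linarith

variable {k C : ℝ} {q0 q1 q2 q3 d0 d1 d2 X1 X2 X3 : ℂ}

/-- the flow of the first step -/
theorem St.flow1 (h : St k C q0 q1 q2 q3 d0 d1 d2 X1 X2 X3) :
    ∃ U V ρ γ : ℝ → ℝ, Flow U V ρ γ ∧ U 0 = X1.re ∧ V 0 = (X1 - d1).im ∧ U 1 = X2.re ∧
      V 1 = (X2 - d1).im :=
  flow_exists h.x1 h.a1 h.x2 h.a2 h.s1 h.q1neg h.i1 h.i2 h.D1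

/-- the flow of the second step -/
theorem St.flow2 (h : St k C q0 q1 q2 q3 d0 d1 d2 X1 X2 X3) :
    ∃ U V ρ γ : ℝ → ℝ, Flow U V ρ γ ∧ U 0 = X2.re ∧ V 0 = (X2 - d2).im ∧ U 1 = X3.re ∧
      V 1 = (X3 - d2).im :=
  flow_exists h.x2 h.a2 h.x3 h.a3 h.s2 (h.r12.trans h.q1neg) h.i2 h.i3 h.D2

/-- `F_1 < 0` and `|D_{-1}| ≤ |xi_{-1}|` imply `2 arg p_{-2} < F_1` -/
theorem St.negF (h : St k C q0 q1 q2 q3 d0 d1 d2 X1 X2 X3) (hd : 0 ≤ (X1 - d1).re)
    (hF : (X1 - d1).im < 0) : 2 * (X2 - d1).im < (X1 - d1).im := by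
  have hpi := Real.pi_pos
  have hk := h.hk
  have k0 := h.k0
  have h1 := sym_im h.x1 h.x2 h.s1
  have h2 := (q_exp_mem h.x1 h.a1 h.q1neg h.i1).1
  have a1 := h.a1
  have a2 := h.a2
  have hτ : |(X2 - d1).im| < Real.pi / 4 := by
    have := h.p2
    rw [abs_mul, abs_of_pos k0] at this
    have h3 := mul_le_mul_of_nonneg_right hk.le (abs_nonneg (X2 - d1).im)
    linarith
  have hτ' := abs_lt.1 hτ
  have e : (X1 - d1).im = (X2 - d1).im + (X1.im - X2.im) := by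
    simp only [sub_im]
    ring
  have hs : Real.sin (X1 - d1).im < 0 :=
    Real.sin_neg_of_neg_of_neg_pi_lt hF (by rw [e]; linarith)
  have hexp : 0 ≤ Real.exp (X1 - d1).re - Real.exp (-(X1 - d1).re) := by
    have := Real.exp_le_exp.2 (show -(X1 - d1).re ≤ (X1 - d1).re by linarith)
    linarith
  have h4 : Real.exp (2 * X2 - X1 - d1).re * Real.sin (2 * (X2 - d1).im - (X1 - d1).im) < 0 := by
    rw [h1]
    have := mul_nonneg hexp (neg_nonneg.2 hs.le)
    linarith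
  have h5 : Real.sin (2 * (X2 - d1).im - (X1 - d1).im) < 0 := by
    by_contra hc
    have := mul_nonneg (Real.exp_pos (2 * X2 - X1 - d1).re).le (not_lt.1 hc)
    linarith
  by_contra hcon
  have h6 := Real.sin_nonneg_of_nonneg_of_le_pi
    (x := 2 * (X2 - d1).im - (X1 - d1).im) (by linarith [not_lt.1 hcon]) (by rw [e]; linarith)
  linarith

/-- `F_1 > - π k/2` in the case `F_1 < 0` -/
theorem St.negF_low (h : St k C q0 q1 q2 q3 d0 d1 d2 X1 X2 X3) (hd : 0 ≤ (X1 - d1).re)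
    (hF : (X1 - d1).im < 0) : -Real.pi < k * (X1 - d1).im ∧ -(Real.pi / 2) < (X1 - d1).im := by
  have h1 := h.negF hd hF
  have hk := h.hk
  have k0 := h.k0
  have h2 := (abs_lt.1 h.p2).1
  have h3 := mul_lt_mul_of_pos_left h1 k0
  have h4 : -Real.pi < k * (X1 - d1).im := by linarith
  refine ⟨h4, ?_⟩
  by_contra hcon
  have h5 := mul_le_mul_of_nonneg_left (not_lt.1 hcon) k0.le
  have h6 := mul_lt_mul_of_pos_right hk (show 0 < Real.pi / 2 by positivity)
  linarith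

/-- `|b_1| ≥ 1` in the case `F_1 < 0` -/
theorem St.negF_L (h : St k C q0 q1 q2 q3 d0 d1 d2 X1 X2 X3) (hd : 0 ≤ (X1 - d1).re)
    (hF : (X1 - d1).im < 0) : X1.re ≤ X2.re := by
  obtain ⟨U, V, ρ, γ, hfl, hU0, hV0, hU1, hV1⟩ := h.flow1
  have := hfl.mono (by rw [hV0]; exact hF) (by rw [hV0]; exact (h.negF_low hd hF).2)
    (Set.left_mem_Icc.2 zero_le_one) (Set.right_mem_Icc.2 zero_le_one) zero_le_one
  rwa [hU0, hU1] at this

/-- at a unit disc exit `|f_{-1}| = 1`, `|xi_{-1}/D_{-1}|^k = C > 1` -/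
theorem St.dn_f1 (h : St k C q0 q1 q2 q3 d0 d1 d2 X1 X2 X3)
    (hf : ‖1 - pv k C X1 d0‖ = 1) : Real.exp (k * (X1 - d1).re) = C ∧ 0 < (X1 - d1).re := by
  have k0 := h.k0
  rw [← h.f1_eq, norm_pv h.C0, div_eq_one_iff_eq h.C0.ne'] at hf
  refine ⟨hf, ?_⟩
  by_contra hcon
  have h1 : k * (X1 - d1).re ≤ 0 := mul_nonpos_of_nonneg_of_nonpos k0.le (not_lt.1 hcon)
  have h2 := Real.exp_le_one_iff.2 h1
  linarith [h.hC]

/-- at a unit disc exit `|p_{-2}| = |b_1|` -/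
theorem St.dn_P (h : St k C q0 q1 q2 q3 d0 d1 d2 X1 X2 X3)
    (hf : ‖1 - pv k C X1 d0‖ = 1) : ‖pv k C X2 d1‖ = Real.exp (k * (X2.re - X1.re)) := by
  have h1 := (h.dn_f1 hf).1
  have e : (X2 - d1).re = (X1 - d1).re + (X2.re - X1.re) := by
    simp only [sub_re]
    ring
  rw [norm_pv h.C0, e, mul_add, Real.exp_add, h1, mul_div_assoc, mul_comm, div_mul_cancel₀ _
    h.C0.ne']

/-- `|f_{-2}| < 1` iff `|p_{-2}| < 2 cos arg p_{-2}` -/
theorem St.dn_lt (h : St k C q0 q1 q2 q3 d0 d1 d2 X1 X2 X3)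
    (h2 : ‖1 - pv k C X2 d1‖ < 1) :
    ‖pv k C X2 d1‖ < 2 * Real.cos (k * (X2 - d1).im) := by
  have hC0 := h.C0
  have hr : (pv k C X2 d1).re = ‖pv k C X2 d1‖ * Real.cos (k * (X2 - d1).im) := by
    rw [norm_pv hC0, pv_re]
  have h0 : 0 < ‖pv k C X2 d1‖ := norm_pos_iff.2 (pv_ne hC0)
  have h3 : ‖1 - pv k C X2 d1‖ ^ 2 < 1 := by
    have := pow_lt_one₀ (norm_nonneg _) h2 (n := 2) (by norm_num)
    exact this
  have h4 : ‖1 - pv k C X2 d1‖ ^ 2 = 1 - 2 * (pv k C X2 d1).re + ‖pv k C X2 d1‖ ^ 2 := by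
    rw [← Complex.normSq_eq_norm_sq, ← Complex.normSq_eq_norm_sq, Complex.normSq_apply,
      Complex.normSq_apply, sub_re, sub_im, one_re, one_im]
    ring
  rw [h4, hr] at h3
  have h5 : ‖pv k C X2 d1‖ * ‖pv k C X2 d1‖ <
      ‖pv k C X2 d1‖ * (2 * Real.cos (k * (X2 - d1).im)) := by
    linarith
  exact lt_of_mul_lt_mul_left h5 h0.le

/-- `s = - F_1 ≤ π / 3` -/
theorem St.negF_s (h : St k C q0 q1 q2 q3 d0 d1 d2 X1 X2 X3)
    (hf : ‖1 - pv k C X1 d0‖ = 1) (h2 : ‖1 - pv k C X2 d1‖ < 1) (hF : (X1 - d1).im < 0) :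
    -(Real.pi / 3) ≤ k * (X1 - d1).im := by
  have hpi := Real.pi_pos
  have k0 := h.k0
  have hd := (h.dn_f1 hf).2.le
  by_contra hcon
  have hcon' := not_le.1 hcon
  obtain ⟨U, V, ρ, γ, hfl, hU0, hV0, hU1, hV1⟩ := h.flow1
  have hL := h.negF_L hd hF
  have hP := h.dn_P hf
  have hlt := h.dn_lt h2
  have hP1 : 1 ≤ ‖pv k C X2 d1‖ := by
    rw [hP]
    exact Real.one_le_exp (mul_nonneg k0.le (by linarith))
  have h2n := h.negF hd hF
  have hend : -(Real.pi / 3) < k * (X2 - d1).im := by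
    by_contra hc
    have hc' := not_lt.1 hc
    have h3 : Real.cos (k * (X2 - d1).im) ≤ Real.cos (Real.pi / 3) := by
      rw [← Real.cos_neg (k * (X2 - d1).im)]
      exact Real.cos_le_cos_of_nonneg_of_le_pi (by positivity)
        (by linarith [(abs_lt.1 h.p2).1]) (by linarith)
    rw [Real.cos_pi_div_three] at h3
    linarith
  have h4 := hfl.two_cos h.hk.le (by rw [hV0]; exact hF)
    (by rw [hV0]; exact (h.negF_low hd hF).2) (by rw [hV0]; exact hcon'.le)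
    (by rw [hV1]; exact hend)
  rw [hV1, hU1, hU0, ← hP] at h4
  linarith

/-- `A_1 ≤ π / 4` in the case `F_1 < 0` -/
theorem St.negF_A (h : St k C q0 q1 q2 q3 d0 d1 d2 X1 X2 X3)
    (hh : X1.im < -(Real.pi / 4) → (pv k C X1 d1).re < 1 / 2)
    (hf : ‖1 - pv k C X1 d0‖ = 1) (h2 : ‖1 - pv k C X2 d1‖ < 1) (hF : (X1 - d1).im < 0) :
    -(Real.pi / 4) ≤ X1.im := by
  have hpi := Real.pi_pos
  have k0 := h.k0
  have hs := h.negF_s hf h2 hF
  by_contra hcon
  have h3 := hh (not_le.1 hcon)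
  have h4 := (h.dn_f1 hf).1
  rw [pv_re, h4, div_self h.C0.ne', one_mul] at h3
  have h5 : Real.cos (Real.pi / 3) ≤ Real.cos (k * (X1 - d1).im) := by
    rw [← Real.cos_neg (k * (X1 - d1).im)]
    exact Real.cos_le_cos_of_nonneg_of_le_pi (by linarith [mul_neg_of_pos_of_neg k0 hF])
      (by linarith) (by linarith)
  rw [Real.cos_pi_div_three] at h5
  linarith

end EQS
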