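import Mathlib

/-! Pure inequalities for the end of case N (`F_1 < 0`) of the unit disc exit: lower bounds of
`x = Re D_0 / |D_{-1}|` and the Pick inequality. -/

set_option autoImplicit false

namespace EQS

theorem dn_lc {b lam a a0 M : ℝ} (hb : 0 ≤ b) (hl : 0 ≤ lam) (hl1 : lam ≤ 1)
    (ha : 0 ≤ a) (ha1 : a ≤ Real.pi) (ha0 : 0 ≤ a0) (ha01 : a0 ≤ Real.pi) (hM : 0 ≤ M)
    (h1 : M * b ^ ((1 : ℝ) / 2) ≤ Real.sin a) (h0 : M ≤ Real.sin a0) :
    M * b ^ (lam / 2) ≤ Real.sin (lam * a + (1 - lam) * a0) := by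
  have hc := strictConcaveOn_sin_Icc.concaveOn.2 (⟨ha, ha1⟩ : a ∈ Set.Icc 0 Real.pi)
    (⟨ha0, ha01⟩ : a0 ∈ Set.Icc 0 Real.pi) hl (sub_nonneg.2 hl1) (by ring)
  simp only [smul_eq_mul] at hc
  have hg := Real.geom_mean_le_arith_mean2_weighted hl (sub_nonneg.2 hl1)
    (Real.rpow_nonneg hb ((1 : ℝ) / 2)) (zero_le_one) (by ring)
  rw [Real.one_rpow, mul_one, mul_one, ← Real.rpow_mul hb] at hg
  have e : (1 : ℝ) / 2 * lam = lam / 2 := by ring
  rw [e] at hg
  have h2 := mul_le_mul_of_nonneg_left hg hM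
  have h3 := mul_le_mul_of_nonneg_left h1 hl
  have h4 := mul_le_mul_of_nonneg_left h0 (sub_nonneg.2 hl1)
  linarith

/-- (X1) -/
theorem dn_X1 {lam s A : ℝ} (hl : 0 ≤ lam) (hl1 : lam ≤ 1) (hs : 0 < s) (hs1 : s ≤ Real.pi / 3)
    (hA : 0 ≤ A) (hA1 : A ≤ Real.pi / 4) :
    Real.sqrt (Real.cos (2 * A) / 2) * (2 * Real.sin (s / 2)) ^ (lam / 2) ≤
      Real.cos (A + lam * (Real.pi - s) / 4) := by
  have hpi := Real.pi_pos
  have hss : 0 ≤ Real.sin (s / 2) := Real.sin_nonneg_of_nonneg_of_le_pi (by linarith) (by linarith)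
  have hc2 : 0 ≤ Real.cos (2 * A) := Real.cos_nonneg_of_mem_Icc ⟨by linarith, by linarith⟩
  have h1 : Real.sqrt (Real.cos (2 * A) / 2) * (2 * Real.sin (s / 2)) ^ ((1 : ℝ) / 2) ≤
      Real.sin (Real.pi / 2 - A - (Real.pi - s) / 4) := by
    have hsa : 0 ≤ Real.sin (Real.pi / 2 - A - (Real.pi - s) / 4) :=
      Real.sin_nonneg_of_nonneg_of_le_pi (by linarith) (by linarith)
    rw [← Real.sqrt_eq_rpow, ← Real.sqrt_mul (by positivity)]
    apply Real.sqrt_le_iff.2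
    refine ⟨hsa, ?_⟩
    rw [Real.sin_sq_eq_half_sub]
    have e1 : Real.cos (2 * (Real.pi / 2 - A - (Real.pi - s) / 4)) = Real.sin (2 * A - s / 2) := by
      rw [show 2 * (Real.pi / 2 - A - (Real.pi - s) / 4) = Real.pi / 2 - (2 * A - s / 2) by ring,
        Real.cos_pi_div_two_sub]
    have e2 : 2 * (Real.cos (2 * A) * Real.sin (s / 2)) =
        Real.sin (2 * A + s / 2) - Real.sin (2 * A - s / 2) := by
      rw [Real.sin_add, Real.sin_sub]
      ring
    have e3 := Real.sin_le_one (2 * A + s / 2)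
    rw [e1]
    linarith
  have h0 : Real.sqrt (Real.cos (2 * A) / 2) ≤ Real.sin (Real.pi / 2 - A) := by
    rw [Real.sin_pi_div_two_sub]
    apply Real.sqrt_le_iff.2
    refine ⟨Real.cos_nonneg_of_mem_Icc ⟨by linarith, by linarith⟩, ?_⟩
    rw [Real.cos_two_mul]
    linarith
  have h := dn_lc (b := 2 * Real.sin (s / 2)) (by positivity) hl hl1
    (a := Real.pi / 2 - A - (Real.pi - s) / 4) (by linarith) (by linarith)
    (a0 := Real.pi / 2 - A) (by linarith) (by linarith) (Real.sqrt_nonneg _) h1 h0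
  have e : lam * (Real.pi / 2 - A - (Real.pi - s) / 4) + (1 - lam) * (Real.pi / 2 - A) =
      Real.pi / 2 - (A + lam * (Real.pi - s) / 4) := by ring
  rwa [e, Real.sin_pi_div_two_sub] at h

theorem dn_tan_half {y : ℝ} (hy : 0 ≤ y) (hy1 : y ≤ Real.pi / 3) :
    Real.sqrt (Real.tan (y / 4)) / 2 * (2 * Real.sin (y / 2)) ^ ((1 : ℝ) / 2) =
      Real.sin (y / 4) := by
  have hpi := Real.pi_pos
  have hc : 0 < Real.cos (y / 4) := Real.cos_pos_of_mem_Ioo ⟨by linarith, by linarith⟩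
  have hs : 0 ≤ Real.sin (y / 4) := Real.sin_nonneg_of_nonneg_of_le_pi (by linarith) (by linarith)
  have ht : 0 ≤ Real.tan (y / 4) := by
    rw [Real.tan_eq_sin_div_cos]
    positivity
  have e1 : Real.sin (y / 2) = 2 * Real.sin (y / 4) * Real.cos (y / 4) := by
    rw [← Real.sin_two_mul]
    congr 1
    ring
  have hs2 : 0 ≤ 2 * Real.sin (y / 2) := by
    rw [e1]
    positivity
  rw [← Real.sqrt_eq_rpow, div_mul_eq_mul_div, ← Real.sqrt_mul ht]
  have e2 : Real.tan (y / 4) * (2 * Real.sin (y / 2)) = (2 * Real.sin (y / 4)) ^ 2 := by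
    rw [e1, Real.tan_eq_sin_div_cos]
    field_simp
  rw [e2, Real.sqrt_sq (by positivity)]
  ring

/-- (X2) -/
theorem dn_X2 {lam s A ψ y : ℝ} (hl : 0 ≤ lam) (hl1 : lam ≤ 1) (hs : 0 < s)
    (hs1 : s ≤ Real.pi / 3) (hA : 0 ≤ A) (hA1 : A ≤ Real.pi / 4)
    (hψ : A + lam * (Real.pi / 2 + ψ - s) / 2 ≤ Real.pi / 2) (hy : 0 ≤ y) (hyψ : y ≤ ψ)
    (hy1 : y ≤ Real.pi / 3) :
    Real.sqrt (Real.tan (y / 4)) / 2 * (2 * Real.sin (s / 2)) ^ (lam / 2) ≤
      Real.cos (A + lam * (Real.pi - s) / 4) := by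
  have hpi := Real.pi_pos
  have hss : 0 ≤ Real.sin (s / 2) := Real.sin_nonneg_of_nonneg_of_le_pi (by linarith) (by linarith)
  -- `tan (y/4) ≤ tan (π/12)`
  have htanm : ∀ {u v : ℝ}, 0 ≤ u → u ≤ v → v ≤ Real.pi / 3 →
      Real.tan (u / 4) ≤ Real.tan (v / 4) := by
    intro u v hu huv hv
    exact Real.strictMonoOn_tan.monotoneOn (a := u / 4) (b := v / 4)
      ⟨by linarith, by linarith⟩ ⟨by linarith, by linarith⟩ (by linarith)
  have htan1 : ∀ {u : ℝ}, 0 ≤ u → u ≤ Real.pi / 3 → Real.tan (u / 4) ≤ 1 / 2 := by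
    intro u hu hu1
    have h1 := htanm hu hu1 (le_refl _)
    have h2 : Real.tan (Real.pi / 3 / 4) ≤ 1 / 2 := by
      have hpi2 := Real.pi_lt_d2
      have hx0 : 0 < Real.pi / 3 / 4 := by positivity
      have hx1 : Real.pi / 3 / 4 < 0.27 := by linarith
      have hs' := (Real.sin_lt hx0).le
      have hc' := Real.one_sub_sq_div_two_le_cos (x := Real.pi / 3 / 4)
      have hc2 : 0.9 ≤ Real.cos (Real.pi / 3 / 4) := by nlinarith
      rw [Real.tan_eq_sin_div_cos, div_le_iff₀ (by linarith)]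
      linarith
    exact h1.trans h2
  have hη2 : Real.sin (Real.pi / 2 - (A + lam * (Real.pi - s) / 4)) =
      Real.cos (A + lam * (Real.pi - s) / 4) := Real.sin_pi_div_two_sub _
  rw [← hη2]
  have hlp : 0 ≤ lam * (Real.pi - s) := mul_nonneg hl (by linarith)
  rcases le_or_gt s y with hsy | hsy
  · -- `s ≤ y`
    have hb : 2 * Real.sin (s / 2) ≤ 2 * Real.sin (y / 2) := by
      have := Real.sin_le_sin_of_le_of_le_pi_div_two (x := s / 2) (y := y / 2) (by linarith)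
        (by linarith) (by linarith)
      linarith
    have h1 : (2 * Real.sin (s / 2)) ^ (lam / 2) ≤ (2 * Real.sin (y / 2)) ^ (lam / 2) :=
      Real.rpow_le_rpow (by positivity) hb (by linarith)
    have hM : 0 ≤ Real.sqrt (Real.tan (y / 4)) / 2 := by positivity
    have h0 : Real.sqrt (Real.tan (y / 4)) / 2 ≤ Real.sin (Real.pi / 8) := by
      have h2 : Real.sqrt (Real.tan (y / 4)) ≤ 0.72 := by
        apply Real.sqrt_le_iff.2
        refine ⟨by norm_num, ?_⟩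
        have := htan1 hy hy1
        norm_num at this ⊢
        linarith
      have hpi2 := Real.pi_gt_d2
      have h3 := Real.sin_gt_sub_cube (x := Real.pi / 8) (by positivity)
      have hpi3 := Real.pi_lt_d2
      have h4 : (Real.pi / 8) ^ 3 ≤ 0.394 ^ 3 := pow_le_pow_left₀ (by positivity) (by linarith) 3
      norm_num at h4
      linarith
    have h2 := dn_lc (b := 2 * Real.sin (y / 2)) (by linarith) hl hl1 (a := y / 4)
      (by linarith) (by linarith) (a0 := Real.pi / 8) (by linarith) (by linarith) hM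
      (dn_tan_half hy hy1).le h0
    have h3 := mul_le_mul_of_nonneg_left h1 hM
    refine (h3.trans h2).trans ?_
    have hly : lam * y ≤ lam * ψ := mul_le_mul_of_nonneg_left hyψ hl
    have hyl : 0 ≤ lam * y := mul_nonneg hl hy
    have hl' : 0 ≤ (1 - lam) * (Real.pi / 8) := mul_nonneg (by linarith) (by positivity)
    exact Real.sin_le_sin_of_le_of_le_pi_div_two (by linarith) (by linarith) (by linarith)
  · -- `y < s`
    have hM : 0 ≤ Real.sqrt (Real.tan (s / 4)) / 2 := by positivity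
    have hMM : Real.sqrt (Real.tan (y / 4)) / 2 ≤ Real.sqrt (Real.tan (s / 4)) / 2 := by
      have := Real.sqrt_le_sqrt (htanm hy hsy.le hs1)
      linarith
    have h0 : Real.sqrt (Real.tan (s / 4)) / 2 ≤ Real.sin (Real.pi / 4) := by
      have h2 : Real.sqrt (Real.tan (s / 4)) ≤ 0.72 := by
        apply Real.sqrt_le_iff.2
        refine ⟨by norm_num, ?_⟩
        have := htan1 hs.le hs1
        norm_num at this ⊢
        linarith
      rw [Real.sin_pi_div_four]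
      have h3 : (1.4 : ℝ) ≤ Real.sqrt 2 := Real.le_sqrt_of_sq_le (by norm_num)
      linarith
    have h2 := dn_lc (b := 2 * Real.sin (s / 2)) (by positivity) hl hl1 (a := s / 4)
      (by linarith) (by linarith) (a0 := Real.pi / 4) (by linarith) (by linarith) hM
      (dn_tan_half hs.le hs1).le h0
    have h3 := mul_le_mul_of_nonneg_right hMM
      (Real.rpow_nonneg (show 0 ≤ 2 * Real.sin (s / 2) by positivity) (lam / 2))
    refine (h3.trans h2).trans ?_
    have hls : 0 ≤ lam * s := mul_nonneg hl hs.le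
    have hl' : 0 ≤ (1 - lam) * (Real.pi / 4) := mul_nonneg (by linarith) (by positivity)
    exact Real.sin_le_sin_of_le_of_le_pi_div_two (by linarith) (by linarith) (by linarith)

/-- the Pick inequality from `Φ ≥ π/4` or `Φ ≥ π/2` -/
theorem dn_core {t κ w P Q : ℝ} (ht : 0 < t) (hw : 0 < w) (hκ : 0 < κ)
    (hκ1 : κ < Real.pi / 2) (hP : |P| < Real.pi / 2) (hQ : 0 < Q)
    (hr : 0 < 2 * t * Real.cos κ - t ^ 2)
    (h : (Real.pi / 4 ≤ P + κ ∧
        (2 * t * Real.cos κ - t ^ 2) * (1 + Real.sin (2 * κ)) < 4 * Q * t ^ 2) ∨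
      (Real.pi / 2 ≤ P + κ ∧
        (2 * t * Real.cos κ - t ^ 2) * Real.sin κ ^ 2 < 4 * Q * t ^ 2)) :
    (2 * t * Real.cos κ - t ^ 2) * (2 * w * Real.cos P - w ^ 2) <
      4 * Q * (t ^ 2 + w ^ 2 - 2 * t * w * Real.cos (P + κ)) := by
  have hpi := Real.pi_pos
  have hP' := abs_lt.1 hP
  have hcP : 0 < Real.cos P := Real.cos_pos_of_mem_Ioo ⟨by linarith, hP'.2⟩
  have hsκ : 0 < Real.sin κ := Real.sin_pos_of_pos_of_lt_pi hκ (by linarith)
  have hcκ : 0 < Real.cos κ := Real.cos_pos_of_mem_Ioo ⟨by linarith, hκ1⟩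
  have hw2 : 2 * w * Real.cos P - w ^ 2 ≤ Real.cos P ^ 2 := by
    have := sq_nonneg (w - Real.cos P)
    linarith [show (w - Real.cos P) ^ 2 = w ^ 2 - 2 * w * Real.cos P + Real.cos P ^ 2 by ring]
  set B := 2 * t * Real.cos κ - t ^ 2 with hB
  have key : ∀ K : ℝ, 0 ≤ K → B * K < 4 * Q * t ^ 2 → ∀ S : ℝ, 0 < S →
      Real.cos P ^ 2 ≤ K * S → t ^ 2 * S ≤ t ^ 2 + w ^ 2 - 2 * t * w * Real.cos (P + κ) →
      B * (2 * w * Real.cos P - w ^ 2) < 4 * Q * (t ^ 2 + w ^ 2 - 2 * t * w * Real.cos (P + κ)) := by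
    intro K hK hBK S hS h1 h2
    calc B * (2 * w * Real.cos P - w ^ 2) ≤ B * (K * S) :=
          mul_le_mul_of_nonneg_left (hw2.trans h1) hr.le
      _ = B * K * S := by ring
      _ < 4 * Q * t ^ 2 * S := mul_lt_mul_of_pos_right hBK hS
      _ = 4 * Q * (t ^ 2 * S) := by ring
      _ ≤ _ := mul_le_mul_of_nonneg_left h2 (by positivity)
  -- for `Φ ≥ π/2`
  have big : Real.pi / 2 ≤ P + κ → Real.cos P ^ 2 ≤ Real.sin κ ^ 2 * 1 ∧
      t ^ 2 * 1 ≤ t ^ 2 + w ^ 2 - 2 * t * w * Real.cos (P + κ) := by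
    intro hΦ
    have h1 : Real.cos P ≤ Real.sin κ := by
      rw [← Real.cos_pi_div_two_sub]
      exact Real.cos_le_cos_of_nonneg_of_le_pi (by linarith) (by linarith [hP'.2]) (by linarith)
    have h2 : Real.cos (P + κ) ≤ 0 :=
      Real.cos_nonpos_of_pi_div_two_le_of_le hΦ (by linarith [hP'.2])
    constructor
    · rw [mul_one]
      exact pow_le_pow_left₀ hcP.le h1 2
    · have := mul_nonneg (mul_pos ht hw).le (neg_nonneg.2 h2)
      nlinarith [sq_nonneg w]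
  rcases h with ⟨hΦ, hC⟩ | ⟨hΦ, hC⟩
  · have hs2 : Real.sin (2 * κ) = 2 * Real.sin κ * Real.cos κ := Real.sin_two_mul κ
    have hsc := Real.sin_sq_add_cos_sq κ
    rcases le_or_gt (Real.pi / 2) (P + κ) with hb | hb
    · obtain ⟨h1, h2⟩ := big hb
      have h3 : Real.sin κ ^ 2 * 1 ≤ (1 + Real.sin (2 * κ)) * 1 := by
        rw [hs2]
        have := mul_pos hsκ hcκ
        nlinarith [sq_nonneg (Real.cos κ)]
      exact key _ (by rw [hs2]; positivity) hC 1 one_pos (h1.trans h3) h2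
    · have hsΦ : 0 < Real.sin (P + κ) := Real.sin_pos_of_pos_of_lt_pi (by linarith) (by linarith)
      have hcs : Real.cos (P + κ) ≤ Real.sin (P + κ) := by
        rw [← Real.cos_pi_div_two_sub]
        exact Real.cos_le_cos_of_nonneg_of_le_pi (by linarith) (by linarith) (by linarith)
      have h1 : Real.cos P ≤ Real.sin (P + κ) * (Real.cos κ + Real.sin κ) := by
        have e : Real.cos P = Real.cos (P + κ) * Real.cos κ + Real.sin (P + κ) * Real.sin κ := by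
          rw [← Real.cos_sub]
          congr 1
          ring
        rw [e]
        have := mul_le_mul_of_nonneg_right hcs hcκ.le
        linarith
      have h2 := pow_le_pow_left₀ hcP.le h1 2
      refine key (1 + Real.sin (2 * κ)) (by rw [hs2]; positivity) hC (Real.sin (P + κ) ^ 2)
        (by positivity) ?_ ?_
      · have e : (Real.sin (P + κ) * (Real.cos κ + Real.sin κ)) ^ 2 =
            (1 + Real.sin (2 * κ)) * Real.sin (P + κ) ^ 2 := by
          rw [hs2]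
          linear_combination Real.sin (P + κ) ^ 2 * hsc
        linarith
      · have e := Real.sin_sq_add_cos_sq (P + κ)
        have := sq_nonneg (w - t * Real.cos (P + κ))
        nlinarith
  · obtain ⟨h1, h2⟩ := big hΦ
    exact key _ (by positivity) hC 1 one_pos h1 h2

/-- `(2 cos κ - 1)(1 + sin 2κ) ≤ 8/5` -/
theorem dn_num1 {κ : ℝ} (hκ : 0 ≤ κ) (hκ1 : κ ≤ Real.pi / 2) :
    (2 * Real.cos κ - 1) * (1 + Real.sin (2 * κ)) ≤ 8 / 5 := by
  have hpi := Real.pi_pos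
  set S := Real.sin κ with hS
  set Cc := Real.cos κ with hC
  have hS0 : 0 ≤ S := Real.sin_nonneg_of_nonneg_of_le_pi hκ (by linarith)
  have hC0 : 0 ≤ Cc := Real.cos_nonneg_of_mem_Icc ⟨by linarith, hκ1⟩
  have hsc : S ^ 2 + Cc ^ 2 = 1 := Real.sin_sq_add_cos_sq κ
  have hS1 : S ≤ 1 := Real.sin_le_one κ
  have hC1 : Cc ≤ 1 - S ^ 2 / 2 := by
    nlinarith [sq_nonneg (1 - Cc)]
  rw [Real.sin_two_mul]
  have h1 : (2 * Cc - 1) * (1 + 2 * S * Cc) ≤ (1 - S ^ 2) * (1 + 2 * S * Cc) :=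
    mul_le_mul_of_nonneg_right (by linarith) (by positivity)
  have h2 : (1 - S ^ 2) * (1 + 2 * S * Cc) ≤ (1 - S ^ 2) * (1 + 2 * S * (1 - S ^ 2 / 2)) := by
    apply mul_le_mul_of_nonneg_left _ (by nlinarith)
    have := mul_le_mul_of_nonneg_left hC1 (show 0 ≤ 2 * S by linarith)
    linarith
  have h3 : (1 - S ^ 2) * (1 + 2 * S * (1 - S ^ 2 / 2)) ≤ 8 / 5 := by
    have h5 : S ^ 5 ≤ S ^ 3 := pow_le_pow_of_le_one hS0 hS1 (by norm_num)
    nlinarith [sq_nonneg (S - 0.43), mul_nonneg hS0 (sq_nonneg (S - 0.43))]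
  linarith

/-- `κ^3 (2 cos κ - 1)^2 < .2499` for `κ ≤ 1.0472` -/
theorem dn_num2 {κ : ℝ} (hκ : 0 < κ) (hκ1 : κ ≤ 1.0472) (hG : 0 ≤ 2 * Real.cos κ - 1) :
    κ ^ 3 * (2 * Real.cos κ - 1) ^ 2 < 0.2499 := by
  have hc := Real.cos_le_one κ
  have hcb : ∀ a : ℝ, 0 ≤ a → a ≤ κ → Real.cos κ ≤ Real.cos a := fun a ha h =>
    Real.cos_le_cos_of_nonneg_of_le_pi ha (by linarith [Real.pi_gt_d2]) h
  have hub : ∀ a : ℝ, 0 ≤ a → a ≤ 1 → Real.cos a ≤ 1 - a ^ 2 / 2 + a ^ 4 * (5 / 96) := by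
    intro a ha ha1
    have := Real.cos_bound (x := a) (by rw [abs_of_nonneg ha]; exact ha1)
    rw [abs_of_nonneg ha] at this
    have := (abs_le.1 this).2
    linarith
  rcases le_or_gt κ 0.62 with h1 | h1
  · have a1 : κ ^ 3 ≤ 0.62 ^ 3 := pow_le_pow_left₀ hκ.le h1 3
    have a2 : (2 * Real.cos κ - 1) ^ 2 ≤ 1 := pow_le_one₀ hG (by linarith)
    have a3 : κ ^ 3 * (2 * Real.cos κ - 1) ^ 2 ≤ 0.62 ^ 3 * 1 :=
      mul_le_mul a1 a2 (by positivity) (by norm_num)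
    norm_num at a3 ⊢
    linarith
  rcases le_or_gt κ 0.8 with h2 | h2
  · have a1 : κ ^ 3 ≤ 0.8 ^ 3 := pow_le_pow_left₀ hκ.le h2 3
    have a4 : 2 * Real.cos κ - 1 ≤ 0.631 := by
      have b1 := hcb 0.62 (by norm_num) h1.le
      have b2 := hub 0.62 (by norm_num) (by norm_num)
      norm_num at b2 ⊢
      linarith
    have a2 : (2 * Real.cos κ - 1) ^ 2 ≤ 0.631 ^ 2 := pow_le_pow_left₀ hG a4 2
    have a3 : κ ^ 3 * (2 * Real.cos κ - 1) ^ 2 ≤ 0.8 ^ 3 * 0.631 ^ 2 :=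
      mul_le_mul a1 a2 (by positivity) (by norm_num)
    norm_num at a3 ⊢
    linarith
  · have a1 : κ ^ 3 ≤ 1.0472 ^ 3 := pow_le_pow_left₀ hκ.le hκ1 3
    have a4 : 2 * Real.cos κ - 1 ≤ 0.404 := by
      have b1 := hcb 0.8 (by norm_num) h2.le
      have b2 := hub 0.8 (by norm_num) (by norm_num)
      norm_num at b2 ⊢
      linarith
    have a2 : (2 * Real.cos κ - 1) ^ 2 ≤ 0.404 ^ 2 := pow_le_pow_left₀ hG a4 2
    have a3 : κ ^ 3 * (2 * Real.cos κ - 1) ^ 2 ≤ 1.0472 ^ 3 * 0.404 ^ 2 :=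
      mul_le_mul a1 a2 (by positivity) (by norm_num)
    norm_num at a3 ⊢
    linarith

end EQS
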