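import Mathlib
import Pool.Agent.Lib.MP_226de1_co.E.Step
import Pool.Agent.Lib.MP_226de1_co.E.LowerL

/-! Unit disc exit, first step with `F_1 > 0`: the inequalities (M1)-(M4) of dnote 1905.

`A = - Im X1`, `phi = Im (X1 - d1)` (`F_1 = k phi`), `tau = Im (X2 - d1)` (`arg p_{-2} = k tau`),
`z = (i - q_{-1}) / D_{-1}`, `c0 = Re D_0 / |D_{-1}|`, `m = |D_{-2}| / |i - q_{-2}|`. -/

set_option autoImplicit false

namespace EQS

open Complex

variable {k C : ℝ} {q0 q1 q2 q3 d0 d1 d2 X1 X2 X3 : ℂ}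

/-- `c0 = (2 sin (k phi / 2)) ^ (-1/k) cos (A - (pi - k phi) / (2 k))` -/
noncomputable def c0 (k A φ : ℝ) : ℝ :=
  (2 * Real.sin (k * φ / 2)) ^ (-(1 / k)) * Real.cos (A - (Real.pi - k * φ) / (2 * k))

/-- `Re (X1 - d1)` is `log C / k` when `|f_{-1}| = 1` -/
theorem St.disc_re (h : St k C q0 q1 q2 q3 d0 d1 d2 X1 X2 X3)
    (he : ‖1 - pv k C X1 d0‖ = 1) : Real.exp (k * (X1 - d1).re) = C := by
  have h1 : ‖pv k C X1 d1‖ = 1 := by rw [h.f1_eq]; exact he
  rw [norm_pv h.C0, div_eq_one_iff_eq h.C0.ne'] at h1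
  exact h1

/-- `f_{-1} = e^{i F_1}` -/
theorem St.disc_f1 (h : St k C q0 q1 q2 q3 d0 d1 d2 X1 X2 X3)
    (he : ‖1 - pv k C X1 d0‖ = 1) :
    pv k C X1 d1 = exp (((k * (X1 - d1).im : ℝ) : ℂ) * I) := by
  have hC := h.C0
  have h1 := h.disc_re he
  apply Complex.ext
  · rw [pv_re, h1, div_self hC.ne', one_mul, exp_ofReal_mul_I_re]
  · rw [pv_im, h1, div_self hC.ne', one_mul, exp_ofReal_mul_I_im]

/-- `p_{-1} = 2 sin (F/2) e^{i (F - pi)/2}` -/
theorem one_sub_exp (F : ℝ) :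
    (1 : ℂ) - exp ((F : ℂ) * I) =
      ((2 * Real.sin (F / 2) : ℝ) : ℂ) * exp ((((F - Real.pi) / 2 : ℝ) : ℂ) * I) := by
  have e1 : Real.cos ((F - Real.pi) / 2) = Real.sin (F / 2) := by
    rw [show (F - Real.pi) / 2 = F / 2 - Real.pi / 2 by ring, Real.cos_sub_pi_div_two]
  have e2 : Real.sin ((F - Real.pi) / 2) = -Real.cos (F / 2) := by
    rw [show (F - Real.pi) / 2 = F / 2 - Real.pi / 2 by ring, Real.sin_sub_pi_div_two]
  have e3 : Real.cos F = 1 - 2 * Real.sin (F / 2) ^ 2 := by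
    have := Real.cos_two_mul (F / 2)
    rw [show 2 * (F / 2) = F by ring] at this
    have := Real.sin_sq_add_cos_sq (F / 2)
    linarith
  have e4 : Real.sin F = 2 * Real.sin (F / 2) * Real.cos (F / 2) := by
    have := Real.sin_two_mul (F / 2)
    rw [show 2 * (F / 2) = F by ring] at this
    exact this
  apply Complex.ext
  · rw [sub_re, one_re, exp_ofReal_mul_I_re, re_ofReal_mul, exp_ofReal_mul_I_re, e1, e3]
    ring
  · rw [sub_im, one_im, exp_ofReal_mul_I_im, im_ofReal_mul, exp_ofReal_mul_I_im, e2, e4]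
    ring

/-- `A + phi < pi/2` -/
theorem St.psi_lt (h : St k C q0 q1 q2 q3 d0 d1 d2 X1 X2 X3) :
    -X1.im + (X1 - d1).im < Real.pi / 2 := by
  have := h.d1_im.1
  rw [sub_im]
  linarith

/-- length and direction of `D_0` -/
theorem St.disc_D0 (h : St k C q0 q1 q2 q3 d0 d1 d2 X1 X2 X3)
    (he : ‖1 - pv k C X1 d0‖ = 1) (hk3 : k ≤ 4) (hF : 0 < (X1 - d1).im) :
    (exp d0).re = Real.exp d1.re * c0 k (-X1.im) (X1 - d1).im ∧
      0 < Real.sin (k * (X1 - d1).im / 2) := by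
  have hpi := Real.pi_pos
  have k0 := h.k0
  have hC := h.C0
  set φ := (X1 - d1).im with hφ
  have hF0 : 0 < k * φ := mul_pos k0 hF
  have hψ := h.psi_lt
  rw [← hφ] at hψ
  have hφ2 : φ < Real.pi / 2 := by linarith [h.a1.2]
  have hF2 : k * φ < 2 * Real.pi := by nlinarith
  have hs : 0 < Real.sin (k * φ / 2) :=
    Real.sin_pos_of_pos_of_lt_pi (by linarith) (by linarith)
  refine ⟨?_, hs⟩
  have h1 := h.disc_f1 he
  have h2 : pv k C X1 d0 = ((2 * Real.sin (k * φ / 2) : ℝ) : ℂ) *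
      exp ((((k * φ - Real.pi) / 2 : ℝ) : ℂ) * I) := by
    rw [← one_sub_exp, ← h1]
    linear_combination h.f1
  -- modulus
  have h3 : Real.exp (k * (X1 - d0).re) / C = 2 * Real.sin (k * φ / 2) := by
    rw [← norm_pv hC (X := X1) (d := d0), h2, norm_mul, norm_exp_ofReal_mul_I, mul_one,
      Complex.norm_real, Real.norm_of_nonneg (by positivity)]
  have h4 := h.disc_re he
  have h5 : Real.exp (k * (d1 - d0).re) = 2 * Real.sin (k * φ / 2) := by
    have e1 : k * (X1 - d0).re = k * (d1 - d0).re + k * (X1 - d1).re := by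
      simp only [sub_re]; ring
    rw [e1, Real.exp_add, h4, mul_div_assoc, div_self hC.ne', mul_one] at h3
    exact h3
  have h6 : (2 * Real.sin (k * φ / 2)) ^ (-(1 / k)) = Real.exp (d0 - d1).re := by
    rw [← h5, ← Real.exp_mul]
    congr 1
    simp only [sub_re]
    field_simp
    ring
  -- argument
  have h7 : k * (X1 - d0).im = (k * φ - Real.pi) / 2 := by
    have hp := abs_le.1 h.p1
    have e1 : pv k C X1 d0 = ((2 * Real.sin (k * φ / 2) : ℝ) : ℂ) *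
        exp (((k * (X1 - d0).im : ℝ) : ℂ) * I) := by
      apply Complex.ext
      · rw [pv_re, h3, re_ofReal_mul, exp_ofReal_mul_I_re]
      · rw [pv_im, h3, im_ofReal_mul, exp_ofReal_mul_I_im]
    have e2 : exp (((k * (X1 - d0).im : ℝ) : ℂ) * I) =
        exp ((((k * φ - Real.pi) / 2 : ℝ) : ℂ) * I) := by
      have e3 : ((2 * Real.sin (k * φ / 2) : ℝ) : ℂ) ≠ 0 := by
        exact_mod_cast (by positivity : (2 * Real.sin (k * φ / 2)) ≠ 0)
      apply mul_left_cancel₀ e3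
      rw [← e1, h2]
    have e4 := congrArg Complex.re e2
    have e5 := congrArg Complex.im e2
    rw [exp_ofReal_mul_I_re, exp_ofReal_mul_I_re] at e4
    rw [exp_ofReal_mul_I_im, exp_ofReal_mul_I_im] at e5
    exact Real.injOn_sin ⟨by linarith, by linarith⟩ ⟨by linarith, by linarith⟩ e5
  have h8 : d0.im = X1.im - (k * φ - Real.pi) / (2 * k) := by
    have : (X1 - d0).im = (k * φ - Real.pi) / (2 * k) := by
      field_simp
      linarith
    rw [sub_im] at this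
    linarith
  have h9 : Real.cos d0.im = Real.cos (-X1.im - (Real.pi - k * φ) / (2 * k)) := by
    rw [h8, ← Real.cos_neg]
    congr 1
    ring
  unfold c0
  rw [h6, exp_re, h9, ← mul_assoc, ← Real.exp_add]
  congr 2
  simp

/-- (M2): `c0 sin (A - phi) ≤ Re z sin 2 A` -/
theorem St.disc_M2 (h : St k C q0 q1 q2 q3 d0 d1 d2 X1 X2 X3)
    (he : ‖1 - pv k C X1 d0‖ = 1) (hk3 : k ≤ 4) (hF : 0 < (X1 - d1).im)
    (hφ : (X1 - d1).im ≤ -X1.im) :
    c0 k (-X1.im) (X1 - d1).im * Real.sin (-X1.im - (X1 - d1).im) ≤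
      ((I - q1) / exp d1).re * Real.sin (2 * -X1.im) := by
  have hpi := Real.pi_pos
  obtain ⟨hD0, hs⟩ := h.disc_D0 he hk3 hF
  have hle := h.D0_le
  rw [hD0] at hle
  obtain ⟨p1, p2⟩ := quad_polar h.x1
  set A := -X1.im with hA
  set φ := (X1 - d1).im with hφd
  have hA0 : 0 < A := by rw [hA]; linarith [h.a1.2]
  have hA1 : A < Real.pi / 2 := by rw [hA]; linarith [h.a1.1]
  have hψ := h.psi_lt
  rw [← hA, ← hφd] at hψ
  set L := Real.exp d1.re with hL
  have hL0 : 0 < L := Real.exp_pos _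
  set R := Real.exp X1.re with hR
  have hR0 : 0 < R := Real.exp_pos _
  have ea : 2 * X1.im = -(2 * A) := by rw [hA]; ring
  rw [ea, Real.cos_neg] at p1
  rw [ea, Real.sin_neg] at p2
  have hz : ((I - q1) / exp d1).re =
      (-q1.re * Real.cos (A + φ) - (1 - q1.im) * Real.sin (A + φ)) / L := by
    have e1 : (I - q1) / exp d1 = (I - q1) * exp (-d1) := by
      rw [exp_neg, div_eq_mul_inv]
    have e2 : (-d1).im = A + φ := by
      rw [hA, hφd, neg_im, sub_im]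
      ring
    have e3 : Real.exp (-d1).re = L⁻¹ := by
      rw [hL, ← Real.exp_neg]
      simp
    rw [e1, mul_re, exp_re, exp_im, e2, e3]
    simp only [sub_re, sub_im, I_re, I_im]
    field_simp
    ring
  have hs2A : 0 < Real.sin (2 * A) := Real.sin_pos_of_pos_of_lt_pi (by linarith) (by linarith)
  have hsψ : 0 < Real.sin (A + φ) :=
    Real.sin_pos_of_pos_of_lt_pi (by linarith) (by linarith)
  have hsd : 0 ≤ Real.sin (A - φ) :=
    Real.sin_nonneg_of_nonneg_of_le_pi (by linarith) (by linarith)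
  have ha0 : 0 < -q1.re := by linarith [h.q1neg]
  -- `a cos 2A ≥ (1 - v) sin 2A`
  have key1 : 0 ≤ -q1.re * Real.cos (2 * A) - (1 - q1.im) * Real.sin (2 * A) := by
    have e1 : R ^ 2 * (-q1.re * Real.cos (2 * A) - (1 - q1.im) * Real.sin (2 * A)) =
        -q1.re * ((1 - q1.im) ^ 2 + q1.re ^ 2) := by
      linear_combination (q1.re) * p1 + (-(1 - q1.im)) * p2
    have e2 : 0 ≤ -q1.re * ((1 - q1.im) ^ 2 + q1.re ^ 2) := by positivity
    rw [← e1] at e2
    exact nonneg_of_mul_nonneg_right e2 (by positivity)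
  have key2 : -q1.re * Real.sin (A - φ) ≤
      (-q1.re * Real.cos (A + φ) - (1 - q1.im) * Real.sin (A + φ)) * Real.sin (2 * A) := by
    have e1 : Real.sin (A - φ) =
        Real.sin (2 * A) * Real.cos (A + φ) - Real.cos (2 * A) * Real.sin (A + φ) := by
      rw [← Real.sin_sub]
      congr 1
      ring
    rw [e1]
    nlinarith [mul_nonneg hsψ.le key1]
  rw [hz, div_mul_eq_mul_div, le_div_iff₀ hL0]
  calc c0 k A φ * Real.sin (A - φ) * L = (L * c0 k A φ) * Real.sin (A - φ) := by ring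
    _ ≤ -q1.re * Real.sin (A - φ) := mul_le_mul_of_nonneg_right hle hsd
    _ ≤ _ := key2

/-- (M3) -/
theorem St.disc_M3 (h : St k C q0 q1 q2 q3 d0 d1 d2 X1 X2 X3)
    (he : ‖1 - pv k C X1 d0‖ = 1) (hk3 : k ≤ 4) (hF : 0 < (X1 - d1).im)
    (hφ : (X1 - d1).im ≤ -X1.im) (hτ : (X2 - d1).im ≤ 0) :
    c0 k (-X1.im) (X1 - d1).im * Real.sin (2 * (X1 - d1).im) ≤
      Real.cos (-X1.im + (X1 - d1).im) * Real.sin (2 * -X1.im) := by
  have hpi := Real.pi_pos
  have k0 := h.k0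
  obtain ⟨hD0, hs⟩ := h.disc_D0 he hk3 hF
  have hle := h.D0_le
  rw [hD0] at hle
  have hψ := h.psi_lt
  have hG := lemG h.x1 h.x2 h.s1 h.q1neg.le (by
    have := h.p2
    rw [abs_mul, abs_of_pos k0] at this
    have h2 := h.hk
    have h3 := neg_abs_le (X2 - d1).im
    nlinarith [abs_nonneg (X2 - d1).im]) hτ
  set A := -X1.im with hA
  set φ := (X1 - d1).im with hφd
  have hA0 : 0 < A := by rw [hA]; linarith [h.a1.2]
  set L := Real.exp d1.re with hL
  have hL0 : 0 < L := Real.exp_pos _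
  have e2 : d1.im = -(A + φ) := by
    rw [hA, hφd]
    simp
  have e3 : -(2 * X1.im) = 2 * A := by rw [hA]; ring
  rw [exp_re, exp_im, ← hL, e2, Real.cos_neg, e3, Real.sin_neg] at hG
  have hsψ : 0 < Real.sin (A + φ) :=
    Real.sin_pos_of_pos_of_lt_pi (by linarith) (by linarith)
  have hs2 : 0 ≤ Real.sin (2 * φ) :=
    Real.sin_nonneg_of_nonneg_of_le_pi (by linarith) (by linarith [h.a1.1])
  have h1 : 0 ≤ 2 * (q1.re ^ 2 / Real.exp X1.re ^ 2) * (L * Real.sin (A + φ)) := by positivity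
  have h2 : L * c0 k A φ * Real.sin (2 * φ) ≤ L * Real.cos (A + φ) * Real.sin (2 * A) := by
    calc L * c0 k A φ * Real.sin (2 * φ) ≤ -q1.re * Real.sin (2 * φ) :=
          mul_le_mul_of_nonneg_right hle hs2
      _ ≤ _ := by nlinarith
  have h3 : L * (c0 k A φ * Real.sin (2 * φ)) ≤ L * (Real.cos (A + φ) * Real.sin (2 * A)) := by
    linarith
  exact le_of_mul_le_mul_left h3 hL0

/-- (M4) -/
theorem St.disc_M4 (h : St k C q0 q1 q2 q3 d0 d1 d2 X1 X2 X3) (hτ : (X2 - d1).im ≤ 0) :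
    k * (X2 - d2).im ≤ k * (Real.pi / 2 - -X1.im - (X1 - d1).im) := by
  have hpi := Real.pi_pos
  have k0 := h.k0
  apply mul_le_mul_of_nonneg_left _ k0.le
  -- `- pi/2 < Im d2`
  have b1 : |(X3 - d2).im| < Real.pi / 4 := by
    have := h.p3
    rw [abs_mul, abs_of_pos k0] at this
    nlinarith [abs_nonneg (X3 - d2).im, h.hk]
  have b2 := abs_lt.1 b1
  have hc := cos_pos_of_re h.D2
  have e1 : d2.im = X3.im - (X3 - d2).im := by
    rw [sub_im]
    ring
  have hd2 : -(Real.pi / 2) < d2.im := by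
    by_contra hcon
    push Not at hcon
    have h2 := Real.cos_nonpos_of_pi_div_two_le_of_le (x := -d2.im) (by linarith)
      (by linarith [h.a3.1])
    rw [Real.cos_neg] at h2
    linarith
  simp only [sub_im] at hτ ⊢
  linarith

/-- `|i - q_{-2}| ≤ T |i - q_{-1}|`, `T = |xi_{-2}/xi_{-1}|^2`, as soon as `A + phi ≥ 0` -/
theorem St.dist_I (h : St k C q0 q1 q2 q3 d0 d1 d2 X1 X2 X3)
    (hψ0 : 0 ≤ -X1.im + (X1 - d1).im) :
    ‖I - q2‖ ≤ Real.exp (2 * (X2 - X1).re) * ‖I - q1‖ := by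
  have hpi := Real.pi_pos
  have e0 : ∀ {q X : ℂ}, exp (2 * X) = 1 + q ^ 2 →
      ‖I - q‖ * ‖q + I‖ = Real.exp (2 * X.re) := by
    intro q X hx
    have e1 : ‖exp (2 * X)‖ = Real.exp (2 * X.re) := by
      rw [norm_exp]
      congr 1
      simp
    rw [← e1, hx, ← norm_mul]
    have : (I - q) * (q + I) = -(1 + q ^ 2) := by
      linear_combination I_sq
    rw [this, norm_neg]
  have e1 := e0 h.x1
  have e2 := e0 h.x2
  -- `|q1 + i| ≤ |q2 + i|`
  have hψ := h.psi_lt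
  have hd : d1.im = -(-X1.im + (X1 - d1).im) := by simp
  have hc : 0 < (exp d1).re := h.D1
  have hs : (exp d1).im ≤ 0 := by
    rw [exp_im, hd, Real.sin_neg]
    have := Real.sin_nonneg_of_nonneg_of_le_pi hψ0 (by linarith)
    nlinarith [Real.exp_pos d1.re]
  have h3 : ‖q1 + I‖ ≤ ‖q2 + I‖ := by
    have e3 : q1 + I = (q2 + I) + exp d1 := by rw [h.s1]; ring
    have hq2 : q2 = q1 - exp d1 := by rw [h.s1]; ring
    apply le_of_sq_le_sq _ (norm_nonneg _)
    rw [← Complex.normSq_eq_norm_sq, ← Complex.normSq_eq_norm_sq, normSq_apply, normSq_apply, hq2]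
    simp only [add_re, add_im, sub_re, sub_im, I_re, I_im]
    nlinarith [mul_pos hc (by linarith [h.q1neg] : 0 < -q1.re),
      mul_nonneg (by linarith : 0 ≤ -(exp d1).im) (by linarith [h.i1] : 0 ≤ q1.im + 1),
      sq_nonneg (exp d1).re, sq_nonneg (exp d1).im]
  have hp1 : 0 < ‖q1 + I‖ := by
    have : 0 < ‖I - q1‖ * ‖q1 + I‖ := by rw [e1]; exact Real.exp_pos _
    exact (pos_iff_pos_of_mul_pos this).1 (by
      rcases (norm_nonneg (I - q1)).lt_or_eq with h0 | h0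
      · exact h0
      · rw [← h0, zero_mul] at this
        exact absurd this (lt_irrefl _))
  have e4 : Real.exp (2 * (X2 - X1).re) * Real.exp (2 * X1.re) = Real.exp (2 * X2.re) := by
    rw [← Real.exp_add]
    congr 1
    simp only [sub_re]
    ring
  have h5 : ‖I - q2‖ * ‖q1 + I‖ ≤ Real.exp (2 * (X2 - X1).re) * ‖I - q1‖ * ‖q1 + I‖ := by
    calc ‖I - q2‖ * ‖q1 + I‖ ≤ ‖I - q2‖ * ‖q2 + I‖ :=
          mul_le_mul_of_nonneg_left h3 (norm_nonneg _)
      _ = Real.exp (2 * (X2 - X1).re) * (‖I - q1‖ * ‖q1 + I‖) := by rw [e1, e2, e4]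
      _ = _ := by ring
  exact le_of_mul_le_mul_right h5 hp1

/-- (M1) in exact form: `m^2 (1 + 2 Re z) ≤ |D_{-2}/D_{-1}|^2 (1 - T^{-2})` -/
theorem St.disc_M1' (h : St k C q0 q1 q2 q3 d0 d1 d2 X1 X2 X3)
    (hψ0 : 0 ≤ -X1.im + (X1 - d1).im) :
    (‖exp d2‖ / ‖I - q2‖) ^ 2 * (1 + 2 * ((I - q1) / exp d1).re) ≤
      Real.exp (2 * (d2 - d1).re) * (1 - Real.exp (-(4 * (X2 - X1).re))) := by
  have hT := h.dist_I hψ0
  set T := Real.exp (2 * (X2 - X1).re) with hTd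
  have hT0 : 0 < T := Real.exp_pos _
  have hTi : Real.exp (-(4 * (X2 - X1).re)) = (T ^ 2)⁻¹ := by
    rw [hTd, ← Real.exp_nat_mul, ← Real.exp_neg]
    congr 1
    push_cast
    ring
  have hD : exp d1 ≠ 0 := exp_ne_zero _
  have hq2 : I - q2 = (I - q1) + exp d1 := by rw [h.s1]; ring
  set L := ‖exp d1‖ with hL
  have hL0 : 0 < L := norm_pos_iff.2 hD
  -- `|i - q2|^2 = |i - q1|^2 + L^2 (1 + 2 Re z)`
  have e1 : ‖I - q2‖ ^ 2 = ‖I - q1‖ ^ 2 + L ^ 2 * (1 + 2 * ((I - q1) / exp d1).re) := by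
    have e2 : ((I - q1) / exp d1).re * L ^ 2 =
        ((I - q1) * (starRingEnd ℂ) (exp d1)).re := by
      have e3 : (I - q1) * (starRingEnd ℂ) (exp d1) =
          ((I - q1) / exp d1) * ((L ^ 2 : ℝ) : ℂ) := by
        rw [hL, ← Complex.normSq_eq_norm_sq, ← Complex.mul_conj]
        field_simp
      rw [e3, mul_comm ((I - q1) / exp d1), re_ofReal_mul]
      ring
    rw [hq2, ← Complex.normSq_eq_norm_sq, Complex.normSq_add, Complex.normSq_eq_norm_sq,
      Complex.normSq_eq_norm_sq, ← e2]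
    ring
  have hq2pos : 0 < ‖I - q2‖ := by
    rw [norm_pos_iff]
    intro h0
    have : q2.re = 0 := by
      have := congrArg Complex.re h0
      simp at this
      exact this
    linarith [h.r12, h.q1neg]
  have hd2 : ‖exp d2‖ ^ 2 = Real.exp (2 * (d2 - d1).re) * L ^ 2 := by
    rw [hL, norm_exp, norm_exp, ← Real.exp_nat_mul, ← Real.exp_nat_mul, ← Real.exp_add]
    congr 1
    simp only [sub_re]
    push_cast
    ring
  have h4 : ‖I - q2‖ ^ 2 ≤ T ^ 2 * ‖I - q1‖ ^ 2 := by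
    rw [← mul_pow]
    exact pow_le_pow_left₀ (norm_nonneg _) hT 2
  have h5 : L ^ 2 * (1 + 2 * ((I - q1) / exp d1).re) ≤ ‖I - q2‖ ^ 2 * (1 - (T ^ 2)⁻¹) := by
    have e6 : (T ^ 2)⁻¹ * ‖I - q2‖ ^ 2 ≤ ‖I - q1‖ ^ 2 := by
      rw [inv_mul_le_iff₀ (by positivity)]
      exact h4
    nlinarith
  rw [hTi, div_pow, div_mul_eq_mul_div, div_le_iff₀ (by positivity), hd2]
  have e7 := Real.exp_pos (2 * (d2 - d1).re)
  calc Real.exp (2 * (d2 - d1).re) * L ^ 2 * (1 + 2 * ((I - q1) / exp d1).re) =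
        Real.exp (2 * (d2 - d1).re) * (L ^ 2 * (1 + 2 * ((I - q1) / exp d1).re)) := by ring
    _ ≤ Real.exp (2 * (d2 - d1).re) * (‖I - q2‖ ^ 2 * (1 - (T ^ 2)⁻¹)) :=
        mul_le_mul_of_nonneg_left h5 e7.le
    _ = _ := by ring

/-- moduli at a disc exit: `t = |p_{-2}|`, `ρ = |f_{-2}|` -/
theorem St.disc_t (h : St k C q0 q1 q2 q3 d0 d1 d2 X1 X2 X3)
    (he : ‖1 - pv k C X1 d0‖ = 1) :
    ‖pv k C X2 d1‖ ^ (2 / k) = Real.exp (2 * (X2 - X1).re) ∧
      ‖pv k C X2 d2‖ ^ (-(2 / k)) * ‖pv k C X2 d1‖ ^ (2 / k) =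
        Real.exp (2 * (d2 - d1).re) := by
  have hC := h.C0
  have k0 := h.k0
  have h1 := h.disc_re he
  have e1 : ‖pv k C X2 d1‖ = Real.exp (k * (X2 - X1).re) := by
    rw [norm_pv hC, div_eq_iff hC.ne']
    rw [← h1, ← Real.exp_add]
    congr 1
    simp only [sub_re]
    ring
  have e2 : ‖pv k C X2 d2‖ = Real.exp (k * (X2 - X1).re + k * (d1 - d2).re) := by
    rw [norm_pv hC, div_eq_iff hC.ne']
    rw [← h1, ← Real.exp_add]
    congr 1
    simp only [sub_re]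
    ring
  constructor
  · rw [e1, ← Real.exp_mul]
    congr 1
    field_simp
  · rw [e1, e2, ← Real.exp_mul, ← Real.exp_mul, ← Real.exp_add]
    congr 1
    simp only [sub_re]
    field_simp
    ring

/-- (M1) -/
theorem St.disc_M1 (h : St k C q0 q1 q2 q3 d0 d1 d2 X1 X2 X3)
    (he : ‖1 - pv k C X1 d0‖ = 1) (hψ0 : 0 ≤ -X1.im + (X1 - d1).im) :
    (‖exp d2‖ / ‖I - q2‖) ^ 2 * (1 + 2 * ((I - q1) / exp d1).re) ≤
      ‖pv k C X2 d2‖ ^ (-(2 / k)) *
        (‖pv k C X2 d1‖ ^ (2 / k) - ‖pv k C X2 d1‖ ^ (-(2 / k))) := by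
  obtain ⟨e1, e2⟩ := h.disc_t he
  have h1 := h.disc_M1' hψ0
  have h0 : 0 < ‖pv k C X2 d1‖ := norm_pos_iff.2 (pv_ne h.C0)
  have e3 : ‖pv k C X2 d1‖ ^ (-(2 / k)) =
      ‖pv k C X2 d1‖ ^ (2 / k) * Real.exp (-(4 * (X2 - X1).re)) := by
    rw [Real.rpow_neg h0.le, e1, ← Real.exp_neg, ← Real.exp_add]
    congr 1
    ring
  rw [e3]
  calc _ ≤ _ := h1
    _ = _ := by rw [← e2]; ring

end EQS
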