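import Mathlib
import Pool.Agent.Lib.MP_226de1_co.E.DNendA
import Pool.Agent.Lib.MP_226de1_co.E.DNeg
import Pool.Agent.Lib.MP_226de1_co.E.DSt

/-! End of case N (`F_1 < 0`) of the unit disc exit: the Pick inequality from the bounds of
`Φ = arg (p_{-3} / p_{-2})`. -/

set_option autoImplicit false

namespace EQS

open Complex

theorem dn_small {x c t κ : ℝ} (hx : 0.3535 ≤ x) (hc : 0.79 ≤ c) (ht : 1 ≤ t) (hκ : 0 ≤ κ)
    (hκ1 : κ ≤ Real.pi / 2) :
    (2 * t * Real.cos κ - t ^ 2) * (1 + Real.sin (2 * κ)) < 4 * (x * (x + c)) * t ^ 2 := by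
  have hpi := Real.pi_pos
  have hcκ : 0 ≤ Real.cos κ := Real.cos_nonneg_of_mem_Icc ⟨by linarith, hκ1⟩
  have hs2 : 0 ≤ Real.sin (2 * κ) := Real.sin_nonneg_of_nonneg_of_le_pi (by linarith) (by linarith)
  have h1 := dn_num1 hκ hκ1
  have h2 : 2 * t * Real.cos κ - t ^ 2 ≤ t ^ 2 * (2 * Real.cos κ - 1) := by
    have : t * Real.cos κ ≤ t ^ 2 * Real.cos κ :=
      mul_le_mul_of_nonneg_right (by nlinarith) hcκ
    linarith
  have h3 := mul_le_mul_of_nonneg_right h2 (show 0 ≤ 1 + Real.sin (2 * κ) by linarith)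
  have h4 : x * (x + c) ≥ 0.3535 * (0.3535 + 0.79) :=
    mul_le_mul hx (by linarith) (by norm_num) (by linarith)
  have ht2 : 0 < t ^ 2 := by positivity
  have h5 := mul_le_mul_of_nonneg_left h1 ht2.le
  have h6 := mul_le_mul_of_nonneg_right h4 ht2.le
  norm_num at h6
  linarith

theorem dn_mid {x c t r κ : ℝ} (hx : 0.18 ≤ x) (hc : 0.7 ≤ c) (ht : 1 ≤ t)
    (hr0 : 0 ≤ r) (hr1 : r < 1) (hr : r ^ 2 = 1 - (2 * t * Real.cos κ - t ^ 2))
    (h : 1 ≤ r * t ∨ (0.6 ≤ r ∧ 0.9 * r ≤ t - 1)) :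
    (2 * t * Real.cos κ - t ^ 2) * (1 + Real.sin (2 * κ)) < 4 * (x * (x + c)) * t ^ 2 := by
  have hB : 2 * t * Real.cos κ - t ^ 2 = 1 - r ^ 2 := by linarith
  rw [hB]
  have hs2 := Real.sin_le_one (2 * κ)
  have hr2 : 0 ≤ 1 - r ^ 2 := by nlinarith
  have h3 : (1 - r ^ 2) * (1 + Real.sin (2 * κ)) ≤ (1 - r ^ 2) * 2 :=
    mul_le_mul_of_nonneg_left (by linarith) hr2
  have h4 : x * (x + c) ≥ 0.18 * (0.18 + 0.7) :=
    mul_le_mul hx (by linarith) (by norm_num) (by linarith)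
  have ht2 : 0 < t ^ 2 := by positivity
  have h6 := mul_le_mul_of_nonneg_right h4 ht2.le
  norm_num at h6
  have h7 : (1 - r ^ 2) * 2 < 0.6 * t ^ 2 := by
    rcases h with h | ⟨h, h'⟩
    · have h8 : 1 ≤ (r * t) ^ 2 := one_le_pow₀ h
      have h9 : (1 - r ^ 2) * 1 ≤ (1 - r ^ 2) * (r * t) ^ 2 := mul_le_mul_of_nonneg_left h8 hr2
      have h10 : (1 - r ^ 2) * r ^ 2 ≤ 1 / 4 := by nlinarith [sq_nonneg (r ^ 2 - 1 / 2)]
      have h11 := mul_le_mul_of_nonneg_right h10 ht2.le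
      have e : (1 - r ^ 2) * (r * t) ^ 2 = (1 - r ^ 2) * r ^ 2 * t ^ 2 := by ring
      rw [e] at h9
      linarith
    · have h8 : 1.54 ≤ t := by linarith
      have h9 : (1.54 : ℝ) ^ 2 ≤ t ^ 2 := pow_le_pow_left₀ (by norm_num) h8 2
      have h10 : (0.6 : ℝ) ^ 2 ≤ r ^ 2 := pow_le_pow_left₀ (by norm_num) h 2
      norm_num at h9 h10 ⊢
      linarith
  linarith

theorem dn_large {x c t κ : ℝ} (hx : 0 < x) (hx2 : κ / 32 ≤ x ^ 2) (hc : 0 < c)
    (hc2 : 1 / 2 ≤ c ^ 2) (ht : 1 ≤ t) (hκ : 0 < κ) (hκ1 : κ ≤ 1.0472)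
    (hB : 0 < 2 * t * Real.cos κ - t ^ 2) :
    (2 * t * Real.cos κ - t ^ 2) * Real.sin κ ^ 2 < 4 * (x * (x + c)) * t ^ 2 := by
  have ht2 : 0 < t ^ 2 := by positivity
  have hcκ : 0 ≤ Real.cos κ := Real.cos_nonneg_of_mem_Icc
    ⟨by linarith [Real.pi_pos], by linarith [Real.pi_gt_d2]⟩
  have h2 : 2 * t * Real.cos κ - t ^ 2 ≤ t ^ 2 * (2 * Real.cos κ - 1) := by
    have : t * Real.cos κ ≤ t ^ 2 * Real.cos κ :=
      mul_le_mul_of_nonneg_right (by nlinarith) hcκ
    linarith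
  have hG : 0 < 2 * Real.cos κ - 1 := by
    by_contra hcon
    have := mul_nonpos_of_nonneg_of_nonpos ht2.le (not_lt.1 hcon)
    linarith
  have h3 := dn_num2 hκ hκ1 hG.le
  set G := 2 * Real.cos κ - 1 with hGd
  have hs : Real.sin κ ^ 2 ≤ κ ^ 2 := by
    have h4 := (Real.sin_lt hκ).le
    have h5 : 0 ≤ Real.sin κ := Real.sin_nonneg_of_nonneg_of_le_pi hκ.le
      (by linarith [Real.pi_gt_d2])
    exact pow_le_pow_left₀ h5 h4 2
  have h6 : κ ^ 2 * G < 4 * (x * c) := by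
    apply lt_of_pow_lt_pow_left₀ 2 (by positivity)
    have e1 : (κ ^ 2 * G) ^ 2 = κ * (κ ^ 3 * G ^ 2) := by ring
    have e2 : (4 * (x * c)) ^ 2 = 16 * (x ^ 2 * c ^ 2) := by ring
    rw [e1, e2]
    have h7 := mul_lt_mul_of_pos_left h3 hκ
    have h8 : κ / 32 * (1 / 2) ≤ x ^ 2 * c ^ 2 :=
      mul_le_mul hx2 hc2 (by norm_num) (by positivity)
    norm_num at h7 ⊢
    linarith
  have hsκ : 0 ≤ Real.sin κ ^ 2 := by positivity
  calc (2 * t * Real.cos κ - t ^ 2) * Real.sin κ ^ 2 ≤ t ^ 2 * G * Real.sin κ ^ 2 :=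
        mul_le_mul_of_nonneg_right h2 hsκ
    _ ≤ t ^ 2 * G * κ ^ 2 := mul_le_mul_of_nonneg_left hs (by positivity)
    _ = t ^ 2 * (κ ^ 2 * G) := by ring
    _ < t ^ 2 * (4 * (x * c)) := mul_lt_mul_of_pos_left h6 ht2
    _ ≤ 4 * (x * (x + c)) * t ^ 2 := by
        have : 0 ≤ x ^ 2 * t ^ 2 := by positivity
        nlinarith

variable {k C : ℝ} {q0 q1 q2 q3 d0 d1 d2 X1 X2 X3 : ℂ}

/-- length and direction of `D_0` for `F_1 = - s < 0` -/
theorem St.negF_D0 (h : St k C q0 q1 q2 q3 d0 d1 d2 X1 X2 X3)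
    (he : ‖1 - pv k C X1 d0‖ = 1) {s : ℝ} (hsd : s = -(k * (X1 - d1).im)) (hs0 : 0 < s)
    (hs1 : s ≤ Real.pi / 3) :
    (exp d0).re = Real.exp d1.re *
      ((2 * Real.sin (s / 2)) ^ (-(1 / k)) * Real.cos (-X1.im + (Real.pi - s) / (2 * k))) := by
  have hpi := Real.pi_pos
  have k0 := h.k0
  have hC := h.C0
  have hs : 0 < Real.sin (s / 2) :=
    Real.sin_pos_of_pos_of_lt_pi (by linarith) (by linarith)
  have h1 := h.disc_f1 he
  have hF : k * (X1 - d1).im = -s := by linarith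
  rw [hF] at h1
  have h2 : pv k C X1 d0 = ((2 * Real.sin (s / 2) : ℝ) : ℂ) *
      exp ((((Real.pi - s) / 2 : ℝ) : ℂ) * I) := by
    have e1 : pv k C X1 d0 = 1 - exp (((-s : ℝ) : ℂ) * I) := by
      rw [← h1]
      linear_combination h.f1
    rw [e1, one_sub_exp]
    have e2 : (-s) / 2 = -(s / 2) := by ring
    rw [e2, Real.sin_neg]
    have e3 : exp ((((-s - Real.pi) / 2 : ℝ) : ℂ) * I) =
        -exp ((((Real.pi - s) / 2 : ℝ) : ℂ) * I) := by
      have e4 : (((-s - Real.pi) / 2 : ℝ) : ℂ) * I =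
          (((Real.pi - s) / 2 : ℝ) : ℂ) * I - (Real.pi : ℂ) * I := by
        push_cast
        ring
      rw [e4, exp_sub, exp_pi_mul_I]
      ring
    rw [e3]
    push_cast
    ring
  have h3 : Real.exp (k * (X1 - d0).re) / C = 2 * Real.sin (s / 2) := by
    rw [← norm_pv hC (X := X1) (d := d0), h2, norm_mul, norm_exp_ofReal_mul_I, mul_one,
      Complex.norm_real, Real.norm_of_nonneg (by positivity)]
  have h4 := h.disc_re he
  have h5 : Real.exp (k * (d1 - d0).re) = 2 * Real.sin (s / 2) := by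
    have e1 : k * (X1 - d0).re = k * (d1 - d0).re + k * (X1 - d1).re := by
      simp only [sub_re]; ring
    rw [e1, Real.exp_add, h4, mul_div_assoc, div_self hC.ne', mul_one] at h3
    exact h3
  have h6 : (2 * Real.sin (s / 2)) ^ (-(1 / k)) = Real.exp (d0 - d1).re := by
    rw [← h5, ← Real.exp_mul]
    congr 1
    simp only [sub_re]
    field_simp
    ring
  have h7 : k * (X1 - d0).im = (Real.pi - s) / 2 := by
    have hp := abs_le.1 h.p1
    have e1 : pv k C X1 d0 = ((2 * Real.sin (s / 2) : ℝ) : ℂ) *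
        exp (((k * (X1 - d0).im : ℝ) : ℂ) * I) := by
      apply Complex.ext
      · rw [pv_re, h3, re_ofReal_mul, exp_ofReal_mul_I_re]
      · rw [pv_im, h3, im_ofReal_mul, exp_ofReal_mul_I_im]
    have e2 : exp (((k * (X1 - d0).im : ℝ) : ℂ) * I) =
        exp ((((Real.pi - s) / 2 : ℝ) : ℂ) * I) := by
      have e3 : ((2 * Real.sin (s / 2) : ℝ) : ℂ) ≠ 0 := by
        exact_mod_cast (by positivity : (2 * Real.sin (s / 2)) ≠ 0)
      apply mul_left_cancel₀ e3
      rw [← e1, h2]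
    have e5 := congrArg Complex.im e2
    rw [exp_ofReal_mul_I_im, exp_ofReal_mul_I_im] at e5
    exact Real.injOn_sin ⟨by linarith, by linarith⟩ ⟨by linarith, by linarith⟩ e5
  have h8 : d0.im = X1.im - (Real.pi - s) / (2 * k) := by
    have : (X1 - d0).im = (Real.pi - s) / (2 * k) := by
      field_simp
      linarith
    rw [sub_im] at this
    linarith
  have h9 : Real.cos d0.im = Real.cos (-X1.im + (Real.pi - s) / (2 * k)) := by
    rw [h8, ← Real.cos_neg]
    congr 1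
    ring
  rw [h6, exp_re, h9, ← mul_assoc, ← Real.exp_add]
  congr 2
  simp

/-- geometry of `f_{-2} = 1 - p_{-2}` in case N: `psi = F_2 - P_2 - pi/2 ≥ - P_2/2` and
`sin psi = (r^2 + t^2 - 1)/(2 r t)` -/
theorem dn_geo {t r κ θ : ℝ} (ht : 1 ≤ t) (hr : 0 < r) (hκ : 0 < κ) (hκ1 : κ < Real.pi / 2)
    (hθ : 0 < θ) (hθ1 : θ < Real.pi)
    (h1 : r * Real.cos θ = 1 - t * Real.cos κ) (h2 : r * Real.sin θ = t * Real.sin κ) :
    κ / 2 ≤ θ + κ - Real.pi / 2 ∧ θ + κ - Real.pi / 2 < Real.pi / 2 ∧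
      2 * r * t * Real.sin (θ + κ - Real.pi / 2) = r ^ 2 + t ^ 2 - 1 := by
  have hpi := Real.pi_pos
  have hsκ : 0 < Real.sin κ := Real.sin_pos_of_pos_of_lt_pi hκ (by linarith)
  have hsc := Real.sin_sq_add_cos_sq κ
  have hscθ := Real.sin_sq_add_cos_sq θ
  have hβ : r * Real.sin (θ + κ) = Real.sin κ := by
    rw [Real.sin_add]
    linear_combination Real.cos κ * h2 + Real.sin κ * h1
  have hβ0 : 0 < Real.sin (θ + κ) := by
    have : 0 < r * Real.sin (θ + κ) := by rw [hβ]; exact hsκ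
    exact (pos_iff_pos_of_mul_pos this).1 hr
  have hβπ : θ + κ < Real.pi := by
    by_contra hcon
    have h3 : Real.sin (θ + κ) ≤ 0 := by
      have e : Real.sin (θ + κ) = -Real.sin (θ + κ - Real.pi) := by
        rw [Real.sin_sub_pi]
        ring
      rw [e]
      have := Real.sin_nonneg_of_nonneg_of_le_pi (x := θ + κ - Real.pi) (by linarith)
        (by linarith)
      linarith
    linarith
  have hts : t * Real.sin (θ + κ) = Real.sin θ := by
    -- `t sin(θ+κ) r = t sin κ = r sin θ`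
    have h3 : r * (t * Real.sin (θ + κ)) = r * Real.sin θ := by
      rw [h2, ← hβ]
      ring
    exact mul_left_cancel₀ hr.ne' h3
  refine ⟨?_, by linarith, ?_⟩
  · have h3 : Real.sin (θ + κ) ≤ Real.sin θ := by
      rw [← hts]
      have := mul_le_mul_of_nonneg_right ht hβ0.le
      linarith
    have h4 : Real.sin (θ + κ) - Real.sin θ =
        2 * Real.sin (κ / 2) * Real.cos (θ + κ / 2) := by
      rw [Real.sin_sub_sin]
      congr 2
      · ring_nf
      · ring_nf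
    have h5 : 0 < Real.sin (κ / 2) := Real.sin_pos_of_pos_of_lt_pi (by linarith) (by linarith)
    have h6 : Real.cos (θ + κ / 2) ≤ 0 := by
      by_contra hc
      have := mul_pos (mul_pos two_pos h5) (not_le.1 hc)
      linarith
    by_contra hcon
    have h7 : 0 < Real.cos (θ + κ / 2) :=
      Real.cos_pos_of_mem_Ioo ⟨by linarith, by linarith [not_le.1 hcon]⟩
    linarith
  · rw [Real.sin_sub_pi_div_two, Real.cos_add]
    nlinarith [h1, h2]

theorem dn_normSq (p : ℂ) : ‖1 - p‖ ^ 2 = 1 - 2 * p.re + ‖p‖ ^ 2 := by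
  rw [← Complex.normSq_eq_norm_sq, ← Complex.normSq_eq_norm_sq, Complex.normSq_apply,
    Complex.normSq_apply, sub_re, sub_im, one_re, one_im]
  ring

theorem dn_re {k C : ℝ} {X d : ℂ} (hC : 0 < C) :
    (pv k C X d).re = ‖pv k C X d‖ * Real.cos (k * (X - d).im) := by
  rw [norm_pv hC, pv_re]

theorem dn_im {k C : ℝ} {X d : ℂ} (hC : 0 < C) :
    (pv k C X d).im = ‖pv k C X d‖ * Real.sin (k * (X - d).im) := by
  rw [norm_pv hC, pv_im]

theorem dn_rt {r t : ℝ} (hr : 0 < r) (ht : 1 ≤ t) (ht2 : t ≤ 2)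
    (h : 1 ≤ r * t ∨ (0.6 ≤ r ∧ 0.9 * r ≤ t - 1)) : r * t ≤ r ^ 2 + t ^ 2 - 1 := by
  rcases h with h4 | ⟨_, h4⟩
  · have := sq_nonneg (r - t)
    have e : (r - t) ^ 2 = r ^ 2 - 2 * (r * t) + t ^ 2 := by ring
    linarith
  · have h5 := mul_le_mul_of_nonneg_right h4 (show 0 ≤ t + 1 by linarith)
    have h6 : 0 ≤ r * (r + 0.9 - 0.1 * t) := mul_nonneg hr.le (by linarith)
    have e1 : (t - 1) * (t + 1) = t ^ 2 - 1 := by ring
    have e2 : r * (r + 0.9 - 0.1 * t) = r ^ 2 + 0.9 * r - 0.1 * (r * t) := by ring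
    have e3 : 0.9 * r * (t + 1) = 0.9 * (r * t) + 0.9 * r := by ring
    rw [e1, e3] at h5
    rw [e2] at h6
    linarith

/-- division by `b ^ (1/k)` -/
theorem dn_div {b k M c : ℝ} (hb : 0 < b) (h : M * b ^ ((2 / k) / 2) ≤ c) :
    M ≤ b ^ (-(1 / k)) * c := by
  have h1 : 0 < b ^ (1 / k) := Real.rpow_pos_of_pos hb _
  have e : (2 / k) / 2 = 1 / k := by ring
  rw [e] at h
  rw [Real.rpow_neg hb.le, inv_mul_eq_div, le_div_iff₀ h1]
  exact h

/-- END of case N: the strict Pick inequality -/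
theorem St.negF_end (h : St k C q0 q1 q2 q3 d0 d1 d2 X1 X2 X3)
    (hh : X1.im < -(Real.pi / 4) → (pv k C X1 d1).re < 1 / 2)
    (hf : ‖1 - pv k C X1 d0‖ = 1) (h2 : ‖1 - pv k C X2 d1‖ < 1) (hF : (X1 - d1).im < 0)
    (hθ : 0 < k * (X2 - d2).im) (hθ1 : k * (X2 - d2).im < Real.pi)
    (h45 : Real.pi / 4 ≤ k * (X3 - d2).im - k * (X2 - d1).im)
    (h90 : Real.cos (2 * X1.im) ≤ 1 / 4 → ‖1 - pv k C X2 d1‖ * ‖pv k C X2 d1‖ < 1 →
      (‖1 - pv k C X2 d1‖ ≤ 0.6 ∨ ‖pv k C X2 d1‖ - 1 ≤ 0.9 * ‖1 - pv k C X2 d1‖) →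
      Real.pi / 2 ≤ k * (X3 - d2).im - k * (X2 - d1).im) :
    ‖exp d1‖ ^ 2 * ((1 - ‖1 - pv k C X2 d1‖ ^ 2) * (1 - ‖1 - pv k C X3 d2‖ ^ 2)) <
      4 * ‖pv k C X2 d1 - pv k C X3 d2‖ ^ 2 * ((exp d0).re * (exp d0 + exp d1).re) := by
  have hpi := Real.pi_pos
  have hpi4 := Real.pi_lt_d4
  have hpi4' := Real.pi_gt_d4
  have hk := h.hk
  have k0 := h.k0
  have hC0 := h.C0
  have a1 := h.a1
  have a2 := h.a2
  have hd := (h.dn_f1 hf).2
  set s : ℝ := -(k * (X1 - d1).im) with hs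
  set κ : ℝ := -(k * (X2 - d1).im) with hκ
  set A : ℝ := -X1.im with hA
  set θ : ℝ := k * (X2 - d2).im with hθd
  set P : ℝ := k * (X3 - d2).im with hPd
  set t : ℝ := ‖pv k C X2 d1‖ with ht
  set w : ℝ := ‖pv k C X3 d2‖ with hw
  set r : ℝ := ‖1 - pv k C X2 d1‖ with hr
  have hs0 : 0 < s := by
    rw [hs]
    have := mul_neg_of_pos_of_neg k0 hF
    linarith
  have hs1 : s ≤ Real.pi / 3 := by
    have := h.negF_s hf h2 hF
    linarith
  have hA1 : A ≤ Real.pi / 4 := by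
    have := h.negF_A hh hf h2 hF
    linarith
  have hA0 : 0 < A := by rw [hA]; linarith
  have hκs : s < 2 * κ := by
    have := mul_lt_mul_of_pos_left (h.negF hd.le hF) k0
    rw [hs, hκ]
    linarith
  have hκ0 : 0 < κ := by linarith
  have hκh : κ < Real.pi / 2 := by
    have := (abs_lt.1 h.p2).1
    rw [hκ]
    linarith
  have ht1 : 1 ≤ t := by
    rw [ht, h.dn_P hf]
    exact Real.one_le_exp (mul_nonneg k0.le (by linarith [h.negF_L hd.le hF]))
  have ht0 : 0 < t := by linarith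
  have hcos2 : Real.cos (k * (X2 - d1).im) = Real.cos κ := by rw [hκ, Real.cos_neg]
  have hsin2 : Real.sin (k * (X2 - d1).im) = -Real.sin κ := by rw [hκ, Real.sin_neg]; ring
  have htc : t < 2 * Real.cos κ := by
    have := h.dn_lt h2
    rwa [hcos2] at this
  have hκ3 : κ < Real.pi / 3 := by
    by_contra hcon
    have h3 : Real.cos κ ≤ Real.cos (Real.pi / 3) :=
      Real.cos_le_cos_of_nonneg_of_le_pi (by positivity) (by linarith) (not_lt.1 hcon)
    rw [Real.cos_pi_div_three] at h3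
    linarith
  have hw0 : 0 < w := norm_pos_iff.2 (pv_ne hC0)
  have hr0 : 0 < r := by
    rw [hr, ← h.f2_eq]
    exact norm_pos_iff.2 (pv_ne hC0)
  have hr2 : r ^ 2 = 1 - (2 * t * Real.cos κ - t ^ 2) := by
    rw [hr, dn_normSq, dn_re hC0, hcos2]
    ring
  have hB : 0 < 2 * t * Real.cos κ - t ^ 2 := by
    have : r ^ 2 < 1 := by nlinarith
    linarith
  have hw2 : 1 - ‖1 - pv k C X3 d2‖ ^ 2 = 2 * w * Real.cos P - w ^ 2 := by
    rw [dn_normSq, dn_re hC0]
    ring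
  have hdist : ‖pv k C X2 d1 - pv k C X3 d2‖ ^ 2 =
      t ^ 2 + w ^ 2 - 2 * t * w * Real.cos (P + κ) := by
    have e1 : ∀ a b : ℂ, ‖a - b‖ ^ 2 = ‖a‖ ^ 2 + ‖b‖ ^ 2 - 2 * (a.re * b.re + a.im * b.im) := by
      intro a b
      rw [← Complex.normSq_eq_norm_sq, ← Complex.normSq_eq_norm_sq, ← Complex.normSq_eq_norm_sq,
        Complex.normSq_apply, Complex.normSq_apply, Complex.normSq_apply, sub_re, sub_im]
      ring
    rw [e1, dn_re hC0 (X := X2), dn_im hC0 (X := X2), dn_re hC0 (X := X3), dn_im hC0 (X := X3),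
      hcos2, hsin2, Real.cos_add]
    ring
  -- `f_{-2}`
  have hf2 : pv k C X2 d2 = 1 - pv k C X2 d1 := h.f2_eq
  have hf2n : ‖pv k C X2 d2‖ = r := by rw [hf2]
  have hg1 : r * Real.cos θ = 1 - t * Real.cos κ := by
    have h3 := congrArg Complex.re hf2
    rw [dn_re hC0, hf2n, Complex.sub_re 1 (pv k C X2 d1), one_re, dn_re hC0, hcos2] at h3
    exact h3
  have hg2 : r * Real.sin θ = t * Real.sin κ := by
    have h3 := congrArg Complex.im hf2
    rw [dn_im hC0, hf2n, Complex.sub_im 1 (pv k C X2 d1), one_im, dn_im hC0, hsin2] at h3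
    linarith
  obtain ⟨hψ1, hψ2, hψ3⟩ := dn_geo ht1 hr0 hκ0 hκh hθ hθ1 hg1 hg2
  -- `d1`, `d2`
  have hd1 : d1.im = -A + s / k := by
    have e1 : d1.im = X1.im - (X1 - d1).im := by simp
    have e2 : (X1 - d1).im = -(s / k) := by
      rw [hs]
      field_simp
    rw [e1, e2, hA]
    ring
  have hsk : 0 < s / k := by positivity
  have hsk6 : s / k ≤ Real.pi / 6 := by
    rw [div_le_iff₀ k0]
    have := mul_le_mul_of_nonneg_left hk.le (show 0 ≤ Real.pi / 6 by positivity)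
    linarith
  have hAψ : A + 2 / k * (Real.pi / 2 + (θ + κ - Real.pi / 2) - s) / 2 ≤ Real.pi / 2 := by
    have e1 : d2.im = X2.im - (X2 - d2).im := by simp
    have e2 : (X2 - d2).im = θ / k := by
      rw [hθd]
      field_simp
    have e3 : X2.im = (X2 - d1).im + d1.im := by simp
    have e4 : (X2 - d1).im = -(κ / k) := by
      rw [hκ]
      field_simp
    have e5 : d2.im = -(A + 2 / k * (Real.pi / 2 + (θ + κ - Real.pi / 2) - s) / 2) := by
      rw [e1, e2, e3, e4, hd1]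
      field_simp
      ring
    by_contra hcon
    have h3 : Real.pi / 2 < -d2.im := by rw [e5]; linarith [not_le.1 hcon]
    have h4 : -d2.im ≤ Real.pi := by
      rw [e1, e2]
      have : θ / k ≤ Real.pi / 2 := by
        rw [div_le_iff₀ k0]
        have := mul_le_mul_of_nonneg_left hk.le (show 0 ≤ Real.pi / 2 by positivity)
        linarith
      linarith [a2.1]
    have h5 : Real.cos d2.im ≤ 0 := by
      rw [← Real.cos_neg]
      exact Real.cos_nonpos_of_pi_div_two_le_of_le h3.le (by linarith)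
    have h6 := h.D2
    rw [exp_re] at h6
    have := mul_nonneg (Real.exp_pos d2.re).le (neg_nonneg.2 h5)
    linarith
  -- `x` and `c`
  set b : ℝ := 2 * Real.sin (s / 2) with hb
  have hb0 : 0 < b := by
    have := Real.sin_pos_of_pos_of_lt_pi (x := s / 2) (by linarith) (by linarith)
    rw [hb]
    linarith
  set x : ℝ := b ^ (-(1 / k)) * Real.cos (A + (Real.pi - s) / (2 * k)) with hx
  set c : ℝ := Real.cos d1.im with hc
  have hD0 : (exp d0).re = Real.exp d1.re * x := h.negF_D0 hf hs hs0 hs1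
  have hD1 : (exp d1).re = Real.exp d1.re * c := exp_re d1
  have hlam : (0 : ℝ) ≤ 2 / k := by positivity
  have hlam1 : 2 / k ≤ 1 := by rw [div_le_one k0]; exact hk.le
  have ecos : A + (Real.pi - s) / (2 * k) = A + 2 / k * (Real.pi - s) / 4 := by
    field_simp
    ring
  have hX1 : Real.sqrt (Real.cos (2 * A) / 2) ≤ x := by
    rw [hx, ecos]
    exact dn_div hb0 (dn_X1 hlam hlam1 hs0 hs1 hA0.le hA1)
  have hX2 : ∀ y : ℝ, 0 ≤ y → y ≤ θ + κ - Real.pi / 2 → y ≤ Real.pi / 3 →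
      Real.sqrt (Real.tan (y / 4)) / 2 ≤ x := by
    intro y hy0 hy1 hy2
    rw [hx, ecos]
    exact dn_div hb0 (dn_X2 hlam hlam1 hs0 hs1 hA0.le hA1 hAψ hy0 hy1 hy2)
  have hcmin : Real.cos A ≤ c ∨ Real.cos (Real.pi / 6) ≤ c := by
    rcases le_or_gt (s / k) A with hsa | hsa
    · left
      rw [hc, hd1, ← Real.cos_neg (-A + s / k)]
      exact Real.cos_le_cos_of_nonneg_of_le_pi (by linarith) (by linarith) (by linarith)
    · right
      rw [hc, hd1]
      exact Real.cos_le_cos_of_nonneg_of_le_pi (by linarith) (by linarith) (by linarith)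
  have hsqrt3 : (1.73 : ℝ) ≤ Real.sqrt 3 := Real.le_sqrt_of_sq_le (by norm_num)
  have hsqrt2 : (1.414 : ℝ) ≤ Real.sqrt 2 := Real.le_sqrt_of_sq_le (by norm_num)
  have hc45 : Real.sqrt 2 / 2 ≤ c := by
    rcases hcmin with h3 | h3
    · refine le_trans ?_ h3
      rw [← Real.cos_pi_div_four]
      exact Real.cos_le_cos_of_nonneg_of_le_pi hA0.le (by linarith) hA1
    · rw [Real.cos_pi_div_six] at h3
      have : Real.sqrt 2 ≤ Real.sqrt 3 := Real.sqrt_le_sqrt (by norm_num)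
      linarith
  have hc0 : 0 < c := by linarith
  have hc2 : 1 / 2 ≤ c ^ 2 := by
    have h3 := pow_le_pow_left₀ (by positivity) hc45 2
    rw [div_pow, Real.sq_sqrt (by norm_num)] at h3
    norm_num at h3 ⊢
    linarith
  have hx0 : 0 < x := by
    have h3 := hX2 (κ / 2) (by linarith) hψ1 (by linarith)
    have h4 : 0 < Real.sqrt (Real.tan (κ / 2 / 4)) :=
      Real.sqrt_pos.2 (Real.tan_pos_of_pos_of_lt_pi_div_two (by linarith) (by linarith))
    linarith
  have hQ : 0 < x * (x + c) := by positivity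
  have hP : |P| < Real.pi / 2 := h.p3
  have hΦ : P + κ = P - k * (X2 - d1).im := by rw [hκ]; ring
  rw [← hΦ] at h45 h90
  -- the alternative
  have halt : (Real.pi / 4 ≤ P + κ ∧
        (2 * t * Real.cos κ - t ^ 2) * (1 + Real.sin (2 * κ)) < 4 * (x * (x + c)) * t ^ 2) ∨
      (Real.pi / 2 ≤ P + κ ∧
        (2 * t * Real.cos κ - t ^ 2) * Real.sin κ ^ 2 < 4 * (x * (x + c)) * t ^ 2) := by
    have hcosA : Real.cos (2 * A) = Real.cos (2 * X1.im) := by
      rw [hA, show 2 * -X1.im = -(2 * X1.im) by ring, Real.cos_neg]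
    rcases le_or_gt (Real.cos (2 * X1.im)) (1 / 4) with hc4 | hc4
    · by_cases hcase : 1 ≤ r * t ∨ (0.6 ≤ r ∧ 0.9 * r ≤ t - 1)
      · left
        refine ⟨h45, dn_mid ?_ (by linarith) ht1 hr0.le h2 hr2 hcase⟩
        -- `ψ ≥ π/6`
        have h3 : r * t ≤ r ^ 2 + t ^ 2 - 1 :=
          dn_rt hr0 ht1 (by linarith [Real.cos_le_one κ]) hcase
        have h4 : 1 / 2 ≤ Real.sin (θ + κ - Real.pi / 2) := by
          have h5 : 0 < r * t := mul_pos hr0 ht0
          have h6 : r * t * (1 / 2) ≤ r * t * Real.sin (θ + κ - Real.pi / 2) := by linarith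
          exact le_of_mul_le_mul_left h6 h5
        have h5 : Real.pi / 6 ≤ θ + κ - Real.pi / 2 := by
          by_contra hcon
          have h6 := Real.sin_lt_sin_of_lt_of_le_pi_div_two (x := θ + κ - Real.pi / 2)
            (y := Real.pi / 6) (by linarith) (by linarith) (not_le.1 hcon)
          rw [Real.sin_pi_div_six] at h6
          linarith
        have h6 := hX2 (Real.pi / 6) (by positivity) h5 (by linarith)
        have h7 : Real.pi / 6 / 4 ≤ Real.tan (Real.pi / 6 / 4) :=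
          (Real.lt_tan (by positivity) (by linarith)).le
        have h8 : (0.36 : ℝ) ≤ Real.sqrt (Real.tan (Real.pi / 6 / 4)) :=
          Real.le_sqrt_of_sq_le (by
            norm_num
            linarith)
        linarith
      · right
        push Not at hcase
        obtain ⟨h3, h4⟩ := hcase
        have h5 : r ≤ 0.6 ∨ t - 1 ≤ 0.9 * r := by
          rcases le_or_gt r 0.6 with h6 | h6
          · exact Or.inl h6
          · exact Or.inr (h4 h6.le).le
        refine ⟨h90 hc4 h3 h5, dn_large hx0 ?_ hc0 hc2 ht1 hκ0 (by linarith) hB⟩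
        have h6 := hX2 (κ / 2) (by linarith) hψ1 (by linarith)
        have h7 : κ / 2 / 4 ≤ Real.tan (κ / 2 / 4) :=
          (Real.lt_tan (by positivity) (by linarith)).le
        have h8 := pow_le_pow_left₀ (by positivity) h6 2
        rw [div_pow, Real.sq_sqrt (by linarith)] at h8
        linarith
    · left
      refine ⟨h45, dn_small ?_ ?_ ht1 hκ0.le hκh.le⟩
      · refine le_trans ?_ hX1
        apply Real.le_sqrt_of_sq_le
        rw [hcosA]
        norm_num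
        linarith
      · rcases hcmin with h3 | h3
        · refine le_trans ?_ h3
          have h4 : 0.625 ≤ Real.cos A ^ 2 := by
            rw [Real.cos_sq, hcosA]
            linarith
          by_contra hcon
          have hcA : 0 ≤ Real.cos A := Real.cos_nonneg_of_mem_Icc ⟨by linarith, by linarith⟩
          have h5 := pow_le_pow_left₀ hcA (not_le.1 hcon).le 2
          norm_num at h5 h4
          linarith
        · rw [Real.cos_pi_div_six] at h3
          linarith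
  have hcore := dn_core ht0 hw0 hκ0 hκh hP hQ hB halt
  have hn : ‖exp d1‖ = Real.exp d1.re := norm_exp d1
  have hr1 : 1 - r ^ 2 = 2 * t * Real.cos κ - t ^ 2 := by linarith
  rw [hn, hr1, hw2, hdist, add_re, hD0, hD1]
  have he : 0 < Real.exp d1.re ^ 2 := by positivity
  have := mul_lt_mul_of_pos_left hcore he
  calc _ = Real.exp d1.re ^ 2 * ((2 * t * Real.cos κ - t ^ 2) *
        (2 * w * Real.cos P - w ^ 2)) := by ring
    _ < _ := this
    _ = _ := by ring

end EQS
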