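import Mathlib
import Pool.Agent.Lib.MP_226de1_co.E.DNeg
import Pool.Agent.Lib.MP_226de1_co.E.DSt

/-! The exact second step `p_3^λ = f_2^λ + P + G (p_2^λ - f_1^λ + P)`, `λ = 2/k`, and the exact
first step `V = T e^{-iμ} - e^{-iν} - P e^{iν} = u - i w` in real variables. -/

set_option autoImplicit false

namespace EQS

open Complex

variable {k C : ℝ} {q0 q1 q2 q3 d0 d1 d2 X1 X2 X3 : ℂ}

/-- the exact second step -/
theorem St.step2 (h : St k C q0 q1 q2 q3 d0 d1 d2 X1 X2 X3) :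
    exp (2 * (X3 - d2)) = exp (2 * (X2 - d2)) + 1 +
      exp (d1 - d2) * (exp (2 * (X2 - d1)) - exp (2 * (X1 - d1)) + 1) := by
  have e : ∀ X d : ℂ, exp (2 * (X - d)) = exp (2 * X) / exp d ^ 2 := by
    intro X d
    rw [eq_div_iff (pow_ne_zero 2 (exp_ne_zero d)), exp_two_sub]
  have hD1 : exp d1 ≠ 0 := exp_ne_zero _
  have hD2 : exp d2 ≠ 0 := exp_ne_zero _
  rw [e, e, e, e, exp_sub, h.x1, h.x2, h.x3]
  have h1 : q1 = q3 + exp d2 + exp d1 := by rw [h.s1, h.s2]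
  have h2 : q2 = q3 + exp d2 := h.s2
  rw [h1, h2]
  field_simp
  ring

/-- the exact second step, imaginary part after rotation by `- b` -/
theorem St.step2_im (h : St k C q0 q1 q2 q3 d0 d1 d2 X1 X2 X3) (b : ℝ) :
    Real.exp (2 * (X3 - d2).re) * Real.sin (2 * (X3 - d2).im - b) =
      Real.exp (2 * (X2 - d2).re) * Real.sin (2 * (X2 - d2).im - b) - Real.sin b +
        Real.exp (d1 - d2).re *
          (Real.exp (2 * (X2 - d1).re) * Real.sin (2 * (X2 - d1).im + (d1 - d2).im - b) -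
            Real.exp (2 * (X1 - d1).re) * Real.sin (2 * (X1 - d1).im + (d1 - d2).im - b) +
            Real.sin ((d1 - d2).im - b)) := by
  have h1 : (exp (2 * (X3 - d2)) * exp (((-b : ℝ) : ℂ) * I)).im =
      ((exp (2 * (X2 - d2)) + 1 +
        exp (d1 - d2) * (exp (2 * (X2 - d1)) - exp (2 * (X1 - d1)) + 1)) *
        exp (((-b : ℝ) : ℂ) * I)).im := by rw [h.step2]
  have hi : ∀ z : ℂ, (exp z * exp (((-b : ℝ) : ℂ) * I)).im =
      Real.exp z.re * Real.sin (z.im - b) := by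
    intro z
    rw [← exp_add, exp_im]
    have e1 : (z + ((-b : ℝ) : ℂ) * I).re = z.re := by simp
    have e2 : (z + ((-b : ℝ) : ℂ) * I).im = z.im - b := by
      simp
      ring
    rw [e1, e2]
  have e1 : (exp (2 * (X2 - d2)) + 1 +
      exp (d1 - d2) * (exp (2 * (X2 - d1)) - exp (2 * (X1 - d1)) + 1)) *
        exp (((-b : ℝ) : ℂ) * I) =
      exp (2 * (X2 - d2)) * exp (((-b : ℝ) : ℂ) * I) + exp 0 * exp (((-b : ℝ) : ℂ) * I) +
        (exp (2 * (X2 - d1) + (d1 - d2)) * exp (((-b : ℝ) : ℂ) * I) -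
          exp (2 * (X1 - d1) + (d1 - d2)) * exp (((-b : ℝ) : ℂ) * I) +
          exp (d1 - d2) * exp (((-b : ℝ) : ℂ) * I)) := by
    rw [exp_add (2 * (X2 - d1)), exp_add (2 * (X1 - d1)), exp_zero]
    ring
  rw [e1] at h1
  have hadd : ∀ x y z u v : ℂ, (x + y + (z - u + v)).im = x.im + y.im + (z.im - u.im + v.im) := by
    intro x y z u v
    simp
  rw [hadd, hi, hi, hi, hi, hi, hi] at h1
  have r1 : ∀ z : ℂ, (2 * z).re = 2 * z.re := fun z => by simp
  have i1 : ∀ z : ℂ, (2 * z).im = 2 * z.im := fun z => by simp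
  rw [add_re, add_re, add_im, add_im, r1, r1, r1, r1, i1, i1, i1, i1, zero_re, zero_im,
    Real.exp_zero, zero_sub, Real.sin_neg, Real.exp_add, Real.exp_add] at h1
  linarith

/-- the exact first step: `T e^{i(2τ-φ)} = e^{iφ} + P e^{-iφ} + u - i w` -/
theorem St.dn_V (h : St k C q0 q1 q2 q3 d0 d1 d2 X1 X2 X3) :
    ∃ u w : ℝ, 0 < u ∧ 0 < w ∧
      Real.exp (2 * (X2 - X1).re) * Real.cos (2 * (X2 - d1).im - (X1 - d1).im) =
        (1 + Real.exp (-(2 * (X1 - d1).re))) * Real.cos (X1 - d1).im + u ∧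
      Real.exp (2 * (X2 - X1).re) * Real.sin (2 * (X2 - d1).im - (X1 - d1).im) =
        (1 - Real.exp (-(2 * (X1 - d1).re))) * Real.sin (X1 - d1).im - w ∧
      4 * Real.exp (-(2 * (X1 - d1).re)) * (Real.sin (-X1.im) * Real.cos (-X1.im)) =
        (u * Real.cos (-X1.im) - w * Real.sin (-X1.im)) *
          (w * Real.cos (-X1.im) + u * Real.sin (-X1.im)) := by
  have hq := q_exp_mem h.x1 h.a1 h.q1neg h.i1
  have hr := sym_re h.x1 h.x2 h.s1
  have hi := sym_im h.x1 h.x2 h.s1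
  set ρ := (X1 - d1).re with hρ
  set E := Real.exp (-ρ) with hE
  have hE0 : 0 < E := Real.exp_pos _
  set z : ℂ := q1 * exp (-X1) with hz
  have eT : E * Real.exp (2 * X2 - X1 - d1).re = Real.exp (2 * (X2 - X1).re) := by
    rw [hE, ← Real.exp_add]
    congr 1
    rw [hρ]
    simp
    ring
  have e1 : E * Real.exp ρ = 1 := by rw [hE, ← Real.exp_add]; simp
  have e2 : E * E = Real.exp (-(2 * ρ)) := by
    rw [hE, ← Real.exp_add]
    congr 1
    ring
  refine ⟨-(2 * E * z.re), 2 * E * z.im, ?_, ?_, ?_, ?_, ?_⟩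
  · have := mul_neg_of_pos_of_neg hE0 hq.2
    linarith
  · have := mul_pos hE0 hq.1
    linarith
  · rw [← eT, mul_assoc, hr, ← e2]
    linear_combination Real.cos (X1 - d1).im * e1
  · rw [← eT, mul_assoc, hi, ← e2]
    linear_combination Real.sin (X1 - d1).im * e1
  · -- `z ^ 2 = 1 - e^{-2 X1}`
    have e3 : z * z = 1 - exp (-(2 * X1)) := by
      have e4 : z * z = (q1 ^ 2) * exp (-(2 * X1)) := by
        have e5 : exp (-(2 * X1)) = exp (-X1) * exp (-X1) := by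
          rw [← exp_add]
          congr 1
          ring
        rw [hz, e5]
        ring
      have e6 : q1 ^ 2 = exp (2 * X1) - 1 := by rw [h.x1]; ring
      have e7 : exp (2 * X1) * exp (-(2 * X1)) = 1 := by
        rw [← exp_add, add_neg_cancel, exp_zero]
      rw [e4, e6, sub_mul, e7]
      ring
    have e8 := congrArg Complex.re e3
    have e9 := congrArg Complex.im e3
    have e10 : (-(2 * X1)).re = -(2 * X1.re) := by simp
    have e11 : (-(2 * X1)).im = -(2 * X1.im) := by simp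
    rw [mul_re, sub_re, one_re, exp_re, e10, e11] at e8
    rw [mul_im, sub_im, one_im, exp_im, e10, e11] at e9
    set R := Real.exp (-(2 * X1.re)) with hR
    set A := -X1.im with hA
    have e12 : -(2 * X1.im) = 2 * A := by rw [hA]; ring
    rw [e12, Real.cos_two_mul] at e8
    rw [e12, Real.sin_two_mul] at e9
    rw [← e2]
    have hsc := Real.sin_sq_add_cos_sq A
    -- `u² - w² = 4 P (1 - R cos 2A)`, `2 u w = 4 P R sin 2A`
    linear_combination (4 * E * E * (Real.sin A * Real.cos A)) * (-e8) +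
      (2 * E * E * (Real.cos A ^ 2 - Real.sin A ^ 2)) * e9 +
      (4 * E * E * Real.sin A * Real.cos A * R) * hsc

theorem pv_rpow {k C : ℝ} {X d : ℂ} (hC : 0 < C) (hk : 0 < k) :
    ‖pv k C X d‖ ^ (2 / k) = C ^ (-(2 / k)) * Real.exp (2 * (X - d).re) := by
  rw [norm_pv hC, Real.div_rpow (Real.exp_pos _).le hC.le, ← Real.exp_mul, Real.rpow_neg hC.le,
    div_eq_mul_inv, mul_comm]
  congr 2
  field_simp

/-- `P = C ^ (-2/k) = e^{-2 Re (X1 - d1)}` at a disc exit -/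
theorem St.dn_Pe (h : St k C q0 q1 q2 q3 d0 d1 d2 X1 X2 X3) (hf : ‖1 - pv k C X1 d0‖ = 1) :
    C ^ (-(2 / k)) = Real.exp (-(2 * (X1 - d1).re)) := by
  have k0 := h.k0
  have h1 := (h.dn_f1 hf).1
  rw [← h1, ← Real.exp_mul]
  congr 1
  field_simp

/-- `T = t ^ (2/k) = |xi_{-2}/xi_{-1}|^2` -/
theorem St.dn_T (h : St k C q0 q1 q2 q3 d0 d1 d2 X1 X2 X3) (hf : ‖1 - pv k C X1 d0‖ = 1) :
    ‖pv k C X2 d1‖ ^ (2 / k) = Real.exp (2 * (X2 - X1).re) := (h.disc_t hf).1

/-- `(r/t) ^ (1/k) = |D_{-1}/D_{-2}|` -/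
theorem St.dn_a (h : St k C q0 q1 q2 q3 d0 d1 d2 X1 X2 X3) :
    (‖1 - pv k C X2 d1‖ / ‖pv k C X2 d1‖) ^ (1 / k) = Real.exp (d1 - d2).re := by
  have k0 := h.k0
  have hC := h.C0
  rw [← h.f2_eq, norm_pv hC, norm_pv hC]
  have e1 : Real.exp (k * (X2 - d2).re) / C / (Real.exp (k * (X2 - d1).re) / C) =
      Real.exp (k * (d1 - d2).re) := by
    rw [div_div_div_cancel_right₀ hC.ne', ← Real.exp_sub]
    congr 1
    simp only [sub_re]
    ring
  rw [e1, ← Real.exp_mul]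
  congr 1
  field_simp

/-- `P_3 ≥ χ` from the sign of the rotated imaginary part, any `χ` with `λ (χ + π/2) ≤ π` -/
theorem St.dn_chi' (h : St k C q0 q1 q2 q3 d0 d1 d2 X1 X2 X3) (hf : ‖1 - pv k C X1 d0‖ = 1)
    {lam r t P s κ θ χ : ℝ} (hlam : lam = 2 / k) (hr : r = ‖1 - pv k C X2 d1‖)
    (ht : t = ‖pv k C X2 d1‖) (hP : P = C ^ (-(2 / k))) (hs : s = -(k * (X1 - d1).im))
    (hκ : κ = -(k * (X2 - d1).im)) (hθ : θ = k * (X2 - d2).im) (hχ : lam * (χ + Real.pi / 2) ≤ Real.pi)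
    (hE : 0 ≤ r ^ lam * Real.sin (lam * (θ - χ)) - P * Real.sin (lam * χ) +
      (r / t) ^ (lam / 2) * (t ^ lam * Real.sin (lam * ((θ - κ) / 2 - χ)) -
        Real.sin (lam * ((θ + κ) / 2 - s - χ)) + P * Real.sin (lam * ((θ + κ) / 2 - χ)))) :
    χ ≤ k * (X3 - d2).im := by
  have hpi := Real.pi_pos
  have k0 := h.k0
  have hk := h.hk
  have hC := h.C0
  have hlam0 : 0 < lam := by rw [hlam]; positivity
  have hlam1 : lam ≤ 1 := by rw [hlam, div_le_one k0]; exact hk.le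
  have e1 := h.step2_im (lam * χ)
  have eP := h.dn_Pe hf
  have eT := h.dn_T hf
  have ea := h.dn_a
  have er : ‖1 - pv k C X2 d1‖ ^ (2 / k) = P * Real.exp (2 * (X2 - d2).re) := by
    rw [← h.f2_eq, pv_rpow hC k0, hP]
  have et : ‖pv k C X2 d1‖ ^ (2 / k) = P * Real.exp (2 * (X2 - d1).re) := by
    rw [pv_rpow hC k0, hP]
  have e1P : P * Real.exp (2 * (X1 - d1).re) = 1 := by
    rw [hP, eP, ← Real.exp_add, neg_add_cancel, Real.exp_zero]
  have hP0 : 0 < P := by rw [hP]; positivity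
  -- angles
  have a1 : 2 * (X3 - d2).im = lam * (k * (X3 - d2).im) := by rw [hlam]; field_simp
  have a2 : 2 * (X2 - d2).im = lam * θ := by rw [hlam, hθ]; field_simp
  have a3 : 2 * (X2 - d1).im = -(lam * κ) := by rw [hlam, hκ]; field_simp
  have a4 : 2 * (X1 - d1).im = -(lam * s) := by rw [hlam, hs]; field_simp
  have a5 : (d1 - d2).im = lam * ((θ + κ) / 2) := by
    have : (d1 - d2).im = (X2 - d2).im - (X2 - d1).im := by
      simp only [sub_im]
      ring
    linarith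
  have ha : (r / t) ^ (lam / 2) = Real.exp (d1 - d2).re := by
    rw [hr, ht, hlam, show 2 / k / 2 = 1 / k by ring]
    exact ea
  rw [a1, a2, a3, a4, a5] at e1
  have b1 : lam * (k * (X3 - d2).im) - lam * χ = lam * (k * (X3 - d2).im - χ) := by ring
  have b2 : lam * θ - lam * χ = lam * (θ - χ) := by ring
  have b3 : -(lam * κ) + lam * ((θ + κ) / 2) - lam * χ = lam * ((θ - κ) / 2 - χ) := by ring
  have b4 : -(lam * s) + lam * ((θ + κ) / 2) - lam * χ = lam * ((θ + κ) / 2 - s - χ) := by ring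
  have b5 : lam * ((θ + κ) / 2) - lam * χ = lam * ((θ + κ) / 2 - χ) := by ring
  rw [b1, b2, b3, b4, b5, ← ha] at e1
  have e2 : P * (Real.exp (2 * (X3 - d2).re) * Real.sin (lam * (k * (X3 - d2).im - χ))) =
      r ^ lam * Real.sin (lam * (θ - χ)) - P * Real.sin (lam * χ) +
      (r / t) ^ (lam / 2) * (t ^ lam * Real.sin (lam * ((θ - κ) / 2 - χ)) -
        Real.sin (lam * ((θ + κ) / 2 - s - χ)) + P * Real.sin (lam * ((θ + κ) / 2 - χ))) := by
    rw [e1]
    have er' : r ^ lam = P * Real.exp (2 * (X2 - d2).re) := by rw [hr, hlam]; exact er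
    have et' : t ^ lam = P * Real.exp (2 * (X2 - d1).re) := by rw [ht, hlam]; exact et
    rw [er', et']
    linear_combination (-(r / t) ^ (lam / 2) * Real.sin (lam * ((θ + κ) / 2 - s - χ))) * e1P
  rw [← e2] at hE
  have h3 : 0 ≤ Real.sin (lam * (k * (X3 - d2).im - χ)) := by
    by_contra hc
    have := mul_neg_of_pos_of_neg hP0 (mul_neg_of_pos_of_neg (Real.exp_pos (2 * (X3 - d2).re))
      (not_le.1 hc))
    linarith
  by_contra hcon
  have h4 := not_le.1 hcon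
  have h5 := (abs_lt.1 h.p3).1
  have h8 : lam * (k * (X3 - d2).im - χ) < 0 := mul_neg_of_pos_of_neg hlam0 (by linarith)
  have h9 : -Real.pi < lam * (k * (X3 - d2).im - χ) := by
    have h10 : lam * (χ - k * (X3 - d2).im) < lam * (χ + Real.pi / 2) :=
      mul_lt_mul_of_pos_left (by linarith) hlam0
    have e10 : lam * (k * (X3 - d2).im - χ) = -(lam * (χ - k * (X3 - d2).im)) := by ring
    rw [e10]
    linarith
  have := Real.sin_neg_of_neg_of_neg_pi_lt h8 h9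
  linarith

/-- `P_3 ≥ χ` from the sign of the rotated imaginary part -/
theorem St.dn_chi (h : St k C q0 q1 q2 q3 d0 d1 d2 X1 X2 X3) (hf : ‖1 - pv k C X1 d0‖ = 1)
    {lam r t P s κ θ χ : ℝ} (hlam : lam = 2 / k) (hr : r = ‖1 - pv k C X2 d1‖)
    (ht : t = ‖pv k C X2 d1‖) (hP : P = C ^ (-(2 / k))) (hs : s = -(k * (X1 - d1).im))
    (hκ : κ = -(k * (X2 - d1).im)) (hθ : θ = k * (X2 - d2).im) (hχ : |χ| ≤ Real.pi / 2)
    (hE : 0 ≤ r ^ lam * Real.sin (lam * (θ - χ)) - P * Real.sin (lam * χ) +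
      (r / t) ^ (lam / 2) * (t ^ lam * Real.sin (lam * ((θ - κ) / 2 - χ)) -
        Real.sin (lam * ((θ + κ) / 2 - s - χ)) + P * Real.sin (lam * ((θ + κ) / 2 - χ)))) :
    χ ≤ k * (X3 - d2).im := by
  have hpi := Real.pi_pos
  have k0 := h.k0
  have hlam0 : 0 < lam := by rw [hlam]; positivity
  have hlam1 : lam ≤ 1 := by rw [hlam, div_le_one k0]; exact h.hk.le
  refine h.dn_chi' hf hlam hr ht hP hs hκ hθ ?_ hE
  have h6 := (abs_le.1 hχ).2
  have h7 := (abs_le.1 hχ).1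
  have : lam * (χ + Real.pi / 2) ≤ 1 * (χ + Real.pi / 2) :=
    mul_le_mul_of_nonneg_right hlam1 (by linarith)
  linarith

/-- the exact first step in the variables of dnote 1946 -/
theorem St.dn_V' (h : St k C q0 q1 q2 q3 d0 d1 d2 X1 X2 X3) (hf : ‖1 - pv k C X1 d0‖ = 1)
    {lam t P s κ A : ℝ} (hlam : lam = 2 / k)
    (ht : t = ‖pv k C X2 d1‖) (hP : P = C ^ (-(2 / k))) (hs : s = -(k * (X1 - d1).im))
    (hκ : κ = -(k * (X2 - d1).im)) (hA : A = -X1.im) :
    ∃ u w : ℝ, 0 < u ∧ 0 < w ∧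
      t ^ lam * Real.cos (lam * (κ - s / 2)) = (1 + P) * Real.cos (lam * s / 2) + u ∧
      t ^ lam * Real.sin (lam * (κ - s / 2)) = (1 - P) * Real.sin (lam * s / 2) + w ∧
      4 * P * (Real.sin A * Real.cos A) =
        (u * Real.cos A - w * Real.sin A) * (w * Real.cos A + u * Real.sin A) := by
  obtain ⟨u, w, hu, hw, h1, h2, h3⟩ := h.dn_V
  have k0 := h.k0
  have eP := h.dn_Pe hf
  have eT := h.dn_T hf
  have a3 : 2 * (X2 - d1).im - (X1 - d1).im = -(lam * (κ - s / 2)) := by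
    rw [hlam, hκ, hs]
    field_simp
    ring
  have a4 : (X1 - d1).im = -(lam * s / 2) := by rw [hlam, hs]; field_simp
  have a5 : Real.cos (X1 - d1).im = Real.cos (lam * s / 2) := by rw [a4, Real.cos_neg]
  have a6 : Real.sin (X1 - d1).im = -Real.sin (lam * s / 2) := by rw [a4, Real.sin_neg]
  have a7 : t ^ lam = Real.exp (2 * (X2 - X1).re) := by rw [ht, hlam]; exact eT
  have a8 : P = Real.exp (-(2 * (X1 - d1).re)) := by rw [hP]; exact eP
  rw [a3, Real.cos_neg, a5, ← a7, ← a8] at h1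
  rw [a3, Real.sin_neg, a6, ← a7, ← a8] at h2
  rw [← a8, ← hA] at h3
  exact ⟨u, w, hu, hw, h1, by linarith, h3⟩

/-- `0 < P < 1` -/
theorem St.dn_P01 (h : St k C q0 q1 q2 q3 d0 d1 d2 X1 X2 X3) :
    0 < C ^ (-(2 / k)) ∧ C ^ (-(2 / k)) < 1 := by
  have k0 := h.k0
  refine ⟨Real.rpow_pos_of_pos h.C0 _, Real.rpow_lt_one_of_one_lt_of_neg h.hC ?_⟩
  have : 0 < 2 / k := by positivity
  linarith

/-- step two with `F_2 < 0` -/
theorem St.negF2 (h : St k C q0 q1 q2 q3 d0 d1 d2 X1 X2 X3) (hd : 0 ≤ (X2 - d2).re)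
    (hF : (X2 - d2).im < 0) : 2 * (X3 - d2).im < (X2 - d2).im := by
  have hpi := Real.pi_pos
  have hk := h.hk
  have k0 := h.k0
  have h1 := sym_im h.x2 h.x3 h.s2
  have h2 := (q_exp_mem h.x2 h.a2 (h.r12.trans h.q1neg) h.i2).1
  have a2 := h.a2
  have a3 := h.a3
  have hτ : |(X3 - d2).im| < Real.pi / 4 := by
    have := h.p3
    rw [abs_mul, abs_of_pos k0] at this
    have h3 := mul_le_mul_of_nonneg_right hk.le (abs_nonneg (X3 - d2).im)
    linarith
  have hτ' := abs_lt.1 hτ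
  have e : (X2 - d2).im = (X3 - d2).im + (X2.im - X3.im) := by
    simp only [sub_im]
    ring
  have hs : Real.sin (X2 - d2).im < 0 :=
    Real.sin_neg_of_neg_of_neg_pi_lt hF (by rw [e]; linarith)
  have hexp : 0 ≤ Real.exp (X2 - d2).re - Real.exp (-(X2 - d2).re) := by
    have := Real.exp_le_exp.2 (show -(X2 - d2).re ≤ (X2 - d2).re by linarith)
    linarith
  have h4 : Real.exp (2 * X3 - X2 - d2).re * Real.sin (2 * (X3 - d2).im - (X2 - d2).im) < 0 := by
    rw [h1]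
    have := mul_nonneg hexp (neg_nonneg.2 hs.le)
    linarith
  have h5 : Real.sin (2 * (X3 - d2).im - (X2 - d2).im) < 0 := by
    by_contra hc
    have := mul_nonneg (Real.exp_pos (2 * X3 - X2 - d2).re).le (not_lt.1 hc)
    linarith
  by_contra hcon
  have h6 := Real.sin_nonneg_of_nonneg_of_le_pi
    (x := 2 * (X3 - d2).im - (X2 - d2).im) (by linarith [not_lt.1 hcon]) (by rw [e]; linarith)
  linarith

/-- the data of case N -/
structure DN (t r s κ A : ℝ) : Prop where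
  s0 : 0 < s
  s1 : s ≤ Real.pi / 3
  κs : s < 2 * κ
  κ1 : κ < Real.pi / 3
  A0 : 0 < A
  A1 : A ≤ Real.pi / 4
  t1 : 1 ≤ t
  tc : t < 2 * Real.cos κ
  r0 : 0 < r
  r1 : r < 1
  rr : r ^ 2 = 1 - (2 * t * Real.cos κ - t ^ 2)

theorem St.dn_data (h : St k C q0 q1 q2 q3 d0 d1 d2 X1 X2 X3)
    (hh : X1.im < -(Real.pi / 4) → (pv k C X1 d1).re < 1 / 2)
    (hf : ‖1 - pv k C X1 d0‖ = 1) (h2 : ‖1 - pv k C X2 d1‖ < 1) (hF : (X1 - d1).im < 0) :
    DN ‖pv k C X2 d1‖ ‖1 - pv k C X2 d1‖ (-(k * (X1 - d1).im)) (-(k * (X2 - d1).im))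
      (-X1.im) := by
  have hpi := Real.pi_pos
  have k0 := h.k0
  have hC0 := h.C0
  have a1 := h.a1
  have hd := (h.dn_f1 hf).2
  have hs0 := mul_neg_of_pos_of_neg k0 hF
  have hs1 := h.negF_s hf h2 hF
  have hA1 := h.negF_A hh hf h2 hF
  have hκs := mul_lt_mul_of_pos_left (h.negF hd.le hF) k0
  have ht1 : 1 ≤ ‖pv k C X2 d1‖ := by
    rw [h.dn_P hf]
    exact Real.one_le_exp (mul_nonneg k0.le (by linarith [h.negF_L hd.le hF]))
  have hcos2 : Real.cos (k * (X2 - d1).im) = Real.cos (-(k * (X2 - d1).im)) := by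
    rw [Real.cos_neg]
  have htc : ‖pv k C X2 d1‖ < 2 * Real.cos (-(k * (X2 - d1).im)) := by
    have := h.dn_lt h2
    rwa [hcos2] at this
  have hκh : -(k * (X2 - d1).im) < Real.pi / 2 := by linarith [(abs_lt.1 h.p2).1]
  have hκ3 : -(k * (X2 - d1).im) < Real.pi / 3 := by
    by_contra hcon
    have h3 : Real.cos (-(k * (X2 - d1).im)) ≤ Real.cos (Real.pi / 3) :=
      Real.cos_le_cos_of_nonneg_of_le_pi (by positivity) (by linarith) (not_lt.1 hcon)
    rw [Real.cos_pi_div_three] at h3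
    linarith
  refine ⟨by linarith, by linarith, by linarith, hκ3, by linarith, by linarith, ht1, htc, ?_, h2,
    ?_⟩
  · rw [← h.f2_eq]
    exact norm_pos_iff.2 (pv_ne hC0)
  · have e1 : ‖1 - pv k C X2 d1‖ ^ 2 = 1 - 2 * (pv k C X2 d1).re + ‖pv k C X2 d1‖ ^ 2 := by
      rw [← Complex.normSq_eq_norm_sq, ← Complex.normSq_eq_norm_sq, Complex.normSq_apply,
        Complex.normSq_apply, sub_re, sub_im, one_re, one_im]
      ring
    have e2 : (pv k C X2 d1).re = ‖pv k C X2 d1‖ * Real.cos (k * (X2 - d1).im) := by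
      rw [norm_pv hC0, pv_re]
    rw [e1, e2, hcos2]
    ring

end EQS
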