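import Mathlib
import Pool.Agent.Lib.MP_226de1_co.E.DNid
import Pool.Agent.Lib.MP_226de1_co.E.DNend
import Pool.Agent.Lib.MP_226de1_co.E.DN3

/-! Case N of the unit disc exit: the lower sheet `F_2 > 0`, the interval of `P`, the angle `ψ`
and the assembly from the two pure inequalities (3) and (4). -/

set_option autoImplicit false

namespace EQS

open Complex

variable {k C : ℝ} {q0 q1 q2 q3 d0 d1 d2 X1 X2 X3 : ℂ}

/-- `p_2 = t e^{-i κ}` and `f_2 = r e^{i θ}` -/
theorem St.dn_tri (h : St k C q0 q1 q2 q3 d0 d1 d2 X1 X2 X3) {t r κ θ : ℝ}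
    (hr : r = ‖1 - pv k C X2 d1‖) (ht : t = ‖pv k C X2 d1‖)
    (hκ : κ = -(k * (X2 - d1).im)) (hθ : θ = k * (X2 - d2).im) :
    r * Real.cos θ = 1 - t * Real.cos κ ∧ r * Real.sin θ = t * Real.sin κ := by
  have hC := h.C0
  have e0 : pv k C X2 d2 = 1 - pv k C X2 d1 := h.f2_eq
  have er : ‖pv k C X2 d2‖ = r := by rw [e0, hr]
  have e1 : (pv k C X2 d2).re = r * Real.cos θ := by
    rw [← er, norm_pv hC, pv_re, hθ]
  have e2 : (pv k C X2 d2).im = r * Real.sin θ := by
    rw [← er, norm_pv hC, pv_im, hθ]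
  have e3 : (pv k C X2 d1).re = t * Real.cos κ := by
    rw [ht, norm_pv hC, pv_re, hκ, Real.cos_neg]
  have e4 : (pv k C X2 d1).im = -(t * Real.sin κ) := by
    rw [ht, norm_pv hC, pv_im, hκ, Real.sin_neg]
    ring
  constructor
  · rw [← e1, ← e3, e0]
    simp
  · rw [← e2, e0, sub_im, one_im, e4]
    ring

/-- the interval of `P` -/
theorem St.dn_Pint (h : St k C q0 q1 q2 q3 d0 d1 d2 X1 X2 X3) (hf : ‖1 - pv k C X1 d0‖ = 1)
    {lam t r P s κ A : ℝ} (hlam : lam = 2 / k) (hD : DN t r s κ A)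
    (ht : t = ‖pv k C X2 d1‖) (hP : P = C ^ (-(2 / k))) (hs : s = -(k * (X1 - d1).im))
    (hκ : κ = -(k * (X2 - d1).im)) (hA : A = -X1.im) :
    (s ≤ κ → P < t ^ lam - 1) ∧
    (κ ≤ s → P < t ^ lam - 1 + t ^ lam * Real.tan (lam * s / 2) * Real.sin (lam * (s - κ))) ∧
    (1 + P < t ^ lam / Real.cos (lam * s / 2)) := by
  have hpi := Real.pi_pos
  have k0 := h.k0
  have hk := h.hk
  have hlam0 : 0 < lam := by rw [hlam]; positivity
  have hlam1 : lam ≤ 1 := by rw [hlam, div_le_one k0]; exact hk.le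
  obtain ⟨u, w, hu, hw, h1, h2, h3⟩ := h.dn_V' hf hlam ht hP hs hκ hA
  have t0 : 0 < t := by linarith [hD.t1]
  have hT : 0 < t ^ lam := Real.rpow_pos_of_pos t0 _
  have s0 := hD.s0
  have s1 := hD.s1
  have κs := hD.κs
  have κ1 := hD.κ1
  have hν0 : 0 ≤ lam * s / 2 := by positivity
  have hν1 : lam * s / 2 ≤ Real.pi / 6 := by nlinarith
  have hcν : 0 < Real.cos (lam * s / 2) :=
    Real.cos_pos_of_mem_Ioo ⟨by linarith, by linarith⟩
  have hsν : 0 ≤ Real.sin (lam * s / 2) :=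
    Real.sin_nonneg_of_nonneg_of_le_pi hν0 (by linarith)
  have h4 : (1 + P) * Real.cos (lam * s / 2) < t ^ lam * Real.cos (lam * (κ - s / 2)) := by
    linarith
  have hμ : 0 ≤ lam * (κ - s / 2) := mul_nonneg hlam0.le (by linarith)
  refine ⟨fun hh => ?_, fun hh => ?_, ?_⟩
  · have h5 : Real.cos (lam * (κ - s / 2)) ≤ Real.cos (lam * s / 2) := by
      apply Real.cos_le_cos_of_nonneg_of_le_pi hν0
      · nlinarith
      · nlinarith
    have h6 := mul_le_mul_of_nonneg_left h5 hT.le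
    have h7 : (1 + P) * Real.cos (lam * s / 2) < t ^ lam * Real.cos (lam * s / 2) := by
      linarith
    have h8 := lt_of_mul_lt_mul_right h7 hcν.le
    linarith
  · have e : lam * (κ - s / 2) = lam * s / 2 - lam * (s - κ) := by ring
    rw [e, Real.cos_sub] at h4
    have h5 : Real.cos (lam * s / 2) * Real.cos (lam * (s - κ)) ≤ Real.cos (lam * s / 2) := by
      have := mul_le_mul_of_nonneg_left (Real.cos_le_one (lam * (s - κ))) hcν.le
      linarith
    have h6 : (1 + P) * Real.cos (lam * s / 2) <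
        t ^ lam * (Real.cos (lam * s / 2) +
          Real.sin (lam * s / 2) * Real.sin (lam * (s - κ))) := by
      have := mul_le_mul_of_nonneg_left h5 hT.le
      nlinarith
    have h7 : t ^ lam * (Real.cos (lam * s / 2) +
          Real.sin (lam * s / 2) * Real.sin (lam * (s - κ))) =
        (t ^ lam + t ^ lam * Real.tan (lam * s / 2) * Real.sin (lam * (s - κ))) *
          Real.cos (lam * s / 2) := by
      rw [Real.tan_eq_sin_div_cos]
      field_simp
    rw [h7] at h6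
    have h8 := lt_of_mul_lt_mul_right h6 hcν.le
    linarith
  · rw [lt_div_iff₀ hcν]
    have := mul_le_mul_of_nonneg_left (Real.cos_le_one (lam * (κ - s / 2))) hT.le
    linarith

/-- `P < r ^ λ` -/
theorem St.dn_Pr (h : St k C q0 q1 q2 q3 d0 d1 d2 X1 X2 X3) (hf : ‖1 - pv k C X1 d0‖ = 1)
    {lam t r P s κ A : ℝ} (hlam : lam = 2 / k) (hD : DN t r s κ A)
    (ht : t = ‖pv k C X2 d1‖) (hP : P = C ^ (-(2 / k))) (hs : s = -(k * (X1 - d1).im))
    (hκ : κ = -(k * (X2 - d1).im)) (hA : A = -X1.im) : P < r ^ lam := by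
  have hpi := Real.pi_pos
  have k0 := h.k0
  have hk := h.hk
  have hlam0 : 0 < lam := by rw [hlam]; positivity
  have hlam1 : lam ≤ 1 := by rw [hlam, div_le_one k0]; exact hk.le
  have h1 := (h.dn_Pint hf hlam hD ht hP hs hκ hA).2.2
  have s0 := hD.s0
  have s1 := hD.s1
  have κs := hD.κs
  have κ1 := hD.κ1
  have t0 : 0 < t := by linarith [hD.t1]
  have hcκ : 0 < Real.cos κ := Real.cos_pos_of_mem_Ioo ⟨by linarith, by linarith⟩
  have hνκ : Real.cos κ < Real.cos (lam * s / 2) :=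
    Real.cos_lt_cos_of_nonneg_of_le_pi (by positivity) (by linarith) (by nlinarith)
  have hT : t ^ lam ≤ t := by
    have := Real.rpow_le_rpow_of_exponent_le hD.t1 hlam1
    rwa [Real.rpow_one] at this
  have h2 : t ^ lam / Real.cos (lam * s / 2) < t / Real.cos κ := by
    calc t ^ lam / Real.cos (lam * s / 2) ≤ t / Real.cos (lam * s / 2) :=
          div_le_div_of_nonneg_right hT (by linarith)
      _ < t / Real.cos κ := div_lt_div_of_pos_left t0 hcκ hνκ
  have h3 : t / Real.cos κ - 1 < r := by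
    have hc1 : Real.cos κ < 1 := by
      have := Real.cos_lt_cos_of_nonneg_of_le_pi (le_refl 0) (by linarith : κ ≤ Real.pi)
        (by linarith : 0 < κ)
      rwa [Real.cos_zero] at this
    have h4 : (t / Real.cos κ - 1) ^ 2 < r ^ 2 := by
      rw [hD.rr]
      have e : 1 - (2 * t * Real.cos κ - t ^ 2) - (t / Real.cos κ - 1) ^ 2 =
          t * (1 - Real.cos κ ^ 2) * (2 * Real.cos κ - t) / Real.cos κ ^ 2 := by
        field_simp
        ring
      have h5 : 0 < t * (1 - Real.cos κ ^ 2) * (2 * Real.cos κ - t) / Real.cos κ ^ 2 := by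
        have h6 : 0 < 1 - Real.cos κ ^ 2 := by nlinarith
        have h7 : 0 < 2 * Real.cos κ - t := by linarith [hD.tc]
        positivity
      linarith
    exact lt_of_pow_lt_pow_left₀ 2 hD.r0.le h4
  have h4 : r ≤ r ^ lam := by
    have := Real.rpow_le_rpow_of_exponent_ge hD.r0 hD.r1.le hlam1
    rwa [Real.rpow_one] at this
  linarith

/-- lower sheet: `F_2 > 0` -/
theorem St.negF_sheet (h : St k C q0 q1 q2 q3 d0 d1 d2 X1 X2 X3)
    (hh : X1.im < -(Real.pi / 4) → (pv k C X1 d1).re < 1 / 2)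
    (hf : ‖1 - pv k C X1 d0‖ = 1) (h2 : ‖1 - pv k C X2 d1‖ < 1) (hF : (X1 - d1).im < 0) :
    0 < k * (X2 - d2).im := by
  have hpi := Real.pi_pos
  have k0 := h.k0
  have hC := h.C0
  have hD := h.dn_data hh hf h2 hF
  have hP := h.dn_Pr hf (lam := 2 / k) rfl hD rfl rfl rfl rfl rfl
  have er : ‖1 - pv k C X2 d1‖ ^ (2 / k) =
      C ^ (-(2 / k)) * Real.exp (2 * (X2 - d2).re) := by
    rw [← h.f2_eq, pv_rpow hC k0]
  rw [er] at hP
  have hP0 : 0 < C ^ (-(2 / k)) := by positivity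
  have h3 : 1 < Real.exp (2 * (X2 - d2).re) := by
    by_contra hcon
    have := mul_le_mul_of_nonneg_left (not_lt.1 hcon) hP0.le
    linarith
  have h4 : 0 < (X2 - d2).re := by
    have := Real.one_lt_exp_iff.1 h3
    linarith
  have h5 := (h.dn_tri (θ := k * (X2 - d2).im) rfl rfl rfl rfl).2
  have κ0 : 0 < -(k * (X2 - d1).im) := by linarith [hD.κs, hD.s0]
  have κ1 := hD.κ1
  have h6 : 0 < Real.sin (-(k * (X2 - d1).im)) := Real.sin_pos_of_pos_of_lt_pi κ0 (by linarith)
  have h7 : 0 < Real.sin (k * (X2 - d2).im) := by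
    have t0 : 0 < ‖pv k C X2 d1‖ := by linarith [hD.t1]
    have := mul_pos t0 h6
    rw [← h5] at this
    exact pos_of_mul_pos_right this hD.r0.le
  by_contra hcon
  have h8 := not_lt.1 hcon
  rcases eq_or_lt_of_le h8 with h9 | h9
  · rw [h9, Real.sin_zero] at h7
    exact lt_irrefl _ h7
  · have h10 : (X2 - d2).im < 0 := by
      by_contra hc
      have := mul_nonneg k0.le (not_lt.1 hc)
      linarith
    have h11 := h.negF2 h4.le h10
    have h12 := mul_lt_mul_of_pos_left h11 k0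
    have h13 := (abs_lt.1 h.p3).1
    have := Real.sin_neg_of_neg_of_neg_pi_lt h9 (by linarith)
    linarith

/-- the angle `ψ = θ + κ - π/2` -/
theorem DN.psi {t r s κ A θ : ℝ} (hD : DN t r s κ A) (h1 : r * Real.cos θ = 1 - t * Real.cos κ)
    (h2 : r * Real.sin θ = t * Real.sin κ) (hθ0 : 0 < θ) (hθ1 : θ < Real.pi) :
    κ / 2 ≤ θ + κ - Real.pi / 2 ∧ θ + κ - Real.pi / 2 < Real.pi / 2 - κ ∧
    r * Real.cos (θ + κ - Real.pi / 2) = Real.sin κ ∧
    t * Real.cos (θ + κ - Real.pi / 2) = Real.sin θ := by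
  have hpi := Real.pi_pos
  have κ0 : 0 < κ := by linarith [hD.κs, hD.s0]
  have κ1 := hD.κ1
  have r0 := hD.r0
  have r1 := hD.r1
  have t1 := hD.t1
  have t0 : 0 < t := by linarith
  have hsκ : 0 < Real.sin κ := Real.sin_pos_of_pos_of_lt_pi κ0 (by linarith)
  have e1 : r * Real.sin (θ + κ) = Real.sin κ := by
    rw [Real.sin_add]
    linear_combination Real.cos κ * h2 + Real.sin κ * h1
  have hs : 0 < Real.sin (θ + κ) := by
    have : 0 < r * Real.sin (θ + κ) := by rw [e1]; exact hsκ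
    exact pos_of_mul_pos_right this r0.le
  have hθκ : θ + κ < Real.pi := by
    by_contra hcon
    have h3 := Real.sin_nonneg_of_nonneg_of_le_pi (x := θ + κ - Real.pi)
      (by linarith [not_lt.1 hcon]) (by linarith)
    rw [Real.sin_sub_pi] at h3
    linarith
  have e2 : t * Real.sin (θ + κ) = Real.sin θ := by
    have e3 : r * (t * Real.sin (θ + κ)) = r * Real.sin θ := by
      rw [h2, ← e1]
      ring
    exact mul_left_cancel₀ r0.ne' e3
  have ec : Real.cos (θ + κ - Real.pi / 2) = Real.sin (θ + κ) := by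
    rw [Real.cos_sub_pi_div_two]
  refine ⟨?_, ?_, by rw [ec, e1], by rw [ec, e2]⟩
  · -- `sin θ ≥ sin (θ + κ)`
    by_contra hcon
    have h3 : Real.sin θ < Real.sin (θ + κ) := by
      have e4 : Real.sin θ = Real.cos (Real.pi / 2 - θ) := by rw [Real.cos_pi_div_two_sub]
      have e5 : Real.sin (θ + κ) = Real.cos |θ + κ - Real.pi / 2| := by
        rw [Real.cos_abs, Real.cos_sub_pi_div_two]
      rw [e4, e5]
      apply Real.cos_lt_cos_of_nonneg_of_le_pi (abs_nonneg _) (by linarith)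
      rw [abs_lt]
      constructor <;> linarith [not_le.1 hcon]
    have h4 : Real.sin (θ + κ) ≤ t * Real.sin (θ + κ) := by nlinarith
    linarith
  · by_contra hcon
    have h3 : Real.sin (θ + κ) ≤ Real.sin κ := by
      rw [← Real.sin_pi_sub (θ + κ)]
      apply Real.sin_le_sin_of_le_of_le_pi_div_two <;> linarith [not_lt.1 hcon]
    nlinarith

/-- the triangle structure of the pure files -/
theorem DN.tri {t r s κ A θ : ℝ} (hD : DN t r s κ A) (h1 : r * Real.cos θ = 1 - t * Real.cos κ)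
    (h2 : r * Real.sin θ = t * Real.sin κ) (hθ0 : 0 < θ) (hθ1 : θ < Real.pi) :
    EQN.Tri r t κ (θ + κ - Real.pi / 2) := by
  obtain ⟨a1, a2, a3, a4⟩ := hD.psi h1 h2 hθ0 hθ1
  refine ⟨hD.r0, hD.r1.le, by linarith [hD.κs, hD.s0], hD.κ1.le, a1, a2.le, a3, ?_⟩
  rw [Real.sin_sub_pi_div_two, Real.cos_add]
  have := Real.sin_sq_add_cos_sq κ
  linear_combination Real.cos κ * h1 - Real.sin κ * h2 - t * this

/-- (3): `P_3 + κ ≥ π/4` -/
theorem St.negF_45 (h : St k C q0 q1 q2 q3 d0 d1 d2 X1 X2 X3)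
    (hh : X1.im < -(Real.pi / 4) → (pv k C X1 d1).re < 1 / 2)
    (hf : ‖1 - pv k C X1 d0‖ = 1) (h2 : ‖1 - pv k C X2 d1‖ < 1) (hF : (X1 - d1).im < 0)
    (hθ1 : k * (X2 - d2).im < Real.pi) :
    Real.pi / 4 ≤ k * (X3 - d2).im - k * (X2 - d1).im := by
  have hpi := Real.pi_pos
  have k0 := h.k0
  have hk := h.hk
  have hD := h.dn_data hh hf h2 hF
  have hθ0 := h.negF_sheet hh hf h2 hF
  obtain ⟨e1, e2⟩ := h.dn_tri (θ := k * (X2 - d2).im) rfl rfl rfl rfl
  have hT := hD.tri e1 e2 hθ0 hθ1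
  obtain ⟨b1, b2, -⟩ := h.dn_Pint hf (lam := 2 / k) (r := ‖1 - pv k C X2 d1‖) rfl hD rfl rfl rfl
    rfl rfl
  obtain ⟨P0, -⟩ := h.dn_P01
  have hlam0 : 0 < 2 / k := by positivity
  have hlam1 : 2 / k ≤ 1 := by rw [div_le_one k0]; exact hk.le
  have κ1 := hD.κ1
  have κ0 := hT.k0
  have key := hT.phi_quarter hlam0 hlam1 hD.s0.le hD.s1 hD.κs.le P0.le
    (fun hh => (b1 hh).le) (fun hh => by
      have := (b2 hh).le
      rwa [← mul_div_assoc (2 / k) _ 2])
  have hχ : |Real.pi / 4 - -(k * (X2 - d1).im)| ≤ Real.pi / 2 := by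
    rw [abs_le]
    constructor <;> linarith
  have h5 := h.dn_chi hf (lam := 2 / k) (r := ‖1 - pv k C X2 d1‖) (t := ‖pv k C X2 d1‖)
    (P := C ^ (-(2 / k))) (s := -(k * (X1 - d1).im)) (κ := -(k * (X2 - d1).im))
    (θ := k * (X2 - d2).im) rfl rfl rfl rfl rfl rfl rfl hχ (by
      convert key using 3
      · congr 1
        ring_nf
      · congr 1
        · congr 1
          · congr 2
            ring_nf
          · congr 1
            ring_nf
        · congr 2
          ring_nf)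
  linarith

end EQS
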