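import Mathlib
import Pool.Agent.Lib.MP_226de1_co.E.DNfin
import Pool.Agent.Lib.MP_226de1_co.E.DN4

/-! Case N of the unit disc exit, complete (up to the upper sheet `F_2 < π`). -/

set_option autoImplicit false

namespace EQS

open Complex

variable {k C : ℝ} {q0 q1 q2 q3 d0 d1 d2 X1 X2 X3 : ℂ}

/-- (4): `P_3 + κ ≥ π/2` if `cos 2A ≤ 1/4` and `r t < 1` -/
theorem St.negF_90 (h : St k C q0 q1 q2 q3 d0 d1 d2 X1 X2 X3)
    (hh : X1.im < -(Real.pi / 4) → (pv k C X1 d1).re < 1 / 2)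
    (hf : ‖1 - pv k C X1 d0‖ = 1) (h2 : ‖1 - pv k C X2 d1‖ < 1) (hF : (X1 - d1).im < 0)
    (hθ1 : k * (X2 - d2).im < Real.pi) (hA : Real.cos (2 * X1.im) ≤ 1 / 4)
    (hrt : ‖1 - pv k C X2 d1‖ * ‖pv k C X2 d1‖ < 1) :
    Real.pi / 2 ≤ k * (X3 - d2).im - k * (X2 - d1).im := by
  have hpi := Real.pi_pos
  have k0 := h.k0
  have hk := h.hk
  have hD := h.dn_data hh hf h2 hF
  have hθ0 := h.negF_sheet hh hf h2 hF
  obtain ⟨e1, e2⟩ := h.dn_tri (θ := k * (X2 - d2).im) rfl rfl rfl rfl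
  obtain ⟨u, w, hu, hw, v1, v2, v3⟩ := h.dn_V' hf (lam := 2 / k) rfl rfl rfl rfl rfl rfl
  obtain ⟨P0, -⟩ := h.dn_P01
  have hlam0 : 0 < 2 / k := by positivity
  have hlam1 : 2 / k ≤ 1 := by rw [div_le_one k0]; exact hk.le
  have κ1 := hD.κ1
  have κ0 : 0 < -(k * (X2 - d1).im) := by linarith [hD.κs, hD.s0]
  have hA2 : Real.cos (2 * (-X1.im)) ≤ 1 / 4 := by
    rw [mul_neg, Real.cos_neg]
    exact hA
  have sA : 0 < Real.sin (-X1.im) := Real.sin_pos_of_pos_of_lt_pi hD.A0 (by linarith [hD.A1])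
  have cA : 0 < Real.cos (-X1.im) :=
    Real.cos_pos_of_mem_Ioo ⟨by linarith [hD.A0], by linarith [hD.A1]⟩
  have huw : w * Real.sin (-X1.im) ≤ u * Real.cos (-X1.im) := by
    have g1 : 0 < w * Real.cos (-X1.im) + u * Real.sin (-X1.im) := by positivity
    have g2 : 0 < (u * Real.cos (-X1.im) - w * Real.sin (-X1.im)) *
        (w * Real.cos (-X1.im) + u * Real.sin (-X1.im)) := by
      rw [← v3]
      positivity
    have := pos_of_mul_pos_left g2 g1.le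
    linarith
  have key := EQN.h90 hlam0 hlam1 hD.r0 hD.r1 hD.t1 hrt.le (by linarith) e2.symm hθ0.le hθ1.le
    κ0 κ1.le hD.s0.le hD.κs.le hD.A0 hD.A1 hA2 P0.le (u := u) (w := w)
    (by rw [← mul_div_assoc]; linarith) (by rw [← mul_div_assoc]; linarith)
    hu.le hw.le huw (by rw [← v3]; ring)
  have hχ : |Real.pi / 2 - -(k * (X2 - d1).im)| ≤ Real.pi / 2 := by
    rw [abs_le]
    constructor <;> linarith
  have h5 := h.dn_chi hf (lam := 2 / k) (r := ‖1 - pv k C X2 d1‖) (t := ‖pv k C X2 d1‖)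
    (P := C ^ (-(2 / k))) (s := -(k * (X1 - d1).im)) (κ := -(k * (X2 - d1).im))
    (θ := k * (X2 - d2).im) rfl rfl rfl rfl rfl rfl rfl hχ key
  linarith

/-- case N of the unit disc exit: `F_1 < 0` -/
theorem St.caseN (h : St k C q0 q1 q2 q3 d0 d1 d2 X1 X2 X3)
    (hh : X1.im < -(Real.pi / 4) → (pv k C X1 d1).re < 1 / 2)
    (hf : ‖1 - pv k C X1 d0‖ = 1) (h2 : ‖1 - pv k C X2 d1‖ < 1) (hF : (X1 - d1).im < 0)
    (hθ1 : k * (X2 - d2).im < Real.pi) :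
    ‖exp d1‖ ^ 2 * ((1 - ‖1 - pv k C X2 d1‖ ^ 2) * (1 - ‖1 - pv k C X3 d2‖ ^ 2)) <
      4 * ‖pv k C X2 d1 - pv k C X3 d2‖ ^ 2 * ((exp d0).re * (exp d0 + exp d1).re) :=
  h.negF_end hh hf h2 hF (h.negF_sheet hh hf h2 hF) hθ1 (h.negF_45 hh hf h2 hF hθ1)
    (fun hA hrt _ => h.negF_90 hh hf h2 hF hθ1 hA hrt)

end EQS
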