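import Mathlib
import Pool.Agent.Lib.MP_226de1_co.E.DSt

/-! The first step of a disc exit in real form (`F_1 > 0`).

`A = - Im X1`, `φ = Im (X1 - d1)`, `τ = Im (X2 - d1)`, `η = Im (X1 - d0)`,
`T = |xi_{-2}/xi_{-1}|^2`, `P = |D_{-1}/xi_{-1}|^2`, `S = 2 v |D|/|xi|^2`, `w = 2 a |D|/|xi|^2`,
`c = Re D_0/|D_{-1}|`. -/

set_option autoImplicit false

namespace EQS

open Complex

/-- one backward step in polar form -/
theorem step_E {q q' X X' d : ℂ} (hx : exp (2 * X) = 1 + q ^ 2) (hx' : exp (2 * X') = 1 + q' ^ 2)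
    (hq : q = q' + exp d) :
    Real.exp (2 * (X' - X).re) * Real.cos (-X'.im - (X' - d).im) =
        Real.cos (-X.im - (X - d).im) + 2 * (-q.re) * Real.exp (d.re - 2 * X.re) +
          Real.exp (2 * (d - X).re) * Real.cos d.im ∧
      Real.exp (2 * (X' - X).re) * Real.sin (-X'.im - (X' - d).im) =
        Real.sin (-X.im - (X - d).im) + 2 * q.im * Real.exp (d.re - 2 * X.re) -
          Real.exp (2 * (d - X).re) * Real.sin d.im := by
  have hq' : q' = q - exp d := by rw [hq]; ring
  have h1 : exp (2 * X') = exp (2 * X) - 2 * q * exp d + exp (2 * d) := by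
    have e : exp (2 * d) = exp d ^ 2 := by
      rw [← Complex.exp_nat_mul]
      congr 1
    rw [hx', hx, hq', e]
    ring
  -- multiply by `exp (-2 Re X - i Im d)`
  have h2 : exp (2 * X' - (2 * X.re : ℝ) - (d.im : ℂ) * I) =
      exp (2 * X - (2 * X.re : ℝ) - (d.im : ℂ) * I) -
        2 * q * exp (d - (2 * X.re : ℝ) - (d.im : ℂ) * I) +
        exp (2 * d - (2 * X.re : ℝ) - (d.im : ℂ) * I) := by
    simp only [sub_sub, exp_sub]
    rw [h1]
    ring
  have er : exp (d - (2 * X.re : ℝ) - (d.im : ℂ) * I) = ((Real.exp (d.re - 2 * X.re) : ℝ) : ℂ) := by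
    rw [ofReal_exp]
    congr 1
    apply Complex.ext
    · simp
    · simp
  rw [er] at h2
  have hre := congrArg Complex.re h2
  have him := congrArg Complex.im h2
  rw [add_re, sub_re, exp_re, exp_re, exp_re, re_mul_ofReal] at hre
  rw [add_im, sub_im, exp_im, exp_im, exp_im, im_mul_ofReal] at him
  have a1 : (2 * X' - (2 * X.re : ℝ) - (d.im : ℂ) * I).re = 2 * (X' - X).re := by
    simp; ring
  have a2 : (2 * X' - (2 * X.re : ℝ) - (d.im : ℂ) * I).im = -(-X'.im - (X' - d).im) := by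
    simp; ring
  have a3 : (2 * X - (2 * X.re : ℝ) - (d.im : ℂ) * I).re = 0 := by
    simp
  have a4 : (2 * X - (2 * X.re : ℝ) - (d.im : ℂ) * I).im = -(-X.im - (X - d).im) := by
    simp; ring
  have a5 : (2 * d - (2 * X.re : ℝ) - (d.im : ℂ) * I).re = 2 * (d - X).re := by
    simp; ring
  have a6 : (2 * d - (2 * X.re : ℝ) - (d.im : ℂ) * I).im = d.im := by
    simp; ring
  rw [a1, a2, a3, a4, a5, a6, Real.cos_neg, Real.cos_neg, Real.exp_zero] at hre
  rw [a1, a2, a3, a4, a5, a6, Real.sin_neg, Real.sin_neg, Real.exp_zero] at him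
  have b1 : (2 * q).re = 2 * q.re := by simp
  have b2 : (2 * q).im = 2 * q.im := by simp
  rw [b1] at hre
  rw [b2] at him
  constructor
  · linarith
  · linarith

/-- `S w = 2 P sin 2A`, `v cos A > a sin A` for one point -/
theorem point_E {q X : ℂ} (d : ℂ) (hx : exp (2 * X) = 1 + q ^ 2) (hi : 0 < q.im)
    (hr : q.re < 0) (ha : -(Real.pi / 2) < X.im ∧ X.im < 0) :
    (2 * q.im * Real.exp (d.re - 2 * X.re)) * (2 * (-q.re) * Real.exp (d.re - 2 * X.re)) =
        2 * Real.exp (2 * (d - X).re) * Real.sin (2 * -X.im) ∧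
      2 * (-q.re) * Real.exp (d.re - 2 * X.re) * Real.sin (-X.im) ≤
        2 * q.im * Real.exp (d.re - 2 * X.re) * Real.cos (-X.im) := by
  have hpi := Real.pi_pos
  obtain ⟨_, h2⟩ := quad_polar hx
  have hlt := quad_lt hx hi hr.le (abs_lt.2 ⟨ha.1, by linarith⟩)
  have e1 : Real.exp (d.re - 2 * X.re) * Real.exp (d.re - 2 * X.re) * Real.exp X.re ^ 2 =
      Real.exp (2 * (d - X).re) := by
    rw [← Real.exp_nat_mul, ← Real.exp_add, ← Real.exp_add]
    congr 1
    simp only [sub_re]
    push_cast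
    ring
  have e2 : Real.sin (2 * -X.im) = -Real.sin (2 * X.im) := by
    rw [← Real.sin_neg]
    congr 1
    ring
  constructor
  · rw [← e1, e2]
    linear_combination (-2 * Real.exp (d.re - 2 * X.re) * Real.exp (d.re - 2 * X.re)) * h2
  · rw [Real.sin_neg, Real.cos_neg]
    rw [Real.sin_two_mul] at h2
    set R := Real.exp X.re with hR
    have hR0 : 0 < R := Real.exp_pos _
    have hc : 0 < Real.cos X.im := Real.cos_pos_of_mem_Ioo ⟨by linarith, by linarith⟩
    have hs : 0 < -Real.sin X.im := by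
      have := Real.sin_neg_of_neg_of_neg_pi_lt ha.2 (by linarith)
      linarith
    have ha0 : 0 < -q.re := by linarith
    -- `a v = R sin A R cos A`, `a < R cos A`
    have h3 : -q.re * q.im = R * -Real.sin X.im * (R * Real.cos X.im) := by linarith
    have h4 : R * -Real.sin X.im ≤ q.im := by
      by_contra hcon
      push Not at hcon
      have h5 : -q.re * q.im < R * Real.cos X.im * (R * -Real.sin X.im) := by
        calc -q.re * q.im < -q.re * (R * -Real.sin X.im) := mul_lt_mul_of_pos_left hcon ha0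
          _ ≤ R * Real.cos X.im * (R * -Real.sin X.im) :=
              mul_le_mul_of_nonneg_right hlt.le (by positivity)
      linarith
    have h5 : -q.re * -Real.sin X.im ≤ q.im * Real.cos X.im := by
      calc -q.re * -Real.sin X.im ≤ R * Real.cos X.im * -Real.sin X.im :=
            mul_le_mul_of_nonneg_right hlt.le hs.le
        _ = R * -Real.sin X.im * Real.cos X.im := by ring
        _ ≤ q.im * Real.cos X.im := mul_le_mul_of_nonneg_right h4 hc.le
    have h6 : 0 < 2 * Real.exp (d.re - 2 * X.re) := by positivity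
    calc 2 * -q.re * Real.exp (d.re - 2 * X.re) * -Real.sin X.im =
          2 * Real.exp (d.re - 2 * X.re) * (-q.re * -Real.sin X.im) := by ring
      _ ≤ 2 * Real.exp (d.re - 2 * X.re) * (q.im * Real.cos X.im) :=
          mul_le_mul_of_nonneg_left h5 h6.le
      _ = _ := by ring

/-- the first step of a disc exit with `F_1 > 0` -/
structure FsD (k A φ τ η T P S w c : ℝ) : Prop where
  hk : 2 < k
  A0 : 0 < A
  φ0 : 0 < φ
  ψ : A + φ < Real.pi / 2
  τ2 : |k * τ| < Real.pi / 2
  η2 : |k * η| < Real.pi / 2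
  Fc : Real.cos (k * φ) = -Real.cos (2 * (k * η))
  Fs : Real.sin (k * φ) = -Real.sin (2 * (k * η))
  c_eq : c = (2 * Real.cos (k * η)) ^ (-(1 / k)) * Real.cos (A + η)
  cA : |A + η| < Real.pi / 2
  A20 : 0 < A + φ - τ
  A2 : A + φ - τ < Real.pi / 2
  T0 : 0 < T
  P0 : 0 < P
  P1 : P < 1
  S0 : 0 < S
  w0 : 0 < w
  e1 : T * Real.cos (A + φ - 2 * τ) = Real.cos (A - φ) + w + P * Real.cos (A + φ)
  e2 : T * Real.sin (A + φ - 2 * τ) = Real.sin (A - φ) + S + P * Real.sin (A + φ)
  sw : S * w = 2 * P * Real.sin (2 * A)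
  cw : 2 * c * P ≤ w
  sa : w * Real.sin A ≤ S * Real.cos A
  f2 : T ^ (k / 2) < 2 * Real.cos (k * τ)
  H : Real.pi / 4 < A → Real.cos (k * φ) < 1 / 2

section St

variable {k C : ℝ} {q0 q1 q2 q3 d0 d1 d2 X1 X2 X3 : ℂ}

/-- `p_{-1} = 2 cos π_1 e^{i π_1}` at a disc exit -/
theorem St.disc_eta (h : St k C q0 q1 q2 q3 d0 d1 d2 X1 X2 X3)
    (he : ‖1 - pv k C X1 d0‖ = 1) :
    |k * (X1 - d0).im| < Real.pi / 2 ∧
      Real.exp (k * (d1 - d0).re) = 2 * Real.cos (k * (X1 - d0).im) ∧
      Real.cos (k * (X1 - d1).im) = -Real.cos (2 * (k * (X1 - d0).im)) ∧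
      Real.sin (k * (X1 - d1).im) = -Real.sin (2 * (k * (X1 - d0).im)) := by
  have hC := h.C0
  have hpi := Real.pi_pos
  have h1 := h.disc_f1 he
  have h4 := h.disc_re he
  set F := k * (X1 - d1).im with hF
  set y := k * (X1 - d0).im with hy
  have h3 : Real.exp (k * (X1 - d0).re) / C = Real.exp (k * (d1 - d0).re) := by
    have e1 : k * (X1 - d0).re = k * (d1 - d0).re + k * (X1 - d1).re := by
      simp only [sub_re]; ring
    rw [e1, Real.exp_add, h4, mul_div_assoc, div_self hC.ne', mul_one]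
  have h5 := h.f1
  have hr := congrArg Complex.re h5
  have hi := congrArg Complex.im h5
  rw [h1, add_re, exp_ofReal_mul_I_re, pv_re, one_re, h3] at hr
  rw [h1, add_im, exp_ofReal_mul_I_im, pv_im, one_im, h3] at hi
  rw [← hy] at hr hi
  set u := Real.exp (k * (d1 - d0).re) with hu
  have hu0 : 0 < u := Real.exp_pos _
  have s1 := Real.sin_sq_add_cos_sq F
  have s2 := Real.sin_sq_add_cos_sq y
  have e1 : Real.cos F = 1 - u * Real.cos y := by linarith
  have e2 : Real.sin F = -(u * Real.sin y) := by linarith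
  have e3 : u * (u - 2 * Real.cos y) = 0 := by
    rw [e1, e2] at s1
    linear_combination s1 - u ^ 2 * s2
  have e4 : u = 2 * Real.cos y := by
    rcases mul_eq_zero.1 e3 with h0 | h0
    · exact absurd h0 hu0.ne'
    · linarith
  have hyb : |y| ≤ Real.pi / 2 := h.p1
  refine ⟨?_, e4, ?_, ?_⟩
  · rcases hyb.lt_or_eq with h0 | h0
    · exact h0
    · exfalso
      have : Real.cos y = 0 := by rw [← Real.cos_abs, h0, Real.cos_pi_div_two]
      rw [this] at e4
      linarith
  · rw [e1, e4, Real.cos_two_mul]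
    ring
  · rw [e2, e4, Real.sin_two_mul]
    ring

theorem cos_pos_abs {x : ℝ} (hx : |x| < Real.pi) (hc : 0 < Real.cos x) : |x| < Real.pi / 2 := by
  by_contra hcon
  push Not at hcon
  have := Real.cos_nonpos_of_pi_div_two_le_of_le hcon (by linarith [Real.pi_pos])
  rw [Real.cos_abs] at this
  linarith

/-- extraction of the real data -/
theorem St.fsD (h : St k C q0 q1 q2 q3 d0 d1 d2 X1 X2 X3)
    (hH : X1.im < -(Real.pi / 4) → (pv k C X1 d1).re < 1 / 2)
    (he : ‖1 - pv k C X1 d0‖ = 1) (h2 : ‖1 - pv k C X2 d1‖ < 1) (hF : 0 < (X1 - d1).im) :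
    FsD k (-X1.im) (X1 - d1).im (X2 - d1).im (X1 - d0).im (Real.exp (2 * (X2 - X1).re))
      (Real.exp (2 * (d1 - X1).re)) (2 * q1.im * Real.exp (d1.re - 2 * X1.re))
      (2 * (-q1.re) * Real.exp (d1.re - 2 * X1.re)) ((exp d0).re / Real.exp d1.re) := by
  have hC := h.C0
  have hpi := Real.pi_pos
  have k0 := h.k0
  have hk := h.hk
  obtain ⟨y1, y2, y3, y4⟩ := h.disc_eta he
  obtain ⟨E1, E2⟩ := step_E h.x1 h.x2 h.s1
  obtain ⟨E3, E4⟩ := point_E d1 h.x1 h.i1 h.q1neg h.a1
  have hre := h.disc_re he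
  have hψ := h.psi_lt
  have hkη : |(X1 - d0).im| < Real.pi / 4 := by
    rw [abs_mul, abs_of_pos k0] at y1
    nlinarith [abs_nonneg (X1 - d0).im]
  have hd0 : d0.im = -(-X1.im + (X1 - d0).im) := by simp
  have hd1 : d1.im = -(-X1.im + (X1 - d1).im) := by simp
  have hX2 : -X1.im + (X1 - d1).im - (X2 - d1).im = -X2.im := by
    simp only [sub_im]
    ring
  have hw0 : 0 < 2 * (-q1.re) * Real.exp (d1.re - 2 * X1.re) := by
    have : 0 < -q1.re := by linarith [h.q1neg]
    positivity
  have hS0 : 0 < 2 * q1.im * Real.exp (d1.re - 2 * X1.re) := by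
    have := h.i1
    positivity
  refine ⟨hk, by linarith [h.a1.2], hF, hψ, h.p2, y1, y3, y4, ?_, ?_, ?_, ?_, Real.exp_pos _,
    Real.exp_pos _, ?_, hS0, hw0, ?_, ?_, ?_, ?_, E4, ?_, ?_⟩
  · -- c_eq
    have e1 : (2 * Real.cos (k * (X1 - d0).im)) ^ (-(1 / k)) = Real.exp (d0 - d1).re := by
      rw [← y2, ← Real.exp_mul]
      congr 1
      simp only [sub_re]
      field_simp
      ring
    rw [e1, exp_re, hd0, Real.cos_neg, div_eq_iff (Real.exp_pos _).ne']
    have e2 : Real.exp d0.re = Real.exp (d0 - d1).re * Real.exp d1.re := by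
      rw [← Real.exp_add]; congr 1; simp
    rw [e2]
    ring
  · -- cA
    have hc := cos_pos_of_re h.D0
    rw [hd0, Real.cos_neg] at hc
    apply cos_pos_abs _ hc
    have b1 := abs_lt.1 hkη
    rw [abs_lt]
    constructor
    · linarith [h.a1.2]
    · linarith [h.a1.1]
  · rw [hX2]; linarith [h.a2.2]
  · rw [hX2]; linarith [h.a2.1]
  · -- P < 1
    rw [Real.exp_lt_one_iff]
    have h6 : 0 < k * (X1 - d1).re := by
      have h7 : (1 : ℝ) < Real.exp (k * (X1 - d1).re) := by rw [hre]; exact h.hC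
      exact Real.one_lt_exp_iff.1 h7
    have h8 : 0 < (X1 - d1).re := (pos_iff_pos_of_mul_pos h6).1 k0
    simp only [sub_re] at h8 ⊢
    linarith
  · -- e1
    have a1 : -X2.im - (X2 - d1).im = -X1.im + (X1 - d1).im - 2 * (X2 - d1).im := by
      simp; ring
    rw [a1] at E1
    rw [E1, hd1, Real.cos_neg]
  · have a1 : -X2.im - (X2 - d1).im = -X1.im + (X1 - d1).im - 2 * (X2 - d1).im := by
      simp; ring
    rw [a1] at E2
    rw [E2, hd1, Real.sin_neg]
    ring
  · exact E3
  · -- cw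
    have hle := h.D0_le
    have e1 : Real.exp (2 * (d1 - X1).re) = Real.exp d1.re * Real.exp (d1.re - 2 * X1.re) := by
      rw [← Real.exp_add]
      congr 1
      simp only [sub_re]
      ring
    rw [e1]
    have e2 : 0 < Real.exp (d1.re - 2 * X1.re) := Real.exp_pos _
    have e3 : 0 < Real.exp d1.re := Real.exp_pos _
    calc 2 * ((exp d0).re / Real.exp d1.re) * (Real.exp d1.re * Real.exp (d1.re - 2 * X1.re)) =
          2 * (exp d0).re * Real.exp (d1.re - 2 * X1.re) := by field_simp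
      _ ≤ 2 * -q1.re * Real.exp (d1.re - 2 * X1.re) := by
          apply mul_le_mul_of_nonneg_right _ e2.le
          linarith
  · -- f2
    obtain ⟨t1, _⟩ := h.disc_t he
    have ht : ‖pv k C X2 d1‖ = Real.exp (2 * (X2 - X1).re) ^ (k / 2) := by
      rw [← t1, ← Real.rpow_mul (norm_nonneg _)]
      have : 2 / k * (k / 2) = 1 := by field_simp
      rw [this, Real.rpow_one]
    rw [← ht]
    set t := ‖pv k C X2 d1‖ with htd
    have ht0 : 0 < t := norm_pos_iff.2 (pv_ne hC)
    have hre2 : (pv k C X2 d1).re = t * Real.cos (k * (X2 - d1).im) := by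
      rw [pv_re, htd, norm_pv hC]
    have him2 : (pv k C X2 d1).im = t * Real.sin (k * (X2 - d1).im) := by
      rw [pv_im, htd, norm_pv hC]
    have h3 : ‖1 - pv k C X2 d1‖ ^ 2 < 1 := by
      have := norm_nonneg (1 - pv k C X2 d1)
      nlinarith
    rw [← Complex.normSq_eq_norm_sq, normSq_apply] at h3
    rw [sub_re, sub_im, one_re, one_im, hre2, him2] at h3
    have h4 := Real.sin_sq_add_cos_sq (k * (X2 - d1).im)
    have h5 : t * (t - 2 * Real.cos (k * (X2 - d1).im)) < 0 := by
      have h6 : t * (t - 2 * Real.cos (k * (X2 - d1).im)) =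
          (1 - t * Real.cos (k * (X2 - d1).im)) * (1 - t * Real.cos (k * (X2 - d1).im)) +
            (0 - t * Real.sin (k * (X2 - d1).im)) * (0 - t * Real.sin (k * (X2 - d1).im)) - 1 := by
        linear_combination (-t ^ 2) * h4
      linarith
    by_contra hcon
    push Not at hcon
    have : 0 ≤ t * (t - 2 * Real.cos (k * (X2 - d1).im)) :=
      mul_nonneg ht0.le (by linarith)
    linarith
  · intro hA
    have h3 := hH (by linarith)
    rw [h.disc_f1 he, exp_ofReal_mul_I_re] at h3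
    exact h3

end St

end EQS
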