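import Mathlib
import Pool.Agent.Lib.MP_226de1_co.E.DFs

/-! Elementary consequences of `FsD`: rotations of the step relation. `β = φ - τ`, `δ = A - τ`. -/

set_option autoImplicit false

namespace EQS

namespace FsD

variable {k A φ τ η T P S w c : ℝ}

theorem k0 (h : FsD k A φ τ η T P S w c) : 0 < k := by linarith [h.hk]

theorem A1 (h : FsD k A φ τ η T P S w c) : A < Real.pi / 2 := by linarith [h.ψ, h.φ0]

theorem τ4 (h : FsD k A φ τ η T P S w c) : |τ| < Real.pi / 4 := by
  have h1 := h.τ2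
  rw [abs_mul, abs_of_pos h.k0] at h1
  nlinarith [abs_nonneg τ, h.hk]

theorem η4 (h : FsD k A φ τ η T P S w c) : |η| < Real.pi / 4 := by
  have h1 := h.η2
  rw [abs_mul, abs_of_pos h.k0] at h1
  nlinarith [abs_nonneg η, h.hk]

theorem cη (h : FsD k A φ τ η T P S w c) : 0 < Real.cos (k * η) := by
  have := abs_lt.1 h.η2
  exact Real.cos_pos_of_mem_Ioo ⟨by linarith, by linarith⟩

theorem c0 (h : FsD k A φ τ η T P S w c) : 0 < c := by
  rw [h.c_eq]
  have := abs_lt.1 h.cA
  apply mul_pos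
  · exact Real.rpow_pos_of_pos (by linarith [h.cη]) _
  · exact Real.cos_pos_of_mem_Ioo ⟨by linarith, by linarith⟩

theorem cosA (h : FsD k A φ τ η T P S w c) : 0 < Real.cos A :=
  Real.cos_pos_of_mem_Ioo ⟨by linarith [h.A0, Real.pi_pos], h.A1⟩

theorem sinA (h : FsD k A φ τ η T P S w c) : 0 < Real.sin A :=
  Real.sin_pos_of_pos_of_lt_pi h.A0 (by linarith [h.A1, Real.pi_pos])

theorem sin2A (h : FsD k A φ τ η T P S w c) : 0 < Real.sin (2 * A) :=
  Real.sin_pos_of_pos_of_lt_pi (by linarith [h.A0]) (by linarith [h.A1])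

theorem cosψ (h : FsD k A φ τ η T P S w c) : 0 < Real.cos (A + φ) :=
  Real.cos_pos_of_mem_Ioo ⟨by linarith [h.A0, h.φ0, Real.pi_pos], h.ψ⟩

theorem sinψ (h : FsD k A φ τ η T P S w c) : 0 < Real.sin (A + φ) :=
  Real.sin_pos_of_pos_of_lt_pi (by linarith [h.A0, h.φ0]) (by linarith [h.ψ, Real.pi_pos])

/-- the general rotation -/
theorem rot (h : FsD k A φ τ η T P S w c) (ω : ℝ) :
    T * Real.sin (A + φ - 2 * τ - ω) + Real.sin (φ + ω - A) =
      S * Real.cos ω - w * Real.sin ω + P * Real.sin (A + φ - ω) := by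
  have e1 : Real.sin (φ + ω - A) = -Real.sin (A - φ - ω) := by
    rw [← Real.sin_neg]
    congr 1
    ring
  rw [e1, Real.sin_sub (A + φ - 2 * τ) ω, Real.sin_sub (A - φ) ω, Real.sin_sub (A + φ) ω]
  linear_combination Real.cos ω * h.e2 - Real.sin ω * h.e1

theorem rotc (h : FsD k A φ τ η T P S w c) (ω : ℝ) :
    T * Real.cos (A + φ - 2 * τ - ω) - Real.cos (A - φ - ω) =
      S * Real.sin ω + w * Real.cos ω + P * Real.cos (A + φ - ω) := by
  rw [Real.cos_sub (A + φ - 2 * τ) ω, Real.cos_sub (A - φ) ω, Real.cos_sub (A + φ) ω]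
  linear_combination Real.sin ω * h.e2 + Real.cos ω * h.e1

/-- `(T-1) cos β = S sin δ + w cos δ + P cos (φ + τ)` -/
theorem Ec (h : FsD k A φ τ η T P S w c) :
    (T - 1) * Real.cos (φ - τ) =
      S * Real.sin (A - τ) + w * Real.cos (A - τ) + P * Real.cos (φ + τ) := by
  have h1 := h.rotc (A - τ)
  have e1 : A + φ - 2 * τ - (A - τ) = φ - τ := by ring
  have e2 : A - φ - (A - τ) = -(φ - τ) := by ring
  have e3 : A + φ - (A - τ) = φ + τ := by ring
  rw [e1, e2, e3, Real.cos_neg] at h1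
  linarith

/-- `(T+1) sin β = S cos δ - w sin δ + P sin (φ + τ)` -/
theorem Es (h : FsD k A φ τ η T P S w c) :
    (T + 1) * Real.sin (φ - τ) =
      S * Real.cos (A - τ) - w * Real.sin (A - τ) + P * Real.sin (φ + τ) := by
  have h1 := h.rot (A - τ)
  have e1 : A + φ - 2 * τ - (A - τ) = φ - τ := by ring
  have e2 : φ + (A - τ) - A = φ - τ := by ring
  have e3 : A + φ - (A - τ) = φ + τ := by ring
  rw [e1, e2, e3] at h1
  linarith

/-- `(T-1) cos β cos δ - (T+1) sin β sin δ = w + P cos (A + φ)` -/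
theorem Ea (h : FsD k A φ τ η T P S w c) :
    (T - 1) * Real.cos (φ - τ) * Real.cos (A - τ) -
      (T + 1) * Real.sin (φ - τ) * Real.sin (A - τ) = w + P * Real.cos (A + φ) := by
  have h1 := h.e1
  have e1 : A + φ - 2 * τ = (A - τ) + (φ - τ) := by ring
  have e2 : A - φ = (A - τ) - (φ - τ) := by ring
  rw [e1, e2, Real.cos_add (A - τ), Real.cos_sub (A - τ)] at h1
  linear_combination h1

/-- `(T+1) sin β cos δ + (T-1) cos β sin δ = S + P sin (A + φ)` -/
theorem Eb (h : FsD k A φ τ η T P S w c) :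
    (T + 1) * Real.sin (φ - τ) * Real.cos (A - τ) +
      (T - 1) * Real.cos (φ - τ) * Real.sin (A - τ) = S + P * Real.sin (A + φ) := by
  have h1 := h.e2
  have e1 : A + φ - 2 * τ = (A - τ) + (φ - τ) := by ring
  have e2 : A - φ = (A - τ) - (φ - τ) := by ring
  rw [e1, e2, Real.sin_add (A - τ), Real.sin_sub (A - τ)] at h1
  linear_combination h1

/-- `τ < φ` -/
theorem τ_lt (h : FsD k A φ τ η T P S w c) (hτ : 0 ≤ τ) : τ < φ := by
  have hpi := Real.pi_pos
  have h1 := h.Es
  have h2 := abs_lt.1 h.τ4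
  have hA := h.A0
  have hA1 := h.A1
  have hT := h.T0
  by_contra hcon
  push Not at hcon
  have h3 : Real.sin (φ - τ) ≤ 0 :=
    Real.sin_nonpos_of_nonpos_of_neg_pi_le (by linarith) (by linarith [h.φ0])
  have h4 : 0 < Real.sin (φ + τ) :=
    Real.sin_pos_of_pos_of_lt_pi (by linarith [h.φ0]) (by linarith [h.ψ])
  have h5 : 0 ≤ S * Real.cos (A - τ) - w * Real.sin (A - τ) := by
    have hS := h.S0
    have hw := h.w0
    have hc : Real.cos A ≤ Real.cos (A - τ) ∨ A ≤ τ := by
      rcases le_or_gt A τ with h6 | h6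
      · exact Or.inr h6
      · left
        exact Real.cos_le_cos_of_nonneg_of_le_pi (by linarith) (by linarith) (by linarith)
    rcases hc with hc | hc
    · rcases le_or_gt A τ with h6 | h6
      · have s1 : Real.sin (A - τ) ≤ 0 :=
          Real.sin_nonpos_of_nonpos_of_neg_pi_le (by linarith) (by linarith)
        have s2 : 0 ≤ Real.cos (A - τ) :=
          Real.cos_nonneg_of_mem_Icc ⟨by linarith, by linarith⟩
        nlinarith
      · have s1 : Real.sin (A - τ) ≤ Real.sin A :=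
          Real.sin_le_sin_of_le_of_le_pi_div_two (by linarith) hA1.le (by linarith)
        nlinarith [h.sa]
    · have s1 : Real.sin (A - τ) ≤ 0 :=
        Real.sin_nonpos_of_nonpos_of_neg_pi_le (by linarith) (by linarith)
      have s2 : 0 ≤ Real.cos (A - τ) :=
        Real.cos_nonneg_of_mem_Icc ⟨by linarith, by linarith⟩
      nlinarith
  have h6 : 0 < P * Real.sin (φ + τ) := mul_pos h.P0 h4
  have h7 : (T + 1) * Real.sin (φ - τ) ≤ 0 := mul_nonpos_of_nonneg_of_nonpos (by linarith) h3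
  linarith

/-- `c S ≤ sin 2A` -/
theorem cS (h : FsD k A φ τ η T P S w c) : c * S ≤ Real.sin (2 * A) := by
  have h1 := h.sw
  have h2 := h.cw
  have hP := h.P0
  have hS := h.S0
  have h3 : S * (2 * c * P) ≤ S * w := mul_le_mul_of_nonneg_left h2 hS.le
  have h4 : 2 * P * (c * S) ≤ 2 * P * Real.sin (2 * A) := by linarith
  exact le_of_mul_le_mul_left h4 (by linarith)

/-- the rotation `ω` without `P` -/
theorem rotb (h : FsD k A φ τ η T P S w c) {ω : ℝ} (h0 : 0 ≤ ω) (h1 : ω ≤ Real.pi / 2)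
    (h2 : Real.sin (A + φ - ω) ≤ 2 * c * Real.sin ω) :
    c * (T * Real.sin (A + φ - 2 * τ - ω) + Real.sin (φ + ω - A)) ≤
      Real.sin (2 * A) * Real.cos ω := by
  have hpi := Real.pi_pos
  rw [h.rot ω]
  have hs : 0 ≤ Real.sin ω := Real.sin_nonneg_of_nonneg_of_le_pi h0 (by linarith)
  have hc : 0 ≤ Real.cos ω := Real.cos_nonneg_of_mem_Icc ⟨by linarith, h1⟩
  have hP := h.P0
  have h3 : S * Real.cos ω - w * Real.sin ω + P * Real.sin (A + φ - ω) ≤ S * Real.cos ω := by
    have h4 : 2 * c * P * Real.sin ω ≤ w * Real.sin ω := mul_le_mul_of_nonneg_right h.cw hs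
    have h5 : P * Real.sin (A + φ - ω) ≤ P * (2 * c * Real.sin ω) :=
      mul_le_mul_of_nonneg_left h2 hP.le
    linarith
  calc c * (S * Real.cos ω - w * Real.sin ω + P * Real.sin (A + φ - ω)) ≤
        c * (S * Real.cos ω) := mul_le_mul_of_nonneg_left h3 h.c0.le
    _ = c * S * Real.cos ω := by ring
    _ ≤ Real.sin (2 * A) * Real.cos ω := mul_le_mul_of_nonneg_right h.cS hc

/-- the quadratic inequality, exact form -/
theorem KQ (h : FsD k A φ τ η T P S w c) :
    c * S ^ 2 ≤ 2 * Real.cos A * (Real.cos τ * ((T - 1) * Real.cos (φ - τ) -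
      w * Real.cos (A - τ) - P * Real.cos (φ + τ)) + S * Real.cos (A - τ) * Real.sin τ) := by
  have h1 := h.Ec
  have h2 : Real.sin A = Real.sin (A - τ) * Real.cos τ + Real.cos (A - τ) * Real.sin τ := by
    rw [← Real.sin_add]
    congr 1
    ring
  have h3 : c * S ^ 2 ≤ S * Real.sin (2 * A) := by
    have := mul_le_mul_of_nonneg_left h.cS h.S0.le
    linarith
  rw [Real.sin_two_mul, h2] at h3
  have h4 : S * (2 * (Real.sin (A - τ) * Real.cos τ + Real.cos (A - τ) * Real.sin τ) *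
      Real.cos A) = 2 * Real.cos A * (Real.cos τ * ((T - 1) * Real.cos (φ - τ) -
      w * Real.cos (A - τ) - P * Real.cos (φ + τ)) + S * Real.cos (A - τ) * Real.sin τ) := by
    rw [h1]
    ring
  rw [h4] at h3
  exact h3

end FsD

end EQS
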