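import Mathlib

/-! Unit disc exit, second step: `sin u ≤ m cos (u - φ)` for `u = 2 Im (X - X') ≥ φ = Im (X - d)`,
`m = |D| / |i - q| ≤ 1`. -/

set_option autoImplicit false

namespace EQS

open Complex

/-- the pure part -/
theorem ha_pure {E v φ m m' K S : ℝ} (hE : 0 < E) (hm : 0 < m) (hm1 : m ≤ 1) (hm' : 0 < m')
    (hmm : m' < m) (hK : 0 ≤ K) (hS : S ≤ 1) (hc : 0 ≤ Real.cos φ) (hs : 0 ≤ Real.sin φ)
    (h1 : E * Real.cos v = (1 + m * m') * Real.cos φ + (m + m') * K)
    (h2 : E * Real.sin v = (m - m') * S - (1 - m * m') * Real.sin φ)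
    (hv : 0 ≤ Real.sin v) : Real.sin (v + φ) ≤ m * Real.cos v := by
  have hmm1 : 0 < 1 - m * m' := by nlinarith
  have g1 : (1 - m * m') * Real.sin φ ≤ (m - m') * S := by
    have := mul_nonneg hE.le hv
    linarith
  have hS0 : 0 ≤ S := by
    have h3 : 0 ≤ (m - m') * S := (mul_nonneg hmm1.le hs).trans g1
    exact nonneg_of_mul_nonneg_right h3 (by linarith)
  have g2 : (m - m') * S ≤ (1 - m * m') * (m * S) := by
    have h3 : 0 ≤ m' * (1 - m * m) * S :=
      mul_nonneg (mul_nonneg hm'.le (by nlinarith)) hS0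
    nlinarith
  have g3 : Real.sin φ ≤ m * S := le_of_mul_le_mul_left (g1.trans g2) hmm1
  have g4 : Real.sin φ ≤ m := by nlinarith
  have key : E * (m * Real.cos v - Real.sin (v + φ)) =
      (m - Real.sin φ) * ((m + m') * K) + Real.cos φ *
        (m * (1 - S) + m' * (m ^ 2 - 2 * m * Real.sin φ + S)) := by
    rw [Real.sin_add]
    linear_combination (m - Real.sin φ) * h1 - Real.cos φ * h2
  have g5 : 0 ≤ m ^ 2 - 2 * m * Real.sin φ + S := by
    have h3 : m * Real.sin φ ≤ m * (m * S) := mul_le_mul_of_nonneg_left g3 hm.le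
    have h4 : 0 ≤ S * (1 - m ^ 2) := mul_nonneg hS0 (by nlinarith)
    have h5 : 0 ≤ m ^ 2 * (1 - S) := mul_nonneg (by positivity) (by linarith)
    nlinarith
  have g6 : 0 ≤ E * (m * Real.cos v - Real.sin (v + φ)) := by
    rw [key]
    have h3 : 0 ≤ (m - Real.sin φ) * ((m + m') * K) :=
      mul_nonneg (by linarith) (mul_nonneg (by linarith) hK)
    have h4 : 0 ≤ m * (1 - S) := mul_nonneg hm.le (by linarith)
    have h5 : 0 ≤ m' * (m ^ 2 - 2 * m * Real.sin φ + S) := mul_nonneg hm'.le g5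
    have h6 := mul_nonneg hc (add_nonneg h4 h5)
    linarith
  have := nonneg_of_mul_nonneg_right g6 hE
  linarith

/-- `w = |D| e^{i Im X} / (i - q)` has positive real part -/
theorem ha_sign {q X w : ℂ} {g : ℝ} (hx : exp (2 * X) = 1 + q ^ 2)
    (hX : -(Real.pi / 2) < X.im ∧ X.im < 0) (hr : q.re < 0) (hg : 0 < g)
    (hw : w * (I - q) = (g : ℂ) * exp X) : 0 < w.re := by
  have hpi := Real.pi_pos
  have hxr : 0 < (exp X).re := by
    rw [exp_re]
    exact mul_pos (Real.exp_pos _) (Real.cos_pos_of_mem_Ioo ⟨hX.1, by linarith⟩)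
  have hxi : (exp X).im < 0 := by
    rw [exp_im]
    exact mul_neg_of_pos_of_neg (Real.exp_pos _)
      (Real.sin_neg_of_neg_of_neg_pi_lt hX.2 (by linarith))
  have hne : I - q ≠ 0 := by
    intro h0
    have := congrArg Complex.re h0
    simp at this
    linarith
  have h1 : w ^ 2 * (I - q) = ((g ^ 2 : ℝ) : ℂ) * (-I - q) := by
    apply mul_right_cancel₀ hne
    have e1 : exp (2 * X) = exp X ^ 2 := by
      rw [← Complex.exp_nat_mul]
      congr 1
    have e2 : (I - q) * (-I - q) = 1 + q ^ 2 := by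
      linear_combination (-1 : ℂ) * I_sq
    calc w ^ 2 * (I - q) * (I - q) = (w * (I - q)) ^ 2 := by ring
      _ = ((g : ℂ) * exp X) ^ 2 := by rw [hw]
      _ = ((g ^ 2 : ℝ) : ℂ) * (1 + q ^ 2) := by rw [mul_pow, ← e1, hx]; push_cast; ring
      _ = _ := by rw [← e2]; ring
  have h2 : ((w ^ 2 * (I - q)) * (starRingEnd ℂ) (I - q)).im =
      ((((g ^ 2 : ℝ) : ℂ) * (-I - q)) * (starRingEnd ℂ) (I - q)).im := by rw [h1]
  have e3 : ((w ^ 2 * (I - q)) * (starRingEnd ℂ) (I - q)).im =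
      2 * (w.re * w.im) * (q.re ^ 2 + (1 - q.im) ^ 2) := by
    simp only [pow_two, mul_im, mul_re, sub_re, sub_im, I_re, I_im, conj_re, conj_im]
    ring
  have e4 : ((((g ^ 2 : ℝ) : ℂ) * (-I - q)) * (starRingEnd ℂ) (I - q)).im =
      g ^ 2 * (2 * q.re) := by
    rw [mul_assoc, im_ofReal_mul]
    simp only [mul_im, sub_re, sub_im, neg_re, neg_im, I_re, I_im, conj_re, conj_im]
    ring
  rw [e3, e4] at h2
  have h3 : w.re * w.im < 0 := by
    have h4 : 0 < q.re ^ 2 + (1 - q.im) ^ 2 := by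
      have : 0 < q.re ^ 2 := by
        have := hr.ne
        positivity
      positivity
    have h5 : g ^ 2 * (2 * q.re) < 0 := mul_neg_of_pos_of_neg (by positivity) (by linarith)
    by_contra hcon
    have := mul_nonneg (mul_nonneg (zero_le_two (α := ℝ)) (not_lt.1 hcon)) h4.le
    linarith
  have r1 := congrArg Complex.re hw
  have r2 := congrArg Complex.im hw
  rw [re_ofReal_mul, mul_re, sub_re, sub_im, I_re, I_im] at r1
  rw [im_ofReal_mul, mul_im, sub_re, sub_im, I_re, I_im] at r2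
  have r3 := mul_pos hg hxr
  have r4 := mul_neg_of_pos_of_neg hg hxi
  by_contra hcon
  have hwr : w.re < 0 := by
    rcases (not_lt.1 hcon).lt_or_eq with h | h
    · exact h
    · rw [h] at h3
      simp at h3
  have hwi : 0 < w.im := by
    by_contra h5
    have := mul_nonneg_of_nonpos_of_nonpos hwr.le (not_lt.1 h5)
    linarith
  rcases le_or_gt 0 (1 - q.im) with h6 | h6
  · have := mul_nonneg hwi.le h6
    have := mul_nonneg_of_nonpos_of_nonpos hwr.le hr.le
    nlinarith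
  · have := mul_pos_of_neg_of_neg hwr h6
    have := mul_neg_of_pos_of_neg hwi hr
    nlinarith

/-- one step in real variables: `E e^{-iv} = (1 + m m') cos φ + i (1 - m m') sin φ +
(m + m') K - i (m - m') S`, `E = |xi' / xi|²`, `v = 2 Im (X - X') - φ`, `φ = Im (X - d)`,
`m = |D| / |i - q|`, `m' = |D| / |i + q|`, `K - i S` of modulus 1 in `Re > 0` -/
theorem ha_data {q q' d X X' : ℂ} (hx : exp (2 * X) = 1 + q ^ 2)
    (hX : -(Real.pi / 2) < X.im ∧ X.im < 0) (hx' : exp (2 * X') = 1 + q' ^ 2)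
    (hq : q = q' + exp d) (hr : q.re < 0) (hi : 0 < q.im) :
    ∃ m' K S : ℝ, 0 < ‖exp d‖ / ‖I - q‖ ∧ 0 < m' ∧ m' < ‖exp d‖ / ‖I - q‖ ∧ 0 < K ∧ S ≤ 1 ∧
      K ^ 2 + S ^ 2 = 1 ∧ ‖exp d‖ / ‖I - q‖ * m' = Real.exp (2 * (d - X).re) ∧
      Real.exp (2 * (X' - X).re) * Real.cos (2 * (X - X').im - (X - d).im) =
        (1 + ‖exp d‖ / ‖I - q‖ * m') * Real.cos (X - d).im +
          (‖exp d‖ / ‖I - q‖ + m') * K ∧
      Real.exp (2 * (X' - X).re) * Real.sin (2 * (X - X').im - (X - d).im) =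
        (‖exp d‖ / ‖I - q‖ - m') * S -
          (1 - ‖exp d‖ / ‖I - q‖ * m') * Real.sin (X - d).im := by
  have hpi := Real.pi_pos
  have hne : I - q ≠ 0 := by
    intro h0
    have := congrArg Complex.re h0
    simp at this
    linarith
  have hne' : -I - q ≠ 0 := by
    intro h0
    have := congrArg Complex.re h0
    simp at this
    linarith
  have hD : exp d ≠ 0 := exp_ne_zero _
  set φ := (X - d).im with hφd
  set u := 2 * (X - X').im with hu
  set c : ℂ := exp ((φ : ℂ) * I) with hcd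
  set y : ℂ := exp d / (I - q) with hy
  set y' : ℂ := exp d / (-I - q) with hy'
  set m := ‖exp d‖ / ‖I - q‖ with hmd
  set m' := ‖exp d‖ / ‖-I - q‖ with hmd'
  have hn0 : 0 < ‖exp d‖ := norm_pos_iff.2 hD
  have hn1 : 0 < ‖I - q‖ := norm_pos_iff.2 hne
  have hn2 : 0 < ‖-I - q‖ := norm_pos_iff.2 hne'
  have hm0 : 0 < m := div_pos hn0 hn1
  have hm0' : 0 < m' := div_pos hn0 hn2
  have hmy : ‖y‖ = m := by rw [hy, norm_div]
  have hmy' : ‖y'‖ = m' := by rw [hy', norm_div]
  have hlt : ‖I - q‖ < ‖-I - q‖ := by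
    apply lt_of_pow_lt_pow_left₀ 2 (norm_nonneg _)
    rw [← Complex.normSq_eq_norm_sq, ← Complex.normSq_eq_norm_sq, normSq_apply, normSq_apply]
    simp only [sub_re, sub_im, neg_re, neg_im, I_re, I_im]
    nlinarith
  have hmm : m' < m := div_lt_div_of_pos_left hn0 hn1 hlt
  have e0 : (I - q) * (-I - q) = 1 + q ^ 2 := by
    linear_combination (-1 : ℂ) * I_sq
  have hxne : (1 : ℂ) + q ^ 2 ≠ 0 := by
    rw [← e0]
    exact mul_ne_zero hne hne'
  -- `(1 + y) (1 + y') = e^{2 (X' - X)}`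
  have hprod : (1 + y) * (1 + y') = exp (2 * (X' - X)) := by
    have e1 : exp (2 * (X' - X)) = exp (2 * X') / exp (2 * X) := by
      rw [← exp_sub]
      congr 1
      ring
    have hq' : q' = q - exp d := by rw [hq]; ring
    rw [e1, hx, hx', hq', eq_div_iff hxne, hy, hy', ← e0]
    field_simp
    linear_combination (-1 : ℂ) * I_sq
  have hyy : y * y' = exp (2 * (d - X)) := by
    have e1 : exp (2 * (d - X)) = exp d ^ 2 / exp (2 * X) := by
      rw [← Complex.exp_nat_mul, ← exp_sub]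
      congr 1
      push_cast
      ring
    rw [e1, hx, hy, hy', ← e0]
    field_simp
  set P := Real.exp (2 * (d - X).re) with hP
  have hyy2 : exp (2 * (d - X)) = (P : ℂ) * exp (((-(2 * φ) : ℝ) : ℂ) * I) := by
    rw [hP, ofReal_exp, ← exp_add]
    congr 1
    apply Complex.ext
    · simp
    · simp [hφd]
      ring
  have hPm : m * m' = P := by
    rw [← hmy, ← hmy', ← norm_mul, hyy, norm_exp, hP]
    congr 1
    simp
  set w := c * y with hw
  set w' := c * y' with hw'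
  have hc1 : ‖c‖ = 1 := by rw [hcd, Complex.norm_exp_ofReal_mul_I]
  have hnw : ‖w‖ = m := by rw [hw, norm_mul, hc1, one_mul, hmy]
  have hcc : c * c * exp (((-(2 * φ) : ℝ) : ℂ) * I) = 1 := by
    rw [hcd, ← exp_add, ← exp_add, ← exp_zero]
    congr 1
    push_cast
    ring
  have hww : w * w' = (P : ℂ) := by
    calc w * w' = c * c * (y * y') := by rw [hw, hw']; ring
      _ = (P : ℂ) * (c * c * exp (((-(2 * φ) : ℝ) : ℂ) * I)) := by rw [hyy, hyy2]; ring
      _ = _ := by rw [hcc, mul_one]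
  have hw0 : w ≠ 0 := by
    rw [← norm_pos_iff, hnw]
    exact hm0
  have hwc : w * (starRingEnd ℂ) w = ((m ^ 2 : ℝ) : ℂ) := by
    rw [Complex.mul_conj, Complex.normSq_eq_norm_sq, hnw]
  have hw'c : w' = ((m' / m : ℝ) : ℂ) * (starRingEnd ℂ) w := by
    apply mul_left_cancel₀ hw0
    have hmc : (m : ℂ) ≠ 0 := by exact_mod_cast hm0.ne'
    calc w * w' = (P : ℂ) := hww
      _ = ((m' / m : ℝ) : ℂ) * ((m ^ 2 : ℝ) : ℂ) := by
          rw [← hPm]
          push_cast
          field_simp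
      _ = _ := by rw [← hwc]; ring
  -- the rotated identity
  have hcyy : c * (y * y') = (P : ℂ) * exp (((-φ : ℝ) : ℂ) * I) := by
    rw [hyy, hyy2, hcd]
    rw [mul_left_comm, ← exp_add]
    congr 2
    push_cast
    ring
  have hmain : c * exp (2 * (X' - X)) = c + w + w' + (P : ℂ) * exp (((-φ : ℝ) : ℂ) * I) := by
    rw [← hprod, ← hcyy, hw, hw']
    ring
  set E := Real.exp (2 * (X' - X).re) with hE
  have hleft : c * exp (2 * (X' - X)) = (E : ℂ) * exp (((-(u - φ) : ℝ) : ℂ) * I) := by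
    rw [hcd, hE, ofReal_exp, ← exp_add, ← exp_add]
    congr 1
    apply Complex.ext
    · simp
    · simp [hu]
      ring
  rw [hleft] at hmain
  have hre := congrArg Complex.re hmain
  have him := congrArg Complex.im hmain
  have hw're : w'.re = m' / m * w.re := by rw [hw'c, re_ofReal_mul, conj_re]
  have hw'im : w'.im = -(m' / m * w.im) := by rw [hw'c, im_ofReal_mul, conj_im]; ring
  have hcre : c.re = Real.cos φ := by rw [hcd, exp_ofReal_mul_I_re]
  have hcim : c.im = Real.sin φ := by rw [hcd, exp_ofReal_mul_I_im]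
  have l1 : ((E : ℂ) * exp (((-(u - φ) : ℝ) : ℂ) * I)).re = E * Real.cos (u - φ) := by
    rw [re_ofReal_mul, exp_ofReal_mul_I_re, Real.cos_neg]
  have l2 : ((E : ℂ) * exp (((-(u - φ) : ℝ) : ℂ) * I)).im = -(E * Real.sin (u - φ)) := by
    rw [im_ofReal_mul, exp_ofReal_mul_I_im, Real.sin_neg]
    ring
  have l3 : ((P : ℂ) * exp (((-φ : ℝ) : ℂ) * I)).re = P * Real.cos φ := by
    rw [re_ofReal_mul, exp_ofReal_mul_I_re, Real.cos_neg]
  have l4 : ((P : ℂ) * exp (((-φ : ℝ) : ℂ) * I)).im = -(P * Real.sin φ) := by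
    rw [im_ofReal_mul, exp_ofReal_mul_I_im, Real.sin_neg]
    ring
  rw [l1, add_re, add_re, add_re, l3, hw're, hcre] at hre
  rw [l2, add_im, add_im, add_im, l4, hw'im, hcim] at him
  -- the sign of `Re w`
  have hwre : 0 < w.re := by
    refine ha_sign (g := Real.exp (d - X).re) hx hX hr (Real.exp_pos _) ?_
    have e1 : w * (I - q) = c * exp d := by
      rw [hw, hy]
      field_simp
    rw [e1, hcd, ofReal_exp, ← exp_add, ← exp_add]
    congr 1
    apply Complex.ext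
    · simp
    · simp [hφd]
  have hnorm : w.re ^ 2 + w.im ^ 2 = m ^ 2 := by
    rw [← hnw, ← Complex.normSq_eq_norm_sq, normSq_apply]
    ring
  have hS : -w.im / m ≤ 1 := by
    rw [div_le_one hm0]
    nlinarith [sq_nonneg w.re]
  refine ⟨m', w.re / m, -w.im / m, hm0, hm0', hmm, div_pos hwre hm0, hS, ?_, hPm, ?_, ?_⟩
  · field_simp
    linarith
  · rw [hre, hPm]
    field_simp
    ring
  · have e2 : E * Real.sin (u - φ) = -(Real.sin φ + w.im + -(m' / m * w.im) +
          -(P * Real.sin φ)) := by linarith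
    rw [e2, hPm]
    field_simp
    ring

/-- **(ha)** for one step -/
theorem ha_step {q q' d X X' : ℂ} (hx : exp (2 * X) = 1 + q ^ 2)
    (hX : -(Real.pi / 2) < X.im ∧ X.im < 0) (hx' : exp (2 * X') = 1 + q' ^ 2)
    (hq : q = q' + exp d) (hr : q.re < 0) (hi : 0 < q.im)
    (hφ : 0 ≤ (X - d).im) (hφ2 : (X - d).im ≤ Real.pi / 2) (hm : ‖exp d‖ / ‖I - q‖ ≤ 1)
    (hv0 : (X - d).im ≤ 2 * (X - X').im) (hv1 : 2 * (X - X').im - (X - d).im ≤ Real.pi) :
    Real.sin (2 * (X - X').im) ≤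
      ‖exp d‖ / ‖I - q‖ * Real.cos (2 * (X - X').im - (X - d).im) := by
  have hpi := Real.pi_pos
  obtain ⟨m', K, S, h1, h2, h3, h4, h5, _, _, h6, h7⟩ := ha_data hx hX hx' hq hr hi
  have hgoal := ha_pure (Real.exp_pos _) h1 hm h2 h3 h4.le h5
    (Real.cos_nonneg_of_neg_pi_div_two_le_of_le (by linarith) hφ2)
    (Real.sin_nonneg_of_nonneg_of_le_pi hφ (by linarith)) h6 h7
    (Real.sin_nonneg_of_nonneg_of_le_pi (by linarith) (by linarith))
  have e5 : 2 * (X - X').im - (X - d).im + (X - d).im = 2 * (X - X').im := by ring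
  rwa [e5] at hgoal

/-- `sin φ ≤ m` as soon as `2 Im (X - X') ≥ φ` -/
theorem ha_sin {q q' d X X' : ℂ} (hx : exp (2 * X) = 1 + q ^ 2)
    (hX : -(Real.pi / 2) < X.im ∧ X.im < 0) (hx' : exp (2 * X') = 1 + q' ^ 2)
    (hq : q = q' + exp d) (hr : q.re < 0) (hi : 0 < q.im)
    (hφ : 0 ≤ (X - d).im) (hφ2 : (X - d).im ≤ Real.pi / 2) (hm : ‖exp d‖ / ‖I - q‖ ≤ 1)
    (hv0 : (X - d).im ≤ 2 * (X - X').im) (hv1 : 2 * (X - X').im - (X - d).im ≤ Real.pi) :
    Real.sin (X - d).im ≤ ‖exp d‖ / ‖I - q‖ := by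
  have hpi := Real.pi_pos
  obtain ⟨m', K, S, hm0, hm', hmm, h4, hS, _, _, h6, h7⟩ := ha_data hx hX hx' hq hr hi
  have hv := Real.sin_nonneg_of_nonneg_of_le_pi
    (x := 2 * (X - X').im - (X - d).im) (by linarith) hv1
  have hs := Real.sin_nonneg_of_nonneg_of_le_pi hφ (by linarith)
  have hE := Real.exp_pos (2 * (X' - X).re)
  set m := ‖exp d‖ / ‖I - q‖
  have hmm1 : 0 < 1 - m * m' := by nlinarith
  have g1 : (1 - m * m') * Real.sin (X - d).im ≤ (m - m') * S := by
    have := mul_nonneg hE.le hv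
    linarith
  have g2 : (m - m') * S ≤ (m - m') * 1 := mul_le_mul_of_nonneg_left hS (by linarith)
  have g3 : (m - m') * 1 ≤ (1 - m * m') * m := by
    have : 0 ≤ m' * (1 - m * m) := mul_nonneg hm'.le (by nlinarith)
    nlinarith
  exact le_of_mul_le_mul_left (g1.trans (g2.trans g3)) hmm1

end EQS
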