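import Pool.Agent.Lib.MP_226de1_co.E.TwoNum

/-! # MP_226de1_co, `k > 2`, exit from the unit disc: `m = |y_2| ≤ 1` for `2 < k ≤ 3`

Pure inequality, see dnote 1905 of helper26.  With `s = A + φ`, `r = c_0 / cos s`:
* (M2) + (M3) give `1 + 2 Re z ≥ r`, and (M3) gives `r φ ≤ A` (the function `sin x / x` decreases);
* `Y² = ρ^{-2/k} (T - 1/T) ≤ max(8 c / k², (2c+1)/k) / cos(w/2)`, `w = π - θ`, `c = cos w`;
* (M4) is `s ≤ π δ + w / k`, `δ = 1/2 - 1/k`;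
* the line `ℓ(s) = 2.3 - 5.3 δ - (1.6 - 6 δ) s` (`k ≤ 5/2`), `ℓ = 1.7 - 4.2 δ` (`k ≥ 5/2`) separates
  `Y² ≤ ℓ ≤ r` for `s ≤ 7/10`; for `s ≥ 7/10` one has `Y² ≤ 1`. -/

set_option autoImplicit false

namespace EQD

open Real Set

/-! ### polynomial inequalities (Bernstein coefficients are positive) -/

/-- polynomial piece -/
private theorem E1_0 {d w : ℝ} (hx0' : 0 ≤ d) (hx1' : d ≤ 1 / 10) (hy0' : 0 ≤ w) (hy1' : w ≤ 1 / 2) :
    8 * (1 / 2 - d) ^ 2 * (1 - w ^ 2 / 2 + w ^ 4 / 24) ≤ (23 / 10 - 53 / 10 * d - (8 / 5 - 6 * d) * (31416 / 10000 * d + (1 / 2 - d) * w)) * (1 - w ^ 2 / 8) := by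
  have hx0 : 0 ≤ d - 0 := by linarith
  have hx1 : 0 ≤ 1 / 10 - d := by linarith
  have hy0 : 0 ≤ w - 0 := by linarith
  have hy1 : 0 ≤ 1 / 2 - w := by linarith
  linarith [mul_nonneg (pow_nonneg hx1 2) (pow_nonneg hy1 4),
    mul_nonneg (mul_nonneg (pow_nonneg hx1 2) (pow_nonneg hy0 1)) (pow_nonneg hy1 3),
    mul_nonneg (mul_nonneg (pow_nonneg hx1 2) (pow_nonneg hy0 2)) (pow_nonneg hy1 2),
    mul_nonneg (mul_nonneg (pow_nonneg hx1 2) (pow_nonneg hy0 3)) (pow_nonneg hy1 1),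
    mul_nonneg (pow_nonneg hx1 2) (pow_nonneg hy0 4),
    mul_nonneg (mul_nonneg (pow_nonneg hx0 1) (pow_nonneg hx1 1)) (pow_nonneg hy1 4),
    mul_nonneg (mul_nonneg (mul_nonneg (pow_nonneg hx0 1) (pow_nonneg hx1 1)) (pow_nonneg hy0 1)) (pow_nonneg hy1 3),
    mul_nonneg (mul_nonneg (mul_nonneg (pow_nonneg hx0 1) (pow_nonneg hx1 1)) (pow_nonneg hy0 2)) (pow_nonneg hy1 2),
    mul_nonneg (mul_nonneg (mul_nonneg (pow_nonneg hx0 1) (pow_nonneg hx1 1)) (pow_nonneg hy0 3)) (pow_nonneg hy1 1),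
    mul_nonneg (mul_nonneg (pow_nonneg hx0 1) (pow_nonneg hx1 1)) (pow_nonneg hy0 4),
    mul_nonneg (pow_nonneg hx0 2) (pow_nonneg hy1 4),
    mul_nonneg (mul_nonneg (pow_nonneg hx0 2) (pow_nonneg hy0 1)) (pow_nonneg hy1 3),
    mul_nonneg (mul_nonneg (pow_nonneg hx0 2) (pow_nonneg hy0 2)) (pow_nonneg hy1 2),
    mul_nonneg (mul_nonneg (pow_nonneg hx0 2) (pow_nonneg hy0 3)) (pow_nonneg hy1 1),
    mul_nonneg (pow_nonneg hx0 2) (pow_nonneg hy0 4)]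

/-- polynomial piece -/
private theorem E1_1 {d w : ℝ} (hx0' : 0 ≤ d) (hx1' : d ≤ 1 / 10) (hy0' : 1 / 2 ≤ w) (hy1' : w ≤ 1) :
    8 * (1 / 2 - d) ^ 2 * (1 - w ^ 2 / 2 + w ^ 4 / 24) ≤ (23 / 10 - 53 / 10 * d - (8 / 5 - 6 * d) * (31416 / 10000 * d + (1 / 2 - d) * w)) * (1 - w ^ 2 / 8) := by
  have hx0 : 0 ≤ d - 0 := by linarith
  have hx1 : 0 ≤ 1 / 10 - d := by linarith
  have hy0 : 0 ≤ w - 1 / 2 := by linarith
  have hy1 : 0 ≤ 1 - w := by linarith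
  linarith [mul_nonneg (pow_nonneg hx1 2) (pow_nonneg hy1 4),
    mul_nonneg (mul_nonneg (pow_nonneg hx1 2) (pow_nonneg hy0 1)) (pow_nonneg hy1 3),
    mul_nonneg (mul_nonneg (pow_nonneg hx1 2) (pow_nonneg hy0 2)) (pow_nonneg hy1 2),
    mul_nonneg (mul_nonneg (pow_nonneg hx1 2) (pow_nonneg hy0 3)) (pow_nonneg hy1 1),
    mul_nonneg (pow_nonneg hx1 2) (pow_nonneg hy0 4),
    mul_nonneg (mul_nonneg (pow_nonneg hx0 1) (pow_nonneg hx1 1)) (pow_nonneg hy1 4),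
    mul_nonneg (mul_nonneg (mul_nonneg (pow_nonneg hx0 1) (pow_nonneg hx1 1)) (pow_nonneg hy0 1)) (pow_nonneg hy1 3),
    mul_nonneg (mul_nonneg (mul_nonneg (pow_nonneg hx0 1) (pow_nonneg hx1 1)) (pow_nonneg hy0 2)) (pow_nonneg hy1 2),
    mul_nonneg (mul_nonneg (mul_nonneg (pow_nonneg hx0 1) (pow_nonneg hx1 1)) (pow_nonneg hy0 3)) (pow_nonneg hy1 1),
    mul_nonneg (mul_nonneg (pow_nonneg hx0 1) (pow_nonneg hx1 1)) (pow_nonneg hy0 4),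
    mul_nonneg (pow_nonneg hx0 2) (pow_nonneg hy1 4),
    mul_nonneg (mul_nonneg (pow_nonneg hx0 2) (pow_nonneg hy0 1)) (pow_nonneg hy1 3),
    mul_nonneg (mul_nonneg (pow_nonneg hx0 2) (pow_nonneg hy0 2)) (pow_nonneg hy1 2),
    mul_nonneg (mul_nonneg (pow_nonneg hx0 2) (pow_nonneg hy0 3)) (pow_nonneg hy1 1),
    mul_nonneg (pow_nonneg hx0 2) (pow_nonneg hy0 4)]

/-- polynomial piece -/
private theorem E1_2 {d w : ℝ} (hx0' : 0 ≤ d) (hx1' : d ≤ 1 / 10) (hy0' : 1 ≤ w) (hy1' : w ≤ 7 / 5) :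
    8 * (1 / 2 - d) ^ 2 * (1 - w ^ 2 / 2 + w ^ 4 / 24) ≤ (23 / 10 - 53 / 10 * d - (8 / 5 - 6 * d) * (31416 / 10000 * d + (1 / 2 - d) * w)) * (1 - w ^ 2 / 8) := by
  have hx0 : 0 ≤ d - 0 := by linarith
  have hx1 : 0 ≤ 1 / 10 - d := by linarith
  have hy0 : 0 ≤ w - 1 := by linarith
  have hy1 : 0 ≤ 7 / 5 - w := by linarith
  linarith [mul_nonneg (pow_nonneg hx1 2) (pow_nonneg hy1 4),
    mul_nonneg (mul_nonneg (pow_nonneg hx1 2) (pow_nonneg hy0 1)) (pow_nonneg hy1 3),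
    mul_nonneg (mul_nonneg (pow_nonneg hx1 2) (pow_nonneg hy0 2)) (pow_nonneg hy1 2),
    mul_nonneg (mul_nonneg (pow_nonneg hx1 2) (pow_nonneg hy0 3)) (pow_nonneg hy1 1),
    mul_nonneg (pow_nonneg hx1 2) (pow_nonneg hy0 4),
    mul_nonneg (mul_nonneg (pow_nonneg hx0 1) (pow_nonneg hx1 1)) (pow_nonneg hy1 4),
    mul_nonneg (mul_nonneg (mul_nonneg (pow_nonneg hx0 1) (pow_nonneg hx1 1)) (pow_nonneg hy0 1)) (pow_nonneg hy1 3),
    mul_nonneg (mul_nonneg (mul_nonneg (pow_nonneg hx0 1) (pow_nonneg hx1 1)) (pow_nonneg hy0 2)) (pow_nonneg hy1 2),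
    mul_nonneg (mul_nonneg (mul_nonneg (pow_nonneg hx0 1) (pow_nonneg hx1 1)) (pow_nonneg hy0 3)) (pow_nonneg hy1 1),
    mul_nonneg (mul_nonneg (pow_nonneg hx0 1) (pow_nonneg hx1 1)) (pow_nonneg hy0 4),
    mul_nonneg (pow_nonneg hx0 2) (pow_nonneg hy1 4),
    mul_nonneg (mul_nonneg (pow_nonneg hx0 2) (pow_nonneg hy0 1)) (pow_nonneg hy1 3),
    mul_nonneg (mul_nonneg (pow_nonneg hx0 2) (pow_nonneg hy0 2)) (pow_nonneg hy1 2),
    mul_nonneg (mul_nonneg (pow_nonneg hx0 2) (pow_nonneg hy0 3)) (pow_nonneg hy1 1),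
    mul_nonneg (pow_nonneg hx0 2) (pow_nonneg hy0 4)]

/-- polynomial piece -/
private theorem E2_0 {d w : ℝ} (hx0' : 0 ≤ d) (hx1' : d ≤ 1 / 10) (hy0' : 0 ≤ w) (hy1' : w ≤ 7 / 5) :
    (1 / 2 - d) * (3 - w ^ 2 + w ^ 4 / 12) ≤ (23 / 10 - 53 / 10 * d - (8 / 5 - 6 * d) * (31416 / 10000 * d + (1 / 2 - d) * w)) * (1 - w ^ 2 / 8) := by
  have hx0 : 0 ≤ d - 0 := by linarith
  have hx1 : 0 ≤ 1 / 10 - d := by linarith
  have hy0 : 0 ≤ w - 0 := by linarith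
  have hy1 : 0 ≤ 7 / 5 - w := by linarith
  linarith [mul_nonneg (pow_nonneg hx1 2) (pow_nonneg hy1 4),
    mul_nonneg (mul_nonneg (pow_nonneg hx1 2) (pow_nonneg hy0 1)) (pow_nonneg hy1 3),
    mul_nonneg (mul_nonneg (pow_nonneg hx1 2) (pow_nonneg hy0 2)) (pow_nonneg hy1 2),
    mul_nonneg (mul_nonneg (pow_nonneg hx1 2) (pow_nonneg hy0 3)) (pow_nonneg hy1 1),
    mul_nonneg (pow_nonneg hx1 2) (pow_nonneg hy0 4),
    mul_nonneg (mul_nonneg (pow_nonneg hx0 1) (pow_nonneg hx1 1)) (pow_nonneg hy1 4),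
    mul_nonneg (mul_nonneg (mul_nonneg (pow_nonneg hx0 1) (pow_nonneg hx1 1)) (pow_nonneg hy0 1)) (pow_nonneg hy1 3),
    mul_nonneg (mul_nonneg (mul_nonneg (pow_nonneg hx0 1) (pow_nonneg hx1 1)) (pow_nonneg hy0 2)) (pow_nonneg hy1 2),
    mul_nonneg (mul_nonneg (mul_nonneg (pow_nonneg hx0 1) (pow_nonneg hx1 1)) (pow_nonneg hy0 3)) (pow_nonneg hy1 1),
    mul_nonneg (mul_nonneg (pow_nonneg hx0 1) (pow_nonneg hx1 1)) (pow_nonneg hy0 4),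
    mul_nonneg (pow_nonneg hx0 2) (pow_nonneg hy1 4),
    mul_nonneg (mul_nonneg (pow_nonneg hx0 2) (pow_nonneg hy0 1)) (pow_nonneg hy1 3),
    mul_nonneg (mul_nonneg (pow_nonneg hx0 2) (pow_nonneg hy0 2)) (pow_nonneg hy1 2),
    mul_nonneg (mul_nonneg (pow_nonneg hx0 2) (pow_nonneg hy0 3)) (pow_nonneg hy1 1),
    mul_nonneg (pow_nonneg hx0 2) (pow_nonneg hy0 4)]

/-- polynomial piece -/
private theorem R1_0 {d w : ℝ} (hx0' : 0 ≤ d) (hx1' : d ≤ 1 / 10) (hy0' : 0 ≤ w) (hy1' : w ≤ 7 / 20) :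
    (23 / 10 - 53 / 10 * d - (8 / 5 - 6 * d) * w) * (1 - 19 / 40 * w ^ 2) * (2739 / 5000 * (1 + 32 / 25 * d)) *
      ((1 / 2 + d) * (1 + (23 / 10 - 53 / 10 * d - (8 / 5 - 6 * d) * w)) + w * (10 / 3)) <
    (1 + (157 / 100 * d + 3 / 4 * w) - (157 / 100 * d + 3 / 4 * w) ^ 2 / 2 - (157 / 100 * d + 3 / 4 * w) ^ 3 / 6) * (1 + (23 / 10 - 53 / 10 * d - (8 / 5 - 6 * d) * w)) * (7071 / 10000) := by
  have hx0 : 0 ≤ d - 0 := by linarith
  have hx1 : 0 ≤ 1 / 10 - d := by linarith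
  have hy0 : 0 ≤ w - 0 := by linarith
  have hy1 : 0 ≤ 7 / 20 - w := by linarith
  linarith [mul_nonneg (pow_nonneg hx1 4) (pow_nonneg hy1 4),
    mul_nonneg (mul_nonneg (pow_nonneg hx1 4) (pow_nonneg hy0 1)) (pow_nonneg hy1 3),
    mul_nonneg (mul_nonneg (pow_nonneg hx1 4) (pow_nonneg hy0 2)) (pow_nonneg hy1 2),
    mul_nonneg (mul_nonneg (pow_nonneg hx1 4) (pow_nonneg hy0 3)) (pow_nonneg hy1 1),
    mul_nonneg (pow_nonneg hx1 4) (pow_nonneg hy0 4),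
    mul_nonneg (mul_nonneg (pow_nonneg hx0 1) (pow_nonneg hx1 3)) (pow_nonneg hy1 4),
    mul_nonneg (mul_nonneg (mul_nonneg (pow_nonneg hx0 1) (pow_nonneg hx1 3)) (pow_nonneg hy0 1)) (pow_nonneg hy1 3),
    mul_nonneg (mul_nonneg (mul_nonneg (pow_nonneg hx0 1) (pow_nonneg hx1 3)) (pow_nonneg hy0 2)) (pow_nonneg hy1 2),
    mul_nonneg (mul_nonneg (mul_nonneg (pow_nonneg hx0 1) (pow_nonneg hx1 3)) (pow_nonneg hy0 3)) (pow_nonneg hy1 1),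
    mul_nonneg (mul_nonneg (pow_nonneg hx0 1) (pow_nonneg hx1 3)) (pow_nonneg hy0 4),
    mul_nonneg (mul_nonneg (pow_nonneg hx0 2) (pow_nonneg hx1 2)) (pow_nonneg hy1 4),
    mul_nonneg (mul_nonneg (mul_nonneg (pow_nonneg hx0 2) (pow_nonneg hx1 2)) (pow_nonneg hy0 1)) (pow_nonneg hy1 3),
    mul_nonneg (mul_nonneg (mul_nonneg (pow_nonneg hx0 2) (pow_nonneg hx1 2)) (pow_nonneg hy0 2)) (pow_nonneg hy1 2),
    mul_nonneg (mul_nonneg (mul_nonneg (pow_nonneg hx0 2) (pow_nonneg hx1 2)) (pow_nonneg hy0 3)) (pow_nonneg hy1 1),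
    mul_nonneg (mul_nonneg (pow_nonneg hx0 2) (pow_nonneg hx1 2)) (pow_nonneg hy0 4),
    mul_nonneg (mul_nonneg (pow_nonneg hx0 3) (pow_nonneg hx1 1)) (pow_nonneg hy1 4),
    mul_nonneg (mul_nonneg (mul_nonneg (pow_nonneg hx0 3) (pow_nonneg hx1 1)) (pow_nonneg hy0 1)) (pow_nonneg hy1 3),
    mul_nonneg (mul_nonneg (mul_nonneg (pow_nonneg hx0 3) (pow_nonneg hx1 1)) (pow_nonneg hy0 2)) (pow_nonneg hy1 2),
    mul_nonneg (mul_nonneg (mul_nonneg (pow_nonneg hx0 3) (pow_nonneg hx1 1)) (pow_nonneg hy0 3)) (pow_nonneg hy1 1),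
    mul_nonneg (mul_nonneg (pow_nonneg hx0 3) (pow_nonneg hx1 1)) (pow_nonneg hy0 4),
    mul_nonneg (pow_nonneg hx0 4) (pow_nonneg hy1 4),
    mul_nonneg (mul_nonneg (pow_nonneg hx0 4) (pow_nonneg hy0 1)) (pow_nonneg hy1 3),
    mul_nonneg (mul_nonneg (pow_nonneg hx0 4) (pow_nonneg hy0 2)) (pow_nonneg hy1 2),
    mul_nonneg (mul_nonneg (pow_nonneg hx0 4) (pow_nonneg hy0 3)) (pow_nonneg hy1 1),
    mul_nonneg (pow_nonneg hx0 4) (pow_nonneg hy0 4)]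

/-- polynomial piece -/
private theorem R1_1 {d w : ℝ} (hx0' : 0 ≤ d) (hx1' : d ≤ 1 / 10) (hy0' : 7 / 20 ≤ w) (hy1' : w ≤ 7 / 10) :
    (23 / 10 - 53 / 10 * d - (8 / 5 - 6 * d) * w) * (1 - 19 / 40 * w ^ 2) * (2739 / 5000 * (1 + 32 / 25 * d)) *
      ((1 / 2 + d) * (1 + (23 / 10 - 53 / 10 * d - (8 / 5 - 6 * d) * w)) + w * (10 / 3)) <
    (1 + (157 / 100 * d + 3 / 4 * w) - (157 / 100 * d + 3 / 4 * w) ^ 2 / 2 - (157 / 100 * d + 3 / 4 * w) ^ 3 / 6) * (1 + (23 / 10 - 53 / 10 * d - (8 / 5 - 6 * d) * w)) * (7071 / 10000) := by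
  have hx0 : 0 ≤ d - 0 := by linarith
  have hx1 : 0 ≤ 1 / 10 - d := by linarith
  have hy0 : 0 ≤ w - 7 / 20 := by linarith
  have hy1 : 0 ≤ 7 / 10 - w := by linarith
  linarith [mul_nonneg (pow_nonneg hx1 4) (pow_nonneg hy1 4),
    mul_nonneg (mul_nonneg (pow_nonneg hx1 4) (pow_nonneg hy0 1)) (pow_nonneg hy1 3),
    mul_nonneg (mul_nonneg (pow_nonneg hx1 4) (pow_nonneg hy0 2)) (pow_nonneg hy1 2),
    mul_nonneg (mul_nonneg (pow_nonneg hx1 4) (pow_nonneg hy0 3)) (pow_nonneg hy1 1),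
    mul_nonneg (pow_nonneg hx1 4) (pow_nonneg hy0 4),
    mul_nonneg (mul_nonneg (pow_nonneg hx0 1) (pow_nonneg hx1 3)) (pow_nonneg hy1 4),
    mul_nonneg (mul_nonneg (mul_nonneg (pow_nonneg hx0 1) (pow_nonneg hx1 3)) (pow_nonneg hy0 1)) (pow_nonneg hy1 3),
    mul_nonneg (mul_nonneg (mul_nonneg (pow_nonneg hx0 1) (pow_nonneg hx1 3)) (pow_nonneg hy0 2)) (pow_nonneg hy1 2),
    mul_nonneg (mul_nonneg (mul_nonneg (pow_nonneg hx0 1) (pow_nonneg hx1 3)) (pow_nonneg hy0 3)) (pow_nonneg hy1 1),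
    mul_nonneg (mul_nonneg (pow_nonneg hx0 1) (pow_nonneg hx1 3)) (pow_nonneg hy0 4),
    mul_nonneg (mul_nonneg (pow_nonneg hx0 2) (pow_nonneg hx1 2)) (pow_nonneg hy1 4),
    mul_nonneg (mul_nonneg (mul_nonneg (pow_nonneg hx0 2) (pow_nonneg hx1 2)) (pow_nonneg hy0 1)) (pow_nonneg hy1 3),
    mul_nonneg (mul_nonneg (mul_nonneg (pow_nonneg hx0 2) (pow_nonneg hx1 2)) (pow_nonneg hy0 2)) (pow_nonneg hy1 2),
    mul_nonneg (mul_nonneg (mul_nonneg (pow_nonneg hx0 2) (pow_nonneg hx1 2)) (pow_nonneg hy0 3)) (pow_nonneg hy1 1),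
    mul_nonneg (mul_nonneg (pow_nonneg hx0 2) (pow_nonneg hx1 2)) (pow_nonneg hy0 4),
    mul_nonneg (mul_nonneg (pow_nonneg hx0 3) (pow_nonneg hx1 1)) (pow_nonneg hy1 4),
    mul_nonneg (mul_nonneg (mul_nonneg (pow_nonneg hx0 3) (pow_nonneg hx1 1)) (pow_nonneg hy0 1)) (pow_nonneg hy1 3),
    mul_nonneg (mul_nonneg (mul_nonneg (pow_nonneg hx0 3) (pow_nonneg hx1 1)) (pow_nonneg hy0 2)) (pow_nonneg hy1 2),
    mul_nonneg (mul_nonneg (mul_nonneg (pow_nonneg hx0 3) (pow_nonneg hx1 1)) (pow_nonneg hy0 3)) (pow_nonneg hy1 1),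
    mul_nonneg (mul_nonneg (pow_nonneg hx0 3) (pow_nonneg hx1 1)) (pow_nonneg hy0 4),
    mul_nonneg (pow_nonneg hx0 4) (pow_nonneg hy1 4),
    mul_nonneg (mul_nonneg (pow_nonneg hx0 4) (pow_nonneg hy0 1)) (pow_nonneg hy1 3),
    mul_nonneg (mul_nonneg (pow_nonneg hx0 4) (pow_nonneg hy0 2)) (pow_nonneg hy1 2),
    mul_nonneg (mul_nonneg (pow_nonneg hx0 4) (pow_nonneg hy0 3)) (pow_nonneg hy1 1),
    mul_nonneg (pow_nonneg hx0 4) (pow_nonneg hy0 4)]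

/-- polynomial piece -/
private theorem R2_0 {d w : ℝ} (hx0' : 1 / 10 ≤ d) (hx1' : d ≤ 1 / 6) (hy0' : 0 ≤ w) (hy1' : w ≤ 7 / 20) :
    (17 / 10 - 21 / 5 * d) * (1 - 19 / 40 * w ^ 2) * (397 / 500) *
      ((1 / 2 + d) * (1 + (17 / 10 - 21 / 5 * d)) + w * 2) <
    (1 + (157 / 100 * d + 3 / 4 * w) - (157 / 100 * d + 3 / 4 * w) ^ 2 / 2 - (157 / 100 * d + 3 / 4 * w) ^ 3 / 6) * (1 + (17 / 10 - 21 / 5 * d)) * (7071 / 10000) := by
  have hx0 : 0 ≤ d - 1 / 10 := by linarith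
  have hx1 : 0 ≤ 1 / 6 - d := by linarith
  have hy0 : 0 ≤ w - 0 := by linarith
  have hy1 : 0 ≤ 7 / 20 - w := by linarith
  linarith [mul_nonneg (pow_nonneg hx1 4) (pow_nonneg hy1 3),
    mul_nonneg (mul_nonneg (pow_nonneg hx1 4) (pow_nonneg hy0 1)) (pow_nonneg hy1 2),
    mul_nonneg (mul_nonneg (pow_nonneg hx1 4) (pow_nonneg hy0 2)) (pow_nonneg hy1 1),
    mul_nonneg (pow_nonneg hx1 4) (pow_nonneg hy0 3),
    mul_nonneg (mul_nonneg (pow_nonneg hx0 1) (pow_nonneg hx1 3)) (pow_nonneg hy1 3),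
    mul_nonneg (mul_nonneg (mul_nonneg (pow_nonneg hx0 1) (pow_nonneg hx1 3)) (pow_nonneg hy0 1)) (pow_nonneg hy1 2),
    mul_nonneg (mul_nonneg (mul_nonneg (pow_nonneg hx0 1) (pow_nonneg hx1 3)) (pow_nonneg hy0 2)) (pow_nonneg hy1 1),
    mul_nonneg (mul_nonneg (pow_nonneg hx0 1) (pow_nonneg hx1 3)) (pow_nonneg hy0 3),
    mul_nonneg (mul_nonneg (pow_nonneg hx0 2) (pow_nonneg hx1 2)) (pow_nonneg hy1 3),
    mul_nonneg (mul_nonneg (mul_nonneg (pow_nonneg hx0 2) (pow_nonneg hx1 2)) (pow_nonneg hy0 1)) (pow_nonneg hy1 2),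
    mul_nonneg (mul_nonneg (mul_nonneg (pow_nonneg hx0 2) (pow_nonneg hx1 2)) (pow_nonneg hy0 2)) (pow_nonneg hy1 1),
    mul_nonneg (mul_nonneg (pow_nonneg hx0 2) (pow_nonneg hx1 2)) (pow_nonneg hy0 3),
    mul_nonneg (mul_nonneg (pow_nonneg hx0 3) (pow_nonneg hx1 1)) (pow_nonneg hy1 3),
    mul_nonneg (mul_nonneg (mul_nonneg (pow_nonneg hx0 3) (pow_nonneg hx1 1)) (pow_nonneg hy0 1)) (pow_nonneg hy1 2),
    mul_nonneg (mul_nonneg (mul_nonneg (pow_nonneg hx0 3) (pow_nonneg hx1 1)) (pow_nonneg hy0 2)) (pow_nonneg hy1 1),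
    mul_nonneg (mul_nonneg (pow_nonneg hx0 3) (pow_nonneg hx1 1)) (pow_nonneg hy0 3),
    mul_nonneg (pow_nonneg hx0 4) (pow_nonneg hy1 3),
    mul_nonneg (mul_nonneg (pow_nonneg hx0 4) (pow_nonneg hy0 1)) (pow_nonneg hy1 2),
    mul_nonneg (mul_nonneg (pow_nonneg hx0 4) (pow_nonneg hy0 2)) (pow_nonneg hy1 1),
    mul_nonneg (pow_nonneg hx0 4) (pow_nonneg hy0 3)]

/-- polynomial piece -/
private theorem R2_1 {d w : ℝ} (hx0' : 1 / 10 ≤ d) (hx1' : d ≤ 1 / 6) (hy0' : 7 / 20 ≤ w) (hy1' : w ≤ 7 / 10) :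
    (17 / 10 - 21 / 5 * d) * (1 - 19 / 40 * w ^ 2) * (397 / 500) *
      ((1 / 2 + d) * (1 + (17 / 10 - 21 / 5 * d)) + w * 2) <
    (1 + (157 / 100 * d + 3 / 4 * w) - (157 / 100 * d + 3 / 4 * w) ^ 2 / 2 - (157 / 100 * d + 3 / 4 * w) ^ 3 / 6) * (1 + (17 / 10 - 21 / 5 * d)) * (7071 / 10000) := by
  have hx0 : 0 ≤ d - 1 / 10 := by linarith
  have hx1 : 0 ≤ 1 / 6 - d := by linarith
  have hy0 : 0 ≤ w - 7 / 20 := by linarith
  have hy1 : 0 ≤ 7 / 10 - w := by linarith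
  linarith [mul_nonneg (pow_nonneg hx1 4) (pow_nonneg hy1 3),
    mul_nonneg (mul_nonneg (pow_nonneg hx1 4) (pow_nonneg hy0 1)) (pow_nonneg hy1 2),
    mul_nonneg (mul_nonneg (pow_nonneg hx1 4) (pow_nonneg hy0 2)) (pow_nonneg hy1 1),
    mul_nonneg (pow_nonneg hx1 4) (pow_nonneg hy0 3),
    mul_nonneg (mul_nonneg (pow_nonneg hx0 1) (pow_nonneg hx1 3)) (pow_nonneg hy1 3),
    mul_nonneg (mul_nonneg (mul_nonneg (pow_nonneg hx0 1) (pow_nonneg hx1 3)) (pow_nonneg hy0 1)) (pow_nonneg hy1 2),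
    mul_nonneg (mul_nonneg (mul_nonneg (pow_nonneg hx0 1) (pow_nonneg hx1 3)) (pow_nonneg hy0 2)) (pow_nonneg hy1 1),
    mul_nonneg (mul_nonneg (pow_nonneg hx0 1) (pow_nonneg hx1 3)) (pow_nonneg hy0 3),
    mul_nonneg (mul_nonneg (pow_nonneg hx0 2) (pow_nonneg hx1 2)) (pow_nonneg hy1 3),
    mul_nonneg (mul_nonneg (mul_nonneg (pow_nonneg hx0 2) (pow_nonneg hx1 2)) (pow_nonneg hy0 1)) (pow_nonneg hy1 2),
    mul_nonneg (mul_nonneg (mul_nonneg (pow_nonneg hx0 2) (pow_nonneg hx1 2)) (pow_nonneg hy0 2)) (pow_nonneg hy1 1),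
    mul_nonneg (mul_nonneg (pow_nonneg hx0 2) (pow_nonneg hx1 2)) (pow_nonneg hy0 3),
    mul_nonneg (mul_nonneg (pow_nonneg hx0 3) (pow_nonneg hx1 1)) (pow_nonneg hy1 3),
    mul_nonneg (mul_nonneg (mul_nonneg (pow_nonneg hx0 3) (pow_nonneg hx1 1)) (pow_nonneg hy0 1)) (pow_nonneg hy1 2),
    mul_nonneg (mul_nonneg (mul_nonneg (pow_nonneg hx0 3) (pow_nonneg hx1 1)) (pow_nonneg hy0 2)) (pow_nonneg hy1 1),
    mul_nonneg (mul_nonneg (pow_nonneg hx0 3) (pow_nonneg hx1 1)) (pow_nonneg hy0 3),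
    mul_nonneg (pow_nonneg hx0 4) (pow_nonneg hy1 3),
    mul_nonneg (mul_nonneg (pow_nonneg hx0 4) (pow_nonneg hy0 1)) (pow_nonneg hy1 2),
    mul_nonneg (mul_nonneg (pow_nonneg hx0 4) (pow_nonneg hy0 2)) (pow_nonneg hy1 1),
    mul_nonneg (pow_nonneg hx0 4) (pow_nonneg hy0 3)]

/-- polynomial piece -/
private theorem R3_0 {d w : ℝ} (hx0' : 1 / 10 ≤ d) (hx1' : d ≤ 1 / 6) (hy0' : 0 ≤ w) (hy1' : w ≤ 7 / 10) :
    (17 / 10 - 21 / 5 * d) * (1 - 19 / 40 * w ^ 2) * (397 / 500) *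
      ((1 / 2 + d) * (1 + (17 / 10 - 21 / 5 * d)) + w * 2) <
    123 / 125 * (1 + (17 / 10 - 21 / 5 * d)) := by
  have hx0 : 0 ≤ d - 1 / 10 := by linarith
  have hx1 : 0 ≤ 1 / 6 - d := by linarith
  have hy0 : 0 ≤ w - 0 := by linarith
  have hy1 : 0 ≤ 7 / 10 - w := by linarith
  linarith [mul_nonneg (pow_nonneg hx1 3) (pow_nonneg hy1 3),
    mul_nonneg (mul_nonneg (pow_nonneg hx1 3) (pow_nonneg hy0 1)) (pow_nonneg hy1 2),
    mul_nonneg (mul_nonneg (pow_nonneg hx1 3) (pow_nonneg hy0 2)) (pow_nonneg hy1 1),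
    mul_nonneg (pow_nonneg hx1 3) (pow_nonneg hy0 3),
    mul_nonneg (mul_nonneg (pow_nonneg hx0 1) (pow_nonneg hx1 2)) (pow_nonneg hy1 3),
    mul_nonneg (mul_nonneg (mul_nonneg (pow_nonneg hx0 1) (pow_nonneg hx1 2)) (pow_nonneg hy0 1)) (pow_nonneg hy1 2),
    mul_nonneg (mul_nonneg (mul_nonneg (pow_nonneg hx0 1) (pow_nonneg hx1 2)) (pow_nonneg hy0 2)) (pow_nonneg hy1 1),
    mul_nonneg (mul_nonneg (pow_nonneg hx0 1) (pow_nonneg hx1 2)) (pow_nonneg hy0 3),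
    mul_nonneg (mul_nonneg (pow_nonneg hx0 2) (pow_nonneg hx1 1)) (pow_nonneg hy1 3),
    mul_nonneg (mul_nonneg (mul_nonneg (pow_nonneg hx0 2) (pow_nonneg hx1 1)) (pow_nonneg hy0 1)) (pow_nonneg hy1 2),
    mul_nonneg (mul_nonneg (mul_nonneg (pow_nonneg hx0 2) (pow_nonneg hx1 1)) (pow_nonneg hy0 2)) (pow_nonneg hy1 1),
    mul_nonneg (mul_nonneg (pow_nonneg hx0 2) (pow_nonneg hx1 1)) (pow_nonneg hy0 3),
    mul_nonneg (pow_nonneg hx0 3) (pow_nonneg hy1 3),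
    mul_nonneg (mul_nonneg (pow_nonneg hx0 3) (pow_nonneg hy0 1)) (pow_nonneg hy1 2),
    mul_nonneg (mul_nonneg (pow_nonneg hx0 3) (pow_nonneg hy0 2)) (pow_nonneg hy1 1),
    mul_nonneg (pow_nonneg hx0 3) (pow_nonneg hy0 3)]

/-- polynomial piece -/
private theorem F1_0 {w : ℝ} (hy0' : 1 / 2 ≤ w) (hy1' : w ≤ 13062 / 10000) :
    4354 / 10000 * (4 * (w - w ^ 3 / 6 + w ^ 5 / 120) ^ 2 - 1) ≤ w * (w - w ^ 3 / 6 + w ^ 5 / 120) := by
  have hy0 : 0 ≤ w - 1 / 2 := by linarith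
  have hy1 : 0 ≤ 13062 / 10000 - w := by linarith
  linarith [pow_nonneg hy1 10,
    mul_nonneg (pow_nonneg hy0 1) (pow_nonneg hy1 9),
    mul_nonneg (pow_nonneg hy0 2) (pow_nonneg hy1 8),
    mul_nonneg (pow_nonneg hy0 3) (pow_nonneg hy1 7),
    mul_nonneg (pow_nonneg hy0 4) (pow_nonneg hy1 6),
    mul_nonneg (pow_nonneg hy0 5) (pow_nonneg hy1 5),
    mul_nonneg (pow_nonneg hy0 6) (pow_nonneg hy1 4),
    mul_nonneg (pow_nonneg hy0 7) (pow_nonneg hy1 3),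
    mul_nonneg (pow_nonneg hy0 8) (pow_nonneg hy1 2),
    mul_nonneg (pow_nonneg hy0 9) (pow_nonneg hy1 1),
    pow_nonneg hy0 10]

/-- polynomial piece -/
private theorem F2_0 {w : ℝ} (hy0' : 1 / 2 ≤ w) (hy1' : w ≤ 13062 / 10000) :
    8 * (4354 / 10000) ^ 2 * (2 * (w - w ^ 3 / 6 + w ^ 5 / 120) ^ 2 - 1) ≤ w ^ 2 * (w - w ^ 3 / 6 + w ^ 5 / 120) := by
  have hy0 : 0 ≤ w - 1 / 2 := by linarith
  have hy1 : 0 ≤ 13062 / 10000 - w := by linarith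
  linarith [pow_nonneg hy1 10,
    mul_nonneg (pow_nonneg hy0 1) (pow_nonneg hy1 9),
    mul_nonneg (pow_nonneg hy0 2) (pow_nonneg hy1 8),
    mul_nonneg (pow_nonneg hy0 3) (pow_nonneg hy1 7),
    mul_nonneg (pow_nonneg hy0 4) (pow_nonneg hy1 6),
    mul_nonneg (pow_nonneg hy0 5) (pow_nonneg hy1 5),
    mul_nonneg (pow_nonneg hy0 6) (pow_nonneg hy1 4),
    mul_nonneg (pow_nonneg hy0 7) (pow_nonneg hy1 3),
    mul_nonneg (pow_nonneg hy0 8) (pow_nonneg hy1 2),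
    mul_nonneg (pow_nonneg hy0 9) (pow_nonneg hy1 1),
    pow_nonneg hy0 10]

/-! ### analytic tools -/

private theorem dm_sinh {s x : ℝ} (hs0 : 0 ≤ s) (hs1 : s ≤ 1) (hx : 0 ≤ x) :
    Real.sinh (s * x) ≤ s * Real.sinh x := by
  have hd : ∀ y : ℝ, HasDerivAt (fun y => s * Real.sinh y - Real.sinh (s * y))
      (s * Real.cosh y - Real.cosh (s * y) * s) y := by
    intro y
    have h1 : HasDerivAt (fun y => s * y) s y := by
      simpa using (hasDerivAt_id y).const_mul s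
    exact ((Real.hasDerivAt_sinh y).const_mul s).sub ((Real.hasDerivAt_sinh (s * y)).comp y h1)
  have hm : MonotoneOn (fun y => s * Real.sinh y - Real.sinh (s * y)) (Ici 0) := by
    refine monotoneOn_of_deriv_nonneg (convex_Ici 0)
      (fun y _ => (hd y).continuousAt.continuousWithinAt)
      (fun y _ => (hd y).differentiableAt.differentiableWithinAt) ?_
    intro y hy
    rw [interior_Ici, mem_Ioi] at hy
    rw [(hd y).deriv]
    have h2 : Real.cosh (s * y) ≤ Real.cosh y := by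
      rw [Real.cosh_le_cosh, abs_of_nonneg (mul_nonneg hs0 hy.le), abs_of_pos hy]
      nlinarith
    nlinarith
  have h3 := hm (mem_Ici.2 le_rfl) hx hx
  simp only [Real.sinh_zero, mul_zero, sub_zero] at h3
  linarith

/-- `t ^ l - t ^ (-l) ≤ l (t - 1/t)` for `t ≥ 1`, `0 ≤ l ≤ 1` -/
theorem rpow_sub_rpow_neg_le {t l : ℝ} (ht : 1 ≤ t) (hl : 0 ≤ l) (hl1 : l ≤ 1) :
    t ^ l - t ^ (-l) ≤ l * (t - t⁻¹) := by
  have ht0 : 0 < t := by linarith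
  have hx : 0 ≤ Real.log t := Real.log_nonneg ht
  have h := dm_sinh hl hl1 hx
  rw [Real.sinh_eq, Real.sinh_eq] at h
  have e1 : t ^ l = Real.exp (l * Real.log t) := by rw [Real.rpow_def_of_pos ht0, mul_comm]
  have e2 : t ^ (-l) = Real.exp (-(l * Real.log t)) := by
    rw [Real.rpow_def_of_pos ht0]; congr 1; ring
  have e3 : Real.exp (Real.log t) = t := Real.exp_log ht0
  have e4 : Real.exp (-Real.log t) = t⁻¹ := by rw [Real.exp_neg, e3]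
  rw [e1, e2]
  rw [e3, e4] at h
  linarith

/-- `Y² = ρ^{-2u} (T - 1/T) ≤ 2u (2u + (1-2u) ρ) q / t`, `T = t^{2u}`, `t² = 1 + ρ q` -/
theorem Ysq_le {u ρ t q : ℝ} (hu : 0 < u) (hu1 : u ≤ 1 / 2) (hρ : 0 < ρ) (ht : 1 ≤ t)
    (htq : t ^ 2 = 1 + ρ * q) :
    ρ ^ (-(2 * u)) * (t ^ (2 * u) - t ^ (-(2 * u))) ≤
      2 * u * (2 * u + (1 - 2 * u) * ρ) * q / t := by
  have ht0 : 0 < t := by linarith
  have h1 := rpow_sub_rpow_neg_le ht (by linarith : 0 ≤ 2 * u) (by linarith)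
  have h2 : t - t⁻¹ = ρ * q / t := by
    field_simp
    linarith
  have hq : 0 ≤ q := by
    by_contra h
    push Not at h
    nlinarith [mul_neg_of_pos_of_neg hρ h]
  have h3 : ρ ^ (-(2 * u)) * ρ = ρ ^ (1 - 2 * u) := by
    rw [← Real.rpow_add_one hρ.ne']
    congr 1
    ring
  have h4 : ρ ^ (1 - 2 * u) ≤ 2 * u + (1 - 2 * u) * ρ := by
    have := rpow_one_add_le_one_add_mul_self (s := ρ - 1) (by linarith)
      (p := 1 - 2 * u) (by linarith) (by linarith)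
    have e : (1 : ℝ) + (ρ - 1) = ρ := by ring
    rw [e] at this
    linarith
  have hp : 0 < ρ ^ (-(2 * u)) := Real.rpow_pos_of_pos hρ _
  calc ρ ^ (-(2 * u)) * (t ^ (2 * u) - t ^ (-(2 * u)))
      ≤ ρ ^ (-(2 * u)) * (2 * u * (t - t⁻¹)) := mul_le_mul_of_nonneg_left h1 hp.le
    _ = ρ ^ (1 - 2 * u) * (2 * u * q / t) := by rw [← h3, h2]; ring
    _ ≤ (2 * u + (1 - 2 * u) * ρ) * (2 * u * q / t) :=
        mul_le_mul_of_nonneg_right h4 (by positivity)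
    _ = 2 * u * (2 * u + (1 - 2 * u) * ρ) * q / t := by ring

/-- the supremum over `ρ`; `C = cos (w/2)`, `w = π - θ` -/
theorem B_le {u ρ t C M : ℝ} (hu : 0 < u) (hu1 : u ≤ 1 / 2) (hρ : 0 < ρ) (hρ1 : ρ ≤ 1)
    (ht : 0 < t) (hC : 0 < C) (hC1 : C ≤ 1) (htC : t ^ 2 = 1 + ρ * (2 * (2 * C ^ 2 - 1) + ρ))
    (hM0 : 0 ≤ M) (hM1 : 8 * u ^ 2 * (2 * C ^ 2 - 1) ≤ M) (hM2 : u * (4 * C ^ 2 - 1) ≤ M) :
    2 * u * (2 * u + (1 - 2 * u) * ρ) * (2 * (2 * C ^ 2 - 1) + ρ) / t ≤ M / C := by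
  have h1 : (1 + ρ) * C ≤ t := by
    apply le_of_sq_le_sq _ ht.le
    have hC2 : C ^ 2 ≤ 1 := by nlinarith
    nlinarith [mul_nonneg (sq_nonneg (1 - ρ)) (sub_nonneg.2 hC2)]
  have h2 : 2 * u * (2 * u + (1 - 2 * u) * ρ) * (2 * (2 * C ^ 2 - 1) + ρ) ≤ (1 + ρ) * M := by
    have e : 2 * u * (2 * u + (1 - 2 * u) * ρ) * (2 * (2 * C ^ 2 - 1) + ρ) =
        (1 - ρ) * (8 * u ^ 2 * (2 * C ^ 2 - 1)) + 2 * ρ * (u * (4 * C ^ 2 - 1)) -
          2 * u * (1 - 2 * u) * (ρ * (1 - ρ)) := by ring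
    have h3 : 0 ≤ 2 * u * (1 - 2 * u) * (ρ * (1 - ρ)) := by
      have a1 : 0 ≤ 1 - 2 * u := by linarith
      have a2 : 0 ≤ 1 - ρ := by linarith
      positivity
    have h4 : (1 - ρ) * (8 * u ^ 2 * (2 * C ^ 2 - 1)) ≤ (1 - ρ) * M :=
      mul_le_mul_of_nonneg_left hM1 (by linarith)
    have h5 : 2 * ρ * (u * (4 * C ^ 2 - 1)) ≤ 2 * ρ * M :=
      mul_le_mul_of_nonneg_left hM2 (by linarith)
    rw [e]
    linarith
  rw [div_le_div_iff₀ ht hC]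
  calc 2 * u * (2 * u + (1 - 2 * u) * ρ) * (2 * (2 * C ^ 2 - 1) + ρ) * C
      ≤ (1 + ρ) * M * C := mul_le_mul_of_nonneg_right h2 hC.le
    _ = M * ((1 + ρ) * C) := by ring
    _ ≤ M * t := mul_le_mul_of_nonneg_left h1 hM0

/-- lower bound for `r = c_0 / cos (A + φ)` from `(1 + r) φ ≤ s` -/
theorem r_ge {u s φ r l y Y C1 cs : ℝ} (hu : 0 < u) (hu1 : u ≤ 1) (hs : 0 < s) (hφ : 0 < φ)
    (hy : 0 < y) (hY : y ^ u ≤ Y) (hr : 0 < r) (hl : 0 < l)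
    (hsin : 0 ≤ Real.sin (φ / (2 * u))) (hrφ : r * φ ≤ s - φ)
    (hcs : Real.cos s ≤ cs) (hcs0 : 0 < Real.cos s)
    (hdef : r * Real.cos s * (2 * Real.sin (φ / (2 * u))) ^ u =
      Real.cos (π * u / 2 + φ / 2 - s))
    (hC : C1 ≤ Real.cos (π * u / 2 + φ / 2 - s))
    (hN : l * cs * Y * ((1 - u) * (1 + l) + s / y) < C1 * (1 + l)) : l ≤ r := by
  by_contra hlt
  push Not at hlt
  have hY0 : 0 < Y := lt_of_lt_of_le (Real.rpow_pos_of_pos hy u) hY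
  have hD : 0 < cs * Y := mul_pos (lt_of_lt_of_le hcs0 hcs) hY0
  have h1 : (2 * Real.sin (φ / (2 * u))) ^ u ≤ (φ / u) ^ u := by
    apply Real.rpow_le_rpow (by linarith) _ hu.le
    have := Real.sin_le (x := φ / (2 * u)) (by positivity)
    have e : φ / u = 2 * (φ / (2 * u)) := by field_simp
    rw [e]
    linarith
  have h2 : (φ / u) ^ u ≤ Y * (1 - u + φ / y) := by
    have e1 : φ / u = y * (1 + (φ / (u * y) - 1)) := by field_simp; ring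
    have h3 := rpow_one_add_le_one_add_mul_self (s := φ / (u * y) - 1)
      (by have : 0 < φ / (u * y) := by positivity
          linarith) (p := u) hu.le hu1
    have e2 : 1 + u * (φ / (u * y) - 1) = 1 - u + φ / y := by field_simp; ring
    have h4 : 0 ≤ 1 + (φ / (u * y) - 1) := by
      have : 0 < φ / (u * y) := by positivity
      linarith
    have h5 : 0 ≤ 1 - u + φ / y := by
      have : 0 < φ / y := by positivity
      linarith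
    rw [e1, Real.mul_rpow hy.le h4]
    rw [e2] at h3
    calc y ^ u * (1 + (φ / (u * y) - 1)) ^ u ≤ y ^ u * (1 - u + φ / y) :=
          mul_le_mul_of_nonneg_left h3 (Real.rpow_pos_of_pos hy u).le
      _ ≤ Y * (1 - u + φ / y) := mul_le_mul_of_nonneg_right hY h5
  have h3 : C1 ≤ r * cs * (Y * (1 - u + φ / y)) := by
    have h5 : 0 ≤ Y * (1 - u + φ / y) := by
      have : 0 < φ / y := by positivity
      have : 0 ≤ 1 - u + φ / y := by linarith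
      positivity
    calc C1 ≤ r * Real.cos s * (2 * Real.sin (φ / (2 * u))) ^ u := by rw [hdef]; exact hC
      _ ≤ r * Real.cos s * (Y * (1 - u + φ / y)) :=
          mul_le_mul_of_nonneg_left (h1.trans h2) (by positivity)
      _ ≤ r * cs * (Y * (1 - u + φ / y)) := by
          apply mul_le_mul_of_nonneg_right _ h5
          exact mul_le_mul_of_nonneg_left hcs hr.le
  have h4 : C1 * (1 + r) ≤ r * (cs * Y) * ((1 - u) * (1 + r) + s / y) := by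
    have h5 : φ * (1 + r) / y ≤ s / y := by
      apply div_le_div_of_nonneg_right _ hy.le
      linarith
    calc C1 * (1 + r) ≤ r * cs * (Y * (1 - u + φ / y)) * (1 + r) :=
          mul_le_mul_of_nonneg_right h3 (by linarith)
      _ = r * (cs * Y) * ((1 - u) * (1 + r) + φ * (1 + r) / y) := by ring
      _ ≤ r * (cs * Y) * ((1 - u) * (1 + r) + s / y) := by
          apply mul_le_mul_of_nonneg_left _ (by positivity)
          linarith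
  have h5 : C1 * (1 + r) * (1 + l) ≤ r * (cs * Y) * ((1 - u) * (1 + r) + s / y) * (1 + l) :=
    mul_le_mul_of_nonneg_right h4 (by linarith)
  have h6 : l * cs * Y * ((1 - u) * (1 + l) + s / y) * (1 + r) < C1 * (1 + l) * (1 + r) :=
    mul_lt_mul_of_pos_right hN (by linarith)
  have h7 : 0 ≤ (cs * Y) * ((l - r) * ((1 - u) * (1 + l) * (1 + r) + s / y)) := by
    have a1 : 0 ≤ l - r := by linarith
    have a2 : 0 ≤ (1 - u) * (1 + l) * (1 + r) :=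
      mul_nonneg (mul_nonneg (by linarith) (by linarith)) (by linarith)
    have a3 : 0 ≤ s / y := by positivity
    exact mul_nonneg hD.le (mul_nonneg a1 (by linarith))
  have e : (cs * Y) * ((l - r) * ((1 - u) * (1 + l) * (1 + r) + s / y)) =
      l * cs * Y * ((1 - u) * (1 + l) + s / y) * (1 + r) -
        r * (cs * Y) * ((1 - u) * (1 + r) + s / y) * (1 + l) := by ring
  rw [e] at h7
  linarith

private theorem dm_pow1 {u d : ℝ} (hud : u = 1 / 2 - d) (hd : 0 ≤ d) (hd1 : d ≤ 1 / 10) :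
    (3 / 10 : ℝ) ^ u ≤ 2739 / 5000 * (1 + 32 / 25 * d) := by
  have h1 : ((10 / 3 : ℝ) ^ (1 / 10 : ℝ)) ≤ 1128 / 1000 := by
    have h := Real.rpow_le_rpow (x := (10 / 3 : ℝ)) (y := (1128 / 1000 : ℝ) ^ (10 : ℕ))
      (z := 1 / 10) (by norm_num) (by norm_num) (by norm_num)
    rwa [← Real.rpow_natCast, ← Real.rpow_mul (by norm_num), show (((10 : ℕ) : ℝ) * (1 / 10)) = 1 by norm_num,
      Real.rpow_one] at h
  have h2 : ((3 / 10 : ℝ) ^ (1 / 2 : ℝ)) ≤ 2739 / 5000 := by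
    have h := Real.rpow_le_rpow (x := (3 / 10 : ℝ)) (y := (2739 / 5000 : ℝ) ^ (2 : ℕ))
      (z := 1 / 2) (by norm_num) (by norm_num) (by norm_num)
    rwa [← Real.rpow_natCast, ← Real.rpow_mul (by norm_num), show (((2 : ℕ) : ℝ) * (1 / 2)) = 1 by norm_num,
      Real.rpow_one] at h
  have h3 : (10 / 3 : ℝ) ^ d ≤ 1 + 32 / 25 * d := by
    have e : (10 / 3 : ℝ) ^ d = (1 + ((10 / 3 : ℝ) ^ (1 / 10 : ℝ) - 1)) ^ (10 * d) := by
      rw [show (1 : ℝ) + ((10 / 3 : ℝ) ^ (1 / 10 : ℝ) - 1) = (10 / 3 : ℝ) ^ (1 / 10 : ℝ) by ring,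
        ← Real.rpow_mul (by norm_num)]
      congr 1
      ring
    have hp : 0 < (10 / 3 : ℝ) ^ (1 / 10 : ℝ) := Real.rpow_pos_of_pos (by norm_num) _
    have h4 := rpow_one_add_le_one_add_mul_self (s := (10 / 3 : ℝ) ^ (1 / 10 : ℝ) - 1)
      (by linarith) (p := 10 * d) (by linarith) (by linarith)
    rw [e]
    nlinarith
  have e : (3 / 10 : ℝ) ^ u = (3 / 10 : ℝ) ^ (1 / 2 : ℝ) * (10 / 3 : ℝ) ^ d := by
    rw [hud, Real.rpow_sub (by norm_num), div_eq_mul_inv, ← Real.inv_rpow (by norm_num)]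
    norm_num
  rw [e]
  apply mul_le_mul h2 h3 (Real.rpow_pos_of_pos (by norm_num) _).le (by norm_num)

private theorem dm_pow2 {u : ℝ} (hu : 1 / 3 ≤ u) : (1 / 2 : ℝ) ^ u ≤ 397 / 500 := by
  have h2 : ((1 / 2 : ℝ) ^ (1 / 3 : ℝ)) ≤ 397 / 500 := by
    have h := Real.rpow_le_rpow (x := (1 / 2 : ℝ)) (y := (397 / 500 : ℝ) ^ (3 : ℕ))
      (z := 1 / 3) (by norm_num) (by norm_num) (by norm_num)
    rwa [← Real.rpow_natCast, ← Real.rpow_mul (by norm_num), show (((3 : ℕ) : ℝ) * (1 / 3)) = 1 by norm_num,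
      Real.rpow_one] at h
  exact (Real.rpow_le_rpow_of_exponent_ge (by norm_num) (by norm_num) hu).trans h2

/-- lower bound of `cos (πu/2 + φ/2 - s)` -/
private theorem dm_cos {u s φ X : ℝ} (hφ : 0 ≤ φ) (hφs : φ ≤ s / 2) (hus : 7 / 4 * s ≤ π * u)
    (hu1 : u ≤ 1 / 2) (hs : 0 ≤ s)
    (hX : X ≤ π / 4 - π * u / 2 + 3 / 4 * s) (hX0 : 0 ≤ X) (hX1 : X ≤ 1) :
    (1 + X - X ^ 2 / 2 - X ^ 3 / 6) * (7071 / 10000) ≤ Real.cos (π * u / 2 + φ / 2 - s) := by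
  have hpi := Real.pi_pos
  have h1 : Real.cos (π / 4 - X) ≤ Real.cos (π * u / 2 + φ / 2 - s) := by
    rw [← Real.cos_abs (π * u / 2 + φ / 2 - s)]
    apply Real.cos_le_cos_of_nonneg_of_le_pi (abs_nonneg _) (by linarith)
    rw [abs_le]
    constructor <;> linarith
  have h2 : Real.cos (π / 4 - X) = √2 / 2 * (Real.cos X + Real.sin X) := by
    rw [Real.cos_sub, Real.cos_pi_div_four, Real.sin_pi_div_four]
    ring
  have h3 : (7071 / 10000 : ℝ) ≤ √2 / 2 := by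
    have : (14142 / 10000 : ℝ) ≤ √2 := Real.le_sqrt_of_sq_le (by norm_num)
    linarith
  have h4 := Real.one_sub_sq_div_two_le_cos (x := X)
  have h5 := EQS.sin_ge3 hX0
  have h6 : 0 ≤ 1 + X - X ^ 2 / 2 - X ^ 3 / 6 := by
    have : X ^ 2 ≤ 1 := by nlinarith
    have : X ^ 3 ≤ 1 := by nlinarith [mul_nonneg hX0 (sq_nonneg X)]
    linarith
  calc (1 + X - X ^ 2 / 2 - X ^ 3 / 6) * (7071 / 10000)
      ≤ (1 + X - X ^ 2 / 2 - X ^ 3 / 6) * (√2 / 2) := mul_le_mul_of_nonneg_left h3 h6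
    _ ≤ (Real.cos X + Real.sin X) * (√2 / 2) := by
        apply mul_le_mul_of_nonneg_right (by linarith) (by positivity)
    _ = Real.cos (π / 4 - X) := by rw [h2]; ring
    _ ≤ _ := h1

/-- large `w`: `x = θ/2`, `C = sin x` -/
private theorem dm_small {u C x : ℝ} (hu : 0 < u) (hx : 0 < x) (hux : u * x ≤ 4354 / 10000)
    (hx1 : x ≤ 13062 / 10000) (hC : C = Real.sin x) (hC0 : 0 < C) :
    8 * u ^ 2 * (2 * C ^ 2 - 1) ≤ C ∧ u * (4 * C ^ 2 - 1) ≤ C := by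
  by_cases h : 4 * C ^ 2 - 1 ≤ 0
  · constructor
    · have h1 : 2 * C ^ 2 - 1 ≤ 0 := by nlinarith
      have : 8 * u ^ 2 * (2 * C ^ 2 - 1) ≤ 0 := mul_nonpos_of_nonneg_of_nonpos (by positivity) h1
      linarith
    · have := mul_nonpos_of_nonneg_of_nonpos hu.le h
      linarith
  push Not at h
  have hCx : C ≤ x := by rw [hC]; exact Real.sin_le hx.le
  have hx2 : 1 / 2 ≤ x := by
    by_contra h1
    push Not at h1
    nlinarith
  have hP := EQS.sin_le5 hx.le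
  have hQ := EQS.sin_ge3 hx.le
  rw [← hC] at hP hQ
  set P := x - x ^ 3 / 6 + x ^ 5 / 120 with hPd
  have hC2 : 7 / 10 * x ≤ C := by
    have : x ^ 2 ≤ 18 / 10 := by nlinarith
    nlinarith
  have g1 := F1_0 hx2 hx1
  have g2 := F2_0 hx2 hx1
  rw [← hPd] at g1 g2
  have f1 : 4354 / 10000 * (4 * C ^ 2 - 1) ≤ x * C := by
    nlinarith [mul_nonneg (sub_nonneg.2 hP) (by linarith : 0 ≤ 17416 / 10000 * (P + C) - x)]
  have f2 : 8 * (4354 / 10000) ^ 2 * (2 * C ^ 2 - 1) ≤ x ^ 2 * C := by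
    have : x ^ 2 ≤ 2 * x := by nlinarith
    nlinarith [mul_nonneg (sub_nonneg.2 hP)
      (by linarith : 0 ≤ 16 * (4354 / 10000) ^ 2 * (P + C) - x ^ 2)]
  constructor
  · by_cases h2 : 2 * C ^ 2 - 1 ≤ 0
    · have : 8 * u ^ 2 * (2 * C ^ 2 - 1) ≤ 0 := mul_nonpos_of_nonneg_of_nonpos (by positivity) h2
      linarith
    push Not at h2
    have h3 : (u * x) ^ 2 ≤ (4354 / 10000) ^ 2 := by
      apply pow_le_pow_left₀ (by positivity) hux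
    have h4 : 8 * u ^ 2 * (2 * C ^ 2 - 1) * x ^ 2 ≤ C * x ^ 2 := by
      calc 8 * u ^ 2 * (2 * C ^ 2 - 1) * x ^ 2 = 8 * (u * x) ^ 2 * (2 * C ^ 2 - 1) := by ring
        _ ≤ 8 * (4354 / 10000) ^ 2 * (2 * C ^ 2 - 1) := by
            apply mul_le_mul_of_nonneg_right _ h2.le
            linarith
        _ ≤ C * x ^ 2 := by linarith
    exact le_of_mul_le_mul_right h4 (by positivity)
  · have h4 : u * (4 * C ^ 2 - 1) * x ≤ C * x := by
      calc u * (4 * C ^ 2 - 1) * x = (u * x) * (4 * C ^ 2 - 1) := by ring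
        _ ≤ 4354 / 10000 * (4 * C ^ 2 - 1) := mul_le_mul_of_nonneg_right hux h.le
        _ ≤ C * x := by linarith
    exact le_of_mul_le_mul_right h4 hx

/-- `sin(2A) φ ≤ sin(2φ) A` -/
private theorem dm_sinc {A φ : ℝ} (hφ : 0 < φ) (hφA : φ ≤ A) (hA : 2 * A ≤ π) :
    Real.sin (2 * A) * φ ≤ Real.sin (2 * φ) * A := by
  have hA0 : 0 < A := by linarith
  have hc := strictConcaveOn_sin_Icc.concaveOn
  have h := hc.2 (⟨le_rfl, Real.pi_pos.le⟩ : (0 : ℝ) ∈ Icc 0 π)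
    (⟨by linarith, hA⟩ : 2 * A ∈ Icc 0 π)
    (by rw [sub_nonneg, div_le_one hA0]; exact hφA : 0 ≤ 1 - φ / A)
    (by positivity : 0 ≤ φ / A) (by ring)
  simp only [smul_eq_mul, mul_zero, Real.sin_zero, zero_add] at h
  have e : φ / A * (2 * A) = 2 * φ := by field_simp
  rw [e] at h
  have h2 := mul_le_mul_of_nonneg_right h hA0.le
  have e2 : φ / A * Real.sin (2 * A) * A = Real.sin (2 * A) * φ := by field_simp
  linarith

/-- separating line, `k ≤ 5/2` -/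
private theorem dm_sep {u d w s C : ℝ} (hud : u = 1 / 2 - d) (hd0 : 0 ≤ d) (hd1 : d ≤ 1 / 10)
    (hw0 : 0 ≤ w) (hw1 : w ≤ 7 / 5) (hC8 : 1 - w ^ 2 / 8 ≤ C)
    (hcw : 2 * C ^ 2 - 1 ≤ 1 - w ^ 2 / 2 + w ^ 4 / 24) (hC0 : 0 < C) (hs0 : 0 ≤ s)
    (hs7 : s ≤ 7 / 10) (hsw : s ≤ 31416 / 10000 * d + (1 / 2 - d) * w) :
    ∃ l : ℝ, 0 < l ∧ 8 * u ^ 2 * (2 * C ^ 2 - 1) ≤ l * C ∧ u * (4 * C ^ 2 - 1) ≤ l * C ∧
      l * (1 - 19 / 40 * s ^ 2) * (2739 / 5000 * (1 + 32 / 25 * d)) *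
        ((1 - u) * (1 + l) + s / (3 / 10)) <
      (1 + (157 / 100 * d + 3 / 4 * s) - (157 / 100 * d + 3 / 4 * s) ^ 2 / 2 -
        (157 / 100 * d + 3 / 4 * s) ^ 3 / 6) * (7071 / 10000) * (1 + l) := by
  obtain ⟨l', hl'⟩ : ∃ l', l' = 23 / 10 - 53 / 10 * d - (8 / 5 - 6 * d) *
      (31416 / 10000 * d + (1 / 2 - d) * w) := ⟨_, rfl⟩
  obtain ⟨l, hl⟩ : ∃ l, l = 23 / 10 - 53 / 10 * d - (8 / 5 - 6 * d) * s := ⟨_, rfl⟩
  have hll : l' ≤ l := by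
    have h2 := mul_le_mul_of_nonneg_left hsw (by linarith : 0 ≤ 8 / 5 - 6 * d)
    linarith
  have q2 := E2_0 hd0 hd1 hw0 hw1
  have q1 : 8 * (1 / 2 - d) ^ 2 * (1 - w ^ 2 / 2 + w ^ 4 / 24) ≤ l' * (1 - w ^ 2 / 8) := by
    rw [hl']
    rcases le_total w (1 / 2) with h | h
    · exact E1_0 hd0 hd1 hw0 h
    · rcases le_total w 1 with h2 | h2
      · exact E1_1 hd0 hd1 h h2
      · exact E1_2 hd0 hd1 h2 hw1
  rw [← hl'] at q2
  have hw2 : w ^ 2 ≤ (7 / 5) ^ 2 := pow_le_pow_left₀ hw0 hw1 2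
  have hw8 : 0 < 1 - w ^ 2 / 8 := by linarith
  have hl'0 : 0 < l' := by
    have h1 : 0 < (1 / 2 - d) * (3 - w ^ 2 + w ^ 4 / 12) := by
      apply mul_pos (by linarith)
      have : 0 ≤ w ^ 4 := by positivity
      linarith
    exact pos_of_mul_pos_left (lt_of_lt_of_le h1 q2) hw8.le
  have hl0 : 0 < l := by linarith
  have hlC : l' * (1 - w ^ 2 / 8) ≤ l * C :=
    (mul_le_mul_of_nonneg_left hC8 hl'0.le).trans (mul_le_mul_of_nonneg_right hll hC0.le)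
  have hu0 : 0 ≤ u := by linarith
  refine ⟨l, hl0, ?_, ?_, ?_⟩
  · have : 8 * u ^ 2 * (2 * C ^ 2 - 1) ≤ 8 * (1 / 2 - d) ^ 2 * (1 - w ^ 2 / 2 + w ^ 4 / 24) := by
      rw [← hud]
      exact mul_le_mul_of_nonneg_left hcw (by positivity)
    linarith
  · have : u * (4 * C ^ 2 - 1) ≤ (1 / 2 - d) * (3 - w ^ 2 + w ^ 4 / 12) := by
      rw [← hud]
      exact mul_le_mul_of_nonneg_left (by linarith) hu0
    linarith
  · have hR : l * (1 - 19 / 40 * s ^ 2) * (2739 / 5000 * (1 + 32 / 25 * d)) *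
        ((1 / 2 + d) * (1 + l) + s * (10 / 3)) <
        (1 + (157 / 100 * d + 3 / 4 * s) - (157 / 100 * d + 3 / 4 * s) ^ 2 / 2 -
          (157 / 100 * d + 3 / 4 * s) ^ 3 / 6) * (1 + l) * (7071 / 10000) := by
      rw [hl]
      rcases le_total s (7 / 20) with h | h
      · exact R1_0 hd0 hd1 hs0 h
      · exact R1_1 hd0 hd1 h hs7
    have e1 : (1 - u) * (1 + l) + s / (3 / 10) = (1 / 2 + d) * (1 + l) + s * (10 / 3) := by
      rw [hud]; ring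
    rw [e1]
    calc _ < _ := hR
      _ = _ := by ring

/-- constant line, `5/2 ≤ k ≤ 3` -/
private theorem dm_sep2 {u d s C : ℝ} (hud : u = 1 / 2 - d) (hd0 : 1 / 10 ≤ d) (hd1 : d ≤ 1 / 6)
    (hC0 : 0 < C) (hC1 : C ≤ 1) (hs0 : 0 ≤ s) (hs7 : s ≤ 7 / 10) :
    ∃ l : ℝ, 0 < l ∧ 8 * u ^ 2 * (2 * C ^ 2 - 1) ≤ l * C ∧ u * (4 * C ^ 2 - 1) ≤ l * C ∧
      l * (1 - 19 / 40 * s ^ 2) * (397 / 500) * ((1 - u) * (1 + l) + s / (1 / 2)) <
      (1 + (157 / 100 * d + 3 / 4 * s) - (157 / 100 * d + 3 / 4 * s) ^ 2 / 2 -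
        (157 / 100 * d + 3 / 4 * s) ^ 3 / 6) * (7071 / 10000) * (1 + l) ∧
      l * (1 - 19 / 40 * s ^ 2) * (397 / 500) * ((1 - u) * (1 + l) + s / (1 / 2)) <
      123 / 125 * (1 + l) := by
  obtain ⟨l, hl⟩ : ∃ l, l = 17 / 10 - 21 / 5 * d := ⟨_, rfl⟩
  have hl1 : 1 ≤ l := by linarith
  have hu0 : 0 ≤ u := by linarith
  have e1 : (1 - u) * (1 + l) + s / (1 / 2) = (1 / 2 + d) * (1 + l) + s * 2 := by
    rw [hud]; ring
  refine ⟨l, by linarith, ?_, ?_, ?_, ?_⟩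
  · have h1 : 2 * C ^ 2 - 1 ≤ C := by nlinarith
    have h2 : 8 * u ^ 2 ≤ l := by
      rw [hl, hud]
      nlinarith
    calc 8 * u ^ 2 * (2 * C ^ 2 - 1) ≤ 8 * u ^ 2 * C := mul_le_mul_of_nonneg_left h1 (by positivity)
      _ ≤ l * C := mul_le_mul_of_nonneg_right h2 hC0.le
  · have h1 : 4 * C ^ 2 - 1 ≤ 3 * C := by nlinarith
    have h2 : u * 3 ≤ l := by
      rw [hl, hud]
      linarith
    calc u * (4 * C ^ 2 - 1) ≤ u * (3 * C) := mul_le_mul_of_nonneg_left h1 hu0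
      _ = u * 3 * C := by ring
      _ ≤ l * C := mul_le_mul_of_nonneg_right h2 hC0.le
  · have hR : l * (1 - 19 / 40 * s ^ 2) * (397 / 500) *
        ((1 / 2 + d) * (1 + l) + s * 2) <
        (1 + (157 / 100 * d + 3 / 4 * s) - (157 / 100 * d + 3 / 4 * s) ^ 2 / 2 -
          (157 / 100 * d + 3 / 4 * s) ^ 3 / 6) * (1 + l) * (7071 / 10000) := by
      rw [hl]
      rcases le_total s (7 / 20) with h | h
      · exact R2_0 hd0 hd1 hs0 h
      · exact R2_1 hd0 hd1 h hs7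
    rw [e1]
    calc _ < _ := hR
      _ = _ := by ring
  · have hR := R3_0 hd0 hd1 hs0 hs7
    rw [← hl] at hR
    rw [e1]
    exact hR

/-- everything in terms of `s = A + φ`, `r = c_0 / cos s` -/
private theorem dm_core {u s φ θ ρ t m x r : ℝ} (hu : 1 / 3 ≤ u) (hu1 : u < 1 / 2)
    (hφ : 0 < φ) (hφs : φ ≤ s / 2) (hρ : 0 < ρ) (hρ1 : ρ ≤ 1) (hθ : 0 < θ)
    (hθ1 : θ ≤ π) (ht : 1 ≤ t) (ht2 : t ^ 2 = 1 - 2 * ρ * Real.cos θ + ρ ^ 2)
    (hM1 : m ^ 2 * (1 + 2 * x) ≤ ρ ^ (-(2 * u)) * (t ^ (2 * u) - t ^ (-(2 * u))))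
    (hx0 : 0 ≤ x) (hr0 : 0 < r) (hrx : r ≤ 1 + 2 * x) (hrφ : r * φ ≤ s - φ)
    (hcos : 0 < Real.cos s) (hsψ : 0 ≤ Real.sin (φ / (2 * u)))
    (hdef : r * Real.cos s * (2 * Real.sin (φ / (2 * u))) ^ u =
      Real.cos (π * u / 2 + φ / 2 - s))
    (hM4 : u * θ ≤ π / 2 - s) : m ^ 2 ≤ 1 := by
  have hpi := Real.pi_gt_d4
  have hpi2 := Real.pi_lt_d4
  have hu0 : 0 < u := by linarith
  have hs0 : 0 < s := by linarith
  -- `C = sin (θ/2)`
  obtain ⟨C, hC⟩ : ∃ C, C = Real.sin (θ / 2) := ⟨_, rfl⟩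
  have hC0 : 0 < C := by
    rw [hC]
    exact Real.sin_pos_of_pos_of_lt_pi (by linarith) (by linarith)
  have hC1 : C ≤ 1 := by rw [hC]; exact Real.sin_le_one _
  have hcosθ : Real.cos θ = 1 - 2 * C ^ 2 := by
    rw [hC, show θ = 2 * (θ / 2) by ring, Real.cos_two_mul]
    have := Real.sin_sq_add_cos_sq (θ / 2)
    rw [show 2 * (θ / 2) / 2 = θ / 2 by ring]
    linarith
  have ht3 : t ^ 2 = 1 + ρ * (2 * (2 * C ^ 2 - 1) + ρ) := by
    rw [ht2, hcosθ]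
    ring
  have hB := Ysq_le hu0 hu1.le hρ ht ht3
  have hfin : ∀ M l : ℝ, 0 ≤ M → 8 * u ^ 2 * (2 * C ^ 2 - 1) ≤ M → u * (4 * C ^ 2 - 1) ≤ M →
      M / C ≤ l → l ≤ 1 + 2 * x → m ^ 2 ≤ 1 := by
    intro M l h0 h1 h2 h3 h4
    have h5 := B_le hu0 hu1.le hρ hρ1 (by linarith) hC0 hC1 ht3 h0 h1 h2
    have h6 : m ^ 2 * (1 + 2 * x) ≤ 1 * (1 + 2 * x) := by linarith
    exact le_of_mul_le_mul_right h6 (by linarith)
  by_cases hcase : u * θ ≤ π / 2 - 7 / 10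
  · -- case I
    have h3 : 1 / 3 * θ ≤ u * θ := mul_le_mul_of_nonneg_right hu hθ.le
    have h1 := dm_small (u := u) (C := C) (x := θ / 2) hu0 (by linarith) (by linarith)
      (by linarith) hC hC0
    exact hfin C 1 hC0.le h1.1 h1.2 (by rw [div_self hC0.ne']) (by linarith)
  push Not at hcase
  have hs7 : s < 7 / 10 := by linarith
  -- `w = π - θ`
  obtain ⟨w, hw⟩ : ∃ w, w = π - θ := ⟨_, rfl⟩
  obtain ⟨d, hd⟩ : ∃ d, d = 1 / 2 - u := ⟨_, rfl⟩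
  have hud : u = 1 / 2 - d := by linarith
  have hd0 : 0 < d := by linarith
  have hw0 : 0 ≤ w := by linarith
  have hθ2 : u * θ ≤ 1 / 2 * θ := mul_le_mul_of_nonneg_right hu1.le hθ.le
  have hw1 : w ≤ 7 / 5 := by linarith
  have hCw : C = Real.cos (w / 2) := by
    rw [hC, hw, show (π - θ) / 2 = π / 2 - θ / 2 by ring, Real.cos_pi_div_two_sub]
  have hsw : s ≤ 31416 / 10000 * d + (1 / 2 - d) * w := by
    have e : π * d + (1 / 2 - d) * w = π / 2 - u * θ := by rw [hw, hd]; ring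
    have h1 : π * d ≤ 31416 / 10000 * d := mul_le_mul_of_nonneg_right (by linarith) hd0.le
    linarith
  have hs2 : s ^ 2 ≤ (7 / 10) ^ 2 := pow_le_pow_left₀ hs0.le hs7.le 2
  have hcs : Real.cos s ≤ 1 - 19 / 40 * s ^ 2 := by
    have h1 := EQS.cos_le4 hs0.le
    have h2 : s ^ 2 * s ^ 2 ≤ (7 / 10) ^ 2 * s ^ 2 :=
      mul_le_mul_of_nonneg_right hs2 (sq_nonneg s)
    have h3 : s ^ 4 = s ^ 2 * s ^ 2 := by ring
    have h4 : 0 ≤ s ^ 2 := sq_nonneg s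
    linarith
  have hπd : 0 ≤ (π - 314 / 100) * d := mul_nonneg (by linarith) hd0.le
  have hX : 157 / 100 * d + 3 / 4 * s ≤ π / 4 - π * u / 2 + 3 / 4 * s := by
    rw [hud]
    linarith
  by_cases hd1 : d ≤ 1 / 10
  · -- `k ≤ 5/2`
    have hC8 : 1 - w ^ 2 / 8 ≤ C := by
      rw [hCw]
      have := Real.one_sub_sq_div_two_le_cos (x := w / 2)
      linarith
    have hcw : 2 * C ^ 2 - 1 ≤ 1 - w ^ 2 / 2 + w ^ 4 / 24 := by
      have h1 := EQS.cos_le4 hw0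
      have h2 : Real.cos w = 2 * C ^ 2 - 1 := by
        rw [hCw, show w = 2 * (w / 2) by ring, Real.cos_two_mul]
        rw [show 2 * (w / 2) / 2 = w / 2 by ring]
      linarith
    obtain ⟨l, hl0, hM1', hM2', hR⟩ := dm_sep hud hd0.le hd1 hw0 hw1 hC8 hcw hC0 hs0.le hs7.le hsw
    refine hfin (l * C) l (by positivity) hM1' hM2'
      (by rw [mul_div_assoc, div_self hC0.ne', mul_one]) (le_trans ?_ hrx)
    refine r_ge (y := 3 / 10) (Y := 2739 / 5000 * (1 + 32 / 25 * d))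
      (C1 := (1 + (157 / 100 * d + 3 / 4 * s) - (157 / 100 * d + 3 / 4 * s) ^ 2 / 2 -
        (157 / 100 * d + 3 / 4 * s) ^ 3 / 6) * (7071 / 10000)) (cs := 1 - 19 / 40 * s ^ 2)
      hu0 (by linarith) hs0 hφ (by norm_num) (dm_pow1 hud hd0.le hd1) hr0 hl0 hsψ hrφ hcs
      hcos hdef ?_ hR
    have h1 : π * (4 / 10) ≤ π * u := mul_le_mul_of_nonneg_left (by linarith) (by linarith)
    exact dm_cos hφ.le hφs (by linarith) hu1.le hs0.le hX (by positivity) (by linarith)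
  · -- `5/2 ≤ k ≤ 3`
    push Not at hd1
    obtain ⟨l, hl0, hM1', hM2', hR, hR'⟩ := dm_sep2 hud hd1.le (by linarith) hC0 hC1 hs0.le hs7.le
    refine hfin (l * C) l (by positivity) hM1' hM2'
      (by rw [mul_div_assoc, div_self hC0.ne', mul_one]) (le_trans ?_ hrx)
    by_cases hcs2 : 7 / 4 * s ≤ π * u
    · refine r_ge (y := 1 / 2) (Y := 397 / 500)
        (C1 := (1 + (157 / 100 * d + 3 / 4 * s) - (157 / 100 * d + 3 / 4 * s) ^ 2 / 2 -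
          (157 / 100 * d + 3 / 4 * s) ^ 3 / 6) * (7071 / 10000)) (cs := 1 - 19 / 40 * s ^ 2)
        hu0 (by linarith) hs0 hφ (by norm_num) (dm_pow2 hu) hr0 hl0 hsψ hrφ hcs
        hcos hdef ?_ hR
      exact dm_cos hφ.le hφs hcs2 hu1.le hs0.le hX (by positivity) (by linarith)
    · push Not at hcs2
      refine r_ge (y := 1 / 2) (Y := 397 / 500) (C1 := 123 / 125) (cs := 1 - 19 / 40 * s ^ 2)
        hu0 (by linarith) hs0 hφ (by norm_num) (dm_pow2 hu) hr0 hl0 hsψ hrφ hcs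
        hcos hdef ?_ hR'
      have h0 : π / 3 ≤ π * u := by
        have := mul_le_mul_of_nonneg_left hu (by linarith : 0 ≤ π)
        linarith
      have h1 := Real.one_sub_sq_div_two_le_cos (x := π * u / 2 + φ / 2 - s)
      have h2 : |π * u / 2 + φ / 2 - s| ≤ 177 / 1000 := by
        rw [abs_le]
        constructor <;> linarith
      have h3 : (π * u / 2 + φ / 2 - s) ^ 2 ≤ (177 / 1000) ^ 2 := by
        rw [← sq_abs]
        exact pow_le_pow_left₀ (abs_nonneg _) h2 2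
      linarith

/-- the whole inequality in terms of `u = 1/k`, `1/3 ≤ u < 1/2` -/
theorem m_sq_le_one_u {u A φ θ ρ t m x c0 : ℝ} (hu : 1 / 3 ≤ u) (hu1 : u < 1 / 2)
    (hφ : 0 < φ) (hφA : φ ≤ A) (hA : A ≤ π / 4) (hρ : 0 < ρ) (hρ1 : ρ ≤ 1) (hθ : 0 < θ)
    (hθ1 : θ ≤ π) (ht : 1 ≤ t) (ht2 : t ^ 2 = 1 - 2 * ρ * Real.cos θ + ρ ^ 2)
    (hc0 : c0 = (2 * Real.sin (φ / (2 * u))) ^ (-u) * Real.cos (A - (π * u - φ) / 2))
    (hM1 : m ^ 2 * (1 + 2 * x) ≤ ρ ^ (-(2 * u)) * (t ^ (2 * u) - t ^ (-(2 * u))))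
    (hM2 : c0 * Real.sin (A - φ) ≤ x * Real.sin (2 * A))
    (hM3 : c0 * Real.sin (2 * φ) ≤ Real.cos (A + φ) * Real.sin (2 * A))
    (hM4 : u * θ ≤ π / 2 - (A + φ)) : m ^ 2 ≤ 1 := by
  have hpi := Real.pi_gt_d4
  have hpi2 := Real.pi_lt_d4
  have hu0 : 0 < u := by linarith
  have huθ : 0 < u * θ := by positivity
  obtain ⟨s, hs⟩ : ∃ s, s = A + φ := ⟨_, rfl⟩
  rw [← hs] at hM3 hM4
  have hA0 : 0 < A := by linarith
  have hs0 : 0 < s := by linarith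
  have hs1 : s < π / 2 := by linarith
  have hφs : φ ≤ s / 2 := by linarith
  have hcos : 0 < Real.cos s := Real.cos_pos_of_mem_Ioo ⟨by linarith, hs1⟩
  have hsin2A : 0 < Real.sin (2 * A) := Real.sin_pos_of_pos_of_lt_pi (by linarith) (by linarith)
  have hψ : φ / (2 * u) ≤ 3 * π / 8 := by
    rw [div_le_iff₀ (by positivity)]
    have := mul_le_mul_of_nonneg_left hu (by linarith : 0 ≤ 3 * π / 4)
    linarith
  have hψ0 : 0 < φ / (2 * u) := by positivity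
  have hsψ : 0 < Real.sin (φ / (2 * u)) :=
    Real.sin_pos_of_pos_of_lt_pi hψ0 (by linarith)
  have hpw : 0 < (2 * Real.sin (φ / (2 * u))) ^ u := Real.rpow_pos_of_pos (by linarith) _
  have hπu : π * (1 / 3) ≤ π * u := mul_le_mul_of_nonneg_left hu (by linarith)
  have hπu1 : π * u ≤ π * (1 / 2) := mul_le_mul_of_nonneg_left hu1.le (by linarith)
  have hcc : 0 < Real.cos (A - (π * u - φ) / 2) :=
    Real.cos_pos_of_mem_Ioo ⟨by linarith, by linarith⟩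
  have hc0' : 0 < c0 := by
    rw [hc0]
    exact mul_pos (Real.rpow_pos_of_pos (by linarith) _) hcc
  have hx0 : 0 ≤ x := by
    have h1 : 0 ≤ Real.sin (A - φ) := Real.sin_nonneg_of_nonneg_of_le_pi (by linarith) (by linarith)
    have h2 : 0 ≤ x * Real.sin (2 * A) := le_trans (mul_nonneg hc0'.le h1) hM2
    exact nonneg_of_mul_nonneg_left h2 hsin2A
  have h12 : c0 ≤ (1 + 2 * x) * Real.cos s := by
    have e1 : 2 * Real.sin (A - φ) * Real.cos s = Real.sin (2 * A) - Real.sin (2 * φ) := by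
      rw [hs, show 2 * A = (A - φ) + (A + φ) by ring, show 2 * φ = (A + φ) - (A - φ) by ring,
        Real.sin_add, Real.sin_sub (A + φ) (A - φ)]
      ring
    have h3 : c0 * (2 * Real.sin (A - φ) * Real.cos s) ≤ 2 * x * Real.cos s * Real.sin (2 * A) := by
      have := mul_le_mul_of_nonneg_right hM2 (mul_nonneg (by norm_num : (0 : ℝ) ≤ 2) hcos.le)
      linarith
    rw [e1] at h3
    have h4 : c0 * Real.sin (2 * A) ≤ (1 + 2 * x) * Real.cos s * Real.sin (2 * A) := by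
      linarith
    exact le_of_mul_le_mul_right h4 hsin2A
  obtain ⟨r, hr⟩ : ∃ r, r = c0 / Real.cos s := ⟨_, rfl⟩
  have hrc : r * Real.cos s = c0 := by rw [hr]; field_simp
  have hr0 : 0 < r := by rw [hr]; positivity
  have hrx : r ≤ 1 + 2 * x := by
    rw [hr, div_le_iff₀ hcos]
    exact h12
  have hrφ : r * φ ≤ s - φ := by
    have h1 : r * Real.sin (2 * φ) ≤ Real.sin (2 * A) := by
      have : r * Real.sin (2 * φ) * Real.cos s ≤ Real.sin (2 * A) * Real.cos s := by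
        calc r * Real.sin (2 * φ) * Real.cos s = (r * Real.cos s) * Real.sin (2 * φ) := by ring
          _ ≤ Real.cos s * Real.sin (2 * A) := by rw [hrc]; exact hM3
          _ = _ := by ring
      exact le_of_mul_le_mul_right this hcos
    have h2 := dm_sinc hφ hφA (by linarith)
    have h3 : 0 < Real.sin (2 * φ) := Real.sin_pos_of_pos_of_lt_pi (by linarith) (by linarith)
    have h4 : r * φ * Real.sin (2 * φ) ≤ A * Real.sin (2 * φ) := by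
      have := mul_le_mul_of_nonneg_right h1 hφ.le
      linarith
    have := le_of_mul_le_mul_right h4 h3
    linarith
  have hdef : r * Real.cos s * (2 * Real.sin (φ / (2 * u))) ^ u =
      Real.cos (π * u / 2 + φ / 2 - s) := by
    rw [hrc, hc0, Real.rpow_neg (by linarith), ← Real.cos_neg (π * u / 2 + φ / 2 - s), hs]
    rw [show -(π * u / 2 + φ / 2 - (A + φ)) = A - (π * u - φ) / 2 by ring]
    field_simp
  exact dm_core hu hu1 hφ hφs hρ hρ1 hθ hθ1 ht ht2 hM1 hx0 hr0 hrx hrφ hcos hsψ.le hdef hM4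

/-- **m = |y_2| ≤ 1 for `2 < k ≤ 3`** (first step with `F_1 > 0`, `arg p_{-2} ≤ 0`).
`A = A_1`, `φ = F_1 / k`, `θ = arg f_{-2}`, `ρ = |f_{-2}|`, `t = |p_{-2}| = |1 - f_{-2}|`,
`x = Re z`, `z = (i - q_{-1}) / D_{-1}`, `c0 = Re D_0 / |D_{-1}|`. -/
theorem m_sq_le_one {k A φ θ ρ t m x c0 : ℝ} (hk : 2 < k) (hk3 : k ≤ 3)
    (hφ : 0 < φ) (hφA : φ ≤ A) (hA : A ≤ π / 4) (hρ : 0 < ρ) (hρ1 : ρ ≤ 1) (hθ : 0 < θ)
    (hθ1 : θ ≤ π) (ht : 1 ≤ t) (ht2 : t ^ 2 = 1 - 2 * ρ * Real.cos θ + ρ ^ 2)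
    (hc0 : c0 = (2 * Real.sin (k * φ / 2)) ^ (-(1 / k)) * Real.cos (A - (π - k * φ) / (2 * k)))
    (hM1 : m ^ 2 * (1 + 2 * x) ≤ ρ ^ (-(2 / k)) * (t ^ (2 / k) - t ^ (-(2 / k))))
    (hM2 : c0 * Real.sin (A - φ) ≤ x * Real.sin (2 * A))
    (hM3 : c0 * Real.sin (2 * φ) ≤ Real.cos (A + φ) * Real.sin (2 * A))
    (hM4 : θ ≤ k * (π / 2 - (A + φ))) : m ^ 2 ≤ 1 := by
  have hk0 : 0 < k := by linarith
  have e2 : 2 / k = 2 * (1 / k) := by ring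
  rw [e2] at hM1
  refine m_sq_le_one_u (u := 1 / k) (A := A) (φ := φ) (θ := θ) (ρ := ρ) (t := t) (x := x)
    (c0 := c0) ?_ ?_ hφ hφA hA hρ hρ1 hθ hθ1 ht ht2 ?_ hM1 hM2 hM3 ?_
  · rw [div_le_div_iff₀ (by norm_num) hk0]; linarith
  · rw [div_lt_div_iff₀ hk0 (by norm_num)]; linarith
  · rw [hc0]
    congr 2
    · rw [show φ / (2 * (1 / k)) = k * φ / 2 by field_simp]
    · congr 1
      field_simp
  · have h := mul_le_mul_of_nonneg_left hM4 (by positivity : 0 ≤ 1 / k)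
    have e : 1 / k * (k * (π / 2 - (A + φ))) = π / 2 - (A + φ) := by field_simp
    linarith

/-- for `k ≥ 3` one has `Y² ≤ 1` without any further information -/
theorem m_sq_le_one_of_three {k θ ρ t m x : ℝ} (hk3 : 3 ≤ k) (hρ : 0 < ρ) (hρ1 : ρ ≤ 1)
    (hθ : 0 < θ) (hθ1 : θ ≤ π) (ht : 1 ≤ t) (ht2 : t ^ 2 = 1 - 2 * ρ * Real.cos θ + ρ ^ 2)
    (hx : 0 ≤ x)
    (hM1 : m ^ 2 * (1 + 2 * x) ≤ ρ ^ (-(2 / k)) * (t ^ (2 / k) - t ^ (-(2 / k)))) :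
    m ^ 2 ≤ 1 := by
  have hk0 : 0 < k := by linarith
  have e2 : 2 / k = 2 * (1 / k) := by ring
  rw [e2] at hM1
  obtain ⟨u, hu⟩ : ∃ u, u = 1 / k := ⟨_, rfl⟩
  rw [← hu] at hM1
  have hu0 : 0 < u := by rw [hu]; positivity
  have hu1 : u ≤ 1 / 3 := by rw [hu, div_le_div_iff₀ hk0 (by norm_num)]; linarith
  obtain ⟨C, hC⟩ : ∃ C, C = Real.sin (θ / 2) := ⟨_, rfl⟩
  have hpi := Real.pi_pos
  have hC0 : 0 < C := by
    rw [hC]
    exact Real.sin_pos_of_pos_of_lt_pi (by linarith) (by linarith)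
  have hC1 : C ≤ 1 := by rw [hC]; exact Real.sin_le_one _
  have hcosθ : Real.cos θ = 1 - 2 * C ^ 2 := by
    rw [hC, show θ = 2 * (θ / 2) by ring, Real.cos_two_mul]
    have := Real.sin_sq_add_cos_sq (θ / 2)
    rw [show 2 * (θ / 2) / 2 = θ / 2 by ring]
    linarith
  have ht3 : t ^ 2 = 1 + ρ * (2 * (2 * C ^ 2 - 1) + ρ) := by
    rw [ht2, hcosθ]
    ring
  have hB := Ysq_le hu0 (by linarith) hρ ht ht3
  have h5 := B_le hu0 (by linarith) hρ hρ1 (by linarith) hC0 hC1 ht3 hC0.le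
    (by
      have h1 : 2 * C ^ 2 - 1 ≤ C := by nlinarith
      have h2 : 8 * u ^ 2 ≤ 1 := by nlinarith
      calc 8 * u ^ 2 * (2 * C ^ 2 - 1) ≤ 8 * u ^ 2 * C :=
            mul_le_mul_of_nonneg_left h1 (by positivity)
        _ ≤ 1 * C := mul_le_mul_of_nonneg_right h2 hC0.le
        _ = C := one_mul C)
    (by
      have h1 : 4 * C ^ 2 - 1 ≤ 3 * C := by nlinarith
      calc u * (4 * C ^ 2 - 1) ≤ u * (3 * C) := mul_le_mul_of_nonneg_left h1 hu0.le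
        _ = (3 * u) * C := by ring
        _ ≤ 1 * C := mul_le_mul_of_nonneg_right (by linarith) hC0.le
        _ = C := one_mul C)
  rw [div_self hC0.ne'] at h5
  nlinarith [mul_nonneg (sq_nonneg m) hx]

end EQD
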