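import Pool.Agent.Lib.MP_226de1_co.E.DSt
import Pool.Agent.Lib.MP_226de1_co.E.DM

/-! Unit disc exit, case `F_1 > 0`, `arg p_{-2} ≤ 0`: `m = |D_{-2}| / |i - q_{-2}| ≤ 1`. -/

set_option autoImplicit false

namespace EQS

open Complex

variable {k C : ℝ} {q0 q1 q2 q3 d0 d1 d2 X1 X2 X3 : ℂ}

/-- `|p_{-2}|^2 = 1 - 2 rho cos F_2 + rho^2` -/
theorem St.disc_t_sq (h : St k C q0 q1 q2 q3 d0 d1 d2 X1 X2 X3) :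
    ‖pv k C X2 d1‖ ^ 2 = 1 - 2 * ‖pv k C X2 d2‖ * Real.cos (k * (X2 - d2).im) +
      ‖pv k C X2 d2‖ ^ 2 := by
  have h1 : pv k C X2 d1 = 1 - pv k C X2 d2 := by
    rw [← h.f2]
    ring
  have h2 : (pv k C X2 d2).re = ‖pv k C X2 d2‖ * Real.cos (k * (X2 - d2).im) := by
    rw [norm_pv h.C0, pv_re]
  rw [h1, Complex.sq_norm, Complex.sq_norm, Complex.normSq_sub]
  simp only [map_one, one_mul, Complex.conj_re]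
  rw [h2]
  ring

/-- **`m ≤ 1` for `2 < k ≤ 3`** -/
theorem St.disc_m_le_one (h : St k C q0 q1 q2 q3 d0 d1 d2 X1 X2 X3)
    (he : ‖1 - pv k C X1 d0‖ = 1) (hk3 : k ≤ 3) (hF : 0 < (X1 - d1).im)
    (hφ : (X1 - d1).im ≤ -X1.im) (hA : -(Real.pi / 4) ≤ X1.im) (hτ : (X2 - d1).im ≤ 0)
    (ht : 1 ≤ ‖pv k C X2 d1‖) (hρ : ‖pv k C X2 d2‖ ≤ 1) (hθ : 0 < (X2 - d2).im)
    (hθ1 : k * (X2 - d2).im ≤ Real.pi) : (‖exp d2‖ / ‖I - q2‖) ^ 2 ≤ 1 := by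
  have k0 := h.k0
  have hM4 := h.disc_M4 hτ
  refine EQD.m_sq_le_one (k := k) (A := -X1.im) (φ := (X1 - d1).im) (θ := k * (X2 - d2).im)
    (ρ := ‖pv k C X2 d2‖) (t := ‖pv k C X2 d1‖) (x := ((I - q1) / exp d1).re)
    (c0 := c0 k (-X1.im) (X1 - d1).im) h.hk hk3 hF hφ (by linarith)
    (norm_pos_iff.2 (pv_ne h.C0)) hρ (mul_pos k0 hθ) hθ1 ht h.disc_t_sq rfl
    (h.disc_M1 he (by linarith)) (h.disc_M2 he (by linarith) hF hφ)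
    (h.disc_M3 he (by linarith) hF hφ hτ) (by linarith)

/-- `m ≤ 1` for `k ≥ 3`, from `Re z ≥ 0` -/
theorem St.disc_m_le_one_of_three (h : St k C q0 q1 q2 q3 d0 d1 d2 X1 X2 X3)
    (he : ‖1 - pv k C X1 d0‖ = 1) (hk3 : 3 ≤ k) (hψ0 : 0 ≤ -X1.im + (X1 - d1).im)
    (hz : 0 ≤ ((I - q1) / exp d1).re)
    (ht : 1 ≤ ‖pv k C X2 d1‖) (hρ : ‖pv k C X2 d2‖ ≤ 1) (hθ : 0 < (X2 - d2).im)
    (hθ1 : k * (X2 - d2).im ≤ Real.pi) : (‖exp d2‖ / ‖I - q2‖) ^ 2 ≤ 1 :=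
  EQD.m_sq_le_one_of_three hk3 (norm_pos_iff.2 (pv_ne h.C0)) hρ (mul_pos h.k0 hθ) hθ1 ht
    h.disc_t_sq hz (h.disc_M1 he hψ0)

end EQS
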