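import Mathlib
import Pool.Agent.Lib.MP_226de1_co.E.DFs2

/-! The criterion for a lower bound of `arg p_{-3}` in terms of the first step. -/

set_option autoImplicit false

namespace EQS

open Complex

/-- `NP ≥ 0` is equivalent to `2 Im (X3 - d2) ≥ x` -/
noncomputable def NP (a T P φ τ φ2 x : ℝ) : ℝ :=
  a * T * Real.sin (2 * φ2 - x) + T * Real.sin (φ2 + τ - x) -
    Real.sin (φ2 - τ + 2 * φ - x) + P * Real.sin (φ2 - τ - x) - P / a * Real.sin x

section St

variable {k C : ℝ} {q0 q1 q2 q3 d0 d1 d2 X1 X2 X3 : ℂ}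

/-- the exact identity `|xi_{-3}/xi_{-2}|^2 a T sin (x - 2 τ_2) = - NP` -/
theorem St.NP_id (h : St k C q0 q1 q2 q3 d0 d1 d2 X1 X2 X3) (x : ℝ) :
    Real.exp (2 * (X3 - X2).re) * (Real.exp (d1 - d2).re * Real.exp (2 * (X2 - X1).re)) *
        Real.sin (x - 2 * (X3 - d2).im) =
      -NP (Real.exp (d1 - d2).re) (Real.exp (2 * (X2 - X1).re)) (Real.exp (2 * (d1 - X1).re))
        (X1 - d1).im (X2 - d1).im (X2 - d2).im x := by
  obtain ⟨E1, E2⟩ := step_E h.x1 h.x2 h.s1
  obtain ⟨G1, G2⟩ := step_E h.x2 h.x3 h.s2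
  -- real names
  set a := Real.exp (d1 - d2).re with ha
  have a0 : 0 < a := Real.exp_pos _
  set T := Real.exp (2 * (X2 - X1).re) with hT
  have T0 : 0 < T := Real.exp_pos _
  set T2 := Real.exp (2 * (X3 - X2).re) with hT2
  set P := Real.exp (2 * (d1 - X1).re) with hP
  set e := Real.exp (d1.re - 2 * X1.re) with he
  have hd1 : d1.im = -(-X1.im + (X1 - d1).im) := by simp
  have hd2 : d2.im = -(-X2.im + (X2 - d2).im) := by simp
  -- the second step in terms of the first
  have e2 : Real.exp (d2.re - 2 * X2.re) * (a * T) = e := by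
    rw [ha, hT, he, ← Real.exp_add, ← Real.exp_add]
    congr 1
    simp only [sub_re]
    ring
  have p2 : Real.exp (2 * (d2 - X2).re) * (a * T) = P / a := by
    rw [ha, hT, hP, eq_div_iff (Real.exp_pos _).ne', ← Real.exp_add, ← Real.exp_add,
      ← Real.exp_add]
    congr 1
    simp only [sub_re]
    ring
  have hq2 : q2 = q1 - exp d1 := by rw [h.s1]; ring
  have eD : e * Real.exp d1.re = P := by
    rw [he, hP, ← Real.exp_add]
    congr 1
    simp only [sub_re]
    ring
  set A := -X1.im with hA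
  set φ := (X1 - d1).im with hφ
  set τ := (X2 - d1).im with hτ
  set φ2 := (X2 - d2).im with hφ2
  set τ2 := (X3 - d2).im with hτ2
  have hX2 : -X2.im = A + φ - τ := by
    rw [hA, hφ, hτ]
    simp only [sub_im]
    ring
  have hX3 : -X3.im = A + φ - τ + φ2 - τ2 := by
    rw [hA, hφ, hτ, hφ2, hτ2]
    simp only [sub_im]
    ring
  have w2 : 2 * (-q2.re) * Real.exp (d2.re - 2 * X2.re) * (a * T) =
      2 * (-q1.re) * e + 2 * P * Real.cos (A + φ) := by
    have e3 : q2.re = q1.re - Real.exp d1.re * Real.cos (A + φ) := by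
      rw [hq2, sub_re, exp_re, hd1, Real.cos_neg]
    rw [e3, ← eD]
    linear_combination (2 * -(q1.re - Real.exp d1.re * Real.cos (A + φ))) * e2
  have s2 : 2 * q2.im * Real.exp (d2.re - 2 * X2.re) * (a * T) =
      2 * q1.im * e + 2 * P * Real.sin (A + φ) := by
    have e3 : q2.im = q1.im + Real.exp d1.re * Real.sin (A + φ) := by
      rw [hq2, sub_im, exp_im, hd1, Real.sin_neg]
      ring
    rw [e3, ← eD]
    linear_combination (2 * (q1.im + Real.exp d1.re * Real.sin (A + φ))) * e2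
  rw [hX2, hd1, Real.cos_neg] at E1
  rw [hX2, hd1, Real.sin_neg] at E2
  rw [hX3, hX2, hd2, Real.cos_neg, hX2] at G1
  rw [hX3, hX2, hd2, Real.sin_neg, hX2] at G2
  -- rotate the second step by `θ = A_2 + φ_2 - x`
  set θ := A + φ - τ + φ2 - x with hθ
  have r1 : Real.sin (x - 2 * τ2) = Real.sin (A + φ - τ + φ2 - τ2 - τ2) * Real.cos θ -
      Real.cos (A + φ - τ + φ2 - τ2 - τ2) * Real.sin θ := by
    rw [← Real.sin_sub]
    congr 1
    rw [hθ]
    ring
  have r2 : Real.sin (2 * φ2 - x) = -(Real.sin (A + φ - τ - φ2) * Real.cos θ -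
      Real.cos (A + φ - τ - φ2) * Real.sin θ) := by
    rw [← Real.sin_sub, ← Real.sin_neg]
    congr 1
    rw [hθ]
    ring
  have r3 : Real.sin x = Real.sin (A + φ - τ + φ2) * Real.cos θ -
      Real.cos (A + φ - τ + φ2) * Real.sin θ := by
    rw [← Real.sin_sub]
    congr 1
    rw [hθ]
    ring
  have r4 : Real.sin (φ2 + τ - x) = -(Real.sin (A + φ - τ - τ) * Real.cos θ -
      Real.cos (A + φ - τ - τ) * Real.sin θ) := by
    rw [← Real.sin_sub, ← Real.sin_neg]
    congr 1
    rw [hθ]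
    ring
  have r5 : Real.sin (φ2 - τ + 2 * φ - x) = -(Real.sin (A - φ) * Real.cos θ -
      Real.cos (A - φ) * Real.sin θ) := by
    rw [← Real.sin_sub, ← Real.sin_neg]
    congr 1
    rw [hθ]
    ring
  have r6 : Real.sin (φ2 - τ - x) = -(Real.sin (A + φ) * Real.cos θ -
      Real.cos (A + φ) * Real.sin θ) := by
    rw [← Real.sin_sub, ← Real.sin_neg]
    congr 1
    rw [hθ]
    ring
  unfold NP
  rw [r1, r2, r3, r4, r5, r6]
  linear_combination (a * T * Real.cos θ) * G2 - (a * T * Real.sin θ) * G1 +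
    Real.cos θ * s2 - Real.sin θ * w2 + (Real.cos θ * Real.sin (A + φ - τ + φ2) -
      Real.sin θ * Real.cos (A + φ - τ + φ2)) * p2 - Real.cos θ * E2 + Real.sin θ * E1

/-- the criterion -/
theorem St.NP_le (h : St k C q0 q1 q2 q3 d0 d1 d2 X1 X2 X3) {x : ℝ} (hx0 : 0 ≤ x)
    (hx1 : x ≤ Real.pi / k)
    (hN : 0 ≤ NP (Real.exp (d1 - d2).re) (Real.exp (2 * (X2 - X1).re))
      (Real.exp (2 * (d1 - X1).re)) (X1 - d1).im (X2 - d1).im (X2 - d2).im x) :
    x ≤ 2 * (X3 - d2).im := by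
  have hpi := Real.pi_pos
  have k0 := h.k0
  have h1 := h.NP_id x
  have h2 : Real.sin (x - 2 * (X3 - d2).im) ≤ 0 := by
    by_contra hcon
    push Not at hcon
    have : 0 < Real.exp (2 * (X3 - X2).re) *
        (Real.exp (d1 - d2).re * Real.exp (2 * (X2 - X1).re)) *
        Real.sin (x - 2 * (X3 - d2).im) := by positivity
    linarith
  by_contra hcon
  push Not at hcon
  have h3 := h.p3
  rw [abs_mul, abs_of_pos k0] at h3
  have h4 : |(X3 - d2).im| < Real.pi / k / 2 := by
    rw [lt_div_iff₀ (by norm_num : (0:ℝ) < 2), lt_div_iff₀ k0]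
    linarith
  have h5 := abs_lt.1 h4
  have h6 : Real.pi / k < Real.pi / 2 :=
    div_lt_div_of_pos_left hpi (by norm_num) h.hk
  have h7 : 0 < Real.sin (x - 2 * (X3 - d2).im) :=
    Real.sin_pos_of_pos_of_lt_pi (by linarith) (by linarith)
  linarith

end St

end EQS
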