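import Mathlib
import Pool.Agent.Lib.MP_226de1_co.E.DNP

/-! Sheets `F_2 ≥ π`: bounds for `s = (T + 1) sin β` and `P` from the first step. -/

set_option autoImplicit false

namespace EQS

/-- `cos (k x) ≤ cos x ^ k`, i.e. `cos (k η) ^ (1/k) ≤ cos η` -/
theorem cos_rpow_le {k η : ℝ} (hk : 1 ≤ k) (hη : |k * η| < Real.pi / 2) :
    Real.cos (k * η) ^ (1 / k) ≤ Real.cos η := by
  have hpi := Real.pi_pos
  have k0 : 0 < k := by linarith
  have hb := abs_lt.1 hη
  -- concavity of `log ∘ cos`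
  have hconc : ConcaveOn ℝ (Set.Ioo (-(Real.pi / 2)) (Real.pi / 2))
      (fun x => Real.log (Real.cos x)) := by
    apply AntitoneOn.concaveOn_of_deriv (convex_Ioo _ _)
    · apply ContinuousOn.log Real.continuous_cos.continuousOn
      intro x hx
      exact (Real.cos_pos_of_mem_Ioo hx).ne'
    · rw [interior_Ioo]
      intro x hx
      exact (((Real.hasDerivAt_cos x).log (Real.cos_pos_of_mem_Ioo hx).ne').differentiableAt
        ).differentiableWithinAt
    · rw [interior_Ioo]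
      intro x hx y hy hxy
      have hd : ∀ z ∈ Set.Ioo (-(Real.pi / 2)) (Real.pi / 2),
          deriv (fun x => Real.log (Real.cos x)) z = -Real.tan z := by
        intro z hz
        rw [((Real.hasDerivAt_cos z).log (Real.cos_pos_of_mem_Ioo hz).ne').deriv,
          Real.tan_eq_sin_div_cos, neg_div]
      rw [hd x hx, hd y hy]
      have := Real.strictMonoOn_tan.monotoneOn hx hy hxy
      linarith
  have h0 : (0 : ℝ) ∈ Set.Ioo (-(Real.pi / 2)) (Real.pi / 2) := ⟨by linarith, by linarith⟩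
  have h1 : k * η ∈ Set.Ioo (-(Real.pi / 2)) (Real.pi / 2) := ⟨by linarith, by linarith⟩
  have ha1 : 0 ≤ 1 - 1 / k := by rw [sub_nonneg, div_le_one k0]; exact hk
  have hb1 : 0 ≤ 1 / k := by positivity
  have hab : 1 - 1 / k + 1 / k = 1 := by ring
  have h2 := hconc.2 h0 h1 ha1 hb1 hab
  simp only [smul_eq_mul, mul_zero, zero_add, Real.cos_zero, Real.log_one] at h2
  have h3 : 1 / k * (k * η) = η := by field_simp
  rw [h3] at h2
  have hc := Real.cos_pos_of_mem_Ioo h1
  have hcη : 0 < Real.cos η := by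
    apply Real.cos_pos_of_mem_Ioo
    have : |η| ≤ |k * η| := by
      rw [abs_mul, abs_of_pos k0]
      nlinarith [abs_nonneg η]
    have h4 := abs_lt.1 (lt_of_le_of_lt this hη)
    exact ⟨by linarith, by linarith⟩
  rw [← Real.log_le_log_iff (Real.rpow_pos_of_pos hc _) hcη, Real.log_rpow hc]
  exact h2

namespace FsD

variable {k A φ τ η T P S w c φ2 : ℝ}

/-- `T ≤ 1 + 2/k` -/
theorem T_le (h : FsD k A φ τ η T P S w c) : T ≤ 1 + 2 / k := by
  have k0 := h.k0
  have h1 : T ^ (k / 2) ≤ 2 := by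
    have := h.f2
    have := Real.cos_le_one (k * τ)
    linarith
  have h2 : T = (T ^ (k / 2)) ^ (2 / k) := by
    rw [← Real.rpow_mul h.T0.le]
    have : k / 2 * (2 / k) = 1 := by field_simp
    rw [this, Real.rpow_one]
  have h3 : T ≤ (2 : ℝ) ^ (2 / k) := by
    rw [h2]
    exact Real.rpow_le_rpow (Real.rpow_nonneg h.T0.le _) h1 (by positivity)
  have h4 : (1 + 1 : ℝ) ^ (2 / k) ≤ 1 + 2 / k * 1 := by
    apply rpow_one_add_le_one_add_mul_self (by norm_num) (by positivity)
    rw [div_le_one k0]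
    exact h.hk.le
  norm_num at h4
  linarith

/-- the extra information on a sheet `F_2 ≥ π` -/
structure Sh (k A φ τ φ2 : ℝ) : Prop where
  hτ : 0 ≤ τ
  a2 : A + φ - τ + φ2 < Real.pi / 2
  f2 : Real.pi / k + 2 * τ ≤ φ2

theorem Sh.sum (hs : Sh k A φ τ φ2) : A + φ + τ + Real.pi / k < Real.pi / 2 := by
  linarith [hs.a2, hs.f2]

/-- `1 + sin (π/k) ≤ 2c + cos (A + φ)` -/
theorem den_ge (h : FsD k A φ τ η T P S w c) (hs : Sh k A φ τ φ2) (hc : 1 ≤ 2 * c) :
    1 + Real.sin (Real.pi / k) ≤ 2 * c + Real.cos (A + φ) := by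
  have hpi := Real.pi_pos
  have h1 := hs.sum
  have h2 : Real.sin (Real.pi / k) ≤ Real.cos (A + φ) := by
    rw [← Real.cos_pi_div_two_sub]
    apply Real.cos_le_cos_of_nonneg_of_le_pi
    · linarith [h.A0, h.φ0]
    · have : 0 < Real.pi / k := div_pos hpi h.k0
      linarith
    · linarith [hs.hτ]
  linarith

theorem β_mem (h : FsD k A φ τ η T P S w c) (hs : Sh k A φ τ φ2) :
    0 < φ - τ ∧ φ - τ < Real.pi / 2 - Real.pi / k ∧ 0 < Real.sin (φ - τ) ∧
      Real.sin (Real.pi / k) ≤ Real.cos (φ - τ) := by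
  have hpi := Real.pi_pos
  have h1 := hs.sum
  have h2 := h.τ_lt hs.hτ
  have h3 : 0 < Real.pi / k := div_pos hpi h.k0
  have hA := h.A0
  have hτ := hs.hτ
  refine ⟨by linarith, by linarith, ?_, ?_⟩
  · exact Real.sin_pos_of_pos_of_lt_pi (by linarith) (by linarith)
  · rw [← Real.cos_pi_div_two_sub]
    apply Real.cos_le_cos_of_nonneg_of_le_pi
    · linarith
    · linarith
    · linarith

/-- `P (2c + cos (A + φ)) ≤ (T-1)^+ + s sin τ` -/
theorem P_bd (h : FsD k A φ τ η T P S w c) (hs : Sh k A φ τ φ2) :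
    P * (2 * c + Real.cos (A + φ)) ≤
      max (T - 1) 0 + (T + 1) * Real.sin (φ - τ) * Real.sin τ := by
  have hpi := Real.pi_pos
  obtain ⟨b1, b2, b3, b4⟩ := h.β_mem hs
  have hτ := hs.hτ
  have h1 := h.Ea
  have h2 := h.cw
  have h3 := abs_lt.1 h.τ4
  have hA := h.A0
  have hA1 := h.A1
  have hT := h.T0
  have hkpi : 0 < Real.pi / k := div_pos hpi h.k0
  have cβ : 0 ≤ Real.cos (φ - τ) := Real.cos_nonneg_of_mem_Icc ⟨by linarith, by linarith⟩
  have cβ1 := Real.cos_le_one (φ - τ)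
  have cδ : 0 ≤ Real.cos (A - τ) := Real.cos_nonneg_of_mem_Icc ⟨by linarith, by linarith⟩
  have cδ1 := Real.cos_le_one (A - τ)
  have e1 : (T - 1) * Real.cos (φ - τ) * Real.cos (A - τ) ≤ max (T - 1) 0 := by
    have h5 : 0 ≤ Real.cos (φ - τ) * Real.cos (A - τ) := mul_nonneg cβ cδ
    have h6 : Real.cos (φ - τ) * Real.cos (A - τ) ≤ 1 := by nlinarith
    have h7 := le_max_left (T - 1) 0
    have h8 := le_max_right (T - 1) 0
    calc (T - 1) * Real.cos (φ - τ) * Real.cos (A - τ) =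
          (T - 1) * (Real.cos (φ - τ) * Real.cos (A - τ)) := by ring
      _ ≤ max (T - 1) 0 * (Real.cos (φ - τ) * Real.cos (A - τ)) :=
          mul_le_mul_of_nonneg_right h7 h5
      _ ≤ max (T - 1) 0 * 1 := mul_le_mul_of_nonneg_left h6 h8
      _ = _ := by ring
  have e2 : -Real.sin (A - τ) ≤ Real.sin τ := by
    rw [← Real.sin_neg]
    apply Real.sin_le_sin_of_le_of_le_pi_div_two <;> linarith
  have e3 : (T + 1) * Real.sin (φ - τ) * -Real.sin (A - τ) ≤
      (T + 1) * Real.sin (φ - τ) * Real.sin τ :=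
    mul_le_mul_of_nonneg_left e2 (by positivity)
  linarith

/-- `1 - T ≤ M (1 - cos τ) / (2 sin (π/k))` -/
theorem T_ge (h : FsD k A φ τ η T P S w c) (hs : Sh k A φ τ φ2) {M : ℝ}
    (hM : 2 * Real.cos A ≤ M * c) :
    (1 - T) * Real.sin (Real.pi / k) ≤ M / 2 * (1 - Real.cos τ) := by
  have hpi := Real.pi_pos
  obtain ⟨b1, b2, b3, b4⟩ := h.β_mem hs
  have hτ := hs.hτ
  have h1 := h.Ec
  have h3 := abs_lt.1 h.τ4
  have hA := h.A0
  have hA1 := h.A1
  have hT := h.T0
  have hc := h.c0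
  have hcA := h.cosA
  have hM0 : 0 < M := by
    by_contra hcon
    push Not at hcon
    nlinarith
  have hsum := hs.sum
  have hkpi : 0 < Real.pi / k := div_pos hpi h.k0
  have hsk : 0 < Real.sin (Real.pi / k) :=
    Real.sin_pos_of_pos_of_lt_pi hkpi (by linarith [h.φ0])
  rcases le_or_gt 1 T with hT1 | hT1
  · have : (1 - T) * Real.sin (Real.pi / k) ≤ 0 :=
      mul_nonpos_of_nonpos_of_nonneg (by linarith) hsk.le
    have : 0 ≤ M / 2 * (1 - Real.cos τ) :=
      mul_nonneg (by linarith) (by linarith [Real.cos_le_one τ])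
    linarith
  have cβ : 0 ≤ Real.cos (φ - τ) := Real.cos_nonneg_of_mem_Icc ⟨by linarith, by linarith⟩
  have cδ : 0 ≤ Real.cos (A - τ) := Real.cos_nonneg_of_mem_Icc ⟨by linarith, by linarith⟩
  have cφ : 0 ≤ Real.cos (φ + τ) := Real.cos_nonneg_of_mem_Icc ⟨by linarith, by linarith⟩
  have e1 : (1 - T) * Real.cos (φ - τ) ≤ S * Real.sin (τ - A) := by
    have e2 : Real.sin (τ - A) = -Real.sin (A - τ) := by
      rw [← Real.sin_neg]; congr 1; ring
    rw [e2]
    have := mul_nonneg h.w0.le cδ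
    have := mul_nonneg h.P0.le cφ
    linarith
  have e3 : 0 ≤ Real.sin (τ - A) := by
    have : 0 ≤ (1 - T) * Real.cos (φ - τ) := mul_nonneg (by linarith) cβ
    have h5 : 0 ≤ S * Real.sin (τ - A) := by linarith
    exact nonneg_of_mul_nonneg_right h5 h.S0
  have e4 : S ≤ M * Real.sin A := by
    have h5 := h.cS
    rw [Real.sin_two_mul] at h5
    have h6 : c * S ≤ c * (M * Real.sin A) := by
      calc c * S ≤ 2 * Real.sin A * Real.cos A := h5
        _ = 2 * Real.cos A * Real.sin A := by ring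
        _ ≤ M * c * Real.sin A := mul_le_mul_of_nonneg_right hM h.sinA.le
        _ = _ := by ring
    exact le_of_mul_le_mul_left h6 hc
  have e5 : Real.sin A * Real.sin (τ - A) ≤ (1 - Real.cos τ) / 2 := by
    have h5 : Real.cos (A - (τ - A)) - Real.cos (A + (τ - A)) =
        2 * (Real.sin A * Real.sin (τ - A)) := by
      rw [Real.cos_sub, Real.cos_add]; ring
    have h6 : A + (τ - A) = τ := by ring
    rw [h6] at h5
    have := Real.cos_le_one (A - (τ - A))
    linarith
  calc (1 - T) * Real.sin (Real.pi / k) ≤ (1 - T) * Real.cos (φ - τ) :=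
        mul_le_mul_of_nonneg_left b4 (by linarith)
    _ ≤ S * Real.sin (τ - A) := e1
    _ ≤ M * Real.sin A * Real.sin (τ - A) := mul_le_mul_of_nonneg_right e4 e3
    _ = M * (Real.sin A * Real.sin (τ - A)) := by ring
    _ ≤ M * ((1 - Real.cos τ) / 2) := mul_le_mul_of_nonneg_left e5 hM0.le
    _ = _ := by ring

/-- `cos (A + π/k) ≤ cos A cos (π/k)` -/
theorem σ_le (h : FsD k A φ τ η T P S w c) (hs : Sh k A φ τ φ2) :
    Real.sin (φ + τ) ≤ Real.cos A * Real.cos (Real.pi / k) ∧ 0 < Real.sin (φ + τ) := by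
  have hpi := Real.pi_pos
  have hsum := hs.sum
  have hτ := hs.hτ
  have hA := h.A0
  have hφ := h.φ0
  have hkpi : 0 < Real.pi / k := div_pos hpi h.k0
  have hsk : 0 < Real.sin (Real.pi / k) :=
    Real.sin_pos_of_pos_of_lt_pi hkpi (by linarith [h.φ0])
  constructor
  · have e1 : Real.sin (φ + τ) ≤ Real.cos (A + Real.pi / k) := by
      rw [← Real.sin_pi_div_two_sub]
      apply Real.sin_le_sin_of_le_of_le_pi_div_two <;> linarith
    rw [Real.cos_add] at e1
    have := mul_pos h.sinA hsk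
    linarith
  · exact Real.sin_pos_of_pos_of_lt_pi (by linarith) (by linarith)

/-- `κ ≤ tan (κ π) ^ 2`: `(1 + κ) cos² (κπ) ≤ 1` -/
theorem kap_cos {k : ℝ} (hk : 2 < k) (hk8 : k ≤ 9) :
    (2 + 2 / k) * Real.cos (Real.pi / k) ^ 2 ≤ 2 := by
  have hpi := Real.pi_pos
  have hpi3 := Real.pi_gt_three
  have k0 : 0 < k := by linarith
  set x := Real.pi / k with hx
  have hx0 : 0 < x := div_pos hpi k0
  have hx2 : x < Real.pi / 2 := div_lt_div_of_pos_left hpi (by norm_num) hk
  have hc : 0 < Real.cos x := Real.cos_pos_of_mem_Ioo ⟨by linarith, hx2⟩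
  have ht : x < Real.tan x := Real.lt_tan hx0 hx2
  have ht2 : Real.tan x ^ 2 * Real.cos x ^ 2 = Real.sin x ^ 2 := by
    rw [← mul_pow, Real.tan_mul_cos hc.ne']
  have hs := Real.sin_sq_add_cos_sq x
  -- `1/k ≤ x^2`
  have h1 : 1 / k ≤ x ^ 2 := by
    rw [hx, div_pow, div_le_div_iff₀ k0 (by positivity)]
    have e1 : 9 ≤ Real.pi ^ 2 := by nlinarith
    have e2 : 9 * k ≤ Real.pi ^ 2 * k := mul_le_mul_of_nonneg_right e1 k0.le
    have e3 : k * k ≤ 9 * k := mul_le_mul_of_nonneg_right hk8 k0.le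
    nlinarith
  have h2 : x ^ 2 ≤ Real.tan x ^ 2 := pow_le_pow_left₀ hx0.le ht.le 2
  have h3 : 1 / k * Real.cos x ^ 2 ≤ Real.sin x ^ 2 := by
    rw [← ht2]
    exact mul_le_mul_of_nonneg_right (h1.trans h2) (by positivity)
  have h4 : 2 / k = 2 * (1 / k) := by ring
  rw [h4]
  linarith

/-- `s² ≤ M ((T-1)^+ + s sin τ)` for `A ≥ τ` -/
theorem s_sq_pos (h : FsD k A φ τ η T P S w c) (hs : Sh k A φ τ φ2) (hk9 : k ≤ 9) {M : ℝ}
    (hM : 2 * Real.cos A ≤ M * c) (hδ : τ ≤ A) :
    ((T + 1) * Real.sin (φ - τ)) ^ 2 ≤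
      M * (max (T - 1) 0 + (T + 1) * Real.sin (φ - τ) * Real.sin τ) := by
  have hpi := Real.pi_pos
  obtain ⟨b1, b2, b3, b4⟩ := h.β_mem hs
  have hτ := hs.hτ
  have h3 := abs_lt.1 h.τ4
  have hA := h.A0
  have hA1 := h.A1
  have hT := h.T0
  have hc := h.c0
  have hcA := h.cosA
  have hS := h.S0
  have hw := h.w0
  have hP := h.P0
  have hφ := h.φ0
  have hsum := hs.sum
  have hkpi : 0 < Real.pi / k := div_pos hpi h.k0
  have hM0 : 0 < M := by
    by_contra hcon
    push Not at hcon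
    nlinarith
  obtain ⟨σ1, σ2⟩ := h.σ_le hs
  have cβ : 0 ≤ Real.cos (φ - τ) := Real.cos_nonneg_of_mem_Icc ⟨by linarith, by linarith⟩
  have cβ1 := Real.cos_le_one (φ - τ)
  have cδ : 0 ≤ Real.cos (A - τ) := Real.cos_nonneg_of_mem_Icc ⟨by linarith, by linarith⟩
  have cδ1 := Real.cos_le_one (A - τ)
  have sδ : 0 ≤ Real.sin (A - τ) := Real.sin_nonneg_of_nonneg_of_le_pi (by linarith) (by linarith)
  have sτ : 0 ≤ Real.sin τ := Real.sin_nonneg_of_nonneg_of_le_pi hτ (by linarith)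
  have cτ : 0 ≤ Real.cos τ := Real.cos_nonneg_of_mem_Icc ⟨by linarith, by linarith⟩
  have cτ1 := Real.cos_le_one τ
  have cφ : 0 ≤ Real.cos φ := Real.cos_nonneg_of_mem_Icc ⟨by linarith, by linarith⟩
  have hEs := h.Es
  have hKQ := h.KQ
  set s := (T + 1) * Real.sin (φ - τ) with hsdef
  have hs0 : 0 < s := by rw [hsdef]; positivity
  set σ := Real.sin (φ + τ) with hσ
  -- `X` = the bracket of KQ
  set X := Real.cos τ * ((T - 1) * Real.cos (φ - τ) - w * Real.cos (A - τ) -
    P * Real.cos (φ + τ)) + S * Real.cos (A - τ) * Real.sin τ with hX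
  have hX1 : X = (T - 1) * Real.cos (φ - τ) * Real.cos τ + s * Real.sin τ - w * Real.cos A -
      P * Real.cos φ := by
    have e1 : S * Real.cos (A - τ) = s + w * Real.sin (A - τ) - P * σ := by linarith
    have e2 : Real.cos A = Real.cos (A - τ) * Real.cos τ - Real.sin (A - τ) * Real.sin τ := by
      rw [← Real.cos_add]; congr 1; ring
    have e3 : Real.cos φ = Real.cos (φ + τ) * Real.cos τ + σ * Real.sin τ := by
      rw [hσ, ← Real.cos_sub]; congr 1; ring
    rw [hX, e1, e2, e3]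
    ring
  -- `S² ≤ M X`
  have hSX : S ^ 2 ≤ M * X := by
    have h5 : 0 ≤ X := by
      have h6 : 0 ≤ 2 * Real.cos A * X := le_trans (by positivity) hKQ
      exact nonneg_of_mul_nonneg_right h6 (by positivity)
    have h6 : c * S ^ 2 ≤ c * (M * X) := by
      calc c * S ^ 2 ≤ 2 * Real.cos A * X := hKQ
        _ ≤ M * c * X := mul_le_mul_of_nonneg_right hM h5
        _ = _ := by ring
    exact le_of_mul_le_mul_left h6 hc
  -- `s ≤ S + P σ`
  have hsS : s - P * σ ≤ S := by
    have e1 : 0 ≤ w * Real.sin (A - τ) := mul_nonneg hw.le sδ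
    have e2 : S * Real.cos (A - τ) ≤ S * 1 := mul_le_mul_of_nonneg_left cδ1 hS.le
    linarith
  have h7 : s ^ 2 - 2 * s * (P * σ) ≤ S ^ 2 := by
    have hPσ : 0 ≤ P * σ := by positivity
    rcases le_or_gt (P * σ) s with h8 | h8
    · have : (s - P * σ) ^ 2 ≤ S ^ 2 := pow_le_pow_left₀ (by linarith) hsS 2
      nlinarith
    · have : s ^ 2 ≤ s * (P * σ) := by nlinarith
      have : 0 ≤ s * (P * σ) := by positivity
      nlinarith [sq_nonneg S]
  -- `2 s σ ≤ M (2 c cos A) + ...`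
  have h9 : 2 * s * (P * σ) ≤ M * (w * Real.cos A + P * Real.cos φ) := by
    have e1 : s * σ ≤ 2 * Real.cos A ^ 2 := by
      have e2 : Real.sin (φ - τ) ≤ σ := by
        rw [hσ]
        apply Real.sin_le_sin_of_le_of_le_pi_div_two <;> linarith
      have e3 : Real.sin (φ - τ) * σ ≤ (Real.cos A * Real.cos (Real.pi / k)) ^ 2 := by
        calc Real.sin (φ - τ) * σ ≤ σ * σ := mul_le_mul_of_nonneg_right e2 σ2.le
          _ = σ ^ 2 := by ring
          _ ≤ _ := pow_le_pow_left₀ σ2.le σ1 2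
      have e4 := h.T_le
      have e5 := kap_cos h.hk hk9
      calc s * σ = (T + 1) * (Real.sin (φ - τ) * σ) := by rw [hsdef]; ring
        _ ≤ (T + 1) * (Real.cos A * Real.cos (Real.pi / k)) ^ 2 :=
            mul_le_mul_of_nonneg_left e3 (by linarith)
        _ ≤ (2 + 2 / k) * (Real.cos A * Real.cos (Real.pi / k)) ^ 2 :=
            mul_le_mul_of_nonneg_right (by linarith) (by positivity)
        _ = (2 + 2 / k) * Real.cos (Real.pi / k) ^ 2 * Real.cos A ^ 2 := by ring
        _ ≤ 2 * Real.cos A ^ 2 := mul_le_mul_of_nonneg_right e5 (by positivity)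
    have e6 : 4 * P * Real.cos A ^ 2 ≤ M * (w * Real.cos A) := by
      calc 4 * P * Real.cos A ^ 2 = 2 * Real.cos A * (2 * P * Real.cos A) := by ring
        _ ≤ M * c * (2 * P * Real.cos A) :=
            mul_le_mul_of_nonneg_right hM (by positivity)
        _ = M * (2 * c * P * Real.cos A) := by ring
        _ ≤ M * (w * Real.cos A) :=
            mul_le_mul_of_nonneg_left (mul_le_mul_of_nonneg_right h.cw hcA.le) hM0.le
    have e7 : 0 ≤ M * (P * Real.cos φ) := by positivity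
    calc 2 * s * (P * σ) = 2 * P * (s * σ) := by ring
      _ ≤ 2 * P * (2 * Real.cos A ^ 2) := mul_le_mul_of_nonneg_left e1 (by positivity)
      _ = 4 * P * Real.cos A ^ 2 := by ring
      _ ≤ M * (w * Real.cos A) := e6
      _ ≤ _ := by rw [mul_add]; linarith
  have h10 : s ^ 2 ≤ M * ((T - 1) * Real.cos (φ - τ) * Real.cos τ + s * Real.sin τ) := by
    calc s ^ 2 = (s ^ 2 - 2 * s * (P * σ)) + 2 * s * (P * σ) := by ring
      _ ≤ S ^ 2 + M * (w * Real.cos A + P * Real.cos φ) := add_le_add h7 h9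
      _ ≤ M * X + M * (w * Real.cos A + P * Real.cos φ) := by linarith
      _ = _ := by rw [hX1]; ring
  refine le_trans h10 (mul_le_mul_of_nonneg_left ?_ hM0.le)
  have e1 : (T - 1) * Real.cos (φ - τ) * Real.cos τ ≤ max (T - 1) 0 := by
    have h5 : 0 ≤ Real.cos (φ - τ) * Real.cos τ := mul_nonneg cβ cτ
    have h6 : Real.cos (φ - τ) * Real.cos τ ≤ 1 := by nlinarith
    have h7 := le_max_left (T - 1) 0
    have h8 := le_max_right (T - 1) 0
    calc (T - 1) * Real.cos (φ - τ) * Real.cos τ =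
          (T - 1) * (Real.cos (φ - τ) * Real.cos τ) := by ring
      _ ≤ max (T - 1) 0 * (Real.cos (φ - τ) * Real.cos τ) :=
          mul_le_mul_of_nonneg_right h7 h5
      _ ≤ max (T - 1) 0 * 1 := mul_le_mul_of_nonneg_left h6 h8
      _ = _ := by ring
  linarith

/-- the case `A < τ` -/
theorem s_sq_neg (h : FsD k A φ τ η T P S w c) (hs : Sh k A φ τ φ2) (hc2 : 1 ≤ 2 * c) {M : ℝ}
    (hM : 2 * Real.cos A ≤ M * c) (hδ : A < τ) (hsM : (T + 1) * Real.sin (φ - τ) ≤ M) :
    ((T + 1) * Real.sin (φ - τ)) ^ 2 ≤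
      M * (max (T - 1) 0 + (T + 1) * Real.sin (φ - τ) * Real.sin τ) := by
  have hpi := Real.pi_pos
  obtain ⟨b1, b2, b3, b4⟩ := h.β_mem hs
  have hτ := hs.hτ
  have h3 := abs_lt.1 h.τ4
  have hτ2 : τ < Real.pi / k / 2 := by
    have h1 := h.τ2
    rw [abs_mul, abs_of_pos h.k0, abs_of_nonneg hτ] at h1
    rw [lt_div_iff₀ (by norm_num : (0:ℝ) < 2), lt_div_iff₀ h.k0]
    linarith
  have hA := h.A0
  have hA1 := h.A1
  have hT := h.T0
  have hc := h.c0
  have hcA := h.cosA
  have hφ := h.φ0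
  have hsum := hs.sum
  have hkpi : 0 < Real.pi / k := div_pos hpi h.k0
  have hM0 : 0 < M := by
    by_contra hcon
    push Not at hcon
    nlinarith
  set ω := (A + φ) / 2 with hω
  set μ := τ + (φ - A) / 2 with hμ
  have hω0 : 0 < ω := by rw [hω]; linarith
  have hω4 : ω < Real.pi / 4 := by rw [hω]; linarith
  have hμ0 : 0 < μ := by rw [hμ]; linarith
  have hμ4 : μ < Real.pi / 4 := by rw [hμ]; linarith
  have hb := h.rotb (ω := ω) hω0.le (by linarith) (by
    have e1 : A + φ - ω = ω := by rw [hω]; ring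
    rw [e1]
    have : 0 ≤ Real.sin ω := Real.sin_nonneg_of_nonneg_of_le_pi hω0.le (by linarith)
    nlinarith)
  have e1 : A + φ - 2 * τ - ω = (φ - τ) - μ := by rw [hω, hμ]; ring
  have e2 : φ + ω - A = (φ - τ) + μ := by rw [hω, hμ]; ring
  rw [e1, e2, Real.sin_sub (φ - τ) μ, Real.sin_add (φ - τ) μ, Real.sin_two_mul] at hb
  set s := (T + 1) * Real.sin (φ - τ) with hsdef
  have hs0 : 0 < s := by rw [hsdef]; positivity
  have cβ : 0 ≤ Real.cos (φ - τ) := Real.cos_nonneg_of_mem_Icc ⟨by linarith, by linarith⟩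
  have cβ1 := Real.cos_le_one (φ - τ)
  have cω : 0 < Real.cos ω := Real.cos_pos_of_mem_Ioo ⟨by linarith, by linarith⟩
  have cμ : 0 < Real.cos μ := Real.cos_pos_of_mem_Ioo ⟨by linarith, by linarith⟩
  have sμ : 0 < Real.sin μ := Real.sin_pos_of_pos_of_lt_pi hμ0 (by linarith)
  have h7 := le_max_left (T - 1) 0
  have h8 := le_max_right (T - 1) 0
  set E := max (T - 1) 0 with hE
  -- `c (s cos μ) ≤ c (M sin A cos ω + E sin μ)`
  have h5 : s * Real.cos μ ≤ M * (Real.sin A * Real.cos ω) + E * Real.sin μ := by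
    have h6 : c * (s * Real.cos μ) ≤ c * (M * (Real.sin A * Real.cos ω) + E * Real.sin μ) := by
      have e3 : c * (s * Real.cos μ) = c * (T * (Real.sin (φ - τ) * Real.cos μ -
          Real.cos (φ - τ) * Real.sin μ) + (Real.sin (φ - τ) * Real.cos μ +
          Real.cos (φ - τ) * Real.sin μ)) + c * ((T - 1) * Real.cos (φ - τ) * Real.sin μ) := by
        rw [hsdef]; ring
      have e4 : (T - 1) * Real.cos (φ - τ) ≤ E := by
        calc (T - 1) * Real.cos (φ - τ) ≤ E * Real.cos (φ - τ) :=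
              mul_le_mul_of_nonneg_right h7 cβ
          _ ≤ E * 1 := mul_le_mul_of_nonneg_left cβ1 h8
          _ = E := mul_one _
      have e5 : c * ((T - 1) * Real.cos (φ - τ) * Real.sin μ) ≤ c * (E * Real.sin μ) :=
        mul_le_mul_of_nonneg_left (mul_le_mul_of_nonneg_right e4 sμ.le) hc.le
      have e6 : 2 * Real.sin A * Real.cos A * Real.cos ω ≤
          c * (M * (Real.sin A * Real.cos ω)) := by
        calc 2 * Real.sin A * Real.cos A * Real.cos ω =
              2 * Real.cos A * (Real.sin A * Real.cos ω) := by ring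
          _ ≤ M * c * (Real.sin A * Real.cos ω) :=
              mul_le_mul_of_nonneg_right hM (mul_pos h.sinA cω).le
          _ = _ := by ring
      rw [e3, mul_add c (M * _)]
      linarith
    exact le_of_mul_le_mul_left h6 hc
  -- `sin A cos ω ≤ sin τ cos μ`
  have h9 : Real.sin A * Real.cos ω ≤ Real.sin τ * Real.cos μ := by
    have e3 : Real.sin A * Real.cos ω = (Real.sin (A + ω) + Real.sin (A - ω)) / 2 := by
      rw [Real.sin_add, Real.sin_sub]; ring
    have e4 : Real.sin τ * Real.cos μ = (Real.sin (τ + μ) + Real.sin (τ - μ)) / 2 := by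
      rw [Real.sin_add, Real.sin_sub]; ring
    have e5 : τ - μ = A - ω := by rw [hω, hμ]; ring
    have e6 : Real.sin (A + ω) ≤ Real.sin (τ + μ) := by
      apply Real.sin_le_sin_of_le_of_le_pi_div_two
      · linarith
      · rw [hμ]; linarith
      · rw [hω, hμ]; linarith
    rw [e3, e4, e5]
    linarith
  -- `sin μ ≤ cos μ`
  have h10 : Real.sin μ ≤ Real.cos μ := by
    rw [← Real.sin_pi_div_two_sub]
    apply Real.sin_le_sin_of_le_of_le_pi_div_two <;> linarith
  have h11 : s ≤ M * Real.sin τ + E := by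
    have e3 : s * Real.cos μ ≤ (M * Real.sin τ + E) * Real.cos μ := by
      calc s * Real.cos μ ≤ M * (Real.sin A * Real.cos ω) + E * Real.sin μ := h5
        _ ≤ M * (Real.sin τ * Real.cos μ) + E * Real.cos μ :=
            add_le_add (mul_le_mul_of_nonneg_left h9 hM0.le)
              (mul_le_mul_of_nonneg_left h10 h8)
        _ = _ := by ring
    exact le_of_mul_le_mul_right e3 cμ
  calc s ^ 2 = s * s := by ring
    _ ≤ (M * Real.sin τ + E) * s := mul_le_mul_of_nonneg_right h11 hs0.le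
    _ = M * (s * Real.sin τ) + E * s := by ring
    _ ≤ M * (s * Real.sin τ) + E * M := by
        have := mul_le_mul_of_nonneg_left hsM h8
        linarith
    _ = _ := by ring

end FsD

end EQS
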