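import Mathlib

set_option autoImplicit false

namespace Pool.Agent.MP226de1.DNX

open Real

/-- `cos` is log-concave, in weighted form. -/
lemma cos_geom (a d l : ℝ) (ha : 0 ≤ a) (hd : 0 ≤ d) (had : a + d ≤ π / 2)
    (h0 : 0 ≤ l) (h1 : l ≤ 1) :
    cos a ^ (1 - l) * cos (a + d) ^ l ≤ cos (a + l * d) := by
  have hpi := Real.pi_pos
  have hc := strictConcaveOn_cos_Icc.concaveOn
  have m1 : a ∈ Set.Icc (-(π / 2)) (π / 2) := ⟨by linarith, by linarith⟩
  have m2 : a + d ∈ Set.Icc (-(π / 2)) (π / 2) := ⟨by linarith, by linarith⟩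
  have hl : (0 : ℝ) ≤ 1 - l := by linarith
  have hsum : (1 - l) + l = 1 := by ring
  have h := hc.2 m1 m2 hl h0 hsum
  have e : (1 - l) • a + l • (a + d) = a + l * d := by simp [smul_eq_mul]; ring
  rw [e] at h
  refine le_trans ?_ h
  simp only [smul_eq_mul]
  exact Real.geom_mean_le_arith_mean2_weighted (by linarith) h0
    (Real.cos_nonneg_of_neg_pi_div_two_le_of_le (by linarith) (by linarith))
    (Real.cos_nonneg_of_neg_pi_div_two_le_of_le (by linarith) (by linarith)) (by ring)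

/-- (X1) lower bound of `Re D_0 / |D_1|` by `sqrt (cos (2A) / 2)`. -/
theorem X1 (l s A : ℝ) (h0 : 0 ≤ l) (h1 : l ≤ 1) (hs0 : 0 < s) (hs : s ≤ π)
    (hA0 : 0 ≤ A) (hA : A ≤ π / 4) :
    sqrt (cos (2 * A) / 2) ≤ (2 * sin (s / 2)) ^ (-(l / 2)) * cos (A + l * ((π - s) / 4)) := by
  have hpi := Real.pi_pos
  have hsin : 0 < sin (s / 2) := Real.sin_pos_of_pos_of_lt_pi (by linarith) (by linarith)
  have hw : 0 < 2 * sin (s / 2) := by linarith
  have hc2 : 0 ≤ cos (2 * A) :=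
    Real.cos_nonneg_of_neg_pi_div_two_le_of_le (by linarith) (by linarith)
  have hcA : 0 ≤ cos A := Real.cos_nonneg_of_neg_pi_div_two_le_of_le (by linarith) (by linarith)
  have hcd : 0 ≤ cos (A + (π - s) / 4) :=
    Real.cos_nonneg_of_neg_pi_div_two_le_of_le (by linarith) (by linarith)
  have hg := cos_geom A ((π - s) / 4) l hA0 (by linarith) (by linarith) h0 h1
  set c := sqrt (cos (2 * A) / 2) with hcdef
  have hc : 0 ≤ c := Real.sqrt_nonneg _
  -- the two ends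
  have e0 : c ≤ cos A := by
    rw [hcdef]
    apply Real.sqrt_le_iff.2
    refine ⟨hcA, ?_⟩
    have : cos (2 * A) = 2 * cos A ^ 2 - 1 := Real.cos_two_mul A
    nlinarith
  have e1 : c ≤ (2 * sin (s / 2)) ^ (-(1 / 2 : ℝ)) * cos (A + (π - s) / 4) := by
    rw [hcdef]
    apply Real.sqrt_le_iff.2
    refine ⟨mul_nonneg (Real.rpow_nonneg hw.le _) hcd, ?_⟩
    have hr : ((2 * sin (s / 2)) ^ (-(1 / 2 : ℝ))) ^ 2 = (2 * sin (s / 2))⁻¹ := by
      rw [← Real.rpow_natCast, ← Real.rpow_mul hw.le]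
      norm_num
      rw [Real.rpow_neg_one]
      ring
    rw [mul_pow, hr]
    have h2 : cos (A + (π - s) / 4) ^ 2 = (1 + sin (s / 2 - 2 * A)) / 2 := by
      have h3 := Real.cos_sq (A + (π - s) / 4)
      have h4 : 2 * (A + (π - s) / 4) = π / 2 - (s / 2 - 2 * A) := by ring
      rw [h3, h4, Real.cos_pi_div_two_sub]
      ring
    rw [h2, inv_mul_eq_div, le_div_iff₀ hw]
    have h5 := Real.sin_le_one (s / 2 + 2 * A)
    rw [Real.sin_add] at h5
    rw [Real.sin_sub]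
    nlinarith
  have key : c ≤ cos A ^ (1 - l) *
      ((2 * sin (s / 2)) ^ (-(1 / 2 : ℝ)) * cos (A + (π - s) / 4)) ^ l := by
    rcases hc.eq_or_lt with hz | hp
    · rw [← hz]
      exact mul_nonneg (Real.rpow_nonneg hcA _)
        (Real.rpow_nonneg (mul_nonneg (Real.rpow_nonneg hw.le _) hcd) _)
    · calc c = c ^ (1 - l) * c ^ l := by
            rw [← Real.rpow_add hp]; simp
        _ ≤ _ := mul_le_mul (Real.rpow_le_rpow hc e0 (by linarith))
            (Real.rpow_le_rpow hc e1 h0) (Real.rpow_nonneg hc _) (Real.rpow_nonneg hcA _)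
  refine key.trans ?_
  rw [Real.mul_rpow (Real.rpow_nonneg hw.le _) hcd, ← Real.rpow_mul hw.le]
  have e : -(1 / 2 : ℝ) * l = -(l / 2) := by ring
  rw [e]
  calc cos A ^ (1 - l) * ((2 * sin (s / 2)) ^ (-(l / 2)) * cos (A + (π - s) / 4) ^ l)
      = (2 * sin (s / 2)) ^ (-(l / 2)) * (cos A ^ (1 - l) * cos (A + (π - s) / 4) ^ l) := by ring
    _ ≤ _ := mul_le_mul_of_nonneg_left hg (Real.rpow_nonneg hw.le _)

end Pool.Agent.MP226de1.DNX
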