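import Mathlib
import Pool.Agent.Lib.MP_226de1_co.E.DNeg
import Pool.Agent.Lib.MP_226de1_co.E.DSt

/-! Unit disc exit, first step, case `F_1 < 0`: the bound `m ^ 2 ≤ Y ^ 2` for
`m = |D_{-2}| / |i - q_{-2}|`. -/

set_option autoImplicit false

namespace EQS

open Complex

/-- `(1 + 2 u' + n) (1 + 2 u) ≥ 1` -/
theorem prod_ge_one {u u' n : ℝ} (h1 : 0 ≤ u + u') (h2 : u' < 0 → 4 * u' ^ 2 ≤ n)
    (hu : 0 ≤ u' → 0 ≤ u) (hn : 0 ≤ n) : 1 ≤ (1 + 2 * u' + n) * (1 + 2 * u) := by
  rcases lt_or_ge u' 0 with h | h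
  · have h3 := h2 h
    have h4 : 0 ≤ 1 + 2 * u' + n := by
      have := sq_nonneg (1 + 2 * u')
      have := sq_nonneg (1 + u')
      nlinarith
    have h5 : (1 + 2 * u' + n) * (1 - 2 * u') ≤ (1 + 2 * u' + n) * (1 + 2 * u) :=
      mul_le_mul_of_nonneg_left (by linarith) h4
    have h6 : 0 ≤ n * (-u') := mul_nonneg hn (by linarith)
    have e : (1 + 2 * u' + n) * (1 - 2 * u') = 1 + (n - 4 * u' ^ 2) + 2 * (n * (-u')) := by ring
    linarith
  · have h3 := hu h
    have h4 : 0 ≤ (2 * u' + n) * (1 + 2 * u) := mul_nonneg (by linarith) (by linarith)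
    have e : (1 + 2 * u' + n) * (1 + 2 * u) = 1 + 2 * u + (2 * u' + n) * (1 + 2 * u) := by ring
    linarith

variable {k C : ℝ} {q0 q1 q2 q3 d0 d1 d2 X1 X2 X3 : ℂ}

/-- `a cos A > (1 - v) sin A` -/
theorem St.cosA_pos (h : St k C q0 q1 q2 q3 d0 d1 d2 X1 X2 X3) :
    0 < -q1.re * Real.cos X1.im + (1 - q1.im) * Real.sin X1.im := by
  have hpi := Real.pi_pos
  have a1 := h.a1
  have hq1 := h.q1neg
  have hi1 := h.i1
  have hcos : 0 < Real.cos X1.im := Real.cos_pos_of_mem_Ioo ⟨a1.1, by linarith⟩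
  have hsin : Real.sin X1.im < 0 := Real.sin_neg_of_neg_of_neg_pi_lt a1.2 (by linarith)
  -- `e^{X1} conj z = z' e^{-X1} |z|^2`
  have e1 : exp X1 * exp X1 = (I - q1) * (-I - q1) := by
    rw [← exp_add, show X1 + X1 = 2 * X1 by ring, h.x1]
    linear_combination (1 : ℂ) * I_sq
  have e2 : exp X1 * (starRingEnd ℂ) (I - q1) =
      ((‖I - q1‖ ^ 2 : ℝ) : ℂ) * ((-I - q1) * exp (-X1)) := by
    rw [← Complex.normSq_eq_norm_sq, ← Complex.mul_conj, exp_neg]
    have := exp_ne_zero X1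
    field_simp
    rw [pow_two, e1]
    ring
  have e3 := congrArg Complex.re e2
  have e4 : (exp X1 * (starRingEnd ℂ) (I - q1)).re =
      Real.exp X1.re * (-q1.re * Real.cos X1.im + (1 - q1.im) * Real.sin X1.im) := by
    rw [mul_re, conj_re, conj_im, exp_re, exp_im]
    simp only [sub_re, sub_im, I_re, I_im]
    ring
  have e5 : ((-I - q1) * exp (-X1)).re =
      Real.exp (-X1.re) * (-q1.re * Real.cos X1.im + (1 + q1.im) * (-Real.sin X1.im)) := by
    rw [mul_re, exp_re, exp_im, neg_re, neg_im, Real.cos_neg, Real.sin_neg]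
    simp only [sub_re, sub_im, neg_re, neg_im, I_re, I_im]
    ring
  rw [e4, re_ofReal_mul, e5] at e3
  have hzn : 0 < ‖I - q1‖ := by
    rw [norm_pos_iff]
    intro h0
    have := congrArg Complex.re h0
    simp at this
    linarith
  have h6 : 0 < -q1.re * Real.cos X1.im + (1 + q1.im) * (-Real.sin X1.im) := by
    have h7 := mul_pos (show 0 < -q1.re by linarith) hcos
    have h8 := mul_pos (show 0 < 1 + q1.im by linarith) (show 0 < -Real.sin X1.im by linarith)
    linarith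
  have h9 : 0 < Real.exp X1.re * (-q1.re * Real.cos X1.im + (1 - q1.im) * Real.sin X1.im) := by
    rw [e3]
    have := Real.exp_pos (-X1.re)
    positivity
  exact (pos_iff_pos_of_mul_pos h9).1 (Real.exp_pos _)

/-- (B) for `-π/6 ≤ F_1/k < 0`: `|D_{-1}|^2 ≤ (1 - T^{-2}) |i - q_{-2}|^2` -/
theorem St.negF_B (h : St k C q0 q1 q2 q3 d0 d1 d2 X1 X2 X3)
    (hF : (X1 - d1).im < 0) (hs : -(Real.pi / 6) ≤ (X1 - d1).im) :
    ‖exp d1‖ ^ 2 ≤ (1 - Real.exp (-(4 * (X2 - X1).re))) * ‖I - q2‖ ^ 2 := by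
  have hpi := Real.pi_pos
  have a1 := h.a1
  have hq1 := h.q1neg
  have hi1 := h.i1
  set D := exp d1 with hD
  have hD0 : D ≠ 0 := exp_ne_zero _
  set z : ℂ := I - q1 with hz
  set z' : ℂ := -I - q1 with hz'
  have hz0 : z ≠ 0 := by
    intro h0
    have := congrArg Complex.re h0
    simp [hz] at this
    linarith
  have hz'0 : z' ≠ 0 := by
    intro h0
    have := congrArg Complex.re h0
    simp [hz'] at this
    linarith
  set y : ℂ := D / z with hy
  set y' : ℂ := D / z' with hy'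
  have hzz : z * z' = 1 + q1 ^ 2 := by
    rw [hz, hz']
    linear_combination (-1 : ℂ) * I_sq
  have hq2z : I - q2 = z * (1 + y) := by
    rw [hy, mul_add, mul_one, mul_div_cancel₀ _ hz0, hz]
    linear_combination h.s1
  have hq2z' : -I - q2 = z' * (1 + y') := by
    rw [hy', mul_add, mul_one, mul_div_cancel₀ _ hz'0, hz']
    linear_combination h.s1
  have hzz2 : (I - q2) * (-I - q2) = 1 + q2 ^ 2 := by
    linear_combination (-1 : ℂ) * I_sq
  -- `Re (y + y') ≥ 0`
  have hsum : 0 ≤ y.re + y'.re := by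
    have e : y + y' = 2 * (q1 / (1 + q1 ^ 2) * (-exp d1)) := by
      rw [hy, hy', div_add_div _ _ hz0 hz'0, hzz, ← hD]
      rw [hz, hz']
      ring
    obtain ⟨ρ, hρ, e2⟩ := flow_polar d1 hq1 hi1
    have hg := gamma_mem hq1 hi1
    rw [← Xq_eq h.x1 h.a1] at hg e2
    have e3 := congrArg Complex.re e
    rw [e2, add_re] at e3
    have e4 : (2 * ((ρ : ℂ) * exp (((-((-(Complex.arg (-q1)) + X1.im) + (X1.im - d1.im)) : ℝ) : ℂ) *
        I))).re = 2 * (ρ * Real.cos ((-(Complex.arg (-q1)) + X1.im) + (X1.im - d1.im))) := by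
      rw [mul_re, re_ofNat, im_ofNat, zero_mul, sub_zero, re_ofReal_mul, exp_ofReal_mul_I_re,
        Real.cos_neg]
    rw [e4] at e3
    rw [e3]
    rw [sub_im] at hF hs
    have := Real.cos_nonneg_of_mem_Icc (x := (-(Complex.arg (-q1)) + X1.im) + (X1.im - d1.im))
      ⟨by linarith [hg.1], by linarith [hg.2]⟩
    positivity
  -- the argument of `y'`
  have hz'p : z' = ((‖z'‖ : ℝ) : ℂ) * exp (((Complex.arg z' : ℝ) : ℂ) * I) :=
    (Complex.norm_mul_exp_arg_mul_I z').symm
  have hz'n : 0 < ‖z'‖ := norm_pos_iff.2 hz'0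
  have hargz1 : Complex.arg z' < 0 := Complex.arg_neg_iff.2 (by simp [hz']; linarith)
  have hargz2 : -(Real.pi / 2) < Complex.arg z' := by
    have h3 : |Complex.arg z'| < Real.pi / 2 :=
      Complex.abs_arg_lt_pi_div_two_iff.2 (Or.inl (by simp [hz']; exact hq1))
    linarith [(abs_lt.1 h3).1]
  have hyp : y' = ((Real.exp d1.re / ‖z'‖ : ℝ) : ℂ) *
      exp (((d1.im - Complex.arg z' : ℝ) : ℂ) * I) := by
    rw [hy', div_eq_iff hz'0]
    have hn : ((‖z'‖ : ℝ) : ℂ) ≠ 0 := by exact_mod_cast hz'n.ne'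
    have e1 : ((Real.exp d1.re / ‖z'‖ : ℝ) : ℂ) * exp (((d1.im - Complex.arg z' : ℝ) : ℂ) * I) *
        (((‖z'‖ : ℝ) : ℂ) * exp (((Complex.arg z' : ℝ) : ℂ) * I)) =
        ((Real.exp d1.re : ℝ) : ℂ) * exp (((d1.im : ℝ) : ℂ) * I) := by
      have e2 : exp (((d1.im - Complex.arg z' : ℝ) : ℂ) * I) *
          exp (((Complex.arg z' : ℝ) : ℂ) * I) = exp (((d1.im : ℝ) : ℂ) * I) := by
        rw [← exp_add]
        congr 1
        push_cast
        ring
      rw [← e2]
      push_cast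
      field_simp
    rw [← hz'p] at e1
    rw [e1, hD, ofReal_exp, ← exp_add, re_add_im]
  have hθ1 : -(2 * Real.pi / 3) < d1.im - Complex.arg z' := by
    have : d1.im = X1.im - (X1 - d1).im := by simp
    linarith
  have hθ2 : d1.im - Complex.arg z' < 2 * Real.pi / 3 := by
    have : d1.im = X1.im - (X1 - d1).im := by simp
    linarith
  have hcos : -(1 / 2) ≤ Real.cos (d1.im - Complex.arg z') := by
    have e1 : Real.cos (2 * Real.pi / 3) = -(1 / 2) := by
      rw [show 2 * Real.pi / 3 = Real.pi - Real.pi / 3 by ring, Real.cos_pi_sub,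
        Real.cos_pi_div_three]
    rw [← e1, ← Real.cos_abs (d1.im - Complex.arg z')]
    exact Real.cos_le_cos_of_nonneg_of_le_pi (abs_nonneg _) (by linarith)
      (abs_le.2 ⟨by linarith, hθ2.le⟩)
  have hyre : y'.re = ‖y'‖ * Real.cos (d1.im - Complex.arg z') := by
    rw [hyp, re_ofReal_mul, exp_ofReal_mul_I_re, norm_mul, norm_exp_ofReal_mul_I, mul_one,
      Complex.norm_real, Real.norm_of_nonneg (by positivity)]
  have hkey : 1 ≤ ‖1 + y'‖ ^ 2 * (1 + 2 * y.re) := by
    have e1 : ‖1 + y'‖ ^ 2 = 1 + 2 * y'.re + ‖y'‖ ^ 2 := by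
      rw [← Complex.normSq_eq_norm_sq, ← Complex.normSq_eq_norm_sq, normSq_apply, normSq_apply]
      simp only [add_re, one_re, add_im, one_im]
      ring
    rw [e1]
    refine prod_ge_one hsum ?_ ?_ (by positivity)
    · intro hneg
      have h5 : -(1 / 2) * ‖y'‖ ≤ y'.re := by
        rw [hyre]
        have := mul_le_mul_of_nonneg_left hcos (norm_nonneg y')
        linarith
      have h6 : (-(2 * y'.re)) ^ 2 ≤ ‖y'‖ ^ 2 :=
        pow_le_pow_left₀ (by linarith) (by linarith) 2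
      linarith [show (-(2 * y'.re)) ^ 2 = 4 * y'.re ^ 2 by ring]
    · intro hnn
      -- `Re y ≥ 0`: `Re (conj z D) ≥ 0`
      by_contra hcon
      have hcon' := not_le.1 hcon
      -- `y.re = Re (D conj z) / |z|^2`, `y'.re = Re (D conj z') / |z'|^2`
      have e2 : ∀ w : ℂ, w ≠ 0 → (D / w).re * ‖w‖ ^ 2 = D.re * w.re + D.im * w.im := by
        intro w hw
        have e3 : D * (starRingEnd ℂ) w = (D / w) * ((‖w‖ ^ 2 : ℝ) : ℂ) := by
          rw [← Complex.normSq_eq_norm_sq, ← Complex.mul_conj]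
          field_simp
        have e4 := congrArg Complex.re e3
        rw [mul_comm (D / w), re_ofReal_mul, mul_re, conj_re, conj_im] at e4
        linarith
      have e3 := e2 z hz0
      have e4 := e2 z' hz'0
      rw [← hy] at e3
      rw [← hy'] at e4
      have hzn : 0 < ‖z‖ := norm_pos_iff.2 hz0
      have e5 : D.re * z.re + D.im * z.im < 0 := by
        rw [← e3]
        exact mul_neg_of_neg_of_pos hcon' (by positivity)
      have e6 : 0 ≤ D.re * z'.re + D.im * z'.im := by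
        rw [← e4]
        positivity
      have e7 : z.re = -q1.re := by simp [hz]
      have e8 : z'.re = -q1.re := by simp [hz']
      have e9 : z.im = 1 - q1.im := by simp [hz]
      have e10 : z'.im = -1 - q1.im := by simp [hz']
      rw [e7, e9] at e5
      rw [e8, e10] at e6
      -- then `D.im < 0` and `D.re (-q1.re) + D.im (1 - q1.im) < 0`
      have hDr := h.D1
      have h11 : D.im < 0 := by nlinarith
      have h12 : 0 < D.re * (-q1.re) := mul_pos hDr (by linarith)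
      have h13 : D.im * (1 - q1.im) < 0 := by linarith
      -- `1 - q1.im > 0`
      have h14 : 0 < 1 - q1.im := by
        by_contra hc
        have := mul_nonneg_of_nonpos_of_nonpos h11.le (not_lt.1 hc)
        linarith
      have h20 := h.cosA_pos
      have hDre : D.re = Real.exp d1.re * Real.cos d1.im := by rw [hD, exp_re]
      have hDim : D.im = Real.exp d1.re * Real.sin d1.im := by rw [hD, exp_im]
      have hdim : d1.im = X1.im - (X1 - d1).im := by simp
      have hd0 : d1.im < 0 := by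
        by_contra hc
        have := Real.sin_nonneg_of_nonneg_of_le_pi (not_lt.1 hc) (by rw [hdim]; linarith)
        rw [hDim] at h11
        have := mul_nonneg (Real.exp_pos d1.re).le this
        linarith
      have h21 : Real.cos X1.im ≤ Real.cos d1.im := by
        rw [← Real.cos_neg X1.im, ← Real.cos_neg d1.im]
        exact Real.cos_le_cos_of_nonneg_of_le_pi (by linarith) (by linarith)
          (by rw [hdim]; linarith)
      have h22 : Real.sin X1.im ≤ Real.sin d1.im :=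
        Real.sin_le_sin_of_le_of_le_pi_div_two (by linarith) (by linarith)
          (by rw [hdim]; linarith)
      have h23 : 0 < -q1.re * Real.cos d1.im + (1 - q1.im) * Real.sin d1.im := by
        have h24 := mul_le_mul_of_nonneg_left h21 (show 0 ≤ -q1.re by linarith)
        have h25 := mul_le_mul_of_nonneg_left h22 h14.le
        linarith
      have h26 := mul_pos (Real.exp_pos d1.re) h23
      rw [hDre, hDim] at e5
      linarith
  have h1y : 1 + y' ≠ 0 := by
    intro h0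
    rw [h0] at hkey
    simp at hkey
    linarith
  have hT : Real.exp (-(4 * (X2 - X1).re)) * (‖1 + y‖ ^ 2 * ‖1 + y'‖ ^ 2) = 1 := by
    have e1 : exp (2 * (X2 - X1)) = (1 + y) * (1 + y') := by
      have e2 : exp (2 * (X2 - X1)) * exp (2 * X1) = exp (2 * X2) := by
        rw [← exp_add]
        congr 1
        ring
      have e3 : exp (2 * X2) = ((1 + y) * (1 + y')) * exp (2 * X1) := by
        rw [h.x2, h.x1, ← hzz2, hq2z, hq2z', ← hzz]
        ring
      rw [e3] at e2
      exact mul_right_cancel₀ (exp_ne_zero _) e2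
    have e4 := congrArg norm e1
    rw [norm_mul, norm_exp] at e4
    have e5 : (2 * (X2 - X1)).re = 2 * (X2 - X1).re := by simp
    rw [e5] at e4
    rw [← mul_pow, ← e4, ← Real.exp_nat_mul, ← Real.exp_add]
    rw [show -(4 * (X2 - X1).re) + ((2 : ℕ) : ℝ) * (2 * (X2 - X1).re) = 0 by push_cast; ring,
      Real.exp_zero]
  have hzn : 0 < ‖z‖ := norm_pos_iff.2 hz0
  have hDn : ‖D‖ = ‖y‖ * ‖z‖ := by
    rw [hy, norm_div, div_mul_cancel₀ _ hzn.ne']
  have h1n : 0 < ‖1 + y'‖ ^ 2 := by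
    have := norm_pos_iff.2 h1y
    positivity
  have h1ysq : ‖1 + y‖ ^ 2 = 1 + 2 * y.re + ‖y‖ ^ 2 := by
    rw [← Complex.normSq_eq_norm_sq, ← Complex.normSq_eq_norm_sq, normSq_apply, normSq_apply]
    simp only [add_re, one_re, add_im, one_im]
    ring
  set E : ℝ := Real.exp (-(4 * (X2 - X1).re)) with hE
  -- `E ‖1 + y‖^2 ≤ 1 + 2 Re y`
  have hEy : E * ‖1 + y‖ ^ 2 ≤ 1 + 2 * y.re := by
    have h30 : (E * ‖1 + y‖ ^ 2) * ‖1 + y'‖ ^ 2 ≤ (1 + 2 * y.re) * ‖1 + y'‖ ^ 2 := by
      linarith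
    exact le_of_mul_le_mul_right h30 h1n
  rw [hDn, hq2z, norm_mul, mul_pow, mul_pow]
  have h31 : ‖y‖ ^ 2 ≤ (1 - E) * ‖1 + y‖ ^ 2 := by linarith
  have h32 := mul_le_mul_of_nonneg_right h31 (show 0 ≤ ‖z‖ ^ 2 by positivity)
  linarith

/-- the bound of `m` for `F_1 < 0`, exact form -/
theorem St.negF_M' (h : St k C q0 q1 q2 q3 d0 d1 d2 X1 X2 X3)
    (hF : (X1 - d1).im < 0) (hs : -(Real.pi / 6) ≤ (X1 - d1).im) :
    (‖exp d2‖ / ‖I - q2‖) ^ 2 ≤
      Real.exp (2 * (d2 - d1).re) * (1 - Real.exp (-(4 * (X2 - X1).re))) := by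
  have h1 := h.negF_B hF hs
  have hq2pos : 0 < ‖I - q2‖ := by
    rw [norm_pos_iff]
    intro h0
    have : q2.re = 0 := by
      have := congrArg Complex.re h0
      simp at this
      exact this
    linarith [h.r12, h.q1neg]
  have hd2 : ‖exp d2‖ ^ 2 = Real.exp (2 * (d2 - d1).re) * ‖exp d1‖ ^ 2 := by
    rw [norm_exp, norm_exp, ← Real.exp_nat_mul, ← Real.exp_nat_mul, ← Real.exp_add]
    congr 1
    simp only [sub_re]
    push_cast
    ring
  rw [div_pow, div_le_iff₀ (by positivity), hd2, mul_assoc]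
  exact mul_le_mul_of_nonneg_left h1 (Real.exp_pos _).le

/-- the bound of `m` for `F_1 < 0` at a unit disc exit -/
theorem St.negF_M (h : St k C q0 q1 q2 q3 d0 d1 d2 X1 X2 X3)
    (hf : ‖1 - pv k C X1 d0‖ = 1) (h2 : ‖1 - pv k C X2 d1‖ < 1) (hF : (X1 - d1).im < 0) :
    (‖exp d2‖ / ‖I - q2‖) ^ 2 ≤
      ‖pv k C X2 d2‖ ^ (-(2 / k)) *
        (‖pv k C X2 d1‖ ^ (2 / k) - ‖pv k C X2 d1‖ ^ (-(2 / k))) := by
  have hpi := Real.pi_pos
  have hk := h.hk
  have hs := h.negF_s hf h2 hF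
  have hs' : -(Real.pi / 6) ≤ (X1 - d1).im := by
    by_contra hcon
    have h3 := mul_lt_mul_of_pos_left (not_le.1 hcon) h.k0
    have h4 := mul_lt_mul_of_pos_right hk (show 0 < Real.pi / 6 by positivity)
    linarith
  obtain ⟨e1, e2⟩ := h.disc_t hf
  have h1 := h.negF_M' hF hs'
  have h0 : 0 < ‖pv k C X2 d1‖ := norm_pos_iff.2 (pv_ne h.C0)
  have e3 : ‖pv k C X2 d1‖ ^ (-(2 / k)) =
      ‖pv k C X2 d1‖ ^ (2 / k) * Real.exp (-(4 * (X2 - X1).re)) := by
    rw [Real.rpow_neg h0.le, e1, ← Real.exp_neg, ← Real.exp_add]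
    congr 1
    ring
  rw [e3]
  calc _ ≤ _ := h1
    _ = _ := by rw [← e2]; ring

end EQS
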