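import Mathlib
import Pool.Agent.Lib.MP_226de1_co.E.CaseN

/-! Case N of the unit disc exit: the upper sheets, `F_2 < π`. -/

set_option autoImplicit false

namespace EQS

open Complex

/-- the inequality `P_3 ≥ F_2/4` on the sheets `F_2 ≥ 2π`, `x = λ F_2/4` -/
theorem dn_up {l r t P s κ x : ℝ} (hl0 : 0 < l) (hr0 : 0 < r) (hr1 : r < 1)
    (ht : 1 ≤ t) (htr : t - 1 ≤ r) (hs : t * Real.sin κ ≤ r) (κ0 : 0 < κ) (κ1 : κ ≤ Real.pi / 3)
    (s0 : 0 < s) (s1 : s ≤ Real.pi / 3) (P0 : 0 < P) (hP : P < r ^ l)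
    (hPa : s ≤ κ → P < t ^ l - 1) (hx0 : l * Real.pi / 2 ≤ x) (hx1 : x ≤ Real.pi / 4) :
    0 ≤ r ^ l * Real.sin (3 * x) - P * Real.sin x + (r / t) ^ (l / 2) *
      (t ^ l * Real.sin (x - l * κ / 2) - Real.sin (x + l * κ / 2 - l * s) +
        P * Real.sin (x + l * κ / 2)) := by
  have hpi := Real.pi_pos
  have hpi4 := Real.pi_gt_d4
  have hpi4' := Real.pi_lt_d4
  have hl1 : l ≤ 1 / 2 := by nlinarith
  have t0 : 0 < t := by linarith
  have hT1 : 1 ≤ t ^ l := Real.one_le_rpow ht hl0.le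
  have hx : 0 ≤ x := le_trans (by positivity) hx0
  have hμ0 : 0 < l * κ / 2 := by positivity
  have hμ1 : l * κ / 2 ≤ 0.262 := by nlinarith
  have hμx : l * κ / 2 ≤ x := by nlinarith
  have ha : 0 < (r / t) ^ (l / 2) := Real.rpow_pos_of_pos (div_pos hr0 t0) _
  have hsx : 0 ≤ Real.sin x := Real.sin_nonneg_of_nonneg_of_le_pi hx (by linarith)
  have hsx3 : 0.9 * x ≤ Real.sin (3 * x) := by
    rcases le_total (3 * x) (Real.pi / 2) with h3 | h3
    · have h4 := Real.mul_le_sin (x := 3 * x) (by linarith) h3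
      have h5 : 0.9 * x ≤ 2 / Real.pi * (3 * x) := by
        have e : 2 / Real.pi * (3 * x) = 6 * x / Real.pi := by ring
        rw [e, le_div_iff₀ hpi]
        nlinarith
      linarith
    · have h4 : Real.sin (Real.pi / 4) ≤ Real.sin (Real.pi - 3 * x) := by
        apply Real.sin_le_sin_of_le_of_le_pi_div_two <;> linarith
      rw [Real.sin_pi_sub, Real.sin_pi_div_four] at h4
      have h5 : (1.414 : ℝ) ≤ √2 := Real.le_sqrt_of_sq_le (by norm_num)
      nlinarith
  have hss : Real.sin x ≤ Real.sin (3 * x) := by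
    have h3 : Real.sin x ≤ Real.sin (Real.pi / 4) := by
      apply Real.sin_le_sin_of_le_of_le_pi_div_two <;> linarith
    rw [Real.sin_pi_div_four] at h3
    have h4 : Real.sin x ^ 2 ≤ 1 / 2 := by
      have h5 := pow_le_pow_left₀ hsx h3 2
      rw [div_pow, Real.sq_sqrt (by norm_num)] at h5
      linarith
    rw [Real.sin_three_mul]
    nlinarith [mul_nonneg hsx (sub_nonneg.2 h4)]
  have hsm : 0 ≤ Real.sin (x - l * κ / 2) :=
    Real.sin_nonneg_of_nonneg_of_le_pi (by linarith) (by linarith)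
  have hrl : 0 < r ^ l := Real.rpow_pos_of_pos hr0 _
  have h0 : 0 ≤ r ^ l * Real.sin (3 * x) - P * Real.sin x := by
    have h1 := mul_le_mul_of_nonneg_left hss hrl.le
    have h2 := mul_le_mul_of_nonneg_right hP.le hsx
    linarith
  rcases le_total κ s with hκs | hκs
  · -- `κ ≤ s`
    have h1 : Real.sin (x + l * κ / 2 - l * s) ≤ Real.sin (x - l * κ / 2) := by
      apply Real.sin_le_sin_of_le_of_le_pi_div_two <;> nlinarith
    have h2 : Real.sin (x - l * κ / 2) ≤ t ^ l * Real.sin (x - l * κ / 2) := by nlinarith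
    have h3 : 0 ≤ P * Real.sin (x + l * κ / 2) :=
      mul_nonneg P0.le (Real.sin_nonneg_of_nonneg_of_le_pi (by linarith) (by linarith))
    have h4 : 0 ≤ (r / t) ^ (l / 2) *
      (t ^ l * Real.sin (x - l * κ / 2) - Real.sin (x + l * κ / 2 - l * s) +
        P * Real.sin (x + l * κ / 2)) := mul_nonneg ha.le (by linarith)
    linarith
  · have hPT := hPa hκs
    have h1 : Real.sin (x + l * κ / 2 - l * s) - Real.sin (x - l * κ / 2) ≤ l * κ := by
      have := EQN.sin_sub_sin_le (u := x + l * κ / 2 - l * s) (v := x - l * κ / 2) (by nlinarith)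
      nlinarith
    have h2 : (1 + P) * Real.sin (x - l * κ / 2) ≤ t ^ l * Real.sin (x - l * κ / 2) :=
      mul_le_mul_of_nonneg_right (by linarith) hsm
    have h3 : Real.sin (x - l * κ / 2) + Real.sin (x + l * κ / 2) =
        2 * Real.sin x * Real.cos (l * κ / 2) := by
      rw [Real.sin_sub, Real.sin_add]
      ring
    have h4 : 2 * (P * Real.sin x * Real.cos (l * κ / 2)) - l * κ ≤
        t ^ l * Real.sin (x - l * κ / 2) - Real.sin (x + l * κ / 2 - l * s) +
        P * Real.sin (x + l * κ / 2) := by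
      have : P * (Real.sin (x - l * κ / 2) + Real.sin (x + l * κ / 2)) =
        2 * (P * Real.sin x * Real.cos (l * κ / 2)) := by rw [h3]; ring
      linarith
    have h5 := mul_le_mul_of_nonneg_left h4 ha.le
    -- `z = (sin κ)^(1/4)`
    have hsκ : 0.82 * κ ≤ Real.sin κ := by
      have h6 := EQN.mul_sin_le (l := κ / (Real.pi / 3)) (x := Real.pi / 3) (by positivity)
        (by rw [div_le_one (by positivity)]; exact κ1) (by positivity) (by linarith)
      rw [div_mul_cancel₀ _ (by positivity), Real.sin_pi_div_three] at h6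
      have h7 : (1.732 : ℝ) ≤ √3 := Real.le_sqrt_of_sq_le (by norm_num)
      have h8 : 0.82 * κ ≤ κ / (Real.pi / 3) * (√3 / 2) := by
        have e : κ / (Real.pi / 3) * (√3 / 2) = κ * (3 * √3 / 2) / Real.pi := by
          field_simp
        rw [e, le_div_iff₀ hpi]
        nlinarith
      linarith
    have hsκ0 : 0 < Real.sin κ := by nlinarith
    have hsκ1 : Real.sin κ ≤ 1 := Real.sin_le_one κ
    obtain ⟨z, hz⟩ : ∃ z, z = Real.sin κ ^ (1 / 4 : ℝ) := ⟨_, rfl⟩
    have hz0 : 0 < z := by rw [hz]; exact Real.rpow_pos_of_pos hsκ0 _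
    have hz1 : z ≤ 1 := by rw [hz]; exact Real.rpow_le_one hsκ0.le hsκ1 (by norm_num)
    have hz4 : z ^ 4 = Real.sin κ := by
      rw [hz, ← Real.rpow_natCast, ← Real.rpow_mul hsκ0.le]
      norm_num
    have hl4 : l / 2 ≤ 1 / 4 := by linarith
    have hzm : z ≤ (r * t) ^ (l / 2) := by
      rw [hz]
      calc Real.sin κ ^ (1 / 4 : ℝ) ≤ Real.sin κ ^ (l / 2) :=
            Real.rpow_le_rpow_of_exponent_ge hsκ0 hsκ1 hl4
        _ ≤ (r * t) ^ (l / 2) := by
            apply Real.rpow_le_rpow hsκ0.le _ (by positivity)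
            nlinarith
    have hza : z ≤ (r / t) ^ (l / 2) := by
      rw [hz]
      calc Real.sin κ ^ (1 / 4 : ℝ) ≤ Real.sin κ ^ (l / 2) :=
            Real.rpow_le_rpow_of_exponent_ge hsκ0 hsκ1 hl4
        _ ≤ (r / t) ^ (l / 2) := by
            apply Real.rpow_le_rpow hsκ0.le _ (by positivity)
            rw [le_div_iff₀ t0]
            linarith
    have hap : r ^ l = (r / t) ^ (l / 2) * (r * t) ^ (l / 2) := by
      rw [← Real.mul_rpow (by positivity) (by positivity)]
      have e : r / t * (r * t) = r ^ (2 : ℝ) := by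
        rw [Real.rpow_two]
        field_simp
      rw [e, ← Real.rpow_mul hr0.le]
      congr 1
      ring
    set a := (r / t) ^ (l / 2) with had
    set m := (r * t) ^ (l / 2) with hmd
    set c := Real.cos (l * κ / 2) with hcd
    have hc : 0.96 ≤ c := by
      have := Real.one_sub_sq_div_two_le_cos (x := l * κ / 2)
      nlinarith
    have hs3 : 1.41 * l ≤ Real.sin (3 * x) := by nlinarith
    have hm0 : 0 < m := lt_of_lt_of_le hz0 hzm
    rcases le_total 1 (2 * a * c) with hac | hac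
    · -- (i)
      have h6 : 0 ≤ P * Real.sin x * (2 * a * c - 1) :=
        mul_nonneg (mul_nonneg P0.le hsx) (by linarith)
      have h7 : z ^ 4 ≤ z := by
        have : z ^ 4 ≤ z ^ 1 := pow_le_pow_of_le_one hz0.le hz1 (by norm_num)
        simpa using this
      have h8 : l * κ ≤ m * Real.sin (3 * x) := by
        have h9 : 0.82 * κ ≤ m := by linarith
        have h10 : (0.82 * κ) * (1.41 * l) ≤ m * Real.sin (3 * x) :=
          mul_le_mul h9 hs3 (by positivity) hm0.le
        have e : (0.82 * κ) * (1.41 * l) = 1.1562 * (l * κ) := by ring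
        have := mul_pos hl0 κ0
        linarith
      have h9 := mul_le_mul_of_nonneg_left h8 ha.le
      rw [hap]
      have e1 : a * (2 * (P * Real.sin x * c) - l * κ) =
        P * Real.sin x * (2 * a * c - 1) + P * Real.sin x - a * (l * κ) := by ring
      have e2 : a * (m * Real.sin (3 * x)) = a * m * Real.sin (3 * x) := by ring
      rw [e1] at h5
      rw [e2] at h9
      linarith
    · -- (ii)
      have ha1 : a ≤ 0.53 := by nlinarith
      have hz53 : z ≤ 0.53 := hza.trans ha1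
      have h6 : P ≤ r ^ l / 2 := by
        have h7 := EQN.rpow_bern ht hl0.le (by linarith : l ≤ 1)
        have h8 : l * (t - 1) ≤ 1 / 2 * r := by nlinarith
        have h9 : r ≤ r ^ l := by
          have := Real.rpow_le_rpow_of_exponent_ge hr0 hr1.le (by linarith : l ≤ 1)
          rwa [Real.rpow_one] at this
        linarith
      have h7 : P * Real.sin x ≤ r ^ l / 2 * Real.sin (3 * x) :=
        mul_le_mul h6 hss hsx (by linarith)
      have h8 : 0 ≤ P * Real.sin x * (2 * a * c) := by positivity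
      have h9 : κ ≤ 0.7 * m := by
        have h10 : z ^ 4 ≤ 0.53 ^ 3 * z := by
          have h11 : z ^ 3 ≤ 0.53 ^ 3 := pow_le_pow_left₀ hz0.le hz53 3
          calc z ^ 4 = z ^ 3 * z := by ring
            _ ≤ 0.53 ^ 3 * z := mul_le_mul_of_nonneg_right h11 hz0.le
        norm_num at h10
        linarith
      have h10 : l * κ ≤ m / 2 * Real.sin (3 * x) := by
        have h11 : m / 2 * (1.41 * l) ≤ m / 2 * Real.sin (3 * x) :=
          mul_le_mul_of_nonneg_left hs3 (by linarith)
        have h12 := mul_le_mul_of_nonneg_left h9 hl0.le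
        have e : m / 2 * (1.41 * l) = 0.705 * (l * m) := by ring
        have e' : l * (0.7 * m) = 0.7 * (l * m) := by ring
        have := mul_pos hl0 hm0
        linarith
      have h11 := mul_le_mul_of_nonneg_left h10 ha.le
      rw [hap] at h7 ⊢
      have e1 : a * (2 * (P * Real.sin x * c) - l * κ) =
        P * Real.sin x * (2 * a * c) - a * (l * κ) := by ring
      have e2 : a * (m / 2 * Real.sin (3 * x)) = a * m / 2 * Real.sin (3 * x) := by ring
      have e3 : a * m * Real.sin (3 * x) =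
        a * m / 2 * Real.sin (3 * x) + a * m / 2 * Real.sin (3 * x) := by ring
      rw [e1] at h5
      rw [e2] at h11
      linarith

variable {k C : ℝ} {q0 q1 q2 q3 d0 d1 d2 X1 X2 X3 : ℂ}

/-- `F_2 < π` in case N -/
theorem St.negF_up (h : St k C q0 q1 q2 q3 d0 d1 d2 X1 X2 X3)
    (hh : X1.im < -(Real.pi / 4) → (pv k C X1 d1).re < 1 / 2)
    (hf : ‖1 - pv k C X1 d0‖ = 1) (h2 : ‖1 - pv k C X2 d1‖ < 1) (hF : (X1 - d1).im < 0) :
    k * (X2 - d2).im < Real.pi := by
  have hpi := Real.pi_pos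
  have k0 := h.k0
  have hk := h.hk
  have hD := h.dn_data hh hf h2 hF
  have hθ0 := h.negF_sheet hh hf h2 hF
  obtain ⟨e1, e2⟩ := h.dn_tri (θ := k * (X2 - d2).im) rfl rfl rfl rfl
  obtain ⟨P0, -⟩ := h.dn_P01
  have hPr := h.dn_Pr hf (lam := 2 / k) rfl hD rfl rfl rfl rfl rfl
  obtain ⟨b1, -, -⟩ := h.dn_Pint hf (lam := 2 / k) (r := ‖1 - pv k C X2 d1‖) rfl hD rfl rfl rfl
    rfl rfl
  have hlam0 : 0 < 2 / k := by positivity
  have κ1 := hD.κ1
  have κ0 : 0 < -(k * (X2 - d1).im) := by linarith [hD.κs, hD.s0]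
  have t0 : 0 < ‖pv k C X2 d1‖ := by linarith [hD.t1]
  have hsκ : 0 < Real.sin (-(k * (X2 - d1).im)) :=
    Real.sin_pos_of_pos_of_lt_pi κ0 (by linarith)
  by_contra hcon
  have h3 := not_lt.1 hcon
  have hsin : 0 < Real.sin (k * (X2 - d2).im) := by
    have := mul_pos t0 hsκ
    rw [← e2] at this
    exact pos_of_mul_pos_right this hD.r0.le
  have h4 : 2 * Real.pi < k * (X2 - d2).im := by
    by_contra hc
    have h5 := Real.sin_nonneg_of_nonneg_of_le_pi (x := k * (X2 - d2).im - Real.pi)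
      (by linarith) (by linarith [not_lt.1 hc])
    rw [Real.sin_sub_pi] at h5
    linarith
  -- `Im (X2 - d2) < π/2`
  have h5 : (X2 - d2).im < Real.pi / 2 := by
    have a2 := h.a2
    have a3 := h.a3
    have hτ : |(X3 - d2).im| < Real.pi / 4 := by
      have := h.p3
      rw [abs_mul, abs_of_pos k0] at this
      have h3 := mul_le_mul_of_nonneg_right hk.le (abs_nonneg (X3 - d2).im)
      linarith
    have hτ' := abs_lt.1 hτ
    have e : (X3 - d2).im = X3.im - d2.im := by simp
    have hc : 0 < Real.cos d2.im := by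
      have := h.D2
      rw [exp_re] at this
      exact pos_of_mul_pos_right this (Real.exp_pos _).le
    have hd2 : -(Real.pi / 2) < d2.im := by
      by_contra hcc
      have h6 := Real.cos_nonpos_of_pi_div_two_le_of_le (x := -d2.im) (by linarith [not_lt.1 hcc])
        (by rw [e] at hτ'; linarith)
      rw [Real.cos_neg] at h6
      linarith
    simp only [sub_im]
    linarith
  have hx1 : 2 / k * (k * (X2 - d2).im) / 4 ≤ Real.pi / 4 := by
    have e : 2 / k * (k * (X2 - d2).im) = 2 * (X2 - d2).im := by field_simp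
    rw [e]
    linarith
  have hx0 : 2 / k * Real.pi / 2 ≤ 2 / k * (k * (X2 - d2).im) / 4 := by
    have := mul_lt_mul_of_pos_left h4 hlam0
    linarith
  have htr : ‖pv k C X2 d1‖ - 1 ≤ ‖1 - pv k C X2 d1‖ := by
    have := norm_sub_norm_le (pv k C X2 d1) 1
    rw [norm_one, norm_sub_rev] at this
    exact this
  have hsr : ‖pv k C X2 d1‖ * Real.sin (-(k * (X2 - d1).im)) ≤ ‖1 - pv k C X2 d1‖ := by
    rw [← e2]
    have := mul_le_mul_of_nonneg_left (Real.sin_le_one (k * (X2 - d2).im)) hD.r0.le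
    linarith
  have key := dn_up hlam0 hD.r0 hD.r1 hD.t1 htr hsr κ0 κ1.le hD.s0 hD.s1 P0 hPr b1 hx0 hx1
  have hχ : 2 / k * (k * (X2 - d2).im / 4 + Real.pi / 2) ≤ Real.pi := by
    have h6 : 2 / k ≤ 1 := by rw [div_le_one k0]; exact hk.le
    nlinarith
  have h6 := h.dn_chi' hf (lam := 2 / k) (r := ‖1 - pv k C X2 d1‖) (t := ‖pv k C X2 d1‖)
    (P := C ^ (-(2 / k))) (s := -(k * (X1 - d1).im)) (κ := -(k * (X2 - d1).im))
    (θ := k * (X2 - d2).im) (χ := k * (X2 - d2).im / 4) rfl rfl rfl rfl rfl rfl rfl hχ (by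
      convert key using 3
      · congr 1
        ring_nf
      · congr 1
        ring_nf
      · congr 1
        · congr 1
          · congr 2
            ring_nf
          · congr 1
            ring_nf
        · congr 2
          ring_nf)
  linarith [(abs_lt.1 h.p3).2]

/-- case N of the unit disc exit, unconditionally -/
theorem St.caseN' (h : St k C q0 q1 q2 q3 d0 d1 d2 X1 X2 X3)
    (hh : X1.im < -(Real.pi / 4) → (pv k C X1 d1).re < 1 / 2)
    (hf : ‖1 - pv k C X1 d0‖ = 1) (h2 : ‖1 - pv k C X2 d1‖ < 1) (hF : (X1 - d1).im < 0) :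
    ‖exp d1‖ ^ 2 * ((1 - ‖1 - pv k C X2 d1‖ ^ 2) * (1 - ‖1 - pv k C X3 d2‖ ^ 2)) <
      4 * ‖pv k C X2 d1 - pv k C X3 d2‖ ^ 2 * ((exp d0).re * (exp d0 + exp d1).re) :=
  h.caseN hh hf h2 hF (h.negF_up hh hf h2 hF)

end EQS
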