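import Mathlib

/-! Unit disc exit, case `F_1 > 0`, `arg p_{-2} ≤ 0`: the real inequality behind `phi_1 ≤ A_1`. -/

set_option autoImplicit false

namespace EQS

open Real Set

/-- comparison by derivatives on `[0, ∞)` -/
private theorem dp_le_of_deriv {f g f' g' : ℝ → ℝ} (hf : ∀ x, HasDerivAt f (f' x) x)
    (hg : ∀ x, HasDerivAt g (g' x) x) (h0 : f 0 ≤ g 0) (h : ∀ x, 0 ≤ x → f' x ≤ g' x) {x : ℝ}
    (hx : 0 ≤ x) : f x ≤ g x := by
  have hm : MonotoneOn (fun x => g x - f x) (Ici 0) := by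
    apply monotoneOn_of_deriv_nonneg (convex_Ici 0)
    · apply ContinuousOn.sub
      · exact fun y _ => (hg y).continuousAt.continuousWithinAt
      · exact fun y _ => (hf y).continuousAt.continuousWithinAt
    · intro y _
      exact ((hg y).sub (hf y)).differentiableAt.differentiableWithinAt
    · intro y hy
      rw [interior_Ici] at hy
      have := ((hg y).sub (hf y)).deriv
      have e : deriv (fun x => g x - f x) y = g' y - f' y := this
      rw [e]
      linarith [h y (le_of_lt hy)]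
  have := hm (mem_Ici.2 le_rfl) (mem_Ici.2 hx) hx
  simp only at this
  linarith

private theorem dp_sin_ge3 {x : ℝ} (hx : 0 ≤ x) : x - x ^ 3 / 6 ≤ Real.sin x := by
  apply dp_le_of_deriv (f := fun x : ℝ => x - x ^ 3 / 6) (f' := fun x => 1 - x ^ 2 / 2)
    (g' := Real.cos) _ Real.hasDerivAt_sin (by simp) _ hx
  · intro y
    refine ((hasDerivAt_id' y).fun_sub ((hasDerivAt_pow 3 y).div_const 6)).congr_deriv ?_
    norm_num
    try ring
  · intro y _
    exact Real.one_sub_sq_div_two_le_cos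

private theorem dp_cos_le4 {x : ℝ} (hx : 0 ≤ x) : Real.cos x ≤ 1 - x ^ 2 / 2 + x ^ 4 / 24 := by
  apply dp_le_of_deriv (f' := fun x => -Real.sin x)
    (g := fun x : ℝ => 1 - x ^ 2 / 2 + x ^ 4 / 24) (g' := fun x => -x + x ^ 3 / 6)
    Real.hasDerivAt_cos _ (by simp) _ hx
  · intro y
    refine (((hasDerivAt_const y (1 : ℝ)).fun_sub ((hasDerivAt_pow 2 y).div_const 2)).fun_add
      ((hasDerivAt_pow 4 y).div_const 24)).congr_deriv ?_
    norm_num
    try ring
  · intro y hy
    have := dp_sin_ge3 hy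
    linarith

private theorem dp_sin_le5 {x : ℝ} (hx : 0 ≤ x) :
    Real.sin x ≤ x - x ^ 3 / 6 + x ^ 5 / 120 := by
  apply dp_le_of_deriv (f' := Real.cos)
    (g := fun x : ℝ => x - x ^ 3 / 6 + x ^ 5 / 120) (g' := fun x => 1 - x ^ 2 / 2 + x ^ 4 / 24)
    Real.hasDerivAt_sin _ (by simp) _ hx
  · intro y
    refine (((hasDerivAt_id' y).fun_sub ((hasDerivAt_pow 3 y).div_const 6)).fun_add
      ((hasDerivAt_pow 5 y).div_const 120)).congr_deriv ?_
    norm_num
    try ring
  · intro y hy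
    exact dp_cos_le4 hy

/-- `2 sin (F/2) ≤ F - F^3/30` for `0 ≤ F ≤ 4` -/
private theorem dp_two_sin {F : ℝ} (h0 : 0 ≤ F) (h4 : F ≤ 4) :
    2 * Real.sin (F / 2) ≤ F - F ^ 3 / 30 := by
  have h1 := dp_sin_le5 (x := F / 2) (by linarith)
  have h2 : 0 ≤ F ^ 3 * (16 - F ^ 2) := by
    apply mul_nonneg (by positivity)
    nlinarith
  nlinarith

/-- the numerical core -/
theorem dp_num {F g : ℝ} (hF : 0 < F) (hg0 : (F + π) / 16 ≤ g) (hg1 : g ≤ (F + π) / 4)
    (hg2 : F * (g - π / 8) ≤ π ^ 2 / 8) :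
    2 * Real.sin (F / 2) < 1 + g * (7 * F / 4 - π / 4 - F * g ^ 2 / 3) := by
  have p1 := Real.pi_gt_d4
  have p2 := Real.pi_lt_d4
  have hg : 0 < g := by linarith
  have hs2 : 2 * Real.sin (F / 2) ≤ 2 := by linarith [Real.sin_le_one (F / 2)]
  have hsF : 2 * Real.sin (F / 2) ≤ F := by linarith [Real.sin_le (x := F / 2) (by linarith)]
  rcases le_or_gt F 1 with h1 | h1
  · -- F ≤ 1
    have hgu : g ≤ 1.0354 := by linarith
    have hgg : g ^ 2 ≤ 1.0721 := by nlinarith
    have hB : 1.392 * F - 0.7854 ≤ 7 * F / 4 - π / 4 - F * g ^ 2 / 3 := by nlinarith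
    rcases le_or_gt 0 (7 * F / 4 - π / 4 - F * g ^ 2 / 3) with hp | hp
    · have : 0 ≤ g * (7 * F / 4 - π / 4 - F * g ^ 2 / 3) := mul_nonneg hg.le hp
      rcases h1.lt_or_eq with h2 | h2
      · linarith
      · have h3 := dp_two_sin hF.le (by linarith)
        rw [h2] at h3 this ⊢
        linarith
    · have hneg : 1.392 * F - 0.7854 < 0 := by linarith
      have h2 : g * (1.392 * F - 0.7854) ≤ g * (7 * F / 4 - π / 4 - F * g ^ 2 / 3) :=
        mul_le_mul_of_nonneg_left hB hg.le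
      have h3 : (F + 3.1416) / 4 * (1.392 * F - 0.7854) ≤ g * (1.392 * F - 0.7854) := by
        apply mul_le_mul_of_nonpos_right _ hneg.le
        linarith
      nlinarith
  · rcases le_or_gt g (1 / 2) with h2 | h2
    · -- g ≤ 1/2
      have hgg : g ^ 2 ≤ 1 / 4 := by nlinarith
      have hB : 5 * F / 3 - 0.7854 ≤ 7 * F / 4 - π / 4 - F * g ^ 2 / 3 := by nlinarith
      have hBp : 0 < 5 * F / 3 - 0.7854 := by linarith
      have h3 : (F + 3.1415) / 16 * (5 * F / 3 - 0.7854) ≤
          g * (7 * F / 4 - π / 4 - F * g ^ 2 / 3) := by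
        apply mul_le_mul _ hB hBp.le hg.le
        linarith
      rcases le_or_gt F 2.3 with h4 | h4
      · have h5 := dp_two_sin hF.le (by linarith)
        have h6 : F - F ^ 3 / 30 < 1 + (F + 3.1415) / 16 * (5 * F / 3 - 0.7854) := by
          nlinarith [sq_nonneg (F - 1.7), mul_pos (sub_pos.2 h1) hF,
            mul_nonneg (sub_nonneg.2 h4) (sub_pos.2 h1).le]
        linarith
      · have h6 : 2 < 1 + (F + 3.1415) / 16 * (5 * F / 3 - 0.7854) := by nlinarith
        linarith
    · -- g > 1/2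
      rcases le_or_gt F 1.6 with h3 | h3
      · have hgu : g ≤ (F + 3.1416) / 4 := by linarith
        have hgg : g ^ 2 ≤ ((F + 3.1416) / 4) ^ 2 := pow_le_pow_left₀ hg.le hgu 2
        have hB : 7 * F / 4 - 0.7854 - F * ((F + 3.1416) / 4) ^ 2 / 3 ≤
            7 * F / 4 - π / 4 - F * g ^ 2 / 3 := by nlinarith
        have hB2 : 2 * (F - F ^ 3 / 30 - 1) <
            7 * F / 4 - 0.7854 - F * ((F + 3.1416) / 4) ^ 2 / 3 := by
          nlinarith [mul_pos (sub_pos.2 h1) hF, mul_nonneg (sub_nonneg.2 h3) (sub_pos.2 h1).le]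
        have hB3 : 0 < 7 * F / 4 - 0.7854 - F * ((F + 3.1416) / 4) ^ 2 / 3 := by
          nlinarith [mul_pos (sub_pos.2 h1) hF, mul_nonneg (sub_nonneg.2 h3) (sub_pos.2 h1).le]
        have h5 := dp_two_sin hF.le (by linarith)
        have h6 : 1 / 2 * (7 * F / 4 - 0.7854 - F * ((F + 3.1416) / 4) ^ 2 / 3) ≤
            g * (7 * F / 4 - π / 4 - F * g ^ 2 / 3) :=
          mul_le_mul h2.le hB hB3.le hg.le
        linarith
      · -- F > 1.6 : `F (g - pi/8) ≤ pi^2/8`
        have hpp : π ^ 2 ≤ 9.8697 := by nlinarith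
        have hFg : F * g ≤ 1.2338 + 0.3927 * F := by nlinarith
        have hgu : g ≤ 1.1640 := by
          by_contra hc
          push Not at hc
          nlinarith
        rcases le_or_gt F 2 with h4 | h4
        · -- `F g^2 ≤ (1.2338 + 0.3927 F) g`, `g ≤ 1.164`
          have h7 : F * g ^ 2 ≤ (1.2338 + 0.3927 * F) * 1.1640 := by
            have e1 : F * g ^ 2 = F * g * g := by ring
            rw [e1]
            apply mul_le_mul hFg hgu hg.le
            positivity
          have hB : 1.597 * F - 1.2643 ≤ 7 * F / 4 - π / 4 - F * g ^ 2 / 3 := by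
            nlinarith
          have hBp : 0 < 1.597 * F - 1.2643 := by linarith
          have h6 : 1 / 2 * (1.597 * F - 1.2643) ≤ g * (7 * F / 4 - π / 4 - F * g ^ 2 / 3) :=
            mul_le_mul h2.le hB hBp.le hg.le
          have h5 := dp_two_sin hF.le (by linarith)
          have h8 : F - F ^ 3 / 30 < 1 + 1 / 2 * (1.597 * F - 1.2643) := by
            nlinarith [mul_nonneg (sub_nonneg.2 h4) (sub_pos.2 h3).le]
          linarith
        · have hgu2 : g ≤ 1.0097 := by
            by_contra hc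
            push Not at hc
            nlinarith
          have hgg : g ^ 2 ≤ 1.0195 := by nlinarith
          have hB : 1.41 * F - 0.7854 ≤ 7 * F / 4 - π / 4 - F * g ^ 2 / 3 := by nlinarith
          have hBp : 2.01 < 1.41 * F - 0.7854 := by linarith
          have h6 : 1 / 2 * (1.41 * F - 0.7854) ≤ g * (7 * F / 4 - π / 4 - F * g ^ 2 / 3) :=
            mul_le_mul h2.le hB (by linarith) hg.le
          linarith

/-- `1 < w (cos g + 2 tan phi sin g)`, `w = (2 sin (k phi/2))^(-1/k)`, `g = (phi + pi/k)/2` -/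
theorem dp_W1 {k φ : ℝ} (hk : 2 ≤ k) (hk8 : k ≤ 8) (h0 : 0 < φ) (h1 : φ ≤ π / 4)
    (hs : 0 < Real.sin (k * φ / 2)) :
    1 < (2 * Real.sin (k * φ / 2)) ^ (-(1 / k)) *
      (Real.cos ((φ + π / k) / 2) + 2 * Real.tan φ * Real.sin ((φ + π / k) / 2)) := by
  have hpi := Real.pi_pos
  have k0 : 0 < k := by linarith
  set g := (φ + π / k) / 2 with hg
  have hkg : k * g = (k * φ + π) / 2 := by rw [hg]; field_simp
  have hpk : π / k ≤ π / 2 := div_le_div_of_nonneg_left hpi.le (by norm_num) hk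
  have hpk0 : 0 < π / k := by positivity
  have hg0 : 0 < g := by rw [hg]; linarith
  have hg1 : g ≤ 3 * π / 8 := by rw [hg]; linarith
  have hF : 0 < k * φ := mul_pos k0 h0
  have hsg : 0 < Real.sin g := Real.sin_pos_of_pos_of_lt_pi hg0 (by linarith)
  have htan : φ ≤ Real.tan φ := (Real.lt_tan h0 (by linarith)).le
  have hc1 : 1 - g ^ 2 / 2 ≤ Real.cos g := Real.one_sub_sq_div_two_le_cos
  have hs1 := dp_sin_ge3 hg0.le
  set Z := Real.cos g + 2 * Real.tan φ * Real.sin g with hZ
  have hZ1 : 1 - g ^ 2 / 2 + 2 * φ * (g - g ^ 3 / 6) ≤ Z := by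
    have e1 : 2 * φ * (g - g ^ 3 / 6) ≤ 2 * φ * Real.sin g :=
      mul_le_mul_of_nonneg_left hs1 (by linarith)
    have e2 : 2 * φ * Real.sin g ≤ 2 * Real.tan φ * Real.sin g :=
      mul_le_mul_of_nonneg_right (by linarith) hsg.le
    rw [hZ]
    linarith
  have hZ0 : 0 < Z := by
    have e1 : 0 < Real.cos g := Real.cos_pos_of_mem_Ioo ⟨by linarith, by linarith⟩
    have e2 : 0 ≤ 2 * Real.tan φ * Real.sin g := by
      have : 0 ≤ Real.tan φ := by linarith
      positivity
    rw [hZ]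
    linarith
  have key := dp_num hF (g := g) (by
      rw [div_le_iff₀ (by norm_num : (0:ℝ) < 16)]
      nlinarith) (by
      rw [le_div_iff₀ (by norm_num : (0:ℝ) < 4)]
      nlinarith) (by
      have e1 : g - π / 8 ≤ π / (2 * k) := by
        rw [hg]
        have : π / (2 * k) = π / k / 2 := by field_simp
        rw [this]
        linarith
      calc k * φ * (g - π / 8) ≤ k * φ * (π / (2 * k)) := mul_le_mul_of_nonneg_left e1 hF.le
        _ = φ * π / 2 := by field_simp
        _ ≤ π ^ 2 / 8 := by nlinarith)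
  have hBern := one_add_mul_self_le_rpow_one_add (s := Z - 1) (by linarith) (p := k) (by linarith)
  have e3 : 1 + (Z - 1) = Z := by ring
  rw [e3] at hBern
  have e4 : g * (7 * (k * φ) / 4 - π / 4 - k * φ * g ^ 2 / 3) =
      k * (-(g ^ 2) / 2 + 2 * φ * (g - g ^ 3 / 6)) := by
    have : k * (-(g ^ 2) / 2 + 2 * φ * (g - g ^ 3 / 6)) =
        -(k * g) * g / 2 + 2 * (k * φ) * (g - g ^ 3 / 6) := by ring
    rw [this, hkg]
    ring
  have e5 : 2 * Real.sin (k * φ / 2) < Z ^ k := by
    have e6 : k * (-(g ^ 2) / 2 + 2 * φ * (g - g ^ 3 / 6)) ≤ k * (Z - 1) :=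
      mul_le_mul_of_nonneg_left (by linarith) k0.le
    rw [e4] at key
    linarith
  have hS : 0 < 2 * Real.sin (k * φ / 2) := by linarith
  have e7 : (2 * Real.sin (k * φ / 2)) ^ (1 / k) < Z := by
    have := Real.rpow_lt_rpow hS.le e5 (show 0 < 1 / k by positivity)
    rwa [← Real.rpow_mul hZ0.le, mul_one_div_cancel k0.ne', Real.rpow_one] at this
  rw [Real.rpow_neg hS.le, ← div_eq_inv_mul, one_lt_div (Real.rpow_pos_of_pos hS _)]
  exact e7

end EQS
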