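import Mathlib
import Pool.Agent.Lib.MP_226de1_co.E.Step

/-! One backward step in rotated real form (dnote 1880, (E3), (E4)).

`A = - Im X`, `phi = Im (X - d)`, `tau = Im (X' - d)`, `R = |xi|`, `R' = |xi'|`, `L = |D|`:
`R'^2 e^{i (A + phi - 2 tau)} = R^2 e^{i (A - phi)} + 2 L (- Re q + i Im q) + L^2 e^{i (A + phi)}`. -/

set_option autoImplicit false

namespace EQS

open Complex

theorem step_rot {q q' X X' d : ℂ} (hx : exp (2 * X) = 1 + q ^ 2)
    (hx' : exp (2 * X') = 1 + q' ^ 2) (hq : q = q' + exp d) :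
    Real.exp X'.re ^ 2 * Real.cos (-X.im + (X - d).im - 2 * (X' - d).im) =
        Real.exp X.re ^ 2 * Real.cos (-X.im - (X - d).im) + 2 * Real.exp d.re * (-q.re) +
          Real.exp d.re ^ 2 * Real.cos (-X.im + (X - d).im) ∧
      Real.exp X'.re ^ 2 * Real.sin (-X.im + (X - d).im - 2 * (X' - d).im) =
        Real.exp X.re ^ 2 * Real.sin (-X.im - (X - d).im) + 2 * Real.exp d.re * q.im +
          Real.exp d.re ^ 2 * Real.sin (-X.im + (X - d).im) := by
  obtain ⟨h1, h2⟩ := step_id hx hx' hq
  have hd : d.im = -(-X.im + (X - d).im) := by simp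
  have e1 : (exp d).re = Real.exp d.re * Real.cos (-X.im + (X - d).im) := by
    rw [exp_re, hd, Real.cos_neg]
  have e2 : (exp d).im = -(Real.exp d.re * Real.sin (-X.im + (X - d).im)) := by
    rw [exp_im, hd, Real.sin_neg]
    simp
  have e3 : ‖exp d‖ = Real.exp d.re := norm_exp d
  rw [e1, e2, e3] at h1
  rw [e1, e2] at h2
  set s := -X.im + (X - d).im with hs
  set φ := (X - d).im with hφ
  set τ := (X' - d).im with hτ
  set L := Real.exp d.re
  have hA : -X.im - φ = s - 2 * φ := by rw [hs]; ring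
  have hcs := Real.sin_sq_add_cos_sq s
  constructor
  · rw [hA, Real.cos_sub, Real.cos_sub s]
    linear_combination Real.cos s * h1 + Real.sin s * h2 +
      (-2 * L * q.re - 0 * L ^ 2) * hcs
  · rw [hA, Real.sin_sub, Real.sin_sub s]
    linear_combination Real.sin s * h1 - Real.cos s * h2 +
      (2 * L * q.im) * hcs

end EQS
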