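import Mathlib
import Pool.Agent.Lib.MP_226de1_co.E.DStep
import Pool.Agent.Lib.MP_226de1_co.E.DPosNum
import Pool.Agent.Lib.MP_226de1_co.E.DSt
import Pool.Agent.Lib.MP_226de1_co.E.DNeg
import Pool.Agent.Lib.MP_226de1_co.E.PickLog

/-! Unit disc exit, first step, case P: `F_1 > 0`, `arg p_{-2} ≤ 0` (`2 < k ≤ 8`, all sheets).

`A = - Im X1`, `phi = Im (X1 - d1)`, `tau = Im (X2 - d1) ≤ 0`, `L = Re (X2 - X1)`
(`|b_1| = e^{k L}`). Results: `0 ≤ L`, `tan A tan phi ≤ L`, `phi ≤ A ≤ pi/4`,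
`(phi - tau)^2 ≤ L < log 2 / k`, `|D_{-2}|/|i - q_{-2}| ≤ Y`. -/

set_option autoImplicit false

namespace EQS

open Complex

variable {k C : ℝ} {q0 q1 q2 q3 d0 d1 d2 X1 X2 X3 : ℂ}

/-- `|tau| < pi/4` -/
theorem St.tau_lt (h : St k C q0 q1 q2 q3 d0 d1 d2 X1 X2 X3) :
    |(X2 - d1).im| < Real.pi / 4 := by
  have hpi := Real.pi_pos
  have := h.p2
  rw [abs_mul, abs_of_pos h.k0] at this
  nlinarith [abs_nonneg (X2 - d1).im, h.hk]

/-- `T cos (A + phi - 2 tau) ≥ cos (A - phi)`, and `A + phi - 2 tau < pi/2` -/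
theorem St.pos_T (h : St k C q0 q1 q2 q3 d0 d1 d2 X1 X2 X3) (hφ : 0 < (X1 - d1).im)
    (hτ : (X2 - d1).im ≤ 0) :
    Real.cos (-X1.im - (X1 - d1).im) ≤ Real.exp (2 * (X2 - X1).re) *
        Real.cos (-X1.im + (X1 - d1).im - 2 * (X2 - d1).im) ∧
      -X1.im + (X1 - d1).im - 2 * (X2 - d1).im < Real.pi / 2 := by
  have hpi := Real.pi_pos
  obtain ⟨hc, _⟩ := step_rot h.x1 h.x2 h.s1
  have hψ := h.psi_lt
  have a1 := h.a1
  have a2 := h.a2
  have hτ' := abs_lt.1 h.tau_lt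
  have e1 : -X1.im + (X1 - d1).im - 2 * (X2 - d1).im = -X2.im - (X2 - d1).im := by
    simp only [sub_im]
    ring
  set ω := -X1.im + (X1 - d1).im - 2 * (X2 - d1).im with hω
  set φ := (X1 - d1).im with hφd
  set A := -X1.im with hA
  have hR : 0 < Real.exp X1.re ^ 2 := by positivity
  have hT : Real.exp (2 * (X2 - X1).re) * Real.exp X1.re ^ 2 = Real.exp X2.re ^ 2 := by
    rw [← Real.exp_nat_mul, ← Real.exp_nat_mul, ← Real.exp_add]
    congr 1
    simp only [sub_re]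
    push_cast
    ring
  have hcd : 0 < Real.cos (A - φ) := Real.cos_pos_of_mem_Ioo ⟨by linarith, by linarith⟩
  have hcs : 0 < Real.cos (A + φ) := Real.cos_pos_of_mem_Ioo ⟨by linarith, by linarith⟩
  have hq : 0 < -q1.re := by linarith [h.q1neg]
  have hge : Real.exp X1.re ^ 2 * Real.cos (A - φ) ≤ Real.exp X2.re ^ 2 * Real.cos ω := by
    rw [hc]
    have := Real.exp_pos d1.re
    have : 0 ≤ 2 * Real.exp d1.re * -q1.re := by positivity
    have : 0 ≤ Real.exp d1.re ^ 2 * Real.cos (A + φ) := by positivity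
    linarith
  constructor
  · rw [← hT] at hge
    have h2 : Real.exp X1.re ^ 2 * Real.cos (A - φ) ≤
        Real.exp X1.re ^ 2 * (Real.exp (2 * (X2 - X1).re) * Real.cos ω) := by linarith
    exact le_of_mul_le_mul_left h2 hR
  · by_contra hcon
    have hcon' := not_lt.1 hcon
    have h3 : Real.cos ω ≤ 0 :=
      Real.cos_nonpos_of_pi_div_two_le_of_le hcon' (by rw [e1]; linarith)
    have h4 : 0 < Real.exp X1.re ^ 2 * Real.cos (A - φ) := by positivity
    have h5 : Real.exp X2.re ^ 2 * Real.cos ω ≤ 0 :=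
      mul_nonpos_of_nonneg_of_nonpos (by positivity) h3
    linarith

/-- `T cos (A + phi) ≥ cos (A - phi)` -/
theorem St.pos_T' (h : St k C q0 q1 q2 q3 d0 d1 d2 X1 X2 X3) (hφ : 0 < (X1 - d1).im)
    (hτ : (X2 - d1).im ≤ 0) :
    Real.cos (-X1.im - (X1 - d1).im) ≤ Real.exp (2 * (X2 - X1).re) *
        Real.cos (-X1.im + (X1 - d1).im) := by
  obtain ⟨h1, h2⟩ := h.pos_T hφ hτ
  refine h1.trans (mul_le_mul_of_nonneg_left ?_ (Real.exp_pos _).le)
  apply Real.cos_le_cos_of_nonneg_of_le_pi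
  · linarith [h.a1.2]
  · linarith [Real.pi_pos]
  · linarith

/-- `|b_1| ≥ 1` in case P -/
theorem St.pos_L (h : St k C q0 q1 q2 q3 d0 d1 d2 X1 X2 X3) (hφ : 0 < (X1 - d1).im)
    (hτ : (X2 - d1).im ≤ 0) : 0 ≤ (X2 - X1).re := by
  have hpi := Real.pi_pos
  have h1 := h.pos_T' hφ hτ
  have hψ := h.psi_lt
  have a1 := h.a1
  by_contra hcon
  have hcon' := not_le.1 hcon
  set φ := (X1 - d1).im with hφd
  set A := -X1.im with hA
  have hA0 : 0 < A := by rw [hA]; linarith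
  have hcs : 0 < Real.cos (A + φ) := Real.cos_pos_of_mem_Ioo ⟨by linarith, by linarith⟩
  have h2 : Real.exp (2 * (X2 - X1).re) < 1 := by
    rw [Real.exp_lt_one_iff]
    linarith
  have h3 : Real.cos (A + φ) ≤ Real.cos (A - φ) := by
    rw [← Real.cos_abs (A - φ)]
    apply Real.cos_le_cos_of_nonneg_of_le_pi (abs_nonneg _) (by linarith)
    rw [abs_le]
    constructor <;> linarith
  nlinarith

/-- `tan A tan phi ≤ L` -/
theorem St.pos_tan (h : St k C q0 q1 q2 q3 d0 d1 d2 X1 X2 X3) (hφ : 0 < (X1 - d1).im)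
    (hτ : (X2 - d1).im ≤ 0) :
    Real.sin (-X1.im) * Real.sin (X1 - d1).im ≤
      (X2 - X1).re * (Real.cos (-X1.im) * Real.cos (X1 - d1).im) := by
  have hpi := Real.pi_pos
  have h1 := h.pos_T' hφ hτ
  have hL := h.pos_L hφ hτ
  have hψ := h.psi_lt
  have a1 := h.a1
  set φ := (X1 - d1).im with hφd
  set A := -X1.im with hA
  set L := (X2 - X1).re with hLd
  have hA0 : 0 < A := by rw [hA]; linarith
  rw [Real.cos_sub, Real.cos_add] at h1
  have hcA : 0 < Real.cos A := Real.cos_pos_of_mem_Ioo ⟨by linarith, by linarith⟩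
  have hcφ : 0 < Real.cos φ := Real.cos_pos_of_mem_Ioo ⟨by linarith, by linarith⟩
  have hcc : 0 < Real.cos A * Real.cos φ := mul_pos hcA hcφ
  have hsc := sinh_le_mul_cosh hL
  have e1 : Real.exp (2 * L) = Real.exp L * Real.exp L := by
    rw [← Real.exp_add]
    congr 1
    ring
  have e2 : Real.exp L * Real.exp (-L) = 1 := by
    rw [← Real.exp_add, add_neg_cancel, Real.exp_zero]
  rw [Real.sinh_eq, Real.cosh_eq] at hsc
  have he := Real.exp_pos L
  -- `T - 1 ≤ L (T + 1)`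
  have h2 : Real.exp (2 * L) - 1 ≤ L * (Real.exp (2 * L) + 1) := by
    have h3 := mul_le_mul_of_nonneg_left hsc (show 0 ≤ 2 * Real.exp L by positivity)
    have e3 : 2 * Real.exp L * ((Real.exp L - Real.exp (-L)) / 2) =
        Real.exp L * Real.exp L - Real.exp L * Real.exp (-L) := by ring
    have e4 : 2 * Real.exp L * (L * ((Real.exp L + Real.exp (-L)) / 2)) =
        L * (Real.exp L * Real.exp L + Real.exp L * Real.exp (-L)) := by ring
    rw [e3, e4, e2, ← e1] at h3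
    exact h3
  have hT1 : 0 < Real.exp (2 * L) + 1 := by positivity
  have h4 : (Real.exp (2 * L) + 1) * (Real.sin A * Real.sin φ) ≤
      (Real.exp (2 * L) + 1) * (L * (Real.cos A * Real.cos φ)) := by
    have h5 := mul_le_mul_of_nonneg_right h2 hcc.le
    nlinarith
  exact le_of_mul_le_mul_left h4 hT1

/-- `k L < log 2` -/
theorem St.disc_Llt (h : St k C q0 q1 q2 q3 d0 d1 d2 X1 X2 X3)
    (he : ‖1 - pv k C X1 d0‖ = 1) (hf : ‖1 - pv k C X2 d1‖ < 1) :
    k * (X2 - X1).re < Real.log 2 := by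
  have h1 := h.dn_P he
  have h2 : ‖pv k C X2 d1‖ < 2 := by
    have e : pv k C X2 d1 = 1 - (1 - pv k C X2 d1) := by ring
    rw [e]
    have := norm_sub_le (1 : ℂ) (1 - pv k C X2 d1)
    rw [norm_one] at this
    linarith
  rw [h1] at h2
  rw [sub_re, Real.lt_log_iff_exp_lt (by norm_num)]
  exact h2

/-- (G): `Re D_0 sin 2 phi ≤ Re D_{-1} sin 2 A` -/
theorem St.pos_G (h : St k C q0 q1 q2 q3 d0 d1 d2 X1 X2 X3) (hφ : 0 < (X1 - d1).im)
    (hτ : (X2 - d1).im ≤ 0) :
    (exp d0).re * Real.sin (2 * (X1 - d1).im) ≤ Real.exp d1.re *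
      (Real.cos (-X1.im + (X1 - d1).im) * Real.sin (2 * -X1.im)) := by
  have hpi := Real.pi_pos
  have hle := h.D0_le
  have hψ := h.psi_lt
  have a1 := h.a1
  have hG := lemG h.x1 h.x2 h.s1 h.q1neg.le (by linarith [(abs_lt.1 h.tau_lt).1]) hτ
  set A := -X1.im with hA
  set φ := (X1 - d1).im with hφd
  have hA0 : 0 < A := by rw [hA]; linarith
  set L := Real.exp d1.re with hL
  have hL0 : 0 < L := Real.exp_pos _
  have e2 : d1.im = -(A + φ) := by
    rw [hA, hφd]
    simp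
  have e3 : -(2 * X1.im) = 2 * A := by rw [hA]; ring
  rw [exp_re, exp_im, ← hL, e2, Real.cos_neg, e3, Real.sin_neg] at hG
  have hsψ : 0 < Real.sin (A + φ) :=
    Real.sin_pos_of_pos_of_lt_pi (by linarith) (by linarith)
  have hs2 : 0 ≤ Real.sin (2 * φ) :=
    Real.sin_nonneg_of_nonneg_of_le_pi (by linarith) (by linarith)
  have h1 : 0 ≤ 2 * (q1.re ^ 2 / Real.exp X1.re ^ 2) * (L * Real.sin (A + φ)) := by positivity
  calc (exp d0).re * Real.sin (2 * φ) ≤ -q1.re * Real.sin (2 * φ) :=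
        mul_le_mul_of_nonneg_right hle hs2
    _ ≤ _ := by nlinarith

/-- `|D_0 / D_{-1}| = |p_{-1}|^{-1/k} ≥ 2^{-1/k}`, and the direction of `D_0` -/
theorem St.disc_d0 (h : St k C q0 q1 q2 q3 d0 d1 d2 X1 X2 X3)
    (he : ‖1 - pv k C X1 d0‖ = 1) :
    Real.exp d0.re = Real.exp d1.re * ‖pv k C X1 d0‖ ^ (-(1 / k)) ∧
      0 < ‖pv k C X1 d0‖ ∧ ‖pv k C X1 d0‖ ≤ 2 := by
  have hC := h.C0
  have k0 := h.k0
  have h4 := h.disc_re he
  have h0 : 0 < ‖pv k C X1 d0‖ := norm_pos_iff.2 (pv_ne hC)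
  refine ⟨?_, h0, ?_⟩
  · have e1 : ‖pv k C X1 d0‖ = Real.exp (k * (d1 - d0).re) := by
      rw [norm_pv hC, div_eq_iff hC.ne']
      calc Real.exp (k * (X1 - d0).re) =
            Real.exp (k * (d1 - d0).re) * Real.exp (k * (X1 - d1).re) := by
            rw [← Real.exp_add]
            congr 1
            simp only [sub_re]
            ring
        _ = _ := by rw [h4]
    rw [e1, ← Real.exp_mul, ← Real.exp_add]
    congr 1
    simp only [sub_re]
    field_simp
    ring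
  · have e : pv k C X1 d0 = 1 - (1 - pv k C X1 d0) := by ring
    rw [e]
    have := norm_sub_le (1 : ℂ) (1 - pv k C X1 d0)
    rw [norm_one] at this
    linarith

/-- `arg p_{-1} = (F_1 - pi)/2` and `|p_{-1}| = 2 sin (F_1/2)` for `0 < F_1 < 2 pi` -/
theorem St.disc_p1 (h : St k C q0 q1 q2 q3 d0 d1 d2 X1 X2 X3)
    (he : ‖1 - pv k C X1 d0‖ = 1) (hF0 : 0 < k * (X1 - d1).im)
    (hF2 : k * (X1 - d1).im < 2 * Real.pi) :
    k * (X1 - d0).im = (k * (X1 - d1).im - Real.pi) / 2 ∧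
      ‖pv k C X1 d0‖ = 2 * Real.sin (k * (X1 - d1).im / 2) ∧
      0 < Real.sin (k * (X1 - d1).im / 2) := by
  have hpi := Real.pi_pos
  have k0 := h.k0
  have hC := h.C0
  set φ := (X1 - d1).im with hφ
  have hs : 0 < Real.sin (k * φ / 2) :=
    Real.sin_pos_of_pos_of_lt_pi (by linarith) (by linarith)
  have h1 := h.disc_f1 he
  have h2 : pv k C X1 d0 = ((2 * Real.sin (k * φ / 2) : ℝ) : ℂ) *
      exp ((((k * φ - Real.pi) / 2 : ℝ) : ℂ) * I) := by
    rw [← one_sub_exp, ← h1]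
    linear_combination h.f1
  have h3' : ‖pv k C X1 d0‖ = 2 * Real.sin (k * φ / 2) := by
    rw [h2, norm_mul, norm_exp_ofReal_mul_I, mul_one,
      Complex.norm_real, Real.norm_of_nonneg (by positivity)]
  have h3 : Real.exp (k * (X1 - d0).re) / C = 2 * Real.sin (k * φ / 2) := by
    rw [← norm_pv hC (X := X1) (d := d0), h3']
  refine ⟨?_, h3', hs⟩
  have hp := abs_le.1 h.p1
  have e1 : pv k C X1 d0 = ((2 * Real.sin (k * φ / 2) : ℝ) : ℂ) *
      exp (((k * (X1 - d0).im : ℝ) : ℂ) * I) := by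
    apply Complex.ext
    · rw [pv_re, h3, re_ofReal_mul, exp_ofReal_mul_I_re]
    · rw [pv_im, h3, im_ofReal_mul, exp_ofReal_mul_I_im]
  have e2 : exp (((k * (X1 - d0).im : ℝ) : ℂ) * I) =
      exp ((((k * φ - Real.pi) / 2 : ℝ) : ℂ) * I) := by
    have e3 : ((2 * Real.sin (k * φ / 2) : ℝ) : ℂ) ≠ 0 := by
      exact_mod_cast (by positivity : (2 * Real.sin (k * φ / 2)) ≠ 0)
    apply mul_left_cancel₀ e3
    rw [← e1, h2]
  have e5 := congrArg Complex.im e2
  rw [exp_ofReal_mul_I_im, exp_ofReal_mul_I_im] at e5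
  exact Real.injOn_sin ⟨by linarith, by linarith⟩ ⟨by linarith, by linarith⟩ e5

private theorem dp_poly {a b : ℝ} (ha : 0 < a) (hab : a ≤ b) (hb : b ≤ 1) :
    2 * a * (1 - a * b) * (1 + b ^ 2) ≤ (a + b) * (1 + a ^ 2) := by
  have e : (a + b) * (1 + a ^ 2) - 2 * a * (1 - a * b) * (1 + b ^ 2) =
      (b - a) * ((1 - a) ^ 2 + 2 * a * (1 - b)) + 2 * a ^ 3 + 2 * a ^ 2 * b ^ 3 := by ring
  have h1 : 0 ≤ (b - a) * ((1 - a) ^ 2 + 2 * a * (1 - b)) :=
    mul_nonneg (by linarith) (by have := mul_nonneg ha.le (sub_nonneg.2 hb); positivity)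
  have hb0 : 0 < b := by linarith
  have h2 : 0 ≤ 2 * a ^ 3 := by positivity
  have h3 : 0 ≤ 2 * a ^ 2 * b ^ 3 := by positivity
  linarith

/-- `sin (A + phi) sin 2 phi ≥ 2 tan phi cos (A + phi) sin 2 A` for `0 < A ≤ phi ≤ pi/4` -/
private theorem dp_trig {A φ : ℝ} (hA : 0 < A) (hAφ : A ≤ φ) (hφ : φ ≤ Real.pi / 4) :
    2 * Real.tan φ * (Real.cos (A + φ) * Real.sin (2 * A)) ≤
      Real.sin (A + φ) * Real.sin (2 * φ) := by
  have hpi := Real.pi_pos
  have hcA : 0 < Real.cos A := Real.cos_pos_of_mem_Ioo ⟨by linarith, by linarith⟩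
  have hcφ : 0 < Real.cos φ := Real.cos_pos_of_mem_Ioo ⟨by linarith, by linarith⟩
  have hsA : 0 < Real.sin A := Real.sin_pos_of_pos_of_lt_pi hA (by linarith)
  have htA : Real.sin A = Real.tan A * Real.cos A := by
    rw [Real.tan_eq_sin_div_cos, div_mul_cancel₀ _ hcA.ne']
  have htφ : Real.sin φ = Real.tan φ * Real.cos φ := by
    rw [Real.tan_eq_sin_div_cos, div_mul_cancel₀ _ hcφ.ne']
  have hta : 0 < Real.tan A := Real.tan_pos_of_pos_of_lt_pi_div_two hA (by linarith)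
  have htab : Real.tan A ≤ Real.tan φ := by
    rcases hAφ.lt_or_eq with h | h
    · exact (Real.tan_lt_tan_of_lt_of_lt_pi_div_two (by linarith) (by linarith) h).le
    · rw [h]
  have htb : Real.tan φ ≤ 1 := by
    rcases hφ.lt_or_eq with h | h
    · have := Real.tan_lt_tan_of_lt_of_lt_pi_div_two (x := φ) (y := Real.pi / 4)
        (by linarith) (by linarith) h
      rw [Real.tan_pi_div_four] at this
      exact this.le
    · rw [h, Real.tan_pi_div_four]
  have hp := dp_poly hta htab htb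
  rw [Real.sin_add, Real.cos_add, Real.sin_two_mul, Real.sin_two_mul, htA, htφ]
  have hA2 : Real.cos A ^ 2 * (1 + Real.tan A ^ 2) = 1 := by
    rw [Real.tan_eq_sin_div_cos]
    field_simp
    linarith [Real.sin_sq_add_cos_sq A]
  have hφ2 : Real.cos φ ^ 2 * (1 + Real.tan φ ^ 2) = 1 := by
    rw [Real.tan_eq_sin_div_cos]
    field_simp
    linarith [Real.sin_sq_add_cos_sq φ]
  set a := Real.tan A
  set b := Real.tan φ
  set x := Real.cos A
  set y := Real.cos φ
  -- both sides carry the factor `2 b x y`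
  have hb0 : 0 < b := by linarith
  have key : 2 * (1 - a * b) * (a * x ^ 2) ≤ (a + b) * y ^ 2 := by
    have h1 : 2 * a * (1 - a * b) * (1 + b ^ 2) * (x ^ 2 * y ^ 2) ≤
        (a + b) * (1 + a ^ 2) * (x ^ 2 * y ^ 2) :=
      mul_le_mul_of_nonneg_right hp (by positivity)
    have e1 : 2 * a * (1 - a * b) * (1 + b ^ 2) * (x ^ 2 * y ^ 2) =
        2 * (1 - a * b) * (a * x ^ 2) * (y ^ 2 * (1 + b ^ 2)) := by ring
    have e2 : (a + b) * (1 + a ^ 2) * (x ^ 2 * y ^ 2) =
        (a + b) * y ^ 2 * (x ^ 2 * (1 + a ^ 2)) := by ring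
    rw [e1, e2, hA2, hφ2, mul_one, mul_one] at h1
    exact h1
  have h2 := mul_le_mul_of_nonneg_left key (show 0 ≤ 2 * b * (x * y) by positivity)
  nlinarith [h2]

/-- pure part, `phi < pi/4` -/
private theorem dp_c1 {A φ τ w g : ℝ} (hA : 0 < A) (hAφ : A ≤ φ) (hφ : φ ≤ Real.pi / 4)
    (hτ : τ = φ - g) (hg0 : 0 < g) (hg1 : g < Real.pi / 2) (hs : A + φ < Real.pi / 2)
    (hw : 0 < w) (hW : 1 < w * (Real.cos g + 2 * Real.tan φ * Real.sin g))
    (hG : w * Real.cos (A + τ) * Real.sin (2 * φ) ≤ Real.cos (A + φ) * Real.sin (2 * A)) :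
    False := by
  have hpi := Real.pi_pos
  have hcs : 0 < Real.cos (A + φ) := Real.cos_pos_of_mem_Ioo ⟨by linarith, by linarith⟩
  have hcg : 0 < Real.cos g := Real.cos_pos_of_mem_Ioo ⟨by linarith, hg1⟩
  have hsg : 0 < Real.sin g := Real.sin_pos_of_pos_of_lt_pi hg0 (by linarith)
  have e1 : A + τ = (A + φ) - g := by rw [hτ]; ring
  rw [e1, Real.cos_sub] at hG
  have t1 := dp_trig hA hAφ hφ
  have t2 : Real.sin (2 * A) ≤ Real.sin (2 * φ) := by
    apply Real.sin_le_sin_of_le_of_le_pi_div_two <;> linarith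
  have hs2A : 0 < Real.sin (2 * A) := Real.sin_pos_of_pos_of_lt_pi (by linarith) (by linarith)
  have hP : 0 < Real.cos (A + φ) * Real.sin (2 * A) := mul_pos hcs hs2A
  have u1 : Real.cos g * (Real.cos (A + φ) * Real.sin (2 * A)) ≤
      Real.cos g * (Real.cos (A + φ) * Real.sin (2 * φ)) :=
    mul_le_mul_of_nonneg_left (mul_le_mul_of_nonneg_left t2 hcs.le) hcg.le
  have u2 := mul_le_mul_of_nonneg_left t1 hsg.le
  have u3 : (Real.cos g + 2 * Real.tan φ * Real.sin g) *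
      (Real.cos (A + φ) * Real.sin (2 * A)) ≤
      (Real.cos (A + φ) * Real.cos g + Real.sin (A + φ) * Real.sin g) * Real.sin (2 * φ) := by
    calc (Real.cos g + 2 * Real.tan φ * Real.sin g) *
          (Real.cos (A + φ) * Real.sin (2 * A)) =
          Real.cos g * (Real.cos (A + φ) * Real.sin (2 * A)) +
            Real.sin g * (2 * Real.tan φ * (Real.cos (A + φ) * Real.sin (2 * A))) := by ring
      _ ≤ Real.cos g * (Real.cos (A + φ) * Real.sin (2 * φ)) +
            Real.sin g * (Real.sin (A + φ) * Real.sin (2 * φ)) := add_le_add u1 u2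
      _ = _ := by ring
  have u4 := mul_le_mul_of_nonneg_left u3 hw.le
  have u5 := mul_lt_mul_of_pos_right hW hP
  rw [one_mul] at u5
  have u6 : w * ((Real.cos (A + φ) * Real.cos g + Real.sin (A + φ) * Real.sin g) *
      Real.sin (2 * φ)) = w * (Real.cos (A + φ) * Real.cos g + Real.sin (A + φ) * Real.sin g) *
      Real.sin (2 * φ) := by ring
  have u7 : w * ((Real.cos g + 2 * Real.tan φ * Real.sin g) *
      (Real.cos (A + φ) * Real.sin (2 * A))) =
      w * (Real.cos g + 2 * Real.tan φ * Real.sin g) *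
        (Real.cos (A + φ) * Real.sin (2 * A)) := by ring
  rw [u6, u7] at u4
  linarith

/-- pure part, `phi ≥ pi/4` -/
private theorem dp_c2 {A φ τ w L : ℝ} (hA : 0 < A) (hφ : Real.pi / 4 ≤ φ)
    (hs : A + φ < Real.pi / 2) (hL : L ≤ 0.3466)
    (htan : Real.sin A * Real.sin φ ≤ L * (Real.cos A * Real.cos φ))
    (hτ : |A + τ| ≤ 0.68) (hw : 0.7071 ≤ w)
    (hG : w * Real.cos (A + τ) * Real.sin (2 * φ) ≤ Real.cos (A + φ) * Real.sin (2 * A)) :
    False := by
  have hpi := Real.pi_pos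
  have hcφ : 0 < Real.cos φ := Real.cos_pos_of_mem_Ioo ⟨by linarith, by linarith⟩
  have hcA : 0 < Real.cos A := Real.cos_pos_of_mem_Ioo ⟨by linarith, by linarith⟩
  have hsφ : 0 < Real.sin φ := Real.sin_pos_of_pos_of_lt_pi (by linarith) (by linarith)
  have hsA : 0 < Real.sin A := Real.sin_pos_of_pos_of_lt_pi hA (by linarith)
  have hcos : 0.7688 ≤ Real.cos (A + τ) := by
    have h1 := Real.one_sub_sq_div_two_le_cos (x := A + τ)
    have h2 : (A + τ) ^ 2 ≤ 0.68 ^ 2 := sq_le_sq' (by linarith [(abs_le.1 hτ).1])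
      (abs_le.1 hτ).2
    norm_num at h2 ⊢
    linarith
  have hwc : 0.5436 ≤ w * Real.cos (A + τ) := by
    calc (0.5436 : ℝ) ≤ 0.7071 * 0.7688 := by norm_num
      _ ≤ _ := mul_le_mul hw hcos (by norm_num) (by linarith)
  have hs2 : 0 ≤ Real.sin (2 * φ) :=
    Real.sin_nonneg_of_nonneg_of_le_pi (by linarith) (by linarith)
  have g1 : 0.5436 * Real.sin (2 * φ) ≤ Real.cos (A + φ) * Real.sin (2 * A) :=
    (mul_le_mul_of_nonneg_right hwc hs2).trans hG
  have g2 : Real.cos (A + φ) ≤ Real.cos φ := by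
    apply Real.cos_le_cos_of_nonneg_of_le_pi <;> linarith
  have g3 : Real.sin (2 * A) ≤ 2 * Real.sin A := by
    rw [Real.sin_two_mul]
    have := mul_le_mul_of_nonneg_left (Real.cos_le_one A) hsA.le
    linarith
  have g4 : 0.5436 * (2 * Real.sin φ * Real.cos φ) ≤ Real.cos φ * (2 * Real.sin A) := by
    rw [Real.sin_two_mul] at g1
    refine g1.trans (mul_le_mul g2 g3 ?_ hcφ.le)
    rw [Real.sin_two_mul]
    positivity
  have g5 : 0.5436 * Real.sin φ ≤ Real.sin A := by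
    have : 2 * Real.cos φ * (0.5436 * Real.sin φ) ≤ 2 * Real.cos φ * Real.sin A := by linarith
    exact le_of_mul_le_mul_left this (by positivity)
  have g6 : 1 / 2 ≤ Real.sin φ ^ 2 := by
    have h1 : Real.cos (2 * φ) ≤ 0 := Real.cos_nonpos_of_pi_div_two_le_of_le (by linarith)
      (by linarith)
    rw [Real.cos_two_mul] at h1
    linarith [Real.sin_sq_add_cos_sq φ]
  have g7 : Real.cos φ ≤ 0.70711 := by
    have h1 : Real.cos φ ^ 2 ≤ 1 / 2 := by linarith [Real.sin_sq_add_cos_sq φ]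
    exact le_of_sq_le_sq (by norm_num; linarith) (by norm_num)
  have g8 : 0.5436 * Real.sin φ ^ 2 ≤ Real.sin A * Real.sin φ := by
    have := mul_le_mul_of_nonneg_right g5 hsφ.le
    calc 0.5436 * Real.sin φ ^ 2 = 0.5436 * Real.sin φ * Real.sin φ := by ring
      _ ≤ _ := this
  have g9 : Real.cos A * Real.cos φ ≤ 0.70711 := by
    have := mul_le_mul (Real.cos_le_one A) g7 hcφ.le (by norm_num : (0:ℝ) ≤ 1)
    linarith
  have hcc : 0 ≤ Real.cos A * Real.cos φ := by positivity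
  have g10 : L * (Real.cos A * Real.cos φ) ≤ 0.3466 * 0.70711 :=
    (mul_le_mul_of_nonneg_right hL hcc).trans (mul_le_mul_of_nonneg_left g9 (by norm_num))
  norm_num at g10
  linarith

/-- pure part: the angle `A + tau_1` for `phi ≥ pi/4` -/
private theorem dp_c3 {k A φ τ L : ℝ} (hk : 2 < k) (hk8 : k ≤ 8) (hφ : Real.pi / 4 ≤ φ)
    (hφ2 : φ < Real.pi / 2) (hA : 0 < A) (hAL : A ≤ L) (hkL : k * L ≤ 0.6932)
    (hp : |k * τ| ≤ Real.pi / 2)
    (hτ : k * φ < 2 * Real.pi → k * τ = (k * φ - Real.pi) / 2) : |A + τ| ≤ 0.68 := by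
  have hpi3 := Real.pi_gt_d4
  have hpi4 := Real.pi_lt_d4
  have hp1 := abs_le.1 hp
  have k0 : 0 < k := by linarith
  have hkA : k * A ≤ 0.6932 := (mul_le_mul_of_nonneg_left hAL k0.le).trans hkL
  have f1 : k * (Real.pi / 4) ≤ k * φ := mul_le_mul_of_nonneg_left hφ k0.le
  have f2 : k * φ < k * (Real.pi / 2) := mul_lt_mul_of_pos_left hφ2 k0
  have f3 : k * 0.7853 ≤ k * (Real.pi / 4) := mul_le_mul_of_nonneg_left (by linarith) k0.le
  have f4 : k * (Real.pi / 2) ≤ k * 1.5708 := mul_le_mul_of_nonneg_left (by linarith) k0.le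
  have lower : -(0.68 * k) ≤ k * τ := by
    rcases lt_or_ge (k * φ) (2 * Real.pi) with h5 | h5
    · rw [hτ h5]
      linarith
    · linarith
  have upper : k * (A + τ) ≤ 0.68 * k := by
    rw [mul_add]
    rcases lt_or_ge (k * φ) (2 * Real.pi) with h5 | h5
    · rw [hτ h5]
      linarith
    · linarith
  rw [abs_le]
  constructor
  · have : k * (-0.68) ≤ k * τ := by linarith
    have := le_of_mul_le_mul_left this k0
    linarith
  · have : k * (A + τ) ≤ k * 0.68 := by linarith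
    exact le_of_mul_le_mul_left this k0

private theorem dp_w {k n : ℝ} (hk : 2 < k) (hn0 : 0 < n) (hn2 : n ≤ 2) :
    0.7071 ≤ n ^ (-(1 / k)) := by
  have h1 : (2 : ℝ) ^ (-(1 / k)) ≤ n ^ (-(1 / k)) := by
    apply Real.rpow_le_rpow_of_nonpos hn0 hn2
    have : 0 < 1 / k := by positivity
    linarith
  have h2 : (2 : ℝ) ^ (-(1 / 2 : ℝ)) ≤ (2 : ℝ) ^ (-(1 / k)) := by
    apply Real.rpow_le_rpow_of_exponent_le (by norm_num)
    have : 1 / k ≤ 1 / 2 := one_div_le_one_div_of_le (by norm_num) hk.le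
    linarith
  have h3 : (0.7071 : ℝ) ≤ (2 : ℝ) ^ (-(1 / 2 : ℝ)) := by
    rw [Real.rpow_neg (by norm_num), ← Real.sqrt_eq_rpow, ← one_div]
    rw [le_div_iff₀ (by positivity)]
    have h5 : Real.sqrt 2 ≤ 1.41422 := by
      rw [Real.sqrt_le_left (by norm_num)]
      norm_num
    calc 0.7071 * Real.sqrt 2 ≤ 0.7071 * 1.41422 := mul_le_mul_of_nonneg_left h5 (by norm_num)
      _ ≤ 1 := by norm_num
  linarith

/-- `phi_1 ≤ A_1` in case P -/
theorem St.pos_phi_le (h : St k C q0 q1 q2 q3 d0 d1 d2 X1 X2 X3) (hk8 : k ≤ 8)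
    (he : ‖1 - pv k C X1 d0‖ = 1) (hf : ‖1 - pv k C X2 d1‖ < 1) (hφ : 0 < (X1 - d1).im)
    (hτ : (X2 - d1).im ≤ 0) : (X1 - d1).im ≤ -X1.im := by
  have hpi := Real.pi_pos
  have k0 := h.k0
  have hk := h.hk
  by_contra hcon
  have hcon' := not_le.1 hcon
  obtain ⟨hd0, hn0, hn2⟩ := h.disc_d0 he
  have hG := h.pos_G hφ hτ
  have htan := h.pos_tan hφ hτ
  have hLt := h.disc_Llt he hf
  have hψ := h.psi_lt
  have a1 := h.a1
  have e0 : d0.im = -(-X1.im + (X1 - d0).im) := by simp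
  rw [exp_re, hd0, e0, Real.cos_neg] at hG
  have hp1 := h.p1
  have hA0 : 0 < -X1.im := by linarith
  have hw0 : 0 < ‖pv k C X1 d0‖ ^ (-(1 / k)) := Real.rpow_pos_of_pos hn0 _
  have hG' : ‖pv k C X1 d0‖ ^ (-(1 / k)) * Real.cos (-X1.im + (X1 - d0).im) *
      Real.sin (2 * (X1 - d1).im) ≤
      Real.cos (-X1.im + (X1 - d1).im) * Real.sin (2 * -X1.im) := by
    have hD := Real.exp_pos d1.re
    refine le_of_mul_le_mul_left ?_ hD
    calc _ = _ := by ring
      _ ≤ _ := hG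
  rcases lt_or_ge (X1 - d1).im (Real.pi / 4) with h4 | h4
  · have hF2 : k * (X1 - d1).im < 2 * Real.pi := by
      have := mul_lt_mul_of_pos_left h4 k0
      have := mul_le_mul_of_nonneg_right hk8 (show 0 ≤ Real.pi / 4 by positivity)
      linarith
    obtain ⟨ha, hb, hs⟩ := h.disc_p1 he (mul_pos k0 hφ) hF2
    have hW := dp_W1 hk.le hk8 hφ h4.le hs
    rw [← hb] at hW
    have hpk : Real.pi / k ≤ Real.pi / 2 :=
      div_le_div_of_nonneg_left hpi.le (by norm_num) hk.le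
    have hpk0 : 0 < Real.pi / k := by positivity
    have hτe : (X1 - d0).im = (X1 - d1).im - ((X1 - d1).im + Real.pi / k) / 2 := by
      have : k * (X1 - d0).im = k * ((X1 - d1).im - ((X1 - d1).im + Real.pi / k) / 2) := by
        rw [ha]
        field_simp
        ring
      exact mul_left_cancel₀ k0.ne' this
    exact dp_c1 hA0 hcon'.le h4.le hτe (by linarith) (by linarith) hψ hw0 hW hG'
  · have hlog : Real.log 2 < 0.6932 := by
      have := Real.log_two_lt_d9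
      linarith
    have hφ2 : (X1 - d1).im < Real.pi / 2 := by linarith
    have hcφ : 0 < Real.cos (X1 - d1).im := Real.cos_pos_of_mem_Ioo ⟨by linarith, hφ2⟩
    have hcA : 0 < Real.cos (-X1.im) := Real.cos_pos_of_mem_Ioo ⟨by linarith, by linarith⟩
    have hsA : 0 < Real.sin (-X1.im) := Real.sin_pos_of_pos_of_lt_pi hA0 (by linarith)
    have hL1 : (X2 - X1).re ≤ 0.3466 := by
      by_contra hc
      have := mul_lt_mul_of_pos_left (not_le.1 hc) k0
      linarith
    have hAL : -X1.im ≤ (X2 - X1).re := by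
      have h1 : -X1.im ≤ Real.tan (-X1.im) := (Real.lt_tan hA0 (by linarith)).le
      have h2 : Real.tan (-X1.im) ≤ (X2 - X1).re := by
        rw [Real.tan_eq_sin_div_cos, div_le_iff₀ hcA]
        have h3 : Real.cos (X1 - d1).im ≤ Real.sin (X1 - d1).im := by
          rw [← Real.sin_pi_div_two_sub]
          apply Real.sin_le_sin_of_le_of_le_pi_div_two <;> linarith
        have h5 := mul_le_mul_of_nonneg_left h3 hsA.le
        have h6 : Real.sin (-X1.im) * Real.cos (X1 - d1).im ≤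
            (X2 - X1).re * Real.cos (-X1.im) * Real.cos (X1 - d1).im := by linarith
        exact le_of_mul_le_mul_right h6 hcφ
      linarith
    have hτb := dp_c3 hk hk8 h4 hφ2 hA0 hAL (by linarith) hp1
      (fun h5 => (h.disc_p1 he (mul_pos k0 hφ) h5).1)
    exact dp_c2 hA0 h4 hψ hL1 htan hτb (dp_w hk hn0 hn2) hG'

end EQS
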