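import Mathlib
import Pool.Agent.Lib.MP_226de1_co.E.DSt
import Pool.Agent.Lib.MP_226de1_co.E.NumReal

/-! Unit disc exit, `F_1 > 0`: `|D_{-1}|^2 ≤ 4 (9/25) Re D_0 Re (D_0 + D_{-1})`, real part. -/

set_option autoImplicit false

namespace EQS

open Real

/-- `cos x ≤ exp (-x^2/2)` -/
theorem cos_le_exp1 {x : ℝ} (hx : |x| ≤ 1) : cos x ≤ exp (-(x ^ 2 / 2)) := by
  have h1 := cos_le_quartic hx
  have h0 : x ^ 2 ≤ 1 := by
    rw [← sq_abs]
    exact pow_le_one₀ (abs_nonneg _) hx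
  have h2 := exp_neg_ge_cubic (x := x ^ 2 / 2) (by positivity) (by linarith)
  have h3 : 0 ≤ x ^ 2 := sq_nonneg x
  have h4 : x ^ 6 ≤ x ^ 4 := by
    have : x ^ 6 = x ^ 4 * x ^ 2 := by ring
    rw [this]
    exact mul_le_of_le_one_right (by positivity) h0
  have h5 : 0 ≤ x ^ 4 := by positivity
  have e : 1 - x ^ 2 / 2 + (x ^ 2 / 2) ^ 2 / 2 - (x ^ 2 / 2) ^ 3 / 4 =
      1 - x ^ 2 / 2 + x ^ 4 / 8 - x ^ 6 / 32 := by ring
  rw [e] at h2
  linarith

theorem cos_le_exp2 {x : ℝ} (hx : |x| ≤ 2) : cos x ≤ exp (-(x ^ 2 / 2)) := by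
  have h1 := cos_le_exp1 (x := x / 2) (by rw [abs_div, abs_two]; linarith)
  have h2 := Real.cos_two_mul (x / 2)
  rw [show 2 * (x / 2) = x by ring] at h2
  have h3 : exp (-((x / 2) ^ 2 / 2)) ^ 2 = exp (-(x ^ 2 / 4)) := by
    rw [← Real.exp_nat_mul]
    congr 1
    push_cast
    ring
  have h4 : exp (-(x ^ 2 / 4)) ^ 2 = exp (-(x ^ 2 / 2)) := by
    rw [← Real.exp_nat_mul]
    congr 1
    push_cast
    ring
  have h6 : 1 - (x / 2) ^ 2 / 2 ≤ cos (x / 2) := Real.one_sub_sq_div_two_le_cos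
  have h7 : (x / 2) ^ 2 ≤ 1 := by
    rw [← sq_abs, abs_div, abs_two]
    exact pow_le_one₀ (by positivity) (by linarith)
  have h5 : cos (x / 2) ^ 2 ≤ exp (-(x ^ 2 / 4)) := by
    rw [← h3]
    exact pow_le_pow_left₀ (by linarith) h1 2
  rw [h2, ← h4]
  nlinarith [sq_nonneg (exp (-(x ^ 2 / 4)) - 1)]

/-- the factor `(2 sin (F/2)) ^ (-1/k)` -/
theorem rp_a {k φ : ℝ} (hk : 2 < k) (hφ : 0 < φ) (hl : k * φ ^ 2 ≤ log 2)
    (hs : 0 < sin (k * φ / 2)) : 8725 / 10000 ≤ (2 * sin (k * φ / 2)) ^ (-(1 / k)) := by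
  have k0 : 0 < k := by linarith
  have hF : 0 < k * φ := mul_pos k0 hφ
  have h1 : sin (k * φ / 2) ≤ k * φ / 2 := (Real.sin_lt (by positivity)).le
  have h2 : log (2 * sin (k * φ / 2)) ≤ log (k * φ) := Real.log_le_log (by positivity) (by linarith)
  have h3 : log (k * φ) ≤ (k * φ) ^ 2 / (2 * exp 1) := by
    have e1 := Real.log_le_sub_one_of_pos (x := (k * φ) ^ 2 / exp 1) (by positivity)
    rw [Real.log_div (by positivity) (exp_pos 1).ne', Real.log_exp, Real.log_pow] at e1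
    push_cast at e1
    have e2 : (k * φ) ^ 2 / (2 * exp 1) = ((k * φ) ^ 2 / exp 1) / 2 := by
      field_simp
    rw [e2]
    linarith
  have h4 : (1 / k) * ((k * φ) ^ 2 / (2 * exp 1)) = k * φ ^ 2 / (2 * exp 1) := by
    field_simp
  have he := Real.exp_one_gt_d9
  have hl2 := Real.log_two_lt_d9
  have h5 : k * φ ^ 2 / (2 * exp 1) ≤ 1275 / 10000 := by
    rw [div_le_iff₀ (by positivity)]
    norm_num at he hl2 ⊢
    linarith
  have h6 : (1 / k) * log (2 * sin (k * φ / 2)) ≤ 1275 / 10000 := by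
    calc (1 / k) * log (2 * sin (k * φ / 2)) ≤ (1 / k) * ((k * φ) ^ 2 / (2 * exp 1)) :=
          mul_le_mul_of_nonneg_left (le_trans h2 h3) (by positivity)
      _ ≤ _ := by rw [h4]; exact h5
  rw [Real.rpow_def_of_pos (by positivity)]
  have h7 := Real.add_one_le_exp (log (2 * sin (k * φ / 2)) * -(1 / k))
  linarith

/-- polynomial part -/
theorem rp_poly {u φ p : ℝ} (hu : 1 / 8 ≤ u) (hu2 : u ≤ 1 / 2) (hφ : 0 < φ)
    (hl : φ ^ 2 ≤ 6932 / 10000 * u) (hp : 31415 / 10000 ≤ p) (hp2 : p ≤ 31416 / 10000) :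
    25 / 36 ≤ 3806 / 10000 * (1 + (2 * u - 6367 / 10000 * φ)) +
      43625 / 100000 * (1 - (p * u + φ) ^ 2 / 8 - (3 * φ - p * u) / 2) := by
  have h1 : (p * u + φ) ^ 2 ≤ (31416 / 10000 * u + φ) ^ 2 := by
    apply pow_le_pow_left₀
    · positivity
    · have : p * u ≤ 31416 / 10000 * u := mul_le_mul_of_nonneg_right hp2 (by linarith)
      linarith
  have h2 : 31415 / 10000 * u ≤ p * u := mul_le_mul_of_nonneg_right hp (by linarith)
  rcases le_or_gt u (1 / 4) with h | h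
  · have h3 : φ ≤ 9904 / 10000 * u + 175 / 1000 := by nlinarith [sq_nonneg (φ - 35 / 100)]
    have h4 : (31416 / 10000 * u + φ) ^ 2 ≤
        (31416 / 10000 * u + (9904 / 10000 * u + 175 / 1000)) ^ 2 := by
      apply pow_le_pow_left₀
      · positivity
      · linarith
    nlinarith [mul_nonneg (by linarith : 0 ≤ u - 1 / 8) (by linarith : 0 ≤ 1 / 4 - u)]
  · have h3 : φ ≤ 6932 / 10000 * u + 25 / 100 := by nlinarith [sq_nonneg (φ - 1 / 2)]
    have h4 : (31416 / 10000 * u + φ) ^ 2 ≤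
        (31416 / 10000 * u + (6932 / 10000 * u + 25 / 100)) ^ 2 := by
      apply pow_le_pow_left₀
      · positivity
      · linarith
    nlinarith [mul_nonneg (by linarith : 0 ≤ u - 1 / 4) (by linarith : 0 ≤ 1 / 2 - u)]

theorem rp_fin {a Y Z Y' Z' : ℝ} (ha : 8725 / 10000 ≤ a) (hY0 : 0 ≤ Y) (hZ0 : 0 ≤ Z)
    (hY : Y' ≤ Y) (hZ : Z' ≤ Z)
    (h : 25 / 36 ≤ 3806 / 10000 * Y' + 43625 / 100000 * Z') :
    25 / 36 ≤ a ^ 2 / 2 * Y + a / 2 * Z := by
  have a2 : 3806 / 10000 ≤ a ^ 2 / 2 := by nlinarith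
  have c1 : 3806 / 10000 * Y ≤ a ^ 2 / 2 * Y := mul_le_mul_of_nonneg_right a2 hY0
  have c2 : 43625 / 100000 * Z ≤ a / 2 * Z := mul_le_mul_of_nonneg_right (by linarith) hZ0
  linarith

theorem rp_fin1 {a Y Z : ℝ} (ha : 1 ≤ a) (hY : 1 ≤ Y) (hZ : 1 / 2 ≤ Z) :
    25 / 36 ≤ a ^ 2 / 2 * Y + a / 2 * Z := by
  have a2 : 1 / 2 ≤ a ^ 2 / 2 := by nlinarith
  have c1 : 1 / 2 * Y ≤ a ^ 2 / 2 * Y := mul_le_mul_of_nonneg_right a2 (by linarith)
  have c2 : 1 / 2 * Z ≤ a / 2 * Z := mul_le_mul_of_nonneg_right (by linarith) (by linarith)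
  linarith

/-- the R-side bound, real form -/
theorem rpos_core {k A φ : ℝ} (hk : 2 < k) (hk8 : k ≤ 8) (hφ : 0 < φ) (hφA : φ ≤ A)
    (hA : A ≤ π / 4) (hl : k * φ ^ 2 ≤ log 2) :
    25 / 36 ≤ c0 k A φ * (c0 k A φ + cos (A + φ)) := by
  have k0 : 0 < k := by linarith
  have hpi := Real.pi_gt_d4
  have hpi2 := Real.pi_lt_d4
  have hl2 := Real.log_two_lt_d9
  have hl3 : log 2 ≤ 6932 / 10000 := by
    norm_num at hl2 ⊢
    linarith
  have hF0 : 0 < k * φ := mul_pos k0 hφ
  have hF2 : (k * φ) ^ 2 ≤ 55456 / 10000 := by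
    have e1 : (k * φ) ^ 2 = k * (k * φ ^ 2) := by ring
    have e2 : k * (k * φ ^ 2) ≤ 8 * (6932 / 10000) :=
      mul_le_mul hk8 (le_trans hl hl3) (by positivity) (by norm_num)
    rw [e1]
    linarith
  have hF : k * φ ≤ 236 / 100 := by
    apply le_of_sq_le_sq _ (by norm_num)
    linarith
  have hs : 0 < sin (k * φ / 2) := Real.sin_pos_of_pos_of_lt_pi (by linarith) (by linarith)
  set x := (π - k * φ) / (2 * k) with hx
  have hx2 : 2 * x = π * (1 / k) - φ := by
    rw [hx]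
    field_simp
  set u := 1 / k with hu
  have hu1 : 1 / 8 ≤ u := one_div_le_one_div_of_le k0 hk8
  have hu2 : u ≤ 1 / 2 := one_div_le_one_div_of_le (by norm_num) hk.le
  have hu0 : 0 < u := by positivity
  have hφu : φ = (k * φ) * u := by
    rw [hu]
    field_simp
  have hx0 : 0 < x := by
    rw [hx]
    apply div_pos (by linarith) (by linarith)
  set a := (2 * sin (k * φ / 2)) ^ (-(1 / k)) with ha
  have hc0 : c0 k A φ = a * cos (A - x) := by
    rw [c0, ← ha, ← hx]
  rw [hc0]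
  have e1 : cos (A - x) ^ 2 = (1 + cos (2 * A - 2 * x)) / 2 := by
    have := Real.cos_two_mul (A - x)
    rw [show 2 * (A - x) = 2 * A - 2 * x by ring] at this
    linarith
  have e2 : cos (A - x) * cos (A + φ) = (cos (2 * A - x + φ) + cos (x + φ)) / 2 := by
    have h1 := Real.cos_add (A - x) (A + φ)
    have h2 := Real.cos_sub (A + φ) (A - x)
    rw [show A - x + (A + φ) = 2 * A - x + φ by ring] at h1
    rw [show A + φ - (A - x) = x + φ by ring] at h2
    rw [h1, h2]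
    ring
  have e3 : a * cos (A - x) * (a * cos (A - x) + cos (A + φ)) =
      a ^ 2 / 2 * (1 + cos (2 * A - 2 * x)) + a / 2 * (cos (2 * A - x + φ) + cos (x + φ)) := by
    calc a * cos (A - x) * (a * cos (A - x) + cos (A + φ)) =
        a ^ 2 * cos (A - x) ^ 2 + a * (cos (A - x) * cos (A + φ)) := by ring
      _ = _ := by rw [e1, e2]; ring
  rw [e3]
  rcases le_or_gt (k * φ) (π / 3) with hcase | hcase
  · -- `F ≤ π/3`
    have hs1 : 2 * sin (k * φ / 2) ≤ 1 := by
      have h1 : sin (k * φ / 2) ≤ sin (π / 6) :=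
        Real.sin_le_sin_of_le_of_le_pi_div_two (by linarith) (by linarith) (by linarith)
      rw [Real.sin_pi_div_six] at h1
      linarith
    have ha1 : 1 ≤ a := by
      rw [ha]
      apply Real.one_le_rpow_of_pos_of_le_one_of_nonpos (by positivity) hs1
      rw [neg_nonpos]
      positivity
    have hπu : π * u ≤ π / 2 := by
      have := mul_le_mul_of_nonneg_left hu2 Real.pi_pos.le
      linarith
    have hx4 : 2 * x ≤ π / 2 := by
      rw [hx2]
      linarith
    have hφx : φ ≤ x := by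
      have : φ * 3 ≤ π * u := by
        have := mul_le_mul_of_nonneg_right hcase hu0.le
        rw [← hφu] at this
        linarith
      linarith
    have b1 : 0 ≤ cos (2 * A - 2 * x) :=
      Real.cos_nonneg_of_mem_Icc ⟨by linarith, by linarith⟩
    have b2 : 0 ≤ cos (2 * A - x + φ) :=
      Real.cos_nonneg_of_mem_Icc ⟨by linarith, by linarith⟩
    have b3 : 1 / 2 ≤ cos (x + φ) := by
      rw [← Real.cos_pi_div_three]
      apply Real.cos_le_cos_of_nonneg_of_le_pi (by linarith) (by linarith)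
      linarith
    exact rp_fin1 ha1 (by linarith) (by linarith)
  · -- `F > π/3`
    have ha1 : 8725 / 10000 ≤ a := rp_a hk hφ hl hs
    have hδ : 0 ≤ φ - x := by
      have : π * u ≤ φ * 3 := by
        have := mul_le_mul_of_nonneg_right hcase.le hu0.le
        rw [← hφu] at this
        linarith
      linarith
    have b1 : (2 / π) * (2 * x) ≤ cos (2 * A - 2 * x) := by
      have h1 : cos (π / 2 - 2 * x) ≤ cos (2 * A - 2 * x) := by
        apply Real.cos_le_cos_of_nonneg_of_le_pi (by linarith) (by linarith) (by linarith)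
      rw [Real.cos_pi_div_two_sub] at h1
      refine le_trans ?_ h1
      exact Real.mul_le_sin (by linarith) (by linarith)
    have b2 : -(φ - x) ≤ cos (2 * A - x + φ) := by
      have h1 : cos (φ - x + π / 2) ≤ cos (2 * A - x + φ) := by
        apply Real.cos_le_cos_of_nonneg_of_le_pi (by linarith)
        · have : φ ≤ A := hφA
          linarith
        · linarith
      rw [Real.cos_add_pi_div_two] at h1
      have h2 := Real.sin_le hδ
      linarith
    have b3 : 1 - (x + φ) ^ 2 / 2 ≤ cos (x + φ) := Real.one_sub_sq_div_two_le_cos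
    have hφl : φ ^ 2 ≤ 6932 / 10000 * u := by
      have h1 : φ ^ 2 = (k * φ ^ 2) * u := by
        rw [hu]
        field_simp
      rw [h1]
      exact mul_le_mul_of_nonneg_right (le_trans hl hl3) hu0.le
    have hpoly := rp_poly hu1 hu2 hφ hφl (p := π) (by norm_num at hpi ⊢; linarith)
      (by norm_num at hpi2 ⊢; linarith)
    have b4 : 2 * u - 6367 / 10000 * φ ≤ (2 / π) * (2 * x) := by
      rw [hx2]
      have h1 : 2 / π ≤ 6367 / 10000 := by
        rw [div_le_iff₀ (by linarith)]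
        norm_num at hpi ⊢
        linarith
      have h2 : 2 / π * (π * u - φ) = 2 * u - 2 / π * φ := by
        field_simp
      rw [h2]
      have h3 : 2 / π * φ ≤ 6367 / 10000 * φ := mul_le_mul_of_nonneg_right h1 hφ.le
      linarith
    have b5 : (π * u + φ) ^ 2 / 8 = (x + φ) ^ 2 / 2 := by
      have : π * u + φ = 2 * (x + φ) := by linarith
      rw [this]
      ring
    have b6 : (3 * φ - π * u) / 2 = φ - x := by linarith
    rw [b5, b6] at hpoly
    set Y := 1 + cos (2 * A - 2 * x) with hY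
    set Z := cos (2 * A - x + φ) + cos (x + φ) with hZ
    have hY1 : 1 + (2 * u - 6367 / 10000 * φ) ≤ Y := by
      rw [hY]
      linarith
    have hZ1 : 1 - (x + φ) ^ 2 / 2 - (φ - x) ≤ Z := by
      rw [hZ]
      linarith
    have hY0 : 0 ≤ Y := by
      rw [hY]
      linarith [Real.neg_one_le_cos (2 * A - 2 * x)]
    have hZ0 : 0 ≤ Z := by
      have g1 : π * u ≤ φ * 3 := by linarith
      have g2 : 31415 / 10000 * u ≤ π * u :=
        mul_le_mul_of_nonneg_right (by norm_num at hpi ⊢; linarith) hu0.le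
      linarith
    exact rp_fin ha1 hY0 hZ0 hY1 hZ1 hpoly

end EQS
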