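import Mathlib
import Pool.Agent.Lib.MP_226de1_co.E.DRpos

/-! Unit disc exit, `F_1 > 0`, `arg p_{-2} ≤ 0`: `|D_{-1}|^2 ≤ 4 (9/25) Re D_0 Re (D_0 + D_{-1})`. -/

set_option autoImplicit false

namespace EQS

open Complex

variable {k C : ℝ} {q0 q1 q2 q3 d0 d1 d2 X1 X2 X3 : ℂ}

/-- length and direction of `D_0`, for `F_1 < 2 π` -/
theorem St.disc_D0' (h : St k C q0 q1 q2 q3 d0 d1 d2 X1 X2 X3)
    (he : ‖1 - pv k C X1 d0‖ = 1) (hF : 0 < (X1 - d1).im)
    (hF2 : k * (X1 - d1).im < 2 * Real.pi) :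
    (exp d0).re = Real.exp d1.re * c0 k (-X1.im) (X1 - d1).im ∧
      0 < Real.sin (k * (X1 - d1).im / 2) := by
  have hpi := Real.pi_pos
  have k0 := h.k0
  have hC := h.C0
  set φ := (X1 - d1).im with hφ
  have hF0 : 0 < k * φ := mul_pos k0 hF
  have hs : 0 < Real.sin (k * φ / 2) :=
    Real.sin_pos_of_pos_of_lt_pi (by linarith) (by linarith)
  refine ⟨?_, hs⟩
  have h1 := h.disc_f1 he
  have h2 : pv k C X1 d0 = ((2 * Real.sin (k * φ / 2) : ℝ) : ℂ) *
      exp ((((k * φ - Real.pi) / 2 : ℝ) : ℂ) * I) := by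
    rw [← one_sub_exp, ← h1]
    linear_combination h.f1
  -- modulus
  have h3 : Real.exp (k * (X1 - d0).re) / C = 2 * Real.sin (k * φ / 2) := by
    rw [← norm_pv hC (X := X1) (d := d0), h2, norm_mul, norm_exp_ofReal_mul_I, mul_one,
      Complex.norm_real, Real.norm_of_nonneg (by positivity)]
  have h4 := h.disc_re he
  have h5 : Real.exp (k * (d1 - d0).re) = 2 * Real.sin (k * φ / 2) := by
    have e1 : k * (X1 - d0).re = k * (d1 - d0).re + k * (X1 - d1).re := by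
      simp only [sub_re]; ring
    rw [e1, Real.exp_add, h4, mul_div_assoc, div_self hC.ne', mul_one] at h3
    exact h3
  have h6 : (2 * Real.sin (k * φ / 2)) ^ (-(1 / k)) = Real.exp (d0 - d1).re := by
    rw [← h5, ← Real.exp_mul]
    congr 1
    simp only [sub_re]
    field_simp
    ring
  -- argument
  have h7 : k * (X1 - d0).im = (k * φ - Real.pi) / 2 := by
    have hp := abs_le.1 h.p1
    have e1 : pv k C X1 d0 = ((2 * Real.sin (k * φ / 2) : ℝ) : ℂ) *
        exp (((k * (X1 - d0).im : ℝ) : ℂ) * I) := by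
      apply Complex.ext
      · rw [pv_re, h3, re_ofReal_mul, exp_ofReal_mul_I_re]
      · rw [pv_im, h3, im_ofReal_mul, exp_ofReal_mul_I_im]
    have e2 : exp (((k * (X1 - d0).im : ℝ) : ℂ) * I) =
        exp ((((k * φ - Real.pi) / 2 : ℝ) : ℂ) * I) := by
      have e3 : ((2 * Real.sin (k * φ / 2) : ℝ) : ℂ) ≠ 0 := by
        exact_mod_cast (by positivity : (2 * Real.sin (k * φ / 2)) ≠ 0)
      apply mul_left_cancel₀ e3
      rw [← e1, h2]
    have e4 := congrArg Complex.re e2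
    have e5 := congrArg Complex.im e2
    rw [exp_ofReal_mul_I_re, exp_ofReal_mul_I_re] at e4
    rw [exp_ofReal_mul_I_im, exp_ofReal_mul_I_im] at e5
    exact Real.injOn_sin ⟨by linarith, by linarith⟩ ⟨by linarith, by linarith⟩ e5
  have h8 : d0.im = X1.im - (k * φ - Real.pi) / (2 * k) := by
    have : (X1 - d0).im = (k * φ - Real.pi) / (2 * k) := by
      field_simp
      linarith
    rw [sub_im] at this
    linarith
  have h9 : Real.cos d0.im = Real.cos (-X1.im - (Real.pi - k * φ) / (2 * k)) := by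
    rw [h8, ← Real.cos_neg]
    congr 1
    ring
  unfold c0
  rw [h6, exp_re, h9, ← mul_assoc, ← Real.exp_add]
  congr 2
  simp

/-- (G1): `cos (A - φ) ≤ T cos (A - φ + 2 θ)`, `T = |xi_{-2}/xi_{-1}|^2`, `θ = Im (X1 - X2)` -/
theorem St.G1 (h : St k C q0 q1 q2 q3 d0 d1 d2 X1 X2 X3)
    (hψ0 : -(Real.pi / 2) < -X1.im + (X1 - d1).im) :
    Real.cos (-X1.im - (X1 - d1).im) < Real.exp (2 * (X2 - X1).re) *
      Real.cos (-X1.im - (X1 - d1).im + 2 * (X1 - X2).im) := by
  have hψ := h.psi_lt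
  have hd : d1.im = X1.im - (X1 - d1).im := by simp
  set A := -X1.im with hA
  set φ := (X1 - d1).im with hφ
  have hX1 : X1.im = -A := by rw [hA]; ring
  have hd1 : d1.im = -A - φ := by rw [hd, hX1]
  have hq2 : q2 = q1 - exp d1 := by rw [h.s1]; ring
  have key : exp (2 * X2) = exp (2 * X1) - 2 * (q1 * exp d1) + exp (2 * d1) := by
    have e : exp (2 * d1) = exp d1 ^ 2 := by
      rw [← Complex.exp_nat_mul]
      congr 1
    rw [h.x2, h.x1, hq2, e]
    ring
  -- multiply by `exp (-2 X1 - i (A - φ))`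
  set w : ℂ := -(2 * X1) + (((-(A - φ) : ℝ) : ℂ) * I) with hw
  have hwre : w.re = -(2 * X1.re) := by
    rw [hw]
    simp
  have hwim : w.im = 2 * A - (A - φ) := by
    rw [hw]
    simp only [add_im, neg_im, mul_im, re_ofNat, im_ofNat, zero_mul, add_zero, ofReal_re,
      ofReal_im, I_re, I_im, mul_one, mul_zero]
    rw [hX1]
    ring
  have key2 : exp (2 * X2 + w) = exp (2 * X1 + w) - 2 * (q1 * exp (d1 + w)) +
      exp (2 * d1 + w) := by
    rw [exp_add (2 * X2) w, exp_add (2 * X1) w, exp_add d1 w, exp_add (2 * d1) w, key]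
    ring
  have r0 : (exp (2 * X2 + w)).re = Real.exp (2 * (X2 - X1).re) *
      Real.cos (A - φ + 2 * (X1 - X2).im) := by
    rw [exp_re]
    have e1 : (2 * X2 + w).re = 2 * (X2 - X1).re := by
      rw [add_re, hwre, sub_re]
      simp only [mul_re, re_ofNat, im_ofNat, zero_mul, sub_zero]
      ring
    have e2 : (2 * X2 + w).im = -(A - φ + 2 * (X1 - X2).im) := by
      rw [add_im, hwim, sub_im]
      simp only [mul_im, re_ofNat, im_ofNat, zero_mul, add_zero]
      rw [hX1]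
      ring
    rw [e1, e2, Real.cos_neg]
  have r1 : (exp (2 * X1 + w)).re = Real.cos (A - φ) := by
    rw [exp_re]
    have e1 : (2 * X1 + w).re = 0 := by
      rw [add_re, hwre]
      simp
    have e2 : (2 * X1 + w).im = -(A - φ) := by
      rw [add_im, hwim]
      simp only [mul_im, re_ofNat, im_ofNat, zero_mul, add_zero]
      rw [hX1]
      ring
    rw [e1, e2, Real.cos_neg, Real.exp_zero, one_mul]
  have im0 : (d1 + w).im = 0 := by
    rw [add_im, hwim, hd1]
    ring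
  have r2 : (q1 * exp (d1 + w)).re = q1.re * Real.exp (d1 + w).re := by
    rw [mul_re, exp_re, exp_im, im0, Real.cos_zero, Real.sin_zero]
    ring
  have r3 : (exp (2 * d1 + w)).re = Real.exp (2 * d1 + w).re * Real.cos (A + φ) := by
    rw [exp_re]
    have e2 : (2 * d1 + w).im = -(A + φ) := by
      rw [add_im, hwim]
      simp only [mul_im, re_ofNat, im_ofNat, zero_mul, add_zero]
      rw [hd1]
      ring
    rw [e2, Real.cos_neg]
  have h1 := congrArg Complex.re key2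
  rw [add_re, sub_re, r0, r1, r3] at h1
  have r4 : (2 * (q1 * exp (d1 + w))).re = 2 * (q1 * exp (d1 + w)).re := by
    simp [mul_re]
  rw [r4, r2] at h1
  have hc : 0 < Real.cos (A + φ) := Real.cos_pos_of_mem_Ioo ⟨hψ0, hψ⟩
  have g1 : 0 < Real.exp (2 * d1 + w).re * Real.cos (A + φ) := mul_pos (Real.exp_pos _) hc
  have g2 : q1.re * Real.exp (d1 + w).re < 0 :=
    mul_neg_of_neg_of_pos h.q1neg (Real.exp_pos _)
  linarith

/-- `2 θ^2 ≤ log T` when `0 ≤ A - φ` and `0 ≤ θ` -/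
theorem St.log_T (h : St k C q0 q1 q2 q3 d0 d1 d2 X1 X2 X3)
    (hF : 0 < (X1 - d1).im) (hφA : (X1 - d1).im ≤ -X1.im) (hth : 0 ≤ (X1 - X2).im) :
    (X1 - X2).im ^ 2 ≤ (X2 - X1).re := by
  have hpi := Real.pi_gt_d2
  have hpi2 := Real.pi_lt_d2
  have hG := h.G1 (by linarith [h.a1.2])
  have ha1 := h.a1
  have ha2 := h.a2
  set A := -X1.im with hA
  set φ := (X1 - d1).im with hφ
  set θ := (X1 - X2).im with hθ
  set T := Real.exp (2 * (X2 - X1).re) with hT
  have hT0 : 0 < T := Real.exp_pos _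
  have hθ2 : θ < Real.pi / 2 := by
    rw [hθ, sub_im]
    linarith
  have hA2 : A < Real.pi / 2 := by rw [hA]; linarith
  have hc0 : 0 < Real.cos (A - φ) := Real.cos_pos_of_mem_Ioo ⟨by linarith, by linarith⟩
  have hc1 : 0 < Real.cos (A - φ + 2 * θ) := by
    have : 0 < T * Real.cos (A - φ + 2 * θ) := lt_trans hc0 hG
    exact (pos_iff_pos_of_mul_pos this).1 hT0
  have hlt : A - φ + 2 * θ < Real.pi / 2 := by
    by_contra hcon
    push Not at hcon
    have := Real.cos_nonpos_of_pi_div_two_le_of_le hcon (by linarith)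
    linarith
  have hs1 : 0 ≤ Real.sin (A - φ) :=
    Real.sin_nonneg_of_nonneg_of_le_pi (by linarith) (by linarith)
  have hs2 : 0 ≤ Real.sin (2 * θ) :=
    Real.sin_nonneg_of_nonneg_of_le_pi (by linarith) (by linarith)
  rw [Real.cos_add] at hG
  have h1 : 1 ≤ T * Real.cos (2 * θ) := by
    have e1 : Real.cos (A - φ) * 1 ≤ Real.cos (A - φ) * (T * Real.cos (2 * θ)) := by
      have e2 : 0 ≤ T * (Real.sin (A - φ) * Real.sin (2 * θ)) := by positivity
      nlinarith
    exact le_of_mul_le_mul_left e1 hc0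
  have h2 := cos_le_exp2 (x := 2 * θ) (by rw [abs_le]; constructor <;> linarith)
  have h3 : 1 ≤ T * Real.exp (-((2 * θ) ^ 2 / 2)) :=
    le_trans h1 (mul_le_mul_of_nonneg_left h2 hT0.le)
  rw [hT, ← Real.exp_add, Real.one_le_exp_iff] at h3
  nlinarith

/-- `k φ^2 ≤ log 2` at a disc exit with `|f_{-2}| ≤ 1` -/
theorem St.phi_sq (h : St k C q0 q1 q2 q3 d0 d1 d2 X1 X2 X3)
    (he : ‖1 - pv k C X1 d0‖ = 1) (hF : 0 < (X1 - d1).im)
    (hφA : (X1 - d1).im ≤ -X1.im) (hτ : (X2 - d1).im ≤ 0)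
    (hf : ‖pv k C X2 d2‖ ≤ 1) :
    k * (X1 - X2).im ^ 2 ≤ Real.log 2 ∧ k * (X1 - d1).im ^ 2 ≤ Real.log 2 := by
  have k0 := h.k0
  have hC := h.C0
  have hth : (X1 - d1).im ≤ (X1 - X2).im := by
    simp only [sub_im] at *
    linarith
  have h1 := h.log_T hF hφA (by linarith)
  have h2 : ‖pv k C X2 d1‖ ≤ 2 := by
    have e1 : pv k C X2 d1 = 1 - pv k C X2 d2 := by
      linear_combination h.f2
    rw [e1]
    have := norm_sub_le (1 : ℂ) (pv k C X2 d2)
    rw [norm_one] at this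
    linarith
  have h3 : ‖pv k C X2 d1‖ = Real.exp (k * (X2 - X1).re) := by
    have e1 := h.disc_re he
    rw [norm_pv hC, div_eq_iff hC.ne']
    rw [← e1, ← Real.exp_add]
    congr 1
    simp only [sub_re]
    ring
  rw [h3, ← Real.le_log_iff_exp_le (by norm_num)] at h2
  have h4 : k * (X1 - X2).im ^ 2 ≤ k * (X2 - X1).re := mul_le_mul_of_nonneg_left h1 k0.le
  have h5 : k * (X1 - d1).im ^ 2 ≤ k * (X1 - X2).im ^ 2 :=
    mul_le_mul_of_nonneg_left (pow_le_pow_left₀ hF.le hth 2) k0.le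
  constructor <;> linarith

/-- **R-side**, `F_1 > 0`, `arg p_{-2} ≤ 0` -/
theorem St.Rpos (h : St k C q0 q1 q2 q3 d0 d1 d2 X1 X2 X3) (hk8 : k ≤ 8)
    (he : ‖1 - pv k C X1 d0‖ = 1) (hF : 0 < (X1 - d1).im)
    (hφA : (X1 - d1).im ≤ -X1.im) (hA : -(Real.pi / 4) ≤ X1.im) (hτ : (X2 - d1).im ≤ 0)
    (hf : ‖pv k C X2 d2‖ ≤ 1) :
    ‖exp d1‖ ^ 2 ≤ 4 * (36 / 100) * ((exp d0).re * (exp d0 + exp d1).re) := by
  have hpi := Real.pi_gt_d2
  have k0 := h.k0
  obtain ⟨_, hl⟩ := h.phi_sq he hF hφA hτ hf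
  have hF2 : k * (X1 - d1).im < 2 * Real.pi := by
    have e1 : (k * (X1 - d1).im) ^ 2 ≤ 3 ^ 2 := by
      have e2 : (k * (X1 - d1).im) ^ 2 = k * (k * (X1 - d1).im ^ 2) := by ring
      have e3 := Real.log_two_lt_d9
      have e4 : k * (k * (X1 - d1).im ^ 2) ≤ 8 * 1 := by
        apply mul_le_mul hk8 _ (by positivity) (by norm_num)
        norm_num at e3
        linarith
      rw [e2]
      linarith
    have := (abs_le_of_sq_le_sq' e1 (by norm_num)).2
    linarith
  obtain ⟨hD0, _⟩ := h.disc_D0' he hF hF2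
  have hcore := rpos_core h.hk hk8 hF hφA (by linarith) hl
  have hd1 : d1.im = -(-X1.im + (X1 - d1).im) := by simp
  have hre : (exp d0 + exp d1).re = Real.exp d1.re *
      (c0 k (-X1.im) (X1 - d1).im + Real.cos (-X1.im + (X1 - d1).im)) := by
    rw [add_re, hD0, exp_re, hd1, Real.cos_neg]
    ring
  rw [hD0, hre, norm_exp]
  have h1 : 0 < Real.exp d1.re ^ 2 := by positivity
  have h2 : 4 * (36 / 100) * (Real.exp d1.re * c0 k (-X1.im) (X1 - d1).im *
      (Real.exp d1.re * (c0 k (-X1.im) (X1 - d1).im + Real.cos (-X1.im + (X1 - d1).im)))) =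
      Real.exp d1.re ^ 2 * (4 * (36 / 100) * (c0 k (-X1.im) (X1 - d1).im *
      (c0 k (-X1.im) (X1 - d1).im + Real.cos (-X1.im + (X1 - d1).im)))) := by ring
  rw [h2]
  have h3 : (1 : ℝ) ≤ 4 * (36 / 100) * (c0 k (-X1.im) (X1 - d1).im *
      (c0 k (-X1.im) (X1 - d1).im + Real.cos (-X1.im + (X1 - d1).im))) := by linarith
  calc Real.exp d1.re ^ 2 = Real.exp d1.re ^ 2 * 1 := by ring
    _ ≤ _ := mul_le_mul_of_nonneg_left h3 h1.le

end EQS
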