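import Pool.Agent.Lib.MP_226de1_co.E.DVConc2

/-! Unit disc exit, side V: lower bound of the distance of p_-2 and p_-3.

Main result: `EQD.disc_V`. -/

set_option autoImplicit false
set_option linter.unusedVariables false

namespace EQD

open Real Set

/-- `t^κ - t^(-κ) ≤ κ (t - 1/t)` for `t ≥ 1`, `0 ≤ κ ≤ 1` -/
theorem dv_sinh {t κ : ℝ} (ht : 1 ≤ t) (hκ : 0 ≤ κ) (hκ1 : κ ≤ 1) :
    t ^ κ - t ^ (-κ) ≤ κ * (t - 1 / t) := by
  have ht0 : 0 < t := by linarith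
  set x := Real.log t with hx
  have hx0 : 0 ≤ x := Real.log_nonneg ht
  have e1 : t ^ κ = Real.exp (κ * x) := by
    rw [Real.rpow_def_of_pos ht0, mul_comm]
  have e2 : t ^ (-κ) = Real.exp (-(κ * x)) := by
    rw [Real.rpow_def_of_pos ht0]; congr 1; ring
  have e3 : t = Real.exp x := (Real.exp_log ht0).symm
  have e4 : 1 / t = Real.exp (-x) := by rw [Real.exp_neg, ← e3, one_div]
  have key : Real.sinh (κ * x) ≤ κ * Real.sinh x := by
    apply EQS.le_of_deriv_le (f := fun x => Real.sinh (κ * x)) (g := fun x => κ * Real.sinh x)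
      (f' := fun x => Real.cosh (κ * x) * κ) (g' := fun x => κ * Real.cosh x) _ _ (by simp) _ hx0
    · intro y
      have h := (hasDerivAt_id' y).const_mul κ
      simpa using h.sinh
    · intro y
      exact (Real.hasDerivAt_sinh y).const_mul κ
    · intro y hy
      have : Real.cosh (κ * y) ≤ Real.cosh y := by
        rw [Real.cosh_le_cosh, abs_of_nonneg (by positivity), abs_of_nonneg hy]
        nlinarith
      nlinarith
  rw [Real.sinh_eq, Real.sinh_eq] at key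
  rw [e1, e2, e4]
  nth_rewrite 1 [e3]
  nlinarith

/-- bound of `m^2` without powers -/
theorem dv_m {ρ t m y n : ℝ} (hρ : 0 < ρ) (hρ1 : ρ ≤ 1) (ht : 1 ≤ t) (hy : 1 ≤ y)
    (hn : ρ * n = t - 1 / t) (hn0 : 0 ≤ n)
    (hY : m ^ 2 ≤ ρ ^ (-(1 / y)) * (t ^ (1 / y) - t ^ (-(1 / y)))) :
    y ^ 2 * m ^ 2 ≤ n * (1 + (y - 1) * ρ) := by
  have hy0 : 0 < y := by linarith
  have hk0 : 0 ≤ 1 / y := by positivity
  have hk1 : 1 / y ≤ 1 := by rw [div_le_one hy0]; exact hy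
  have h1 := dv_sinh ht hk0 hk1
  have h2 : ρ ^ (-(1 / y)) * (t ^ (1 / y) - t ^ (-(1 / y)))
      ≤ ρ ^ (-(1 / y)) * (1 / y * (ρ * n)) := by
    rw [hn]
    exact mul_le_mul_of_nonneg_left h1 (Real.rpow_nonneg hρ.le _)
  have h3 : ρ ^ (-(1 / y)) * (1 / y * (ρ * n)) = 1 / y * n * ρ ^ (1 - 1 / y) := by
    rw [Real.rpow_sub hρ, Real.rpow_one, Real.rpow_neg hρ.le]
    ring
  have h4 : ρ ^ (1 - 1 / y) ≤ 1 / y + (1 - 1 / y) * ρ := by
    have := rpow_one_add_le_one_add_mul_self (s := ρ - 1) (by linarith) (p := 1 - 1 / y)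
      (by linarith) (by linarith)
    rw [show 1 + (ρ - 1) = ρ by ring] at this
    linarith
  have h5 : m ^ 2 ≤ 1 / y * n * (1 / y + (1 - 1 / y) * ρ) := by
    refine le_trans hY (le_trans h2 ?_)
    rw [h3]
    exact mul_le_mul_of_nonneg_left h4 (by positivity)
  have h6 : y ^ 2 * (1 / y * n * (1 / y + (1 - 1 / y) * ρ)) = n * (1 + (y - 1) * ρ) := by
    field_simp
  rw [← h6]
  exact mul_le_mul_of_nonneg_left h5 (by positivity)

/-- consequence of `m ≤ 1` -/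
theorem dv_angle {δ u m : ℝ} (hm : m ≤ 1) (hm0 : 0 < m) (hu : 0 ≤ u) (hu1 : u < π / 2) (h1 : u < δ)
    (h2 : δ ≤ π) (h : Real.sin δ ≤ m * Real.cos (δ - u)) : δ ≤ π / 4 + u / 2 := by
  have hp := Real.pi_pos
  by_contra hc
  rw [not_le] at hc
  have hs : 0 ≤ Real.sin δ := Real.sin_nonneg_of_nonneg_of_le_pi (by linarith) h2
  have hcos : Real.sin δ ≤ Real.cos (δ - u) := by
    rcases le_or_gt 0 (Real.cos (δ - u)) with hh | hh
    · nlinarith
    · have : m * Real.cos (δ - u) < 0 := mul_neg_of_pos_of_neg hm0 hh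
      linarith
  have e : Real.sin δ - Real.cos (δ - u)
      = 2 * Real.sin (δ - (π / 4 + u / 2)) * Real.cos (π / 4 + u / 2) := by
    rw [← Real.sin_pi_div_two_sub (δ - u), Real.sin_sub_sin]
    congr 2
    · congr 1; ring
    · ring_nf
  have a1 : 0 < Real.sin (δ - (π / 4 + u / 2)) :=
    Real.sin_pos_of_pos_of_lt_pi (by linarith) (by linarith)
  have a2 : 0 < Real.cos (π / 4 + u / 2) := Real.cos_pos_of_mem_Ioo ⟨by linarith, by linarith⟩
  have := mul_pos (mul_pos (by norm_num : (0:ℝ) < 2) a1) a2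
  linarith

/-- `n (1 + (y-1) r) ≤ 2 cos g` for `y ≤ 5/4` -/
theorem dv_rhs1 {n r C y : ℝ} (hr : 0 ≤ r) (hr1 : r ≤ 1) (hC : C ≤ 1) (hn0 : 0 ≤ n)
    (hn : n ≤ 2 * C - r / 2) (hy : 1 ≤ y) (hy1 : y ≤ 1.25) : n * (1 + (y - 1) * r) ≤ 2 * C := by
  have h1 : n * (1 + (y - 1) * r) ≤ n * (1 + 0.25 * r) := by
    apply mul_le_mul_of_nonneg_left _ hn0
    nlinarith
  have h2 : n * (1 + 0.25 * r) ≤ (2 * C - r / 2) * (1 + 0.25 * r) :=
    mul_le_mul_of_nonneg_right hn (by nlinarith)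
  nlinarith

theorem dv_rhs15 {n r C : ℝ} (hr : 0 ≤ r) (hr1 : r ≤ 1)
    (hn : n ≤ 2 * C - r / (1 + r)) :
    n * (1 + (1.5 - 1) * r) ≤ 2 * C + r * (C - 3 / 4) := by
  have h2 : n * (1 + (1.5 - 1) * r) ≤ (2 * C - r / (1 + r)) * (1 + (1.5 - 1) * r) :=
    mul_le_mul_of_nonneg_right hn (by nlinarith)
  have h3 : 3 / 4 * r ≤ r / (1 + r) * (1 + (1.5 - 1) * r) := by
    have e : r / (1 + r) * (1 + (1.5 - 1) * r) = r * (1 + (1.5 - 1) * r) / (1 + r) := by ring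
    rw [e, le_div_iff₀ (by linarith)]
    nlinarith [mul_nonneg hr (sub_nonneg.2 hr1)]
  nlinarith

theorem dv_rhs2 {n r C : ℝ} (hr : 0 ≤ r)
    (hn : n ≤ 2 * C - r / (1 + r)) :
    n * (1 + (2 - 1) * r) ≤ 2 * C + r * (2 * C - 1) := by
  have h2 : n * (1 + (2 - 1) * r) ≤ (2 * C - r / (1 + r)) * (1 + (2 - 1) * r) :=
    mul_le_mul_of_nonneg_right hn (by nlinarith)
  have h3 : r / (1 + r) * (1 + (2 - 1) * r) = r := by
    field_simp
    ring
  nlinarith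

theorem dv_half {r : ℝ} (hr : 0 ≤ r) (hr1 : r ≤ 1) : r / 2 ≤ r / (1 + r) := by
  apply div_le_div_of_nonneg_left hr (by linarith) (by linarith)

theorem dv_caseA {y g r n : ℝ} (hg0 : 0 ≤ g) (hg : g ≤ π / 2) (hr : 0 ≤ r) (hr1 : r ≤ 1)
    (hn0 : 0 ≤ n) (hn : n ≤ 2 * Real.cos g - r / (1 + r)) (hy : 1 ≤ y) (hy1 : y ≤ 1.25)
    (hc : π - g - 0.6436 ≤ π / 4 * y + (π - g) / 4) :
    n * (1 + (y - 1) * r) < y ^ 2 * Real.sin ((π - g - 0.6436) / y) ^ 2 := by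
  have p1 := Real.pi_gt_d4
  have p2 := Real.pi_lt_d4
  have hh := dv_half hr hr1
  have hC := Real.cos_le_one g
  have hn' : n ≤ 2 * Real.cos g - r / 2 := by linarith
  rcases le_total y 1.1 with h | h
  · have h3 : π / 4 * y ≤ π / 4 * 1.1 := mul_le_mul_of_nonneg_left h (by linarith)
    have hg1 : 1.1314 ≤ g := by linarith
    exact dv_ends (y0 := 1) (y1 := 1.1) (by norm_num) (by linarith) (by linarith) hy h
      (lt_of_le_of_lt (dv_rhs1 hr hr1 hC hn0 hn' le_rfl (by norm_num)) (dv_r1a hg1 hg))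
      (lt_of_le_of_lt (dv_rhs1 hr hr1 hC hn0 hn' (by norm_num) (by norm_num)) (dv_r1b hg1 hg))
  · have h3 : π / 4 * y ≤ π / 4 * 1.25 := mul_le_mul_of_nonneg_left hy1 (by linarith)
    have hg1 : 0.9744 ≤ g := by linarith
    exact dv_ends (y0 := 1.1) (y1 := 1.25) (by norm_num) (by linarith) (by linarith) h hy1
      (lt_of_le_of_lt (dv_rhs1 hr hr1 hC hn0 hn' (by norm_num) (by norm_num)) (dv_r2a hg1 hg))
      (lt_of_le_of_lt (dv_rhs1 hr hr1 hC hn0 hn' (by norm_num) (by norm_num)) (dv_r2b hg1 hg))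

theorem dv_rhs175 {n r C : ℝ} (hr : 0 ≤ r) (hr1 : r ≤ 1)
    (hn : n ≤ 2 * C - r / (1 + r)) :
    n * (1 + (1.75 - 1) * r) ≤ 2 * C + r * (3 / 2 * C - 7 / 8) := by
  have h2 : n * (1 + (1.75 - 1) * r) ≤ (2 * C - r / (1 + r)) * (1 + (1.75 - 1) * r) :=
    mul_le_mul_of_nonneg_right hn (by nlinarith)
  have h3 : 7 / 8 * r ≤ r / (1 + r) * (1 + (1.75 - 1) * r) := by
    have e : r / (1 + r) * (1 + (1.75 - 1) * r) = r * (1 + (1.75 - 1) * r) / (1 + r) := by ring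
    rw [e, le_div_iff₀ (by linarith)]
    nlinarith [mul_nonneg hr (sub_nonneg.2 hr1)]
  nlinarith

theorem dv_rhs135 {n r C : ℝ} (hr : 0 ≤ r) (hr1 : r ≤ 1) (hC : C ≤ 9 / 10)
    (hn : n ≤ 2 * C - r / (1 + r)) :
    n * (1 + (1.35 - 1) * r) ≤ 2 * C := by
  have h2 : n * (1 + (1.35 - 1) * r) ≤ (2 * C - r / (1 + r)) * (1 + (1.35 - 1) * r) :=
    mul_le_mul_of_nonneg_right hn (by nlinarith)
  have h3 : 67 / 100 * r ≤ r / (1 + r) * (1 + (1.35 - 1) * r) := by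
    have e : r / (1 + r) * (1 + (1.35 - 1) * r) = r * (1 + (1.35 - 1) * r) / (1 + r) := by ring
    rw [e, le_div_iff₀ (by linarith)]
    nlinarith [mul_nonneg hr (sub_nonneg.2 hr1)]
  nlinarith

/-- all `2 ≤ k ≤ 4` with `X = 0.6436` -/
theorem dv_caseE {y g r n : ℝ} (hg0 : 0 ≤ g) (hg : g ≤ π / 2) (hr : 0 ≤ r) (hr1 : r ≤ 1)
    (hn0 : 0 ≤ n) (hn : n ≤ 2 * Real.cos g - r / (1 + r)) (hy : 1.25 ≤ y) (hy1 : y ≤ 2)
    (hc : π - g - 0.6436 ≤ π / 4 * y + (π - g) / 4) :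
    n * (1 + (y - 1) * r) < y ^ 2 * Real.sin ((π - g - 0.6436) / y) ^ 2 := by
  have p1 := Real.pi_gt_d4
  have p2 := Real.pi_lt_d4
  have hh := dv_half hr hr1
  have hC := Real.cos_le_one g
  have hn' : n ≤ 2 * Real.cos g - r / 2 := by linarith
  rcases le_total y 1.35 with h | h
  · have h3 : π / 4 * y ≤ π / 4 * 1.35 := mul_le_mul_of_nonneg_left h (by linarith)
    have hg1 : 0.8696 ≤ g := by linarith
    have hC9 : Real.cos g ≤ 9 / 10 :=
      dv_cos (g1 := 0.8696) (by norm_num) hg1 hg (by norm_num)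
    exact dv_ends (y0 := 1.25) (y1 := 1.35) (by norm_num) (by linarith) (by linarith) hy h
      (lt_of_le_of_lt (dv_rhs1 hr hr1 hC hn0 hn' (by norm_num) (by norm_num)) (dv_s3a hg1 hg))
      (lt_of_le_of_lt (dv_rhs135 hr hr1 hC9 hn) (dv_s3b hg1 hg))
  rcases le_total y 1.5 with h' | h'
  · have h3 : π / 4 * y ≤ π / 4 * 1.5 := mul_le_mul_of_nonneg_left h' (by linarith)
    have hg1 : 0.7126 ≤ g := by linarith
    have hC9 : Real.cos g ≤ 9 / 10 :=
      dv_cos (g1 := 0.7126) (by norm_num) hg1 hg (by norm_num)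
    have h5 := dv_s4b hg1 hg
    have h6 := dv_rhs15 hr hr1 hn
    have h7 : 2 * Real.cos g + r * (Real.cos g - 3 / 4)
        < (1.5 : ℝ) ^ 2 * Real.sin ((π - g - 0.6436) / 1.5) ^ 2 := by
      rcases le_total (Real.cos g) (3 / 4) with h8 | h8
      · nlinarith [h5.1]
      · nlinarith [h5.2]
    exact dv_ends (y0 := 1.35) (y1 := 1.5) (by norm_num) (by linarith) (by linarith) h h'
      (lt_of_le_of_lt (dv_rhs135 hr hr1 hC9 hn) (dv_s4a hg1 hg))
      (lt_of_le_of_lt h6 h7)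
  have f6 := dv_rhs175 hr hr1 hn
  rcases le_total y 1.75 with h2 | h2
  · have h3 : π / 4 * y ≤ π / 4 * 1.75 := mul_le_mul_of_nonneg_left h2 (by linarith)
    have hg1 : 0.4508 ≤ g := by linarith
    have h5 := dv_s5a hg1 hg
    have h6 := dv_rhs15 hr hr1 hn
    have h7 : 2 * Real.cos g + r * (Real.cos g - 3 / 4)
        < (1.5 : ℝ) ^ 2 * Real.sin ((π - g - 0.6436) / 1.5) ^ 2 := by
      rcases le_total (Real.cos g) (3 / 4) with h8 | h8
      · nlinarith [h5.1]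
      · nlinarith [h5.2]
    have f5 := dv_s5b hg1 hg
    have f7 : 2 * Real.cos g + r * (3 / 2 * Real.cos g - 7 / 8)
        < (1.75 : ℝ) ^ 2 * Real.sin ((π - g - 0.6436) / 1.75) ^ 2 := by
      rcases le_total (3 / 2 * Real.cos g) (7 / 8) with h8 | h8
      · nlinarith [f5.1]
      · nlinarith [f5.2]
    exact dv_ends (y0 := 1.5) (y1 := 1.75) (by norm_num) (by linarith) (by linarith) h' h2
      (lt_of_le_of_lt h6 h7) (lt_of_le_of_lt f6 f7)
  · have h3 : π / 4 * y ≤ π / 4 * 2 := mul_le_mul_of_nonneg_left hy1 (by linarith)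
    have hg1 : 0.189 ≤ g := by linarith
    have f5 := dv_s6a hg1 hg
    have f7 : 2 * Real.cos g + r * (3 / 2 * Real.cos g - 7 / 8)
        < (1.75 : ℝ) ^ 2 * Real.sin ((π - g - 0.6436) / 1.75) ^ 2 := by
      rcases le_total (3 / 2 * Real.cos g) (7 / 8) with h8 | h8
      · nlinarith [f5.1]
      · nlinarith [f5.2]
    have g5 := dv_z2 (x := 0.6436) hg0 hg (by norm_num) (by norm_num)
    have g6 := dv_rhs2 hr hn
    have g7 : 2 * Real.cos g + r * (2 * Real.cos g - 1)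
        < (2 : ℝ) ^ 2 * Real.sin ((π - g - 0.6436) / 2) ^ 2 := by
      rcases le_total (2 * Real.cos g) 1 with h8 | h8
      · nlinarith [g5.1]
      · nlinarith [g5.2]
    exact dv_ends (y0 := 1.75) (y1 := 2) (by norm_num) (by linarith) (by linarith) h2 hy1
      (lt_of_le_of_lt f6 f7) (lt_of_le_of_lt g6 g7)

theorem dv_caseF {y g r n x : ℝ} (hg0 : 0 ≤ g) (hg : g ≤ π / 2) (hr : 0 ≤ r) (hr1 : r ≤ 1)
    (hn : n ≤ 2 * Real.cos g - r / (1 + r)) (hy : 2 ≤ y) (hy1 : y ≤ 4)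
    (hx : 0 ≤ x) (hx1 : x ≤ 0.6436) (hs : Real.sin x = 3 / 5 * Real.sqrt (1 - r ^ 2)) :
    n * (1 + (y - 1) * r) < y ^ 2 * Real.sin ((π - g - x) / y) ^ 2 := by
  have p1 := Real.pi_gt_d4
  have p2 := Real.pi_lt_d4
  have g5 := dv_z2 (x := x) hg0 hg hx (by linarith)
  have g6 := dv_rhs2 hr hn
  have g7 : 2 * Real.cos g + r * (2 * Real.cos g - 1)
      < (2 : ℝ) ^ 2 * Real.sin ((π - g - x) / 2) ^ 2 := by
    rcases le_total (2 * Real.cos g) 1 with h8 | h8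
    · nlinarith [g5.1]
    · nlinarith [g5.2]
  have k5 := dv_z4 hg0 hg hx hx1 hr hr1 hs
  have k6 : n * (1 + (4 - 1) * r) ≤ (2 * Real.cos g - r / (1 + r)) * (1 + 3 * r) := by
    have := mul_le_mul_of_nonneg_right hn (show (0:ℝ) ≤ 1 + 3 * r by linarith)
    linarith
  exact dv_ends (y0 := 2) (y1 := 4) (by norm_num) (by linarith) (by linarith) hy hy1
      (lt_of_le_of_lt g6 g7) (lt_of_le_of_lt k6 k5)

theorem dv_dist {ρ θ β a : ℝ} {f b : ℂ} (hf : f = (ρ : ℂ) * Complex.exp ((θ : ℂ) * Complex.I))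
    (hb : b = (β : ℂ) * Complex.exp (-((a : ℂ) * Complex.I))) :
    ‖(1 - f) - b * f‖ ^ 2 = (Real.cos (θ - a) - ρ * Real.cos a - β * ρ) ^ 2
      + (Real.sin (θ - a) + ρ * Real.sin a) ^ 2 := by
  have e1 : Complex.exp ((θ : ℂ) * Complex.I) = ⟨Real.cos θ, Real.sin θ⟩ := by
    apply Complex.ext
    · exact Complex.exp_ofReal_mul_I_re θ
    · exact Complex.exp_ofReal_mul_I_im θ
  have e2 : Complex.exp (-((a : ℂ) * Complex.I)) = ⟨Real.cos a, -Real.sin a⟩ := by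
    have : -((a : ℂ) * Complex.I) = ((-a : ℝ) : ℂ) * Complex.I := by push_cast; ring
    rw [this]
    apply Complex.ext
    · rw [Complex.exp_ofReal_mul_I_re, Real.cos_neg]
    · rw [Complex.exp_ofReal_mul_I_im, Real.sin_neg]
  have h1 : Real.cos θ = Real.cos (θ - a) * Real.cos a - Real.sin (θ - a) * Real.sin a := by
    rw [← Real.cos_add]; congr 1; ring
  have h2 : Real.sin θ = Real.sin (θ - a) * Real.cos a + Real.cos (θ - a) * Real.sin a := by
    rw [← Real.sin_add]; congr 1; ring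
  have h3 := Real.sin_sq_add_cos_sq (θ - a)
  have h4 := Real.sin_sq_add_cos_sq a
  rw [← Complex.normSq_eq_norm_sq, Complex.normSq_apply, hf, hb, e1, e2]
  simp only [Complex.sub_re, Complex.sub_im, Complex.mul_re, Complex.mul_im, Complex.one_re,
    Complex.one_im, Complex.ofReal_re, Complex.ofReal_im]
  rw [h1, h2]
  set A := Real.cos (θ - a)
  set B := Real.sin (θ - a)
  set C := Real.cos a
  set S := Real.sin a
  linear_combination (-1 + ρ ^ 2 * (C ^ 2 + S ^ 2) + β ^ 2 * ρ ^ 2 * (C ^ 2 + S ^ 2) ^ 2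
      + 2 * β * ρ ^ 2 * C * (C ^ 2 + S ^ 2)) * h3
    + (-2 * β * ρ * A + β ^ 2 * ρ ^ 2 * (C ^ 2 + S ^ 2 + 1) + 2 * β * ρ ^ 2 * C) * h4

/-- the case `θ/2 < a` -/
theorem dv_core {k ρ θ a m R t X : ℝ} (hk : 2 < k) (hk8 : k ≤ 8) (hρ : 0 < ρ) (hρ1 : ρ < 1)
    (hθ0 : 0 ≤ θ) (hθ : θ ≤ π) (ht : 1 ≤ t)
    (ht2' : t ^ 2 = (ρ - Real.cos θ) ^ 2 + Real.sin θ ^ 2)
    (ht2'' : t ^ 2 = 1 - 2 * ρ * Real.cos θ + ρ ^ 2) (hcθ : 2 * Real.cos θ ≤ ρ)
    (hapos : 0 < a) (hcase : θ / 2 < a) (haπ : 2 * a / k ≤ π) (hm0 : 0 < m) (hm1 : m ≤ 1)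
    (hY : m ^ 2 ≤ ρ ^ (-(2 / k)) * (t ^ (2 / k) - t ^ (-(2 / k))))
    (h1 : Real.sin (2 * a / k) ≤ m * Real.cos ((2 * a - θ) / k))
    (hE : 0 < Real.cos (θ - a) - ρ * Real.cos a)
    (hD2 : (Real.sin (θ - a) + ρ * Real.sin a) ^ 2 ≤ R * (1 - ρ ^ 2))
    (hX0 : 0 ≤ X) (hX2 : X ≤ π / 2) (hX1 : R * (1 - ρ ^ 2) ≤ Real.sin X ^ 2)
    (hfin : ∀ g n : ℝ, 0 ≤ g → g ≤ π / 2 → 0 ≤ n → n ≤ 2 * Real.cos g - ρ / (1 + ρ) →
      π - g - X ≤ π / 4 * (k / 2) + (π - g) / 4 →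
      n * (1 + (k / 2 - 1) * ρ) < (k / 2) ^ 2 * Real.sin ((π - g - X) / (k / 2)) ^ 2) :
    False := by
  have hp := Real.pi_pos
  have p1 := Real.pi_gt_d4
  have p2 := Real.pi_lt_d4
  set D := Real.sin (θ - a) + ρ * Real.sin a with hDdef
  set E := Real.cos (θ - a) - ρ * Real.cos a with hEdef
  have hρ2 : 0 < 1 - ρ ^ 2 := by nlinarith
  have hk0 : 0 < k := by linarith
  have hy0 : 0 < k / 2 := by linarith
  have hδ : 2 * a / k = a / (k / 2) := by field_simp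
  have hu : θ / k < π / 2 := by
    rw [div_lt_iff₀ hk0]; nlinarith
  have hu0 : 0 ≤ θ / k := by positivity
  have huδ : θ / k < 2 * a / k := by
    apply div_lt_div_of_pos_right _ hk0; linarith
  have hang : 2 * a / k ≤ π / 4 + θ / k / 2 := by
    apply dv_angle hm1 hm0 hu0 hu huδ haπ
    rw [show 2 * a / k - θ / k = (2 * a - θ) / k by ring]
    exact h1
  have haub : a ≤ π / 4 * (k / 2) + θ / 4 := by
    rw [div_le_iff₀ hk0] at hang
    have : (π / 4 + θ / k / 2) * k = π / 4 * k + θ / 2 := by field_simp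
    rw [this] at hang
    linarith
  have hδ2 : a / (k / 2) ≤ π / 2 := by rw [← hδ]; linarith
  have hδ0 : 0 ≤ a / (k / 2) := by positivity
  have ht0 : 0 < t := by linarith
  -- the angle γ
  set w : ℂ := ⟨ρ - Real.cos θ, Real.sin θ⟩ with hw
  have s1 : 0 ≤ Real.sin θ := Real.sin_nonneg_of_nonneg_of_le_pi hθ0 hθ
  have hwn : ‖w‖ = t := by
    have : ‖w‖ ^ 2 = t ^ 2 := by
      rw [← Complex.normSq_eq_norm_sq, Complex.normSq_apply, ht2', hw]; ring
    exact (pow_left_inj₀ (norm_nonneg _) ht0.le (by norm_num)).1 this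
  set g := Complex.arg w with hg
  have hgc : t * Real.cos g = ρ - Real.cos θ := by
    rw [← hwn, hg, Complex.norm_mul_cos_arg, hw]
  have hgs : t * Real.sin g = Real.sin θ := by
    rw [← hwn, hg, Complex.norm_mul_sin_arg, hw]
  have hg0 : 0 ≤ g := by rw [hg, Complex.arg_nonneg_iff]; exact s1
  have hgπ : g ≤ π := Complex.arg_le_pi _
  have hcg : 0 < Real.cos g := by
    have : 0 < t * Real.cos g := by rw [hgc]; linarith
    exact (mul_pos_iff_of_pos_left ht0).1 this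
  have hg2 : g ≤ π / 2 := by
    by_contra h
    rw [not_le] at h
    have := Real.cos_nonpos_of_pi_div_two_le_of_le h.le (by linarith)
    linarith
  -- n
  set n := 2 * Real.cos g - ρ / t with hn
  have hρn : ρ * n = t - 1 / t := by
    rw [hn]
    field_simp
    have : 2 * t * Real.cos g = 2 * (ρ - Real.cos θ) := by rw [← hgc]; ring
    nlinarith
  have hn0 : 0 ≤ n := by
    have h2 : 0 ≤ ρ * n := by
      rw [hρn]
      have : 1 / t ≤ 1 := by rw [div_le_one ht0]; exact ht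
      linarith
    exact nonneg_of_mul_nonneg_right h2 hρ
  have ht1 : t ≤ 1 + ρ := by
    apply le_of_sq_le_sq _ (by linarith)
    rw [ht2'']
    nlinarith [Real.neg_one_le_cos θ]
  have hn1 : n ≤ 2 * Real.cos g - ρ / (1 + ρ) := by
    have : ρ / (1 + ρ) ≤ ρ / t := div_le_div_of_nonneg_left hρ.le ht0 ht1
    rw [hn]; linarith
  have hm2 : (k / 2) ^ 2 * m ^ 2 ≤ n * (1 + (k / 2 - 1) * ρ) := by
    apply dv_m hρ hρ1.le ht (by linarith) hρn hn0
    have e : 1 / (k / 2) = 2 / k := by field_simp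
    rw [e]; exact hY
  have hsin : Real.sin (a / (k / 2)) ^ 2 ≤ m ^ 2 := by
    have h2 : 0 ≤ Real.sin (a / (k / 2)) :=
      Real.sin_nonneg_of_nonneg_of_le_pi hδ0 (by linarith)
    rw [hδ] at h1
    have h3 : m * Real.cos ((2 * a - θ) / k) ≤ m := by
      have := Real.cos_le_one ((2 * a - θ) / k)
      nlinarith
    exact pow_le_pow_left₀ h2 (by linarith) 2
  have hup : (k / 2) ^ 2 * Real.sin (a / (k / 2)) ^ 2 ≤ n * (1 + (k / 2 - 1) * ρ) :=
    le_trans (mul_le_mul_of_nonneg_left hsin (by positivity)) hm2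
  -- geometry
  have hDg : D = t * Real.sin (π - g - a) := by
    rw [show π - g - a = π - (g + a) by ring, Real.sin_pi_sub, Real.sin_add, hDdef,
      Real.sin_sub]
    linear_combination (-Real.cos a) * hgs - Real.sin a * hgc
  have hEg : E = t * Real.cos (π - g - a) := by
    rw [show π - g - a = π - (g + a) by ring, Real.cos_pi_sub, Real.cos_add, hEdef,
      Real.cos_sub]
    linear_combination (-Real.sin a) * hgs + Real.cos a * hgc
  have hcos : 0 < Real.cos (π - g - a) := by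
    rw [hEg] at hE
    exact (mul_pos_iff_of_pos_left ht0).1 hE
  have hlt : π - g - a < π / 2 := by
    by_contra h
    rw [not_lt] at h
    have := Real.cos_nonpos_of_pi_div_two_le_of_le h (by linarith)
    linarith
  have hX : ∀ X : ℝ, 0 ≤ X → R * (1 - ρ ^ 2) ≤ Real.sin X ^ 2 → π - g - X ≤ a := by
    intro X hX0 hX1
    by_contra h
    rw [not_le] at h
    have hX2 : X < π - g - a := by linarith
    have h2 : Real.sin X < Real.sin (π - g - a) :=
      Real.sin_lt_sin_of_lt_of_le_pi_div_two (by linarith) hlt.le hX2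
    have h3 : 0 ≤ Real.sin X := Real.sin_nonneg_of_nonneg_of_le_pi hX0 (by linarith)
    have h4 : Real.sin (π - g - a) ≤ D := by
      rw [hDg]
      exact le_mul_of_one_le_left (by linarith) ht
    have h6 : Real.sin X ^ 2 < D ^ 2 := pow_lt_pow_left₀ (by linarith) h3 (by norm_num)
    linarith
  have hθg : θ ≤ π - g := by
    by_contra h
    rw [not_le] at h
    have h2 : 0 < Real.sin (θ + g - π) :=
      Real.sin_pos_of_pos_of_lt_pi (by linarith) (by linarith)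
    rw [Real.sin_sub_pi, Real.sin_add] at h2
    have h3 : t * (Real.sin θ * Real.cos g + Real.cos θ * Real.sin g) = ρ * Real.sin θ := by
      linear_combination Real.sin θ * hgc + Real.cos θ * hgs
    have h4 : 0 ≤ t * (Real.sin θ * Real.cos g + Real.cos θ * Real.sin g) := by
      rw [h3]; positivity
    have h5 := nonneg_of_mul_nonneg_right h4 ht0
    linarith
  have h2 := hX X hX0 hX1
  have h3 := hfin g n hg0 hg2 hn0 hn1 (by linarith)
  have h4 : 0 ≤ (π - g - X) / (k / 2) := div_nonneg (by linarith) hy0.le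
  have h5 : (π - g - X) / (k / 2) ≤ a / (k / 2) := div_le_div_of_nonneg_right h2 hy0.le
  have h6 : Real.sin ((π - g - X) / (k / 2)) ≤ Real.sin (a / (k / 2)) :=
    Real.sin_le_sin_of_le_of_le_pi_div_two (by linarith) hδ2 h5
  have h7 : 0 ≤ Real.sin ((π - g - X) / (k / 2)) :=
    Real.sin_nonneg_of_nonneg_of_le_pi h4 (by linarith)
  have h8 := mul_le_mul_of_nonneg_left (pow_le_pow_left₀ h7 h6 2)
    (show 0 ≤ (k / 2) ^ 2 by positivity)
  linarith

/-- **Side V of the unit disc exit**: `|p_{-2} - p_{-3}|^2 > R (1 - |f_{-2}|^2)`,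
`R = 9/25` for all `2 < k ≤ 8`. -/
theorem disc_V36 {k ρ θ β a m R : ℝ} {f b : ℂ} (hk : 2 < k) (hk8 : k ≤ 8) (hρ : 0 < ρ) (hρ1 : ρ < 1)
    (hθ0 : 0 ≤ θ) (hθ : θ ≤ π) (hf : f = (ρ : ℂ) * Complex.exp ((θ : ℂ) * Complex.I))
    (hb : b = (β : ℂ) * Complex.exp (-((a : ℂ) * Complex.I))) (hβ : 0 ≤ β) (ht : 1 ≤ ‖1 - f‖)
    (ha0 : -(π / 2) ≤ a) (haπ : 2 * a / k ≤ π) (hm0 : 0 < m) (hm1 : m ≤ 1)
    (hY : m ^ 2 ≤ ρ ^ (-(2 / k)) * (‖1 - f‖ ^ (2 / k) - ‖1 - f‖ ^ (-(2 / k))))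
    (ha : θ / 2 < a → Real.sin (2 * a / k) ≤ m * Real.cos ((2 * a - θ) / k))
    (hR36 : R ≤ 36 / 100) :
    R * (1 - ρ ^ 2) < ‖(1 - f) - b * f‖ ^ 2 := by
  by_contra hcon
  rw [not_lt] at hcon
  have hp := Real.pi_pos
  have p1 := Real.pi_gt_d4
  have p2 := Real.pi_lt_d4
  set t := ‖1 - f‖ with htdef
  set D := Real.sin (θ - a) + ρ * Real.sin a with hDdef
  set E := Real.cos (θ - a) - ρ * Real.cos a with hEdef
  have hz := dv_dist hf hb
  rw [← hDdef, ← hEdef] at hz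
  have ht2 : t ^ 2 = E ^ 2 + D ^ 2 := by
    have := dv_dist (β := 0) (a := a) (b := 0) hf (by simp)
    rw [← hDdef, ← hEdef] at this
    simpa using this
  have ht2' : t ^ 2 = (ρ - Real.cos θ) ^ 2 + Real.sin θ ^ 2 := by
    have := dv_dist (β := 0) (a := 0) (b := 0) hf (by simp)
    simp at this
    rw [this]; ring
  have hθs := Real.sin_sq_add_cos_sq θ
  have ht2'' : t ^ 2 = 1 - 2 * ρ * Real.cos θ + ρ ^ 2 := by rw [ht2']; nlinarith
  have hρ2 : 0 < 1 - ρ ^ 2 := by nlinarith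
  have hRs : R * (1 - ρ ^ 2) ≤ 36 / 100 * (1 - ρ ^ 2) := mul_le_mul_of_nonneg_right hR36 hρ2.le
  have hcθ : 2 * Real.cos θ ≤ ρ := by
    have h1 : 1 ≤ t ^ 2 := by nlinarith
    have h2 : 0 ≤ ρ * (ρ - 2 * Real.cos θ) := by nlinarith
    have := nonneg_of_mul_nonneg_right h2 hρ
    linarith
  -- E > 0
  have hE : 0 < E := by
    by_contra h
    rw [not_lt] at h
    have h1 : E ^ 2 ≤ (E - β * ρ) ^ 2 := by
      have h2 : 0 ≤ β * ρ := mul_nonneg hβ hρ.le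
      nlinarith
    nlinarith
  have hD2 : D ^ 2 ≤ R * (1 - ρ ^ 2) := by nlinarith [sq_nonneg (E - β * ρ)]
  -- a > 0
  have hapos : 0 < a := by
    by_contra h
    rw [not_lt] at h
    have c0 : 0 ≤ Real.cos a := Real.cos_nonneg_of_neg_pi_div_two_le_of_le (by linarith) (by linarith)
    have s0 : Real.sin a ≤ 0 := Real.sin_nonpos_of_nonpos_of_neg_pi_le h (by linarith)
    have s1 : 0 ≤ Real.sin θ := Real.sin_nonneg_of_nonneg_of_le_pi hθ0 hθ
    have e1 : E = (Real.cos θ - ρ) * Real.cos a + Real.sin θ * Real.sin a := by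
      rw [hEdef, Real.cos_sub]; ring
    have e2 : Real.sin θ * Real.sin a ≤ 0 := mul_nonpos_of_nonneg_of_nonpos s1 s0
    have e3 : (Real.cos θ - ρ) * Real.cos a ≤ 0 :=
      mul_nonpos_of_nonpos_of_nonneg (by linarith) c0
    linarith
  rcases le_or_gt a (θ / 2) with hcase | hcase
  · -- a ≤ θ/2
    have s1 : 0 ≤ Real.sin (θ - a) := Real.sin_nonneg_of_nonneg_of_le_pi (by linarith) (by linarith)
    have s2 : 0 ≤ Real.sin a := Real.sin_nonneg_of_nonneg_of_le_pi hapos.le (by linarith)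
    have hD0 : 0 ≤ D := by positivity
    have e1 : (1 + ρ) * Real.sin (θ / 2) = D * Real.cos (θ / 2 - a) - E * Real.sin (θ / 2 - a) := by
      have x1 : Real.sin (θ - a) * Real.cos (θ / 2 - a) - Real.cos (θ - a) * Real.sin (θ / 2 - a)
          = Real.sin (θ / 2) := by rw [← Real.sin_sub]; congr 1; ring
      have x2 : Real.sin a * Real.cos (θ / 2 - a) + Real.cos a * Real.sin (θ / 2 - a)
          = Real.sin (θ / 2) := by rw [← Real.sin_add]; congr 1; ring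
      rw [hDdef, hEdef]
      linear_combination -x1 - ρ * x2
    have s3 : 0 ≤ Real.sin (θ / 2 - a) := Real.sin_nonneg_of_nonneg_of_le_pi (by linarith) (by linarith)
    have s4 : Real.cos (θ / 2 - a) ≤ 1 := Real.cos_le_one _
    have e2 : (1 + ρ) * Real.sin (θ / 2) ≤ D := by
      have := mul_nonneg hE.le s3
      nlinarith
    have s5 : 0 ≤ Real.sin (θ / 2) := Real.sin_nonneg_of_nonneg_of_le_pi (by linarith) (by linarith)
    have e3 : ((1 + ρ) * Real.sin (θ / 2)) ^ 2 ≤ D ^ 2 := pow_le_pow_left₀ (by positivity) e2 2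
    have e4 : Real.sin (θ / 2) ^ 2 = (1 - Real.cos θ) / 2 := by
      have := Real.cos_two_mul (θ / 2)
      have h' := Real.sin_sq_add_cos_sq (θ / 2)
      rw [show 2 * (θ / 2) = θ by ring] at this
      linarith
    have e5 : (1 + ρ) ^ 2 * ((1 - ρ / 2) / 2) ≤ ((1 + ρ) * Real.sin (θ / 2)) ^ 2 := by
      rw [mul_pow, e4]
      apply mul_le_mul_of_nonneg_left _ (by positivity)
      linarith
    nlinarith [mul_pos hρ hρ2]
  · have hco := fun (X : ℝ) => dv_core (X := X) hk hk8 hρ hρ1 hθ0 hθ ht ht2' ht2'' hcθ hapos hcase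
      haπ hm0 hm1 hY (ha hcase) hE hD2
    have hs6 : (3 : ℝ) / 5 ≤ Real.sin 0.6436 :=
      le_trans (by norm_num) (dv_sin_ge7 (x := 0.6436) (by norm_num))
    have hRX : R * (1 - ρ ^ 2) ≤ Real.sin 0.6436 ^ 2 := by
      have h2 : ((3 : ℝ) / 5) ^ 2 ≤ Real.sin 0.6436 ^ 2 := pow_le_pow_left₀ (by norm_num) hs6 2
      have h3 : (36 : ℝ) / 100 * (1 - ρ ^ 2) ≤ 36 / 100 := by nlinarith
      norm_num at h2 ⊢
      linarith
    rcases le_total k 4 with hk4 | hk4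
    · rcases le_total k (5 / 2) with hk5 | hk5
      · exact hco 0.6436 (by norm_num) (by linarith) hRX (fun g n hg0 hg2 hn0 hn1 hc =>
          dv_caseA hg0 hg2 hρ.le hρ1.le hn0 hn1 (by linarith) (by linarith) hc)
      · exact hco 0.6436 (by norm_num) (by linarith) hRX (fun g n hg0 hg2 hn0 hn1 hc =>
          dv_caseE hg0 hg2 hρ.le hρ1.le hn0 hn1 (by linarith) (by linarith) hc)
    · set x := Real.arcsin (3 / 5 * Real.sqrt (1 - ρ ^ 2)) with hx
      have hw0 : 0 ≤ Real.sqrt (1 - ρ ^ 2) := Real.sqrt_nonneg _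
      have hw2 : Real.sqrt (1 - ρ ^ 2) ^ 2 = 1 - ρ ^ 2 := Real.sq_sqrt hρ2.le
      have hw1 : Real.sqrt (1 - ρ ^ 2) ≤ 1 := by
        rw [Real.sqrt_le_one]; nlinarith
      have hsx : Real.sin x = 3 / 5 * Real.sqrt (1 - ρ ^ 2) :=
        Real.sin_arcsin (by linarith) (by linarith)
      have hx0 : 0 ≤ x := Real.arcsin_nonneg.2 (by positivity)
      have hx1 : x ≤ 0.6436 := by
        rw [hx, Real.arcsin_le_iff_le_sin ⟨by linarith, by linarith⟩
          ⟨by linarith, by linarith⟩]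
        linarith
      refine hco x hx0 (by linarith) ?_ (fun g n hg0 hg2 hn0 hn1 hc =>
        dv_caseF hg0 hg2 hρ.le hρ1.le hn1 (by linarith) (by linarith) hx0 hx1 hsx)
      rw [hsx, mul_pow, hw2]
      have := mul_le_mul_of_nonneg_right hR36 hρ2.le
      linarith

/-- the form with the three constants -/
theorem disc_V {k ρ θ β a m R : ℝ} {f b : ℂ} (hk : 2 < k) (hk8 : k ≤ 8) (hρ : 0 < ρ) (hρ1 : ρ < 1)
    (hθ0 : 0 ≤ θ) (hθ : θ ≤ π) (hf : f = (ρ : ℂ) * Complex.exp ((θ : ℂ) * Complex.I))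
    (hb : b = (β : ℂ) * Complex.exp (-((a : ℂ) * Complex.I))) (hβ : 0 ≤ β) (ht : 1 ≤ ‖1 - f‖)
    (ha0 : -(π / 2) ≤ a) (haπ : 2 * a / k ≤ π) (hm0 : 0 < m) (hm1 : m ≤ 1)
    (hY : m ^ 2 ≤ ρ ^ (-(2 / k)) * (‖1 - f‖ ^ (2 / k) - ‖1 - f‖ ^ (-(2 / k))))
    (ha : θ / 2 < a → Real.sin (2 * a / k) ≤ m * Real.cos ((2 * a - θ) / k))
    (hR : (k ≤ 5 / 2 ∧ R ≤ 36 / 100) ∨ (5 / 2 ≤ k ∧ k ≤ 3 ∧ R ≤ 30 / 100) ∨
      (3 ≤ k ∧ R ≤ 25 / 100)) :
    R * (1 - ρ ^ 2) < ‖(1 - f) - b * f‖ ^ 2 :=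
  disc_V36 hk hk8 hρ hρ1 hθ0 hθ hf hb hβ ht ha0 haπ hm0 hm1 hY ha
    (by rcases hR with h | h | h <;> linarith [h.2])

end EQD
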