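import Mathlib
import Pool.Agent.Lib.MP_226de1_co.E.DPos
import Pool.Agent.Lib.MP_226de1_co.E.DHa
import Pool.Agent.Lib.MP_226de1_co.E.DMst
import Pool.Agent.Lib.MP_226de1_co.E.DNid
import Pool.Agent.Lib.MP_226de1_co.E.DRposSt
import Pool.Agent.Lib.MP_226de1_co.E.DiscV

/-! Unit disc exit, case P (`F_1 > 0`, `arg p_{-2} ≤ 0`), `2 < k ≤ 8`: second part of the first
step and the end. -/

set_option autoImplicit false

namespace EQS

open Complex

variable {k C : ℝ} {q0 q1 q2 q3 d0 d1 d2 X1 X2 X3 : ℂ}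

/-- `A_1 ≤ pi/4` in case P -/
theorem St.pos_A (h : St k C q0 q1 q2 q3 d0 d1 d2 X1 X2 X3)
    (hh : X1.im < -(Real.pi / 4) → (pv k C X1 d1).re < 1 / 2)
    (he : ‖1 - pv k C X1 d0‖ = 1) (hf : ‖1 - pv k C X2 d1‖ < 1) (hφ : 0 < (X1 - d1).im)
    (hτ : (X2 - d1).im ≤ 0) : -(Real.pi / 4) ≤ X1.im := by
  have hpi := Real.pi_gt_d2
  have k0 := h.k0
  by_contra hcon
  have hcon' := not_le.1 hcon
  have h1 := hh hcon'
  rw [h.disc_f1 he, exp_ofReal_mul_I_re] at h1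
  have hF : Real.pi / 3 < k * (X1 - d1).im := by
    by_contra hc
    have := Real.cos_le_cos_of_nonneg_of_le_pi (mul_pos k0 hφ).le (by linarith) (not_lt.1 hc)
    rw [Real.cos_pi_div_three] at this
    linarith
  have ht := h.pos_tan hφ hτ
  have hL := h.pos_L hφ hτ
  have hkL := h.disc_Llt he hf
  have hψ := h.psi_lt
  have a1 := h.a1
  set φ := (X1 - d1).im with hφd
  set A := -X1.im with hA
  set L := (X2 - X1).re with hLd
  have hcA : 0 < Real.cos A := Real.cos_pos_of_mem_Ioo ⟨by linarith, by linarith⟩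
  have hcφ : 0 < Real.cos φ := Real.cos_pos_of_mem_Ioo ⟨by linarith, by linarith⟩
  have hsA : Real.cos A ≤ Real.sin A := by
    rw [← Real.cos_pi_div_two_sub A]
    apply Real.cos_le_cos_of_nonneg_of_le_pi <;> linarith
  have htan := Real.lt_tan hφ (by linarith)
  rw [Real.tan_eq_sin_div_cos, lt_div_iff₀ hcφ] at htan
  have h2 : (Real.cos A * Real.cos φ) * φ < (Real.cos A * Real.cos φ) * L := by
    have h3 : Real.cos A * (φ * Real.cos φ) < Real.cos A * Real.sin φ :=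
      mul_lt_mul_of_pos_left htan hcA
    have h4 : Real.cos A * Real.sin φ ≤ Real.sin A * Real.sin φ :=
      mul_le_mul_of_nonneg_right hsA (by
        have := mul_pos hφ hcφ
        linarith)
    nlinarith
  have h5 : φ < L := lt_of_mul_lt_mul_left h2 (mul_pos hcA hcφ).le
  have h6 := mul_lt_mul_of_pos_left h5 k0
  have h7 := Real.log_two_lt_d9
  norm_num at h7
  linarith

/-- `0 ≤ Re z`, `z = (i - q_{-1}) / D_{-1}`, for `0 ≤ phi ≤ A` -/
theorem St.pos_z (h : St k C q0 q1 q2 q3 d0 d1 d2 X1 X2 X3) (hφ : 0 < (X1 - d1).im)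
    (hφA : (X1 - d1).im ≤ -X1.im) : 0 ≤ ((I - q1) / exp d1).re := by
  have hpi := Real.pi_pos
  obtain ⟨p1, p2⟩ := quad_polar h.x1
  set A := -X1.im with hA
  set φ := (X1 - d1).im with hφd
  have hA0 : 0 < A := by rw [hA]; linarith [h.a1.2]
  have hA1 : A < Real.pi / 2 := by rw [hA]; linarith [h.a1.1]
  have hψ := h.psi_lt
  rw [← hA, ← hφd] at hψ
  set L := Real.exp d1.re with hL
  have hL0 : 0 < L := Real.exp_pos _
  set R := Real.exp X1.re with hR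
  have hR0 : 0 < R := Real.exp_pos _
  have ea : 2 * X1.im = -(2 * A) := by rw [hA]; ring
  rw [ea, Real.cos_neg] at p1
  rw [ea, Real.sin_neg] at p2
  have hz : ((I - q1) / exp d1).re =
      (-q1.re * Real.cos (A + φ) - (1 - q1.im) * Real.sin (A + φ)) / L := by
    have e1 : (I - q1) / exp d1 = (I - q1) * exp (-d1) := by
      rw [exp_neg, div_eq_mul_inv]
    have e2 : (-d1).im = A + φ := by
      rw [hA, hφd, neg_im, sub_im]
      ring
    have e3 : Real.exp (-d1).re = L⁻¹ := by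
      rw [hL, ← Real.exp_neg]
      simp
    rw [e1, mul_re, exp_re, exp_im, e2, e3]
    simp only [sub_re, sub_im, I_re, I_im]
    field_simp
    ring
  have hs2A : 0 < Real.sin (2 * A) := Real.sin_pos_of_pos_of_lt_pi (by linarith) (by linarith)
  have hsψ : 0 < Real.sin (A + φ) :=
    Real.sin_pos_of_pos_of_lt_pi (by linarith) (by linarith)
  have hsd : 0 ≤ Real.sin (A - φ) :=
    Real.sin_nonneg_of_nonneg_of_le_pi (by linarith) (by linarith)
  have ha0 : 0 < -q1.re := by linarith [h.q1neg]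
  have key1 : 0 ≤ -q1.re * Real.cos (2 * A) - (1 - q1.im) * Real.sin (2 * A) := by
    have e1 : R ^ 2 * (-q1.re * Real.cos (2 * A) - (1 - q1.im) * Real.sin (2 * A)) =
        -q1.re * ((1 - q1.im) ^ 2 + q1.re ^ 2) := by
      linear_combination (q1.re) * p1 + (-(1 - q1.im)) * p2
    have e2 : 0 ≤ -q1.re * ((1 - q1.im) ^ 2 + q1.re ^ 2) := by positivity
    rw [← e1] at e2
    exact nonneg_of_mul_nonneg_right e2 (by positivity)
  have key2 : -q1.re * Real.sin (A - φ) ≤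
      (-q1.re * Real.cos (A + φ) - (1 - q1.im) * Real.sin (A + φ)) * Real.sin (2 * A) := by
    have e1 : Real.sin (A - φ) =
        Real.sin (2 * A) * Real.cos (A + φ) - Real.cos (2 * A) * Real.sin (A + φ) := by
      rw [← Real.sin_sub]
      congr 1
      ring
    rw [e1]
    nlinarith [mul_nonneg hsψ.le key1]
  rw [hz]
  apply div_nonneg _ hL0.le
  have h1 : 0 ≤ (-q1.re * Real.cos (A + φ) - (1 - q1.im) * Real.sin (A + φ)) *
      Real.sin (2 * A) := (mul_nonneg ha0.le hsd).trans key2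
  exact nonneg_of_mul_nonneg_left h1 hs2A

/-- `t ≥ 1` in case P -/
theorem St.pos_t (h : St k C q0 q1 q2 q3 d0 d1 d2 X1 X2 X3)
    (he : ‖1 - pv k C X1 d0‖ = 1) (hφ : 0 < (X1 - d1).im)
    (hτ : (X2 - d1).im ≤ 0) : 1 ≤ ‖pv k C X2 d1‖ := by
  have h1 := h.pos_L hφ hτ
  rw [sub_re] at h1
  rw [h.dn_P he]
  exact Real.one_le_exp (mul_nonneg h.k0.le h1)

/-- `m² ≤ Y²` in case P -/
theorem St.pos_mY (h : St k C q0 q1 q2 q3 d0 d1 d2 X1 X2 X3)
    (he : ‖1 - pv k C X1 d0‖ = 1) (hφ : 0 < (X1 - d1).im) (hφA : (X1 - d1).im ≤ -X1.im) :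
    (‖exp d2‖ / ‖I - q2‖) ^ 2 ≤ ‖pv k C X2 d2‖ ^ (-(2 / k)) *
        (‖pv k C X2 d1‖ ^ (2 / k) - ‖pv k C X2 d1‖ ^ (-(2 / k))) := by
  have h1 := h.disc_M1 he (by linarith)
  have h2 := h.pos_z hφ hφA
  have h3 := mul_nonneg (sq_nonneg (‖exp d2‖ / ‖I - q2‖)) h2
  nlinarith

/-- `F_1 ≤ 3` -/
theorem St.pos_F1 (h : St k C q0 q1 q2 q3 d0 d1 d2 X1 X2 X3) (hk8 : k ≤ 8)
    (he : ‖1 - pv k C X1 d0‖ = 1) (hF : 0 < (X1 - d1).im)
    (hφA : (X1 - d1).im ≤ -X1.im) (hτ : (X2 - d1).im ≤ 0)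
    (hf : ‖pv k C X2 d2‖ ≤ 1) : k * (X1 - d1).im ≤ 3 := by
  have k0 := h.k0
  obtain ⟨_, hl⟩ := h.phi_sq he hF hφA hτ hf
  have e1 : (k * (X1 - d1).im) ^ 2 ≤ 3 ^ 2 := by
    have e2 : (k * (X1 - d1).im) ^ 2 = k * (k * (X1 - d1).im ^ 2) := by ring
    have e3 := Real.log_two_lt_d9
    have e4 : k * (k * (X1 - d1).im ^ 2) ≤ 8 * 1 := by
      apply mul_le_mul hk8 _ (by positivity) (by norm_num)
      norm_num at e3
      linarith
    rw [e2]
    linarith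
  exact (abs_le_of_sq_le_sq' e1 (by norm_num)).2

/-- `|D_{-2}| ≤ |xi_{-2}|` in case P -/
theorem St.pos_d2 (h : St k C q0 q1 q2 q3 d0 d1 d2 X1 X2 X3)
    (he : ‖1 - pv k C X1 d0‖ = 1) (hφ : 0 < (X1 - d1).im)
    (hτ : (X2 - d1).im ≤ 0) : 0 ≤ (X2 - d2).re := by
  have hpi := Real.pi_pos
  have k0 := h.k0
  have hk := h.hk
  have hC := h.C0
  obtain ⟨u, w, hu, hw, h1, _, _⟩ := h.dn_V
  have hψ := h.psi_lt
  have a1 := h.a1
  have hτ' := abs_lt.1 h.tau_lt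
  have eP := h.dn_Pe he
  set T := Real.exp (2 * (X2 - X1).re) with hT
  set P := Real.exp (-(2 * (X1 - d1).re)) with hP
  set φ := (X1 - d1).im with hφd
  set τ := (X2 - d1).im with hτd
  have hP0 : 0 < P := Real.exp_pos _
  have hT0 : 0 < T := Real.exp_pos _
  have hcφ : 0 < Real.cos φ := Real.cos_pos_of_mem_Ioo ⟨by linarith, by linarith⟩
  have hc : Real.cos (2 * τ - φ) ≤ Real.cos φ := by
    rw [← Real.cos_neg (2 * τ - φ)]
    apply Real.cos_le_cos_of_nonneg_of_le_pi <;> linarith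
  have h2 : (1 + P) * Real.cos φ < T * Real.cos φ := by
    have := mul_le_mul_of_nonneg_left hc hT0.le
    linarith
  have h3 : 1 + P < T := lt_of_mul_lt_mul_right h2 hcφ.le
  -- `T = t ^ λ ≤ 1 + ρ ^ λ`
  have eT := h.dn_T he
  rw [← hT] at eT
  have hlam0 : 0 ≤ 2 / k := by positivity
  have hlam1 : 2 / k ≤ 1 := by rw [div_le_one k0]; exact hk.le
  have ht : ‖pv k C X2 d1‖ ≤ 1 + ‖pv k C X2 d2‖ := by
    have e1 : pv k C X2 d1 = 1 - pv k C X2 d2 := by linear_combination h.f2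
    rw [e1]
    have := norm_sub_le (1 : ℂ) (pv k C X2 d2)
    rwa [norm_one] at this
  have h4 : T ≤ 1 + ‖pv k C X2 d2‖ ^ (2 / k) := by
    rw [← eT]
    have h5 : ‖pv k C X2 d1‖ ^ (2 / k) ≤ (1 + ‖pv k C X2 d2‖) ^ (2 / k) :=
      Real.rpow_le_rpow (norm_nonneg _) ht hlam0
    have h6 := NNReal.rpow_add_le_add_rpow 1 ‖pv k C X2 d2‖₊ hlam0 hlam1
    have h7 : (1 + ‖pv k C X2 d2‖) ^ (2 / k) ≤ 1 ^ (2 / k) + ‖pv k C X2 d2‖ ^ (2 / k) := by
      exact_mod_cast h6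
    rw [Real.one_rpow] at h7
    exact h5.trans h7
  rw [pv_rpow hC k0, eP] at h4
  have h8 : P * 1 < P * Real.exp (2 * (X2 - d2).re) := by linarith
  have h9 := lt_of_mul_lt_mul_left h8 hP0.le
  rw [Real.one_lt_exp_iff] at h9
  linarith

/-- `F_2 > 0` in case P -/
theorem St.pos_F2 (h : St k C q0 q1 q2 q3 d0 d1 d2 X1 X2 X3)
    (he : ‖1 - pv k C X1 d0‖ = 1) (hφ : 0 < (X1 - d1).im)
    (hτ : (X2 - d1).im ≤ 0) : 0 < (X2 - d2).im := by
  have hpi := Real.pi_pos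
  have k0 := h.k0
  have hC := h.C0
  have ht := h.pos_t he hφ hτ
  by_contra hcon
  have hcon' := not_lt.1 hcon
  have hτ2 := abs_lt.1 h.p2
  have hi : (pv k C X2 d2).im = -(pv k C X2 d1).im := by
    have := congrArg Complex.im h.f2
    rw [add_im, one_im] at this
    linarith
  have hr : (pv k C X2 d2).re = 1 - (pv k C X2 d1).re := by
    have := congrArg Complex.re h.f2
    rw [add_re, one_re] at this
    linarith
  have hp : (pv k C X2 d1).im ≤ 0 := by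
    rw [pv_im]
    exact mul_nonpos_of_nonneg_of_nonpos (by positivity)
      (Real.sin_nonpos_of_nonpos_of_neg_pi_le (mul_nonpos_of_nonneg_of_nonpos k0.le hτ)
        (by linarith))
  have hpr := h.P_pos
  rcases hcon'.lt_or_eq with hlt | heq
  · have h1 := h.negF2 (h.pos_d2 he hφ hτ) hlt
    have h2 := mul_lt_mul_of_pos_left h1 k0
    have h3 := (abs_lt.1 h.p3).1
    have h4 : Real.sin (k * (X2 - d2).im) < 0 :=
      Real.sin_neg_of_neg_of_neg_pi_lt (mul_neg_of_pos_of_neg k0 hlt) (by linarith)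
    have h5 : (pv k C X2 d2).im < 0 := by
      rw [pv_im]
      exact mul_neg_of_pos_of_neg (by positivity) h4
    linarith
  · have h5 : (pv k C X2 d2).im = 0 := by
      rw [pv_im, heq, mul_zero, Real.sin_zero, mul_zero]
    have h6 : 0 < (pv k C X2 d2).re := by
      rw [pv_re, heq, mul_zero, Real.cos_zero, mul_one]
      positivity
    have h7 : ‖pv k C X2 d1‖ ^ 2 < 1 := by
      rw [← Complex.normSq_eq_norm_sq, normSq_apply]
      have h8 : (pv k C X2 d1).im = 0 := by linarith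
      rw [h8]
      nlinarith
    nlinarith

/-- `m ≤ 1` in case P -/
theorem St.pos_m (h : St k C q0 q1 q2 q3 d0 d1 d2 X1 X2 X3)
    (he : ‖1 - pv k C X1 d0‖ = 1) (hφ : 0 < (X1 - d1).im) (hφA : (X1 - d1).im ≤ -X1.im)
    (hA : -(Real.pi / 4) ≤ X1.im) (hτ : (X2 - d1).im ≤ 0) (hρ : ‖pv k C X2 d2‖ ≤ 1)
    (hθ1 : k * (X2 - d2).im ≤ Real.pi) : ‖exp d2‖ / ‖I - q2‖ ≤ 1 := by
  have h0 : 0 ≤ ‖exp d2‖ / ‖I - q2‖ := by positivity
  have ht := h.pos_t he hφ hτ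
  have hθ := h.pos_F2 he hφ hτ
  have h1 : (‖exp d2‖ / ‖I - q2‖) ^ 2 ≤ 1 := by
    rcases le_total k 3 with hk | hk
    · exact h.disc_m_le_one he hk hφ hφA hA hτ ht hρ hθ hθ1
    · exact h.disc_m_le_one_of_three he hk (by linarith) (h.pos_z hφ hφA) ht hρ hθ hθ1
  nlinarith

/-- `Y² ≤ (3/2) λ` -/
theorem dp_Y {l ρ t : ℝ} (hl : 0 < l) (hl1 : l ≤ 1 / 2) (hρ : 0 < ρ) (hρ1 : ρ ≤ 1) (ht : 1 ≤ t)
    (htρ : t ≤ 1 + ρ) : ρ ^ (-l) * (t ^ l - t ^ (-l)) ≤ 3 / 2 * l := by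
  have h1 := EQD.rpow_sub_rpow_neg_le ht hl.le (by linarith)
  have ht0 : 0 < t := by linarith
  have h2 : t - t⁻¹ ≤ ρ * (2 + ρ) / (1 + ρ) := by
    have e : ρ * (2 + ρ) / (1 + ρ) = (1 + ρ) - (1 + ρ)⁻¹ := by
      field_simp
      ring
    rw [e]
    have := inv_anti₀ ht0 htρ
    linarith
  have h3 : ρ ^ (-l) ≤ (Real.sqrt ρ)⁻¹ := by
    rw [Real.sqrt_eq_rpow, ← Real.rpow_neg hρ.le]
    exact Real.rpow_le_rpow_of_exponent_ge hρ hρ1 (by linarith)
  have hx0 : 0 < Real.sqrt ρ := Real.sqrt_pos.2 hρ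
  have hx1 : Real.sqrt ρ ≤ 1 := by
    rw [Real.sqrt_le_one]
    exact hρ1
  have hx2 : Real.sqrt ρ ^ 2 = ρ := Real.sq_sqrt hρ.le
  set x := Real.sqrt ρ with hx
  have h4 : t ^ l - t ^ (-l) ≤ l * (ρ * (2 + ρ) / (1 + ρ)) :=
    h1.trans (mul_le_mul_of_nonneg_left h2 hl.le)
  have h5 : 0 ≤ l * (ρ * (2 + ρ) / (1 + ρ)) := by positivity
  calc ρ ^ (-l) * (t ^ l - t ^ (-l)) ≤ ρ ^ (-l) * (l * (ρ * (2 + ρ) / (1 + ρ))) :=
        mul_le_mul_of_nonneg_left h4 (by positivity)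
    _ ≤ x⁻¹ * (l * (ρ * (2 + ρ) / (1 + ρ))) := mul_le_mul_of_nonneg_right h3 h5
    _ = l * (x * (2 + x ^ 2) / (1 + x ^ 2)) := by
        rw [← hx2]
        field_simp
    _ ≤ l * (3 / 2) := by
        apply mul_le_mul_of_nonneg_left _ hl.le
        rw [div_le_iff₀ (by positivity)]
        have : 0 ≤ (1 - x) * (x ^ 2 - x / 2 + 3 / 2) :=
          mul_nonneg (by linarith) (by nlinarith)
        nlinarith
    _ = _ := by ring

/-- `2 λ ≤ sin² (pi λ)` for `1/4 ≤ λ ≤ 1/2` -/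
theorem dp_sin {l : ℝ} (hl : 1 / 4 ≤ l) (hl1 : l ≤ 1 / 2) :
    2 * l ≤ Real.sin (Real.pi * l) ^ 2 := by
  have hpi := Real.pi_pos
  have h1 := Real.mul_le_sin (x := 2 * (Real.pi * l) - Real.pi / 2) (by nlinarith) (by nlinarith)
  rw [Real.sin_sub_pi_div_two, Real.cos_two_mul] at h1
  have h2 : 2 / Real.pi * (2 * (Real.pi * l) - Real.pi / 2) = 4 * l - 1 := by
    field_simp
    ring
  rw [h2] at h1
  have := Real.sin_sq_add_cos_sq (Real.pi * l)
  nlinarith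

/-- `phi_2 ≤ pi/2` -/
theorem St.phi2_le (h : St k C q0 q1 q2 q3 d0 d1 d2 X1 X2 X3) : (X2 - d2).im ≤ Real.pi / 2 := by
  have hpi := Real.pi_pos
  have k0 := h.k0
  have a2 := h.a2
  have a3 := h.a3
  have hτ3 : |(X3 - d2).im| < Real.pi / 4 := by
    have := h.p3
    rw [abs_mul, abs_of_pos k0] at this
    have h3 := mul_le_mul_of_nonneg_right h.hk.le (abs_nonneg (X3 - d2).im)
    linarith
  have hτ3' := abs_lt.1 hτ3
  have hc := cos_pos_of_re h.D2
  have e1 : d2.im = X3.im - (X3 - d2).im := by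
    rw [sub_im]
    ring
  have h5 : -(Real.pi / 2) < d2.im := by
    by_contra hcon
    push Not at hcon
    have h2 := Real.cos_nonpos_of_pi_div_two_le_of_le (x := -d2.im) (by linarith)
      (by linarith)
    rw [Real.cos_neg] at h2
    linarith
  rw [sub_im]
  linarith

/-- `v = 2 Im (X2 - X3) - phi_2 ≤ pi` -/
theorem St.v2_le (h : St k C q0 q1 q2 q3 d0 d1 d2 X1 X2 X3) :
    2 * (X2 - X3).im - (X2 - d2).im ≤ Real.pi := by
  have hpi := Real.pi_pos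
  have k0 := h.k0
  have a2 := h.a2
  have a3 := h.a3
  have hτ3 : |(X3 - d2).im| < Real.pi / 4 := by
    have := h.p3
    rw [abs_mul, abs_of_pos k0] at this
    have h3 := mul_le_mul_of_nonneg_right h.hk.le (abs_nonneg (X3 - d2).im)
    linarith
  have hτ3' := abs_lt.1 hτ3
  simp only [sub_im] at *
  linarith

/-- `F_2 ≤ pi` in case P (`k ≤ 8`) -/
theorem St.pos_F2_le (h : St k C q0 q1 q2 q3 d0 d1 d2 X1 X2 X3) (hk8 : k ≤ 8)
    (he : ‖1 - pv k C X1 d0‖ = 1) (hf2 : ‖1 - pv k C X2 d1‖ < 1) (hφ : 0 < (X1 - d1).im)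
    (hτ : (X2 - d1).im ≤ 0) : k * (X2 - d2).im ≤ Real.pi := by
  have hpi := Real.pi_pos
  have k0 := h.k0
  have hC := h.C0
  have hφA := h.pos_phi_le hk8 he hf2 hφ hτ
  have hfe : 1 - pv k C X2 d1 = pv k C X2 d2 := h.f2_eq.symm
  have hρ1 : ‖pv k C X2 d2‖ < 1 := by rw [← hfe]; exact hf2
  have hρ0 : 0 < ‖pv k C X2 d2‖ := norm_pos_iff.2 (pv_ne hC)
  have ht := h.pos_t he hφ hτ
  have hmY := h.pos_mY he hφ hφA
  have hφ2 := h.phi2_le
  have hθ := h.pos_F2 he hφ hτ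
  by_contra hcon
  have hcon' := not_le.1 hcon
  -- `F_2 ≥ 2 pi`
  have hτ2 := abs_lt.1 h.p2
  have hi : (pv k C X2 d2).im = -(pv k C X2 d1).im := by
    have := congrArg Complex.im h.f2
    rw [add_im, one_im] at this
    linarith
  have hp : (pv k C X2 d1).im ≤ 0 := by
    rw [pv_im]
    exact mul_nonpos_of_nonneg_of_nonpos (by positivity)
      (Real.sin_nonpos_of_nonpos_of_neg_pi_le (mul_nonpos_of_nonneg_of_nonpos k0.le hτ)
        (by linarith))
  have hF2 : 2 * Real.pi ≤ k * (X2 - d2).im := by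
    by_contra hc
    have h4 : Real.sin (k * (X2 - d2).im) < 0 := by
      have h5 := Real.sin_pos_of_pos_of_lt_pi (x := k * (X2 - d2).im - Real.pi) (by linarith)
        (by linarith)
      rw [Real.sin_sub_pi] at h5
      linarith
    have h5 : (pv k C X2 d2).im < 0 := by
      rw [pv_im]
      exact mul_neg_of_pos_of_neg (by positivity) h4
    linarith
  have hk4 : 4 ≤ k := by
    have h1 : k * (X2 - d2).im ≤ k * (Real.pi / 2) := mul_le_mul_of_nonneg_left hφ2 k0.le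
    nlinarith
  have htρ : ‖pv k C X2 d1‖ ≤ 1 + ‖pv k C X2 d2‖ := by
    have e1 : pv k C X2 d1 = 1 - pv k C X2 d2 := by linear_combination h.f2
    rw [e1]
    have := norm_sub_le (1 : ℂ) (pv k C X2 d2)
    rwa [norm_one] at this
  have hl1 : 2 / k ≤ 1 / 2 := by
    rw [div_le_iff₀ k0]
    linarith
  have hl2 : 1 / 4 ≤ 2 / k := by
    rw [le_div_iff₀ k0]
    linarith
  have hl0 : 0 < 2 / k := by positivity
  have hY := dp_Y hl0 hl1 hρ0 hρ1.le ht htρ
  have hm2 : (‖exp d2‖ / ‖I - q2‖) ^ 2 ≤ 3 / 2 * (2 / k) := hmY.trans hY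
  have hm0 : 0 ≤ ‖exp d2‖ / ‖I - q2‖ := by positivity
  have hm1 : ‖exp d2‖ / ‖I - q2‖ ≤ 1 := by nlinarith
  have hp3 := abs_lt.1 h.p3
  have hu : (X2 - d2).im ≤ 2 * (X2 - X3).im := by
    have e1 : k * (2 * (X2 - X3).im) = 2 * (k * (X2 - d2).im - k * (X3 - d2).im) := by
      simp only [sub_im]
      ring
    have h7 : k * (X2 - d2).im ≤ k * (2 * (X2 - X3).im) := by
      rw [e1]
      linarith
    exact le_of_mul_le_mul_left h7 k0
  have hs := ha_sin h.x2 h.a2 h.x3 h.s2 (h.r12.trans h.q1neg) h.i2 hθ.le hφ2 hm1 hu h.v2_le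
  have hs2 := dp_sin hl2 hl1
  have e2 : Real.pi * (2 / k) ≤ (X2 - d2).im := by
    rw [mul_div_assoc', div_le_iff₀ k0]
    linarith
  have h8 : Real.sin (Real.pi * (2 / k)) ≤ Real.sin (X2 - d2).im :=
    Real.sin_le_sin_of_le_of_le_pi_div_two (by
      have : 0 < Real.pi * (2 / k) := by positivity
      linarith) hφ2 e2
  have h9 : 0 ≤ Real.sin (Real.pi * (2 / k)) :=
    Real.sin_nonneg_of_nonneg_of_le_pi (by positivity) (by linarith)
  have h10 := pow_le_pow_left₀ h9 (h8.trans hs) 2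
  linarith

/-- **case P** of the unit disc exit -/
theorem St.pos_end (h : St k C q0 q1 q2 q3 d0 d1 d2 X1 X2 X3) (hk8 : k ≤ 8)
    (hh : X1.im < -(Real.pi / 4) → (pv k C X1 d1).re < 1 / 2)
    (he : ‖1 - pv k C X1 d0‖ = 1) (hf2 : ‖1 - pv k C X2 d1‖ < 1)
    (hφ : 0 < (X1 - d1).im) (hτ : (X2 - d1).im ≤ 0) :
    ‖exp d1‖ ^ 2 * ((1 - ‖1 - pv k C X2 d1‖ ^ 2) * (1 - ‖1 - pv k C X3 d2‖ ^ 2)) <
      4 * ‖pv k C X2 d1 - pv k C X3 d2‖ ^ 2 * ((exp d0).re * (exp d0 + exp d1).re) := by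
  have hpi := Real.pi_pos
  have k0 := h.k0
  have hC := h.C0
  have hA := h.pos_A hh he hf2 hφ hτ
  have hφA := h.pos_phi_le hk8 he hf2 hφ hτ
  have hfe : 1 - pv k C X2 d1 = pv k C X2 d2 := h.f2_eq.symm
  have hρ1 : ‖pv k C X2 d2‖ < 1 := by rw [← hfe]; exact hf2
  have hρ0 : 0 < ‖pv k C X2 d2‖ := norm_pos_iff.2 (pv_ne hC)
  have hR := h.Rpos hk8 he hφ hφA hA hτ hρ1.le
  have ht := h.pos_t he hφ hτ
  have hθ := h.pos_F2 he hφ hτ
  have hθ1 := h.pos_F2_le hk8 he hf2 hφ hτ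
  have hm := h.pos_m he hφ hφA hA hτ hρ1.le hθ1
  have hmY := h.pos_mY he hφ hφA
  have hτ3 : |(X3 - d2).im| < Real.pi / 4 := by
    have := h.p3
    rw [abs_mul, abs_of_pos k0] at this
    have h3 := mul_le_mul_of_nonneg_right h.hk.le (abs_nonneg (X3 - d2).im)
    linarith
  have hτ3' := abs_lt.1 hτ3
  have a2 := h.a2
  have a3 := h.a3
  have hp3 := abs_lt.1 h.p3
  have hne : I - q2 ≠ 0 := by
    intro h0
    have := congrArg Complex.re h0
    simp at this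
    linarith [h.r12, h.q1neg]
  have hm0 : 0 < ‖exp d2‖ / ‖I - q2‖ :=
    div_pos (norm_pos_iff.2 (exp_ne_zero _)) (norm_pos_iff.2 hne)
  -- lifted angles
  have ea : k * (X2 - X3).im = k * (X2 - d2).im - k * (X3 - d2).im := by
    simp only [sub_im]
    ring
  have hd2 := h.phi2_le
  have key : 36 / 100 * (1 - ‖pv k C X2 d2‖ ^ 2) <
      ‖(1 - pv k C X2 d2) - exp ((k : ℂ) * (X3 - X2)) * pv k C X2 d2‖ ^ 2 := by
    refine EQD.disc_V36 (k := k) (ρ := ‖pv k C X2 d2‖) (θ := k * (X2 - d2).im)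
      (β := Real.exp (k * (X3 - X2).re)) (a := k * (X2 - X3).im) (m := ‖exp d2‖ / ‖I - q2‖)
      h.hk hk8 hρ0 hρ1 (mul_pos k0 hθ).le hθ1 ?_ ?_ (Real.exp_pos _).le ?_ ?_ ?_ hm0 hm ?_ ?_
      le_rfl
    · rw [norm_pv hC]
      unfold pv
      push_cast
      rw [div_mul_eq_mul_div, ← exp_add]
      congr 2
      apply Complex.ext
      · simp
      · simp
    · rw [ofReal_exp, ← exp_add]
      congr 1
      apply Complex.ext
      · simp
      · simp
        ring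
    · have e1 : 1 - pv k C X2 d2 = pv k C X2 d1 := by linear_combination -h.f2
      rw [e1]
      exact ht
    · rw [ea]
      have := mul_pos k0 hθ
      linarith
    · have e2 : 2 * (k * (X2 - X3).im) / k = 2 * (X2 - X3).im := by field_simp
      rw [e2, sub_im]
      linarith
    · have e1 : 1 - pv k C X2 d2 = pv k C X2 d1 := by linear_combination -h.f2
      rw [e1]
      exact hmY
    · intro ha
      have e2 : 2 * (k * (X2 - X3).im) / k = 2 * (X2 - X3).im := by field_simp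
      have e3 : (2 * (k * (X2 - X3).im) - k * (X2 - d2).im) / k =
          2 * (X2 - X3).im - (X2 - d2).im := by field_simp
      rw [e2, e3]
      have h6 : (X2 - d2).im ≤ 2 * (X2 - X3).im := by
        have h7 : k * (X2 - d2).im < k * (2 * (X2 - X3).im) := by linarith
        exact (lt_of_mul_lt_mul_left h7 k0.le).le
      exact ha_step h.x2 h.a2 h.x3 h.s2 (h.r12.trans h.q1neg) h.i2 hθ.le hd2 hm h6 h.v2_le
  have e5 : (1 - pv k C X2 d2) - exp ((k : ℂ) * (X3 - X2)) * pv k C X2 d2 =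
      pv k C X2 d1 - pv k C X3 d2 := by
    have e6 : 1 - pv k C X2 d2 = pv k C X2 d1 := by linear_combination -h.f2
    rw [e6, ← pv_mul]
  rw [e5] at key
  rw [hfe]
  set W := (exp d0).re * (exp d0 + exp d1).re with hW
  have hW0 : 0 < W := by
    rw [hW, add_re]
    exact mul_pos h.D0 (add_pos h.D0 h.D1)
  set ρ := ‖pv k C X2 d2‖ with hρd
  have hg : 0 < 1 - ρ ^ 2 := by nlinarith
  have hg3 : 1 - ‖1 - pv k C X3 d2‖ ^ 2 ≤ 1 := by
    have := sq_nonneg ‖1 - pv k C X3 d2‖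
    linarith
  calc ‖exp d1‖ ^ 2 * ((1 - ρ ^ 2) * (1 - ‖1 - pv k C X3 d2‖ ^ 2)) ≤
        ‖exp d1‖ ^ 2 * ((1 - ρ ^ 2) * 1) := by
        apply mul_le_mul_of_nonneg_left _ (by positivity)
        exact mul_le_mul_of_nonneg_left hg3 hg.le
    _ = ‖exp d1‖ ^ 2 * (1 - ρ ^ 2) := by ring
    _ ≤ 4 * (36 / 100) * W * (1 - ρ ^ 2) := mul_le_mul_of_nonneg_right hR hg.le
    _ = 4 * W * (36 / 100 * (1 - ρ ^ 2)) := by ring
    _ < 4 * W * ‖pv k C X2 d1 - pv k C X3 d2‖ ^ 2 :=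
        mul_lt_mul_of_pos_left key (by positivity)
    _ = _ := by ring

end EQS
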