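import Mathlib

/-! Sheets `F_2 ≥ π`, `2 < k ≤ 5/2`: the two one-variable inequalities. -/

set_option autoImplicit false

namespace EQS

/-- weighted AM-GM -/
theorem shA_amgm {a h G b G0 : ℝ} (ha : 0 ≤ a) (ha2 : a ≤ 1 / 2) (hh : 0 ≤ h) (hG : 0 ≤ G)
    (hb : 0 < b) (hG0 : 0 < G0) (hs : a * (h / b) + 1 / 2 * (G / G0) + (1 / 2 - a) ≤ 1) :
    h ^ a * G ^ (1 / 2 : ℝ) ≤ b ^ a * G0 ^ (1 / 2 : ℝ) := by
  have h1 := Real.geom_mean_le_arith_mean3_weighted (w₁ := a) (w₂ := 1 / 2) (w₃ := 1 / 2 - a)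
    (p₁ := h / b) (p₂ := G / G0) (p₃ := 1) ha (by norm_num) (by linarith) (by positivity)
    (by positivity) (by norm_num) (by ring)
  rw [Real.one_rpow, mul_one, mul_one, Real.div_rpow hh hb.le, Real.div_rpow hG hG0.le] at h1
  have h2 : 0 < b ^ a := Real.rpow_pos_of_pos hb _
  have h3 : 0 < G0 ^ (1 / 2 : ℝ) := Real.rpow_pos_of_pos hG0 _
  have h4 : h ^ a / b ^ a * (G ^ (1 / 2 : ℝ) / G0 ^ (1 / 2 : ℝ)) =
      h ^ a * G ^ (1 / 2 : ℝ) / (b ^ a * G0 ^ (1 / 2 : ℝ)) := by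
    field_simp
  rw [h4] at h1
  have h5 := h1.trans hs
  rwa [div_le_one (by positivity)] at h5

/-- `b ^ a ≤ (1 - a) (1 - a + 4 a b)` -/
theorem shA_pow {a b : ℝ} (ha : 0 ≤ a) (ha2 : a ≤ 1 / 2) (hb : 0 ≤ b) :
    b ^ a ≤ (1 - a) * (1 - a + 4 * a * b) := by
  have e1 : b ^ a = (1 / 4 : ℝ) ^ a * (4 * b) ^ a := by
    rw [← Real.mul_rpow (by norm_num) (by positivity)]
    congr 1
    ring
  have h1 : (4 * b) ^ a ≤ 1 - a + 4 * a * b := by
    have := rpow_one_add_le_one_add_mul_self (s := 4 * b - 1) (p := a) (by linarith) ha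
      (by linarith)
    have e2 : 1 + (4 * b - 1) = 4 * b := by ring
    rw [e2] at this
    linarith
  have h2 : (1 / 4 : ℝ) ^ a ≤ 1 - a := by
    have e2 : (1 / 4 : ℝ) ^ a = (1 / 2 : ℝ) ^ (2 * a) := by
      rw [Real.rpow_mul (by norm_num)]
      congr 1
      norm_num
    have := rpow_one_add_le_one_add_mul_self (s := -(1 / 2)) (p := 2 * a) (by norm_num)
      (by linarith) (by linarith)
    have e3 : (1 : ℝ) + -(1 / 2) = 1 / 2 := by norm_num
    rw [e3] at this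
    rw [e2]
    linarith
  rw [e1]
  have h3 : 0 ≤ (4 * b) ^ a := Real.rpow_nonneg (by positivity) _
  exact mul_le_mul h2 h1 h3 (by linarith)

/-- the one-variable inequality behind the main estimate -/
theorem shA_poly {a : ℝ} (h0 : 0 ≤ a) (h1 : a ≤ 1 / 2) :
    (4 * (1 - a) * (16 * (2 + a) + (63 / 20) ^ 2 * a ^ 2) *
        ((1 - a) * (2 + a) * (1 + 2 * a) + 8 * (63 / 20) * a ^ 3)) ^ 2 * ((63 / 20) * a) ≤
      (615 / 1000) ^ 2 * (16 * (2 + a) ^ 3 * (1 + 2 * a)) ^ 2 * (2 * (1 + 2 * a)) := by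
  have e : (615 / 1000) ^ 2 * (16 * (2 + a) ^ 3 * (1 + 2 * a)) ^ 2 * (2 * (1 + 2 * a)) -
      (4 * (1 - a) * (16 * (2 + a) + (63 / 20) ^ 2 * a ^ 2) *
        ((1 - a) * (2 + a) * (1 + 2 * a) + 8 * (63 / 20) * a ^ 3)) ^ 2 * ((63 / 20) * a) =
      7746048 / 625 * (1 - 2 * a) ^ 13 +
      14208768 / 125 * (2 * a) ^ 1 * (1 - 2 * a) ^ 12 +
      249179616 / 625 * (2 * a) ^ 2 * (1 - 2 * a) ^ 11 +
      396835848 / 625 * (2 * a) ^ 3 * (1 - 2 * a) ^ 10 +
      245586492 / 625 * (2 * a) ^ 4 * (1 - 2 * a) ^ 9 +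
      550718254017 / 1600000 * (2 * a) ^ 5 * (1 - 2 * a) ^ 8 +
      7148009801169 / 3200000 * (2 * a) ^ 6 * (1 - 2 * a) ^ 7 +
      149678782944417 / 25600000 * (2 * a) ^ 7 * (1 - 2 * a) ^ 6 +
      507917210143167 / 64000000 * (2 * a) ^ 8 * (1 - 2 * a) ^ 5 +
      1637381484434043 / 256000000 * (2 * a) ^ 9 * (1 - 2 * a) ^ 4 +
      160270827848469 / 51200000 * (2 * a) ^ 10 * (1 - 2 * a) ^ 3 +
      9286459145644977 / 10240000000 * (2 * a) ^ 11 * (1 - 2 * a) ^ 2 +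
      787925009219031 / 5120000000 * (2 * a) ^ 12 * (1 - 2 * a) ^ 1 +
      156651847478433 / 10240000000 * (2 * a) ^ 13 := by
    ring
  have h2 : 0 ≤ 1 - 2 * a := by linarith
  have h3 : 0 ≤ 2 * a := by linarith
  rw [← sub_nonneg, e]
  positivity

/-- `4κ(1+ε) √G0 (1-a) (1-a+4ab) ≤ 0.615` -/
theorem shA_M4 {a : ℝ} (h0 : 0 < a) (h1 : a ≤ 1 / 2) :
    4 / (2 + a) * (1 + Real.pi ^ 2 * a ^ 2 / (16 * (2 + a))) *
      ((1 - a) * (1 - a + 4 * a * (2 * Real.pi * a ^ 2 / ((2 + a) * (1 + 2 * a)))) *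
        (a * Real.pi / (2 * (1 + 2 * a))) ^ (1 / 2 : ℝ)) ≤ 615 / 1000 := by
  have hpi := Real.pi_pos
  have hpi2 : Real.pi ≤ 63 / 20 := by linarith [Real.pi_lt_d2]
  rw [← Real.sqrt_eq_rpow]
  set N := 4 * (1 - a) * (16 * (2 + a) + Real.pi ^ 2 * a ^ 2) *
        ((1 - a) * (2 + a) * (1 + 2 * a) + 8 * Real.pi * a ^ 3) with hN
  set D := 16 * (2 + a) ^ 3 * (1 + 2 * a) with hD
  have ha1 : 0 < 1 - a := by linarith
  have hN0 : 0 < N := by positivity
  have hD0 : 0 < D := by positivity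
  have e1 : 4 / (2 + a) * (1 + Real.pi ^ 2 * a ^ 2 / (16 * (2 + a))) *
      ((1 - a) * (1 - a + 4 * a * (2 * Real.pi * a ^ 2 / ((2 + a) * (1 + 2 * a)))) *
        √(a * Real.pi / (2 * (1 + 2 * a)))) = N / D * √(a * Real.pi / (2 * (1 + 2 * a))) := by
    rw [hN, hD]
    field_simp
    ring
  rw [e1]
  apply le_of_sq_le_sq _ (by norm_num)
  rw [mul_pow, Real.sq_sqrt (by positivity), div_pow, div_mul_div_comm,
    div_le_iff₀ (by positivity)]
  have h2 := shA_poly h0.le h1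
  have h3 : N ^ 2 * (a * Real.pi) ≤ (4 * (1 - a) * (16 * (2 + a) + (63 / 20) ^ 2 * a ^ 2) *
        ((1 - a) * (2 + a) * (1 + 2 * a) + 8 * (63 / 20) * a ^ 3)) ^ 2 * ((63 / 20) * a) := by
    rw [mul_comm a]
    rw [hN]
    gcongr
  linarith

/-- `cos(κπ/2)^(1+a) sin(κπ)^(2+a) ≥ 0.615`, `κ = 1/(2+a)` -/
theorem shA_M5 {a : ℝ} (h0 : 0 ≤ a) (h1 : a ≤ 1 / 2) :
    615 / 1000 ≤ Real.cos (Real.pi / (2 * (2 + a))) ^ (1 + a) *
      Real.sin (Real.pi / (2 + a)) ^ (2 + a) := by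
  have hpi := Real.pi_pos
  have hpi3 := Real.pi_gt_d2
  have hpi4 := Real.pi_lt_d4
  set x := Real.pi * a / (2 * (2 + a)) with hx
  have hx0 : 0 ≤ x := by positivity
  have hx1 : x ≤ 32 / 100 := by
    rw [hx, div_le_iff₀ (by positivity)]
    nlinarith
  -- `sin x ≥ 0.6 a`
  have hs1 : 6 / 10 * a ≤ Real.sin x := by
    have h2 : x - x ^ 3 / 6 < Real.sin x ∨ x = 0 := by
      rcases hx0.eq_or_lt with h | h
      · right; exact h.symm
      · left; exact Real.sin_gt_sub_cube h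
    have h3 : 62 / 100 * a ≤ x := by
      rw [hx, le_div_iff₀ (by positivity)]
      nlinarith
    rcases h2 with h2 | h2
    · have h4 : x ^ 3 ≤ x * (32 / 100) ^ 2 := by
        have : x ^ 2 ≤ (32 / 100) ^ 2 := pow_le_pow_left₀ hx0 hx1 2
        calc x ^ 3 = x * x ^ 2 := by ring
          _ ≤ _ := mul_le_mul_of_nonneg_left this hx0
      nlinarith
    · rw [h2, Real.sin_zero]
      rw [h2] at h3
      linarith
  have hs2 := Real.sin_le_one x
  set s := Real.sin x with hs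
  have hs0 : 0 ≤ s := le_trans (by positivity) hs1
  -- the cosine
  set θ := Real.pi / (2 * (2 + a)) with hθ
  have hθ0 : 0 < θ := by positivity
  have hθ1 : θ < Real.pi / 2 := by
    rw [hθ, div_lt_div_iff₀ (by positivity) (by norm_num)]
    nlinarith
  have hc : 0 < Real.cos θ := Real.cos_pos_of_mem_Ioo ⟨by linarith, hθ1⟩
  have hz : Real.cos θ ^ 2 = (1 + s) / 2 := by
    rw [Real.cos_sq, hs]
    have : Real.sin x = Real.cos (2 * θ) := by
      rw [← Real.cos_pi_div_two_sub]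
      congr 1
      rw [hx, hθ]
      field_simp
      ring
    rw [this]
    ring
  have hz1 : (1 + (1 + a) / 2 * ((1 - s) / (1 + s)))⁻¹ ≤ Real.cos θ ^ (1 + a) := by
    have e1 : Real.cos θ ^ (1 + a) = ((1 + s) / 2) ^ ((1 + a) / 2) := by
      rw [← hz, ← Real.rpow_natCast, ← Real.rpow_mul hc.le]
      congr 1
      push_cast
      ring
    have h2 := rpow_one_add_le_one_add_mul_self (s := (1 - s) / (1 + s)) (p := (1 + a) / 2)
      (by
        have : 0 ≤ (1 - s) / (1 + s) := div_nonneg (by linarith) (by linarith)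
        linarith) (by linarith) (by linarith)
    have e2 : 1 + (1 - s) / (1 + s) = ((1 + s) / 2)⁻¹ := by
      field_simp
      ring
    rw [e2, Real.inv_rpow (by positivity)] at h2
    rw [e1]
    exact inv_le_of_inv_le₀ (by positivity) h2
  -- the sine
  have hsk : Real.sin (Real.pi / (2 + a)) = Real.cos x := by
    rw [← Real.cos_pi_div_two_sub]
    congr 1
    rw [hx]
    field_simp
    ring
  have hsk1 : 1 - Real.pi ^ 2 * a ^ 2 / (8 * (2 + a)) ≤ Real.sin (Real.pi / (2 + a)) ^ (2 + a) := by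
    rw [hsk]
    have h2 := Real.one_sub_sq_div_two_le_cos (x := x)
    have h3 := one_add_mul_self_le_rpow_one_add (s := Real.cos x - 1) (p := 2 + a)
      (by nlinarith) (by linarith)
    have e1 : 1 + (Real.cos x - 1) = Real.cos x := by ring
    rw [e1] at h3
    have h4 : 1 - Real.pi ^ 2 * a ^ 2 / (8 * (2 + a)) = 1 + (2 + a) * (1 - x ^ 2 / 2 - 1) := by
      rw [hx]
      field_simp
      ring
    rw [h4]
    have h5 : (2 + a) * (1 - x ^ 2 / 2 - 1) ≤ (2 + a) * (Real.cos x - 1) :=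
      mul_le_mul_of_nonneg_left (by linarith) (by linarith)
    linarith
  have hp1 : 0 < 1 + (1 + a) / 2 * ((1 - s) / (1 + s)) := by
    have : 0 ≤ (1 - s) / (1 + s) := div_nonneg (by linarith) (by linarith)
    positivity
  have hsk0 : 0 ≤ Real.sin (Real.pi / (2 + a)) ^ (2 + a) := by
    apply Real.rpow_nonneg
    apply Real.sin_nonneg_of_nonneg_of_le_pi (by positivity)
    rw [div_le_iff₀ (by positivity)]
    nlinarith
  refine le_trans ?_ (mul_le_mul hz1 le_rfl hsk0 (by positivity))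
  refine le_trans ?_ (mul_le_mul_of_nonneg_left hsk1 (by positivity))
  rw [inv_mul_eq_div, le_div_iff₀ hp1]
  have e3 : 1 + (1 + a) / 2 * ((1 - s) / (1 + s)) = ((1 + s) + (1 + a) / 2 * (1 - s)) / (1 + s) := by
    field_simp
  rw [e3, mul_div_assoc', div_le_iff₀ (by positivity)]
  have h6 : Real.pi ^ 2 * a ^ 2 / (8 * (2 + a)) ≤ 988 / 100 * a ^ 2 / (8 * (2 + a)) := by
    have : Real.pi ^ 2 ≤ 988 / 100 := by nlinarith
    gcongr
  have h7 : 988 / 100 * a ^ 2 / (8 * (2 + a)) ≤ 247 / 1000 * a := by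
    rw [div_le_iff₀ (by positivity)]
    nlinarith
  have h8 : (1 - 247 / 1000 * a) * (1 + s) ≤ (1 - Real.pi ^ 2 * a ^ 2 / (8 * (2 + a))) * (1 + s) :=
    mul_le_mul_of_nonneg_right (by linarith) (by linarith)
  refine le_trans ?_ h8
  nlinarith [mul_nonneg h0 hs0]

/-- the main one-variable estimate -/
theorem shA_main {k G f : ℝ} (hk : 2 < k) (hk2 : k ≤ 5 / 2) (hf : f = (k - 2) * (Real.pi / 2))
    (hG0 : 0 < G) (hG1 : G < f) :
    4 / k * (1 + f ^ 2 / (4 * k)) * ((2 / k * (f - G)) ^ (k - 2) * G ^ (1 - 1 / k)) ≤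
      Real.cos (Real.pi / (2 * k)) ^ (k - 1) * Real.sin (Real.pi / k) ^ k := by
  have hpi := Real.pi_pos
  have hpi4 := Real.pi_lt_d2
  obtain ⟨a, ha⟩ : ∃ a, a = k - 2 := ⟨_, rfl⟩
  have hk' : k = 2 + a := by linarith
  have ha0 : 0 < a := by linarith
  have ha1 : a ≤ 1 / 2 := by linarith
  rw [← ha] at hf
  rw [← ha]
  have e1 : k - 1 = 1 + a := by linarith
  rw [e1, hk']
  have h5 := shA_M5 ha0.le ha1
  refine le_trans ?_ h5
  refine le_trans ?_ (shA_M4 ha0 ha1)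
  have hff : 1 + f ^ 2 / (4 * (2 + a)) = 1 + Real.pi ^ 2 * a ^ 2 / (16 * (2 + a)) := by
    rw [hf]
    field_simp
    ring
  rw [hff]
  have hG2 : G ≤ 1 := by
    have : f ≤ 1 := by rw [hf]; nlinarith
    linarith
  have hG3 : G ^ (1 - 1 / (2 + a)) ≤ G ^ (1 / 2 : ℝ) := by
    apply Real.rpow_le_rpow_of_exponent_ge hG0 hG2
    have : 1 / (2 + a) ≤ 1 / 2 := by
      apply one_div_le_one_div_of_le <;> linarith
    linarith
  set b := 2 * Real.pi * a ^ 2 / ((2 + a) * (1 + 2 * a)) with hb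
  have hb0 : 0 < b := by positivity
  set G0 := a * Real.pi / (2 * (1 + 2 * a)) with hG0'
  have hG00 : 0 < G0 := by positivity
  have hh0 : 0 ≤ 2 / (2 + a) * (f - G) := by
    have : 0 < f - G := by linarith
    positivity
  have h6 := shA_amgm (a := a) (h := 2 / (2 + a) * (f - G)) (G := G) (b := b) (G0 := G0) ha0.le ha1
    hh0 hG0.le hb0 hG00 (by
      apply le_of_eq
      rw [hb, hG0', hf]
      field_simp
      ring)
  have h7 := shA_pow ha0.le ha1 hb0.le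
  have h8 : (2 / (2 + a) * (f - G)) ^ a * G ^ (1 - 1 / (2 + a)) ≤
      (1 - a) * (1 - a + 4 * a * b) * G0 ^ (1 / 2 : ℝ) := by
    calc (2 / (2 + a) * (f - G)) ^ a * G ^ (1 - 1 / (2 + a)) ≤
          (2 / (2 + a) * (f - G)) ^ a * G ^ (1 / 2 : ℝ) :=
          mul_le_mul_of_nonneg_left hG3 (Real.rpow_nonneg hh0 _)
      _ ≤ b ^ a * G0 ^ (1 / 2 : ℝ) := h6
      _ ≤ _ := mul_le_mul_of_nonneg_right h7 (Real.rpow_nonneg hG00.le _)
  exact mul_le_mul_of_nonneg_left h8 (by positivity)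

/-- the estimate for `S` -/
theorem shA_S {k S c1 G f : ℝ} (hk : 2 < k) (hk2 : k ≤ 5 / 2) (hf : f = (k - 2) * (Real.pi / 2))
    (hG0 : 0 < G) (hG1 : G < f) (hS0 : 0 < S) (hc1 : c1 * G ^ (1 / k) = Real.cos (Real.pi / (2 * k)))
    (hS : c1 * S ≤ 2 / k * (f - G)) :
    S ≤ (c1 * S ^ 2 / (4 / k * (1 + f ^ 2 / (4 * k)))) ^ (1 / k) * Real.sin (Real.pi / k) := by
  have hpi := Real.pi_pos
  have k0 : 0 < k := by linarith
  have hm := shA_main hk hk2 hf hG0 hG1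
  have hGk : 0 < G ^ (1 / k) := Real.rpow_pos_of_pos hG0 _
  have hcos : 0 < Real.cos (Real.pi / (2 * k)) := by
    apply Real.cos_pos_of_mem_Ioo
    have : 0 < Real.pi / (2 * k) := by positivity
    refine ⟨by linarith, ?_⟩
    rw [div_lt_div_iff₀ (by positivity) (by norm_num)]
    nlinarith
  have hc0 : 0 < c1 := by
    by_contra hcon
    push Not at hcon
    have := mul_nonpos_of_nonpos_of_nonneg hcon hGk.le
    linarith
  have hsk : 0 < Real.sin (Real.pi / k) := by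
    apply Real.sin_pos_of_pos_of_lt_pi (by positivity)
    rw [div_lt_iff₀ k0]
    nlinarith
  set Q := 4 / k * (1 + f ^ 2 / (4 * k)) with hQ
  have hQ0 : 0 < Q := by positivity
  set h := 2 / k * (f - G) with hh
  have hh0 : 0 < h := by
    have : 0 < f - G := by linarith
    positivity
  -- `cos^(k-1) = c1^(k-1) G^(1-1/k)`
  have e1 : Real.cos (Real.pi / (2 * k)) ^ (k - 1) = c1 ^ (k - 1) * G ^ (1 - 1 / k) := by
    rw [← hc1, Real.mul_rpow hc0.le hGk.le, ← Real.rpow_mul hG0.le]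
    congr 2
    field_simp
  rw [e1] at hm
  have hG2 : 0 < G ^ (1 - 1 / k) := Real.rpow_pos_of_pos hG0 _
  have h1 : Q * h ^ (k - 2) ≤ c1 ^ (k - 1) * Real.sin (Real.pi / k) ^ k := by
    have : Q * h ^ (k - 2) * G ^ (1 - 1 / k) ≤
        c1 ^ (k - 1) * Real.sin (Real.pi / k) ^ k * G ^ (1 - 1 / k) := by
      calc Q * h ^ (k - 2) * G ^ (1 - 1 / k) = Q * (h ^ (k - 2) * G ^ (1 - 1 / k)) := by ring
        _ ≤ _ := hm
        _ = _ := by ring
    exact le_of_mul_le_mul_right this hG2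
  have hcS0 : 0 ≤ c1 * S := by positivity
  have h2 : (c1 * S) ^ (k - 2) ≤ h ^ (k - 2) := Real.rpow_le_rpow hcS0 hS (by linarith)
  rw [Real.mul_rpow hc0.le hS0.le] at h2
  have e2 : c1 ^ (k - 1) = c1 ^ (k - 2) * c1 := by
    rw [← Real.rpow_add_one hc0.ne']
    congr 1
    ring
  have hcp : 0 < c1 ^ (k - 2) := Real.rpow_pos_of_pos hc0 _
  have h3 : Q * S ^ (k - 2) ≤ c1 * Real.sin (Real.pi / k) ^ k := by
    have : c1 ^ (k - 2) * (Q * S ^ (k - 2)) ≤
        c1 ^ (k - 2) * (c1 * Real.sin (Real.pi / k) ^ k) := by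
      calc c1 ^ (k - 2) * (Q * S ^ (k - 2)) = Q * (c1 ^ (k - 2) * S ^ (k - 2)) := by ring
        _ ≤ Q * h ^ (k - 2) := mul_le_mul_of_nonneg_left h2 hQ0.le
        _ ≤ c1 ^ (k - 1) * Real.sin (Real.pi / k) ^ k := h1
        _ = _ := by rw [e2]; ring
    exact le_of_mul_le_mul_left this hcp
  -- `S^k ≤ X sk^k`
  have e3 : S ^ k = S ^ 2 * S ^ (k - 2) := by
    rw [← Real.rpow_natCast S 2, ← Real.rpow_add hS0]
    congr 1
    push_cast
    ring
  have h4 : S ^ k ≤ c1 * S ^ 2 / Q * Real.sin (Real.pi / k) ^ k := by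
    rw [e3, div_mul_eq_mul_div, le_div_iff₀ hQ0]
    calc S ^ 2 * S ^ (k - 2) * Q = S ^ 2 * (Q * S ^ (k - 2)) := by ring
      _ ≤ S ^ 2 * (c1 * Real.sin (Real.pi / k) ^ k) :=
          mul_le_mul_of_nonneg_left h3 (by positivity)
      _ = _ := by ring
  have hX0 : 0 ≤ c1 * S ^ 2 / Q := by positivity
  have h5 : (S ^ k) ^ (1 / k) ≤ (c1 * S ^ 2 / Q * Real.sin (Real.pi / k) ^ k) ^ (1 / k) :=
    Real.rpow_le_rpow (by positivity) h4 (by positivity)
  rw [Real.mul_rpow hX0 (by positivity), ← Real.rpow_mul hS0.le, ← Real.rpow_mul hsk.le] at h5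
  have e4 : k * (1 / k) = 1 := by field_simp
  rw [e4, Real.rpow_one, Real.rpow_one] at h5
  exact h5

end EQS
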