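import Mathlib
import Pool.Agent.Lib.MP_226de1_co.E.DNP2
import Pool.Agent.Lib.MP_226de1_co.E.DShA1

/-! Sheets `F_2 ≥ π` for `2 < k ≤ 5/2`. -/

set_option autoImplicit false

namespace EQS

/-- concavity step: `ρ ≥ X + Y` gives `ρ^κ ≥ X^κ + κ Y / ρ^κ` -/
theorem shA_conc {κ ρ X Y : ℝ} (hκ0 : 0 < κ) (hκ : κ ≤ 1 / 2) (hρ0 : 0 < ρ) (hρ1 : ρ ≤ 1)
    (hX : 0 ≤ X) (hY : 0 ≤ Y) (h : X + Y ≤ ρ) : X ^ κ + κ * Y / ρ ^ κ ≤ ρ ^ κ := by
  have hr : 0 < ρ ^ κ := Real.rpow_pos_of_pos hρ0 _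
  have h1 := rpow_one_add_le_one_add_mul_self (s := X / ρ - 1) (p := κ)
    (by
      have : 0 ≤ X / ρ := by positivity
      linarith) hκ0.le (by linarith)
  have e1 : 1 + (X / ρ - 1) = X / ρ := by ring
  rw [e1, Real.div_rpow hX hρ0.le, div_le_iff₀ hr] at h1
  have h2 : X / ρ - 1 ≤ -(Y / ρ) := by
    have : X / ρ - 1 + Y / ρ = (X + Y - ρ) / ρ := by field_simp; ring
    have h3 : (X + Y - ρ) / ρ ≤ 0 := div_nonpos_of_nonpos_of_nonneg (by linarith) hρ0.le
    linarith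
  -- `ρ ≤ ρ^κ ρ^κ`
  have h3 : ρ ≤ ρ ^ κ * ρ ^ κ := by
    rw [← Real.rpow_add hρ0]
    calc ρ = ρ ^ (1 : ℝ) := (Real.rpow_one ρ).symm
      _ ≤ ρ ^ (κ + κ) := Real.rpow_le_rpow_of_exponent_ge hρ0 hρ1 (by linarith)
  have h4 : κ * Y / ρ ^ κ ≤ κ * (Y / ρ) * ρ ^ κ := by
    rw [div_le_iff₀ hr]
    have : κ * (Y / ρ) * ρ ^ κ * ρ ^ κ = κ * Y * (ρ ^ κ * ρ ^ κ / ρ) := by
      field_simp
    rw [this]
    have h5 : 1 ≤ ρ ^ κ * ρ ^ κ / ρ := by rw [le_div_iff₀ hρ0]; linarith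
    have h6 : 0 ≤ κ * Y := by positivity
    nlinarith
  have h5 : (1 + κ * (X / ρ - 1)) * ρ ^ κ ≤ (1 - κ * (Y / ρ)) * ρ ^ κ := by
    apply mul_le_mul_of_nonneg_right _ hr.le
    have := mul_le_mul_of_nonneg_left h2 hκ0.le
    linarith
  linarith

/-- the final combination -/
theorem shA_comb {κ ρ t sk S X P Z E σ : ℝ} (hκ0 : 0 < κ) (hκ : κ ≤ 1 / 2) (hκ2 : 2 / 5 ≤ κ)
    (hρ0 : 0 < ρ) (hρ1 : ρ ≤ 1) (ht1 : 1 ≤ t) (htρ : (184 / 100) * ρ ≤ t) (hsk : 0 < sk)
    (hX : 0 ≤ X) (hS : S ≤ X ^ κ * sk) (hP : 0 ≤ P) (hZ : 0 ≤ Z) (hE : 0 < E)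
    (hsum : X + P * Z / (2 * κ * E) ≤ ρ) (hσ : 0 ≤ σ)
    (habs : 2 * E * (sk + 79 / 100 * σ) ≤ Z * sk) :
    S + P * σ + P * (t / ρ) ^ κ * sk ≤ (ρ * t) ^ κ * sk := by
  have hr : 0 < ρ ^ κ := Real.rpow_pos_of_pos hρ0 _
  have ht0 : 0 < t := by linarith
  have hu : 1 ≤ t ^ κ := Real.one_le_rpow ht1 hκ0.le
  have hu0 : 0 < t ^ κ := by linarith
  have hc := shA_conc hκ0 hκ hρ0 hρ1 hX (Y := P * Z / (2 * κ * E)) (by positivity) hsum
  have e1 : κ * (P * Z / (2 * κ * E)) / ρ ^ κ = P * Z / (2 * E) / ρ ^ κ := by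
    field_simp
  rw [e1] at hc
  -- `ρ^κ ≤ 0.79 t^κ`
  have h1 : ρ ^ κ ≤ 79 / 100 * t ^ κ := by
    have h2 : ρ ≤ t * (100 / 184) := by linarith
    have h3 : ρ ^ κ ≤ (t * (100 / 184)) ^ κ := Real.rpow_le_rpow hρ0.le h2 hκ0.le
    rw [Real.mul_rpow ht0.le (by norm_num)] at h3
    have h4 : (100 / 184 : ℝ) ^ κ ≤ 79 / 100 := by
      have h5 : (100 / 184 : ℝ) ^ κ ≤ (100 / 184 : ℝ) ^ (2 / 5 : ℝ) :=
        Real.rpow_le_rpow_of_exponent_ge (by norm_num) (by norm_num) hκ2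
      refine h5.trans ?_
      have h6 : (100 / 184 : ℝ) ≤ (79 / 100 : ℝ) ^ (5 / 2 : ℝ) := by
        have : (79 / 100 : ℝ) ^ (5 / 2 : ℝ) = √((79 / 100) ^ 5) := by
          rw [Real.sqrt_eq_rpow, ← Real.rpow_natCast, ← Real.rpow_mul (by norm_num)]
          norm_num
        rw [this]
        apply Real.le_sqrt_of_sq_le
        norm_num
      calc (100 / 184 : ℝ) ^ (2 / 5 : ℝ) ≤ ((79 / 100 : ℝ) ^ (5 / 2 : ℝ)) ^ (2 / 5 : ℝ) :=
            Real.rpow_le_rpow (by norm_num) h6 (by norm_num)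
        _ = 79 / 100 := by
            rw [← Real.rpow_mul (by norm_num)]
            norm_num
    have := mul_le_mul_of_nonneg_left h4 hu0.le
    linarith
  have e2 : (t / ρ) ^ κ = t ^ κ / ρ ^ κ := Real.div_rpow ht0.le hρ0.le _
  have e3 : (ρ * t) ^ κ = ρ ^ κ * t ^ κ := Real.mul_rpow hρ0.le ht0.le
  rw [e2, e3]
  set r := ρ ^ κ with hrd
  set u := t ^ κ with hud
  set W := X ^ κ with hW
  have hW0 : 0 ≤ W := Real.rpow_nonneg hX _
  -- `S ≤ u W sk`
  have h5 : S ≤ u * (W * sk) := by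
    have : 0 ≤ W * sk := by positivity
    nlinarith
  -- `P σ + P (u / r) sk ≤ u sk P Z / (2 E) / r`
  have h6 : P * σ + P * (u / r) * sk ≤ u * sk * (P * Z / (2 * E) / r) := by
    have e4 : u * sk * (P * Z / (2 * E) / r) = (P / (2 * E) / r) * (u * (Z * sk)) := by
      field_simp
    have e5 : P * σ + P * (u / r) * sk = (P / (2 * E) / r) * (2 * E * (r * σ + u * sk)) := by
      field_simp
    rw [e4, e5]
    apply mul_le_mul_of_nonneg_left _ (by positivity)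
    calc 2 * E * (r * σ + u * sk) ≤ 2 * E * (79 / 100 * u * σ + u * sk) := by
          apply mul_le_mul_of_nonneg_left _ (by positivity)
          have := mul_le_mul_of_nonneg_right h1 hσ
          linarith
      _ = u * (2 * E * (sk + 79 / 100 * σ)) := by ring
      _ ≤ u * (Z * sk) := mul_le_mul_of_nonneg_left habs hu0.le
  have h7 : u * sk * (W + P * Z / (2 * E) / r) ≤ u * sk * r :=
    mul_le_mul_of_nonneg_left hc (by positivity)
  have h8 : r * u * sk = u * sk * r := by ring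
  have h9 : P * σ + P * (u / r) * sk + S ≤ u * sk * (W + P * Z / (2 * E) / r) := by
    rw [mul_add]
    have : u * sk * W = u * (W * sk) := by ring
    linarith
  linarith

/-- `|1 + ρ e^{iϑ}|` -/
theorem shA_geo {ρ t ϑ y : ℝ} (hρ0 : 0 < ρ) (hρ1 : ρ ≤ 1) (ht0 : 0 < t) (hθ0 : 0 ≤ ϑ)
    (hθ1 : ϑ ≤ Real.pi / 4) (hy0 : 0 ≤ y) (hy1 : y < Real.pi / 2)
    (hc : t * Real.cos y = 1 + ρ * Real.cos ϑ) (hs : t * Real.sin y = ρ * Real.sin ϑ) :
    1 ≤ t ∧ t ≤ 1 + ρ ∧ 184 / 100 * ρ ≤ t ∧ y ≤ ϑ ∧ y * (1 + ρ * Real.cos ϑ) ≤ ρ * ϑ := by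
  have hpi := Real.pi_pos
  have h7 : 7 / 10 ≤ Real.cos ϑ := by
    have h1 : Real.cos (Real.pi / 4) ≤ Real.cos ϑ :=
      Real.cos_le_cos_of_nonneg_of_le_pi hθ0 (by linarith) hθ1
    rw [Real.cos_pi_div_four] at h1
    have h2 : 7 / 5 ≤ √2 := Real.le_sqrt_of_sq_le (by norm_num)
    linarith
  have h8 := Real.cos_le_one ϑ
  have hsθ : 0 ≤ Real.sin ϑ := Real.sin_nonneg_of_nonneg_of_le_pi hθ0 (by linarith)
  have hsq : t ^ 2 = 1 + 2 * ρ * Real.cos ϑ + ρ ^ 2 := by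
    have h1 := Real.sin_sq_add_cos_sq y
    have h2 := Real.sin_sq_add_cos_sq ϑ
    have h3 : t ^ 2 = (t * Real.cos y) ^ 2 + (t * Real.sin y) ^ 2 := by
      linear_combination (-t ^ 2) * h1
    rw [h3, hc, hs]
    linear_combination ρ ^ 2 * h2
  have hpos : 0 ≤ ρ * Real.cos ϑ := by positivity
  refine ⟨?_, ?_, ?_, ?_, ?_⟩
  · by_contra hcon
    push Not at hcon
    nlinarith
  · apply le_of_sq_le_sq _ (by linarith)
    rw [hsq]
    nlinarith
  · apply le_of_sq_le_sq _ ht0.le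
    rw [hsq]
    nlinarith
  · by_contra hcon
    push Not at hcon
    have h1 : t * Real.sin (y - ϑ) = -Real.sin ϑ := by
      rw [Real.sin_sub]
      linear_combination Real.cos ϑ * hs - Real.sin ϑ * hc
    have h2 : 0 < Real.sin (y - ϑ) := Real.sin_pos_of_pos_of_lt_pi (by linarith) (by linarith)
    have := mul_pos ht0 h2
    linarith
  · have h1 : y * Real.cos y ≤ Real.sin y := by
      rcases hy0.eq_or_lt with h | h
      · rw [← h]; simp
      · have h2 := Real.lt_tan h hy1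
        have h3 : 0 < Real.cos y := Real.cos_pos_of_mem_Ioo ⟨by linarith, hy1⟩
        rw [Real.tan_eq_sin_div_cos, lt_div_iff₀ h3] at h2
        exact h2.le
    have h2 : Real.sin ϑ ≤ ϑ := Real.sin_le hθ0
    calc y * (1 + ρ * Real.cos ϑ) = t * (y * Real.cos y) := by rw [← hc]; ring
      _ ≤ t * Real.sin y := mul_le_mul_of_nonneg_left h1 ht0.le
      _ = ρ * Real.sin ϑ := hs
      _ ≤ ρ * ϑ := mul_le_mul_of_nonneg_left h2 hρ0.le

/-- `sin (χ + 2β) - T sin χ ≤ T sin (β - τ) + sin (β + τ)` -/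
theorem shA_trig {T β τ χ : ℝ} (hT : 1 ≤ T) (hβ : 0 ≤ β) (hτ : 0 ≤ τ) (hχ : τ ≤ χ)
    (h1 : χ + 2 * β ≤ Real.pi / 2) :
    Real.sin (χ + 2 * β) - T * Real.sin χ ≤ T * Real.sin (β - τ) + Real.sin (β + τ) := by
  have hpi := Real.pi_pos
  have sβ : 0 ≤ Real.sin β := Real.sin_nonneg_of_nonneg_of_le_pi hβ (by linarith)
  have sβ2 : 0 ≤ Real.sin (β / 2) :=
    Real.sin_nonneg_of_nonneg_of_le_pi (by linarith) (by linarith)
  have a1 : Real.sin (χ + 2 * β) - Real.sin χ ≤ Real.sin (τ + 2 * β) - Real.sin τ := by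
    have e1 : Real.sin (χ + 2 * β) - Real.sin χ = 2 * Real.sin β * Real.cos (χ + β) := by
      rw [Real.sin_sub_sin]
      ring_nf
    have e2 : Real.sin (τ + 2 * β) - Real.sin τ = 2 * Real.sin β * Real.cos (τ + β) := by
      rw [Real.sin_sub_sin]
      ring_nf
    rw [e1, e2]
    apply mul_le_mul_of_nonneg_left _ (by positivity)
    exact Real.cos_le_cos_of_nonneg_of_le_pi (by linarith) (by linarith) (by linarith)
  have a2 : Real.sin τ ≤ Real.sin χ :=
    Real.sin_le_sin_of_le_of_le_pi_div_two (by linarith) (by linarith) hχ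
  have a3 : (T - 1) * Real.sin τ ≤ (T - 1) * Real.sin χ :=
    mul_le_mul_of_nonneg_left a2 (by linarith)
  have c1 : Real.cos (τ + 3 * β / 2) ≤ Real.cos (τ - β / 2) := by
    rw [← Real.cos_abs (τ - β / 2)]
    apply Real.cos_le_cos_of_nonneg_of_le_pi (abs_nonneg _) (by linarith)
    rw [abs_le]
    constructor <;> linarith
  have c2 : 0 ≤ Real.cos (τ - β / 2) := Real.cos_nonneg_of_mem_Icc ⟨by linarith, by linarith⟩
  have a4 : Real.sin (τ + 2 * β) - Real.sin (τ + β) ≤ T * (Real.sin τ + Real.sin (β - τ)) := by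
    have e1 : Real.sin (τ + 2 * β) - Real.sin (τ + β) =
        2 * Real.sin (β / 2) * Real.cos (τ + 3 * β / 2) := by
      rw [Real.sin_sub_sin]
      ring_nf
    have e2 : Real.sin τ + Real.sin (β - τ) = 2 * Real.sin (β / 2) * Real.cos (τ - β / 2) := by
      have e3 : Real.sin (β - τ) = -Real.sin (τ - β) := by
        rw [← Real.sin_neg]; congr 1; ring
      rw [e3, ← sub_eq_add_neg, Real.sin_sub_sin]
      ring_nf
    rw [e1, e2]
    have h2 : 2 * Real.sin (β / 2) * Real.cos (τ + 3 * β / 2) ≤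
        2 * Real.sin (β / 2) * Real.cos (τ - β / 2) :=
      mul_le_mul_of_nonneg_left c1 (by positivity)
    have h3 : 0 ≤ 2 * Real.sin (β / 2) * Real.cos (τ - β / 2) := by positivity
    nlinarith
  have e4 : Real.sin (β + τ) = Real.sin (τ + β) := by rw [add_comm]
  rw [e4]
  linarith

/-- the criterion `NP (π/k) ≥ 0` -/
theorem shA_NP {k P φ τ T ρ t ϑ S σ : ℝ} (k0 : 2 < k) (hρ0 : 0 < ρ) (ht0 : 0 < t)
    (hT : T = t ^ (2 / k)) (hT1 : 1 ≤ T) (hP : 0 ≤ P) (hτ : 0 ≤ τ) (hτφ : τ ≤ φ)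
    (hθ0 : 0 ≤ ϑ) (hθτ : k * τ ≤ ϑ) (hb : ϑ / k + 2 * φ - τ ≤ Real.pi / 2)
    (hb2 : 2 * ((Real.pi + ϑ) / k) ≤ Real.pi)
    (hN : T * Real.sin (φ - 2 * τ) + Real.sin φ ≤ S + P * σ)
    (hc : S + P * σ + P * (t / ρ) ^ (1 / k) * Real.sin (Real.pi / k) ≤
      (ρ * t) ^ (1 / k) * Real.sin (Real.pi / k)) :
    0 ≤ NP ((ρ / t) ^ (1 / k)) T P φ τ ((Real.pi + ϑ) / k) (Real.pi / k) := by
  have hpi := Real.pi_pos
  have hk0 : 0 < k := by linarith
  have hpk : 0 < Real.pi / k := by positivity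
  have hθk : 0 ≤ ϑ / k := by positivity
  have e0 : (Real.pi + ϑ) / k = Real.pi / k + ϑ / k := by ring
  have hτ2 : τ ≤ ϑ / k := by rw [le_div_iff₀ hk0]; linarith
  rw [e0] at hb2
  unfold NP
  rw [e0]
  have e1 : 2 * (Real.pi / k + ϑ / k) - Real.pi / k = Real.pi / k + 2 * (ϑ / k) := by ring
  have e2 : Real.pi / k + ϑ / k + τ - Real.pi / k = ϑ / k + τ := by ring
  have e3 : Real.pi / k + ϑ / k - τ + 2 * φ - Real.pi / k = ϑ / k + τ + 2 * (φ - τ) := by ring
  have e4 : Real.pi / k + ϑ / k - τ - Real.pi / k = ϑ / k - τ := by ring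
  rw [e1, e2, e3, e4]
  -- `a T = (ρ t)^κ`
  have hat : (ρ / t) ^ (1 / k) * T = (ρ * t) ^ (1 / k) := by
    rw [hT, Real.div_rpow hρ0.le ht0.le, Real.mul_rpow hρ0.le ht0.le]
    have : t ^ (2 / k) = t ^ (1 / k) * t ^ (1 / k) := by
      rw [← Real.rpow_add ht0]
      congr 1
      ring
    rw [this]
    have h1 : t ^ (1 / k) ≠ 0 := (Real.rpow_pos_of_pos ht0 _).ne'
    field_simp
  have hPa : P / (ρ / t) ^ (1 / k) = P * (t / ρ) ^ (1 / k) := by
    rw [div_eq_mul_inv, ← Real.inv_rpow (by positivity), inv_div]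
  rw [hat, hPa]
  have h1 : Real.sin (Real.pi / k) ≤ Real.sin (Real.pi / k + 2 * (ϑ / k)) := by
    rcases le_or_gt (Real.pi / k + 2 * (ϑ / k)) (Real.pi / 2) with h2 | h2
    · exact Real.sin_le_sin_of_le_of_le_pi_div_two (by linarith) h2 (by linarith)
    · rw [← Real.sin_pi_sub (Real.pi / k + 2 * (ϑ / k))]
      exact Real.sin_le_sin_of_le_of_le_pi_div_two (by linarith) (by linarith) (by linarith)
  have h2 : 0 ≤ (ρ * t) ^ (1 / k) := Real.rpow_nonneg (by positivity) _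
  have h3 := mul_le_mul_of_nonneg_left h1 h2
  have h4 := shA_trig (T := T) (β := φ - τ) (τ := τ) (χ := ϑ / k + τ) hT1 (by linarith) hτ
    (by linarith) (by linarith)
  have e5 : φ - τ - τ = φ - 2 * τ := by ring
  have e6 : φ - τ + τ = φ := by ring
  rw [e5, e6] at h4
  have h5 : 0 ≤ Real.sin (ϑ / k - τ) := Real.sin_nonneg_of_nonneg_of_le_pi (by linarith)
    (by linarith)
  have h6 : 0 ≤ P * Real.sin (ϑ / k - τ) := mul_nonneg hP h5
  linarith

namespace FsD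

variable {k A φ τ η T P S w c : ℝ}

/-- `2 k η = F_1 - π` for `F_1 < π` -/
theorem eta_eq (h : FsD k A φ τ η T P S w c) (hF : k * φ < Real.pi) :
    2 * (k * η) = k * φ - Real.pi := by
  have hpi := Real.pi_pos
  have h1 := abs_lt.1 h.η2
  have hφ : 0 < k * φ := mul_pos h.k0 h.φ0
  have h2 : Real.sin (2 * (k * η)) < 0 := by
    have h3 := h.Fs
    have h4 : 0 < Real.sin (k * φ) := Real.sin_pos_of_pos_of_lt_pi hφ hF
    linarith
  have h3 : 2 * (k * η) < 0 := by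
    by_contra hcon
    push Not at hcon
    have := Real.sin_nonneg_of_nonneg_of_le_pi hcon (by linarith)
    linarith
  have h4 : Real.cos (k * φ - 2 * (k * η) - Real.pi) = 1 := by
    rw [Real.cos_sub_pi, Real.cos_sub, h.Fc, h.Fs]
    have := Real.sin_sq_add_cos_sq (2 * (k * η))
    linarith
  have h5 := (Real.cos_eq_one_iff_of_lt_of_lt (x := k * φ - 2 * (k * η) - Real.pi)
    (by linarith) (by linarith)).1 h4
  linarith

theorem eta_nonpos (h : FsD k A φ τ η T P S w c) (hF : k * φ < Real.pi) : η < 0 := by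
  have h1 := h.eta_eq hF
  have h2 : k * η < 0 := by linarith
  by_contra hcon
  push Not at hcon
  have := mul_nonneg h.k0.le hcon
  linarith

/-- `cos A cos η (2 cos kη)^{-1/k} ≤ c` -/
theorem c_ge (h : FsD k A φ τ η T P S w c) (hF : k * φ < Real.pi) :
    (2 * Real.cos (k * η)) ^ (-(1 / k)) * (Real.cos A * Real.cos η) ≤ c := by
  have hpi := Real.pi_pos
  have h1 := h.eta_nonpos hF
  have h2 := abs_lt.1 h.η4
  have hcη := h.cη
  rw [h.c_eq, Real.cos_add]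
  apply mul_le_mul_of_nonneg_left _ (Real.rpow_nonneg (by positivity) _)
  have h3 : Real.sin η ≤ 0 := Real.sin_nonpos_of_nonpos_of_neg_pi_le h1.le (by linarith)
  have h4 := h.sinA
  nlinarith

/-- `2 cos A ≤ 2^{1+1/k} c` for `F_1 < π` -/
theorem M_pi (h : FsD k A φ τ η T P S w c) (hF : k * φ < Real.pi) :
    2 * Real.cos A ≤ 2 ^ (1 + 1 / k) * c := by
  have hpi := Real.pi_pos
  have k0 := h.k0
  have hcη := h.cη
  have h1 := h.c_ge hF
  have h2 := cos_rpow_le (k := k) (η := η) (by linarith [h.hk]) h.η2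
  have hcA := h.cosA
  have h3 : 0 < Real.cos (k * η) ^ (1 / k) := Real.rpow_pos_of_pos hcη _
  have h4 : (0 : ℝ) < 2 ^ (1 / k) := Real.rpow_pos_of_pos (by norm_num) _
  have e1 : (2 * Real.cos (k * η)) ^ (-(1 / k)) = (2 ^ (1 / k) * Real.cos (k * η) ^ (1 / k))⁻¹ := by
    rw [Real.rpow_neg (by positivity), Real.mul_rpow (by norm_num) hcη.le]
  rw [e1] at h1
  have h5 : Real.cos A ≤ 2 ^ (1 / k) * c := by
    have h6 : Real.cos A * Real.cos (k * η) ^ (1 / k) ≤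
        2 ^ (1 / k) * Real.cos (k * η) ^ (1 / k) * c := by
      rw [inv_mul_eq_div, div_le_iff₀ (by positivity)] at h1
      calc Real.cos A * Real.cos (k * η) ^ (1 / k) ≤ Real.cos A * Real.cos η :=
            mul_le_mul_of_nonneg_left h2 hcA.le
        _ ≤ c * (2 ^ (1 / k) * Real.cos (k * η) ^ (1 / k)) := h1
        _ = _ := by ring
    have h7 : Real.cos (k * η) ^ (1 / k) * Real.cos A ≤
        Real.cos (k * η) ^ (1 / k) * (2 ^ (1 / k) * c) := by linarith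
    exact le_of_mul_le_mul_left h7 h3
  rw [Real.rpow_add (by norm_num), Real.rpow_one]
  linarith

/-- `cos (π/2k) cos A ≤ (kφ)^{1/k} c` for `F_1 < π` -/
theorem c1_le (h : FsD k A φ τ η T P S w c) (hF : k * φ < Real.pi) :
    Real.cos (Real.pi / (2 * k)) * Real.cos A ≤ (k * φ) ^ (1 / k) * c := by
  have hpi := Real.pi_pos
  have k0 := h.k0
  have hcη := h.cη
  have h1 := h.c_ge hF
  have hη := h.eta_eq hF
  have hη0 := h.eta_nonpos hF
  have hcA := h.cosA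
  have hφ := h.φ0
  have hkφ : 0 < k * φ := mul_pos k0 hφ
  -- `2 cos kη ≤ kφ`
  have h2 : 2 * Real.cos (k * η) ≤ k * φ := by
    have e1 : Real.cos (k * η) = Real.sin (k * φ / 2) := by
      rw [← Real.cos_pi_div_two_sub, ← Real.cos_neg]
      congr 1
      linarith
    rw [e1]
    have := Real.sin_le (x := k * φ / 2) (by linarith)
    linarith
  have h3 : 0 < (2 * Real.cos (k * η)) ^ (1 / k) := Real.rpow_pos_of_pos (by positivity) _
  have h4 : (2 * Real.cos (k * η)) ^ (1 / k) ≤ (k * φ) ^ (1 / k) :=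
    Real.rpow_le_rpow (by positivity) h2 (by positivity)
  have h5 : Real.cos (Real.pi / (2 * k)) ≤ Real.cos η := by
    rw [← Real.cos_neg η]
    apply Real.cos_le_cos_of_nonneg_of_le_pi (by linarith)
    · rw [div_le_iff₀ (by positivity)]
      nlinarith [h.hk]
    · rw [le_div_iff₀ (by positivity)]
      linarith
  rw [Real.rpow_neg (by positivity), inv_mul_eq_div, div_le_iff₀ h3] at h1
  calc Real.cos (Real.pi / (2 * k)) * Real.cos A ≤ Real.cos η * Real.cos A :=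
        mul_le_mul_of_nonneg_right h5 hcA.le
    _ = Real.cos A * Real.cos η := by ring
    _ ≤ c * (2 * Real.cos (k * η)) ^ (1 / k) := h1
    _ ≤ c * (k * φ) ^ (1 / k) := mul_le_mul_of_nonneg_left h4 h.c0.le
    _ = _ := by ring

end FsD

theorem shA_cos {x : ℝ} (h0 : 0 ≤ x) (h1 : x ≤ 31416 / 100000) : 9506 / 10000 ≤ Real.cos x := by
  have h2 := Real.one_sub_sq_div_two_le_cos (x := x)
  have h3 : x ^ 2 ≤ (31416 / 100000) ^ 2 := pow_le_pow_left₀ h0 h1 2
  linarith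

theorem shA_le {k x f : ℝ} (hk : 2 < k) (hk5 : k ≤ 5 / 2) (hf : f = (k - 2) * (Real.pi / 2))
    (h : k * x ≤ f) : x ≤ 31416 / 100000 := by
  have k0 : 0 < k := by linarith
  have hpi4 := Real.pi_lt_d4
  have hpi := Real.pi_pos
  have h1 : (k - 2) * (Real.pi / 2) ≤ (k - 2) * (31416 / 20000) :=
    mul_le_mul_of_nonneg_left (by linarith) (by linarith)
  have h3 : k * x ≤ k * (31416 / 100000) := by linarith
  exact le_of_mul_le_mul_left h3 k0

theorem shA_E {k f : ℝ} (hk : 2 < k) (hk5 : k ≤ 5 / 2) (hf : f = (k - 2) * (Real.pi / 2)) :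
    1 + f ^ 2 / (4 * k) ≤ 10617 / 10000 := by
  have k0 : 0 < k := by linarith
  have hpi4 := Real.pi_lt_d4
  have hpi := Real.pi_pos
  have : f ^ 2 / (4 * k) ≤ 617 / 10000 := by
    rw [div_le_iff₀ (by positivity), hf]
    have h2 : (k - 2) ^ 2 ≤ k / 10 := by nlinarith
    have h3 : Real.pi ^ 2 ≤ 98697 / 10000 := by nlinarith
    calc ((k - 2) * (Real.pi / 2)) ^ 2 = (k - 2) ^ 2 * (Real.pi ^ 2 / 4) := by ring
      _ ≤ k / 10 * (98697 / 10000 / 4) := by
          apply mul_le_mul h2 _ (by positivity) (by positivity)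
          linarith
      _ ≤ _ := by nlinarith
  linarith

/-- the absorption of `P` -/
theorem shA_abs {c1 E sk σ cA sA sφ cφ c : ℝ} (hc87 : 87 / 100 ≤ c1) (hE1 : 1 ≤ E)
    (hE2 : E ≤ 10617 / 10000) (hsk1 : sk ≤ 1) (hsk2 : 9506 / 10000 ≤ sk)
    (hcφ2 : 9506 / 10000 ≤ cφ) (hcA2 : 9506 / 10000 ≤ cA) (hsA0 : 0 ≤ sA)
    (hsA2 : sA ≤ 31416 / 100000) (hsφ0 : 0 ≤ sφ) (hsφ2 : sφ ≤ 31416 / 100000)
    (hcs : cA ^ 2 = 1 - sA ^ 2) (hc1c : c1 * cA ≤ c) (hσ : σ = max (sφ - 2 * c * sA) 0) :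
    2 * E * (sk + 79 / 100 * σ) ≤ (2 * c1 * cA ^ 2 + cφ) * sk := by
  have hcc2 : (9506 / 10000 : ℝ) ^ 2 ≤ cA ^ 2 := pow_le_pow_left₀ (by norm_num) hcA2 2
  have hsk0 : 0 < sk := by linarith
  have hcA : 0 < cA := by linarith
  have hc10 : 0 < c1 := by linarith
  rcases le_or_gt (sφ - 2 * c * sA) 0 with h2 | h2
  · have e1 : σ = 0 := by rw [hσ]; exact max_eq_right h2
    rw [e1]
    have h3 : 2 * E ≤ 2 * c1 * cA ^ 2 + cφ := by
      have : 87 / 100 * (9506 / 10000) ^ 2 ≤ c1 * cA ^ 2 :=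
        mul_le_mul hc87 hcc2 (by norm_num) hc10.le
      linarith
    have := mul_le_mul_of_nonneg_right h3 hsk0.le
    linarith
  · have e1 : σ = sφ - 2 * c * sA := by rw [hσ]; exact max_eq_left h2.le
    have h3 : σ ≤ sφ - 2 * c1 * cA * sA := by
      rw [e1]
      have := mul_le_mul_of_nonneg_right hc1c hsA0
      linarith
    have h4 : 2 * E * (sk + 79 / 100 * σ) ≤ 2 * E * (sk + 79 / 100 *
        (sφ - 2 * c1 * cA * sA)) := by
      apply mul_le_mul_of_nonneg_left _ (by positivity)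
      linarith
    refine h4.trans ?_
    have h5 : 2 * c1 * sA ^ 2 * sk ≤ 2 * E * (79 / 100 * (2 * c1 * cA * sA)) := by
      have h6 : 2 * c1 * sA ^ 2 * sk ≤ 2 * c1 * sA ^ 2 * 1 :=
        mul_le_mul_of_nonneg_left hsk1 (by positivity)
      have h7 : 2 * 1 * (79 / 100 * (2 * c1 * cA * sA)) ≤
          2 * E * (79 / 100 * (2 * c1 * cA * sA)) := by
        apply mul_le_mul_of_nonneg_right _ (by positivity)
        linarith
      have h8 : 2 * c1 * sA ^ 2 * 1 ≤ 2 * 1 * (79 / 100 * (2 * c1 * cA * sA)) := by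
        have h9 : sA * (c1 * sA) ≤ cA * (c1 * sA) := by
          apply mul_le_mul_of_nonneg_right _ (by positivity)
          linarith
        have h10 : 0 ≤ cA * (c1 * sA) := by positivity
        linarith
      linarith
    have h6 : 2 * E * sk + 2 * E * (79 / 100 * sφ) ≤ 2 * c1 * sk + cφ * sk := by
      have h7 : 2 * E * sk ≤ 2 * (10617 / 10000) * sk :=
        mul_le_mul_of_nonneg_right (by linarith) hsk0.le
      have h8 : 2 * E * (79 / 100 * sφ) ≤
          2 * (10617 / 10000) * (79 / 100 * (31416 / 100000)) := by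
        apply mul_le_mul _ _ (by positivity) (by norm_num)
        · linarith
        · linarith
      have h9 : 2 * (87 / 100) * sk ≤ 2 * c1 * sk :=
        mul_le_mul_of_nonneg_right (by linarith) hsk0.le
      have h10 : 9506 / 10000 * sk ≤ cφ * sk :=
        mul_le_mul_of_nonneg_right hcφ2 hsk0.le
      linarith
    have e2 : (2 * c1 * cA ^ 2 + cφ) * sk = 2 * c1 * sk - 2 * c1 * sA ^ 2 * sk + cφ * sk := by
      rw [hcs]
      ring
    rw [e2]
    linarith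

/-- `0.87 f^{1/k} ≤ cos (π/2k)` -/
theorem shA_c1 {k G : ℝ} (hk : 2 < k) (hk2 : k ≤ 5 / 2) (hG0 : 0 < G)
    (hG1 : G ≤ (k - 2) * (Real.pi / 2)) :
    87 / 100 * G ^ (1 / k) ≤ Real.cos (Real.pi / (2 * k)) := by
  have hpi3 := Real.pi_gt_d4
  have hpi4 := Real.pi_lt_d4
  have k0 : 0 < k := by linarith
  have h1 := rpow_one_add_le_one_add_mul_self (s := G - 1) (p := 1 / k) (by linarith)
    (by positivity) (by rw [div_le_one k0]; linarith)
  have e1 : 1 + (G - 1) = G := by ring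
  rw [e1] at h1
  have h2 := Real.one_sub_sq_div_two_le_cos (x := Real.pi / (2 * k))
  refine le_trans ?_ h2
  obtain ⟨κ, hκ⟩ : ∃ κ, κ = 1 / k := ⟨_, rfl⟩
  have hκ1 : κ < 1 / 2 := by
    rw [hκ]; exact one_div_lt_one_div_of_lt (by norm_num) hk
  have hκ2 : 2 / 5 ≤ κ := by
    rw [hκ, le_div_iff₀ k0]; linarith
  have e2 : Real.pi / (2 * k) = Real.pi / 2 * κ := by rw [hκ]; field_simp
  have h3 : 1 / k * (G - 1) ≤ Real.pi / 2 - Real.pi * κ - κ := by
    have h4 : 1 / k * G ≤ 1 / k * ((k - 2) * (Real.pi / 2)) :=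
      mul_le_mul_of_nonneg_left hG1 (by positivity)
    have h5 : 1 / k * ((k - 2) * (Real.pi / 2)) = Real.pi / 2 - Real.pi * κ := by
      rw [hκ]; field_simp
    rw [h5] at h4
    rw [← hκ] at h4 ⊢
    linarith
  rw [e2]
  have h6 : 87 / 100 * G ^ (1 / k) ≤ 87 / 100 * (1 + (Real.pi / 2 - Real.pi * κ - κ)) := by
    linarith
  refine le_trans h6 ?_
  have h7 : κ ^ 2 ≤ 9 / 10 * κ - 1 / 5 := by nlinarith
  have h8 : Real.pi ^ 2 ≤ 98697 / 10000 := by nlinarith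
  have h9 : Real.pi ^ 2 * κ ^ 2 ≤ 98697 / 10000 * (9 / 10 * κ - 1 / 5) :=
    mul_le_mul h8 h7 (sq_nonneg _) (by norm_num)
  have h10 : Real.pi * (1 / 2 - κ) ≤ 31416 / 10000 * (1 / 2 - κ) :=
    mul_le_mul_of_nonneg_right (by linarith) (by linarith)
  linarith

namespace FsD

variable {k A φ τ η T P S w c : ℝ}

/-- sheets `F_2 ≥ π` for `2 < k ≤ 5/2` -/
theorem shA (h : FsD k A φ τ η T P S w c) (hk5 : k ≤ 5 / 2) {ρ t ϑ : ℝ} (hρ0 : 0 < ρ)
    (hρ1 : ρ ≤ 1) (ht0 : 0 < t) (hT : T = t ^ (2 / k)) (hθ0 : 0 ≤ ϑ) (hτ : 0 ≤ τ)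
    (hc : t * Real.cos (k * τ) = 1 + ρ * Real.cos ϑ) (hs : t * Real.sin (k * τ) = ρ * Real.sin ϑ)
    (hsum : A + φ - τ + (Real.pi + ϑ) / k < Real.pi / 2) :
    0 ≤ NP ((ρ / t) ^ (1 / k)) T P φ τ ((Real.pi + ϑ) / k) (Real.pi / k) := by
  have hpi := Real.pi_pos
  have hpi3 := Real.pi_gt_d4
  have hpi4 := Real.pi_lt_d4
  have k0 := h.k0
  have hk := h.hk
  have hA := h.A0
  have hφ := h.φ0
  have hP := h.P0
  have hS0 := h.S0
  have hw0 := h.w0
  have hcc := h.c0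
  have hcA := h.cosA
  have hsA := h.sinA
  set f := (k - 2) * (Real.pi / 2) with hf
  have hf1 : f ≤ Real.pi / 4 := by
    rw [hf]
    have := mul_le_mul_of_nonneg_right (by linarith : k - 2 ≤ 1 / 2) (by positivity : 0 ≤ Real.pi / 2)
    linarith
  have h1 : k * (A + φ - τ) < f - ϑ := by
    have h2 : k * (A + φ - τ + (Real.pi + ϑ) / k) < k * (Real.pi / 2) :=
      mul_lt_mul_of_pos_left hsum k0
    have e1 : k * (A + φ - τ + (Real.pi + ϑ) / k) = k * (A + φ - τ) + (Real.pi + ϑ) := by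
      field_simp
    rw [e1] at h2
    rw [hf]
    linarith
  have hA20 : 0 < k * (A + φ - τ) := mul_pos k0 h.A20
  have hθf : ϑ < f := by linarith
  have hkτ0 : 0 ≤ k * τ := mul_nonneg k0.le hτ
  have hkτ := (abs_lt.1 h.τ2).2
  obtain ⟨t1, t2, t3, y1, y2⟩ := shA_geo hρ0 hρ1 ht0 hθ0 (by linarith) hkτ0 hkτ hc hs
  have hT1 : 1 ≤ T := by rw [hT]; exact Real.one_le_rpow t1 (by positivity)
  have hT2 : T ≤ 1 + 2 / k * ρ := by
    rw [hT]
    calc t ^ (2 / k) ≤ (1 + ρ) ^ (2 / k) := Real.rpow_le_rpow ht0.le t2 (by positivity)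
      _ ≤ _ := rpow_one_add_le_one_add_mul_self (by linarith) (by positivity)
        (by rw [div_le_one k0]; linarith)
  have hβ := h.τ_lt hτ
  have hkA : 0 < k * A := mul_pos k0 hA
  have hsum2 : k * A + k * φ < f := by
    have e1 : k * (A + φ - τ) = k * A + k * φ - k * τ := by ring
    linarith
  have hG1 : k * φ < f := by linarith
  have hG0 : 0 < k * φ := mul_pos k0 hφ
  have hφ1 : φ ≤ 31416 / 100000 := shA_le hk hk5 hf hG1.le
  have hA1 : A ≤ 31416 / 100000 := shA_le hk hk5 hf (by linarith)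
  have hθ1 : ϑ / k ≤ 31416 / 100000 := by
    apply shA_le hk hk5 hf
    rw [mul_div_cancel₀ _ k0.ne']
    exact hθf.le
  -- bound of `E`
  have hEb : T * Real.cos (φ - 2 * τ) - Real.cos φ ≤ 2 * ρ / k * (1 + f ^ 2 / (4 * k)) := by
    have e1 : T * Real.cos (φ - 2 * τ) - Real.cos φ =
        (T - 1) * (Real.cos (φ - τ) * Real.cos τ) + (T + 1) * (Real.sin (φ - τ) * Real.sin τ) := by
      have e2 : φ - 2 * τ = (φ - τ) - τ := by ring
      have e3 : Real.cos φ = Real.cos ((φ - τ) + τ) := by congr 1; ring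
      rw [e2, e3, Real.cos_sub (φ - τ) τ, Real.cos_add (φ - τ) τ]
      ring
    rw [e1]
    have b1 : Real.cos (φ - τ) * Real.cos τ ≤ 1 := by
      have b0 : 0 ≤ Real.cos τ := Real.cos_nonneg_of_mem_Icc ⟨by linarith, by linarith⟩
      have := mul_le_mul (Real.cos_le_one (φ - τ)) (Real.cos_le_one τ) b0 zero_le_one
      linarith
    have b2 : (T - 1) * (Real.cos (φ - τ) * Real.cos τ) ≤ 2 / k * ρ := by
      calc (T - 1) * (Real.cos (φ - τ) * Real.cos τ) ≤ (T - 1) * 1 :=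
            mul_le_mul_of_nonneg_left b1 (by linarith)
        _ ≤ _ := by linarith
    have b3 : Real.sin (φ - τ) * Real.sin τ ≤ (φ - τ) * τ := by
      apply mul_le_mul (Real.sin_le (by linarith)) (Real.sin_le hτ) _ (by linarith)
      exact Real.sin_nonneg_of_nonneg_of_le_pi hτ (by linarith)
    have b4 : 1 / k ≤ Real.cos ϑ := by
      have h2 : 1 / k ≤ 1 / 2 := one_div_le_one_div_of_le (by norm_num) hk.le
      have h3 := Real.one_sub_sq_div_two_le_cos (x := ϑ)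
      have h4 : ϑ ^ 2 ≤ 1 ^ 2 := pow_le_pow_left₀ hθ0 (by linarith) 2
      linarith
    have b5 : k * ((1 + ρ / k) * τ) ≤ ρ * ϑ := by
      have h2 : ρ * (1 / k) ≤ ρ * Real.cos ϑ := mul_le_mul_of_nonneg_left b4 hρ0.le
      calc k * ((1 + ρ / k) * τ) = k * τ * (1 + ρ * (1 / k)) := by ring
        _ ≤ k * τ * (1 + ρ * Real.cos ϑ) := mul_le_mul_of_nonneg_left (by linarith) hkτ0
        _ ≤ _ := y2
    have b6 : k * (φ - τ) ≤ f - ϑ := by
      have e2 : k * (A + φ - τ) = k * A + k * (φ - τ) := by ring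
      linarith
    have b7 : (T + 1) * (Real.sin (φ - τ) * Real.sin τ) ≤ 2 * ρ / k * (f ^ 2 / (4 * k)) := by
      have h2 : (T + 1) * (Real.sin (φ - τ) * Real.sin τ) ≤ (2 + 2 / k * ρ) * ((φ - τ) * τ) := by
        apply mul_le_mul (by linarith) b3 _ (by positivity)
        apply mul_nonneg
        · exact Real.sin_nonneg_of_nonneg_of_le_pi (by linarith) (by linarith)
        · exact Real.sin_nonneg_of_nonneg_of_le_pi hτ (by linarith)
      refine h2.trans ?_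
      have e2 : 2 * ρ / k * (f ^ 2 / (4 * k)) = 2 * (ρ * (f ^ 2 / 4)) / (k * k) := by
        field_simp
      rw [e2, le_div_iff₀ (by positivity)]
      have e3 : (2 + 2 / k * ρ) * ((φ - τ) * τ) * (k * k) =
          2 * (k * ((1 + ρ / k) * τ) * (k * (φ - τ))) := by
        field_simp
      rw [e3]
      apply mul_le_mul_of_nonneg_left _ (by norm_num)
      calc k * ((1 + ρ / k) * τ) * (k * (φ - τ)) ≤ ρ * ϑ * (f - ϑ) := by
            apply mul_le_mul b5 b6 _ (by positivity)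
            exact mul_nonneg k0.le (by linarith)
        _ = ρ * (ϑ * (f - ϑ)) := by ring
        _ ≤ _ := by
            apply mul_le_mul_of_nonneg_left _ hρ0.le
            have := sq_nonneg (f - 2 * ϑ)
            linarith
    have e4 : 2 * ρ / k * (1 + f ^ 2 / (4 * k)) = 2 / k * ρ + 2 * ρ / k * (f ^ 2 / (4 * k)) := by
      ring
    rw [e4]
    exact add_le_add b2 b7
  have hFpi : k * φ < Real.pi := by linarith
  -- `c1`
  have hGk : 0 < (k * φ) ^ (1 / k) := Real.rpow_pos_of_pos hG0 _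
  obtain ⟨c1, hc1d⟩ : ∃ c1, c1 = Real.cos (Real.pi / (2 * k)) / (k * φ) ^ (1 / k) := ⟨_, rfl⟩
  have hc1 : c1 * (k * φ) ^ (1 / k) = Real.cos (Real.pi / (2 * k)) := by
    rw [hc1d, div_mul_cancel₀ _ hGk.ne']
  have hc87 : 87 / 100 ≤ c1 := by
    rw [hc1d, le_div_iff₀ hGk]
    exact shA_c1 hk hk5 hG0 hG1.le
  have hc10 : 0 < c1 := by linarith
  have hc1c : c1 * Real.cos A ≤ c := by
    have h2 := h.c1_le hFpi
    rw [← hc1] at h2
    have h3 : (k * φ) ^ (1 / k) * (c1 * Real.cos A) ≤ (k * φ) ^ (1 / k) * c := by linarith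
    exact le_of_mul_le_mul_left h3 hGk
  have hS1 : c1 * S ≤ 2 * Real.sin A := by
    have h2 := h.cS
    rw [Real.sin_two_mul] at h2
    have h3 : c1 * Real.cos A * S ≤ c * S := mul_le_mul_of_nonneg_right hc1c hS0.le
    have h4 : Real.cos A * (c1 * S) ≤ Real.cos A * (2 * Real.sin A) := by linarith
    exact le_of_mul_le_mul_left h4 hcA
  have hS2 : c1 * S ≤ 2 / k * (f - k * φ) := by
    have h2 := Real.sin_le hA.le
    have h3 : 2 / k * (k * A) ≤ 2 / k * (f - k * φ) :=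
      mul_le_mul_of_nonneg_left (by linarith) (by positivity)
    have e1 : 2 / k * (k * A) = 2 * A := by field_simp
    linarith
  have hSX := shA_S hk hk5 hf hG0 hG1 hS0 hc1 hS2
  set Z := 2 * c1 * Real.cos A ^ 2 + Real.cos φ with hZ
  have hcφ : 0 ≤ Real.cos φ := Real.cos_nonneg_of_mem_Icc ⟨by linarith, by linarith⟩
  have hZ0 : 0 ≤ Z := by positivity
  set E := 1 + f ^ 2 / (4 * k) with hE
  have hE0 : 0 < E := by positivity
  have hE1 : 1 ≤ E := by
    have : 0 ≤ f ^ 2 / (4 * k) := by positivity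
    linarith
  have hE2 : E ≤ 10617 / 10000 := shA_E hk hk5 hf
  -- the joint bound
  have hJ : c1 * S ^ 2 / 2 + P * Z ≤ T * Real.cos (φ - 2 * τ) - Real.cos φ := by
    have h2 := h.rotc A
    have e1 : A + φ - 2 * τ - A = φ - 2 * τ := by ring
    have e2 : A - φ - A = -φ := by ring
    have e3 : A + φ - A = φ := by ring
    rw [e1, e2, e3, Real.cos_neg] at h2
    rw [h2]
    have h3 : c1 * S ^ 2 / 2 ≤ S * Real.sin A := by
      have := mul_le_mul_of_nonneg_left hS1 hS0.le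
      linarith
    have h4 : P * (2 * c1 * Real.cos A ^ 2) ≤ w * Real.cos A := by
      calc P * (2 * c1 * Real.cos A ^ 2) = 2 * (c1 * Real.cos A) * P * Real.cos A := by ring
        _ ≤ 2 * c * P * Real.cos A := by
            apply mul_le_mul_of_nonneg_right _ hcA.le
            apply mul_le_mul_of_nonneg_right _ hP.le
            linarith
        _ ≤ _ := mul_le_mul_of_nonneg_right h.cw hcA.le
    rw [hZ, mul_add]
    linarith
  set sk := Real.sin (Real.pi / k) with hskd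
  have hpk : 0 < Real.pi / k := by positivity
  have hpk2 : Real.pi / k < Real.pi / 2 := div_lt_div_of_pos_left hpi (by norm_num) hk
  have hsk0 : 0 < sk := Real.sin_pos_of_pos_of_lt_pi hpk (by linarith)
  have hsk1 : sk ≤ 1 := Real.sin_le_one _
  have hsk2 : 9506 / 10000 ≤ sk := by
    rw [hskd, ← Real.cos_pi_div_two_sub]
    apply shA_cos (by linarith)
    have : Real.pi / (5 / 2) ≤ Real.pi / k := div_le_div_of_nonneg_left hpi.le k0 hk5
    linarith
  have hcφ2 : 9506 / 10000 ≤ Real.cos φ := shA_cos hφ.le hφ1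
  have hcA2 : 9506 / 10000 ≤ Real.cos A := shA_cos hA.le hA1
  have hsA2 : Real.sin A ≤ 31416 / 100000 := (Real.sin_le hA.le).trans hA1
  have hsφ2 : Real.sin φ ≤ 31416 / 100000 := (Real.sin_le hφ.le).trans hφ1
  set σ := max (Real.sin φ - 2 * c * Real.sin A) 0 with hσ
  have hσ0 : 0 ≤ σ := le_max_right _ _
  have hN : T * Real.sin (φ - 2 * τ) + Real.sin φ ≤ S + P * σ := by
    have h2 := h.rot A
    have e1 : A + φ - 2 * τ - A = φ - 2 * τ := by ring
    have e2 : φ + A - A = φ := by ring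
    have e3 : A + φ - A = φ := by ring
    rw [e1, e2, e3] at h2
    rw [h2]
    have h3 : S * Real.cos A ≤ S * 1 := mul_le_mul_of_nonneg_left (Real.cos_le_one A) hS0.le
    have h4 : 2 * c * P * Real.sin A ≤ w * Real.sin A := mul_le_mul_of_nonneg_right h.cw hsA.le
    have h5 : P * (Real.sin φ - 2 * c * Real.sin A) ≤ P * σ :=
      mul_le_mul_of_nonneg_left (le_max_left _ _) hP.le
    linarith
  have hsφ0 : 0 ≤ Real.sin φ := Real.sin_nonneg_of_nonneg_of_le_pi hφ.le (by linarith)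
  have habs : 2 * E * (sk + 79 / 100 * σ) ≤ Z * sk :=
    shA_abs hc87 hE1 hE2 hsk1 hsk2 hcφ2 hcA2 hsA.le hsA2 hsφ0 hsφ2 (Real.cos_sq' A) hc1c hσ
  have hκ2 : 2 / 5 ≤ 1 / k := by rw [le_div_iff₀ k0]; linarith
  have hκ : 1 / k ≤ 1 / 2 := one_div_le_one_div_of_le (by norm_num) hk.le
  have hsum' : c1 * S ^ 2 / (4 / k * E) + P * Z / (2 * (1 / k) * E) ≤ ρ := by
    have e1 : c1 * S ^ 2 / (4 / k * E) + P * Z / (2 * (1 / k) * E) =
        (c1 * S ^ 2 / 2 + P * Z) / (2 / k * E) := by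
      field_simp
      ring
    rw [e1, div_le_iff₀ (by positivity)]
    have e2 : ρ * (2 / k * E) = 2 * ρ / k * E := by ring
    rw [e2]
    exact hJ.trans hEb
  have hfin := shA_comb (κ := 1 / k) (ρ := ρ) (t := t) (sk := sk) (S := S)
    (X := c1 * S ^ 2 / (4 / k * E)) (P := P) (Z := Z) (E := E) (σ := σ) (by positivity) hκ hκ2
    hρ0 hρ1 t1 t3 hsk0 (by positivity) hSX hP.le hZ0 hE0 hsum' hσ0 habs
  apply shA_NP hk hρ0 ht0 hT hT1 hP.le hτ hβ.le hθ0 y1 _ _ hN hfin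
  · linarith
  · have h2 : (Real.pi + ϑ) / k < Real.pi / 2 := by linarith [h.A20]
    linarith

end FsD

end EQS
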