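import Mathlib

/-! Sheets `F_2 ≥ π`, `5/2 ≤ k ≤ 3`: the one-variable estimates. -/

set_option autoImplicit false

namespace EQS

/-- weighted AM-GM -/
theorem shB_amgm {a p h G h0 G0 : ℝ} (ha : 0 < a) (hp : 0 < p) (hh : 0 ≤ h) (hG : 0 ≤ G)
    (hh0 : 0 < h0) (hG0 : 0 < G0) (hs : a * (h / h0) + p * (G / G0) ≤ a + p) :
    h ^ a * G ^ p ≤ h0 ^ a * G0 ^ p := by
  have hm : 0 < a + p := by linarith
  have h1 := Real.geom_mean_le_arith_mean2_weighted (w₁ := a / (a + p)) (w₂ := p / (a + p))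
    (p₁ := h / h0) (p₂ := G / G0) (by positivity) (by positivity) (by positivity) (by positivity)
    (by field_simp)
  have h2 : a / (a + p) * (h / h0) + p / (a + p) * (G / G0) ≤ 1 := by
    have e : a / (a + p) * (h / h0) + p / (a + p) * (G / G0) =
        (a * (h / h0) + p * (G / G0)) / (a + p) := by
      ring
    rw [e, div_le_one hm]
    exact hs
  have h3 := h1.trans h2
  have h4 : ((h / h0) ^ (a / (a + p)) * (G / G0) ^ (p / (a + p))) ^ (a + p) ≤ 1 := by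
    apply Real.rpow_le_one _ h3 hm.le
    positivity
  rw [Real.mul_rpow (by positivity) (by positivity), ← Real.rpow_mul (by positivity),
    ← Real.rpow_mul (by positivity), div_mul_cancel₀ _ hm.ne', div_mul_cancel₀ _ hm.ne',
    Real.div_rpow hh hh0.le, Real.div_rpow hG hG0.le, div_mul_div_comm,
    div_le_one (by positivity)] at h4
  exact h4

/-- the polynomial inequality -/
theorem shB_poly {a : ℝ} (h0 : 1 / 2 ≤ a) (h1 : a ≤ 1) :
    4 * (3 - 2 * a) * ((1 - a) * (a ^ 2 + 3 * a + 1) + 4 * (63 / 20) * a ^ 3) *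
        (2 * (a ^ 2 + 3 * a + 1) + 63 / 20 * a * (1 + a) ^ 2) ≤
      (a ^ 2 + 3 * a + 1) ^ 2 * (8 * (2 + a) ^ 2 - (1 + a) * (63 / 20) ^ 2) := by
  have e : (a ^ 2 + 3 * a + 1) ^ 2 * (8 * (2 + a) ^ 2 - (1 + a) * (63 / 20) ^ 2) -
      4 * (3 - 2 * a) * ((1 - a) * (a ^ 2 + 3 * a + 1) + 4 * (63 / 20) * a ^ 3) *
        (2 * (a ^ 2 + 3 * a + 1) + 63 / 20 * a * (1 + a) ^ 2) =
      667317 / 12800 * (2 - 2 * a) ^ 7 +
      2708189 / 6400 * (2 * a - 1) ^ 1 * (2 - 2 * a) ^ 6 +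
      17760433 / 12800 * (2 * a - 1) ^ 2 * (2 - 2 * a) ^ 5 +
      3792691 / 1600 * (2 * a - 1) ^ 3 * (2 - 2 * a) ^ 4 +
      7392563 / 3200 * (2 * a - 1) ^ 4 * (2 - 2 * a) ^ 3 +
      559307 / 400 * (2 * a - 1) ^ 5 * (2 - 2 * a) ^ 2 +
      483649 / 800 * (2 * a - 1) ^ 6 * (2 - 2 * a) ^ 1 +
      32967 / 200 * (2 * a - 1) ^ 7 := by
    ring
  have h2 : 0 ≤ 2 - 2 * a := by linarith
  have h3 : 0 ≤ 2 * a - 1 := by linarith
  rw [← sub_nonneg, e]
  positivity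

/-- `h0^a ≤ (3/4 - a/2) (1 - a + 4 a h0)` -/
theorem shB_pow {a b : ℝ} (ha : 1 / 2 ≤ a) (ha2 : a ≤ 1) (hb : 0 ≤ b) :
    b ^ a ≤ (3 / 4 - a / 2) * (1 - a + 4 * a * b) := by
  have e1 : b ^ a = (1 / 4 : ℝ) ^ a * (4 * b) ^ a := by
    rw [← Real.mul_rpow (by norm_num) (by positivity)]
    congr 1
    ring
  have h1 : (4 * b) ^ a ≤ 1 - a + 4 * a * b := by
    have := rpow_one_add_le_one_add_mul_self (s := 4 * b - 1) (p := a) (by linarith) (by linarith)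
      ha2
    have e2 : 1 + (4 * b - 1) = 4 * b := by ring
    rw [e2] at this
    linarith
  have h2 : (1 / 4 : ℝ) ^ a ≤ 3 / 4 - a / 2 := by
    have e2 : (1 / 4 : ℝ) ^ a = (1 / 2) * (1 / 2 : ℝ) ^ (2 * a - 1) := by
      have e3 : (1 / 4 : ℝ) = (1 / 2) ^ (2 : ℝ) := by norm_num
      rw [e3, ← Real.rpow_mul (by norm_num)]
      have e4 : (2 : ℝ) * a = 1 + (2 * a - 1) := by ring
      rw [e4, Real.rpow_add (by norm_num), Real.rpow_one]
      ring_nf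
    have := rpow_one_add_le_one_add_mul_self (s := -(1 / 2)) (p := 2 * a - 1) (by norm_num)
      (by linarith) (by linarith)
    have e3 : (1 : ℝ) + -(1 / 2) = 1 / 2 := by norm_num
    rw [e3] at this
    rw [e2]
    linarith
  rw [e1]
  have h3 : 0 ≤ (4 * b) ^ a := Real.rpow_nonneg (by positivity) _
  exact mul_le_mul h2 h1 h3 (by linarith)

/-- the main one-variable estimate -/
theorem shB_main {k G f ϑ : ℝ} (hk : 5 / 2 ≤ k) (hk2 : k ≤ 3)
    (hf : f = (k - 2) * (Real.pi / 2)) (hθ0 : 0 ≤ ϑ) (hθ1 : ϑ ≤ f) (hG0 : 0 < G)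
    (hG1 : G < f - ϑ / 2) :
    4 / k * (1 + 1 / k * ((f - ϑ) * ϑ)) *
        ((2 / k * (f - ϑ / 2 - G)) ^ (k - 2) * G ^ (1 - 1 / k)) ≤
      Real.cos (Real.pi / (2 * k)) ^ (k - 1) := by
  have hpi := Real.pi_pos
  have hpi2 : Real.pi ≤ 63 / 20 := by linarith [Real.pi_lt_d2]
  have hpi4 := Real.pi_lt_d4
  obtain ⟨a, ha⟩ : ∃ a, a = k - 2 := ⟨_, rfl⟩
  have hk' : k = 2 + a := by linarith
  have ha0 : 1 / 2 ≤ a := by linarith
  have ha1 : a ≤ 1 := by linarith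
  have ha00 : 0 < a := by linarith
  rw [← ha] at hf
  rw [← ha]
  have e1 : k - 1 = 1 + a := by linarith
  rw [e1, hk']
  -- parameters
  obtain ⟨d, hd⟩ : ∃ d, d = a ^ 2 + 3 * a + 1 := ⟨_, rfl⟩
  have hd0 : 0 < d := by rw [hd]; positivity
  obtain ⟨p, hp⟩ : ∃ p, p = 1 - 1 / (2 + a) := ⟨_, rfl⟩
  have hp' : p = (1 + a) / (2 + a) := by rw [hp]; field_simp; ring
  have hp0 : 0 < p := by rw [hp']; positivity
  have hp1 : p ≤ 1 := by
    rw [hp]
    have : 0 < 1 / (2 + a) := by positivity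
    linarith
  obtain ⟨m, hm⟩ : ∃ m, m = a + p := ⟨_, rfl⟩
  have hm' : m = d / (2 + a) := by rw [hm, hp', hd]; field_simp; ring
  have hm0 : 0 < m := by rw [hm]; positivity
  have hm1 : 1 ≤ m := by
    rw [hm, hp]
    have : 1 / (2 + a) ≤ 1 / 2 := one_div_le_one_div_of_le (by norm_num) (by linarith)
    linarith
  have hf0 : 0 < f := by rw [hf]; positivity
  obtain ⟨q, hq⟩ : ∃ q, q = 1 - ϑ / (2 * f) := ⟨_, rfl⟩
  have hq' : f - ϑ / 2 = f * q := by rw [hq]; field_simp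
  have hq0 : 0 < q := by
    have h2 : 0 < f * q := by rw [← hq']; linarith
    exact (pos_iff_pos_of_mul_pos h2).1 hf0
  obtain ⟨h0, hh0⟩ : ∃ h0, h0 = Real.pi * a ^ 2 / d := ⟨_, rfl⟩
  have hh00 : 0 < h0 := by rw [hh0]; positivity
  obtain ⟨G0, hG0'⟩ : ∃ G0, G0 = f * p / m := ⟨_, rfl⟩
  have hG00 : 0 < G0 := by rw [hG0']; positivity
  -- AM-GM
  have h6 := shB_amgm (a := a) (p := p) (h := 2 / (2 + a) * (f - ϑ / 2 - G)) (G := G)
    (h0 := h0 * q) (G0 := G0 * q) ha00 hp0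
    (by
      have : 0 < f - ϑ / 2 - G := by linarith
      positivity) hG0.le (by positivity) (by positivity) (by
      apply le_of_eq
      rw [hq', hh0, hG0', ← hm, hm', hp', hf]
      rw [hd]
      field_simp
      ring)
  rw [← hp]
  -- `(1+ε) q^m ≤ 1`
  have hε : 1 + 1 / (2 + a) * ((f - ϑ) * ϑ) ≤ 1 + m * (ϑ / (2 * f)) := by
    have h7 : 1 / (2 + a) * ((f - ϑ) * ϑ) ≤ 1 / (2 + a) * (f * ϑ) := by
      apply mul_le_mul_of_nonneg_left _ (by positivity)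
      apply mul_le_mul_of_nonneg_right _ hθ0
      linarith
    have h8 : 1 / (2 + a) * (f * ϑ) ≤ m * (ϑ / (2 * f)) := by
      have e2 : 1 / (2 + a) * (f * ϑ) = ϑ / (2 * f * (2 + a)) * (2 * f ^ 2) := by
        field_simp
      have e3 : m * (ϑ / (2 * f)) = ϑ / (2 * f * (2 + a)) * d := by
        rw [hm']; field_simp
      rw [e2, e3]
      apply mul_le_mul_of_nonneg_left _ (by positivity)
      rw [hf, hd]
      have h9 : Real.pi ^ 2 ≤ 98697 / 10000 := by nlinarith [Real.pi_gt_d4]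
      have h10 : 2 * (a * (Real.pi / 2)) ^ 2 = a ^ 2 * (Real.pi ^ 2 / 2) := by ring
      rw [h10]
      nlinarith
    linarith
  have hqm : (1 + m * (ϑ / (2 * f))) * q ^ m ≤ 1 := by
    have h7 := one_add_mul_self_le_rpow_one_add (s := ϑ / (2 * f)) (p := m) (by
      have : 0 ≤ ϑ / (2 * f) := by positivity
      linarith) hm1
    have h8 : (1 + ϑ / (2 * f)) * q ≤ 1 := by
      rw [hq]
      nlinarith [sq_nonneg (ϑ / (2 * f))]
    have h9 : ((1 + ϑ / (2 * f)) * q) ^ m ≤ 1 := Real.rpow_le_one (by positivity) h8 hm0.le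
    rw [Real.mul_rpow (by positivity) hq0.le] at h9
    have h10 : 0 ≤ q ^ m := Real.rpow_nonneg hq0.le _
    exact (mul_le_mul_of_nonneg_right h7 h10).trans h9
  have hX0 : 0 ≤ h0 ^ a * G0 ^ p := by positivity
  have hqe : (h0 * q) ^ a * (G0 * q) ^ p = h0 ^ a * G0 ^ p * q ^ m := by
    rw [Real.mul_rpow hh00.le hq0.le, Real.mul_rpow hG00.le hq0.le, hm, Real.rpow_add hq0]
    ring
  rw [hqe] at h6
  have h7 : (1 + 1 / (2 + a) * ((f - ϑ) * ϑ)) *
      ((2 / (2 + a) * (f - ϑ / 2 - G)) ^ a * G ^ p) ≤ h0 ^ a * G0 ^ p := by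
    have hε0 : 0 ≤ 1 + 1 / (2 + a) * ((f - ϑ) * ϑ) := by
      have : 0 ≤ (f - ϑ) * ϑ := mul_nonneg (by linarith) hθ0
      positivity
    calc (1 + 1 / (2 + a) * ((f - ϑ) * ϑ)) *
        ((2 / (2 + a) * (f - ϑ / 2 - G)) ^ a * G ^ p) ≤
          (1 + 1 / (2 + a) * ((f - ϑ) * ϑ)) * (h0 ^ a * G0 ^ p * q ^ m) :=
          mul_le_mul_of_nonneg_left h6 hε0
      _ ≤ (1 + m * (ϑ / (2 * f))) * (h0 ^ a * G0 ^ p * q ^ m) :=
          mul_le_mul_of_nonneg_right hε (by positivity)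
      _ = (h0 ^ a * G0 ^ p) * ((1 + m * (ϑ / (2 * f))) * q ^ m) := by ring
      _ ≤ (h0 ^ a * G0 ^ p) * 1 := mul_le_mul_of_nonneg_left hqm hX0
      _ = _ := mul_one _
  -- the numbers
  have h8 := shB_pow ha0 ha1 hh00.le
  have h9 : G0 ^ p ≤ 1 - p + p * G0 := by
    have := rpow_one_add_le_one_add_mul_self (s := G0 - 1) (p := p) (by linarith) hp0.le hp1
    have e2 : 1 + (G0 - 1) = G0 := by ring
    rw [e2] at this
    linarith
  have h10 : h0 ^ a * G0 ^ p ≤ (3 / 4 - a / 2) * (1 - a + 4 * a * h0) * (1 - p + p * G0) :=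
    mul_le_mul h8 h9 (by positivity) (mul_nonneg (by linarith) (by
      have : 0 ≤ 4 * a * h0 := by positivity
      linarith))
  have h11 : 1 - (1 + a) * (Real.pi ^ 2 / (8 * (2 + a) ^ 2)) ≤
      Real.cos (Real.pi / (2 * (2 + a))) ^ (1 + a) := by
    have h12 := Real.one_sub_sq_div_two_le_cos (x := Real.pi / (2 * (2 + a)))
    have h13 := Real.neg_one_le_cos (Real.pi / (2 * (2 + a)))
    have h14 : 0 ≤ Real.cos (Real.pi / (2 * (2 + a))) := by
      apply Real.cos_nonneg_of_mem_Icc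
      refine ⟨?_, ?_⟩
      · have : 0 < Real.pi / (2 * (2 + a)) := by positivity
        linarith
      · rw [div_le_div_iff₀ (by positivity) (by norm_num)]
        nlinarith
    have h15 := one_add_mul_self_le_rpow_one_add (s := Real.cos (Real.pi / (2 * (2 + a))) - 1)
      (p := 1 + a) (by linarith) (by linarith)
    have e2 : 1 + (Real.cos (Real.pi / (2 * (2 + a))) - 1) = Real.cos (Real.pi / (2 * (2 + a))) := by
      ring
    rw [e2] at h15
    have e3 : (1 + a) * (Real.pi ^ 2 / (8 * (2 + a) ^ 2)) =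
        (1 + a) * ((Real.pi / (2 * (2 + a))) ^ 2 / 2) := by
      field_simp
      ring
    rw [e3]
    have h16 : (1 + a) * (1 - (Real.pi / (2 * (2 + a))) ^ 2 / 2) ≤
        (1 + a) * Real.cos (Real.pi / (2 * (2 + a))) :=
      mul_le_mul_of_nonneg_left h12 (by linarith)
    linarith
  refine le_trans ?_ h11
  have e4 : 4 / (2 + a) * (1 + 1 / (2 + a) * ((f - ϑ) * ϑ)) *
        ((2 / (2 + a) * (f - ϑ / 2 - G)) ^ a * G ^ p) =
      4 / (2 + a) * ((1 + 1 / (2 + a) * ((f - ϑ) * ϑ)) *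
        ((2 / (2 + a) * (f - ϑ / 2 - G)) ^ a * G ^ p)) := by ring
  rw [e4]
  have h12 : 4 / (2 + a) * ((1 + 1 / (2 + a) * ((f - ϑ) * ϑ)) *
        ((2 / (2 + a) * (f - ϑ / 2 - G)) ^ a * G ^ p)) ≤
      4 / (2 + a) * ((3 / 4 - a / 2) * (1 - a + 4 * a * h0) * (1 - p + p * G0)) :=
    mul_le_mul_of_nonneg_left (h7.trans h10) (by positivity)
  refine h12.trans ?_
  -- final polynomial inequality
  have hpoly := shB_poly ha0 ha1
  have e5 : 4 / (2 + a) * ((3 / 4 - a / 2) * (1 - a + 4 * a * h0) * (1 - p + p * G0)) =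
      4 * (3 - 2 * a) * ((1 - a) * d + 4 * Real.pi * a ^ 3) *
        (2 * d + Real.pi * a * (1 + a) ^ 2) / (8 * (2 + a) ^ 2 * d ^ 2) := by
    rw [hG0', hm', hp', hh0, hf]
    field_simp
    ring
  have e6 : 1 - (1 + a) * (Real.pi ^ 2 / (8 * (2 + a) ^ 2)) =
      d ^ 2 * (8 * (2 + a) ^ 2 - (1 + a) * Real.pi ^ 2) / (8 * (2 + a) ^ 2 * d ^ 2) := by
    field_simp
  rw [e5, e6]
  apply div_le_div_of_nonneg_right _ (by positivity)
  have h13 : 4 * (3 - 2 * a) * ((1 - a) * d + 4 * Real.pi * a ^ 3) *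
        (2 * d + Real.pi * a * (1 + a) ^ 2) ≤
      4 * (3 - 2 * a) * ((1 - a) * d + 4 * (63 / 20) * a ^ 3) *
        (2 * d + 63 / 20 * a * (1 + a) ^ 2) := by
    have h14 : 0 < 3 - 2 * a := by linarith
    have h15 : 0 ≤ 1 - a := by linarith
    gcongr
  have h14 : d ^ 2 * (8 * (2 + a) ^ 2 - (1 + a) * (63 / 20) ^ 2) ≤
      d ^ 2 * (8 * (2 + a) ^ 2 - (1 + a) * Real.pi ^ 2) := by
    gcongr
  rw [← hd] at hpoly
  linarith

/-- the estimate for `S` -/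
theorem shB_S {k S c1 G f ϑ : ℝ} (hk : 5 / 2 ≤ k) (hk2 : k ≤ 3)
    (hf : f = (k - 2) * (Real.pi / 2)) (hθ0 : 0 ≤ ϑ) (hθ1 : ϑ ≤ f)
    (hG0 : 0 < G) (hG1 : G < f - ϑ / 2) (hS0 : 0 < S)
    (hc1 : c1 * G ^ (1 / k) = Real.cos (Real.pi / (2 * k)))
    (hS : c1 * S ≤ 2 / k * (f - ϑ / 2 - G)) :
    S ≤ (c1 * S ^ 2 / (4 / k * (1 + 1 / k * ((f - ϑ) * ϑ)))) ^ (1 / k) := by
  have hpi := Real.pi_pos
  have k0 : 0 < k := by linarith
  have hm := shB_main hk hk2 hf hθ0 hθ1 hG0 hG1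
  have hGk : 0 < G ^ (1 / k) := Real.rpow_pos_of_pos hG0 _
  have hcos : 0 < Real.cos (Real.pi / (2 * k)) := by
    apply Real.cos_pos_of_mem_Ioo
    have : 0 < Real.pi / (2 * k) := by positivity
    refine ⟨by linarith, ?_⟩
    rw [div_lt_div_iff₀ (by positivity) (by norm_num)]
    nlinarith
  have hc0 : 0 < c1 := by
    by_contra hcon
    push Not at hcon
    have := mul_nonpos_of_nonpos_of_nonneg hcon hGk.le
    linarith
  have hε : 0 ≤ (f - ϑ) * ϑ := mul_nonneg (by linarith) hθ0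
  set Q := 4 / k * (1 + 1 / k * ((f - ϑ) * ϑ)) with hQ
  have hQ0 : 0 < Q := by positivity
  set h := 2 / k * (f - ϑ / 2 - G) with hh
  have hh0 : 0 < h := by
    have : 0 < f - ϑ / 2 - G := by linarith
    positivity
  -- `cos^(k-1) = c1^(k-1) G^(1-1/k)`
  have e1 : Real.cos (Real.pi / (2 * k)) ^ (k - 1) = c1 ^ (k - 1) * G ^ (1 - 1 / k) := by
    rw [← hc1, Real.mul_rpow hc0.le hGk.le, ← Real.rpow_mul hG0.le]
    congr 2
    field_simp
  rw [e1] at hm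
  have hG2 : 0 < G ^ (1 - 1 / k) := Real.rpow_pos_of_pos hG0 _
  have h1 : Q * h ^ (k - 2) ≤ c1 ^ (k - 1) := by
    have : Q * h ^ (k - 2) * G ^ (1 - 1 / k) ≤ c1 ^ (k - 1) * G ^ (1 - 1 / k) := by
      calc Q * h ^ (k - 2) * G ^ (1 - 1 / k) = Q * (h ^ (k - 2) * G ^ (1 - 1 / k)) := by ring
        _ ≤ _ := hm
    exact le_of_mul_le_mul_right this hG2
  have hcS0 : 0 ≤ c1 * S := by positivity
  have h2 : (c1 * S) ^ (k - 2) ≤ h ^ (k - 2) := Real.rpow_le_rpow hcS0 hS (by linarith)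
  rw [Real.mul_rpow hc0.le hS0.le] at h2
  have e2 : c1 ^ (k - 1) = c1 ^ (k - 2) * c1 := by
    rw [← Real.rpow_add_one hc0.ne']
    congr 1
    ring
  have hcp : 0 < c1 ^ (k - 2) := Real.rpow_pos_of_pos hc0 _
  have h3 : Q * S ^ (k - 2) ≤ c1 := by
    have : c1 ^ (k - 2) * (Q * S ^ (k - 2)) ≤ c1 ^ (k - 2) * c1 := by
      calc c1 ^ (k - 2) * (Q * S ^ (k - 2)) = Q * (c1 ^ (k - 2) * S ^ (k - 2)) := by ring
        _ ≤ Q * h ^ (k - 2) := mul_le_mul_of_nonneg_left h2 hQ0.le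
        _ ≤ c1 ^ (k - 1) := h1
        _ = _ := by rw [e2]
    exact le_of_mul_le_mul_left this hcp
  -- `S^k ≤ X`
  have e3 : S ^ k = S ^ 2 * S ^ (k - 2) := by
    rw [← Real.rpow_natCast S 2, ← Real.rpow_add hS0]
    congr 1
    push_cast
    ring
  have h4 : S ^ k ≤ c1 * S ^ 2 / Q := by
    rw [e3, le_div_iff₀ hQ0]
    calc S ^ 2 * S ^ (k - 2) * Q = S ^ 2 * (Q * S ^ (k - 2)) := by ring
      _ ≤ S ^ 2 * c1 := mul_le_mul_of_nonneg_left h3 (by positivity)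
      _ = _ := by ring
  have h5 : (S ^ k) ^ (1 / k) ≤ (c1 * S ^ 2 / Q) ^ (1 / k) :=
    Real.rpow_le_rpow (by positivity) h4 (by positivity)
  rw [← Real.rpow_mul hS0.le] at h5
  have e4 : k * (1 / k) = 1 := by field_simp
  rw [e4, Real.rpow_one] at h5
  exact h5

end EQS
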