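import Mathlib
import Pool.Agent.Lib.MP_226de1_co.E.DShA
import Pool.Agent.Lib.MP_226de1_co.E.DShB1

/-! Sheets `F_2 ≥ π` for `5/2 ≤ k ≤ 3`. -/

set_option autoImplicit false

namespace EQS

/-- `cos τ (sin (χ + 2β) - T sin χ) ≤ cos χ (T sin (β - τ) + sin (β + τ))` -/
theorem shB_trig {T β τ χ : ℝ} (hT : 1 ≤ T) (hβ : 0 ≤ β) (hτ : 0 ≤ τ) (hχ : τ ≤ χ)
    (h1 : χ ≤ Real.pi / 2) (h2 : χ + β ≤ Real.pi) (h3 : β ≤ Real.pi) :
    Real.cos τ * (Real.sin (χ + 2 * β) - T * Real.sin χ) ≤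
      Real.cos χ * (T * Real.sin (β - τ) + Real.sin (β + τ)) := by
  have hpi := Real.pi_pos
  have sβ : 0 ≤ Real.sin β := Real.sin_nonneg_of_nonneg_of_le_pi hβ h3
  have cτ : 0 ≤ Real.cos τ := Real.cos_nonneg_of_mem_Icc ⟨by linarith, by linarith⟩
  have sτ : 0 ≤ Real.sin τ := Real.sin_nonneg_of_nonneg_of_le_pi hτ (by linarith)
  have cχ : 0 ≤ Real.cos χ := Real.cos_nonneg_of_mem_Icc ⟨by linarith, h1⟩
  have e1 : Real.sin (χ + 2 * β) = Real.sin χ + 2 * Real.sin β * Real.cos (χ + β) := by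
    have : Real.sin (χ + 2 * β) - Real.sin χ = 2 * Real.sin β * Real.cos (χ + β) := by
      rw [Real.sin_sub_sin]
      ring_nf
    linarith
  have e2 : Real.cos χ * (T * Real.sin (β - τ) + Real.sin (β + τ)) -
      Real.cos τ * (Real.sin (χ + 2 * β) - T * Real.sin χ) =
      Real.sin β * Real.cos τ * ((T + 1) * Real.cos χ - 2 * Real.cos (χ + β)) +
        (T - 1) * (Real.cos τ * Real.sin χ - Real.cos β * (Real.sin τ * Real.cos χ)) := by
    rw [e1, Real.sin_sub, Real.sin_add β τ]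
    ring
  have a1 : Real.cos (χ + β) ≤ Real.cos χ :=
    Real.cos_le_cos_of_nonneg_of_le_pi (by linarith) h2 (by linarith)
  have a2 : 0 ≤ (T + 1) * Real.cos χ - 2 * Real.cos (χ + β) := by
    have : 0 ≤ (T - 1) * Real.cos χ := mul_nonneg (by linarith) cχ
    linarith
  have a3 : 0 ≤ Real.cos τ * Real.sin χ - Real.cos β * (Real.sin τ * Real.cos χ) := by
    have b1 : 0 ≤ Real.sin (χ - τ) := Real.sin_nonneg_of_nonneg_of_le_pi (by linarith) (by linarith)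
    rw [Real.sin_sub] at b1
    have b2 : Real.cos β * (Real.sin τ * Real.cos χ) ≤ 1 * (Real.sin τ * Real.cos χ) :=
      mul_le_mul_of_nonneg_right (Real.cos_le_one β) (by positivity)
    linarith
  have a4 : 0 ≤ Real.sin β * Real.cos τ * ((T + 1) * Real.cos χ - 2 * Real.cos (χ + β)) :=
    mul_nonneg (by positivity) a2
  have a5 : 0 ≤ (T - 1) * (Real.cos τ * Real.sin χ - Real.cos β * (Real.sin τ * Real.cos χ)) :=
    mul_nonneg (by linarith) a3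
  linarith

/-- `sin x ≤ sin y` for `x ≤ y`, `x + y ≤ π` -/
theorem sin_le_sin_sum {x y : ℝ} (h0 : 0 ≤ x) (h1 : x ≤ y) (h2 : x + y ≤ Real.pi) :
    Real.sin x ≤ Real.sin y := by
  have hpi := Real.pi_pos
  rcases le_or_gt y (Real.pi / 2) with h3 | h3
  · exact Real.sin_le_sin_of_le_of_le_pi_div_two (by linarith) h3 h1
  · rw [← Real.sin_pi_sub y]
    exact Real.sin_le_sin_of_le_of_le_pi_div_two (by linarith) (by linarith) (by linarith)

/-- the final combination -/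
theorem shB_comb {κ ρ t Sg CΛ S X P Z E σ s1 s2 : ℝ} (hκ0 : 0 < κ) (hκ : κ ≤ 1 / 2)
    (hρ0 : 0 < ρ) (hρ1 : ρ ≤ 1) (ht1 : 1 ≤ t) (hSg : 0 ≤ Sg) (hC0 : 0 ≤ CΛ) (hC : CΛ ≤ Sg)
    (hX : 0 ≤ X) (hS : S ≤ X ^ κ) (hP : 0 ≤ P) (hZ : 0 ≤ Z) (hE : 0 < E)
    (hsum : X + P * Z / (2 * κ * E) ≤ ρ) (hσ : CΛ * σ ≤ s2)
    (habs : 2 * E * s1 ≤ Z * Sg) :
    CΛ * (S + P * σ) + P * (t / ρ) ^ κ * s1 - P * s2 ≤ (ρ * t) ^ κ * Sg := by
  have hr : 0 < ρ ^ κ := Real.rpow_pos_of_pos hρ0 _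
  have ht0 : 0 < t := by linarith
  have hu : 1 ≤ t ^ κ := Real.one_le_rpow ht1 hκ0.le
  have hu0 : 0 < t ^ κ := by linarith
  have hc := shA_conc hκ0 hκ hρ0 hρ1 hX (Y := P * Z / (2 * κ * E)) (by positivity) hsum
  have e1 : κ * (P * Z / (2 * κ * E)) / ρ ^ κ = P * Z / (2 * E) / ρ ^ κ := by
    field_simp
  rw [e1] at hc
  have e2 : (t / ρ) ^ κ = t ^ κ / ρ ^ κ := Real.div_rpow ht0.le hρ0.le _
  have e3 : (ρ * t) ^ κ = ρ ^ κ * t ^ κ := Real.mul_rpow hρ0.le ht0.le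
  rw [e2, e3]
  set r := ρ ^ κ with hrd
  set u := t ^ κ with hud
  set W := X ^ κ with hW
  have hW0 : 0 ≤ W := Real.rpow_nonneg hX _
  have h5 : CΛ * S ≤ u * (Sg * W) := by
    have h1 : CΛ * S ≤ CΛ * W := mul_le_mul_of_nonneg_left hS hC0
    have h2 : CΛ * W ≤ Sg * W := mul_le_mul_of_nonneg_right hC hW0
    have h3 : 1 * (Sg * W) ≤ u * (Sg * W) := mul_le_mul_of_nonneg_right hu (by positivity)
    linarith
  have h6 : P * (u / r) * s1 ≤ u * Sg * (P * Z / (2 * E) / r) := by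
    have e4 : u * Sg * (P * Z / (2 * E) / r) = (P / (2 * E) / r * u) * (Z * Sg) := by
      field_simp
    have e5 : P * (u / r) * s1 = (P / (2 * E) / r * u) * (2 * E * s1) := by
      field_simp
    rw [e4, e5]
    exact mul_le_mul_of_nonneg_left habs (by positivity)
  have h7 : u * Sg * (W + P * Z / (2 * E) / r) ≤ u * Sg * r :=
    mul_le_mul_of_nonneg_left hc (by positivity)
  have h8 : P * (CΛ * σ) ≤ P * s2 := mul_le_mul_of_nonneg_left hσ hP
  have e6 : CΛ * (S + P * σ) = CΛ * S + P * (CΛ * σ) := by ring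
  have e7 : r * u * Sg = u * Sg * r := by ring
  rw [e6, e7]
  rw [mul_add] at h7
  have e8 : u * Sg * W = u * (Sg * W) := by ring
  linarith

/-- `|1 + ρ e^{iϑ}|`, `ϑ ≤ π/2` -/
theorem shB_geo {ρ t ϑ y : ℝ} (hρ0 : 0 < ρ) (hρ1 : ρ ≤ 1) (ht0 : 0 < t) (hθ0 : 0 ≤ ϑ)
    (hθ1 : ϑ < Real.pi / 2) (hy0 : 0 ≤ y) (hy1 : y < Real.pi / 2)
    (hc : t * Real.cos y = 1 + ρ * Real.cos ϑ) (hs : t * Real.sin y = ρ * Real.sin ϑ) :
    1 ≤ t ∧ t - 1 ≤ ρ * (1 + Real.cos ϑ) / 2 ∧ 2 * y ≤ ϑ ∧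
      y * (1 + ρ * Real.cos ϑ) ≤ ρ * ϑ := by
  have hpi := Real.pi_pos
  have h7 : 0 < Real.cos ϑ := Real.cos_pos_of_mem_Ioo ⟨by linarith, hθ1⟩
  have h8 := Real.cos_le_one ϑ
  have hsθ : 0 ≤ Real.sin ϑ := Real.sin_nonneg_of_nonneg_of_le_pi hθ0 (by linarith)
  have hsq : t ^ 2 = 1 + 2 * ρ * Real.cos ϑ + ρ ^ 2 := by
    have h1 := Real.sin_sq_add_cos_sq y
    have h2 := Real.sin_sq_add_cos_sq ϑ
    have h3 : t ^ 2 = (t * Real.cos y) ^ 2 + (t * Real.sin y) ^ 2 := by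
      linear_combination (-t ^ 2) * h1
    rw [h3, hc, hs]
    linear_combination ρ ^ 2 * h2
  have hpos : 0 ≤ ρ * Real.cos ϑ := by positivity
  refine ⟨?_, ?_, ?_, ?_⟩
  · by_contra hcon
    push Not at hcon
    nlinarith
  · have h1 : t ≤ 1 + ρ * (1 + Real.cos ϑ) / 2 := by
      apply le_of_sq_le_sq _ (by positivity)
      rw [hsq]
      have h2 : 0 ≤ (1 - Real.cos ϑ) * ρ * (4 - ρ * (3 + Real.cos ϑ)) := by
        apply mul_nonneg (mul_nonneg (by linarith) hρ0.le)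
        nlinarith
      nlinarith
    linarith
  · -- `sin y = ρ sin (ϑ - y)`
    have h1 : Real.sin y = ρ * Real.sin (ϑ - y) := by
      rw [Real.sin_sub]
      have : Real.sin y * (t * Real.cos y) = Real.sin y * (1 + ρ * Real.cos ϑ) := by rw [hc]
      have h2 : Real.cos y * (t * Real.sin y) = Real.cos y * (ρ * Real.sin ϑ) := by rw [hs]
      linarith
    by_contra hcon
    push Not at hcon
    rcases le_or_gt ϑ y with h2 | h2
    · have h3 : Real.sin (ϑ - y) ≤ 0 :=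
        Real.sin_nonpos_of_nonpos_of_neg_pi_le (by linarith) (by linarith)
      have h4 : 0 < Real.sin y := Real.sin_pos_of_pos_of_lt_pi (by linarith) (by linarith)
      nlinarith
    · have h3 : Real.sin (ϑ - y) < Real.sin y :=
        Real.sin_lt_sin_of_lt_of_le_pi_div_two (by linarith) (by linarith) (by linarith)
      have h4 : 0 ≤ Real.sin (ϑ - y) :=
        Real.sin_nonneg_of_nonneg_of_le_pi (by linarith) (by linarith)
      nlinarith
  · have h1 : y * Real.cos y ≤ Real.sin y := by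
      rcases hy0.eq_or_lt with h | h
      · rw [← h]; simp
      · have h2 := Real.lt_tan h hy1
        have h3 : 0 < Real.cos y := Real.cos_pos_of_mem_Ioo ⟨by linarith, hy1⟩
        rw [Real.tan_eq_sin_div_cos, lt_div_iff₀ h3] at h2
        exact h2.le
    have h2 : Real.sin ϑ ≤ ϑ := Real.sin_le hθ0
    calc y * (1 + ρ * Real.cos ϑ) = t * (y * Real.cos y) := by rw [← hc]; ring
      _ ≤ t * Real.sin y := mul_le_mul_of_nonneg_left h1 ht0.le
      _ = ρ * Real.sin ϑ := hs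
      _ ≤ ρ * ϑ := mul_le_mul_of_nonneg_left h2 hρ0.le

/-- the criterion `NP (π/(2k) + τ) ≥ 0` -/
theorem shB_NP {k P φ τ T ρ t ϑ S σ : ℝ} (hk : 2 < k) (hρ0 : 0 < ρ) (ht0 : 0 < t)
    (hT : T = t ^ (2 / k)) (hT1 : 1 ≤ T) (hτ : 0 ≤ τ) (hτφ : τ ≤ φ)
    (hθτ : 2 * (k * τ) ≤ ϑ) (hΛ : Real.pi / (2 * k) + ϑ / k ≤ Real.pi / 2)
    (hφ : φ ≤ Real.pi / 2)
    (hN : T * Real.sin (φ - 2 * τ) + Real.sin φ ≤ S + P * σ)
    (hc : Real.cos (Real.pi / (2 * k) + ϑ / k) / Real.cos τ * (S + P * σ) +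
        P * (t / ρ) ^ (1 / k) * Real.sin (Real.pi / (2 * k) + τ) -
        P * Real.sin (Real.pi / (2 * k) + ϑ / k - 2 * τ) ≤
      (ρ * t) ^ (1 / k) * Real.sin (3 * (Real.pi / (2 * k)) + 2 * (ϑ / k) - τ)) :
    0 ≤ NP ((ρ / t) ^ (1 / k)) T P φ τ ((Real.pi + ϑ) / k) (Real.pi / (2 * k) + τ) := by
  have hpi := Real.pi_pos
  have hk0 : 0 < k := by linarith
  set γ := Real.pi / (2 * k) with hγ
  have hγ0 : 0 < γ := by positivity
  have e0 : (Real.pi + ϑ) / k = 2 * γ + ϑ / k := by rw [hγ]; field_simp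
  have hτ2 : 2 * τ ≤ ϑ / k := by rw [le_div_iff₀ hk0]; linarith
  unfold NP
  rw [e0]
  have e1 : 2 * (2 * γ + ϑ / k) - (γ + τ) = 3 * γ + 2 * (ϑ / k) - τ := by ring
  have e2 : 2 * γ + ϑ / k + τ - (γ + τ) = γ + ϑ / k := by ring
  have e3 : 2 * γ + ϑ / k - τ + 2 * φ - (γ + τ) = γ + ϑ / k + 2 * (φ - τ) := by ring
  have e4 : 2 * γ + ϑ / k - τ - (γ + τ) = γ + ϑ / k - 2 * τ := by ring
  rw [e1, e2, e3, e4]
  have hat : (ρ / t) ^ (1 / k) * T = (ρ * t) ^ (1 / k) := by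
    rw [hT, Real.div_rpow hρ0.le ht0.le, Real.mul_rpow hρ0.le ht0.le]
    have : t ^ (2 / k) = t ^ (1 / k) * t ^ (1 / k) := by
      rw [← Real.rpow_add ht0]
      congr 1
      ring
    rw [this]
    have h1 : t ^ (1 / k) ≠ 0 := (Real.rpow_pos_of_pos ht0 _).ne'
    field_simp
  have hPa : P / (ρ / t) ^ (1 / k) = P * (t / ρ) ^ (1 / k) := by
    rw [div_eq_mul_inv, ← Real.inv_rpow (by positivity), inv_div]
  rw [hat, hPa]
  have h4 := shB_trig (T := T) (β := φ - τ) (τ := τ) (χ := γ + ϑ / k) hT1 (by linarith) hτ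
    (by linarith) hΛ (by linarith) (by linarith)
  have e5 : φ - τ - τ = φ - 2 * τ := by ring
  have e6 : φ - τ + τ = φ := by ring
  rw [e5, e6] at h4
  have cτ : 0 < Real.cos τ := Real.cos_pos_of_mem_Ioo ⟨by linarith, by linarith⟩
  have cΛ : 0 ≤ Real.cos (γ + ϑ / k) := Real.cos_nonneg_of_mem_Icc ⟨by linarith, hΛ⟩
  have h5 : Real.sin (γ + ϑ / k + 2 * (φ - τ)) - T * Real.sin (γ + ϑ / k) ≤
      Real.cos (γ + ϑ / k) / Real.cos τ * (S + P * σ) := by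
    rw [div_mul_eq_mul_div, le_div_iff₀ cτ]
    have := mul_le_mul_of_nonneg_left hN cΛ
    linarith
  linarith

/-- `E`-bound -/
theorem shB_E {k f ϑ ρ T φ τ : ℝ} (hk1 : 5 / 2 ≤ k) (hf1 : f ≤ Real.pi / 2) (hρ0 : 0 < ρ)
    (hρ1 : ρ ≤ 1) (hθ0 : 0 ≤ ϑ) (hθf : ϑ < f) (hT1 : 1 ≤ T)
    (hT2 : T ≤ 1 + 1 / k * (ρ * (1 + Real.cos ϑ))) (hτ : 0 ≤ τ) (hβ : τ ≤ φ)
    (hτ2 : τ < Real.pi / 2) (hφ2 : φ < Real.pi / 2)
    (b6 : k * (φ - τ) ≤ f - ϑ) (y2 : k * τ * (1 + ρ * Real.cos ϑ) ≤ ρ * ϑ) :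
    T * Real.cos (φ - 2 * τ) - Real.cos φ ≤ 2 * ρ / k * (1 + 1 / k * ((f - ϑ) * ϑ)) := by
  have hpi := Real.pi_pos
  have k0 : 0 < k := by linarith
  have hκ0 : 0 < 1 / k := by positivity
  have hκ1 : 1 / k ≤ 2 / 5 := by rw [div_le_div_iff₀ k0 (by norm_num)]; linarith
  have hcθ : 0 < Real.cos ϑ := Real.cos_pos_of_mem_Ioo ⟨by linarith, by linarith⟩
  have hcθ1 := Real.cos_le_one ϑ
  have e1 : T * Real.cos (φ - 2 * τ) - Real.cos φ =
      (T - 1) * (Real.cos (φ - τ) * Real.cos τ) + (T + 1) * (Real.sin (φ - τ) * Real.sin τ) := by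
    have e2 : φ - 2 * τ = (φ - τ) - τ := by ring
    have e3 : Real.cos φ = Real.cos ((φ - τ) + τ) := by congr 1; ring
    rw [e2, e3, Real.cos_sub (φ - τ) τ, Real.cos_add (φ - τ) τ]
    ring
  rw [e1]
  have b1 : Real.cos (φ - τ) * Real.cos τ ≤ 1 := by
    have b0 : 0 ≤ Real.cos τ := Real.cos_nonneg_of_mem_Icc ⟨by linarith, by linarith⟩
    have := mul_le_mul (Real.cos_le_one (φ - τ)) (Real.cos_le_one τ) b0 zero_le_one
    linarith
  have b2 : (T - 1) * (Real.cos (φ - τ) * Real.cos τ) ≤ 1 / k * (ρ * (1 + Real.cos ϑ)) := by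
    calc (T - 1) * (Real.cos (φ - τ) * Real.cos τ) ≤ (T - 1) * 1 :=
          mul_le_mul_of_nonneg_left b1 (by linarith)
      _ ≤ _ := by linarith
  have sτ : 0 ≤ Real.sin τ := Real.sin_nonneg_of_nonneg_of_le_pi hτ (by linarith)
  have b3 : Real.sin (φ - τ) * Real.sin τ ≤ (φ - τ) * τ := by
    apply mul_le_mul (Real.sin_le (by linarith)) (Real.sin_le hτ) sτ (by linarith)
  have hkτ0 : 0 ≤ k * τ := mul_nonneg k0.le hτ
  have b8 : k * (φ - τ) * (k * τ * (1 + ρ * Real.cos ϑ)) ≤ (f - ϑ) * (ρ * ϑ) := by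
    apply mul_le_mul b6 y2 _ (by linarith)
    have : 0 ≤ 1 + ρ * Real.cos ϑ := by positivity
    positivity
  have b9 : (φ - τ) * τ * (1 + ρ * Real.cos ϑ) ≤ 1 / k * (ρ / k * ((f - ϑ) * ϑ)) := by
    have e2 : (φ - τ) * τ * (1 + ρ * Real.cos ϑ) =
        1 / k * (1 / k * (k * (φ - τ) * (k * τ * (1 + ρ * Real.cos ϑ)))) := by
      field_simp
    have e3 : 1 / k * (ρ / k * ((f - ϑ) * ϑ)) = 1 / k * (1 / k * ((f - ϑ) * (ρ * ϑ))) := by
      ring
    rw [e2, e3]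
    apply mul_le_mul_of_nonneg_left _ hκ0.le
    exact mul_le_mul_of_nonneg_left b8 hκ0.le
  have hβτ : 0 ≤ (φ - τ) * τ := mul_nonneg (by linarith) hτ
  have e4 : 2 * ρ / k * (1 + 1 / k * ((f - ϑ) * ϑ)) =
      2 * ρ / k + 2 * (1 / k * (ρ / k * ((f - ϑ) * ϑ))) := by
    ring
  rw [e4]
  have hρk : 0 < ρ / k := by positivity
  have hfθ : 0 ≤ (f - ϑ) * ϑ := mul_nonneg (by linarith) hθ0
  have c2 : (T + 1) * (Real.sin (φ - τ) * Real.sin τ) ≤ (T + 1) * ((φ - τ) * τ) :=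
    mul_le_mul_of_nonneg_left b3 (by linarith)
  rcases le_or_gt (1 / 4) (Real.cos ϑ) with hq | hq
  · have c1 : T + 1 ≤ 2 * (1 + ρ * Real.cos ϑ) := by
      have : 1 / k * (ρ * (1 + Real.cos ϑ)) ≤ 2 / 5 * (ρ * (1 + Real.cos ϑ)) :=
        mul_le_mul_of_nonneg_right hκ1 (by positivity)
      have : ρ * (2 / 5 * (1 + Real.cos ϑ)) ≤ ρ * (2 * Real.cos ϑ) :=
        mul_le_mul_of_nonneg_left (by linarith) hρ0.le
      linarith
    have c3 : (T + 1) * ((φ - τ) * τ) ≤ 2 * (1 + ρ * Real.cos ϑ) * ((φ - τ) * τ) :=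
      mul_le_mul_of_nonneg_right c1 hβτ
    have c4 : 1 / k * (ρ * (1 + Real.cos ϑ)) ≤ 2 * ρ / k := by
      have e5 : 2 * ρ / k = 1 / k * (ρ * 2) := by ring
      rw [e5]
      apply mul_le_mul_of_nonneg_left _ hκ0.le
      exact mul_le_mul_of_nonneg_left (by linarith) hρ0.le
    linarith
  · have c1 : T + 1 ≤ 5 / 2 := by
      have : 1 / k * (ρ * (1 + Real.cos ϑ)) ≤ 2 / 5 * (1 * (1 + 1 / 4)) := by
        apply mul_le_mul hκ1 _ (by positivity) (by norm_num)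
        apply mul_le_mul hρ1 (by linarith) (by positivity) (by norm_num)
      linarith
    have c3 : (T + 1) * ((φ - τ) * τ) ≤ 5 / 2 * ((φ - τ) * τ) :=
      mul_le_mul_of_nonneg_right c1 hβτ
    have c5 : (φ - τ) * τ ≤ (φ - τ) * τ * (1 + ρ * Real.cos ϑ) := by
      have : 0 ≤ (φ - τ) * τ * (ρ * Real.cos ϑ) := by positivity
      linarith
    have c4 : 1 / k * (ρ * (1 + Real.cos ϑ)) ≤ 5 / 4 * (ρ / k) := by
      have e5 : 5 / 4 * (ρ / k) = 1 / k * (ρ * (5 / 4)) := by ring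
      rw [e5]
      apply mul_le_mul_of_nonneg_left _ hκ0.le
      exact mul_le_mul_of_nonneg_left (by linarith) hρ0.le
    have c6 : 1 / k * (ρ / k * ((f - ϑ) * ϑ)) ≤ 2 / 5 * (ρ / k * 1) := by
      apply mul_le_mul hκ1 _ (by positivity) (by norm_num)
      apply mul_le_mul_of_nonneg_left _ hρk.le
      have c7 : (f - ϑ) * ϑ ≤ f ^ 2 / 4 := by
        have := sq_nonneg (f - 2 * ϑ)
        linarith
      have c8 : f ^ 2 ≤ (Real.pi / 2) ^ 2 := pow_le_pow_left₀ (by linarith) hf1 2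
      have c9 : Real.pi ^ 2 ≤ (63 / 20) ^ 2 :=
        pow_le_pow_left₀ hpi.le (by linarith [Real.pi_lt_d2]) 2
      linarith
    have e6 : 2 * ρ / k = 2 * (ρ / k) := by ring
    rw [e6]
    linarith

/-- `Z ≥ 2` -/
theorem shB_Z {k A φ c1 : ℝ} (hk1 : 5 / 2 ≤ k) (hk3 : k ≤ 3) (hA : 0 < A) (hφ : 0 < φ)
    (hAφ : A + φ ≤ Real.pi / 2 - Real.pi * (1 / k))
    (hc1d : c1 = Real.cos (Real.pi / (2 * k)) / (k * φ) ^ (1 / k)) :
    2 ≤ 2 * c1 * Real.cos A ^ 2 + Real.cos φ := by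
  have hpi := Real.pi_pos
  have hpi3 := Real.pi_gt_d4
  have hpi4 := Real.pi_lt_d4
  have k0 : 0 < k := by linarith
  have hκ0 : 0 < 1 / k := by positivity
  have hκ1 : 1 / k ≤ 2 / 5 := by rw [div_le_div_iff₀ k0 (by norm_num)]; linarith
  have hκ3 : 1 / 3 ≤ 1 / k := one_div_le_one_div_of_le k0 hk3
  have hκ3' := mul_le_mul_of_nonneg_left hκ3 hpi.le
  have hφ6 : φ ≤ 5236 / 10000 := by linarith
  have hA6 : A ≤ 5236 / 10000 := by linarith
  have hG0 : 0 < k * φ := by positivity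
  have hGk : 0 < (k * φ) ^ (1 / k) := Real.rpow_pos_of_pos hG0 _
  have hcγ : 8026 / 10000 ≤ Real.cos (Real.pi / (2 * k)) := by
    have h2 := Real.one_sub_sq_div_two_le_cos (x := Real.pi / (2 * k))
    have e1 : Real.pi / (2 * k) = Real.pi / 2 * (1 / k) := by field_simp
    have h4 : Real.pi / (2 * k) ≤ 62832 / 100000 := by
      rw [e1]
      have := mul_le_mul_of_nonneg_left hκ1 (by positivity : 0 ≤ Real.pi / 2)
      linarith
    have h3 : (Real.pi / (2 * k)) ^ 2 ≤ (62832 / 100000) ^ 2 :=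
      pow_le_pow_left₀ (by positivity) h4 2
    linarith
  have h2 := Real.one_sub_sq_div_two_le_cos (x := φ)
  have h3 : φ ^ 2 ≤ (5236 / 10000) ^ 2 := pow_le_pow_left₀ hφ.le hφ6 2
  have hsA : 0 ≤ Real.sin A := Real.sin_nonneg_of_nonneg_of_le_pi hA.le (by linarith)
  have h4 : 67 / 100 ≤ c1 * Real.cos A ^ 2 := by
    have h5 := rpow_one_add_le_one_add_mul_self (s := k * φ - 1) (p := 1 / k) (by linarith)
      hκ0.le (by linarith)
    have e1 : 1 + (k * φ - 1) = k * φ := by ring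
    have e2 : 1 / k * (k * φ - 1) = φ - 1 / k := by field_simp
    rw [e1, e2] at h5
    have h6 : (k * φ) ^ (1 / k) ≤ 11904 / 10000 - A := by linarith
    have h7 : 1 - A ^ 2 ≤ Real.cos A ^ 2 := by
      rw [Real.cos_sq']
      have h8 : Real.sin A ^ 2 ≤ A ^ 2 := pow_le_pow_left₀ hsA (Real.sin_le hA.le) 2
      linarith
    have h9 : A ^ 2 ≤ A * (5236 / 10000) := by
      rw [sq]
      exact mul_le_mul_of_nonneg_left hA6 hA.le
    rw [hc1d, div_mul_eq_mul_div, le_div_iff₀ hGk]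
    calc 67 / 100 * (k * φ) ^ (1 / k) ≤ 67 / 100 * (11904 / 10000 - A) :=
          mul_le_mul_of_nonneg_left h6 (by norm_num)
      _ ≤ 8026 / 10000 * (1 - A ^ 2) := by linarith
      _ ≤ Real.cos (Real.pi / (2 * k)) * Real.cos A ^ 2 := by
          apply mul_le_mul hcγ h7 _ (by linarith)
          linarith
  linarith

/-- the angles -/
theorem shB_ang {k γ B τ ϑ f E σ : ℝ} (hk1 : 5 / 2 ≤ k) (hk3 : k ≤ 3)
    (hγ : γ = Real.pi / (2 * k)) (hf : f = (k - 2) * (Real.pi / 2)) (hθ0 : 0 ≤ ϑ) (hθf : ϑ < f)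
    (hB : B = f / k - ϑ / k) (hτ : 0 ≤ τ) (hτ2 : 2 * τ ≤ ϑ / k)
    (hE : E = 1 + 1 / k * ((f - ϑ) * ϑ)) (hσ0 : 0 ≤ σ) (hσ1 : σ ≤ 1 / 2) :
    Real.cos (γ + ϑ / k) = Real.sin (γ + B) ∧
      Real.sin (3 * γ + 2 * (ϑ / k) - τ) = Real.sin (γ + τ + 2 * B) ∧
      0 < Real.cos τ ∧ 0 ≤ Real.sin (γ + B) ∧
      Real.sin (γ + B) / Real.cos τ ≤ Real.sin (γ + τ + 2 * B) ∧
      E * Real.sin (γ + τ) ≤ Real.sin (γ + τ + 2 * B) ∧
      Real.sin (γ + B) / Real.cos τ * σ ≤ Real.sin (γ + ϑ / k - 2 * τ) ∧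
      γ + ϑ / k ≤ Real.pi / 2 := by
  have hpi := Real.pi_pos
  have hpi4 := Real.pi_lt_d4
  have k0 : 0 < k := by linarith
  have hκ1 : 1 / k ≤ 2 / 5 := by rw [div_le_div_iff₀ k0 (by norm_num)]; linarith
  have hκ3 : 1 / 3 ≤ 1 / k := one_div_le_one_div_of_le k0 hk3
  have hκ0 : 0 < 1 / k := by positivity
  have hγ1 : γ = Real.pi / 2 * (1 / k) := by rw [hγ]; field_simp
  have hγ6 : Real.pi / 6 ≤ γ := by
    rw [hγ1]
    have := mul_le_mul_of_nonneg_left hκ3 (by positivity : 0 ≤ Real.pi / 2)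
    linarith
  have hγ5 : γ ≤ Real.pi / 5 := by
    rw [hγ1]
    have := mul_le_mul_of_nonneg_left hκ1 (by positivity : 0 ≤ Real.pi / 2)
    linarith
  have hκf3 : f / k = Real.pi / 2 - 2 * γ := by rw [hf, hγ]; field_simp
  have hθk : 0 ≤ ϑ / k := by positivity
  have hθk2 : ϑ / k < f / k := by
    rw [div_lt_div_iff_of_pos_right k0]; exact hθf
  have hB0 : 0 < B := by rw [hB]; linarith
  have hB6 : B ≤ Real.pi / 6 := by rw [hB]; linarith
  have hB2 : B = Real.pi / 2 - 2 * γ - ϑ / k := by rw [hB, hκf3]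
  have hcτ : 0 < Real.cos τ := Real.cos_pos_of_mem_Ioo ⟨by linarith, by linarith⟩
  have hΛ1 : γ + ϑ / k = Real.pi / 2 - (γ + B) := by rw [hB2]; ring
  have hsγB : 0 < Real.sin (γ + B) := Real.sin_pos_of_pos_of_lt_pi (by linarith) (by linarith)
  have hSgle : Real.sin (γ + B) ≤ Real.sin (γ + τ + 2 * B) * Real.cos τ := by
    have e1 : Real.sin (γ + τ + 2 * B) * Real.cos τ =
        (Real.sin (γ + 2 * B + 2 * τ) + Real.sin (γ + 2 * B)) / 2 := by
      have e2 : γ + 2 * B + 2 * τ = (γ + τ + 2 * B) + τ := by ring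
      have e3 : γ + 2 * B = (γ + τ + 2 * B) - τ := by ring
      rw [e2, e3, Real.sin_add (γ + τ + 2 * B) τ, Real.sin_sub (γ + τ + 2 * B) τ]
      ring
    have e4 : Real.sin (γ + B) ≤ Real.sin (γ + 2 * B + 2 * τ) :=
      sin_le_sin_sum (by linarith) (by linarith) (by linarith)
    have e5 : Real.sin (γ + B) ≤ Real.sin (γ + 2 * B) :=
      sin_le_sin_sum (by linarith) (by linarith) (by linarith)
    rw [e1]
    linarith
  have hC : Real.sin (γ + B) / Real.cos τ ≤ Real.sin (γ + τ + 2 * B) := by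
    rw [div_le_iff₀ hcτ]
    exact hSgle
  have hγτ : γ + τ ≤ Real.pi / 4 := by linarith
  have hsγτ : 0 ≤ Real.sin (γ + τ) :=
    Real.sin_nonneg_of_nonneg_of_le_pi (by linarith) (by linarith)
  refine ⟨?_, ?_, hcτ, hsγB.le, hC, ?_, ?_, ?_⟩
  · rw [hΛ1, Real.cos_pi_div_two_sub]
  · rw [← Real.sin_pi_sub]
    congr 1
    rw [hB2]
    ring
  · have h2 : Real.sin (γ + τ) ≤ Real.cos (γ + τ) := by
      rw [← Real.sin_pi_div_two_sub]
      exact Real.sin_le_sin_of_le_of_le_pi_div_two (by linarith) (by linarith) (by linarith)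
    have hs2B : 0 ≤ Real.sin (2 * B) :=
      Real.sin_nonneg_of_nonneg_of_le_pi (by linarith) (by linarith)
    rw [Real.sin_add (γ + τ) (2 * B)]
    have h3 : E ≤ Real.cos (2 * B) + Real.sin (2 * B) := by
      have h4 := Real.one_sub_sq_div_two_le_cos (x := 2 * B)
      have h5 := Real.sin_gt_sub_cube (x := 2 * B) (by linarith)
      have e1 : E = 1 + B * ϑ := by rw [hE, hB]; ring
      have h6 : ϑ ≤ Real.pi / 2 - 5 / 2 * B := by
        have e2 : ϑ = f - k * B := by rw [hB]; field_simp; ring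
        have h7 : 5 / 2 * B ≤ k * B := mul_le_mul_of_nonneg_right hk1 hB0.le
        have h8 : f ≤ Real.pi / 2 := by
          rw [hf]
          have := mul_le_mul_of_nonneg_right (by linarith : k - 2 ≤ 1)
            (by positivity : 0 ≤ Real.pi / 2)
          linarith
        linarith
      have h7 : B * ϑ ≤ B * (Real.pi / 2 - 5 / 2 * B) := mul_le_mul_of_nonneg_left h6 hB0.le
      have h8 : B ≤ 5236 / 10000 := by linarith
      have h10 : B ^ 2 ≤ B * (5236 / 10000) := by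
        rw [sq]
        exact mul_le_mul_of_nonneg_left h8 hB0.le
      have h9 : 0 ≤ B * (2 - 2 * B - 4 / 3 * B ^ 2 - (Real.pi / 2 - 5 / 2 * B)) := by
        apply mul_nonneg hB0.le
        linarith
      rw [e1]
      linarith
    have h4 : E * Real.sin (γ + τ) ≤ (Real.cos (2 * B) + Real.sin (2 * B)) * Real.sin (γ + τ) :=
      mul_le_mul_of_nonneg_right h3 hsγτ
    have h5 : Real.sin (2 * B) * Real.sin (γ + τ) ≤ Real.sin (2 * B) * Real.cos (γ + τ) :=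
      mul_le_mul_of_nonneg_left h2 hs2B
    linarith
  · have h2 : Real.sin (γ + B) / Real.cos τ ≤ 1 := hC.trans (Real.sin_le_one _)
    have h3 : Real.sin (γ + B) / Real.cos τ * σ ≤ 1 * (1 / 2) :=
      mul_le_mul h2 hσ1 hσ0 (by norm_num)
    have h4 : Real.sin (Real.pi / 6) ≤ Real.sin (γ + ϑ / k - 2 * τ) :=
      Real.sin_le_sin_of_le_of_le_pi_div_two (by linarith) (by linarith) (by linarith)
    rw [Real.sin_pi_div_six] at h4
    linarith
  · linarith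

namespace FsD

variable {k A φ τ η T P S w c : ℝ}

/-- `c1 S ≤ 2 sin A`, `c1 = cos γ / (kφ)^{1/k}` -/
theorem c1_S (h : FsD k A φ τ η T P S w c) (hF : k * φ < Real.pi) {c1 : ℝ}
    (hc1 : c1 * (k * φ) ^ (1 / k) = Real.cos (Real.pi / (2 * k))) :
    c1 * Real.cos A ≤ c ∧ c1 * S ≤ 2 * Real.sin A := by
  have hGk : 0 < (k * φ) ^ (1 / k) := Real.rpow_pos_of_pos (mul_pos h.k0 h.φ0) _
  have hcA := h.cosA
  have hc1c : c1 * Real.cos A ≤ c := by
    have h2 := h.c1_le hF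
    rw [← hc1] at h2
    have h3 : (k * φ) ^ (1 / k) * (c1 * Real.cos A) ≤ (k * φ) ^ (1 / k) * c := by linarith
    exact le_of_mul_le_mul_left h3 hGk
  refine ⟨hc1c, ?_⟩
  have h2 := h.cS
  rw [Real.sin_two_mul] at h2
  have h3 : c1 * Real.cos A * S ≤ c * S := mul_le_mul_of_nonneg_right hc1c h.S0.le
  have h4 : Real.cos A * (c1 * S) ≤ Real.cos A * (2 * Real.sin A) := by linarith
  exact le_of_mul_le_mul_left h4 hcA

/-- the joint bound of `S`, `P` -/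
theorem c1_J (h : FsD k A φ τ η T P S w c) {c1 : ℝ} (hc10 : 0 ≤ c1)
    (hc1c : c1 * Real.cos A ≤ c) (hS1 : c1 * S ≤ 2 * Real.sin A) :
    c1 * S ^ 2 / 2 + P * (2 * c1 * Real.cos A ^ 2 + Real.cos φ) ≤
      T * Real.cos (φ - 2 * τ) - Real.cos φ := by
  have hcA := h.cosA
  have hP := h.P0
  have hS0 := h.S0
  have h2 := h.rotc A
  have e1 : A + φ - 2 * τ - A = φ - 2 * τ := by ring
  have e2 : A - φ - A = -φ := by ring
  have e3 : A + φ - A = φ := by ring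
  rw [e1, e2, e3, Real.cos_neg] at h2
  rw [h2]
  have h3 : c1 * S ^ 2 / 2 ≤ S * Real.sin A := by
    have := mul_le_mul_of_nonneg_left hS1 hS0.le
    linarith
  have h4 : P * (2 * c1 * Real.cos A ^ 2) ≤ w * Real.cos A := by
    calc P * (2 * c1 * Real.cos A ^ 2) = 2 * (c1 * Real.cos A) * P * Real.cos A := by ring
      _ ≤ 2 * c * P * Real.cos A := by
          apply mul_le_mul_of_nonneg_right _ hcA.le
          apply mul_le_mul_of_nonneg_right _ hP.le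
          linarith
      _ ≤ _ := mul_le_mul_of_nonneg_right h.cw hcA.le
  rw [mul_add]
  linarith

/-- `T sin (φ - 2τ) + sin φ ≤ S + P σ` -/
theorem N_le (h : FsD k A φ τ η T P S w c) :
    T * Real.sin (φ - 2 * τ) + Real.sin φ ≤
      S + P * max (Real.sin φ - 2 * c * Real.sin A) 0 := by
  have hsA := h.sinA
  have h2 := h.rot A
  have e1 : A + φ - 2 * τ - A = φ - 2 * τ := by ring
  have e2 : φ + A - A = φ := by ring
  have e3 : A + φ - A = φ := by ring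
  rw [e1, e2, e3] at h2
  rw [h2]
  have h3 : S * Real.cos A ≤ S * 1 := mul_le_mul_of_nonneg_left (Real.cos_le_one A) h.S0.le
  have h4 : 2 * c * P * Real.sin A ≤ w * Real.sin A := mul_le_mul_of_nonneg_right h.cw hsA.le
  have h5 : P * (Real.sin φ - 2 * c * Real.sin A) ≤
      P * max (Real.sin φ - 2 * c * Real.sin A) 0 :=
    mul_le_mul_of_nonneg_left (le_max_left _ _) h.P0.le
  linarith

/-- sheets `F_2 ≥ π` for `5/2 ≤ k ≤ 3` -/
theorem shB (h : FsD k A φ τ η T P S w c) (hk1 : 5 / 2 ≤ k) (hk3 : k ≤ 3) {ρ t ϑ : ℝ}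
    (hρ0 : 0 < ρ) (hρ1 : ρ ≤ 1) (ht0 : 0 < t) (hT : T = t ^ (2 / k)) (hθ0 : 0 ≤ ϑ) (hτ : 0 ≤ τ)
    (hc : t * Real.cos (k * τ) = 1 + ρ * Real.cos ϑ) (hs : t * Real.sin (k * τ) = ρ * Real.sin ϑ)
    (hsum : A + φ - τ + (Real.pi + ϑ) / k < Real.pi / 2) :
    0 ≤ NP ((ρ / t) ^ (1 / k)) T P φ τ ((Real.pi + ϑ) / k) (Real.pi / (2 * k) + τ) := by
  have hpi := Real.pi_pos
  have k0 := h.k0
  have hk := h.hk
  have hA := h.A0
  have hφ := h.φ0
  have hP := h.P0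
  have hS0 := h.S0
  obtain ⟨f, hf⟩ : ∃ f, f = (k - 2) * (Real.pi / 2) := ⟨_, rfl⟩
  have hf1 : f ≤ Real.pi / 2 := by
    rw [hf]
    have := mul_le_mul_of_nonneg_right (by linarith : k - 2 ≤ 1)
      (by positivity : 0 ≤ Real.pi / 2)
    linarith
  have h1 : k * (A + φ - τ) < f - ϑ := by
    have h2 : k * (A + φ - τ + (Real.pi + ϑ) / k) < k * (Real.pi / 2) :=
      mul_lt_mul_of_pos_left hsum k0
    have e1 : k * (A + φ - τ + (Real.pi + ϑ) / k) = k * (A + φ - τ) + (Real.pi + ϑ) := by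
      field_simp
    rw [e1] at h2
    rw [hf]
    linarith
  have hA20 : 0 < k * (A + φ - τ) := mul_pos k0 h.A20
  have hθf : ϑ < f := by linarith
  have hkτ0 : 0 ≤ k * τ := mul_nonneg k0.le hτ
  have hkτ := (abs_lt.1 h.τ2).2
  obtain ⟨t1, t2, y1, y2⟩ := shB_geo hρ0 hρ1 ht0 hθ0 (by linarith) hkτ0 hkτ hc hs
  have hT1 : 1 ≤ T := by rw [hT]; exact Real.one_le_rpow t1 (by positivity)
  have hκ0 : 0 < 1 / k := by positivity
  have hκ : 1 / k ≤ 1 / 2 := one_div_le_one_div_of_le (by norm_num) hk.le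
  have hT2 : T ≤ 1 + 1 / k * (ρ * (1 + Real.cos ϑ)) := by
    have h2 := rpow_one_add_le_one_add_mul_self (s := t - 1) (p := 2 / k) (by linarith)
      (by positivity) (by rw [div_le_one k0]; linarith)
    have e1 : 1 + (t - 1) = t := by ring
    rw [e1] at h2
    rw [hT]
    have h3 : 2 / k * (t - 1) ≤ 2 / k * (ρ * (1 + Real.cos ϑ) / 2) :=
      mul_le_mul_of_nonneg_left t2 (by positivity)
    have e2 : 2 / k * (ρ * (1 + Real.cos ϑ) / 2) = 1 / k * (ρ * (1 + Real.cos ϑ)) := by ring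
    linarith
  have hβ := h.τ_lt hτ
  have hkA : 0 < k * A := mul_pos k0 hA
  have hsum2 : k * A + k * φ < f - ϑ / 2 := by
    have e1 : k * (A + φ - τ) = k * A + k * φ - k * τ := by ring
    linarith
  have hG1 : k * φ < f - ϑ / 2 := by linarith
  have hG0 : 0 < k * φ := mul_pos k0 hφ
  have hFpi : k * φ < Real.pi := by linarith
  have hκf : f / k = Real.pi / 2 - Real.pi * (1 / k) := by rw [hf]; field_simp
  have hθk : 0 ≤ ϑ / k := by positivity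
  have hAφ : A + φ ≤ f / k := by
    have h2 : k * (A + φ) ≤ k * (f / k) := by
      have e1 : k * (f / k) = f := by field_simp
      rw [e1]
      linarith
    exact le_of_mul_le_mul_left h2 k0
  have hκ3 : 1 / 3 ≤ 1 / k := one_div_le_one_div_of_le k0 hk3
  have hφ6 : φ ≤ Real.pi / 6 := by
    have := mul_le_mul_of_nonneg_left hκ3 hpi.le
    linarith
  have hτ2 : 2 * τ ≤ ϑ / k := by rw [le_div_iff₀ k0]; linarith
  obtain ⟨E, hE⟩ : ∃ E, E = 1 + 1 / k * ((f - ϑ) * ϑ) := ⟨_, rfl⟩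
  have hE0 : 0 < E := by
    rw [hE]
    have : 0 ≤ (f - ϑ) * ϑ := mul_nonneg (by linarith) hθ0
    positivity
  have hEb : T * Real.cos (φ - 2 * τ) - Real.cos φ ≤ 2 * ρ / k * E := by
    rw [hE]
    refine shB_E hk1 hf1 hρ0 hρ1 hθ0 hθf hT1 hT2 hτ hβ.le (by linarith) (by linarith) ?_ y2
    have e2 : k * (A + φ - τ) = k * A + k * (φ - τ) := by ring
    linarith
  have hGk : 0 < (k * φ) ^ (1 / k) := Real.rpow_pos_of_pos hG0 _
  obtain ⟨c1, hc1d⟩ : ∃ c1, c1 = Real.cos (Real.pi / (2 * k)) / (k * φ) ^ (1 / k) := ⟨_, rfl⟩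
  have hc1 : c1 * (k * φ) ^ (1 / k) = Real.cos (Real.pi / (2 * k)) := by
    rw [hc1d, div_mul_cancel₀ _ hGk.ne']
  obtain ⟨hc1c, hS1⟩ := h.c1_S hFpi hc1
  have hcγ : 0 < Real.cos (Real.pi / (2 * k)) := by
    apply Real.cos_pos_of_mem_Ioo
    have : 0 < Real.pi / (2 * k) := by positivity
    refine ⟨by linarith, ?_⟩
    rw [div_lt_div_iff₀ (by positivity) (by norm_num)]
    have : Real.pi * 2 < Real.pi * (2 * k) := mul_lt_mul_of_pos_left (by linarith) hpi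
    exact this
  have hc10 : 0 < c1 := by rw [hc1d]; positivity
  have hS2 : c1 * S ≤ 2 / k * (f - ϑ / 2 - k * φ) := by
    have h2 := Real.sin_le hA.le
    have h3 : 2 / k * (k * A) ≤ 2 / k * (f - ϑ / 2 - k * φ) :=
      mul_le_mul_of_nonneg_left (by linarith) (by positivity)
    have e1 : 2 / k * (k * A) = 2 * A := by field_simp
    linarith
  have hSX := shB_S hk1 hk3 hf hθ0 hθf.le hG0 hG1 hS0 hc1 hS2
  rw [← hE] at hSX
  obtain ⟨Z, hZ⟩ : ∃ Z, Z = 2 * c1 * Real.cos A ^ 2 + Real.cos φ := ⟨_, rfl⟩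
  have hZ2 : 2 ≤ Z := by
    rw [hZ]
    exact shB_Z hk1 hk3 hA hφ (by linarith) hc1d
  have hJ := h.c1_J hc10.le hc1c hS1
  rw [← hZ] at hJ
  have hN := h.N_le
  obtain ⟨σ, hσ⟩ : ∃ σ, σ = max (Real.sin φ - 2 * c * Real.sin A) 0 := ⟨_, rfl⟩
  rw [← hσ] at hN
  have hσ1 : σ ≤ 1 / 2 := by
    rw [hσ]
    apply max_le _ (by norm_num)
    have h2 : Real.sin φ ≤ Real.sin (Real.pi / 6) :=
      Real.sin_le_sin_of_le_of_le_pi_div_two (by linarith) (by linarith) hφ6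
    rw [Real.sin_pi_div_six] at h2
    have : 0 ≤ 2 * c * Real.sin A := by
      have := h.c0
      have := h.sinA
      positivity
    linarith
  have hσ0 : 0 ≤ σ := by rw [hσ]; exact le_max_right _ _
  obtain ⟨γ, hγ⟩ : ∃ γ, γ = Real.pi / (2 * k) := ⟨_, rfl⟩
  obtain ⟨B, hB⟩ : ∃ B, B = f / k - ϑ / k := ⟨_, rfl⟩
  obtain ⟨a1, a2, a3, a4, a5, a6, a7, a8⟩ := shB_ang hk1 hk3 hγ hf hθ0 hθf hB hτ hτ2 hE hσ0 hσ1
  have hSg0 : 0 ≤ Real.sin (γ + τ + 2 * B) := by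
    have h2 : 0 ≤ Real.sin (γ + B) / Real.cos τ := by positivity
    linarith
  have habs : 2 * E * Real.sin (γ + τ) ≤ Z * Real.sin (γ + τ + 2 * B) := by
    have h2 : 2 * Real.sin (γ + τ + 2 * B) ≤ Z * Real.sin (γ + τ + 2 * B) :=
      mul_le_mul_of_nonneg_right hZ2 hSg0
    linarith
  have hsum' : c1 * S ^ 2 / (4 / k * E) + P * Z / (2 * (1 / k) * E) ≤ ρ := by
    have e1 : c1 * S ^ 2 / (4 / k * E) + P * Z / (2 * (1 / k) * E) =
        (c1 * S ^ 2 / 2 + P * Z) / (2 / k * E) := by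
      field_simp
      ring
    rw [e1, div_le_iff₀ (by positivity)]
    have e2 : ρ * (2 / k * E) = 2 * ρ / k * E := by ring
    rw [e2]
    exact hJ.trans hEb
  have hfin := shB_comb (κ := 1 / k) (ρ := ρ) (t := t) (Sg := Real.sin (γ + τ + 2 * B))
    (CΛ := Real.sin (γ + B) / Real.cos τ) (S := S) (X := c1 * S ^ 2 / (4 / k * E)) (P := P)
    (Z := Z) (E := E) (σ := σ) (s1 := Real.sin (γ + τ)) (s2 := Real.sin (γ + ϑ / k - 2 * τ))
    hκ0 hκ hρ0 hρ1 t1 hSg0 (by positivity) a5 (by positivity) hSX hP.le (by linarith) hE0 hsum'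
    a7 habs
  refine shB_NP hk hρ0 ht0 hT hT1 hτ hβ.le (by linarith) ?_ (by linarith) hN ?_
  · rw [← hγ]
    exact a8
  · rw [← hγ, a1, a2]
    exact hfin

end FsD

end EQS
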