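import Mathlib
import Pool.Agent.Lib.MP_226de1_co.E.TwoNum

/-! Unit disc exit, case PL, sheets `F_2 ≥ 2 pi`: the closed inequality (H2) (`y ≥ 0`). -/

set_option autoImplicit false

namespace EQS

open Real

private theorem c_pi : (3.1415 : ℝ) < π ∧ π < 3.1416 := by
  constructor
  · linarith [Real.pi_gt_d6]
  · linarith [Real.pi_lt_d6]

/-- lower bound of a sine from `x0 ≤ x ≤ pi/2` -/
private theorem c_sin {x x0 : ℝ} (h0 : 0 ≤ x0) (h1 : x0 ≤ x) (h2 : x ≤ π / 2) :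
    x0 - x0 ^ 3 / 6 ≤ Real.sin x := by
  have hpi := Real.pi_pos
  refine (sin_ge3 h0).trans ?_
  apply Real.sin_le_sin_of_le_of_le_pi_div_two <;> linarith

/-- the two-variable trigonometric inequality -/
theorem shC_ab {a b c e : ℝ} (ha : π / 8 ≤ a) (hb : 0 ≤ b) (hab : 3 * a + b ≤ π / 2)
    (hc : 0.5677 ≤ c) (he : e ≤ 0.3669 * b ^ 2) :
    1 + e ≤ c * Real.sin (5 * a + 2 * b) + Real.sin (2 * a + b) := by
  obtain ⟨p1, p2⟩ := c_pi
  have e1 : Real.sin (5 * a + 2 * b) = Real.sin (π - (5 * a + 2 * b)) := (Real.sin_pi_sub _).symm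
  have hL : 2 * a + b ≤ π / 2 := by linarith
  have hω0 : π - (5 * a + 2 * b) ≤ π / 2 := by linarith
  have hω1 : 0.3926 ≤ π - (5 * a + 2 * b) := by linarith
  rcases le_or_gt (5 * a + 2 * b) 2.3 with h1 | h1
  · have s1 := c_sin (x := π - (5 * a + 2 * b)) (x0 := 0.8415) (by norm_num) (by linarith) hω0
    have s2 := c_sin (x := 2 * a + b) (x0 := 0.785) (by norm_num) (by linarith) hL
    have hb1 : b ≤ 0.1685 := by linarith
    have hb2 : b ^ 2 ≤ 0.1685 ^ 2 := pow_le_pow_left₀ hb hb1 2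
    rw [← e1] at s1
    have s3 : 0.5677 * 0.7421 ≤ c * Real.sin (5 * a + 2 * b) :=
      mul_le_mul hc (by norm_num at s1; linarith) (by norm_num) (by linarith)
    norm_num at s2 s3 hb2
    linarith
  · rcases le_or_gt (5 * a + 2 * b) 2.618 with h2 | h2
    · have s1 := c_sin (x := π - (5 * a + 2 * b)) (x0 := 0.5235) (by norm_num) (by linarith) hω0
      have s2 := c_sin (x := 2 * a + b) (x0 := 0.92) (by norm_num) (by linarith) hL
      have hb1 : b ≤ 0.3274 := by linarith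
      have hb2 : b ^ 2 ≤ 0.3274 ^ 2 := pow_le_pow_left₀ hb hb1 2
      rw [← e1] at s1
      have s3 : 0.5677 * 0.4995 ≤ c * Real.sin (5 * a + 2 * b) :=
        mul_le_mul hc (by norm_num at s1; linarith) (by norm_num) (by linarith)
      norm_num at s2 s3 hb2
      linarith
    · have s1 := c_sin (x := π - (5 * a + 2 * b)) (x0 := 0.3926) (by norm_num) hω1 hω0
      have s2 := c_sin (x := 2 * a + b) (x0 := 1.0472) (by norm_num) (by linarith) hL
      have hb1 : b ≤ 0.39275 := by linarith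
      have hb2 : b ^ 2 ≤ 0.39275 ^ 2 := pow_le_pow_left₀ hb hb1 2
      rw [← e1] at s1
      have s3 : 0.5677 * 0.3824 ≤ c * Real.sin (5 * a + 2 * b) :=
        mul_le_mul hc (by norm_num at s1; linarith) (by norm_num) (by linarith)
      norm_num at s2 s3 hb2
      linarith

/-- the geometry of `1 - rho e^{iF} = t e^{iy}` for `F ≥ 2 pi`, `y ≥ 0`: `F ≥ 3 pi` and
`y ≤ (F - 3 pi)/2` -/
theorem shC_geo {F ρ t y : ℝ} (hF0 : 2 * π ≤ F) (hF1 : F < 4 * π) (hρ0 : 0 < ρ) (hρ1 : ρ ≤ 1)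
    (hy0 : 0 ≤ y) (hy1 : y < π / 2) (ht0 : 0 < t) (hc : t * Real.cos y = 1 - ρ * Real.cos F)
    (hs : t * Real.sin y = -(ρ * Real.sin F)) (hty : Real.cos y ≤ t) :
    3 * π ≤ F ∧ y ≤ (F - 3 * π) / 2 ∧ t ≤ 1 + ρ ∧ 1 - ρ ≤ t ∧ t * Real.sin y ≤ ρ := by
  have hpi := Real.pi_pos
  have hsy : 0 ≤ Real.sin y := Real.sin_nonneg_of_nonneg_of_le_pi hy0 (by linarith)
  have hF3 : 3 * π ≤ F := by
    by_contra hcon
    have hcon' := not_le.1 hcon
    have h1 : 0 ≤ Real.sin (F - 2 * π) :=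
      Real.sin_nonneg_of_nonneg_of_le_pi (by linarith) (by linarith)
    rw [Real.sin_sub_two_pi] at h1
    have h2 : 0 ≤ t * Real.sin y := by positivity
    have h3 : 0 ≤ ρ * Real.sin F := by positivity
    have h4 : ρ * Real.sin F = 0 := by linarith
    have h5 : Real.sin F = 0 := by
      rcases mul_eq_zero.1 h4 with h | h
      · linarith
      · exact h
    have h6 : Real.sin (F - 2 * π) = 0 := by rw [Real.sin_sub_two_pi, h5]
    have h7 : F - 2 * π = 0 := by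
      by_contra h8
      have h9 : 0 < F - 2 * π := lt_of_le_of_ne (by linarith) (Ne.symm h8)
      have := Real.sin_pos_of_pos_of_lt_pi h9 (by linarith)
      linarith
    have h8 : Real.cos F = 1 := by
      have : F = 2 * π := by linarith
      rw [this, Real.cos_two_pi]
    have h9 : Real.sin y = 0 := by
      have : t * Real.sin y = 0 := by rw [hs, h4, neg_zero]
      rcases mul_eq_zero.1 this with h | h
      · linarith
      · exact h
    have h10 : y = 0 := by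
      by_contra h11
      have h12 : 0 < y := lt_of_le_of_ne hy0 (Ne.symm h11)
      have := Real.sin_pos_of_pos_of_lt_pi h12 (by linarith)
      linarith
    rw [h10, Real.cos_zero] at hc hty
    rw [h8] at hc
    linarith
  obtain ⟨θ, hθ⟩ : ∃ θ, θ = F - 3 * π := ⟨_, rfl⟩
  have hθ0 : 0 ≤ θ := by linarith
  have hθ1 : θ < π := by linarith
  have hcF : Real.cos F = -Real.cos θ := by
    have : F = θ + π + 2 * π := by rw [hθ]; ring
    rw [this, Real.cos_add_two_pi, Real.cos_add_pi]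
  have hsF : Real.sin F = -Real.sin θ := by
    have : F = θ + π + 2 * π := by rw [hθ]; ring
    rw [this, Real.sin_add_two_pi, Real.sin_add_pi]
  rw [hcF] at hc
  rw [hsF] at hs
  have hsθ : 0 ≤ Real.sin θ := Real.sin_nonneg_of_nonneg_of_le_pi hθ0 hθ1.le
  refine ⟨hF3, ?_, ?_, ?_, ?_⟩
  · rw [← hθ]
    have e1 : t * Real.sin (θ / 2 - y) = (1 - ρ) * Real.sin (θ / 2) := by
      have e2 : Real.sin (θ / 2 - θ) = -Real.sin (θ / 2) := by
        rw [← Real.sin_neg]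
        congr 1
        ring
      rw [Real.sin_sub] at e2
      rw [Real.sin_sub]
      linear_combination Real.sin (θ / 2) * hc - Real.cos (θ / 2) * hs + ρ * e2
    have h1 : 0 ≤ Real.sin (θ / 2) :=
      Real.sin_nonneg_of_nonneg_of_le_pi (by linarith) (by linarith)
    have h2 : 0 ≤ t * Real.sin (θ / 2 - y) := by
      rw [e1]
      exact mul_nonneg (by linarith) h1
    have h3 : 0 ≤ Real.sin (θ / 2 - y) := nonneg_of_mul_nonneg_right h2 ht0
    by_contra hcon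
    have hcon' := not_le.1 hcon
    have := Real.sin_neg_of_neg_of_neg_pi_lt (x := θ / 2 - y) (by linarith) (by linarith)
    linarith
  · have h1 : t ^ 2 = 1 + 2 * ρ * Real.cos θ + ρ ^ 2 := by
      have h2 := Real.sin_sq_add_cos_sq y
      have h3 := Real.sin_sq_add_cos_sq θ
      have h4 : t ^ 2 = (t * Real.cos y) ^ 2 + (t * Real.sin y) ^ 2 := by
        linear_combination (-t ^ 2) * h2
      rw [h4, hc, hs]
      linear_combination ρ ^ 2 * h3
    have h2 : t ^ 2 ≤ (1 + ρ) ^ 2 := by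
      rw [h1]
      have := mul_le_mul_of_nonneg_left (Real.cos_le_one θ) hρ0.le
      linarith
    exact le_of_sq_le_sq h2 (by linarith)
  · have h1 : t ^ 2 = 1 + 2 * ρ * Real.cos θ + ρ ^ 2 := by
      have h2 := Real.sin_sq_add_cos_sq y
      have h3 := Real.sin_sq_add_cos_sq θ
      have h4 : t ^ 2 = (t * Real.cos y) ^ 2 + (t * Real.sin y) ^ 2 := by
        linear_combination (-t ^ 2) * h2
      rw [h4, hc, hs]
      linear_combination ρ ^ 2 * h3
    have h2 : (1 - ρ) ^ 2 ≤ t ^ 2 := by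
      rw [h1]
      have := mul_le_mul_of_nonneg_left (Real.neg_one_le_cos θ) hρ0.le
      linarith
    exact le_of_sq_le_sq h2 ht0.le
  · rw [hs]
    have := mul_le_mul_of_nonneg_left (Real.sin_le_one θ) hρ0.le
    linarith

private theorem c_two {κ : ℝ} (h : κ ≤ 1 / 6) : (2 : ℝ) ^ κ ≤ 1.1225 := by
  have h1 : (2 : ℝ) ^ κ ≤ (2 : ℝ) ^ (1 / 6 : ℝ) :=
    Real.rpow_le_rpow_of_exponent_le (by norm_num) h
  have h2 : (2 : ℝ) ^ (1 / 6 : ℝ) ≤ 1.1225 := by
    calc (2 : ℝ) ^ (1 / 6 : ℝ) ≤ ((1.1225 : ℝ) ^ (6 : ℕ)) ^ (1 / 6 : ℝ) :=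
          Real.rpow_le_rpow (by norm_num) (by norm_num) (by norm_num)
      _ = 1.1225 := by
          rw [← Real.rpow_natCast, ← Real.rpow_mul (by norm_num)]
          norm_num
  linarith

private theorem c_27 {κ x : ℝ} (hκ0 : 0 ≤ κ) (h : κ ≤ 1 / 6) (hx0 : 0 ≤ x) (hx : x ≤ 27) :
    x ^ κ ≤ √3 := by
  have h1 : x ^ κ ≤ (27 : ℝ) ^ κ := Real.rpow_le_rpow hx0 hx hκ0
  have h2 : (27 : ℝ) ^ κ ≤ (27 : ℝ) ^ (1 / 6 : ℝ) :=
    Real.rpow_le_rpow_of_exponent_le (by norm_num) h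
  have h3 : (27 : ℝ) ^ (1 / 6 : ℝ) = √3 := by
    have h4 : (27 : ℝ) = √3 ^ (6 : ℕ) := by
      have h5 : √3 ^ 2 = 3 := Real.sq_sqrt (by norm_num)
      calc (27 : ℝ) = 3 ^ 3 := by norm_num
        _ = (√3 ^ 2) ^ 3 := by rw [h5]
        _ = _ := by ring
    rw [h4, ← Real.rpow_natCast, ← Real.rpow_mul (Real.sqrt_nonneg 3)]
    norm_num
  linarith

private theorem c_25 {κ ρ : ℝ} (h : κ ≤ 1 / 6) (hκ0 : 0 ≤ κ) (hρ : 1 / 25 ≤ ρ) :
    0.5847 ≤ ρ ^ κ := by
  have h1 : (1 / 25 : ℝ) ^ κ ≤ ρ ^ κ := Real.rpow_le_rpow (by norm_num) hρ hκ0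
  have h2 : (1 / 25 : ℝ) ^ (1 / 6 : ℝ) ≤ (1 / 25 : ℝ) ^ κ :=
    Real.rpow_le_rpow_of_exponent_ge (by norm_num) (by norm_num) h
  have h3 : 0.5847 ≤ (1 / 25 : ℝ) ^ (1 / 6 : ℝ) := by
    calc (0.5847 : ℝ) = ((0.5847 : ℝ) ^ (6 : ℕ)) ^ (1 / 6 : ℝ) := by
          rw [← Real.rpow_natCast, ← Real.rpow_mul (by norm_num)]
          norm_num
      _ ≤ _ := Real.rpow_le_rpow (by norm_num) (by norm_num) (by norm_num)
  linarith

private theorem c_third {ρ e : ℝ} (hρ0 : 0 < ρ) (hρ : ρ ≤ 1 / 25) (he : 1 / 3 ≤ e) :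
    ρ ^ e ≤ 0.342 := by
  have h1 : ρ ^ e ≤ ρ ^ (1 / 3 : ℝ) :=
    Real.rpow_le_rpow_of_exponent_ge hρ0 (by linarith) he
  have h2 : ρ ^ (1 / 3 : ℝ) ≤ 0.342 := by
    calc ρ ^ (1 / 3 : ℝ) ≤ ((0.342 : ℝ) ^ (3 : ℕ)) ^ (1 / 3 : ℝ) :=
          Real.rpow_le_rpow hρ0.le (by norm_num; linarith) (by norm_num)
      _ = 0.342 := by
          rw [← Real.rpow_natCast, ← Real.rpow_mul (by norm_num)]
          norm_num
  linarith

private theorem c_twothird {ρ e : ℝ} (hρ0 : 0 < ρ) (hρ : ρ ≤ 1 / 25) (he : 2 / 3 ≤ e) :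
    ρ ^ e ≤ 0.117 := by
  have h1 : ρ ^ e ≤ ρ ^ (2 / 3 : ℝ) :=
    Real.rpow_le_rpow_of_exponent_ge hρ0 (by linarith) he
  have h2 : ρ ^ (2 / 3 : ℝ) = (ρ ^ (1 / 3 : ℝ)) ^ (2 : ℕ) := by
    rw [← Real.rpow_natCast, ← Real.rpow_mul hρ0.le]
    norm_num
  have h3 := c_third hρ0 hρ (le_refl (1 / 3 : ℝ))
  have h4 : (ρ ^ (1 / 3 : ℝ)) ^ (2 : ℕ) ≤ 0.342 ^ 2 :=
    pow_le_pow_left₀ (Real.rpow_nonneg hρ0.le _) h3 2
  rw [h2] at h1
  norm_num at h4
  linarith

/-- quadratic inequality for `s` -/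
private theorem c_s {s r M m g : ℝ} (hr0 : 0 < r) (hr : r ≤ 1 / 5) (hs0 : 0 ≤ s)
    (hM0 : 0 ≤ M) (hM : M ≤ 2.245) (hm : m ≤ r ^ 2 / 3) (hg0 : 0 ≤ g) (hg : g ≤ 0.2728 * r ^ 2)
    (hm0 : 0 ≤ m) (h : s ^ 2 ≤ M * (m + s * g)) : s ≤ 0.93 * r := by
  by_contra hcon
  have hcon' := not_le.1 hcon
  have h1 : M * (m + s * g) ≤ 2.245 * (r ^ 2 / 3 + s * (0.2728 * r ^ 2)) := by
    apply mul_le_mul hM _ (by positivity) (by norm_num)
    have := mul_le_mul_of_nonneg_left hg hs0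
    linarith
  have h2 : s * (0.2728 * r ^ 2) ≤ s * (0.2728 * (r * (1 / 5))) := by
    apply mul_le_mul_of_nonneg_left _ hs0
    have := mul_le_mul_of_nonneg_left hr hr0.le
    linarith [sq r]
  have h3 : 0.93 * r * (0.93 * r - 0.1226 * r) ≤ s * (s - 0.1226 * r) := by
    apply mul_le_mul hcon'.le (by linarith) _ hs0
    linarith
  have h4 : 0 < r ^ 2 := by positivity
  nlinarith

private theorem c_x1 {Λ β : ℝ} :
    2 * Real.sin β * Real.cos (Λ + β) = Real.sin (Λ + 2 * β) - Real.sin Λ := by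
  have e1 : Λ + 2 * β = (Λ + β) + β := by ring
  have e2 : Real.sin Λ = Real.sin (Λ + β - β) := by congr 1; ring
  rw [e1, Real.sin_add (Λ + β), e2, Real.sin_sub (Λ + β)]
  ring

/-- (H2) with `y ≥ 0` -/
theorem shC {κ F ρ t y T s P β : ℝ} (hκ0 : 1 / 8 ≤ κ) (hF0 : 2 * π ≤ F) (hF1 : κ * F < π / 2)
    (hρ0 : 0 < ρ) (hρ1 : ρ ≤ 1) (hy0 : 0 ≤ y) (hy1 : y < π / 2) (ht0 : 0 < t)
    (hc : t * Real.cos y = 1 - ρ * Real.cos F) (hs : t * Real.sin y = -(ρ * Real.sin F))
    (hty : Real.cos y ≤ t) (hT : T = t ^ (2 * κ)) (hβ0 : 0 ≤ β) (hβ1 : β ≤ π / 2 - κ * π)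
    (hsd : s = (T + 1) * Real.sin β)
    (hs2 : s ^ 2 ≤ 2 ^ (1 + κ) * (max (T - 1) 0 + s * Real.sin (κ * y))) (hP0 : 0 ≤ P)
    (hP1 : P * (1 + Real.sin (κ * π)) ≤ max (T - 1) 0 + s * Real.sin (κ * y))
    (hT1 : 1 - T ≤ 2 ^ κ * (1 - Real.cos (κ * y)) / Real.sin (κ * π)) :
    2 * Real.sin β * Real.cos (κ * (F - π) + κ * y + β) +
        P * ((t / ρ) ^ κ * Real.sin (κ * π) - Real.sin (κ * (F - π) - κ * y)) ≤
      (ρ * t) ^ κ * Real.sin (κ * (2 * F - π)) +
        (T - 1) * Real.sin (κ * (F - π) + κ * y) := by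
  obtain ⟨p1, p2⟩ := c_pi
  have hpi := Real.pi_pos
  have κ0 : 0 < κ := by linarith
  have hF4 : F < 4 * π := by
    by_contra hcon
    have hcon' := not_lt.1 hcon
    have h1 : 1 / 8 * (4 * π) ≤ κ * F := mul_le_mul hκ0 hcon' (by positivity) κ0.le
    linarith
  obtain ⟨hF3, hyθ, ht1, ht2, hty2⟩ := shC_geo hF0 hF4 hρ0 hρ1 hy0 hy1 ht0 hc hs hty
  have hκ6 : κ ≤ 1 / 6 := by
    by_contra hcon
    have hcon' := not_le.1 hcon
    have h1 : 1 / 6 * (3 * π) < κ * (3 * π) := mul_lt_mul_of_pos_right hcon' (by positivity)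
    have h2 : κ * (3 * π) ≤ κ * F := mul_le_mul_of_nonneg_left hF3 κ0.le
    linarith
  obtain ⟨a, ha⟩ : ∃ a, a = κ * π := ⟨_, rfl⟩
  obtain ⟨b, hb⟩ : ∃ b, b = κ * (F - 3 * π) := ⟨_, rfl⟩
  obtain ⟨v, hv⟩ : ∃ v, v = κ * y := ⟨_, rfl⟩
  have ha8 : π / 8 ≤ a := by
    rw [ha]
    have := mul_le_mul_of_nonneg_right hκ0 hpi.le
    linarith
  have ha6 : a ≤ π / 6 := by
    rw [ha]
    have := mul_le_mul_of_nonneg_right hκ6 hpi.le
    linarith
  have hb0 : 0 ≤ b := by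
    rw [hb]
    exact mul_nonneg κ0.le (by linarith)
  have hab : 3 * a + b < π / 2 := by
    have : 3 * a + b = κ * F := by rw [ha, hb]; ring
    linarith
  have hv0 : 0 ≤ v := by rw [hv]; positivity
  have hvb : v ≤ b / 2 := by
    have := mul_le_mul_of_nonneg_left hyθ κ0.le
    rw [hv, hb]
    linarith
  have e1 : κ * (F - π) + κ * y = 2 * a + b + v := by rw [ha, hb, hv]; ring
  have e2 : κ * (F - π) - κ * y = 2 * a + b - v := by rw [ha, hb, hv]; ring
  have e3 : κ * (2 * F - π) = 5 * a + 2 * b := by rw [ha, hb]; ring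
  rw [e1, e2, e3, ← ha]
  rw [← ha, ← hv] at hT1 hP1
  rw [← hv] at hs2
  have hT0 : 0 < T := by rw [hT]; positivity
  have hsβ : 0 ≤ Real.sin β := Real.sin_nonneg_of_nonneg_of_le_pi hβ0 (by linarith [ha8])
  have hs0 : 0 ≤ s := by rw [hsd]; positivity
  have hsa0 : 0.3825 ≤ Real.sin a := by
    have := c_sin (x := a) (x0 := 0.3926) (by norm_num) (by linarith) (by linarith)
    norm_num at this
    linarith
  have hsa1 : Real.sin a ≤ 1 / 2 := by
    rw [← Real.sin_pi_div_six]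
    apply Real.sin_le_sin_of_le_of_le_pi_div_two <;> linarith
  have hca : √3 / 2 ≤ Real.cos a := by
    rw [← Real.cos_pi_div_six]
    apply Real.cos_le_cos_of_nonneg_of_le_pi <;> linarith
  -- `sin (2 a + b - v) ≥ sqrt 3 sin a`
  have h2a : √3 * Real.sin a ≤ Real.sin (2 * a + b - v) := by
    have h1 : Real.sin (2 * a) ≤ Real.sin (2 * a + b - v) := by
      apply Real.sin_le_sin_of_le_of_le_pi_div_two <;> linarith
    rw [Real.sin_two_mul] at h1
    have h2 := mul_le_mul_of_nonneg_left hca (show 0 ≤ 2 * Real.sin a by linarith)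
    linarith
  have hcv : 1 - Real.cos v ≤ b ^ 2 / 8 := by
    have h1 := Real.one_sub_sq_div_two_le_cos (x := v)
    have h2 : v ^ 2 ≤ (b / 2) ^ 2 := pow_le_pow_left₀ hv0 hvb 2
    linarith
  have hb2 : b ≤ 0.39275 := by linarith
  have hb3 : b ^ 2 ≤ 0.39275 ^ 2 := pow_le_pow_left₀ hb0 hb2 2
  have hT2 : 1 - T ≤ 0.3669 * b ^ 2 := by
    refine hT1.trans ?_
    rw [div_le_iff₀ (by linarith)]
    have h1 : (2 : ℝ) ^ κ * (1 - Real.cos v) ≤ 1.1225 * (b ^ 2 / 8) :=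
      mul_le_mul (c_two hκ6) hcv (by linarith [Real.cos_le_one v]) (by norm_num)
    have h2 : 0.3669 * b ^ 2 * 0.3825 ≤ 0.3669 * b ^ 2 * Real.sin a :=
      mul_le_mul_of_nonneg_left hsa0 (by positivity)
    have h3 := sq_nonneg b
    linarith
  have hR : (ρ * t) ^ κ = ρ ^ κ * t ^ κ := Real.mul_rpow hρ0.le ht0.le
  have htk : t ^ κ * t ^ κ = T := by
    rw [hT, ← Real.rpow_add ht0]
    congr 1
    ring
  have htk0 : 0 < t ^ κ := Real.rpow_pos_of_pos ht0 _
  have hρk0 : 0 < ρ ^ κ := Real.rpow_pos_of_pos hρ0 _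
  have hsΛ0 : 0 ≤ Real.sin (2 * a + b + v) :=
    Real.sin_nonneg_of_nonneg_of_le_pi (by linarith) (by linarith)
  have hsΛ1 : Real.sin (2 * a + b) ≤ Real.sin (2 * a + b + v) := by
    apply Real.sin_le_sin_of_le_of_le_pi_div_two <;> linarith
  have hω : 0.3825 ≤ Real.sin (5 * a + 2 * b) := by
    have := c_sin (x := π - (5 * a + 2 * b)) (x0 := 0.3926) (by norm_num) (by linarith)
      (by linarith)
    rw [Real.sin_pi_sub] at this
    norm_num at this
    linarith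
  rcases le_or_gt (1 / 25) ρ with hρ | hρ
  · have hX1 : 2 * Real.sin β * Real.cos (2 * a + b + v + β) ≤ 1 - Real.sin (2 * a + b + v) := by
      rw [c_x1]
      linarith [Real.sin_le_one (2 * a + b + v + 2 * β)]
    have h27 : (t / ρ) ^ κ ≤ √3 := by
      apply c_27 κ0.le hκ6 (by positivity)
      rw [div_le_iff₀ hρ0]
      linarith
    have hX2 : P * ((t / ρ) ^ κ * Real.sin a - Real.sin (2 * a + b - v)) ≤ 0 := by
      apply mul_nonpos_of_nonneg_of_nonpos hP0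
      have := mul_le_mul_of_nonneg_right h27 (show 0 ≤ Real.sin a by linarith)
      linarith
    have h25 := c_25 hκ6 κ0.le hρ
    have htk1 : 0.971 ≤ t ^ κ := by
      by_contra hcon
      have hcon' := not_le.1 hcon
      have h1 : t ^ κ * t ^ κ ≤ 0.971 * 0.971 :=
        mul_le_mul hcon'.le hcon'.le htk0.le (by norm_num)
      rw [htk] at h1
      norm_num at h1 hb3
      linarith
    have hcR : 0.5677 ≤ (ρ * t) ^ κ := by
      rw [hR]
      calc (0.5677 : ℝ) ≤ 0.5847 * 0.971 := by norm_num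
        _ ≤ _ := mul_le_mul h25 htk1 (by norm_num) hρk0.le
    have key := shC_ab ha8 hb0 hab.le hcR (le_refl (0.3669 * b ^ 2))
    have hTs : (1 - 0.3669 * b ^ 2) * Real.sin (2 * a + b + v) ≤
        T * Real.sin (2 * a + b + v) :=
      mul_le_mul_of_nonneg_right (by linarith) hsΛ0
    have hes : 0.3669 * b ^ 2 * Real.sin (2 * a + b + v) ≤ 0.3669 * b ^ 2 * 1 :=
      mul_le_mul_of_nonneg_left (Real.sin_le_one _) (by positivity)
    linarith
  · obtain ⟨r, hr⟩ : ∃ r, r = √ρ := ⟨_, rfl⟩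
    have hr0 : 0 < r := by rw [hr]; exact Real.sqrt_pos.2 hρ0
    have hr2 : r ^ 2 = ρ := by rw [hr]; exact Real.sq_sqrt hρ0.le
    have hr5 : r ≤ 1 / 5 := by
      rw [hr, Real.sqrt_le_left (by norm_num)]
      norm_num
      linarith
    have ht96 : 0.96 ≤ t := by linarith
    -- bounds of `T`
    have hTu : T ≤ 1 + ρ / 3 := by
      have h1 : t ^ (2 * κ) ≤ (1 + ρ) ^ (2 * κ) := Real.rpow_le_rpow ht0.le ht1 (by positivity)
      have h2 : (1 + ρ) ^ (2 * κ) ≤ 1 + 2 * κ * ρ :=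
        rpow_one_add_le_one_add_mul_self (by linarith) (by positivity) (by linarith)
      have h3 : 2 * κ * ρ ≤ 2 * (1 / 6) * ρ := by
        apply mul_le_mul_of_nonneg_right _ hρ0.le
        linarith
      rw [hT]
      linarith
    have hTl : 1 - ρ ≤ T := by
      have h1 : (1 - ρ) ^ (2 * κ) ≤ t ^ (2 * κ) :=
        Real.rpow_le_rpow (by linarith) ht2 (by positivity)
      have h2 : (1 - ρ) ^ (1 : ℝ) ≤ (1 - ρ) ^ (2 * κ) :=
        Real.rpow_le_rpow_of_exponent_ge (by linarith) (by linarith) (by linarith)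
      rw [Real.rpow_one] at h2
      rw [hT]
      linarith
    have hm : max (T - 1) 0 ≤ r ^ 2 / 3 := by
      rw [hr2]
      exact max_le (by linarith) (by positivity)
    have hm0 : 0 ≤ max (T - 1) 0 := le_max_right _ _
    -- bound of `v`
    have hsy : Real.sin y ≤ ρ / 0.96 := by
      rw [le_div_iff₀ (by norm_num)]
      have h1 : 0 ≤ Real.sin y := Real.sin_nonneg_of_nonneg_of_le_pi hy0 (by linarith)
      have h2 := mul_le_mul_of_nonneg_right ht96 h1
      linarith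
    have hyy : y ≤ 1.5708 * (ρ / 0.96) := by
      have h1 := Real.mul_le_sin hy0 hy1.le
      have h2 : 2 / π * y ≤ ρ / 0.96 := h1.trans hsy
      rw [div_mul_eq_mul_div, div_le_iff₀ hpi] at h2
      have h3 : ρ / 0.96 * π ≤ ρ / 0.96 * 3.1416 :=
        mul_le_mul_of_nonneg_left p2.le (by positivity)
      linarith
    have hv1 : v ≤ 0.2728 * r ^ 2 := by
      rw [hv, hr2]
      have h1 : κ * y ≤ 1 / 6 * (1.5708 * (ρ / 0.96)) :=
        mul_le_mul hκ6 hyy hy0 (by norm_num)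
      have h2 : 1 / 6 * (1.5708 * (ρ / 0.96)) ≤ 0.2728 * ρ := by
        have : 1 / 6 * (1.5708 * (ρ / 0.96)) = (1 / 6 * 1.5708 / 0.96) * ρ := by ring
        rw [this]
        apply mul_le_mul_of_nonneg_right _ hρ0.le
        norm_num
      linarith
    have hsv0 : 0 ≤ Real.sin v :=
      Real.sin_nonneg_of_nonneg_of_le_pi hv0 (by linarith)
    have hsv : Real.sin v ≤ 0.2728 * r ^ 2 := (Real.sin_le hv0).trans hv1
    have hM : (2 : ℝ) ^ (1 + κ) ≤ 2.245 := by
      rw [Real.rpow_add (by norm_num), Real.rpow_one]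
      linarith [c_two hκ6]
    have hss := c_s hr0 hr5 hs0 (Real.rpow_nonneg (by norm_num) _) hM hm hsv0 hsv hm0 hs2
    -- X1
    have hcΛ : Real.cos (2 * a + b + v) ≤ 0.7072 := by
      have h1 : Real.cos (2 * a + b + v) ≤ Real.cos (π / 4) :=
        Real.cos_le_cos_of_nonneg_of_le_pi (by positivity) (by linarith) (by linarith)
      rw [Real.cos_pi_div_four] at h1
      have h2 : √2 ≤ 1.4143 := by
        rw [Real.sqrt_le_left (by norm_num)]
        norm_num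
      linarith
    have hcΛ0 : 0 ≤ Real.cos (2 * a + b + v) :=
      Real.cos_nonneg_of_neg_pi_div_two_le_of_le (by linarith) (by linarith)
    have hsβ2 : 2 * Real.sin β ≤ 1.0205 * (0.93 * r) := by
      have h1 : 1.96 * Real.sin β ≤ (T + 1) * Real.sin β :=
        mul_le_mul_of_nonneg_right (by linarith) hsβ
      rw [← hsd] at h1
      linarith
    have hX1 : 2 * Real.sin β * Real.cos (2 * a + b + v + β) ≤ 0.6713 * r := by
      have h1 : Real.cos (2 * a + b + v + β) ≤ Real.cos (2 * a + b + v) := by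
        apply Real.cos_le_cos_of_nonneg_of_le_pi
        · linarith
        · linarith
        · linarith
      have h2 : 2 * Real.sin β * Real.cos (2 * a + b + v + β) ≤
          2 * Real.sin β * Real.cos (2 * a + b + v) :=
        mul_le_mul_of_nonneg_left h1 (by linarith)
      have h3 : 2 * Real.sin β * Real.cos (2 * a + b + v) ≤ 1.0205 * (0.93 * r) * 0.7072 :=
        mul_le_mul hsβ2 hcΛ hcΛ0 (by positivity)
      linarith
    have hr3 : r = ρ ^ κ * ρ ^ (1 / 2 - κ) := by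
      rw [← Real.rpow_add hρ0, hr, Real.sqrt_eq_rpow]
      congr 1
      ring
    have hX1' : 2 * Real.sin β * Real.cos (2 * a + b + v + β) ≤ 0.2297 * ρ ^ κ := by
      have h1 := c_third hρ0 hρ.le (show 1 / 3 ≤ 1 / 2 - κ by linarith)
      have h2 : r ≤ ρ ^ κ * 0.342 := by
        rw [hr3]
        exact mul_le_mul_of_nonneg_left h1 hρk0.le
      linarith
    -- X2
    have hP2 : P ≤ 0.3842 * ρ := by
      have h1 : P * 1 ≤ P * (1 + Real.sin a) :=
        mul_le_mul_of_nonneg_left (by linarith) hP0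
      have h2 : s * Real.sin v ≤ 0.93 * r * (0.2728 * r ^ 2) :=
        mul_le_mul hss hsv hsv0 (by positivity)
      have h3 : 0.93 * r * (0.2728 * r ^ 2) ≤ 0.93 * (1 / 5) * (0.2728 * r ^ 2) := by
        apply mul_le_mul_of_nonneg_right _ (by positivity)
        linarith
      rw [hr2] at hm h2 h3
      linarith
    have hX2 : P * ((t / ρ) ^ κ * Real.sin a - Real.sin (2 * a + b - v)) ≤
        0.0226 * (ρ ^ κ * t ^ κ) := by
      have h0 : 0 ≤ Real.sin (2 * a + b - v) :=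
        Real.sin_nonneg_of_nonneg_of_le_pi (by linarith) (by linarith)
      have h1 : (t / ρ) ^ κ * Real.sin a - Real.sin (2 * a + b - v) ≤
          (t / ρ) ^ κ * (1 / 2) := by
        have := mul_le_mul_of_nonneg_left hsa1
          (Real.rpow_nonneg (show 0 ≤ t / ρ by positivity) κ)
        linarith
      have h2 : P * ((t / ρ) ^ κ * Real.sin a - Real.sin (2 * a + b - v)) ≤
          P * ((t / ρ) ^ κ * (1 / 2)) := mul_le_mul_of_nonneg_left h1 hP0
      have h3 : P * ((t / ρ) ^ κ * (1 / 2)) ≤ 0.3842 * ρ * ((t / ρ) ^ κ * (1 / 2)) := by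
        apply mul_le_mul_of_nonneg_right hP2
        have := Real.rpow_nonneg (show 0 ≤ t / ρ by positivity) κ
        positivity
      have h4 : ρ * (t / ρ) ^ κ = ρ ^ (1 - 2 * κ) * (ρ ^ κ * t ^ κ) := by
        rw [Real.div_rpow ht0.le hρ0.le]
        have h5 : ρ = ρ ^ (1 - 2 * κ) * (ρ ^ κ * ρ ^ κ) := by
          rw [← Real.rpow_add hρ0, ← Real.rpow_add hρ0]
          nth_rewrite 1 [← Real.rpow_one ρ]
          congr 1
          ring
        nth_rewrite 1 [h5]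
        field_simp
      have h6 := c_twothird hρ0 hρ.le (show 2 / 3 ≤ 1 - 2 * κ by linarith)
      have h7 : ρ ^ (1 - 2 * κ) * (ρ ^ κ * t ^ κ) ≤ 0.117 * (ρ ^ κ * t ^ κ) :=
        mul_le_mul_of_nonneg_right h6 (by positivity)
      have h8 : 0 < ρ ^ κ * t ^ κ := by positivity
      have h9 : 0.3842 * ρ * ((t / ρ) ^ κ * (1 / 2)) = 0.1921 * (ρ * (t / ρ) ^ κ) := by ring
      rw [h9, h4] at h3
      linarith
    -- X3
    have hX3 : -(0.117 * ρ ^ κ) ≤ (T - 1) * Real.sin (2 * a + b + v) := by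
      have h1 : ρ = ρ ^ κ * ρ ^ (1 - κ) := by
        rw [← Real.rpow_add hρ0]
        nth_rewrite 1 [← Real.rpow_one ρ]
        congr 1
        ring
      have h2 := c_twothird hρ0 hρ.le (show 2 / 3 ≤ 1 - κ by linarith)
      have h3 : ρ ≤ ρ ^ κ * 0.117 := by
        nth_rewrite 1 [h1]
        exact mul_le_mul_of_nonneg_left h2 hρk0.le
      have h4 : -ρ * Real.sin (2 * a + b + v) ≤ (T - 1) * Real.sin (2 * a + b + v) :=
        mul_le_mul_of_nonneg_right (by linarith) hsΛ0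
      have h5 : ρ * Real.sin (2 * a + b + v) ≤ ρ * 1 :=
        mul_le_mul_of_nonneg_left (Real.sin_le_one _) hρ0.le
      linarith
    have htk1 : 0.979 ≤ t ^ κ := by
      by_contra hcon
      have hcon' := not_le.1 hcon
      have h1 : t ^ κ * t ^ κ ≤ 0.979 * 0.979 :=
        mul_le_mul hcon'.le hcon'.le htk0.le (by norm_num)
      rw [htk] at h1
      norm_num at h1
      linarith
    have hfin : 0.3599 * 0.979 * ρ ^ κ ≤ (Real.sin (5 * a + 2 * b) - 0.0226) * t ^ κ * ρ ^ κ := by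
      apply mul_le_mul_of_nonneg_right _ hρk0.le
      exact mul_le_mul (by linarith) htk1 (by norm_num) (by linarith)
    rw [hR]
    linarith

end EQS
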