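import Mathlib

/-! Closed inequality (H), `t ≥ 1`: general lemmas. -/

set_option autoImplicit false

namespace EQS

/-- `(1+ρ)^a - 1 ≤ ((n+1)^a - n^a) ρ^a` for `n ρ ≤ 1` -/
theorem shE_inc {a ρ n : ℝ} (ha0 : 0 ≤ a) (ha1 : a ≤ 1) (hρ : 0 < ρ) (hn : 1 ≤ n)
    (hnρ : n * ρ ≤ 1) : (1 + ρ) ^ a - 1 ≤ ((n + 1) ^ a - n ^ a) * ρ ^ a := by
  have hz : n ≤ 1 / ρ := by rw [le_div_iff₀ hρ]; exact hnρ
  set z := 1 / ρ with hzd
  have hz0 : 0 < z := by positivity
  have hc := (Real.concaveOn_rpow ha0 ha1).2 (x := n) (y := z + 1) (Set.mem_Ici.2 (by linarith))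
    (Set.mem_Ici.2 (by linarith))
  have hd : 0 < z + 1 - n := by linarith
  have c1 := hc (a := 1 / (z + 1 - n)) (b := (z - n) / (z + 1 - n)) (by positivity)
    (div_nonneg (by linarith) hd.le) (by field_simp; ring)
  have c2 := hc (a := (z - n) / (z + 1 - n)) (b := 1 / (z + 1 - n))
    (div_nonneg (by linarith) hd.le) (by positivity) (by field_simp; ring)
  simp only [smul_eq_mul] at c1 c2
  have e1 : 1 / (z + 1 - n) * n + (z - n) / (z + 1 - n) * (z + 1) = z := by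
    field_simp; ring
  have e2 : (z - n) / (z + 1 - n) * n + 1 / (z + 1 - n) * (z + 1) = n + 1 := by
    field_simp; ring
  rw [e1] at c1
  rw [e2] at c2
  have e3 : (1 / (z + 1 - n) * n ^ a + (z - n) / (z + 1 - n) * (z + 1) ^ a) +
      ((z - n) / (z + 1 - n) * n ^ a + 1 / (z + 1 - n) * (z + 1) ^ a) = n ^ a + (z + 1) ^ a := by
    field_simp; ring
  have h1 : (z + 1) ^ a - z ^ a ≤ (n + 1) ^ a - n ^ a := by linarith
  have hr : 0 < ρ ^ a := Real.rpow_pos_of_pos hρ _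
  have h2 := mul_le_mul_of_nonneg_right h1 hr.le
  have e4 : ((z + 1) ^ a - z ^ a) * ρ ^ a = (1 + ρ) ^ a - 1 := by
    rw [sub_mul, ← Real.mul_rpow (by linarith) hρ.le, ← Real.mul_rpow hz0.le hρ.le]
    have e5 : (z + 1) * ρ = 1 + ρ := by rw [hzd]; field_simp
    have e6 : z * ρ = 1 := by rw [hzd]; field_simp
    rw [e5, e6, Real.one_rpow]
  linarith

/-- `y (1 + ρ) ≤ ρ θ` -/
theorem shE_y {ρ θ t y : ℝ} (hρ0 : 0 < ρ) (hθ1 : θ < Real.pi)
    (hy0 : 0 ≤ y) (hyθ : 2 * y ≤ θ) (ht : 0 < t)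
    (hc : t * Real.cos y = 1 + ρ * Real.cos θ) (hs : t * Real.sin y = ρ * Real.sin θ) :
    y * (1 + ρ) ≤ ρ * θ := by
  have hpi := Real.pi_pos
  have h1 : Real.sin y = ρ * Real.sin (θ - y) := by
    have h2 : t * Real.sin y = t * (ρ * Real.sin (θ - y)) := by
      rw [Real.sin_sub]
      linear_combination hs - ρ * Real.sin θ * hc + ρ * Real.cos θ * hs
    exact mul_left_cancel₀ ht.ne' h2
  set b := θ - y with hb
  have hby : y ≤ b := by rw [hb]; linarith
  rcases hby.eq_or_lt with h3 | h3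
  · -- `y = b`
    rcases hy0.eq_or_lt with h4 | h4
    · rw [← h4]
      have : 0 ≤ θ := by linarith
      have : 0 ≤ ρ * θ := by positivity
      linarith
    · have h5 : 0 < Real.sin y := Real.sin_pos_of_pos_of_lt_pi h4 (by linarith)
      rw [← h3] at h1
      have h6 : ρ = 1 := by
        have : (ρ - 1) * Real.sin y = 0 := by linarith
        rcases mul_eq_zero.1 this with h7 | h7
        · linarith
        · linarith
      have : θ = 2 * y := by linarith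
      rw [h6, this]
      linarith
  have hb0 : 0 < b := by linarith
  have hbpi : b < Real.pi := by linarith
  have h5 : 0 < Real.sin b := Real.sin_pos_of_pos_of_lt_pi hb0 hbpi
  have m0 : (0 : ℝ) ∈ Set.Icc 0 Real.pi := ⟨le_rfl, hpi.le⟩
  have m1 : b ∈ Set.Icc 0 Real.pi := ⟨hb0.le, hbpi.le⟩
  have w0 : 0 ≤ 1 - y / b := by rw [sub_nonneg, div_le_one hb0]; exact hby
  have w1 : 0 ≤ y / b := by positivity
  have h6 := strictConcaveOn_sin_Icc.concaveOn.2 m0 m1 w0 w1 (by ring)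
  simp only [smul_eq_mul, mul_zero, zero_add, Real.sin_zero] at h6
  have e1 : y / b * b = y := by field_simp
  rw [e1, h1] at h6
  have h7 : y / b ≤ ρ := le_of_mul_le_mul_right h6 h5
  rw [div_le_iff₀ hb0] at h7
  have e2 : ρ * b = ρ * θ - ρ * y := by rw [hb]; ring
  linarith

/-- `2ρ/(1+ρ) ≤ ρ^κ` -/
theorem shE_half {ρ κ : ℝ} (hρ0 : 0 < ρ) (hρ1 : ρ ≤ 1) (hκ : κ ≤ 1 / 2) :
    2 * ρ ≤ ρ ^ κ * (1 + ρ) := by
  have h1 : ρ ^ (1 / 2 : ℝ) ≤ ρ ^ κ := Real.rpow_le_rpow_of_exponent_ge hρ0 hρ1 hκ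
  set u := ρ ^ (1 / 2 : ℝ) with hu
  have hu0 : 0 < u := Real.rpow_pos_of_pos hρ0 _
  have hu2 : u * u = ρ := by
    rw [hu, ← Real.rpow_add hρ0]
    norm_num
  have hu1 : u ≤ 1 := Real.rpow_le_one hρ0.le hρ1 (by norm_num)
  have h2 : 2 * ρ ≤ u * (1 + ρ) := by
    rw [← hu2]
    nlinarith [mul_nonneg hu0.le (sq_nonneg (u - 1))]
  exact h2.trans (mul_le_mul_of_nonneg_right h1 (by linarith))

/-- chord bound for `b^κ` -/
theorem shE_chord {b κ0 κ1 u0 u1 κ : ℝ} (hb : 0 < b) (h0 : κ0 ≤ κ) (h1 : κ ≤ κ1) (h01 : κ0 < κ1)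
    (hu0 : b ^ κ0 ≤ u0) (hu1 : b ^ κ1 ≤ u1) :
    b ^ κ * (κ1 - κ0) ≤ u0 * (κ1 - κ) + u1 * (κ - κ0) := by
  have hd : 0 < κ1 - κ0 := by linarith
  have w0 : 0 ≤ (κ1 - κ) / (κ1 - κ0) := div_nonneg (by linarith) hd.le
  have w1 : 0 ≤ (κ - κ0) / (κ1 - κ0) := div_nonneg (by linarith) hd.le
  have hc := (convexOn_exp).2 (Set.mem_univ (κ0 * Real.log b)) (Set.mem_univ (κ1 * Real.log b))
    w0 w1 (by field_simp; ring)
  simp only [smul_eq_mul] at hc
  have e0 : ∀ x : ℝ, Real.exp (x * Real.log b) = b ^ x := by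
    intro x
    rw [Real.rpow_def_of_pos hb, mul_comm]
  have e1 : (κ1 - κ) / (κ1 - κ0) * (κ0 * Real.log b) + (κ - κ0) / (κ1 - κ0) * (κ1 * Real.log b) =
      κ * Real.log b := by
    field_simp; ring
  rw [e1, e0, e0, e0] at hc
  have h2 := mul_le_mul_of_nonneg_right hc hd.le
  have e2 : ((κ1 - κ) / (κ1 - κ0) * b ^ κ0 + (κ - κ0) / (κ1 - κ0) * b ^ κ1) * (κ1 - κ0) =
      b ^ κ0 * (κ1 - κ) + b ^ κ1 * (κ - κ0) := by
    field_simp
  rw [e2] at h2
  have h3 := mul_le_mul_of_nonneg_right hu0 (by linarith : 0 ≤ κ1 - κ)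
  have h4 := mul_le_mul_of_nonneg_right hu1 (by linarith : 0 ≤ κ - κ0)
  linarith

/-- `b^(1/n) ≤ u` from `b ≤ u^n` -/
theorem shE_root {b u : ℝ} {n : ℕ} (hn : n ≠ 0) (hb : 0 ≤ b) (hu : 0 ≤ u) (h : b ≤ u ^ n) :
    b ^ (1 / (n : ℝ)) ≤ u := by
  have h1 : b ^ (1 / (n : ℝ)) ≤ (u ^ n) ^ (1 / (n : ℝ)) :=
    Real.rpow_le_rpow hb h (by positivity)
  rw [one_div, Real.pow_rpow_inv_natCast hu hn] at h1
  rwa [one_div]

/-- the reduction in the case `T ≥ 1` -/
theorem shE_red {M T r τ s σ X Y v Λ β P D c e G H B Ω : ℝ} (hM : 0 < M) (hT : 1 ≤ T)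
    (hτ1 : 1 ≤ τ) (hτ : τ ^ 2 = T) (hr : 0 < r) (hσ0 : 0 ≤ σ)
    (hσ : σ ≤ Y * r) (hsd : s = (T + 1) * Real.sin β) (hsβ : 0 ≤ Real.sin β)
    (hs2 : s ^ 2 ≤ M * (T - 1 + s * σ)) (hc : 0 < c) (hG : G * (T ^ 2 * r ^ 2) = T - 1)
    (hH : H = M * Y + c / 2 + M / (2 * c) * G) (he : T - 1 ≤ e * r ^ 2) (hD : 0 < D)
    (hP0 : 0 ≤ P) (hP : P * D ≤ T - 1 + s * σ) (hcos : Real.cos (Λ + β) ≤ Real.cos Λ)
    (hcΛ : 0 ≤ Real.cos Λ) (hsΛ : 0 ≤ Real.sin Λ)
    (hB : B ≤ τ / r * Real.sin (X + v) - Real.sin X)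
    (hB0 : 0 ≤ τ / r * Real.sin (X + v) - Real.sin X)
    (hF : Real.cos Λ * H + (e + T * H * Y) / D * (Real.sin (X + v) - r / τ * Real.sin X) ≤
      Real.sin Ω + G * r * Real.sin Λ) :
    2 * Real.sin β * Real.cos (Λ + β) + P * B ≤ r * τ * Real.sin Ω + (T - 1) * Real.sin Λ := by
  have hT0 : 0 < T := by linarith
  have hτ0 : 0 < τ := by linarith
  have hY : 0 ≤ Y := by
    by_contra hcon
    have := mul_neg_of_neg_of_pos (not_le.1 hcon) hr
    linarith
  have hs0 : 0 ≤ s := by rw [hsd]; positivity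
  have hG0 : 0 ≤ G := by
    by_contra hcon
    have : G * (T ^ 2 * r ^ 2) < 0 := mul_neg_of_neg_of_pos (not_le.1 hcon) (by positivity)
    linarith
  have hH0 : 0 ≤ H := by rw [hH]; positivity
  -- `s ≤ r T H`
  have h1 : s ≤ r * T * H := by
    set q := c * (r * T) with hq
    have hq0 : 0 < q := by positivity
    have e1 : r * T * H = M * Y * (r * T) + (q / 2 + M * (T - 1) / (2 * q)) := by
      rw [hH, ← hG, hq]
      field_simp
      ring
    have e2 : M * σ ≤ M * Y * (r * T) := by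
      calc M * σ ≤ M * (Y * r) := mul_le_mul_of_nonneg_left hσ hM.le
        _ ≤ M * (Y * r) * T := le_mul_of_one_le_right (by positivity) hT
        _ = _ := by ring
    rw [e1]
    rcases le_or_gt s (M * σ) with h2 | h2
    · have : 0 ≤ q / 2 + M * (T - 1) / (2 * q) := by
        have : 0 ≤ T - 1 := by linarith
        positivity
      linarith
    · have h3 : (s - M * σ) ^ 2 ≤ M * (T - 1) := by
        have h4 : (s - M * σ) ^ 2 ≤ (s - M * σ) * s := by
          rw [sq]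
          apply mul_le_mul_of_nonneg_left _ (by linarith)
          have : 0 ≤ M * σ := by positivity
          linarith
        have e3 : (s - M * σ) * s = s ^ 2 - M * (s * σ) := by ring
        linarith
      have h5 : s - M * σ ≤ q / 2 + M * (T - 1) / (2 * q) := by
        have h6 : 0 ≤ (s - M * σ - q) ^ 2 := sq_nonneg _
        have h7 : (s - M * σ) * (2 * q) ≤ q ^ 2 + M * (T - 1) := by
          have e4 : (s - M * σ - q) ^ 2 = (s - M * σ) ^ 2 - (s - M * σ) * (2 * q) + q ^ 2 := by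
            ring
          linarith
        have e5 : q / 2 + M * (T - 1) / (2 * q) = (q ^ 2 + M * (T - 1)) / (2 * q) := by
          field_simp
        rw [e5, le_div_iff₀ (by positivity)]
        exact h7
      linarith
  -- `2 sin β ≤ r τ H`
  have h2 : 2 * Real.sin β ≤ r * τ * H := by
    have h3 : (T + 1) * Real.sin β ≤ r * T * H := by rw [← hsd]; exact h1
    have h4 : 2 * τ ≤ T + 1 := by rw [← hτ]; nlinarith [sq_nonneg (τ - 1)]
    have h5 : 2 * τ * Real.sin β ≤ (T + 1) * Real.sin β := mul_le_mul_of_nonneg_right h4 hsβ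
    have h6 : τ * (2 * Real.sin β) ≤ τ * (r * τ * H) := by
      calc τ * (2 * Real.sin β) = 2 * τ * Real.sin β := by ring
        _ ≤ r * T * H := h5.trans h3
        _ = _ := by rw [← hτ]; ring
    exact le_of_mul_le_mul_left h6 hτ0
  have h3 : 2 * Real.sin β * Real.cos (Λ + β) ≤ r * τ * H * Real.cos Λ := by
    calc 2 * Real.sin β * Real.cos (Λ + β) ≤ 2 * Real.sin β * Real.cos Λ :=
          mul_le_mul_of_nonneg_left hcos (by positivity)
      _ ≤ _ := mul_le_mul_of_nonneg_right h2 hcΛ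
  -- `P ≤ r² (e + T H Y) / D`
  have h4 : P ≤ r ^ 2 * ((e + T * H * Y) / D) := by
    have e1 : r ^ 2 * ((e + T * H * Y) / D) = (e * r ^ 2 + r * T * H * (Y * r)) / D := by
      field_simp
    rw [e1, le_div_iff₀ hD]
    have h5 : s * σ ≤ r * T * H * (Y * r) := mul_le_mul h1 hσ hσ0 (by positivity)
    linarith
  have h5 : P * B ≤ r * τ * ((e + T * H * Y) / D * (Real.sin (X + v) - r / τ * Real.sin X)) := by
    calc P * B ≤ P * (τ / r * Real.sin (X + v) - Real.sin X) :=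
          mul_le_mul_of_nonneg_left hB hP0
      _ ≤ r ^ 2 * ((e + T * H * Y) / D) * (τ / r * Real.sin (X + v) - Real.sin X) :=
          mul_le_mul_of_nonneg_right h4 hB0
      _ = _ := by field_simp
  -- the gain
  have h6 : r * τ * (G * r * Real.sin Λ) ≤ (T - 1) * Real.sin Λ := by
    have h7 : r * τ * (G * r) ≤ T - 1 := by
      rw [← hG]
      have h8 : τ ≤ T ^ 2 := by
        have : τ ≤ τ ^ 4 := by
          calc τ = τ ^ 1 := (pow_one τ).symm
            _ ≤ τ ^ 4 := pow_le_pow_right₀ hτ1 (by norm_num)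
        rw [← hτ, ← pow_mul]
        exact this
      calc r * τ * (G * r) = G * r ^ 2 * τ := by ring
        _ ≤ G * r ^ 2 * T ^ 2 := mul_le_mul_of_nonneg_left h8 (by positivity)
        _ = _ := by ring
    calc r * τ * (G * r * Real.sin Λ) = r * τ * (G * r) * Real.sin Λ := by ring
      _ ≤ _ := mul_le_mul_of_nonneg_right h7 hsΛ
  have h9 := mul_le_mul_of_nonneg_left hF (by positivity : 0 ≤ r * τ)
  have e9 : r * τ * (Real.cos Λ * H + (e + T * H * Y) / D *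
      (Real.sin (X + v) - r / τ * Real.sin X)) = r * τ * H * Real.cos Λ +
      r * τ * ((e + T * H * Y) / D * (Real.sin (X + v) - r / τ * Real.sin X)) := by ring
  have e10 : r * τ * (Real.sin Ω + G * r * Real.sin Λ) = r * τ * Real.sin Ω +
      r * τ * (G * r * Real.sin Λ) := by ring
  rw [e9, e10] at h9
  linarith

end EQS
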