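import Pool.Agent.Lib.MP_226de1_co.E.TwoNum

/-! Unit disc exit, side V: real-variable numerics (boxes) and the concavity in `k`. -/

set_option autoImplicit false

namespace EQD

open Real Set

theorem dv_sin_ge7 {x : ℝ} (hx : 0 ≤ x) :
    x - x ^ 3 / 6 + x ^ 5 / 120 - x ^ 7 / 5040 ≤ Real.sin x := by
  apply EQS.le_of_deriv_le (g' := Real.cos)
    (f := fun x : ℝ => x - x ^ 3 / 6 + x ^ 5 / 120 - x ^ 7 / 5040)
    (f' := fun x => 1 - x ^ 2 / 2 + x ^ 4 / 24 - x ^ 6 / 720) _ Real.hasDerivAt_sin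
    (by simp) _ hx
  · intro y
    refine ((((hasDerivAt_id' y).fun_sub ((hasDerivAt_pow 3 y).div_const 6)).fun_add
      ((hasDerivAt_pow 5 y).div_const 120)).fun_sub
      ((hasDerivAt_pow 7 y).div_const 5040)).congr_deriv ?_
    norm_num
    try ring
  · intro y hy
    exact EQS.cos_ge6 hy

/-- lower bound of the left side on a box -/
theorem dv_lb {y X g g0 s : ℝ} (hy : 0 < y) (hg : g ≤ g0) (hw0 : 0 ≤ (3.1415 - g0 - X) / y)
    (hb : (π - g - X) / y ≤ π / 2) (hs0 : 0 ≤ s)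
    (hs : s ≤ (3.1415 - g0 - X) / y - ((3.1415 - g0 - X) / y) ^ 3 / 6
      + ((3.1415 - g0 - X) / y) ^ 5 / 120 - ((3.1415 - g0 - X) / y) ^ 7 / 5040) :
    y ^ 2 * s ^ 2 ≤ y ^ 2 * Real.sin ((π - g - X) / y) ^ 2 := by
  have h1 := dv_sin_ge7 hw0
  have h2 : (3.1415 - g0 - X) / y ≤ (π - g - X) / y := by
    apply div_le_div_of_nonneg_right _ hy.le
    have := Real.pi_gt_d4
    linarith
  have h3 : Real.sin ((3.1415 - g0 - X) / y) ≤ Real.sin ((π - g - X) / y) := by
    apply Real.sin_le_sin_of_le_of_le_pi_div_two _ hb h2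
    have := Real.pi_pos
    linarith
  have h4 : s ≤ Real.sin ((π - g - X) / y) := by linarith
  have h5 : s ^ 2 ≤ Real.sin ((π - g - X) / y) ^ 2 := pow_le_pow_left₀ hs0 h4 2
  exact mul_le_mul_of_nonneg_left h5 (by positivity)

theorem dv_cos {g g1 c : ℝ} (h1 : 0 ≤ g1) (h : g1 ≤ g) (hp : g ≤ π / 2)
    (hc : 1 - g1 ^ 2 / 2 + g1 ^ 4 / 24 ≤ c) : Real.cos g ≤ c := by
  have h2 := EQS.cos_le4 h1
  have h3 : Real.cos g ≤ Real.cos g1 := by
    apply Real.cos_le_cos_of_nonneg_of_le_pi h1 _ h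
    have := Real.pi_pos
    linarith
  linarith

theorem dv_r1a {g : ℝ} (h1 : (1.1314 : ℝ) ≤ g) (h2 : g ≤ π / 2) :
    2 * Real.cos g < (1 : ℝ) ^ 2 * Real.sin ((π - g - 0.6436) / 1) ^ 2 := by
  have p1 := Real.pi_gt_d4
  have p2 := Real.pi_lt_d4
  have hb : (π - g - 0.6436) / 1 ≤ π / 2 := by
    rw [div_le_iff₀ (by norm_num)]; linarith
  rcases le_total g 1.31 with h3 | h3
  · have e1 := dv_lb (y := 1) (X := 0.6436) (g0 := 1.31) (s := 0.92757)
      (by norm_num) h3 (by norm_num) hb (by norm_num) (by norm_num)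
    have e2 := dv_cos (g1 := 1.1314) (c := 0.42825) (by norm_num) h1 h2 (by norm_num)
    linarith
  replace h1 := h3
  have e1 := dv_lb (y := 1) (X := 0.6436) (g0 := 1.5708) (s := 0.79988)
    (by norm_num) (by linarith : g ≤ 1.5708) (by norm_num) hb (by norm_num) (by norm_num)
  have e2 := dv_cos (g1 := 1.31) (c := 0.26466) (by norm_num) h1 h2 (by norm_num)
  linarith

theorem dv_r1b {g : ℝ} (h1 : (1.1314 : ℝ) ≤ g) (h2 : g ≤ π / 2) :
    2 * Real.cos g < (1.1 : ℝ) ^ 2 * Real.sin ((π - g - 0.6436) / 1.1) ^ 2 := by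
  have p1 := Real.pi_gt_d4
  have p2 := Real.pi_lt_d4
  have hb : (π - g - 0.6436) / 1.1 ≤ π / 2 := by
    rw [div_le_iff₀ (by norm_num)]; linarith
  rcases le_total g 1.39 with h3 | h3
  · have e1 := dv_lb (y := 1.1) (X := 0.6436) (g0 := 1.39) (s := 0.84532)
      (by norm_num) h3 (by norm_num) hb (by norm_num) (by norm_num)
    have e2 := dv_cos (g1 := 1.1314) (c := 0.42825) (by norm_num) h1 h2 (by norm_num)
    linarith
  replace h1 := h3
  have e1 := dv_lb (y := 1.1) (X := 0.6436) (g0 := 1.5708) (s := 0.74652)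
    (by norm_num) (by linarith : g ≤ 1.5708) (by norm_num) hb (by norm_num) (by norm_num)
  have e2 := dv_cos (g1 := 1.39) (c := 0.1895) (by norm_num) h1 h2 (by norm_num)
  linarith

theorem dv_r2a {g : ℝ} (h1 : (0.9744 : ℝ) ≤ g) (h2 : g ≤ π / 2) :
    2 * Real.cos g < (1.1 : ℝ) ^ 2 * Real.sin ((π - g - 0.6436) / 1.1) ^ 2 := by
  have p1 := Real.pi_gt_d4
  have p2 := Real.pi_lt_d4
  have hb : (π - g - 0.6436) / 1.1 ≤ π / 2 := by
    rw [div_le_iff₀ (by norm_num)]; linarith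
  rcases le_total g 1.06 with h3 | h3
  · have e1 := dv_lb (y := 1.1) (X := 0.6436) (g0 := 1.06) (s := 0.96542)
      (by norm_num) h3 (by norm_num) hb (by norm_num) (by norm_num)
    have e2 := dv_cos (g1 := 0.9744) (c := 0.56284) (by norm_num) h1 h2 (by norm_num)
    linarith
  replace h1 := h3
  rcases le_total g 1.26 with h3 | h3
  · have e1 := dv_lb (y := 1.1) (X := 0.6436) (g0 := 1.26) (s := 0.90241)
      (by norm_num) h3 (by norm_num) hb (by norm_num) (by norm_num)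
    have e2 := dv_cos (g1 := 1.06) (c := 0.49081) (by norm_num) h1 h2 (by norm_num)
    linarith
  replace h1 := h3
  have e1 := dv_lb (y := 1.1) (X := 0.6436) (g0 := 1.5708) (s := 0.74652)
    (by norm_num) (by linarith : g ≤ 1.5708) (by norm_num) hb (by norm_num) (by norm_num)
  have e2 := dv_cos (g1 := 1.26) (c := 0.31122) (by norm_num) h1 h2 (by norm_num)
  linarith

theorem dv_r2b {g : ℝ} (h1 : (0.9744 : ℝ) ≤ g) (h2 : g ≤ π / 2) :
    2 * Real.cos g < (1.25 : ℝ) ^ 2 * Real.sin ((π - g - 0.6436) / 1.25) ^ 2 := by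
  have p1 := Real.pi_gt_d4
  have p2 := Real.pi_lt_d4
  have hb : (π - g - 0.6436) / 1.25 ≤ π / 2 := by
    rw [div_le_iff₀ (by norm_num)]; linarith
  rcases le_total g 1.23 with h3 | h3
  · have e1 := dv_lb (y := 1.25) (X := 0.6436) (g0 := 1.23) (s := 0.84911)
      (by norm_num) h3 (by norm_num) hb (by norm_num) (by norm_num)
    have e2 := dv_cos (g1 := 0.9744) (c := 0.56284) (by norm_num) h1 h2 (by norm_num)
    linarith
  replace h1 := h3
  have e1 := dv_lb (y := 1.25) (X := 0.6436) (g0 := 1.5708) (s := 0.67552)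
    (by norm_num) (by linarith : g ≤ 1.5708) (by norm_num) hb (by norm_num) (by norm_num)
  have e2 := dv_cos (g1 := 1.23) (c := 0.33892) (by norm_num) h1 h2 (by norm_num)
  linarith

theorem dv_r3a {g : ℝ} (h1 : (0.7978 : ℝ) ≤ g) (h2 : g ≤ π / 2) :
    2 * Real.cos g < (1.25 : ℝ) ^ 2 * Real.sin ((π - g - 0.5797) / 1.25) ^ 2 := by
  have p1 := Real.pi_gt_d4
  have p2 := Real.pi_lt_d4
  have hb : (π - g - 0.5797) / 1.25 ≤ π / 2 := by
    rw [div_le_iff₀ (by norm_num)]; linarith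
  rcases le_total g 1.01 with h3 | h3
  · have e1 := dv_lb (y := 1.25) (X := 0.5797) (g0 := 1.01) (s := 0.94623)
      (by norm_num) h3 (by norm_num) hb (by norm_num) (by norm_num)
    have e2 := dv_cos (g1 := 0.7978) (c := 0.69864) (by norm_num) h1 h2 (by norm_num)
    linarith
  replace h1 := h3
  rcases le_total g 1.34 with h3 | h3
  · have e1 := dv_lb (y := 1.25) (X := 0.5797) (g0 := 1.34) (s := 0.82906)
      (by norm_num) h3 (by norm_num) hb (by norm_num) (by norm_num)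
    have e2 := dv_cos (g1 := 1.01) (c := 0.53331) (by norm_num) h1 h2 (by norm_num)
    linarith
  replace h1 := h3
  have e1 := dv_lb (y := 1.25) (X := 0.5797) (g0 := 1.5708) (s := 0.71232)
    (by norm_num) (by linarith : g ≤ 1.5708) (by norm_num) hb (by norm_num) (by norm_num)
  have e2 := dv_cos (g1 := 1.34) (c := 0.23655) (by norm_num) h1 h2 (by norm_num)
  linarith

theorem dv_r3b {g : ℝ} (h1 : (0.7978 : ℝ) ≤ g) (h2 : g ≤ π / 2) :
    2 * Real.cos g < (1.5 : ℝ) ^ 2 * Real.sin ((π - g - 0.5797) / 1.5) ^ 2 ∧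
      3 * Real.cos g - 3 / 4 < (1.5 : ℝ) ^ 2 * Real.sin ((π - g - 0.5797) / 1.5) ^ 2 := by
  have p1 := Real.pi_gt_d4
  have p2 := Real.pi_lt_d4
  have hb : (π - g - 0.5797) / 1.5 ≤ π / 2 := by
    rw [div_le_iff₀ (by norm_num)]; linarith
  rcases le_total g 1.2 with h3 | h3
  · have e1 := dv_lb (y := 1.5) (X := 0.5797) (g0 := 1.2) (s := 0.78819)
      (by norm_num) h3 (by norm_num) hb (by norm_num) (by norm_num)
    have e2 := dv_cos (g1 := 0.7978) (c := 0.69864) (by norm_num) h1 h2 (by norm_num)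
    constructor <;> linarith
  replace h1 := h3
  have e1 := dv_lb (y := 1.5) (X := 0.5797) (g0 := 1.5708) (s := 0.61364)
    (by norm_num) (by linarith : g ≤ 1.5708) (by norm_num) hb (by norm_num) (by norm_num)
  have e2 := dv_cos (g1 := 1.2) (c := 0.3664) (by norm_num) h1 h2 (by norm_num)
  constructor <;> linarith

theorem dv_r4a {g : ℝ} (h1 : (0.349 : ℝ) ≤ g) (h2 : g ≤ π / 2) :
    2 * Real.cos g < (1.5 : ℝ) ^ 2 * Real.sin ((π - g - 0.5236) / 1.5) ^ 2 ∧
      3 * Real.cos g - 3 / 4 < (1.5 : ℝ) ^ 2 * Real.sin ((π - g - 0.5236) / 1.5) ^ 2 := by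
  have p1 := Real.pi_gt_d4
  have p2 := Real.pi_lt_d4
  have hb : (π - g - 0.5236) / 1.5 ≤ π / 2 := by
    rw [div_le_iff₀ (by norm_num)]; linarith
  rcases le_total g 0.69 with h3 | h3
  · have e1 := dv_lb (y := 1.5) (X := 0.5236) (g0 := 0.69) (s := 0.95948)
      (by norm_num) h3 (by norm_num) hb (by norm_num) (by norm_num)
    have e2 := dv_cos (g1 := 0.349) (c := 0.93972) (by norm_num) h1 h2 (by norm_num)
    constructor <;> linarith
  replace h1 := h3
  rcases le_total g 1.13 with h3 | h3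
  · have e1 := dv_lb (y := 1.5) (X := 0.5236) (g0 := 1.13) (s := 0.83708)
      (by norm_num) h3 (by norm_num) hb (by norm_num) (by norm_num)
    have e2 := dv_cos (g1 := 0.69) (c := 0.7714) (by norm_num) h1 h2 (by norm_num)
    constructor <;> linarith
  replace h1 := h3
  have e1 := dv_lb (y := 1.5) (X := 0.5236) (g0 := 1.5708) (s := 0.64273)
    (by norm_num) (by linarith : g ≤ 1.5708) (by norm_num) hb (by norm_num) (by norm_num)
  have e2 := dv_cos (g1 := 1.13) (c := 0.42949) (by norm_num) h1 h2 (by norm_num)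
  constructor <;> linarith

end EQD
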