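import Mathlib
import Pool.Agent.Lib.MP_226de1_co.E.DVNum
import Pool.Agent.Lib.MP_226de1_co.E.DShE0
import Pool.Agent.Lib.MP_226de1_co.E.DShE1

/-! Closed inequality (H), `t ≥ 1`, `1/8 ≤ κ ≤ 1/5`: numerics and the three cases. -/

set_option autoImplicit false

namespace EQS

theorem shE_sin {z : ℝ} (h0 : 0 ≤ z) (h1 : z ^ 2 ≤ 2) :
    z - z ^ 3 / 6 + z ^ 5 / 126 ≤ Real.sin z := by
  have h2 := EQD.dv_sin_ge7 h0
  have h3 : 0 ≤ z ^ 5 * (2 - z ^ 2) := mul_nonneg (by positivity) (by linarith)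
  nlinarith

theorem shE_sin' {z : ℝ} (h0 : 0 ≤ z) (h1 : z ^ 2 ≤ 3.2) :
    z - z ^ 3 / 6 + z ^ 5 / 130 ≤ Real.sin z := by
  have h2 := EQD.dv_sin_ge7 h0
  have h3 : 0 ≤ z ^ 5 * (3.2 - z ^ 2) := mul_nonneg (by positivity) (by linarith)
  have h4 : 0 ≤ z ^ 5 := by positivity
  nlinarith

/-- `2^(1/8)`, ... -/
theorem shE_n1 : (2 : ℝ) ^ (1 / 8 : ℝ) ≤ 1.09051 := by
  have := shE_root (b := 2) (u := 1.09051) (n := 8) (by norm_num) (by norm_num) (by norm_num)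
    (by norm_num)
  push_cast at this
  exact this

theorem shE_n2 : (2 : ℝ) ^ (1 / 5 : ℝ) ≤ 1.1487 := by
  have := shE_root (b := 2) (u := 1.1487) (n := 5) (by norm_num) (by norm_num) (by norm_num)
    (by norm_num)
  push_cast at this
  exact this

theorem shE_n3 : (2 : ℝ) ^ (1 / 4 : ℝ) ≤ 1.18921 := by
  have := shE_root (b := 2) (u := 1.18921) (n := 4) (by norm_num) (by norm_num) (by norm_num)
    (by norm_num)
  push_cast at this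
  exact this

theorem shE_n4 : (2 : ℝ) ^ (2 / 5 : ℝ) ≤ 1.31951 := by
  have := shE_root (b := 4) (u := 1.31951) (n := 5) (by norm_num) (by norm_num) (by norm_num)
    (by norm_num)
  push_cast at this
  have e : (2 : ℝ) ^ (2 / 5 : ℝ) = 4 ^ (1 / 5 : ℝ) := by
    rw [show (4 : ℝ) = 2 ^ (2 : ℝ) by norm_num, ← Real.rpow_mul (by norm_num)]
    norm_num
  rw [e]
  exact this

theorem shE_n5 : (3 / 2 : ℝ) ^ (1 / 4 : ℝ) ≤ 1.10669 := by
  have := shE_root (b := 3 / 2) (u := 1.10669) (n := 4) (by norm_num) (by norm_num) (by norm_num)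
    (by norm_num)
  push_cast at this
  exact this

theorem shE_n6 : (3 / 2 : ℝ) ^ (2 / 5 : ℝ) ≤ 1.17608 := by
  have := shE_root (b := 9 / 4) (u := 1.17608) (n := 5) (by norm_num) (by norm_num)
    (by norm_num) (by norm_num)
  push_cast at this
  have e : (3 / 2 : ℝ) ^ (2 / 5 : ℝ) = (9 / 4) ^ (1 / 5 : ℝ) := by
    rw [show (9 / 4 : ℝ) = (3 / 2) ^ (2 : ℝ) by norm_num, ← Real.rpow_mul (by norm_num)]
    norm_num
  rw [e]
  exact this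

theorem shE_X {κ X : ℝ} (h0 : 1 / 8 ≤ κ) (h1 : κ ≤ 1 / 5) (hX : X = κ * (Real.pi / 2)) :
    0.1963 ≤ X ∧ X ≤ 0.3142 ∧ κ * 1.57075 ≤ X := by
  have p0 := Real.pi_gt_d4
  have p1 := Real.pi_lt_d4
  refine ⟨?_, ?_, ?_⟩
  · rw [hX]
    nlinarith
  · rw [hX]
    nlinarith
  · rw [hX]
    nlinarith

theorem shE_2 {κ X : ℝ} (h0 : 1 / 8 ≤ κ) (h1 : κ ≤ 1 / 5) (hX : X = κ * (Real.pi / 2)) :
    (2 : ℝ) ^ κ ≤ 0.99375 + 0.494 * X := by
  obtain ⟨_, _, h2⟩ := shE_X h0 h1 hX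
  have h3 := shE_chord (b := 2) (κ0 := 1 / 8) (κ1 := 1 / 5) (κ := κ) (by norm_num) h0 h1
    (by norm_num) shE_n1 shE_n2
  norm_num at h3 ⊢
  linarith

theorem shE_2a {κ X : ℝ} (h0 : 1 / 8 ≤ κ) (h1 : κ ≤ 1 / 5) (hX : X = κ * (Real.pi / 2)) :
    (2 : ℝ) ^ (2 * κ) ≤ 0.9721 + 1.1061 * X := by
  obtain ⟨_, _, h2⟩ := shE_X h0 h1 hX
  have h3 := shE_chord (b := 2) (κ0 := 1 / 4) (κ1 := 2 / 5) (κ := 2 * κ) (by norm_num)
    (by linarith) (by linarith) (by norm_num) shE_n3 shE_n4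
  norm_num at h3 ⊢
  linarith

theorem shE_2l {κ : ℝ} (h0 : 1 / 8 ≤ κ) : (1.1892 : ℝ) ≤ (2 : ℝ) ^ (2 * κ) := by
  have h1 : (2 : ℝ) ^ (1 / 4 : ℝ) ≤ (2 : ℝ) ^ (2 * κ) :=
    Real.rpow_le_rpow_of_exponent_le (by norm_num) (by linarith)
  refine le_trans ?_ h1
  have h2 : ((1.1892 : ℝ) ^ 4) ^ (1 / 4 : ℝ) ≤ (2 : ℝ) ^ (1 / 4 : ℝ) :=
    Real.rpow_le_rpow (by norm_num) (by norm_num) (by norm_num)
  have h3 : ((1.1892 : ℝ) ^ 4) ^ (1 / 4 : ℝ) = 1.1892 := by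
    have := Real.pow_rpow_inv_natCast (x := 1.1892) (n := 4) (by norm_num) (by norm_num)
    push_cast at this
    rw [one_div]
    exact this
  linarith

theorem shE_32 {κ X : ℝ} (h0 : 1 / 8 ≤ κ) (h1 : κ ≤ 1 / 5) (hX : X = κ * (Real.pi / 2)) :
    (3 / 2 : ℝ) ^ (2 * κ) ≤ 0.9911 + 0.5891 * X := by
  obtain ⟨_, _, h2⟩ := shE_X h0 h1 hX
  have h3 := shE_chord (b := 3 / 2) (κ0 := 1 / 4) (κ1 := 2 / 5) (κ := 2 * κ) (by norm_num)
    (by linarith) (by linarith) (by norm_num) shE_n5 shE_n6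
  norm_num at h3 ⊢
  linarith

theorem shE_D {X : ℝ} (h0 : 0.1963 ≤ X) (h1 : X ≤ 0.3142) :
    0 < 1 + Real.sin (2 * X) ∧ 1 ≤ 0.7234 * (1 + Real.sin (2 * X)) ∧
      1 ≤ (0.8795 - 0.7925 * X) * (1 + Real.sin (2 * X)) := by
  norm_num at h0 h1
  have h2 := sin_ge3 (x := 2 * X) (by linarith)
  have h3 : 0.3825 ≤ Real.sin (2 * X) := by
    refine le_trans ?_ h2
    norm_num
    nlinarith [mul_nonneg (by linarith : 0 ≤ X - 1963 / 10000)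
      (by linarith : 0 ≤ 1571 / 5000 - X), sq_nonneg X]
  refine ⟨by linarith, by norm_num at h3 ⊢; linarith, ?_⟩
  have h4 : 0 < 0.8795 - 0.7925 * X := by norm_num; linarith
  have h5 := mul_le_mul_of_nonneg_left h2 h4.le
  norm_num at h5 ⊢
  nlinarith [mul_nonneg (by linarith : 0 ≤ X - 1963 / 10000)
      (by linarith : 0 ≤ 1571 / 5000 - X), sq_nonneg X, mul_nonneg (mul_nonneg (by linarith : 0 ≤ X - 1963 / 10000)
      (by linarith : 0 ≤ 1571 / 5000 - X)) (by linarith : 0 ≤ X)]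

end EQS
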