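import Mathlib
import Pool.Agent.Lib.MP_226de1_co.E.DShE2

/-! Closed inequality (H), `t ≥ 1`, `1/8 ≤ κ ≤ 1/5`: the final inequalities of the three cases. -/

set_option autoImplicit false

namespace EQS

theorem shE_sin_sub {u v : ℝ} (h : v ≤ u) : Real.sin u - Real.sin v ≤ u - v := by
  have h1 : |Real.sin u - Real.sin v| ≤ |u - v| := by
    have e : Real.sin u - Real.sin v = 2 * Real.sin ((u - v) / 2) * Real.cos ((u + v) / 2) :=
      Real.sin_sub_sin u v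
    rw [e, abs_mul, abs_mul, abs_two]
    have h2 : |Real.sin ((u - v) / 2)| ≤ |(u - v) / 2| := Real.abs_sin_le_abs
    have h3 := Real.abs_cos_le_one ((u + v) / 2)
    rw [abs_div, abs_two] at h2
    calc 2 * |Real.sin ((u - v) / 2)| * |Real.cos ((u + v) / 2)| ≤ 2 * (|u - v| / 2) * 1 :=
          mul_le_mul (by linarith) h3 (abs_nonneg _) (by positivity)
      _ = _ := by ring
  rw [abs_of_nonneg (by linarith : 0 ≤ u - v)] at h1
  exact (le_abs_self _).trans h1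

theorem shE_finA {X Y v Ω M T T1 r q G D : ℝ} (hX0 : 0.1963 ≤ X) (hX1 : X ≤ 0.3142)
    (hY0 : 0 ≤ Y) (hYX : Y ≤ X / 2) (hv0 : 0 ≤ v) (hvY : v ≤ Y) (hM0 : 2 ≤ M)
    (hM : M ≤ 1.9875 + 0.988 * X) (hT0 : 0 ≤ T) (hT : T ≤ 1.32) (hT1 : T1 ≤ 0.9721 + 1.1061 * X)
    (hT1l : 1.1892 ≤ T1) (hr0 : 0.87 ≤ r) (hr1 : r ≤ 1) (hq : 1 / T1 ≤ q) (hG0 : 0 ≤ G)
    (hG : G ≤ 0.0194 + 0.6192 * X) (hD : D = 1 + Real.sin (2 * X)) (hΩ0 : 3 * X + 3 * Y ≤ Ω)
    (hΩ1 : Ω ≤ Real.pi / 2) :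
    Real.cos (X + 2 * Y) * (M * Y + 0.57 / 2 + M / (2 * 0.57) * G) +
      ((T1 - 1) + T * (M * Y + 0.57 / 2 + M / (2 * 0.57) * G) * Y) / D *
        (Real.sin (X + v) - q * Real.sin X) ≤
      Real.sin Ω + G * r * Real.sin (X + 2 * Y) := by
  obtain ⟨D0, D1, _⟩ := shE_D hX0 hX1
  rw [← hD] at D0 D1
  have hpi := Real.pi_pos
  obtain ⟨c, hc⟩ : ∃ c : ℝ, c = 0.57 := ⟨_, rfl⟩
  have hc0 : 0 < c := by rw [hc]; norm_num
  rw [← hc]
  have hX0' : 0 < X := lt_of_lt_of_le (by norm_num) hX0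
  obtain ⟨L, hL⟩ : ∃ L, L = X + 2 * Y := ⟨_, rfl⟩
  have hL0 : 0 < L := by rw [hL]; linarith
  have hL1 : L ≤ 0.6284 := by rw [hL]; norm_num at hX1 ⊢; linarith
  have hL2 : L ^ 2 ≤ 0.3949 := by
    calc L ^ 2 ≤ 0.6284 ^ 2 := pow_le_pow_left₀ hL0.le hL1 2
      _ ≤ _ := by norm_num
  have cos1 : Real.cos L ≤ 1 - 0.4835 * L ^ 2 := by
    have h1 := cos_le4 hL0.le
    have h2 : L ^ 4 ≤ 0.3949 * L ^ 2 := by
      calc L ^ 4 = L ^ 2 * L ^ 2 := by ring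
        _ ≤ 0.3949 * L ^ 2 := mul_le_mul_of_nonneg_right hL2 (sq_nonneg _)
    norm_num at h2 ⊢
    have := sq_nonneg L
    linarith
  have cos0 : 0.8 ≤ Real.cos L := by
    have h1 := Real.one_sub_sq_div_two_le_cos (x := L)
    norm_num at hL2 h1 ⊢
    linarith
  have sin0 : 0.934 * L ≤ Real.sin L := by
    have h1 := sin_ge3 hL0.le
    have h2 : L ^ 3 ≤ 0.3949 * L := by
      calc L ^ 3 = L ^ 2 * L := by ring
        _ ≤ 0.3949 * L := mul_le_mul_of_nonneg_right hL2 hL0.le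
    norm_num at h2 ⊢
    linarith
  have sin1 := Real.sin_le_one L
  obtain ⟨Mb, hMb⟩ : ∃ Mb, Mb = 1.9875 + 0.988 * X := ⟨_, rfl⟩
  obtain ⟨Gb, hGb⟩ : ∃ Gb, Gb = 0.0194 + 0.6192 * X := ⟨_, rfl⟩
  obtain ⟨e, he⟩ : ∃ e, e = 1.1061 * X - 0.0279 := ⟨_, rfl⟩
  rw [← hMb] at hM
  rw [← hGb] at hG
  have hGb0 : 0 ≤ Gb := hG0.trans hG
  have hMb0 : 2 ≤ Mb := hM0.trans hM
  have he1 : T1 - 1 ≤ e := by rw [he]; norm_num at hT1 ⊢; linarith
  have he0 : 0 ≤ T1 - 1 := by norm_num at hT1l; linarith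
  obtain ⟨H, hH⟩ : ∃ H, H = M * Y + c / 2 + M / (2 * c) * G := ⟨_, rfl⟩
  obtain ⟨Hb, hHb⟩ : ∃ Hb, Hb = Mb * Y + c / 2 + Mb / (2 * c) * Gb := ⟨_, rfl⟩
  rw [← hH, ← hL]
  have hH0 : 0 ≤ H := by rw [hH]; positivity
  have hdiv : M / (2 * c) ≤ Mb / (2 * c) := div_le_div_of_nonneg_right hM (by positivity)
  have hHHb : H ≤ Hb := by
    rw [hH, hHb]
    have h1 : M * Y ≤ Mb * Y := mul_le_mul_of_nonneg_right hM hY0
    have h2 : M / (2 * c) * G ≤ Mb / (2 * c) * Gb :=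
      mul_le_mul hdiv hG hG0 (by positivity)
    linarith
  -- first part
  have s1 : Real.cos L * H - G * r * Real.sin L ≤
      (1 - 0.4835 * L ^ 2) * Hb - 0.87 * 0.934 * Gb * L := by
    have h1 : r * Real.sin L ≤ Real.cos L * (M / (2 * c)) := by
      have h2 : r * Real.sin L ≤ 1 * 1 :=
        mul_le_mul hr1 sin1 (le_trans (by positivity) sin0) (by norm_num)
      have h3 : 1.75 ≤ M / (2 * c) := by
        rw [le_div_iff₀ (by positivity), hc]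
        norm_num at hM0 ⊢
        linarith
      have h4 : 0.8 * 1.75 ≤ Real.cos L * (M / (2 * c)) :=
        mul_le_mul cos0 h3 (by norm_num) (le_trans (by norm_num) cos0)
      norm_num at h4
      linarith
    have h5 : G * (Real.cos L * (M / (2 * c)) - r * Real.sin L) ≤
        Gb * (Real.cos L * (M / (2 * c)) - r * Real.sin L) :=
      mul_le_mul_of_nonneg_right hG (by linarith)
    have h6 : Real.cos L * (M * Y + c / 2 + M / (2 * c) * Gb) ≤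
        (1 - 0.4835 * L ^ 2) * Hb := by
      rw [hHb]
      apply mul_le_mul cos1 _ (by positivity) (le_trans (le_trans (by norm_num) cos0) cos1)
      have h1 : M * Y ≤ Mb * Y := mul_le_mul_of_nonneg_right hM hY0
      have h2 : M / (2 * c) * Gb ≤ Mb / (2 * c) * Gb := mul_le_mul_of_nonneg_right hdiv hGb0
      linarith
    have h7 : 0.87 * 0.934 * Gb * L ≤ Gb * (r * Real.sin L) := by
      have h8 : 0.87 * (0.934 * L) ≤ r * Real.sin L :=
        mul_le_mul hr0 sin0 (by positivity) (le_trans (by norm_num) hr0)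
      have := mul_le_mul_of_nonneg_left h8 hGb0
      linarith
    rw [hH]
    linarith
  -- second part
  have s2 : ((T1 - 1) + T * H * Y) / D * (Real.sin (X + v) - q * Real.sin X) ≤
      0.7234 * (e + 1.32 * Hb * Y) * (Y + 0.841 * e * X) := by
    have h1 : Real.sin (X + v) - q * Real.sin X ≤ Y + 0.841 * e * X := by
      have h2 := shE_sin_sub (u := X + v) (v := X) (by linarith)
      have h3 : Real.sin X ≤ X := Real.sin_le hX0'.le
      have h4 : 0 ≤ Real.sin X := Real.sin_nonneg_of_nonneg_of_le_pi hX0'.le (by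
        norm_num at hX1; linarith [Real.pi_gt_three])
      have h5 : 1 / T1 * Real.sin X ≤ q * Real.sin X := mul_le_mul_of_nonneg_right hq h4
      have h6 : 1 - 1 / T1 ≤ 0.841 * (T1 - 1) := by
        have hT1p : 0 < T1 := by linarith
        rw [← sub_nonneg]
        have e1 : 0.841 * (T1 - 1) - (1 - 1 / T1) = (T1 - 1) * (0.841 - 1 / T1) := by
          field_simp
        rw [e1]
        apply mul_nonneg he0
        rw [sub_nonneg, div_le_iff₀ hT1p]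
        norm_num at hT1l ⊢
        linarith
      have h7 : (1 - 1 / T1) * Real.sin X ≤ 0.841 * e * X := by
        calc (1 - 1 / T1) * Real.sin X ≤ 0.841 * (T1 - 1) * Real.sin X :=
              mul_le_mul_of_nonneg_right h6 h4
          _ ≤ 0.841 * e * X := by
              apply mul_le_mul _ h3 h4 (by
                have : 0 ≤ e := he0.trans he1
                positivity)
              have := mul_le_mul_of_nonneg_left he1 (by norm_num : (0 : ℝ) ≤ 0.841)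
              exact this
      linarith
    have he00 : 0 ≤ e := he0.trans he1
    have hHb0 : 0 ≤ Hb := hH0.trans hHHb
    have h8 : T * H * Y ≤ 1.32 * Hb * Y :=
      mul_le_mul_of_nonneg_right (mul_le_mul hT hHHb hH0 (by norm_num)) hY0
    have h9 : 0 ≤ (T1 - 1) + T * H * Y := by positivity
    have h10 : ((T1 - 1) + T * H * Y) / D ≤ 0.7234 * (e + 1.32 * Hb * Y) := by
      rw [div_le_iff₀ D0]
      calc (T1 - 1) + T * H * Y ≤ (e + 1.32 * Hb * Y) * 1 := by linarith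
        _ ≤ (e + 1.32 * Hb * Y) * (0.7234 * D) :=
            mul_le_mul_of_nonneg_left D1 (by positivity)
        _ = _ := by ring
    calc ((T1 - 1) + T * H * Y) / D * (Real.sin (X + v) - q * Real.sin X) ≤
          ((T1 - 1) + T * H * Y) / D * (Y + 0.841 * e * X) :=
            mul_le_mul_of_nonneg_left h1 (div_nonneg h9 D0.le)
      _ ≤ _ := mul_le_mul_of_nonneg_right h10 (by positivity)
  have s3 : (3 * X + 3 * Y) - (3 * X + 3 * Y) ^ 3 / 6 + (3 * X + 3 * Y) ^ 5 / 126 ≤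
      Real.sin Ω := by
    have hz : 0 ≤ 3 * X + 3 * Y := by linarith
    have hz1 : 3 * X + 3 * Y ≤ 1.4139 := by norm_num at hX1 ⊢; linarith
    refine (shE_sin hz ?_).trans ?_
    · calc (3 * X + 3 * Y) ^ 2 ≤ 1.4139 ^ 2 := pow_le_pow_left₀ hz hz1 2
        _ ≤ 2 := by norm_num
    · apply Real.sin_le_sin_of_le_of_le_pi_div_two <;> linarith
  have key := shE_pA (X := X) (Y := Y) (by norm_num at hX0 ⊢; linarith)
    (by norm_num at hX1 ⊢; linarith) hY0 (by norm_num at hX1 ⊢; linarith)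
  rw [← hMb, ← hGb, ← he, ← hc, ← hL, ← hHb] at key
  linarith

theorem shE_finB {X Y v Ω M T e r q G D : ℝ} (hX0 : 0.1963 ≤ X) (hX1 : X ≤ 0.3142)
    (hY0 : 0 ≤ Y) (hYX : Y ≤ X / 2) (hv0 : 0 ≤ v) (hvY : v ≤ 2 / 3 * Y) (hM0 : 2 ≤ M)
    (hM : M ≤ 1.9875 + 0.988 * X) (hT0 : 0 ≤ T) (hT : T ≤ 1.177) (he0 : 0 ≤ e)
    (he : e ≤ (0.9721 + 1.1061 * X) * (0.5891 * X - 0.0089))
    (hr0 : 0 ≤ r) (hq : 0 ≤ q) (hG0 : 0 ≤ G) (hG : G ≤ e)
    (hD : D = 1 + Real.sin (2 * X)) (hΩ0 : 3 * X + 3 * Y ≤ Ω) (hΩ1 : Ω ≤ Real.pi / 2) :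
    Real.cos (X + 2 * Y) * (M * (0.767 * Y) + 0.57 / 2 + M / (2 * 0.57) * G) +
      (e + T * (M * (0.767 * Y) + 0.57 / 2 + M / (2 * 0.57) * G) * (0.767 * Y)) / D *
        (Real.sin (X + v) - q * Real.sin X) ≤
      Real.sin Ω + G * r * Real.sin (X + 2 * Y) := by
  obtain ⟨D0, _, D1⟩ := shE_D hX0 hX1
  rw [← hD] at D0 D1
  have hpi := Real.pi_pos
  obtain ⟨c, hc⟩ : ∃ c : ℝ, c = 0.57 := ⟨_, rfl⟩
  have hc0 : 0 < c := by rw [hc]; norm_num
  rw [← hc]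
  obtain ⟨Z, hZ⟩ : ∃ Z : ℝ, Z = 0.767 * Y := ⟨_, rfl⟩
  have hZ0 : 0 ≤ Z := by rw [hZ]; positivity
  rw [← hZ]
  have hX0' : 0 < X := lt_of_lt_of_le (by norm_num) hX0
  obtain ⟨L, hL⟩ : ∃ L, L = X + 2 * Y := ⟨_, rfl⟩
  have hL0 : 0 < L := by rw [hL]; linarith
  have hL1 : L ≤ 0.6284 := by rw [hL]; norm_num at hX1 ⊢; linarith
  have hL2 : L ^ 2 ≤ 0.3949 := by
    calc L ^ 2 ≤ 0.6284 ^ 2 := pow_le_pow_left₀ hL0.le hL1 2
      _ ≤ _ := by norm_num
  have cos1 : Real.cos L ≤ 1 - 0.4835 * L ^ 2 := by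
    have h1 := cos_le4 hL0.le
    have h2 : L ^ 4 ≤ 0.3949 * L ^ 2 := by
      calc L ^ 4 = L ^ 2 * L ^ 2 := by ring
        _ ≤ 0.3949 * L ^ 2 := mul_le_mul_of_nonneg_right hL2 (sq_nonneg _)
    norm_num at h2 ⊢
    have := sq_nonneg L
    linarith
  have cos0 : 0.8 ≤ Real.cos L := by
    have h1 := Real.one_sub_sq_div_two_le_cos (x := L)
    norm_num at hL2 h1 ⊢
    linarith
  have sin0 : 0 ≤ Real.sin L := Real.sin_nonneg_of_nonneg_of_le_pi hL0.le (by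
    norm_num at hL1; linarith [Real.pi_gt_three])
  obtain ⟨Mb, hMb⟩ : ∃ Mb, Mb = 1.9875 + 0.988 * X := ⟨_, rfl⟩
  obtain ⟨Gb, hGb⟩ : ∃ Gb, Gb = (0.9721 + 1.1061 * X) * (0.5891 * X - 0.0089) := ⟨_, rfl⟩
  rw [← hMb] at hM
  rw [← hGb] at he
  have hGb0 : 0 ≤ Gb := he0.trans he
  have hMb0 : 0 ≤ Mb := by linarith
  have hGGb : G ≤ Gb := hG.trans he
  obtain ⟨H, hH⟩ : ∃ H, H = M * Z + c / 2 + M / (2 * c) * G := ⟨_, rfl⟩
  obtain ⟨Hb, hHb⟩ : ∃ Hb, Hb = Mb * Z + c / 2 + Mb / (2 * c) * Gb := ⟨_, rfl⟩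
  rw [← hH, ← hL]
  have hH0 : 0 ≤ H := by rw [hH]; positivity
  have hdiv : M / (2 * c) ≤ Mb / (2 * c) := div_le_div_of_nonneg_right hM (by positivity)
  have hHHb : H ≤ Hb := by
    rw [hH, hHb]
    have h1 : M * Z ≤ Mb * Z := mul_le_mul_of_nonneg_right hM hZ0
    have h2 : M / (2 * c) * G ≤ Mb / (2 * c) * Gb :=
      mul_le_mul hdiv hGGb hG0 (by positivity)
    linarith
  have s1 : Real.cos L * H ≤ (1 - 0.4835 * L ^ 2) * Hb :=
    mul_le_mul cos1 hHHb hH0 (le_trans (le_trans (by norm_num) cos0) cos1)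
  have s2 : (e + T * H * Z) / D * (Real.sin (X + v) - q * Real.sin X) ≤
      (0.8795 - 0.7925 * X) * (Gb + 1.177 * Hb * Z) * (X + 2 / 3 * Y) := by
    have h4 : 0 ≤ Real.sin X := Real.sin_nonneg_of_nonneg_of_le_pi hX0'.le (by
      norm_num at hX1; linarith [Real.pi_gt_three])
    have h1 : Real.sin (X + v) - q * Real.sin X ≤ X + 2 / 3 * Y := by
      have h2 : Real.sin (X + v) ≤ X + v := Real.sin_le (by linarith)
      have h5 : 0 ≤ q * Real.sin X := by positivity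
      linarith
    have hHb0 : 0 ≤ Hb := hH0.trans hHHb
    have h8 : T * H * Z ≤ 1.177 * Hb * Z :=
      mul_le_mul_of_nonneg_right (mul_le_mul hT hHHb hH0 (by norm_num)) hZ0
    have h9 : 0 ≤ e + T * H * Z := by positivity
    have h10 : (e + T * H * Z) / D ≤ (0.8795 - 0.7925 * X) * (Gb + 1.177 * Hb * Z) := by
      rw [div_le_iff₀ D0]
      calc e + T * H * Z ≤ (Gb + 1.177 * Hb * Z) * 1 := by linarith
        _ ≤ (Gb + 1.177 * Hb * Z) * ((0.8795 - 0.7925 * X) * D) :=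
            mul_le_mul_of_nonneg_left D1 (by positivity)
        _ = _ := by ring
    calc (e + T * H * Z) / D * (Real.sin (X + v) - q * Real.sin X) ≤
          (e + T * H * Z) / D * (X + 2 / 3 * Y) :=
            mul_le_mul_of_nonneg_left h1 (div_nonneg h9 D0.le)
      _ ≤ _ := mul_le_mul_of_nonneg_right h10 (by positivity)
  have s3 : (3 * X + 3 * Y) - (3 * X + 3 * Y) ^ 3 / 6 + (3 * X + 3 * Y) ^ 5 / 126 ≤
      Real.sin Ω := by
    have hz : 0 ≤ 3 * X + 3 * Y := by linarith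
    have hz1 : 3 * X + 3 * Y ≤ 1.4139 := by norm_num at hX1 ⊢; linarith
    refine (shE_sin hz ?_).trans ?_
    · calc (3 * X + 3 * Y) ^ 2 ≤ 1.4139 ^ 2 := pow_le_pow_left₀ hz hz1 2
        _ ≤ 2 := by norm_num
    · apply Real.sin_le_sin_of_le_of_le_pi_div_two <;> linarith
  have s4 : 0 ≤ G * r * Real.sin L := by positivity
  have key := shE_pB (X := X) (Y := Y) (by norm_num at hX0 ⊢; linarith)
    (by norm_num at hX1 ⊢; linarith) hY0 (by norm_num at hX1 ⊢; linarith)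
  rw [← hMb, ← hGb, ← hc, ← hL, ← hZ, ← hHb] at key
  linarith

theorem shE_finC {X Y v Ω M T e r q G D : ℝ} (hX0 : 0.1963 ≤ X) (hX1 : X ≤ 0.3142)
    (hX5 : 10 * X ≤ Real.pi)
    (hY0 : X / 2 ≤ Y) (hYX : Y ≤ 2 / 3 * X) (hv0 : 0 ≤ v) (hvY : v ≤ Y) (hM0 : 2 ≤ M)
    (hM : M ≤ 1.9875 + 0.988 * X) (hT0 : 0 ≤ T) (hT : T ≤ 1.149) (he0 : 0 ≤ e)
    (he : e ≤ 0.494 * X - 0.00625)
    (hr0 : 0 ≤ r) (hq : 0 ≤ q) (hG0 : 0 ≤ G) (hG : G ≤ e)
    (hD : D = 1 + Real.sin (2 * X)) (hΩ0 : 3 * X + 3 * Y ≤ Ω) (hΩ1 : Ω ≤ 3 * X + 4 * Y) :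
    Real.cos (X + 2 * Y) * (M * Y + 0.57 / 2 + M / (2 * 0.57) * G) +
      (e + T * (M * Y + 0.57 / 2 + M / (2 * 0.57) * G) * Y) / D *
        (Real.sin (X + v) - q * Real.sin X) ≤
      Real.sin Ω + G * r * Real.sin (X + 2 * Y) := by
  obtain ⟨D0, _, D1⟩ := shE_D hX0 hX1
  rw [← hD] at D0 D1
  have hpi := Real.pi_pos
  obtain ⟨c, hc⟩ : ∃ c : ℝ, c = 0.57 := ⟨_, rfl⟩
  have hc0 : 0 < c := by rw [hc]; norm_num
  rw [← hc]
  have hX0' : 0 < X := lt_of_lt_of_le (by norm_num) hX0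
  have hY0' : 0 < Y := by linarith
  obtain ⟨L, hL⟩ : ∃ L, L = X + 2 * Y := ⟨_, rfl⟩
  have hL0 : 0 < L := by rw [hL]; linarith
  have hL1 : L ≤ 0.7332 := by rw [hL]; norm_num at hX1 ⊢; linarith
  have hL2 : L ^ 2 ≤ 0.5377 := by
    calc L ^ 2 ≤ 0.7332 ^ 2 := pow_le_pow_left₀ hL0.le hL1 2
      _ ≤ _ := by norm_num
  have cos1 : Real.cos L ≤ 1 - 0.4775 * L ^ 2 := by
    have h1 := cos_le4 hL0.le
    have h2 : L ^ 4 ≤ 0.5377 * L ^ 2 := by
      calc L ^ 4 = L ^ 2 * L ^ 2 := by ring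
        _ ≤ 0.5377 * L ^ 2 := mul_le_mul_of_nonneg_right hL2 (sq_nonneg _)
    norm_num at h2 ⊢
    have := sq_nonneg L
    linarith
  have cos0 : 0.7 ≤ Real.cos L := by
    have h1 := Real.one_sub_sq_div_two_le_cos (x := L)
    norm_num at hL2 h1 ⊢
    linarith
  have sin0 : 0 ≤ Real.sin L := Real.sin_nonneg_of_nonneg_of_le_pi hL0.le (by
    norm_num at hL1; linarith [Real.pi_gt_three])
  obtain ⟨Mb, hMb⟩ : ∃ Mb, Mb = 1.9875 + 0.988 * X := ⟨_, rfl⟩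
  obtain ⟨Gb, hGb⟩ : ∃ Gb, Gb = 0.494 * X - 0.00625 := ⟨_, rfl⟩
  rw [← hMb] at hM
  rw [← hGb] at he
  have hGb0 : 0 ≤ Gb := he0.trans he
  have hMb0 : 0 ≤ Mb := by linarith
  have hGGb : G ≤ Gb := hG.trans he
  obtain ⟨H, hH⟩ : ∃ H, H = M * Y + c / 2 + M / (2 * c) * G := ⟨_, rfl⟩
  obtain ⟨Hb, hHb⟩ : ∃ Hb, Hb = Mb * Y + c / 2 + Mb / (2 * c) * Gb := ⟨_, rfl⟩
  rw [← hH, ← hL]
  have hH0 : 0 ≤ H := by rw [hH]; positivity
  have hdiv : M / (2 * c) ≤ Mb / (2 * c) := div_le_div_of_nonneg_right hM (by positivity)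
  have hHHb : H ≤ Hb := by
    rw [hH, hHb]
    have h1 : M * Y ≤ Mb * Y := mul_le_mul_of_nonneg_right hM hY0'.le
    have h2 : M / (2 * c) * G ≤ Mb / (2 * c) * Gb :=
      mul_le_mul hdiv hGGb hG0 (by positivity)
    linarith
  have s1 : Real.cos L * H ≤ (1 - 0.4775 * L ^ 2) * Hb :=
    mul_le_mul cos1 hHHb hH0 (le_trans (le_trans (by norm_num) cos0) cos1)
  have s2 : (e + T * H * Y) / D * (Real.sin (X + v) - q * Real.sin X) ≤
      (0.8795 - 0.7925 * X) * (Gb + 1.149 * Hb * Y) * (X + Y) := by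
    have h4 : 0 ≤ Real.sin X := Real.sin_nonneg_of_nonneg_of_le_pi hX0'.le (by
      norm_num at hX1; linarith [Real.pi_gt_three])
    have h1 : Real.sin (X + v) - q * Real.sin X ≤ X + Y := by
      have h2 : Real.sin (X + v) ≤ X + v := Real.sin_le (by linarith)
      have h5 : 0 ≤ q * Real.sin X := by positivity
      linarith
    have hHb0 : 0 ≤ Hb := hH0.trans hHHb
    have h8 : T * H * Y ≤ 1.149 * Hb * Y :=
      mul_le_mul_of_nonneg_right (mul_le_mul hT hHHb hH0 (by norm_num)) hY0'.le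
    have h9 : 0 ≤ e + T * H * Y := by positivity
    have h10 : (e + T * H * Y) / D ≤ (0.8795 - 0.7925 * X) * (Gb + 1.149 * Hb * Y) := by
      rw [div_le_iff₀ D0]
      calc e + T * H * Y ≤ (Gb + 1.149 * Hb * Y) * 1 := by linarith
        _ ≤ (Gb + 1.149 * Hb * Y) * ((0.8795 - 0.7925 * X) * D) :=
            mul_le_mul_of_nonneg_left D1 (by positivity)
        _ = _ := by ring
    calc (e + T * H * Y) / D * (Real.sin (X + v) - q * Real.sin X) ≤
          (e + T * H * Y) / D * (X + Y) :=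
            mul_le_mul_of_nonneg_left h1 (div_nonneg h9 D0.le)
      _ ≤ _ := mul_le_mul_of_nonneg_right h10 (by positivity)
  have s3 : (3 * X + 3 * Y) - (3 * X + 3 * Y) ^ 3 / 6 + (3 * X + 3 * Y) ^ 5 / 130 - 0.0225 ≤
      Real.sin Ω := by
    have hz : 0 ≤ 3 * X + 3 * Y := by linarith
    have hz1 : 3 * X + 3 * Y ≤ 1.5711 := by norm_num at hX1 ⊢; linarith
    have h1 := shE_sin' hz (by
      calc (3 * X + 3 * Y) ^ 2 ≤ 1.5711 ^ 2 := pow_le_pow_left₀ hz hz1 2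
        _ ≤ 3.2 := by norm_num)
    rcases le_or_gt Ω (Real.pi / 2) with h2 | h2
    · have h3 : Real.sin (3 * X + 3 * Y) ≤ Real.sin Ω := by
        apply Real.sin_le_sin_of_le_of_le_pi_div_two <;> linarith
      norm_num at h1 ⊢
      linarith
    · have h3 : 0 ≤ Ω - Real.pi / 2 := by linarith
      have h4 : Ω - Real.pi / 2 ≤ 0.2095 := by
        have := Real.pi_lt_d4
        norm_num at this ⊢
        linarith
      have h5 := Real.one_sub_sq_div_two_le_cos (x := Ω - Real.pi / 2)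
      rw [Real.cos_sub_pi_div_two] at h5
      have h6 : (Ω - Real.pi / 2) ^ 2 ≤ 0.2095 ^ 2 := pow_le_pow_left₀ h3 h4 2
      have h7 := Real.sin_le_one (3 * X + 3 * Y)
      norm_num at h1 h6 ⊢
      linarith
  have s4 : 0 ≤ G * r * Real.sin L := by positivity
  have key := shE_pC (X := X) (Y := Y) (by norm_num at hX0 ⊢; linarith)
    (by norm_num at hX1 ⊢; linarith) (by norm_num at hX0 ⊢; linarith)
    (by norm_num at hX1 ⊢; linarith)
  rw [← hMb, ← hGb, ← hc, ← hL, ← hHb] at key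
  linarith

end EQS
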