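import Mathlib
import Pool.Agent.Lib.MP_226de1_co.E.DPos2
import Pool.Agent.Lib.MP_226de1_co.E.DNup

/-! Assembly of `ExitDisc 8`: case N (`F_1 < 0`, `St.caseN'`), case P (`F_1 > 0`,
`arg p_{-2} ≤ 0`, `St.pos_end`) and case PL (`F_1 > 0`, `arg p_{-2} > 0`). -/

set_option autoImplicit false

namespace EQS

open Complex

/-- case PL of `ExitDisc K` -/
def DiscPL (K : ℝ) : Prop :=
  ∀ (k C : ℝ) (q0 q1 q2 q3 d0 d1 d2 X1 X2 X3 : ℂ), k ≤ K →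
    St k C q0 q1 q2 q3 d0 d1 d2 X1 X2 X3 →
    (X1.im < -(Real.pi / 4) → (pv k C X1 d1).re < 1 / 2) →
    ‖1 - pv k C X1 d0‖ = 1 → ‖1 - pv k C X2 d1‖ < 1 → ‖1 - pv k C X3 d2‖ < 1 →
    0 < (X1 - d1).im → 0 < (X2 - d1).im →
    ‖exp d1‖ ^ 2 * ((1 - ‖1 - pv k C X2 d1‖ ^ 2) * (1 - ‖1 - pv k C X3 d2‖ ^ 2)) <
      4 * ‖pv k C X2 d1 - pv k C X3 d2‖ ^ 2 * ((exp d0).re * (exp d0 + exp d1).re)

/-- the assembly of `ExitDisc 8` -/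
theorem exitDisc8_of (hPL : DiscPL 8) : ExitDisc 8 := by
  intro k C q0 q1 q2 q3 d0 d1 d2 X1 X2 X3 hk h hh he hf2 hf3
  rcases lt_trichotomy (X1 - d1).im 0 with hφ | hφ | hφ
  · exact h.caseN' hh he hf2 hφ
  · exfalso
    have h1 := h.disc_f1 he
    rw [hφ, mul_zero, ofReal_zero, zero_mul, exp_zero] at h1
    have h2 : pv k C X1 d0 = 0 := by linear_combination h.f1 - h1
    exact pv_ne h.C0 h2
  · rcases le_or_gt (X2 - d1).im 0 with hτ | hτ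
    · exact h.pos_end hk hh he hf2 hφ hτ
    · exact hPL k C q0 q1 q2 q3 d0 d1 d2 X1 X2 X3 hk h hh he hf2 hf3 hφ hτ

end EQS
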