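import Mathlib
import Pool.Agent.Lib.MP_226de1_co.E.DStep
import Pool.Agent.Lib.MP_226de1_co.E.DNeg
import Pool.Agent.Lib.MP_226de1_co.E.DRposSt

/-! Unit disc exit, case PL (`F_1 > 0`, `arg p_{-2} ≥ 0`): the R-side `R < 1`. -/

set_option autoImplicit false

namespace EQS

open Complex

/-- `cos` is log-concave -/
theorem pl_geom {a b l : ℝ} (ha : |a| ≤ Real.pi / 2) (hb : |b| ≤ Real.pi / 2) (h0 : 0 ≤ l)
    (h1 : l ≤ 1) :
    Real.cos a ^ (1 - l) * Real.cos b ^ l ≤ Real.cos ((1 - l) * a + l * b) := by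
  have ha' := abs_le.1 ha
  have hb' := abs_le.1 hb
  have m1 : a ∈ Set.Icc (-(Real.pi / 2)) (Real.pi / 2) := ⟨by linarith, by linarith⟩
  have m2 : b ∈ Set.Icc (-(Real.pi / 2)) (Real.pi / 2) := ⟨by linarith, by linarith⟩
  have h := strictConcaveOn_cos_Icc.concaveOn.2 m1 m2 (by linarith : (0 : ℝ) ≤ 1 - l) h0
    (by ring)
  have h2 := Real.geom_mean_le_arith_mean2_weighted (by linarith : (0 : ℝ) ≤ 1 - l) h0
    (Real.cos_nonneg_of_mem_Icc m1) (Real.cos_nonneg_of_mem_Icc m2) (by ring)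
  simp only [smul_eq_mul] at h
  exact h2.trans h

theorem pl_cos {z l : ℝ} (hz0 : 0 ≤ z) (hz1 : z ≤ Real.pi / 2) (h0 : 0 ≤ l) (h1 : l ≤ 1) :
    (2 * Real.cos z) ^ l ≤ 2 * Real.cos ((1 - l) * (Real.pi / 3) + l * z) := by
  have hpi := Real.pi_pos
  have hcz : 0 ≤ Real.cos z := Real.cos_nonneg_of_mem_Icc ⟨by linarith, hz1⟩
  have h := pl_geom (a := Real.pi / 3) (b := z) (l := l) (by rw [abs_of_pos (by positivity)]; linarith)
    (by rw [abs_of_nonneg hz0]; exact hz1) h0 h1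
  rw [Real.cos_pi_div_three] at h
  have e : (2 * Real.cos z) ^ l = 2 * ((1 / 2 : ℝ) ^ (1 - l) * Real.cos z ^ l) := by
    rw [Real.mul_rpow (by norm_num) hcz, Real.rpow_sub (by norm_num), Real.rpow_one,
      one_div, Real.inv_rpow (by norm_num)]
    have : (2 : ℝ) ^ l ≠ 0 := (Real.rpow_pos_of_pos (by norm_num) l).ne'
    field_simp
  rw [e]
  linarith

theorem pl_sin {w l : ℝ} (hz0 : 0 ≤ w) (hz1 : w ≤ Real.pi / 2) (h0 : 0 ≤ l) (h1 : l ≤ 1) :
    (2 * Real.sin w) ^ l ≤ 2 * Real.sin ((1 - l) * (Real.pi / 6) + l * w) := by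
  have h := pl_cos (z := Real.pi / 2 - w) (by linarith) (by linarith) h0 h1
  rw [Real.cos_pi_div_two_sub] at h
  have e : (1 - l) * (Real.pi / 3) + l * (Real.pi / 2 - w) =
      Real.pi / 2 - ((1 - l) * (Real.pi / 6) + l * w) := by ring
  rwa [e, Real.cos_pi_div_two_sub] at h

/-- `t < 2 cos κ'`, `F_1 > π/3`: `A + φ < π/3 + 2π/(3k)` -/
theorem pl_core {k S τ φ T : ℝ} (hk : 2 < k) (hS : Real.pi / 3 + 2 * Real.pi / (3 * k) ≤ S)
    (hS1 : S < Real.pi / 2) (τ0 : 0 ≤ τ) (hτ : k * τ < Real.pi / 3) (hφ : Real.pi / 3 < k * φ)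
    (hφS : 2 * φ ≤ S) (T0 : 0 < T) (hT : T ≤ (2 * Real.cos (k * τ)) ^ (2 / k))
    (hc : Real.cos (S - 2 * φ) < T * Real.cos (S - 2 * τ)) : False := by
  have hpi := Real.pi_pos
  have k0 : 0 < k := by linarith
  obtain ⟨y, hy⟩ : ∃ y, y = Real.pi / (3 * k) - τ := ⟨_, rfl⟩
  have hky : k * (Real.pi / (3 * k)) = Real.pi / 3 := by field_simp
  have hy0 : 0 < y := by
    have : 0 < k * y := by rw [hy, mul_sub, hky]; linarith
    exact pos_of_mul_pos_right this k0.le
  have hy1 : y ≤ Real.pi / 6 := by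
    have : Real.pi / (3 * k) ≤ Real.pi / 6 := by
      apply div_le_div_of_nonneg_left hpi.le (by norm_num) (by linarith)
    linarith
  have hφ0 : Real.pi / (3 * k) < φ := by
    have : k * (Real.pi / (3 * k)) < k * φ := by rw [hky]; exact hφ
    exact lt_of_mul_lt_mul_left this k0.le
  -- `T ≤ 2 cos (π/3 - 2 y)`
  have h1 : T ≤ 2 * Real.cos (Real.pi / 3 - 2 * y) := by
    have h2 := pl_cos (z := k * τ) (l := 2 / k) (by positivity) (by linarith) (by positivity)
      (by rw [div_le_one k0]; exact hk.le)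
    have e : (1 - 2 / k) * (Real.pi / 3) + 2 / k * (k * τ) = Real.pi / 3 - 2 * y := by
      rw [hy]
      field_simp
      ring
    rw [e] at h2
    exact hT.trans h2
  obtain ⟨S', hS'⟩ : ∃ S', S' = S - 2 * (Real.pi / (3 * k)) := ⟨_, rfl⟩
  have hS'0 : Real.pi / 3 ≤ S' := by
    have e : 2 * Real.pi / (3 * k) = 2 * (Real.pi / (3 * k)) := by ring
    rw [e] at hS
    linarith
  have hτk : 0 < Real.pi / (3 * k) := by positivity
  have hcS : 0 < Real.cos S' := Real.cos_pos_of_mem_Ioo ⟨by linarith, by linarith⟩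
  have h2 : Real.cos S' ≤ Real.cos (S - 2 * φ) :=
    Real.cos_le_cos_of_nonneg_of_le_pi (by linarith) (by linarith) (by linarith)
  have e2 : S - 2 * τ = S' + 2 * y := by rw [hS', hy]; ring
  have hs2 : 0 ≤ Real.sin (2 * y) := Real.sin_nonneg_of_nonneg_of_le_pi (by linarith) (by linarith)
  have h3 : Real.cos (S' + 2 * y) ≤ Real.cos S' * (2 * Real.cos (Real.pi / 3 + 2 * y)) := by
    rw [Real.cos_add, Real.cos_add (Real.pi / 3), Real.cos_pi_div_three, Real.sin_pi_div_three]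
    have h4 : √3 / 2 ≤ Real.sin S' := by
      rw [← Real.sin_pi_div_three]
      apply Real.sin_le_sin_of_le_of_le_pi_div_two <;> linarith
    have h5 : Real.cos S' ≤ 1 / 2 := by
      rw [← Real.cos_pi_div_three]
      exact Real.cos_le_cos_of_nonneg_of_le_pi (by positivity) (by linarith) hS'0
    have h6 : √3 * Real.cos S' ≤ Real.sin S' := by
      have := mul_le_mul_of_nonneg_left h5 (Real.sqrt_nonneg 3)
      linarith
    have h7 := mul_le_mul_of_nonneg_right h6 hs2
    nlinarith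
  rw [e2] at hc
  have h4 : Real.cos S' < T * (Real.cos S' * (2 * Real.cos (Real.pi / 3 + 2 * y))) :=
    lt_of_le_of_lt h2 (hc.trans_le (mul_le_mul_of_nonneg_left h3 T0.le))
  have h5 : 0 < 2 * Real.cos (Real.pi / 3 + 2 * y) := by
    by_contra hcon
    have : T * (Real.cos S' * (2 * Real.cos (Real.pi / 3 + 2 * y))) ≤ 0 :=
      mul_nonpos_of_nonneg_of_nonpos T0.le (mul_nonpos_of_nonneg_of_nonpos hcS.le (not_lt.1 hcon))
    linarith
  have h6 : 2 * Real.cos (Real.pi / 3 - 2 * y) * (2 * Real.cos (Real.pi / 3 + 2 * y)) ≤ 1 := by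
    have e : 2 * Real.cos (Real.pi / 3 - 2 * y) * (2 * Real.cos (Real.pi / 3 + 2 * y)) =
        4 * Real.cos (2 * y) ^ 2 - 3 := by
      rw [Real.cos_add, Real.cos_sub, Real.cos_pi_div_three, Real.sin_pi_div_three]
      have h7 : √3 ^ 2 = 3 := Real.sq_sqrt (by norm_num)
      have h8 := Real.sin_sq_add_cos_sq (2 * y)
      linear_combination (-Real.sin (2 * y) ^ 2) * h7 - 3 * h8
    rw [e]
    have := Real.cos_sq_le_one (2 * y)
    linarith
  have h7 : T * (2 * Real.cos (Real.pi / 3 + 2 * y)) ≤ 1 :=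
    (mul_le_mul_of_nonneg_right h1 h5.le).trans h6
  have h8 := mul_le_mul_of_nonneg_right h7 hcS.le
  have e8 : T * (2 * Real.cos (Real.pi / 3 + 2 * y)) * Real.cos S' =
      T * (Real.cos S' * (2 * Real.cos (Real.pi / 3 + 2 * y))) := by ring
  rw [e8] at h8
  linarith

/-- `x ≥ 1/2` -/
theorem pl_x {k A φ : ℝ} (hk : 2 < k) (hA0 : 0 < A) (hA : A ≤ Real.pi / 2) (hF0 : 0 < k * φ)
    (hF1 : k * φ < Real.pi) (hS : A + φ < Real.pi / 2)
    (hcase : Real.pi / 4 < A → Real.pi / 3 < k * φ ∧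
      A + φ < Real.pi / 3 + 2 * Real.pi / (3 * k)) :
    1 / 2 ≤ (2 * Real.sin (k * φ / 2)) ^ (-(1 / k)) *
      Real.cos (A - (Real.pi - k * φ) / (2 * k)) := by
  have hpi := Real.pi_pos
  have k0 : 0 < k := by linarith
  have hk1 : 1 / k ≤ 1 / 2 := one_div_le_one_div_of_le (by norm_num) hk.le
  have hsF : 0 < Real.sin (k * φ / 2) :=
    Real.sin_pos_of_pos_of_lt_pi (by linarith) (by linarith)
  have hu : (Real.pi - k * φ) / (2 * k) < Real.pi / 4 := by
    rw [div_lt_iff₀ (by positivity)]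
    nlinarith
  have hu0 : 0 < (Real.pi - k * φ) / (2 * k) := div_pos (by linarith) (by positivity)
  rcases le_or_gt A (Real.pi / 4) with hA4 | hA4
  · -- `A ≤ π/4`
    have h1 : √2 / 2 ≤ Real.cos (A - (Real.pi - k * φ) / (2 * k)) := by
      rw [← Real.cos_pi_div_four, ← Real.cos_abs (A - (Real.pi - k * φ) / (2 * k))]
      apply Real.cos_le_cos_of_nonneg_of_le_pi (abs_nonneg _) (by linarith)
      rw [abs_le]
      constructor <;> linarith
    have h2 : (√2 / 2) ≤ (2 * Real.sin (k * φ / 2)) ^ (-(1 / k)) := by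
      have h3 : (2 : ℝ) ^ (-(1 / 2 : ℝ)) ≤ (2 : ℝ) ^ (-(1 / k)) :=
        Real.rpow_le_rpow_of_exponent_le (by norm_num) (by linarith)
      have h4 : (2 : ℝ) ^ (-(1 / k)) ≤ (2 * Real.sin (k * φ / 2)) ^ (-(1 / k)) := by
        apply Real.rpow_le_rpow_of_nonpos (by positivity) (by linarith [Real.sin_le_one (k * φ / 2)])
        have : 0 < 1 / k := by positivity
        linarith
      have h5 : √2 / 2 = (2 : ℝ) ^ (-(1 / 2 : ℝ)) := by
        rw [Real.rpow_neg (by norm_num), ← Real.sqrt_eq_rpow]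
        have h6 : √2 * √2 = 2 := Real.mul_self_sqrt (by norm_num)
        have h7 : 0 < √2 := by positivity
        field_simp
        linarith
      rw [h5]
      linarith
    have h3 : √2 / 2 * (√2 / 2) = 1 / 2 := by
      have h6 : √2 * √2 = 2 := Real.mul_self_sqrt (by norm_num)
      linarith
    rw [← h3]
    exact mul_le_mul h2 h1 (by positivity) (by positivity)
  · obtain ⟨hF3, hS3⟩ := hcase hA4
    -- the angle `ω = π/2 - (A - (π - F)/(2k)) ≥ π/6 + y`
    have h1 : Real.sin ((1 - 1 / k) * (Real.pi / 6) + 1 / k * (k * φ / 2)) ≤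
        Real.cos (A - (Real.pi - k * φ) / (2 * k)) := by
      rw [← Real.cos_pi_div_two_sub]
      have e1 : Real.pi / 2 - ((1 - 1 / k) * (Real.pi / 6) + 1 / k * (k * φ / 2)) =
          Real.pi / 3 + Real.pi / (6 * k) - φ / 2 := by
        field_simp
        ring
      rw [e1]
      have e2 : A - (Real.pi - k * φ) / (2 * k) = A - Real.pi / (2 * k) + φ / 2 := by
        field_simp
        ring
      rw [e2]
      have e3 : 2 * Real.pi / (3 * k) = 4 * (Real.pi / (6 * k)) := by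
        field_simp
        ring
      have e4 : Real.pi / (2 * k) = 3 * (Real.pi / (6 * k)) := by
        field_simp
        ring
      rw [e3] at hS3
      rw [e4]
      have hq : 0 < Real.pi / (6 * k) := by positivity
      have hq1 : Real.pi / (6 * k) < Real.pi / 12 := by
        apply div_lt_div_of_pos_left hpi (by norm_num) (by linarith)
      have hφ0 : 0 < φ := pos_of_mul_pos_right hF0 k0.le
      apply Real.cos_le_cos_of_nonneg_of_le_pi
      · have e5 : (Real.pi - k * φ) / (2 * k) = 3 * (Real.pi / (6 * k)) - φ / 2 := by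
          field_simp
          ring
        rw [e5] at hu
        linarith
      · linarith
      · linarith
    have h2 := pl_sin (w := k * φ / 2) (l := 1 / k) (by linarith) (by linarith) (by positivity)
      (by linarith)
    have h3 : 0 < (2 * Real.sin (k * φ / 2)) ^ (1 / k) := Real.rpow_pos_of_pos (by positivity) _
    rw [Real.rpow_neg (by positivity), inv_mul_eq_div, le_div_iff₀ h3]
    linarith

variable {k C : ℝ} {q0 q1 q2 q3 d0 d1 d2 X1 X2 X3 : ℂ}

/-- `|b_1| > 1` where `F_1 ≤ A_1` -/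
theorem St.pl_L (h : St k C q0 q1 q2 q3 d0 d1 d2 X1 X2 X3)
    (hF : 0 < (X1 - d1).im) (hFA : (X1 - d1).im < -X1.im) : 0 < (X2 - X1).re := by
  have hpi := Real.pi_pos
  have hψ := h.psi_lt
  have a1 := h.a1
  have hG := h.G1 (by linarith)
  obtain ⟨_, hs⟩ := step_rot h.x1 h.x2 h.s1
  have e1 : -X1.im - (X1 - d1).im + 2 * (X1 - X2).im =
      -X1.im + (X1 - d1).im - 2 * (X2 - d1).im := by
    simp only [sub_im]
    ring
  rw [e1] at hG
  set w := -X1.im + (X1 - d1).im - 2 * (X2 - d1).im with hw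
  set T := Real.exp (2 * (X2 - X1).re) with hT
  have hT0 : 0 < T := Real.exp_pos _
  -- the sine inequality
  have hs1 : Real.sin (-X1.im - (X1 - d1).im) < T * Real.sin w := by
    have e2 : Real.exp X2.re ^ 2 = Real.exp X1.re ^ 2 * T := by
      rw [hT, ← Real.exp_nat_mul, ← Real.exp_nat_mul, ← Real.exp_add]
      congr 1
      simp only [sub_re]
      push_cast
      ring
    have hsS : 0 < Real.sin (-X1.im + (X1 - d1).im) :=
      Real.sin_pos_of_pos_of_lt_pi (by linarith) (by linarith)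
    have h3 : Real.exp X1.re ^ 2 * Real.sin (-X1.im - (X1 - d1).im) <
        Real.exp X1.re ^ 2 * (T * Real.sin w) := by
      have h4 : 0 < 2 * Real.exp d1.re * q1.im := by
        have := h.i1
        positivity
      have h5 : 0 < Real.exp d1.re ^ 2 * Real.sin (-X1.im + (X1 - d1).im) := by positivity
      rw [← mul_assoc, ← e2, hs]
      linarith
    exact lt_of_mul_lt_mul_left h3 (by positivity)
  by_contra hcon
  have hT1 : T ≤ 1 := by
    rw [hT, Real.exp_le_one_iff]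
    linarith [not_lt.1 hcon]
  have hc0 : 0 < Real.cos (-X1.im - (X1 - d1).im) :=
    Real.cos_pos_of_mem_Ioo ⟨by linarith, by linarith⟩
  have hs0 : 0 < Real.sin (-X1.im - (X1 - d1).im) :=
    Real.sin_pos_of_pos_of_lt_pi (by linarith) (by linarith)
  have hcw : 0 < Real.cos w := by
    have : 0 < T * Real.cos w := by linarith
    exact pos_of_mul_pos_right this hT0.le
  have hsw : 0 < Real.sin w := by
    have : 0 < T * Real.sin w := by linarith
    exact pos_of_mul_pos_right this hT0.le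
  have h6 : T * Real.cos w ≤ Real.cos w := by nlinarith
  have h7 : T * Real.sin w ≤ Real.sin w := by nlinarith
  have h8 := Real.sin_sq_add_cos_sq w
  have h9 := Real.sin_sq_add_cos_sq (-X1.im - (X1 - d1).im)
  nlinarith

/-- `A_1 > π/4` in case PL: `F_1 > π/3` and `A + φ < π/3 + 2π/(3k)` -/
theorem St.pl_S (h : St k C q0 q1 q2 q3 d0 d1 d2 X1 X2 X3)
    (hh : X1.im < -(Real.pi / 4) → (pv k C X1 d1).re < 1 / 2)
    (he : ‖1 - pv k C X1 d0‖ = 1) (hF : 0 < (X1 - d1).im) (hF1 : k * (X1 - d1).im < Real.pi)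
    (hτ : 0 ≤ (X2 - d1).im) (h2 : ‖1 - pv k C X2 d1‖ < 1) (hA : Real.pi / 4 < -X1.im) :
    Real.pi / 3 < k * (X1 - d1).im ∧
      -X1.im + (X1 - d1).im < Real.pi / 3 + 2 * Real.pi / (3 * k) := by
  have hpi := Real.pi_pos
  have k0 := h.k0
  have hψ := h.psi_lt
  have hF3 : Real.pi / 3 < k * (X1 - d1).im := by
    have h3 := hh (by linarith)
    rw [h.disc_f1 he, exp_ofReal_mul_I_re] at h3
    by_contra hcon
    have h4 : Real.cos (Real.pi / 3) ≤ Real.cos (k * (X1 - d1).im) :=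
      Real.cos_le_cos_of_nonneg_of_le_pi (mul_pos k0 hF).le (by linarith) (not_lt.1 hcon)
    rw [Real.cos_pi_div_three] at h4
    linarith
  refine ⟨hF3, ?_⟩
  have hL := h.pl_L hF (by linarith)
  have ht := h.dn_P he
  have htc := h.dn_lt h2
  have h1t : 1 < Real.exp (k * (X2.re - X1.re)) := by
    rw [Real.one_lt_exp_iff, ← sub_re]
    exact mul_pos k0 hL
  rw [ht] at htc
  have hτ0 : 0 ≤ k * (X2 - d1).im := mul_nonneg k0.le hτ
  have hτ2 := (abs_lt.1 h.p2).2
  have hτ1 : k * (X2 - d1).im < Real.pi / 3 := by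
    by_contra hcon
    have h4 : Real.cos (k * (X2 - d1).im) ≤ Real.cos (Real.pi / 3) :=
      Real.cos_le_cos_of_nonneg_of_le_pi (by positivity) (by linarith) (not_lt.1 hcon)
    rw [Real.cos_pi_div_three] at h4
    linarith
  by_contra hcon
  have hG := h.G1 (by linarith)
  refine pl_core (k := k) (S := -X1.im + (X1 - d1).im) (τ := (X2 - d1).im) (φ := (X1 - d1).im)
    (T := Real.exp (2 * (X2 - X1).re)) h.hk (not_lt.1 hcon) hψ hτ hτ1 hF3 (by linarith)
    (Real.exp_pos _) ?_ ?_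
  · have e : Real.exp (2 * (X2 - X1).re) = Real.exp (k * (X2.re - X1.re)) ^ (2 / k) := by
      rw [← Real.exp_mul, sub_re]
      congr 1
      field_simp
    rw [e]
    exact Real.rpow_le_rpow (Real.exp_pos _).le htc.le (by positivity)
  · have e1 : -X1.im + (X1 - d1).im - 2 * (X1 - d1).im = -X1.im - (X1 - d1).im := by ring
    have e2 : -X1.im + (X1 - d1).im - 2 * (X2 - d1).im =
        -X1.im - (X1 - d1).im + 2 * (X1 - X2).im := by
      simp only [sub_im]
      ring
    rw [e1, e2]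
    exact hG

/-- case PL: `R < 1` -/
theorem St.pl_R (h : St k C q0 q1 q2 q3 d0 d1 d2 X1 X2 X3)
    (hh : X1.im < -(Real.pi / 4) → (pv k C X1 d1).re < 1 / 2)
    (he : ‖1 - pv k C X1 d0‖ = 1) (hF : 0 < (X1 - d1).im) (hF1 : k * (X1 - d1).im < Real.pi)
    (hτ : 0 ≤ (X2 - d1).im) (h2 : ‖1 - pv k C X2 d1‖ < 1) :
    ‖exp d1‖ ^ 2 < 4 * ((exp d0).re * (exp d0 + exp d1).re) := by
  have hpi := Real.pi_pos
  have k0 := h.k0
  have hψ := h.psi_lt
  have a1 := h.a1
  obtain ⟨e1, _⟩ := h.disc_D0' he hF (by linarith)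
  have hx : 1 / 2 ≤ c0 k (-X1.im) (X1 - d1).im :=
    pl_x h.hk (by linarith) (by linarith) (mul_pos k0 hF) hF1 hψ
      (fun hA => h.pl_S hh he hF hF1 hτ h2 hA)
  have hS : 0 < Real.cos (-X1.im + (X1 - d1).im) :=
    Real.cos_pos_of_mem_Ioo ⟨by linarith, by linarith⟩
  have e2 : (exp d1).re = Real.exp d1.re * Real.cos (-X1.im + (X1 - d1).im) := by
    rw [exp_re]
    congr 1
    rw [← Real.cos_neg]
    congr 1
    simp only [sub_im]
    ring
  rw [add_re, e1, e2, norm_exp]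
  have hE : 0 < Real.exp d1.re := Real.exp_pos _
  have h3 : 1 < 4 * (c0 k (-X1.im) (X1 - d1).im *
      (c0 k (-X1.im) (X1 - d1).im + Real.cos (-X1.im + (X1 - d1).im))) := by nlinarith
  have h4 := mul_lt_mul_of_pos_left h3 (show 0 < Real.exp d1.re ^ 2 by positivity)
  linarith

end EQS
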