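import Mathlib
import Pool.Agent.Lib.MP_226de1_co.E.DFs2
import Pool.Agent.Lib.MP_226de1_co.E.PLR

/-! Unit disc exit, case PL: `F_1 < π` on all sheets (`2 < k ≤ 8`). First part: the facts for
`F_1 ≥ π`, and the case `A < τ`. `a = π/(3k)`. -/

set_option autoImplicit false

namespace EQS

theorem plf_sc (x y : ℝ) : 2 * Real.sin x * Real.cos y = Real.sin (x - y) + Real.sin (x + y) := by
  rw [Real.sin_sub, Real.sin_add]
  ring

theorem plf_cc (x y : ℝ) : 2 * Real.cos x * Real.cos y = Real.cos (x + y) + Real.cos (x - y) := by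
  rw [Real.cos_sub, Real.cos_add]
  ring

theorem plf_ss (x y : ℝ) : 2 * Real.sin x * Real.sin y = Real.cos (x - y) - Real.cos (x + y) := by
  rw [Real.cos_sub, Real.cos_add]
  ring

theorem plf_cs (x y : ℝ) : 2 * Real.cos x * Real.sin y = Real.sin (x + y) - Real.sin (x - y) := by
  rw [Real.sin_sub, Real.sin_add]
  ring

namespace FsD

variable {k A φ τ η T P S w c : ℝ}

/-- on every sheet `η ≤ (φ - π/k)/2` if `F_1 ≥ π` -/
theorem η_le (h : FsD k A φ τ η T P S w c) (hF : Real.pi ≤ k * φ) :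
    η ≤ (φ - Real.pi / k) / 2 := by
  have hpi := Real.pi_pos
  have k0 := h.k0
  have h1 : Real.cos (k * φ - 2 * (k * η) - Real.pi) = 1 := by
    rw [Real.cos_sub_pi, Real.cos_sub, h.Fc, h.Fs]
    have := Real.sin_sq_add_cos_sq (2 * (k * η))
    linear_combination this
  obtain ⟨n, hn⟩ := (Real.cos_eq_one_iff _).1 h1
  have h2 := (abs_lt.1 h.η2).2
  have h3 : (-1 : ℝ) < n := by
    by_contra hcon
    have h4 := not_lt.1 hcon
    have : (n : ℝ) * (2 * Real.pi) ≤ -1 * (2 * Real.pi) :=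
      mul_le_mul_of_nonneg_right h4 (by positivity)
    linarith
  have h4 : (0 : ℝ) ≤ n := by
    have : (-1 : ℤ) < n := by exact_mod_cast h3
    exact_mod_cast (by omega : (0 : ℤ) ≤ n)
  have h5 : 0 ≤ k * φ - 2 * (k * η) - Real.pi := by rw [← hn]; positivity
  have h6 : k * η ≤ k * ((φ - Real.pi / k) / 2) := by
    have : k * ((φ - Real.pi / k) / 2) = (k * φ - Real.pi) / 2 := by field_simp
    rw [this]
    linarith
  exact le_of_mul_le_mul_left h6 k0

/-- `2^(1/k) c ≥ cos A - sin A tan g`, `g = (φ - π/k)/2` -/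
theorem c_lb (h : FsD k A φ τ η T P S w c) (hF : Real.pi ≤ k * φ) :
    Real.cos A - Real.sin A * Real.tan ((φ - Real.pi / k) / 2) ≤ (2 : ℝ) ^ (1 / k) * c := by
  have hpi := Real.pi_pos
  have k0 := h.k0
  have hη := h.η_le hF
  have h4 := abs_lt.1 h.η4
  have hψ := h.ψ
  have hA := h.A0
  have hcη : 0 < Real.cos η := Real.cos_pos_of_mem_Ioo ⟨by linarith, by linarith⟩
  have hckη := h.cη
  have hg : (φ - Real.pi / k) / 2 < Real.pi / 2 := by
    have : 0 < Real.pi / k := by positivity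
    linarith
  have ht : Real.tan η ≤ Real.tan ((φ - Real.pi / k) / 2) := by
    rcases hη.eq_or_lt with h1 | h1
    · rw [h1]
    · exact (Real.tan_lt_tan_of_lt_of_lt_pi_div_two (by linarith) hg h1).le
  have h1 := mul_le_mul_of_nonneg_left ht h.sinA.le
  refine (sub_le_sub_left h1 _).trans ?_
  have e1 : Real.cos A - Real.sin A * Real.tan η = Real.cos (A + η) / Real.cos η := by
    rw [Real.cos_add, Real.tan_eq_sin_div_cos]
    field_simp
  have hcA : 0 < Real.cos (A + η) := by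
    have := abs_lt.1 h.cA
    exact Real.cos_pos_of_mem_Ioo ⟨by linarith, by linarith⟩
  have h2 := pl_geom (a := 0) (b := k * η) (l := 1 / k) (by rw [abs_zero]; positivity) h.η2.le
    (by positivity) (by rw [div_le_one k0]; linarith [h.hk])
  have e2 : (1 - 1 / k) * 0 + 1 / k * (k * η) = η := by field_simp; ring
  rw [Real.cos_zero, Real.one_rpow, one_mul, e2] at h2
  have h3 : 0 < Real.cos (k * η) ^ (1 / k) := Real.rpow_pos_of_pos hckη _
  have e3 : (2 : ℝ) ^ (1 / k) * c = Real.cos (A + η) / Real.cos (k * η) ^ (1 / k) := by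
    rw [h.c_eq, Real.rpow_neg (by positivity), Real.mul_rpow (by norm_num) hckη.le]
    have h4 : 0 < (2 : ℝ) ^ (1 / k) := Real.rpow_pos_of_pos (by norm_num) _
    field_simp
  rw [e1, e3]
  exact div_le_div_of_nonneg_left hcA.le h3 h2

/-- `T ≤ 2 cos (π/3 + 2 (τ - a))`, `a = π/(3k)` -/
theorem T_ub (h : FsD k A φ τ η T P S w c) (hτ : 0 ≤ τ) :
    T ≤ 2 * Real.cos (Real.pi / 3 + 2 * (τ - Real.pi / (3 * k))) := by
  have k0 := h.k0
  have hT := h.T0
  have h1 := pl_cos (z := k * τ) (l := 2 / k) (by positivity) (abs_lt.1 h.τ2).2.le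
    (by positivity) (by rw [div_le_one k0]; linarith [h.hk])
  have e1 : (1 - 2 / k) * (Real.pi / 3) + 2 / k * (k * τ) =
      Real.pi / 3 + 2 * (τ - Real.pi / (3 * k)) := by
    field_simp
    ring
  rw [e1] at h1
  have h2 : T = (T ^ (k / 2)) ^ (2 / k) := by
    rw [← Real.rpow_mul hT.le]
    have : k / 2 * (2 / k) = 1 := by field_simp
    rw [this, Real.rpow_one]
  refine le_trans ?_ h1
  rw [h2]
  exact Real.rpow_le_rpow (by positivity) h.f2.le (by positivity)

/-- `cos (φ - A) < T cos (A + φ - 2 τ)` -/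
theorem E4 (h : FsD k A φ τ η T P S w c) :
    Real.cos (φ - A) < T * Real.cos (A + φ - 2 * τ) := by
  have h1 := h.e1
  have h2 := mul_pos h.P0 h.cosψ
  have h3 := h.w0
  have e : Real.cos (φ - A) = Real.cos (A - φ) := by
    rw [← Real.cos_neg]
    congr 1
    ring
  rw [e]
  linarith

/-- the rotation `π/4`, with `T` eliminated -/
theorem quarter (h : FsD k A φ τ η T P S w c) (hτ : 0 ≤ τ) (hc : 1 / 2 ≤ c) :
    c * (2 * Real.sin (φ + Real.pi / 6 - Real.pi / (3 * k)) *
      Real.cos (Real.pi / 12 + Real.pi / (3 * k) - A) - 1) ≤ Real.sin (2 * A) * (√2 / 2) := by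
  have hpi := Real.pi_pos
  have hψ := h.ψ
  have hA := h.A0
  have hφ := h.φ0
  obtain ⟨a, ha⟩ : ∃ a, a = Real.pi / (3 * k) := ⟨_, rfl⟩
  have hT := h.T_ub hτ
  have h1 := h.rotb (ω := Real.pi / 4) (by positivity) (by linarith) (by
    have h2 : Real.sin (A + φ - Real.pi / 4) ≤ Real.sin (Real.pi / 4) := by
      apply Real.sin_le_sin_of_le_of_le_pi_div_two <;> linarith
    have h3 : 0 < Real.sin (Real.pi / 4) :=
      Real.sin_pos_of_pos_of_lt_pi (by positivity) (by linarith)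
    nlinarith)
  rw [Real.cos_pi_div_four] at h1
  refine le_trans (mul_le_mul_of_nonneg_left ?_ h.c0.le) h1
  rw [← ha] at hT ⊢
  have e1 : 2 * Real.sin (φ + Real.pi / 6 - a) * Real.cos (Real.pi / 12 + a - A) =
      Real.sin (Real.pi / 12 + A + φ - 2 * a) + Real.sin (φ + Real.pi / 4 - A) := by
    have a1 : Real.pi / 12 + A + φ - 2 * a =
      (φ + Real.pi / 6 - a) - (Real.pi / 12 + a - A) := by ring
    have a2 : φ + Real.pi / 4 - A = (φ + Real.pi / 6 - a) + (Real.pi / 12 + a - A) := by ring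
    rw [a1, a2, plf_sc]
  rw [e1]
  have h2 : Real.sin (Real.pi / 12 + A + φ - 2 * a) - 1 ≤
      T * Real.sin (A + φ - 2 * τ - Real.pi / 4) := by
    rcases le_or_gt 0 (Real.sin (A + φ - 2 * τ - Real.pi / 4)) with hz | hz
    · have := mul_nonneg h.T0.le hz
      linarith [Real.sin_le_one (Real.pi / 12 + A + φ - 2 * a)]
    · have h3 := mul_le_mul_of_nonpos_right hT hz.le
      refine le_trans ?_ h3
      have e2 : 2 * Real.cos (Real.pi / 3 + 2 * (τ - a)) *
          Real.sin (A + φ - 2 * τ - Real.pi / 4) =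
          Real.sin (Real.pi / 12 + A + φ - 2 * a) -
            Real.sin (Real.pi / 3 + 2 * (τ - a) - (A + φ - 2 * τ - Real.pi / 4)) := by
        have a1 : Real.pi / 12 + A + φ - 2 * a =
          (Real.pi / 3 + 2 * (τ - a)) + (A + φ - 2 * τ - Real.pi / 4) := by ring
        rw [a1, plf_cs]
      rw [e2]
      linarith [Real.sin_le_one (Real.pi / 3 + 2 * (τ - a) - (A + φ - 2 * τ - Real.pi / 4))]
  linarith

/-- `A < a` if `A < τ` and `F_1 ≥ π` is not too large -/
theorem A_lt_a (h : FsD k A φ τ η T P S w c) (hτ : 0 ≤ τ) (hAτ : A < τ)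
    (hF : Real.pi ≤ k * φ) (hφ : φ ≤ Real.pi / 3 + Real.pi / (3 * k)) :
    A < Real.pi / (3 * k) := by
  have hpi := Real.pi_pos
  have k0 := h.k0
  have hT := h.T_ub hτ
  have hE := h.E4
  have hψ := h.ψ
  have hA := h.A0
  obtain ⟨a, ha⟩ : ∃ a, a = Real.pi / (3 * k) := ⟨_, rfl⟩
  rw [← ha] at hT hφ ⊢
  have ha0 : 0 < a := by rw [ha]; positivity
  have ka : k * a = Real.pi / 3 := by rw [ha]; field_simp
  have h3a : 3 * a ≤ φ := by
    have : k * (3 * a) ≤ k * φ := by
      have e : k * (3 * a) = 3 * (k * a) := by ring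
      rw [e, ka]
      linarith
    exact le_of_mul_le_mul_left this k0
  have hτ1 : τ ≤ 3 / 2 * a := by
    have : k * τ ≤ k * (3 / 2 * a) := by
      have e : k * (3 / 2 * a) = 3 / 2 * (k * a) := by ring
      rw [e, ka]
      linarith [(abs_lt.1 h.τ2).2]
    exact le_of_mul_le_mul_left this k0
  by_contra hcon
  have hcon' := not_lt.1 hcon
  obtain ⟨ε, hε⟩ : ∃ ε, ε = τ - a := ⟨_, rfl⟩
  obtain ⟨x, hx⟩ : ∃ x, x = A - a := ⟨_, rfl⟩
  obtain ⟨σ, hσ⟩ : ∃ σ, σ = φ - a + Real.pi / 6 := ⟨_, rfl⟩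
  have hx0 : 0 ≤ x := by linarith
  have hxε : x < ε := by linarith
  have hε1 : ε ≤ a / 2 := by linarith
  have ha6 : a ≤ Real.pi / 6 := by
    rw [ha]
    apply div_le_div_of_nonneg_left hpi.le (by norm_num) (by linarith [h.hk])
  have hcz : 0 < Real.cos (A + φ - 2 * τ) := by
    have h1 : 0 < Real.cos (φ - A) := Real.cos_pos_of_mem_Ioo ⟨by linarith, by linarith⟩
    have h2 : 0 < T * Real.cos (A + φ - 2 * τ) := by linarith
    exact pos_of_mul_pos_right h2 h.T0.le
  have h1 : Real.cos (φ - A) < 2 * Real.cos (Real.pi / 3 + 2 * ε) *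
      Real.cos (A + φ - 2 * τ) := by
    rw [hε]
    exact hE.trans_le (mul_le_mul_of_nonneg_right hT hcz.le)
  have e1 : 2 * Real.cos (Real.pi / 3 + 2 * ε) * Real.cos (A + φ - 2 * τ) =
      Real.cos (φ - A) - 2 * Real.sin σ * Real.sin (Real.pi / 6 + x) +
        Real.sin (σ + (x - 4 * ε)) := by
    have a1 : A + φ - 2 * τ = (σ - Real.pi / 6) + x - 2 * ε := by rw [hσ, hx, hε]; ring
    have a2 : φ - A = (σ - Real.pi / 6) - x := by rw [hσ, hx]; ring
    have b1 : 2 * Real.cos (Real.pi / 3 + 2 * ε) * Real.cos ((σ - Real.pi / 6) + x - 2 * ε) =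
        Real.cos (Real.pi / 3 + 2 * ε + ((σ - Real.pi / 6) + x - 2 * ε)) +
        Real.cos (Real.pi / 3 + 2 * ε - ((σ - Real.pi / 6) + x - 2 * ε)) := plf_cc _ _
    have b2 : 2 * Real.sin σ * Real.sin (Real.pi / 6 + x) =
        Real.cos ((σ - Real.pi / 6) - x) - Real.cos (Real.pi / 6 + σ + x) := by
      have c1 : (σ - Real.pi / 6) - x = σ - (Real.pi / 6 + x) := by ring
      have c2 : Real.pi / 6 + σ + x = σ + (Real.pi / 6 + x) := by ring
      rw [c1, c2, plf_ss]
    have b3 : Real.cos (Real.pi / 3 + 2 * ε - ((σ - Real.pi / 6) + x - 2 * ε)) =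
        Real.sin (σ + (x - 4 * ε)) := by
      rw [← Real.cos_pi_div_two_sub]
      congr 1
      ring
    have b4 : Real.pi / 3 + 2 * ε + ((σ - Real.pi / 6) + x - 2 * ε) =
        Real.pi / 6 + σ + x := by ring
    rw [a1, a2, b1, b2, b3, b4]
    ring
  rw [e1] at h1
  have hs : 0 < Real.sin σ := Real.sin_pos_of_pos_of_lt_pi (by linarith) (by linarith)
  have hc : 0 ≤ Real.cos σ := Real.cos_nonneg_of_mem_Icc ⟨by linarith, by linarith⟩
  have h2 : (1 : ℝ) / 2 ≤ Real.sin (Real.pi / 6 + x) := by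
    rw [← Real.sin_pi_div_six]
    apply Real.sin_le_sin_of_le_of_le_pi_div_two <;> linarith
  have h3 : Real.sin (σ + (x - 4 * ε)) ≤ Real.sin σ := by
    rw [Real.sin_add]
    have h4 : Real.sin (x - 4 * ε) ≤ 0 :=
      Real.sin_nonpos_of_nonpos_of_neg_pi_le (by linarith) (by linarith)
    have h5 := mul_le_mul_of_nonneg_left (Real.cos_le_one (x - 4 * ε)) hs.le
    have h6 := mul_nonpos_of_nonneg_of_nonpos hc h4
    linarith
  nlinarith

end FsD

end EQS
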