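import Mathlib
import Pool.Agent.Lib.MP_226de1_co.E.PLF

/-! Unit disc exit, case PL: `F_1 < π` on all sheets. Second part: `A < τ` is impossible if
`F_1 ≥ π`. -/

set_option autoImplicit false

namespace EQS

theorem two_rpow_le {u : ℝ} (h0 : 0 ≤ u) (h1 : u ≤ 1) : (2 : ℝ) ^ u ≤ 1 + u := by
  have := rpow_one_add_le_one_add_mul_self (s := 1) (by norm_num) h0 h1
  norm_num at this
  exact this

theorem cos_concave {x y s : ℝ} (hx : |x| ≤ Real.pi / 2) (hy : |y| ≤ Real.pi / 2) (h0 : 0 ≤ s)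
    (h1 : s ≤ 1) : (1 - s) * Real.cos x + s * Real.cos y ≤ Real.cos ((1 - s) * x + s * y) := by
  have hx' := abs_le.1 hx
  have hy' := abs_le.1 hy
  have := strictConcaveOn_cos_Icc.concaveOn.2 (x := x) (y := y) ⟨by linarith, by linarith⟩
    ⟨by linarith, by linarith⟩ (by linarith : (0 : ℝ) ≤ 1 - s) h0 (by ring)
  simpa only [smul_eq_mul] using this

theorem sin_concave {x y s : ℝ} (hx0 : 0 ≤ x) (hx1 : x ≤ Real.pi) (hy0 : 0 ≤ y)
    (hy1 : y ≤ Real.pi) (h0 : 0 ≤ s) (h1 : s ≤ 1) :
    (1 - s) * Real.sin x + s * Real.sin y ≤ Real.sin ((1 - s) * x + s * y) := by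
  have := strictConcaveOn_sin_Icc.concaveOn.2 (x := x) (y := y) ⟨hx0, hx1⟩
    ⟨hy0, hy1⟩ (by linarith : (0 : ℝ) ≤ 1 - s) h0 (by ring)
  simpa only [smul_eq_mul] using this

/-- the final inequality for `A ≤ a = π u/3`, `u = 1/k` -/
theorem plf_al {u A : ℝ} (hu0 : 1 / 8 ≤ u) (hu1 : u < 1 / 2) (A0 : 0 < A)
    (hAa : A ≤ Real.pi * u / 3) (hA3 : A ≤ Real.pi / 2 - Real.pi * u) :
    (2 : ℝ) ^ u * √2 * A < 0.916 * (2 * Real.sin (Real.pi / 6 + 2 * (Real.pi * u / 3)) *
      Real.cos (Real.pi / 12 + Real.pi * u / 3 - A) - 1) := by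
  have hpi := Real.pi_pos
  have hpi4 := Real.pi_gt_d4
  have hpi4' := Real.pi_lt_d4
  have r2 : (1.4142 : ℝ) ≤ √2 := Real.le_sqrt_of_sq_le (by norm_num)
  have r2' : √2 ≤ (1.4143 : ℝ) := Real.sqrt_le_iff.2 ⟨by norm_num, by norm_num⟩
  have r3 : (1.732 : ℝ) ≤ √3 := Real.le_sqrt_of_sq_le (by norm_num)
  have hq : √2 * Real.pi ≤ 4.4432 := by nlinarith
  have h2u := two_rpow_le (u := u) (by linarith) (by linarith)
  have h2u0 : 0 < (2 : ℝ) ^ u := Real.rpow_pos_of_pos (by norm_num) _
  obtain ⟨a, ha⟩ : ∃ a, a = Real.pi * u / 3 := ⟨_, rfl⟩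
  rw [← ha] at hAa ⊢
  have ha0 : Real.pi / 24 ≤ a := by rw [ha]; nlinarith
  have ha1 : a < Real.pi / 6 := by rw [ha]; nlinarith
  have hs0 : 0 < Real.sin (Real.pi / 6 + 2 * a) :=
    Real.sin_pos_of_pos_of_lt_pi (by linarith) (by linarith)
  -- value at `A = 0`
  have f0 : 0 < 2 * Real.sin (Real.pi / 6 + 2 * a) * Real.cos (Real.pi / 12 + a) - 1 := by
    rw [plf_sc]
    have e1 : Real.pi / 6 + 2 * a - (Real.pi / 12 + a) = Real.pi / 12 + a := by ring
    have e2 : Real.pi / 6 + 2 * a + (Real.pi / 12 + a) = Real.pi / 2 - (Real.pi / 4 - 3 * a) := by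
      ring
    rw [e1, e2, Real.sin_pi_div_two_sub]
    have h1 : Real.cos (Real.pi / 4) ≤ Real.cos (Real.pi / 4 - 3 * a) := by
      rw [← Real.cos_abs (Real.pi / 4 - 3 * a)]
      apply Real.cos_le_cos_of_nonneg_of_le_pi (abs_nonneg _) (by linarith)
      rw [abs_le]
      constructor <;> linarith
    have h2 : Real.sin (Real.pi / 8) ≤ Real.sin (Real.pi / 12 + a) := by
      apply Real.sin_le_sin_of_le_of_le_pi_div_two <;> linarith
    rw [Real.cos_pi_div_four] at h1
    rw [Real.sin_pi_div_eight] at h2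
    have h3 : (0.76 : ℝ) ≤ √(2 - √2) := Real.le_sqrt_of_sq_le (by norm_num; linarith)
    linarith
  rcases le_or_gt u (3 / 8) with hu3 | hu3
  · -- `A* = a`
    obtain ⟨s, hs⟩ : ∃ s, s = A / a := ⟨_, rfl⟩
    have ha00 : 0 < a := by linarith
    have hs0' : 0 ≤ s := by rw [hs]; positivity
    have hs1 : s ≤ 1 := by rw [hs, div_le_one ha00]; exact hAa
    have hAs : A = s * a := by rw [hs]; field_simp
    have hc := cos_concave (x := Real.pi / 12 + a) (y := Real.pi / 12) (s := s)
      (by rw [abs_of_pos (by positivity)]; linarith) (by rw [abs_of_pos (by positivity)]; linarith)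
      hs0' hs1
    have e1 : (1 - s) * (Real.pi / 12 + a) + s * (Real.pi / 12) = Real.pi / 12 + a - A := by
      rw [hAs]
      ring
    rw [e1] at hc
    -- value at `A = a`
    have f1 : (2 : ℝ) ^ u * √2 * a <
        0.916 * (2 * Real.sin (Real.pi / 6 + 2 * a) * Real.cos (Real.pi / 12) - 1) := by
      obtain ⟨s', hs'⟩ : ∃ s', s' = 4 * u - 1 / 2 := ⟨_, rfl⟩
      have hu : u = (1 + 2 * s') / 8 := by rw [hs']; ring
      have hs'0 : 0 ≤ s' := by linarith
      have hs'1 : s' ≤ 1 := by linarith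
      have h1 := sin_concave (x := Real.pi / 4) (y := 5 * Real.pi / 12) (s := s') (by positivity)
        (by linarith) (by positivity) (by linarith) hs'0 hs'1
      have e2 : (1 - s') * (Real.pi / 4) + s' * (5 * Real.pi / 12) = Real.pi / 6 + 2 * a := by
        rw [ha, hs']
        ring
      rw [e2] at h1
      have hc12 : 0 < Real.cos (Real.pi / 12) :=
        Real.cos_pos_of_mem_Ioo ⟨by linarith, by linarith⟩
      have e3 : 2 * Real.sin (Real.pi / 4) * Real.cos (Real.pi / 12) = √3 / 2 + 1 / 2 := by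
        rw [plf_sc]
        have b1 : Real.pi / 4 - Real.pi / 12 = Real.pi / 6 := by ring
        have b2 : Real.pi / 4 + Real.pi / 12 = Real.pi / 3 := by ring
        rw [b1, b2, Real.sin_pi_div_six, Real.sin_pi_div_three]
        ring
      have e4 : 2 * Real.sin (5 * Real.pi / 12) * Real.cos (Real.pi / 12) = √3 / 2 + 1 := by
        rw [plf_sc]
        have b1 : 5 * Real.pi / 12 - Real.pi / 12 = Real.pi / 3 := by ring
        have b2 : 5 * Real.pi / 12 + Real.pi / 12 = Real.pi / 2 := by ring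
        rw [b1, b2, Real.sin_pi_div_two, Real.sin_pi_div_three]
      have h2 : (1 - s') * (√3 / 2 + 1 / 2) + s' * (√3 / 2 + 1) ≤
          2 * Real.sin (Real.pi / 6 + 2 * a) * Real.cos (Real.pi / 12) := by
        rw [← e3, ← e4]
        have := mul_le_mul_of_nonneg_right h1 hc12.le
        linarith
      have h3 : (2 : ℝ) ^ u * √2 * a ≤ (1 + u) * (√2 * Real.pi) * u / 3 := by
        have : (2 : ℝ) ^ u * √2 * a ≤ (1 + u) * √2 * a := by gcongr
        refine this.trans (le_of_eq ?_)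
        rw [ha]
        ring
      have h4 : (1 + u) * (√2 * Real.pi) * u / 3 ≤ (1 + u) * 4.4432 * u / 3 := by
        gcongr
      have h5 : (1 + u) * 4.4432 * u / 3 ≤ 0.2084 + 0.5556 * s' := by
        rw [hu]
        nlinarith
      nlinarith
    have h6 : 0 ≤ 2 * Real.sin (Real.pi / 6 + 2 * a) := by linarith
    have h7 := mul_le_mul_of_nonneg_left hc h6
    have h8 : (2 : ℝ) ^ u * √2 * A = s * ((2 : ℝ) ^ u * √2 * a) := by rw [hAs]; ring
    rw [h8]
    rcases hs0'.eq_or_lt with h9 | h9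
    · rw [← h9] at h7 ⊢
      linarith
    · have h10 := mul_lt_mul_of_pos_left f1 h9
      have h11 := mul_nonneg (by linarith : 0 ≤ 1 - s) f0.le
      nlinarith
  · -- `A* = π/2 - π u`
    obtain ⟨B, hB⟩ : ∃ B, B = Real.pi / 2 - Real.pi * u := ⟨_, rfl⟩
    have hB0 : 0 < B := by rw [hB]; nlinarith
    obtain ⟨s, hs⟩ : ∃ s, s = A / B := ⟨_, rfl⟩
    have hs0' : 0 ≤ s := by rw [hs]; positivity
    have hs1 : s ≤ 1 := by rw [hs, div_le_one hB0, hB]; exact hA3
    have hAs : A = s * B := by rw [hs]; field_simp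
    have h3a : Real.pi * u = 3 * a := by rw [ha]; ring
    have hBa : B ≤ a := by
      rw [hB, h3a]
      have : Real.pi / 8 ≤ a := by rw [ha]; nlinarith
      linarith
    have hc := cos_concave (x := Real.pi / 12 + a) (y := Real.pi / 12 + a - B) (s := s)
      (by rw [abs_of_pos (by linarith)]; linarith)
      (by rw [abs_of_nonneg (by linarith)]; linarith) hs0' hs1
    have e1 : (1 - s) * (Real.pi / 12 + a) + s * (Real.pi / 12 + a - B) =
        Real.pi / 12 + a - A := by
      rw [hAs]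
      ring
    rw [e1] at hc
    have f1 : (2 : ℝ) ^ u * √2 * B <
        0.916 * (2 * Real.sin (Real.pi / 6 + 2 * a) * Real.cos (Real.pi / 12 + a - B) - 1) := by
      obtain ⟨s', hs'⟩ : ∃ s', s' = 8 * u - 3 := ⟨_, rfl⟩
      have hu : u = (3 + s') / 8 := by rw [hs']; ring
      have hs'0 : 0 ≤ s' := by linarith
      have hs'1 : s' ≤ 1 := by linarith
      have h1 := cos_concave (x := 0) (y := Real.pi / 4) (s := s') (by rw [abs_zero]; positivity)
        (by rw [abs_of_pos (by positivity)]; linarith) hs'0 hs'1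
      have h2 := sin_concave (x := Real.pi / 3) (y := Real.pi / 4) (s := s') (by positivity)
        (by linarith) (by positivity) (by linarith) hs'0 hs'1
      rw [Real.cos_zero, Real.cos_pi_div_four] at h1
      rw [Real.sin_pi_div_three, Real.sin_pi_div_four] at h2
      have e2 : 2 * Real.sin (Real.pi / 6 + 2 * a) * Real.cos (Real.pi / 12 + a - B) =
          Real.sin ((1 - s') * (Real.pi / 3) + s' * (Real.pi / 4)) +
            Real.cos ((1 - s') * 0 + s' * (Real.pi / 4)) := by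
        rw [plf_sc, ← Real.sin_pi_div_two_sub ((1 - s') * 0 + s' * (Real.pi / 4))]
        congr 1
        · congr 1
          rw [hB, ha, hu]
          ring
        · rw [← Real.sin_pi_sub]
          congr 1
          rw [hB, ha, hu]
          ring
      rw [e2]
      have h3 : (2 : ℝ) ^ u * √2 * B ≤ (1 + u) * (√2 * Real.pi) * (1 - s') / 8 := by
        have : (2 : ℝ) ^ u * √2 * B ≤ (1 + u) * √2 * B := by gcongr
        refine this.trans (le_of_eq ?_)
        rw [hB, hu]
        ring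
      have h4 : (1 + u) * (√2 * Real.pi) * (1 - s') / 8 ≤ (1 + u) * 4.4432 * (1 - s') / 8 := by
        have : 0 ≤ 1 - s' := by linarith
        gcongr
      have h5 : (1 + u) * 4.4432 * (1 - s') / 8 ≤ 0.7638 - 0.6942 * s' := by
        rw [hu]
        nlinarith
      have h6 : s' * (1.4142 : ℝ) ≤ s' * √2 := mul_le_mul_of_nonneg_left r2 hs'0
      have h7 : (1 - s') * (1.732 : ℝ) ≤ (1 - s') * √3 :=
        mul_le_mul_of_nonneg_left r3 (by linarith)
      linarith
    have h6 : 0 ≤ 2 * Real.sin (Real.pi / 6 + 2 * a) := by linarith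
    have h7 := mul_le_mul_of_nonneg_left hc h6
    have h8 : (2 : ℝ) ^ u * √2 * A = s * ((2 : ℝ) ^ u * √2 * B) := by rw [hAs]; ring
    rw [h8]
    rcases hs0'.eq_or_lt with h9 | h9
    · rw [← h9] at h7 ⊢
      linarith
    · have h10 := mul_lt_mul_of_pos_left f1 h9
      have h11 := mul_nonneg (by linarith : 0 ≤ 1 - s) f0.le
      nlinarith

/-- `tan A tan g ≤ 0.084` if `g + 2 A ≤ π/4` -/
theorem plf_tan {A g : ℝ} (hA0 : 0 ≤ A) (hg0 : 0 ≤ g) (hg : g + 2 * A ≤ Real.pi / 4) :
    Real.sin A * Real.tan g ≤ 0.084 * Real.cos A := by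
  have hpi := Real.pi_pos
  have hcA : 0 < Real.cos A := Real.cos_pos_of_mem_Ioo ⟨by linarith, by linarith⟩
  have hcg : 0 < Real.cos g := Real.cos_pos_of_mem_Ioo ⟨by linarith, by linarith⟩
  have hsA : 0 ≤ Real.sin A := Real.sin_nonneg_of_nonneg_of_le_pi hA0 (by linarith)
  have h1 : Real.sin (g + 2 * A) ≤ Real.cos (g + 2 * A) := by
    rw [← Real.sin_pi_div_two_sub (g + 2 * A)]
    apply Real.sin_le_sin_of_le_of_le_pi_div_two <;> linarith
  rw [Real.sin_add, Real.cos_add, Real.sin_two_mul, Real.cos_two_mul'] at h1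
  obtain ⟨t, ht⟩ : ∃ t, t = Real.sin A / Real.cos A := ⟨_, rfl⟩
  obtain ⟨x, hx⟩ : ∃ x, x = Real.sin g / Real.cos g := ⟨_, rfl⟩
  have esA : Real.sin A = t * Real.cos A := by rw [ht]; field_simp
  have esg : Real.sin g = x * Real.cos g := by rw [hx]; field_simp
  have ht0 : 0 ≤ t := by rw [ht]; positivity
  rw [esA, esg] at h1
  have h2 : x * (1 + 2 * t - t ^ 2) ≤ 1 - 2 * t - t ^ 2 := by
    have h3 : Real.cos g * Real.cos A ^ 2 * (x * (1 + 2 * t - t ^ 2)) ≤
        Real.cos g * Real.cos A ^ 2 * (1 - 2 * t - t ^ 2) := by nlinarith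
    exact le_of_mul_le_mul_left h3 (by positivity)
  have hx0 : 0 ≤ x := by
    rw [hx]
    exact div_nonneg (Real.sin_nonneg_of_nonneg_of_le_pi hg0 (by linarith)) hcg.le
  have ht1 : t ≤ 1 / 2 := by
    by_contra hcon
    push Not at hcon
    rcases le_or_gt 0 (1 + 2 * t - t ^ 2) with h4 | h4
    · have := mul_nonneg hx0 h4
      nlinarith
    · -- `t > 1 + √2` impossible because `A ≤ π/8`
      have h5 : Real.sin A ≤ Real.cos A := by
        rw [← Real.sin_pi_div_two_sub A]
        apply Real.sin_le_sin_of_le_of_le_pi_div_two <;> linarith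
      rw [esA] at h5
      have h6 : t ≤ 1 := by
        by_contra h7
        push Not at h7
        nlinarith
      nlinarith
  have h5 : 0 < 1 + 2 * t - t ^ 2 := by nlinarith
  have h6 : t * x ≤ 0.084 := by
    have h7 : t * (x * (1 + 2 * t - t ^ 2)) ≤ t * (1 - 2 * t - t ^ 2) :=
      mul_le_mul_of_nonneg_left h2 ht0
    have h8 : t * (1 - 2 * t - t ^ 2) ≤ 0.084 * (1 + 2 * t - t ^ 2) := by
      nlinarith [mul_nonneg ht0 (sq_nonneg (t - 0.19)), sq_nonneg (t - 0.19)]
    have h9 : (t * x) * (1 + 2 * t - t ^ 2) ≤ 0.084 * (1 + 2 * t - t ^ 2) := by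
      calc (t * x) * (1 + 2 * t - t ^ 2) = t * (x * (1 + 2 * t - t ^ 2)) := by ring
        _ ≤ _ := h7.trans h8
    exact le_of_mul_le_mul_right h9 h5
  rw [Real.tan_eq_sin_div_cos, ← hx, esA]
  calc t * Real.cos A * x = (t * x) * Real.cos A := by ring
    _ ≤ 0.084 * Real.cos A := mul_le_mul_of_nonneg_right h6 hcA.le

/-- `2 (sin 5π/12) (cos π/12) - 1 = √3/2` used for the large sheets -/
theorem plf_be {σ y : ℝ} (h1 : Real.sin (5 * Real.pi / 12) ≤ Real.sin σ)
    (hy : |y| ≤ Real.pi / 12) : √3 / 2 ≤ 2 * Real.sin σ * Real.cos y - 1 := by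
  have hpi := Real.pi_pos
  have h2 : Real.cos (Real.pi / 12) ≤ Real.cos y := by
    rw [← Real.cos_abs y]
    exact Real.cos_le_cos_of_nonneg_of_le_pi (abs_nonneg _) (by linarith) hy
  have h3 : 0 < Real.sin (5 * Real.pi / 12) :=
    Real.sin_pos_of_pos_of_lt_pi (by positivity) (by linarith)
  have h4 : 0 < Real.cos (Real.pi / 12) := Real.cos_pos_of_mem_Ioo ⟨by linarith, by linarith⟩
  have e4 : 2 * Real.sin (5 * Real.pi / 12) * Real.cos (Real.pi / 12) = √3 / 2 + 1 := by
    rw [plf_sc]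
    have b1 : 5 * Real.pi / 12 - Real.pi / 12 = Real.pi / 3 := by ring
    have b2 : 5 * Real.pi / 12 + Real.pi / 12 = Real.pi / 2 := by ring
    rw [b1, b2, Real.sin_pi_div_two, Real.sin_pi_div_three]
  have h5 : Real.sin (5 * Real.pi / 12) * Real.cos (Real.pi / 12) ≤ Real.sin σ * Real.cos y :=
    mul_le_mul h1 h2 h4.le (h3.le.trans h1)
  linarith

namespace FsD

variable {k A φ τ η T P S w c : ℝ}

/-- `A < τ` is impossible if `F_1 ≥ π` -/
theorem no_two (h : FsD k A φ τ η T P S w c) (hk8 : k ≤ 8) (hτ : 0 ≤ τ) (hAτ : A < τ)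
    (hF : Real.pi ≤ k * φ) : False := by
  have hpi := Real.pi_pos
  have hpi4 := Real.pi_gt_d4
  have hpi4' := Real.pi_lt_d4
  have k0 := h.k0
  have hk := h.hk
  have hψ := h.ψ
  have hA := h.A0
  have hsA := h.sinA
  have hcA := h.cosA
  have hclb := h.c_lb hF
  obtain ⟨u, hu⟩ : ∃ u, u = 1 / k := ⟨_, rfl⟩
  have hu0 : 1 / 8 ≤ u := by
    rw [hu]
    exact one_div_le_one_div_of_le k0 hk8
  have hu1 : u < 1 / 2 := by
    rw [hu]
    exact one_div_lt_one_div_of_lt (by norm_num) hk
  have hku : k * u = 1 := by rw [hu]; field_simp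
  obtain ⟨a, ha⟩ : ∃ a, a = Real.pi / (3 * k) := ⟨_, rfl⟩
  have hau : a = Real.pi * u / 3 := by rw [ha, hu]; field_simp
  have h3a : Real.pi / k = 3 * a := by rw [ha]; field_simp
  have ka : k * a = Real.pi / 3 := by rw [ha]; field_simp
  have hφ3 : 3 * a ≤ φ := by
    have : k * (3 * a) ≤ k * φ := by
      have e : k * (3 * a) = 3 * (k * a) := by ring
      rw [e, ka]
      linarith
    exact le_of_mul_le_mul_left this k0
  have hτ1 : τ ≤ 3 / 2 * a := by
    have : k * τ ≤ k * (3 / 2 * a) := by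
      have e : k * (3 / 2 * a) = 3 / 2 * (k * a) := by ring
      rw [e, ka]
      linarith [(abs_lt.1 h.τ2).2]
    exact le_of_mul_le_mul_left this k0
  have ha0 : Real.pi / 24 ≤ a := by rw [hau]; nlinarith
  have ha1 : a < Real.pi / 6 := by rw [hau]; nlinarith
  rw [h3a, ← hu] at hclb
  obtain ⟨g, hg⟩ : ∃ g, g = (φ - 3 * a) / 2 := ⟨_, rfl⟩
  rw [← hg] at hclb
  have hg0 : 0 ≤ g := by linarith
  have h2u := two_rpow_le (u := u) (by linarith) (by linarith)
  have h2u0 : 0 < (2 : ℝ) ^ u := Real.rpow_pos_of_pos (by norm_num) _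
  have r2 : √2 ≤ (1.4143 : ℝ) := Real.sqrt_le_iff.2 ⟨by norm_num, by norm_num⟩
  have r20 : 0 < √2 := by positivity
  have r3 : (1.732 : ℝ) ≤ √3 := Real.le_sqrt_of_sq_le (by norm_num)
  have s2A : Real.sin (2 * A) = 2 * Real.sin A * Real.cos A := Real.sin_two_mul A
  have hsAle : Real.sin A ≤ A := Real.sin_le hA.le
  -- common conclusion
  have fin : ∀ m B : ℝ, 0 < B → m * Real.cos A ≤ (2 : ℝ) ^ u * c → c * B ≤
      Real.sin (2 * A) * (√2 / 2) → (2 : ℝ) ^ u * √2 * A < m * B → False := by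
    intro m B hB h1 h2 h3
    have h4 : m * Real.cos A * B ≤ (2 : ℝ) ^ u * (Real.sin (2 * A) * (√2 / 2)) := by
      calc m * Real.cos A * B ≤ (2 : ℝ) ^ u * c * B := mul_le_mul_of_nonneg_right h1 hB.le
        _ = (2 : ℝ) ^ u * (c * B) := by ring
        _ ≤ _ := mul_le_mul_of_nonneg_left h2 h2u0.le
    have h5 : (2 : ℝ) ^ u * (Real.sin (2 * A) * (√2 / 2)) ≤ (2 : ℝ) ^ u * √2 * A * Real.cos A := by
      rw [s2A]
      have e : (2 : ℝ) ^ u * (2 * Real.sin A * Real.cos A * (√2 / 2)) =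
        (2 : ℝ) ^ u * √2 * Real.cos A * Real.sin A := by ring
      have e' : (2 : ℝ) ^ u * √2 * A * Real.cos A = (2 : ℝ) ^ u * √2 * Real.cos A * A := by ring
      rw [e, e']
      exact mul_le_mul_of_nonneg_left hsAle (by positivity)
    have h6 : m * B * Real.cos A ≤ (2 : ℝ) ^ u * √2 * A * Real.cos A := by
      have e : m * B * Real.cos A = m * Real.cos A * B := by ring
      rw [e]
      exact h4.trans h5
    have h7 := le_of_mul_le_mul_right h6 hcA
    linarith
  rcases lt_or_ge A a with hAa | hAa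
  · -- `A < a`
    have ht := plf_tan (A := A) (g := g) hA.le hg0 (by rw [hg]; linarith)
    have hm : 0.916 * Real.cos A ≤ (2 : ℝ) ^ u * c := by linarith
    have hcA' : 0.92 ≤ Real.cos A := by
      have := Real.one_sub_sq_div_two_le_cos (x := A)
      have hA8 : A ≤ Real.pi / 8 := by linarith
      nlinarith
    have hc : 1 / 2 ≤ c := by
      by_contra hcon
      push Not at hcon
      have : (2 : ℝ) ^ u * c ≤ (1 + u) * (1 / 2) :=
        mul_le_mul h2u hcon.le h.c0.le (by linarith)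
      nlinarith
    have hq := h.quarter hτ hc
    rw [← ha] at hq
    have hal := plf_al (u := u) (A := A) hu0 hu1 hA (by rw [← hau]; exact hAa.le) (by
      have : Real.pi * u = 3 * a := by rw [hau]; ring
      rw [this]
      linarith)
    rw [← hau] at hal
    -- `sin σ ≥ sin (π/6 + 2a)`
    have hσ : Real.sin (Real.pi / 6 + 2 * a) ≤ Real.sin (φ + Real.pi / 6 - a) := by
      rcases le_or_gt (φ + Real.pi / 6 - a) (Real.pi / 2) with h1 | h1
      · apply Real.sin_le_sin_of_le_of_le_pi_div_two <;> linarith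
      · rw [← Real.sin_pi_sub (φ + Real.pi / 6 - a)]
        apply Real.sin_le_sin_of_le_of_le_pi_div_two <;> linarith
    have hcy : 0 < Real.cos (Real.pi / 12 + a - A) :=
      Real.cos_pos_of_mem_Ioo ⟨by linarith, by linarith⟩
    have h1 := mul_le_mul_of_nonneg_right hσ hcy.le
    refine fin 0.916 _ ?_ hm hq ?_
    · have : 0 < (2 : ℝ) ^ u * √2 * A := by positivity
      nlinarith
    · refine hal.trans_le ?_
      nlinarith
  · -- `a ≤ A`: large sheet
    have hφ2 : Real.pi / 3 + a < φ := by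
      by_contra hcon
      have := h.A_lt_a hτ hAτ hF (by rw [← ha]; linarith)
      rw [← ha] at this
      linarith
    have hA10 : A < Real.pi / 10 := by linarith
    have hu4 : u ≤ 1 / 4 := by
      have : a < Real.pi / 12 := by linarith
      rw [hau] at this
      by_contra hcon
      push Not at hcon
      nlinarith
    have hm : 0.76 * Real.cos A ≤ (2 : ℝ) ^ u * c := by
      have h1 : Real.sin A * Real.tan g ≤ 0.24 * Real.cos A := by
        have h2 : Real.tan g ≤ 1 / √3 := by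
          rw [← Real.tan_pi_div_six]
          rcases (by linarith : g ≤ Real.pi / 6).eq_or_lt with h3 | h3
          · rw [h3]
          · exact (Real.tan_lt_tan_of_lt_of_lt_pi_div_two (by linarith) (by linarith) h3).le
        have h3 : 1 / √3 ≤ 0.5774 := by
          rw [div_le_iff₀ (by positivity)]
          linarith
        have h4 : Real.sin A ≤ 0.4 * Real.cos A := by
          have := Real.one_sub_sq_div_two_le_cos (x := A)
          nlinarith
        have h5 : 0 ≤ Real.tan g :=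
          Real.tan_nonneg_of_nonneg_of_le_pi_div_two hg0 (by linarith)
        calc Real.sin A * Real.tan g ≤ (0.4 * Real.cos A) * 0.5774 :=
              mul_le_mul h4 (h2.trans h3) h5 (by positivity)
          _ ≤ 0.24 * Real.cos A := by nlinarith
      linarith
    have hcA' : 0.92 ≤ Real.cos A := by
      have := Real.one_sub_sq_div_two_le_cos (x := A)
      nlinarith
    have hc : 1 / 2 ≤ c := by
      by_contra hcon
      push Not at hcon
      have : (2 : ℝ) ^ u * c ≤ (1 + u) * (1 / 2) :=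
        mul_le_mul h2u hcon.le h.c0.le (by linarith)
      nlinarith
    have hq := h.quarter hτ hc
    rw [← ha] at hq
    have hbe := plf_be (σ := φ + Real.pi / 6 - a) (y := Real.pi / 12 + a - A) (by
      rw [← Real.sin_pi_sub (φ + Real.pi / 6 - a)]
      apply Real.sin_le_sin_of_le_of_le_pi_div_two <;> linarith) (by
      rw [abs_le]
      constructor <;> linarith)
    refine fin 0.76 _ (by linarith) hm hq ?_
    have h1 : (2 : ℝ) ^ u * √2 * A ≤ (5 / 4) * 1.4143 * 0.3142 := by
      have h2 : (2 : ℝ) ^ u ≤ 5 / 4 := by linarith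
      have h3 : A ≤ 0.3142 := by linarith
      gcongr
    nlinarith

end FsD

end EQS
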