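import Mathlib
import Pool.Agent.Lib.MP_226de1_co.E.PLFa

/-! Unit disc exit, case PL: `F_1 < π` on all sheets. Third part: `A ≥ τ` is impossible if
`F_1 ≥ π` and `k ≤ 8`; the theorem `St.pl_F`. -/

set_option autoImplicit false

namespace EQS

/-- one piece of the final inequality -/
theorem plf_piece {u v l ρ u0 c b : ℝ} (hu0 : 0 < u0) (hu : u0 ≤ u) (hc : (2 : ℝ) ^ u ≤ c)
    (hv0 : 0 ≤ v) (hl0 : 0 ≤ l) (hρ : u * ρ ≤ b) (hρ0 : 0 < ρ) (hρc : c * v < ρ)
    (hQ : c * l < u0 * ρ * ((1 + u0 * l) * ρ - c * v)) :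
    (2 : ℝ) ^ u * (u * l + b * (u * v)) < (1 + u * l) * b ^ 2 := by
  have hx0 : 0 < (2 : ℝ) ^ u := Real.rpow_pos_of_pos (by norm_num) _
  set x := (2 : ℝ) ^ u with hx
  have hu1 : 0 < u := by linarith
  have hb0 : 0 < u * ρ := by positivity
  have h1 : u * ((1 + u * l) * ρ - c * v) ≤ (1 + u * l) * b - x * (u * v) := by
    have h2 : (1 + u * l) * (u * ρ) ≤ (1 + u * l) * b :=
      mul_le_mul_of_nonneg_left hρ (by positivity)
    have h3 : x * (u * v) ≤ c * (u * v) := mul_le_mul_of_nonneg_right hc (by positivity)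
    linarith
  have h2 : 0 < (1 + u * l) * ρ - c * v := by
    have : 0 ≤ u * l * ρ := by positivity
    linarith
  have h3 : u * ρ * (u * ((1 + u * l) * ρ - c * v)) ≤ b * ((1 + u * l) * b - x * (u * v)) :=
    mul_le_mul hρ h1 (by positivity) (by linarith)
  have h4 : u0 * ρ * ((1 + u0 * l) * ρ - c * v) ≤ u * ρ * ((1 + u * l) * ρ - c * v) := by
    have h5 : (1 + u0 * l) * ρ - c * v ≤ (1 + u * l) * ρ - c * v := by
      have : u0 * l * ρ ≤ u * l * ρ := by gcongr
      linarith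
    have h6 : 0 < (1 + u0 * l) * ρ - c * v := by
      have : 0 ≤ u0 * l * ρ := by positivity
      linarith
    exact mul_le_mul (by gcongr) h5 h6.le (by positivity)
  have h5 : u * (c * l) < u * (u * ρ * ((1 + u * l) * ρ - c * v)) :=
    mul_lt_mul_of_pos_left (by linarith) hu1
  have h6 : x * (u * l) ≤ c * (u * l) := mul_le_mul_of_nonneg_right hc (by positivity)
  nlinarith

theorem rpow_le_of {p q : ℕ} {c : ℝ} (hq : q ≠ 0) (hc : 0 ≤ c) (h : (2 : ℝ) ^ p ≤ c ^ q) :
    (2 : ℝ) ^ ((p : ℝ) / q) ≤ c := by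
  have hq0 : (q : ℝ) ≠ 0 := by exact_mod_cast hq
  have e1 : (2 : ℝ) ^ ((p : ℝ) / q) = ((2 : ℝ) ^ p) ^ (1 / (q : ℝ)) := by
    rw [← Real.rpow_natCast, ← Real.rpow_mul (by norm_num)]
    congr 1
    field_simp
  have e2 : c = (c ^ q) ^ (1 / (q : ℝ)) := by
    rw [← Real.rpow_natCast, ← Real.rpow_mul hc]
    have : (q : ℝ) * (1 / q) = 1 := by field_simp
    rw [this, Real.rpow_one]
  rw [e1, e2]
  exact Real.rpow_le_rpow (by positivity) h (by positivity)

/-- the final inequality (`b = sin ((π - v) u)`, `l ≤ 0.6932 - v²/2`) -/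
theorem plf_num {u v : ℝ} (hu0 : 1 / 8 ≤ u) (hu1 : u ≤ 1 / 2) (hv0 : 0 ≤ v)
    (hv1 : v ≤ Real.pi / 3) :
    (2 : ℝ) ^ u * (u * (0.6932 - v ^ 2 / 2) + Real.sin ((Real.pi - v) * u) * (u * v)) <
      (1 + u * (0.6932 - v ^ 2 / 2)) * Real.sin ((Real.pi - v) * u) ^ 2 := by
  have hpi := Real.pi_pos
  have hpi4 := Real.pi_gt_d6
  have hpi4' := Real.pi_lt_d6
  obtain ⟨w, hw⟩ : ∃ w, w = Real.pi - v := ⟨_, rfl⟩
  rw [← hw]
  have hw0 : 2.094 ≤ w := by linarith
  have hw1 : w ≤ 3.1416 := by linarith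
  have hv2 : v ≤ 1.0472 := by linarith
  have hl0 : 0 ≤ 0.6932 - v ^ 2 / 2 := by nlinarith
  have hw3 : w ^ 3 ≤ 20.833 * w - 34.4424 := by
    have : 0 ≤ (w - 2.094) * (3.1416 - w) * (w + 5.2356) := by
      apply mul_nonneg (mul_nonneg (by linarith) (by linarith)) (by linarith)
    nlinarith
  have hwv : w = Real.pi - v := hw
  have hwl : 3.1415 - v ≤ w := by linarith
  have mono : ∀ y : ℝ, u ≤ y → (2 : ℝ) ^ u ≤ (2 : ℝ) ^ y := fun y hy =>
    Real.rpow_le_rpow_of_exponent_le (by norm_num) hy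
  have hsin : ∀ u1 : ℝ, u ≤ u1 → u * (w - w ^ 3 * u1 ^ 2 / 6) ≤ Real.sin (w * u) := by
    intro u1 h1
    have h2 := Real.sin_ge_sub_cube (x := w * u) (by positivity)
    have h3 : w ^ 3 * u ^ 3 ≤ w ^ 3 * (u * u1 ^ 2) := by
      have h4 : u ^ 3 ≤ u * u1 ^ 2 := by
        have : u ^ 2 ≤ u1 ^ 2 := pow_le_pow_left₀ (by linarith) h1 2
        nlinarith
      exact mul_le_mul_of_nonneg_left h4 (by positivity)
    nlinarith
  rcases le_or_gt u (5 / 32) with h1 | h1
  · have hc : (2 : ℝ) ^ u ≤ 1.1144 := by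
      refine (mono (5 / 32) h1).trans ?_
      have := rpow_le_of (p := 5) (q := 32) (c := 1.1144) (by norm_num) (by norm_num) (by norm_num)
      norm_num at this ⊢
      exact this
    have hs := hsin (5 / 32) h1
    refine plf_piece (u0 := 1 / 8) (ρ := 3.0153 - 0.9153 * v) (by norm_num) hu0 hc hv0 hl0 ?_
      (by linarith) (by linarith) ?_
    · refine le_trans (mul_le_mul_of_nonneg_left ?_ (by linarith)) hs
      nlinarith
    · nlinarith [mul_nonneg (sq_nonneg (v - 0.76)) (by linarith : 0 ≤ v + 1.52),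
        sq_nonneg (v - 0.76), mul_nonneg (sq_nonneg v) (by linarith : 0 ≤ 1.0472 - v),
        mul_nonneg (mul_nonneg (sq_nonneg v) hv0) (by linarith : 0 ≤ 1.0472 - v)]
  rcases le_or_gt u (1 / 4) with h2 | h2
  · have hc : (2 : ℝ) ^ u ≤ 1.1893 := by
      refine (mono (1 / 4) h2).trans ?_
      have := rpow_le_of (p := 1) (q := 4) (c := 1.1893) (by norm_num) (by norm_num) (by norm_num)
      norm_num at this ⊢
      exact this
    have hs := hsin (1 / 4) h2
    refine plf_piece (u0 := 5 / 32) (ρ := 2.8185 - 0.783 * v) (by norm_num) h1.le hc hv0 hl0 ?_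
      (by linarith) (by linarith) ?_
    · refine le_trans (mul_le_mul_of_nonneg_left ?_ (by linarith)) hs
      nlinarith
    · nlinarith [mul_nonneg (sq_nonneg (v - 0.8)) (by linarith : 0 ≤ v + 1.6),
        sq_nonneg (v - 0.8), mul_nonneg (sq_nonneg v) (by linarith : 0 ≤ 1.0472 - v),
        mul_nonneg (mul_nonneg (sq_nonneg v) hv0) (by linarith : 0 ≤ 1.0472 - v)]
  rcases le_or_gt u (3 / 8) with h3 | h3
  · have hc : (2 : ℝ) ^ u ≤ 1.2969 := by
      refine (mono (3 / 8) h3).trans ?_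
      have := rpow_le_of (p := 3) (q := 8) (c := 1.2969) (by norm_num) (by norm_num) (by norm_num)
      norm_num at this ⊢
      exact this
    have hs := hsin (3 / 8) h3
    refine plf_piece (u0 := 1 / 4) (ρ := 2.4148 - 0.5118 * v) (by norm_num) h2.le hc hv0 hl0 ?_
      (by linarith) (by linarith) ?_
    · refine le_trans (mul_le_mul_of_nonneg_left ?_ (by linarith)) hs
      nlinarith
    · nlinarith [mul_nonneg (sq_nonneg (v - 0.94)) (by linarith : 0 ≤ v + 1.88),
        sq_nonneg (v - 0.94), mul_nonneg (sq_nonneg v) (by linarith : 0 ≤ 1.0472 - v),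
        mul_nonneg (mul_nonneg (sq_nonneg v) hv0) (by linarith : 0 ≤ 1.0472 - v)]
  · have hc : (2 : ℝ) ^ u ≤ 1.41422 := by
      refine (mono (1 / 2) hu1).trans ?_
      have := rpow_le_of (p := 1) (q := 2) (c := 1.41422) (by norm_num) (by norm_num)
        (by norm_num)
      norm_num at this ⊢
      exact this
    have hs := hsin (1 / 2) hu1
    refine plf_piece (u0 := 3 / 8) (ρ := 1.8496 - 0.132 * v) (by norm_num) h3.le hc hv0 hl0 ?_
      (by linarith) (by linarith) ?_
    · refine le_trans (mul_le_mul_of_nonneg_left ?_ (by linarith)) hs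
      nlinarith
    · nlinarith [mul_nonneg (sq_nonneg (v - 1.02)) (by linarith : 0 ≤ v + 2.04),
        sq_nonneg (v - 1.02), mul_nonneg (sq_nonneg v) (by linarith : 0 ≤ 1.0472 - v),
        mul_nonneg (mul_nonneg (sq_nonneg v) hv0) (by linarith : 0 ≤ 1.0472 - v)]

namespace FsD

variable {k A φ τ η T P S w c : ℝ}

/-- `T > 1` and `τ < π/(3k)` if `τ ≤ A` -/
theorem T_gt (h : FsD k A φ τ η T P S w c) (hτ : 0 ≤ τ) (hτA : τ ≤ A) :
    1 < T ∧ τ < Real.pi / (3 * k) := by
  have hpi := Real.pi_pos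
  have k0 := h.k0
  have hψ := h.ψ
  have hlt := h.τ_lt hτ
  have hEa := h.Ea
  have hcβ : 0 < Real.cos (φ - τ) := Real.cos_pos_of_mem_Ioo ⟨by linarith, by linarith [h.A0]⟩
  have hcδ : 0 < Real.cos (A - τ) := Real.cos_pos_of_mem_Ioo ⟨by linarith, by linarith [h.φ0]⟩
  have hsβ : 0 < Real.sin (φ - τ) :=
    Real.sin_pos_of_pos_of_lt_pi (by linarith) (by linarith [h.A0])
  have hsδ : 0 ≤ Real.sin (A - τ) :=
    Real.sin_nonneg_of_nonneg_of_le_pi (by linarith) (by linarith [h.φ0])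
  have hT1 : 1 < T := by
    by_contra hcon
    have h1 : (T - 1) * Real.cos (φ - τ) * Real.cos (A - τ) ≤ 0 :=
      mul_nonpos_of_nonpos_of_nonneg
        (mul_nonpos_of_nonpos_of_nonneg (by linarith [not_lt.1 hcon]) hcβ.le) hcδ.le
    have h2 : 0 ≤ (T + 1) * Real.sin (φ - τ) * Real.sin (A - τ) := by
      have := h.T0
      positivity
    have h3 := mul_pos h.P0 h.cosψ
    linarith [h.w0]
  refine ⟨hT1, ?_⟩
  have hT := h.T_ub hτ
  by_contra hcon
  have h1 : Real.cos (Real.pi / 3 + 2 * (τ - Real.pi / (3 * k))) ≤ Real.cos (Real.pi / 3) :=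
    Real.cos_le_cos_of_nonneg_of_le_pi (by positivity) (by
      have := (abs_lt.1 h.τ4).2
      have h4 : 0 < Real.pi / (3 * k) := by positivity
      linarith) (by linarith [not_lt.1 hcon])
  rw [Real.cos_pi_div_three] at h1
  linarith

/-- the quadratic inequality for `T`, `β = φ - τ` -/
theorem quadT (h : FsD k A φ τ η T P S w c) (hτ : 0 ≤ τ) (hτA : τ ≤ A) :
    c * ((T + 1) * Real.sin (φ - τ)) ^ 2 ≤
      2 * Real.cos A * ((T - 1) + (T + 1) * Real.sin (φ - τ) * Real.sin τ) := by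
  have hpi := Real.pi_pos
  have k0 := h.k0
  have hψ := h.ψ
  have hA := h.A0
  have hφ := h.φ0
  have hlt := h.τ_lt hτ
  obtain ⟨hT1, hτa⟩ := h.T_gt hτ hτA
  have hτ6 : τ < Real.pi / 6 := by
    have : Real.pi / (3 * k) ≤ Real.pi / 6 := by
      apply div_le_div_of_nonneg_left hpi.le (by norm_num) (by linarith [h.hk])
    linarith
  have hcτ : 0.866 ≤ Real.cos τ := by
    have h1 : Real.cos (Real.pi / 6) ≤ Real.cos τ :=
      Real.cos_le_cos_of_nonneg_of_le_pi hτ (by linarith) hτ6.le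
    rw [Real.cos_pi_div_six] at h1
    have r3 : (1.732 : ℝ) ≤ √3 := Real.le_sqrt_of_sq_le (by norm_num)
    linarith
  have hsβ : 0 < Real.sin (φ - τ) :=
    Real.sin_pos_of_pos_of_lt_pi (by linarith) (by linarith [h.A0])
  have hsδ : 0 ≤ Real.sin (A - τ) :=
    Real.sin_nonneg_of_nonneg_of_le_pi (by linarith) (by linarith [h.φ0])
  have hsτ : 0 ≤ Real.sin τ := Real.sin_nonneg_of_nonneg_of_le_pi hτ (by linarith)
  have hsφ : 0 < Real.sin φ := Real.sin_pos_of_pos_of_lt_pi hφ (by linarith)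
  have hcA : Real.sin φ ≤ Real.cos A := by
    rw [← Real.cos_pi_div_two_sub]
    exact Real.cos_le_cos_of_nonneg_of_le_pi hA.le (by linarith) (by linarith)
  have hcδ : Real.cos A ≤ Real.cos (A - τ) :=
    Real.cos_le_cos_of_nonneg_of_le_pi (by linarith) (by linarith) (by linarith)
  have hEs := h.Es
  have hEa := h.Ea
  have hcS := h.cS
  have hcw := h.cw
  have hc0 := h.c0
  have hP := h.P0
  have hT2 : T ≤ 2 := by
    have := h.T_ub hτ
    linarith [Real.cos_le_one (Real.pi / 3 + 2 * (τ - Real.pi / (3 * k)))]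
  have esA : Real.sin A = Real.sin (A - τ) * Real.cos τ + Real.cos (A - τ) * Real.sin τ := by
    rw [← Real.sin_add]
    congr 1
    ring
  rw [Real.sin_two_mul, esA] at hcS
  have hβφ : Real.sin (φ - τ) * Real.sin (φ + τ) ≤ Real.sin φ ^ 2 := by
    have e : Real.sin (φ - τ) * Real.sin (φ + τ) = Real.sin φ ^ 2 - Real.sin τ ^ 2 := by
      rw [Real.sin_sub, Real.sin_add]
      have h1 := Real.sin_sq_add_cos_sq φ
      have h2 := Real.sin_sq_add_cos_sq τ
      linear_combination Real.sin φ ^ 2 * h2 - Real.sin τ ^ 2 * h1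
    rw [e]
    nlinarith [sq_nonneg (Real.sin τ)]
  have hcβ1 := Real.cos_le_one (φ - τ)
  have hcβ0 : 0 < Real.cos (φ - τ) := Real.cos_pos_of_mem_Ioo ⟨by linarith, by linarith⟩
  have hcA0 := h.cosA
  set cA := Real.cos A with hcAd
  set cd := Real.cos (A - τ) with hcd
  set sd := Real.sin (A - τ) with hsd
  set ct := Real.cos τ with hct
  set st := Real.sin τ with hst
  set cb := Real.cos (φ - τ) with hcb
  set b := Real.sin (φ - τ) with hb
  set s := (T + 1) * b with hs
  have hs0 : 0 < s := by rw [hs]; positivity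
  have hcd0 : 0 < cd := by linarith
  have hcd1 : cd ≤ 1 := Real.cos_le_one _
  have hct1 : ct ≤ 1 := Real.cos_le_one _
  -- `s sin δ = (T-1) cos β cos δ - w - P cos S`
  have hE : s * sd = (T - 1) * cb * cd - w - P * Real.cos (A + φ) := by linarith
  have hcS0 := h.cosψ
  -- bound of the `P` part
  have hPp : c * (s * (P * Real.sin (φ + τ))) ≤ 2 * cA * cd * (ct * w) := by
    have h1 : s * Real.sin (φ + τ) ≤ 4 * cA * cd * ct := by
      have h2 : s * Real.sin (φ + τ) ≤ 3 * Real.sin φ ^ 2 := by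
        have : s * Real.sin (φ + τ) = (T + 1) * (b * Real.sin (φ + τ)) := by rw [hs]; ring
        rw [this]
        have h3 : (T + 1) * (b * Real.sin (φ + τ)) ≤ (T + 1) * Real.sin φ ^ 2 :=
          mul_le_mul_of_nonneg_left hβφ (by linarith)
        have h4 : (T + 1) * Real.sin φ ^ 2 ≤ 3 * Real.sin φ ^ 2 :=
          mul_le_mul_of_nonneg_right (by linarith) (sq_nonneg _)
        linarith
      have h3 : Real.sin φ ^ 2 ≤ cA * cd := by
        rw [sq]
        exact mul_le_mul hcA (hcA.trans hcδ) hsφ.le hcA0.le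
      have h4 : 0 < cA * cd := by positivity
      nlinarith
    have h2 : c * (s * (P * Real.sin (φ + τ))) ≤ c * P * (4 * cA * cd * ct) := by
      have := mul_le_mul_of_nonneg_left h1 (by positivity : 0 ≤ c * P)
      linarith
    have h3 : c * P * (4 * cA * cd * ct) ≤ 2 * cA * cd * (ct * w) := by
      have := mul_le_mul_of_nonneg_left hcw (by positivity : 0 ≤ 2 * cA * cd * ct)
      linarith
    linarith
  have hmain : c * s ^ 2 ≤ 2 * cA * cd * (ct * ((T - 1) * cb * cd) + s * cd * st) := by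
    have h1 : c * s ^ 2 = s * cd * (c * S) - c * (s * (w * sd)) +
        c * (s * (P * Real.sin (φ + τ))) := by
      have : s ^ 2 = s * (S * cd - w * sd + P * Real.sin (φ + τ)) := by rw [← hEs]; ring
      rw [this]
      ring
    have h2 : s * cd * (c * S) ≤ s * cd * (2 * (sd * ct + cd * st) * cA) :=
      mul_le_mul_of_nonneg_left hcS (by positivity)
    have h3 : 0 ≤ c * (s * (w * sd)) := by
      have := h.w0
      positivity
    have h4 : s * cd * (2 * (sd * ct + cd * st) * cA) =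
        2 * cA * cd * (ct * (s * sd) + s * cd * st) := by ring
    rw [hE] at h4
    have h5 : 0 ≤ 2 * cA * cd * ct * (P * Real.cos (A + φ)) := by positivity
    nlinarith
  refine hmain.trans ?_
  have h1 : cd * (ct * ((T - 1) * cb * cd) + s * cd * st) ≤ (T - 1) + s * st := by
    have h2 : ct * ((T - 1) * cb * cd) ≤ T - 1 := by
      have h3 : 0 ≤ T - 1 := by linarith
      have h4 : (T - 1) * cb ≤ T - 1 := by nlinarith
      have h5 : (T - 1) * cb * cd ≤ T - 1 := by
        have : 0 ≤ (T - 1) * cb := by positivity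
        nlinarith
      have h6 : 0 ≤ (T - 1) * cb * cd := by positivity
      nlinarith
    have h3 : s * cd * st ≤ s * st := by
      have : 0 ≤ s * st := by positivity
      nlinarith
    have h4 : 0 ≤ ct * ((T - 1) * cb * cd) + s * cd * st := by
      have h5 : 0 ≤ T - 1 := by linarith
      positivity
    nlinarith
  have h2 := mul_le_mul_of_nonneg_left h1 (by positivity : 0 ≤ 2 * cA)
  linarith

/-- `A ≥ τ` is impossible if `F_1 ≥ π` and `k ≤ 8` -/
theorem no_one (h : FsD k A φ τ η T P S w c) (hk8 : k ≤ 8) (hτ : 0 ≤ τ) (hτA : τ ≤ A)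
    (hF : Real.pi ≤ k * φ) : False := by
  have hpi := Real.pi_pos
  have k0 := h.k0
  have hk := h.hk
  have hψ := h.ψ
  have hA := h.A0
  have hsA := h.sinA
  have hcA := h.cosA
  have hclb := h.c_lb hF
  have hlt := h.τ_lt hτ
  obtain ⟨hT1, hτa⟩ := h.T_gt hτ hτA
  have hq := h.quadT hτ hτA
  obtain ⟨u, hu⟩ : ∃ u, u = 1 / k := ⟨_, rfl⟩
  have hu0 : 1 / 8 ≤ u := by
    rw [hu]
    exact one_div_le_one_div_of_le k0 hk8
  have hu1 : u < 1 / 2 := by
    rw [hu]
    exact one_div_lt_one_div_of_lt (by norm_num) hk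
  have hku : k * u = 1 := by rw [hu]; field_simp
  obtain ⟨v, hv⟩ : ∃ v, v = k * τ := ⟨_, rfl⟩
  have hτv : τ = u * v := by rw [hv, hu]; field_simp
  have hv0 : 0 ≤ v := by rw [hv]; positivity
  have hv1 : v < Real.pi / 3 := by
    have := mul_lt_mul_of_pos_left hτa k0
    have e : k * (Real.pi / (3 * k)) = Real.pi / 3 := by field_simp
    rw [e] at this
    rw [hv]
    exact this
  have hpk : Real.pi / k = Real.pi * u := by rw [hu]; ring
  rw [hpk, ← hu] at hclb
  have hφu : Real.pi * u ≤ φ := by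
    have : k * (Real.pi * u) ≤ k * φ := by
      have e : k * (Real.pi * u) = Real.pi * (k * u) := by ring
      rw [e, hku, mul_one]
      exact hF
    exact le_of_mul_le_mul_left this k0
  obtain ⟨g, hg⟩ : ∃ g, g = (φ - Real.pi * u) / 2 := ⟨_, rfl⟩
  rw [← hg] at hclb
  obtain ⟨β0, hβ0⟩ : ∃ β0, β0 = (Real.pi - v) * u := ⟨_, rfl⟩
  have hβ : φ - τ = β0 + 2 * g := by rw [hg, hβ0, hτv]; ring
  have hg0 : 0 ≤ g := by linarith
  have hβ00 : 0 < β0 := by
    rw [hβ0]
    exact mul_pos (by linarith) (by linarith)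
  have hφ2 : φ < Real.pi / 2 := by linarith
  have hg1 : g < Real.pi / 2 := by linarith
  have hcg : 0 < Real.cos g := Real.cos_pos_of_mem_Ioo ⟨by linarith, hg1⟩
  have hsg : 0 ≤ Real.sin g := Real.sin_nonneg_of_nonneg_of_le_pi hg0 (by linarith)
  have h2u0 : 0 < (2 : ℝ) ^ u := Real.rpow_pos_of_pos (by norm_num) _
  have h2u1 : 1 ≤ (2 : ℝ) ^ u := Real.one_le_rpow (by norm_num) (by linarith)
  obtain ⟨b0, hb0⟩ : ∃ b0, b0 = Real.sin β0 := ⟨_, rfl⟩
  obtain ⟨b, hb⟩ : ∃ b, b = Real.sin (φ - τ) := ⟨_, rfl⟩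
  have hb00 : 0 < b0 := by
    rw [hb0]
    exact Real.sin_pos_of_pos_of_lt_pi hβ00 (by linarith)
  have hb01 : b0 ≤ 1 := by rw [hb0]; exact Real.sin_le_one _
  have hb0b : b0 ≤ b := by
    rw [hb0, hb]
    apply Real.sin_le_sin_of_le_of_le_pi_div_two <;> linarith
  have hbp : 0 < b := by linarith
  -- `(cos A - sin A tan g) sin β ≥ cos A sin β0`
  have hm : Real.cos A * b0 ≤ (Real.cos A - Real.sin A * Real.tan g) * b := by
    have hAβ : 0 ≤ Real.cos (A + (φ - τ)) :=
      Real.cos_nonneg_of_mem_Icc ⟨by linarith, by linarith⟩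
    rw [Real.cos_add, ← hb] at hAβ
    have hcβ0 : 0 ≤ Real.cos β0 := Real.cos_nonneg_of_mem_Icc ⟨by linarith, by linarith⟩
    have e1 : b * Real.cos g - b0 * Real.cos g = Real.sin g * (Real.cos (φ - τ) + Real.cos β0) +
        (b - Real.sin (β0 + 2 * g)) * Real.cos g := by
      rw [hb0, hβ, Real.cos_add, Real.sin_add, Real.sin_two_mul, Real.cos_two_mul']
      have h1 := Real.sin_sq_add_cos_sq g
      linear_combination (Real.sin β0 * Real.cos g + Real.sin g * Real.cos β0) * h1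
    rw [← hβ, ← hb, sub_self, zero_mul, add_zero] at e1
    have h1 : (Real.cos A * b0) * Real.cos g ≤
        ((Real.cos A - Real.sin A * Real.tan g) * b) * Real.cos g := by
      have e2 : Real.tan g * Real.cos g = Real.sin g := by
        rw [Real.tan_eq_sin_div_cos]
        field_simp
      have e3 : ((Real.cos A - Real.sin A * Real.tan g) * b) * Real.cos g =
          Real.cos A * (b * Real.cos g) - Real.sin A * b * Real.sin g := by
        rw [← e2]
        ring
      rw [e3]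
      have h3 := mul_nonneg hsg hAβ
      have h4 : 0 ≤ Real.sin g * (Real.cos A * Real.cos β0) := by positivity
      nlinarith
    exact le_of_mul_le_mul_right h1 hcg
  -- `(T+1) b0² ≤ 2^(1+u) ((T-1)/(T+1) + b0 sin τ)`
  rw [← hb] at hq
  have hsτ : 0 ≤ Real.sin τ := Real.sin_nonneg_of_nonneg_of_le_pi hτ (by linarith)
  have hT0 := h.T0
  have h1 : (T + 1) ^ 2 * b0 * b ≤ 2 * (2 : ℝ) ^ u * ((T - 1) + (T + 1) * b * Real.sin τ) := by
    have h2 : Real.cos A * ((T + 1) ^ 2 * b0 * b) ≤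
        Real.cos A * (2 * (2 : ℝ) ^ u * ((T - 1) + (T + 1) * b * Real.sin τ)) := by
      calc Real.cos A * ((T + 1) ^ 2 * b0 * b) = (Real.cos A * b0) * ((T + 1) ^ 2 * b) := by ring
        _ ≤ ((Real.cos A - Real.sin A * Real.tan g) * b) * ((T + 1) ^ 2 * b) :=
            mul_le_mul_of_nonneg_right hm (by positivity)
        _ = (Real.cos A - Real.sin A * Real.tan g) * ((T + 1) * b) ^ 2 := by ring
        _ ≤ ((2 : ℝ) ^ u * c) * ((T + 1) * b) ^ 2 :=
            mul_le_mul_of_nonneg_right hclb (by positivity)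
        _ = (2 : ℝ) ^ u * (c * ((T + 1) * b) ^ 2) := by ring
        _ ≤ (2 : ℝ) ^ u * (2 * Real.cos A * ((T - 1) + (T + 1) * b * Real.sin τ)) :=
            mul_le_mul_of_nonneg_left hq h2u0.le
        _ = _ := by ring
    exact le_of_mul_le_mul_left h2 hcA
  have h2 : (T + 1) ^ 2 * b0 ^ 2 ≤
      2 * (2 : ℝ) ^ u * ((T - 1) + (T + 1) * b0 * Real.sin τ) := by
    have h3 : ((T + 1) ^ 2 * b0 ^ 2) * b ≤
        (2 * (2 : ℝ) ^ u * ((T - 1) + (T + 1) * b0 * Real.sin τ)) * b := by
      have h4 := mul_le_mul_of_nonneg_left h1 hb00.le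
      have h5 : (2 : ℝ) ^ u * (T - 1) * b0 ≤ (2 : ℝ) ^ u * (T - 1) * b :=
        mul_le_mul_of_nonneg_left hb0b (mul_nonneg h2u0.le (by linarith))
      nlinarith
    exact le_of_mul_le_mul_right h3 hbp
  -- `T = e^{2L}`
  obtain ⟨L, hL⟩ : ∃ L, L = Real.log T / 2 := ⟨_, rfl⟩
  have hTL : T = Real.exp (2 * L) := by
    rw [hL, mul_div_cancel₀ _ (by norm_num : (2 : ℝ) ≠ 0), Real.exp_log hT0]
  have hL0 : 0 < L := by
    rw [hL]
    exact div_pos (Real.log_pos hT1) (by norm_num)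
  have hT1L : 1 + 2 * L ≤ T := by
    rw [hTL]
    linarith [Real.add_one_le_exp (2 * L)]
  -- `T - 1 ≤ L (T + 1)`
  have htanh : T - 1 ≤ L * (T + 1) := by
    have h3 := Real.add_one_le_exp (-(2 * L))
    have h4 : Real.exp (2 * L) * Real.exp (-(2 * L)) = 1 := by
      rw [← Real.exp_add, add_neg_cancel, Real.exp_zero]
    have key : ∀ y : ℝ, 0 ≤ y → Real.exp y - 1 ≤ y / 2 * (Real.exp y + 1) := by
      intro y hy
      have hsh : Real.sinh (y / 2) ≤ y / 2 * Real.cosh (y / 2) := by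
        have hmono : MonotoneOn (fun z : ℝ => z * Real.cosh z - Real.sinh z) (Set.Ici 0) := by
          apply monotoneOn_of_deriv_nonneg (convex_Ici 0)
          · exact (continuous_id.mul Real.continuous_cosh).sub Real.continuous_sinh |>.continuousOn
          · exact ((differentiable_id.mul Real.differentiable_cosh).sub
              Real.differentiable_sinh).differentiableOn
          · intro z hz
            rw [interior_Ici] at hz
            have hz0 : 0 < z := hz
            have hd : HasDerivAt (fun z : ℝ => z * Real.cosh z - Real.sinh z)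
                (1 * Real.cosh z + z * Real.sinh z - Real.cosh z) z :=
              ((hasDerivAt_id z).mul (Real.hasDerivAt_cosh z)).sub (Real.hasDerivAt_sinh z)
            rw [hd.deriv]
            have := mul_nonneg hz0.le (Real.sinh_nonneg_iff.2 hz0.le)
            linarith
        have := hmono (Set.mem_Ici.2 le_rfl) (Set.mem_Ici.2 (by linarith : (0 : ℝ) ≤ y / 2))
          (by linarith)
        simp at this
        linarith
      have e1 : Real.exp y - 1 = 2 * Real.exp (y / 2) * Real.sinh (y / 2) := by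
        rw [Real.sinh_eq]
        have e3 : Real.exp y = Real.exp (y / 2) * Real.exp (y / 2) := by
          rw [← Real.exp_add]; congr 1; ring
        have e4 : Real.exp (y / 2) * Real.exp (-(y / 2)) = 1 := by
          rw [← Real.exp_add, add_neg_cancel, Real.exp_zero]
        rw [e3]
        linear_combination (-1 : ℝ) * (-e4)
      have e2 : Real.exp y + 1 = 2 * Real.exp (y / 2) * Real.cosh (y / 2) := by
        rw [Real.cosh_eq]
        have e3 : Real.exp y = Real.exp (y / 2) * Real.exp (y / 2) := by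
          rw [← Real.exp_add]; congr 1; ring
        have e4 : Real.exp (y / 2) * Real.exp (-(y / 2)) = 1 := by
          rw [← Real.exp_add, add_neg_cancel, Real.exp_zero]
        rw [e3]
        linear_combination (-1 : ℝ) * e4
      rw [e1, e2]
      have := mul_le_mul_of_nonneg_left hsh (by positivity : 0 ≤ 2 * Real.exp (y / 2))
      linarith
    have := key (2 * L) (by linarith)
    rw [← hTL] at this
    linarith
  have h3 : (1 + L) * b0 ^ 2 ≤ (2 : ℝ) ^ u * (L + b0 * Real.sin τ) := by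
    have h4 : (T + 1) * ((T + 1) * b0 ^ 2) ≤
        (T + 1) * (2 * (2 : ℝ) ^ u * (L + b0 * Real.sin τ)) := by
      have h5 := mul_le_mul_of_nonneg_left htanh (by positivity : 0 ≤ 2 * (2 : ℝ) ^ u)
      nlinarith
    have h5 := le_of_mul_le_mul_left h4 (by linarith)
    have h6 : (2 + 2 * L) * b0 ^ 2 ≤ (T + 1) * b0 ^ 2 :=
      mul_le_mul_of_nonneg_right (by linarith) (sq_nonneg _)
    linarith
  -- `L ≤ u (0.6932 - v²/2)`
  have hLu : L ≤ u * (0.6932 - v ^ 2 / 2) := by
    have hf2 := h.f2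
    rw [← hv] at hf2
    have h4 : T ^ (k / 2) = Real.exp (k * L) := by
      rw [hTL, ← Real.exp_mul]
      congr 1
      ring
    rw [h4] at hf2
    have h5 := cos_le_exp2 (x := v) (by rw [abs_of_nonneg hv0]; linarith [Real.pi_lt_d2])
    have h6 : Real.exp (k * L) < Real.exp (0.6932 - v ^ 2 / 2) := by
      have h7 : (2 : ℝ) ≤ Real.exp 0.6932 := by
        rw [← Real.log_le_iff_le_exp (by norm_num)]
        linarith [Real.log_two_lt_d9]
      have h8 : Real.exp (0.6932 - v ^ 2 / 2) = Real.exp 0.6932 * Real.exp (-(v ^ 2 / 2)) := by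
        rw [← Real.exp_add]
        congr 1
      rw [h8]
      calc Real.exp (k * L) < 2 * Real.cos v := hf2
        _ ≤ 2 * Real.exp (-(v ^ 2 / 2)) := by linarith
        _ ≤ Real.exp 0.6932 * Real.exp (-(v ^ 2 / 2)) :=
            mul_le_mul_of_nonneg_right h7 (Real.exp_pos _).le
    have h7 := (Real.exp_lt_exp.1 h6).le
    have h8 : u * (k * L) = L := by
      calc u * (k * L) = (k * u) * L := by ring
        _ = L := by rw [hku, one_mul]
    rw [← h8]
    exact mul_le_mul_of_nonneg_left h7 (by linarith)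
  have hnum := plf_num (u := u) (v := v) hu0 hu1.le hv0 hv1.le
  rw [← hβ0, ← hb0] at hnum
  have h4 : Real.sin τ ≤ u * v := by
    rw [← hτv]
    exact Real.sin_le hτ
  set M := u * (0.6932 - v ^ 2 / 2) with hM
  -- `(1+M) b0² - 2^u M ≤ (1+L) b0² - 2^u L`
  have h5 : b0 ^ 2 ≤ (2 : ℝ) ^ u := by nlinarith
  have h6 : (M - L) * b0 ^ 2 ≤ (M - L) * (2 : ℝ) ^ u :=
    mul_le_mul_of_nonneg_left h5 (by linarith)
  have h7 : (2 : ℝ) ^ u * (b0 * Real.sin τ) ≤ (2 : ℝ) ^ u * (b0 * (u * v)) := by gcongr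
  linarith

end FsD

/-- case PL: `F_1 < π` (all sheets, `k ≤ 8`) -/
theorem St.pl_F {k C : ℝ} {q0 q1 q2 q3 d0 d1 d2 X1 X2 X3 : ℂ}
    (h : St k C q0 q1 q2 q3 d0 d1 d2 X1 X2 X3) (hk8 : k ≤ 8)
    (hh : X1.im < -(Real.pi / 4) → (pv k C X1 d1).re < 1 / 2)
    (he : ‖1 - pv k C X1 d0‖ = 1) (hF : 0 < (X1 - d1).im) (hτ : 0 ≤ (X2 - d1).im)
    (h2 : ‖1 - pv k C X2 d1‖ < 1) : k * (X1 - d1).im < Real.pi := by
  have hf := h.fsD hh he h2 hF
  by_contra hcon
  rcases lt_or_ge (-X1.im) (X2 - d1).im with h3 | h3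
  · exact hf.no_two hk8 hτ h3 (not_lt.1 hcon)
  · exact hf.no_one hk8 hτ h3 (not_lt.1 hcon)

end EQS
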