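import Mathlib
import Pool.Agent.Lib.MP_226de1_co.E.Basics

/-! Unit disc exit, case PL: the two-point inequality between `p_{-2}` (upper half plane,
`|p_{-2}| ≥ cos (arg p_{-2})`) and `p_{-3}` (`arg p_{-3} ≤ (1/2) arg f_{-2} ≤ 0`). -/

set_option autoImplicit false

namespace EQS

open Complex

variable {k C : ℝ} {q0 q1 q2 q3 d0 d1 d2 X1 X2 X3 : ℂ}

/-- pure part: `p_2 = x + i y`, `rho = |1 - p_2|`, `p_3 = a - i b` -/
theorem pll_core {x y ρ a b : ℝ} (hρ0 : 0 ≤ ρ) (hρ1 : ρ < 1) (hρ : ρ ^ 2 = (1 - x) ^ 2 + y ^ 2)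
    (hy : 0 ≤ y) (ha : 0 < a) (hden : 0 < ρ + 1 - x) (hab : y * a ≤ b * (ρ + 1 - x))
    (hx : x ≤ x ^ 2 + y ^ 2) :
    (1 - ρ ^ 2) * (2 * a - (a ^ 2 + b ^ 2)) ≤ (x - a) ^ 2 + (y + b) ^ 2 := by
  have hm : 0 < 1 - ρ ^ 2 := by nlinarith
  have hS : 0 < a ^ 2 + b ^ 2 := by positivity
  have hx0 : 0 < x := by nlinarith
  -- `(1 - rho^2) (rho + 1 - x)^2 ≤ (y (1 + rho))^2`
  have h1 : (1 - ρ ^ 2) * (ρ + 1 - x) ^ 2 ≤ (y * (1 + ρ)) ^ 2 := by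
    have e1 : y ^ 2 = (ρ + 1 - x) * (ρ - 1 + x) := by linear_combination -hρ
    have e2 : (y * (1 + ρ)) ^ 2 - (1 - ρ ^ 2) * (ρ + 1 - x) ^ 2 =
        (ρ + 1 - x) * (1 + ρ) * (2 * (x - (1 - ρ ^ 2))) := by
      rw [mul_pow, e1]
      ring
    have e3 : 0 ≤ x - (1 - ρ ^ 2) := by
      have : x - (1 - ρ ^ 2) = x ^ 2 + y ^ 2 - x := by rw [hρ]; ring
      linarith
    have e4 : 0 ≤ (ρ + 1 - x) * (1 + ρ) * (2 * (x - (1 - ρ ^ 2))) := by positivity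
    linarith
  -- `(rho + 1 - x) (x b + y a) ≥ y a (1 + rho)`
  have h2 : y * a * (1 + ρ) ≤ (ρ + 1 - x) * (x * b + y * a) := by
    have := mul_le_mul_of_nonneg_left hab hx0.le
    nlinarith
  have h3 : (1 - ρ ^ 2) * a ^ 2 ≤ (x * b + y * a) ^ 2 := by
    have e1 : (ρ + 1 - x) ^ 2 * ((1 - ρ ^ 2) * a ^ 2) ≤ (ρ + 1 - x) ^ 2 * (x * b + y * a) ^ 2 := by
      calc (ρ + 1 - x) ^ 2 * ((1 - ρ ^ 2) * a ^ 2) =
            (1 - ρ ^ 2) * (ρ + 1 - x) ^ 2 * a ^ 2 := by ring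
        _ ≤ (y * (1 + ρ)) ^ 2 * a ^ 2 := mul_le_mul_of_nonneg_right h1 (by positivity)
        _ = (y * a * (1 + ρ)) ^ 2 := by ring
        _ ≤ ((ρ + 1 - x) * (x * b + y * a)) ^ 2 := by
            apply pow_le_pow_left₀ _ h2
            positivity
        _ = _ := by ring
    exact le_of_mul_le_mul_left e1 (by positivity)
  have h4 : (2 * a - (a ^ 2 + b ^ 2)) * (a ^ 2 + b ^ 2) ≤ a ^ 2 := by
    nlinarith [sq_nonneg (a - (a ^ 2 + b ^ 2))]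
  have h5 : (x * b + y * a) ^ 2 ≤ ((x - a) ^ 2 + (y + b) ^ 2) * (a ^ 2 + b ^ 2) := by
    have e1 : ((x - a) ^ 2 + (y + b) ^ 2) * (a ^ 2 + b ^ 2) =
        (x * b + y * a) ^ 2 + (x * a - y * b - (a ^ 2 + b ^ 2)) ^ 2 := by ring
    rw [e1]
    linarith [sq_nonneg (x * a - y * b - (a ^ 2 + b ^ 2))]
  have h6 : (1 - ρ ^ 2) * (2 * a - (a ^ 2 + b ^ 2)) * (a ^ 2 + b ^ 2) ≤
      ((x - a) ^ 2 + (y + b) ^ 2) * (a ^ 2 + b ^ 2) := by
    calc (1 - ρ ^ 2) * (2 * a - (a ^ 2 + b ^ 2)) * (a ^ 2 + b ^ 2) =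
          (1 - ρ ^ 2) * ((2 * a - (a ^ 2 + b ^ 2)) * (a ^ 2 + b ^ 2)) := by ring
      _ ≤ (1 - ρ ^ 2) * a ^ 2 := mul_le_mul_of_nonneg_left h4 hm.le
      _ ≤ _ := h3
      _ ≤ _ := h5
  exact le_of_mul_le_mul_right h6 hS

/-- `L ≥ 1` in case PL -/
theorem St.pl_L1 (h : St k C q0 q1 q2 q3 d0 d1 d2 X1 X2 X3)
    (h2 : ‖1 - pv k C X2 d1‖ < 1)
    (ht : Real.cos (k * (X2 - d1).im) ≤ ‖pv k C X2 d1‖)
    (hF : (X2 - d2).im ≤ 0) (hG : (X3 - d2).im ≤ (X2 - d2).im / 2) :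
    (1 - ‖1 - pv k C X2 d1‖ ^ 2) * (1 - ‖1 - pv k C X3 d2‖ ^ 2) ≤
      ‖pv k C X2 d1 - pv k C X3 d2‖ ^ 2 := by
  have hpi := Real.pi_pos
  have k0 := h.k0
  have hC := h.C0
  have hp3 := abs_lt.1 h.p3
  have hp2 := abs_lt.1 h.p2
  set P3 := k * (X3 - d2).im with hP3
  set F2 := k * (X2 - d2).im with hF2
  have hF0 : F2 ≤ 0 := mul_nonpos_of_nonneg_of_nonpos k0.le hF
  have hG' : P3 ≤ F2 / 2 := by
    have := mul_le_mul_of_nonneg_left hG k0.le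
    rw [hP3, hF2]
    linarith
  have hFπ : -Real.pi < F2 := by linarith
  -- polar forms
  set s := Real.exp (k * (X3 - d2).re) / C with hs
  have hs0 : 0 < s := div_pos (Real.exp_pos _) hC
  set ρ := Real.exp (k * (X2 - d2).re) / C with hρ
  have hρ0 : 0 < ρ := div_pos (Real.exp_pos _) hC
  have ea : (pv k C X3 d2).re = s * Real.cos P3 := pv_re
  have eb : (pv k C X3 d2).im = s * Real.sin P3 := pv_im
  have ec : (pv k C X2 d2).re = ρ * Real.cos F2 := pv_re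
  have ed : (pv k C X2 d2).im = ρ * Real.sin F2 := pv_im
  have hf := h.f2_eq
  have en : ‖1 - pv k C X2 d1‖ = ρ := by rw [← hf, norm_pv hC]
  have hx : (pv k C X2 d1).re = 1 - ρ * Real.cos F2 := by
    rw [← ec, hf]
    simp
  have hy : (pv k C X2 d1).im = -(ρ * Real.sin F2) := by
    rw [← ed, hf]
    simp
  have hcs := Real.sin_sq_add_cos_sq F2
  have e1 : Real.cos F2 = 2 * Real.cos (F2 / 2) ^ 2 - 1 := by
    rw [← Real.cos_two_mul]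
    congr 1
    ring
  have e2 : Real.sin F2 = 2 * Real.sin (F2 / 2) * Real.cos (F2 / 2) := by
    rw [← Real.sin_two_mul]
    congr 1
    ring
  have hc2 : 0 < Real.cos (F2 / 2) := Real.cos_pos_of_mem_Ioo ⟨by linarith, by linarith⟩
  have hs2 : Real.sin (F2 / 2) ≤ 0 :=
    Real.sin_nonpos_of_nonpos_of_neg_pi_le (by linarith) (by linarith)
  have hc3 : 0 < Real.cos P3 := Real.cos_pos_of_mem_Ioo ⟨by linarith, by linarith⟩
  -- `Re p2 ≤ |p2|^2`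
  have htx : (pv k C X2 d1).re ≤ (pv k C X2 d1).re ^ 2 + (pv k C X2 d1).im ^ 2 := by
    have g1 : ‖pv k C X2 d1‖ ^ 2 = (pv k C X2 d1).re ^ 2 + (pv k C X2 d1).im ^ 2 := by
      rw [← Complex.normSq_eq_norm_sq, normSq_apply]
      ring
    have g2 : (pv k C X2 d1).re = ‖pv k C X2 d1‖ * Real.cos (k * (X2 - d1).im) := by
      rw [norm_pv hC]
      exact pv_re
    rw [← g1, g2, sq]
    exact mul_le_mul_of_nonneg_left ht (norm_nonneg _)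
  have key := pll_core (x := (pv k C X2 d1).re) (y := (pv k C X2 d1).im) (ρ := ρ)
    (a := s * Real.cos P3) (b := -(s * Real.sin P3)) hρ0.le (by rw [← en]; exact h2)
    (by rw [hx, hy]; linear_combination (-ρ ^ 2) * hcs)
    (by
      rw [hy, e2]
      have : 0 ≤ ρ * (2 * -Real.sin (F2 / 2) * Real.cos (F2 / 2)) := by
        apply mul_nonneg hρ0.le
        apply mul_nonneg _ hc2.le
        linarith
      linarith)
    (by positivity)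
    (by
      rw [hx, e1]
      have : 0 < ρ * (2 * Real.cos (F2 / 2) ^ 2) := by positivity
      linarith)
    (by
      rw [hx, hy, e1, e2]
      have g1 : Real.sin (P3 - F2 / 2) ≤ 0 :=
        Real.sin_nonpos_of_nonpos_of_neg_pi_le (by linarith) (by linarith)
      rw [Real.sin_sub] at g1
      have g2 : 0 ≤ 2 * ρ * s * Real.cos (F2 / 2) *
          -(Real.sin P3 * Real.cos (F2 / 2) - Real.cos P3 * Real.sin (F2 / 2)) :=
        mul_nonneg (by positivity) (by linarith)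
      linarith)
    htx
  have e3 : 1 - ‖1 - pv k C X3 d2‖ ^ 2 = 2 * (s * Real.cos P3) -
      ((s * Real.cos P3) ^ 2 + (-(s * Real.sin P3)) ^ 2) := by
    rw [← Complex.normSq_eq_norm_sq, normSq_apply]
    simp only [sub_re, sub_im, one_re, one_im]
    rw [ea, eb]
    ring
  have e4 : ‖pv k C X2 d1 - pv k C X3 d2‖ ^ 2 =
      ((pv k C X2 d1).re - s * Real.cos P3) ^ 2 +
        ((pv k C X2 d1).im + -(s * Real.sin P3)) ^ 2 := by
    rw [← Complex.normSq_eq_norm_sq, normSq_apply]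
    simp only [sub_re, sub_im]
    rw [ea, eb]
    ring
  rw [e3, e4, en]
  exact key

/-- the end of case PL -/
theorem St.pl_end (h : St k C q0 q1 q2 q3 d0 d1 d2 X1 X2 X3)
    (h2 : ‖1 - pv k C X2 d1‖ < 1) (h3 : ‖1 - pv k C X3 d2‖ < 1)
    (ht : Real.cos (k * (X2 - d1).im) ≤ ‖pv k C X2 d1‖)
    (hF : (X2 - d2).im ≤ 0) (hG : (X3 - d2).im ≤ (X2 - d2).im / 2)
    (hR : ‖exp d1‖ ^ 2 < 4 * ((exp d0).re * (exp d0 + exp d1).re)) :
    ‖exp d1‖ ^ 2 * ((1 - ‖1 - pv k C X2 d1‖ ^ 2) * (1 - ‖1 - pv k C X3 d2‖ ^ 2)) <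
      4 * ‖pv k C X2 d1 - pv k C X3 d2‖ ^ 2 * ((exp d0).re * (exp d0 + exp d1).re) := by
  have hL := h.pl_L1 h2 ht hF hG
  have m2 : 0 < 1 - ‖1 - pv k C X2 d1‖ ^ 2 := by
    have := pow_lt_one₀ (norm_nonneg _) h2 two_ne_zero
    linarith
  have m3 : 0 < 1 - ‖1 - pv k C X3 d2‖ ^ 2 := by
    have := pow_lt_one₀ (norm_nonneg _) h3 two_ne_zero
    linarith
  have m := mul_pos m2 m3
  have hR0 : 0 ≤ 4 * ((exp d0).re * (exp d0 + exp d1).re) := (sq_nonneg _).trans hR.le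
  calc ‖exp d1‖ ^ 2 * ((1 - ‖1 - pv k C X2 d1‖ ^ 2) * (1 - ‖1 - pv k C X3 d2‖ ^ 2)) <
        4 * ((exp d0).re * (exp d0 + exp d1).re) *
          ((1 - ‖1 - pv k C X2 d1‖ ^ 2) * (1 - ‖1 - pv k C X3 d2‖ ^ 2)) :=
        mul_lt_mul_of_pos_right hR m
    _ ≤ 4 * ((exp d0).re * (exp d0 + exp d1).re) *
          ‖pv k C X2 d1 - pv k C X3 d2‖ ^ 2 := mul_le_mul_of_nonneg_left hL hR0
    _ = _ := by ring

end EQS
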