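import Mathlib
import Pool.Agent.Lib.MP_226de1_co.E.DStep
import Pool.Agent.Lib.MP_226de1_co.E.DSt
import Pool.Agent.Lib.MP_226de1_co.E.DNeg
import Pool.Agent.Lib.MP_226de1_co.E.DPos
import Pool.Agent.Lib.MP_226de1_co.E.DNX

/-! Unit disc exit, case PL (`F_1 > 0`, `arg p_{-2} ≥ 0`): `|p_{-2}| ≥ cos (arg p_{-2})`.

`A = - Im X1`, `phi = Im (X1 - d1)`, `tau = Im (X2 - d1)`, `T = |xi_{-2} / xi_{-1}|^2`,
`P = |D_{-1} / xi_{-1}|^2`, `X = |D_{-1}| / (- Re q_{-1})`. -/

set_option autoImplicit false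

namespace EQS

open Complex

variable {k C : ℝ} {q0 q1 q2 q3 d0 d1 d2 X1 X2 X3 : ℂ}

/-- `(E5)`: the direction of `xi_{-2}^2 / D^2` is larger than that of `xi_{-1}^2 / D^2`
reflected, i.e. `phi > tau` -/
theorem plt_beta {A φ τ T P X : ℝ} (hA : 0 < A) (hφ : 0 < φ) (hψ : A + φ < Real.pi / 2)
    (hτ : |τ| < Real.pi / 4) (hP : 0 ≤ P) (hX : 0 < X) (hT0 : 0 < T)
    (hPX : P ≤ X ^ 2 * Real.cos A ^ 2)
    (E3 : T * Real.sin (A + φ - 2 * τ) = Real.sin (A - φ) + P * Real.sin (A + φ) +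
      X * Real.sin (2 * A))
    (E4 : T * Real.cos (A + φ - 2 * τ) = Real.cos (A - φ) + P * Real.cos (A + φ) +
      2 * (P / X)) : τ < φ := by
  have hpi := Real.pi_pos
  have hτ' := abs_lt.1 hτ
  have key : T * Real.sin (2 * φ - 2 * τ) = P * Real.sin (2 * φ) +
      X * Real.sin (2 * A) * Real.cos (A - φ) - 2 * (P / X) * Real.sin (A - φ) := by
    have e1 : Real.sin (2 * φ - 2 * τ) = Real.sin (A + φ - 2 * τ) * Real.cos (A - φ) -
        Real.cos (A + φ - 2 * τ) * Real.sin (A - φ) := by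
      rw [← Real.sin_sub]
      congr 1
      ring
    have e2 : Real.sin (2 * φ) = Real.sin (A + φ) * Real.cos (A - φ) -
        Real.cos (A + φ) * Real.sin (A - φ) := by
      rw [← Real.sin_sub]
      congr 1
      ring
    rw [e1, e2]
    linear_combination Real.cos (A - φ) * E3 - Real.sin (A - φ) * E4
  have hcA : 0 < Real.cos A := Real.cos_pos_of_mem_Ioo ⟨by linarith, by linarith⟩
  have hsφ : 0 < Real.sin φ := Real.sin_pos_of_pos_of_lt_pi hφ (by linarith)
  have hs2φ : 0 < Real.sin (2 * φ) := Real.sin_pos_of_pos_of_lt_pi (by linarith) (by linarith)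
  have hs2A : 0 < Real.sin (2 * A) := Real.sin_pos_of_pos_of_lt_pi (by linarith) (by linarith)
  have hcd : 0 < Real.cos (A - φ) := Real.cos_pos_of_mem_Ioo ⟨by linarith, by linarith⟩
  have hPX2 : P / X ≤ X * Real.cos A ^ 2 := by
    rw [div_le_iff₀ hX]
    calc P ≤ X ^ 2 * Real.cos A ^ 2 := hPX
      _ = X * Real.cos A ^ 2 * X := by ring
  have hpos : 0 < X * Real.sin (2 * A) * Real.cos (A - φ) - 2 * (P / X) * Real.sin (A - φ) := by
    rcases le_or_gt (Real.sin (A - φ)) 0 with h | h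
    · have h1 : 0 < X * Real.sin (2 * A) * Real.cos (A - φ) := by positivity
      have h2 : 0 ≤ 2 * (P / X) * -Real.sin (A - φ) := by
        apply mul_nonneg (by positivity) (by linarith)
      linarith
    · have h1 := mul_le_mul_of_nonneg_right hPX2 h.le
      have h2 : Real.sin φ = Real.sin A * Real.cos (A - φ) - Real.cos A * Real.sin (A - φ) := by
        rw [← Real.sin_sub]
        congr 1
        ring
      have h3 : 0 < 2 * X * Real.cos A * Real.sin φ := by positivity
      rw [h2] at h3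
      rw [Real.sin_two_mul]
      linarith
  have h1 : 0 < T * Real.sin (2 * φ - 2 * τ) := by
    rw [key]
    have : 0 ≤ P * Real.sin (2 * φ) := by positivity
    linarith
  have h2 : 0 < Real.sin (2 * φ - 2 * τ) := (pos_iff_pos_of_mul_pos h1).1 hT0
  by_contra hcon
  have hcon' := not_lt.1 hcon
  have : Real.sin (2 * φ - 2 * τ) ≤ 0 :=
    Real.sin_nonpos_of_nonpos_of_neg_pi_le (by linarith) (by linarith)
  linarith

private theorem plt_num {cτ cβ X cA : ℝ} (h1 : 0.7071 ≤ cτ) (hX : X ≤ 5 / 3) (hX0 : 0 < X)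
    (hcA : cA ≤ 1) (hb : 0 ≤ cβ)
    (h : 2 * (1 + cτ) * cβ < X * cA) : cβ < 0.4883 := by
  by_contra hcon
  push Not at hcon
  have h2 : X * cA ≤ 5 / 3 := by
    calc X * cA ≤ X * 1 := mul_le_mul_of_nonneg_left hcA hX0.le
      _ ≤ 5 / 3 := by linarith
  have h3 : 2 * (1 + 0.7071) * cβ ≤ 2 * (1 + cτ) * cβ :=
    mul_le_mul_of_nonneg_right (by linarith) hb
  have h4 : 2 * (1 + 0.7071) * (0.4883 : ℝ) ≤ 2 * (1 + 0.7071) * cβ :=
    mul_le_mul_of_nonneg_left hcon (by norm_num)
  norm_num at h3 h4 h2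
  linarith

/-- pure part: `T < cos 2 tau` is impossible for `A < tau` -/
theorem plt_core {k A φ τ T P X : ℝ} (hk : 2 < k) (hA : 0 < A) (hAτ : A < τ)
    (hφ : 0 < φ) (hψ : A + φ < Real.pi / 2) (hτ : k * τ < Real.pi / 2)
    (hP : 0 ≤ P) (hX : 0 < X) (hX2 : X ≤ 5 / 3) (hT0 : 0 < T) (hT1 : T < Real.cos (2 * τ))
    (hPX : P ≤ X ^ 2 * Real.cos A ^ 2)
    (E3 : T * Real.sin (A + φ - 2 * τ) = Real.sin (A - φ) + P * Real.sin (A + φ) +
      X * Real.sin (2 * A))
    (E4 : T * Real.cos (A + φ - 2 * τ) = Real.cos (A - φ) + P * Real.cos (A + φ) +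
      2 * (P / X)) : False := by
  have hpi := Real.pi_pos
  have hpi3 := Real.pi_gt_d4
  have hpi4 := Real.pi_lt_d4
  have hτ0 : 0 < τ := by linarith
  have hτ4 : τ < Real.pi / 4 := by
    have : 2 * τ < k * τ := mul_lt_mul_of_pos_right hk hτ0
    linarith
  have hβ := plt_beta hA hφ hψ (abs_lt.2 ⟨by linarith, hτ4⟩) hP hX hT0 hPX E3 E4
  obtain ⟨β, hβd⟩ : ∃ β, β = φ - τ := ⟨_, rfl⟩
  obtain ⟨δ, hδd⟩ : ∃ δ, δ = τ - A := ⟨_, rfl⟩
  have hβ0 : 0 < β := by linarith
  have hδ0 : 0 < δ := by linarith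
  have e1 : A + φ - 2 * τ = β - δ := by rw [hβd, hδd]; ring
  have e2 : A - φ = -(β + δ) := by rw [hβd, hδd]; ring
  rw [e1, e2, Real.sin_neg] at E3
  rw [e1, e2, Real.cos_neg] at E4
  have hT1' : T < 1 := lt_of_lt_of_le hT1 (Real.cos_le_one _)
  have hcβ : 0 < Real.cos β := Real.cos_pos_of_mem_Ioo ⟨by linarith, by linarith⟩
  have hcδ : 0.7071 ≤ Real.cos δ := by
    have h1 : Real.cos (Real.pi / 4) ≤ Real.cos δ :=
      Real.cos_le_cos_of_nonneg_of_le_pi hδ0.le (by linarith) (by linarith)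
    rw [Real.cos_pi_div_four] at h1
    have h2 : (1.4142 : ℝ) ≤ Real.sqrt 2 := Real.le_sqrt_of_sq_le (by norm_num)
    linarith
  have hcτ : 0.7071 ≤ Real.cos τ := by
    have h1 : Real.cos (Real.pi / 4) ≤ Real.cos τ :=
      Real.cos_le_cos_of_nonneg_of_le_pi hτ0.le (by linarith) (by linarith)
    rw [Real.cos_pi_div_four] at h1
    have h2 : (1.4142 : ℝ) ≤ Real.sqrt 2 := Real.le_sqrt_of_sq_le (by norm_num)
    linarith
  have hsδ : 0 < Real.sin δ := Real.sin_pos_of_pos_of_lt_pi hδ0 (by linarith)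
  have hsβ : 0 < Real.sin β := Real.sin_pos_of_pos_of_lt_pi hβ0 (by linarith)
  have hcψ : 0 < Real.cos (A + φ) := Real.cos_pos_of_mem_Ioo ⟨by linarith, by linarith⟩
  have hsψ : 0 < Real.sin (A + φ) := Real.sin_pos_of_pos_of_lt_pi (by linarith) (by linarith)
  have hcA : 0 < Real.cos A := Real.cos_pos_of_mem_Ioo ⟨by linarith, by linarith⟩
  have hs2A : 0 < Real.sin (2 * A) := Real.sin_pos_of_pos_of_lt_pi (by linarith) (by linarith)
  -- (E7)
  have E7 : (1 - T) * Real.cos β = X * Real.sin (2 * A) * Real.sin δ -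
      P * (Real.cos (A + φ + δ) + 2 / X * Real.cos δ) := by
    have h1 : Real.cos β = Real.cos (β - δ) * Real.cos δ - Real.sin (β - δ) * Real.sin δ := by
      rw [← Real.cos_add]
      congr 1
      ring
    have h2 : Real.cos β = Real.cos (β + δ) * Real.cos δ + Real.sin (β + δ) * Real.sin δ := by
      rw [← Real.cos_sub]
      congr 1
      ring
    rw [Real.cos_add (A + φ)]
    have h3 : (1 - T) * Real.cos β = (Real.cos (β + δ) * Real.cos δ +
        Real.sin (β + δ) * Real.sin δ) - T * (Real.cos (β - δ) * Real.cos δ -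
        Real.sin (β - δ) * Real.sin δ) := by
      rw [← h1, ← h2]
      ring
    rw [h3]
    have e3 : 2 / X * Real.cos δ * P = 2 * (P / X) * Real.cos δ := by ring
    linear_combination (-Real.cos δ) * E4 + Real.sin δ * E3 - e3
  have hb : 0 ≤ Real.cos (A + φ + δ) + 2 / X * Real.cos δ := by
    have h1 : -Real.cos (Real.pi / 4) ≤ Real.cos (A + φ + δ) := by
      rw [← Real.cos_pi_sub]
      apply Real.cos_le_cos_of_nonneg_of_le_pi <;> linarith
    rw [Real.cos_pi_div_four] at h1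
    have h2 : Real.sqrt 2 ≤ 1.4143 := by
      rw [Real.sqrt_le_left (by norm_num)]
      norm_num
    have h3 : 6 / 5 ≤ 2 / X := by
      rw [le_div_iff₀ hX]
      linarith
    have h4 : 6 / 5 * 0.7071 ≤ 2 / X * Real.cos δ :=
      mul_le_mul h3 hcδ (by norm_num) (by positivity)
    norm_num at h4
    linarith
  have h7 : (1 - T) * Real.cos β ≤ X * Real.sin (2 * A) * Real.sin δ := by
    rw [E7]
    have := mul_nonneg hP hb
    linarith
  -- step 4
  have h8 : Real.sin (2 * A) * Real.sin δ ≤ Real.cos A * (1 - Real.cos τ) := by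
    have h1 : Real.sin (2 * A) * Real.sin δ =
        Real.cos A * (Real.cos (2 * A - τ) - Real.cos τ) := by
      have h2 : Real.cos (2 * A - τ) = Real.cos A * Real.cos δ + Real.sin A * Real.sin δ := by
        rw [← Real.cos_sub]
        congr 1
        rw [hδd]
        ring
      have h3 : Real.cos τ = Real.cos A * Real.cos δ - Real.sin A * Real.sin δ := by
        rw [← Real.cos_add]
        congr 1
        rw [hδd]
        ring
      rw [h2, h3, Real.sin_two_mul]
      ring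
    rw [h1]
    apply mul_le_mul_of_nonneg_left _ hcA.le
    linarith [Real.cos_le_one (2 * A - τ)]
  have hc1 : 0 < 1 - Real.cos τ := by
    have : Real.cos τ < 1 := by
      rw [← Real.cos_zero]
      exact Real.cos_lt_cos_of_nonneg_of_le_pi_div_two le_rfl (by linarith) hτ0
    linarith
  have h9 : 2 * (1 + Real.cos τ) * Real.cos β < X * Real.cos A := by
    have h1 : (1 - Real.cos (2 * τ)) * Real.cos β < (1 - T) * Real.cos β :=
      mul_lt_mul_of_pos_right (by linarith) hcβ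
    rw [Real.cos_two_mul] at h1
    have h2 : X * (Real.sin (2 * A) * Real.sin δ) ≤ X * (Real.cos A * (1 - Real.cos τ)) :=
      mul_le_mul_of_nonneg_left h8 hX.le
    have h3 : (1 - Real.cos τ) * (2 * (1 + Real.cos τ) * Real.cos β) <
        (1 - Real.cos τ) * (X * Real.cos A) := by
      calc (1 - Real.cos τ) * (2 * (1 + Real.cos τ) * Real.cos β) =
            (1 - (2 * Real.cos τ ^ 2 - 1)) * Real.cos β := by ring
        _ < (1 - T) * Real.cos β := h1
        _ ≤ X * Real.sin (2 * A) * Real.sin δ := h7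
        _ = X * (Real.sin (2 * A) * Real.sin δ) := by ring
        _ ≤ _ := h2
        _ = _ := by ring
    exact lt_of_mul_lt_mul_left h3 hc1.le
  have h10 := plt_num hcτ hX2 hX (Real.cos_le_one A) hcβ.le h9
  -- the two cases
  rcases lt_or_ge (τ + A) 0.52 with hs | hs
  · rcases lt_or_ge β δ with hbd | hbd
    · have h1 : Real.cos δ ≤ Real.cos β :=
        Real.cos_le_cos_of_nonneg_of_le_pi hβ0.le (by linarith) hbd.le
      linarith
    · have h1 : 0 ≤ Real.sin (β - δ) :=
        Real.sin_nonneg_of_nonneg_of_le_pi (by linarith) (by linarith)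
      have h2 : 0 ≤ T * Real.sin (β - δ) := by positivity
      have h3 : 0 < Real.cos (β - δ) := Real.cos_pos_of_mem_Ioo ⟨by linarith, by linarith⟩
      have h4 : P / X ≤ Real.sin δ := by
        have h5 : T * Real.cos (β - δ) ≤ 1 * Real.cos (β - δ) :=
          mul_le_mul_of_nonneg_right hT1'.le h3.le
        have h6 : 0 ≤ P * Real.cos (A + φ) := by positivity
        have h7 : Real.cos (β - δ) - Real.cos (β + δ) = 2 * (Real.sin β * Real.sin δ) := by
          rw [Real.cos_sub, Real.cos_add]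
          ring
        have h8 : Real.sin β * Real.sin δ ≤ 1 * Real.sin δ :=
          mul_le_mul_of_nonneg_right (Real.sin_le_one β) hsδ.le
        linarith
      have h5 : P ≤ X * δ := by
        rw [div_le_iff₀ hX] at h4
        have h6 := Real.sin_le hδ0.le
        have h7 := mul_le_mul_of_nonneg_right h6 hX.le
        linarith
      have h6 : P * Real.sin (A + φ) ≤ P * 1 :=
        mul_le_mul_of_nonneg_left (Real.sin_le_one _) hP
      have h7 : X * Real.sin (2 * A) ≤ X * (2 * A) :=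
        mul_le_mul_of_nonneg_left (Real.sin_le (by linarith)) hX.le
      have h8 : Real.sin (β + δ) ≤ X * (τ + A) := by
        have : X * (τ + A) = X * δ + X * (2 * A) := by rw [hδd]; ring
        linarith
      have h11 : X * (τ + A) ≤ 5 / 3 * 0.52 :=
        mul_le_mul hX2 hs.le (by linarith) (by norm_num)
      have hsum : β + δ < Real.pi / 2 := by linarith
      have h12 : Real.cos (β + δ) ≤ Real.cos β :=
        Real.cos_le_cos_of_nonneg_of_le_pi hβ0.le (by linarith) (by linarith)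
      have h13 : 0 ≤ Real.cos (β + δ) :=
        (Real.cos_pos_of_mem_Ioo ⟨by linarith, by linarith⟩).le
      have h14 : 0 ≤ Real.sin (β + δ) :=
        Real.sin_nonneg_of_nonneg_of_le_pi (by linarith) (by linarith)
      have h15 := Real.sin_sq_add_cos_sq (β + δ)
      have h16 : Real.sin (β + δ) ^ 2 ≤ (5 / 3 * 0.52) ^ 2 :=
        pow_le_pow_left₀ h14 (h8.trans h11) 2
      have h17 : Real.cos (β + δ) ^ 2 ≤ 0.4883 ^ 2 :=
        pow_le_pow_left₀ h13 (by linarith) 2
      norm_num at h16 h17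
      linarith
  · have h1 : Real.sin (τ + A) ≤ Real.cos β := by
      rw [← Real.sin_pi_div_two_sub]
      apply Real.sin_le_sin_of_le_of_le_pi_div_two <;> linarith
    have h2 : Real.sin 0.52 ≤ Real.sin (τ + A) := by
      apply Real.sin_le_sin_of_le_of_le_pi_div_two <;> linarith
    have h3 : 0.4883 ≤ Real.sin 0.52 := by
      have h4 := Real.sin_bound (x := 0.52) (by rw [abs_of_pos (by norm_num)]; norm_num)
      have h5 := (abs_le.1 h4).1
      rw [abs_of_pos (by norm_num : (0:ℝ) < 0.52)] at h5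
      norm_num at h5 ⊢
      linarith
    linarith

/-- lower bound of `Re D_0 / |D_{-1}|`, `n = |p_{-1}| = 2 sin (F/2)` -/
theorem plt_x {k A φ : ℝ} (hk : 2 < k) (hA : 0 < A) (hkA : k * A < Real.pi / 2)
    (hAφ : A ≤ φ) (hF : k * φ < Real.pi) (hψ : A + φ < Real.pi / 2) :
    3 / 5 ≤ (2 * Real.sin (k * φ / 2)) ^ (-(1 / k)) *
      Real.cos (A + (k * φ - Real.pi) / (2 * k)) := by
  have hpi := Real.pi_pos
  have hpi3 := Real.pi_gt_d4
  have hpi4 := Real.pi_lt_d4
  have k0 : 0 < k := by linarith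
  have hφ : 0 < φ := by linarith
  have hs : 0 < Real.sin (k * φ / 2) :=
    Real.sin_pos_of_pos_of_lt_pi (by positivity) (by linarith)
  have hpk : Real.pi / k < Real.pi / 2 := div_lt_div_of_pos_left hpi (by norm_num) hk
  have hpk0 : 0 < Real.pi / k := by positivity
  have hFk : φ < Real.pi / k := by
    rw [lt_div_iff₀ k0]
    linarith
  have hAk : A < Real.pi / k / 2 := by
    rw [div_div, lt_div_iff₀ (by positivity)]
    linarith
  obtain ⟨g, hg⟩ : ∃ g, g = A + (k * φ - Real.pi) / (2 * k) := ⟨_, rfl⟩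
  have hg' : g = A + φ / 2 - Real.pi / k / 2 := by
    rw [hg]
    field_simp
    ring
  rw [← hg]
  have h2 : (0.7071 : ℝ) ≤ (2 : ℝ) ^ (-(1 / k)) := by
    have h3 : (2 : ℝ) ^ (-(1 / 2 : ℝ)) ≤ (2 : ℝ) ^ (-(1 / k)) := by
      apply Real.rpow_le_rpow_of_exponent_le (by norm_num)
      have : 1 / k ≤ 1 / 2 := one_div_le_one_div_of_le (by norm_num) hk.le
      linarith
    have h4 : (0.7071 : ℝ) ≤ (2 : ℝ) ^ (-(1 / 2 : ℝ)) := by
      rw [Real.rpow_neg (by norm_num), ← Real.sqrt_eq_rpow, ← one_div]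
      rw [le_div_iff₀ (by positivity)]
      have h5 : Real.sqrt 2 ≤ 1.41422 := by
        rw [Real.sqrt_le_left (by norm_num)]
        norm_num
      calc 0.7071 * Real.sqrt 2 ≤ 0.7071 * 1.41422 :=
            mul_le_mul_of_nonneg_left h5 (by norm_num)
        _ ≤ 1 := by norm_num
    linarith
  rcases le_or_gt 0 g with hg0 | hg0
  · have h3 : (2 : ℝ) ^ (-(1 / k)) ≤ (2 * Real.sin (k * φ / 2)) ^ (-(1 / k)) := by
      apply Real.rpow_le_rpow_of_nonpos (by positivity)
        (by linarith [Real.sin_le_one (k * φ / 2)])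
      have : 0 < 1 / k := by positivity
      linarith
    have h6 : g ≤ Real.pi / 6 := by
      -- `k >= 3`: `g < pi/(2k)`; `k <= 3`: `g <= pi/4 + A/2 - pi/(2k) <= pi/4 - pi/(4k)`
      rcases le_or_gt 3 k with h3k | h3k
      · have : Real.pi / k ≤ Real.pi / 3 := div_le_div_of_nonneg_left hpi.le (by norm_num) h3k
        linarith
      · have : Real.pi / 3 < Real.pi / k := div_lt_div_of_pos_left hpi (by linarith) h3k
        linarith
    have h7 : Real.cos (Real.pi / 6) ≤ Real.cos g :=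
      Real.cos_le_cos_of_nonneg_of_le_pi hg0 (by linarith) h6
    rw [Real.cos_pi_div_six] at h7
    have h8 : (1.732 : ℝ) ≤ Real.sqrt 3 := Real.le_sqrt_of_sq_le (by norm_num)
    calc (3 / 5 : ℝ) ≤ 0.7071 * 0.866 := by norm_num
      _ ≤ _ := mul_le_mul (h2.trans h3) (by linarith) (by norm_num) (by positivity)
  · -- `n = 2 cos (k u / 2)`, `u = pi/k - phi`
    obtain ⟨u, hu⟩ : ∃ u, u = Real.pi / k - φ := ⟨_, rfl⟩
    have hu0 : 0 < u := by rw [hu]; linarith
    have e1 : Real.sin (k * φ / 2) = Real.cos (k * (u / 2)) := by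
      rw [← Real.cos_pi_div_two_sub]
      congr 1
      rw [hu]
      field_simp
    have hku : k * (u / 2) ≤ Real.pi / 2 := by
      have : k * (u / 2) = Real.pi / 2 - k * φ / 2 := by
        rw [hu]
        field_simp
      linarith [mul_pos k0 hφ]
    have hc := Pool.Agent.MP226de1.DNX.cos_geom 0 (k * (u / 2)) (1 / k) le_rfl
      (by positivity) (by linarith) (by positivity)
      (by rw [div_le_one k0]; linarith)
    rw [Real.cos_zero, Real.one_rpow, one_mul, zero_add, zero_add] at hc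
    have e2 : 1 / k * (k * (u / 2)) = u / 2 := by field_simp
    rw [e2, ← e1] at hc
    -- `cos g ≥ cos (u/2)`
    have h9 : Real.cos (u / 2) ≤ Real.cos g := by
      rw [← Real.cos_neg g]
      apply Real.cos_le_cos_of_nonneg_of_le_pi (by linarith) (by linarith)
      rw [hg', hu]
      linarith
    have e3 : (2 * Real.sin (k * φ / 2)) ^ (-(1 / k)) =
        (2 : ℝ) ^ (-(1 / k)) * (Real.sin (k * φ / 2) ^ (1 / k))⁻¹ := by
      rw [Real.mul_rpow (by norm_num) hs.le, Real.rpow_neg hs.le]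
    have hsp : 0 < Real.sin (k * φ / 2) ^ (1 / k) := Real.rpow_pos_of_pos hs _
    rw [e3]
    have h10 : 1 ≤ (Real.sin (k * φ / 2) ^ (1 / k))⁻¹ * Real.cos g := by
      rw [inv_mul_eq_div, one_le_div hsp]
      exact hc.trans h9
    calc (3 / 5 : ℝ) ≤ 0.7071 * 1 := by norm_num
      _ ≤ (2 : ℝ) ^ (-(1 / k)) * ((Real.sin (k * φ / 2) ^ (1 / k))⁻¹ * Real.cos g) :=
          mul_le_mul h2 h10 (by norm_num) (by positivity)
      _ = _ := by ring

/-- the first step in normalised real form (E3), (E4) -/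
theorem St.step_norm (h : St k C q0 q1 q2 q3 d0 d1 d2 X1 X2 X3) :
    ∃ P X : ℝ, P = Real.exp (2 * (d1 - X1).re) ∧ X = Real.exp d1.re / -q1.re ∧
      0 < P ∧ 0 < X ∧ P ≤ X ^ 2 * Real.cos (-X1.im) ^ 2 ∧
      Real.exp (2 * (X2 - X1).re) * Real.sin (-X1.im + (X1 - d1).im - 2 * (X2 - d1).im) =
        Real.sin (-X1.im - (X1 - d1).im) + P * Real.sin (-X1.im + (X1 - d1).im) +
        X * Real.sin (2 * -X1.im) ∧
      Real.exp (2 * (X2 - X1).re) * Real.cos (-X1.im + (X1 - d1).im - 2 * (X2 - d1).im) =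
        Real.cos (-X1.im - (X1 - d1).im) + P * Real.cos (-X1.im + (X1 - d1).im) +
        2 * (P / X) := by
  obtain ⟨hc, hs⟩ := step_rot h.x1 h.x2 h.s1
  obtain ⟨_, p2⟩ := quad_polar h.x1
  have hlt := quad_lt h.x1 h.i1 h.q1neg.le (abs_lt.2 ⟨h.a1.1, by linarith [h.a1.2, Real.pi_pos]⟩)
  have ha : 0 < -q1.re := by linarith [h.q1neg]
  set A := -X1.im with hA
  set φ := (X1 - d1).im with hφ
  set τ := (X2 - d1).im with hτ
  have hR : 0 < Real.exp X1.re := Real.exp_pos _
  have hL : 0 < Real.exp d1.re := Real.exp_pos _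
  have hT : Real.exp (2 * (X2 - X1).re) * Real.exp X1.re ^ 2 = Real.exp X2.re ^ 2 := by
    rw [← Real.exp_nat_mul, ← Real.exp_nat_mul, ← Real.exp_add]
    congr 1
    simp only [sub_re]
    push_cast
    ring
  have hP : Real.exp (2 * (d1 - X1).re) * Real.exp X1.re ^ 2 = Real.exp d1.re ^ 2 := by
    rw [← Real.exp_nat_mul, ← Real.exp_nat_mul, ← Real.exp_add]
    congr 1
    simp only [sub_re]
    push_cast
    ring
  refine ⟨_, _, rfl, rfl, Real.exp_pos _, div_pos hL ha, ?_, ?_, ?_⟩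
  · have e1 : Real.cos A = Real.cos X1.im := by rw [hA, Real.cos_neg]
    have h1 : (-q1.re) ^ 2 ≤ (Real.exp X1.re * Real.cos A) ^ 2 := by
      rw [e1]
      exact pow_le_pow_left₀ ha.le hlt.le 2
    rw [div_pow, div_mul_eq_mul_div, le_div_iff₀ (by positivity)]
    have h2 := mul_le_mul_of_nonneg_left h1 (Real.exp_pos (2 * (d1 - X1).re)).le
    calc Real.exp (2 * (d1 - X1).re) * (-q1.re) ^ 2 ≤
          Real.exp (2 * (d1 - X1).re) * (Real.exp X1.re * Real.cos A) ^ 2 := h2
      _ = Real.exp (2 * (d1 - X1).re) * Real.exp X1.re ^ 2 * Real.cos A ^ 2 := by ring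
      _ = _ := by rw [hP]
  · have e2 : 2 * X1.im = -(2 * A) := by rw [hA]; ring
    rw [e2, Real.sin_neg] at p2
    have h3 : Real.exp X1.re ^ 2 * (Real.exp d1.re / -q1.re * Real.sin (2 * A)) =
        2 * Real.exp d1.re * q1.im := by
      have hne : -q1.re ≠ 0 := ha.ne'
      rw [div_mul_eq_mul_div, ← mul_div_assoc, div_eq_iff hne]
      linear_combination Real.exp d1.re * p2
    have hR2 : Real.exp X1.re ^ 2 ≠ 0 := by positivity
    apply mul_left_cancel₀ hR2
    calc Real.exp X1.re ^ 2 * (Real.exp (2 * (X2 - X1).re) * Real.sin (A + φ - 2 * τ)) =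
          Real.exp (2 * (X2 - X1).re) * Real.exp X1.re ^ 2 * Real.sin (A + φ - 2 * τ) := by ring
      _ = Real.exp X2.re ^ 2 * Real.sin (A + φ - 2 * τ) := by rw [hT]
      _ = _ := hs
      _ = _ := by rw [mul_add, mul_add, h3, ← hP]; ring
  · have h3 : Real.exp X1.re ^ 2 * (2 * (Real.exp (2 * (d1 - X1).re) /
        (Real.exp d1.re / -q1.re))) = 2 * Real.exp d1.re * -q1.re := by
      have e3 : Real.exp X1.re ^ 2 * (2 * (Real.exp (2 * (d1 - X1).re) /
          (Real.exp d1.re / -q1.re))) = 2 * (Real.exp (2 * (d1 - X1).re) *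
          Real.exp X1.re ^ 2) / Real.exp d1.re * -q1.re := by
        field_simp
      rw [e3, hP]
      field_simp
    have hR2 : Real.exp X1.re ^ 2 ≠ 0 := by positivity
    apply mul_left_cancel₀ hR2
    calc Real.exp X1.re ^ 2 * (Real.exp (2 * (X2 - X1).re) * Real.cos (A + φ - 2 * τ)) =
          Real.exp (2 * (X2 - X1).re) * Real.exp X1.re ^ 2 * Real.cos (A + φ - 2 * τ) := by ring
      _ = Real.exp X2.re ^ 2 * Real.cos (A + φ - 2 * τ) := by rw [hT]
      _ = _ := hc
      _ = _ := by rw [mul_add, mul_add, h3, ← hP]; ring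

/-- `tau < phi` whenever `phi > 0` (any sheet, no exit hypothesis) -/
theorem St.tau_lt_phi (h : St k C q0 q1 q2 q3 d0 d1 d2 X1 X2 X3) (hφ : 0 < (X1 - d1).im) :
    (X2 - d1).im < (X1 - d1).im := by
  obtain ⟨P, X, _, _, hP, hX, hPX, E3, E4⟩ := h.step_norm
  exact plt_beta (by linarith [h.a1.2]) hφ h.psi_lt h.tau_lt hP.le hX (Real.exp_pos _) hPX E3 E4

/-- case PL: `|p_{-2}| ≥ cos (arg p_{-2})` -/
theorem St.pl_t (h : St k C q0 q1 q2 q3 d0 d1 d2 X1 X2 X3)
    (he : ‖1 - pv k C X1 d0‖ = 1) (hφ : 0 < (X1 - d1).im)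
    (hF1 : k * (X1 - d1).im < Real.pi) (hτ : 0 ≤ (X2 - d1).im) :
    Real.cos (k * (X2 - d1).im) ≤ ‖pv k C X2 d1‖ := by
  have hpi := Real.pi_pos
  have k0 := h.k0
  have hk := h.hk
  have a1 := h.a1
  have hψ := h.psi_lt
  have hp2 := abs_lt.1 h.p2
  have hτφ := h.tau_lt_phi hφ
  obtain ⟨P, X, hPd, hXd, hP, hX, hPX, E3, E4⟩ := h.step_norm
  by_contra hcon
  have hcon' := not_le.1 hcon
  obtain ⟨ht, _⟩ := h.disc_t he
  have ht0 : 0 < ‖pv k C X2 d1‖ := norm_pos_iff.2 (pv_ne h.C0)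
  have hA0 : 0 < -X1.im := by linarith
  set A := -X1.im with hA
  set φ := (X1 - d1).im with hφd
  set τ := (X2 - d1).im with hτd
  have hτ4 : |τ| < Real.pi / 4 := h.tau_lt
  have hτ4' := abs_lt.1 hτ4
  -- `T < cos 2 tau`
  have hT1 : Real.exp (2 * (X2 - X1).re) < Real.cos (2 * τ) := by
    have h1 : ‖pv k C X2 d1‖ ^ (2 / k) < Real.cos (k * τ) ^ (2 / k) :=
      Real.rpow_lt_rpow ht0.le hcon' (by positivity)
    have h2 := Pool.Agent.MP226de1.DNX.cos_geom 0 (k * τ) (2 / k) le_rfl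
      (by positivity) (by linarith) (by positivity)
      (by rw [div_le_one k0]; linarith)
    rw [Real.cos_zero, Real.one_rpow, one_mul, zero_add, zero_add] at h2
    have e2 : 2 / k * (k * τ) = 2 * τ := by field_simp
    rw [e2] at h2
    rw [← ht]
    linarith
  rcases le_or_gt τ A with h3 | h3
  · -- `T ≥ 1`
    have hcp : 0 < Real.cos (A + φ - 2 * τ) :=
      Real.cos_pos_of_mem_Ioo ⟨by linarith, by linarith⟩
    have hle : Real.cos (A + φ - 2 * τ) ≤ Real.cos (A - φ) := by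
      rw [← Real.cos_abs (A - φ)]
      apply Real.cos_le_cos_of_nonneg_of_le_pi (abs_nonneg _) (by linarith)
      rw [abs_le]
      constructor <;> linarith
    have hcs : 0 < Real.cos (A + φ) := Real.cos_pos_of_mem_Ioo ⟨by linarith, by linarith⟩
    have h4 : Real.exp (2 * (X2 - X1).re) * Real.cos (A + φ - 2 * τ) <
        1 * Real.cos (A + φ - 2 * τ) :=
      mul_lt_mul_of_pos_right (lt_of_lt_of_le hT1 (Real.cos_le_one _)) hcp
    have h5 : 0 < P * Real.cos (A + φ) + 2 * (P / X) := by positivity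
    linarith
  · obtain ⟨hd0, hn0, hn2⟩ := h.disc_d0 he
    obtain ⟨hp, hn, hs⟩ := h.disc_p1 he (mul_pos k0 hφ) (by linarith)
    have hle := h.D0_le
    have hkA : k * A < Real.pi / 2 := by
      have := mul_lt_mul_of_pos_left h3 k0
      linarith
    have hx := plt_x hk hA0 hkA (by linarith) hF1 hψ
    have hX2 : X ≤ 5 / 3 := by
      have ha : 0 < -q1.re := by linarith [h.q1neg]
      have hL : 0 < Real.exp d1.re := Real.exp_pos _
      have e0 : d0.im = -(A + (k * φ - Real.pi) / (2 * k)) := by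
        have : (X1 - d0).im = (k * φ - Real.pi) / (2 * k) := by
          field_simp
          linarith
        rw [← this, hA]
        simp
      rw [exp_re, hd0, hn, e0, Real.cos_neg] at hle
      rw [hXd, div_le_iff₀ ha]
      have h6 := mul_le_mul_of_nonneg_left hx hL.le
      have h7 : Real.exp d1.re * (3 / 5) ≤ -q1.re := by
        refine h6.trans ?_
        rw [← mul_assoc]
        exact hle
      linarith
    exact plt_core hk hA0 h3 hφ hψ hp2.2 hP.le hX hX2 (Real.exp_pos _) hT1 hPX E3 E4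

end EQS
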