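import Mathlib
import Pool.Agent.Lib.MP_226de1_co.E.PLt
import Pool.Agent.Lib.MP_226de1_co.E.PLL
import Pool.Agent.Lib.MP_226de1_co.E.PLR

/-! Unit disc exit, case PL: `|D_{-2}| ≤ |xi_{-2}|`, `arg p_{-3} ≤ (1/2) arg f_{-2}`, and the
assembly of the case (with the two sheet statements as hypotheses). -/

set_option autoImplicit false

namespace EQS

open Complex

variable {k C : ℝ} {q0 q1 q2 q3 d0 d1 d2 X1 X2 X3 : ℂ}

/-- `|1 - (1 - f)^r| ≤ 1 - (1 - |f|)^r` -/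
theorem one_sub_cpow_le {f : ℂ} {r : ℝ} (hr0 : 0 < r) (hr1 : r < 1) (hf : ‖f‖ < 1) :
    ‖1 - (1 - f) ^ (r : ℂ)‖ ≤ 1 - (1 - ‖f‖) ^ r := by
  have hb : ∀ s ∈ Set.Icc (0 : ℝ) 1, s * ‖f‖ < 1 := by
    intro s hs
    calc s * ‖f‖ ≤ 1 * ‖f‖ := mul_le_mul_of_nonneg_right hs.2 (norm_nonneg _)
      _ < 1 := by linarith
  have hsl : ∀ s ∈ Set.Icc (0 : ℝ) 1, 1 - (s : ℂ) * f ∈ slitPlane := by
    intro s hs
    have h1 : ‖-((s : ℂ) * f)‖ < 1 := by
      rw [norm_neg, norm_mul, Complex.norm_real, Real.norm_of_nonneg hs.1]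
      exact hb s hs
    have h2 := mem_slitPlane_of_norm_lt_one h1
    rwa [← sub_eq_add_neg] at h2
  have hd : ∀ s ∈ Set.Icc (0 : ℝ) 1, HasDerivAt
      (fun y : ℝ => 1 - (1 - (y : ℂ) * f) ^ (r : ℂ))
      (-((r : ℂ) * (1 - (s : ℂ) * f) ^ ((r : ℂ) - 1) * -f)) s := by
    intro s hs
    have h1 : HasDerivAt (fun z : ℂ => 1 - z * f) (-f) (s : ℂ) := by
      have := ((hasDerivAt_id (s : ℂ)).mul_const f).const_sub 1
      simpa using this
    have h2 := (h1.cpow_const (c := (r : ℂ)) (hsl s hs)).const_sub 1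
    exact h2.comp_ofReal
  have hB : ∀ s ∈ Set.Icc (0 : ℝ) 1, HasDerivAt
      (fun y : ℝ => 1 - (1 - y * ‖f‖) ^ r)
      (-(-‖f‖ * r * (1 - s * ‖f‖) ^ (r - 1))) s := by
    intro s hs
    have h1 : HasDerivAt (fun y : ℝ => 1 - y * ‖f‖) (-‖f‖) s := by
      have := ((hasDerivAt_id s).mul_const ‖f‖).const_sub 1
      simpa using this
    exact (h1.rpow_const (p := r) (Or.inl (by linarith [hb s hs]))).const_sub 1
  have key := image_norm_le_of_norm_deriv_right_le_deriv_boundary' (a := (0 : ℝ)) (b := 1)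
    (f := fun y : ℝ => 1 - (1 - (y : ℂ) * f) ^ (r : ℂ))
    (B := fun y : ℝ => 1 - (1 - y * ‖f‖) ^ r)
    (fun s hs => (hd s hs).continuousAt.continuousWithinAt)
    (fun s hs => (hd s ⟨hs.1, hs.2.le⟩).hasDerivWithinAt)
    (by simp)
    (fun s hs => (hB s hs).continuousAt.continuousWithinAt)
    (fun s hs => (hB s ⟨hs.1, hs.2.le⟩).hasDerivWithinAt)
    (by
      intro s hs
      have h1 := hb s ⟨hs.1, hs.2.le⟩
      have h2 : 0 < 1 - s * ‖f‖ := by linarith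
      have h3 : 1 - s * ‖f‖ ≤ ‖1 - (s : ℂ) * f‖ := by
        have h4 := norm_sub_norm_le (1 : ℂ) ((s : ℂ) * f)
        rw [norm_one, norm_mul, Complex.norm_real, Real.norm_of_nonneg hs.1] at h4
        exact h4
      have e1 : ((r : ℂ) - 1) = ((r - 1 : ℝ) : ℂ) := by push_cast; ring
      rw [norm_neg, norm_mul, norm_mul, norm_neg, Complex.norm_real, Real.norm_of_nonneg hr0.le,
        e1, norm_cpow_real]
      have h5 : ‖1 - (s : ℂ) * f‖ ^ (r - 1) ≤ (1 - s * ‖f‖) ^ (r - 1) :=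
        Real.rpow_le_rpow_of_nonpos h2 h3 (by linarith)
      have h6 := mul_le_mul_of_nonneg_left h5 (mul_nonneg hr0.le (norm_nonneg f))
      calc r * ‖1 - (s : ℂ) * f‖ ^ (r - 1) * ‖f‖ = r * ‖f‖ * ‖1 - (s : ℂ) * f‖ ^ (r - 1) := by ring
        _ ≤ _ := h6
        _ = _ := by ring)
    (Set.right_mem_Icc.2 zero_le_one)
  simpa using key

/-- `|1 - p^r| ≤ |1 - p|^r` -/
theorem one_sub_cpow_le' {f : ℂ} {r : ℝ} (hr0 : 0 < r) (hr1 : r < 1) (hf : ‖f‖ < 1) :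
    ‖1 - (1 - f) ^ (r : ℂ)‖ ≤ ‖f‖ ^ r := by
  have h1 := one_sub_cpow_le hr0 hr1 hf
  have h0 := norm_nonneg f
  have h2 : ‖f‖ ≤ ‖f‖ ^ r := by
    calc ‖f‖ = ‖f‖ ^ (1 : ℝ) := (Real.rpow_one _).symm
      _ ≤ ‖f‖ ^ r := Real.rpow_le_rpow_of_exponent_ge' h0 hf.le hr0.le hr1.le
  have h3 : 1 - ‖f‖ ≤ (1 - ‖f‖) ^ r := by
    calc 1 - ‖f‖ = (1 - ‖f‖) ^ (1 : ℝ) := (Real.rpow_one _).symm
      _ ≤ (1 - ‖f‖) ^ r :=
        Real.rpow_le_rpow_of_exponent_ge' (by linarith) (by linarith) hr0.le hr1.le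
  linarith

/-- `p_{-2}^(2/k) = T e^{2 i tau}` -/
theorem St.cpow_p2 (h : St k C q0 q1 q2 q3 d0 d1 d2 X1 X2 X3)
    (he : ‖1 - pv k C X1 d0‖ = 1) :
    (pv k C X2 d1) ^ (((2 / k : ℝ)) : ℂ) =
      ((Real.exp (2 * (X2 - X1).re) : ℝ) : ℂ) * exp (((2 * (X2 - d1).im : ℝ) : ℂ) * I) := by
  have hpi := Real.pi_pos
  have k0 := h.k0
  have hp2 := abs_lt.1 h.p2
  have hC := h.disc_re he
  have e1 : pv k C X2 d1 = exp ((((k * (X2 - X1).re : ℝ)) : ℂ) +
      ((k * (X2 - d1).im : ℝ) : ℂ) * I) := by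
    unfold pv
    rw [← hC, Complex.ofReal_exp, ← exp_sub]
    congr 1
    apply Complex.ext
    · simp only [sub_re, ofReal_re, add_re, mul_re, ofReal_im, I_re, I_im]
      ring
    · simp only [sub_im, ofReal_im, add_im, mul_im, ofReal_re, I_re, I_im]
      ring
  have him : ((((k * (X2 - X1).re : ℝ)) : ℂ) + ((k * (X2 - d1).im : ℝ) : ℂ) * I).im =
      k * (X2 - d1).im := by simp
  rw [e1, cpow_def_of_ne_zero (exp_ne_zero _), log_exp (by rw [him]; linarith)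
    (by rw [him]; linarith), Complex.ofReal_exp, ← exp_add]
  congr 1
  have hk : (k : ℂ) ≠ 0 := by exact_mod_cast k0.ne'
  push_cast
  field_simp

/-- (c): `|D_{-2}| ≤ |xi_{-2}|` in case PL -/
theorem St.pl_P2 (h : St k C q0 q1 q2 q3 d0 d1 d2 X1 X2 X3)
    (hh : X1.im < -(Real.pi / 4) → (pv k C X1 d1).re < 1 / 2)
    (he : ‖1 - pv k C X1 d0‖ = 1) (hF : 0 < (X1 - d1).im) (hF1 : k * (X1 - d1).im < Real.pi)
    (hτ : 0 ≤ (X2 - d1).im) (h2 : ‖1 - pv k C X2 d1‖ < 1) :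
    Real.exp (2 * (d2 - X2).re) ≤ 1 := by
  have hpi := Real.pi_pos
  have k0 := h.k0
  have hk := h.hk
  have a1 := h.a1
  have hψ := h.psi_lt
  have hC := h.C0
  obtain ⟨P, X, hPd, hXd, hP, hX, hPX, E3, E4⟩ := h.step_norm
  -- `X ≤ 2`
  obtain ⟨e1, _⟩ := h.disc_D0' he hF (by linarith)
  have hx : 1 / 2 ≤ c0 k (-X1.im) (X1 - d1).im :=
    pl_x h.hk (by linarith) (by linarith) (mul_pos k0 hF) hF1 hψ
      (fun hA => h.pl_S hh he hF hF1 hτ h2 hA)
  have hX2 : X ≤ 2 := by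
    have ha : 0 < -q1.re := by linarith [h.q1neg]
    have hL : 0 < Real.exp d1.re := Real.exp_pos _
    have hle := h.D0_le
    rw [e1] at hle
    rw [hXd, div_le_iff₀ ha]
    have := mul_le_mul_of_nonneg_left hx hL.le
    linarith
  -- `P ≤ T cos (psi - 2 tau) - cos psi`
  have hcs : 0 < Real.cos (-X1.im + (X1 - d1).im) :=
    Real.cos_pos_of_mem_Ioo ⟨by linarith, by linarith⟩
  have hle : Real.cos (-X1.im + (X1 - d1).im) ≤ Real.cos (-X1.im - (X1 - d1).im) := by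
    rw [← Real.cos_abs (-X1.im - (X1 - d1).im)]
    apply Real.cos_le_cos_of_nonneg_of_le_pi (abs_nonneg _) (by linarith)
    rw [abs_le]
    constructor <;> linarith
  have hPP : P ≤ 2 * (P / X) := by
    rw [mul_div_assoc', le_div_iff₀ hX]
    have := mul_le_mul_of_nonneg_left hX2 hP.le
    linarith
  have hA1 : P ≤ Real.exp (2 * (X2 - X1).re) *
      Real.cos (-X1.im + (X1 - d1).im - 2 * (X2 - d1).im) -
      Real.cos (-X1.im + (X1 - d1).im) := by
    rw [E4]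
    have : 0 ≤ P * Real.cos (-X1.im + (X1 - d1).im) := by positivity
    linarith
  -- `≤ |T e^{2 i tau} - 1|`
  obtain ⟨W, hW⟩ : ∃ W : ℂ, W = ((Real.exp (2 * (X2 - X1).re) : ℝ) : ℂ) *
      exp (((2 * (X2 - d1).im : ℝ) : ℂ) * I) := ⟨_, rfl⟩
  have hA2 : Real.exp (2 * (X2 - X1).re) *
      Real.cos (-X1.im + (X1 - d1).im - 2 * (X2 - d1).im) -
      Real.cos (-X1.im + (X1 - d1).im) ≤ ‖1 - W‖ := by
    have e2 : Real.exp (2 * (X2 - X1).re) *
        Real.cos (-X1.im + (X1 - d1).im - 2 * (X2 - d1).im) -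
        Real.cos (-X1.im + (X1 - d1).im) =
        ((W - 1) * exp (((-(-X1.im + (X1 - d1).im) : ℝ) : ℂ) * I)).re := by
      have e3 : (W - 1) * exp (((-(-X1.im + (X1 - d1).im) : ℝ) : ℂ) * I) =
          ((Real.exp (2 * (X2 - X1).re) : ℝ) : ℂ) *
            exp (((2 * (X2 - d1).im + -(-X1.im + (X1 - d1).im) : ℝ) : ℂ) * I) -
          exp (((-(-X1.im + (X1 - d1).im) : ℝ) : ℂ) * I) := by
        rw [sub_mul, one_mul, hW, mul_assoc, ← exp_add, ← add_mul, ← ofReal_add]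
      have e4 : Real.cos (2 * (X2 - d1).im + -(-X1.im + (X1 - d1).im)) =
          Real.cos (-X1.im + (X1 - d1).im - 2 * (X2 - d1).im) := by
        rw [← Real.cos_neg]
        congr 1
        ring
      rw [e3]
      generalize Real.exp (2 * (X2 - X1).re) = T0
      rw [Complex.sub_re, Complex.re_ofReal_mul, exp_ofReal_mul_I_re, exp_ofReal_mul_I_re,
        Real.cos_neg, e4]
    rw [e2]
    refine (re_le_norm _).trans ?_
    rw [norm_mul, norm_exp_ofReal_mul_I, mul_one, norm_sub_rev]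
  have hp : (1 : ℂ) - pv k C X2 d2 = pv k C X2 d1 := by rw [h.f2_eq]; ring
  have hA3 : ‖1 - W‖ ≤ ‖pv k C X2 d2‖ ^ (2 / k) := by
    have h3 := one_sub_cpow_le' (f := pv k C X2 d2) (r := 2 / k) (by positivity)
      (by rw [div_lt_one k0]; exact hk) (by rw [h.f2_eq]; exact h2)
    rw [hp, h.cpow_p2 he, ← hW] at h3
    exact h3
  -- conclusion
  have hA4 : P ≤ ‖pv k C X2 d2‖ ^ (2 / k) := hA1.trans (hA2.trans hA3)
  have e3 : ‖pv k C X2 d2‖ ^ (2 / k) = P * Real.exp (-(2 * (d2 - X2).re)) := by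
    have hCe := h.disc_re he
    rw [hPd, norm_pv hC]
    have e4 : Real.exp (k * (X2 - d2).re) / C =
        Real.exp (k * ((X2 - d2).re - (X1 - d1).re)) := by
      rw [← hCe, ← Real.exp_sub]
      congr 1
      ring
    rw [e4, ← Real.exp_mul, ← Real.exp_add]
    congr 1
    simp only [sub_re]
    field_simp
    ring
  rw [e3] at hA4
  have h5 : 1 ≤ Real.exp (-(2 * (d2 - X2).re)) := by
    have h6 : P * 1 ≤ P * Real.exp (-(2 * (d2 - X2).re)) := by linarith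
    exact le_of_mul_le_mul_left h6 hP
  rw [Real.exp_neg] at h5
  have h7 := Real.exp_pos (2 * (d2 - X2).re)
  rw [← one_div, le_div_iff₀ h7] at h5
  linarith

/-- (G0), second step: if `Im (X2 - d2) ≤ 0` and `|D_{-2}| ≤ |xi_{-2}|` then
`2 Im (X3 - d2) ≤ Im (X2 - d2)` -/
theorem St.g0_two (h : St k C q0 q1 q2 q3 d0 d1 d2 X1 X2 X3) (hF : (X2 - d2).im ≤ 0)
    (hP2 : Real.exp (2 * (d2 - X2).re) ≤ 1) : (X3 - d2).im ≤ (X2 - d2).im / 2 := by
  have hpi := Real.pi_pos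
  have k0 := h.k0
  have a2 := h.a2
  have a3 := h.a3
  have ha : 0 < -q2.re := by linarith [h.r12, h.q1neg]
  obtain ⟨hc, hs⟩ := step_rot h.x2 h.x3 h.s2
  obtain ⟨p1, p2⟩ := quad_polar h.x2
  have hlt := quad_lt h.x2 h.i2 (by linarith) (abs_lt.2 ⟨a2.1, by linarith⟩)
  have e1 : -X2.im + (X2 - d2).im - 2 * (X3 - d2).im = -X3.im - (X3 - d2).im := by
    simp only [sub_im]
    ring
  have hτ : |(X3 - d2).im| < Real.pi / 4 := by
    have := h.p3
    rw [abs_mul, abs_of_pos k0] at this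
    nlinarith [abs_nonneg (X3 - d2).im, h.hk]
  have hτ' := abs_lt.1 hτ
  set A := -X2.im with hA
  set φ := (X2 - d2).im with hφ
  set τ := (X3 - d2).im with hτd
  set R := Real.exp X2.re with hR
  set L := Real.exp d2.re with hL
  have hR0 : 0 < R := Real.exp_pos _
  have hL0 : 0 < L := Real.exp_pos _
  have hP : Real.exp (2 * (d2 - X2).re) * R ^ 2 = L ^ 2 := by
    rw [hR, hL, ← Real.exp_nat_mul, ← Real.exp_nat_mul, ← Real.exp_add]
    congr 1
    simp only [sub_re]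
    push_cast
    ring
  have hLR : L ^ 2 ≤ R ^ 2 := by
    rw [← hP]
    have := mul_le_mul_of_nonneg_right hP2 (sq_nonneg R)
    linarith
  have e2 : 2 * X2.im = -(2 * A) := by rw [hA]; ring
  have e3 : Real.cos X2.im = Real.cos A := by rw [hA, Real.cos_neg]
  rw [e2, Real.sin_neg, Real.sin_two_mul] at p2
  rw [e3] at hlt
  have hsA : 0 < Real.sin A := Real.sin_pos_of_pos_of_lt_pi (by linarith) (by linarith)
  have hcA : 0 < Real.cos A := Real.cos_pos_of_mem_Ioo ⟨by linarith, by linarith⟩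
  -- `Im (T e^{i (phi - 2 tau)})`
  have key : Real.exp X3.re ^ 2 * Real.sin (φ - 2 * τ) =
      -((R ^ 2 - L ^ 2) * Real.sin φ) + 2 * L * (q2.im * Real.cos A - -q2.re * Real.sin A) := by
    have e4 : Real.sin (φ - 2 * τ) = Real.sin (A + φ - 2 * τ) * Real.cos A -
        Real.cos (A + φ - 2 * τ) * Real.sin A := by
      rw [← Real.sin_sub]
      congr 1
      ring
    have e5 : -Real.sin φ = Real.sin (A - φ) * Real.cos A - Real.cos (A - φ) * Real.sin A := by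
      rw [← Real.sin_sub, ← Real.sin_neg]
      congr 1
      ring
    have e6 : Real.sin φ = Real.sin (A + φ) * Real.cos A - Real.cos (A + φ) * Real.sin A := by
      rw [← Real.sin_sub]
      congr 1
      ring
    have e7 : -((R ^ 2 - L ^ 2) * Real.sin φ) = R ^ 2 * -Real.sin φ + L ^ 2 * Real.sin φ := by ring
    rw [e4, e7]
    linear_combination Real.cos A * hs - Real.sin A * hc - R ^ 2 * e5 - L ^ 2 * e6
  -- `v cos A ≥ a sin A`
  have h4 : 0 ≤ q2.im * Real.cos A - -q2.re * Real.sin A := by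
    have h5 : -q2.re * q2.im = R ^ 2 * (Real.sin A * Real.cos A) := by linarith
    have h6 : -q2.re * (q2.im * Real.cos A - -q2.re * Real.sin A) =
        Real.sin A * ((R * Real.cos A) ^ 2 - (-q2.re) ^ 2) := by
      calc -q2.re * (q2.im * Real.cos A - -q2.re * Real.sin A) =
            (-q2.re * q2.im) * Real.cos A - (-q2.re) ^ 2 * Real.sin A := by ring
        _ = _ := by rw [h5]; ring
    have h7 : (-q2.re) ^ 2 ≤ (R * Real.cos A) ^ 2 := pow_le_pow_left₀ ha.le hlt.le 2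
    have h8 : 0 ≤ -q2.re * (q2.im * Real.cos A - -q2.re * Real.sin A) := by
      rw [h6]
      exact mul_nonneg hsA.le (by linarith)
    exact nonneg_of_mul_nonneg_right h8 ha
  -- `phi > - pi`, hence `sin phi ≤ 0`
  have hφ1 : -Real.pi < φ := by linarith
  have hsφ : Real.sin φ ≤ 0 := Real.sin_nonpos_of_nonpos_of_neg_pi_le hF hφ1.le
  have h9 : 0 ≤ Real.exp X3.re ^ 2 * Real.sin (φ - 2 * τ) := by
    rw [key]
    have g1 : 0 ≤ (R ^ 2 - L ^ 2) * -Real.sin φ := mul_nonneg (by linarith) (by linarith)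
    have g2 : 0 ≤ 2 * L * (q2.im * Real.cos A - -q2.re * Real.sin A) := by positivity
    linarith
  have h10 : 0 ≤ Real.sin (φ - 2 * τ) := nonneg_of_mul_nonneg_right h9 (by positivity)
  by_contra hcon
  have hcon' := not_le.1 hcon
  have h11 : Real.sin (φ - 2 * τ) < 0 :=
    Real.sin_neg_of_neg_of_neg_pi_lt (by linarith) (by linarith)
  linarith

/-- CASE PL, with the two sheet statements `F_1 < pi` and `F_2 ≤ 0` as hypotheses -/
theorem St.casePL (h : St k C q0 q1 q2 q3 d0 d1 d2 X1 X2 X3)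
    (hh : X1.im < -(Real.pi / 4) → (pv k C X1 d1).re < 1 / 2)
    (he : ‖1 - pv k C X1 d0‖ = 1) (h2 : ‖1 - pv k C X2 d1‖ < 1)
    (h3 : ‖1 - pv k C X3 d2‖ < 1)
    (hF : 0 < (X1 - d1).im) (hτ : 0 ≤ (X2 - d1).im)
    (hF1 : k * (X1 - d1).im < Real.pi) (hF2 : k * (X2 - d2).im < Real.pi) :
    ‖exp d1‖ ^ 2 * ((1 - ‖1 - pv k C X2 d1‖ ^ 2) * (1 - ‖1 - pv k C X3 d2‖ ^ 2)) <
      4 * ‖pv k C X2 d1 - pv k C X3 d2‖ ^ 2 * ((exp d0).re * (exp d0 + exp d1).re) := by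
  have hpi := Real.pi_pos
  have k0 := h.k0
  have hp2 := abs_lt.1 h.p2
  -- `F_2 ≤ 0`
  have hF0 : (X2 - d2).im ≤ 0 := by
    by_contra hcon
    have hcon' := not_le.1 hcon
    have h4 : 0 < Real.sin (k * (X2 - d2).im) :=
      Real.sin_pos_of_pos_of_lt_pi (mul_pos k0 hcon') hF2
    have h5 : 0 ≤ (pv k C X2 d1).im := by
      rw [pv_im]
      exact mul_nonneg (div_pos (Real.exp_pos _) h.C0).le
        (Real.sin_nonneg_of_nonneg_of_le_pi (mul_nonneg k0.le hτ) (by linarith))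
    have h6 : 0 < (pv k C X2 d2).im := by
      rw [pv_im]
      exact mul_pos (div_pos (Real.exp_pos _) h.C0) h4
    rw [h.f2_eq] at h6
    simp only [sub_im, one_im] at h6
    linarith
  exact h.pl_end h2 h3 (h.pl_t he hF hF1 hτ) hF0
    (h.g0_two hF0 (h.pl_P2 hh he hF hF1 hτ h2)) (h.pl_R hh he hF hF1 hτ h2)

end EQS
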