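import Mathlib
import Pool.Agent.Lib.MP_226de1_co.E.PLFb
import Pool.Agent.Lib.MP_226de1_co.E.PLc
import Pool.Agent.Lib.MP_226de1_co.E.ExitDisc8

/-! Case PL of `ExitDisc 8` from its sheet `π ≤ F_2`. -/

set_option autoImplicit false

namespace EQS

open Complex

/-- the sheet `π ≤ F_2` of case PL of `ExitDisc K` -/
def DiscPL2 (K : ℝ) : Prop :=
  ∀ (k C : ℝ) (q0 q1 q2 q3 d0 d1 d2 X1 X2 X3 : ℂ), k ≤ K →
    St k C q0 q1 q2 q3 d0 d1 d2 X1 X2 X3 →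
    (X1.im < -(Real.pi / 4) → (pv k C X1 d1).re < 1 / 2) →
    ‖1 - pv k C X1 d0‖ = 1 → ‖1 - pv k C X2 d1‖ < 1 → ‖1 - pv k C X3 d2‖ < 1 →
    0 < (X1 - d1).im → 0 < (X2 - d1).im → k * (X1 - d1).im < Real.pi →
    Real.pi ≤ k * (X2 - d2).im →
    ‖exp d1‖ ^ 2 * ((1 - ‖1 - pv k C X2 d1‖ ^ 2) * (1 - ‖1 - pv k C X3 d2‖ ^ 2)) <
      4 * ‖pv k C X2 d1 - pv k C X3 d2‖ ^ 2 * ((exp d0).re * (exp d0 + exp d1).re)

theorem discPL_of (hPL : DiscPL2 8) : DiscPL 8 := by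
  intro k C q0 q1 q2 q3 d0 d1 d2 X1 X2 X3 hk h hh he h2 h3 hφ hτ
  have hF1 := h.pl_F hk hh he hφ hτ.le h2
  rcases lt_or_ge (k * (X2 - d2).im) Real.pi with hF2 | hF2
  · exact h.casePL hh he h2 h3 hφ hτ.le hF1 hF2
  · exact hPL k C q0 q1 q2 q3 d0 d1 d2 X1 X2 X3 hk h hh he h2 h3 hφ hτ hF1 hF2

/-- `ExitDisc 8` from the sheet `π ≤ F_2` of case PL -/
theorem exitDisc8_of2 (hPL : DiscPL2 8) : ExitDisc 8 := exitDisc8_of (discPL_of hPL)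

end EQS
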