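import Mathlib
import Pool.Agent.Lib.MP_226de1_co.E.Basics

/-! Unit disc exit, case PL, sheet `pi ≤ F_2 < 2 pi`: the end of the proof from
`arg p_{-3} ≥ pi/4 + (1/2) arg p_{-2}`. -/

set_option autoImplicit false

namespace EQS

open Complex

variable {k C : ℝ} {q0 q1 q2 q3 d0 d1 d2 X1 X2 X3 : ℂ}

/-- pure part: `p_2 = t e^{iy}`, `p_3 = s e^{iz}` -/
theorem plm_core {t s y z : ℝ} (hy0 : 0 ≤ y) (hz : z < Real.pi / 2)
    (ht0 : 0 < t) (hyz : Real.pi / 4 + y / 2 ≤ z) (ht : Real.cos y ≤ t)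
    (ht2 : t < 2 * Real.cos y) :
    (2 * t * Real.cos y - t ^ 2) * (2 * s * Real.cos z - s ^ 2) ≤
      t ^ 2 + s ^ 2 - 2 * t * s * Real.cos (z - y) := by
  have hpi := Real.pi_pos
  have hcz : 0 < Real.cos z := Real.cos_pos_of_mem_Ioo ⟨by linarith, hz⟩
  have h1 : Real.cos z ≤ Real.sin (z - y) := by
    rw [← Real.sin_pi_div_two_sub]
    apply Real.sin_le_sin_of_le_of_le_pi_div_two <;> linarith
  have h2 : Real.cos z ^ 2 ≤ Real.sin (z - y) ^ 2 := pow_le_pow_left₀ hcz.le h1 2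
  have h3 : t ^ 2 * Real.sin (z - y) ^ 2 ≤ t ^ 2 + s ^ 2 - 2 * t * s * Real.cos (z - y) := by
    have e1 : Real.sin (z - y) ^ 2 = 1 - Real.cos (z - y) ^ 2 := by
      linarith [Real.sin_sq_add_cos_sq (z - y)]
    rw [e1]
    nlinarith [sq_nonneg (s - t * Real.cos (z - y))]
  have h4 : 0 < 2 * t * Real.cos y - t ^ 2 := by
    have : 0 < t * (2 * Real.cos y - t) := mul_pos ht0 (by linarith)
    linarith [sq t]
  have h5 : 2 * t * Real.cos y - t ^ 2 ≤ t ^ 2 := by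
    have : t * Real.cos y ≤ t * t := mul_le_mul_of_nonneg_left ht ht0.le
    linarith [sq t]
  have h6 : 2 * s * Real.cos z - s ^ 2 ≤ Real.cos z ^ 2 := by
    nlinarith [sq_nonneg (s - Real.cos z)]
  calc (2 * t * Real.cos y - t ^ 2) * (2 * s * Real.cos z - s ^ 2) ≤
        (2 * t * Real.cos y - t ^ 2) * Real.cos z ^ 2 := mul_le_mul_of_nonneg_left h6 h4.le
    _ ≤ t ^ 2 * Real.sin (z - y) ^ 2 :=
        mul_le_mul h5 h2 (by positivity) (by positivity)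
    _ ≤ _ := h3

/-- the end of case PL from `arg p_{-3} ≥ pi/4 + (1/2) arg p_{-2}` -/
theorem St.pl_end2 (h : St k C q0 q1 q2 q3 d0 d1 d2 X1 X2 X3)
    (h2 : ‖1 - pv k C X2 d1‖ < 1) (h3 : ‖1 - pv k C X3 d2‖ < 1)
    (hτ : 0 ≤ (X2 - d1).im) (ht : Real.cos (k * (X2 - d1).im) ≤ ‖pv k C X2 d1‖)
    (hP : Real.pi / 4 + k * (X2 - d1).im / 2 ≤ k * (X3 - d2).im)
    (hR : ‖exp d1‖ ^ 2 < 4 * ((exp d0).re * (exp d0 + exp d1).re)) :
    ‖exp d1‖ ^ 2 * ((1 - ‖1 - pv k C X2 d1‖ ^ 2) * (1 - ‖1 - pv k C X3 d2‖ ^ 2)) <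
      4 * ‖pv k C X2 d1 - pv k C X3 d2‖ ^ 2 * ((exp d0).re * (exp d0 + exp d1).re) := by
  have hC := h.C0
  have k0 := h.k0
  have hp3 := abs_lt.1 h.p3
  have m2 : 0 < 1 - ‖1 - pv k C X2 d1‖ ^ 2 := by
    have := pow_lt_one₀ (norm_nonneg _) h2 two_ne_zero
    linarith
  have m3 : 0 < 1 - ‖1 - pv k C X3 d2‖ ^ 2 := by
    have := pow_lt_one₀ (norm_nonneg _) h3 two_ne_zero
    linarith
  obtain ⟨y, hy⟩ : ∃ y, y = k * (X2 - d1).im := ⟨_, rfl⟩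
  obtain ⟨z, hz⟩ : ∃ z, z = k * (X3 - d2).im := ⟨_, rfl⟩
  obtain ⟨t, htd⟩ : ∃ t, t = Real.exp (k * (X2 - d1).re) / C := ⟨_, rfl⟩
  obtain ⟨s, hsd⟩ : ∃ s, s = Real.exp (k * (X3 - d2).re) / C := ⟨_, rfl⟩
  have ht0 : 0 < t := by rw [htd]; exact div_pos (Real.exp_pos _) hC
  have ea : (pv k C X2 d1).re = t * Real.cos y := by rw [pv_re, htd, hy]
  have eb : (pv k C X2 d1).im = t * Real.sin y := by rw [pv_im, htd, hy]
  have ec : (pv k C X3 d2).re = s * Real.cos z := by rw [pv_re, hsd, hz]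
  have ed : (pv k C X3 d2).im = s * Real.sin z := by rw [pv_im, hsd, hz]
  have hn : ‖pv k C X2 d1‖ = t := by rw [norm_pv hC, htd]
  rw [← hy, ← hz] at hP
  rw [← hy, hn] at ht
  have e2 : 1 - ‖1 - pv k C X2 d1‖ ^ 2 = 2 * t * Real.cos y - t ^ 2 := by
    rw [← Complex.normSq_eq_norm_sq, normSq_apply]
    simp only [sub_re, sub_im, one_re, one_im]
    rw [ea, eb]
    linear_combination (-t ^ 2) * Real.sin_sq_add_cos_sq y
  have e3 : 1 - ‖1 - pv k C X3 d2‖ ^ 2 = 2 * s * Real.cos z - s ^ 2 := by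
    rw [← Complex.normSq_eq_norm_sq, normSq_apply]
    simp only [sub_re, sub_im, one_re, one_im]
    rw [ec, ed]
    linear_combination (-s ^ 2) * Real.sin_sq_add_cos_sq z
  have e4 : ‖pv k C X2 d1 - pv k C X3 d2‖ ^ 2 =
      t ^ 2 + s ^ 2 - 2 * t * s * Real.cos (z - y) := by
    rw [← Complex.normSq_eq_norm_sq, normSq_apply]
    simp only [sub_re, sub_im]
    rw [ea, eb, ec, ed, Real.cos_sub]
    linear_combination (t ^ 2) * Real.sin_sq_add_cos_sq y + (s ^ 2) * Real.sin_sq_add_cos_sq z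
  have ht2 : t < 2 * Real.cos y := by
    have h5 : 0 < t * (2 * Real.cos y - t) := by
      have e5 : t * (2 * Real.cos y - t) = 2 * t * Real.cos y - t ^ 2 := by ring
      rw [e5, ← e2]
      exact m2
    have := (pos_iff_pos_of_mul_pos h5).1 ht0
    linarith
  have hL : (1 - ‖1 - pv k C X2 d1‖ ^ 2) * (1 - ‖1 - pv k C X3 d2‖ ^ 2) ≤
      ‖pv k C X2 d1 - pv k C X3 d2‖ ^ 2 := by
    rw [e2, e3, e4]
    exact plm_core (by rw [hy]; positivity) (by rw [hz]; exact hp3.2) ht0 hP ht ht2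
  have m := mul_pos m2 m3
  have hR0 : 0 ≤ 4 * ((exp d0).re * (exp d0 + exp d1).re) := (sq_nonneg _).trans hR.le
  calc ‖exp d1‖ ^ 2 * ((1 - ‖1 - pv k C X2 d1‖ ^ 2) * (1 - ‖1 - pv k C X3 d2‖ ^ 2)) <
        4 * ((exp d0).re * (exp d0 + exp d1).re) *
          ((1 - ‖1 - pv k C X2 d1‖ ^ 2) * (1 - ‖1 - pv k C X3 d2‖ ^ 2)) :=
        mul_lt_mul_of_pos_right hR m
    _ ≤ 4 * ((exp d0).re * (exp d0 + exp d1).re) *
          ‖pv k C X2 d1 - pv k C X3 d2‖ ^ 2 := mul_le_mul_of_nonneg_left hL hR0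
    _ = _ := by ring

end EQS
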