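import Mathlib
import Pool.Agent.Lib.MP_226de1_co.E.DNP2
import Pool.Agent.Lib.MP_226de1_co.E.PLFb
import Pool.Agent.Lib.MP_226de1_co.E.PLc
import Pool.Agent.Lib.MP_226de1_co.E.PLM
import Pool.Agent.Lib.MP_226de1_co.E.DShC
import Pool.Agent.Lib.MP_226de1_co.E.PLD
import Pool.Agent.Lib.MP_226de1_co.E.DShA

/-! Unit disc exit, case PL, sheets `F_2 ≥ π`: the data of the closed inequalities from the
state, and the conclusion from the closed inequalities. -/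

set_option autoImplicit false

namespace EQS

open Complex

namespace FsD

variable {k A φ τ η T P S w c φ2 : ℝ}

theorem η_eq (h : FsD k A φ τ η T P S w c) (hF : k * φ < Real.pi) :
    η = (φ - Real.pi / k) / 2 := by
  have hpi := Real.pi_pos
  have k0 := h.k0
  have h1 : Real.cos (k * φ - 2 * (k * η) - Real.pi) = 1 := by
    rw [Real.cos_sub_pi, Real.cos_sub, h.Fc, h.Fs]
    have := Real.sin_sq_add_cos_sq (2 * (k * η))
    linear_combination this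
  obtain ⟨n, hn⟩ := (Real.cos_eq_one_iff _).1 h1
  have h2 := abs_lt.1 h.η2
  have hF0 : 0 < k * φ := mul_pos k0 h.φ0
  have h3 : (-1 : ℝ) < n := by
    by_contra hcon
    have hcon' := not_lt.1 hcon
    have : (n : ℝ) * (2 * Real.pi) ≤ -1 * (2 * Real.pi) :=
      mul_le_mul_of_nonneg_right hcon' (by positivity)
    linarith
  have h4 : (n : ℝ) < 1 := by
    by_contra hcon
    have hcon' := not_lt.1 hcon
    have : 1 * (2 * Real.pi) ≤ (n : ℝ) * (2 * Real.pi) :=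
      mul_le_mul_of_nonneg_right hcon' (by positivity)
    linarith
  have h5 : n = 0 := by
    have h3' : (-1 : ℤ) < n := by exact_mod_cast h3
    have h4' : n < 1 := by exact_mod_cast h4
    omega
  rw [h5] at hn
  have h6 : k * η = k * ((φ - Real.pi / k) / 2) := by
    have : k * ((φ - Real.pi / k) / 2) = (k * φ - Real.pi) / 2 := by field_simp
    rw [this]
    push_cast at hn
    linarith
  exact mul_left_cancel₀ k0.ne' h6

/-- `cos A ≤ 2^(1/k) c` on the sheet `F_1 < π` -/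
theorem cosA_le (h : FsD k A φ τ η T P S w c) (hF : k * φ < Real.pi) :
    Real.cos A ≤ (2 : ℝ) ^ (1 / k) * c := by
  have hpi := Real.pi_pos
  have k0 := h.k0
  have hη := h.η_eq hF
  have h4 := abs_lt.1 h.η4
  have hη0 : η < 0 := by
    have e1 : φ < Real.pi / k := by
      rw [lt_div_iff₀ k0]
      linarith
    linarith
  have hcη : 0 < Real.cos η := Real.cos_pos_of_mem_Ioo ⟨by linarith, by linarith⟩
  have hckη := h.cη
  have hsη : Real.sin η < 0 := Real.sin_neg_of_neg_of_neg_pi_lt hη0 (by linarith)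
  have h1 : Real.cos A * Real.cos η ≤ Real.cos (A + η) := by
    rw [Real.cos_add]
    have := mul_neg_of_pos_of_neg h.sinA hsη
    linarith
  have h2 := cos_rpow_le (by linarith [h.hk]) h.η2
  have h3 : 0 < Real.cos (k * η) ^ (1 / k) := Real.rpow_pos_of_pos hckη _
  have e3 : (2 : ℝ) ^ (1 / k) * c = Real.cos (A + η) / Real.cos (k * η) ^ (1 / k) := by
    rw [h.c_eq, Real.rpow_neg (by positivity), Real.mul_rpow (by norm_num) hckη.le]
    have h4 : 0 < (2 : ℝ) ^ (1 / k) := Real.rpow_pos_of_pos (by norm_num) _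
    field_simp
  rw [e3, le_div_iff₀ h3]
  exact (mul_le_mul_of_nonneg_left h2 h.cosA.le).trans h1

theorem M_ge (h : FsD k A φ τ η T P S w c) (hF : k * φ < Real.pi) :
    2 * Real.cos A ≤ (2 : ℝ) ^ (1 + 1 / k) * c := by
  rw [Real.rpow_add (by norm_num), Real.rpow_one, mul_assoc]
  have := h.cosA_le hF
  linarith

/-- `s ≤ 2^(1+1/k)` -/
theorem s_le (h : FsD k A φ τ η T P S w c) (hs : Sh k A φ τ φ2) (hk9 : k ≤ 9) :
    (T + 1) * Real.sin (φ - τ) ≤ (2 : ℝ) ^ (1 + 1 / k) := by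
  have hpi := Real.pi_pos
  have k0 := h.k0
  obtain ⟨b1, b2, b3, b4⟩ := h.β_mem hs
  have hkpi : 0 < Real.pi / k := div_pos hpi h.k0
  have hT := h.T_le
  have hT0 := h.T0
  have h1 : Real.sin (φ - τ) ≤ Real.cos (Real.pi / k) := by
    rw [← Real.sin_pi_div_two_sub]
    apply Real.sin_le_sin_of_le_of_le_pi_div_two <;> linarith
  have h2 := kap_cos h.hk hk9
  have hcos0 : 0 < Real.cos (Real.pi / k) := lt_of_lt_of_le b3 h1
  -- `((T+1) sin β)^2 ≤ 4 (1 + 1/k) ≤ (2^(1+1/k))^2`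
  have h3 : ((T + 1) * Real.sin (φ - τ)) ^ 2 ≤ 4 * (1 + 1 / k) := by
    have e1 : (T + 1) * Real.sin (φ - τ) ≤ (2 + 2 / k) * Real.cos (Real.pi / k) :=
      mul_le_mul (by linarith) h1 b3.le (by positivity)
    have e2 : ((T + 1) * Real.sin (φ - τ)) ^ 2 ≤ ((2 + 2 / k) * Real.cos (Real.pi / k)) ^ 2 :=
      pow_le_pow_left₀ (by positivity) e1 2
    have e3 : ((2 + 2 / k) * Real.cos (Real.pi / k)) ^ 2 =
        (2 + 2 / k) * ((2 + 2 / k) * Real.cos (Real.pi / k) ^ 2) := by ring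
    have e4 : (2 + 2 / k) * ((2 + 2 / k) * Real.cos (Real.pi / k) ^ 2) ≤ (2 + 2 / k) * 2 :=
      mul_le_mul_of_nonneg_left h2 (by positivity)
    have e5 : (2 + 2 / k) * 2 = 4 * (1 + 1 / k) := by ring
    linarith
  have h4 : 4 * (1 + 1 / k) ≤ ((2 : ℝ) ^ (1 + 1 / k)) ^ 2 := by
    have e1 : ((2 : ℝ) ^ (1 + 1 / k)) ^ 2 = 4 * (4 : ℝ) ^ (1 / k) := by
      rw [← Real.rpow_natCast, ← Real.rpow_mul (by norm_num)]
      have e2 : (1 + 1 / k) * ((2 : ℕ) : ℝ) = 2 + 2 * (1 / k) := by push_cast; ring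
      rw [e2, Real.rpow_add (by norm_num), Real.rpow_mul (by norm_num)]
      norm_num
    rw [e1]
    have e3 : 1 + 1 / k ≤ (4 : ℝ) ^ (1 / k) := by
      have e4 : (4 : ℝ) ^ (1 / k) = Real.exp (1 / k * Real.log 4) := by
        rw [Real.rpow_def_of_pos (by norm_num)]
        congr 1
        ring
      have e5 : 1 ≤ Real.log 4 := by
        have : Real.log 4 = 2 * Real.log 2 := by
          rw [show (4 : ℝ) = 2 ^ 2 by norm_num, Real.log_pow]; norm_num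
        linarith [Real.log_two_gt_d9]
      rw [e4]
      have e6 := Real.add_one_le_exp (1 / k * Real.log 4)
      have e7 : 0 < 1 / k := by positivity
      have e8 : 1 / k * 1 ≤ 1 / k * Real.log 4 := mul_le_mul_of_nonneg_left e5 e7.le
      linarith
    linarith
  have h5 : 0 < (2 : ℝ) ^ (1 + 1 / k) := Real.rpow_pos_of_pos (by norm_num) _
  exact le_of_sq_le_sq (h3.trans h4) h5.le

end FsD

section St

variable {k C : ℝ} {q0 q1 q2 q3 d0 d1 d2 X1 X2 X3 : ℂ}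

theorem St.d2_im (h : St k C q0 q1 q2 q3 d0 d1 d2 X1 X2 X3) :
    -(Real.pi / 2) < d2.im ∧ d2.im < Real.pi / 4 := by
  have hpi := Real.pi_pos
  have k0 := h.k0
  have hk := h.hk
  have b1 : |(X3 - d2).im| < Real.pi / 4 := by
    have := h.p3
    rw [abs_mul, abs_of_pos k0] at this
    nlinarith [abs_nonneg (X3 - d2).im]
  have b2 := abs_lt.1 b1
  have hc := cos_pos_of_re h.D2
  have e1 : d2.im = X3.im - (X3 - d2).im := by
    rw [sub_im]
    ring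
  constructor
  · by_contra hcon
    push Not at hcon
    have h2 := Real.cos_nonpos_of_pi_div_two_le_of_le (x := -d2.im) (by linarith)
      (by linarith [h.a3.1])
    rw [Real.cos_neg] at h2
    linarith
  · linarith [h.a3.2]

/-- `1 ≤ 2 c` -/
theorem St.pl_c (h : St k C q0 q1 q2 q3 d0 d1 d2 X1 X2 X3)
    (hh : X1.im < -(Real.pi / 4) → (pv k C X1 d1).re < 1 / 2)
    (he : ‖1 - pv k C X1 d0‖ = 1) (hF : 0 < (X1 - d1).im) (hF1 : k * (X1 - d1).im < Real.pi)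
    (hτ : 0 ≤ (X2 - d1).im) (h2 : ‖1 - pv k C X2 d1‖ < 1) :
    1 ≤ 2 * ((exp d0).re / Real.exp d1.re) := by
  have hpi := Real.pi_pos
  have k0 := h.k0
  have hf := h.fsD hh he h2 hF
  have hx := pl_x h.hk (by linarith [h.a1.2]) (by linarith [h.a1.1]) (mul_pos k0 hF) hF1
    h.psi_lt (fun hA => h.pl_S hh he hF hF1 hτ h2 hA)
  have h1 := hf.c_eq
  have h3 := hf.η_eq hF1
  rw [h1, h3]
  have e1 : k * (((X1 - d1).im - Real.pi / k) / 2) = k * (X1 - d1).im / 2 - Real.pi / 2 := by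
    field_simp
  have e2 : -X1.im + ((X1 - d1).im - Real.pi / k) / 2 =
      -X1.im - (Real.pi - k * (X1 - d1).im) / (2 * k) := by
    field_simp
    ring
  rw [e1, Real.cos_sub_pi_div_two, e2]
  linarith

/-- polar data of `p_{-2}` and `f_{-2} = 1 - p_{-2}` -/
theorem St.polar2 (h : St k C q0 q1 q2 q3 d0 d1 d2 X1 X2 X3)
    (he : ‖1 - pv k C X1 d0‖ = 1) :
    0 < ‖pv k C X2 d1‖ ∧ 0 < ‖pv k C X2 d2‖ ∧
      ‖pv k C X2 d1‖ * Real.cos (k * (X2 - d1).im) =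
        1 - ‖pv k C X2 d2‖ * Real.cos (k * (X2 - d2).im) ∧
      ‖pv k C X2 d1‖ * Real.sin (k * (X2 - d1).im) =
        -(‖pv k C X2 d2‖ * Real.sin (k * (X2 - d2).im)) ∧
      Real.exp (2 * (X2 - X1).re) = ‖pv k C X2 d1‖ ^ (2 * (1 / k)) ∧
      Real.exp (d1 - d2).re = (‖pv k C X2 d2‖ / ‖pv k C X2 d1‖) ^ (1 / k) := by
  have hC := h.C0
  have k0 := h.k0
  have p0 : 0 < ‖pv k C X2 d1‖ := norm_pos_iff.2 (pv_ne hC)
  have r0 : 0 < ‖pv k C X2 d2‖ := norm_pos_iff.2 (pv_ne hC)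
  have h1 := h.f2_eq
  have hr := congrArg Complex.re h1
  have hi := congrArg Complex.im h1
  rw [sub_re 1 (pv k C X2 d1), one_re, pv_re, pv_re, ← norm_pv hC, ← norm_pv hC] at hr
  rw [sub_im 1 (pv k C X2 d1), one_im, pv_im, pv_im, ← norm_pv hC, ← norm_pv hC] at hi
  refine ⟨p0, r0, by linarith, by linarith, ?_, ?_⟩
  · rw [← (h.disc_t he).1]
    congr 1
    ring
  · rw [norm_pv hC, norm_pv hC, div_div_div_cancel_right₀ hC.ne', ← Real.exp_sub,
      ← Real.exp_mul]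
    congr 1
    simp only [sub_re]
    field_simp
    ring

theorem sh_half {ρ θ t y : ℝ} (hρ1 : ρ ≤ 1) (hθ0 : 0 ≤ θ)
    (hy1 : y < Real.pi / 2) (ht : 0 < t)
    (hc : t * Real.cos y = 1 + ρ * Real.cos θ) (hs : t * Real.sin y = ρ * Real.sin θ) :
    2 * y ≤ θ := by
  have hpi := Real.pi_pos
  by_contra hcon
  have hcon' := not_le.1 hcon
  have hθ1 : θ < Real.pi := by linarith
  have h1 : 0 < Real.sin (y - θ / 2) :=
    Real.sin_pos_of_pos_of_lt_pi (by linarith) (by linarith)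
  have e1 : t * Real.sin (y - θ / 2) = -((1 - ρ) * Real.sin (θ / 2)) := by
    have e2 : Real.sin (θ / 2) = Real.sin (θ - θ / 2) := by congr 1; ring
    have e3 : Real.sin (θ - θ / 2) = Real.sin θ * Real.cos (θ / 2) -
        Real.cos θ * Real.sin (θ / 2) := Real.sin_sub _ _
    rw [Real.sin_sub]
    linear_combination Real.cos (θ / 2) * hs - Real.sin (θ / 2) * hc - ρ * e2 - ρ * e3
  have h2 : 0 ≤ Real.sin (θ / 2) :=
    Real.sin_nonneg_of_nonneg_of_le_pi (by linarith) (by linarith)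
  have h3 : 0 ≤ (1 - ρ) * Real.sin (θ / 2) := mul_nonneg (by linarith) h2
  have h4 : 0 < t * Real.sin (y - θ / 2) := by positivity
  linarith

/-- `NP` in the variables of the closed inequalities -/
theorem NP_eq {κ ρ t T P φ τ φ2 x : ℝ} (hρ : 0 < ρ) (ht : 0 < t) (hT : T = t ^ (2 * κ)) :
    NP ((ρ / t) ^ κ) T P φ τ φ2 x =
      (ρ * t) ^ κ * Real.sin (2 * φ2 - x) + (T - 1) * Real.sin (φ2 + τ - x) -
        2 * Real.sin (φ - τ) * Real.cos (φ2 + τ - x + (φ - τ)) -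
        P * ((t / ρ) ^ κ * Real.sin x - Real.sin (φ2 - τ - x)) := by
  have t1 : 0 < t ^ κ := Real.rpow_pos_of_pos ht κ
  have r1 : 0 < ρ ^ κ := Real.rpow_pos_of_pos hρ κ
  have a1 : (ρ / t) ^ κ * T = (ρ * t) ^ κ := by
    rw [hT, Real.div_rpow hρ.le ht.le, Real.mul_rpow hρ.le ht.le, two_mul, Real.rpow_add ht]
    field_simp
  have a2 : P / (ρ / t) ^ κ = P * (t / ρ) ^ κ := by
    rw [Real.div_rpow hρ.le ht.le, Real.div_rpow ht.le hρ.le]
    field_simp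
  have e1 : Real.sin (φ2 - τ + 2 * φ - x) =
      Real.sin (φ2 + τ - x + (φ - τ)) * Real.cos (φ - τ) +
        Real.cos (φ2 + τ - x + (φ - τ)) * Real.sin (φ - τ) := by
    rw [← Real.sin_add]
    congr 1
    ring
  have e2 : Real.sin (φ2 + τ - x) =
      Real.sin (φ2 + τ - x + (φ - τ)) * Real.cos (φ - τ) -
        Real.cos (φ2 + τ - x + (φ - τ)) * Real.sin (φ - τ) := by
    rw [← Real.sin_sub]
    congr 1
    ring
  unfold NP
  rw [a1, a2]
  linear_combination -e1 + e2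

/-- the data of the closed inequalities for a sheet `F_2 ≥ π` -/
structure ShDat (κ F ρ t y T s P β M : ℝ) : Prop where
  κF : κ * F < Real.pi / 2
  ρ0 : 0 < ρ
  ρ1 : ρ ≤ 1
  y0 : 0 ≤ y
  y1 : y < Real.pi / 2
  yF : Real.pi + 2 * y ≤ F
  t0 : 0 < t
  tc : t * Real.cos y = 1 - ρ * Real.cos F
  ts : t * Real.sin y = -(ρ * Real.sin F)
  ty : Real.cos y ≤ t
  Tt : T = t ^ (2 * κ)
  β0 : 0 ≤ β
  β1 : β ≤ Real.pi / 2 - κ * Real.pi
  sd : s = (T + 1) * Real.sin β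
  s2 : s ^ 2 ≤ M * (max (T - 1) 0 + s * Real.sin (κ * y))
  P0 : 0 ≤ P
  P1 : P * (1 + Real.sin (κ * Real.pi)) ≤ max (T - 1) 0 + s * Real.sin (κ * y)
  P2 : P ≤ ρ ^ (2 * κ)
  T1 : (1 - T) * Real.sin (κ * Real.pi) ≤ M / 2 * (1 - Real.cos (κ * y))

/-- `π + 2 y ≤ F_2` -/
theorem St.sh_yF (h : St k C q0 q1 q2 q3 d0 d1 d2 X1 X2 X3) (hk8 : k ≤ 8)
    (he : ‖1 - pv k C X1 d0‖ = 1) (h2 : ‖1 - pv k C X2 d1‖ < 1) (hF : 0 < (X1 - d1).im)
    (hF1 : k * (X1 - d1).im < Real.pi)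
    (hτ : 0 ≤ (X2 - d1).im) (hF2 : Real.pi ≤ k * (X2 - d2).im) :
    Real.pi + 2 * (k * (X2 - d1).im) ≤ k * (X2 - d2).im := by
  have hpi := Real.pi_pos
  have k0 := h.k0
  obtain ⟨t0, ρ0, tc, ts, _, _⟩ := h.polar2 he
  have hy := abs_lt.1 h.p2
  have hty := h.pl_t he hF hF1 hτ
  have hρ1 : ‖pv k C X2 d2‖ ≤ 1 := by rw [h.f2_eq]; exact h2.le
  rcases lt_or_ge (k * (X2 - d2).im) (2 * Real.pi) with h3 | h3
  · have e1 : Real.cos (k * (X2 - d2).im - Real.pi) = -Real.cos (k * (X2 - d2).im) :=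
      Real.cos_sub_pi _
    have e2 : Real.sin (k * (X2 - d2).im - Real.pi) = -Real.sin (k * (X2 - d2).im) :=
      Real.sin_sub_pi _
    have := sh_half (ρ := ‖pv k C X2 d2‖) (θ := k * (X2 - d2).im - Real.pi)
      (t := ‖pv k C X2 d1‖) (y := k * (X2 - d1).im) hρ1 (by linarith) (by linarith) t0
      (by rw [e1]; linarith) (by rw [e2]; linarith)
    linarith
  · have hd := h.d2_im
    have hF4 : k * (X2 - d2).im < 4 * Real.pi := by
      have e1 : (X2 - d2).im < Real.pi / 2 := by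
        rw [sub_im]; linarith [h.a2.2]
      have e2 : k * (X2 - d2).im < k * (Real.pi / 2) := mul_lt_mul_of_pos_left e1 k0
      have e3 : k * (Real.pi / 2) ≤ 8 * (Real.pi / 2) :=
        mul_le_mul_of_nonneg_right hk8 (by linarith)
      linarith
    have := (shC_geo h3 hF4 ρ0 hρ1 (mul_nonneg k0.le hτ) hy.2 t0 tc ts hty).2.1
    linarith

theorem St.sh_Sh (h : St k C q0 q1 q2 q3 d0 d1 d2 X1 X2 X3) (hk8 : k ≤ 8)
    (he : ‖1 - pv k C X1 d0‖ = 1) (h2 : ‖1 - pv k C X2 d1‖ < 1) (hF : 0 < (X1 - d1).im)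
    (hF1 : k * (X1 - d1).im < Real.pi)
    (hτ : 0 ≤ (X2 - d1).im) (hF2 : Real.pi ≤ k * (X2 - d2).im) :
    FsD.Sh k (-X1.im) (X1 - d1).im (X2 - d1).im (X2 - d2).im := by
  have k0 := h.k0
  refine ⟨hτ, ?_, ?_⟩
  · have := h.d2_im.1
    simp only [sub_im]
    linarith
  · have h1 := h.sh_yF hk8 he h2 hF hF1 hτ hF2
    have h3 : Real.pi / k + 2 * (X2 - d1).im = (Real.pi + 2 * (k * (X2 - d1).im)) / k := by
      field_simp
    rw [h3, div_le_iff₀ k0]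
    linarith

/-- the data for a general constant `M` -/
theorem St.sh_dat (h : St k C q0 q1 q2 q3 d0 d1 d2 X1 X2 X3) (hk8 : k ≤ 8)
    (hh : X1.im < -(Real.pi / 4) → (pv k C X1 d1).re < 1 / 2)
    (he : ‖1 - pv k C X1 d0‖ = 1) (h2 : ‖1 - pv k C X2 d1‖ < 1) (hF : 0 < (X1 - d1).im)
    (hF1 : k * (X1 - d1).im < Real.pi)
    (hτ : 0 ≤ (X2 - d1).im) (hF2 : Real.pi ≤ k * (X2 - d2).im) {M : ℝ}
    (hM : 2 * Real.cos (-X1.im) ≤ M * ((exp d0).re / Real.exp d1.re))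
    (hsM : (Real.exp (2 * (X2 - X1).re) + 1) * Real.sin ((X1 - d1).im - (X2 - d1).im) ≤ M) :
    ShDat (1 / k) (k * (X2 - d2).im) ‖pv k C X2 d2‖ ‖pv k C X2 d1‖ (k * (X2 - d1).im)
      (Real.exp (2 * (X2 - X1).re))
      ((Real.exp (2 * (X2 - X1).re) + 1) * Real.sin ((X1 - d1).im - (X2 - d1).im))
      (Real.exp (2 * (d1 - X1).re)) ((X1 - d1).im - (X2 - d1).im) M := by
  have hpi := Real.pi_pos
  have k0 := h.k0
  have hf := h.fsD hh he h2 hF
  have hs := h.sh_Sh hk8 he h2 hF hF1 hτ hF2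
  obtain ⟨t0, ρ0, tc, ts, eT, _⟩ := h.polar2 he
  have hy := abs_lt.1 h.p2
  have hty := h.pl_t he hF hF1 hτ
  have hρ1 : ‖pv k C X2 d2‖ ≤ 1 := by rw [h.f2_eq]; exact h2.le
  have hc := h.pl_c hh he hF hF1 hτ h2
  obtain ⟨b1, b2, b3, b4⟩ := hf.β_mem hs
  have e1 : 1 / k * (k * (X2 - d1).im) = (X2 - d1).im := by field_simp
  have e2 : 1 / k * (k * (X2 - d2).im) = (X2 - d2).im := by field_simp
  have e3 : 1 / k * Real.pi = Real.pi / k := by ring
  have hden := hf.den_ge hs hc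
  refine ⟨?_, ρ0, hρ1, mul_nonneg k0.le hτ, hy.2, h.sh_yF hk8 he h2 hF hF1 hτ hF2, t0, tc, ts,
    hty, eT, b1.le, by rw [e3]; exact b2.le, rfl, ?_, (Real.exp_pos _).le, ?_, ?_, ?_⟩
  · rw [e2]
    have := h.d2_im.1
    rw [sub_im]
    linarith [h.a2.2]
  · rw [e1]
    rcases le_or_gt (X2 - d1).im (-X1.im) with h4 | h4
    · exact hf.s_sq_pos hs (by linarith) hM h4
    · exact hf.s_sq_neg hs hc hM h4 hsM
  · rw [e1, e3]
    have := mul_le_mul_of_nonneg_left hden hf.P0.le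
    exact this.trans (hf.P_bd hs)
  · have h4 := h.pl_P2 hh he hF hF1 hτ h2
    have h5 : Real.exp (2 * (d1 - X1).re) = Real.exp (2 * (d2 - X2).re) *
        ‖pv k C X2 d2‖ ^ (2 * (1 / k)) := by
      rw [norm_pv h.C0, ← h.disc_re he, ← Real.exp_sub, ← Real.exp_mul, ← Real.exp_add]
      congr 1
      simp only [sub_re]
      field_simp
      ring
    rw [h5]
    have h6 : 0 < ‖pv k C X2 d2‖ ^ (2 * (1 / k)) := Real.rpow_pos_of_pos ρ0 _
    calc Real.exp (2 * (d2 - X2).re) * ‖pv k C X2 d2‖ ^ (2 * (1 / k)) ≤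
          1 * ‖pv k C X2 d2‖ ^ (2 * (1 / k)) := mul_le_mul_of_nonneg_right h4 h6.le
      _ = _ := one_mul _
  · rw [e1, e3]
    exact hf.T_ge hs hM

/-- the data with `M = 2^(1+1/k)` -/
theorem St.sh_dat2 (h : St k C q0 q1 q2 q3 d0 d1 d2 X1 X2 X3) (hk8 : k ≤ 8)
    (hh : X1.im < -(Real.pi / 4) → (pv k C X1 d1).re < 1 / 2)
    (he : ‖1 - pv k C X1 d0‖ = 1) (h2 : ‖1 - pv k C X2 d1‖ < 1) (hF : 0 < (X1 - d1).im)
    (hF1 : k * (X1 - d1).im < Real.pi)
    (hτ : 0 ≤ (X2 - d1).im) (hF2 : Real.pi ≤ k * (X2 - d2).im) :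
    ShDat (1 / k) (k * (X2 - d2).im) ‖pv k C X2 d2‖ ‖pv k C X2 d1‖ (k * (X2 - d1).im)
      (Real.exp (2 * (X2 - X1).re))
      ((Real.exp (2 * (X2 - X1).re) + 1) * Real.sin ((X1 - d1).im - (X2 - d1).im))
      (Real.exp (2 * (d1 - X1).re)) ((X1 - d1).im - (X2 - d1).im) ((2 : ℝ) ^ (1 + 1 / k)) := by
  have hf := h.fsD hh he h2 hF
  have hs := h.sh_Sh hk8 he h2 hF hF1 hτ hF2
  exact h.sh_dat hk8 hh he h2 hF hF1 hτ hF2 (hf.M_ge hF1) (hf.s_le hs (by linarith))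

/-- sheets `F_2 ≥ 2 π` are empty in case PL -/
theorem St.sh_two (h : St k C q0 q1 q2 q3 d0 d1 d2 X1 X2 X3) (hk8 : k ≤ 8)
    (hh : X1.im < -(Real.pi / 4) → (pv k C X1 d1).re < 1 / 2)
    (he : ‖1 - pv k C X1 d0‖ = 1) (h2 : ‖1 - pv k C X2 d1‖ < 1) (hF : 0 < (X1 - d1).im)
    (hF1 : k * (X1 - d1).im < Real.pi)
    (hτ : 0 ≤ (X2 - d1).im) : k * (X2 - d2).im < 2 * Real.pi := by
  have hpi := Real.pi_pos
  have k0 := h.k0
  by_contra hcon
  have hcon' := not_lt.1 hcon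
  have hd := h.sh_dat2 hk8 hh he h2 hF hF1 hτ (by linarith)
  obtain ⟨t0, ρ0, tc, ts, eT, ea⟩ := h.polar2 he
  have hκ : 1 / 8 ≤ 1 / k := one_div_le_one_div_of_le k0 hk8
  have hsk : 0 < Real.sin (1 / k * Real.pi) := by
    have h1 : 1 / k * Real.pi < Real.pi / 2 := by
      have := h.hk
      rw [div_mul_eq_mul_div, one_mul]
      exact div_lt_div_of_pos_left hpi (by norm_num) this
    exact Real.sin_pos_of_pos_of_lt_pi (by positivity) (by linarith)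
  have h3 := shC hκ hcon' hd.κF hd.ρ0 hd.ρ1 hd.y0 hd.y1 hd.t0 hd.tc hd.ts hd.ty hd.Tt hd.β0
    hd.β1 hd.sd hd.s2 hd.P0 hd.P1 (by
      rw [le_div_iff₀ hsk]
      have := hd.T1
      rw [Real.rpow_add (by norm_num), Real.rpow_one] at this
      linarith)
  have e1 : (X2 - d1).im = 1 / k * (k * (X2 - d1).im) := by field_simp
  have e2 : (X2 - d2).im = 1 / k * (k * (X2 - d2).im) := by field_simp
  have h4 := h.NP_le (x := Real.pi / k) (by positivity) le_rfl (by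
    rw [ea, NP_eq ρ0 t0 eT]
    have a1 : 2 * (X2 - d2).im - Real.pi / k =
        1 / k * (2 * (k * (X2 - d2).im) - Real.pi) := by field_simp
    have a2 : (X2 - d2).im + (X2 - d1).im - Real.pi / k =
        1 / k * (k * (X2 - d2).im - Real.pi) + 1 / k * (k * (X2 - d1).im) := by field_simp; ring
    have a3 : (X2 - d2).im - (X2 - d1).im - Real.pi / k =
        1 / k * (k * (X2 - d2).im - Real.pi) - 1 / k * (k * (X2 - d1).im) := by field_simp; ring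
    have a4 : Real.pi / k = 1 / k * Real.pi := by ring
    rw [a1, a2, a3, a4]
    linarith)
  have h5 := h.p3
  rw [abs_mul, abs_of_pos k0] at h5
  have h6 : (X3 - d2).im ≤ |(X3 - d2).im| := le_abs_self _
  have h7 : k * (X3 - d2).im ≤ k * |(X3 - d2).im| := mul_le_mul_of_nonneg_left h6 k0.le
  have h8 : Real.pi ≤ k * (2 * (X3 - d2).im) := by
    have := mul_le_mul_of_nonneg_left h4 k0.le
    rwa [mul_div_cancel₀ _ k0.ne'] at this
  linarith

/-- the conclusion of the closed inequality (H), `F_2 = π + θ` -/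
def ShCon (κ θ ρ t y T P β : ℝ) : Prop :=
  2 * Real.sin β * Real.cos (κ * (Real.pi / 2 + θ) + β) +
      P * ((t / ρ) ^ κ * Real.sin (κ * (Real.pi / 2 + y)) -
        Real.sin (κ * (Real.pi / 2 + θ - 2 * y))) ≤
    (ρ * t) ^ κ * Real.sin (κ * (3 * Real.pi / 2 + 2 * θ - y)) +
      (T - 1) * Real.sin (κ * (Real.pi / 2 + θ))

/-- the sheet `π ≤ F_2 < 2 π`: `arg p_{-3} ≥ π/4 + (1/2) arg p_{-2}` from the closed inequality -/
theorem St.sh_one (h : St k C q0 q1 q2 q3 d0 d1 d2 X1 X2 X3)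
    (he : ‖1 - pv k C X1 d0‖ = 1) (hy : k * (X2 - d1).im ≤ Real.pi / 2)
    (hτ : 0 ≤ (X2 - d1).im)
    (hN : ShCon (1 / k) (k * (X2 - d2).im - Real.pi) ‖pv k C X2 d2‖ ‖pv k C X2 d1‖
      (k * (X2 - d1).im) (Real.exp (2 * (X2 - X1).re)) (Real.exp (2 * (d1 - X1).re))
      ((X1 - d1).im - (X2 - d1).im)) :
    Real.pi / 4 + k * (X2 - d1).im / 2 ≤ k * (X3 - d2).im := by
  have hpi := Real.pi_pos
  have k0 := h.k0
  obtain ⟨t0, ρ0, tc, ts, eT, ea⟩ := h.polar2 he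
  have h4 := h.NP_le (x := 1 / k * (Real.pi / 2 + k * (X2 - d1).im))
    (mul_nonneg (by positivity) (by
      have := mul_nonneg k0.le hτ
      linarith)) (by
      rw [div_mul_eq_mul_div, one_mul]
      exact div_le_div_of_nonneg_right (by linarith) k0.le) (by
    rw [ea, NP_eq ρ0 t0 eT]
    have a1 : 2 * (X2 - d2).im - 1 / k * (Real.pi / 2 + k * (X2 - d1).im) =
        1 / k * (3 * Real.pi / 2 + 2 * (k * (X2 - d2).im - Real.pi) - k * (X2 - d1).im) := by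
      field_simp; ring
    have a2 : (X2 - d2).im + (X2 - d1).im - 1 / k * (Real.pi / 2 + k * (X2 - d1).im) =
        1 / k * (Real.pi / 2 + (k * (X2 - d2).im - Real.pi)) := by field_simp; ring
    have a3 : (X2 - d2).im - (X2 - d1).im - 1 / k * (Real.pi / 2 + k * (X2 - d1).im) =
        1 / k * (Real.pi / 2 + (k * (X2 - d2).im - Real.pi) - 2 * (k * (X2 - d1).im)) := by
      field_simp; ring
    rw [a1, a2, a3]
    unfold ShCon at hN
    linarith)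
  have h8 : Real.pi / 2 + k * (X2 - d1).im ≤ k * (2 * (X3 - d2).im) := by
    have := mul_le_mul_of_nonneg_left h4 k0.le
    have e1 : k * (1 / k * (Real.pi / 2 + k * (X2 - d1).im)) =
        Real.pi / 2 + k * (X2 - d1).im := by field_simp
    rwa [e1] at this
  linarith

/-- the sheet `π ≤ F_2 < 2 π` of case PL from the closed inequality -/
theorem St.sh_end (h : St k C q0 q1 q2 q3 d0 d1 d2 X1 X2 X3)
    (hh : X1.im < -(Real.pi / 4) → (pv k C X1 d1).re < 1 / 2)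
    (he : ‖1 - pv k C X1 d0‖ = 1) (h2 : ‖1 - pv k C X2 d1‖ < 1)
    (h3 : ‖1 - pv k C X3 d2‖ < 1)
    (hF : 0 < (X1 - d1).im) (hF1 : k * (X1 - d1).im < Real.pi) (hτ : 0 ≤ (X2 - d1).im)
    (hN : ShCon (1 / k) (k * (X2 - d2).im - Real.pi) ‖pv k C X2 d2‖ ‖pv k C X2 d1‖
      (k * (X2 - d1).im) (Real.exp (2 * (X2 - X1).re)) (Real.exp (2 * (d1 - X1).re))
      ((X1 - d1).im - (X2 - d1).im)) :
    ‖exp d1‖ ^ 2 * ((1 - ‖1 - pv k C X2 d1‖ ^ 2) * (1 - ‖1 - pv k C X3 d2‖ ^ 2)) <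
      4 * ‖pv k C X2 d1 - pv k C X3 d2‖ ^ 2 * ((exp d0).re * (exp d0 + exp d1).re) :=
  h.pl_end2 h2 h3 hτ (h.pl_t he hF hF1 hτ)
    (h.sh_one he (abs_lt.1 h.p2).2.le hτ hN) (h.pl_R hh he hF hF1 hτ h2)

/-- the closed inequality (H) for one `κ`, with the constant `M` -/
def ShH (κ : ℝ) : Prop :=
  ∀ θ ρ t y T s P β : ℝ, ShDat κ (Real.pi + θ) ρ t y T s P β (2 ^ (1 + κ)) → θ < Real.pi →
    ShCon κ θ ρ t y T P β

/-- sheets `F_2 ≥ π` are empty in case PL for `k ≤ 5/2` -/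
theorem St.sh_small (h : St k C q0 q1 q2 q3 d0 d1 d2 X1 X2 X3) (hk5 : k ≤ 5 / 2)
    (hh : X1.im < -(Real.pi / 4) → (pv k C X1 d1).re < 1 / 2)
    (he : ‖1 - pv k C X1 d0‖ = 1) (h2 : ‖1 - pv k C X2 d1‖ < 1) (hF : 0 < (X1 - d1).im)
    (hF1 : k * (X1 - d1).im < Real.pi)
    (hτ : 0 ≤ (X2 - d1).im) : k * (X2 - d2).im < Real.pi := by
  have hpi := Real.pi_pos
  have k0 := h.k0
  by_contra hcon
  have hcon' := not_lt.1 hcon
  have hf := h.fsD hh he h2 hF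
  have hs := h.sh_Sh (by linarith) he h2 hF hF1 hτ hcon'
  obtain ⟨t0, ρ0, tc, ts, eT, ea⟩ := h.polar2 he
  have hρ1 : ‖pv k C X2 d2‖ ≤ 1 := by rw [h.f2_eq]; exact h2.le
  have e0 : (Real.pi + (k * (X2 - d2).im - Real.pi)) / k = (X2 - d2).im := by field_simp; ring
  have h3 := hf.shA hk5 (ρ := ‖pv k C X2 d2‖) (t := ‖pv k C X2 d1‖)
    (ϑ := k * (X2 - d2).im - Real.pi) ρ0 hρ1 t0
    (by rw [eT]; congr 1; ring) (by linarith) hτ
    (by rw [Real.cos_sub_pi]; linarith) (by rw [Real.sin_sub_pi]; linarith)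
    (by rw [e0]; exact hs.a2)
  rw [e0, ← ea] at h3
  have h4 := h.NP_le (x := Real.pi / k) (by positivity) le_rfl h3
  have h5 := h.p3
  rw [abs_mul, abs_of_pos k0] at h5
  have h6 : (X3 - d2).im ≤ |(X3 - d2).im| := le_abs_self _
  have h7 : k * (X3 - d2).im ≤ k * |(X3 - d2).im| := mul_le_mul_of_nonneg_left h6 k0.le
  have h8 : Real.pi ≤ k * (2 * (X3 - d2).im) := by
    have := mul_le_mul_of_nonneg_left h4 k0.le
    rwa [mul_div_cancel₀ _ k0.ne'] at this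
  linarith

/-- case PL of `ExitDisc 8`, sheets `F_2 ≥ π`, from the closed inequality -/
theorem discPL2_of (hH : ∀ κ : ℝ, 1 / 8 ≤ κ → κ ≤ 2 / 5 → ShH κ) : DiscPL2 8 := by
  intro k C q0 q1 q2 q3 d0 d1 d2 X1 X2 X3 hk8 h hh he h2 h3 hF hτ hF1 h4
  have hpi := Real.pi_pos
  have k0 := h.k0
  rcases le_or_gt k (5 / 2) with h6 | h6
  · exact absurd (h.sh_small h6 hh he h2 hF hF1 hτ.le) (not_lt.2 h4)
  · have h5 := h.sh_two hk8 hh he h2 hF hF1 hτ.le
    refine h.sh_end hh he h2 h3 hF hF1 hτ.le ?_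
    have hd := h.sh_dat2 hk8 hh he h2 hF hF1 hτ.le h4
    refine hH (1 / k) (one_div_le_one_div_of_le k0 hk8) ?_ _ _ _ _ _ _ _ _ (by
      rw [add_sub_cancel]; exact hd) (by linarith)
    rw [div_le_div_iff₀ k0 (by norm_num)]
    linarith

end St

end EQS
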