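import Mathlib
import Pool.Agent.Lib.MP_226de1_co.E.PLK

/-! The closed inequality (H) for `1/8 ≤ κ ≤ 1/3` in the case `t < 1`. The triangle with the
vertices `0`, `1`, `t exp(iy)` has the angles `y`, `π - θ`, `θ - y`; `t < 1` gives
`π ≤ 2θ - y`, and `cos y ≤ t` gives `θ - y ≤ π/2`. The constraint on `T` gives
`1 - T ≤ .2461 κ y²`, `y² ≤ 1.31`, `t ≥ .838`, so `w = (ρt)^κ` satisfies `w³ ≥ .65 y`. -/

set_option autoImplicit false

namespace EQS

open Real

private theorem shT_geo {θ ρ t y : ℝ} (ρ0 : 0 < ρ) (ρ1 : ρ ≤ 1) (y0 : 0 ≤ y) (y1 : y < π / 2)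
    (t0 : 0 < t) (tc : t * cos y = 1 + ρ * cos θ) (ts : t * sin y = ρ * sin θ)
    (ty : cos y ≤ t) (h0 : 2 * y ≤ θ) (hθ : θ < π) (ht : t < 1) :
    0 < y ∧ π / 2 ≤ θ ∧ θ - y ≤ π / 2 ∧ π ≤ 2 * θ - y ∧ t ≤ 2 * cos y ∧ sin y ≤ ρ := by
  have hpi := pi_pos
  have s1 := sin_sq_add_cos_sq y
  have s2 := sin_sq_add_cos_sq θ
  have law : ρ ^ 2 = 1 + t ^ 2 - 2 * t * cos y := by
    have e1 : (t * cos y - 1) ^ 2 + (t * sin y) ^ 2 = ρ ^ 2 := by
      rw [ts, tc]
      linear_combination ρ ^ 2 * s2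
    linear_combination -e1 + t ^ 2 * s1
  have law2 : t ^ 2 = 1 + 2 * ρ * cos θ + ρ ^ 2 := by
    have e1 : (t * cos y) ^ 2 + (t * sin y) ^ 2 = t ^ 2 := by
      linear_combination t ^ 2 * s1
    rw [ts, tc] at e1
    linear_combination -e1 + ρ ^ 2 * s2
  have htt : t ^ 2 < 1 := by
    have := mul_lt_mul_of_pos_left ht t0
    linarith [sq t]
  have hc : cos θ < 0 := by
    by_contra hcon
    have h1 := mul_nonneg ρ0.le (not_lt.1 hcon)
    linarith [sq_nonneg ρ]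
  have hθ2 : π / 2 ≤ θ := by
    by_contra hcon
    have := cos_nonneg_of_neg_pi_div_two_le_of_le (x := θ) (by linarith) (not_le.1 hcon).le
    linarith
  have hs : 0 < sin θ := sin_pos_of_pos_of_lt_pi (by linarith) hθ
  have hy : 0 < y := by
    rcases y0.lt_or_eq with h | h
    · exact h
    · rw [← h, sin_zero, mul_zero] at ts
      have := mul_pos ρ0 hs
      linarith
  have hd : θ - y ≤ π / 2 := by
    by_contra hcon
    have h1 := cos_neg_of_pi_div_two_lt_of_lt (x := θ - y) (not_le.1 hcon) (by linarith)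
    have e1 : ρ * cos (θ - y) = t - cos y := by
      rw [cos_sub]
      linear_combination (-cos y) * tc - sin y * ts + t * s1
    have := mul_neg_of_pos_of_neg ρ0 h1
    linarith
  have h3 : 0 < sin (θ - y) := sin_pos_of_pos_of_lt_pi (by linarith) (by linarith)
  have e2 : sin θ = t * sin (θ - y) := by
    rw [sin_sub]
    linear_combination (-sin θ) * tc + cos θ * ts
  have hle : π ≤ 2 * θ - y := by
    by_contra hcon
    have h4 := sin_le_sin_of_le_of_le_pi_div_two (x := θ - y) (y := π - θ) (by linarith)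
      (by linarith) (by linarith)
    rw [sin_pi_sub] at h4
    have := mul_lt_mul_of_pos_right ht h3
    linarith
  have htc : t ≤ 2 * cos y := by
    have h5 : ρ ^ 2 ≤ 1 := by
      have := mul_le_mul ρ1 ρ1 ρ0.le zero_le_one
      linarith [sq ρ]
    have h6 : t * t ≤ t * (2 * cos y) := by linarith [sq t]
    exact le_of_mul_le_mul_left h6 t0
  have hsr : sin y ≤ ρ := by
    have h7 : sin y ^ 2 ≤ ρ ^ 2 := by
      have := sq_nonneg (t - cos y)
      have e3 : (t - cos y) ^ 2 = t ^ 2 - 2 * t * cos y + cos y ^ 2 := by ring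
      linarith
    exact le_of_sq_le_sq h7 ρ0.le
  exact ⟨hy, hθ2, hd, hle, htc, hsr⟩

private theorem shT_two {κ c : ℝ} {n : ℕ} (hn : 0 < n) (h : κ ≤ 1 / n) (hc : 0 ≤ c)
    (h2 : 2 ≤ c ^ n) : (2 : ℝ) ^ κ ≤ c := by
  have hn' : (0 : ℝ) < n := by exact_mod_cast hn
  have h3 : (2 : ℝ) ^ κ ≤ 2 ^ (1 / (n : ℝ)) := rpow_le_rpow_of_exponent_le (by norm_num) h
  have h4 : ((2 : ℝ) ^ (1 / (n : ℝ))) ^ n = 2 := by
    rw [← rpow_natCast, ← rpow_mul (by norm_num), one_div, inv_mul_cancel₀ hn'.ne', rpow_one]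
  refine h3.trans ?_
  by_contra hcon
  have h5 := pow_lt_pow_left₀ (not_le.1 hcon) hc hn.ne'
  linarith

private theorem shT_sin {κ : ℝ} (hκ : 0 < κ) (h1 : κ ≤ 1 / 3) : 2.56 * κ ≤ sin (κ * π) := by
  have hp1 := pi_gt_d4
  have hp2 := pi_lt_d4
  have hx : 0 < κ * π := by positivity
  have hx1 : κ * π ≤ 3.1416 / 3 := by
    have := mul_le_mul h1 hp2.le pi_pos.le (by norm_num)
    linarith
  have hx2 : (κ * π) ^ 2 ≤ 1.0967 := by
    have := mul_le_mul hx1 hx1 hx.le (by norm_num)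
    rw [sq]
    norm_num at this ⊢
    linarith
  have h2 := sin_gt_sub_cube hx
  have h3 : (κ * π) ^ 3 ≤ κ * π * 1.0967 := by
    have := mul_le_mul_of_nonneg_left hx2 hx.le
    have e : κ * π * (κ * π) ^ 2 = (κ * π) ^ 3 := by ring
    linarith
  have h4 : κ * 3.1415 ≤ κ * π := mul_le_mul_of_nonneg_left hp1.le hκ.le
  linarith

private theorem shT_cos {y : ℝ} (y0 : 0 ≤ y) (y1 : y ≤ 2) :
    cos y ≤ 1 - y ^ 2 / 2 + y ^ 4 / 24 := by
  rcases y0.lt_or_eq with h | h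
  · have h1 := sin_gt_sub_cube (x := y / 2) (by linarith)
    have h2 : cos y = 1 - 2 * sin (y / 2) ^ 2 := by
      have := cos_two_mul (y / 2)
      have h3 := sin_sq_add_cos_sq (y / 2)
      rw [mul_div_cancel₀ _ (two_ne_zero)] at this
      linarith
    have h4 : 0 ≤ y / 2 - (y / 2) ^ 3 / 6 := by
      have : (y / 2) ^ 2 ≤ 1 := by
        rw [sq]
        exact mul_le_one₀ (by linarith) (by linarith) (by linarith)
      have h5 := mul_le_mul_of_nonneg_left this (by linarith : 0 ≤ y / 2)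
      have e : y / 2 * (y / 2) ^ 2 = (y / 2) ^ 3 := by ring
      linarith
    have h5 : (y / 2 - (y / 2) ^ 3 / 6) ^ 2 ≤ sin (y / 2) ^ 2 := pow_le_pow_left₀ h4 h1.le 2
    have h6 : (y / 2 - (y / 2) ^ 3 / 6) ^ 2 = y ^ 2 / 4 - y ^ 4 / 48 + y ^ 6 / 2304 := by ring
    have h7 : 0 ≤ y ^ 6 := by positivity
    rw [h2]
    linarith
  · rw [← h]
    simp

private theorem shT_num {κ t y T : ℝ} (hκ : 0 < κ) (h1 : κ ≤ 1 / 3) (y0 : 0 < y)
    (y1 : y < π / 2) (t0 : 0 < t) (ht : t < 1) (Tt : T = t ^ (2 * κ))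
    (T1 : (1 - T) * sin (κ * π) ≤ 2 ^ (1 + κ) / 2 * (1 - cos (κ * y))) (htc : t ≤ 2 * cos y) :
    T ≤ 1 ∧ 1 - T ≤ 0.2461 * κ * y ^ 2 ∧ y ^ 2 ≤ 1.31 ∧ 0.838 ≤ t := by
  have hp2 := pi_lt_d4
  have hT1 : T ≤ 1 := by
    rw [Tt]
    exact rpow_le_one t0.le ht.le (by positivity)
  have h2 : (2 : ℝ) ^ (1 + κ) / 2 ≤ 1.26 := by
    rw [rpow_add (by norm_num), rpow_one, mul_div_cancel_left₀ _ (by norm_num : (2 : ℝ) ≠ 0)]
    exact shT_two (n := 3) (by norm_num) (by push_cast; exact h1) (by norm_num) (by norm_num)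
  have h3 : 1 - cos (κ * y) ≤ (κ * y) ^ 2 / 2 := by
    have := one_sub_sq_div_two_le_cos (x := κ * y)
    linarith
  have h3' : 0 ≤ 1 - cos (κ * y) := by linarith [cos_le_one (κ * y)]
  have h4 : (1 - T) * (2.56 * κ) ≤ 1.26 * ((κ * y) ^ 2 / 2) := by
    calc (1 - T) * (2.56 * κ) ≤ (1 - T) * sin (κ * π) :=
          mul_le_mul_of_nonneg_left (shT_sin hκ h1) (by linarith)
      _ ≤ 2 ^ (1 + κ) / 2 * (1 - cos (κ * y)) := T1
      _ ≤ 1.26 * ((κ * y) ^ 2 / 2) := mul_le_mul h2 h3 h3' (by norm_num)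
  have hTT : 1 - T ≤ 0.2461 * κ * y ^ 2 := by
    have h5 : κ * (2.56 * (1 - T)) ≤ κ * (0.63 * κ * y ^ 2) := by
      have e1 : κ * (2.56 * (1 - T)) = (1 - T) * (2.56 * κ) := by ring
      have e2 : κ * (0.63 * κ * y ^ 2) = 1.26 * ((κ * y) ^ 2 / 2) := by ring
      rw [e1, e2]
      exact h4
    have h6 := le_of_mul_le_mul_left h5 hκ
    have h7 : 0 ≤ κ * y ^ 2 := by positivity
    linarith
  have h8 : 2 * κ * (1 - t) ≤ 1 - T := by
    have := rpow_one_add_le_one_add_mul_self (s := t - 1) (p := 2 * κ) (by linarith)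
      (by linarith) (by linarith)
    rw [add_sub_cancel, ← Tt] at this
    linarith
  have h9 : 1 - t ≤ 0.12305 * y ^ 2 := by
    have h10 : κ * (1 - t) ≤ κ * (0.12305 * y ^ 2) := by
      have e : κ * (0.12305 * y ^ 2) = 0.2461 * κ * y ^ 2 / 2 := by ring
      linarith
    exact le_of_mul_le_mul_left h10 hκ
  have h11 : y ^ 2 ≤ 1.31 := by
    by_contra hcon
    have hcon' := not_le.1 hcon
    have hy2 : y < 1.5708 := by linarith
    have h12 : y ^ 2 ≤ 2.4675 := by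
      have := mul_le_mul hy2.le hy2.le y0.le (by norm_num)
      rw [sq]
      norm_num at this ⊢
      linarith
    have h13 := shT_cos y0.le (by linarith)
    have h14 : 0 ≤ (y ^ 2 - 1.31) * (2.4675 - y ^ 2) :=
      mul_nonneg (by linarith) (by linarith)
    have e : (y ^ 2 - 1.31) * (2.4675 - y ^ 2) = 3.7775 * y ^ 2 - y ^ 4 - 3.232425 := by ring
    linarith
  exact ⟨hT1, hTT, h11, by linarith⟩

/-- `y ≤ c w` from `w³ ≥ .65 y` -/
private theorem shT_yw {y w c m : ℝ} (y0 : 0 < y) (w0 : 0 < w) (hc : 0 < c)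
    (hw : 0.65 * y ≤ w ^ 3) (hy : y ^ 2 ≤ m) (hm : m ≤ 0.65 * c ^ 3) : y ≤ c * w := by
  by_contra hcon
  have h1 := pow_lt_pow_left₀ (not_le.1 hcon) (by positivity) (n := 3) (by norm_num)
  rw [mul_pow] at h1
  have h2 : c ^ 3 * (0.65 * y) ≤ c ^ 3 * w ^ 3 := mul_le_mul_of_nonneg_left hw (by positivity)
  have h3 : y * y ^ 2 ≤ y * (0.65 * c ^ 3) := mul_le_mul_of_nonneg_left (hy.trans hm) y0.le
  have e : y * y ^ 2 = y ^ 3 := by ring
  linarith

private theorem shT_w {κ v : ℝ} (hκ : 0 < κ) (v0 : 0 < v) (v1 : v ≤ 1) {n : ℕ}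
    (h : κ * n ≤ 1) : v ≤ (v ^ κ) ^ n := by
  rw [← rpow_natCast, ← rpow_mul v0.le]
  calc v = v ^ (1 : ℝ) := (rpow_one v).symm
    _ ≤ v ^ (κ * n) := rpow_le_rpow_of_exponent_ge v0 v1 h

/-- the common facts -/
private structure TD (κ θ ρ t y T P β w : ℝ) : Prop where
  y0 : 0 < y
  hd : θ - y ≤ π / 2
  hle : π ≤ 2 * θ - y
  hθ2 : π / 2 ≤ θ
  κF : κ * (π + θ) < π / 2
  T1 : T ≤ 1
  TT : 1 - T ≤ 0.2461 * κ * y ^ 2
  y2 : y ^ 2 ≤ 1.31
  w0 : 0 < w
  w3 : 0.65 * y ≤ w ^ 3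
  w4 : κ ≤ 1 / 4 → 0.65 * y ≤ w ^ 4
  wt : (t / ρ) ^ κ * w = T
  P0 : 0 ≤ P
  β0 : 0 ≤ β
  β1 : β ≤ π / 2 - κ * π
  sb : (T + 1) * sin β ≤ 2 * 2 ^ κ * (κ * y)
  Pb : P * (1 + sin (κ * π)) ≤ 2 * 2 ^ κ * (κ * y) * (κ * y)

private theorem shT_td {κ θ ρ t y T s P β : ℝ}
    (h : ShDat κ (π + θ) ρ t y T s P β (2 ^ (1 + κ))) (h0 : 1 / 8 ≤ κ) (h1 : κ ≤ 1 / 3)
    (hθ : θ < π) (ht : t < 1) : TD κ θ ρ t y T P β ((ρ * t) ^ κ) := by
  have hpi := pi_pos
  have hκ : 0 < κ := by linarith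
  have ρ0 := h.ρ0
  have t0 := h.t0
  have ec : cos (π + θ) = -cos θ := by rw [add_comm, cos_add_pi]
  have es : sin (π + θ) = -sin θ := by rw [add_comm, sin_add_pi]
  have tc : t * cos y = 1 + ρ * cos θ := by rw [h.tc, ec]; ring
  have ts : t * sin y = ρ * sin θ := by rw [h.ts, es]; ring
  have hyF := h.yF
  obtain ⟨y0, hθ2, hd, hle, htc, hsr⟩ :=
    shT_geo ρ0 h.ρ1 h.y0 h.y1 t0 tc ts h.ty (by linarith) hθ ht
  obtain ⟨hT1, hTT, hy2, htb⟩ := shT_num hκ h1 y0 h.y1 t0 ht h.Tt h.T1 htc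
  have hρy : 0.7816 * y ≤ ρ := by
    have h2 := sin_gt_sub_cube y0
    have h3 : y * y ^ 2 ≤ y * 1.31 := mul_le_mul_of_nonneg_left hy2 y0.le
    have e : y * y ^ 2 = y ^ 3 := by ring
    linarith
  have hv : 0.65 * y ≤ ρ * t := by
    have h4 : 0.7816 * y * 0.838 ≤ ρ * t :=
      mul_le_mul hρy htb (by norm_num) ρ0.le
    linarith
  have v0 : 0 < ρ * t := mul_pos ρ0 t0
  have v1 : ρ * t ≤ 1 := mul_le_one₀ h.ρ1 t0.le ht.le
  have hZ0 : 0 ≤ sin (κ * y) := by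
    refine sin_nonneg_of_nonneg_of_le_pi (by positivity) ?_
    have h5 : κ * y ≤ 1 * y := mul_le_mul_of_nonneg_right (by linarith) y0.le
    linarith [h.y1]
  have hZ1 : sin (κ * y) ≤ κ * y := sin_le (by positivity)
  have hβs : 0 ≤ sin β := by
    refine sin_nonneg_of_nonneg_of_le_pi h.β0 ?_
    have := h.β1
    have h6 : 0 < κ * π := by positivity
    linarith
  have hT0 : 0 < T := by
    rw [h.Tt]
    exact rpow_pos_of_pos t0 _
  have hmax : max (T - 1) 0 = 0 := max_eq_right (by linarith)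
  have hs0 : 0 ≤ s := by
    rw [h.sd]
    positivity
  have hM : (2 : ℝ) ^ (1 + κ) = 2 * 2 ^ κ := by
    rw [rpow_add (by norm_num), rpow_one]
  have hK : (0 : ℝ) < 2 ^ κ := by positivity
  have hs : s ≤ 2 * 2 ^ κ * sin (κ * y) := by
    rcases hs0.lt_or_eq with h7 | h7
    · have h8 := h.s2
      rw [hmax, hM, zero_add] at h8
      have h9 : s * s ≤ s * (2 * 2 ^ κ * sin (κ * y)) := by
        have e : s * (2 * 2 ^ κ * sin (κ * y)) = 2 * 2 ^ κ * (s * sin (κ * y)) := by ring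
        rw [e]
        linarith [sq s]
      exact le_of_mul_le_mul_left h9 h7
    · rw [← h7]
      positivity
  have hs' : s ≤ 2 * 2 ^ κ * (κ * y) :=
    hs.trans (mul_le_mul_of_nonneg_left hZ1 (by positivity))
  refine ⟨y0, hd, hle, hθ2, h.κF, hT1, hTT, hy2, rpow_pos_of_pos v0 _, ?_, ?_, ?_, h.P0, h.β0,
    h.β1, ?_, ?_⟩
  · have := shT_w (n := 3) hκ v0 v1 (by push_cast; linarith)
    linarith
  · intro h4
    have := shT_w (n := 4) hκ v0 v1 (by push_cast; linarith)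
    linarith
  · rw [← mul_rpow (by positivity) v0.le, h.Tt, rpow_mul t0.le]
    congr 1
    rw [rpow_two]
    field_simp
  · rw [← h.sd]
    exact hs'
  · have h10 := h.P1
    rw [hmax, zero_add] at h10
    exact h10.trans (mul_le_mul hs' hZ1 hZ0 (by positivity))

namespace TD

variable {κ θ ρ t y T P β w : ℝ}

private theorem Λ0 (h : TD κ θ ρ t y T P β w) (hκ : 0 < κ) : κ * π ≤ κ * (π / 2 + θ) :=
  mul_le_mul_of_nonneg_left (by linarith [h.hθ2]) hκ.le

private theorem Λ1 (h : TD κ θ ρ t y T P β w) (hκ : 0 < κ) : κ * (π / 2 + θ) ≤ π / 2 := by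
  have := h.κF
  have h2 : 0 < κ * π := by have := pi_pos; positivity
  have e : κ * (π / 2 + θ) = κ * (π + θ) - κ * π / 2 := by ring
  linarith

private theorem T0 (h : TD κ θ ρ t y T P β w) (h1 : κ ≤ 1 / 3) (hκ : 0 < κ) : 0.89 ≤ T := by
  have h2 := h.TT
  have h3 : κ * y ^ 2 ≤ 1 / 3 * 1.31 := mul_le_mul h1 h.y2 (by positivity) (by norm_num)
  have e : 0.2461 * κ * y ^ 2 = 0.2461 * (κ * y ^ 2) := by ring
  linarith

/-- the `P` term -/
private theorem Pt (h : TD κ θ ρ t y T P β w) (hκ : 0 < κ) {b : ℝ} (hb : P ≤ b * w ^ 2)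
    (hy1 : y ≤ 2) (h1 : κ ≤ 1 / 3) :
    P * ((t / ρ) ^ κ * sin (κ * (π / 2 + y)) - sin (κ * (π / 2 + θ - 2 * y))) ≤
      b * w * sin (κ * (π / 2 + y)) := by
  have hpi := pi_pos
  have hp2 := pi_gt_d4
  have w0 := h.w0
  have y0 := h.y0
  have hG0 : 0 ≤ sin (κ * (π / 2 + y)) := by
    refine sin_nonneg_of_nonneg_of_le_pi (by positivity) ?_
    have h2 : κ * (π / 2 + y) ≤ 1 * (π / 2 + y) :=
      mul_le_mul_of_nonneg_right (by linarith) (by positivity)
    have h3 : κ * (π / 2 + y) ≤ 1 / 3 * (π / 2 + y) :=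
      mul_le_mul_of_nonneg_right h1 (by positivity)
    linarith
  have hL0 : 0 ≤ sin (κ * (π / 2 + θ - 2 * y)) := by
    have hle := h.hle
    have hd := h.hd
    have h4 : 0 ≤ π / 2 + θ - 2 * y := by linarith
    refine sin_nonneg_of_nonneg_of_le_pi (mul_nonneg hκ.le h4) ?_
    have h5 : κ * (π / 2 + θ - 2 * y) ≤ κ * (π / 2 + θ) :=
      mul_le_mul_of_nonneg_left (by linarith) hκ.le
    linarith [h.Λ1 hκ]
  have e1 : (t / ρ) ^ κ = T / w := by
    rw [eq_div_iff w0.ne']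
    exact h.wt
  have hQ : P * (T / w) ≤ b * w := by
    rw [mul_div_assoc', div_le_iff₀ w0]
    have h6 : P * T ≤ P * 1 := mul_le_mul_of_nonneg_left h.T1 h.P0
    have e : b * w * w = b * w ^ 2 := by ring
    linarith
  have h7 := mul_le_mul_of_nonneg_right hQ hG0
  have h8 := mul_nonneg h.P0 hL0
  rw [e1]
  have e2 : P * (T / w * sin (κ * (π / 2 + y)) - sin (κ * (π / 2 + θ - 2 * y))) =
      P * (T / w) * sin (κ * (π / 2 + y)) - P * sin (κ * (π / 2 + θ - 2 * y)) := by ring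
  linarith

private theorem sβ (h : TD κ θ ρ t y T P β w) (hκ : 0 < κ) : 0 ≤ sin β := by
  refine sin_nonneg_of_nonneg_of_le_pi h.β0 ?_
  have := h.β1
  have h6 : 0 < κ * π := by have := pi_pos; positivity
  linarith [pi_pos]

/-- `1/8 ≤ κ ≤ 1/5` -/
private theorem c1 (h : TD κ θ ρ t y T P β w) (h0 : 1 / 8 ≤ κ) (h1 : κ ≤ 1 / 5) :
    2 * sin β * cos (κ * (π / 2 + θ) + β) +
      P * ((t / ρ) ^ κ * sin (κ * (π / 2 + y)) - sin (κ * (π / 2 + θ - 2 * y))) ≤
    w * sin (κ * (3 * π / 2 + 2 * θ - y)) + (T - 1) * sin (κ * (π / 2 + θ)) := by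
  have hpi := pi_pos
  have hp1 := pi_gt_d4
  have hp2 := pi_lt_d4
  have hκ : 0 < κ := by linarith
  have w0 := h.w0
  have y0 := h.y0
  have hy2 := h.y2
  have hy1 : y ≤ 1.1446 := by
    by_contra hcon
    have := mul_lt_mul (not_le.1 hcon) (not_le.1 hcon).le (by norm_num) y0.le
    rw [← sq] at this
    norm_num at this hy2
    linarith
  have hyw : y ≤ 1.2635 * w := shT_yw y0 w0 (by norm_num) h.w3 hy2 (by norm_num)
  have hK : (2 : ℝ) ^ κ ≤ 1.1488 :=
    shT_two (n := 5) (by norm_num) (by push_cast; exact h1) (by norm_num) (by norm_num)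
  have hK0 : (0 : ℝ) < 2 ^ κ := by positivity
  have hκy : κ * y ≤ 0.2 * y := mul_le_mul_of_nonneg_right (by linarith) y0.le
  have hκy0 : 0 ≤ κ * y := by positivity
  have hKy : 2 * 2 ^ κ * (κ * y) ≤ 0.45952 * y := by
    have := mul_le_mul (mul_le_mul_of_nonneg_left hK (by norm_num : (0 : ℝ) ≤ 2)) hκy hκy0
      (by norm_num)
    linarith
  have hsβ := h.sβ hκ
  have hT := h.TT
  have hκy2 : κ * y ^ 2 ≤ 0.2 * y ^ 2 := mul_le_mul_of_nonneg_right (by linarith) (by positivity)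
  have hT2 : 1 - T ≤ 0.04922 * y ^ 2 := by
    have e : 0.2461 * κ * y ^ 2 = 0.2461 * (κ * y ^ 2) := by ring
    linarith
  have hb1 : sin β ≤ 0.23742 * y := by
    have h3 := h.sb
    have h4 : 1.9355 * sin β ≤ (T + 1) * sin β :=
      mul_le_mul_of_nonneg_right (by linarith) hsβ
    linarith
  have hb2 : 2 * sin β * cos (κ * (π / 2 + θ) + β) ≤ 2 * sin β * 1 :=
    mul_le_mul_of_nonneg_left (cos_le_one _) (by linarith)
  have hs := shT_sin hκ (by linarith)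
  have hyw2 : y ^ 2 ≤ 1.5965 * w ^ 2 := by
    have := mul_le_mul hyw hyw y0.le (by positivity)
    have e : 1.2635 * w * (1.2635 * w) = 1.59643225 * w ^ 2 := by ring
    have h5 : 0 ≤ w ^ 2 := by positivity
    linarith [sq y]
  have hP : P ≤ 0.1112 * w ^ 2 := by
    have h3 := h.Pb
    have h4 : P * 1.32 ≤ P * (1 + sin (κ * π)) :=
      mul_le_mul_of_nonneg_left (by linarith) h.P0
    have h5 : 2 * 2 ^ κ * (κ * y) * (κ * y) ≤ 0.45952 * y * (0.2 * y) :=
      mul_le_mul hKy hκy hκy0 (by positivity)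
    have e : 0.45952 * y * (0.2 * y) = 0.091904 * y ^ 2 := by ring
    have : 0 ≤ w ^ 2 := by positivity
    linarith
  have hPt := h.Pt hκ hP (by linarith) (by linarith)
  have hPt2 : 0.1112 * w * sin (κ * (π / 2 + y)) ≤ 0.1112 * w * 1 :=
    mul_le_mul_of_nonneg_left (sin_le_one _) (by positivity)
  have hT3 : 1 - T ≤ 0.0712 * w := by
    have h3 : y * y ≤ 1.1446 * y := mul_le_mul_of_nonneg_right hy1 y0.le
    have e := sq y
    linarith
  have hL : (1 - T) * sin (κ * (π / 2 + θ)) ≤ (1 - T) * 1 :=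
    mul_le_mul_of_nonneg_left (sin_le_one _) (by linarith [h.T1])
  have hA : 0.826 ≤ sin (κ * (3 * π / 2 + 2 * θ - y)) := by
    have a1 : 5 * π / 16 ≤ κ * (3 * π / 2 + 2 * θ - y) := by
      have h3 : 1 / 8 * (5 * π / 2) ≤ κ * (3 * π / 2 + 2 * θ - y) :=
        mul_le_mul h0 (by linarith [h.hle]) (by positivity) hκ.le
      linarith
    have a2 : κ * (3 * π / 2 + 2 * θ - y) ≤ 3 * π / 5 := by
      have h3 : κ * (3 * π / 2 + 2 * θ - y) ≤ 1 / 5 * (3 * π) :=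
        mul_le_mul h1 (by linarith [h.hd]) (by linarith [h.hle]) (by norm_num)
      linarith
    have e := cos_sub_pi_div_two (κ * (3 * π / 2 + 2 * θ - y))
    rw [← e]
    have h3 := one_sub_sq_div_two_le_cos (x := κ * (3 * π / 2 + 2 * θ - y) - π / 2)
    have h4 : (κ * (3 * π / 2 + 2 * θ - y) - π / 2) ^ 2 ≤ 0.5891 ^ 2 :=
      sq_le_sq' (by linarith) (by linarith)
    norm_num at h4
    linarith
  have hw := mul_le_mul_of_nonneg_left hA w0.le
  linarith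

/-- the angles for `1/5 ≤ κ` -/
private theorem ang (h : TD κ θ ρ t y T P β w) (h0 : 1 / 5 ≤ κ) (h1 : κ ≤ 1 / 3) :
    cos (κ * π) ≤ sin (κ * (3 * π / 2 + 2 * θ - y)) ∧
    cos (κ * (π / 2 + θ)) ≤ sin (κ * (3 * π / 2 + 2 * θ - y)) ∧
    sin (κ * (π / 2 + y)) ≤ sin (κ * (3 * π / 2 + 2 * θ - y)) := by
  have hpi := pi_pos
  have hκ : 0 < κ := by linarith
  have y0 := h.y0
  have hF := h.κF
  have a1 : π / 2 ≤ κ * (3 * π / 2 + 2 * θ - y) := by
    have h3 : 1 / 5 * (5 * π / 2) ≤ κ * (3 * π / 2 + 2 * θ - y) :=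
      mul_le_mul h0 (by linarith [h.hle]) (by positivity) hκ.le
    linarith
  have hκπ : κ * π ≤ 1 / 3 * π := mul_le_mul_of_nonneg_right h1 hpi.le
  have hκπ0 : 0 < κ * π := by positivity
  rw [← sin_pi_sub (κ * (3 * π / 2 + 2 * θ - y)), ← sin_pi_div_two_sub (κ * π),
    ← sin_pi_div_two_sub (κ * (π / 2 + θ))]
  have g1 : κ * (θ - y) ≤ κ * (π / 2) := mul_le_mul_of_nonneg_left h.hd hκ.le
  have g2 : 0 < κ * y := by positivity
  have g3 : κ * (π / 2) ≤ κ * θ := mul_le_mul_of_nonneg_left h.hθ2 hκ.le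
  refine ⟨sin_le_sin_of_le_of_le_pi_div_two (by linarith) (by linarith) (by linarith),
    sin_le_sin_of_le_of_le_pi_div_two (by linarith) (by linarith) (by linarith),
    sin_le_sin_of_le_of_le_pi_div_two ?_ (by linarith) (by linarith)⟩
  have : 0 ≤ κ * (π / 2 + y) := by positivity
  linarith

private theorem chalf (h1 : κ ≤ 1 / 3) (hκ : 0 < κ) : 1 / 2 ≤ cos (κ * π) := by
  have hpi := pi_pos
  rw [← cos_pi_div_three]
  refine cos_le_cos_of_nonneg_of_le_pi (by positivity) (by linarith) ?_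
  have := mul_le_mul_of_nonneg_right h1 hpi.le
  linarith

/-- `1/5 ≤ κ ≤ 1/3`, `y ≤ .6` -/
private theorem c2 (h : TD κ θ ρ t y T P β w) (h0 : 1 / 5 ≤ κ) (h1 : κ ≤ 1 / 3)
    (hy : y ≤ 0.6) :
    2 * sin β * cos (κ * (π / 2 + θ) + β) +
      P * ((t / ρ) ^ κ * sin (κ * (π / 2 + y)) - sin (κ * (π / 2 + θ - 2 * y))) ≤
    w * sin (κ * (3 * π / 2 + 2 * θ - y)) + (T - 1) * sin (κ * (π / 2 + θ)) := by
  have hpi := pi_pos
  have hκ : 0 < κ := by linarith
  have w0 := h.w0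
  have y0 := h.y0
  have hy2 : y ^ 2 ≤ 0.36 := by
    have := mul_le_mul hy hy y0.le (by norm_num)
    rw [sq]
    norm_num at this ⊢
    linarith
  have hyw : y ≤ 0.8213 * w := shT_yw y0 w0 (by norm_num) h.w3 hy2 (by norm_num)
  have hK : (2 : ℝ) ^ κ ≤ 1.26 :=
    shT_two (n := 3) (by norm_num) (by push_cast; exact h1) (by norm_num) (by norm_num)
  have hK0 : (0 : ℝ) < 2 ^ κ := by positivity
  have hκy : κ * y ≤ 1 / 3 * y := mul_le_mul_of_nonneg_right h1 y0.le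
  have hκy0 : 0 ≤ κ * y := by positivity
  have hKy : 2 * 2 ^ κ * (κ * y) ≤ 0.84 * y := by
    have := mul_le_mul (mul_le_mul_of_nonneg_left hK (by norm_num : (0 : ℝ) ≤ 2)) hκy hκy0
      (by norm_num)
    linarith
  have hsβ := h.sβ hκ
  obtain ⟨k1, k2, k3⟩ := h.ang h0 h1
  have hC := chalf h1 hκ
  set SA := sin (κ * (3 * π / 2 + 2 * θ - y)) with hSA
  have hT := h.TT
  have hκy2 : κ * y ^ 2 ≤ 1 / 3 * y ^ 2 := mul_le_mul_of_nonneg_right h1 (by positivity)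
  have hT2 : 1 - T ≤ 0.08204 * y ^ 2 := by
    have e : 0.2461 * κ * y ^ 2 = 0.2461 * (κ * y ^ 2) := by ring
    have : 0 ≤ y ^ 2 := by positivity
    linarith
  have hb1 : sin β ≤ 0.42642 * y := by
    have h3 := h.sb
    have h4 : 1.97 * sin β ≤ (T + 1) * sin β :=
      mul_le_mul_of_nonneg_right (by linarith) hsβ
    linarith
  have hcL : cos (κ * (π / 2 + θ) + β) ≤ cos (κ * (π / 2 + θ)) := by
    have l0 := h.Λ0 hκ
    have l1 := h.Λ1 hκ
    have l2 := h.β1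
    have l3 : 0 < κ * π := by positivity
    exact cos_le_cos_of_nonneg_of_le_pi (by linarith) (by linarith) (by linarith [h.β0])
  have hb2 : 2 * sin β * cos (κ * (π / 2 + θ) + β) ≤ 2 * (0.42642 * y) * SA := by
    refine (mul_le_mul_of_nonneg_left (hcL.trans k2) (by linarith)).trans ?_
    exact mul_le_mul_of_nonneg_right (by linarith) (by linarith)
  have hs := shT_sin hκ h1
  have hyw2 : y ^ 2 ≤ 0.67454 * w ^ 2 := by
    have := mul_le_mul hyw hyw y0.le (by positivity)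
    have e : 0.8213 * w * (0.8213 * w) = 0.67453369 * w ^ 2 := by ring
    have h5 : 0 ≤ w ^ 2 := by positivity
    linarith [sq y]
  have hP : P ≤ 0.125 * w ^ 2 := by
    have h3 := h.Pb
    have h4 : P * 1.512 ≤ P * (1 + sin (κ * π)) :=
      mul_le_mul_of_nonneg_left (by linarith) h.P0
    have h5 : 2 * 2 ^ κ * (κ * y) * (κ * y) ≤ 0.84 * y * (1 / 3 * y) :=
      mul_le_mul hKy hκy hκy0 (by positivity)
    have e : 0.84 * y * (1 / 3 * y) = 0.28 * y ^ 2 := by ring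
    have : 0 ≤ w ^ 2 := by positivity
    linarith
  have hPt := h.Pt hκ hP (by linarith) h1
  have hPt2 : 0.125 * w * sin (κ * (π / 2 + y)) ≤ 0.125 * w * SA :=
    mul_le_mul_of_nonneg_left k3 (by positivity)
  have hT3 : 1 - T ≤ 0.0405 * w := by
    have h3 : y * y ≤ 0.6 * y := mul_le_mul_of_nonneg_right hy y0.le
    have e := sq y
    linarith
  have hL : (1 - T) * sin (κ * (π / 2 + θ)) ≤ (1 - T) * 1 :=
    mul_le_mul_of_nonneg_left (sin_le_one _) (by linarith [h.T1])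
  have hSA2 : 1 / 2 ≤ SA := hC.trans k1
  have hw1 : w * (1 / 2) ≤ w * SA := mul_le_mul_of_nonneg_left hSA2 w0.le
  have hw2 : y * SA ≤ 0.8213 * w * SA := mul_le_mul_of_nonneg_right hyw (by linarith)
  have e1 : 2 * (0.42642 * y) * SA = 0.85284 * (y * SA) := by ring
  have e2 : 0.8213 * w * SA = 0.8213 * (w * SA) := by ring
  have e3 : 0.125 * w * SA = 0.125 * (w * SA) := by ring
  linarith

/-- the first term by `1 - sin Λ` -/
private theorem big (h : TD κ θ ρ t y T P β w) (h0 : 1 / 5 ≤ κ) (h1 : κ ≤ 1 / 3) {b T₀ w₀ : ℝ}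
    (hb : P ≤ b * w ^ 2) (hb0 : 0 ≤ b) (hb1 : b ≤ 1) (hT0 : T₀ ≤ T) (hT00 : 0 ≤ T₀) (hy1 : y ≤ 2)
    (hw0 : w₀ ≤ w) (hw00 : 0 ≤ w₀)
    (hq : 1 ≤ T₀ * sin (κ * π) + (1 - b) * w₀ * cos (κ * π)) :
    2 * sin β * cos (κ * (π / 2 + θ) + β) +
      P * ((t / ρ) ^ κ * sin (κ * (π / 2 + y)) - sin (κ * (π / 2 + θ - 2 * y))) ≤
    w * sin (κ * (3 * π / 2 + 2 * θ - y)) + (T - 1) * sin (κ * (π / 2 + θ)) := by
  have hpi := pi_pos
  have hκ : 0 < κ := by linarith
  have w0 := h.w0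
  obtain ⟨k1, k2, k3⟩ := h.ang h0 h1
  have hC := chalf h1 hκ
  have hPt := h.Pt hκ hb hy1 h1
  have e1 : 2 * sin β * cos (κ * (π / 2 + θ) + β) =
      sin (κ * (π / 2 + θ) + 2 * β) - sin (κ * (π / 2 + θ)) := by
    have a1 := sin_add (κ * (π / 2 + θ) + β) β
    have a2 := sin_sub (κ * (π / 2 + θ) + β) β
    rw [add_sub_cancel_right] at a2
    have a3 : κ * (π / 2 + θ) + β + β = κ * (π / 2 + θ) + 2 * β := by ring
    rw [a3] at a1
    linarith
  have h2 := sin_le_one (κ * (π / 2 + θ) + 2 * β)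
  have l0 := h.Λ0 hκ
  have l1 := h.Λ1 hκ
  have l3 : 0 < κ * π := by positivity
  have h3 : sin (κ * π) ≤ sin (κ * (π / 2 + θ)) :=
    sin_le_sin_of_le_of_le_pi_div_two (by linarith) l1 l0
  have h4 : 0 ≤ sin (κ * π) := by
    refine sin_nonneg_of_nonneg_of_le_pi l3.le ?_
    have := mul_le_mul_of_nonneg_right h1 hpi.le
    linarith
  have h5 : T₀ * sin (κ * π) ≤ T * sin (κ * (π / 2 + θ)) :=
    mul_le_mul hT0 h3 h4 (hT00.trans hT0)
  have h6 : b * w * sin (κ * (π / 2 + y)) ≤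
      b * w * sin (κ * (3 * π / 2 + 2 * θ - y)) :=
    mul_le_mul_of_nonneg_left k3 (by positivity)
  have h7 : (1 - b) * w₀ * cos (κ * π) ≤ (1 - b) * w * sin (κ * (3 * π / 2 + 2 * θ - y)) :=
    mul_le_mul (mul_le_mul_of_nonneg_left hw0 (by linarith)) k1 (by linarith)
      (mul_nonneg (by linarith) w0.le)
  have e2 : (1 - b) * w * sin (κ * (3 * π / 2 + 2 * θ - y)) =
      w * sin (κ * (3 * π / 2 + 2 * θ - y)) - b * w * sin (κ * (3 * π / 2 + 2 * θ - y)) := by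
    ring
  rw [e1]
  linarith

/-- `1/5 ≤ κ ≤ 1/4`, `.6 ≤ y` -/
private theorem c3 (h : TD κ θ ρ t y T P β w) (h0 : 1 / 5 ≤ κ) (h1 : κ ≤ 1 / 4)
    (hy : 0.6 ≤ y) :
    2 * sin β * cos (κ * (π / 2 + θ) + β) +
      P * ((t / ρ) ^ κ * sin (κ * (π / 2 + y)) - sin (κ * (π / 2 + θ - 2 * y))) ≤
    w * sin (κ * (3 * π / 2 + 2 * θ - y)) + (T - 1) * sin (κ * (π / 2 + θ)) := by
  have hpi := pi_pos
  have hκ : 0 < κ := by linarith
  have w0 := h.w0
  have y0 := h.y0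
  have hy2 := h.y2
  have hy1 : y ≤ 2 := by
    by_contra hcon
    have := mul_lt_mul (not_le.1 hcon) (not_le.1 hcon).le (by norm_num) y0.le
    rw [← sq] at this
    norm_num at this hy2
    linarith
  have hyw : y ≤ 1.2635 * w := shT_yw y0 w0 (by norm_num) h.w3 hy2 (by norm_num)
  have hK : (2 : ℝ) ^ κ ≤ 1.1893 :=
    shT_two (n := 4) (by norm_num) (by push_cast; exact h1) (by norm_num) (by norm_num)
  have hK0 : (0 : ℝ) < 2 ^ κ := by positivity
  have hκy : κ * y ≤ 1 / 4 * y := mul_le_mul_of_nonneg_right h1 y0.le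
  have hκy0 : 0 ≤ κ * y := by positivity
  have hKy : 2 * 2 ^ κ * (κ * y) ≤ 0.59465 * y := by
    have := mul_le_mul (mul_le_mul_of_nonneg_left hK (by norm_num : (0 : ℝ) ≤ 2)) hκy hκy0
      (by norm_num)
    linarith
  have hs := shT_sin hκ (by linarith)
  have hyw2 : y ^ 2 ≤ 1.5965 * w ^ 2 := by
    have := mul_le_mul hyw hyw y0.le (by positivity)
    have e : 1.2635 * w * (1.2635 * w) = 1.59643225 * w ^ 2 := by ring
    have h5 : 0 ≤ w ^ 2 := by positivity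
    linarith [sq y]
  have hP : P ≤ 0.157 * w ^ 2 := by
    have h3 := h.Pb
    have h4 : P * 1.512 ≤ P * (1 + sin (κ * π)) :=
      mul_le_mul_of_nonneg_left (by linarith) h.P0
    have h5 : 2 * 2 ^ κ * (κ * y) * (κ * y) ≤ 0.59465 * y * (1 / 4 * y) :=
      mul_le_mul hKy hκy hκy0 (by positivity)
    have e : 0.59465 * y * (1 / 4 * y) = 0.1486625 * y ^ 2 := by ring
    have : 0 ≤ w ^ 2 := by positivity
    linarith
  have hT : 0.9194 ≤ T := by
    have h2 := h.TT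
    have h3 : κ * y ^ 2 ≤ 1 / 4 * 1.31 := mul_le_mul h1 h.y2 (by positivity) (by norm_num)
    have e : 0.2461 * κ * y ^ 2 = 0.2461 * (κ * y ^ 2) := by ring
    linarith
  have hw : 0.79 ≤ w := by
    by_contra hcon
    have h3 := pow_lt_pow_left₀ (not_le.1 hcon) w0.le (n := 4) (by norm_num)
    have h4 := h.w4 h1
    norm_num at h3
    linarith
  refine h.big h0 (by linarith) hP (by norm_num) (by norm_num) hT (by norm_num) hy1 hw
    (by norm_num) ?_
  have hC := chalf (by linarith : κ ≤ 1 / 3) hκ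
  have hS1 : 0.512 ≤ sin (κ * π) := by linarith
  have hS2 : sin (κ * π) ≤ 0.7072 := by
    have h3 : sin (κ * π) ≤ sin (π / 4) := by
      refine sin_le_sin_of_le_of_le_pi_div_two ?_ (by linarith) ?_
      · have : 0 < κ * π := by positivity
        linarith
      · have := mul_le_mul_of_nonneg_right h1 hpi.le
        linarith
    rw [sin_pi_div_four] at h3
    have h4 : Real.sqrt 2 ≤ 1.4144 := by
      rw [Real.sqrt_le_left (by norm_num)]
      norm_num
    linarith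
  have hsc := sin_sq_add_cos_sq (κ * π)
  set S := sin (κ * π)
  set C := cos (κ * π)
  by_contra hcon
  have h5 := not_le.1 hcon
  have h6 : 0.66597 * C < 1 - 0.9194 * S := by
    have e : (1 - 0.157) * 0.79 * C = 0.66597 * C := by ring
    linarith
  have h7 := pow_lt_pow_left₀ h6 (by linarith) (n := 2) (by norm_num)
  have h8 : 0 ≤ (S - 0.512) * (0.7072 - S) := mul_nonneg (by linarith) (by linarith)
  have e1 : (0.66597 * C) ^ 2 = 0.66597 ^ 2 * (1 - S ^ 2) := by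
    rw [mul_pow, ← hsc]
    ring
  have e2 : (1 - 0.9194 * S) ^ 2 = 1 - 1.8388 * S + 0.84529636 * S ^ 2 := by ring
  have e3 : (S - 0.512) * (0.7072 - S) = 1.2192 * S - S ^ 2 - 0.3620864 := by ring
  rw [e1, e2] at h7
  norm_num at h7
  linarith

/-- `1/4 ≤ κ ≤ 1/3`, `.6 ≤ y` -/
private theorem c4 (h : TD κ θ ρ t y T P β w) (h0 : 1 / 4 ≤ κ) (h1 : κ ≤ 1 / 3)
    (hy : 0.6 ≤ y) :
    2 * sin β * cos (κ * (π / 2 + θ) + β) +
      P * ((t / ρ) ^ κ * sin (κ * (π / 2 + y)) - sin (κ * (π / 2 + θ - 2 * y))) ≤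
    w * sin (κ * (3 * π / 2 + 2 * θ - y)) + (T - 1) * sin (κ * (π / 2 + θ)) := by
  have hpi := pi_pos
  have hκ : 0 < κ := by linarith
  have w0 := h.w0
  have y0 := h.y0
  have hy2 := h.y2
  have hy1 : y ≤ 2 := by
    by_contra hcon
    have := mul_lt_mul (not_le.1 hcon) (not_le.1 hcon).le (by norm_num) y0.le
    rw [← sq] at this
    norm_num at this hy2
    linarith
  have hyw : y ≤ 1.2635 * w := shT_yw y0 w0 (by norm_num) h.w3 hy2 (by norm_num)
  have hK : (2 : ℝ) ^ κ ≤ 1.26 :=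
    shT_two (n := 3) (by norm_num) (by push_cast; exact h1) (by norm_num) (by norm_num)
  have hK0 : (0 : ℝ) < 2 ^ κ := by positivity
  have hκy : κ * y ≤ 1 / 3 * y := mul_le_mul_of_nonneg_right h1 y0.le
  have hκy0 : 0 ≤ κ * y := by positivity
  have hKy : 2 * 2 ^ κ * (κ * y) ≤ 0.84 * y := by
    have := mul_le_mul (mul_le_mul_of_nonneg_left hK (by norm_num : (0 : ℝ) ≤ 2)) hκy hκy0
      (by norm_num)
    linarith
  have hκπ : κ * π ≤ 1 / 3 * π := mul_le_mul_of_nonneg_right h1 hpi.le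
  have hκπ1 : 1 / 4 * π ≤ κ * π := mul_le_mul_of_nonneg_right h0 hpi.le
  have hS1 : 0.7071 ≤ sin (κ * π) := by
    have h3 : sin (π / 4) ≤ sin (κ * π) :=
      sin_le_sin_of_le_of_le_pi_div_two (by linarith) (by linarith) (by linarith)
    rw [sin_pi_div_four] at h3
    have h4 : 1.4142 ≤ Real.sqrt 2 := by
      apply Real.le_sqrt_of_sq_le
      norm_num
    linarith
  have hS2 : sin (κ * π) ≤ 0.86603 := by
    have h3 : sin (κ * π) ≤ sin (π / 3) :=
      sin_le_sin_of_le_of_le_pi_div_two (by linarith) (by linarith) (by linarith)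
    rw [sin_pi_div_three] at h3
    have h4 : Real.sqrt 3 ≤ 1.73206 := by
      rw [Real.sqrt_le_left (by norm_num)]
      norm_num
    linarith
  have hyw2 : y ^ 2 ≤ 1.59644 * w ^ 2 := by
    have := mul_le_mul hyw hyw y0.le (by positivity)
    have e : 1.2635 * w * (1.2635 * w) = 1.59643225 * w ^ 2 := by ring
    have h5 : 0 ≤ w ^ 2 := by positivity
    linarith [sq y]
  have hP : P ≤ 0.2619 * w ^ 2 := by
    have h3 := h.Pb
    have h4 : P * 1.7071 ≤ P * (1 + sin (κ * π)) :=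
      mul_le_mul_of_nonneg_left (by linarith) h.P0
    have h5 : 2 * 2 ^ κ * (κ * y) * (κ * y) ≤ 0.84 * y * (1 / 3 * y) :=
      mul_le_mul hKy hκy hκy0 (by positivity)
    have e : 0.84 * y * (1 / 3 * y) = 0.28 * y ^ 2 := by ring
    have : 0 ≤ w ^ 2 := by positivity
    linarith
  have hT : 0.8925 ≤ T := by
    have h2 := h.TT
    have h3 : κ * y ^ 2 ≤ 1 / 3 * 1.31 := mul_le_mul h1 h.y2 (by positivity) (by norm_num)
    have e : 0.2461 * κ * y ^ 2 = 0.2461 * (κ * y ^ 2) := by ring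
    linarith
  have hw : 0.73 ≤ w := by
    by_contra hcon
    have h3 := pow_lt_pow_left₀ (not_le.1 hcon) w0.le (n := 3) (by norm_num)
    have h4 := h.w3
    norm_num at h3
    linarith
  refine h.big (by linarith) h1 hP (by norm_num) (by norm_num) hT (by norm_num) hy1 hw
    (by norm_num) ?_
  have hC := chalf h1 hκ
  have hsc := sin_sq_add_cos_sq (κ * π)
  set S := sin (κ * π)
  set C := cos (κ * π)
  by_contra hcon
  have h5 := not_le.1 hcon
  have h6 : 0.5388 * C < 1 - 0.8925 * S := by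
    have e : (1 - 0.2619) * 0.73 * C = 0.538813 * C := by ring
    linarith
  have h7 := pow_lt_pow_left₀ h6 (by linarith) (n := 2) (by norm_num)
  have h8 : 0 ≤ (S - 0.7071) * (0.86603 - S) := mul_nonneg (by linarith) (by linarith)
  have e1 : (0.5388 * C) ^ 2 = 0.5388 ^ 2 * (1 - S ^ 2) := by
    rw [mul_pow, ← hsc]
    ring
  have e2 : (1 - 0.8925 * S) ^ 2 = 1 - 1.785 * S + 0.79655625 * S ^ 2 := by ring
  have e3 : (S - 0.7071) * (0.86603 - S) = 1.57313 * S - S ^ 2 - 0.612369813 := by ring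
  rw [e1, e2] at h7
  norm_num at h7
  linarith

end TD

/-- the closed inequality (H) for `1/8 ≤ κ ≤ 1/3`, case `t < 1` -/
theorem shT {κ θ ρ t y T s P β : ℝ}
    (h : ShDat κ (π + θ) ρ t y T s P β (2 ^ (1 + κ))) (h0 : 1 / 8 ≤ κ) (h1 : κ ≤ 1 / 3)
    (hθ : θ < π) (ht : t < 1) : ShCon κ θ ρ t y T P β := by
  have hd := shT_td h h0 h1 hθ ht
  unfold ShCon
  rcases le_total κ (1 / 5) with a | a
  · exact hd.c1 h0 a
  · rcases le_total y 0.6 with b | b
    · exact hd.c2 a h1 b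
    · rcases le_total κ (1 / 4) with c | c
      · exact hd.c3 a c b
      · exact hd.c4 c h1 b

end EQS
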