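import Mathlib
import Pool.Agent.Lib.MP_226de1_co.E.DShE3
import Pool.Agent.Lib.MP_226de1_co.E.PLK
import Pool.Agent.Lib.MP_226de1_co.E.DShT

/-! Closed inequality (H), `t ≥ 1`, `1/8 ≤ κ ≤ 1/5`: assembly. -/

set_option autoImplicit false

namespace EQS

theorem shE_B1 {ρ κ : ℝ} (hρ0 : 0 < ρ) (hρ1 : ρ ≤ 1 / 2) (hκ : κ ≤ 1 / 5) :
    2 * ρ ≤ 0.767 * ρ ^ κ * (1 + ρ) := by
  have h1 : ρ ^ (1 / 5 : ℝ) ≤ ρ ^ κ :=
    Real.rpow_le_rpow_of_exponent_ge hρ0 (by linarith) hκ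
  obtain ⟨p, hp⟩ : ∃ p, p = ρ ^ (1 / 5 : ℝ) := ⟨_, rfl⟩
  rw [← hp] at h1
  have hp0 : 0 < p := by rw [hp]; exact Real.rpow_pos_of_pos hρ0 _
  have hp5 : p ^ 5 = ρ := by
    rw [hp, ← Real.rpow_natCast, ← Real.rpow_mul hρ0.le]
    norm_num
  have hpq : p ≤ 0.8706 := by
    by_contra hcon
    have h2 : (0.8706 : ℝ) ^ 5 < p ^ 5 := pow_lt_pow_left₀ (not_le.1 hcon) (by norm_num) (by norm_num)
    rw [hp5] at h2
    norm_num at h2
    linarith
  have h3 : 2 * p ^ 4 ≤ 0.767 * (1 + p ^ 5) := by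
    have e1 : p ^ 3 ≤ 0.8706 ^ 3 := pow_le_pow_left₀ hp0.le hpq 3
    have e2 : 0 ≤ p * (2 - 0.767 * p) := by
      apply mul_nonneg hp0.le
      norm_num at hpq ⊢
      linarith
    have e3 : p ^ 3 * (p * (2 - 0.767 * p)) ≤ 0.8706 ^ 3 * (p * (2 - 0.767 * p)) :=
      mul_le_mul_of_nonneg_right e1 e2
    have e4 : p * (2 - 0.767 * p) ≤ 0.8706 * (2 - 0.767 * 0.8706) := by
      have e5 : 0 ≤ (0.8706 - p) * (2 - 0.767 * (p + 0.8706)) := by
        apply mul_nonneg (by linarith)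
        norm_num at hpq ⊢
        linarith
      norm_num at e5 ⊢
      linarith
    have e6 : 0.8706 ^ 3 * (p * (2 - 0.767 * p)) ≤
        0.8706 ^ 3 * (0.8706 * (2 - 0.767 * 0.8706)) :=
      mul_le_mul_of_nonneg_left e4 (by norm_num)
    norm_num at e3 e6 ⊢
    linarith
  have h4 : 2 * ρ ≤ 0.767 * p * (1 + ρ) := by
    rw [← hp5]
    calc 2 * p ^ 5 = 2 * p ^ 4 * p := by ring
      _ ≤ 0.767 * (1 + p ^ 5) * p := mul_le_mul_of_nonneg_right h3 hp0.le
      _ = _ := by ring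
  refine h4.trans (mul_le_mul_of_nonneg_right ?_ (by linarith))
  exact mul_le_mul_of_nonneg_left h1 (by norm_num)

theorem shE_G {E C w T1 : ℝ} (hE0 : 0 ≤ E) (hE : E ≤ C * w) (hC : C = T1 - 1)
    (h1 : 1.1892 ≤ T1) (h2 : T1 ≤ 1.32) (hw : 1 / T1 ≤ w) (hw1 : w ≤ 1) :
    E ≤ (0.55977 * T1 - 0.52478) * ((1 + E) ^ 2 * w) := by
  norm_num at h1 h2
  have hT0 : 0 < T1 := by linarith
  have hC0 : 0 < C := by rw [hC]; linarith
  have hw0 : 0 < w := lt_of_lt_of_le (by positivity) hw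
  have hCw : C * w ≤ 1 := by
    calc C * w ≤ C * 1 := mul_le_mul_of_nonneg_left hw1 hC0.le
      _ ≤ 1 := by rw [hC]; linarith
  -- `E (1 + C w)² ≤ C w (1 + E)²`
  have a1 : E * (1 + C * w) ^ 2 ≤ C * w * (1 + E) ^ 2 := by
    have e1 : 0 ≤ (C * w - E) * (1 - E * (C * w)) := by
      apply mul_nonneg (by linarith)
      have : E * (C * w) ≤ 1 * 1 := mul_le_mul (by linarith) hCw (by positivity) (by norm_num)
      linarith
    nlinarith
  -- `C ≤ γ (1 + C w)²`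
  obtain ⟨g, hg⟩ : ∃ g, g = 0.55977 * T1 - 0.52478 := ⟨_, rfl⟩
  have hg0 : 0 < g := by rw [hg]; norm_num; linarith
  have a2 : C ≤ g * (1 + C * w) ^ 2 := by
    have e1 : (2 * T1 - 1) / T1 ≤ 1 + C * w := by
      have : C * (1 / T1) ≤ C * w := mul_le_mul_of_nonneg_left hw hC0.le
      have e2 : (2 * T1 - 1) / T1 = 1 + C * (1 / T1) := by rw [hC]; field_simp; ring
      linarith
    have e3 : ((2 * T1 - 1) / T1) ^ 2 ≤ (1 + C * w) ^ 2 :=
      pow_le_pow_left₀ (div_nonneg (by linarith) hT0.le) e1 2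
    refine le_trans ?_ (mul_le_mul_of_nonneg_left e3 hg0.le)
    rw [div_pow, ← mul_div_assoc, le_div_iff₀ (by positivity), hg, hC]
    norm_num
    nlinarith [mul_nonneg (sq_nonneg (T1 - 6 / 5)) hT0.le, sq_nonneg (T1 - 6 / 5),
      mul_nonneg (by linarith : 0 ≤ T1 - 1) (by linarith : 0 ≤ 2 - T1)]
  rw [← hg]
  have a3 : E * (1 + C * w) ^ 2 ≤ g * ((1 + E) ^ 2 * w) * (1 + C * w) ^ 2 := by
    calc E * (1 + C * w) ^ 2 ≤ C * w * (1 + E) ^ 2 := a1
      _ = C * (w * (1 + E) ^ 2) := by ring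
      _ ≤ g * (1 + C * w) ^ 2 * (w * (1 + E) ^ 2) :=
          mul_le_mul_of_nonneg_right a2 (by positivity)
      _ = _ := by ring
  exact le_of_mul_le_mul_right a3 (by positivity)

/-- (H) for `t ≥ 1`, `1/8 ≤ κ ≤ 1/5` -/
theorem shE_ge {κ θ ρ t y T s P β : ℝ} (h0 : 1 / 8 ≤ κ) (h1 : κ ≤ 1 / 5)
    (h : ShDat κ (Real.pi + θ) ρ t y T s P β (2 ^ (1 + κ))) (hθ : θ < Real.pi) (ht : 1 ≤ t) :
    ShCon κ θ ρ t y T P β := by
  have hpi := Real.pi_pos
  have κ0 : 0 < κ := by linarith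
  obtain ⟨κF, ρ0, ρ1, y0, y1, yF, t0, tc, ts, ty, Tt, β0, β1, sd, s2, P0, P1, P2, T1'⟩ := h
  have hyθ : 2 * y ≤ θ := by linarith
  have hθ0 : 0 ≤ θ := by linarith
  have hcθ : Real.cos (Real.pi + θ) = -Real.cos θ := by
    rw [add_comm, Real.cos_add_pi]
  have hsθ : Real.sin (Real.pi + θ) = -Real.sin θ := by
    rw [add_comm, Real.sin_add_pi]
  have tc' : t * Real.cos y = 1 + ρ * Real.cos θ := by rw [tc, hcθ]; ring
  have ts' : t * Real.sin y = ρ * Real.sin θ := by rw [ts, hsθ]; ring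
  have ht2 : t ^ 2 = 1 + 2 * ρ * Real.cos θ + ρ ^ 2 := by
    have e1 : t ^ 2 = (t * Real.cos y) ^ 2 + (t * Real.sin y) ^ 2 := by
      linear_combination (-t ^ 2) * Real.sin_sq_add_cos_sq y
    rw [e1, tc', ts']
    linear_combination (ρ ^ 2) * Real.sin_sq_add_cos_sq θ
  obtain ⟨X, hX⟩ : ∃ X, X = κ * (Real.pi / 2) := ⟨_, rfl⟩
  obtain ⟨Y, hY⟩ : ∃ Y, Y = κ * (θ / 2) := ⟨_, rfl⟩
  obtain ⟨v, hv⟩ : ∃ v, v = κ * y := ⟨_, rfl⟩
  obtain ⟨r, hr⟩ : ∃ r, r = ρ ^ κ := ⟨_, rfl⟩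
  obtain ⟨τ, hτ⟩ : ∃ τ, τ = t ^ κ := ⟨_, rfl⟩
  obtain ⟨M, hM⟩ : ∃ M : ℝ, M = 2 ^ (1 + κ) := ⟨_, rfl⟩
  obtain ⟨X0, X1, _⟩ := shE_X h0 h1 hX
  have X5 : 10 * X ≤ Real.pi := by rw [hX]; nlinarith
  have r0 : 0 < r := by rw [hr]; exact Real.rpow_pos_of_pos ρ0 _
  have r1 : r ≤ 1 := by rw [hr]; exact Real.rpow_le_one ρ0.le ρ1 κ0.le
  have τ1 : 1 ≤ τ := by rw [hτ]; exact Real.one_le_rpow ht κ0.le
  have τ0 : 0 < τ := by linarith
  have hτ2 : τ ^ 2 = T := by
    rw [hτ, Tt, ← Real.rpow_natCast, ← Real.rpow_mul t0.le]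
    congr 1
    push_cast
    ring
  have hr2 : r ^ 2 = ρ ^ (2 * κ) := by
    rw [hr, ← Real.rpow_natCast, ← Real.rpow_mul ρ0.le]
    congr 1
    push_cast
    ring
  have hT1 : 1 ≤ T := by rw [← hτ2]; exact one_le_pow₀ τ1
  have hT0 : 0 < T := by linarith
  have hY0 : 0 ≤ Y := by rw [hY]; positivity
  have hv0 : 0 ≤ v := by rw [hv]; positivity
  have hvY : v ≤ Y := by
    rw [hv, hY]
    exact mul_le_mul_of_nonneg_left (by linarith) κ0.le
  have hM2 : M = 2 * 2 ^ κ := by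
    rw [hM, Real.rpow_add (by norm_num), Real.rpow_one]
  have h2κ : (2 : ℝ) ^ κ ≤ 0.99375 + 0.494 * X := shE_2 h0 h1 hX
  have h2κ1 : 1 ≤ (2 : ℝ) ^ κ := Real.one_le_rpow (by norm_num) κ0.le
  have hMle : M ≤ 1.9875 + 0.988 * X := by rw [hM2]; norm_num at h2κ ⊢; linarith
  have hM2' : 2 ≤ M := by rw [hM2]; linarith
  have hmax : max (T - 1) 0 = T - 1 := max_eq_left (by linarith)
  rw [hmax, ← hv] at s2 P1
  rw [← hM] at s2
  have hvy : v * (1 + ρ) ≤ 2 * ρ * Y := by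
    have h3 := shE_y ρ0 hθ y0 hyθ t0 tc' ts'
    have h4 := mul_le_mul_of_nonneg_left h3 κ0.le
    rw [hv, hY]
    linarith
  have hvYr : v ≤ Y * r := by
    have h3 := shE_half (κ := κ) ρ0 ρ1 (by linarith)
    rw [← hr] at h3
    have h4 : v * (1 + ρ) ≤ Y * r * (1 + ρ) := by
      have := mul_le_mul_of_nonneg_right h3 hY0
      linarith
    exact le_of_mul_le_mul_right h4 (by linarith)
  have hσ0 : 0 ≤ Real.sin v := Real.sin_nonneg_of_nonneg_of_le_pi hv0 (by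
    rw [hv]
    have : κ * y ≤ 1 * y := mul_le_mul_of_nonneg_right (by linarith) y0
    linarith)
  have hσv : Real.sin v ≤ v := Real.sin_le hv0
  have hsβ : 0 ≤ Real.sin β := Real.sin_nonneg_of_nonneg_of_le_pi β0 (by
    have := mul_pos κ0 hpi
    linarith)
  have eΛ : κ * (Real.pi / 2 + θ) = X + 2 * Y := by rw [hX, hY]; ring
  have hΛ1 : X + 2 * Y < Real.pi / 2 - X := by
    have e1 : κ * (Real.pi + θ) = X + 2 * Y + X := by rw [hX, hY]; ring
    linarith
  have hX0' : 0 < X := by rw [hX]; positivity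
  have hcos : Real.cos (X + 2 * Y + β) ≤ Real.cos (X + 2 * Y) := by
    apply Real.cos_le_cos_of_nonneg_of_le_pi
    · linarith
    · have e1 : κ * Real.pi = 2 * X := by rw [hX]; ring
      linarith
    · linarith
  have hcΛ : 0 ≤ Real.cos (X + 2 * Y) :=
    Real.cos_nonneg_of_mem_Icc ⟨by linarith, by linarith⟩
  have hsΛ : 0 ≤ Real.sin (X + 2 * Y) :=
    Real.sin_nonneg_of_nonneg_of_le_pi (by linarith) (by linarith)
  have eD : κ * Real.pi = 2 * X := by rw [hX]; ring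
  rw [eD] at P1
  obtain ⟨D, hD⟩ : ∃ D, D = 1 + Real.sin (2 * X) := ⟨_, rfl⟩
  rw [← hD] at P1
  have hD0 : 0 < D := by rw [hD]; exact (shE_D X0 X1).1
  obtain ⟨G, hG⟩ : ∃ G, G = (T - 1) / (T ^ 2 * r ^ 2) := ⟨_, rfl⟩
  have hGT : G * (T ^ 2 * r ^ 2) = T - 1 := by
    rw [hG, div_mul_cancel₀]
    positivity
  have hG0 : 0 ≤ G := by
    rw [hG]
    have : 0 ≤ T - 1 := by linarith
    positivity
  have hB : τ / r * Real.sin (X + v) - Real.sin (X + 2 * Y - 2 * v) ≤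
      τ / r * Real.sin (X + v) - Real.sin X := by
    have : Real.sin X ≤ Real.sin (X + 2 * Y - 2 * v) := by
      apply Real.sin_le_sin_of_le_of_le_pi_div_two <;> linarith
    linarith
  have hsX : 0 ≤ Real.sin X := Real.sin_nonneg_of_nonneg_of_le_pi hX0'.le (by linarith)
  have hB0 : 0 ≤ τ / r * Real.sin (X + v) - Real.sin X := by
    have h3 : Real.sin X ≤ Real.sin (X + v) := by
      apply Real.sin_le_sin_of_le_of_le_pi_div_two <;> linarith
    have h4 : 1 ≤ τ / r := by rw [le_div_iff₀ r0]; linarith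
    have h5 : 1 * Real.sin (X + v) ≤ τ / r * Real.sin (X + v) :=
      mul_le_mul_of_nonneg_right h4 (hsX.trans h3)
    linarith
  -- the conclusion in the new variables
  have eΩ : κ * (3 * Real.pi / 2 + 2 * θ - y) = 3 * X + 4 * Y - v := by rw [hX, hY, hv]; ring
  have concl : 2 * Real.sin β * Real.cos (X + 2 * Y + β) +
      P * (τ / r * Real.sin (X + v) - Real.sin (X + 2 * Y - 2 * v)) ≤
      r * τ * Real.sin (3 * X + 4 * Y - v) + (T - 1) * Real.sin (X + 2 * Y) →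
      ShCon κ θ ρ t y T P β := by
    intro h3
    unfold ShCon
    have e1 : κ * (Real.pi / 2 + y) = X + v := by rw [hX, hv]; ring
    have e2 : κ * (Real.pi / 2 + θ - 2 * y) = X + 2 * Y - 2 * v := by rw [hX, hY, hv]; ring
    have e3 : (t / ρ) ^ κ = τ / r := by rw [hτ, hr, Real.div_rpow t0.le ρ0.le]
    have e4 : (ρ * t) ^ κ = r * τ := by rw [hτ, hr, Real.mul_rpow ρ0.le t0.le]
    rw [eΛ, e1, e2, eΩ, e3, e4]
    exact h3
  apply concl
  have ht1 : t ≤ 1 + ρ := by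
    have h3 : t ^ 2 ≤ (1 + ρ) ^ 2 := by
      rw [ht2]
      have := mul_le_mul_of_nonneg_left (Real.cos_le_one θ) ρ0.le
      nlinarith
    exact le_of_sq_le_sq h3 (by linarith)
  have hGE : G * r ^ 2 ≤ T - 1 := by
    rw [← hGT]
    have h3 : 1 ≤ T ^ 2 := one_le_pow₀ hT1
    have h4 : G * r ^ 2 * 1 ≤ G * r ^ 2 * T ^ 2 := mul_le_mul_of_nonneg_left h3 (by positivity)
    linarith
  rcases le_or_gt θ (Real.pi / 2) with hθ2 | hθ2
  · have hYX : Y ≤ X / 2 := by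
      rw [hY, hX]
      have := mul_le_mul_of_nonneg_left hθ2 κ0.le
      linarith
    have hΩ0 : 3 * X + 3 * Y ≤ 3 * X + 4 * Y - v := by linarith
    have hΩ1 : 3 * X + 4 * Y - v ≤ Real.pi / 2 := by linarith
    have hTle : T ≤ (1 + ρ) ^ (2 * κ) := by
      rw [Tt]
      exact Real.rpow_le_rpow t0.le ht1 (by positivity)
    rcases le_or_gt (1 / 2) ρ with hρ2 | hρ2
    · -- case A
      obtain ⟨T1, hT1d⟩ : ∃ T1 : ℝ, T1 = 2 ^ (2 * κ) := ⟨_, rfl⟩
      have hT1u : T1 ≤ 0.9721 + 1.1061 * X := by rw [hT1d]; exact shE_2a h0 h1 hX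
      have hT1l : 1.1892 ≤ T1 := by rw [hT1d]; exact shE_2l h0
      have hT1p : 0 < T1 := lt_of_lt_of_le (by norm_num) hT1l
      have hT132 : T1 ≤ 1.32 := by norm_num at hT1u X1 ⊢; linarith
      have hTT1 : T ≤ T1 := by
        refine hTle.trans ?_
        rw [hT1d]
        exact Real.rpow_le_rpow (by linarith) (by linarith) (by positivity)
      have he : T - 1 ≤ (T1 - 1) * r ^ 2 := by
        have h3 := shE_inc (a := 2 * κ) (ρ := ρ) (n := 1) (by positivity) (by linarith) ρ0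
          le_rfl (by linarith)
        rw [Real.one_rpow, ← hr2, show (1 : ℝ) + 1 = 2 by norm_num, ← hT1d] at h3
        linarith
      have hw : 1 / T1 ≤ r ^ 2 := by
        rw [hr2, hT1d, one_div, ← Real.inv_rpow (by norm_num)]
        exact Real.rpow_le_rpow (by norm_num) (by norm_num; linarith) (by positivity)
      have hGle : G ≤ 0.0194 + 0.6192 * X := by
        have h3 := shE_G (E := T - 1) (C := T1 - 1) (w := r ^ 2) (T1 := T1) (by linarith) he rfl
          hT1l hT132 hw (pow_le_one₀ r0.le r1)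
        have e1 : 1 + (T - 1) = T := by ring
        rw [e1, ← hGT] at h3
        have h4 : G ≤ 0.55977 * T1 - 0.52478 := le_of_mul_le_mul_right h3 (by positivity)
        norm_num at h4 hT1u ⊢
        linarith
      have hr87 : 0.87 ≤ r := by
        have h3 : (1 / 2 : ℝ) ^ κ ≤ r := by
          rw [hr]
          exact Real.rpow_le_rpow (by norm_num) hρ2 κ0.le
        refine le_trans ?_ h3
        rw [one_div, Real.inv_rpow (by norm_num), ← one_div, le_div_iff₀ (by linarith)]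
        norm_num at h2κ X1 ⊢
        linarith
      have hq : 1 / T1 ≤ r / τ := by
        have h3 : 1 / T1 = (1 / T1) ^ (2 * (1 / 2 : ℝ)) := by norm_num
        have h4 : (1 / T1) ^ 2 ≤ (r / τ) ^ 2 := by
          rw [div_pow r, hτ2, le_div_iff₀ hT0]
          calc (1 / T1) ^ 2 * T ≤ (1 / T1) ^ 2 * T1 :=
                mul_le_mul_of_nonneg_left hTT1 (by positivity)
            _ = 1 / T1 := by field_simp
            _ ≤ _ := hw
        exact le_of_sq_le_sq h4 (by positivity)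
      refine shE_red (c := 0.57) (e := T1 - 1) (H := M * Y + 0.57 / 2 + M / (2 * 0.57) * G)
        (G := G) (Y := Y) (D := D) (s := s) (M := M) (by linarith) hT1 τ1 hτ2 r0 hσ0
        (hσv.trans hvYr) sd hsβ s2 (by norm_num) hGT rfl he hD0 P0 P1 hcos hcΛ hsΛ hB hB0 ?_
      exact shE_finA X0 X1 hY0 hYX hv0 hvY hM2' hMle hT0.le (hTT1.trans hT132) hT1u hT1l hr87 r1
        hq hG0 hGle hD hΩ0 hΩ1
    · -- case B
      obtain ⟨e, he⟩ : ∃ e : ℝ, e = 3 ^ (2 * κ) - 2 ^ (2 * κ) := ⟨_, rfl⟩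
      have hTe : T - 1 ≤ e * r ^ 2 := by
        have h3 := shE_inc (a := 2 * κ) (ρ := ρ) (n := 2) (by positivity) (by linarith) ρ0
          (by norm_num) (by linarith)
        rw [← hr2, show (2 : ℝ) + 1 = 3 by norm_num, ← he] at h3
        linarith
      have hGe : G ≤ e := by
        have : G * r ^ 2 ≤ e * r ^ 2 := hGE.trans hTe
        exact le_of_mul_le_mul_right this (by positivity)
      have he0 : 0 ≤ e := hG0.trans hGe
      have hT1u : (2 : ℝ) ^ (2 * κ) ≤ 0.9721 + 1.1061 * X := shE_2a h0 h1 hX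
      have h32 : (3 / 2 : ℝ) ^ (2 * κ) ≤ 0.9911 + 0.5891 * X := shE_32 h0 h1 hX
      have h321 : (1 : ℝ) ≤ (3 / 2 : ℝ) ^ (2 * κ) :=
        Real.one_le_rpow (by norm_num) (by positivity)
      have hele : e ≤ (0.9721 + 1.1061 * X) * (0.5891 * X - 0.0089) := by
        have e1 : e = 2 ^ (2 * κ) * ((3 / 2 : ℝ) ^ (2 * κ) - 1) := by
          rw [he, Real.div_rpow (by norm_num) (by norm_num)]
          have : (0 : ℝ) < 2 ^ (2 * κ) := Real.rpow_pos_of_pos (by norm_num) _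
          field_simp
        rw [e1]
        apply mul_le_mul hT1u _ (by linarith) (by positivity)
        norm_num at h32 ⊢
        linarith
      have hT177 : T ≤ 1.177 := by
        refine hTle.trans ?_
        have h3 : (1 + ρ) ^ (2 * κ) ≤ (3 / 2 : ℝ) ^ (2 * κ) :=
          Real.rpow_le_rpow (by linarith) (by linarith) (by positivity)
        refine h3.trans (h32.trans ?_)
        norm_num at X1 ⊢
        linarith
      have hvZ : v ≤ 0.767 * Y * r := by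
        have h3 := shE_B1 ρ0 hρ2.le h1
        rw [← hr] at h3
        have h4 : v * (1 + ρ) ≤ 0.767 * Y * r * (1 + ρ) := by
          have := mul_le_mul_of_nonneg_right h3 hY0
          linarith
        exact le_of_mul_le_mul_right h4 (by linarith)
      have hv23 : v ≤ 2 / 3 * Y := by
        have h4 : v * (1 + ρ) ≤ 2 / 3 * Y * (1 + ρ) := by
          have h5 : 2 * ρ ≤ 2 / 3 * (1 + ρ) := by linarith
          have := mul_le_mul_of_nonneg_right h5 hY0
          linarith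
        exact le_of_mul_le_mul_right h4 (by linarith)
      refine shE_red (c := 0.57) (e := e)
        (H := M * (0.767 * Y) + 0.57 / 2 + M / (2 * 0.57) * G)
        (G := G) (Y := 0.767 * Y) (D := D) (s := s) (M := M) (by linarith) hT1 τ1 hτ2 r0 hσ0
        (hσv.trans hvZ) sd hsβ s2 (by norm_num) hGT rfl hTe hD0 P0 P1 hcos hcΛ hsΛ hB hB0 ?_
      exact shE_finB X0 X1 hY0 hYX hv0 hv23 hM2' hMle hT0.le hT177 he0 hele r0.le
        (by positivity) hG0 hGe hD hΩ0 hΩ1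
  · -- case C
    have hYX : X / 2 ≤ Y := by
      rw [hY, hX]
      have := mul_le_mul_of_nonneg_left hθ2.le κ0.le
      linarith
    have hcθ0 : Real.cos θ ≤ 0 :=
      Real.cos_nonpos_of_pi_div_two_le_of_le hθ2.le (by linarith)
    have hcθ1 : -(1 / 2) ≤ Real.cos θ := by
      have h3 : 1 ≤ t ^ 2 := one_le_pow₀ ht
      rw [ht2] at h3
      have h4 : 0 ≤ ρ * (2 * Real.cos θ + ρ) := by nlinarith
      have h5 : 0 ≤ 2 * Real.cos θ + ρ := nonneg_of_mul_nonneg_right h4 ρ0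
      linarith
    have hθ3 : θ ≤ 2 * Real.pi / 3 := by
      by_contra hcon
      have h3 := Real.cos_lt_cos_of_nonneg_of_le_pi (by positivity : 0 ≤ 2 * Real.pi / 3) hθ.le
        (not_le.1 hcon)
      have h4 : Real.cos (2 * Real.pi / 3) = -(1 / 2) := by
        rw [show 2 * Real.pi / 3 = Real.pi - Real.pi / 3 by ring, Real.cos_pi_sub,
          Real.cos_pi_div_three]
      linarith
    have hYX2 : Y ≤ 2 / 3 * X := by
      rw [hY, hX]
      have := mul_le_mul_of_nonneg_left hθ3 κ0.le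
      linarith
    obtain ⟨e, he⟩ : ∃ e : ℝ, e = 2 ^ κ - 1 := ⟨_, rfl⟩
    have hTle : T ≤ (1 + ρ ^ 2) ^ κ := by
      have e1 : T = (t ^ 2) ^ κ := by
        rw [Tt, ← Real.rpow_natCast, ← Real.rpow_mul t0.le]
        congr 1
      rw [e1]
      apply Real.rpow_le_rpow (by positivity) _ κ0.le
      rw [ht2]
      have := mul_nonpos_of_nonneg_of_nonpos ρ0.le hcθ0
      linarith
    have hTe : T - 1 ≤ e * r ^ 2 := by
      have h3 := shE_inc (a := κ) (ρ := ρ ^ 2) (n := 1) κ0.le (by linarith) (by positivity)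
        le_rfl (by rw [one_mul]; exact pow_le_one₀ ρ0.le ρ1)
      have e2 : (ρ ^ 2) ^ κ = r ^ 2 := by
        rw [hr2, ← Real.rpow_natCast, ← Real.rpow_mul ρ0.le]
        congr 1
      rw [Real.one_rpow, e2, show (1 : ℝ) + 1 = 2 by norm_num, ← he] at h3
      linarith
    have hGe : G ≤ e := by
      have : G * r ^ 2 ≤ e * r ^ 2 := hGE.trans hTe
      exact le_of_mul_le_mul_right this (by positivity)
    have he0 : 0 ≤ e := hG0.trans hGe
    have hele : e ≤ 0.494 * X - 0.00625 := by rw [he]; norm_num at h2κ ⊢; linarith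
    have hT149 : T ≤ 1.149 := by
      have h3 : (1 + ρ ^ 2) ^ κ ≤ (2 : ℝ) ^ κ := by
        apply Real.rpow_le_rpow (by positivity) _ κ0.le
        have : ρ ^ 2 ≤ 1 := pow_le_one₀ ρ0.le ρ1
        linarith
      refine hTle.trans (h3.trans (h2κ.trans ?_))
      norm_num at X1 ⊢
      linarith
    refine shE_red (c := 0.57) (e := e) (H := M * Y + 0.57 / 2 + M / (2 * 0.57) * G)
      (G := G) (Y := Y) (D := D) (s := s) (M := M) (by linarith) hT1 τ1 hτ2 r0 hσ0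
      (hσv.trans hvYr) sd hsβ s2 (by norm_num) hGT rfl hTe hD0 P0 P1 hcos hcΛ hsΛ hB hB0 ?_
    exact shE_finC X0 X1 X5 hYX hYX2 hv0 hvY hM2' hMle hT0.le hT149 he0 hele r0.le
      (by positivity) hG0 hGe hD (by linarith) (by linarith)

/-- the closed inequality (H) for `1/8 ≤ κ ≤ 1/5` -/
theorem shE {κ : ℝ} (h0 : 1 / 8 ≤ κ) (h1 : κ ≤ 1 / 5) : ShH κ := by
  intro θ ρ t y T s P β h hθ
  rcases lt_or_ge t 1 with ht | ht
  · exact shT h h0 (by linarith) hθ ht
  · exact shE_ge h0 h1 h hθ ht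

end EQS
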