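import Mathlib
import Pool.Agent.Lib.MP_226de1_co.E.DShF1

/-! Closed inequality (H), `t ≥ 1`, `1/5 ≤ κ ≤ 1/4`: small lemmas for the assembly. -/

set_option autoImplicit false

namespace EQS

/-- `t ≥ 1` gives `y ≥ 2θ - π` -/
theorem shF_y {ρ θ t y : ℝ} (hρ0 : 0 < ρ) (hθ0 : 0 < θ) (hθ1 : θ < Real.pi)
    (hy0 : 0 ≤ y) (ht : 1 ≤ t)
    (hc : t * Real.cos y = 1 + ρ * Real.cos θ) (hs : t * Real.sin y = ρ * Real.sin θ) :
    2 * θ - Real.pi ≤ y := by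
  by_contra hcon
  have hcon' := not_le.1 hcon
  have hsθ : 0 < Real.sin θ := Real.sin_pos_of_pos_of_lt_pi hθ0 hθ1
  have h1 : t * Real.sin (θ - y) = Real.sin θ := by
    rw [Real.sin_sub]
    linear_combination Real.sin θ * hc - Real.cos θ * hs
  have hy : 0 < y := by
    rcases hy0.eq_or_lt with h | h
    · rw [← h, Real.sin_zero, mul_zero] at hs
      have : 0 < ρ * Real.sin θ := mul_pos hρ0 hsθ
      linarith
    · exact h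
  have h2 : Real.sin (θ - y) - Real.sin θ = -(2 * Real.sin (y / 2) * Real.cos (θ - y / 2)) := by
    rw [Real.sin_sub_sin]
    rw [show (θ - y - θ) / 2 = -(y / 2) by ring, show (θ - y + θ) / 2 = θ - y / 2 by ring,
      Real.sin_neg]
    ring
  have h3 : 0 < Real.sin (y / 2) := Real.sin_pos_of_pos_of_lt_pi (by linarith) (by linarith)
  have h4 : Real.cos (θ - y / 2) < 0 := by
    apply Real.cos_neg_of_pi_div_two_lt_of_lt <;> linarith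
  have h5 : 2 * Real.sin (y / 2) * Real.cos (θ - y / 2) < 0 :=
    mul_neg_of_pos_of_neg (by linarith) h4
  have h6 : 0 < Real.sin (θ - y) := by linarith
  have h7 : 1 * Real.sin (θ - y) ≤ t * Real.sin (θ - y) := mul_le_mul_of_nonneg_right ht h6.le
  linarith

theorem shF_low {x q κ : ℝ} (hx0 : 0 < x) (hx1 : x ≤ 1) (hκ : κ ≤ 1 / 4) (hq0 : 0 ≤ q)
    (hq : q ^ 4 ≤ x) : q ≤ x ^ κ := by
  have h1 : x ^ (1 / 4 : ℝ) ≤ x ^ κ := Real.rpow_le_rpow_of_exponent_ge hx0 hx1 hκ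
  refine le_trans ?_ h1
  have h2 : (q ^ 4) ^ (1 / 4 : ℝ) ≤ x ^ (1 / 4 : ℝ) :=
    Real.rpow_le_rpow (by positivity) hq (by norm_num)
  have h3 : (q ^ 4) ^ (1 / 4 : ℝ) = q := by
    have := Real.pow_rpow_inv_natCast (x := q) (n := 4) hq0 (by norm_num)
    push_cast at this
    rw [one_div]
    exact this
  linarith

theorem shF_top {b u κ : ℝ} (hb : 1 ≤ b) (hκ : κ ≤ 1 / 4) (hu : 0 ≤ u) (h : b ≤ u ^ 4) :
    b ^ κ ≤ u := by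
  have h1 : b ^ κ ≤ b ^ (1 / 4 : ℝ) := Real.rpow_le_rpow_of_exponent_le hb hκ
  have r1 := shE_root (b := b) (u := u) (n := 4) (by norm_num) (by linarith) hu h
  push_cast at r1
  exact h1.trans r1

theorem shF_Z {ρ κ Zf pm : ℝ} (hρ0 : 0 < ρ) (hρ1 : ρ ≤ pm ^ 4) (hpm0 : 0 ≤ pm) (hpm : pm ≤ 0.841)
    (hκ : κ ≤ 1 / 4) (hZ1 : Zf ≤ 1) (hZ0 : 0 ≤ Zf) (hZ : 2 * pm ^ 3 ≤ Zf * (1 + pm ^ 4)) :
    2 * ρ ≤ Zf * ρ ^ κ * (1 + ρ) := by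
  have hρ1' : ρ ≤ 1 := by
    refine hρ1.trans ?_
    exact pow_le_one₀ hpm0 (hpm.trans (by norm_num))
  have h1 : ρ ^ (1 / 4 : ℝ) ≤ ρ ^ κ := Real.rpow_le_rpow_of_exponent_ge hρ0 hρ1' hκ
  obtain ⟨p, hp⟩ : ∃ p, p = ρ ^ (1 / 4 : ℝ) := ⟨_, rfl⟩
  rw [← hp] at h1
  have hp0 : 0 < p := by rw [hp]; exact Real.rpow_pos_of_pos hρ0 _
  have hp5 : p ^ 4 = ρ := by
    rw [hp, ← Real.rpow_natCast, ← Real.rpow_mul hρ0.le]
    norm_num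
  have hpq : p ≤ pm := by
    by_contra hcon
    have h2 : pm ^ 4 < p ^ 4 := pow_lt_pow_left₀ (not_le.1 hcon) hpm0 (by norm_num)
    rw [hp5] at h2
    linarith
  have h3 : 2 * p ^ 3 ≤ Zf * (1 + p ^ 4) := by
    -- `p³ (2 - Z p) ≤ pm³ (2 - Z pm)`
    have e1 : p ^ 2 ≤ pm ^ 2 := pow_le_pow_left₀ hp0.le hpq 2
    have hZp : Zf * (p + pm) ≤ 2 := by
      have : Zf * (p + pm) ≤ 1 * (p + pm) := mul_le_mul_of_nonneg_right hZ1 (by linarith)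
      norm_num at hpm
      linarith
    have e0 : 0 ≤ 2 - Zf * p := by
      have : 0 ≤ Zf * pm := by positivity
      linarith
    have e4 : p * (2 - Zf * p) ≤ pm * (2 - Zf * pm) := by
      have e5 : 0 ≤ (pm - p) * (2 - Zf * (p + pm)) := mul_nonneg (by linarith) (by linarith)
      linarith
    have e6 : p ^ 2 * (p * (2 - Zf * p)) ≤ pm ^ 2 * (pm * (2 - Zf * pm)) :=
      mul_le_mul e1 e4 (by positivity) (by positivity)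
    linarith
  have h4 : 2 * ρ ≤ Zf * p * (1 + ρ) := by
    rw [← hp5]
    calc 2 * p ^ 4 = 2 * p ^ 3 * p := by ring
      _ ≤ Zf * (1 + p ^ 4) * p := mul_le_mul_of_nonneg_right h3 hp0.le
      _ = _ := by ring
  refine h4.trans (mul_le_mul_of_nonneg_right ?_ (by linarith))
  exact mul_le_mul_of_nonneg_left h1 hZ0

theorem shF_Z2 {ρ κ : ℝ} (hρ0 : 0 < ρ) (hρ1 : ρ ≤ 1 / 2) (hκ : κ ≤ 1 / 4) :
    2 * ρ ≤ 0.793 * ρ ^ κ * (1 + ρ) :=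
  shF_Z (pm := 0.8409) hρ0 (hρ1.trans (by norm_num)) (by norm_num) (by norm_num) hκ (by norm_num)
    (by norm_num) (by norm_num)

theorem shF_Z4 {ρ κ : ℝ} (hρ0 : 0 < ρ) (hρ1 : ρ ≤ 1 / 4) (hκ : κ ≤ 1 / 4) :
    2 * ρ ≤ 0.566 * ρ ^ κ * (1 + ρ) :=
  shF_Z (pm := 0.70711) hρ0 (hρ1.trans (by norm_num)) (by norm_num) (by norm_num) hκ
    (by norm_num) (by norm_num) (by norm_num)

section
variable {κ X : ℝ}

theorem shF_2 (h0 : 1 / 5 ≤ κ) (h1 : κ ≤ 1 / 4) (hX : X = κ * (Real.pi / 2)) :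
    (2 : ℝ) ^ κ ≤ 0.98666 + 0.51581 * X := by
  have h := shF_ch (b := 2) (u0 := 1.1487) (u1 := 1.18921) (by norm_num) h0 h1 hX (by norm_num)
    (by norm_num) (by norm_num) (by norm_num)
  obtain ⟨h2, _, _⟩ := shF_X h0 h1 hX
  norm_num at h h2 ⊢
  linarith

theorem shF_4 (h0 : 1 / 5 ≤ κ) (h1 : κ ≤ 1 / 4) (hX : X = κ * (Real.pi / 2)) :
    (4 : ℝ) ^ κ ≤ 0.94068 + 1.20593 * X := by
  have h := shF_ch (b := 4) (u0 := 1.31951) (u1 := 1.41422) (by norm_num) h0 h1 hX (by norm_num)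
    (by norm_num) (by norm_num) (by norm_num)
  obtain ⟨h2, _, _⟩ := shF_X h0 h1 hX
  norm_num at h h2 ⊢
  linarith

theorem shF_94 (h0 : 1 / 5 ≤ κ) (h1 : κ ≤ 1 / 4) (hX : X = κ * (Real.pi / 2)) :
    (9 / 4 : ℝ) ^ κ ≤ 0.9814 + 0.61971 * X := by
  have h := shF_ch (b := 9 / 4) (u0 := 1.17608) (u1 := 1.22475) (by norm_num) h0 h1 hX
    (by norm_num) (by norm_num) (by norm_num) (by norm_num)
  obtain ⟨h2, _, _⟩ := shF_X h0 h1 hX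
  norm_num at h h2 ⊢
  linarith

theorem shF_2516 (h0 : 1 / 5 ≤ κ) (h1 : κ ≤ 1 / 4) (hX : X = κ * (Real.pi / 2)) :
    (25 / 16 : ℝ) ^ κ ≤ 0.9947 + 0.31412 * X := by
  have h := shF_ch (b := 25 / 16) (u0 := 1.09337) (u1 := 1.11804) (by norm_num) h0 h1 hX
    (by norm_num) (by norm_num) (by norm_num) (by norm_num)
  obtain ⟨h2, _, _⟩ := shF_X h0 h1 hX
  norm_num at h h2 ⊢
  linarith

theorem shF_54 (h0 : 1 / 5 ≤ κ) (h1 : κ ≤ 1 / 4) (hX : X = κ * (Real.pi / 2)) :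
    (5 / 4 : ℝ) ^ κ ≤ 0.99868 + 0.14949 * X := by
  have h := shF_ch (b := 5 / 4) (u0 := 1.04564) (u1 := 1.05738) (by norm_num) h0 h1 hX
    (by norm_num) (by norm_num) (by norm_num) (by norm_num)
  obtain ⟨h2, _, _⟩ := shF_X h0 h1 hX
  norm_num at h h2 ⊢
  linarith

theorem shF_eA (h0 : 1 / 5 ≤ κ) (h1 : κ ≤ 1 / 4) (hX : X = κ * (Real.pi / 2)) :
    (2 : ℝ) ^ (2 * κ) - 1 ^ (2 * κ) ≤ 1.20593 * X - 0.05932 := by
  have h := shF_4 h0 h1 hX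
  have e1 : (2 : ℝ) ^ (2 * κ) = 4 ^ κ := by
    rw [show (4 : ℝ) = 2 ^ (2 : ℝ) by norm_num, ← Real.rpow_mul (by norm_num)]
  rw [e1, Real.one_rpow]
  norm_num at h ⊢
  linarith

theorem shF_eB (h0 : 1 / 5 ≤ κ) (h1 : κ ≤ 1 / 4) (hX : X = κ * (Real.pi / 2)) :
    (3 : ℝ) ^ (2 * κ) - 2 ^ (2 * κ) ≤ 0.8765 * X - 0.0263 := by
  obtain ⟨h2, h3, _⟩ := shF_X h0 h1 hX
  have h := shF_94 h0 h1 hX
  have h4 := shF_top (b := 4) (u := 1.41422) (by norm_num) h1 (by norm_num) (by norm_num)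
  have e1 : (2 : ℝ) ^ (2 * κ) = 4 ^ κ := by
    rw [show (4 : ℝ) = 2 ^ (2 : ℝ) by norm_num, ← Real.rpow_mul (by norm_num)]
  have e2 : (3 : ℝ) ^ (2 * κ) = 4 ^ κ * (9 / 4) ^ κ := by
    rw [← Real.mul_rpow (by norm_num) (by norm_num), show (4 : ℝ) * (9 / 4) = 3 ^ (2 : ℝ) by norm_num,
      ← Real.rpow_mul (by norm_num)]
  have h5 : (1 : ℝ) ≤ (9 / 4) ^ κ := Real.one_le_rpow (by norm_num) (by linarith)
  have h6 : (4 : ℝ) ^ κ * ((9 / 4) ^ κ - 1) ≤ 1.41422 * (0.61971 * X - 0.0186) := by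
    apply mul_le_mul h4 _ (by linarith) (by norm_num)
    norm_num at h ⊢
    linarith
  have e3 : (4 : ℝ) ^ κ * ((9 / 4) ^ κ - 1) = 4 ^ κ * (9 / 4) ^ κ - 4 ^ κ := by ring
  rw [e1, e2]
  norm_num at h6 h2 ⊢
  linarith

theorem shF_eC (h0 : 1 / 5 ≤ κ) (h1 : κ ≤ 1 / 4) (hX : X = κ * (Real.pi / 2)) :
    (5 : ℝ) ^ (2 * κ) - 4 ^ (2 * κ) ≤ 0.62824 * X - 0.0106 := by
  obtain ⟨h2, h3, _⟩ := shF_X h0 h1 hX
  have h := shF_2516 h0 h1 hX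
  have h4 := shF_top (b := 16) (u := 2) (by norm_num) h1 (by norm_num) (by norm_num)
  have e1 : (4 : ℝ) ^ (2 * κ) = 16 ^ κ := by
    rw [show (16 : ℝ) = 4 ^ (2 : ℝ) by norm_num, ← Real.rpow_mul (by norm_num)]
  have e2 : (5 : ℝ) ^ (2 * κ) = 16 ^ κ * (25 / 16) ^ κ := by
    rw [← Real.mul_rpow (by norm_num) (by norm_num),
      show (16 : ℝ) * (25 / 16) = 5 ^ (2 : ℝ) by norm_num, ← Real.rpow_mul (by norm_num)]
  have h5 : (1 : ℝ) ≤ (25 / 16) ^ κ := Real.one_le_rpow (by norm_num) (by linarith)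
  have h6 : (16 : ℝ) ^ κ * ((25 / 16) ^ κ - 1) ≤ 2 * (0.31412 * X - 0.0053) := by
    apply mul_le_mul h4 _ (by linarith) (by norm_num)
    norm_num at h ⊢
    linarith
  have e3 : (16 : ℝ) ^ κ * ((25 / 16) ^ κ - 1) = 16 ^ κ * (25 / 16) ^ κ - 16 ^ κ := by ring
  rw [e1, e2]
  norm_num at h6 h2 ⊢
  linarith

theorem shF_eD (h0 : 1 / 5 ≤ κ) (h1 : κ ≤ 1 / 4) (hX : X = κ * (Real.pi / 2)) :
    (2 : ℝ) ^ κ - 1 ^ κ ≤ 0.51581 * X - 0.01334 := by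
  have h := shF_2 h0 h1 hX
  rw [Real.one_rpow]
  norm_num at h ⊢
  linarith

theorem shF_eE (h0 : 1 / 5 ≤ κ) (h1 : κ ≤ 1 / 4) (hX : X = κ * (Real.pi / 2)) :
    (5 : ℝ) ^ κ - 4 ^ κ ≤ 0.2115 * X - 0.0018 := by
  obtain ⟨h2, h3, _⟩ := shF_X h0 h1 hX
  have h := shF_54 h0 h1 hX
  have h4 := shF_top (b := 4) (u := 1.41422) (by norm_num) h1 (by norm_num) (by norm_num)
  have e2 : (5 : ℝ) ^ κ = 4 ^ κ * (5 / 4) ^ κ := by
    rw [← Real.mul_rpow (by norm_num) (by norm_num)]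
    norm_num
  have h5 : (1 : ℝ) ≤ (5 / 4) ^ κ := Real.one_le_rpow (by norm_num) (by linarith)
  have h6 : (4 : ℝ) ^ κ * ((5 / 4) ^ κ - 1) ≤ 1.41422 * (0.14949 * X - 0.00132) := by
    apply mul_le_mul h4 _ (by linarith) (by norm_num)
    norm_num at h ⊢
    linarith
  have e3 : (4 : ℝ) ^ κ * ((5 / 4) ^ κ - 1) = 4 ^ κ * (5 / 4) ^ κ - 4 ^ κ := by ring
  rw [e2]
  norm_num at h6 h2 ⊢
  linarith

end

theorem shF_gA {X : ℝ} (h2 : 0.31415 ≤ X) (h3 : X ≤ 0.3927) :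
    1.20593 * X - 0.05932 ≤ (0.4471 * X + 0.0734) * (1 + (1.20593 * X - 0.05932) * 0.7071) ^ 2 := by
  norm_num at h2 h3 ⊢
  nlinarith [mul_nonneg (sub_nonneg.2 h2) (sub_nonneg.2 h3),
    mul_nonneg (mul_nonneg (sub_nonneg.2 h2) (sub_nonneg.2 h3)) (by linarith : 0 ≤ X),
    sq_nonneg (X - 0.353)]

theorem shF_gB {X : ℝ} (h2 : 0.31415 ≤ X) (h3 : X ≤ 0.3927) :
    0.8765 * X - 0.0263 ≤ (0.5054 * X + 0.0389) * (1 + (0.8765 * X - 0.0263) * 0.5) ^ 2 := by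
  norm_num at h2 h3 ⊢
  nlinarith [mul_nonneg (sub_nonneg.2 h2) (sub_nonneg.2 h3),
    mul_nonneg (mul_nonneg (sub_nonneg.2 h2) (sub_nonneg.2 h3)) (by linarith : 0 ≤ X),
    sq_nonneg (X - 0.353)]

theorem shF_gD {X : ℝ} (h2 : 0.31415 ≤ X) (h3 : X ≤ 0.3927) :
    0.51581 * X - 0.01334 ≤
      (0.3238 * X + 0.0205) * (1 + (0.51581 * X - 0.01334) * 0.7071) ^ 2 := by
  norm_num at h2 h3 ⊢
  nlinarith [mul_nonneg (sub_nonneg.2 h2) (sub_nonneg.2 h3),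
    mul_nonneg (mul_nonneg (sub_nonneg.2 h2) (sub_nonneg.2 h3)) (by linarith : 0 ≤ X),
    sq_nonneg (X - 0.353)]

end EQS
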