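import Mathlib
import Pool.Agent.Lib.MP_226de1_co.E.DShF2
import Pool.Agent.Lib.MP_226de1_co.E.PLK

/-! Closed inequality (H), `t ≥ 1`, `1/5 ≤ κ ≤ 1/4`: the core reduction and the five cells. -/

set_option autoImplicit false

namespace EQS

/-- the facts used in one cell -/
structure ShFC (κ ρ t eb Gb Tb Zf Vf q0 r00 : ℝ) : Prop where
  a1 : t ^ (2 * κ) - 1 ≤ eb * ρ ^ (2 * κ)
  a2 : t ^ (2 * κ) - 1 ≤ Gb * ((t ^ (2 * κ)) ^ 2 * ρ ^ (2 * κ))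
  a3 : t ^ (2 * κ) ≤ Tb
  a4 : 0 ≤ Zf
  a5 : 2 * ρ ≤ Zf * ρ ^ κ * (1 + ρ)
  a6 : 2 * ρ ≤ Vf * (1 + ρ)
  a7 : q0 ≤ (ρ / t) ^ κ
  a8 : q0 ≤ 1
  a9 : 0 ≤ r00
  a10 : r00 ≤ ρ ^ κ

theorem shF_core {κ θ ρ t y T s P β eb Gb Tb Zf Vf q0 r00 : ℝ} (h0 : 1 / 5 ≤ κ) (h1 : κ ≤ 1 / 4)
    (h : ShDat κ (Real.pi + θ) ρ t y T s P β (2 ^ (1 + κ))) (hθ : θ < Real.pi) (ht : 1 ≤ t)
    (hc : ShFC κ ρ t eb Gb Tb Zf Vf q0 r00) (hYX : κ * (θ / 2) ≤ 2 / 3 * (κ * (Real.pi / 2)))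
    (hF : shF_F (κ * (Real.pi / 2)) (κ * (θ / 2)) eb Gb Tb Zf Vf q0 r00 ≤
      Real.sin (κ * (3 * Real.pi / 2 + 2 * θ - y))) :
    ShCon κ θ ρ t y T P β := by
  have hpi := Real.pi_pos
  have κ0 : 0 < κ := by linarith
  obtain ⟨κF, ρ0, ρ1, y0, y1, yF, t0, tc, ts, ty, Tt, β0, β1, sd, s2, P0, P1, P2, T1'⟩ := h
  have hyθ : 2 * y ≤ θ := by linarith
  have hθ0 : 0 ≤ θ := by linarith
  have hcθ : Real.cos (Real.pi + θ) = -Real.cos θ := by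
    rw [add_comm, Real.cos_add_pi]
  have hsθ : Real.sin (Real.pi + θ) = -Real.sin θ := by
    rw [add_comm, Real.sin_add_pi]
  have tc' : t * Real.cos y = 1 + ρ * Real.cos θ := by rw [tc, hcθ]; ring
  have ts' : t * Real.sin y = ρ * Real.sin θ := by rw [ts, hsθ]; ring
  have eΩ : κ * (3 * Real.pi / 2 + 2 * θ - y) = 3 * (κ * (Real.pi / 2)) + 4 * (κ * (θ / 2)) -
      κ * y := by ring
  rw [eΩ] at hF
  obtain ⟨X, hX⟩ : ∃ X, X = κ * (Real.pi / 2) := ⟨_, rfl⟩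
  obtain ⟨Y, hY⟩ : ∃ Y, Y = κ * (θ / 2) := ⟨_, rfl⟩
  obtain ⟨v, hv⟩ : ∃ v, v = κ * y := ⟨_, rfl⟩
  obtain ⟨r, hr⟩ : ∃ r, r = ρ ^ κ := ⟨_, rfl⟩
  obtain ⟨τ, hτ⟩ : ∃ τ, τ = t ^ κ := ⟨_, rfl⟩
  obtain ⟨M, hM⟩ : ∃ M : ℝ, M = 2 ^ (1 + κ) := ⟨_, rfl⟩
  rw [← hX, ← hY] at hF hYX
  rw [← hv] at hF
  obtain ⟨X0, X1, _⟩ := shF_X h0 h1 hX
  have X8 : 8 * X ≤ Real.pi := by rw [hX]; nlinarith
  have r0 : 0 < r := by rw [hr]; exact Real.rpow_pos_of_pos ρ0 _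
  have r1 : r ≤ 1 := by rw [hr]; exact Real.rpow_le_one ρ0.le ρ1 κ0.le
  have τ1 : 1 ≤ τ := by rw [hτ]; exact Real.one_le_rpow ht κ0.le
  have τ0 : 0 < τ := by linarith
  have hτ2 : τ ^ 2 = T := by
    rw [hτ, Tt, ← Real.rpow_natCast, ← Real.rpow_mul t0.le]
    congr 1
    push_cast
    ring
  have hr2 : r ^ 2 = ρ ^ (2 * κ) := by
    rw [hr, ← Real.rpow_natCast, ← Real.rpow_mul ρ0.le]
    congr 1
    push_cast
    ring
  obtain ⟨a1, a2, a3, a4, a5, a6, a7, a8, a9, a10⟩ := hc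
  rw [← Tt, ← hr2] at a1 a2
  rw [← Tt] at a3
  rw [← hr] at a10
  have hT1 : 1 ≤ T := by rw [← hτ2]; exact one_le_pow₀ τ1
  have hT0 : 0 < T := by linarith
  have hY0 : 0 ≤ Y := by rw [hY]; positivity
  have hv0 : 0 ≤ v := by rw [hv]; positivity
  have hM2 : M = 2 * 2 ^ κ := by
    rw [hM, Real.rpow_add (by norm_num), Real.rpow_one]
  have h2κ : (2 : ℝ) ^ κ ≤ 0.98666 + 0.51581 * X := shF_2 h0 h1 hX
  have h2κ1 : 1.148 ≤ (2 : ℝ) ^ κ := by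
    have h3 : (2 : ℝ) ^ (1 / 5 : ℝ) ≤ 2 ^ κ :=
      Real.rpow_le_rpow_of_exponent_le (by norm_num) h0
    refine le_trans ?_ h3
    have h4 : ((1.148 : ℝ) ^ 5) ^ (1 / 5 : ℝ) ≤ (2 : ℝ) ^ (1 / 5 : ℝ) :=
      Real.rpow_le_rpow (by norm_num) (by norm_num) (by norm_num)
    have h5 : ((1.148 : ℝ) ^ 5) ^ (1 / 5 : ℝ) = 1.148 := by
      have := Real.pow_rpow_inv_natCast (x := 1.148) (n := 5) (by norm_num) (by norm_num)
      push_cast at this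
      rw [one_div]
      exact this
    linarith
  have hMle : M ≤ 1.97332 + 1.03162 * X := by rw [hM2]; norm_num at h2κ ⊢; linarith
  have hM2' : 2.296 ≤ M := by rw [hM2]; norm_num at h2κ1 ⊢; linarith
  have hmax : max (T - 1) 0 = T - 1 := max_eq_left (by linarith)
  rw [hmax, ← hv] at s2 P1
  rw [← hM] at s2
  have hvy : v * (1 + ρ) ≤ 2 * ρ * Y := by
    have h3 := shE_y ρ0 hθ y0 hyθ t0 tc' ts'
    have h4 := mul_le_mul_of_nonneg_left h3 κ0.le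
    rw [hv, hY]
    linarith
  have hvZ : v ≤ Zf * Y * r := by
    rw [← hr] at a5
    have h4 : v * (1 + ρ) ≤ Zf * Y * r * (1 + ρ) := by
      have := mul_le_mul_of_nonneg_right a5 hY0
      linarith
    exact le_of_mul_le_mul_right h4 (by linarith)
  have hvV : v ≤ Vf * Y := by
    have h4 : v * (1 + ρ) ≤ Vf * Y * (1 + ρ) := by
      have := mul_le_mul_of_nonneg_right a6 hY0
      linarith
    exact le_of_mul_le_mul_right h4 (by linarith)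
  have hvY : v ≤ Y := by
    rw [hv, hY]
    exact mul_le_mul_of_nonneg_left (by linarith) κ0.le
  have hσ0 : 0 ≤ Real.sin v := Real.sin_nonneg_of_nonneg_of_le_pi hv0 (by
    rw [hv]
    have : κ * y ≤ 1 * y := mul_le_mul_of_nonneg_right (by linarith) y0
    linarith)
  have hσv : Real.sin v ≤ v := Real.sin_le hv0
  have hsβ : 0 ≤ Real.sin β := Real.sin_nonneg_of_nonneg_of_le_pi β0 (by
    have := mul_pos κ0 hpi
    linarith)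
  have eΛ : κ * (Real.pi / 2 + θ) = X + 2 * Y := by rw [hX, hY]; ring
  have hΛ1 : X + 2 * Y < Real.pi / 2 - X := by
    have e1 : κ * (Real.pi + θ) = X + 2 * Y + X := by rw [hX, hY]; ring
    linarith
  have hX0' : 0 < X := by rw [hX]; positivity
  have hcos : Real.cos (X + 2 * Y + β) ≤ Real.cos (X + 2 * Y) := by
    apply Real.cos_le_cos_of_nonneg_of_le_pi
    · linarith
    · have e1 : κ * Real.pi = 2 * X := by rw [hX]; ring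
      linarith
    · linarith
  have hcΛ : 0 ≤ Real.cos (X + 2 * Y) :=
    Real.cos_nonneg_of_mem_Icc ⟨by linarith, by linarith⟩
  have hsΛ : 0 ≤ Real.sin (X + 2 * Y) :=
    Real.sin_nonneg_of_nonneg_of_le_pi (by linarith) (by linarith)
  have eD : κ * Real.pi = 2 * X := by rw [hX]; ring
  rw [eD] at P1
  obtain ⟨D, hD⟩ : ∃ D, D = 1 + Real.sin (2 * X) := ⟨_, rfl⟩
  rw [← hD] at P1
  have X0' : 0.314 ≤ X := by norm_num at X0 ⊢; linarith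
  have hD0 : 0 < D := by rw [hD]; exact (shF_D X0' X1).1
  obtain ⟨G, hG⟩ : ∃ G, G = (T - 1) / (T ^ 2 * r ^ 2) := ⟨_, rfl⟩
  have hGT : G * (T ^ 2 * r ^ 2) = T - 1 := by
    rw [hG, div_mul_cancel₀]
    positivity
  have hG0 : 0 ≤ G := by
    rw [hG]
    have : 0 ≤ T - 1 := by linarith
    positivity
  have hGb : G ≤ Gb := by
    rw [← hGT] at a2
    exact le_of_mul_le_mul_right a2 (by positivity)
  have heb : 0 ≤ eb := by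
    by_contra hcon
    have := mul_neg_of_neg_of_pos (not_le.1 hcon) (by positivity : 0 < r ^ 2)
    linarith
  have hB : τ / r * Real.sin (X + v) - Real.sin (X + 2 * Y - 2 * v) ≤
      τ / r * Real.sin (X + v) - Real.sin X := by
    have : Real.sin X ≤ Real.sin (X + 2 * Y - 2 * v) := by
      apply Real.sin_le_sin_of_le_of_le_pi_div_two <;> linarith
    linarith
  have hsX : 0 ≤ Real.sin X := Real.sin_nonneg_of_nonneg_of_le_pi hX0'.le (by linarith)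
  have hB0 : 0 ≤ τ / r * Real.sin (X + v) - Real.sin X := by
    have h3 : Real.sin X ≤ Real.sin (X + v) := by
      apply Real.sin_le_sin_of_le_of_le_pi_div_two <;> linarith
    have h4 : 1 ≤ τ / r := by rw [le_div_iff₀ r0]; linarith
    have h5 : 1 * Real.sin (X + v) ≤ τ / r * Real.sin (X + v) :=
      mul_le_mul_of_nonneg_right h4 (hsX.trans h3)
    linarith
  have hqe : (ρ / t) ^ κ = r / τ := by rw [hτ, hr, Real.div_rpow ρ0.le t0.le]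
  rw [hqe] at a7
  -- the conclusion in the new variables
  have eΩ' : κ * (3 * Real.pi / 2 + 2 * θ - y) = 3 * X + 4 * Y - v := by rw [hX, hY, hv]; ring
  have concl : 2 * Real.sin β * Real.cos (X + 2 * Y + β) +
      P * (τ / r * Real.sin (X + v) - Real.sin (X + 2 * Y - 2 * v)) ≤
      r * τ * Real.sin (3 * X + 4 * Y - v) + (T - 1) * Real.sin (X + 2 * Y) →
      ShCon κ θ ρ t y T P β := by
    intro h3
    unfold ShCon
    have e1 : κ * (Real.pi / 2 + y) = X + v := by rw [hX, hv]; ring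
    have e2 : κ * (Real.pi / 2 + θ - 2 * y) = X + 2 * Y - 2 * v := by rw [hX, hY, hv]; ring
    have e3 : (t / ρ) ^ κ = τ / r := by rw [hτ, hr, Real.div_rpow t0.le ρ0.le]
    have e4 : (ρ * t) ^ κ = r * τ := by rw [hτ, hr, Real.mul_rpow ρ0.le t0.le]
    rw [eΛ, e1, e2, eΩ', e3, e4]
    exact h3
  apply concl
  have f := shF_fin (X := X) (Y := Y) (v := v) (M := M) (T := T) (e := eb) (r := r)
    (q := r / τ) (G := G) (D := D) (eb := eb) (Gb := Gb) (Tb := Tb) (Zf := Zf) (Vf := Vf)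
    (q0 := q0) (r0 := r00) X0' X1 hY0 hYX hv0 hvV hM2' hMle hT0.le a3 heb le_rfl a9 a10 r1 a7 a8
    hG0 hGb a4 hD
  refine shE_red (c := 0.7) (e := eb)
    (H := M * (Zf * Y) + 0.7 / 2 + M / (2 * 0.7) * G)
    (G := G) (Y := Zf * Y) (D := D) (s := s) (M := M) (by linarith) hT1 τ1 hτ2 r0 hσ0
    (hσv.trans hvZ) sd hsβ s2 (by norm_num) hGT rfl a1 hD0 P0 P1 hcos hcΛ hsΛ hB hB0 ?_
  linarith

section
variable {κ ρ t X : ℝ}

theorem shF_sq2κ {b : ℝ} (hb : 0 ≤ b) : (b ^ 2) ^ κ = b ^ (2 * κ) := by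
  rw [← Real.rpow_natCast, ← Real.rpow_mul hb]
  norm_num

/-- `t^(2κ) ≤ u` from `t² ≤ b ≤ u⁴` -/
theorem shF_T {b u : ℝ} (h0 : 0 ≤ κ) (h1 : κ ≤ 1 / 4) (ht : 0 ≤ t) (hb1 : 1 ≤ b)
    (hb : t ^ 2 ≤ b) (hu : 0 ≤ u) (h : b ≤ u ^ 4) : t ^ (2 * κ) ≤ u := by
  rw [← shF_sq2κ ht]
  exact (Real.rpow_le_rpow (by positivity) hb h0).trans (shF_top hb1 h1 hu h)

/-- the increment for `t ≤ 1 + ρ` -/
theorem shF_a1 {n eb : ℝ} (h0 : 0 ≤ κ) (h1 : κ ≤ 1 / 4) (hρ : 0 < ρ) (hn : 1 ≤ n)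
    (hnρ : n * ρ ≤ 1) (ht0 : 0 ≤ t) (ht : t ≤ 1 + ρ) (he : (n + 1) ^ (2 * κ) - n ^ (2 * κ) ≤ eb) :
    t ^ (2 * κ) - 1 ≤ eb * ρ ^ (2 * κ) := by
  have h3 := shE_inc (a := 2 * κ) (ρ := ρ) (n := n) (by positivity) (by linarith) hρ hn hnρ
  have h4 : t ^ (2 * κ) ≤ (1 + ρ) ^ (2 * κ) := Real.rpow_le_rpow ht0 ht (by positivity)
  have h5 := mul_le_mul_of_nonneg_right he (Real.rpow_nonneg hρ.le (2 * κ))
  linarith

/-- the increment for `t² ≤ 1 + ρ²` -/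
theorem shF_a1' {n eb : ℝ} (h0 : 0 ≤ κ) (h1 : κ ≤ 1 / 4) (hρ : 0 < ρ) (hn : 1 ≤ n)
    (hnρ : n * ρ ^ 2 ≤ 1) (ht0 : 0 ≤ t) (ht : t ^ 2 ≤ 1 + ρ ^ 2) (he : (n + 1) ^ κ - n ^ κ ≤ eb) :
    t ^ (2 * κ) - 1 ≤ eb * ρ ^ (2 * κ) := by
  have h3 := shE_inc (a := κ) (ρ := ρ ^ 2) (n := n) h0 (by linarith) (by positivity) hn hnρ
  have h4 : (t ^ 2) ^ κ ≤ (1 + ρ ^ 2) ^ κ := Real.rpow_le_rpow (by positivity) ht h0
  have h5 := mul_le_mul_of_nonneg_right he (Real.rpow_nonneg hρ.le (2 * κ))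
  rw [shF_sq2κ ht0] at h4
  rw [shF_sq2κ hρ.le] at h3
  linarith

/-- the `G` bound -/
theorem shF_a2 {eb w0 g : ℝ} (h0 : 0 ≤ κ) (ht : 1 ≤ t) (hρ : 0 < ρ) (hρ1 : ρ ≤ 1)
    (a1 : t ^ (2 * κ) - 1 ≤ eb * ρ ^ (2 * κ)) (h3 : 0 ≤ eb) (h4 : eb ≤ 1) (h5 : 0 ≤ w0)
    (h6 : w0 ≤ ρ ^ (2 * κ)) (h7 : 0 ≤ g) (h8 : eb ≤ g * (1 + eb * w0) ^ 2) :
    t ^ (2 * κ) - 1 ≤ g * ((t ^ (2 * κ)) ^ 2 * ρ ^ (2 * κ)) := by
  have hT1 : 1 ≤ t ^ (2 * κ) := Real.one_le_rpow ht (by positivity)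
  have h10 := shF_G (E := t ^ (2 * κ) - 1) (C := eb) (w := ρ ^ (2 * κ)) (w0 := w0) (g := g)
    (by linarith) a1 h3 h4 h5 h6 (Real.rpow_le_one hρ.le hρ1 (by positivity))
    (Real.rpow_pos_of_pos hρ _) h7 h8
  have e1 : 1 + (t ^ (2 * κ) - 1) = t ^ (2 * κ) := by ring
  rwa [e1] at h10

theorem shF_a2' {eb : ℝ} (h0 : 0 ≤ κ) (ht : 1 ≤ t) (hρ : 0 < ρ)
    (a1 : t ^ (2 * κ) - 1 ≤ eb * ρ ^ (2 * κ)) (h3 : 0 ≤ eb) :
    t ^ (2 * κ) - 1 ≤ eb * ((t ^ (2 * κ)) ^ 2 * ρ ^ (2 * κ)) := by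
  have hT1 : 1 ≤ t ^ (2 * κ) := Real.one_le_rpow ht (by positivity)
  refine a1.trans (mul_le_mul_of_nonneg_left ?_ h3)
  exact le_mul_of_one_le_left (Real.rpow_nonneg hρ.le _) (one_le_pow₀ hT1)

theorem shF_w {x w0 : ℝ} (h0 : 0 ≤ κ) (h1 : κ ≤ 1 / 4) (hx : 0 < x) (hxρ : x ≤ ρ) (hρ1 : ρ ≤ 1)
    (hw0 : 0 ≤ w0) (hw : w0 ^ 2 ≤ x) : w0 ≤ ρ ^ (2 * κ) := by
  have h3 : x ^ (1 / 2 : ℝ) ≤ ρ ^ (2 * κ) := by
    calc x ^ (1 / 2 : ℝ) ≤ x ^ (2 * κ) :=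
          Real.rpow_le_rpow_of_exponent_ge hx (hxρ.trans hρ1) (by linarith)
      _ ≤ _ := Real.rpow_le_rpow hx.le hxρ (by positivity)
  refine le_trans ?_ h3
  have h4 : (w0 ^ 2) ^ (1 / 2 : ℝ) ≤ x ^ (1 / 2 : ℝ) :=
    Real.rpow_le_rpow (by positivity) hw (by norm_num)
  have h5 : (w0 ^ 2) ^ (1 / 2 : ℝ) = w0 := by
    have := Real.pow_rpow_inv_natCast (x := w0) (n := 2) hw0 (by norm_num)
    push_cast at this
    rw [one_div]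
    exact this
  linarith

theorem shF_r {x q : ℝ} (h0 : 0 ≤ κ) (h1 : κ ≤ 1 / 4) (hx : 0 < x) (hxρ : x ≤ ρ) (hρ1 : ρ ≤ 1)
    (hq0 : 0 ≤ q) (hq : q ^ 4 ≤ x) : q ≤ ρ ^ κ :=
  (shF_low hx (hxρ.trans hρ1) h1 hq0 hq).trans (Real.rpow_le_rpow hx.le hxρ h0)

theorem shF_q {x q : ℝ} (h0 : 0 ≤ κ) (h1 : κ ≤ 1 / 4) (hx : 0 < x) (hx1 : x ≤ 1) (ht : 0 < t)
    (hxρ : x * t ≤ ρ) (hq0 : 0 ≤ q) (hq : q ^ 4 ≤ x) : q ≤ (ρ / t) ^ κ := by
  refine (shF_low hx hx1 h1 hq0 hq).trans (Real.rpow_le_rpow hx.le ?_ h0)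
  rwa [le_div_iff₀ ht]

theorem shF_cA (h0 : 1 / 5 ≤ κ) (h1 : κ ≤ 1 / 4) (hX : X = κ * (Real.pi / 2)) (hρ : 1 / 2 ≤ ρ)
    (hρ1 : ρ ≤ 1) (ht : 1 ≤ t) (htρ : t ≤ 1 + ρ) :
    ShFC κ ρ t (1.20593 * X - 0.05932) (0.4471 * X + 0.0734) 1.41422 1 1 0.7598 0.8408 := by
  obtain ⟨X0, X1, _⟩ := shF_X h0 h1 hX
  have κ0 : 0 ≤ κ := by linarith
  have ρ0 : 0 < ρ := by linarith
  have he : t ^ (2 * κ) - 1 ≤ (1.20593 * X - 0.05932) * ρ ^ (2 * κ) := by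
    refine shF_a1 (n := 1) κ0 h1 ρ0 le_rfl (by linarith) (by linarith) htρ ?_
    rw [show (1 : ℝ) + 1 = 2 by norm_num]
    exact shF_eA h0 h1 hX
  refine ⟨he, ?_, ?_, by norm_num, ?_, by linarith, ?_, by norm_num, by norm_num, ?_⟩
  · refine shF_a2 (w0 := 0.7071) κ0 ht ρ0 hρ1 he ?_ ?_ (by norm_num) ?_ ?_ (shF_gA X0 X1)
    · norm_num at X0 ⊢
      linarith
    · norm_num at X1 ⊢
      linarith
    · exact shF_w (x := 1 / 2) κ0 h1 (by norm_num) hρ hρ1 (by norm_num) (by norm_num)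
    · norm_num at X0 ⊢
      linarith
  · refine shF_T (b := 4) κ0 h1 (by linarith) (by norm_num) ?_ (by norm_num) (by norm_num)
    nlinarith
  · have h3 := shE_half (κ := κ) ρ0 hρ1 (by linarith)
    linarith
  · refine shF_q (x := 1 / 3) κ0 h1 (by norm_num) (by norm_num) (by linarith) (by linarith)
      (by norm_num) (by norm_num)
  · exact shF_r (x := 1 / 2) κ0 h1 (by norm_num) hρ hρ1 (by norm_num) (by norm_num)

theorem shF_cB (h0 : 1 / 5 ≤ κ) (h1 : κ ≤ 1 / 4) (hX : X = κ * (Real.pi / 2)) (hρ : 1 / 4 ≤ ρ)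
    (hρ1 : ρ ≤ 1 / 2) (ht : 1 ≤ t) (htρ : t ≤ 1 + ρ) :
    ShFC κ ρ t (0.8765 * X - 0.0263) (0.5054 * X + 0.0389) 1.22475 0.793 (2 / 3) 0.6687
      0.707 := by
  obtain ⟨X0, X1, _⟩ := shF_X h0 h1 hX
  have κ0 : 0 ≤ κ := by linarith
  have ρ0 : 0 < ρ := by linarith
  have he : t ^ (2 * κ) - 1 ≤ (0.8765 * X - 0.0263) * ρ ^ (2 * κ) := by
    refine shF_a1 (n := 2) κ0 h1 ρ0 (by norm_num) (by linarith) (by linarith) htρ ?_
    rw [show (2 : ℝ) + 1 = 3 by norm_num]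
    exact shF_eB h0 h1 hX
  refine ⟨he, ?_, ?_, by norm_num, ?_, by linarith, ?_, by norm_num, by norm_num, ?_⟩
  · refine shF_a2 (w0 := 0.5) κ0 ht ρ0 (by linarith) he ?_ ?_ (by norm_num) ?_ ?_ (shF_gB X0 X1)
    · norm_num at X0 ⊢
      linarith
    · norm_num at X1 ⊢
      linarith
    · exact shF_w (x := 1 / 4) κ0 h1 (by norm_num) hρ (by linarith) (by norm_num) (by norm_num)
    · norm_num at X0 ⊢
      linarith
  · refine shF_T (b := 9 / 4) κ0 h1 (by linarith) (by norm_num) ?_ (by norm_num) (by norm_num)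
    nlinarith
  · exact shF_Z2 ρ0 hρ1 h1
  · refine shF_q (x := 1 / 5) κ0 h1 (by norm_num) (by norm_num) (by linarith) (by linarith)
      (by norm_num) (by norm_num)
  · exact shF_r (x := 1 / 4) κ0 h1 (by norm_num) hρ (by linarith) (by norm_num) (by norm_num)

theorem shF_cC (h0 : 1 / 5 ≤ κ) (h1 : κ ≤ 1 / 4) (hX : X = κ * (Real.pi / 2)) (ρ0 : 0 < ρ)
    (hρ1 : ρ ≤ 1 / 4) (ht : 1 ≤ t) (htρ : t ≤ 1 + ρ) :
    ShFC κ ρ t (0.62824 * X - 0.0106) (0.62824 * X - 0.0106) 1.11804 0.566 (2 / 5) 0 0 := by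
  obtain ⟨X0, X1, _⟩ := shF_X h0 h1 hX
  have κ0 : 0 ≤ κ := by linarith
  have he : t ^ (2 * κ) - 1 ≤ (0.62824 * X - 0.0106) * ρ ^ (2 * κ) := by
    refine shF_a1 (n := 4) κ0 h1 ρ0 (by norm_num) (by linarith) (by linarith) htρ ?_
    rw [show (4 : ℝ) + 1 = 5 by norm_num]
    exact shF_eC h0 h1 hX
  refine ⟨he, ?_, ?_, by norm_num, ?_, by linarith, ?_, by norm_num, by norm_num, ?_⟩
  · refine shF_a2' κ0 ht ρ0 he ?_
    norm_num at X0 ⊢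
    linarith
  · refine shF_T (b := 25 / 16) κ0 h1 (by linarith) (by norm_num) ?_ (by norm_num) (by norm_num)
    nlinarith
  · exact shF_Z4 ρ0 hρ1 h1
  · exact Real.rpow_nonneg (div_nonneg ρ0.le (by linarith)) _
  · exact Real.rpow_nonneg ρ0.le _

theorem shF_cD (h0 : 1 / 5 ≤ κ) (h1 : κ ≤ 1 / 4) (hX : X = κ * (Real.pi / 2)) (hρ : 1 / 2 ≤ ρ)
    (hρ1 : ρ ≤ 1) (ht : 1 ≤ t) (htρ : t ^ 2 ≤ 1 + ρ ^ 2) :
    ShFC κ ρ t (0.51581 * X - 0.01334) (0.3238 * X + 0.0205) 1.18921 1 1 0.8177 0.8408 := by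
  obtain ⟨X0, X1, _⟩ := shF_X h0 h1 hX
  have κ0 : 0 ≤ κ := by linarith
  have ρ0 : 0 < ρ := by linarith
  have hρ2 : ρ ^ 2 ≤ 1 := pow_le_one₀ ρ0.le hρ1
  have he : t ^ (2 * κ) - 1 ≤ (0.51581 * X - 0.01334) * ρ ^ (2 * κ) := by
    refine shF_a1' (n := 1) κ0 h1 ρ0 le_rfl (by linarith) (by linarith) htρ ?_
    rw [show (1 : ℝ) + 1 = 2 by norm_num]
    exact shF_eD h0 h1 hX
  refine ⟨he, ?_, ?_, by norm_num, ?_, by linarith, ?_, by norm_num, by norm_num, ?_⟩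
  · refine shF_a2 (w0 := 0.7071) κ0 ht ρ0 hρ1 he ?_ ?_ (by norm_num) ?_ ?_ (shF_gD X0 X1)
    · norm_num at X0 ⊢
      linarith
    · norm_num at X1 ⊢
      linarith
    · exact shF_w (x := 1 / 2) κ0 h1 (by norm_num) hρ hρ1 (by norm_num) (by norm_num)
    · norm_num at X0 ⊢
      linarith
  · exact shF_T (b := 2) κ0 h1 (by linarith) (by norm_num) (by linarith) (by norm_num)
      (by norm_num)
  · have h3 := shE_half (κ := κ) ρ0 hρ1 (by linarith)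
    linarith
  · refine shF_q (x := 0.4472) κ0 h1 (by norm_num) (by norm_num) (by linarith) ?_
      (by norm_num) (by norm_num)
    have h6 : (0.4472 * t) ^ 2 ≤ ρ ^ 2 := by
      have h7 : 1 / 4 ≤ ρ ^ 2 := by nlinarith
      rw [mul_pow]
      norm_num
      linarith
    exact le_of_sq_le_sq h6 ρ0.le
  · exact shF_r (x := 1 / 2) κ0 h1 (by norm_num) hρ hρ1 (by norm_num) (by norm_num)

theorem shF_cE (h0 : 1 / 5 ≤ κ) (h1 : κ ≤ 1 / 4) (hX : X = κ * (Real.pi / 2)) (ρ0 : 0 < ρ)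
    (hρ1 : ρ ≤ 1 / 2) (ht : 1 ≤ t) (htρ : t ^ 2 ≤ 1 + ρ ^ 2) :
    ShFC κ ρ t (0.2115 * X - 0.0018) (0.2115 * X - 0.0018) 1.05738 0.793 (2 / 3) 0 0 := by
  obtain ⟨X0, X1, _⟩ := shF_X h0 h1 hX
  have κ0 : 0 ≤ κ := by linarith
  have hρ2 : ρ ^ 2 ≤ 1 / 4 := by nlinarith
  have he : t ^ (2 * κ) - 1 ≤ (0.2115 * X - 0.0018) * ρ ^ (2 * κ) := by
    refine shF_a1' (n := 4) κ0 h1 ρ0 (by norm_num) (by linarith) (by linarith) htρ ?_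
    rw [show (4 : ℝ) + 1 = 5 by norm_num]
    exact shF_eE h0 h1 hX
  refine ⟨he, ?_, ?_, by norm_num, ?_, by linarith, ?_, by norm_num, by norm_num, ?_⟩
  · refine shF_a2' κ0 ht ρ0 he ?_
    norm_num at X0 ⊢
    linarith
  · exact shF_T (b := 5 / 4) κ0 h1 (by linarith) (by norm_num) (by linarith) (by norm_num)
      (by norm_num)
  · exact shF_Z2 ρ0 hρ1 h1
  · exact Real.rpow_nonneg (div_nonneg ρ0.le (by linarith)) _
  · exact Real.rpow_nonneg ρ0.le _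

end

end EQS
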