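import Mathlib
import Pool.Agent.Lib.MP_226de1_co.E.DShF3
import Pool.Agent.Lib.MP_226de1_co.E.DShT

/-! Closed inequality (H), `1/5 ≤ κ ≤ 1/4`: assembly. -/

set_option autoImplicit false

namespace EQS

/-- (H) for `t ≥ 1`, `1/5 ≤ κ ≤ 1/4` -/
theorem shF_ge {κ θ ρ t y T s P β : ℝ} (h0 : 1 / 5 ≤ κ) (h1 : κ ≤ 1 / 4)
    (h : ShDat κ (Real.pi + θ) ρ t y T s P β (2 ^ (1 + κ))) (hθ : θ < Real.pi) (ht : 1 ≤ t) :
    ShCon κ θ ρ t y T P β := by
  have hpi := Real.pi_pos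
  have κ0 : 0 < κ := by linarith
  have h' := h
  obtain ⟨κF, ρ0, ρ1, y0, y1, yF, t0, tc, ts, _⟩ := h'
  have hyθ : 2 * y ≤ θ := by linarith
  have hθ0 : 0 ≤ θ := by linarith
  have hcθ : Real.cos (Real.pi + θ) = -Real.cos θ := by
    rw [add_comm, Real.cos_add_pi]
  have hsθ : Real.sin (Real.pi + θ) = -Real.sin θ := by
    rw [add_comm, Real.sin_add_pi]
  have tc' : t * Real.cos y = 1 + ρ * Real.cos θ := by rw [tc, hcθ]; ring
  have ts' : t * Real.sin y = ρ * Real.sin θ := by rw [ts, hsθ]; ring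
  have ht2 : t ^ 2 = 1 + 2 * ρ * Real.cos θ + ρ ^ 2 := by
    have e1 : t ^ 2 = (t * Real.cos y) ^ 2 + (t * Real.sin y) ^ 2 := by
      linear_combination (-t ^ 2) * Real.sin_sq_add_cos_sq y
    rw [e1, tc', ts']
    linear_combination (ρ ^ 2) * Real.sin_sq_add_cos_sq θ
  have eΩ : κ * (3 * Real.pi / 2 + 2 * θ - y) = 3 * (κ * (Real.pi / 2)) + 4 * (κ * (θ / 2)) -
      κ * y := by ring
  have core := fun eb Gb Tb Zf Vf q0 r00 hc =>
    shF_core (eb := eb) (Gb := Gb) (Tb := Tb) (Zf := Zf) (Vf := Vf) (q0 := q0) (r00 := r00)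
      h0 h1 h hθ ht hc
  rw [eΩ] at core
  obtain ⟨X, hX⟩ : ∃ X, X = κ * (Real.pi / 2) := ⟨_, rfl⟩
  obtain ⟨Y, hY⟩ : ∃ Y, Y = κ * (θ / 2) := ⟨_, rfl⟩
  obtain ⟨v, hv⟩ : ∃ v, v = κ * y := ⟨_, rfl⟩
  rw [← hX, ← hY, ← hv] at core
  obtain ⟨X0, X1, _⟩ := shF_X h0 h1 hX
  have X8 : 8 * X ≤ Real.pi := by rw [hX]; nlinarith
  have X10 : Real.pi ≤ 10 * X := by rw [hX]; nlinarith
  have hY0 : 0 ≤ Y := by rw [hY]; positivity
  have hv0 : 0 ≤ v := by rw [hv]; positivity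
  have hvY : v ≤ Y := by
    rw [hv, hY]
    exact mul_le_mul_of_nonneg_left (by linarith) κ0.le
  have hX0' : 0 < X := by rw [hX]; positivity
  have X0' : 0.314 ≤ X := by norm_num at X0 ⊢; linarith
  have X393 : X ≤ 0.393 := by norm_num at X1 ⊢; linarith
  have hΩ0 : 3 * X + 3 * Y ≤ 3 * X + 4 * Y - v := by linarith
  rcases le_or_gt θ (Real.pi / 2) with hθ2 | hθ2
  · have hYX : Y ≤ 1 / 2 * X := by
      rw [hY, hX]
      have := mul_le_mul_of_nonneg_left hθ2 κ0.le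
      linarith
    have ht1 : t ≤ 1 + ρ := by
      have h3 : t ^ 2 ≤ (1 + ρ) ^ 2 := by
        rw [ht2]
        have := mul_le_mul_of_nonneg_left (Real.cos_le_one θ) ρ0.le
        nlinarith
      exact le_of_sq_le_sq h3 (by linarith)
    have hΩ1 : 3 * X + 4 * Y - v ≤ 5 * X := by linarith
    have hsin := shF_sin1 hX0'.le X8 hY0 hYX hΩ0 hΩ1
    have hY197 : Y ≤ 0.197 := by norm_num at X1 ⊢; linarith
    rcases le_or_gt (1 / 2) ρ with hρ2 | hρ2
    · exact core _ _ _ _ _ _ _ (shF_cA h0 h1 hX hρ2 ρ1 ht ht1) (by linarith)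
        ((shF_pA X0' X393 hY0 hY197).trans hsin)
    · rcases le_or_gt (1 / 4) ρ with hρ4 | hρ4
      · exact core _ _ _ _ _ _ _ (shF_cB h0 h1 hX hρ4 hρ2.le ht ht1) (by linarith)
          ((shF_pB X0' X393 hY0 hY197).trans hsin)
      · exact core _ _ _ _ _ _ _ (shF_cC h0 h1 hX ρ0 hρ4.le ht ht1) (by linarith)
          ((shF_pC X0' X393 hY0 hY197).trans hsin)
  · have hYX : 1 / 2 * X ≤ Y := by
      rw [hY, hX]
      have := mul_le_mul_of_nonneg_left hθ2.le κ0.le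
      linarith
    have hcθ0 : Real.cos θ ≤ 0 :=
      Real.cos_nonpos_of_pi_div_two_le_of_le hθ2.le (by linarith)
    have hcθ1 : -(1 / 2) ≤ Real.cos θ := by
      have h3 : 1 ≤ t ^ 2 := one_le_pow₀ ht
      rw [ht2] at h3
      have h4 : 0 ≤ ρ * (2 * Real.cos θ + ρ) := by nlinarith
      have h5 : 0 ≤ 2 * Real.cos θ + ρ := nonneg_of_mul_nonneg_right h4 ρ0
      linarith
    have hθ3 : θ ≤ 2 * Real.pi / 3 := by
      by_contra hcon
      have h3 := Real.cos_lt_cos_of_nonneg_of_le_pi (by positivity : 0 ≤ 2 * Real.pi / 3) hθ.le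
        (not_le.1 hcon)
      have h4 : Real.cos (2 * Real.pi / 3) = -(1 / 2) := by
        rw [show 2 * Real.pi / 3 = Real.pi - Real.pi / 3 by ring, Real.cos_pi_sub,
          Real.cos_pi_div_three]
      linarith
    have hYX2 : Y ≤ 2 / 3 * X := by
      rw [hY, hX]
      have := mul_le_mul_of_nonneg_left hθ3 κ0.le
      linarith
    have hΩ1 : 3 * X + 4 * Y - v ≤ 5 * X := by
      have h3 := shF_y ρ0 (by linarith) hθ y0 ht tc' ts'
      have h4 := mul_le_mul_of_nonneg_left h3 κ0.le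
      have e1 : κ * (2 * θ - Real.pi) = 4 * Y - 2 * X := by rw [hX, hY]; ring
      rw [e1, ← hv] at h4
      linarith
    have hsin := shF_sin2 X10 X8 hYX hΩ0 hΩ1
    have hY157 : 0.157 ≤ Y := by norm_num at X0' ⊢; linarith
    have hY262 : Y ≤ 0.262 := by norm_num at X1 ⊢; linarith
    have ht2' : t ^ 2 ≤ 1 + ρ ^ 2 := by
      rw [ht2]
      have := mul_nonpos_of_nonneg_of_nonpos ρ0.le hcθ0
      linarith
    rcases le_or_gt (1 / 2) ρ with hρ2 | hρ2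
    · exact core _ _ _ _ _ _ _ (shF_cD h0 h1 hX hρ2 ρ1 ht ht2') hYX2
        ((shF_pD X0' X393 hY157 hY262).trans hsin)
    · exact core _ _ _ _ _ _ _ (shF_cE h0 h1 hX ρ0 hρ2.le ht ht2') hYX2
        ((shF_pE X0' X393 hY157 hY262).trans hsin)

/-- the closed inequality (H) for `1/5 ≤ κ ≤ 1/4` -/
theorem shF {κ : ℝ} (h0 : 1 / 5 ≤ κ) (h1 : κ ≤ 1 / 4) : ShH κ := by
  intro θ ρ t y T s P β h hθ
  rcases lt_or_ge t 1 with ht | ht
  · exact shT h (by linarith) (by linarith) hθ ht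
  · exact shF_ge h0 h1 h hθ ht

end EQS
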