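import Mathlib
import Pool.Agent.Lib.MP_226de1_co.E.DShE3

/-! Closed inequality (H), `t ≥ 1`, `1/5 ≤ κ ≤ 1/4`: numerics and the generic final estimate. -/

set_option autoImplicit false

namespace EQS

/-- the polynomial upper bound of the left side -/
noncomputable def shF_F (X Y eb Gb Tb Zf Vf q0 r0 : ℝ) : ℝ :=
  (1 - 0.465 * (X + 2 * Y) ^ 2) * ((1.97332 + 1.03162 * X) * (Zf * Y) + 0.35 +
    (1.97332 + 1.03162 * X) / 1.4 * Gb) +
  (0.8046 - 0.554 * X) * (eb + Tb * ((1.97332 + 1.03162 * X) * (Zf * Y) + 0.35 +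
    (1.97332 + 1.03162 * X) / 1.4 * Gb) * (Zf * Y)) * (Vf * Y + (1 - q0) * X) -
  0.86 * r0 * Gb * (X + 2 * Y)

theorem shF_D {X : ℝ} (h0 : 0.314 ≤ X) (h1 : X ≤ 0.3927) :
    0 < 1 + Real.sin (2 * X) ∧ 1 ≤ (0.8046 - 0.554 * X) * (1 + Real.sin (2 * X)) := by
  norm_num at h0 h1
  have h2 := sin_ge3 (x := 2 * X) (by linarith)
  have h3 : 0 ≤ Real.sin (2 * X) := by
    refine le_trans ?_ h2
    nlinarith [mul_nonneg (by linarith : 0 ≤ X - 157 / 500)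
      (by linarith : 0 ≤ 3927 / 10000 - X), sq_nonneg X]
  refine ⟨by linarith, ?_⟩
  have h4 : 0 < 0.8046 - 0.554 * X := by norm_num; linarith
  have h5 := mul_le_mul_of_nonneg_left h2 h4.le
  norm_num at h5 ⊢
  nlinarith [mul_nonneg (by linarith : 0 ≤ X - 157 / 500)
      (by linarith : 0 ≤ 3927 / 10000 - X), sq_nonneg X, mul_nonneg (mul_nonneg (by linarith : 0 ≤ X - 157 / 500)
      (by linarith : 0 ≤ 3927 / 10000 - X)) (by linarith : 0 ≤ X)]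

theorem shF_fin {X Y v M T e r q G D eb Gb Tb Zf Vf q0 r0 : ℝ}
    (hX0 : 0.314 ≤ X) (hX1 : X ≤ 0.3927) (hY0 : 0 ≤ Y) (hYX : Y ≤ 2 / 3 * X)
    (hv0 : 0 ≤ v) (hvY : v ≤ Vf * Y) (hM0 : 2.296 ≤ M) (hM : M ≤ 1.97332 + 1.03162 * X)
    (hT0 : 0 ≤ T) (hT : T ≤ Tb) (he0 : 0 ≤ e) (he : e ≤ eb) (hr00 : 0 ≤ r0) (hr0 : r0 ≤ r)
    (hr1 : r ≤ 1) (hq : q0 ≤ q) (hq1 : q0 ≤ 1) (hG0 : 0 ≤ G) (hG : G ≤ Gb)
    (hZ : 0 ≤ Zf) (hD : D = 1 + Real.sin (2 * X)) :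
    Real.cos (X + 2 * Y) * (M * (Zf * Y) + 0.7 / 2 + M / (2 * 0.7) * G) +
      (e + T * (M * (Zf * Y) + 0.7 / 2 + M / (2 * 0.7) * G) * (Zf * Y)) / D *
        (Real.sin (X + v) - q * Real.sin X) - G * r * Real.sin (X + 2 * Y) ≤
      shF_F X Y eb Gb Tb Zf Vf q0 r0 := by
  obtain ⟨D0, D1⟩ := shF_D hX0 hX1
  rw [← hD] at D0 D1
  have hpi := Real.pi_pos
  obtain ⟨Z, hZd⟩ : ∃ Z : ℝ, Z = Zf * Y := ⟨_, rfl⟩
  have hZ0 : 0 ≤ Z := by rw [hZd]; positivity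
  have hX0' : 0 < X := lt_of_lt_of_le (by norm_num) hX0
  obtain ⟨L, hL⟩ : ∃ L, L = X + 2 * Y := ⟨_, rfl⟩
  have hL0 : 0 < L := by rw [hL]; linarith
  have hL1 : L ≤ 0.9163 := by rw [hL]; norm_num at hX1 ⊢; linarith
  have hL2 : L ^ 2 ≤ 0.84 := by
    calc L ^ 2 ≤ 0.9163 ^ 2 := pow_le_pow_left₀ hL0.le hL1 2
      _ ≤ _ := by norm_num
  have cos1 : Real.cos L ≤ 1 - 0.465 * L ^ 2 := by
    have h1 := cos_le4 hL0.le
    have h2 : L ^ 4 ≤ 0.84 * L ^ 2 := by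
      calc L ^ 4 = L ^ 2 * L ^ 2 := by ring
        _ ≤ 0.84 * L ^ 2 := mul_le_mul_of_nonneg_right hL2 (sq_nonneg _)
    norm_num at h2 ⊢
    linarith
  have cos0 := Real.one_sub_sq_div_two_le_cos (x := L)
  have cos00 : 0.58 ≤ Real.cos L := by
    refine le_trans ?_ cos0
    norm_num at hL2 ⊢
    linarith
  have sin0 : 0.86 * L ≤ Real.sin L := by
    have h1 := sin_ge3 hL0.le
    have h2 : L ^ 3 ≤ 0.84 * L := by
      calc L ^ 3 = L ^ 2 * L := by ring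
        _ ≤ 0.84 * L := mul_le_mul_of_nonneg_right hL2 hL0.le
    norm_num at h2 ⊢
    linarith
  have sin1 : Real.sin L ≤ L := Real.sin_le hL0.le
  obtain ⟨Mb, hMb⟩ : ∃ Mb, Mb = 1.97332 + 1.03162 * X := ⟨_, rfl⟩
  rw [← hMb] at hM
  have hGb0 : 0 ≤ Gb := hG0.trans hG
  have hMb0 : 0 ≤ Mb := le_trans (by norm_num) (hM0.trans hM)
  have hM00 : 0 ≤ M := le_trans (by norm_num) hM0
  obtain ⟨K, hK⟩ : ∃ K, K = M / (2 * 0.7) := ⟨_, rfl⟩
  obtain ⟨Kb, hKb⟩ : ∃ Kb, Kb = Mb / 1.4 := ⟨_, rfl⟩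
  have e35 : (0.7 : ℝ) / 2 = 0.35 := by norm_num
  obtain ⟨a, ha⟩ : ∃ a : ℝ, a = 0.35 := ⟨_, rfl⟩
  have ha0 : 0 ≤ a := by rw [ha]; norm_num
  obtain ⟨H, hH⟩ : ∃ H, H = M * Z + a + K * G := ⟨_, rfl⟩
  obtain ⟨Hb, hHb⟩ : ∃ Hb, Hb = Mb * Z + a + Kb * Gb := ⟨_, rfl⟩
  have hdiv : K ≤ Kb := by
    rw [hK, hKb, show (2 : ℝ) * 0.7 = 1.4 by norm_num]
    exact div_le_div_of_nonneg_right hM (by norm_num)
  have hdiv0 : 1.64 ≤ K := by
    rw [hK, le_div_iff₀ (by norm_num)]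
    norm_num at hM0 ⊢
    linarith
  have hK0 : 0 ≤ K := le_trans (by norm_num) hdiv0
  have hKb0 : 0 ≤ Kb := hK0.trans hdiv
  have hH0 : 0 ≤ H := by rw [hH]; positivity
  have hHHb : H ≤ Hb := by
    rw [hH, hHb]
    have h1 : M * Z ≤ Mb * Z := mul_le_mul_of_nonneg_right hM hZ0
    have h2 : K * G ≤ Kb * Gb := mul_le_mul hdiv hG hG0 hKb0
    linarith
  unfold shF_F
  rw [e35, ← hMb, ← hL, ← hZd, ← ha, ← hK, ← hKb, ← hH, ← hHb]
  -- first part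
  have s1 : Real.cos L * H - G * r * Real.sin L ≤
      (1 - 0.465 * L ^ 2) * Hb - 0.86 * r0 * Gb * L := by
    have h1 : r * Real.sin L ≤ Real.cos L * K := by
      have hs0 : 0 ≤ Real.sin L := le_trans (by positivity) sin0
      have h2 : r * Real.sin L ≤ 1 * L := mul_le_mul hr1 sin1 hs0 (by norm_num)
      have h4 : 0.58 * 1.64 ≤ Real.cos L * K :=
        mul_le_mul cos00 hdiv0 (by norm_num) (le_trans (by norm_num) cos00)
      norm_num at h4 hL1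
      linarith
    have h5 : G * (Real.cos L * K - r * Real.sin L) ≤
        Gb * (Real.cos L * K - r * Real.sin L) :=
      mul_le_mul_of_nonneg_right hG (by linarith)
    have h6 : Real.cos L * (M * Z + a + K * Gb) ≤ (1 - 0.465 * L ^ 2) * Hb := by
      rw [hHb]
      apply mul_le_mul cos1 _ (by positivity) (le_trans (le_trans (by norm_num) cos00) cos1)
      have h1 : M * Z ≤ Mb * Z := mul_le_mul_of_nonneg_right hM hZ0
      have h2 : K * Gb ≤ Kb * Gb := mul_le_mul_of_nonneg_right hdiv hGb0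
      linarith
    have h7 : 0.86 * r0 * Gb * L ≤ Gb * (r * Real.sin L) := by
      have h8 : r0 * (0.86 * L) ≤ r * Real.sin L :=
        mul_le_mul hr0 sin0 (by positivity) (hr00.trans hr0)
      have := mul_le_mul_of_nonneg_left h8 hGb0
      linarith
    rw [hH]
    linarith
  -- second part
  have s2 : (e + T * H * Z) / D * (Real.sin (X + v) - q * Real.sin X) ≤
      (0.8046 - 0.554 * X) * (eb + Tb * Hb * Z) * (Vf * Y + (1 - q0) * X) := by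
    have h3 : Real.sin X ≤ X := Real.sin_le hX0'.le
    have h4 : 0 ≤ Real.sin X := Real.sin_nonneg_of_nonneg_of_le_pi hX0'.le (by
      norm_num at hX1; linarith [Real.pi_gt_three])
    have h1 : Real.sin (X + v) - q * Real.sin X ≤ Vf * Y + (1 - q0) * X := by
      have h2 := shE_sin_sub (u := X + v) (v := X) (by linarith)
      have h5 : q0 * Real.sin X ≤ q * Real.sin X := mul_le_mul_of_nonneg_right hq h4
      have h6 : (1 - q0) * Real.sin X ≤ (1 - q0) * X :=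
        mul_le_mul_of_nonneg_left h3 (by linarith)
      linarith
    have hTb0 : 0 ≤ Tb := hT0.trans hT
    have hHb0 : 0 ≤ Hb := hH0.trans hHHb
    have heb0 : 0 ≤ eb := he0.trans he
    have h8 : T * H * Z ≤ Tb * Hb * Z :=
      mul_le_mul_of_nonneg_right (mul_le_mul hT hHHb hH0 hTb0) hZ0
    have h9 : 0 ≤ e + T * H * Z := by positivity
    have h10 : (e + T * H * Z) / D ≤ (0.8046 - 0.554 * X) * (eb + Tb * Hb * Z) := by
      rw [div_le_iff₀ D0]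
      calc e + T * H * Z ≤ (eb + Tb * Hb * Z) * 1 := by linarith
        _ ≤ (eb + Tb * Hb * Z) * ((0.8046 - 0.554 * X) * D) :=
            mul_le_mul_of_nonneg_left D1 (by positivity)
        _ = _ := by ring
    calc (e + T * H * Z) / D * (Real.sin (X + v) - q * Real.sin X) ≤
          (e + T * H * Z) / D * (Vf * Y + (1 - q0) * X) :=
            mul_le_mul_of_nonneg_left h1 (div_nonneg h9 D0.le)
      _ ≤ _ := by
          apply mul_le_mul_of_nonneg_right h10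
          have : 0 ≤ (1 - q0) * X := mul_nonneg (by linarith) hX0'.le
          linarith
  linarith

/-- lower bound of `sin Ω`, `θ ≤ π/2` -/
theorem shF_sin1 {X Y Ω : ℝ} (hX : 0 ≤ X) (hX8 : 8 * X ≤ Real.pi) (hY0 : 0 ≤ Y)
    (hYX : Y ≤ 1 / 2 * X) (hΩ0 : 3 * X + 3 * Y ≤ Ω) (hΩ1 : Ω ≤ 5 * X) :
    (3 * X + 3 * Y) - (3 * X + 3 * Y) ^ 3 / 6 + (3 * X + 3 * Y) ^ 5 / 130 - 0.0772 ≤
      Real.sin Ω := by
  have hpi := Real.pi_pos
  have hp4 := Real.pi_lt_d4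
  have hz : 0 ≤ 3 * X + 3 * Y := by linarith
  have hz1 : 3 * X + 3 * Y ≤ 1.7673 := by norm_num at hp4 ⊢; linarith
  have h1 := shE_sin' hz (by
    calc (3 * X + 3 * Y) ^ 2 ≤ 1.7673 ^ 2 := pow_le_pow_left₀ hz hz1 2
      _ ≤ 3.2 := by norm_num)
  rcases le_or_gt Ω (Real.pi / 2) with h2 | h2
  · have h3 : Real.sin (3 * X + 3 * Y) ≤ Real.sin Ω := by
      apply Real.sin_le_sin_of_le_of_le_pi_div_two <;> linarith
    norm_num at h1 ⊢
    linarith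
  · have h3 : 0 ≤ Ω - Real.pi / 2 := by linarith
    have h4 : Ω - Real.pi / 2 ≤ 0.39271 := by
      norm_num at hp4 ⊢
      linarith
    have h5 := Real.one_sub_sq_div_two_le_cos (x := Ω - Real.pi / 2)
    rw [Real.cos_sub_pi_div_two] at h5
    have h6 : (Ω - Real.pi / 2) ^ 2 ≤ 0.39271 ^ 2 := pow_le_pow_left₀ h3 h4 2
    have h7 := Real.sin_le_one (3 * X + 3 * Y)
    norm_num at h1 h6 ⊢
    linarith

/-- lower bound of `sin Ω`, `θ ≥ π/2` -/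
theorem shF_sin2 {X Y Ω : ℝ} (hX : 10 * X ≥ Real.pi) (hX8 : 8 * X ≤ Real.pi)
    (hYX : 1 / 2 * X ≤ Y) (hΩ0 : 3 * X + 3 * Y ≤ Ω) (hΩ1 : Ω ≤ 5 * X) :
    0.9228 ≤ Real.sin Ω := by
  have hpi := Real.pi_pos
  have hp4 := Real.pi_lt_d4
  have h3 : -0.39271 ≤ Ω - Real.pi / 2 := by norm_num at hp4 ⊢; linarith
  have h4 : Ω - Real.pi / 2 ≤ 0.39271 := by
    norm_num at hp4 ⊢
    linarith
  have h5 := Real.one_sub_sq_div_two_le_cos (x := Ω - Real.pi / 2)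
  rw [Real.cos_sub_pi_div_two] at h5
  have h6 : (Ω - Real.pi / 2) ^ 2 ≤ 0.39271 ^ 2 := by
    apply sq_le_sq'
    · exact h3
    · exact h4
  norm_num at h6 ⊢
  linarith

/-- `G` bound -/
theorem shF_G {E C w w0 g : ℝ} (hE0 : 0 ≤ E) (hE : E ≤ C * w) (hC0 : 0 ≤ C) (hC1 : C ≤ 1)
    (hw00 : 0 ≤ w0) (hw0 : w0 ≤ w) (hw1 : w ≤ 1) (hw : 0 < w) (hg0 : 0 ≤ g)
    (hg : C ≤ g * (1 + C * w0) ^ 2) :
    E ≤ g * ((1 + E) ^ 2 * w) := by
  have hCw : C * w ≤ 1 := by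
    calc C * w ≤ C * 1 := mul_le_mul_of_nonneg_left hw1 hC0
      _ ≤ 1 := by linarith
  -- `E (1 + C w)² ≤ C w (1 + E)²`
  have a1 : E * (1 + C * w) ^ 2 ≤ C * w * (1 + E) ^ 2 := by
    have e1 : 0 ≤ (C * w - E) * (1 - E * (C * w)) := by
      apply mul_nonneg (by linarith)
      have : E * (C * w) ≤ 1 * 1 := mul_le_mul (by linarith) hCw (by positivity) (by norm_num)
      linarith
    nlinarith
  have a2 : C ≤ g * (1 + C * w) ^ 2 := by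
    refine hg.trans (mul_le_mul_of_nonneg_left ?_ hg0)
    apply pow_le_pow_left₀ (by positivity)
    have := mul_le_mul_of_nonneg_left hw0 hC0
    linarith
  have a3 : E * (1 + C * w) ^ 2 ≤ g * ((1 + E) ^ 2 * w) * (1 + C * w) ^ 2 := by
    calc E * (1 + C * w) ^ 2 ≤ C * w * (1 + E) ^ 2 := a1
      _ = C * (w * (1 + E) ^ 2) := by ring
      _ ≤ g * (1 + C * w) ^ 2 * (w * (1 + E) ^ 2) :=
          mul_le_mul_of_nonneg_right a2 (by positivity)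
      _ = _ := by ring
  exact le_of_mul_le_mul_right a3 (by positivity)

theorem shF_X {κ X : ℝ} (h0 : 1 / 5 ≤ κ) (h1 : κ ≤ 1 / 4) (hX : X = κ * (Real.pi / 2)) :
    0.31415 ≤ X ∧ X ≤ 0.3927 ∧ κ * 1.57075 ≤ X := by
  have p0 := Real.pi_gt_d4
  have p1 := Real.pi_lt_d4
  refine ⟨?_, ?_, ?_⟩
  · rw [hX]
    nlinarith
  · rw [hX]
    nlinarith
  · rw [hX]
    nlinarith

/-- chord bound in `X` -/
theorem shF_ch {b u0 u1 κ X : ℝ} (hb : 0 < b) (h0 : 1 / 5 ≤ κ) (h1 : κ ≤ 1 / 4)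
    (hX : X = κ * (Real.pi / 2)) (hu0 : 0 ≤ u0) (hu01 : u0 ≤ u1) (h5 : b ≤ u0 ^ 5)
    (h4 : b ≤ u1 ^ 4) :
    b ^ κ ≤ 20 * (u0 / 4 - u1 / 5) + 20 * (u1 - u0) / 1.57075 * X := by
  obtain ⟨_, _, h2⟩ := shF_X h0 h1 hX
  have r0 := shE_root (b := b) (u := u0) (n := 5) (by norm_num) hb.le hu0 h5
  have r1 := shE_root (b := b) (u := u1) (n := 4) (by norm_num) hb.le (hu0.trans hu01) h4
  push_cast at r0 r1
  have h3 := shE_chord (b := b) (κ0 := 1 / 5) (κ1 := 1 / 4) (κ := κ) hb h0 h1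
    (by norm_num) r0 r1
  have h6 : κ ≤ X / 1.57075 := by
    rw [le_div_iff₀ (by norm_num)]
    exact h2
  have h7 : 20 * (u1 - u0) * κ ≤ 20 * (u1 - u0) * (X / 1.57075) :=
    mul_le_mul_of_nonneg_left h6 (by linarith)
  have e7 : 20 * (u1 - u0) / 1.57075 * X = 20 * (u1 - u0) * (X / 1.57075) := by ring
  rw [e7]
  linarith

end EQS
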