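import Mathlib
import Pool.Agent.Lib.MP_226de1_co.E.TwoNum
import Pool.Agent.Lib.MP_226de1_co.E.DShE0

/-! Closed inequality (H), `t ≥ 1`, `1/4 ≤ κ ≤ 1/3`: pure lemmas. -/

set_option autoImplicit false

namespace EQS

theorem shG_p5 {t : ℝ} (ht : 1 ≤ t) : 2 * (t - 1) ^ 2 ≤ 0.5128 ^ 4 * t ^ 5 := by
  obtain ⟨w, hw⟩ : ∃ w : ℝ, w = 3 * t / 5 := ⟨_, rfl⟩
  have hw0 : 3 / 5 ≤ w := by rw [hw]; linarith
  have h0 : 0 ≤ w ^ 3 + 2 * w ^ 2 + 3 * w - 9 / 4 := by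
    have h1 : (3 / 5 : ℝ) ^ 3 ≤ w ^ 3 := pow_le_pow_left₀ (by norm_num) hw0 3
    have h2 : (3 / 5 : ℝ) ^ 2 ≤ w ^ 2 := pow_le_pow_left₀ (by norm_num) hw0 2
    norm_num at h1 h2
    linarith
  have h1 := mul_nonneg (sq_nonneg (w - 1)) h0
  have h2 : (5 / 2 * w - 3 / 2) ^ 2 ≤ w ^ 5 := by
    have e : (w - 1) ^ 2 * (w ^ 3 + 2 * w ^ 2 + 3 * w - 9 / 4) =
        w ^ 5 - (5 / 2 * w - 3 / 2) ^ 2 := by ring
    linarith
  rw [hw] at h2
  have t5 : 0 ≤ t ^ 5 := by positivity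
  have e1 : (5 / 2 * (3 * t / 5) - 3 / 2) ^ 2 = 9 / 4 * (t - 1) ^ 2 := by ring
  have e2 : (3 * t / 5) ^ 5 = 243 / 3125 * t ^ 5 := by ring
  rw [e1, e2] at h2
  norm_num
  linarith

theorem shG_p9 {t : ℝ} (ht : 1 ≤ t) : 4 * (t - 1) ^ 2 ≤ 0.5693 ^ 6 * t ^ 9 := by
  obtain ⟨w, hw⟩ : ∃ w : ℝ, w = 7 * t / 9 := ⟨_, rfl⟩
  have hw0 : 7 / 9 ≤ w := by rw [hw]; linarith
  have h0 : 0 ≤ w ^ 7 + 2 * w ^ 6 + 3 * w ^ 5 + 4 * w ^ 4 + 5 * w ^ 3 + 6 * w ^ 2 + 7 * w + 8 -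
      81 / 4 := by
    have h1 : (7 / 9 : ℝ) ^ 7 ≤ w ^ 7 := pow_le_pow_left₀ (by norm_num) hw0 7
    have h2 : (7 / 9 : ℝ) ^ 6 ≤ w ^ 6 := pow_le_pow_left₀ (by norm_num) hw0 6
    have h3 : (7 / 9 : ℝ) ^ 5 ≤ w ^ 5 := pow_le_pow_left₀ (by norm_num) hw0 5
    have h4 : (7 / 9 : ℝ) ^ 4 ≤ w ^ 4 := pow_le_pow_left₀ (by norm_num) hw0 4
    have h5 : (7 / 9 : ℝ) ^ 3 ≤ w ^ 3 := pow_le_pow_left₀ (by norm_num) hw0 3
    have h6 : (7 / 9 : ℝ) ^ 2 ≤ w ^ 2 := pow_le_pow_left₀ (by norm_num) hw0 2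
    norm_num at h1 h2 h3 h4 h5 h6
    linarith
  have h1 := mul_nonneg (sq_nonneg (w - 1)) h0
  have h2 : (9 / 2 * w - 7 / 2) ^ 2 ≤ w ^ 9 := by
    have e : (w - 1) ^ 2 * (w ^ 7 + 2 * w ^ 6 + 3 * w ^ 5 + 4 * w ^ 4 + 5 * w ^ 3 + 6 * w ^ 2 +
        7 * w + 8 - 81 / 4) = w ^ 9 - (9 / 2 * w - 7 / 2) ^ 2 := by ring
    linarith
  rw [hw] at h2
  have t9 : 0 ≤ t ^ 9 := by positivity
  have e1 : (9 / 2 * (7 * t / 9) - 7 / 2) ^ 2 = 49 / 4 * (t - 1) ^ 2 := by ring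
  have e2 : (7 * t / 9) ^ 9 = 40353607 / 387420489 * t ^ 9 := by ring
  rw [e1, e2] at h2
  norm_num
  linarith

/-- `log t ≤ (t-1)/√t` -/
theorem shG_log0 {t : ℝ} (ht : 1 ≤ t) : Real.log t ^ 2 * t ≤ (t - 1) ^ 2 := by
  have t0 : 0 < t := by linarith
  have hl : 0 ≤ Real.log t := Real.log_nonneg ht
  have h1 : Real.log t / 2 ≤ Real.sinh (Real.log t / 2) :=
    Real.self_le_sinh_iff.2 (by positivity)
  have h2 : Real.sinh (Real.log t / 2) = (Real.exp (Real.log t / 2) -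
      Real.exp (-(Real.log t / 2))) / 2 := Real.sinh_eq _
  obtain ⟨w, hw⟩ : ∃ w, w = Real.exp (Real.log t / 2) := ⟨_, rfl⟩
  have w0 : 0 < w := by rw [hw]; exact Real.exp_pos _
  have hw2 : w ^ 2 = t := by
    rw [hw, sq, ← Real.exp_add, add_halves, Real.exp_log t0]
  rw [h2, Real.exp_neg, ← hw] at h1
  have h3 : Real.log t * w ≤ w ^ 2 - 1 := by
    have h4 : Real.log t ≤ w - w⁻¹ := by linarith
    have h5 := mul_le_mul_of_nonneg_right h4 w0.le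
    have h6 : (w - w⁻¹) * w = w ^ 2 - 1 := by field_simp
    linarith
  have h4 : (Real.log t * w) ^ 2 ≤ (w ^ 2 - 1) ^ 2 :=
    pow_le_pow_left₀ (by positivity) h3 2
  rw [mul_pow, hw2] at h4
  exact h4

/-- `2^κ log t ≤ c(κ) ((t-1)² t³)^κ` -/
theorem shG_log {κ t : ℝ} (h0 : 1 / 4 ≤ κ) (h1 : κ ≤ 1 / 3) (ht : 1 ≤ t) :
    2 ^ κ * Real.log t ≤ (0.3433 + 0.678 * κ) * ((t - 1) ^ 2 * t ^ 3) ^ κ := by
  have t0 : 0 < t := by linarith
  rcases ht.eq_or_lt with h2 | h2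
  · rw [← h2, Real.log_one, mul_zero]
    have : (0 : ℝ) ≤ ((1 - 1) ^ 2 * 1 ^ 3) ^ κ := Real.rpow_nonneg (by norm_num) _
    have h3 : (0 : ℝ) ≤ 0.3433 + 0.678 * κ := by norm_num; linarith
    exact mul_nonneg h3 this
  obtain ⟨N, hN⟩ : ∃ N, N = (t - 1) ^ 2 * t ^ 3 := ⟨_, rfl⟩
  obtain ⟨l, hl⟩ : ∃ l, l = Real.log t := ⟨_, rfl⟩
  have ht1 : 0 < t - 1 := by linarith
  have N0 : 0 < N := by rw [hN]; positivity
  have l0 : 0 < l := by rw [hl]; exact Real.log_pos h2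
  have hl2 : l ^ 2 * t ≤ (t - 1) ^ 2 := by rw [hl]; exact shG_log0 ht
  have u0 : (2 / N) ^ (1 / 4 : ℝ) ≤ 0.5128 / l := by
    have h3 := shE_root (b := 2 / N) (u := 0.5128 / l) (n := 4) (by norm_num) (by positivity)
      (by positivity) (by
      rw [div_pow, div_le_div_iff₀ N0 (by positivity)]
      have e1 : l ^ 4 * t ^ 2 ≤ (t - 1) ^ 4 := by
        have := pow_le_pow_left₀ (by positivity) hl2 2
        calc l ^ 4 * t ^ 2 = (l ^ 2 * t) ^ 2 := by ring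
          _ ≤ ((t - 1) ^ 2) ^ 2 := this
          _ = _ := by ring
      have e2 := mul_le_mul_of_nonneg_left (shG_p5 ht) (sq_nonneg (t - 1))
      have e3 : 2 * l ^ 4 * t ^ 2 ≤ 0.5128 ^ 4 * N * t ^ 2 := by
        calc 2 * l ^ 4 * t ^ 2 = 2 * (l ^ 4 * t ^ 2) := by ring
          _ ≤ 2 * (t - 1) ^ 4 := by linarith
          _ = (t - 1) ^ 2 * (2 * (t - 1) ^ 2) := by ring
          _ ≤ (t - 1) ^ 2 * (0.5128 ^ 4 * t ^ 5) := e2
          _ = _ := by rw [hN]; ring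
      exact le_of_mul_le_mul_right e3 (by positivity))
    push_cast at h3
    exact h3
  have u1 : (2 / N) ^ (1 / 3 : ℝ) ≤ 0.5693 / l := by
    have h3 := shE_root (b := 2 / N) (u := 0.5693 / l) (n := 3) (by norm_num) (by positivity)
      (by positivity) (by
      rw [div_pow, div_le_div_iff₀ N0 (by positivity)]
      have e1 : l ^ 6 * t ^ 3 ≤ (t - 1) ^ 6 := by
        have := pow_le_pow_left₀ (by positivity) hl2 3
        calc l ^ 6 * t ^ 3 = (l ^ 2 * t) ^ 3 := by ring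
          _ ≤ ((t - 1) ^ 2) ^ 3 := this
          _ = _ := by ring
      have e2 := mul_le_mul_of_nonneg_left (shG_p9 ht) (by positivity : 0 ≤ (t - 1) ^ 4)
      have e3 : (2 * l ^ 3) ^ 2 * t ^ 3 ≤ (0.5693 ^ 3 * N) ^ 2 * t ^ 3 := by
        calc (2 * l ^ 3) ^ 2 * t ^ 3 = 4 * (l ^ 6 * t ^ 3) := by ring
          _ ≤ 4 * (t - 1) ^ 6 := by linarith
          _ = (t - 1) ^ 4 * (4 * (t - 1) ^ 2) := by ring
          _ ≤ (t - 1) ^ 4 * (0.5693 ^ 6 * t ^ 9) := e2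
          _ = _ := by rw [hN]; ring
      have e4 : (2 * l ^ 3) ^ 2 ≤ (0.5693 ^ 3 * N) ^ 2 :=
        le_of_mul_le_mul_right e3 (by positivity)
      exact (pow_le_pow_iff_left₀ (by positivity) (by positivity) (by norm_num)).1 e4)
    push_cast at h3
    exact h3
  have hc := shE_chord (b := 2 / N) (κ0 := 1 / 4) (κ1 := 1 / 3) (κ := κ) (by positivity) h0 h1
    (by norm_num) u0 u1
  have e5 : (2 / N) ^ κ = 2 ^ κ / N ^ κ := Real.div_rpow (by norm_num) N0.le κ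
  have Nκ : 0 < N ^ κ := Real.rpow_pos_of_pos N0 _
  rw [e5] at hc
  have e6 : 0.5128 / l * (1 / 3 - κ) + 0.5693 / l * (κ - 1 / 4) =
      (0.3433 + 0.678 * κ) / 12 / l := by
    field_simp
    ring
  rw [e6] at hc
  rw [← hN, ← hl]
  have e7 : 2 ^ κ / N ^ κ * (1 / 3 - 1 / 4) = 2 ^ κ / 12 / N ^ κ := by ring
  rw [e7, div_le_div_iff₀ Nκ l0] at hc
  have e8 : 2 ^ κ / 12 * l * 12 ≤ (0.3433 + 0.678 * κ) / 12 * N ^ κ * 12 :=
    mul_le_mul_of_nonneg_right hc (by norm_num)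
  calc 2 ^ κ * l = 2 ^ κ / 12 * l * 12 := by ring
    _ ≤ _ := e8
    _ = _ := by ring

/-- `t - 1 ≤ ρ cos²(θ/2)` -/
theorem shG_t {ρ t c : ℝ} (hρ0 : 0 ≤ ρ) (hρ1 : ρ ≤ 1) (hc1 : c ^ 2 ≤ 1)
    (ht2 : t ^ 2 = 1 + 2 * ρ * (2 * c ^ 2 - 1) + ρ ^ 2) : t - 1 ≤ ρ * c ^ 2 := by
  have h1 : t ^ 2 ≤ (1 + ρ * c ^ 2) ^ 2 := by
    rw [ht2]
    have h2 : 0 ≤ ρ * (1 - c ^ 2) * (2 - ρ * (1 + c ^ 2)) := by
      apply mul_nonneg (mul_nonneg hρ0 (by linarith))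
      have : ρ * (1 + c ^ 2) ≤ 1 * 2 := mul_le_mul hρ1 (by linarith) (by positivity) (by norm_num)
      linarith
    have e : (1 + ρ * c ^ 2) ^ 2 - (1 + 2 * ρ * (2 * c ^ 2 - 1) + ρ ^ 2) =
        ρ * (1 - c ^ 2) * (2 - ρ * (1 + c ^ 2)) := by ring
    linarith
  have h3 : 0 ≤ 1 + ρ * c ^ 2 := by positivity
  have := abs_le_of_sq_le_sq h1 h3
  linarith [(le_abs_self t).trans this]

/-- `cos^{4κ} α ≤ 1 - 6Y² + 18Y⁴` -/
theorem shG_q {κ α Y : ℝ} (hκ0 : 0 < κ) (hκ1 : κ ≤ 1 / 3) (hα0 : 0 ≤ α) (hα1 : α ≤ 1.0473)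
    (hY : Y = κ * α) (hY1 : Y ≤ 0.3142) :
    (Real.cos α ^ 2) ^ (2 * κ) ≤ 1 - 6 * Y ^ 2 + 18 * Y ^ 4 := by
  have h1 : Real.cos α ^ 2 = 1 + -(Real.sin α ^ 2) := by
    have := Real.sin_sq_add_cos_sq α
    linarith
  have h2 : (1 + -(Real.sin α ^ 2)) ^ (2 * κ) ≤ 1 + 2 * κ * -(Real.sin α ^ 2) := by
    apply rpow_one_add_le_one_add_mul_self _ (by positivity) (by linarith)
    have := Real.sin_sq_le_one α
    linarith
  rw [h1]
  refine h2.trans ?_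
  have h3 := sin_ge3 hα0
  have hα2 : α ^ 2 ≤ 1.0969 := by
    have := pow_le_pow_left₀ hα0 hα1 2
    norm_num at this ⊢
    linarith
  have h4 : 0 ≤ α - α ^ 3 / 6 := by
    have : 0 ≤ α * (1 - α ^ 2 / 6) := mul_nonneg hα0 (by norm_num at hα2 ⊢; linarith)
    linarith
  have h5 : (α - α ^ 3 / 6) ^ 2 ≤ Real.sin α ^ 2 := pow_le_pow_left₀ h4 h3 2
  have h6 : α ^ 2 - α ^ 4 / 3 ≤ Real.sin α ^ 2 := by
    have : 0 ≤ α ^ 6 / 36 := by positivity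
    have e : (α - α ^ 3 / 6) ^ 2 = α ^ 2 - α ^ 4 / 3 + α ^ 6 / 36 := by ring
    linarith
  have h7 := mul_le_mul_of_nonneg_left h6 (by positivity : 0 ≤ 2 * κ)
  have Y0 : 0 ≤ Y := by rw [hY]; positivity
  have h8 : 0 ≤ 2 * κ * α ^ 2 * (1 - 3 * κ) * (1 - (1 + 3 * κ + 9 * κ ^ 2) * α ^ 2 / 3) := by
    apply mul_nonneg (mul_nonneg (by positivity) (by linarith))
    have e1 : (1 + 3 * κ + 9 * κ ^ 2) * α ^ 2 = α ^ 2 + 3 * (α * Y) + 9 * Y ^ 2 := by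
      rw [hY]; ring
    have e2 : α * Y ≤ 1.0473 * 0.3142 := mul_le_mul hα1 hY1 Y0 (by norm_num)
    have e3 : Y ^ 2 ≤ 0.3142 ^ 2 := pow_le_pow_left₀ Y0 hY1 2
    rw [e1]
    norm_num at e2 e3 hα2 ⊢
    linarith
  have e9 : 2 * κ * α ^ 2 * (1 - 3 * κ) * (1 - (1 + 3 * κ + 9 * κ ^ 2) * α ^ 2 / 3) =
      2 * κ * (α ^ 2 - α ^ 4 / 3) - 6 * (κ * α) ^ 2 + 18 * (κ * α) ^ 4 := by ring
  rw [e9, ← hY] at h8
  linarith

/-- weighted AM-GM: bound of `v / r` -/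
theorem shG_line {κ c v Y ρ : ℝ} (hκ0 : 0 ≤ κ) (hκ1 : κ ≤ 1) (hc : 0 < c) (hv : 0 ≤ v)
    (hvY : v ≤ Y) (hρ : 0 < ρ) (hvρ : v * (1 + ρ) ≤ 2 * ρ * Y) :
    v ≤ ρ ^ κ * (c ^ κ * ((1 - κ) * v + κ * ((2 * Y - v) / c))) := by
  have hY : 0 ≤ Y := hv.trans hvY
  have r0 : 0 < ρ ^ κ := Real.rpow_pos_of_pos hρ _
  have c0 : 0 < c ^ κ := Real.rpow_pos_of_pos hc _
  rcases hv.eq_or_lt with h1 | h1
  · rw [← h1]
    have : 0 ≤ (2 * Y - 0) / c := by rw [sub_zero]; positivity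
    have h2 : 0 ≤ (1 - κ) * (0 : ℝ) + κ * ((2 * Y - 0) / c) := by
      rw [mul_zero, zero_add]
      exact mul_nonneg hκ0 this
    positivity
  have h2 : 0 < 2 * Y - v := by linarith
  have h3 := Real.geom_mean_le_arith_mean2_weighted (w₁ := 1 - κ) (w₂ := κ) (p₁ := v)
    (p₂ := (2 * Y - v) / c) (by linarith) hκ0 h1.le (div_pos h2 hc).le (by ring)
  have h4 : v / (2 * Y - v) ≤ ρ := by
    rw [div_le_iff₀ h2]
    linarith
  have h5 : (v / (2 * Y - v)) ^ κ ≤ ρ ^ κ := Real.rpow_le_rpow (by positivity) h4 hκ0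
  have h6 : v = (v / (2 * Y - v)) ^ κ * (c ^ κ * (v ^ (1 - κ) * ((2 * Y - v) / c) ^ κ)) := by
    rw [Real.div_rpow h1.le h2.le, Real.div_rpow h2.le hc.le]
    have e1 : 0 < (2 * Y - v) ^ κ := Real.rpow_pos_of_pos h2 _
    have e2 : v ^ κ * v ^ (1 - κ) = v := by
      rw [← Real.rpow_add h1]
      have : κ + (1 - κ) = 1 := by ring
      rw [this, Real.rpow_one]
    field_simp
    linarith
  calc v = (v / (2 * Y - v)) ^ κ * (c ^ κ * (v ^ (1 - κ) * ((2 * Y - v) / c) ^ κ)) := h6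
    _ ≤ ρ ^ κ * (c ^ κ * (v ^ (1 - κ) * ((2 * Y - v) / c) ^ κ)) := by
        apply mul_le_mul_of_nonneg_right h5
        have : 0 ≤ v ^ (1 - κ) := Real.rpow_nonneg h1.le _
        have : 0 ≤ ((2 * Y - v) / c) ^ κ := Real.rpow_nonneg (by positivity) _
        positivity
    _ ≤ _ := by
        apply mul_le_mul_of_nonneg_left _ r0.le
        exact mul_le_mul_of_nonneg_left h3 c0.le

/-- the set `w (w - m) ≥ A` is convex -/
theorem shG_conv {A w0 w1 m0 m1 l w m : ℝ} (hA : 0 ≤ A) (hw0 : 0 < w0) (hw1 : 0 < w1)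
    (h0 : A ≤ w0 * (w0 - m0)) (h1 : A ≤ w1 * (w1 - m1)) (hl0 : 0 ≤ l) (hl1 : l ≤ 1)
    (hw : w = (1 - l) * w0 + l * w1) (hm : m ≤ (1 - l) * m0 + l * m1) :
    0 < w ∧ 0 ≤ w - m ∧ A ≤ w * (w - m) := by
  have hl : 0 ≤ 1 - l := by linarith
  have q0 : 0 ≤ w0 - m0 := by
    by_contra hcon
    have := mul_neg_of_pos_of_neg hw0 (not_le.1 hcon)
    linarith
  have q1 : 0 ≤ w1 - m1 := by
    by_contra hcon
    have := mul_neg_of_pos_of_neg hw1 (not_le.1 hcon)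
    linarith
  obtain ⟨a, ha⟩ : ∃ a, a = w0 - m0 := ⟨_, rfl⟩
  obtain ⟨b, hb⟩ : ∃ b, b = w1 - m1 := ⟨_, rfl⟩
  rw [← ha] at q0 h0
  rw [← hb] at q1 h1
  have hwp : 0 < w := by
    rw [hw]
    rcases hl0.eq_or_lt with h2 | h2
    · rw [← h2]; linarith
    · have : 0 ≤ (1 - l) * w0 := by positivity
      have : 0 < l * w1 := by positivity
      linarith
  have h3 : (1 - l) * a + l * b ≤ w - m := by
    rw [hw, ha, hb]
    linarith
  have h4 : 0 ≤ (1 - l) * a + l * b := by positivity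
  refine ⟨hwp, h4.trans h3, ?_⟩
  have h5 : 2 * A ≤ w0 * b + w1 * a := by
    have e1 : 0 ≤ w0 * b + w1 * a := by positivity
    have e2 : A * A ≤ (w0 * a) * (w1 * b) := mul_le_mul h0 h1 hA (hA.trans h0)
    have e3 : (2 * A) ^ 2 ≤ (w0 * b + w1 * a) ^ 2 := by
      have e4 : 0 ≤ (w0 * b - w1 * a) ^ 2 := sq_nonneg _
      have e5 : (w0 * b + w1 * a) ^ 2 = (w0 * b - w1 * a) ^ 2 + 4 * ((w0 * a) * (w1 * b)) := by
        ring
      have e6 : (2 * A) ^ 2 = 4 * (A * A) := by ring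
      linarith
    exact (pow_le_pow_iff_left₀ (by positivity) e1 (by norm_num)).1 e3
  calc A = (1 - l) ^ 2 * A + l ^ 2 * A + (1 - l) * l * (2 * A) := by ring
    _ ≤ (1 - l) ^ 2 * (w0 * a) + l ^ 2 * (w1 * b) + (1 - l) * l * (w0 * b + w1 * a) := by
        have e1 := mul_le_mul_of_nonneg_left h0 (sq_nonneg (1 - l))
        have e2 := mul_le_mul_of_nonneg_left h1 (sq_nonneg l)
        have e3 := mul_le_mul_of_nonneg_left h5 (mul_nonneg hl hl0)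
        linarith
    _ = ((1 - l) * w0 + l * w1) * ((1 - l) * a + l * b) := by ring
    _ ≤ w * (w - m) := by
        rw [← hw]
        exact mul_le_mul_of_nonneg_left h3 hwp.le

/-- `F1` -/
theorem shG_F1 {κ Y : ℝ} (h0 : 1 / 4 ≤ κ) (h1 : κ ≤ 1 / 3) (hY0 : 0 ≤ Y) (hY1 : Y ≤ 0.3142) :
    0 ≤ 0.8281 - (2.9552 * κ - 0.226) * (1 - 6 * Y ^ 2 + 18 * Y ^ 4) *
        (1.285 - 1.09949 * κ - 0.7 * Y) ^ 2 -
      1.82 * (0.8088 + 3.0252 * κ) * (1 - 2 * κ / 3) * Y * (1.285 - 1.09949 * κ - 0.7 * Y) := by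
  obtain ⟨A, hA, eA⟩ : ∃ A : ℝ, 0 ≤ A ∧ A = κ - 1 / 4 := ⟨_, by linarith, rfl⟩
  obtain ⟨B, hB, eB⟩ : ∃ B : ℝ, 0 ≤ B ∧ B = 1 / 3 - κ := ⟨_, by linarith, rfl⟩
  obtain ⟨C, hC, eC⟩ : ∃ C : ℝ, 0 ≤ C ∧ C = Y := ⟨_, hY0, rfl⟩
  obtain ⟨D, hD, eD⟩ : ∃ D : ℝ, 0 ≤ D ∧ D = 1571 / 5000 - Y :=
    ⟨_, by norm_num at hY1 ⊢; linarith, rfl⟩
  have key : 0 ≤ (8231237280642465000000000 / 15033396440398192921) * B ^ 3 * D ^ 6 +
      (35198222318170987500000000 / 15033396440398192921) * B ^ 3 * C ^ 1 * D ^ 5 +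
      (64649915876546876109344400 / 15033396440398192921) * B ^ 3 * C ^ 2 * D ^ 4 +
      (67598123551119379968148800 / 15033396440398192921) * B ^ 3 * C ^ 3 * D ^ 3 +
      (2582932263042658526746500282597 / 939587277524887057562500) * B ^ 3 * C ^ 4 * D ^ 2 +
      (16168351010350572350961748821 / 18791745550497741151250) * B ^ 3 * C ^ 5 * D ^ 1 +
      (140546283535202537453669253 / 1503339644039819292100) * B ^ 3 * C ^ 6 +
      (20472028758464647500000000 / 15033396440398192921) * A ^ 1 * B ^ 2 * D ^ 6 +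
      (82585672744791744000000000 / 15033396440398192921) * A ^ 1 * B ^ 2 * C ^ 1 * D ^ 5 +
      (144827145427851080200668600 / 15033396440398192921) * A ^ 1 * B ^ 2 * C ^ 2 * D ^ 4 +
      (150540757303486277239336800 / 15033396440398192921) * A ^ 1 * B ^ 2 * C ^ 3 * D ^ 3 +
      (11830093472324099772648527516811 / 1879174555049774115125000) * A ^ 1 * B ^ 2 * C ^ 4 * D ^ 2 +
      (1908109135812419087165127219123 / 939587277524887057562500) * A ^ 1 * B ^ 2 * C ^ 5 * D ^ 1 +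
      (16536726864389681841094774803 / 75166982201990964605000) * A ^ 1 * B ^ 2 * C ^ 6 +
      (17364906749462580000000000 / 15033396440398192921) * A ^ 2 * B ^ 1 * D ^ 6 +
      (66388682356043880000000000 / 15033396440398192921) * A ^ 2 * B ^ 1 * C ^ 1 * D ^ 5 +
      (112338397987789097902612800 / 15033396440398192921) * A ^ 2 * B ^ 1 * C ^ 2 * D ^ 4 +
      (119152482948802386507715200 / 15033396440398192921) * A ^ 2 * B ^ 1 * C ^ 3 * D ^ 3 +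
      (1245168467204203818632485504641 / 234896819381221764390625) * A ^ 2 * B ^ 1 * C ^ 4 * D ^ 2 +
      (430550891116348175190174122112 / 234896819381221764390625) * A ^ 2 * B ^ 1 * C ^ 5 * D ^ 1 +
      (50578146250501030754182136127 / 234896819381221764390625) * A ^ 2 * B ^ 1 * C ^ 6 +
      (5068295317980280000000000 / 15033396440398192921) * A ^ 3 * D ^ 6 +
      (18646499140326784000000000 / 15033396440398192921) * A ^ 3 * C ^ 1 * D ^ 5 +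
      (31257867620125263624444800 / 15033396440398192921) * A ^ 3 * C ^ 2 * D ^ 4 +
      (35027574748758013489152000 / 15033396440398192921) * A ^ 3 * C ^ 3 * D ^ 3 +
      (398907983677615677825125558806 / 234896819381221764390625) * A ^ 3 * C ^ 4 * D ^ 2 +
      (150607456504065252753051023828 / 234896819381221764390625) * A ^ 3 * C ^ 5 * D ^ 1 +
      (20043082516806361724649583766 / 234896819381221764390625) * A ^ 3 * C ^ 6 := by positivity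
  refine key.trans (le_of_eq ?_)
  rw [eA, eB, eC, eD]
  ring

end EQS
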