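import Mathlib
import Pool.Agent.Lib.MP_226de1_co.E.TwoNum
import Pool.Agent.Lib.MP_226de1_co.E.DShB
import Pool.Agent.Lib.MP_226de1_co.E.DShG1

/-! Closed inequality (H), `t ≥ 1`, `1/4 ≤ κ ≤ 1/3`: trigonometric lemmas, the two steps. -/

set_option autoImplicit false

namespace EQS

theorem shG_sqrt3 : Real.sqrt 3 ≤ 1.73206 := by
  rw [Real.sqrt_le_left (by norm_num)]
  norm_num

theorem shG_sqrt3' : 1.73205 ≤ Real.sqrt 3 := by
  apply Real.le_sqrt_of_sq_le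
  norm_num

theorem shG_sqrt2' : 1.41421 ≤ Real.sqrt 2 := by
  apply Real.le_sqrt_of_sq_le
  norm_num

/-- polynomial for `φ ≤ π/6` -/
theorem shG_Ti {e : ℝ} (h0 : 0 ≤ e) (h1 : e ≤ 0.3928) :
    0.86603 * (1 - (e / 3) ^ 2 / 2 + (e / 3) ^ 4 / 24) + (e / 3) / 2 ≤
      (0.91847 + 0.2333 * e) * (1 - e ^ 2 / 2) := by
  norm_num at h1
  have e2 : e ^ 2 ≤ 491 / 1250 * e := by
    have := mul_nonneg h0 (by linarith : 0 ≤ 491 / 1250 - e)
    nlinarith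
  have e3 : e ^ 3 ≤ 491 / 1250 * (491 / 1250) * e := by
    have := mul_le_mul_of_nonneg_right e2 h0
    have e' := mul_le_mul_of_nonneg_left e2 (by norm_num : (0 : ℝ) ≤ 491 / 1250)
    nlinarith
  have e4 : e ^ 4 ≤ e ^ 3 := by
    have : 0 ≤ e ^ 3 * (1 - e) := mul_nonneg (by positivity) (by linarith)
    nlinarith
  norm_num
  nlinarith

/-- polynomial for `φ ≥ π/6` -/
theorem shG_Tii {f : ℝ} (h0 : 0 ≤ f) (h1 : f ≤ 0.2618) :
    0.86603 * (1 - (2 * f) ^ 2 / 2 + (2 * f) ^ 4 / 24) - (2 * f - (2 * f) ^ 3 / 6) / 2 ≤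
      (0.91847 - 0.7 * f) * (1 - (3 * f) ^ 2 / 2 + (3 * f) ^ 4 / 24 - (3 * f) ^ 6 / 720) := by
  norm_num at h1
  have f2 : 0 ≤ f ^ 2 := by positivity
  have f3 : 0 ≤ f ^ 3 := by positivity
  have f4 : 0 ≤ f ^ 4 := by positivity
  have f5 : f ^ 5 ≤ 1309 / 5000 * f ^ 4 := by
    have := mul_nonneg f4 (by linarith : 0 ≤ 1309 / 5000 - f)
    nlinarith
  have f6 : f ^ 6 ≤ (1309 / 5000) ^ 2 * f ^ 4 := by
    have h3 : f ^ 2 ≤ (1309 / 5000) ^ 2 := pow_le_pow_left₀ h0 h1 2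
    have := mul_le_mul_of_nonneg_left h3 f4
    calc f ^ 6 = f ^ 4 * f ^ 2 := by ring
      _ ≤ f ^ 4 * (1309 / 5000) ^ 2 := this
      _ = _ := by ring
  have f7 : 0 ≤ f ^ 7 := by positivity
  have hc : 0 ≤ 0.0524 + 0.3 * f - 2.402 * f ^ 2 + 2.483 * f ^ 3 := by
    nlinarith [mul_nonneg f2 h0, mul_nonneg h0 (by linarith : 0 ≤ 1309 / 5000 - f),
      mul_nonneg (mul_nonneg h0 h0) (by linarith : 0 ≤ 1309 / 5000 - f),
      sq_nonneg (f - 1309 / 5000)]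
  norm_num at hc ⊢
  nlinarith

/-- `cos Λ ≤ ξ sin(3X+3Y)` -/
theorem shG_T {X Y : ℝ} (hX0 : Real.pi / 8 ≤ X) (hX1 : X ≤ Real.pi / 6) (hY : 0 ≤ Y)
    (hXY : X + Y ≤ Real.pi / 4) :
    Real.cos (X + 2 * Y) ≤ (1.285 - 0.7 * (X + Y)) * Real.sin (3 * X + 3 * Y) := by
  have hpi := Real.pi_pos
  have p0 := Real.pi_gt_d4
  have p1 := Real.pi_lt_d4
  have s3 := shG_sqrt3
  rcases le_or_gt (X + Y) (Real.pi / 6) with h1 | h1
  · obtain ⟨e, he⟩ : ∃ e, e = Real.pi / 2 - 3 * (X + Y) := ⟨_, rfl⟩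
    have e0 : 0 ≤ e := by rw [he]; linarith
    have e1 : e ≤ 0.3928 := by rw [he]; norm_num at p1 ⊢; linarith
    have h2 : Real.cos (X + 2 * Y) ≤ Real.cos (Real.pi / 6 - e / 3) := by
      apply Real.cos_le_cos_of_nonneg_of_le_pi
      · rw [he]; linarith
      · linarith
      · rw [he]; linarith
    rw [Real.cos_sub, Real.cos_pi_div_six, Real.sin_pi_div_six] at h2
    have h3 : Real.sin (3 * X + 3 * Y) = Real.cos e := by
      rw [he, ← Real.sin_pi_div_two_sub]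
      congr 1
      ring
    have h4 := Real.one_sub_sq_div_two_le_cos (x := e)
    have h5 := EQS.cos_le4 (x := e / 3) (by positivity)
    have h6 := Real.sin_le (by positivity : 0 ≤ e / 3)
    have h7 : 0 ≤ Real.cos (e / 3) := Real.cos_nonneg_of_mem_Icc ⟨by linarith, by linarith⟩
    have h8 : Real.sqrt 3 / 2 * Real.cos (e / 3) ≤
        0.86603 * (1 - (e / 3) ^ 2 / 2 + (e / 3) ^ 4 / 24) := by
      apply mul_le_mul _ h5 h7 (by norm_num)
      norm_num at s3 ⊢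
      linarith
    have h9 : 0.91847 + 0.2333 * e ≤ 1.285 - 0.7 * (X + Y) := by
      rw [he]
      norm_num at p1 ⊢
      linarith
    have h10 := shG_Ti e0 e1
    have h11 : (0.91847 + 0.2333 * e) * (1 - e ^ 2 / 2) ≤
        (1.285 - 0.7 * (X + Y)) * Real.cos e := by
      apply mul_le_mul h9 h4
      · norm_num at e1
        nlinarith
      · refine le_trans ?_ h9
        positivity
    rw [h3]
    linarith
  · obtain ⟨f, hf⟩ : ∃ f, f = X + Y - Real.pi / 6 := ⟨_, rfl⟩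
    have f0 : 0 ≤ f := by rw [hf]; linarith
    have f1 : f ≤ 0.2618 := by rw [hf]; norm_num at p1 ⊢; linarith
    have h2 : Real.cos (X + 2 * Y) ≤ Real.cos (Real.pi / 6 + 2 * f) := by
      apply Real.cos_le_cos_of_nonneg_of_le_pi
      · linarith
      · linarith
      · rw [hf]; linarith
    rw [Real.cos_add (Real.pi / 6), Real.cos_pi_div_six, Real.sin_pi_div_six] at h2
    have h3 : Real.sin (3 * X + 3 * Y) = Real.cos (3 * f) := by
      rw [hf, ← Real.sin_add_pi_div_two]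
      congr 1
      ring
    have h4 := EQS.cos_ge6 (x := 3 * f) (by positivity)
    have h5 := EQS.cos_le4 (x := 2 * f) (by positivity)
    have h6 := EQS.sin_ge3 (x := 2 * f) (by positivity)
    have f1' := f1
    norm_num at f1'
    have h7 : 0 ≤ Real.cos (2 * f) := Real.cos_nonneg_of_mem_Icc ⟨by linarith, by linarith⟩
    have h8 : Real.sqrt 3 / 2 * Real.cos (2 * f) ≤
        0.86603 * (1 - (2 * f) ^ 2 / 2 + (2 * f) ^ 4 / 24) := by
      apply mul_le_mul _ h5 h7 (by norm_num)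
      norm_num at s3 ⊢
      linarith
    have h9 : 0.91847 - 0.7 * f ≤ 1.285 - 0.7 * (X + Y) := by
      rw [hf]
      norm_num at p1 ⊢
      linarith
    have h10 := shG_Tii f0 f1
    have h12 : 0 ≤ 0.91847 - 0.7 * f := by norm_num; linarith
    have h11 : (0.91847 - 0.7 * f) * (1 - (3 * f) ^ 2 / 2 + (3 * f) ^ 4 / 24 -
        (3 * f) ^ 6 / 720) ≤ (1.285 - 0.7 * (X + Y)) * Real.cos (3 * f) := by
      refine (mul_le_mul_of_nonneg_left h4 h12).trans ?_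
      apply mul_le_mul_of_nonneg_right h9
      exact Real.cos_nonneg_of_mem_Icc ⟨by linarith, by linarith⟩
    rw [h3]
    linarith

/-- the comparisons of sines -/
theorem shG_sines {X Y v : ℝ} (hX0 : Real.pi / 8 ≤ X) (hv0 : 0 ≤ v) (hvY : v ≤ Y)
    (hXY : X + Y ≤ Real.pi / 4) :
    Real.cos (X + 2 * Y) ≤ Real.sin (3 * X + 4 * Y) ∧
      Real.sin (X + v) ≤ Real.sin (3 * X + 4 * Y - v) ∧
      Real.sin (X + v) ≤ Real.sin (X + 2 * Y) ∧ 0 ≤ Real.sin (X + v) := by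
  have hpi := Real.pi_pos
  refine ⟨?_, ?_, ?_, ?_⟩
  · rw [← Real.sin_pi_div_two_sub]
    apply sin_le_sin_sum <;> linarith
  · apply sin_le_sin_sum <;> linarith
  · apply sin_le_sin_sum <;> linarith
  · exact Real.sin_nonneg_of_nonneg_of_le_pi (by linarith) (by linarith)

/-- `0.6 sin(X+v) ≤ sin X` -/
theorem shG_m {X v : ℝ} (hX0 : 0 ≤ X) (hv0 : 0 ≤ v) (hv : v ≤ 2 / 3 * X) (hX1 : X ≤ 1) :
    0.6 * Real.sin (X + v) ≤ Real.sin X := by
  have p0 := Real.pi_gt_three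
  have h1 := strictConcaveOn_sin_Icc.concaveOn.2
    (⟨le_rfl, by linarith⟩ : (0 : ℝ) ∈ Set.Icc 0 Real.pi)
    (⟨by linarith, by linarith⟩ : X + v ∈ Set.Icc 0 Real.pi)
    (by norm_num : (0 : ℝ) ≤ 0.4) (by norm_num : (0 : ℝ) ≤ 0.6) (by norm_num)
  simp only [smul_eq_mul, mul_zero, zero_add, Real.sin_zero] at h1
  refine h1.trans ?_
  apply sin_le_sin_sum
  · positivity
  · norm_num; linarith
  · norm_num; linarith

/-- `sin Ω` between its values for `v = 0`, `v = Y` -/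
theorem shG_conc {X Y v l : ℝ} (hX0 : 0 ≤ X) (hY : 0 ≤ Y) (hXY : X + Y ≤ Real.pi / 4)
    (hl0 : 0 ≤ l) (hl1 : l ≤ 1) (hv : v = l * Y) :
    (1 - l) * Real.sin (3 * X + 4 * Y) + l * Real.sin (3 * X + 3 * Y) ≤
      Real.sin (3 * X + 4 * Y - v) := by
  have hpi := Real.pi_pos
  have h1 := strictConcaveOn_sin_Icc.concaveOn.2
    (⟨by linarith, by linarith⟩ : 3 * X + 4 * Y ∈ Set.Icc 0 Real.pi)
    (⟨by linarith, by linarith⟩ : 3 * X + 3 * Y ∈ Set.Icc 0 Real.pi)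
    (by linarith : (0 : ℝ) ≤ 1 - l) hl0 (by ring)
  simp only [smul_eq_mul] at h1
  have e : (1 - l) * (3 * X + 4 * Y) + l * (3 * X + 3 * Y) = 3 * X + 4 * Y - v := by
    rw [hv]; ring
  rwa [e] at h1

/-- `1 + sin κπ` from below -/
theorem shG_D {κ : ℝ} (h0 : 1 / 4 ≤ κ) (h1 : κ ≤ 1 / 3) :
    1.2303 + 1.907 * κ ≤ 1 + Real.sin (κ * Real.pi) := by
  have hpi := Real.pi_pos
  have h2 := strictConcaveOn_sin_Icc.concaveOn.2
    (⟨by linarith, by linarith⟩ : Real.pi / 4 ∈ Set.Icc 0 Real.pi)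
    (⟨by linarith, by linarith⟩ : Real.pi / 3 ∈ Set.Icc 0 Real.pi)
    (by linarith : (0 : ℝ) ≤ 4 - 12 * κ) (by linarith : (0 : ℝ) ≤ 12 * κ - 3) (by ring)
  simp only [smul_eq_mul] at h2
  have e : (4 - 12 * κ) * (Real.pi / 4) + (12 * κ - 3) * (Real.pi / 3) = κ * Real.pi := by ring
  rw [e, Real.sin_pi_div_four, Real.sin_pi_div_three] at h2
  have a1 := mul_le_mul_of_nonneg_left shG_sqrt2' (by linarith : (0 : ℝ) ≤ 4 - 12 * κ)
  have a2 := mul_le_mul_of_nonneg_left shG_sqrt3' (by linarith : (0 : ℝ) ≤ 12 * κ - 3)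
  norm_num at a1 a2 ⊢
  linarith

/-- step 1: `2 u ≤ W r τ` -/
theorem shG_step1 {Q M σ r τ u W A z : ℝ} (hr : 0 < r) (hτ : 1 ≤ τ) (hM : 0 < M)
    (hu : 2 * τ * u ^ 2 ≤ M * (Q + u * σ)) (hQ : 2 * M * Q ≤ A * (r ^ 2 * τ ^ 3))
    (hz : 0 ≤ z) (hσ : σ ≤ z * r) (hW : 0 < W) (hWM : 0 ≤ W - M * z)
    (hA : A ≤ W * (W - M * z)) : 2 * u ≤ W * (r * τ) := by
  have hτ0 : 0 < τ := by linarith
  by_contra hcon
  have hcon' := not_le.1 hcon
  obtain ⟨U, hU⟩ : ∃ U, U = 2 * u := ⟨_, rfl⟩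
  rw [← hU] at hcon'
  have U0 : 0 < U := lt_trans (by positivity) hcon'
  have hu' : u = U / 2 := by linarith
  rw [hu'] at hu
  have h1 : U * (τ * U - M * σ) ≤ 2 * M * Q := by
    have e1 : 2 * τ * (U / 2) ^ 2 = τ * U ^ 2 / 2 := by ring
    rw [e1] at hu
    have e2 : U * (τ * U - M * σ) = 2 * (τ * U ^ 2 / 2) - M * U * σ := by ring
    have e3 : M * (Q + U / 2 * σ) * 2 = 2 * M * Q + M * U * σ := by ring
    linarith
  have h2 : r * τ ^ 2 * (W - M * z) < τ * U - M * σ := by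
    have e1 : τ * (W * (r * τ)) < τ * U := mul_lt_mul_of_pos_left hcon' hτ0
    have e2 : M * σ ≤ M * (z * r) := mul_le_mul_of_nonneg_left hσ hM.le
    have e3 : M * (z * r) ≤ M * (z * r) * τ ^ 2 :=
      le_mul_of_one_le_right (by positivity) (one_le_pow₀ hτ)
    have e4 : r * τ ^ 2 * (W - M * z) = τ * (W * (r * τ)) - M * (z * r) * τ ^ 2 := by ring
    linarith
  have h3 : 0 ≤ r * τ ^ 2 * (W - M * z) := by positivity
  have h4 : W * (r * τ) * (r * τ ^ 2 * (W - M * z)) < U * (τ * U - M * σ) :=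
    mul_lt_mul' hcon'.le h2 h3 U0
  have h5 : W * (r * τ) * (r * τ ^ 2 * (W - M * z)) = W * (W - M * z) * (r ^ 2 * τ ^ 3) := by
    ring
  have h6 := mul_le_mul_of_nonneg_right hA (by positivity : 0 ≤ r ^ 2 * τ ^ 3)
  linarith

/-- step 2: the `P` part -/
theorem shG_step2 {E M σ s P D x r τ S B sO sL : ℝ} (hr : 0 < r) (hτ : 0 < τ) (hM : 0 < M)
    (hs2 : s ^ 2 ≤ M * (E + s * σ)) (hD : 0 < D)
    (hP0 : 0 ≤ P) (hP : P * D ≤ E + s * σ) (hx : x * τ = r) (hx1 : x ≤ 1) (hS : 0 ≤ S)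
    (hSO : S ≤ sO) (hSL : S ≤ sL) (hE : 0 ≤ E) (hB : B ≤ τ / r * ((1 - 0.6 * x) * S))
    (halg : 1.125 * M * σ ^ 2 * (1 - 0.6 * x) + E * (1.5 - 0.9 * x - D * x) ≤
      0.09 * D * r ^ 2) : P * B ≤ 0.09 * (r * τ) * sO + E * sL := by
  have hx0 : 0 < x := by
    by_contra hcon
    have := mul_nonpos_of_nonpos_of_nonneg (not_lt.1 hcon) hτ.le
    linarith
  obtain ⟨Q, hQ⟩ : ∃ Q, Q = E + s * σ := ⟨_, rfl⟩
  rw [← hQ] at hs2 hP
  have h1 : Q ≤ 1.5 * E + 1.125 * M * σ ^ 2 := by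
    have e1 : 0 ≤ (s - 1.5 * M * σ) ^ 2 := sq_nonneg _
    have e2 : 3 * M * (s * σ) ≤ s ^ 2 + 2.25 * M ^ 2 * σ ^ 2 := by
      have : (s - 1.5 * M * σ) ^ 2 = s ^ 2 - 3 * M * (s * σ) + 2.25 * M ^ 2 * σ ^ 2 := by ring
      linarith
    have e3 : M * (3 * (s * σ)) ≤ M * (Q + 2.25 * M * σ ^ 2) := by
      calc M * (3 * (s * σ)) = 3 * M * (s * σ) := by ring
        _ ≤ s ^ 2 + 2.25 * M ^ 2 * σ ^ 2 := e2
        _ ≤ M * Q + 2.25 * M ^ 2 * σ ^ 2 := by linarith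
        _ = _ := by ring
    have e4 := le_of_mul_le_mul_left e3 hM
    norm_num at e4 ⊢
    linarith
  have hx6 : 0 ≤ 1 - 0.6 * x := by norm_num; linarith
  have hQ0 : 0 ≤ Q := le_trans (by positivity) hP
  have h2 : P ≤ Q / D := by rw [le_div_iff₀ hD]; exact hP
  have h3 : P * B ≤ Q / D * (τ / r * ((1 - 0.6 * x) * S)) := by
    calc P * B ≤ P * (τ / r * ((1 - 0.6 * x) * S)) := mul_le_mul_of_nonneg_left hB hP0
      _ ≤ _ := mul_le_mul_of_nonneg_right h2 (by positivity)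
  have h4 : Q * (1 - 0.6 * x) ≤ D * (0.09 * r ^ 2 + x * E) := by
    have e1 := mul_le_mul_of_nonneg_right h1 hx6
    have e2 : (1.5 * E + 1.125 * M * σ ^ 2) * (1 - 0.6 * x) =
        1.125 * M * σ ^ 2 * (1 - 0.6 * x) + E * (1.5 - 0.9 * x - D * x) + D * (x * E) := by
      ring
    have e3 : D * (0.09 * r ^ 2 + x * E) = 0.09 * D * r ^ 2 + D * (x * E) := by ring
    linarith
  have h5 : Q / D * (τ / r * ((1 - 0.6 * x) * S)) ≤ (0.09 * (r * τ) + E) * S := by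
    have e1 : Q / D * (τ / r * ((1 - 0.6 * x) * S)) =
        Q * (1 - 0.6 * x) * (τ / (r * D) * S) := by
      field_simp
    rw [e1]
    refine (mul_le_mul_of_nonneg_right h4 (by positivity)).trans (le_of_eq ?_)
    rw [← hx]
    field_simp
  have h6 : (0.09 * (r * τ) + E) * S ≤ 0.09 * (r * τ) * sO + E * sL := by
    have e1 := mul_le_mul_of_nonneg_left hSO (by positivity : 0 ≤ 0.09 * (r * τ))
    have e2 := mul_le_mul_of_nonneg_left hSL hE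
    linarith
  linarith

/-- P-part, small `x` -/
theorem shG_E1 {κ x : ℝ} (h0 : 1 / 4 ≤ κ) (h1 : κ ≤ 1 / 3) (hx0 : 0 ≤ x) (hx1 : x ≤ 3 / 10) :
    0 ≤ (0.09 + 2.148 * (κ * (x * x))) * (1.2303 + 1.907 * κ) - 1.1197 * x ^ 4 -
      2.148 * (κ * (x * (1.5 - 0.9 * x))) := by
  obtain ⟨A, hA, eA⟩ : ∃ A : ℝ, 0 ≤ A ∧ A = κ - 1 / 4 := ⟨_, by linarith, rfl⟩
  obtain ⟨B, hB, eB⟩ : ∃ B : ℝ, 0 ≤ B ∧ B = 1 / 3 - κ := ⟨_, by linarith, rfl⟩
  obtain ⟨C, hC, eC⟩ : ∃ C : ℝ, 0 ≤ C ∧ C = x - 0 := ⟨_, by linarith, rfl⟩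
  obtain ⟨D, hD, eD⟩ : ∃ D : ℝ, 0 ≤ D ∧ D = 3 / 10 - x := ⟨_, by linarith, rfl⟩
  have key : 0 ≤ (68282 / 25) * B ^ 2 * D ^ 4 +
      (165728 / 25) * B ^ 2 * C ^ 1 * D ^ 3 +
      (71745717 / 12500) * B ^ 2 * C ^ 2 * D ^ 2 +
      (15731717 / 6250) * B ^ 2 * C ^ 3 * D ^ 1 +
      (6425257 / 12500) * B ^ 2 * C ^ 4 +
      (428762 / 75) * A ^ 1 * B ^ 1 * D ^ 4 +
      (963248 / 75) * A ^ 1 * B ^ 1 * C ^ 1 * D ^ 3 +
      (59950719 / 6250) * A ^ 1 * B ^ 1 * C ^ 2 * D ^ 2 +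
      (33015157 / 9375) * A ^ 1 * B ^ 1 * C ^ 3 * D ^ 1 +
      (13753277 / 18750) * A ^ 1 * B ^ 1 * C ^ 4 +
      (223916 / 75) * A ^ 2 * D ^ 4 +
      (466064 / 75) * A ^ 2 * C ^ 1 * D ^ 3 +
      (36543482 / 9375) * A ^ 2 * C ^ 2 * D ^ 2 +
      (10270964 / 9375) * A ^ 2 * C ^ 3 * D ^ 1 +
      (828129 / 3125) * A ^ 2 * C ^ 4 := by positivity
  refine key.trans (le_of_eq ?_)
  rw [eA, eB, eC, eD]
  ring

/-- P-part, `x ≥ 3/10` -/
theorem shG_E2 {κ x : ℝ} (h0 : 1 / 4 ≤ κ) (h1 : κ ≤ 1 / 3) (hx0 : 3 / 10 ≤ x) (hx1 : x ≤ 72 / 125) :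
    0 ≤ (0.09 + 2.148 * (κ * (x * x))) * (1.2303 + 1.907 * κ) - 1.1197 * x ^ 4 -
      2.148 * (κ * (x * (1.5 - 0.9 * x))) := by
  obtain ⟨A, hA, eA⟩ : ∃ A : ℝ, 0 ≤ A ∧ A = κ - 1 / 4 := ⟨_, by linarith, rfl⟩
  obtain ⟨B, hB, eB⟩ : ∃ B : ℝ, 0 ≤ B ∧ B = 1 / 3 - κ := ⟨_, by linarith, rfl⟩
  obtain ⟨C, hC, eC⟩ : ∃ C : ℝ, 0 ≤ C ∧ C = x - 3 / 10 := ⟨_, by linarith, rfl⟩
  obtain ⟨D, hD, eD⟩ : ∃ D : ℝ, 0 ≤ D ∧ D = 72 / 125 - x := ⟨_, by linarith, rfl⟩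
  have key : 0 ≤ (34919875 / 48668) * B ^ 2 * D ^ 4 +
      (55433735 / 24334) * B ^ 2 * C ^ 1 * D ^ 3 +
      (981275811 / 243340) * B ^ 2 * C ^ 2 * D ^ 2 +
      (1034185672 / 304175) * B ^ 2 * C ^ 3 * D ^ 1 +
      (5830479334 / 7604375) * B ^ 2 * C ^ 4 +
      (1719159625 / 1679046) * A ^ 1 * B ^ 1 * D ^ 4 +
      (2804829905 / 839523) * A ^ 1 * B ^ 1 * C ^ 1 * D ^ 3 +
      (22191564111 / 2798410) * A ^ 1 * B ^ 1 * C ^ 2 * D ^ 2 +
      (179042677856 / 20988075) * A ^ 1 * B ^ 1 * C ^ 3 * D ^ 1 +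
      (1361727480842 / 524701875) * A ^ 1 * B ^ 1 * C ^ 4 +
      (103516125 / 279841) * A ^ 2 * D ^ 4 +
      (1203850660 / 839523) * A ^ 2 * C ^ 1 * D ^ 3 +
      (19658235098 / 4197615) * A ^ 2 * C ^ 2 * D ^ 2 +
      (122635127888 / 20988075) * A ^ 2 * C ^ 3 * D ^ 1 +
      (1082311486796 / 524701875) * A ^ 2 * C ^ 4 := by positivity
  refine key.trans (le_of_eq ?_)
  rw [eA, eB, eC, eD]
  ring

/-- the algebraic inequality of step 2 -/
theorem shG_alg {κ M D r τ σ v Y E x ρ : ℝ} (h0 : 1 / 4 ≤ κ) (h1 : κ ≤ 1 / 3)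
    (hM0 : 0 < M) (hM : M ≤ 2.52) (hD : 1.2303 + 1.907 * κ ≤ D) (hr : 0 < r)
    (hτ0 : 0 < τ) (hτ1 : τ ≤ 1.26) (hx : x * τ = r)
    (hx1 : x ≤ 1) (hσ0 : 0 ≤ σ) (hσ : σ ≤ v) (hvY : v ≤ Y) (hY : Y ≤ 0.3142)
    (hv : v ≤ r * (2 * κ * Y + (1 - 2 * κ) * v)) (hvρ : v * (1 + ρ) ≤ 2 * ρ * Y)
    (hρ0 : 0 < ρ) (hρr : ρ ≤ r ^ 3) (hτ3 : τ ^ 3 ≤ 1 + ρ) (hE0 : 0 ≤ E)
    (hE : E ≤ 2 * κ * ρ) (hTE : τ ^ 2 = 1 + E) :
    1.125 * M * σ ^ 2 * (1 - 0.6 * x) + E * (1.5 - 0.9 * x - D * x) ≤ 0.09 * D * r ^ 2 := by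
  have hx0 : 0 < x := by
    by_contra hcon
    have := mul_nonpos_of_nonpos_of_nonneg (not_lt.1 hcon) hτ0.le
    linarith
  have hv0 : 0 ≤ v := hσ0.trans hσ
  have hY0 : 0 ≤ Y := hv0.trans hvY
  have hY2 : Y ^ 2 ≤ 0.09873 := by
    have := pow_le_pow_left₀ hY0 hY 2
    norm_num at this ⊢
    linarith
  have hx6 : 0 ≤ 1 - 0.6 * x := by norm_num; linarith
  have hσ2 : σ ^ 2 ≤ v ^ 2 := pow_le_pow_left₀ hσ0 hσ 2
  have hD0 : 1.7 ≤ D := by norm_num at hD ⊢; linarith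
  rcases le_or_gt (1.5 - 0.9 * x - D * x) 0 with h2 | h2
  · -- the `E` term is non-positive
    have a1 : E * (1.5 - 0.9 * x - D * x) ≤ 0 := mul_nonpos_of_nonneg_of_nonpos hE0 h2
    obtain ⟨Z, hZ⟩ : ∃ Z, Z = 2 * κ * Y + (1 - 2 * κ) * v := ⟨_, rfl⟩
    rw [← hZ] at hv
    obtain ⟨z, hz⟩ : ∃ z, z = v / r := ⟨_, rfl⟩
    have hvz : v = z * r := by rw [hz]; field_simp
    have hz0 : 0 ≤ z := by rw [hz]; positivity
    have hzZ : z ≤ Z := by
      rw [hz, div_le_iff₀ hr]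
      linarith
    have a2 : v ^ 2 * (1 - 0.6 * x) = r ^ 2 * (z * (z - 0.6 * v / τ)) := by
      have e1 : x = r / τ := by rw [← hx]; field_simp
      rw [e1]
      field_simp
      rw [hvz]
      ring
    have a3 : 0.476 * v ≤ 0.6 * v / τ := by
      rw [le_div_iff₀ hτ0]
      have := mul_le_mul_of_nonneg_left hτ1 hv0
      norm_num at this ⊢
      linarith
    have hr1 : r ≤ τ := by
      rw [← hx]
      exact mul_le_of_le_one_left hτ0.le hx1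
    have hrz : r * z = v := by rw [hvz]; ring
    have a4 : z * (z - 0.6 * v / τ) ≤ Z * (Z - 0.476 * v) := by
      have e1 : z - 0.6 * v / τ ≤ z - 0.476 * v := by linarith
      have e2 : z * (z - 0.6 * v / τ) ≤ z * (z - 0.476 * v) :=
        mul_le_mul_of_nonneg_left e1 hz0
      refine e2.trans ?_
      have e3 : 0.476 * v ≤ z := by
        have : v ≤ 1.26 * z := by
          rw [hvz, mul_comm]
          exact mul_le_mul_of_nonneg_right (hr1.trans hτ1) hz0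
        norm_num at this ⊢
        linarith
      apply mul_le_mul hzZ (by linarith) (by linarith) (hz0.trans hzZ)
    have a5 : Z * (Z - 0.476 * v) ≤ (2 * κ * (1.524 - 2 * κ) + 0.012) * Y ^ 2 := by
      have b1 : 0 ≤ (2 * κ) * (1.524 - 2 * (2 * κ)) * (Y * (Y - v)) := by
        apply mul_nonneg (mul_nonneg (by linarith) (by norm_num; linarith))
        exact mul_nonneg hY0 (by linarith)
      have b2 : (1 - 2 * κ) * (0.524 - 2 * κ) ≤ 0.012 := by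
        norm_num
        nlinarith
      have b3 : (1 - 2 * κ) * (0.524 - 2 * κ) * v ^ 2 ≤ 0.012 * Y ^ 2 := by
        calc (1 - 2 * κ) * (0.524 - 2 * κ) * v ^ 2 ≤ 0.012 * v ^ 2 :=
              mul_le_mul_of_nonneg_right b2 (sq_nonneg _)
          _ ≤ 0.012 * Y ^ 2 := mul_le_mul_of_nonneg_left (pow_le_pow_left₀ hv0 hvY 2)
              (by norm_num)
      rw [hZ]
      nlinarith
    have a6 : 1.125 * M * σ ^ 2 * (1 - 0.6 * x) ≤
        1.125 * 2.52 * (r ^ 2 * ((2 * κ * (1.524 - 2 * κ) + 0.012) * Y ^ 2)) := by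
      have c1 : σ ^ 2 * (1 - 0.6 * x) ≤ v ^ 2 * (1 - 0.6 * x) :=
        mul_le_mul_of_nonneg_right hσ2 hx6
      have c2 : v ^ 2 * (1 - 0.6 * x) ≤ r ^ 2 * ((2 * κ * (1.524 - 2 * κ) + 0.012) * Y ^ 2) := by
        rw [a2]
        exact mul_le_mul_of_nonneg_left (a4.trans a5) (by positivity)
      have c3 : 0 ≤ r ^ 2 * ((2 * κ * (1.524 - 2 * κ) + 0.012) * Y ^ 2) :=
        le_trans (by positivity) (c1.trans c2)
      calc 1.125 * M * σ ^ 2 * (1 - 0.6 * x) = 1.125 * M * (σ ^ 2 * (1 - 0.6 * x)) := by ring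
        _ ≤ 1.125 * M * (r ^ 2 * ((2 * κ * (1.524 - 2 * κ) + 0.012) * Y ^ 2)) :=
            mul_le_mul_of_nonneg_left (c1.trans c2) (by positivity)
        _ ≤ _ := by
            apply mul_le_mul_of_nonneg_right _ c3
            norm_num at hM ⊢
            linarith
    have a7 : 1.125 * 2.52 * ((2 * κ * (1.524 - 2 * κ) + 0.012) * Y ^ 2) ≤ 0.09 * D := by
      have b0 : 0 ≤ 2 * κ * (1.524 - 2 * κ) + 0.012 := by
        have : 0 ≤ 1.524 - 2 * κ := by norm_num; linarith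
        positivity
      have b1 := mul_le_mul_of_nonneg_left hY2 b0
      norm_num at b1 hD ⊢
      nlinarith [mul_nonneg (by linarith : 0 ≤ κ - 1 / 4) (by linarith : 0 ≤ 1 / 3 - κ)]
    have a8 := mul_le_mul_of_nonneg_left a7 (by positivity : 0 ≤ r ^ 2)
    have e9 : r ^ 2 * (1.125 * 2.52 * ((2 * κ * (1.524 - 2 * κ) + 0.012) * Y ^ 2)) =
        1.125 * 2.52 * (r ^ 2 * ((2 * κ * (1.524 - 2 * κ) + 0.012) * Y ^ 2)) := by ring
    have e10 : r ^ 2 * (0.09 * D) = 0.09 * D * r ^ 2 := by ring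
    rw [e9, e10] at a8
    linarith
  · -- small `x`
    have hD7 : 1.707 ≤ D := by norm_num at hD ⊢; linarith
    have hx58 : x ≤ 0.576 := by
      by_contra hcon
      have hcon' := not_le.1 hcon
      have c1 : 1.707 * x ≤ D * x := mul_le_mul_of_nonneg_right hD7 hx0.le
      norm_num at hcon' h2 c1
      linarith
    have hx3 : x ^ 3 ≤ 0.1912 := by
      have := pow_le_pow_left₀ hx0.le hx58 3
      norm_num at this ⊢
      linarith
    have hrxt : r ^ 3 = x ^ 3 * τ ^ 3 := by rw [← hx]; ring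
    have hτ74 : τ ≤ 1.074 := by
      by_contra hcon
      have hcon' := not_le.1 hcon
      have c1 : (1.074 : ℝ) ^ 3 ≤ τ ^ 3 := pow_le_pow_left₀ (by norm_num) hcon'.le 3
      have c2 : τ ^ 3 * (1 - x ^ 3) ≤ 1 := by
        have : τ ^ 3 * (1 - x ^ 3) = τ ^ 3 - r ^ 3 := by rw [hrxt]; ring
        linarith
      have c3 : (0.8088 : ℝ) ≤ 1 - x ^ 3 := by norm_num at hx3 ⊢; linarith
      have c4 : (1.074 : ℝ) ^ 3 * 0.8088 ≤ τ ^ 3 * (1 - x ^ 3) :=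
        mul_le_mul c1 c3 (by norm_num) (by positivity)
      norm_num at c4 c2
      linarith
    have hEx : E ≤ 2.148 * κ * x * r ^ 2 := by
      calc E ≤ 2 * κ * ρ := hE
        _ ≤ 2 * κ * r ^ 3 := mul_le_mul_of_nonneg_left hρr (by linarith)
        _ = 2 * κ * x * r ^ 2 * τ := by
            have : r ^ 3 = r ^ 2 * (x * τ) := by rw [hx]; ring
            rw [this]; ring
        _ ≤ 2 * κ * x * r ^ 2 * 1.074 := by
            apply mul_le_mul_of_nonneg_left hτ74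
            have : 0 ≤ κ := by linarith
            positivity
        _ = _ := by ring
    have hv2 : v ≤ 2 * r * x ^ 2 * Y := by
      have c1 : v * τ ^ 2 ≤ 2 * r * x ^ 2 * Y * τ ^ 2 := by
        calc v * τ ^ 2 ≤ v * (1 + ρ) := by
              apply mul_le_mul_of_nonneg_left _ hv0
              rw [hTE]
              have : 2 * κ * ρ ≤ 1 * ρ := mul_le_mul_of_nonneg_right (by linarith) hρ0.le
              linarith
          _ ≤ 2 * ρ * Y := hvρ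
          _ ≤ 2 * r ^ 3 * Y := by
              apply mul_le_mul_of_nonneg_right _ hY0
              linarith
          _ = _ := by
              have : r ^ 3 = r * (x * τ) ^ 2 := by rw [hx]; ring
              rw [this]; ring
      exact le_of_mul_le_mul_right c1 (by positivity)
    have c1 : σ ^ 2 * (1 - 0.6 * x) ≤ 4 * (r ^ 2 * x ^ 4) * Y ^ 2 := by
      have d1 : σ ^ 2 ≤ (2 * r * x ^ 2 * Y) ^ 2 := pow_le_pow_left₀ hσ0 (hσ.trans hv2) 2
      have d2 : σ ^ 2 * (1 - 0.6 * x) ≤ σ ^ 2 * 1 := by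
        apply mul_le_mul_of_nonneg_left _ (sq_nonneg _)
        norm_num
        linarith
      calc σ ^ 2 * (1 - 0.6 * x) ≤ (2 * r * x ^ 2 * Y) ^ 2 := by linarith
        _ = _ := by ring
    have c2 : 4 * (r ^ 2 * x ^ 4) * Y ^ 2 ≤ 4 * (r ^ 2 * x ^ 4) * 0.09873 :=
      mul_le_mul_of_nonneg_left hY2 (by positivity)
    have c3 : 1.125 * M * σ ^ 2 * (1 - 0.6 * x) ≤ 1.1197 * x ^ 4 * r ^ 2 := by
      calc 1.125 * M * σ ^ 2 * (1 - 0.6 * x) = 1.125 * M * (σ ^ 2 * (1 - 0.6 * x)) := by ring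
        _ ≤ 1.125 * M * (4 * (r ^ 2 * x ^ 4) * 0.09873) :=
            mul_le_mul_of_nonneg_left (c1.trans c2) (by positivity)
        _ ≤ 1.125 * 2.52 * (4 * (r ^ 2 * x ^ 4) * 0.09873) := by
            apply mul_le_mul_of_nonneg_right _ (by positivity)
            norm_num at hM ⊢
            linarith
        _ ≤ _ := by
            have : 0 ≤ r ^ 2 * x ^ 4 := by positivity
            norm_num
            linarith
    have c4 : E * (1.5 - 0.9 * x - D * x) ≤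
        2.148 * κ * x * r ^ 2 * (1.5 - 0.9 * x - D * x) := mul_le_mul_of_nonneg_right hEx h2.le
    have c5 : 0 ≤ (0.09 + 2.148 * (κ * (x * x))) * (1.2303 + 1.907 * κ) - 1.1197 * x ^ 4 -
        2.148 * (κ * (x * (1.5 - 0.9 * x))) := by
      rcases le_or_gt x (3 / 10) with h3 | h3
      · exact shG_E1 h0 h1 hx0.le h3
      · exact shG_E2 h0 h1 h3.le (by norm_num at hx58 ⊢; linarith)
    have c6 : (0.09 + 2.148 * (κ * (x * x))) * (1.2303 + 1.907 * κ) ≤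
        (0.09 + 2.148 * (κ * (x * x))) * D := by
      apply mul_le_mul_of_nonneg_left hD
      have : 0 ≤ κ := by linarith
      positivity
    have c7 : 1.1197 * x ^ 4 + 2.148 * κ * x * (1.5 - 0.9 * x - D * x) ≤ 0.09 * D := by
      have e1 : 2.148 * κ * x * (1.5 - 0.9 * x - D * x) =
          2.148 * (κ * (x * (1.5 - 0.9 * x))) - 2.148 * (κ * (x * x)) * D := by ring
      have e2 : (0.09 + 2.148 * (κ * (x * x))) * D = 0.09 * D + 2.148 * (κ * (x * x)) * D := by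
        ring
      linarith
    have c8 := mul_le_mul_of_nonneg_right c7 (by positivity : 0 ≤ r ^ 2)
    have e9 : (1.1197 * x ^ 4 + 2.148 * κ * x * (1.5 - 0.9 * x - D * x)) * r ^ 2 =
        1.1197 * x ^ 4 * r ^ 2 + 2.148 * κ * x * r ^ 2 * (1.5 - 0.9 * x - D * x) := by ring
    rw [e9] at c8
    linarith

end EQS
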