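import Mathlib
import Pool.Agent.Lib.MP_226de1_co.E.DShG2

/-! Closed inequality (H), `t ≥ 1`, `1/4 ≤ κ ≤ 1/3`: the bound of the main term. -/

set_option autoImplicit false

namespace EQS

theorem shG_two {κ : ℝ} (h1 : κ ≤ 1 / 3) : (2 : ℝ) ^ κ ≤ 1.26 := by
  refine (Real.rpow_le_rpow_of_exponent_le (by norm_num) h1).trans ?_
  have := shE_root (b := 2) (u := 1.26) (n := 3) (by norm_num) (by norm_num) (by norm_num)
    (by norm_num)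
  push_cast at this
  exact this

theorem shG_six3 : (6 : ℝ) ^ (1 / 3 : ℝ) ≤ 1.8172 := by
  have := shE_root (b := 6) (u := 1.8172) (n := 3) (by norm_num) (by norm_num) (by norm_num)
    (by norm_num)
  push_cast at this
  exact this

theorem shG_six4 : (6 : ℝ) ^ (1 / 4 : ℝ) ≤ 1.5651 := by
  have := shE_root (b := 6) (u := 1.5651) (n := 4) (by norm_num) (by norm_num) (by norm_num)
    (by norm_num)
  push_cast at this
  exact this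

theorem shG_six {κ : ℝ} (h0 : 1 / 4 ≤ κ) (h1 : κ ≤ 1 / 3) :
    (6 : ℝ) ^ κ ≤ 0.8088 + 3.0252 * κ ∧ (6 : ℝ) ^ κ ≤ 1.8172 := by
  constructor
  · have hc := shE_chord (b := 6) (κ0 := 1 / 4) (κ1 := 1 / 3) (κ := κ) (by norm_num) h0 h1
      (by norm_num) shG_six4 shG_six3
    norm_num at hc ⊢
    linarith
  · exact (Real.rpow_le_rpow_of_exponent_le (by norm_num) h1).trans shG_six3

/-- `F0` -/
theorem shG_F0 {κ Y m : ℝ} (h0 : 1 / 4 ≤ κ) (h1 : κ ≤ 1 / 3) (hY0 : 0 ≤ Y) (hY1 : Y ≤ 0.3142)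
    (hm : m = 2 * 6 ^ κ * (2 * κ / 3) * Y) :
    (2.9552 * κ - 0.226) * (1 - 6 * Y ^ 2 + 18 * Y ^ 4) ≤ 0.91 * (0.91 - m) := by
  obtain ⟨a1, a2⟩ := shG_six h0 h1
  have a0 : (0 : ℝ) < 6 ^ κ := Real.rpow_pos_of_pos (by norm_num) _
  have hm1 : m ≤ 0.8077 * Y := by
    rw [hm]
    apply mul_le_mul_of_nonneg_right _ hY0
    have := mul_le_mul a2 (by linarith : 2 * κ / 3 ≤ 2 / 9) (by linarith) (by norm_num)
    norm_num at this ⊢
    linarith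
  have hq : 0 ≤ 1 - 6 * Y ^ 2 + 18 * Y ^ 4 := by nlinarith [sq_nonneg (Y ^ 2 - 1 / 6)]
  have hA : (2.9552 * κ - 0.226) * (1 - 6 * Y ^ 2 + 18 * Y ^ 4) ≤
      0.7591 * (1 - 6 * Y ^ 2 + 18 * Y ^ 4) := by
    apply mul_le_mul_of_nonneg_right _ hq
    norm_num
    linarith
  have hY4 : Y ^ 4 ≤ 0.09873 * Y ^ 2 := by
    have := pow_le_pow_left₀ hY0 hY1 2
    have h2 : Y ^ 2 ≤ 0.09873 := by norm_num at this ⊢; linarith
    have h3 := mul_le_mul_of_nonneg_right h2 (sq_nonneg Y)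
    calc Y ^ 4 = Y ^ 2 * Y ^ 2 := by ring
      _ ≤ _ := h3
  norm_num at hY4 hm1 hA ⊢
  nlinarith [sq_nonneg (Y - 115 / 1000)]

/-- `F1` in the form used -/
theorem shG_F1' {κ Y m ξ : ℝ} (h0 : 1 / 4 ≤ κ) (h1 : κ ≤ 1 / 3) (hY0 : 0 ≤ Y)
    (hY1 : Y ≤ 0.3142) (hm : m = 2 * 6 ^ κ * (1 - 2 * κ / 3) * Y)
    (hξ : ξ = 1.285 - 1.09949 * κ - 0.7 * Y) (hξ0 : 0 < ξ) :
    (2.9552 * κ - 0.226) * (1 - 6 * Y ^ 2 + 18 * Y ^ 4) ≤ 0.91 / ξ * (0.91 / ξ - m) := by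
  obtain ⟨a1, a2⟩ := shG_six h0 h1
  have h2 := shG_F1 h0 h1 hY0 hY1
  rw [← hξ] at h2
  have hm1 : m ≤ 2 * (0.8088 + 3.0252 * κ) * (1 - 2 * κ / 3) * Y := by
    rw [hm]
    apply mul_le_mul_of_nonneg_right _ hY0
    apply mul_le_mul_of_nonneg_right _ (by linarith)
    linarith
  have h3 : 0.91 / ξ * (0.91 / ξ - m) = (0.8281 - 0.91 * m * ξ) / ξ ^ 2 := by
    field_simp
    ring
  rw [h3, le_div_iff₀ (by positivity)]
  have h4 : 0.91 * m * ξ ≤ 1.82 * (0.8088 + 3.0252 * κ) * (1 - 2 * κ / 3) * Y * ξ := by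
    apply mul_le_mul_of_nonneg_right _ hξ0.le
    have := mul_le_mul_of_nonneg_left hm1 (by norm_num : (0 : ℝ) ≤ 0.91)
    have e : 0.91 * (2 * (0.8088 + 3.0252 * κ) * (1 - 2 * κ / 3) * Y) =
        1.82 * (0.8088 + 3.0252 * κ) * (1 - 2 * κ / 3) * Y := by ring
    linarith
  linarith

/-- the weight `W` -/
theorem shG_W {κ X Y v r ρ M : ℝ} (h0 : 1 / 4 ≤ κ) (h1 : κ ≤ 1 / 3)
    (hX : X = κ * (Real.pi / 2)) (hY0 : 0 ≤ Y) (hY1 : Y ≤ 0.3142) (hXY : X + Y ≤ Real.pi / 4)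
    (hv0 : 0 ≤ v) (hvY : v ≤ Y) (hρ0 : 0 < ρ) (hvρ : v * (1 + ρ) ≤ 2 * ρ * Y) (hr : r = ρ ^ κ)
    (hM : M = 2 * 2 ^ κ) :
    ∃ W z, 0 < W ∧ 0 ≤ z ∧ v ≤ z * r ∧ 0 ≤ W - M * z ∧
      (2.9552 * κ - 0.226) * (1 - 6 * Y ^ 2 + 18 * Y ^ 4) ≤ W * (W - M * z) ∧
      W * Real.cos (X + 2 * Y) ≤ 0.91 * Real.sin (3 * X + 4 * Y - v) := by
  have hpi := Real.pi_pos
  have p0 := Real.pi_gt_d4
  have p1 := Real.pi_lt_d4
  have r0 : 0 < r := by rw [hr]; exact Real.rpow_pos_of_pos hρ0 _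
  have M0 : 0 < M := by
    rw [hM]
    have : (0 : ℝ) < 2 ^ κ := Real.rpow_pos_of_pos (by norm_num) _
    positivity
  have hX0 : Real.pi / 8 ≤ X := by
    rw [hX]
    have := mul_le_mul_of_nonneg_right h0 (by positivity : 0 ≤ Real.pi / 2)
    linarith
  have hX1 : X ≤ Real.pi / 6 := by
    rw [hX]
    have := mul_le_mul_of_nonneg_right h1 (by positivity : 0 ≤ Real.pi / 2)
    linarith
  obtain ⟨l, hl⟩ : ∃ l, l = v / Y := ⟨_, rfl⟩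
  have hl0 : 0 ≤ l := by rw [hl]; positivity
  have hl1 : l ≤ 1 := by rw [hl]; exact div_le_one_of_le₀ hvY hY0
  have hvl : v = l * Y := by
    rw [hl]
    rcases hY0.eq_or_lt with h2 | h2
    · rw [← h2]
      rw [← h2] at hvY
      rw [mul_zero]
      linarith
    · field_simp
  obtain ⟨m0, hm0⟩ : ∃ m0, m0 = 2 * 6 ^ κ * (2 * κ / 3) * Y := ⟨_, rfl⟩
  obtain ⟨m1, hm1⟩ : ∃ m1, m1 = 2 * 6 ^ κ * (1 - 2 * κ / 3) * Y := ⟨_, rfl⟩
  obtain ⟨ξ, hξ⟩ : ∃ ξ, ξ = 1.285 - 1.09949 * κ - 0.7 * Y := ⟨_, rfl⟩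
  have hξ0 : 0 < ξ := by rw [hξ]; norm_num at hY1 ⊢; linarith
  obtain ⟨z, hz⟩ : ∃ z, z = v / r := ⟨_, rfl⟩
  have hz0 : 0 ≤ z := by rw [hz]; positivity
  have hvz : v = z * r := by rw [hz]; field_simp
  have hMz : M * z ≤ (1 - l) * m0 + l * m1 := by
    have h2 := shG_line (κ := κ) (c := 3) (by linarith) (by linarith) (by norm_num) hv0 hvY hρ0
      hvρ
    rw [← hr] at h2
    have h3 : z ≤ 3 ^ κ * ((1 - κ) * v + κ * ((2 * Y - v) / 3)) := by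
      rw [hz, div_le_iff₀ r0, mul_comm]
      exact h2
    have h4 := mul_le_mul_of_nonneg_left h3 M0.le
    have h6 : (6 : ℝ) ^ κ = 2 ^ κ * 3 ^ κ := by
      rw [← Real.mul_rpow (by norm_num) (by norm_num)]
      norm_num
    refine h4.trans (le_of_eq ?_)
    rw [hM, hm0, hm1, h6, hvl]
    ring
  have hq : 0 ≤ 1 - 6 * Y ^ 2 + 18 * Y ^ 4 := by nlinarith [sq_nonneg (Y ^ 2 - 1 / 6)]
  have hA : 0 ≤ (2.9552 * κ - 0.226) * (1 - 6 * Y ^ 2 + 18 * Y ^ 4) := by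
    apply mul_nonneg _ hq
    norm_num
    linarith
  obtain ⟨W, hW⟩ : ∃ W, W = (1 - l) * 0.91 + l * (0.91 / ξ) := ⟨_, rfl⟩
  obtain ⟨b1, b2, b3⟩ := shG_conv hA (by norm_num : (0 : ℝ) < 0.91)
    (by positivity : 0 < 0.91 / ξ) (shG_F0 h0 h1 hY0 hY1 hm0) (shG_F1' h0 h1 hY0 hY1 hm1 hξ hξ0)
    hl0 hl1 hW hMz
  refine ⟨W, z, b1, hz0, hvz.le, b2, b3, ?_⟩
  obtain ⟨c1, _, _, _⟩ := shG_sines hX0 hv0 hvY hXY
  have c2 := shG_T hX0 hX1 hY0 hXY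
  have c3 := shG_conc (X := X) (by linarith) hY0 hXY hl0 hl1 hvl
  have c4 : 0 ≤ Real.sin (3 * X + 3 * Y) :=
    Real.sin_nonneg_of_nonneg_of_le_pi (by linarith) (by linarith)
  have c5 : 1.285 - 0.7 * (X + Y) ≤ ξ := by
    have : 1.5707 * κ ≤ X := by
      rw [hX]
      have := mul_le_mul_of_nonneg_left (by norm_num at p0 ⊢; linarith : (1.5707 : ℝ) ≤ Real.pi / 2)
        (by linarith : 0 ≤ κ)
      linarith
    rw [hξ]
    norm_num at this ⊢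
    linarith
  have c6 : Real.cos (X + 2 * Y) / ξ ≤ Real.sin (3 * X + 3 * Y) := by
    rw [div_le_iff₀ hξ0]
    have := mul_le_mul_of_nonneg_right c5 c4
    linarith
  have c7 : W * Real.cos (X + 2 * Y) = 0.91 * ((1 - l) * Real.cos (X + 2 * Y) +
      l * (Real.cos (X + 2 * Y) / ξ)) := by
    rw [hW]
    field_simp
  rw [c7]
  apply mul_le_mul_of_nonneg_left _ (by norm_num)
  have c8 := mul_le_mul_of_nonneg_left c1 (by linarith : 0 ≤ 1 - l)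
  have c9 := mul_le_mul_of_nonneg_left c6 hl0
  linarith

/-- the logarithm -/
theorem shG_Q {κ α Y t ρ r τ M : ℝ} (h0 : 1 / 4 ≤ κ) (h1 : κ ≤ 1 / 3) (ht : 1 ≤ t)
    (hρ0 : 0 < ρ) (hρ1 : ρ ≤ 1) (hα0 : 0 ≤ α) (hα1 : α ≤ 1.0473)
    (ht2 : t ^ 2 = 1 + 2 * ρ * (2 * Real.cos α ^ 2 - 1) + ρ ^ 2)
    (hY : Y = κ * α) (hY1 : Y ≤ 0.3142) (hr : r = ρ ^ κ) (hτ : τ = t ^ κ)
    (hM : M = 2 * 2 ^ κ) :
    2 * M * (κ * Real.log t) ≤
      (2.9552 * κ - 0.226) * (1 - 6 * Y ^ 2 + 18 * Y ^ 4) * (r ^ 2 * τ ^ 3) := by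
  have κ0 : 0 < κ := by linarith
  have t0 : 0 < t := by linarith
  have a1 := shG_log h0 h1 ht
  have a2 := shG_t hρ0.le hρ1 (Real.cos_sq_le_one α) ht2
  have a3 := shG_q κ0 h1 hα0 hα1 hY hY1
  obtain ⟨c, hc⟩ : ∃ c, c = Real.cos α ^ 2 := ⟨_, rfl⟩
  rw [← hc] at a2 a3
  have hc0 : 0 ≤ c := by rw [hc]; positivity
  have τ0 : 0 < τ := by rw [hτ]; exact Real.rpow_pos_of_pos t0 _
  have r0 : 0 < r := by rw [hr]; exact Real.rpow_pos_of_pos hρ0 _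
  have a4 : ((t - 1) ^ 2 * t ^ 3) ^ κ ≤ r ^ 2 * c ^ (2 * κ) * τ ^ 3 := by
    have b1 : (t - 1) ^ 2 * t ^ 3 ≤ (ρ * c) ^ 2 * t ^ 3 := by
      apply mul_le_mul_of_nonneg_right _ (by positivity)
      exact pow_le_pow_left₀ (by linarith) a2 2
    have ht1 : 0 ≤ t - 1 := by linarith
    refine (Real.rpow_le_rpow (by positivity) b1 κ0.le).trans (le_of_eq ?_)
    rw [Real.mul_rpow (by positivity) (by positivity), mul_pow,
      Real.mul_rpow (by positivity) (by positivity)]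
    have e1 : (ρ ^ 2) ^ κ = r ^ 2 := by
      rw [hr, ← Real.rpow_natCast, ← Real.rpow_natCast, ← Real.rpow_mul hρ0.le,
        ← Real.rpow_mul hρ0.le]
      congr 1
      ring
    have e2 : (c ^ 2) ^ κ = c ^ (2 * κ) := by
      rw [← Real.rpow_natCast, ← Real.rpow_mul hc0]
      congr 1
    have e3 : (t ^ 3) ^ κ = τ ^ 3 := by
      rw [hτ, ← Real.rpow_natCast, ← Real.rpow_natCast, ← Real.rpow_mul t0.le,
        ← Real.rpow_mul t0.le]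
      congr 1
      ring
    rw [e1, e2, e3]
  have a5 : r ^ 2 * c ^ (2 * κ) * τ ^ 3 ≤ (1 - 6 * Y ^ 2 + 18 * Y ^ 4) * (r ^ 2 * τ ^ 3) := by
    have := mul_le_mul_of_nonneg_right a3 (by positivity : 0 ≤ r ^ 2 * τ ^ 3)
    linarith
  have c0 : 0 ≤ 0.3433 + 0.678 * κ := by positivity
  have a6 : 2 * M * (κ * Real.log t) ≤ 4 * κ * ((0.3433 + 0.678 * κ) *
      ((1 - 6 * Y ^ 2 + 18 * Y ^ 4) * (r ^ 2 * τ ^ 3))) := by
    calc 2 * M * (κ * Real.log t) = 4 * κ * (2 ^ κ * Real.log t) := by rw [hM]; ring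
      _ ≤ 4 * κ * ((0.3433 + 0.678 * κ) * ((t - 1) ^ 2 * t ^ 3) ^ κ) :=
          mul_le_mul_of_nonneg_left a1 (by positivity)
      _ ≤ _ := by
          apply mul_le_mul_of_nonneg_left _ (by positivity)
          exact mul_le_mul_of_nonneg_left (a4.trans a5) c0
  have a7 : 4 * κ * (0.3433 + 0.678 * κ) ≤ 2.9552 * κ - 0.226 := by
    have := mul_nonneg (by linarith : 0 ≤ κ - 1 / 4) (by linarith : 0 ≤ 1 / 3 - κ)
    norm_num
    nlinarith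
  have hq : 0 ≤ 1 - 6 * Y ^ 2 + 18 * Y ^ 4 := by nlinarith [sq_nonneg (Y ^ 2 - 1 / 6)]
  have a8 := mul_le_mul_of_nonneg_right a7
    (by positivity : 0 ≤ (1 - 6 * Y ^ 2 + 18 * Y ^ 4) * (r ^ 2 * τ ^ 3))
  linarith

/-- the quadratic inequality for `u = sin β` -/
theorem shG_u {M T τ s u σ κ L : ℝ} (hM : 0 < M) (hT : 1 ≤ T) (hτ2 : τ ^ 2 = T)
    (hsu : s = (T + 1) * u) (hs2 : s ^ 2 ≤ M * (T - 1 + s * σ)) (hL : Real.log T = 2 * (κ * L)) :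
    2 * τ * u ^ 2 ≤ M * (κ * L + u * σ) := by
  have hT1 : 0 < T + 1 := by linarith
  have h1 := Real.le_log_one_add_of_nonneg (x := T - 1) (by linarith)
  have e1 : 1 + (T - 1) = T := by ring
  have e2 : T - 1 + 2 = T + 1 := by ring
  rw [e1, hL, e2, div_le_iff₀ hT1] at h1
  have h2 : (T + 1) * ((T + 1) * u ^ 2) ≤ (T + 1) * (M * (κ * L + u * σ)) := by
    rw [hsu] at hs2
    have e3 : ((T + 1) * u) ^ 2 = (T + 1) * ((T + 1) * u ^ 2) := by ring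
    rw [e3] at hs2
    have h3 : M * (T - 1) ≤ M * (κ * L * (T + 1)) :=
      mul_le_mul_of_nonneg_left (by linarith) hM.le
    have e4 : M * (T - 1 + (T + 1) * u * σ) = M * (T - 1) + M * ((T + 1) * u * σ) := by ring
    have e5 : (T + 1) * (M * (κ * L + u * σ)) = M * (κ * L * (T + 1)) +
        M * ((T + 1) * u * σ) := by ring
    linarith
  have h3 := le_of_mul_le_mul_left h2 hT1
  have h4 : 2 * τ ≤ T + 1 := by
    rw [← hτ2]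
    nlinarith [sq_nonneg (τ - 1)]
  have h5 := mul_le_mul_of_nonneg_right h4 (sq_nonneg u)
  linarith

end EQS
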