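import Mathlib
import Pool.Agent.Lib.MP_226de1_co.E.DShG3
import Pool.Agent.Lib.MP_226de1_co.E.PLK
import Pool.Agent.Lib.MP_226de1_co.E.DShT

/-! Closed inequality (H), `t ≥ 1`, `1/4 ≤ κ ≤ 1/3`: assembly. -/

set_option autoImplicit false

namespace EQS

/-- (H) for `t ≥ 1`, `1/4 ≤ κ ≤ 1/3` -/
theorem shG_ge {κ θ ρ t y T s P β : ℝ} (h0 : 1 / 4 ≤ κ) (h1 : κ ≤ 1 / 3)
    (h : ShDat κ (Real.pi + θ) ρ t y T s P β (2 ^ (1 + κ))) (hθ : θ < Real.pi) (ht : 1 ≤ t) :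
    ShCon κ θ ρ t y T P β := by
  have hpi := Real.pi_pos
  have p1 := Real.pi_lt_d4
  have κ0 : 0 < κ := by linarith
  obtain ⟨κF, ρ0, ρ1, y0, y1, yF, t0, tc, ts, ty, Tt, β0, β1, sd, s2, P0, P1, P2, T1'⟩ := h
  have hyθ : 2 * y ≤ θ := by linarith
  have hθ0 : 0 ≤ θ := by linarith
  have hcθ : Real.cos (Real.pi + θ) = -Real.cos θ := by
    rw [add_comm, Real.cos_add_pi]
  have hsθ : Real.sin (Real.pi + θ) = -Real.sin θ := by
    rw [add_comm, Real.sin_add_pi]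
  have tc' : t * Real.cos y = 1 + ρ * Real.cos θ := by rw [tc, hcθ]; ring
  have ts' : t * Real.sin y = ρ * Real.sin θ := by rw [ts, hsθ]; ring
  have ht2 : t ^ 2 = 1 + 2 * ρ * Real.cos θ + ρ ^ 2 := by
    have e1 : t ^ 2 = (t * Real.cos y) ^ 2 + (t * Real.sin y) ^ 2 := by
      linear_combination (-t ^ 2) * Real.sin_sq_add_cos_sq y
    rw [e1, tc', ts']
    linear_combination (ρ ^ 2) * Real.sin_sq_add_cos_sq θ
  have ht3 : t ^ 2 = 1 + 2 * ρ * (2 * Real.cos (θ / 2) ^ 2 - 1) + ρ ^ 2 := by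
    have := Real.cos_two_mul (θ / 2)
    rw [show 2 * (θ / 2) = θ by ring] at this
    rw [ht2, this]
  have ht1 : t ≤ 1 + ρ := by
    have h3 : t ^ 2 ≤ (1 + ρ) ^ 2 := by
      rw [ht2]
      have := mul_le_mul_of_nonneg_left (Real.cos_le_one θ) ρ0.le
      linarith
    exact (pow_le_pow_iff_left₀ t0.le (by linarith) (by norm_num)).1 h3
  -- `θ ≤ 2π/3`
  have hθ3 : θ ≤ 2 * Real.pi / 3 := by
    by_contra hcon
    have h3 := Real.cos_lt_cos_of_nonneg_of_le_pi (by positivity : 0 ≤ 2 * Real.pi / 3) hθ.le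
      (not_le.1 hcon)
    have h4 : Real.cos (2 * Real.pi / 3) = -(1 / 2) := by
      rw [show 2 * Real.pi / 3 = Real.pi - Real.pi / 3 by ring, Real.cos_pi_sub,
        Real.cos_pi_div_three]
    rw [h4] at h3
    have h5 : 1 ≤ t ^ 2 := one_le_pow₀ ht
    rw [ht2] at h5
    have h6 : 0 ≤ ρ * (2 * Real.cos θ + ρ) := by linarith
    have h7 : 0 ≤ 2 * Real.cos θ + ρ := nonneg_of_mul_nonneg_right h6 ρ0
    linarith
  obtain ⟨X, hX⟩ : ∃ X, X = κ * (Real.pi / 2) := ⟨_, rfl⟩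
  obtain ⟨Y, hY⟩ : ∃ Y, Y = κ * (θ / 2) := ⟨_, rfl⟩
  obtain ⟨v, hv⟩ : ∃ v, v = κ * y := ⟨_, rfl⟩
  obtain ⟨r, hr⟩ : ∃ r, r = ρ ^ κ := ⟨_, rfl⟩
  obtain ⟨τ, hτ⟩ : ∃ τ, τ = t ^ κ := ⟨_, rfl⟩
  obtain ⟨M, hM⟩ : ∃ M : ℝ, M = 2 ^ (1 + κ) := ⟨_, rfl⟩
  obtain ⟨u, hu⟩ : ∃ u, u = Real.sin β := ⟨_, rfl⟩
  have hX0 : Real.pi / 8 ≤ X := by
    rw [hX]
    have := mul_le_mul_of_nonneg_right h0 (by positivity : 0 ≤ Real.pi / 2)
    linarith
  have hX1 : X ≤ Real.pi / 6 := by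
    rw [hX]
    have := mul_le_mul_of_nonneg_right h1 (by positivity : 0 ≤ Real.pi / 2)
    linarith
  have hXp : 0 < X := by linarith
  have hX1' : X ≤ 1 := by linarith
  have hXY : X + Y ≤ Real.pi / 4 := by
    have : κ * (Real.pi + θ) = 2 * (X + Y) := by rw [hX, hY]; ring
    linarith
  have hY0 : 0 ≤ Y := by rw [hY]; positivity
  have hY23 : Y ≤ 2 / 3 * X := by
    rw [hY, hX]
    have := mul_le_mul_of_nonneg_left hθ3 κ0.le
    linarith
  have hY1 : Y ≤ 0.3142 := by norm_num at p1 ⊢; linarith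
  have hv0 : 0 ≤ v := by rw [hv]; positivity
  have hvY : v ≤ Y := by
    rw [hv, hY]
    exact mul_le_mul_of_nonneg_left (by linarith) κ0.le
  have hvρ : v * (1 + ρ) ≤ 2 * ρ * Y := by
    have h3 := shE_y ρ0 hθ y0 hyθ t0 tc' ts'
    have h4 := mul_le_mul_of_nonneg_left h3 κ0.le
    rw [hv, hY]
    linarith
  have r0 : 0 < r := by rw [hr]; exact Real.rpow_pos_of_pos ρ0 _
  have r1 : r ≤ 1 := by rw [hr]; exact Real.rpow_le_one ρ0.le ρ1 κ0.le
  have hρr : ρ ≤ r ^ 3 := by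
    have e1 : r ^ 3 = ρ ^ (3 * κ) := by
      rw [hr, ← Real.rpow_natCast, ← Real.rpow_mul ρ0.le]
      congr 1
      push_cast
      ring
    rw [e1]
    calc ρ = ρ ^ (1 : ℝ) := (Real.rpow_one ρ).symm
      _ ≤ ρ ^ (3 * κ) := Real.rpow_le_rpow_of_exponent_ge ρ0 ρ1 (by linarith)
  have τ1 : 1 ≤ τ := by rw [hτ]; exact Real.one_le_rpow ht κ0.le
  have τ0 : 0 < τ := by linarith
  have hτ3 : τ ^ 3 ≤ 1 + ρ := by
    have e1 : τ ^ 3 = t ^ (3 * κ) := by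
      rw [hτ, ← Real.rpow_natCast, ← Real.rpow_mul t0.le]
      congr 1
      push_cast
      ring
    rw [e1]
    calc t ^ (3 * κ) ≤ t ^ (1 : ℝ) := Real.rpow_le_rpow_of_exponent_le ht (by linarith)
      _ = t := Real.rpow_one t
      _ ≤ _ := ht1
  have hτ126 : τ ≤ 1.26 := by
    by_contra hcon
    have h3 : (1.26 : ℝ) ^ 3 ≤ τ ^ 3 := pow_le_pow_left₀ (by norm_num) (not_le.1 hcon).le 3
    norm_num at h3
    linarith
  have hτ2 : τ ^ 2 = T := by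
    rw [hτ, Tt, ← Real.rpow_natCast, ← Real.rpow_mul t0.le]
    congr 1
    push_cast
    ring
  have hT1 : 1 ≤ T := by rw [← hτ2]; exact one_le_pow₀ τ1
  have hE : T - 1 ≤ 2 * κ * ρ := by
    have h3 : T ≤ (1 + ρ) ^ (2 * κ) := by
      rw [Tt]
      exact Real.rpow_le_rpow t0.le ht1 (by positivity)
    have h4 := rpow_one_add_le_one_add_mul_self (s := ρ) (p := 2 * κ) (by linarith)
      (by positivity) (by linarith)
    linarith
  have hM2 : M = 2 * 2 ^ κ := by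
    rw [hM, Real.rpow_add (by norm_num), Real.rpow_one]
  have h2p : (0 : ℝ) < 2 ^ κ := Real.rpow_pos_of_pos (by norm_num) _
  have hM0 : 0 < M := by rw [hM2]; positivity
  have hM252 : M ≤ 2.52 := by
    rw [hM2]
    have := shG_two h1
    norm_num at this ⊢
    linarith
  have hmax : max (T - 1) 0 = T - 1 := max_eq_left (by linarith)
  rw [hmax, ← hv] at s2 P1
  rw [← hM] at s2
  rw [← hu] at sd
  have hσ0 : 0 ≤ Real.sin v := Real.sin_nonneg_of_nonneg_of_le_pi hv0 (by linarith)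
  have hσv : Real.sin v ≤ v := Real.sin_le hv0
  have hu0 : 0 ≤ u := by
    rw [hu]
    exact Real.sin_nonneg_of_nonneg_of_le_pi β0 (by
      have := mul_pos κ0 hpi
      linarith)
  have eΛ : κ * (Real.pi / 2 + θ) = X + 2 * Y := by rw [hX, hY]; ring
  have hcos : Real.cos (X + 2 * Y + β) ≤ Real.cos (X + 2 * Y) := by
    apply Real.cos_le_cos_of_nonneg_of_le_pi
    · linarith
    · have e1 : κ * Real.pi = 2 * X := by rw [hX]; ring
      linarith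
    · linarith
  have hcΛ : 0 ≤ Real.cos (X + 2 * Y) :=
    Real.cos_nonneg_of_mem_Icc ⟨by linarith, by linarith⟩
  obtain ⟨D, hD⟩ : ∃ D, D = 1 + Real.sin (κ * Real.pi) := ⟨_, rfl⟩
  rw [← hD] at P1
  have hDge : 1.2303 + 1.907 * κ ≤ D := by rw [hD]; exact shG_D h0 h1
  have hD0 : 0 < D := lt_of_lt_of_le (by positivity) hDge
  -- step 1
  obtain ⟨W, z, hW0, hz0, hvz, hWz, hAW, hWcos⟩ :=
    shG_W h0 h1 hX hY0 hY1 hXY hv0 hvY ρ0 hvρ hr hM2
  have hQ := shG_Q (Y := Y) (α := θ / 2) h0 h1 ht ρ0 ρ1 (by linarith) (by norm_num at p1 ⊢; linarith)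
    ht3 hY hY1 hr hτ hM2
  have hlog : Real.log T = 2 * (κ * Real.log t) := by
    rw [Tt, Real.log_rpow t0]
    ring
  have hu2 := shG_u hM0 hT1 hτ2 sd s2 hlog
  have hstep1 : 2 * u ≤ W * (r * τ) :=
    shG_step1 r0 τ1 hM0 hu2 hQ hz0 (hσv.trans hvz) hW0 hWz hAW
  -- step 2
  obtain ⟨_, hS1, hS2, hS0⟩ := shG_sines hX0 hv0 hvY hXY
  obtain ⟨x, hx⟩ : ∃ x, x = r / τ := ⟨_, rfl⟩
  have hxτ : x * τ = r := by rw [hx]; field_simp
  have hx1 : x ≤ 1 := by rw [hx, div_le_one τ0]; linarith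
  have hx0 : 0 < x := by rw [hx]; positivity
  have hm := shG_m hXp.le hv0 (hvY.trans hY23) hX1'
  have hB : τ / r * Real.sin (X + v) - Real.sin (X + 2 * Y - 2 * v) ≤
      τ / r * ((1 - 0.6 * x) * Real.sin (X + v)) := by
    have h3 : Real.sin X ≤ Real.sin (X + 2 * Y - 2 * v) := by
      apply sin_le_sin_sum <;> linarith
    have h4 : τ / r * ((1 - 0.6 * x) * Real.sin (X + v)) =
        τ / r * Real.sin (X + v) - 0.6 * Real.sin (X + v) := by
      rw [hx]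
      field_simp
    linarith
  have hline : v ≤ r * (2 * κ * Y + (1 - 2 * κ) * v) := by
    have h3 := shG_line (κ := κ) (c := 1) κ0.le (by linarith) (by norm_num) hv0 hvY ρ0 hvρ
    rw [← hr, Real.one_rpow] at h3
    refine h3.trans (le_of_eq ?_)
    ring
  have halg := shG_alg (σ := Real.sin v) (E := T - 1) h0 h1 hM0 hM252 hDge r0 τ0 hτ126 hxτ hx1
    hσ0 hσv hvY hY1 hline hvρ ρ0 hρr hτ3 (by linarith) hE (by rw [hτ2]; ring)
  have hstep2 := shG_step2 r0 τ0 hM0 s2 hD0 P0 P1 hxτ hx1 hS0 hS1 hS2 (by linarith) hB halg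
  -- the conclusion
  have concl : 2 * u * Real.cos (X + 2 * Y + β) +
      P * (τ / r * Real.sin (X + v) - Real.sin (X + 2 * Y - 2 * v)) ≤
      r * τ * Real.sin (3 * X + 4 * Y - v) + (T - 1) * Real.sin (X + 2 * Y) := by
    have h3 : 2 * u * Real.cos (X + 2 * Y + β) ≤ 0.91 * (r * τ) *
        Real.sin (3 * X + 4 * Y - v) := by
      calc 2 * u * Real.cos (X + 2 * Y + β) ≤ 2 * u * Real.cos (X + 2 * Y) :=
            mul_le_mul_of_nonneg_left hcos (by positivity)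
        _ ≤ W * (r * τ) * Real.cos (X + 2 * Y) := mul_le_mul_of_nonneg_right hstep1 hcΛ
        _ = r * τ * (W * Real.cos (X + 2 * Y)) := by ring
        _ ≤ r * τ * (0.91 * Real.sin (3 * X + 4 * Y - v)) :=
            mul_le_mul_of_nonneg_left hWcos (by positivity)
        _ = _ := by ring
    have e1 : r * τ * Real.sin (3 * X + 4 * Y - v) =
        0.91 * (r * τ) * Real.sin (3 * X + 4 * Y - v) +
        0.09 * (r * τ) * Real.sin (3 * X + 4 * Y - v) := by ring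
    linarith
  unfold ShCon
  have e1 : κ * (Real.pi / 2 + y) = X + v := by rw [hX, hv]; ring
  have e2 : κ * (Real.pi / 2 + θ - 2 * y) = X + 2 * Y - 2 * v := by rw [hX, hY, hv]; ring
  have e3 : (t / ρ) ^ κ = τ / r := by rw [hτ, hr, Real.div_rpow t0.le ρ0.le]
  have e4 : (ρ * t) ^ κ = r * τ := by rw [hτ, hr, Real.mul_rpow ρ0.le t0.le]
  have eΩ : κ * (3 * Real.pi / 2 + 2 * θ - y) = 3 * X + 4 * Y - v := by rw [hX, hY, hv]; ring
  rw [eΛ, e1, e2, eΩ, e3, e4, ← hu]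
  exact concl

/-- (H) for `1/4 ≤ κ ≤ 1/3` -/
theorem shG {κ : ℝ} (h0 : 1 / 4 ≤ κ) (h1 : κ ≤ 1 / 3) : ShH κ := by
  intro θ ρ t y T s P β h hθ
  rcases lt_or_ge t 1 with ht | ht
  · exact shT h (by linarith) h1 hθ ht
  · exact shG_ge h0 h1 h hθ ht

end EQS
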