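import Pool.Agent.Lib.MP_226de1_co.E.DVNum

/-! Unit disc exit, side V, the constant R = 9/25 for all 2 < k <= 8: boxes. -/

set_option autoImplicit false

namespace EQD

open Real Set

theorem dv_s3a {g : ℝ} (h1 : (0.8696 : ℝ) ≤ g) (h2 : g ≤ π / 2) :
    2 * Real.cos g < (1.25 : ℝ) ^ 2 * Real.sin ((π - g - 0.6436) / 1.25) ^ 2 := by
  have p1 := Real.pi_gt_d4
  have p2 := Real.pi_lt_d4
  have hb : (π - g - 0.6436) / 1.25 ≤ π / 2 := by
    rw [div_le_iff₀ (by norm_num)]; linarith
  rcases le_total g 1.07 with h3 | h3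
  · have e1 := dv_lb (y := 1.25) (X := 0.6436) (g0 := 1.07) (s := 0.90959)
      (by norm_num) h3 (by norm_num) hb (by norm_num) (by norm_num)
    have e2 := dv_cos (g1 := 0.8696) (c := 0.64573) (by norm_num) h1 h2 (by norm_num)
    linarith
  replace h1 := h3
  rcases le_total g 1.36 with h3 | h3
  · have e1 := dv_lb (y := 1.25) (X := 0.6436) (g0 := 1.36) (s := 0.78969)
      (by norm_num) h3 (by norm_num) hb (by norm_num) (by norm_num)
    have e2 := dv_cos (g1 := 1.07) (c := 0.48217) (by norm_num) h1 h2 (by norm_num)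
    linarith
  replace h1 := h3
  have e1 := dv_lb (y := 1.25) (X := 0.6436) (g0 := 1.5708) (s := 0.67552)
    (by norm_num) (by linarith : g ≤ 1.5708) (by norm_num) hb (by norm_num) (by norm_num)
  have e2 := dv_cos (g1 := 1.36) (c := 0.21775) (by norm_num) h1 h2 (by norm_num)
  linarith

theorem dv_s3b {g : ℝ} (h1 : (0.8696 : ℝ) ≤ g) (h2 : g ≤ π / 2) :
    2 * Real.cos g < (1.35 : ℝ) ^ 2 * Real.sin ((π - g - 0.6436) / 1.35) ^ 2 := by
  have p1 := Real.pi_gt_d4
  have p2 := Real.pi_lt_d4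
  have hb : (π - g - 0.6436) / 1.35 ≤ π / 2 := by
    rw [div_le_iff₀ (by norm_num)]; linarith
  rcases le_total g 1.14 with h3 | h3
  · have e1 := dv_lb (y := 1.35) (X := 0.6436) (g0 := 1.14) (s := 0.84461)
      (by norm_num) h3 (by norm_num) hb (by norm_num) (by norm_num)
    have e2 := dv_cos (g1 := 0.8696) (c := 0.64573) (by norm_num) h1 h2 (by norm_num)
    linarith
  replace h1 := h3
  rcases le_total g 1.48 with h3 | h3
  · have e1 := dv_lb (y := 1.35) (X := 0.6436) (g0 := 1.48) (s := 0.68455)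
      (by norm_num) h3 (by norm_num) hb (by norm_num) (by norm_num)
    have e2 := dv_cos (g1 := 1.14) (c := 0.42058) (by norm_num) h1 h2 (by norm_num)
    linarith
  replace h1 := h3
  have e1 := dv_lb (y := 1.35) (X := 0.6436) (g0 := 1.5708) (s := 0.63402)
    (by norm_num) (by linarith : g ≤ 1.5708) (by norm_num) hb (by norm_num) (by norm_num)
  have e2 := dv_cos (g1 := 1.48) (c := 0.10472) (by norm_num) h1 h2 (by norm_num)
  linarith

theorem dv_s4a {g : ℝ} (h1 : (0.7126 : ℝ) ≤ g) (h2 : g ≤ π / 2) :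
    2 * Real.cos g < (1.35 : ℝ) ^ 2 * Real.sin ((π - g - 0.6436) / 1.35) ^ 2 := by
  have p1 := Real.pi_gt_d4
  have p2 := Real.pi_lt_d4
  have hb : (π - g - 0.6436) / 1.35 ≤ π / 2 := by
    rw [div_le_iff₀ (by norm_num)]; linarith
  rcases le_total g 0.94 with h3 | h3
  · have e1 := dv_lb (y := 1.35) (X := 0.6436) (g0 := 0.94) (s := 0.91438)
      (by norm_num) h3 (by norm_num) hb (by norm_num) (by norm_num)
    have e2 := dv_cos (g1 := 0.7126) (c := 0.75685) (by norm_num) h1 h2 (by norm_num)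
    linarith
  replace h1 := h3
  rcases le_total g 1.23 with h3 | h3
  · have e1 := dv_lb (y := 1.35) (X := 0.6436) (g0 := 1.23) (s := 0.80707)
      (by norm_num) h3 (by norm_num) hb (by norm_num) (by norm_num)
    have e2 := dv_cos (g1 := 0.94) (c := 0.59074) (by norm_num) h1 h2 (by norm_num)
    linarith
  replace h1 := h3
  have e1 := dv_lb (y := 1.35) (X := 0.6436) (g0 := 1.5708) (s := 0.63402)
    (by norm_num) (by linarith : g ≤ 1.5708) (by norm_num) hb (by norm_num) (by norm_num)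
  have e2 := dv_cos (g1 := 1.23) (c := 0.33892) (by norm_num) h1 h2 (by norm_num)
  linarith

theorem dv_s4b {g : ℝ} (h1 : (0.7126 : ℝ) ≤ g) (h2 : g ≤ π / 2) :
    2 * Real.cos g < (1.5 : ℝ) ^ 2 * Real.sin ((π - g - 0.6436) / 1.5) ^ 2 ∧
      3 * Real.cos g - 3 / 4 < (1.5 : ℝ) ^ 2 * Real.sin ((π - g - 0.6436) / 1.5) ^ 2 := by
  have p1 := Real.pi_gt_d4
  have p2 := Real.pi_lt_d4
  have hb : (π - g - 0.6436) / 1.5 ≤ π / 2 := by
    rw [div_le_iff₀ (by norm_num)]; linarith
  rcases le_total g 1.05 with h3 | h3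
  · have e1 := dv_lb (y := 1.5) (X := 0.6436) (g0 := 1.05) (s := 0.82219)
      (by norm_num) h3 (by norm_num) hb (by norm_num) (by norm_num)
    have e2 := dv_cos (g1 := 0.7126) (c := 0.75685) (by norm_num) h1 h2 (by norm_num)
    constructor <;> linarith
  replace h1 := h3
  rcases le_total g 1.4 with h3 | h3
  · have e1 := dv_lb (y := 1.5) (X := 0.6436) (g0 := 1.4) (s := 0.6683)
      (by norm_num) h3 (by norm_num) hb (by norm_num) (by norm_num)
    have e2 := dv_cos (g1 := 1.05) (c := 0.4994) (by norm_num) h1 h2 (by norm_num)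
    constructor <;> linarith
  replace h1 := h3
  have e1 := dv_lb (y := 1.5) (X := 0.6436) (g0 := 1.5708) (s := 0.57946)
    (by norm_num) (by linarith : g ≤ 1.5708) (by norm_num) hb (by norm_num) (by norm_num)
  have e2 := dv_cos (g1 := 1.4) (c := 0.18007) (by norm_num) h1 h2 (by norm_num)
  constructor <;> linarith

theorem dv_s5a {g : ℝ} (h1 : (0.4508 : ℝ) ≤ g) (h2 : g ≤ π / 2) :
    2 * Real.cos g < (1.5 : ℝ) ^ 2 * Real.sin ((π - g - 0.6436) / 1.5) ^ 2 ∧
      3 * Real.cos g - 3 / 4 < (1.5 : ℝ) ^ 2 * Real.sin ((π - g - 0.6436) / 1.5) ^ 2 := by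
  have p1 := Real.pi_gt_d4
  have p2 := Real.pi_lt_d4
  have hb : (π - g - 0.6436) / 1.5 ≤ π / 2 := by
    rw [div_le_iff₀ (by norm_num)]; linarith
  rcases le_total g 0.7 with h3 | h3
  · have e1 := dv_lb (y := 1.5) (X := 0.6436) (g0 := 0.7) (s := 0.93151)
      (by norm_num) h3 (by norm_num) hb (by norm_num) (by norm_num)
    have e2 := dv_cos (g1 := 0.4508) (c := 0.90012) (by norm_num) h1 h2 (by norm_num)
    constructor <;> linarith
  replace h1 := h3
  rcases le_total g 1.03 with h3 | h3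
  · have e1 := dv_lb (y := 1.5) (X := 0.6436) (g0 := 1.03) (s := 0.82971)
      (by norm_num) h3 (by norm_num) hb (by norm_num) (by norm_num)
    have e2 := dv_cos (g1 := 0.7) (c := 0.76501) (by norm_num) h1 h2 (by norm_num)
    constructor <;> linarith
  replace h1 := h3
  rcases le_total g 1.38 with h3 | h3
  · have e1 := dv_lb (y := 1.5) (X := 0.6436) (g0 := 1.38) (s := 0.67816)
      (by norm_num) h3 (by norm_num) hb (by norm_num) (by norm_num)
    have e2 := dv_cos (g1 := 1.03) (c := 0.51645) (by norm_num) h1 h2 (by norm_num)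
    constructor <;> linarith
  replace h1 := h3
  have e1 := dv_lb (y := 1.5) (X := 0.6436) (g0 := 1.5708) (s := 0.57946)
    (by norm_num) (by linarith : g ≤ 1.5708) (by norm_num) hb (by norm_num) (by norm_num)
  have e2 := dv_cos (g1 := 1.38) (c := 0.19892) (by norm_num) h1 h2 (by norm_num)
  constructor <;> linarith

theorem dv_s5b {g : ℝ} (h1 : (0.4508 : ℝ) ≤ g) (h2 : g ≤ π / 2) :
    2 * Real.cos g < (1.75 : ℝ) ^ 2 * Real.sin ((π - g - 0.6436) / 1.75) ^ 2 ∧
      7 / 2 * Real.cos g - 7 / 8 < (1.75 : ℝ) ^ 2 * Real.sin ((π - g - 0.6436) / 1.75) ^ 2 := by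
  have p1 := Real.pi_gt_d4
  have p2 := Real.pi_lt_d4
  have hb : (π - g - 0.6436) / 1.75 ≤ π / 2 := by
    rw [div_le_iff₀ (by norm_num)]; linarith
  rcases le_total g 0.67 with h3 | h3
  · have e1 := dv_lb (y := 1.75) (X := 0.6436) (g0 := 0.67) (s := 0.86467)
      (by norm_num) h3 (by norm_num) hb (by norm_num) (by norm_num)
    have e2 := dv_cos (g1 := 0.4508) (c := 0.90012) (by norm_num) h1 h2 (by norm_num)
    constructor <;> linarith
  replace h1 := h3
  rcases le_total g 0.92 with h3 | h3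
  · have e1 := dv_lb (y := 1.75) (X := 0.6436) (g0 := 0.92) (s := 0.78435)
      (by norm_num) h3 (by norm_num) hb (by norm_num) (by norm_num)
    have e2 := dv_cos (g1 := 0.67) (c := 0.78395) (by norm_num) h1 h2 (by norm_num)
    constructor <;> linarith
  replace h1 := h3
  rcases le_total g 1.28 with h3 | h3
  · have e1 := dv_lb (y := 1.75) (X := 0.6436) (g0 := 1.28) (s := 0.6411)
      (by norm_num) h3 (by norm_num) hb (by norm_num) (by norm_num)
    have e2 := dv_cos (g1 := 0.92) (c := 0.60665) (by norm_num) h1 h2 (by norm_num)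
    constructor <;> linarith
  replace h1 := h3
  have e1 := dv_lb (y := 1.75) (X := 0.6436) (g0 := 1.5708) (s := 0.50533)
    (by norm_num) (by linarith : g ≤ 1.5708) (by norm_num) hb (by norm_num) (by norm_num)
  have e2 := dv_cos (g1 := 1.28) (c := 0.29265) (by norm_num) h1 h2 (by norm_num)
  constructor <;> linarith

theorem dv_s6a {g : ℝ} (h1 : (0.189 : ℝ) ≤ g) (h2 : g ≤ π / 2) :
    2 * Real.cos g < (1.75 : ℝ) ^ 2 * Real.sin ((π - g - 0.6436) / 1.75) ^ 2 ∧
      7 / 2 * Real.cos g - 7 / 8 < (1.75 : ℝ) ^ 2 * Real.sin ((π - g - 0.6436) / 1.75) ^ 2 := by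
  have p1 := Real.pi_gt_d4
  have p2 := Real.pi_lt_d4
  have hb : (π - g - 0.6436) / 1.75 ≤ π / 2 := by
    rw [div_le_iff₀ (by norm_num)]; linarith
  rcases le_total g 0.47 with h3 | h3
  · have e1 := dv_lb (y := 1.75) (X := 0.6436) (g0 := 0.47) (s := 0.91631)
      (by norm_num) h3 (by norm_num) hb (by norm_num) (by norm_num)
    have e2 := dv_cos (g1 := 0.189) (c := 0.9822) (by norm_num) h1 h2 (by norm_num)
    constructor <;> linarith
  replace h1 := h3
  rcases le_total g 0.69 with h3 | h3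
  · have e1 := dv_lb (y := 1.75) (X := 0.6436) (g0 := 0.69) (s := 0.85887)
      (by norm_num) h3 (by norm_num) hb (by norm_num) (by norm_num)
    have e2 := dv_cos (g1 := 0.47) (c := 0.89159) (by norm_num) h1 h2 (by norm_num)
    constructor <;> linarith
  replace h1 := h3
  rcases le_total g 0.95 with h3 | h3
  · have e1 := dv_lb (y := 1.75) (X := 0.6436) (g0 := 0.95) (s := 0.7736)
      (by norm_num) h3 (by norm_num) hb (by norm_num) (by norm_num)
    have e2 := dv_cos (g1 := 0.69) (c := 0.7714) (by norm_num) h1 h2 (by norm_num)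
    constructor <;> linarith
  replace h1 := h3
  rcases le_total g 1.33 with h3 | h3
  · have e1 := dv_lb (y := 1.75) (X := 0.6436) (g0 := 1.33) (s := 0.61892)
      (by norm_num) h3 (by norm_num) hb (by norm_num) (by norm_num)
    have e2 := dv_cos (g1 := 0.95) (c := 0.58269) (by norm_num) h1 h2 (by norm_num)
    constructor <;> linarith
  replace h1 := h3
  have e1 := dv_lb (y := 1.75) (X := 0.6436) (g0 := 1.5708) (s := 0.50533)
    (by norm_num) (by linarith : g ≤ 1.5708) (by norm_num) hb (by norm_num) (by norm_num)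
  have e2 := dv_cos (g1 := 1.33) (c := 0.24593) (by norm_num) h1 h2 (by norm_num)
  constructor <;> linarith

end EQD
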