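import Pool.Agent.Lib.MP_226de1_co.E.DVConc
import Pool.Agent.Lib.MP_226de1_co.E.DVNum2

/-! Unit disc exit, side V: the endpoints `y = 2`, `y = 4` for the constant 9/25. -/

set_option autoImplicit false

namespace EQD

open Real Set

theorem dv_z2 {g x : ℝ} (h1 : 0 ≤ g) (h2 : g ≤ π / 2) (hx : 0 ≤ x) (hx1 : x ≤ 0.65) :
    2 * Real.cos g < (2 : ℝ) ^ 2 * Real.sin ((π - g - x) / 2) ^ 2 ∧
      4 * Real.cos g - 1 < (2 : ℝ) ^ 2 * Real.sin ((π - g - x) / 2) ^ 2 := by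
  have e : (2 : ℝ) ^ 2 * Real.sin ((π - g - x) / 2) ^ 2 = 2 + 2 * Real.cos (g + x) := by
    have h := Real.cos_sq' ((π - g - x) / 2)
    have h3 := Real.cos_two_mul ((π - g - x) / 2)
    have h4 : 2 * ((π - g - x) / 2) = π - (g + x) := by ring
    rw [h4, Real.cos_pi_sub] at h3
    nlinarith
  rw [e, Real.cos_add]
  have c0 : 0 ≤ Real.cos g := Real.cos_nonneg_of_neg_pi_div_two_le_of_le (by linarith) h2
  have s0 : 0 ≤ Real.sin g := Real.sin_nonneg_of_nonneg_of_le_pi h1 (by linarith [Real.pi_pos])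
  have cx : 0.788 ≤ Real.cos x := by
    have := Real.one_sub_sq_div_two_le_cos (x := x)
    nlinarith
  have sx : Real.sin x ≤ 0.65 := le_trans (Real.sin_le hx) hx1
  have hsq := Real.sin_sq_add_cos_sq g
  have c1 := mul_le_mul_of_nonneg_left cx c0
  have s1 := mul_le_mul_of_nonneg_left sx s0
  have hC1 := Real.cos_le_one g
  have hS1 := Real.sin_le_one g
  constructor
  · nlinarith
  · have : (2.424 * Real.cos g + 1.3 * Real.sin g) ^ 2 < 3 ^ 2 := by
      nlinarith [sq_nonneg (1.3 * Real.cos g - 2.424 * Real.sin g)]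
    have h5 : 2.424 * Real.cos g + 1.3 * Real.sin g < 3 := lt_of_pow_lt_pow_left₀ 2 (by norm_num) this
    nlinarith

/-- the real inequality behind `y = 4` -/
theorem dv_poly2 {r σ : ℝ} (hr : 0 ≤ r) (hr1 : r ≤ 1) (hσ : 0 ≤ σ) (h1 : σ ≤ 0.3165)
    (h2 : σ ≤ 0.3165 * (1.25 - 0.75 * r)) (h3 : σ ≤ 0.3165 / 3 * (5 - 4 * r)) :
    4 * (1 + r) < (1 + 3 * r + σ) * (6 + r - 3 * r ^ 2 - 8 * σ * (1 + r)) := by
  have key : ∀ s : ℝ, σ ≤ s → 0 ≤ s →
      (1 + 3 * r + s) * (6 + r - 3 * r ^ 2 - 8 * s * (1 + r)) ≤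
      (1 + 3 * r + σ) * (6 + r - 3 * r ^ 2 - 8 * σ * (1 + r)) := by
    intro s hs hs0
    have e : (1 + 3 * r + σ) * (6 + r - 3 * r ^ 2 - 8 * σ * (1 + r))
        - (1 + 3 * r + s) * (6 + r - 3 * r ^ 2 - 8 * s * (1 + r))
        = (s - σ) * (8 * (1 + r) * (1 + 3 * r + s + σ) - (6 + r - 3 * r ^ 2)) := by ring
    have : 0 ≤ 8 * (1 + r) * (1 + 3 * r + s + σ) - (6 + r - 3 * r ^ 2) := by
      nlinarith [mul_nonneg hr hr, mul_nonneg hr hs0, mul_nonneg hr hσ]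
    have := mul_nonneg (sub_nonneg.2 hs) this
    linarith
  rcases le_total r (1 / 3) with h | h
  · refine lt_of_lt_of_le ?_ (key 0.3165 h1 (by norm_num))
    nlinarith [mul_nonneg hr hr, mul_nonneg hr (sub_nonneg.2 h), mul_nonneg (mul_nonneg hr hr) (sub_nonneg.2 h)]
  rcases le_total r (5 / 7) with h' | h'
  · refine lt_of_lt_of_le ?_ (key _ h2 (by nlinarith))
    nlinarith [mul_nonneg hr hr, mul_nonneg hr (sub_nonneg.2 h'), mul_nonneg (mul_nonneg hr hr) (sub_nonneg.2 h')]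
  · refine lt_of_lt_of_le ?_ (key _ h3 (by nlinarith))
    nlinarith [mul_nonneg hr hr, mul_nonneg hr (sub_nonneg.2 hr1), mul_nonneg (mul_nonneg hr hr) (sub_nonneg.2 hr1)]

theorem dv_z4 {g x r : ℝ} (h1 : 0 ≤ g) (h2 : g ≤ π / 2) (hx : 0 ≤ x) (hx1 : x ≤ 0.6436)
    (hr : 0 ≤ r) (hr1 : r ≤ 1) (hs : Real.sin x = 3 / 5 * Real.sqrt (1 - r ^ 2)) :
    (2 * Real.cos g - r / (1 + r)) * (1 + 3 * r) <
      (4 : ℝ) ^ 2 * Real.sin ((π - g - x) / 4) ^ 2 := by
  have hp := Real.pi_pos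
  have hp4 := Real.pi_lt_d4
  have hp3 := Real.pi_gt_d4
  set q := Real.sin (g / 2) with hq
  set σ := Real.sin (x / 2) with hσ
  have hq0 : 0 ≤ q := Real.sin_nonneg_of_nonneg_of_le_pi (by linarith) (by linarith)
  have hσ0 : 0 ≤ σ := Real.sin_nonneg_of_nonneg_of_le_pi (by linarith) (by linarith)
  have hcg : Real.cos g = 1 - 2 * q ^ 2 := by
    have := Real.cos_two_mul (g / 2)
    have h3 := Real.sin_sq_add_cos_sq (g / 2)
    rw [show 2 * (g / 2) = g by ring] at this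
    rw [this, hq]; linarith
  have e : (4 : ℝ) ^ 2 * Real.sin ((π - g - x) / 4) ^ 2 = 8 - 8 * Real.sin ((g + x) / 2) := by
    have h3 := Real.cos_two_mul ((π - g - x) / 4)
    have h4 : 2 * ((π - g - x) / 4) = π / 2 - (g + x) / 2 := by ring
    rw [h4, Real.cos_pi_div_two_sub] at h3
    have h5 := Real.sin_sq_add_cos_sq ((π - g - x) / 4)
    nlinarith
  have e2 : Real.sin ((g + x) / 2) ≤ q + σ * (1 - q ^ 2 / 2) := by
    rw [show (g + x) / 2 = g / 2 + x / 2 by ring, Real.sin_add]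
    have a1 : Real.cos (x / 2) ≤ 1 := Real.cos_le_one _
    have a2 : Real.cos (g / 2) ≤ 1 - q ^ 2 / 2 := by
      have h3 := Real.sin_sq_add_cos_sq (g / 2)
      have h4 : 0 ≤ Real.cos (g / 2) := Real.cos_nonneg_of_neg_pi_div_two_le_of_le
        (by linarith) (by linarith)
      have hq1 : q ≤ 1 := Real.sin_le_one _
      nlinarith [sq_nonneg (q ^ 2), sq_nonneg (1 - Real.cos (g / 2))]
    have a3 := mul_le_mul_of_nonneg_left a1 hq0
    have a4 := mul_le_mul_of_nonneg_right a2 hσ0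
    linarith
  -- bounds of σ
  set w := Real.sqrt (1 - r ^ 2) with hw
  have hw0 : 0 ≤ w := Real.sqrt_nonneg _
  have hw2 : w ^ 2 = 1 - r ^ 2 := Real.sq_sqrt (by nlinarith)
  have hc : 0.948 ≤ Real.cos (x / 2) := by
    have := Real.one_sub_sq_div_two_le_cos (x := x / 2)
    nlinarith
  have hσw : σ ≤ 0.3165 * w := by
    have h3 := Real.sin_two_mul (x / 2)
    rw [show 2 * (x / 2) = x by ring, hs] at h3
    have : σ * 0.948 ≤ σ * Real.cos (x / 2) := mul_le_mul_of_nonneg_left hc hσ0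
    nlinarith
  have w1 : w ≤ 1 := by nlinarith
  have w2 : w ≤ 1.25 - 0.75 * r := by
    have h3 : 0 ≤ 1.25 - 0.75 * r := by linarith
    apply le_of_sq_le_sq _ h3
    nlinarith [sq_nonneg (5 * r - 3)]
  have w3 : w ≤ (5 - 4 * r) / 3 := by
    have h3 : 0 ≤ (5 - 4 * r) / 3 := by linarith
    apply le_of_sq_le_sq _ h3
    nlinarith [sq_nonneg (5 * r - 4)]
  have hpoly := dv_poly2 hr hr1 hσ0 (by linarith) (by nlinarith) (by nlinarith)
  have hr' : 0 < 1 + r := by linarith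
  set α := (1 + 3 * r) * (2 + r) / (1 + r) with hα
  have hαe : α * (1 + r) = (1 + 3 * r) * (2 + r) := by rw [hα]; field_simp
  have hPK : 4 < (1 + 3 * r + σ) * (8 - 8 * σ - α) := by
    have h3 : (1 + 3 * r + σ) * (8 - 8 * σ - α) * (1 + r)
        = (1 + 3 * r + σ) * (6 + r - 3 * r ^ 2 - 8 * σ * (1 + r)) := by
      have : (8 - 8 * σ - α) * (1 + r) = 6 + r - 3 * r ^ 2 - 8 * σ * (1 + r) := by
        linear_combination -hαe
      rw [mul_assoc, this]
    rw [← h3] at hpoly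
    exact lt_of_mul_lt_mul_right hpoly hr'.le
  have hW : (2 * Real.cos g - r / (1 + r)) * (1 + 3 * r) = α - 4 * (1 + 3 * r) * q ^ 2 := by
    rw [hcg, hα]; field_simp; ring
  rw [hW, e]
  have hP : 0 < 1 + 3 * r + σ := by linarith
  have hfin : 0 < 4 * (1 + 3 * r + σ) * q ^ 2 - 8 * q + (8 - 8 * σ - α) := by
    have h3 : 0 < (1 + 3 * r + σ) * (4 * (1 + 3 * r + σ) * q ^ 2 - 8 * q + (8 - 8 * σ - α)) := by
      nlinarith [sq_nonneg (2 * (1 + 3 * r + σ) * q - 2)]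
    exact (mul_pos_iff_of_pos_left hP).1 h3
  nlinarith

end EQD
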