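import Mathlib
import Pool.Agent.Lib.MP_226de1_co.E.PLK
import Pool.Agent.Lib.MP_226de1_co.E.DShB

/-! Unit disc exit, case PL, sheets `F_2 ≥ π`: `5/2 ≤ k ≤ 3` from `FsD.shB`, so that the closed
inequality (H) is only needed for `1/8 ≤ κ ≤ 1/3`. -/

set_option autoImplicit false

namespace EQS

open Complex

section St

variable {k C : ℝ} {q0 q1 q2 q3 d0 d1 d2 X1 X2 X3 : ℂ}

/-- sheets `F_2 ≥ π`, `5/2 ≤ k ≤ 3`: `arg p_{-3} ≥ π/4 + (1/2) arg p_{-2}` -/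
theorem St.sh_mid (h : St k C q0 q1 q2 q3 d0 d1 d2 X1 X2 X3) (hk5 : 5 / 2 ≤ k) (hk3 : k ≤ 3)
    (hh : X1.im < -(Real.pi / 4) → (pv k C X1 d1).re < 1 / 2)
    (he : ‖1 - pv k C X1 d0‖ = 1) (h2 : ‖1 - pv k C X2 d1‖ < 1) (hF : 0 < (X1 - d1).im)
    (hF1 : k * (X1 - d1).im < Real.pi)
    (hτ : 0 ≤ (X2 - d1).im) (hF2 : Real.pi ≤ k * (X2 - d2).im) :
    Real.pi / 4 + k * (X2 - d1).im / 2 ≤ k * (X3 - d2).im := by
  have hpi := Real.pi_pos
  have k0 := h.k0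
  have hf := h.fsD hh he h2 hF
  have hs := h.sh_Sh (by linarith) he h2 hF hF1 hτ hF2
  obtain ⟨t0, ρ0, tc, ts, eT, ea⟩ := h.polar2 he
  have hρ1 : ‖pv k C X2 d2‖ ≤ 1 := by rw [h.f2_eq]; exact h2.le
  have e0 : (Real.pi + (k * (X2 - d2).im - Real.pi)) / k = (X2 - d2).im := by field_simp; ring
  have h3 := hf.shB hk5 hk3 (ρ := ‖pv k C X2 d2‖) (t := ‖pv k C X2 d1‖)
    (ϑ := k * (X2 - d2).im - Real.pi) ρ0 hρ1 t0
    (by rw [eT]; congr 1; ring) (by linarith) hτ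
    (by rw [Real.cos_sub_pi]; linarith) (by rw [Real.sin_sub_pi]; linarith)
    (by rw [e0]; exact hs.a2)
  rw [e0, ← ea] at h3
  have hy := (abs_lt.1 h.p2).2
  have e1 : k * (Real.pi / (2 * k) + (X2 - d1).im) = Real.pi / 2 + k * (X2 - d1).im := by
    field_simp
  have h4 := h.NP_le (x := Real.pi / (2 * k) + (X2 - d1).im)
    (add_nonneg (by positivity) hτ) (by
      rw [le_div_iff₀ k0, mul_comm, e1]
      linarith) h3
  have h5 := mul_le_mul_of_nonneg_left h4 k0.le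
  rw [e1] at h5
  linarith

/-- case PL of `ExitDisc 8`, sheets `F_2 ≥ π`, from the closed inequality for `κ ≤ 1/3` -/
theorem discPL2_of3 (hH : ∀ κ : ℝ, 1 / 8 ≤ κ → κ ≤ 1 / 3 → ShH κ) : DiscPL2 8 := by
  intro k C q0 q1 q2 q3 d0 d1 d2 X1 X2 X3 hk8 h hh he h2 h3 hF hτ hF1 h4
  have hpi := Real.pi_pos
  have k0 := h.k0
  rcases le_or_gt k (5 / 2) with h6 | h6
  · exact absurd (h.sh_small h6 hh he h2 hF hF1 hτ.le) (not_lt.2 h4)
  rcases le_or_gt k 3 with h7 | h7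
  · exact h.pl_end2 h2 h3 hτ.le (h.pl_t he hF hF1 hτ.le)
      (h.sh_mid h6.le h7 hh he h2 hF hF1 hτ.le h4) (h.pl_R hh he hF hF1 hτ.le h2)
  · have h5 := h.sh_two hk8 hh he h2 hF hF1 hτ.le
    refine h.sh_end hh he h2 h3 hF hF1 hτ.le ?_
    have hd := h.sh_dat2 hk8 hh he h2 hF hF1 hτ.le h4
    exact hH (1 / k) (one_div_le_one_div_of_le k0 hk8)
      (one_div_le_one_div_of_le (by norm_num) h7.le) _ _ _ _ _ _ _ _ (by
      rw [add_sub_cancel]; exact hd) (by linarith)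

end St

end EQS
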