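import Mathlib
import Pool.Agent.Lib.MP_226de1_co.E.PLN
import Pool.Agent.Lib.MP_226de1_co.E.DShE
import Pool.Agent.Lib.MP_226de1_co.E.DShF
import Pool.Agent.Lib.MP_226de1_co.E.DShG

/-! `ExitDisc 8`, complete. -/

set_option autoImplicit false

namespace EQS

/-- the closed inequality (H) for `1/8 ≤ κ ≤ 1/3` -/
theorem shH_all (κ : ℝ) (h0 : 1 / 8 ≤ κ) (h1 : κ ≤ 1 / 3) : ShH κ := by
  rcases le_or_gt κ (1 / 5) with h | h
  · exact shE h0 h
  rcases le_or_gt κ (1 / 4) with h' | h'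
  · exact shF h.le h'
  · exact shG h'.le h1

/-- **the unit disc exit for `2 < k ≤ 8`** -/
theorem exitDisc8 : ExitDisc 8 := exitDisc8_of2 (discPL2_of3 shH_all)

end EQS
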