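import Mathlib

/-! (2) MID: `|e^{(1+Λ)ω} - 1| ≤ |e^ω - 1| e^{Re(Λω)/2} |1+Λ| (1 + c |Λ|)`. -/

set_option autoImplicit false

namespace EQS

open Complex

/-- `|e^w - (1 + w + w²/2 + w³/6 + w⁴/24)| ≤ |w|⁵/100` for `|w| ≤ 1` -/
theorem exp_five {w : ℂ} (hw : ‖w‖ ≤ 1) :
    ‖exp w - (1 + w + w ^ 2 / 2 + w ^ 3 / 6 + w ^ 4 / 24)‖ ≤ ‖w‖ ^ 5 / 100 := by
  have h := Complex.exp_bound hw (n := 5) (by norm_num)
  have e : (∑ m ∈ Finset.range 5, w ^ m / (m.factorial : ℂ)) =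
      1 + w + w ^ 2 / 2 + w ^ 3 / 6 + w ^ 4 / 24 := by
    simp [Finset.sum_range_succ, Nat.factorial]
  rw [e] at h
  refine h.trans (le_of_eq ?_)
  norm_num [Nat.factorial]
  ring

/-- `|sinh w - (w + w³/6)| ≤ |w|⁵/100` -/
theorem sinh_five {w : ℂ} (hw : ‖w‖ ≤ 1) : ‖sinh w - (w + w ^ 3 / 6)‖ ≤ ‖w‖ ^ 5 / 100 := by
  have h1 := exp_five hw
  have h2 := exp_five (w := -w) (by rwa [norm_neg])
  rw [norm_neg] at h2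
  have e : sinh w - (w + w ^ 3 / 6) =
      ((exp w - (1 + w + w ^ 2 / 2 + w ^ 3 / 6 + w ^ 4 / 24)) -
        (exp (-w) - (1 + -w + (-w) ^ 2 / 2 + (-w) ^ 3 / 6 + (-w) ^ 4 / 24))) / 2 := by
    rw [Complex.sinh]
    ring
  rw [e, norm_div]
  have h3 := norm_sub_le (exp w - (1 + w + w ^ 2 / 2 + w ^ 3 / 6 + w ^ 4 / 24))
    (exp (-w) - (1 + -w + (-w) ^ 2 / 2 + (-w) ^ 3 / 6 + (-w) ^ 4 / 24))
  have h4 : ‖(2 : ℂ)‖ = 2 := by simp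
  rw [h4]
  linarith

/-- `|sinh w| ≤ |w| (1 + |w|²/6 + |w|⁴/100)` -/
theorem norm_sinh_le {w : ℂ} (hw : ‖w‖ ≤ 1) :
    ‖sinh w‖ ≤ ‖w‖ * (1 + ‖w‖ ^ 2 / 6 + ‖w‖ ^ 4 / 100) := by
  have h1 := sinh_five hw
  have h2 : ‖sinh w‖ ≤ ‖sinh w - (w + w ^ 3 / 6)‖ + ‖w + w ^ 3 / 6‖ := by
    have := norm_add_le (sinh w - (w + w ^ 3 / 6)) (w + w ^ 3 / 6)
    rwa [sub_add_cancel] at this
  have h3 : ‖w + w ^ 3 / 6‖ ≤ ‖w‖ + ‖w‖ ^ 3 / 6 := by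
    have := norm_add_le w (w ^ 3 / 6)
    rw [norm_div, norm_pow] at this
    simpa using this
  nlinarith

/-- `|sinh w| ≥ |w| (1 - |w|²/6 - |w|⁴/100)` -/
theorem norm_sinh_ge {w : ℂ} (hw : ‖w‖ ≤ 1) :
    ‖w‖ * (1 - ‖w‖ ^ 2 / 6 - ‖w‖ ^ 4 / 100) ≤ ‖sinh w‖ := by
  have h1 := sinh_five hw
  have h2 : ‖w + w ^ 3 / 6‖ ≤ ‖sinh w - (w + w ^ 3 / 6)‖ + ‖sinh w‖ := by
    have := norm_sub_le (sinh w) (sinh w - (w + w ^ 3 / 6))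
    rw [sub_sub_cancel] at this
    linarith
  have h3 : ‖w‖ ≤ ‖w + w ^ 3 / 6‖ + ‖w‖ ^ 3 / 6 := by
    have := norm_sub_le (w + w ^ 3 / 6) (w ^ 3 / 6)
    rw [add_sub_cancel_right, norm_div, norm_pow] at this
    simpa using this
  nlinarith

/-- `|cosh a - cosh b| ≤ (|a² - b²|/2) (1+ρ)`; here `a = t s1`, `b = t s0` -/
theorem cosh_sub_le {s0 s1 : ℂ} {t u v : ℝ} (ht : 0 ≤ t) (ht1 : t ≤ 1)
    (hu : ‖s1 + s0‖ / 2 ≤ u) (hu1 : u ≤ 1) (hv : ‖s1 - s0‖ / 2 ≤ v) (hv1 : v ≤ 1) :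
    ‖cosh ((t : ℂ) * s1) - cosh ((t : ℂ) * s0)‖ ≤
      ‖s1 ^ 2 - s0 ^ 2‖ * ((1 + u ^ 2 / 6 + u ^ 4 / 100) * (1 + v ^ 2 / 6 + v ^ 4 / 100)) *
        t ^ 2 / 2 := by
  have e : cosh ((t : ℂ) * s1) - cosh ((t : ℂ) * s0) =
      2 * (sinh ((t : ℂ) * ((s1 + s0) / 2)) * sinh ((t : ℂ) * ((s1 - s0) / 2))) := by
    have h1 : (t : ℂ) * s1 = (t : ℂ) * ((s1 + s0) / 2) + (t : ℂ) * ((s1 - s0) / 2) := by ring
    have h2 : (t : ℂ) * s0 = (t : ℂ) * ((s1 + s0) / 2) - (t : ℂ) * ((s1 - s0) / 2) := by ring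
    rw [h1, h2, cosh_add, cosh_sub]
    ring
  have n0 : ∀ s : ℂ, ‖(t : ℂ) * (s / 2)‖ = t * (‖s‖ / 2) := by
    intro s
    rw [norm_mul, norm_div, Complex.norm_real, Real.norm_of_nonneg ht]
    simp
  have m : ∀ (s : ℂ) (u : ℝ), ‖s‖ / 2 ≤ u → u ≤ 1 →
      ‖sinh ((t : ℂ) * (s / 2))‖ ≤ t * (‖s‖ / 2) * (1 + u ^ 2 / 6 + u ^ 4 / 100) := by
    intro s u h1 h2
    have h3 : t * (‖s‖ / 2) ≤ u := by
      have : t * (‖s‖ / 2) ≤ 1 * (‖s‖ / 2) := mul_le_mul_of_nonneg_right ht1 (by positivity)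
      linarith
    have h0 : 0 ≤ t * (‖s‖ / 2) := by positivity
    have h4 := norm_sinh_le (w := (t : ℂ) * (s / 2)) (by rw [n0]; linarith)
    rw [n0] at h4
    refine h4.trans ?_
    apply mul_le_mul_of_nonneg_left _ h0
    have h5 : (t * (‖s‖ / 2)) ^ 2 ≤ u ^ 2 := pow_le_pow_left₀ h0 h3 2
    have h6 : (t * (‖s‖ / 2)) ^ 4 ≤ u ^ 4 := pow_le_pow_left₀ h0 h3 4
    linarith
  have h1 := m (s1 + s0) u hu hu1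
  have h2 := m (s1 - s0) v hv hv1
  rw [e, norm_mul, norm_mul]
  have h3 : ‖(2 : ℂ)‖ = 2 := by simp
  rw [h3]
  have h4 : ‖s1 ^ 2 - s0 ^ 2‖ = ‖s1 + s0‖ * ‖s1 - s0‖ := by
    rw [← norm_mul]; congr 1; ring
  rw [h4]
  have hu0 : 0 ≤ u := le_trans (by positivity) hu
  have hv0 : 0 ≤ v := le_trans (by positivity) hv
  have h5 := mul_le_mul h1 h2 (norm_nonneg _) (by positivity)
  calc 2 * (‖sinh ((t : ℂ) * ((s1 + s0) / 2))‖ * ‖sinh ((t : ℂ) * ((s1 - s0) / 2))‖)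
      ≤ 2 * (t * (‖s1 + s0‖ / 2) * (1 + u ^ 2 / 6 + u ^ 4 / 100) *
        (t * (‖s1 - s0‖ / 2) * (1 + v ^ 2 / 6 + v ^ 4 / 100))) := by linarith
    _ = _ := by ring

/-- comparison of `sinh s1 / s1` with `sinh s0 / s0` -/
theorem sinh_div_sub {s0 s1 : ℂ} {u v : ℝ}
    (hu : ‖s1 + s0‖ / 2 ≤ u) (hu1 : u ≤ 1) (hv : ‖s1 - s0‖ / 2 ≤ v) (hv1 : v ≤ 1) :
    ‖s0 * sinh s1 - s1 * sinh s0‖ ≤ ‖s0‖ * ‖s1‖ *
      (‖s1 ^ 2 - s0 ^ 2‖ * ((1 + u ^ 2 / 6 + u ^ 4 / 100) * (1 + v ^ 2 / 6 + v ^ 4 / 100)) / 6) := by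
  set K := ‖s1 ^ 2 - s0 ^ 2‖ * ((1 + u ^ 2 / 6 + u ^ 4 / 100) * (1 + v ^ 2 / 6 + v ^ 4 / 100))
    with hK
  have hd : ∀ x : ℝ, HasDerivAt (fun t : ℝ => s0 * sinh ((t : ℂ) * s1) - s1 * sinh ((t : ℂ) * s0))
      (s0 * (cosh ((x : ℂ) * s1) * s1) - s1 * (cosh ((x : ℂ) * s0) * s0)) x := by
    intro x
    have hx : ∀ s : ℂ, HasDerivAt (fun t : ℝ => sinh ((t : ℂ) * s)) (cosh ((x : ℂ) * s) * s) x := by
      intro s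
      have h1 : HasDerivAt (fun t : ℝ => (t : ℂ) * s) s x := by
        have := (Complex.ofRealCLM.hasDerivAt (x := x)).mul_const s
        simpa using this
      exact (Complex.hasDerivAt_sinh _).comp x h1
    exact ((hx s1).const_mul s0).sub ((hx s0).const_mul s1)
  have hB : ∀ x : ℝ, HasDerivAt (fun t : ℝ => ‖s0‖ * ‖s1‖ * (K * t ^ 3 / 6))
      (‖s0‖ * ‖s1‖ * (K * x ^ 2 / 2)) x := by
    intro x
    have h1 : HasDerivAt (fun t : ℝ => K * t ^ 3 / 6) (K * (3 * x ^ 2) / 6) x := by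
      have := ((hasDerivAt_pow 3 x).const_mul K).div_const 6
      simpa using this
    have h2 := h1.const_mul (‖s0‖ * ‖s1‖)
    have e : ‖s0‖ * ‖s1‖ * (K * (3 * x ^ 2) / 6) = ‖s0‖ * ‖s1‖ * (K * x ^ 2 / 2) := by ring
    rw [e] at h2
    exact h2
  have hmain := image_norm_le_of_norm_deriv_right_le_deriv_boundary (a := 0) (b := 1)
    (f := fun t : ℝ => s0 * sinh ((t : ℂ) * s1) - s1 * sinh ((t : ℂ) * s0))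
    (f' := fun x : ℝ => s0 * (cosh ((x : ℂ) * s1) * s1) - s1 * (cosh ((x : ℂ) * s0) * s0))
    (B := fun t : ℝ => ‖s0‖ * ‖s1‖ * (K * t ^ 3 / 6))
    (B' := fun x : ℝ => ‖s0‖ * ‖s1‖ * (K * x ^ 2 / 2))
    (fun x _ => (hd x).continuousAt.continuousWithinAt)
    (fun x _ => (hd x).hasDerivWithinAt)
    (by simp) hB ?_ (x := 1) (by simp)
  · simpa using hmain
  · intro x hx
    have h1 := cosh_sub_le (s0 := s0) (s1 := s1) hx.1 hx.2.le hu hu1 hv hv1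
    have e : s0 * (cosh ((x : ℂ) * s1) * s1) - s1 * (cosh ((x : ℂ) * s0) * s0) =
        s0 * s1 * (cosh ((x : ℂ) * s1) - cosh ((x : ℂ) * s0)) := by ring
    rw [e, norm_mul, norm_mul]
    exact mul_le_mul_of_nonneg_left h1 (by positivity)

theorem exp_sub_one_eq (z : ℂ) : exp z - 1 = 2 * exp (z / 2) * sinh (z / 2) := by
  rw [Complex.sinh]
  have h1 : exp (z / 2) * exp (z / 2) = exp z := by rw [← exp_add]; ring_nf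
  have h2 : exp (z / 2) * exp (-(z / 2)) = 1 := by rw [← exp_add]; simp
  have : 2 * exp (z / 2) * ((exp (z / 2) - exp (-(z / 2))) / 2) =
      exp (z / 2) * exp (z / 2) - exp (z / 2) * exp (-(z / 2)) := by ring
  rw [this, h1, h2]

/-- (2) MID, general form -/
theorem mid_gen {ω Λ : ℂ} {r u v : ℝ} (hr : ‖ω‖ ≤ r) (hr1 : r ≤ 2)
    (hu : r * ‖2 + Λ‖ / 4 ≤ u) (hu1 : u ≤ 1) (hv : r * ‖Λ‖ / 4 ≤ v) (hv1 : v ≤ 1) :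
    ‖exp ((1 + Λ) * ω) - 1‖ * (1 - r ^ 2 / 24 - r ^ 4 / 1600) ≤
      ‖exp ω - 1‖ * (Real.exp ((Λ * ω).re / 2) * ‖1 + Λ‖ *
        ((1 - r ^ 2 / 24 - r ^ 4 / 1600) + r ^ 2 * ‖2 + Λ‖ / 24 *
          ((1 + u ^ 2 / 6 + u ^ 4 / 100) * (1 + v ^ 2 / 6 + v ^ 4 / 100)) * ‖Λ‖)) := by
  set s0 := ω / 2 with hs0
  set s1 := (1 + Λ) * ω / 2 with hs1
  set K := (1 + u ^ 2 / 6 + u ^ 4 / 100) * (1 + v ^ 2 / 6 + v ^ 4 / 100) with hK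
  have hω0 : 0 ≤ ‖ω‖ := norm_nonneg _
  have hr0 : 0 ≤ r := hω0.trans hr
  have hu0 : 0 ≤ u := le_trans (by positivity) hu
  have hv0 : 0 ≤ v := le_trans (by positivity) hv
  have hK0 : 0 ≤ K := by positivity
  have nsum : ‖s1 + s0‖ / 2 ≤ u := by
    have e : s1 + s0 = (2 + Λ) * ω / 2 := by rw [hs0, hs1]; ring
    rw [e, norm_div, norm_mul]
    have h2 : ‖(2 : ℂ)‖ = 2 := by simp
    rw [h2]
    have : ‖2 + Λ‖ * ‖ω‖ ≤ ‖2 + Λ‖ * r := mul_le_mul_of_nonneg_left hr (norm_nonneg _)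
    linarith
  have ndif : ‖s1 - s0‖ / 2 ≤ v := by
    have e : s1 - s0 = Λ * ω / 2 := by rw [hs0, hs1]; ring
    rw [e, norm_div, norm_mul]
    have h2 : ‖(2 : ℂ)‖ = 2 := by simp
    rw [h2]
    have : ‖Λ‖ * ‖ω‖ ≤ ‖Λ‖ * r := mul_le_mul_of_nonneg_left hr (norm_nonneg _)
    linarith
  have hmain := sinh_div_sub nsum hu1 ndif hv1
  rw [mul_assoc, ← hK] at hmain
  -- ‖s0‖‖sinh s1‖ ≤ ‖s1‖‖sinh s0‖ + ...
  have h1 : ‖s0‖ * ‖sinh s1‖ ≤ ‖s1‖ * ‖sinh s0‖ +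
      ‖s0‖ * (‖s1‖ * (‖s1 ^ 2 - s0 ^ 2‖ * K / 6)) := by
    have h2 := norm_sub_norm_le (s0 * sinh s1) (s1 * sinh s0)
    rw [norm_mul, norm_mul] at h2
    linarith
  have ns0 : ‖s0‖ = ‖ω‖ / 2 := by
    rw [hs0, norm_div]; simp
  have ns1 : ‖s1‖ = ‖1 + Λ‖ * ‖s0‖ := by
    rw [ns0, hs1, norm_div, norm_mul]; simp; ring
  have nsq : ‖s1 ^ 2 - s0 ^ 2‖ ≤ r ^ 2 / 4 * (‖Λ‖ * ‖2 + Λ‖) := by
    have e : s1 ^ 2 - s0 ^ 2 = ω ^ 2 / 4 * (Λ * (2 + Λ)) := by rw [hs0, hs1]; ring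
    rw [e, norm_mul, norm_mul, norm_div, norm_pow]
    have h2 : ‖(4 : ℂ)‖ = 4 := by simp
    rw [h2]
    apply mul_le_mul_of_nonneg_right _ (by positivity)
    have : ‖ω‖ ^ 2 ≤ r ^ 2 := pow_le_pow_left₀ hω0 hr 2
    linarith
  set D := 1 - r ^ 2 / 24 - r ^ 4 / 1600 with hD
  have hD0 : 0 ≤ D := by
    have h4 : r ^ 2 ≤ 4 := by nlinarith
    have h5 : r ^ 4 ≤ 16 := by nlinarith [sq_nonneg (r ^ 2)]
    rw [hD]; linarith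
  have hsin : ‖s0‖ * D ≤ ‖sinh s0‖ := by
    have h2 := norm_sinh_ge (w := s0) (by rw [ns0]; linarith)
    refine le_trans ?_ h2
    apply mul_le_mul_of_nonneg_left _ (norm_nonneg _)
    rw [ns0, hD]
    have h3 : ‖ω‖ ^ 2 ≤ r ^ 2 := pow_le_pow_left₀ hω0 hr 2
    have h4 : ‖ω‖ ^ 4 ≤ r ^ 4 := pow_le_pow_left₀ hω0 hr 4
    nlinarith
  have hre : s1.re = s0.re + (Λ * ω).re / 2 := by
    have e : s1 = s0 + (Λ * ω) / 2 := by rw [hs0, hs1]; ring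
    rw [e, add_re]
    congr 1
    simp
  rw [exp_sub_one_eq ω, exp_sub_one_eq ((1 + Λ) * ω), ← hs0, ← hs1, norm_mul, norm_mul, norm_mul,
    norm_mul, Complex.norm_exp, Complex.norm_exp, hre, Real.exp_add]
  have h2 : ‖(2 : ℂ)‖ = 2 := by simp
  rw [h2]
  -- key: ‖sinh s1‖ D ≤ ‖sinh s0‖ ‖1+Λ‖ (D + ...)
  have key : ‖sinh s1‖ * D ≤ ‖sinh s0‖ * (‖1 + Λ‖ * (D + r ^ 2 * ‖2 + Λ‖ / 24 * K * ‖Λ‖)) := by
    rcases eq_or_lt_of_le (norm_nonneg s0) with h0 | h0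
    · have h3 : s1 = 0 := by
        rw [← norm_eq_zero, ns1, ← h0, mul_zero]
      rw [h3, sinh_zero, norm_zero, zero_mul]
      positivity
    · have h3 : ‖sinh s1‖ ≤ ‖1 + Λ‖ * ‖sinh s0‖ +
          ‖1 + Λ‖ * ‖s0‖ * (‖s1 ^ 2 - s0 ^ 2‖ * K / 6) := by
        rw [ns1] at h1
        have h4 : ‖s0‖ * ‖sinh s1‖ ≤ ‖s0‖ * (‖1 + Λ‖ * ‖sinh s0‖ +
          ‖1 + Λ‖ * ‖s0‖ * (‖s1 ^ 2 - s0 ^ 2‖ * K / 6)) := by
          calc _ ≤ _ := h1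
            _ = _ := by ring
        exact le_of_mul_le_mul_left h4 h0
      have h5 : ‖sinh s1‖ * D ≤ ‖1 + Λ‖ * ‖sinh s0‖ * D +
          ‖1 + Λ‖ * (‖s0‖ * D) * (‖s1 ^ 2 - s0 ^ 2‖ * K / 6) := by
        calc _ ≤ (‖1 + Λ‖ * ‖sinh s0‖ +
          ‖1 + Λ‖ * ‖s0‖ * (‖s1 ^ 2 - s0 ^ 2‖ * K / 6)) * D := mul_le_mul_of_nonneg_right h3 hD0
          _ = _ := by ring
      have h6 : ‖1 + Λ‖ * (‖s0‖ * D) * (‖s1 ^ 2 - s0 ^ 2‖ * K / 6) ≤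
          ‖1 + Λ‖ * ‖sinh s0‖ * ((r ^ 2 / 4 * (‖Λ‖ * ‖2 + Λ‖)) * K / 6) := by
        apply mul_le_mul
        · exact mul_le_mul_of_nonneg_left hsin (norm_nonneg _)
        · have := mul_le_mul_of_nonneg_right nsq hK0
          linarith
        · positivity
        · positivity
      calc _ ≤ _ := h5
        _ ≤ ‖1 + Λ‖ * ‖sinh s0‖ * D +
          ‖1 + Λ‖ * ‖sinh s0‖ * ((r ^ 2 / 4 * (‖Λ‖ * ‖2 + Λ‖)) * K / 6) := by linarith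
        _ = _ := by ring
  have hE : 0 ≤ 2 * (Real.exp s0.re * Real.exp ((Λ * ω).re / 2)) := by positivity
  calc 2 * (Real.exp s0.re * Real.exp ((Λ * ω).re / 2)) * ‖sinh s1‖ * D
      = 2 * (Real.exp s0.re * Real.exp ((Λ * ω).re / 2)) * (‖sinh s1‖ * D) := by ring
    _ ≤ 2 * (Real.exp s0.re * Real.exp ((Λ * ω).re / 2)) *
        (‖sinh s0‖ * (‖1 + Λ‖ * (D + r ^ 2 * ‖2 + Λ‖ / 24 * K * ‖Λ‖))) :=
        mul_le_mul_of_nonneg_left key hE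
    _ = _ := by ring

/-- (2) MID: division form with a constant `c` -/
theorem mid_c {ω Λ : ℂ} {r M c : ℝ} (hr : ‖ω‖ ≤ r) (hr0 : 0 ≤ r) (hr1 : r ≤ 21 / 20)
    (hM : ‖2 + Λ‖ ≤ M) (hM1 : M ≤ 5 / 2) (hΛ : ‖Λ‖ ≤ 1 / 2)
    (hc : r ^ 2 * M / 24 * ((1 + (r * M / 4) ^ 2 / 6 + (r * M / 4) ^ 4 / 100) *
      (1 + (r / 8) ^ 2 / 6 + (r / 8) ^ 4 / 100)) ≤ c * (1 - r ^ 2 / 24 - r ^ 4 / 1600)) :
    ‖exp ((1 + Λ) * ω) - 1‖ ≤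
      ‖exp ω - 1‖ * (Real.exp ((Λ * ω).re / 2) * ‖1 + Λ‖ * (1 + c * ‖Λ‖)) := by
  have h0 : (0 : ℝ) ≤ ‖2 + Λ‖ := norm_nonneg _
  have hM0 : 0 ≤ M := h0.trans hM
  have hΛ0 : (0 : ℝ) ≤ ‖Λ‖ := norm_nonneg _
  have h1 := mid_gen (ω := ω) (Λ := Λ) (r := r) (u := r * M / 4) (v := r / 8) hr (by linarith)
    (by
      have := mul_le_mul_of_nonneg_left hM hr0
      linarith) (by nlinarith) (by nlinarith) (by linarith)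
  set D := 1 - r ^ 2 / 24 - r ^ 4 / 1600 with hD
  have hD0 : 0 < D := by
    have h4 : r ^ 2 ≤ 4 := by nlinarith
    have h5 : r ^ 4 ≤ 16 := by nlinarith [sq_nonneg (r ^ 2)]
    rw [hD]; linarith
  set K := (1 + (r * M / 4) ^ 2 / 6 + (r * M / 4) ^ 4 / 100) *
      (1 + (r / 8) ^ 2 / 6 + (r / 8) ^ 4 / 100) with hK
  have hK0 : 0 ≤ K := by positivity
  have h2 : r ^ 2 * ‖2 + Λ‖ / 24 * K ≤ c * D := by
    refine le_trans ?_ hc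
    apply mul_le_mul_of_nonneg_right _ hK0
    have := mul_le_mul_of_nonneg_left hM (sq_nonneg r)
    linarith
  have h3 : D + r ^ 2 * ‖2 + Λ‖ / 24 * K * ‖Λ‖ ≤ D * (1 + c * ‖Λ‖) := by
    have := mul_le_mul_of_nonneg_right h2 hΛ0
    linarith
  have h4 : ‖exp ω - 1‖ * (Real.exp ((Λ * ω).re / 2) * ‖1 + Λ‖ *
      (D + r ^ 2 * ‖2 + Λ‖ / 24 * K * ‖Λ‖)) ≤
      ‖exp ω - 1‖ * (Real.exp ((Λ * ω).re / 2) * ‖1 + Λ‖ * (D * (1 + c * ‖Λ‖))) := by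
    apply mul_le_mul_of_nonneg_left _ (norm_nonneg _)
    exact mul_le_mul_of_nonneg_left h3 (by positivity)
  have h5 : ‖exp ((1 + Λ) * ω) - 1‖ * D ≤
      ‖exp ω - 1‖ * (Real.exp ((Λ * ω).re / 2) * ‖1 + Λ‖ * (1 + c * ‖Λ‖)) * D := by
    calc _ ≤ _ := h1
      _ ≤ _ := h4
      _ = _ := by ring
  exact le_of_mul_le_mul_right h5 hD0

/-- (2) MID in helper70's form -/
theorem mid {om Lam : ℂ} (h1 : ‖om‖ ≤ 11 / 10) (h2 : ‖Lam‖ ≤ 1 / 2) :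
    ‖exp ((1 + Lam) * om) - 1‖ ≤ Real.exp ((Lam * om).re / 2) * ‖1 + Lam‖ *
      (1 + ‖Lam‖ * ‖om‖ ^ 2 / 7) * ‖exp om - 1‖ := by
  set r := ‖om‖ with hr
  have hr0 : 0 ≤ r := norm_nonneg _
  have hL0 : 0 ≤ ‖Lam‖ := norm_nonneg _
  have hM : ‖2 + Lam‖ ≤ 5 / 2 := by
    have := norm_add_le (2 : ℂ) Lam
    have h3 : ‖(2 : ℂ)‖ = 2 := by simp
    rw [h3] at this
    linarith
  have hM0 : 0 ≤ ‖2 + Lam‖ := norm_nonneg _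
  have h3 := mid_gen (ω := om) (Λ := Lam) (r := r) (u := 11 / 16) (v := 11 / 80) le_rfl (by linarith)
    (by nlinarith) (by norm_num) (by nlinarith) (by norm_num)
  set D := 1 - r ^ 2 / 24 - r ^ 4 / 1600 with hD
  have hr2 : r ^ 2 ≤ (11 / 10) ^ 2 := pow_le_pow_left₀ hr0 h1 2
  have hr4 : r ^ 4 ≤ (11 / 10) ^ 4 := pow_le_pow_left₀ hr0 h1 4
  have hD1 : 1 - (11 / 10) ^ 2 / 24 - (11 / 10) ^ 4 / 1600 ≤ D := by rw [hD]; linarith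
  have hD0 : 0 < D := by norm_num at hD1; linarith
  have h4 : D + r ^ 2 * ‖2 + Lam‖ / 24 * ((1 + (11 / 16) ^ 2 / 6 + (11 / 16) ^ 4 / 100) *
      (1 + (11 / 80) ^ 2 / 6 + (11 / 80) ^ 4 / 100)) * ‖Lam‖ ≤ D * (1 + ‖Lam‖ * r ^ 2 / 7) := by
    have h5 : r ^ 2 * ‖2 + Lam‖ / 24 * ((1 + (11 / 16) ^ 2 / 6 + (11 / 16) ^ 4 / 100) *
      (1 + (11 / 80) ^ 2 / 6 + (11 / 80) ^ 4 / 100)) * ‖Lam‖ ≤ (‖Lam‖ * r ^ 2) * (27 / 200) := by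
      have h6 : 0 ≤ ‖Lam‖ * r ^ 2 := by positivity
      have h7 : (‖Lam‖ * r ^ 2) * ‖2 + Lam‖ ≤ (‖Lam‖ * r ^ 2) * (5 / 2) :=
        mul_le_mul_of_nonneg_left hM h6
      norm_num at h7 ⊢
      nlinarith
    have h6 : (‖Lam‖ * r ^ 2) * (27 / 200) ≤ D * (‖Lam‖ * r ^ 2 / 7) := by
      have h7 : 0 ≤ ‖Lam‖ * r ^ 2 := by positivity
      have h8 : 27 / 200 ≤ D / 7 := by norm_num at hD1; linarith
      have := mul_le_mul_of_nonneg_left h8 h7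
      linarith
    linarith
  have h5 : ‖exp om - 1‖ * (Real.exp ((Lam * om).re / 2) * ‖1 + Lam‖ *
      (D + r ^ 2 * ‖2 + Lam‖ / 24 * ((1 + (11 / 16) ^ 2 / 6 + (11 / 16) ^ 4 / 100) *
      (1 + (11 / 80) ^ 2 / 6 + (11 / 80) ^ 4 / 100)) * ‖Lam‖)) ≤
      ‖exp om - 1‖ * (Real.exp ((Lam * om).re / 2) * ‖1 + Lam‖ *
        (D * (1 + ‖Lam‖ * r ^ 2 / 7))) := by
    apply mul_le_mul_of_nonneg_left _ (norm_nonneg _)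
    exact mul_le_mul_of_nonneg_left h4 (by positivity)
  have h6 : ‖exp ((1 + Lam) * om) - 1‖ * D ≤
      Real.exp ((Lam * om).re / 2) * ‖1 + Lam‖ *
      (1 + ‖Lam‖ * r ^ 2 / 7) * ‖exp om - 1‖ * D := by
    calc _ ≤ _ := h3
      _ ≤ _ := h5
      _ = _ := by ring
  exact le_of_mul_le_mul_right h6 hD0

/-- `|ω| ≤ .85`, `|2 + Λ| ≤ 9/4`: constant `.073` -/
theorem mid_85 {ω Λ : ℂ} (hω : ‖ω‖ ≤ 17 / 20) (hM : ‖2 + Λ‖ ≤ 9 / 4) (hΛ : ‖Λ‖ ≤ 1 / 2) :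
    ‖exp ((1 + Λ) * ω) - 1‖ ≤
      ‖exp ω - 1‖ * (Real.exp ((Λ * ω).re / 2) * ‖1 + Λ‖ * (1 + 73 / 1000 * ‖Λ‖)) := by
  apply mid_c hω (by norm_num) (by norm_num) hM (by norm_num) hΛ
  norm_num

/-- `|ω| ≤ 1.05`, `|2 + Λ| ≤ 9/4`: constant `.116` -/
theorem mid_105 {ω Λ : ℂ} (hω : ‖ω‖ ≤ 21 / 20) (hM : ‖2 + Λ‖ ≤ 9 / 4) (hΛ : ‖Λ‖ ≤ 1 / 2) :
    ‖exp ((1 + Λ) * ω) - 1‖ ≤
      ‖exp ω - 1‖ * (Real.exp ((Λ * ω).re / 2) * ‖1 + Λ‖ * (1 + 29 / 250 * ‖Λ‖)) := by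
  apply mid_c hω (by norm_num) (by norm_num) hM (by norm_num) hΛ
  norm_num

end EQS
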