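import Mathlib
import Pool.Agent.Lib.MP_226de1_co.E.Circ
import Pool.Agent.Lib.MP_226de1_co.E.Mid

/-! Block (III), `F ≤ 3π/2`: the circle criterion with loss, and MID with `r = 53/50`. -/

set_option autoImplicit false

namespace EQS

open Complex

/-- `|v e^lam - 1| ≥ |v - 1| - |v| (1 - e^{-ρ})` when `Re lam ≥ -ρ` and
`Re (v e^{i Im lam}) ≤ Re v ≤ |v|²` -/
theorem j0_crit {v lam : ℂ} {ρ : ℝ} (hρ : 0 ≤ ρ) (hr : -ρ ≤ lam.re)
    (hv : v.re ≤ ‖v‖ ^ 2)
    (hQ : v.re * Real.cos lam.im - v.im * Real.sin lam.im ≤ v.re) :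
    ‖v - 1‖ - ‖v‖ * (1 - Real.exp (-ρ)) ≤ ‖v * exp lam - 1‖ := by
  have key : ∀ z : ℂ, 0 ≤ z.re → z.im = lam.im → ‖v - 1‖ ≤ ‖v * exp z - 1‖ := by
    intro z hz hzi
    apply crit_le
    have e1 : ((exp z - 1) * v).re =
        Real.exp z.re * (v.re * Real.cos lam.im - v.im * Real.sin lam.im) - v.re := by
      rw [sub_mul, one_mul, sub_re, mul_re, exp_re, exp_im, hzi]
      ring
    have e2 : Real.exp (2 * z.re) = Real.exp z.re ^ 2 := by
      rw [← Real.exp_nat_mul]; norm_num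
    have h1 : 1 ≤ Real.exp z.re := Real.one_le_exp hz
    have h2 : Real.exp z.re * (v.re * Real.cos lam.im - v.im * Real.sin lam.im) ≤
        Real.exp z.re * v.re := mul_le_mul_of_nonneg_left hQ (by linarith)
    rw [e1, e2]
    set y := Real.exp z.re
    have h3 : 2 * ((y - 1) * v.re) ≤ 2 * ((y - 1) * ‖v‖ ^ 2) := by
      have := mul_le_mul_of_nonneg_left hv (by linarith : 0 ≤ y - 1)
      linarith
    have h4 : 0 ≤ (y - 1) ^ 2 * ‖v‖ ^ 2 := by positivity
    nlinarith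
  have hexp : Real.exp (-ρ) ≤ 1 := Real.exp_le_one_iff.2 (by linarith)
  rcases le_or_gt 0 lam.re with h0 | h0
  · have h1 := key lam h0 rfl
    have h2 : 0 ≤ ‖v‖ * (1 - Real.exp (-ρ)) := mul_nonneg (norm_nonneg _) (by linarith)
    linarith
  · have h1 := key (lam.im * I) (by simp) (by simp)
    have h2 : ‖v * exp (lam.im * I) - 1‖ ≤ ‖v * exp lam - 1‖ +
        ‖v * exp (lam.im * I) - v * exp lam‖ := by
      have e : v * exp (lam.im * I) - 1 = (v * exp lam - 1) +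
          (v * exp (lam.im * I) - v * exp lam) := by ring
      rw [e]
      exact norm_add_le _ _
    have h3 : ‖v * exp (lam.im * I) - v * exp lam‖ = ‖v‖ * (1 - Real.exp lam.re) := by
      have e1 : exp lam = ((Real.exp lam.re : ℝ) : ℂ) * exp (lam.im * I) := by
        rw [ofReal_exp, ← exp_add, re_add_im]
      have e2 : v * exp (lam.im * I) - v * exp lam =
          v * (((1 - Real.exp lam.re : ℝ) : ℂ) * exp (lam.im * I)) := by
        rw [e1]
        push_cast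
        ring
      rw [e2, norm_mul, norm_mul, Complex.norm_exp_ofReal_mul_I, mul_one, Complex.norm_real,
        Real.norm_of_nonneg]
      have : Real.exp lam.re ≤ 1 := Real.exp_le_one_iff.2 h0.le
      linarith
    have h4 : Real.exp (-ρ) ≤ Real.exp lam.re := Real.exp_le_exp.2 hr
    have h5 : ‖v‖ * (1 - Real.exp lam.re) ≤ ‖v‖ * (1 - Real.exp (-ρ)) :=
      mul_le_mul_of_nonneg_left (by linarith) (norm_nonneg _)
    rw [h3] at h2
    linarith

/-- `B sin (σ - x) ≥ cos F sin (F - x)` -/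
theorem j0_Q {B σ F x : ℝ} (hB : 1 ≤ B) (hσ : 7 / 5 ≤ σ) (hσ2 : σ < Real.pi)
    (hF1 : F < Real.pi / 2) (hF2 : σ - Real.pi / 2 < F) (hx0 : 0 ≤ x) (hx : x ≤ σ - 9 / 50) :
    Real.cos F * Real.sin (F - x) ≤ B * Real.sin (σ - x) := by
  have hpi := Real.pi_pos
  have hpi3 := Real.pi_gt_d4
  have hpi4 := Real.pi_lt_d4
  have hcF : 0 < Real.cos F := Real.cos_pos_of_mem_Ioo ⟨by linarith, hF1⟩
  have hs : 0 ≤ Real.sin (σ - x) :=
    Real.sin_nonneg_of_nonneg_of_le_pi (by linarith) (by linarith)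
  have hBs : Real.sin (σ - x) ≤ B * Real.sin (σ - x) := by nlinarith
  refine le_trans ?_ hBs
  rcases le_or_gt F x with h1 | h1
  · have : Real.sin (F - x) ≤ 0 :=
      Real.sin_nonpos_of_nonpos_of_neg_pi_le (by linarith) (by linarith)
    have := mul_nonpos_of_nonneg_of_nonpos hcF.le this
    linarith
  · have hs1 := Real.sin_le_one (F - x)
    have hs0 : 0 ≤ Real.sin (F - x) :=
      Real.sin_nonneg_of_nonneg_of_le_pi (by linarith) (by linarith)
    rcases le_or_gt (Real.pi / 2) σ with h2 | h2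
    · have h3 : Real.cos F ≤ Real.sin (σ - x) := by
        have e : Real.sin (σ - x) = Real.cos (σ - x - Real.pi / 2) := by
          rw [Real.cos_sub_pi_div_two]
        rw [e, ← Real.cos_abs (σ - x - Real.pi / 2)]
        apply Real.cos_le_cos_of_nonneg_of_le_pi (abs_nonneg _) (by linarith)
        rw [abs_le]
        constructor <;> linarith
      calc Real.cos F * Real.sin (F - x) ≤ Real.cos F * 1 :=
            mul_le_mul_of_nonneg_left hs1 hcF.le
        _ ≤ _ := by linarith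
    · rcases le_or_gt F σ with h3 | h3
      · have h4 : Real.sin (F - x) ≤ Real.sin (σ - x) :=
          Real.sin_le_sin_of_le_of_le_pi_div_two (by linarith) (by linarith) (by linarith)
        have h5 := Real.cos_le_one F
        calc Real.cos F * Real.sin (F - x) ≤ 1 * Real.sin (F - x) :=
              mul_le_mul_of_nonneg_right h5 hs0
          _ ≤ _ := by linarith
      · have h4 : Real.cos F ≤ 0.1709 := by
          have e : Real.cos F = Real.sin (Real.pi / 2 - F) := by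
            rw [Real.sin_pi_div_two_sub]
          rw [e]
          have := Real.sin_le (x := Real.pi / 2 - F) (by linarith)
          linarith
        have h5 : 0.178 ≤ Real.sin (σ - x) := by
          have h6 : Real.sin (9 / 50) ≤ Real.sin (σ - x) :=
            Real.sin_le_sin_of_le_of_le_pi_div_two (by linarith) (by linarith) (by linarith)
          have h7 := Real.sin_gt_sub_cube (x := 9 / 50) (by norm_num)
          norm_num at h7
          linarith
        calc Real.cos F * Real.sin (F - x) ≤ Real.cos F * 1 :=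
              mul_le_mul_of_nonneg_left hs1 hcF.le
          _ ≤ _ := by linarith

/-- the condition `Re (v e^{iy}) ≤ Re v` for `v = cos F e^{-iF} - B e^{-iσ}`, `y = 2x` -/
theorem j0_rot {B σ F y : ℝ} (hy0 : 0 ≤ y) (hy1 : y ≤ 2 * Real.pi)
    (h : Real.cos F * Real.sin (F - y / 2) ≤ B * Real.sin (σ - y / 2)) :
    (Real.cos F ^ 2 - B * Real.cos σ) * Real.cos y -
      (B * Real.sin σ - Real.cos F * Real.sin F) * Real.sin y ≤
        Real.cos F ^ 2 - B * Real.cos σ := by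
  set x := y / 2 with hx
  have hyx : y = 2 * x := by rw [hx]; ring
  have hs : 0 ≤ Real.sin x :=
    Real.sin_nonneg_of_nonneg_of_le_pi (by linarith) (by linarith)
  have h1 : 0 ≤ 2 * Real.sin x * (B * Real.sin (σ - x) - Real.cos F * Real.sin (F - x)) :=
    mul_nonneg (by linarith) (by linarith)
  rw [Real.sin_sub, Real.sin_sub] at h1
  have hs1 := Real.sin_sq_add_cos_sq x
  rw [hyx, Real.sin_two_mul, Real.cos_two_mul]
  have e : 2 * Real.sin x * (B * (Real.sin σ * Real.cos x - Real.cos σ * Real.sin x) -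
      Real.cos F * (Real.sin F * Real.cos x - Real.cos F * Real.sin x)) =
      (Real.cos F ^ 2 - B * Real.cos σ) * (2 * Real.sin x ^ 2) +
        (B * Real.sin σ - Real.cos F * Real.sin F) * (2 * Real.sin x * Real.cos x) := by ring
  rw [e] at h1
  have e2 : Real.sin x ^ 2 = 1 - Real.cos x ^ 2 := by linarith
  rw [e2] at h1
  linarith

/-- `|v| ≤ B/(B-1) |v - 1|` on the circle -/
theorem j0_norm_v {w b : ℂ} (hw : ‖w - 1 / 2‖ = 1 / 2) (hb : 1 < ‖b‖) :
    ‖w - b‖ ≤ ‖b‖ / (‖b‖ - 1) * ‖w - b - 1‖ := by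
  set y : ℂ := (w - b) - 1 / 2 with hy
  have h2 : ‖b‖ - 1 / 2 ≤ ‖y‖ := by
    have h3 : y = -(b - (w - 1 / 2)) := by rw [hy]; ring
    rw [h3, norm_neg]
    have := norm_sub_norm_le b (w - 1 / 2)
    rw [hw] at this
    exact this
  have h5 : ‖(1 / 2 : ℂ)‖ = 1 / 2 := by norm_num
  have h4 : ‖y‖ - 1 / 2 ≤ ‖w - b - 1‖ := by
    have e : w - b - 1 = y - 1 / 2 := by rw [hy]; ring
    rw [e]
    have := norm_sub_norm_le y (1 / 2 : ℂ)
    rw [h5] at this
    exact this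
  have h6 : ‖w - b‖ ≤ ‖y‖ + 1 / 2 := by
    have e : w - b = y + 1 / 2 := by rw [hy]; ring
    rw [e]
    have := norm_add_le y (1 / 2 : ℂ)
    rw [h5] at this
    exact this
  refine h6.trans ?_
  have h7 : ‖b‖ / (‖b‖ - 1) * (‖y‖ - 1 / 2) ≤ ‖b‖ / (‖b‖ - 1) * ‖w - b - 1‖ :=
    mul_le_mul_of_nonneg_left h4 (div_nonneg (norm_nonneg _) (by linarith))
  refine le_trans ?_ h7
  rw [div_mul_eq_mul_div, le_div_iff₀ (by linarith)]
  nlinarith

/-- MID with `r = 53/50`, constant `3/25` -/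
theorem j0_mid {ω Λ : ℂ} (hω : ‖ω‖ ≤ 53 / 50) (hM : ‖2 + Λ‖ ≤ 9 / 4) (hΛ : ‖Λ‖ ≤ 1 / 2) :
    ‖exp ((1 + Λ) * ω) - 1‖ ≤
      (Real.exp (‖ω‖ * ‖Λ‖ / 2) * ‖1 + Λ‖ * (1 + 3 / 25 * ‖Λ‖)) * ‖exp ω - 1‖ := by
  have h := mid_gen (Λ := Λ) (u := 53 / 50 * (9 / 4) / 4) (v := 53 / 50 * (1 / 2) / 4) hω (by norm_num)
    (by
      have := mul_le_mul_of_nonneg_left hM (by norm_num : (0:ℝ) ≤ 53 / 50)
      linarith) (by norm_num)
    (by
      have := mul_le_mul_of_nonneg_left hΛ (by norm_num : (0:ℝ) ≤ 53 / 50)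
      linarith) (by norm_num)
  have hre : Real.exp ((Λ * ω).re / 2) ≤ Real.exp (‖ω‖ * ‖Λ‖ / 2) := by
    apply Real.exp_le_exp.2
    have h1 := (le_abs_self _).trans (Complex.abs_re_le_norm (Λ * ω))
    rw [norm_mul] at h1
    linarith
  set X := ‖exp ω - 1‖
  set E := Real.exp ((Λ * ω).re / 2)
  set E' := Real.exp (‖ω‖ * ‖Λ‖ / 2)
  set N := ‖1 + Λ‖
  set K := ‖Λ‖
  have hX : 0 ≤ X := norm_nonneg _
  have hE : 0 < E := Real.exp_pos _
  have hN : 0 ≤ N := norm_nonneg _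
  have hK : 0 ≤ K := norm_nonneg _
  have hM0 : 0 ≤ ‖2 + Λ‖ := norm_nonneg _
  have h2 : (53 / 50 : ℝ) ^ 2 * ‖2 + Λ‖ / 24 *
          ((1 + (53 / 50 * (9 / 4) / 4 : ℝ) ^ 2 / 6 + (53 / 50 * (9 / 4) / 4 : ℝ) ^ 4 / 100) *
            (1 + (53 / 50 * (1 / 2) / 4 : ℝ) ^ 2 / 6 + (53 / 50 * (1 / 2) / 4 : ℝ) ^ 4 / 100)) ≤
      3 / 25 * (1 - (53 / 50 : ℝ) ^ 2 / 24 - (53 / 50 : ℝ) ^ 4 / 1600) := by
    norm_num
    linarith
  have h3 : 0 < 1 - (53 / 50 : ℝ) ^ 2 / 24 - (53 / 50 : ℝ) ^ 4 / 1600 := by norm_num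
  set D := 1 - (53 / 50 : ℝ) ^ 2 / 24 - (53 / 50 : ℝ) ^ 4 / 1600 with hD
  have h4 := mul_le_mul_of_nonneg_right h2 hK
  have h5 : ‖exp ((1 + Λ) * ω) - 1‖ * D ≤ X * (E * N * (D + 3 / 25 * D * K)) := by
    refine h.trans ?_
    apply mul_le_mul_of_nonneg_left _ hX
    apply mul_le_mul_of_nonneg_left _ (by positivity)
    linarith
  have h6 : X * (E * N * (D + 3 / 25 * D * K)) = (E * (N * (1 + 3 / 25 * K) * X)) * D := by ring
  rw [h6] at h5
  have h7 := le_of_mul_le_mul_right h5 h3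
  refine h7.trans ?_
  have h8 : 0 ≤ N * (1 + 3 / 25 * K) * X := by positivity
  calc E * (N * (1 + 3 / 25 * K) * X) ≤ E' * (N * (1 + 3 / 25 * K) * X) :=
        mul_le_mul_of_nonneg_right hre h8
    _ = _ := by ring

end EQS
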