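import Mathlib
import Pool.Agent.Lib.MP_226de1_co.E.FThree

/-! Block (III) of `ExitHalf 8`, part `F ≤ 3π/2` (then `|F| < π/2`, `σ < π`): geometry.

`al = - Im X1`, `th = Im (X1 - X2) = σ/k`, `kp = Im (X2 - d1)`, `m = al - kp`, `et = π/(2k)`. -/

set_option autoImplicit false

namespace EQS

open Complex

variable {k C : ℝ} {q0 q1 q2 q3 d0 d1 d2 X1 X2 X3 : ℂ}

/-- `|F| < π/2` -/
theorem St.J0_F (h : St k C q0 q1 q2 q3 d0 d1 d2 X1 X2 X3)
    (he : |k * (X1 - d0).im| = Real.pi / 2) (hσ : 7 / 5 ≤ k * (X1 - X2).im)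
    (hF : k * (X1 - d1).im ≤ 3 * Real.pi / 2) :
    -(Real.pi / 2) + 7 / 5 < k * (X1 - d1).im ∧ k * (X1 - d1).im < Real.pi / 2 ∧
      k * (X1 - X2).im < Real.pi := by
  have hpi := Real.pi_pos
  have hκ := abs_lt.1 h.p2
  have hFe := F_eq (k := k) (X1 := X1) (X2 := X2) (d1 := d1)
  have h1 : k * (X1 - d1).im < Real.pi / 2 := by
    by_contra hcon
    push Not at hcon
    have := Real.cos_nonpos_of_pi_div_two_le_of_le hcon (by linarith)
    linarith [h.cosF he]
  exact ⟨by linarith, h1, by linarith⟩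

/-- the unscaled form of the basic inequalities -/
theorem St.J0_basic (h : St k C q0 q1 q2 q3 d0 d1 d2 X1 X2 X3) (hk : 8 ≤ k)
    (he : |k * (X1 - d0).im| = Real.pi / 2) (hσ : 7 / 5 ≤ k * (X1 - X2).im)
    (hF : k * (X1 - d1).im ≤ 3 * Real.pi / 2) :
    ∃ et : ℝ, k * et = Real.pi / 2 ∧ 0 < et ∧ et ≤ Real.pi / 16 ∧
      et * (7 / 5) ≤ (X1 - X2).im * (11 / 7) ∧ (X1 - X2).im < 2 * et ∧
      -et < (X2 - d1).im ∧ (X1 - X2).im + (X2 - d1).im < et ∧
      et - (X1 - X2).im ≤ et * (6 / 55) ∧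
      (d0.im = X1.im - et ∨ d0.im = X1.im + et) := by
  have hpi := Real.pi_pos
  have hpi3 := Real.pi_gt_d4
  have hpi4 := Real.pi_lt_d4
  have k0 : 0 < k := by linarith
  obtain ⟨hF1, hF2, hσ2⟩ := h.J0_F he hσ hF
  set et := Real.pi / (2 * k) with het
  have hke : k * et = Real.pi / 2 := by rw [het]; field_simp
  have he0 : 0 < et := by positivity
  have hFe := F_eq (k := k) (X1 := X1) (X2 := X2) (d1 := d1)
  have hκ := abs_lt.1 h.p2
  refine ⟨et, hke, he0, ?_, ?_, ?_, ?_, ?_, ?_, ?_⟩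
  · rw [het, div_le_div_iff₀ (by positivity) (by norm_num)]
    nlinarith
  · have : k * (et * (7 / 5)) ≤ k * ((X1 - X2).im * (11 / 7)) := by nlinarith
    exact le_of_mul_le_mul_left this k0
  · have : k * (X1 - X2).im < k * (2 * et) := by nlinarith
    exact lt_of_mul_lt_mul_left this k0.le
  · have : k * (-et) < k * (X2 - d1).im := by nlinarith
    exact lt_of_mul_lt_mul_left this k0.le
  · have : k * ((X1 - X2).im + (X2 - d1).im) < k * et := by nlinarith
    exact lt_of_mul_lt_mul_left this k0.le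
  · have : k * (et - (X1 - X2).im) ≤ k * (et * (6 / 55)) := by nlinarith
    exact le_of_mul_le_mul_left this k0
  · exact h.im_d0 he

/-- (F3) for `F > 0` -/
theorem St.J0_f3 (h : St k C q0 q1 q2 q3 d0 d1 d2 X1 X2 X3) (hk : 8 ≤ k)
    (hA : -(Real.pi / 4) ≤ X1.im) (he : |k * (X1 - d0).im| = Real.pi / 2)
    (hσ : 7 / 5 ≤ k * (X1 - X2).im)
    (hF : k * (X1 - d1).im ≤ 3 * Real.pi / 2) (hF0 : 0 < k * (X1 - d1).im) :
    (X1 - X2).im ≤ -X1.im := by
  have hpi := Real.pi_pos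
  have hpi3 := Real.pi_gt_d4
  have hpi4 := Real.pi_lt_d4
  have k0 : 0 < k := by linarith
  rcases le_or_gt (Real.pi / 2) (k * (X1 - X2).im) with hs | hs
  · exact h.f3 hk hA he hs
  obtain ⟨hF1, hF2, hσ2⟩ := h.J0_F he hσ hF
  obtain ⟨et, hke, he0, he1, he2, he3, he4, he5, he6, _⟩ := h.J0_basic hk he hσ hF
  have hid := h.f3_id
  have h0 := h.argp_of_pos he hF0 hF2
  have hd0 : d0.im = X1.im + et := by
    have h2 : (X1 - d0).im = -et := by
      have h3 : k * ((X1 - d0).im + et) = 0 := by linarith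
      rcases mul_eq_zero.1 h3 with h4 | h4
      · exact absurd h4 k0.ne'
      · linarith
    rw [sub_im] at h2
    linarith
  set θ := (X1 - X2).im with hθ
  set κ := (X2 - d1).im with hκ
  set φ := -X2.im - κ with hφ
  have hφe : φ = -X1.im + θ - κ := by
    rw [hφ, hθ, sub_im]
    ring
  have hα0 := h.a1.2
  have hθet : θ < et := by
    have : k * θ < k * et := by linarith
    exact lt_of_mul_lt_mul_left this k0.le
  by_contra hcon
  push Not at hcon
  have c0 := h.cos0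
  have hav : 2 * (-q1.re) * q1.im = Real.exp X1.re ^ 2 * Real.sin (2 * -X1.im) := by
    obtain ⟨_, hp2⟩ := quad_polar h.x1
    have : Real.sin (2 * -X1.im) = -Real.sin (2 * X1.im) := by
      rw [mul_neg, Real.sin_neg]
    rw [this]
    linarith
  have hcd0 : 0.98 ≤ Real.cos d0.im := by
    have h1 := Real.one_sub_sq_div_two_le_cos (x := d0.im)
    have h2 : |d0.im| ≤ Real.pi / 16 := by
      rw [hd0, abs_le]
      constructor <;> linarith
    have h3 : d0.im ^ 2 ≤ (Real.pi / 16) ^ 2 := by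
      rw [← sq_abs]
      exact pow_le_pow_left₀ (abs_nonneg _) h2 2
    nlinarith
  have hφ0 : 0 < φ := by
    rw [hφe]
    linarith
  have hφ1 : φ ≤ 3 * et := by
    rw [hφe]
    linarith
  have hsφ : 0.9 * φ ≤ Real.sin φ := by
    have h1 := Real.sin_gt_sub_cube hφ0
    have h2 : φ ^ 2 ≤ (3 * (Real.pi / 16)) ^ 2 := pow_le_pow_left₀ hφ0.le (by linarith) 2
    nlinarith
  -- `sin 2κ ≤ 2 cos d0 sin φ`
  have key2 : Real.sin (2 * κ) ≤ 2 * Real.cos d0.im * Real.sin φ := by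
    have h3 : 0 ≤ Real.sin φ := by linarith
    rcases le_or_gt κ 0 with hk0 | hk0
    · have h2 : Real.sin (2 * κ) ≤ 0 :=
        Real.sin_nonpos_of_nonpos_of_neg_pi_le (by linarith) (by linarith)
      have := mul_nonneg (mul_nonneg (by norm_num : (0:ℝ) ≤ 2) c0.le) h3
      linarith
    · have h2 : Real.sin (2 * κ) ≤ 2 * κ := Real.sin_le (by linarith)
      have h4 : κ ≤ et * (6 / 55) := by linarith
      have h5 : φ ≥ et * (43 / 55) := by
        rw [hφe]
        nlinarith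
      have h6 : 0.98 * Real.sin φ ≤ Real.cos d0.im * Real.sin φ :=
        mul_le_mul_of_nonneg_right hcd0 h3
      nlinarith
  have hδ : Real.exp d1.re * Real.cos d0.im ≤ -q1.re := by
    have h1 := h.D0_le
    rw [exp_re] at h1
    have h2 : Real.exp d1.re ≤ Real.exp d0.re := Real.exp_le_exp.2 (h.step_le he)
    have h3 := mul_le_mul_of_nonneg_right h2 c0.le
    linarith
  have hδ0 := Real.exp_pos d1.re
  have hsφ0 : 0 ≤ Real.sin φ := by linarith
  have hR : 0 < Real.exp X1.re ^ 2 := by positivity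
  -- `R² sin 2θ ≤ 2 D v cos φ`
  have h2 : Real.exp X1.re ^ 2 * Real.sin (2 * θ) ≤
      2 * Real.exp d1.re * (q1.im * Real.cos φ) := by
    have h1 : Real.exp d1.re ^ 2 * Real.sin (2 * κ) ≤
        2 * Real.exp d1.re * (-q1.re * Real.sin φ) := by
      calc Real.exp d1.re ^ 2 * Real.sin (2 * κ) ≤
            Real.exp d1.re ^ 2 * (2 * Real.cos d0.im * Real.sin φ) :=
            mul_le_mul_of_nonneg_left key2 (by positivity)
        _ = 2 * Real.exp d1.re * ((Real.exp d1.re * Real.cos d0.im) * Real.sin φ) := by ring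
        _ ≤ _ := mul_le_mul_of_nonneg_left (mul_le_mul_of_nonneg_right hδ hsφ0) (by positivity)
    rw [hid]
    linarith
  -- `≤ R² sin 2α cos φ / cos d0`
  have h3 : Real.cos d0.im * (Real.exp X1.re ^ 2 * Real.sin (2 * θ)) ≤
      Real.exp X1.re ^ 2 * Real.sin (2 * -X1.im) * Real.cos φ := by
    have hcφ : 0 ≤ Real.cos φ := Real.cos_nonneg_of_mem_Icc ⟨by linarith, by linarith⟩
    calc Real.cos d0.im * (Real.exp X1.re ^ 2 * Real.sin (2 * θ)) ≤
          Real.cos d0.im * (2 * Real.exp d1.re * (q1.im * Real.cos φ)) :=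
          mul_le_mul_of_nonneg_left h2 c0.le
      _ = (2 * (Real.exp d1.re * Real.cos d0.im) * q1.im) * Real.cos φ := by ring
      _ ≤ (2 * (-q1.re) * q1.im) * Real.cos φ := by
          apply mul_le_mul_of_nonneg_right _ hcφ
          exact mul_le_mul_of_nonneg_right (by linarith) h.i1.le
      _ = _ := by rw [hav]
  have h4 : Real.cos d0.im * Real.sin (2 * θ) ≤ Real.sin (2 * -X1.im) * Real.cos φ := by
    have : Real.exp X1.re ^ 2 * (Real.cos d0.im * Real.sin (2 * θ)) ≤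
        Real.exp X1.re ^ 2 * (Real.sin (2 * -X1.im) * Real.cos φ) := by linarith
    exact le_of_mul_le_mul_left this hR
  have hsinθ : 0 < Real.sin (2 * θ) := Real.sin_pos_of_pos_of_lt_pi (by linarith) (by linarith)
  have hsinα : Real.sin (2 * -X1.im) < Real.sin (2 * θ) :=
    Real.sin_lt_sin_of_lt_of_le_pi_div_two (by linarith) (by linarith) (by linarith)
  have hsinα0 : 0 ≤ Real.sin (2 * -X1.im) :=
    Real.sin_nonneg_of_nonneg_of_le_pi (by linarith) (by linarith)
  rcases le_or_gt (et - θ + κ) (2 * -X1.im) with h5 | h5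
  · -- `|d0| ≤ φ`
    have h6 : Real.cos φ ≤ Real.cos d0.im := by
      rw [← Real.cos_abs d0.im]
      apply Real.cos_le_cos_of_nonneg_of_le_pi (abs_nonneg _) (by linarith)
      rw [hd0, hφe, abs_le]
      constructor <;> linarith
    have h7 : Real.sin (2 * -X1.im) * Real.cos φ ≤ Real.sin (2 * -X1.im) * Real.cos d0.im :=
      mul_le_mul_of_nonneg_left h6 hsinα0
    have h8 : Real.sin (2 * -X1.im) * Real.cos d0.im < Real.sin (2 * θ) * Real.cos d0.im :=
      mul_lt_mul_of_pos_right hsinα c0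
    linarith
  · have h6 : Real.sin (2 * -X1.im) ≤ 2 * -X1.im := Real.sin_le (by linarith)
    have h7 : 2 * -X1.im ≤ et * (12 / 55) := by linarith
    have h8 : Real.sin (2 * -X1.im) * Real.cos φ ≤ Real.sin (2 * -X1.im) := by
      have := mul_le_mul_of_nonneg_left (Real.cos_le_one φ) hsinα0
      linarith
    have h9 : 0.9 * (2 * θ) ≤ Real.sin (2 * θ) := by
      have h1 := Real.sin_gt_sub_cube (x := 2 * θ) (by linarith)
      have h2 : (2 * θ) ^ 2 ≤ (2 * (Real.pi / 16)) ^ 2 :=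
        pow_le_pow_left₀ (by linarith) (by linarith) 2
      nlinarith
    have h10 : 0.98 * Real.sin (2 * θ) ≤ Real.cos d0.im * Real.sin (2 * θ) :=
      mul_le_mul_of_nonneg_right hcd0 hsinθ.le
    nlinarith

/-- `m = - Im X1 - kp`: `m ≥ 2 th - et`, `tan m * th ≤ Re (X2 - X1)` -/
theorem St.J0_m (h : St k C q0 q1 q2 q3 d0 d1 d2 X1 X2 X3) (hk : 8 ≤ k)
    (hA : -(Real.pi / 4) ≤ X1.im) (he : |k * (X1 - d0).im| = Real.pi / 2)
    (hσ : 7 / 5 ≤ k * (X1 - X2).im)
    (hF : k * (X1 - d1).im ≤ 3 * Real.pi / 2) {et : ℝ} (hke : k * et = Real.pi / 2) :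
    2 * (X1 - X2).im - et ≤ -X1.im - (X2 - d1).im ∧ 0 < -X1.im - (X2 - d1).im ∧
      -X1.im - (X2 - d1).im + (X1 - X2).im < Real.pi / 2 ∧
      Real.tan (-X1.im - (X2 - d1).im) * (X1 - X2).im ≤ (X2 - X1).re ∧
      (0 < k * (X1 - d1).im → (X1 - X2).im ≤ -X1.im) ∧
      (k * (X1 - d1).im ≤ 0 → (X1 - X2).im ≤ -(X2 - d1).im ∧ (X1 - X2).im < et) := by
  have hpi := Real.pi_pos
  have hpi3 := Real.pi_gt_d4
  have hpi4 := Real.pi_lt_d4
  have k0 : 0 < k := by linarith
  obtain ⟨et', hke', he0, he1, he2, he3, he4, he5, he6, _⟩ := h.J0_basic hk he hσ hF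
  have hee : et' = et := by
    have : k * et' = k * et := by rw [hke', hke]
    exact mul_left_cancel₀ k0.ne' this
  subst hee
  have hFe := F_eq (k := k) (X1 := X1) (X2 := X2) (d1 := d1)
  have hα0 := h.a1.2
  have c1 : 0 < k * (X1 - d1).im → (X1 - X2).im ≤ -X1.im := fun h0 => h.J0_f3 hk hA he hσ hF h0
  have c2 : k * (X1 - d1).im ≤ 0 → (X1 - X2).im ≤ -(X2 - d1).im ∧ (X1 - X2).im < et' := by
    intro h0
    have h1 : k * ((X1 - X2).im + (X2 - d1).im) ≤ 0 := by linarith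
    have h2 : (X1 - X2).im + (X2 - d1).im ≤ 0 := by
      by_contra hcon
      push Not at hcon
      have := mul_pos k0 hcon
      linarith
    exact ⟨by linarith, by linarith⟩
  have hm1 : 2 * (X1 - X2).im - et' ≤ -X1.im - (X2 - d1).im := by
    rcases lt_or_ge 0 (k * (X1 - d1).im) with h0 | h0
    · have := c1 h0
      linarith
    · obtain ⟨h1, h2⟩ := c2 h0
      linarith
  have hm0 : 0 < -X1.im - (X2 - d1).im := by linarith
  have hθ0 : 0 < (X1 - X2).im := by linarith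
  have hv : X2.im ≤ X1.im := by
    rw [sub_im] at hθ0
    linarith
  obtain ⟨_, hlt⟩ := h.mv_lt hA
  have hsum : -X1.im - (X2 - d1).im + (X1 - X2).im < Real.pi / 2 := by
    have e : -X1.im - (X2 - d1).im + (X1 - X2).im = -X2.im - (X2 - d1).im := by
      simp only [sub_im]
      ring
    rw [e]
    exact hlt
  refine ⟨hm1, hm0, hsum, ?_, c1, c2⟩
  have h1 := h.F2 hA hm0.le hv
  have h2 : (X1 - X2).im ≤ Real.tan (X1.im - X2.im) := by
    have e : X1.im - X2.im = (X1 - X2).im := by simp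
    rw [e]
    exact Real.le_tan hθ0.le (by linarith)
  have h3 : 0 ≤ Real.tan (-X1.im - (X2 - d1).im) :=
    Real.tan_nonneg_of_nonneg_of_le_pi_div_two hm0.le (by linarith)
  exact (mul_le_mul_of_nonneg_left h2 h3).trans h1

/-- `σ (2σ - 11/7) / k ≤ L` -/
theorem St.J0_L (h : St k C q0 q1 q2 q3 d0 d1 d2 X1 X2 X3) (hk : 8 ≤ k)
    (hA : -(Real.pi / 4) ≤ X1.im) (he : |k * (X1 - d0).im| = Real.pi / 2)
    (hσ : 7 / 5 ≤ k * (X1 - X2).im)
    (hF : k * (X1 - d1).im ≤ 3 * Real.pi / 2) :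
    (k * (X1 - X2).im) * (2 * (k * (X1 - X2).im) - 11 / 7) * (1 / k) ≤ k * (X2 - X1).re := by
  have hpi := Real.pi_pos
  have hpi4 := Real.pi_lt_d4
  have k0 : 0 < k := by linarith
  have hke : k * (Real.pi / (2 * k)) = Real.pi / 2 := by field_simp
  obtain ⟨h1, h2, h3, h4, _, _⟩ := h.J0_m hk hA he hσ hF hke
  set et := Real.pi / (2 * k) with het
  set θ := (X1 - X2).im with hθ
  set m := -X1.im - (X2 - d1).im with hm
  have hθ0 : 0 < θ := by
    by_contra hcon
    push Not at hcon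
    have := mul_nonpos_of_nonneg_of_nonpos k0.le hcon
    linarith
  have h5 : m ≤ Real.tan m := Real.le_tan h2.le (by linarith)
  have h6 : (2 * θ - et) * θ ≤ (X2 - X1).re :=
    (mul_le_mul_of_nonneg_right (h1.trans h5) hθ0.le).trans h4
  have h7 : (k * θ) * (2 * (k * θ) - 11 / 7) * (1 / k) = (2 * (k * θ) - 11 / 7) * θ := by
    field_simp
  rw [h7]
  have h8 : (2 * (k * θ) - 11 / 7) * θ ≤ k * ((2 * θ - et) * θ) := by
    have : k * ((2 * θ - et) * θ) = (2 * (k * θ) - k * et) * θ := by ring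
    rw [this, hke]
    exact mul_le_mul_of_nonneg_right (by linarith) hθ0.le
  exact h8.trans (mul_le_mul_of_nonneg_left h6 k0.le)

end EQS
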