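import Mathlib
import Pool.Agent.Lib.MP_226de1_co.E.J0Geo

/-! Block (III), `F ≤ 3π/2`: `|D_{-1}/xi_{-2}|² ≤ .35 (1 - e^{-2l})`, `|tau| ≤ 5/4`. -/

set_option autoImplicit false

namespace EQS

open Complex

variable {k C : ℝ} {q0 q1 q2 q3 d0 d1 d2 X1 X2 X3 : ℂ}

theorem j0_A_from {c A S E : ℝ} (hc : 0 < c) (hA : 0 ≤ A) (hS : 20 / 7 * c ≤ S)
    (h : A * S ≤ (1 - E) * c) : A ≤ 7 / 20 * (1 - E) := by
  have h1 : A * (20 / 7 * c) ≤ (1 - E) * c := (mul_le_mul_of_nonneg_left hS hA).trans h
  have h2 : (20 / 7 * A) * c ≤ (1 - E) * c := by linarith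
  have h3 := le_of_mul_le_mul_right h2 hc
  linarith

theorem j0_cos_shift {x y : ℝ} (hx : 0.5546 ≤ Real.cos x) (hy0 : 0 ≤ y) (hy : y ≤ 0.0429) :
    6 / 7 * Real.cos x ≤ Real.cos (x + y) := by
  have h1 := Real.one_sub_sq_div_two_le_cos (x := y)
  have h2 : Real.sin y ≤ y := Real.sin_le hy0
  have h3 : 0 ≤ Real.sin y := Real.sin_nonneg_of_nonneg_of_le_pi hy0
    (by linarith [Real.pi_gt_three])
  have h4 := Real.sin_le_one x
  have h5 : y ^ 2 ≤ 0.0429 ^ 2 := pow_le_pow_left₀ hy0 hy 2
  rw [Real.cos_add]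
  have h6 : Real.sin x * Real.sin y ≤ 0.0429 := by
    calc Real.sin x * Real.sin y ≤ 1 * Real.sin y := mul_le_mul_of_nonneg_right h4 h3
      _ ≤ _ := by linarith
  have h7 : Real.cos x * 0.999 ≤ Real.cos x * Real.cos y := by
    apply mul_le_mul_of_nonneg_left _ (by linarith)
    linarith
  linarith

theorem St.J0_A (h : St k C q0 q1 q2 q3 d0 d1 d2 X1 X2 X3) (hk : 8 ≤ k)
    (hA : -(Real.pi / 4) ≤ X1.im) (he : |k * (X1 - d0).im| = Real.pi / 2)
    (hσ : 7 / 5 ≤ k * (X1 - X2).im)
    (hF : k * (X1 - d1).im ≤ 3 * Real.pi / 2) :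
    Real.exp (2 * (d1 - X2).re) ≤ 7 / 20 * (1 - Real.exp (-(2 * (X2 - X1).re))) := by
  have hpi := Real.pi_pos
  have hpi3 := Real.pi_gt_d4
  have hpi4 := Real.pi_lt_d4
  have k0 : 0 < k := by linarith
  obtain ⟨hF1, hF2, hσ2⟩ := h.J0_F he hσ hF
  obtain ⟨et, hke, he0, he1, he2, he3, he4, he5, he6, he7⟩ := h.J0_basic hk he hσ hF
  obtain ⟨m1, m2, m3, m4, m5, m6⟩ := h.J0_m hk hA he hσ hF hke
  have hα := h.a1.2
  have hge := h.F1_ge he
  have ea : -X1.im - (X1 - d1).im = (-X1.im - (X2 - d1).im) - (X1 - X2).im := by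
    simp only [sub_im]; ring
  have eb : -X2.im - (X2 - d1).im = (-X1.im - (X2 - d1).im) + (X1 - X2).im := by
    simp only [sub_im]; ring
  rw [ea, eb] at hge
  have hd1e : d1.im = X1.im - (X1 - d1).im := by simp
  have e1 : (X1 - d1).im = (X1 - X2).im + (X2 - d1).im := by
    simp only [sub_im]
    ring
  set θ := (X1 - X2).im with hθ
  set κ := (X2 - d1).im with hκ
  set m := -X1.im - κ with hm
  have hθ0 : 0 < θ := by linarith
  have hc : 0 < Real.cos (m + θ) := Real.cos_pos_of_mem_Ioo ⟨by linarith, by linarith⟩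
  have hcc : Real.cos (m + θ) ≤ Real.cos (m - θ) := by
    rw [← Real.cos_abs (m - θ)]
    apply Real.cos_le_cos_of_nonneg_of_le_pi (abs_nonneg _) (by linarith)
    rw [abs_le]
    constructor <;> linarith
  have hS : 20 / 7 * Real.cos (m + θ) ≤ 2 * Real.cos d0.im + Real.cos d1.im := by
    rcases lt_or_ge 0 (k * (X1 - d1).im) with hF0 | hF0
    · have hf3 := m5 hF0
      have h0 := h.argp_of_pos he hF0 hF2
      have hd0 : d0.im = X1.im + et := by
        have h2 : (X1 - d0).im = -et := by
          have h3 : k * ((X1 - d0).im + et) = 0 := by linarith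
          rcases mul_eq_zero.1 h3 with h4 | h4
          · exact absurd h4 k0.ne'
          · linarith
        rw [sub_im] at h2
        linarith
      have s2 : 0 < (X1 - d1).im := by
        by_contra hcon
        push Not at hcon
        have := mul_nonpos_of_nonneg_of_nonpos k0.le hcon
        linarith
      have c0 : Real.cos (m + θ) ≤ Real.cos d0.im := by
        rw [← Real.cos_abs d0.im]
        apply Real.cos_le_cos_of_nonneg_of_le_pi (abs_nonneg _) (by linarith)
        rw [hd0, abs_le, hm]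
        constructor <;> linarith
      have hd1' : d1.im = -(m + θ + 2 * κ) := by
        rw [hd1e, e1, hm]
        ring
      rcases le_or_gt κ 0 with hk0 | hk0
      · have c1 : Real.cos (m + θ) ≤ Real.cos d1.im := by
          rw [hd1', Real.cos_neg]
          apply Real.cos_le_cos_of_nonneg_of_le_pi _ (by linarith) (by linarith)
          rw [hm]
          linarith
        linarith
      · have hκ1 : 2 * κ ≤ 0.0429 := by
          have : κ ≤ et * (6 / 55) := by linarith
          nlinarith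
        have c2 : 0.5546 ≤ Real.cos (m + θ) := by
          apply cos_b1
          rw [abs_le, hm]
          constructor
          · linarith
          · have : θ < et := by linarith
            linarith
        have c1 := j0_cos_shift c2 (y := 2 * κ) (by linarith) hκ1
        rw [hd1', Real.cos_neg]
        linarith
    · obtain ⟨n1, n2⟩ := m6 hF0
      have c0 : Real.cos (m + θ) ≤ Real.cos d0.im := by
        rw [← Real.cos_abs d0.im]
        apply Real.cos_le_cos_of_nonneg_of_le_pi (abs_nonneg _) (by linarith)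
        rw [abs_le, hm]
        rcases he7 with h1 | h1 <;> rw [h1] <;> constructor <;> linarith
      have c1 : Real.cos (m + θ) ≤ Real.cos d1.im := by
        rw [← Real.cos_abs d1.im]
        apply Real.cos_le_cos_of_nonneg_of_le_pi (abs_nonneg _) (by linarith)
        rw [hd1e, e1, abs_le, hm]
        constructor <;> linarith
      linarith
  apply j0_A_from hc (Real.exp_pos _).le hS
  have e2 : Real.exp (2 * (d1 - X1)).re = Real.exp (2 * (X2 - X1).re) * Real.exp (2 * (d1 - X2).re) := by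
    rw [← Real.exp_add]
    congr 1
    simp only [mul_re, re_ofNat, im_ofNat, sub_re, zero_mul, sub_zero]
    ring
  rw [e2] at hge
  have e3 : Real.exp (-(2 * (X2 - X1).re)) * Real.exp (2 * (X2 - X1).re) = 1 := by
    rw [← Real.exp_add, neg_add_cancel, Real.exp_zero]
  have hE := Real.exp_pos (-(2 * (X2 - X1).re))
  have h1 := mul_le_mul_of_nonneg_left hge hE.le
  set E := Real.exp (-(2 * (X2 - X1).re)) with hEd
  set G := Real.exp (2 * (X2 - X1).re) with hG
  set AA := Real.exp (2 * (d1 - X2).re) with hAA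
  have h2 : E * (G * Real.cos (m + θ)) = Real.cos (m + θ) := by rw [← mul_assoc, e3, one_mul]
  have h3 : E * (Real.cos (m - θ) + G * AA * (2 * Real.cos d0.im + Real.cos d1.im)) =
      E * Real.cos (m - θ) + AA * (2 * Real.cos d0.im + Real.cos d1.im) := by
    calc _ = E * Real.cos (m - θ) + (E * G) * AA * (2 * Real.cos d0.im + Real.cos d1.im) := by ring
      _ = _ := by rw [e3, one_mul]
  rw [h2, h3] at h1
  have h4 := mul_le_mul_of_nonneg_left hcc hE.le
  linarith

/-- `|tau| ≤ 5/4` -/
theorem St.J0_T (h : St k C q0 q1 q2 q3 d0 d1 d2 X1 X2 X3) (hk : 8 ≤ k)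
    (hA : -(Real.pi / 4) ≤ X1.im) (he : |k * (X1 - d0).im| = Real.pi / 2)
    (hσ : 7 / 5 ≤ k * (X1 - X2).im)
    (hF : k * (X1 - d1).im ≤ 3 * Real.pi / 2) : Real.exp (d2 - d1).re ≤ 5 / 4 := by
  have k0 : 0 < k := by linarith
  have hL := h.J0_L hk hA he hσ hF
  have h1 := h.tau_norm
  have h2 := h.inv_norm he
  set σ := k * (X1 - X2).im with hσd
  set L := k * (X2 - X1).re with hLd
  set t := 1 / k with ht
  have ht0 : 0 < t := by positivity
  have ht8 : t ≤ 1 / 8 := one_div_le_one_div_of_le (by norm_num) hk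
  have hkt : k * t = 1 := by rw [ht]; field_simp
  have hL2 : 172 / 100 * t ≤ L := by
    refine le_trans ?_ hL
    apply mul_le_mul_of_nonneg_right _ ht0.le
    nlinarith
  -- `1 - e^{-L} ≥ 3/2 t`
  have h3 : 3 / 2 * t ≤ 1 - Real.exp (-L) := by
    have h4 : Real.exp (-L) ≤ Real.exp (-(172 / 100 * t)) := Real.exp_le_exp.2 (by linarith)
    have h5 := exp_neg_le_quad (x := 172 / 100 * t) (by positivity)
    nlinarith
  have h4 : Real.exp (k * (d2 - d1).re) * (3 / 2 * t) ≤ 1 := by
    rw [← h1]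
    exact mul_le_mul_of_nonneg_left (h3.trans h2) (Real.exp_pos _).le
  by_contra hcon
  push Not at hcon
  have h5 : Real.log (5 / 4) < (d2 - d1).re := by
    rw [Real.log_lt_iff_lt_exp (by norm_num)]
    exact hcon
  have h6 : (2 : ℝ) / 9 ≤ Real.log (5 / 4) := by
    rw [Real.le_log_iff_exp_le (by norm_num)]
    have := Real.exp_bound' (x := 2 / 9) (by norm_num) (by norm_num) (n := 4) (by norm_num)
    simp only [Finset.sum_range_succ, Finset.sum_range_zero] at this
    norm_num [Nat.factorial] at this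
    linarith
  have h7 : k * (2 / 9) ≤ k * (d2 - d1).re := mul_le_mul_of_nonneg_left (by linarith) k0.le
  have h8 : Real.exp (k * (2 / 9)) ≤ Real.exp (k * (d2 - d1).re) := Real.exp_le_exp.2 h7
  -- `exp (2k/9) * 3/2 > k`
  have h9 : k < Real.exp (k * (2 / 9)) * (3 / 2) := by
    have e : k * (2 / 9) = 16 / 9 + (k - 8) * (2 / 9) := by ring
    rw [e, Real.exp_add]
    have h10 : (5.9 : ℝ) ≤ Real.exp (16 / 9) := by
      have := Real.sum_le_exp_of_nonneg (x := 16 / 9) (by norm_num) 9
      simp only [Finset.sum_range_succ, Finset.sum_range_zero] at this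
      norm_num [Nat.factorial] at this
      linarith
    have h11 : 1 + (k - 8) * (2 / 9) ≤ Real.exp ((k - 8) * (2 / 9)) := by
      have := Real.add_one_le_exp ((k - 8) * (2 / 9))
      linarith
    have h12 : 5.9 * (1 + (k - 8) * (2 / 9)) ≤ Real.exp (16 / 9) * Real.exp ((k - 8) * (2 / 9)) := by
      apply mul_le_mul h10 h11 (by nlinarith) (Real.exp_pos _).le
    nlinarith
  have h10 : Real.exp (k * (2 / 9)) * (3 / 2) * t ≤ 1 := by
    have h11 : Real.exp (k * (2 / 9)) * (3 / 2 * t) ≤ Real.exp (k * (d2 - d1).re) * (3 / 2 * t) :=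
      mul_le_mul_of_nonneg_right h8 (by positivity)
    linarith
  have h11 : k * t < Real.exp (k * (2 / 9)) * (3 / 2) * t := mul_lt_mul_of_pos_right h9 ht0
  linarith

end EQS
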