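import Mathlib
set_option autoImplicit false
namespace EQS

private theorem J0a_nn {f f' : ℝ → ℝ} (hf : ∀ x, HasDerivAt f (f' x) x) (h0 : f 0 = 0)
    (hp : ∀ x, 0 ≤ x → 0 ≤ f' x) {x : ℝ} (hx : 0 ≤ x) : 0 ≤ f x := by
  have hm : MonotoneOn f (Set.Ici 0) := by
    apply monotoneOn_of_deriv_nonneg (convex_Ici 0)
    · exact fun y _ => (hf y).continuousAt.continuousWithinAt
    · exact fun y _ => (hf y).differentiableAt.differentiableWithinAt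
    · intro y hy
      rw [interior_Ici] at hy
      rw [(hf y).deriv]
      exact hp y (le_of_lt hy)
  have h1 := hm (Set.mem_Ici.mpr le_rfl) (Set.mem_Ici.mpr hx) hx
  rw [h0] at h1
  exact h1

private theorem J0a_exp2 {s : ℝ} (hs : 0 ≤ s) : Real.exp (-s) ≤ 1 - s + s ^ 2 / 2 := by
  have h := J0a_nn (f := fun s => 1 - s + s ^ 2 / 2 - Real.exp (-s))
    (f' := fun s => -1 + s + Real.exp (-s)) (fun y => by
      have h1 : HasDerivAt (fun s : ℝ => Real.exp (-s)) (-Real.exp (-y)) y := by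
        have := (hasDerivAt_neg y).exp
        simpa using this
      have h2 : HasDerivAt (fun s : ℝ => 1 - s + s ^ 2 / 2) (-1 + y) y := by
        have h3 := ((hasDerivAt_id y).const_sub 1).add (((hasDerivAt_id y).pow 2).div_const 2)
        refine HasDerivAt.congr_deriv h3 ?_
        simp
      have h4 := h2.sub h1
      refine HasDerivAt.congr_deriv h4 ?_
      ring) (by simp) (fun y _ => by
        have := Real.add_one_le_exp (-y)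
        linarith) hs
  beta_reduce at h
  linarith

private theorem J0a_exp3 {s : ℝ} (hs : 0 ≤ s) :
    1 - s + s ^ 2 / 2 - s ^ 3 / 6 ≤ Real.exp (-s) := by
  have h := J0a_nn (f := fun s => Real.exp (-s) - (1 - s + s ^ 2 / 2 - s ^ 3 / 6))
    (f' := fun s => 1 - s + s ^ 2 / 2 - Real.exp (-s)) (fun y => by
      have h1 : HasDerivAt (fun s : ℝ => Real.exp (-s)) (-Real.exp (-y)) y := by
        have := (hasDerivAt_neg y).exp
        simpa using this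
      have h2 : HasDerivAt (fun s : ℝ => 1 - s + s ^ 2 / 2 - s ^ 3 / 6)
          (-1 + y - y ^ 2 / 2) y := by
        have h3 := (((hasDerivAt_id y).const_sub 1).add
          (((hasDerivAt_id y).pow 2).div_const 2)).sub (((hasDerivAt_id y).pow 3).div_const 6)
        refine HasDerivAt.congr_deriv h3 ?_
        simp
        ring
      have h4 := h1.sub h2
      refine HasDerivAt.congr_deriv h4 ?_
      ring) (by simp) (fun y hy => by
        have := J0a_exp2 hy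
        linarith) hs
  beta_reduce at h
  linarith

private theorem J0a_exp3' (a : ℝ) : 1 + a + a ^ 2 / 2 + a ^ 3 / 6 ≤ Real.exp a := by
  rcases le_total 0 a with h | h
  · have h1 := Real.sum_le_exp_of_nonneg h 4
    simp only [Finset.sum_range_succ, Finset.sum_range_zero, Nat.factorial] at h1
    norm_num at h1
    linarith
  · have h1 := J0a_exp3 (s := -a) (by linarith)
    rw [neg_neg] at h1
    have h2 : 1 - -a + (-a) ^ 2 / 2 - (-a) ^ 3 / 6 = 1 + a + a ^ 2 / 2 + a ^ 3 / 6 := by ring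
    linarith

private theorem J0a_sin3 {x : ℝ} (hx : 0 ≤ x) : x - x ^ 3 / 6 ≤ Real.sin x := by
  have h := J0a_nn (f := fun s => Real.sin s - (s - s ^ 3 / 6))
    (f' := fun s => Real.cos s - (1 - s ^ 2 / 2)) (fun y => by
      have h2 : HasDerivAt (fun s : ℝ => s - s ^ 3 / 6) (1 - y ^ 2 / 2) y := by
        have h3 := (hasDerivAt_id y).sub (((hasDerivAt_id y).pow 3).div_const 6)
        refine HasDerivAt.congr_deriv h3 ?_
        simp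
        ring
      exact (Real.hasDerivAt_sin y).sub h2) (by simp) (fun y _ => by
        have := Real.one_sub_sq_div_two_le_cos (x := y)
        linarith) hx
  beta_reduce at h
  linarith

private theorem J0a_cos4 {x : ℝ} (hx : 0 ≤ x) : Real.cos x ≤ 1 - x ^ 2 / 2 + x ^ 4 / 24 := by
  have h := J0a_nn (f := fun s => (1 - s ^ 2 / 2 + s ^ 4 / 24) - Real.cos s)
    (f' := fun s => Real.sin s - (s - s ^ 3 / 6)) (fun y => by
      have h2 : HasDerivAt (fun s : ℝ => 1 - s ^ 2 / 2 + s ^ 4 / 24) (-y + y ^ 3 / 6) y := by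
        have h3 := ((((hasDerivAt_id y).pow 2).div_const 2).const_sub 1).add
          (((hasDerivAt_id y).pow 4).div_const 24)
        refine HasDerivAt.congr_deriv h3 ?_
        simp
        ring
      have h4 := h2.sub (Real.hasDerivAt_cos y)
      refine HasDerivAt.congr_deriv h4 ?_
      ring) (by simp) (fun y hy => by
        have := J0a_sin3 hy
        linarith) hx
  beta_reduce at h
  linarith

private theorem J0a_sin5 {x : ℝ} (hx : 0 ≤ x) :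
    Real.sin x ≤ x - x ^ 3 / 6 + x ^ 5 / 120 := by
  have h := J0a_nn (f := fun s => (s - s ^ 3 / 6 + s ^ 5 / 120) - Real.sin s)
    (f' := fun s => (1 - s ^ 2 / 2 + s ^ 4 / 24) - Real.cos s) (fun y => by
      have h2 : HasDerivAt (fun s : ℝ => s - s ^ 3 / 6 + s ^ 5 / 120)
          (1 - y ^ 2 / 2 + y ^ 4 / 24) y := by
        have h3 := ((hasDerivAt_id y).sub (((hasDerivAt_id y).pow 3).div_const 6)).add
          (((hasDerivAt_id y).pow 5).div_const 120)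
        refine HasDerivAt.congr_deriv h3 ?_
        simp
        ring
      exact h2.sub (Real.hasDerivAt_sin y)) (by simp) (fun y hy => by
        have := J0a_cos4 hy
        linarith) hx
  beta_reduce at h
  linarith

private theorem J0a_cube {th a c z : ℝ} (hth : 0 < th) (ha0 : -(53 / 400) ≤ a)
    (ha1 : a ≤ 53 / 400) (hc0 : 0 ≤ c) (hc : c ≤ 13 / 80 * th) (hz0 : 0 ≤ z)
    (hz : z ≤ th * (1 - a) + c) :
    (1 + a + a ^ 2 / 2 + a ^ 3 / 6) * z ^ 3 ≤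
      12826 / 10000 * th ^ 3 + 435 / 100 * (th ^ 2 * c) := by
  have hE0 : 0 ≤ 1 + a + a ^ 2 / 2 + a ^ 3 / 6 := by
    have h1 : 0 ≤ a ^ 2 * (1 / 2 + a / 6) := mul_nonneg (sq_nonneg a) (by linarith)
    have h2 : 1 + a + a ^ 2 / 2 + a ^ 3 / 6 = 1 + a + a ^ 2 * (1 / 2 + a / 6) := by ring
    rw [h2]
    linarith
  have hE1 : 1 + a + a ^ 2 / 2 + a ^ 3 / 6 ≤ 115 / 100 := by
    have h1 : a ^ 2 ≤ (53 / 400) ^ 2 := by nlinarith
    have h3 : a ^ 2 * (1 / 2 + a / 6) ≤ (53 / 400) ^ 2 * (1 / 2 + (53 / 400) / 6) :=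
      mul_le_mul h1 (by linarith) (by linarith) (by positivity)
    have h2 : 1 + a + a ^ 2 / 2 + a ^ 3 / 6 = 1 + a + a ^ 2 * (1 / 2 + a / 6) := by ring
    rw [h2]
    norm_num at h3 ⊢
    linarith
  have hEp : (1 + a + a ^ 2 / 2 + a ^ 3 / 6) * (th * (1 - a)) ≤ th := by
    have h1 : 0 ≤ a ^ 2 * (1 / 2 + a / 3 + a ^ 2 / 6) :=
      mul_nonneg (sq_nonneg a) (by nlinarith [sq_nonneg a])
    have h2 : (1 + a + a ^ 2 / 2 + a ^ 3 / 6) * (th * (1 - a)) =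
        th - th * (a ^ 2 * (1 / 2 + a / 3 + a ^ 2 / 6)) := by ring
    rw [h2]
    have h3 := mul_nonneg hth.le h1
    linarith
  generalize 1 + a + a ^ 2 / 2 + a ^ 3 / 6 = E at hE0 hE1 hEp ⊢
  have hp0 : 0 ≤ th * (1 - a) := mul_nonneg hth.le (by linarith)
  have hp1 : th * (1 - a) ≤ 453 / 400 * th := by nlinarith
  generalize th * (1 - a) = p at hz hEp hp0 hp1 ⊢
  have h1 : z ^ 3 ≤ (p + c) ^ 3 := pow_le_pow_left₀ hz0 hz 3
  have h2 : E * z ^ 3 ≤ E * (p + c) ^ 3 := mul_le_mul_of_nonneg_left h1 hE0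
  have h3 : E * (p + c) ^ 3 =
      (E * p) * p ^ 2 + 3 * ((E * p) * (p * c)) + 3 * ((E * p) * c ^ 2) + E * c ^ 3 := by ring
  have hp2 : p ^ 2 ≤ (453 / 400) ^ 2 * th ^ 2 := by
    have := pow_le_pow_left₀ hp0 hp1 2
    calc p ^ 2 ≤ (453 / 400 * th) ^ 2 := this
      _ = (453 / 400) ^ 2 * th ^ 2 := by ring
  have hpc : p * c ≤ 453 / 400 * th * c := mul_le_mul_of_nonneg_right hp1 hc0
  have hc2 : c ^ 2 ≤ 13 / 80 * th * c := by
    have := mul_le_mul_of_nonneg_right hc hc0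
    linarith [sq c, this]
  have hc3 : c ^ 3 ≤ (13 / 80) ^ 2 * th ^ 2 * c := by
    have h4 := pow_le_pow_left₀ hc0 hc 2
    have h5 := mul_le_mul_of_nonneg_right h4 hc0
    calc c ^ 3 = c ^ 2 * c := by ring
      _ ≤ (13 / 80 * th) ^ 2 * c := h5
      _ = (13 / 80) ^ 2 * th ^ 2 * c := by ring
  have hA1 : (E * p) * p ^ 2 ≤ th * ((453 / 400) ^ 2 * th ^ 2) :=
    mul_le_mul hEp hp2 (sq_nonneg p) hth.le
  have hA2 : (E * p) * (p * c) ≤ th * (453 / 400 * th * c) :=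
    mul_le_mul hEp hpc (mul_nonneg hp0 hc0) hth.le
  have hA3 : (E * p) * c ^ 2 ≤ th * (13 / 80 * th * c) :=
    mul_le_mul hEp hc2 (sq_nonneg c) hth.le
  have hA4 : E * c ^ 3 ≤ 115 / 100 * ((13 / 80) ^ 2 * th ^ 2 * c) :=
    mul_le_mul hE1 hc3 (pow_nonneg hc0 3) (by norm_num)
  have hth3 : 0 ≤ th ^ 3 := pow_nonneg hth.le 3
  have hthc : 0 ≤ th ^ 2 * c := mul_nonneg (sq_nonneg th) hc0
  nlinarith [h2, h3, hA1, hA2, hA3, hA4, hth3, hthc]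

/-- the scalar inequality, `v ≥ 0` -/
private theorem J0a_finP {σ v l : ℝ} (hσ : 7 / 5 ≤ σ) (hσ1 : σ ≤ 22 / 7)
    (hv1 : v ≤ 53 / 50) (hl : 0 ≤ l) (hl1 : l ≤ 17 / 80) :
    0 < 4 * σ - 2 * l * (2 * σ - v) - 171 / 1000 - 151 / 1000 - 767 / 10000 * σ ^ 2 -
      241 / 10000 * σ ^ 2 - 34 / 10000 * σ ^ 4 - σ ^ 3 / 24 -
      7 / 10 * (1 - 17 / 20 * l) * (27 / 35 + 7 / 2 * v + 5 / 4 * (453 / 400 * σ + l * v)) := by
  have hs0 : 0 ≤ σ - 7 / 5 := by linarith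
  have hs1 : 0 ≤ 22 / 7 - σ := by linarith
  have hq : 0 ≤ (σ - 7 / 5) * (22 / 7 - σ) := mul_nonneg hs0 hs1
  have h2 : σ ^ 2 ≤ (7 / 5 + 22 / 7) * σ - 7 / 5 * (22 / 7) := by nlinarith
  have h3 : σ ^ 3 ≤ ((7 / 5 + 22 / 7) ^ 2 - 7 / 5 * (22 / 7)) * σ
      - (7 / 5 + 22 / 7) * (7 / 5 * (22 / 7)) := by
    have h4 : 0 ≤ (σ - 7 / 5) * (22 / 7 - σ) * (σ + (7 / 5 + 22 / 7)) :=
      mul_nonneg hq (by linarith)
    nlinarith
  have h4 : σ ^ 4 ≤ (7 / 5 + 22 / 7) * ((7 / 5) ^ 2 + (22 / 7) ^ 2) * σ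
      - (7 / 5 * (22 / 7)) * ((7 / 5) ^ 2 + 7 / 5 * (22 / 7) + (22 / 7) ^ 2) := by
    have h5 : 0 ≤ (σ - 7 / 5) * (22 / 7 - σ) *
        (σ ^ 2 + (7 / 5 + 22 / 7) * σ + ((7 / 5) ^ 2 + 7 / 5 * (22 / 7) + (22 / 7) ^ 2)) :=
      mul_nonneg hq (by nlinarith)
    nlinarith
  have hsl : 0 ≤ (σ - 7 / 5) * l := mul_nonneg hs0 hl
  have hsl1 : 0 ≤ (σ - 7 / 5) * (17 / 80 - l) := mul_nonneg hs0 (by linarith)
  have hw : 0 ≤ 53 / 50 - v := by linarith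
  have hwl : 0 ≤ (53 / 50 - v) * (2 * l * (-1) + 7 / 10 * (1 - 17 / 20 * l) * (7 / 2 + 5 / 4 * l)) :=
    mul_nonneg hw (by nlinarith)
  have hll : 0 ≤ l * (17 / 80 - l) := mul_nonneg hl (by linarith)
  nlinarith [h2, h3, h4, hsl, hsl1, hwl, hll]

/-- the scalar inequality, `v < 0` -/
private theorem J0a_finN {σ v l : ℝ} (hσ : 7 / 5 ≤ σ) (hσ1 : σ ≤ 22 / 7)
    (hv1 : -(53 / 50) ≤ v) (hl : 0 ≤ l) (hl1 : l ≤ 17 / 80) :
    0 < 4 * σ - 2 * l * (2 * σ - v) - 151 / 1000 - 767 / 10000 * σ ^ 2 -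
      169 / 10000 * σ ^ 4 - 1092 / 10000 * σ ^ 3 -
      7 / 10 * (1 - 17 / 20 * l) * (27 / 35 + 5 / 4 * (453 / 400 * σ)) := by
  have hs0 : 0 ≤ σ - 7 / 5 := by linarith
  have hs1 : 0 ≤ 22 / 7 - σ := by linarith
  have hq : 0 ≤ (σ - 7 / 5) * (22 / 7 - σ) := mul_nonneg hs0 hs1
  have h2 : σ ^ 2 ≤ (7 / 5 + 22 / 7) * σ - 7 / 5 * (22 / 7) := by nlinarith
  have h3 : σ ^ 3 ≤ ((7 / 5 + 22 / 7) ^ 2 - 7 / 5 * (22 / 7)) * σ
      - (7 / 5 + 22 / 7) * (7 / 5 * (22 / 7)) := by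
    have h4 : 0 ≤ (σ - 7 / 5) * (22 / 7 - σ) * (σ + (7 / 5 + 22 / 7)) :=
      mul_nonneg hq (by linarith)
    nlinarith
  have h4 : σ ^ 4 ≤ (7 / 5 + 22 / 7) * ((7 / 5) ^ 2 + (22 / 7) ^ 2) * σ
      - (7 / 5 * (22 / 7)) * ((7 / 5) ^ 2 + 7 / 5 * (22 / 7) + (22 / 7) ^ 2) := by
    have h5 : 0 ≤ (σ - 7 / 5) * (22 / 7 - σ) *
        (σ ^ 2 + (7 / 5 + 22 / 7) * σ + ((7 / 5) ^ 2 + 7 / 5 * (22 / 7) + (22 / 7) ^ 2)) :=
      mul_nonneg hq (by nlinarith)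
    nlinarith
  have hsl : 0 ≤ (22 / 7 - σ) * l := mul_nonneg hs1 hl
  have hsl1 : 0 ≤ (σ - 7 / 5) * (17 / 80 - l) := mul_nonneg hs0 (by linarith)
  have hwl : 0 ≤ (53 / 50 + v) * l := mul_nonneg (by linarith) hl
  nlinarith [h2, h3, h4, hsl, hsl1, hwl]

/-- `2 l b (E_a - 1) ≥ - .151 l t` -/
private theorem J0a_D2 {t u v l : ℝ} (ht : 0 < t) (ht8 : t ≤ 1 / 8)
    (huv : u ^ 2 + v ^ 2 ≤ (53 / 50) ^ 2) (hl : 0 < l) :
    -(151 / 1000 * (l * t)) ≤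
      2 * l * (v * t) * (1 + u * t + (u * t) ^ 2 / 2 + (u * t) ^ 3 / 6 - 1) := by
  have hu2 : u ^ 2 ≤ (53 / 50) ^ 2 := by nlinarith [sq_nonneg v]
  have hu : |u| ≤ 53 / 50 := abs_le_of_sq_le_sq hu2 (by norm_num)
  have hut : |u * t| ≤ 53 / 400 := by
    rw [abs_mul, abs_of_pos ht]
    calc |u| * t ≤ 53 / 50 * (1 / 8) := mul_le_mul hu ht8 ht.le (by norm_num)
      _ = 53 / 400 := by norm_num
  have h1 : |1 + u * t / 2 + (u * t) ^ 2 / 6| ≤ 107 / 100 := by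
    rw [abs_le] at hut ⊢
    constructor
    · nlinarith [sq_nonneg (u * t)]
    · nlinarith [sq_nonneg (u * t)]
  have h2 : |u| * |v| ≤ 1 / 2 * (53 / 50) ^ 2 := by
    have := two_mul_le_add_sq |u| |v|
    rw [sq_abs, sq_abs] at this
    linarith
  have h3 : 2 * l * (v * t) * (1 + u * t + (u * t) ^ 2 / 2 + (u * t) ^ 3 / 6 - 1) =
      2 * (l * t) * t * (u * v * (1 + u * t / 2 + (u * t) ^ 2 / 6)) := by ring
  have h4 : |u * v * (1 + u * t / 2 + (u * t) ^ 2 / 6)| ≤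
      1 / 2 * (53 / 50) ^ 2 * (107 / 100) := by
    rw [abs_mul, abs_mul]
    exact mul_le_mul h2 h1 (abs_nonneg _) (by positivity)
  have h5 := neg_le_of_abs_le h4
  have hlt : 0 < l * t := mul_pos hl ht
  rw [h3]
  have h6 : 2 * (l * t) * t * (-(1 / 2 * (53 / 50) ^ 2 * (107 / 100))) ≤
      2 * (l * t) * t * (u * v * (1 + u * t / 2 + (u * t) ^ 2 / 6)) :=
    mul_le_mul_of_nonneg_left h5 (by positivity)
  have h7 : l * t * t ≤ l * t * (1 / 8) := mul_le_mul_of_nonneg_left ht8 hlt.le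
  nlinarith [h6, h7]

private theorem J0a_D4 {t σ l : ℝ} (ht : 0 < t) (hl : 0 < l)
    (hs : σ * t ^ 2 ≤ 35 / 43 * l) :
    (12826 / 30000 - 1 / 3) * (σ * t) ^ 3 ≤ 767 / 10000 * σ ^ 2 * (l * t) := by
  have h1 : σ ^ 2 * t * (σ * t ^ 2) ≤ σ ^ 2 * t * (35 / 43 * l) :=
    mul_le_mul_of_nonneg_left hs (by positivity)
  have h2 : (12826 / 30000 - 1 / 3) * (σ * t) ^ 3 =
      (12826 / 30000 - 1 / 3) * (σ ^ 2 * t * (σ * t ^ 2)) := by ring
  rw [h2]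
  have h3 : 0 ≤ σ ^ 2 * (l * t) := by positivity
  calc (12826 / 30000 - 1 / 3) * (σ ^ 2 * t * (σ * t ^ 2))
      ≤ (12826 / 30000 - 1 / 3) * (σ ^ 2 * t * (35 / 43 * l)) :=
        mul_le_mul_of_nonneg_left h1 (by norm_num)
    _ = (12826 / 30000 - 1 / 3) * (35 / 43) * (σ ^ 2 * (l * t)) := by ring
    _ ≤ 767 / 10000 * σ ^ 2 * (l * t) := by nlinarith

/-- the positive part of the cubic terms, `v ≥ 0` -/
private theorem J0a_D1P {t σ u v l : ℝ} (ht : 0 < t) (ht8 : t ≤ 1 / 8) (hσ : 7 / 5 ≤ σ)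
    (huv : u ^ 2 + v ^ 2 ≤ (53 / 50) ^ 2) (hl : 0 < l) (hs : σ * t ^ 2 ≤ 35 / 43 * l) :
    -(171 / 1000 * (l * t)) ≤ σ * t * ((σ * t - v * t) ^ 2 -
      (u * t) ^ 2 * (1 + 2 * (u * t) / 3 + (u * t) ^ 2 / 3)) := by
  have hu2 : u ^ 2 ≤ (53 / 50) ^ 2 := by nlinarith [sq_nonneg v]
  have hu : |u| ≤ 53 / 50 := abs_le_of_sq_le_sq hu2 (by norm_num)
  have hut : |u * t| ≤ 53 / 400 := by
    rw [abs_mul, abs_of_pos ht]
    calc |u| * t ≤ 53 / 50 * (1 / 8) := mul_le_mul hu ht8 ht.le (by norm_num)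
      _ = 53 / 400 := by norm_num
  have h1 : 1 + 2 * (u * t) / 3 + (u * t) ^ 2 / 3 ≤ 10942 / 10000 := by
    rw [abs_le] at hut
    nlinarith
  have h2 : u ^ 2 * (1 + 2 * (u * t) / 3 + (u * t) ^ 2 / 3) ≤ u ^ 2 * (10942 / 10000) :=
    mul_le_mul_of_nonneg_left h1 (sq_nonneg u)
  have h3 : -(21 / 100) ≤ (σ - v) ^ 2 - u ^ 2 * (10942 / 10000) := by
    have h4 : 0 ≤ (σ - 20942 / 10000 * v) ^ 2 := sq_nonneg _
    nlinarith
  have h5 : -(21 / 100) ≤ (σ - v) ^ 2 - u ^ 2 * (1 + 2 * (u * t) / 3 + (u * t) ^ 2 / 3) := by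
    linarith
  have h6 : σ * t * ((σ * t - v * t) ^ 2 -
      (u * t) ^ 2 * (1 + 2 * (u * t) / 3 + (u * t) ^ 2 / 3)) =
      σ * t ^ 2 * t * ((σ - v) ^ 2 - u ^ 2 * (1 + 2 * (u * t) / 3 + (u * t) ^ 2 / 3)) := by ring
  rw [h6]
  have hp : 0 ≤ σ * t ^ 2 * t := by
    have : 0 < σ := by linarith
    positivity
  have h7 := mul_le_mul_of_nonneg_left h5 hp
  have h8 : σ * t ^ 2 * t ≤ 35 / 43 * l * t := mul_le_mul_of_nonneg_right hs ht.le
  have hlt : 0 < l * t := mul_pos hl ht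
  nlinarith [h7, h8]

private theorem J0a_D1N {t σ u v : ℝ} (ht : 0 < t) (ht8 : t ≤ 1 / 8) (hσ : 7 / 5 ≤ σ)
    (huv : u ^ 2 + v ^ 2 ≤ (53 / 50) ^ 2) (hv : v ≤ 0) :
    0 ≤ σ * t * ((σ * t - v * t) ^ 2 -
      (u * t) ^ 2 * (1 + 2 * (u * t) / 3 + (u * t) ^ 2 / 3)) := by
  have hu2 : u ^ 2 ≤ (53 / 50) ^ 2 := by nlinarith [sq_nonneg v]
  have hu : |u| ≤ 53 / 50 := abs_le_of_sq_le_sq hu2 (by norm_num)
  have hut : |u * t| ≤ 53 / 400 := by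
    rw [abs_mul, abs_of_pos ht]
    calc |u| * t ≤ 53 / 50 * (1 / 8) := mul_le_mul hu ht8 ht.le (by norm_num)
      _ = 53 / 400 := by norm_num
  have h1 : 1 + 2 * (u * t) / 3 + (u * t) ^ 2 / 3 ≤ 10942 / 10000 := by
    rw [abs_le] at hut
    nlinarith
  have h2 : u ^ 2 * (1 + 2 * (u * t) / 3 + (u * t) ^ 2 / 3) ≤ u ^ 2 * (10942 / 10000) :=
    mul_le_mul_of_nonneg_left h1 (sq_nonneg u)
  have h3 : 0 ≤ (σ - v) ^ 2 - u ^ 2 * (10942 / 10000) := by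
    nlinarith
  have h6 : σ * t * ((σ * t - v * t) ^ 2 -
      (u * t) ^ 2 * (1 + 2 * (u * t) / 3 + (u * t) ^ 2 / 3)) =
      σ * t ^ 2 * t * ((σ - v) ^ 2 - u ^ 2 * (1 + 2 * (u * t) / 3 + (u * t) ^ 2 / 3)) := by ring
  rw [h6]
  have hp : 0 ≤ σ * t ^ 2 * t := by
    have : 0 < σ := by linarith
    positivity
  exact mul_nonneg hp (by linarith)

private theorem J0a_D5 {t σ v l : ℝ} (ht : 0 < t) (ht8 : t ≤ 1 / 8)
    (hv1 : v ≤ 53 / 50) (hl : 0 < l) :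
    1 / 3 * (435 / 100 * ((σ * t) ^ 2 * (l * (v * t)))) ≤ 241 / 10000 * σ ^ 2 * (l * t) := by
  have h1 : t ^ 2 ≤ 1 / 64 := by nlinarith
  have h2 : v * t ^ 2 ≤ 53 / 50 * (1 / 64) := mul_le_mul hv1 h1 (sq_nonneg t) (by norm_num)
  have h3 : 0 ≤ σ ^ 2 * (l * t) := by positivity
  have h4 := mul_le_mul_of_nonneg_left h2 h3
  have h5 : 1 / 3 * (435 / 100 * ((σ * t) ^ 2 * (l * (v * t)))) =
      145 / 100 * (σ ^ 2 * (l * t) * (v * t ^ 2)) := by ring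
  rw [h5]
  nlinarith [h4]

private theorem J0a_D6P {t σ b x l : ℝ} (ht : 0 < t) (ht8 : t ≤ 1 / 8) (hl : 0 < l)
    (hs : σ * t ^ 2 ≤ 35 / 43 * l) (hb : 0 ≤ b) (hx : 0 ≤ x) (hbx : b + x = 2 * (σ * t)) :
    b ^ 5 / 120 + x ^ 5 / 120 ≤ 34 / 10000 * σ ^ 4 * (l * t) := by
  have h1 : 0 ≤ 5 * b ^ 4 * x + 10 * b ^ 3 * x ^ 2 + 10 * b ^ 2 * x ^ 3 + 5 * b * x ^ 4 := by
    positivity
  have h2 : (b + x) ^ 5 = b ^ 5 + x ^ 5 +
      (5 * b ^ 4 * x + 10 * b ^ 3 * x ^ 2 + 10 * b ^ 2 * x ^ 3 + 5 * b * x ^ 4) := by ring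
  rw [hbx] at h2
  have h3 : t ^ 2 ≤ 1 / 64 := by nlinarith
  have h4 : σ ^ 4 * t ^ 3 * (σ * t ^ 2) ≤ σ ^ 4 * t ^ 3 * (35 / 43 * l) :=
    mul_le_mul_of_nonneg_left hs (by positivity)
  have h5 : σ ^ 4 * (l * t) * t ^ 2 ≤ σ ^ 4 * (l * t) * (1 / 64) :=
    mul_le_mul_of_nonneg_left h3 (by positivity)
  have h6 : 0 ≤ σ ^ 4 * (l * t) := by positivity
  have h7 : (2 * (σ * t)) ^ 5 = 32 * (σ ^ 4 * t ^ 3 * (σ * t ^ 2)) := by ring
  have h8 : σ ^ 4 * t ^ 3 * (35 / 43 * l) = 35 / 43 * (σ ^ 4 * (l * t) * t ^ 2) := by ring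
  nlinarith [h1, h2, h4, h5, h6, h7, h8]

private theorem J0a_D6N {t σ x l : ℝ} (ht : 0 < t) (ht8 : t ≤ 1 / 8) (hl : 0 < l)
    (hs : σ * t ^ 2 ≤ 35 / 43 * l) (hx : 0 ≤ x) (hx1 : x ≤ 193 / 70 * (σ * t)) :
    x ^ 5 / 120 ≤ 169 / 10000 * σ ^ 4 * (l * t) := by
  have h2 : x ^ 5 ≤ (193 / 70 * (σ * t)) ^ 5 := pow_le_pow_left₀ hx hx1 5
  have h3 : t ^ 2 ≤ 1 / 64 := by nlinarith
  have h4 : σ ^ 4 * t ^ 3 * (σ * t ^ 2) ≤ σ ^ 4 * t ^ 3 * (35 / 43 * l) :=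
    mul_le_mul_of_nonneg_left hs (by positivity)
  have h5 : σ ^ 4 * (l * t) * t ^ 2 ≤ σ ^ 4 * (l * t) * (1 / 64) :=
    mul_le_mul_of_nonneg_left h3 (by positivity)
  have h6 : 0 ≤ σ ^ 4 * (l * t) := by positivity
  have h7 : (193 / 70 * (σ * t)) ^ 5 = (193 / 70) ^ 5 * (σ ^ 4 * t ^ 3 * (σ * t ^ 2)) := by ring
  have h8 : σ ^ 4 * t ^ 3 * (35 / 43 * l) = 35 / 43 * (σ ^ 4 * (l * t) * t ^ 2) := by ring
  rw [h7] at h2
  nlinarith [h2, h4, h5, h6, h8]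

private theorem J0a_D7P {t σ x l : ℝ} (ht : 0 < t) (ht8 : t ≤ 1 / 8) (hl : 0 < l)
    (hσ : 0 < σ) (hx : 0 ≤ x) (hx1 : x ≤ 2 * (σ * t)) :
    l * x ^ 3 / 3 ≤ σ ^ 3 / 24 * (l * t) := by
  have h2 : x ^ 3 ≤ (2 * (σ * t)) ^ 3 := pow_le_pow_left₀ hx hx1 3
  have h3 : t ^ 2 ≤ 1 / 64 := by nlinarith
  have h5 : σ ^ 3 * (l * t) * t ^ 2 ≤ σ ^ 3 * (l * t) * (1 / 64) :=
    mul_le_mul_of_nonneg_left h3 (by positivity)
  have h6 := mul_le_mul_of_nonneg_left h2 hl.le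
  have h7 : l * (2 * (σ * t)) ^ 3 = 8 * (σ ^ 3 * (l * t) * t ^ 2) := by ring
  rw [h7] at h6
  linarith [h5, h6]

private theorem J0a_D7N {t σ x l : ℝ} (ht : 0 < t) (ht8 : t ≤ 1 / 8) (hl : 0 < l)
    (hσ : 0 < σ) (hx : 0 ≤ x) (hx1 : x ≤ 193 / 70 * (σ * t)) :
    l * x ^ 3 / 3 ≤ 1092 / 10000 * σ ^ 3 * (l * t) := by
  have h2 : x ^ 3 ≤ (193 / 70 * (σ * t)) ^ 3 := pow_le_pow_left₀ hx hx1 3
  have h3 : t ^ 2 ≤ 1 / 64 := by nlinarith
  have h5 : σ ^ 3 * (l * t) * t ^ 2 ≤ σ ^ 3 * (l * t) * (1 / 64) :=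
    mul_le_mul_of_nonneg_left h3 (by positivity)
  have h6 := mul_le_mul_of_nonneg_left h2 hl.le
  have h7 : l * (193 / 70 * (σ * t)) ^ 3 = (193 / 70) ^ 3 * (σ ^ 3 * (l * t) * t ^ 2) := by ring
  rw [h7] at h6
  have h8 : 0 ≤ σ ^ 3 * (l * t) := by positivity
  nlinarith [h5, h6, h8]

private theorem J0a_polyP {t σ u v l : ℝ} (ht : 0 < t) (ht8 : t ≤ 1 / 8) (hσ : 7 / 5 ≤ σ)
    (hσ1 : σ ≤ 22 / 7) (hv : 0 ≤ v) (huv : u ^ 2 + v ^ 2 ≤ (53 / 50) ^ 2) (hl : 0 < l)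
    (hl1 : l ≤ 17 / 80) (hs : σ * t ^ 2 ≤ 35 / 43 * l) :
    v * t - (v * t) ^ 3 / 6 + (v * t) ^ 5 / 120 +
      ((2 * (σ * t) - v * t) - (2 * (σ * t) - v * t) ^ 3 / 6 + (2 * (σ * t) - v * t) ^ 5 / 120 -
        2 * l * (2 * (σ * t) - v * t) + 2 * l ^ 2 * (2 * (σ * t) - v * t) +
        l * (2 * (σ * t) - v * t) ^ 3 / 3) +
      7 / 10 * l * (1 - 17 / 20 * l) *
        (27 / 35 * t + 7 / 2 * (v * t) + 5 / 4 * (453 / 400 * (σ * t) + l * (v * t))) +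
      1 / 3 * (12826 / 10000 * (σ * t) ^ 3 + 435 / 100 * ((σ * t) ^ 2 * (l * (v * t)))) <
    2 * (1 + u * t + (u * t) ^ 2 / 2 + (u * t) ^ 3 / 6) *
      (σ * t * (1 - u * t) + l * (v * t)) := by
  have hv2 : v ^ 2 ≤ (53 / 50) ^ 2 := by nlinarith [sq_nonneg u]
  have hv1 : v ≤ 53 / 50 := by nlinarith
  have hσ0 : 0 < σ := by linarith
  have hb : 0 ≤ v * t := mul_nonneg hv ht.le
  have hx : 0 ≤ 2 * (σ * t) - v * t := by
    have : 0 ≤ (2 * σ - v) * t := mul_nonneg (by linarith) ht.le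
    linarith
  have d1 := J0a_D1P ht ht8 hσ huv hl hs
  have d2 := J0a_D2 ht ht8 huv hl
  have d4 := J0a_D4 (σ := σ) ht hl hs
  have d5 := J0a_D5 (σ := σ) ht ht8 hv1 hl
  have d6 := J0a_D6P ht ht8 hl hs hb hx (by ring)
  have d7 := J0a_D7P (x := 2 * (σ * t) - v * t) ht ht8 hl hσ0 hx (by linarith)
  have hf := J0a_finP hσ hσ1 hv1 hl.le hl1
  have hlt : 0 < l * t := mul_pos hl ht
  have hF := mul_pos hlt hf
  have key : 2 * (1 + u * t + (u * t) ^ 2 / 2 + (u * t) ^ 3 / 6) *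
      (σ * t * (1 - u * t) + l * (v * t)) -
      (v * t - (v * t) ^ 3 / 6 + (v * t) ^ 5 / 120 +
      ((2 * (σ * t) - v * t) - (2 * (σ * t) - v * t) ^ 3 / 6 + (2 * (σ * t) - v * t) ^ 5 / 120 -
        2 * l * (2 * (σ * t) - v * t) + 2 * l ^ 2 * (2 * (σ * t) - v * t) +
        l * (2 * (σ * t) - v * t) ^ 3 / 3) +
      7 / 10 * l * (1 - 17 / 20 * l) *
        (27 / 35 * t + 7 / 2 * (v * t) + 5 / 4 * (453 / 400 * (σ * t) + l * (v * t))) +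
      1 / 3 * (12826 / 10000 * (σ * t) ^ 3 + 435 / 100 * ((σ * t) ^ 2 * (l * (v * t))))) =
      σ * t * ((σ * t - v * t) ^ 2 -
        (u * t) ^ 2 * (1 + 2 * (u * t) / 3 + (u * t) ^ 2 / 3)) +
      2 * l * (v * t) * (1 + u * t + (u * t) ^ 2 / 2 + (u * t) ^ 3 / 6 - 1) +
      4 * l * (σ * t) - 2 * l ^ 2 * (2 * (σ * t) - v * t) -
      (12826 / 30000 - 1 / 3) * (σ * t) ^ 3 -
      1 / 3 * (435 / 100 * ((σ * t) ^ 2 * (l * (v * t)))) -
      ((v * t) ^ 5 / 120 + (2 * (σ * t) - v * t) ^ 5 / 120) -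
      l * (2 * (σ * t) - v * t) ^ 3 / 3 -
      7 / 10 * l * (1 - 17 / 20 * l) *
        (27 / 35 * t + 7 / 2 * (v * t) + 5 / 4 * (453 / 400 * (σ * t) + l * (v * t))) := by
    ring
  have hF2 : l * t * (4 * σ - 2 * l * (2 * σ - v) - 171 / 1000 - 151 / 1000 -
      767 / 10000 * σ ^ 2 - 241 / 10000 * σ ^ 2 - 34 / 10000 * σ ^ 4 - σ ^ 3 / 24 -
      7 / 10 * (1 - 17 / 20 * l) * (27 / 35 + 7 / 2 * v + 5 / 4 * (453 / 400 * σ + l * v))) =
      -(171 / 1000 * (l * t)) - 151 / 1000 * (l * t) + 4 * l * (σ * t) -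
      2 * l ^ 2 * (2 * (σ * t) - v * t) - 767 / 10000 * σ ^ 2 * (l * t) -
      241 / 10000 * σ ^ 2 * (l * t) - 34 / 10000 * σ ^ 4 * (l * t) - σ ^ 3 / 24 * (l * t) -
      7 / 10 * l * (1 - 17 / 20 * l) *
        (27 / 35 * t + 7 / 2 * (v * t) + 5 / 4 * (453 / 400 * (σ * t) + l * (v * t))) := by
    ring
  rw [hF2] at hF
  linarith

private theorem J0a_polyN {t σ u v l : ℝ} (ht : 0 < t) (ht8 : t ≤ 1 / 8) (hσ : 7 / 5 ≤ σ)
    (hσ1 : σ ≤ 22 / 7) (hv : v ≤ 0) (huv : u ^ 2 + v ^ 2 ≤ (53 / 50) ^ 2) (hl : 0 < l)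
    (hl1 : l ≤ 17 / 80) (hs : σ * t ^ 2 ≤ 35 / 43 * l) :
    v * t - (v * t) ^ 3 / 6 +
      ((2 * (σ * t) - v * t) - (2 * (σ * t) - v * t) ^ 3 / 6 + (2 * (σ * t) - v * t) ^ 5 / 120 -
        2 * l * (2 * (σ * t) - v * t) + 2 * l ^ 2 * (2 * (σ * t) - v * t) +
        l * (2 * (σ * t) - v * t) ^ 3 / 3) +
      7 / 10 * l * (1 - 17 / 20 * l) * (27 / 35 * t + 5 / 4 * (453 / 400 * (σ * t))) +
      1 / 3 * (12826 / 10000 * (σ * t) ^ 3) <
    2 * (1 + u * t + (u * t) ^ 2 / 2 + (u * t) ^ 3 / 6) *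
      (σ * t * (1 - u * t) + l * (v * t)) := by
  have hv2 : v ^ 2 ≤ (53 / 50) ^ 2 := by nlinarith [sq_nonneg u]
  have hv1 : -(53 / 50) ≤ v := by nlinarith
  have hσ0 : 0 < σ := by linarith
  have hx : 0 ≤ 2 * (σ * t) - v * t := by
    have : 0 ≤ (2 * σ - v) * t := mul_nonneg (by linarith) ht.le
    linarith
  have hx1 : 2 * (σ * t) - v * t ≤ 193 / 70 * (σ * t) := by
    have : 0 ≤ (53 / 70 * σ + v) * t := mul_nonneg (by linarith) ht.le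
    linarith
  have d1 := J0a_D1N ht ht8 hσ huv hv
  have d2 := J0a_D2 ht ht8 huv hl
  have d4 := J0a_D4 (σ := σ) ht hl hs
  have d6 := J0a_D6N ht ht8 hl hs hx hx1
  have d7 := J0a_D7N (x := 2 * (σ * t) - v * t) ht ht8 hl hσ0 hx hx1
  have hf := J0a_finN hσ hσ1 hv1 hl.le hl1
  have hlt : 0 < l * t := mul_pos hl ht
  have hF := mul_pos hlt hf
  have key : 2 * (1 + u * t + (u * t) ^ 2 / 2 + (u * t) ^ 3 / 6) *
      (σ * t * (1 - u * t) + l * (v * t)) -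
      (v * t - (v * t) ^ 3 / 6 +
      ((2 * (σ * t) - v * t) - (2 * (σ * t) - v * t) ^ 3 / 6 + (2 * (σ * t) - v * t) ^ 5 / 120 -
        2 * l * (2 * (σ * t) - v * t) + 2 * l ^ 2 * (2 * (σ * t) - v * t) +
        l * (2 * (σ * t) - v * t) ^ 3 / 3) +
      7 / 10 * l * (1 - 17 / 20 * l) * (27 / 35 * t + 5 / 4 * (453 / 400 * (σ * t))) +
      1 / 3 * (12826 / 10000 * (σ * t) ^ 3)) =
      σ * t * ((σ * t - v * t) ^ 2 -
        (u * t) ^ 2 * (1 + 2 * (u * t) / 3 + (u * t) ^ 2 / 3)) +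
      2 * l * (v * t) * (1 + u * t + (u * t) ^ 2 / 2 + (u * t) ^ 3 / 6 - 1) +
      4 * l * (σ * t) - 2 * l ^ 2 * (2 * (σ * t) - v * t) -
      (12826 / 30000 - 1 / 3) * (σ * t) ^ 3 -
      (2 * (σ * t) - v * t) ^ 5 / 120 -
      l * (2 * (σ * t) - v * t) ^ 3 / 3 -
      7 / 10 * l * (1 - 17 / 20 * l) * (27 / 35 * t + 5 / 4 * (453 / 400 * (σ * t))) := by
    ring
  have hF2 : l * t * (4 * σ - 2 * l * (2 * σ - v) - 151 / 1000 - 767 / 10000 * σ ^ 2 -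
      169 / 10000 * σ ^ 4 - 1092 / 10000 * σ ^ 3 -
      7 / 10 * (1 - 17 / 20 * l) * (27 / 35 + 5 / 4 * (453 / 400 * σ))) =
      -(151 / 1000 * (l * t)) + 4 * l * (σ * t) -
      2 * l ^ 2 * (2 * (σ * t) - v * t) - 767 / 10000 * σ ^ 2 * (l * t) -
      169 / 10000 * σ ^ 4 * (l * t) - 1092 / 10000 * σ ^ 3 * (l * t) -
      7 / 10 * l * (1 - 17 / 20 * l) * (27 / 35 * t + 5 / 4 * (453 / 400 * (σ * t))) := by
    ring
  rw [hF2] at hF
  linarith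

private theorem J0a_Esin {x l : ℝ} (hx : 0 ≤ x) (hx1 : x ≤ 1) (hl : 0 < l) (hl1 : l ≤ 17 / 80) :
    Real.exp (-(2 * l)) * Real.sin x ≤
      x - x ^ 3 / 6 + x ^ 5 / 120 - 2 * l * x + 2 * l ^ 2 * x + l * x ^ 3 / 3 := by
  have h1 := J0a_sin5 hx
  have h2 := J0a_exp2 (s := 2 * l) (by linarith)
  have hE : 0 < Real.exp (-(2 * l)) := Real.exp_pos _
  have hx2 : x ^ 2 ≤ 1 := by nlinarith
  have hx3 : x ^ 3 ≤ x := by
    have := mul_le_mul_of_nonneg_left hx2 hx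
    nlinarith
  have hS0 : 0 ≤ x - x ^ 3 / 6 := by linarith
  have h5 : 0 ≤ x ^ 5 := pow_nonneg hx 5
  have h3 : Real.exp (-(2 * l)) * Real.sin x ≤
      Real.exp (-(2 * l)) * (x - x ^ 3 / 6 + x ^ 5 / 120) :=
    mul_le_mul_of_nonneg_left h1 hE.le
  have h4 : Real.exp (-(2 * l)) * (x - x ^ 3 / 6 + x ^ 5 / 120) ≤
      (1 - 2 * l + (2 * l) ^ 2 / 2) * (x - x ^ 3 / 6 + x ^ 5 / 120) :=
    mul_le_mul_of_nonneg_right h2 (by linarith)
  have h6 : (1 - 2 * l + (2 * l) ^ 2 / 2) * (x - x ^ 3 / 6 + x ^ 5 / 120) =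
      x - x ^ 3 / 6 + x ^ 5 / 120 - 2 * l * x + 2 * l ^ 2 * x + l * x ^ 3 / 3
      - l ^ 2 * x ^ 3 / 3 - 2 * l * (1 - l) * (x ^ 5 / 120) := by ring
  have h7 : 0 ≤ l ^ 2 * x ^ 3 / 3 := by positivity
  have h8 : 0 ≤ 2 * l * (1 - l) * (x ^ 5 / 120) :=
    mul_nonneg (mul_nonneg (by linarith) (by linarith)) (by linarith)
  linarith

private theorem J0a_A {A l : ℝ} (hl : 0 < l) (hl1 : l ≤ 17 / 80)
    (hA1 : A ≤ 7 / 20 * (1 - Real.exp (-(2 * l)))) : A ≤ 7 / 10 * l * (1 - 17 / 20 * l) := by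
  have h1 := J0a_exp3 (s := 2 * l) (by linarith)
  have h2 : 0 ≤ l ^ 2 * (17 / 80 - l) := mul_nonneg (sq_nonneg l) (by linarith)
  nlinarith [h1, h2, sq_nonneg l]

private theorem J0a_esin {a y : ℝ} (ha : -(53 / 400) ≤ a) (hy : 0 ≤ y) (hy1 : y ≤ 1) :
    2 * (1 + a + a ^ 2 / 2 + a ^ 3 / 6) * y -
      1 / 3 * ((1 + a + a ^ 2 / 2 + a ^ 3 / 6) * y ^ 3) ≤ 2 * (Real.exp a * Real.sin y) := by
  have h1 := J0a_exp3' a
  have h2 := J0a_sin3 hy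
  have hE0 : 0 ≤ 1 + a + a ^ 2 / 2 + a ^ 3 / 6 := by
    have h1 : 0 ≤ a ^ 2 * (1 / 2 + a / 6) := mul_nonneg (sq_nonneg a) (by linarith)
    have h2 : 1 + a + a ^ 2 / 2 + a ^ 3 / 6 = 1 + a + a ^ 2 * (1 / 2 + a / 6) := by ring
    rw [h2]
    linarith
  have hy2 : y ^ 2 ≤ 1 := by nlinarith
  have hy3 : y ^ 3 ≤ y := by
    have := mul_le_mul_of_nonneg_left hy2 hy
    nlinarith
  have hS0 : 0 ≤ y - y ^ 3 / 6 := by linarith
  have h3 : (1 + a + a ^ 2 / 2 + a ^ 3 / 6) * (y - y ^ 3 / 6) ≤ Real.exp a * Real.sin y :=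
    mul_le_mul h1 h2 hS0 (Real.exp_pos a).le
  linarith

/-- (LI0): `σ_2 ≤ σ_*`; margin `1.15 L t²` (numerics) -/
theorem lam_im_pos {t L σ P u v A T : ℝ} (ht : 0 < t) (ht8 : t ≤ 1 / 8) (hL1 : L ≤ 17 / 10)
    (hσ : 7 / 5 ≤ σ) (hσ1 : σ ≤ 22 / 7) (hP : P ≤ 11 / 7 - σ)
    (hLσ : σ * (2 * σ - 11 / 7) * t ≤ L) (huv : u ^ 2 + v ^ 2 ≤ (53 / 50) ^ 2)
    (hA : 0 ≤ A) (hA1 : A ≤ 7 / 20 * (1 - Real.exp (-(2 * (L * t))))) (hT : 0 ≤ T)
    (hT1 : T ≤ 5 / 4) :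
    Real.sin (v * t) + Real.exp (-(2 * (L * t))) * Real.sin (2 * (σ * t) - v * t) +
        A * (max 0 (2 * (P * t) + v * t) + T * max 0 (2 * (P * t) + 2 * (v * t))) <
      Real.sin (σ * t * (1 - u * t) + L * t * (v * t)) * (2 * Real.exp (u * t) - A * T) := by
  have hσ0 : 0 < σ := by linarith
  have hst : 0 < σ * t := mul_pos hσ0 ht
  -- `L` and `l = L t`
  have hL0 : 43 / 35 * (σ * t) ≤ L := by
    have h1 : 0 ≤ σ * t * (2 * σ - 11 / 7 - 43 / 35) := mul_nonneg hst.le (by linarith)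
    linarith
  have hs : σ * t ^ 2 ≤ 35 / 43 * (L * t) := by
    have := mul_le_mul_of_nonneg_right hL0 ht.le
    linarith
  have hLpos : 0 < L := by linarith
  have hl : 0 < L * t := mul_pos hLpos ht
  have hl1 : L * t ≤ 17 / 80 := by
    calc L * t ≤ 17 / 10 * (1 / 8) := mul_le_mul hL1 ht8 ht.le (by norm_num)
      _ = 17 / 80 := by norm_num
  have hu2 : u ^ 2 ≤ (53 / 50) ^ 2 := by nlinarith [sq_nonneg v]
  have hu : |u| ≤ 53 / 50 := abs_le_of_sq_le_sq hu2 (by norm_num)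
  have hut : |u * t| ≤ 53 / 400 := by
    rw [abs_mul, abs_of_pos ht]
    calc |u| * t ≤ 53 / 50 * (1 / 8) := mul_le_mul hu ht8 ht.le (by norm_num)
      _ = 53 / 400 := by norm_num
  obtain ⟨hut0, hut1⟩ := abs_le.mp hut
  have hv2 : v ^ 2 ≤ (53 / 50) ^ 2 := by nlinarith [sq_nonneg u]
  have hv : |v| ≤ 53 / 50 := abs_le_of_sq_le_sq hv2 (by norm_num)
  obtain ⟨hv0, hv1⟩ := abs_le.mp hv
  have hst1 : σ * t ≤ 22 / 56 := by
    calc σ * t ≤ 22 / 7 * (1 / 8) := mul_le_mul hσ1 ht8 ht.le (by norm_num)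
      _ = 22 / 56 := by norm_num
  have hb1 : v * t ≤ 53 / 70 * (σ * t) := by
    have : 0 ≤ (53 / 70 * σ - v) * t := mul_nonneg (by linarith) ht.le
    linarith
  have hb0 : -(53 / 70 * (σ * t)) ≤ v * t := by
    have : 0 ≤ (53 / 70 * σ + v) * t := mul_nonneg (by linarith) ht.le
    linarith
  have hA2 := J0a_A hl hl1 hA1
  have hc1 : L * t * (v * t) ≤ 13 / 80 * (σ * t) := by
    by_cases hb : 0 ≤ v * t
    · have h1 : L * t * (v * t) ≤ 17 / 80 * (53 / 70 * (σ * t)) :=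
        mul_le_mul hl1 hb1 hb (by norm_num)
      linarith
    · have h1 : L * t * (v * t) ≤ 0 := mul_nonpos_of_nonneg_of_nonpos hl.le (by linarith)
      linarith
  have hc0 : -(13 / 80 * (σ * t)) ≤ L * t * (v * t) := by
    have h1 : L * t * (-(v * t)) ≤ 17 / 80 * (53 / 70 * (σ * t)) := by
      by_cases hb : 0 ≤ -(v * t)
      · exact mul_le_mul hl1 (by linarith) hb (by norm_num)
      · have h1 : L * t * (-(v * t)) ≤ 0 := mul_nonpos_of_nonneg_of_nonpos hl.le (by linarith)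
        linarith
    linarith
  have hp0 : σ * t * (347 / 400) ≤ σ * t * (1 - u * t) :=
    mul_le_mul_of_nonneg_left (by linarith) hst.le
  have hp1 : σ * t * (1 - u * t) ≤ σ * t * (453 / 400) :=
    mul_le_mul_of_nonneg_left (by linarith) hst.le
  have hy0 : 0 < σ * t * (1 - u * t) + L * t * (v * t) := by linarith
  have hy1 : σ * t * (1 - u * t) + L * t * (v * t) ≤ 1 := by linarith
  have hsy : Real.sin (σ * t * (1 - u * t) + L * t * (v * t)) ≤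
      σ * t * (1 - u * t) + L * t * (v * t) := Real.sin_le hy0.le
  have hesin := J0a_esin hut0 hy0.le hy1
  have hx : 0 ≤ 2 * (σ * t) - v * t := by linarith
  have hx1 : 2 * (σ * t) - v * t ≤ 1 := by
    have h1 : (2 * σ - v) * t ≤ (2 * (22 / 7) + 53 / 50) * (1 / 8) :=
      mul_le_mul (by linarith) ht8 ht.le (by norm_num)
    linarith
  have hEs := J0a_Esin hx hx1 hl hl1
  have hPt : P * t ≤ 6 / 35 * t := mul_le_mul_of_nonneg_right (by linarith) ht.le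
  have hAT : A * T * Real.sin (σ * t * (1 - u * t) + L * t * (v * t)) ≤
      A * (T * (σ * t * (1 - u * t) + L * t * (v * t))) := by
    rw [mul_assoc]
    exact mul_le_mul_of_nonneg_left (mul_le_mul_of_nonneg_left hsy hT) hA
  rcases le_total 0 v with hv' | hv'
  · have hb : 0 ≤ v * t := mul_nonneg hv' ht.le
    have hM1 : max 0 (2 * (P * t) + v * t) ≤ 12 / 35 * t + v * t :=
      max_le (by positivity) (by linarith only [hPt])
    have hM2 : max 0 (2 * (P * t) + 2 * (v * t)) ≤ 12 / 35 * t + 2 * (v * t) :=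
      max_le (by positivity) (by linarith only [hPt])
    have hTM : T * max 0 (2 * (P * t) + 2 * (v * t)) ≤ 5 / 4 * (12 / 35 * t + 2 * (v * t)) :=
      mul_le_mul hT1 hM2 (le_max_left _ _) (by norm_num)
    have hTy : T * (σ * t * (1 - u * t) + L * t * (v * t)) ≤
        5 / 4 * (453 / 400 * (σ * t) + L * t * (v * t)) :=
      mul_le_mul hT1 (by linarith only [hp1]) hy0.le (by norm_num)
    have hbr : A * (max 0 (2 * (P * t) + v * t) + T * max 0 (2 * (P * t) + 2 * (v * t)) +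
        T * (σ * t * (1 - u * t) + L * t * (v * t))) ≤
        7 / 10 * (L * t) * (1 - 17 / 20 * (L * t)) * (27 / 35 * t + 7 / 2 * (v * t) +
          5 / 4 * (453 / 400 * (σ * t) + L * t * (v * t))) := by
      have hpos : 0 ≤ max 0 (2 * (P * t) + v * t) + T * max 0 (2 * (P * t) + 2 * (v * t)) +
        T * (σ * t * (1 - u * t) + L * t * (v * t)) :=
        add_nonneg (add_nonneg (le_max_left _ _) (mul_nonneg hT (le_max_left _ _)))
          (mul_nonneg hT hy0.le)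
      exact mul_le_mul hA2 (by linarith only [hM1, hTM, hTy]) hpos
        (mul_nonneg (by linarith only [hl]) (by linarith only [hl1]))
    have hsb := J0a_sin5 hb
    have hcb : 0 ≤ L * t * (v * t) := mul_nonneg hl.le hb
    have hcube := J0a_cube hst hut0 hut1 hcb hc1 hy0.le le_rfl
    have hpoly := J0a_polyP ht ht8 hσ hσ1 hv' huv hl hl1 hs
    linarith only [hpoly, hcube, hsb, hbr, hAT, hEs, hesin]
  · have hb : v * t ≤ 0 := mul_nonpos_of_nonpos_of_nonneg hv' ht.le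
    have hM1 : max 0 (2 * (P * t) + v * t) ≤ 12 / 35 * t :=
      max_le (by positivity) (by linarith only [hPt, hb])
    have hM2 : max 0 (2 * (P * t) + 2 * (v * t)) ≤ 12 / 35 * t :=
      max_le (by positivity) (by linarith only [hPt, hb])
    have hTM : T * max 0 (2 * (P * t) + 2 * (v * t)) ≤ 5 / 4 * (12 / 35 * t) :=
      mul_le_mul hT1 hM2 (le_max_left _ _) (by norm_num)
    have hcb : L * t * (v * t) ≤ 0 := mul_nonpos_of_nonneg_of_nonpos hl.le hb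
    have hTy : T * (σ * t * (1 - u * t) + L * t * (v * t)) ≤
        5 / 4 * (453 / 400 * (σ * t)) :=
      mul_le_mul hT1 (by linarith only [hp1, hcb]) hy0.le (by norm_num)
    have hbr : A * (max 0 (2 * (P * t) + v * t) + T * max 0 (2 * (P * t) + 2 * (v * t)) +
        T * (σ * t * (1 - u * t) + L * t * (v * t))) ≤
        7 / 10 * (L * t) * (1 - 17 / 20 * (L * t)) * (27 / 35 * t +
          5 / 4 * (453 / 400 * (σ * t))) := by
      have hpos : 0 ≤ max 0 (2 * (P * t) + v * t) + T * max 0 (2 * (P * t) + 2 * (v * t)) +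
        T * (σ * t * (1 - u * t) + L * t * (v * t)) :=
        add_nonneg (add_nonneg (le_max_left _ _) (mul_nonneg hT (le_max_left _ _)))
          (mul_nonneg hT hy0.le)
      exact mul_le_mul hA2 (by linarith only [hM1, hTM, hTy]) hpos
        (mul_nonneg (by linarith only [hl]) (by linarith only [hl1]))
    have hsb : Real.sin (v * t) ≤ v * t - (v * t) ^ 3 / 6 := by
      have h1 := J0a_sin3 (x := -(v * t)) (by linarith only [hb])
      rw [Real.sin_neg] at h1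
      have h2 : (-(v * t)) ^ 3 = -(v * t) ^ 3 := by ring
      rw [h2] at h1
      linarith only [h1]
    have hcube := J0a_cube (c := 0) hst hut0 hut1 le_rfl (by linarith only [hst]) hy0.le
      (by linarith only [hcb])
    have hpoly := J0a_polyN ht ht8 hσ hσ1 hv' huv hl hl1 hs
    linarith only [hpoly, hcube, hsb, hbr, hAT, hEs, hesin]

end EQS
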