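import Mathlib

/-! Pure real lemma (LI1) for block (III), `σ < π`. -/

set_option autoImplicit false

namespace EQS

private theorem abs_le_of_sq {u v : ℝ} (h : u ^ 2 + v ^ 2 ≤ (53 / 50) ^ 2) :
    |u| ≤ 53 / 50 := by
  apply abs_le_of_sq_le_sq _ (by norm_num)
  nlinarith [sq_nonneg v]

private theorem sin_low {y m : ℝ} (hm : 0 < m) (hm1 : m ≤ 1 / 2) (hy : m ≤ y) (hy1 : y ≤ 1) :
    m * (1 - m ^ 2 / 4) ≤ Real.sin y := by
  have h1 : Real.sin m ≤ Real.sin y :=
    Real.sin_le_sin_of_le_of_le_pi_div_two (by linarith [Real.pi_pos])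
      (by linarith [Real.pi_gt_three]) hy
  have h2 := Real.sin_gt_sub_cube hm
  have h3 : 0 < m ^ 3 := by positivity
  nlinarith [h1, h2, h3]

/-- (LI1): `σ_2 ≥ - σ / 4`; margin `.7 t` -/
theorem lam_im_le {t L σ P u v A T : ℝ} (ht : 0 < t) (ht8 : t ≤ 1 / 8) (hL1 : L ≤ 17 / 10)
    (hσ : 7 / 5 ≤ σ) (hσ1 : σ ≤ 22 / 7) (hP : |P| ≤ 11 / 7)
    (hLσ : σ * (2 * σ - 11 / 7) * t ≤ L) (huv : u ^ 2 + v ^ 2 ≤ (53 / 50) ^ 2)
    (hA : 0 ≤ A) (hA1 : A ≤ 7 / 20 * (1 - Real.exp (-(2 * (L * t))))) (hT : 0 ≤ T)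
    (hT1 : T ≤ 5 / 4) :
    A * (|2 * (P * t) + v * t| + T * |2 * (P * t) + 2 * (v * t)|) <
      Real.sin (v * t) + Real.exp (-(2 * (L * t))) * Real.sin (2 * (σ * t) - v * t) +
        (2 * Real.exp (u * t) - A * T) * Real.sin (σ * t / 4) := by
  have hu := abs_le.mp (abs_le_of_sq huv)
  have hv := abs_le.mp (abs_le_of_sq (u := v) (v := u) (by linarith))
  have hP' := abs_le.mp hP
  have hL0 : 0 < L := by
    have : 0 < σ * (2 * σ - 11 / 7) * t := by
      apply mul_pos (mul_pos (by linarith) (by linarith)) ht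
    linarith
  have hLt0 : 0 < L * t := mul_pos hL0 ht
  have hLt1 : L * t ≤ 17 / 80 := by nlinarith
  have hE : Real.exp (-(2 * (L * t))) = Real.exp (-(L * t)) ^ 2 := by
    rw [← Real.exp_nat_mul]
    congr 1
    push_cast
    ring
  have hE0 : 1 - L * t ≤ Real.exp (-(L * t)) := by
    have := Real.add_one_le_exp (-(L * t))
    linarith
  have hE1 : (31 / 50 : ℝ) ≤ Real.exp (-(2 * (L * t))) := by
    rw [hE]
    nlinarith
  have hE2 : Real.exp (-(2 * (L * t))) ≤ 1 := by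
    apply Real.exp_le_one_iff.mpr
    linarith
  generalize Real.exp (-(2 * (L * t))) = E at *
  have hG0 : (1735 / 1000 : ℝ) ≤ 2 * Real.exp (u * t) := by
    have h1 := Real.add_one_le_exp (u * t)
    have h2 : -(53 / 400 : ℝ) ≤ u * t := by nlinarith [hu.1]
    linarith
  generalize Real.exp (u * t) = G at *
  -- the sines
  have hs1 : v * t - t / 200 ≤ Real.sin (v * t) := by
    rcases le_or_gt v 0 with hv0 | hv0
    · have h1 : -(v * t) ≥ 0 := by nlinarith
      have h2 := Real.sin_le h1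
      rw [Real.sin_neg] at h2
      linarith
    · have h1 : 0 < v * t := mul_pos hv0 ht
      have h2 : v * t ≤ 53 / 400 := by nlinarith [hv.2]
      have h3 := Real.sin_gt_sub_cube h1
      have h4 : (v * t) ^ 3 / 6 ≤ t / 200 := by
        have h5 : (v * t) ^ 2 ≤ (53 / 400) ^ 2 := by nlinarith
        have h6 : v * t ≤ 53 / 50 * t := by nlinarith [hv.2]
        have h7 : (v * t) ^ 3 = (v * t) ^ 2 * (v * t) := by ring
        rw [h7]
        have h8 : (v * t) ^ 2 * (v * t) ≤ (53 / 400) ^ 2 * (53 / 50 * t) :=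
          mul_le_mul h5 h6 h1.le (by positivity)
        nlinarith
      linarith
  have hs2 : 47 / 50 * ((14 / 5 - v) * t) ≤ Real.sin (2 * (σ * t) - v * t) := by
    have hm0 : 0 < (14 / 5 - v) * t := mul_pos (by linarith [hv.2]) ht
    have hm1 : (14 / 5 - v) * t ≤ 193 / 400 := by nlinarith [hv.1]
    have hy : (14 / 5 - v) * t ≤ 2 * (σ * t) - v * t := by nlinarith
    have hy1 : 2 * (σ * t) - v * t ≤ 1 := by nlinarith [hv.1, hv.2]
    have h1 := sin_low hm0 (by linarith) hy hy1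
    refine le_trans ?_ h1
    have h2 : ((14 / 5 - v) * t) ^ 2 ≤ (193 / 400) ^ 2 := by nlinarith
    nlinarith
  have hs3 : 349 / 1000 * t ≤ Real.sin (σ * t / 4) := by
    have hm0 : 0 < 7 / 20 * t := by linarith
    have h1 := sin_low (y := σ * t / 4) hm0 (by linarith) (by nlinarith) (by nlinarith)
    refine le_trans ?_ h1
    have h2 : (7 / 20 * t) ^ 2 ≤ (7 / 160) ^ 2 := by nlinarith
    nlinarith
  generalize Real.sin (v * t) = s1 at *
  generalize Real.sin (2 * (σ * t) - v * t) = s2 at *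
  generalize Real.sin (σ * t / 4) = s3 at *
  -- the left side
  have hX : |2 * (P * t) + v * t| ≤ (22 / 7 + 53 / 50) * t := by
    rw [abs_le]
    constructor <;> nlinarith [hP'.1, hP'.2, hv.1, hv.2]
  have hY : |2 * (P * t) + 2 * (v * t)| ≤ (22 / 7 + 53 / 25) * t := by
    rw [abs_le]
    constructor <;> nlinarith [hP'.1, hP'.2, hv.1, hv.2]
  have hY0 := abs_nonneg (2 * (P * t) + 2 * (v * t))
  generalize |2 * (P * t) + v * t| = X at *
  generalize |2 * (P * t) + 2 * (v * t)| = Y at *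
  have hXY : X + T * Y ≤ 1079 / 100 * t := by
    have h1 : T * Y ≤ 5 / 4 * ((22 / 7 + 53 / 25) * t) :=
      mul_le_mul hT1 hY hY0 (by norm_num)
    nlinarith
  have hLHS : A * (X + T * Y) ≤ 7 / 20 * (1 - E) * (1079 / 100 * t) := by
    calc A * (X + T * Y) ≤ A * (1079 / 100 * t) := mul_le_mul_of_nonneg_left hXY hA
      _ ≤ 7 / 20 * (1 - E) * (1079 / 100 * t) :=
        mul_le_mul_of_nonneg_right hA1 (by positivity)
  have hAT : A * T ≤ 7 / 16 * (1 - E) := by
    calc A * T ≤ 7 / 20 * (1 - E) * (5 / 4) := mul_le_mul hA1 hT1 hT (by linarith)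
      _ = 7 / 16 * (1 - E) := by ring
  have h3 : (1735 / 1000 - 7 / 16 * (1 - E)) * (349 / 1000 * t) ≤ (2 * G - A * T) * s3 := by
    apply mul_le_mul (by linarith) hs3 (by positivity)
    linarith
  have h2 : E * (47 / 50 * ((14 / 5 - v) * t)) ≤ E * s2 :=
    mul_le_mul_of_nonneg_left hs2 (by linarith)
  have key : 7 / 20 * (1 - E) * (1079 / 100) <
      v - 1 / 200 + E * (47 / 50 * (14 / 5 - v)) +
        (1735 / 1000 - 7 / 16 * (1 - E)) * (349 / 1000) := by
    nlinarith [hv.1, mul_nonneg (show (0 : ℝ) ≤ v + 53 / 50 by linarith [hv.1])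
      (show (0 : ℝ) ≤ 1 - 47 / 50 * E by linarith)]
  have key2 := mul_lt_mul_of_pos_right key ht
  nlinarith [key2]

end EQS
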