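import Mathlib
set_option autoImplicit false

/-! Pure real lemma (LR) of block (III), `j = 0`: `lam_r ≥ - .07 L³`. -/

namespace EQS

private theorem J0c_sinh {y : ℝ} (hy : y ≤ 3 / 10) :
    Real.sinh y ≤ y + 17 / 100 * (max y 0) ^ 3 := by
  rcases le_total y 0 with h | h
  · rw [max_eq_right h]
    have := Real.sinh_le_self_iff.mpr h
    linarith
  · rw [max_eq_left h]
    have h1 : |y| ≤ 1 := by rw [abs_of_nonneg h]; linarith
    have h2 : |-y| ≤ 1 := by rw [abs_neg]; exact h1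
    have e1 := (abs_le.mp (Real.exp_bound h1 (n := 5) (by norm_num))).2
    have e2 := (abs_le.mp (Real.exp_bound h2 (n := 5) (by norm_num))).1
    rw [abs_of_nonneg h] at e1
    rw [abs_neg, abs_of_nonneg h] at e2
    simp [Finset.sum_range_succ, Nat.factorial] at e1 e2
    rw [Real.sinh_eq]
    have h3 : y ^ 5 ≤ y ^ 3 * (9 / 100) := by
      have : y ^ 2 ≤ 9 / 100 := by nlinarith
      nlinarith [pow_nonneg h 3]
    have h4 : 0 ≤ y ^ 3 := pow_nonneg h 3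
    nlinarith

private theorem J0c_exp {z : ℝ} (hz : 0 ≤ z) (hz1 : z ≤ 1) :
    Real.exp (-z) ≤ 1 - z + z ^ 2 / 2 - z ^ 3 / 6 + 5 / 96 * z ^ 4 := by
  have h2 : |-z| ≤ 1 := by rw [abs_neg, abs_of_nonneg hz]; exact hz1
  have e2 := (abs_le.mp (Real.exp_bound h2 (n := 4) (by norm_num))).2
  rw [abs_neg, abs_of_nonneg hz] at e2
  simp [Finset.sum_range_succ, Nat.factorial] at e2
  nlinarith

private theorem J0c_cos {x : ℝ} (hx : 0 ≤ x) (hx1 : x ≤ 1) :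
    Real.cos x ≤ 1 - x ^ 2 / 2 + 5 / 96 * x ^ 4 := by
  have h2 : |x| ≤ 1 := by rw [abs_of_nonneg hx]; exact hx1
  have e2 := (abs_le.mp (Real.cos_bound h2)).2
  rw [abs_of_nonneg hx] at e2
  linarith

/-- the lower bound for the quadratic part -/
private noncomputable def J0cA (L σ : ℝ) : ℝ :=
  σ ^ 2 - L ^ 2 - 5 / 12288 * (2 * σ + 53 / 50) ^ 4 -
    L / 16 * (1 - 3 / 28 * L) * (2 * σ + 53 / 50) ^ 2

private theorem J0c_A {L s : ℝ} (hL : 0 ≤ L) (hL1 : L ≤ 17 / 10) (hs : 0 ≤ s) (hs1 : s ≤ 61 / 35) :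
    49 / 25 - L ^ 2 - 23 / 250 - L / 16 * (1 - 3 / 28 * L) * (149 / 10) + s ≤
      J0cA L (7 / 5 + s) := by
  unfold J0cA
  have hq : L / 16 * (1 - 3 / 28 * L) ≤ 87 / 1000 := by nlinarith
  have hq0 : 0 ≤ L / 16 * (1 - 3 / 28 * L) := by
    apply mul_nonneg
    · linarith
    · linarith
  have hX : 2 * (7 / 5 + s) + 53 / 50 = 193 / 50 + 2 * s := by ring
  rw [hX]
  have e2 : (193 / 50 + 2 * s) ^ 2 = 37249 / 2500 + s * (386 / 25 + 4 * s) := by ring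
  have e2' : (193 / 50 + 2 * s) ^ 2 ≤ 541 / 10 := by nlinarith
  have e4 : (193 / 50 + 2 * s) ^ 4 ≤ 223 + s * (386 / 25 + 4 * s) * 69 := by
    have h1 : (193 / 50 + 2 * s) ^ 4 = (37249 / 2500) ^ 2 +
        s * (386 / 25 + 4 * s) * ((193 / 50 + 2 * s) ^ 2 + 37249 / 2500) := by ring
    have h2 : 0 ≤ s * (386 / 25 + 4 * s) := by positivity
    rw [h1]
    nlinarith
  have e5 : L / 16 * (1 - 3 / 28 * L) * (193 / 50 + 2 * s) ^ 2 ≤
      L / 16 * (1 - 3 / 28 * L) * (149 / 10) + 87 / 1000 * (s * (386 / 25 + 4 * s)) := by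
    rw [e2]
    have h2 : 0 ≤ s * (386 / 25 + 4 * s) := by positivity
    nlinarith
  nlinarith

private theorem J0c_poly {L s k : ℝ} (hL : 0 ≤ L) (hL1 : L ≤ 17 / 10) (hs : 0 ≤ s)
    (hs1 : s ≤ 61 / 35) (hk : k = 453 / 400 ∨ k = 347 / 400) :
    0 < k * J0cA L (7 / 5 + s) + 31 / 50 * L ^ 3 - 71 / 1000 * (7 / 5 + s) -
      17 / 800 * (453 / 400 * L + 53 / 400 * (7 / 5 + s)) ^ 3 := by
  have hA := J0c_A hL hL1 hs hs1
  have hY : (453 / 400 * L + 53 / 400 * (7 / 5 + s)) ^ 3 ≤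
      (453 / 400 * L + 53 / 400 * (7 / 5)) ^ 3 + 53 / 400 * s * 18 := by
    have h1 : (453 / 400 * L + 53 / 400 * (7 / 5 + s)) ^ 3 =
      (453 / 400 * L + 53 / 400 * (7 / 5)) ^ 3 + 53 / 400 * s *
        ((453 / 400 * L + 53 / 400 * (7 / 5 + s)) ^ 2 +
          (453 / 400 * L + 53 / 400 * (7 / 5 + s)) * (453 / 400 * L + 53 / 400 * (7 / 5)) +
          (453 / 400 * L + 53 / 400 * (7 / 5)) ^ 2) := by ring
    have h2 : 453 / 400 * L + 53 / 400 * (7 / 5 + s) ≤ 12 / 5 := by linarith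
    have h3 : 453 / 400 * L + 53 / 400 * (7 / 5) ≤ 12 / 5 := by linarith
    have h4 : 0 ≤ 453 / 400 * L + 53 / 400 * (7 / 5 + s) := by linarith
    have h5 : 0 ≤ 453 / 400 * L + 53 / 400 * (7 / 5) := by linarith
    rw [h1]
    have h6 : (453 / 400 * L + 53 / 400 * (7 / 5 + s)) ^ 2 +
          (453 / 400 * L + 53 / 400 * (7 / 5 + s)) * (453 / 400 * L + 53 / 400 * (7 / 5)) +
          (453 / 400 * L + 53 / 400 * (7 / 5)) ^ 2 ≤ 18 := by nlinarith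
    have h7 : 0 ≤ 53 / 400 * s := by linarith
    nlinarith
  rcases hk with rfl | rfl
  · have h0 : 0 < 453 / 400 * (49 / 25 - L ^ 2 - 23 / 250 - L / 16 * (1 - 3 / 28 * L) * (149 / 10)) +
        31 / 50 * L ^ 3 - 71 / 1000 * (7 / 5) -
        17 / 800 * (453 / 400 * L + 53 / 400 * (7 / 5)) ^ 3 := by
      nlinarith [mul_nonneg hL (sq_nonneg (L - 31 / 20)), sq_nonneg (L - 31 / 20)]
    nlinarith
  · have h0 : 0 < 347 / 400 * (49 / 25 - L ^ 2 - 23 / 250 - L / 16 * (1 - 3 / 28 * L) * (149 / 10)) +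
        31 / 50 * L ^ 3 - 71 / 1000 * (7 / 5) -
        17 / 800 * (453 / 400 * L + 53 / 400 * (7 / 5)) ^ 3 := by
      nlinarith [mul_nonneg hL (sq_nonneg (L - 63 / 50)), sq_nonneg (L - 63 / 50)]
    nlinarith

/-- the quadratic part -/
private noncomputable def J0cA' (t L σ v : ℝ) : ℝ :=
  σ ^ 2 - L ^ 2 + 2 / 3 * L ^ 3 * t - 5 / 12 * L ^ 4 * t ^ 2 -
    5 / 192 * (2 * σ - v) ^ 4 * t ^ 2 -
    L * t * (1 - L * t + 2 / 3 * (L * t) ^ 2 - 5 / 12 * (L * t) ^ 3) *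
      ((2 * σ - v) ^ 2 / 2 - 5 / 96 * (2 * σ - v) ^ 4 * t ^ 2)

private theorem J0c_A' {t L σ v : ℝ} (ht : 0 < t) (ht8 : t ≤ 1 / 8) (hL0 : 0 < L)
    (hL1 : L ≤ 17 / 10) (hσ : 7 / 5 ≤ σ) (hσ1 : σ ≤ 22 / 7) (hv : -(53 / 50) ≤ v)
    (hv1 : v ≤ 53 / 50) :
    J0cA L σ + 57 / 100 * L ^ 3 * t ≤ J0cA' t L σ v := by
  unfold J0cA J0cA'
  have hX0 : 0 < 2 * σ - v := by linarith
  have hX1 : 2 * σ - v ≤ 2 * σ + 53 / 50 := by linarith
  have ht2 : t ^ 2 ≤ 1 / 64 := by nlinarith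
  have hXt : (2 * σ - v) * t ≤ 1 := by nlinarith
  have hXt0 : 0 ≤ (2 * σ - v) * t := by positivity
  have hl0 : 0 < L * t := by positivity
  have hl1 : L * t ≤ 17 / 80 := by nlinarith
  have hl2 : L * t ≤ L / 8 := by nlinarith
  -- (i)
  have h1 : 5 / 192 * (2 * σ - v) ^ 4 * t ^ 2 ≤ 5 / 12288 * (2 * σ + 53 / 50) ^ 4 := by
    have h4 : (2 * σ - v) ^ 4 ≤ (2 * σ + 53 / 50) ^ 4 := pow_le_pow_left₀ hX0.le hX1 4
    have h5 : 0 ≤ (2 * σ - v) ^ 4 := by positivity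
    have h6 : (2 * σ - v) ^ 4 * t ^ 2 ≤ (2 * σ + 53 / 50) ^ 4 * (1 / 64) :=
      mul_le_mul h4 ht2 (by positivity) (by positivity)
    linarith
  -- (iii)
  have h3 : 57 / 100 * L ^ 3 * t ≤ 2 / 3 * L ^ 3 * t - 5 / 12 * L ^ 4 * t ^ 2 := by
    have h4 : 0 < L ^ 3 * t := by positivity
    have h5 : 5 / 12 * L ^ 4 * t ^ 2 = 5 / 12 * (L * t) * (L ^ 3 * t) := by ring
    rw [h5]
    nlinarith
  -- (ii)
  have h2 : L * t * (1 - L * t + 2 / 3 * (L * t) ^ 2 - 5 / 12 * (L * t) ^ 3) *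
      ((2 * σ - v) ^ 2 / 2 - 5 / 96 * (2 * σ - v) ^ 4 * t ^ 2) ≤
      L / 16 * (1 - 3 / 28 * L) * (2 * σ + 53 / 50) ^ 2 := by
    have a1 : L * t * (1 - L * t + 2 / 3 * (L * t) ^ 2 - 5 / 12 * (L * t) ^ 3) ≤
        L / 8 * (1 - 3 / 28 * L) := by
      have b1 : L * t * (1 - L * t + 2 / 3 * (L * t) ^ 2 - 5 / 12 * (L * t) ^ 3) ≤
          L * t * (1 - 6 / 7 * (L * t)) := by
        apply mul_le_mul_of_nonneg_left _ hl0.le
        have : 0 ≤ (L * t) ^ 3 := by positivity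
        nlinarith
      have b2 : L * t * (1 - 6 / 7 * (L * t)) ≤ L / 8 * (1 - 3 / 28 * L) := by
        have : L / 8 * (1 - 3 / 28 * L) - L * t * (1 - 6 / 7 * (L * t)) =
            (L / 8 - L * t) * (1 - 6 / 7 * (L * t + L / 8)) := by ring
        have c1 : 0 ≤ (L / 8 - L * t) * (1 - 6 / 7 * (L * t + L / 8)) := by
          apply mul_nonneg
          · linarith
          · linarith
        linarith
      linarith
    have a2 : (2 * σ - v) ^ 2 / 2 - 5 / 96 * (2 * σ - v) ^ 4 * t ^ 2 ≤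
        (2 * σ + 53 / 50) ^ 2 / 2 := by
      have c1 : (2 * σ - v) ^ 2 ≤ (2 * σ + 53 / 50) ^ 2 := pow_le_pow_left₀ hX0.le hX1 2
      have c2 : 0 ≤ (2 * σ - v) ^ 4 * t ^ 2 := by positivity
      linarith
    have a3 : 0 ≤ (2 * σ - v) ^ 2 / 2 - 5 / 96 * (2 * σ - v) ^ 4 * t ^ 2 := by
      have c1 : (2 * σ - v) ^ 4 * t ^ 2 = (2 * σ - v) ^ 2 * ((2 * σ - v) * t) ^ 2 := by ring
      have c2 : ((2 * σ - v) * t) ^ 2 ≤ 1 := by nlinarith
      have c3 : 0 ≤ (2 * σ - v) ^ 2 := by positivity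
      have c4 : (2 * σ - v) ^ 2 * ((2 * σ - v) * t) ^ 2 ≤ (2 * σ - v) ^ 2 * 1 :=
        mul_le_mul_of_nonneg_left c2 c3
      nlinarith
    have a4 : 0 ≤ L / 8 * (1 - 3 / 28 * L) := by
      apply mul_nonneg <;> linarith
    calc _ ≤ L / 8 * (1 - 3 / 28 * L) *
          ((2 * σ - v) ^ 2 / 2 - 5 / 96 * (2 * σ - v) ^ 4 * t ^ 2) :=
          mul_le_mul_of_nonneg_right a1 a3
      _ ≤ L / 8 * (1 - 3 / 28 * L) * ((2 * σ + 53 / 50) ^ 2 / 2) :=
          mul_le_mul_of_nonneg_left a2 a4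
      _ = _ := by ring
  linarith

private theorem J0c_W {t L σ v A A' s : ℝ} (ht : 0 < t) (ht8 : t ≤ 1 / 8) (hL0 : 0 < L)
    (hL1 : L ≤ 17 / 10) (hs : σ = 7 / 5 + s) (hs0 : 0 ≤ s) (hs1 : s ≤ 61 / 35)
    (hv1 : v ≤ 53 / 50) (hAA : A ≤ A')
    (hA1 : 49 / 25 - L ^ 2 - 23 / 250 - L / 16 * (1 - 3 / 28 * L) * (149 / 10) + s ≤ A) :
    0 ≤ L - σ * v * t + t * A' := by
  have h0 : σ * v ≤ σ * (53 / 50) := mul_le_mul_of_nonneg_left hv1 (by linarith)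
  have h2 : A - σ * (53 / 50) ≤ A' - σ * v := by linarith
  have h3 : L - σ * v * t + t * A' = L + t * (A' - σ * v) := by ring
  rw [h3]
  rcases le_total 0 (A - σ * (53 / 50)) with h | h
  · have : 0 ≤ t * (A' - σ * v) := mul_nonneg ht.le (by linarith)
    linarith
  · have h4 : 1 / 8 * (A - σ * (53 / 50)) ≤ t * (A - σ * (53 / 50)) := by nlinarith
    have h5 : t * (A - σ * (53 / 50)) ≤ t * (A' - σ * v) :=
      mul_le_mul_of_nonneg_left h2 ht.le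
    have h6 : 0 ≤ L + 1 / 8 * (A - σ * (53 / 50)) := by
      rw [hs]
      nlinarith
    linarith

private theorem J0c_rhs {t L σ v W : ℝ} (_ht : 0 < t) (hl0 : 0 < L * t)
    (hl1 : L * t ≤ 17 / 80) (hvt : v * t ≤ 53 / 400)
    (hvt0 : -(53 / 400) ≤ v * t) (hst : σ * t ≤ 11 / 28) (hx0 : 0 ≤ 2 * (σ * t) - v * t)
    (hW : W = L - σ * v * t + t * J0cA' t L σ v) :
    t * W ≤ 1 / 2 * (Real.cos (v * t) -
        Real.exp (-(2 * (L * t))) * Real.cos (2 * (σ * t) - v * t)) := by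
  have hcb := Real.one_sub_sq_div_two_le_cos (x := v * t)
  have hE : Real.exp (-(2 * (L * t))) ≤ 1 - 2 * (L * t) + 2 * (L * t) ^ 2 -
      4 / 3 * (L * t) ^ 3 + 5 / 6 * (L * t) ^ 4 := by
    have := J0c_exp (z := 2 * (L * t)) (by linarith) (by linarith)
    calc _ ≤ _ := this
      _ = _ := by ring
  have hx1 : 2 * (σ * t) - v * t ≤ 1 := by linarith
  have hC := J0c_cos hx0 hx1
  have hC0 : 0 ≤ 1 - (2 * (σ * t) - v * t) ^ 2 / 2 + 5 / 96 * (2 * (σ * t) - v * t) ^ 4 := by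
    have h1 : (2 * (σ * t) - v * t) ^ 2 ≤ 1 := by nlinarith
    have h2 : 0 ≤ (2 * (σ * t) - v * t) ^ 4 := by positivity
    linarith
  have hEC : Real.exp (-(2 * (L * t))) * Real.cos (2 * (σ * t) - v * t) ≤
      (1 - 2 * (L * t) + 2 * (L * t) ^ 2 - 4 / 3 * (L * t) ^ 3 + 5 / 6 * (L * t) ^ 4) *
      (1 - (2 * (σ * t) - v * t) ^ 2 / 2 + 5 / 96 * (2 * (σ * t) - v * t) ^ 4) :=
    (mul_le_mul_of_nonneg_left hC (Real.exp_pos _).le).trans (mul_le_mul_of_nonneg_right hE hC0)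
  have hid : 1 / 2 * (1 - (v * t) ^ 2 / 2 -
      (1 - 2 * (L * t) + 2 * (L * t) ^ 2 - 4 / 3 * (L * t) ^ 3 + 5 / 6 * (L * t) ^ 4) *
      (1 - (2 * (σ * t) - v * t) ^ 2 / 2 + 5 / 96 * (2 * (σ * t) - v * t) ^ 4)) =
      t * W := by
    rw [hW]
    unfold J0cA'
    ring
  rw [← hid]
  linarith

private theorem J0c_main {t L σ u v A A' s : ℝ} (ht : 0 < t) (ht8 : t ≤ 1 / 8) (hL0 : 0 < L)
    (hL1 : L ≤ 17 / 10) (hs : σ = 7 / 5 + s) (hs0 : 0 ≤ s) (hs1 : s ≤ 61 / 35)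
    (huv : u ^ 2 + v ^ 2 ≤ (53 / 50) ^ 2)
    (hb1 : 347 / 400 ≤ 1 - u * t) (hb2 : 1 - u * t ≤ 453 / 400)
    (hA : A = J0cA L σ) (hA' : A + 57 / 100 * L ^ 3 * t ≤ A') :
    17 / 100 * t ^ 2 * (453 / 400 * L + 53 / 400 * σ) ^ 3 <
      t * (u * v * σ * t + (1 - u * t) * A') + 7 / 100 * L ^ 3 := by
  have hk : ∃ k : ℝ, (k = 453 / 400 ∨ k = 347 / 400) ∧ k * A ≤ (1 - u * t) * A := by
    rcases le_total 0 A with h | h
    · exact ⟨347 / 400, Or.inr rfl, mul_le_mul_of_nonneg_right hb1 h⟩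
    · exact ⟨453 / 400, Or.inl rfl, mul_le_mul_of_nonpos_right hb2 h⟩
  obtain ⟨k, hk1, hk2⟩ := hk
  have hpoly := J0c_poly hL0.le hL1 hs0 hs1 hk1
  rw [← hs, ← hA] at hpoly
  have hσ0 : 0 < σ := by linarith
  have hY3 : 0 < (453 / 400 * L + 53 / 400 * σ) ^ 3 := by positivity
  have hL3t : 0 < L ^ 3 * t := by positivity
  have hL3 : 0 < L ^ 3 := by positivity
  have h1 : -(71 / 1000 * σ) ≤ u * v * σ * t := by
    have h2 : -(53 / 50) ^ 2 / 2 ≤ u * v := by nlinarith [sq_nonneg (u + v)]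
    have h3 : 0 < σ * t := by positivity
    have h4 : -(53 / 50) ^ 2 / 2 * (σ * t) ≤ u * v * (σ * t) :=
      mul_le_mul_of_nonneg_right h2 h3.le
    have h5 : σ * t ≤ σ * (1 / 8) := mul_le_mul_of_nonneg_left ht8 hσ0.le
    linarith
  have h6 : (1 - u * t) * A + 49 / 100 * (L ^ 3 * t) ≤ (1 - u * t) * A' := by
    have h7 : (1 - u * t) * (A + 57 / 100 * L ^ 3 * t) ≤ (1 - u * t) * A' :=
      mul_le_mul_of_nonneg_left hA' (by linarith)
    have h8 : 347 / 400 * (L ^ 3 * t) ≤ (1 - u * t) * (L ^ 3 * t) :=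
      mul_le_mul_of_nonneg_right hb1 hL3t.le
    linarith
  have h8 : t * (-(71 / 1000 * σ) + k * A + 49 / 100 * (L ^ 3 * t)) ≤
      t * (u * v * σ * t + (1 - u * t) * A') :=
    mul_le_mul_of_nonneg_left (by linarith) ht.le
  have h9 : 31 / 50 * L ^ 3 * t ≤ 49 / 100 * L ^ 3 * t ^ 2 + 7 / 100 * L ^ 3 := by
    have h10 : 0 ≤ 49 / 100 * t ^ 2 + 7 / 100 - 31 / 50 * t := by nlinarith
    have := mul_nonneg hL3.le h10
    linarith
  have h11 : 17 / 100 * t ^ 2 * (453 / 400 * L + 53 / 400 * σ) ^ 3 ≤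
      t * (17 / 800 * (453 / 400 * L + 53 / 400 * σ) ^ 3) := by
    have h12 : 17 / 100 * t ≤ 17 / 800 := by linarith
    have h13 : 17 / 100 * t * (453 / 400 * L + 53 / 400 * σ) ^ 3 ≤
        17 / 800 * (453 / 400 * L + 53 / 400 * σ) ^ 3 :=
      mul_le_mul_of_nonneg_right h12 hY3.le
    have := mul_le_mul_of_nonneg_left h13 ht.le
    linarith
  have h14 := mul_pos ht hpoly
  linarith

private theorem J0c_y {t L σ u v : ℝ} (ht : 0 < t) (ht8 : t ≤ 1 / 8) (hL0 : 0 < L)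
    (hL1 : L ≤ 17 / 10) (hσ : 7 / 5 ≤ σ) (hσ1 : σ ≤ 22 / 7) (hb2 : 1 - u * t ≤ 453 / 400)
    (hvt0 : -(53 / 400) ≤ v * t) :
    L * t * (1 - u * t) - σ * t * (v * t) - 7 / 100 * L ^ 3 * t ≤
      t * (453 / 400 * L + 53 / 400 * σ) ∧ t * (453 / 400 * L + 53 / 400 * σ) ≤ 3 / 10 := by
  have hl0 : 0 < L * t := by positivity
  have hL3t : 0 < L ^ 3 * t := by positivity
  constructor
  · have h1 : L * t * (1 - u * t) ≤ L * t * (453 / 400) :=
      mul_le_mul_of_nonneg_left hb2 hl0.le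
    have h2 : σ * t * (-(53 / 400)) ≤ σ * t * (v * t) :=
      mul_le_mul_of_nonneg_left hvt0 (by positivity)
    linarith
  · have h3 : 453 / 400 * L + 53 / 400 * σ ≤ 453 / 400 * (17 / 10) + 53 / 400 * (22 / 7) := by
      linarith
    have h4 : t * (453 / 400 * L + 53 / 400 * σ) ≤
        1 / 8 * (453 / 400 * (17 / 10) + 53 / 400 * (22 / 7)) :=
      mul_le_mul ht8 h3 (by positivity) (by norm_num)
    refine h4.trans ?_
    norm_num

/-- (LR): `lam_r ≥ - .07 L³`; margin `.53 t²` -/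
theorem lam_re_ge {t L σ u v : ℝ} (ht : 0 < t) (ht8 : t ≤ 1 / 8) (hL1 : L ≤ 17 / 10)
    (hσ : 7 / 5 ≤ σ) (hσ1 : σ ≤ 22 / 7)
    (hLσ : σ * (2 * σ - 11 / 7) * t ≤ L) (huv : u ^ 2 + v ^ 2 ≤ (53 / 50) ^ 2) :
    Real.sinh (L * t * (1 - u * t) - σ * t * (v * t) - 7 / 100 * L ^ 3 * t) <
      1 / 2 * (Real.exp (-(u * t)) * (Real.cos (v * t) -
        Real.exp (-(2 * (L * t))) * Real.cos (2 * (σ * t) - v * t))) := by
  have hL0 : 0 < L := by
    have h1 : 0 < σ * (2 * σ - 11 / 7) * t := by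
      apply mul_pos _ ht
      apply mul_pos <;> linarith
    linarith
  have hu : u ≤ 53 / 50 := by nlinarith [sq_nonneg v]
  have hu0 : -(53 / 50) ≤ u := by nlinarith [sq_nonneg v]
  have hv1 : v ≤ 53 / 50 := by nlinarith [sq_nonneg u]
  have hv0 : -(53 / 50) ≤ v := by nlinarith [sq_nonneg u]
  have hb1 : 347 / 400 ≤ 1 - u * t := by nlinarith
  have hb2 : 1 - u * t ≤ 453 / 400 := by nlinarith
  have hvt : v * t ≤ 53 / 400 := by nlinarith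
  have hvt0 : -(53 / 400) ≤ v * t := by nlinarith
  have hst : σ * t ≤ 11 / 28 := by nlinarith
  have hx0 : 0 ≤ 2 * (σ * t) - v * t := by nlinarith
  have hl0 : 0 < L * t := by positivity
  have hl1 : L * t ≤ 17 / 80 := by nlinarith
  obtain ⟨s, hs⟩ : ∃ s, σ = 7 / 5 + s := ⟨σ - 7 / 5, by ring⟩
  have hs0 : 0 ≤ s := by linarith
  have hs1 : s ≤ 61 / 35 := by linarith
  have hA' := J0c_A' ht ht8 hL0 hL1 hσ hσ1 hv0 hv1
  have hA1 : 49 / 25 - L ^ 2 - 23 / 250 - L / 16 * (1 - 3 / 28 * L) * (149 / 10) + s ≤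
      J0cA L σ := by
    rw [hs]
    exact J0c_A hL0.le hL1 hs0 hs1
  have hL3t : 0 < L ^ 3 * t := by positivity
  have hW := J0c_W ht ht8 hL0 hL1 hs hs0 hs1 hv1 (A := J0cA L σ) (A' := J0cA' t L σ v)
    (by linarith) hA1
  have hbr := J0c_rhs ht hl0 hl1 hvt hvt0 hst hx0 (W := L - σ * v * t + t * J0cA' t L σ v) rfl
  have hmain := J0c_main ht ht8 hL0 hL1 hs hs0 hs1 huv hb1 hb2 rfl hA'
  obtain ⟨hy, hy3⟩ := J0c_y (u := u) (v := v) ht ht8 hL0 hL1 hσ hσ1 hb2 hvt0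
  generalize J0cA' t L σ v = A' at *
  have hexp : 1 - u * t ≤ Real.exp (-(u * t)) := by
    have := Real.add_one_le_exp (-(u * t))
    linarith
  have hR : (1 - u * t) * (t * (L - σ * v * t + t * A')) ≤
      1 / 2 * (Real.exp (-(u * t)) * (Real.cos (v * t) -
        Real.exp (-(2 * (L * t))) * Real.cos (2 * (σ * t) - v * t))) := by
    have h0 : 0 ≤ t * (L - σ * v * t + t * A') := mul_nonneg ht.le hW
    calc (1 - u * t) * (t * (L - σ * v * t + t * A')) ≤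
          Real.exp (-(u * t)) * (t * (L - σ * v * t + t * A')) :=
          mul_le_mul_of_nonneg_right hexp h0
      _ ≤ Real.exp (-(u * t)) * (1 / 2 * (Real.cos (v * t) -
        Real.exp (-(2 * (L * t))) * Real.cos (2 * (σ * t) - v * t))) :=
          mul_le_mul_of_nonneg_left hbr (Real.exp_pos _).le
      _ = _ := by ring
  refine lt_of_lt_of_le ?_ hR
  refine lt_of_le_of_lt (J0c_sinh (hy.trans hy3)) ?_
  have hσ0 : 0 < σ := by linarith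
  have hY0 : 0 ≤ t * (453 / 400 * L + 53 / 400 * σ) := by positivity
  have hm : (max (L * t * (1 - u * t) - σ * t * (v * t) - 7 / 100 * L ^ 3 * t) 0) ^ 3 ≤
      (t * (453 / 400 * L + 53 / 400 * σ)) ^ 3 :=
    pow_le_pow_left₀ (le_max_right _ _) (max_le hy hY0) 3
  have hfin : (1 - u * t) * (t * (L - σ * v * t + t * A')) -
      (L * t * (1 - u * t) - σ * t * (v * t) - 7 / 100 * L ^ 3 * t) =
      t * (t * (u * v * σ * t + (1 - u * t) * A') + 7 / 100 * L ^ 3) := by ring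
  have h15 := mul_lt_mul_of_pos_left hmain ht
  have h16 : (t * (453 / 400 * L + 53 / 400 * σ)) ^ 3 =
      t * (t ^ 2 * (453 / 400 * L + 53 / 400 * σ) ^ 3) := by ring
  rw [h16] at hm
  linarith

end EQS
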