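import Mathlib
import Pool.Agent.Lib.MP_226de1_co.E.J0A
import Pool.Agent.Lib.MP_226de1_co.E.J0a
import Pool.Agent.Lib.MP_226de1_co.E.J0b
import Pool.Agent.Lib.MP_226de1_co.E.J0c
import Pool.Agent.Lib.MP_226de1_co.E.FlowIm

/-! Block (III), `F ≤ 3π/2`: the flow identity gives
`Re lam ≥ - .07 L³`, `0 < Im lam < k (th_* + th/4)`, where
`lam = k (Lam_2 - Lam) + Lam om`, `Lam = X2 - X1`, `Lam_2 = X3 - X2`, `om = k w`,
`w = (X3 - d2) - (X2 - d1)`. -/

set_option autoImplicit false

namespace EQS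

open Complex

variable {k C : ℝ} {q0 q1 q2 q3 d0 d1 d2 X1 X2 X3 : ℂ}

theorem j0_sin_le_max {x : ℝ} (h : -Real.pi ≤ x) : Real.sin x ≤ max 0 x := by
  rcases le_or_gt 0 x with h0 | h0
  · exact (Real.sin_le h0).trans (le_max_right _ _)
  · exact (Real.sin_nonpos_of_nonpos_of_neg_pi_le h0.le h).trans (le_max_left _ _)

theorem j0_sin_lip (x y : ℝ) : |Real.sin (y + x) - Real.sin y| ≤ |x| := by
  have h := Real.sin_sub_sin (y + x) y
  rw [h, abs_mul, abs_mul, abs_two]
  have h1 := Real.abs_sin_le_abs (x := (y + x - y) / 2)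
  have h2 := Real.abs_cos_le_one ((y + x + y) / 2)
  have h3 : |(y + x - y) / 2| = |x| / 2 := by
    rw [abs_div, abs_two]
    congr 2
    ring
  rw [h3] at h1
  have h4 : 2 * |Real.sin ((y + x - y) / 2)| ≤ |x| := by linarith
  calc _ ≤ 2 * |Real.sin ((y + x - y) / 2)| * 1 :=
        mul_le_mul_of_nonneg_left h2 (by positivity)
    _ ≤ _ := by linarith

theorem j0_sin_add_le_max {x y : ℝ} (hy : 0 ≤ y) (hy2 : y ≤ Real.pi / 2)
    (hx : -(Real.pi / 2) ≤ x) : Real.sin (x + y) ≤ Real.sin y + max 0 x := by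
  rcases le_or_gt 0 x with h0 | h0
  · have h1 := (abs_le.1 (j0_sin_lip x y)).2
    rw [abs_of_nonneg h0] at h1
    rw [add_comm x y]
    linarith [le_max_right (0:ℝ) x]
  · have h1 : Real.sin (x + y) ≤ Real.sin y :=
      Real.sin_le_sin_of_le_of_le_pi_div_two (by linarith) hy2 (by linarith)
    linarith [le_max_left (0:ℝ) x]

theorem j0_sin_add_ge_abs (x y : ℝ) : Real.sin y - |x| ≤ Real.sin (x + y) := by
  have h1 := (abs_le.1 (j0_sin_lip x y)).1
  rw [add_comm x y]
  linarith

/-- the imaginary part: upper bound of `Im (X2 - X3)` -/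
theorem j0_th2_lt {l th kp a b l2 th2 A T : ℝ}
    (hfl : 2 * Real.cosh l2 * Real.sin th2 = Real.exp (-a) *
      (Real.sin b + Real.exp (-(2 * l)) * Real.sin (2 * th - b) +
        A * (Real.sin (2 * kp + b) + T * Real.sin (2 * kp + b + (b + th2)))))
    (hA : 0 ≤ A) (hT : 0 ≤ T) (hAT : A * T < 2 * Real.exp a)
    (h2 : th2 < Real.pi / 2) (hkp : |kp| ≤ Real.pi / 16) (hb : |b| ≤ 1 / 6)
    (hs0 : 0 ≤ th * (1 - a) + l * b)
    (hI : Real.sin b + Real.exp (-(2 * l)) * Real.sin (2 * th - b) +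
        A * (max 0 (2 * kp + b) + T * max 0 (2 * kp + 2 * b)) <
      Real.sin (th * (1 - a) + l * b) * (2 * Real.exp a - A * T)) :
    th2 < th * (1 - a) + l * b := by
  have hpi := Real.pi_gt_three
  by_contra hcon
  push Not at hcon
  have hkp' := abs_le.1 hkp
  have hb' := abs_le.1 hb
  have h20 : 0 ≤ th2 := hs0.trans hcon
  have s2 : 0 ≤ Real.sin th2 := Real.sin_nonneg_of_nonneg_of_le_pi h20 (by linarith)
  have s3 : Real.sin (th * (1 - a) + l * b) ≤ Real.sin th2 :=
    Real.sin_le_sin_of_le_of_le_pi_div_two (by linarith) h2.le hcon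
  have m1 : Real.sin (2 * kp + b) ≤ max 0 (2 * kp + b) := j0_sin_le_max (by linarith)
  have m2 : Real.sin (2 * kp + b + (b + th2)) ≤ Real.sin th2 + max 0 (2 * kp + 2 * b) := by
    have e : 2 * kp + b + (b + th2) = (2 * kp + 2 * b) + th2 := by ring
    rw [e]
    exact j0_sin_add_le_max h20 h2.le (by linarith)
  have c1 : 2 * Real.sin th2 ≤ 2 * Real.cosh l2 * Real.sin th2 := by
    have := Real.one_le_cosh l2
    nlinarith
  rw [hfl] at c1
  have ea : Real.exp (-a) * Real.exp a = 1 := by rw [← Real.exp_add, neg_add_cancel, Real.exp_zero]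
  have hea := Real.exp_pos a
  have c2 : 2 * Real.exp a * Real.sin th2 ≤ Real.sin b + Real.exp (-(2 * l)) * Real.sin (2 * th - b) +
        A * (Real.sin (2 * kp + b) + T * Real.sin (2 * kp + b + (b + th2))) := by
    have := mul_le_mul_of_nonneg_left c1 hea.le
    calc 2 * Real.exp a * Real.sin th2 = Real.exp a * (2 * Real.sin th2) := by ring
      _ ≤ _ := this
      _ = (Real.exp (-a) * Real.exp a) * (Real.sin b + Real.exp (-(2 * l)) * Real.sin (2 * th - b) +
        A * (Real.sin (2 * kp + b) + T * Real.sin (2 * kp + b + (b + th2)))) := by ring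
      _ = _ := by rw [ea, one_mul]
  have c3 : A * (Real.sin (2 * kp + b) + T * Real.sin (2 * kp + b + (b + th2))) ≤
      A * (max 0 (2 * kp + b) + T * (Real.sin th2 + max 0 (2 * kp + 2 * b))) := by
    apply mul_le_mul_of_nonneg_left _ hA
    have := mul_le_mul_of_nonneg_left m2 hT
    linarith
  have c4 : Real.sin th2 * (2 * Real.exp a - A * T) < Real.sin th2 * (2 * Real.exp a - A * T) := by
    calc Real.sin th2 * (2 * Real.exp a - A * T) ≤
          Real.sin b + Real.exp (-(2 * l)) * Real.sin (2 * th - b) +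
          A * (max 0 (2 * kp + b) + T * max 0 (2 * kp + 2 * b)) := by nlinarith
      _ < _ := hI
      _ ≤ _ := mul_le_mul_of_nonneg_right s3 (by linarith)
  exact lt_irrefl _ c4

/-- lower bound of `Im (X2 - X3)` -/
theorem j0_th2_gt {l th kp a b l2 th2 A T : ℝ}
    (hfl : 2 * Real.cosh l2 * Real.sin th2 = Real.exp (-a) *
      (Real.sin b + Real.exp (-(2 * l)) * Real.sin (2 * th - b) +
        A * (Real.sin (2 * kp + b) + T * Real.sin (2 * kp + b + (b + th2)))))
    (hA : 0 ≤ A) (hT : 0 ≤ T) (hAT : A * T < 2 * Real.exp a)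
    (h2 : -(Real.pi / 2) < th2) (hth : 0 ≤ th) (hth2 : th ≤ 1)
    (hI : A * (|2 * kp + b| + T * |2 * kp + 2 * b|) <
      Real.sin b + Real.exp (-(2 * l)) * Real.sin (2 * th - b) +
        (2 * Real.exp a - A * T) * Real.sin (th / 4)) :
    -(th / 4) < th2 := by
  have hpi := Real.pi_gt_three
  by_contra hcon
  push Not at hcon
  have s3 : Real.sin th2 ≤ -Real.sin (th / 4) := by
    rw [← Real.sin_neg]
    exact Real.sin_le_sin_of_le_of_le_pi_div_two h2.le (by linarith) hcon
  have s4 : 0 ≤ Real.sin (th / 4) :=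
    Real.sin_nonneg_of_nonneg_of_le_pi (by linarith) (by linarith)
  have m1 : -|2 * kp + b| ≤ Real.sin (2 * kp + b) := by
    have := j0_sin_add_ge_abs (2 * kp + b) 0
    rw [add_zero, Real.sin_zero] at this
    linarith
  have m2 : Real.sin th2 - |2 * kp + 2 * b| ≤ Real.sin (2 * kp + b + (b + th2)) := by
    have e : 2 * kp + b + (b + th2) = (2 * kp + 2 * b) + th2 := by ring
    rw [e]
    exact j0_sin_add_ge_abs _ _
  have c1 : 2 * Real.cosh l2 * Real.sin th2 ≤ 2 * Real.sin th2 := by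
    have := Real.one_le_cosh l2
    nlinarith
  rw [hfl] at c1
  have ea : Real.exp (-a) * Real.exp a = 1 := by rw [← Real.exp_add, neg_add_cancel, Real.exp_zero]
  have hea := Real.exp_pos a
  have c2 : Real.sin b + Real.exp (-(2 * l)) * Real.sin (2 * th - b) +
        A * (Real.sin (2 * kp + b) + T * Real.sin (2 * kp + b + (b + th2))) ≤
      2 * Real.exp a * Real.sin th2 := by
    have := mul_le_mul_of_nonneg_left c1 hea.le
    calc Real.sin b + Real.exp (-(2 * l)) * Real.sin (2 * th - b) +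
        A * (Real.sin (2 * kp + b) + T * Real.sin (2 * kp + b + (b + th2))) =
          (Real.exp (-a) * Real.exp a) * (Real.sin b + Real.exp (-(2 * l)) * Real.sin (2 * th - b) +
        A * (Real.sin (2 * kp + b) + T * Real.sin (2 * kp + b + (b + th2)))) := by
          rw [ea, one_mul]
      _ = Real.exp a * (Real.exp (-a) * (Real.sin b + Real.exp (-(2 * l)) * Real.sin (2 * th - b) +
        A * (Real.sin (2 * kp + b) + T * Real.sin (2 * kp + b + (b + th2))))) := by ring
      _ ≤ _ := this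
      _ = _ := by ring
  have c3 : A * (-|2 * kp + b| + T * (Real.sin th2 - |2 * kp + 2 * b|)) ≤
      A * (Real.sin (2 * kp + b) + T * Real.sin (2 * kp + b + (b + th2))) := by
    apply mul_le_mul_of_nonneg_left _ hA
    have := mul_le_mul_of_nonneg_left m2 hT
    linarith
  have c4 : (2 * Real.exp a - A * T) * Real.sin th2 ≤
      (2 * Real.exp a - A * T) * (-Real.sin (th / 4)) :=
    mul_le_mul_of_nonneg_left s3 (by linarith)
  nlinarith

end EQS
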