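import Mathlib
import Pool.Agent.Lib.MP_226de1_co.E.J0Flow

/-! Block (III), `F ≤ 3π/2`: bounds of `lam = k (Lam_2 - Lam) + Lam om`. -/

set_option autoImplicit false

namespace EQS

open Complex

variable {k C : ℝ} {q0 q1 q2 q3 d0 d1 d2 X1 X2 X3 : ℂ}

/-- `lam = k ((X3 - X2) - (X2 - X1)) + (X2 - X1) om` -/
noncomputable def lamJ (k : ℝ) (d1 d2 X1 X2 X3 : ℂ) : ℂ :=
  (k : ℂ) * ((X3 - X2) - (X2 - X1)) + (X2 - X1) * ((k : ℂ) * ((X3 - d2) - (X2 - d1)))

theorem lamJ_re (k : ℝ) (d1 d2 X1 X2 X3 : ℂ) : (lamJ k d1 d2 X1 X2 X3).re =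
    k * ((X3 - X2).re - (X2 - X1).re) +
      ((X2 - X1).re * ((k : ℂ) * ((X3 - d2) - (X2 - d1))).re +
        (X1 - X2).im * ((k : ℂ) * ((X3 - d2) - (X2 - d1))).im) := by
  have h1 : (X2 - X1).im = -(X1 - X2).im := by simp
  rw [lamJ, add_re, re_ofReal_mul, mul_re (X2 - X1), h1, sub_re (X3 - X2)]
  ring

theorem lamJ_im (k : ℝ) (d1 d2 X1 X2 X3 : ℂ) : (lamJ k d1 d2 X1 X2 X3).im =
    k * ((X1 - X2).im - (X2 - X3).im) +
      ((X2 - X1).re * ((k : ℂ) * ((X3 - d2) - (X2 - d1))).im -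
        (X1 - X2).im * ((k : ℂ) * ((X3 - d2) - (X2 - d1))).re) := by
  have h1 : (X2 - X1).im = -(X1 - X2).im := by simp
  have h2 : (X3 - X2).im = -(X2 - X3).im := by simp
  rw [lamJ, add_im, im_ofReal_mul, mul_im (X2 - X1), h1, sub_im (X3 - X2), h1, h2]
  ring

theorem j0_abs {u v : ℝ} (h : u ^ 2 + v ^ 2 ≤ (53 / 50) ^ 2) : |u| ≤ 53 / 50 :=
  abs_le_of_sq_le_sq (by linarith [sq_nonneg v]) (by norm_num)

theorem j0_mul_t {u t : ℝ} (hu : |u| ≤ 53 / 50) (ht0 : 0 < t) (ht8 : t ≤ 1 / 8) :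
    |u * t| ≤ 53 / 400 := by
  rw [abs_mul, abs_of_pos ht0]
  calc |u| * t ≤ 53 / 50 * (1 / 8) := mul_le_mul hu ht8 ht0.le (by norm_num)
    _ = _ := by norm_num

theorem j0_star {σ L x y : ℝ} (hσ : 7 / 5 ≤ σ) (hL0 : 0 ≤ L) (hL : L ≤ 17 / 10)
    (hx : |x| ≤ 53 / 400) (hy : |y| ≤ 53 / 400) : 0 ≤ σ * (1 - x) + L * y := by
  have hx' := abs_le.1 hx
  have hy' := abs_le.1 hy
  have h1 : 7 / 5 * (347 / 400) ≤ σ * (1 - x) :=
    mul_le_mul hσ (by linarith) (by norm_num) (by linarith)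
  have h2 : -(17 / 10 * (53 / 400)) ≤ L * y := by
    have h3 : |L * y| ≤ 17 / 10 * (53 / 400) := by
      rw [abs_mul, abs_of_nonneg hL0]
      exact mul_le_mul hL hy (abs_nonneg _) (by norm_num)
    exact (abs_le.1 h3).1
  linarith

theorem j0_cospos {σ t v E : ℝ} (ht0 : 0 < t) (ht8 : t ≤ 1 / 8) (hσ : 7 / 5 ≤ σ)
    (hσ2 : σ ≤ 22 / 7) (hv : |v| ≤ 53 / 50) (hE : E ≤ 1) :
    0 ≤ Real.cos (v * t) - E * Real.cos (2 * (σ * t) - v * t) := by
  have hpi := Real.pi_gt_three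
  have hvt := abs_le.1 (j0_mul_t hv ht0 ht8)
  have hv' := abs_le.1 hv
  have h1 : v * t ≤ σ * t := mul_le_mul_of_nonneg_right (by linarith) ht0.le
  have h2 : 0 < σ * t := mul_pos (by linarith) ht0
  have h3 : σ * t ≤ 22 / 7 * (1 / 8) := mul_le_mul hσ2 ht8 ht0.le (by norm_num)
  have hvσ : |v * t| ≤ 2 * (σ * t) - v * t := by
    rw [abs_le]
    constructor <;> linarith
  have g1 : Real.cos (2 * (σ * t) - v * t) ≤ Real.cos (v * t) := by
    rw [← Real.cos_abs (v * t)]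
    exact Real.cos_le_cos_of_nonneg_of_le_pi (abs_nonneg _) (by linarith) hvσ
  have g2 : 0 ≤ Real.cos (2 * (σ * t) - v * t) :=
    Real.cos_nonneg_of_mem_Icc ⟨by have := abs_nonneg (v * t); linarith, by linarith⟩
  have g3 : E * Real.cos (2 * (σ * t) - v * t) ≤ 1 * Real.cos (2 * (σ * t) - v * t) :=
    mul_le_mul_of_nonneg_right hE g2
  linarith

theorem j0_AT {A T x : ℝ} (hA : A ≤ 7 / 20) (hT : T ≤ 5 / 4) (hT0 : 0 ≤ T)
    (hx : |x| ≤ 53 / 400) : A * T < 2 * Real.exp x := by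
  have hx' := abs_le.1 hx
  have h1 : A * T ≤ 7 / 20 * (5 / 4) := mul_le_mul hA hT hT0 (by norm_num)
  have := Real.add_one_le_exp x
  linarith

theorem j0_im_up {L σ x y : ℝ} (hL0 : 0 ≤ L) (hσ0 : 0 ≤ σ) (hx : |x| ≤ 53 / 400)
    (hy : |y| ≤ 53 / 400) : L * y - σ * x ≤ 53 / 400 * (σ + L) := by
  have hx' := abs_le.1 hx
  have hy' := abs_le.1 hy
  have h4 : L * y ≤ L * (53 / 400) := mul_le_mul_of_nonneg_left hy'.2 hL0
  have h5 : σ * (-(53 / 400)) ≤ σ * x := mul_le_mul_of_nonneg_left hx'.1 hσ0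
  linarith

/-- the data of a state in scaled form and the bounds of `lam` -/
theorem St.J0_lam (h : St k C q0 q1 q2 q3 d0 d1 d2 X1 X2 X3) (hk : 8 ≤ k)
    (hA : -(Real.pi / 4) ≤ X1.im) (he : |k * (X1 - d0).im| = Real.pi / 2)
    (hσ : 7 / 5 ≤ k * (X1 - X2).im)
    (hF : k * (X1 - d1).im ≤ 3 * Real.pi / 2)
    (hL : k * (X2 - X1).re ≤ 17 / 10)
    (hω : ‖(k : ℂ) * ((X3 - d2) - (X2 - d1))‖ ≤ 53 / 50) :
    -(7 / 100 * (k * (X2 - X1).re) ^ 3) ≤ (lamJ k d1 d2 X1 X2 X3).re ∧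
      0 < (lamJ k d1 d2 X1 X2 X3).im ∧
      (lamJ k d1 d2 X1 X2 X3).im ≤
        5 / 4 * (k * (X1 - X2).im) + 27 / 200 * (k * (X1 - X2).im + k * (X2 - X1).re) := by
  have hpi := Real.pi_pos
  have hpi3 := Real.pi_gt_d4
  have hpi4 := Real.pi_lt_d4
  have k0 : 0 < k := by linarith
  obtain ⟨hF1, hF2, hσ2⟩ := h.J0_F he hσ hF
  have hLσ := h.J0_L hk hA he hσ hF
  have hAA := h.J0_A hk hA he hσ hF
  have hTT := h.J0_T hk hA he hσ hF
  have hp2 := abs_lt.1 h.p2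
  have hFe := F_eq (k := k) (X1 := X1) (X2 := X2) (d1 := d1)
  have hfl := h.flow_im
  have htau : Real.exp (d2 - d1).re ≤ 2 := by linarith
  set t := 1 / k with ht
  have ht0 : 0 < t := by positivity
  have ht8 : t ≤ 1 / 8 := one_div_le_one_div_of_le (by norm_num) hk
  have hkt : k * t = 1 := by rw [ht]; field_simp
  set om : ℂ := (k : ℂ) * ((X3 - d2) - (X2 - d1)) with hom
  set u := om.re with hu
  set v := om.im with hv
  set L := k * (X2 - X1).re with hLd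
  set σ := k * (X1 - X2).im with hσd
  set P := k * (X2 - d1).im with hPd
  have el : (X2 - X1).re = L * t := by
    rw [hLd]
    calc (X2 - X1).re = (X2 - X1).re * (k * t) := by rw [hkt, mul_one]
      _ = _ := by ring
  have eth : (X1 - X2).im = σ * t := by
    rw [hσd]
    calc (X1 - X2).im = (X1 - X2).im * (k * t) := by rw [hkt, mul_one]
      _ = _ := by ring
  have ekp : (X2 - d1).im = P * t := by
    rw [hPd]
    calc (X2 - d1).im = (X2 - d1).im * (k * t) := by rw [hkt, mul_one]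
      _ = _ := by ring
  have ea : (X3 - d2).re - (X2 - d1).re = u * t := by
    rw [hu, hom, re_ofReal_mul, sub_re (X3 - d2)]
    calc (X3 - d2).re - (X2 - d1).re = ((X3 - d2).re - (X2 - d1).re) * (k * t) := by
          rw [hkt, mul_one]
      _ = _ := by ring
  have eb : (X3 - d2).im - (X2 - d1).im = v * t := by
    rw [hv, hom, im_ofReal_mul, sub_im (X3 - d2)]
    calc (X3 - d2).im - (X2 - d1).im = ((X3 - d2).im - (X2 - d1).im) * (k * t) := by
          rw [hkt, mul_one]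
      _ = _ := by ring
  have huv : u ^ 2 + v ^ 2 ≤ (53 / 50) ^ 2 := by
    have h1 : ‖om‖ ^ 2 ≤ (53 / 50) ^ 2 := pow_le_pow_left₀ (norm_nonneg _) hω 2
    rw [← normSq_eq_norm_sq, normSq_apply] at h1
    linarith
  have hu2 : |u| ≤ 53 / 50 := j0_abs huv
  have hv2 : |v| ≤ 53 / 50 := j0_abs (u := v) (v := u) (by linarith)
  have hσ22 : σ ≤ 22 / 7 := by linarith
  have hL0 : 0 < L := by
    refine lt_of_lt_of_le ?_ hLσ
    apply mul_pos (mul_pos (by linarith) (by linarith)) ht0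
  have e1e2 : (d1 - d2).im = v * t + (X2 - X3).im := by
    rw [← eb]
    simp only [sub_im]
    ring
  have c1 : Real.cosh (X3 - X2).re = Real.cosh (X3 - X2).re := rfl
  rw [ea, eb, el, eth, ekp, e1e2] at hfl
  rw [el] at hAA
  set A := Real.exp (2 * (d1 - X2).re) with hAd
  set T := Real.exp (d2 - d1).re with hTd
  have hA0 : 0 ≤ A := (Real.exp_pos _).le
  have hT0 : 0 ≤ T := (Real.exp_pos _).le
  have hA35 : A ≤ 7 / 20 := by
    have := Real.exp_pos (-(2 * (L * t)))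
    linarith
  have hut : |u * t| ≤ 53 / 400 := j0_mul_t hu2 ht0 ht8
  have hvt : |v * t| ≤ 53 / 400 := j0_mul_t hv2 ht0 ht8
  have hAT : A * T < 2 * Real.exp (u * t) := j0_AT hA35 hTT hT0 hut
  have hPt : |P * t| ≤ Real.pi / 16 := by
    rw [← ekp]
    exact (h.c1_abs hk).le
  have h2a := h.a2
  have h3a := h.a3
  have hth2a : (X2 - X3).im < Real.pi / 2 := by
    rw [sub_im]
    linarith
  have hth2b : -(Real.pi / 2) < (X2 - X3).im := by
    rw [sub_im]
    linarith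
  have hs0 : 0 ≤ σ * t * (1 - u * t) + L * t * (v * t) := by
    have h1 := mul_nonneg ht0.le (j0_star hσ hL0.le hL hut hvt)
    have h2 : t * (σ * (1 - u * t) + L * (v * t)) =
      σ * t * (1 - u * t) + L * t * (v * t) := by ring
    rwa [h2] at h1
  have hI1 := lam_im_pos ht0 ht8 hL hσ hσ22 (P := P) (by linarith) hLσ huv hA0 hAA hT0 hTT
  have hI2 := lam_im_le ht0 ht8 hL hσ hσ22 (P := P) (by rw [abs_le]; constructor <;> linarith)
    hLσ huv hA0 hAA hT0 hTT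
  have r1 := j0_th2_lt (l := L * t) (th := σ * t) (kp := P * t) (a := u * t) (b := v * t) hfl
    hA0 hT0 hAT hth2a hPt (by linarith) hs0 hI1
  have hσt : σ * t ≤ 1 := by
    have : σ * t ≤ 22 / 7 * (1 / 8) := mul_le_mul hσ22 ht8 ht0.le (by norm_num)
    linarith
  have r2 := j0_th2_gt (l := L * t) (th := σ * t) (kp := P * t) (a := u * t) (b := v * t) hfl
    hA0 hT0 hAT hth2b (by positivity) hσt hI2
  -- real part
  have r3 : L * t * (1 - u * t) - σ * t * (v * t) - 7 / 100 * L ^ 3 * t < (X3 - X2).re := by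
    have h1 := lam_re_ge ht0 ht8 hL hσ hσ22 hLσ huv
    have h2 := St.LB_re ((X2 - d1) - (X3 - d2)) (X2 - X1)
    have i1 : ((X2 - d1) - (X3 - d2)).re = -(u * t) := by
      rw [← ea, sub_re (X2 - d1)]
      ring
    have i2 : ((X2 - d1) - (X3 - d2)).im = -(v * t) := by
      rw [← eb, sub_im (X2 - d1)]
      ring
    have i3 : (X2 - X1).im = -(σ * t) := by
      rw [← eth]
      simp
    rw [i1, i2, i3, el, Real.cos_neg] at h2
    have i4 : -(v * t) - 2 * -(σ * t) = 2 * (σ * t) - v * t := by ring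
    rw [i4] at h2
    have hpos : 0 ≤ Real.exp (-(u * t)) * (Real.cos (v * t) -
        Real.exp (-(2 * (L * t))) * Real.cos (2 * (σ * t) - v * t)) := by
      apply mul_nonneg (Real.exp_pos _).le
      apply j0_cospos ht0 ht8 hσ hσ22 hv2
      exact Real.exp_le_one_iff.2 (by
        have := mul_pos hL0 ht0
        linarith)
    have h3 := h.LB hk htau (by rw [h2]; exact hpos)
    rw [h2] at h3
    have h4 : Real.sinh (L * t * (1 - u * t) - σ * t * (v * t) - 7 / 100 * L ^ 3 * t) <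
        Real.sinh (X3 - X2).re := by linarith
    exact Real.sinh_lt_sinh.1 h4
  refine ⟨?_, ?_, ?_⟩
  · rw [lamJ_re, ← hom, ← hu, ← hv, el, eth]
    have h1 : k * (L * t * (1 - u * t) - σ * t * (v * t) - 7 / 100 * L ^ 3 * t) ≤
        k * (X3 - X2).re := mul_le_mul_of_nonneg_left r3.le k0.le
    have h2 : k * (L * t * (1 - u * t) - σ * t * (v * t) - 7 / 100 * L ^ 3 * t) =
        (k * t) * (L * (1 - u * t) - σ * (v * t) - 7 / 100 * L ^ 3) := by ring
    have h3 : k * (L * t) = (k * t) * L := by ring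
    rw [h2, hkt, one_mul] at h1
    rw [mul_sub, h3, hkt, one_mul]
    linarith
  · rw [lamJ_im, ← hom, ← hu, ← hv, el, eth]
    have h1 : k * (X2 - X3).im < k * (σ * t * (1 - u * t) + L * t * (v * t)) :=
      mul_lt_mul_of_pos_left r1 k0
    have h2 : k * (σ * t * (1 - u * t) + L * t * (v * t)) =
        (k * t) * (σ * (1 - u * t) + L * (v * t)) := by ring
    have h3 : k * (σ * t) = (k * t) * σ := by ring
    rw [h2, hkt, one_mul] at h1
    rw [mul_sub, h3, hkt, one_mul]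
    linarith
  · rw [lamJ_im, ← hom, ← hu, ← hv, el, eth]
    have h1 : k * (-(σ * t / 4)) < k * (X2 - X3).im := mul_lt_mul_of_pos_left r2 k0
    have h2 : k * (-(σ * t / 4)) = -((k * t) * σ / 4) := by ring
    have h3 : k * (σ * t) = (k * t) * σ := by ring
    rw [h2, hkt, one_mul] at h1
    rw [mul_sub, h3, hkt, one_mul]
    have h4 := j0_im_up hL0.le (by linarith : (0:ℝ) ≤ σ) hut hvt
    have h5 : 53 / 400 * (σ + L) ≤ 27 / 200 * (σ + L) :=
      mul_le_mul_of_nonneg_right (by norm_num) (by linarith)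
    linarith

end EQS
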