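import Mathlib
import Pool.Agent.Lib.MP_226de1_co.E.J0Geo
import Pool.Agent.Lib.MP_226de1_co.E.Circ

/-! Block (III), `F ≤ 3π/2`: lower bounds of `s = cos a0 (cos a0 + cos a1)`. -/

set_option autoImplicit false

namespace EQS

open Complex

variable {k C : ℝ} {q0 q1 q2 q3 d0 d1 d2 X1 X2 X3 : ℂ}

/-- `cos (m - θ) (cos (m - θ) + cos (m + θ)) ≥ 2 cos² m` for `0 ≤ θ ≤ m` -/
theorem j0_two_cos_sq {m θ : ℝ} (h0 : 0 ≤ θ) (h1 : θ ≤ m) (hm : m ≤ Real.pi / 2) :
    2 * Real.cos m ^ 2 ≤ Real.cos (m - θ) * (Real.cos (m - θ) + Real.cos (m + θ)) := by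
  have e1 : Real.cos (m - θ) + Real.cos (m + θ) = 2 * Real.cos m * Real.cos θ := by
    rw [Real.cos_sub, Real.cos_add]
    ring
  have e2 : 2 * (Real.cos (m - θ) * Real.cos θ) = Real.cos m + Real.cos (m - 2 * θ) := by
    have h2 : Real.cos m = Real.cos ((m - θ) + θ) := by congr 1; ring
    have h3 : Real.cos (m - 2 * θ) = Real.cos ((m - θ) - θ) := by congr 1; ring
    rw [h2, h3, Real.cos_add (m - θ), Real.cos_sub (m - θ)]
    ring
  have h2 : Real.cos m ≤ Real.cos (m - 2 * θ) := by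
    rw [← Real.cos_abs (m - 2 * θ)]
    apply Real.cos_le_cos_of_nonneg_of_le_pi (abs_nonneg _) (by linarith [Real.pi_pos])
    rw [abs_le]
    constructor <;> linarith
  have h3 : 0 ≤ Real.cos m := Real.cos_nonneg_of_mem_Icc ⟨by linarith [Real.pi_pos], hm⟩
  rw [e1]
  nlinarith

/-- product of monotone factors -/
theorem j0_s_mono {a b c d : ℝ} (ha : 0 ≤ a) (hab : a ≤ c) (hbd : b ≤ d) (h : 0 ≤ a + b) :
    a * (a + b) ≤ c * (c + d) := by
  have h1 : a + b ≤ c + d := by linarith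
  calc a * (a + b) ≤ a * (c + d) := mul_le_mul_of_nonneg_left h1 ha
    _ ≤ c * (c + d) := mul_le_mul_of_nonneg_right hab (by linarith)

theorem j0_cos_sq_tan {m : ℝ} (h : Real.cos m ≠ 0) :
    Real.cos m ^ 2 * (1 + Real.tan m ^ 2) = 1 := by
  rw [Real.tan_eq_sin_div_cos]
  field_simp
  linarith [Real.sin_sq_add_cos_sq m]

theorem j0_cos_sq_pi4 {α : ℝ} (h0 : 0 ≤ α) (h1 : α ≤ Real.pi / 4) : 1 / 2 ≤ Real.cos α ^ 2 := by
  have h2 : Real.cos (Real.pi / 4) ≤ Real.cos α :=
    Real.cos_le_cos_of_nonneg_of_le_pi h0 (by linarith [Real.pi_pos]) h1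
  rw [Real.cos_pi_div_four] at h2
  have h3 : (Real.sqrt 2 / 2) ^ 2 ≤ Real.cos α ^ 2 := pow_le_pow_left₀ (by positivity) h2 2
  have h4 : (Real.sqrt 2 / 2) ^ 2 = 1 / 2 := by
    rw [div_pow, Real.sq_sqrt (by norm_num)]
    norm_num
  linarith

/-- `F > 0`: `d0.im = X1.im + et`, `d1.im = X1.im - F/k`; `s ≥ cos(α-et)(cos(α-et)+cos(α+et))` -/
theorem St.J0_sP (h : St k C q0 q1 q2 q3 d0 d1 d2 X1 X2 X3) (hk : 8 ≤ k)
    (hA : -(Real.pi / 4) ≤ X1.im) (he : |k * (X1 - d0).im| = Real.pi / 2)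
    (hF1 : k * (X1 - d1).im < Real.pi / 2) (hF0 : 0 < k * (X1 - d1).im)
    {et : ℝ} (hke : k * et = Real.pi / 2) :
    d0.im = X1.im + et ∧ 0 < (X1 - d1).im ∧ (X1 - d1).im < et ∧
    Real.cos (-X1.im - et) * (Real.cos (-X1.im - et) + Real.cos (-X1.im + et)) ≤
      Real.cos d0.im * (Real.cos d0.im + Real.cos d1.im) := by
  have hpi := Real.pi_pos
  have k0 : 0 < k := by linarith
  have h0 := h.argp_of_pos he hF0 hF1
  have hd0 : d0.im = X1.im + et := by
    have h2 : (X1 - d0).im = -et := by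
      have h3 : k * ((X1 - d0).im + et) = 0 := by linarith
      rcases mul_eq_zero.1 h3 with h4 | h4
      · exact absurd h4 k0.ne'
      · linarith
    rw [sub_im] at h2
    linarith
  have h1 : 0 < (X1 - d1).im := by
    by_contra hcon
    push Not at hcon
    have := mul_nonpos_of_nonneg_of_nonpos k0.le hcon
    linarith
  have h2 : (X1 - d1).im < et := by
    have : k * (X1 - d1).im < k * et := by linarith
    exact lt_of_mul_lt_mul_left this k0.le
  have he1 : et ≤ Real.pi / 16 := by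
    by_contra hcon
    push Not at hcon
    nlinarith
  refine ⟨hd0, h1, h2, ?_⟩
  have e1 : Real.cos d0.im = Real.cos (-X1.im - et) := by
    rw [hd0, ← Real.cos_neg]
    congr 1
    ring
  have hα := h.a1.2
  have e2 : Real.cos (-X1.im + et) ≤ Real.cos d1.im := by
    have h3 : d1.im = -(-X1.im + (X1 - d1).im) := by simp
    rw [h3, Real.cos_neg]
    exact Real.cos_le_cos_of_nonneg_of_le_pi (by linarith) (by linarith) (by linarith)
  rw [e1]
  apply j0_s_mono (by rw [← e1]; exact h.cos0.le) le_rfl e2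
  have h4 : 0 ≤ Real.cos (-X1.im - et) := by rw [← e1]; exact h.cos0.le
  have h5 : 0 ≤ Real.cos (-X1.im + et) := Real.cos_nonneg_of_mem_Icc ⟨by linarith, by linarith⟩
  linarith

/-- `σ ≥ π/2` -/
theorem St.J0_s0 (h : St k C q0 q1 q2 q3 d0 d1 d2 X1 X2 X3) (hk : 8 ≤ k)
    (hA : -(Real.pi / 4) ≤ X1.im) (he : |k * (X1 - d0).im| = Real.pi / 2)
    (hσ : Real.pi / 2 ≤ k * (X1 - X2).im)
    (hF : k * (X1 - d1).im ≤ 3 * Real.pi / 2) :
    1 ≤ Real.cos d0.im * (Real.cos d0.im + Real.cos d1.im) ∧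
    2 * (k * (X1 - X2).im) ^ 2 / ((k * (X1 - X2).im) ^ 2 + (k * (X2 - X1).re) ^ 2) ≤
      Real.cos d0.im * (Real.cos d0.im + Real.cos d1.im) := by
  have hpi := Real.pi_pos
  have hpi3 := Real.pi_gt_d4
  have k0 : 0 < k := by linarith
  have hσ' : 7 / 5 ≤ k * (X1 - X2).im := by linarith
  obtain ⟨hF1, hF2, hσ2⟩ := h.J0_F he hσ' hF
  obtain ⟨et, hke, he0, he1, he2, he3, he4, he5, he6, _⟩ := h.J0_basic hk he hσ' hF
  obtain ⟨m1, m2, m3, m4, m5, _⟩ := h.J0_m hk hA he hσ' hF hke
  have hκ := abs_lt.1 h.p2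
  have hFe := F_eq (k := k) (X1 := X1) (X2 := X2) (d1 := d1)
  have hF0 : 0 < k * (X1 - d1).im := by linarith
  have hf3 := m5 hF0
  obtain ⟨s1, s2, s3, s4⟩ := h.J0_sP hk hA he hF2 hF0 hke
  have hα := h.a1.2
  have het : et ≤ (X1 - X2).im := by
    have : k * et ≤ k * (X1 - X2).im := by linarith
    exact le_of_mul_le_mul_left this k0
  set θ := (X1 - X2).im with hθ
  set m := -X1.im - (X2 - d1).im with hm
  constructor
  · have h1 := j0_two_cos_sq (m := -X1.im) (θ := et) he0.le (by linarith) (by linarith)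
    have h2 := j0_cos_sq_pi4 (α := -X1.im) (by linarith) (by linarith)
    linarith
  · have hmθ : θ ≤ m := by rw [hm]; linarith
    have h1 := j0_two_cos_sq (m := m) (θ := θ) (by linarith) hmθ (by linarith)
    have h2 : Real.cos (m - θ) * (Real.cos (m - θ) + Real.cos (m + θ)) ≤
        Real.cos d0.im * (Real.cos d0.im + Real.cos d1.im) := by
      apply j0_s_mono
      · exact Real.cos_nonneg_of_mem_Icc ⟨by linarith, by linarith⟩
      · rw [s1, ← Real.cos_abs (X1.im + et)]
        apply Real.cos_le_cos_of_nonneg_of_le_pi (abs_nonneg _) (by linarith)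
        rw [abs_le, hm]
        constructor <;> linarith
      · have h3 : d1.im = -(-X1.im + (X1 - d1).im) := by simp
        have h4 : (X1 - d1).im = θ + (X2 - d1).im := by
          rw [hθ]
          simp only [sub_im]
          ring
        rw [h3, Real.cos_neg]
        apply Real.cos_le_cos_of_nonneg_of_le_pi (by linarith) (by linarith)
        rw [h4, hm]
        linarith
      · have h5 : 0 ≤ Real.cos (m - θ) := Real.cos_nonneg_of_mem_Icc ⟨by linarith, by linarith⟩
        have h6 : 0 ≤ Real.cos (m + θ) := Real.cos_nonneg_of_mem_Icc ⟨by linarith, by linarith⟩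
        linarith
    refine le_trans ?_ (h1.trans h2)
    have hcm : 0 < Real.cos m := Real.cos_pos_of_mem_Ioo ⟨by linarith, by linarith⟩
    have h3 := j0_cos_sq_tan hcm.ne'
    have hσ0 : 0 < k * θ := by linarith
    have h4 : Real.tan m * (k * θ) ≤ k * (X2 - X1).re := by nlinarith
    have h5 : 0 ≤ Real.tan m := Real.tan_nonneg_of_nonneg_of_le_pi_div_two m2.le (by linarith)
    have h6 : (Real.tan m * (k * θ)) ^ 2 ≤ (k * (X2 - X1).re) ^ 2 :=
      pow_le_pow_left₀ (mul_nonneg h5 hσ0.le) h4 2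
    rw [div_le_iff₀ (by positivity)]
    have h7 : 2 * Real.cos m ^ 2 * ((k * θ) ^ 2 + (Real.tan m * (k * θ)) ^ 2) ≤
        2 * Real.cos m ^ 2 * ((k * θ) ^ 2 + (k * (X2 - X1).re) ^ 2) :=
      mul_le_mul_of_nonneg_left (by linarith) (by positivity)
    have h8 : 2 * Real.cos m ^ 2 * ((k * θ) ^ 2 + (Real.tan m * (k * θ)) ^ 2) =
        2 * (k * θ) ^ 2 * (Real.cos m ^ 2 * (1 + Real.tan m ^ 2)) := by ring
    rw [h8, h3, mul_one] at h7
    exact h7

/-- `cos (m + ε) ≥ cos m (1 - ε²/2 - ε tan m)` -/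
theorem j0_cos_add_ge {m ε : ℝ} (hm : 0 ≤ m) (hm2 : m < Real.pi / 2) (hε : 0 ≤ ε) :
    Real.cos m * (1 - ε ^ 2 / 2 - ε * Real.tan m) ≤ Real.cos (m + ε) := by
  have hc : 0 < Real.cos m := Real.cos_pos_of_mem_Ioo ⟨by linarith [Real.pi_pos], hm2⟩
  have hs : 0 ≤ Real.sin m := Real.sin_nonneg_of_nonneg_of_le_pi hm (by linarith [Real.pi_pos])
  have h1 := Real.one_sub_sq_div_two_le_cos (x := ε)
  have h2 : Real.sin ε ≤ ε := Real.sin_le hε
  have h3 : Real.cos m * Real.tan m = Real.sin m := by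
    rw [Real.tan_eq_sin_div_cos]
    field_simp
  rw [Real.cos_add]
  have h4 : Real.cos m * (1 - ε ^ 2 / 2) ≤ Real.cos m * Real.cos ε :=
    mul_le_mul_of_nonneg_left h1 hc.le
  have h5 : Real.sin m * Real.sin ε ≤ Real.sin m * ε := mul_le_mul_of_nonneg_left h2 hs
  calc Real.cos m * (1 - ε ^ 2 / 2 - ε * Real.tan m) =
        Real.cos m * (1 - ε ^ 2 / 2) - (Real.cos m * Real.tan m) * ε := by ring
    _ = Real.cos m * (1 - ε ^ 2 / 2) - Real.sin m * ε := by rw [h3]
    _ ≤ _ := by linarith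

/-- the rational lower bound -/
theorem j0_s_rat {τ y c : ℝ} (hτ : 0 ≤ τ) (hy : τ ≤ y) (hy2 : y ≤ 17 / 14)
    (hc : (1975 / 1000) * (9995 / 10000 - 431 / 10000 * τ) / (1 + τ ^ 2) ≤ c) :
    (197 / 100 - 9 / 100 * y) / (1 + y ^ 2) ≤ c := by
  refine le_trans ?_ hc
  have h1 : (197 / 100 - 9 / 100 * y) / (1 + y ^ 2) ≤ (197 / 100 - 9 / 100 * y) / (1 + τ ^ 2) := by
    apply div_le_div_of_nonneg_left (by linarith) (by positivity)
    have := pow_le_pow_left₀ hτ hy 2
    linarith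
  refine h1.trans ?_
  apply div_le_div_of_nonneg_right _ (by positivity)
  nlinarith

/-- `σ < π/2` -/
theorem St.J0_s1 (h : St k C q0 q1 q2 q3 d0 d1 d2 X1 X2 X3) (hk : 8 ≤ k)
    (hA : -(Real.pi / 4) ≤ X1.im) (he : |k * (X1 - d0).im| = Real.pi / 2)
    (hσ : 7 / 5 ≤ k * (X1 - X2).im) (hσ1 : k * (X1 - X2).im < Real.pi / 2)
    (hF : k * (X1 - d1).im ≤ 3 * Real.pi / 2) (hL : k * (X2 - X1).re ≤ 17 / 10) :
    41 / 50 ≤ Real.cos d0.im * (Real.cos d0.im + Real.cos d1.im) ∧
    (197 / 100 - 9 / 100 * (k * (X2 - X1).re / (k * (X1 - X2).im))) /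
        (1 + (k * (X2 - X1).re / (k * (X1 - X2).im)) ^ 2) ≤
      Real.cos d0.im * (Real.cos d0.im + Real.cos d1.im) ∧
    2 - 2 * (k * (X2 - X1).re / (k * (X1 - X2).im) + 43 / 250 * (1 / k)) ^ 2 -
        27 / 50 * (1 / k) ^ 2 ≤
      Real.cos d0.im * (Real.cos d0.im + Real.cos d1.im) := by
  have hpi := Real.pi_pos
  have hpi3 := Real.pi_gt_d4
  have hpi4 := Real.pi_lt_d4
  have k0 : 0 < k := by linarith
  obtain ⟨hF1, hF2, hσ2⟩ := h.J0_F he hσ hF
  obtain ⟨et, hke, he0, he1, he2, he3, he4, he5, he6, he7⟩ := h.J0_basic hk he hσ hF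
  obtain ⟨m1, m2, m3, m4, m5, m6⟩ := h.J0_m hk hA he hσ hF hke
  have hα := h.a1.2
  have het : (X1 - X2).im < et := by
    have : k * (X1 - X2).im < k * et := by linarith
    exact lt_of_mul_lt_mul_left this k0.le
  have hcm : 0 < Real.cos (-X1.im - (X2 - d1).im) :=
    Real.cos_pos_of_mem_Ioo ⟨by linarith, by linarith⟩
  set θ := (X1 - X2).im with hθ
  set m := -X1.im - (X2 - d1).im with hm
  have hσ0 : 0 < k * θ := by linarith
  set y := k * (X2 - X1).re / (k * θ) with hy
  have hτy : Real.tan m ≤ y := by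
    rw [hy, le_div_iff₀ hσ0]
    nlinarith
  have hτ0 : 0 ≤ Real.tan m := Real.tan_nonneg_of_nonneg_of_le_pi_div_two m2.le (by linarith)
  have hy2 : y ≤ 17 / 14 := by
    rw [hy, div_le_iff₀ hσ0]
    nlinarith
  have hmτ : m ≤ Real.tan m := Real.le_tan m2.le (by linarith)
  -- `ε`
  set ε := et - θ with hε
  have hε0 : 0 ≤ ε := by rw [hε]; linarith
  have hε1 : ε ≤ 0.02143 := by nlinarith
  have hε2 : ε ≤ 43 / 250 * (1 / k) := by
    have h1 : et = Real.pi / 2 * (1 / k) := by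
      field_simp
      linarith
    have h2 : 0 < 1 / k := by positivity
    rw [h1] at he6
    rw [← h1] at he6
    nlinarith
  have hcε := j0_cos_add_ge m2.le (by linarith) hε0
  have hsqε : Real.cos m ^ 2 * (9995 / 10000 - 431 / 10000 * Real.tan m) ≤
      Real.cos (m + ε) ^ 2 := by
    have h1 : 0 ≤ 1 - ε ^ 2 / 2 - ε * Real.tan m := by nlinarith
    have h2 : (Real.cos m * (1 - ε ^ 2 / 2 - ε * Real.tan m)) ^ 2 ≤ Real.cos (m + ε) ^ 2 :=
      pow_le_pow_left₀ (mul_nonneg hcm.le h1) hcε 2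
    refine le_trans ?_ h2
    rw [mul_pow]
    apply mul_le_mul_of_nonneg_left _ (sq_nonneg _)
    have h3 : ε ^ 2 ≤ 0.02143 ^ 2 := pow_le_pow_left₀ hε0 hε1 2
    have h4 : ε * Real.tan m ≤ 0.02143 * Real.tan m := mul_le_mul_of_nonneg_right hε1 hτ0
    nlinarith [sq_nonneg (ε ^ 2 / 2 + ε * Real.tan m)]
  have htan := j0_cos_sq_tan hcm.ne'
  have hmain : ∀ c : ℝ, 1975 / 1000 * Real.cos (m + ε) ^ 2 ≤ c →
      (197 / 100 - 9 / 100 * y) / (1 + y ^ 2) ≤ c := by
    intro c hc
    apply j0_s_rat hτ0 hτy hy2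
    refine le_trans ?_ hc
    have h1 : Real.cos m ^ 2 = 1 / (1 + Real.tan m ^ 2) := by
      rw [eq_div_iff (by positivity)]
      exact htan
    rw [h1] at hsqε
    calc (1975 / 1000) * (9995 / 10000 - 431 / 10000 * Real.tan m) / (1 + Real.tan m ^ 2) =
          1975 / 1000 * (1 / (1 + Real.tan m ^ 2) *
            (9995 / 10000 - 431 / 10000 * Real.tan m)) := by ring
      _ ≤ _ := by linarith
  have hmε : m + ε ≤ Real.pi / 2 := by
    -- `tan m ≤ 17/14`
    have h1 : m ≤ 1.3 := by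
      by_contra hcon
      push Not at hcon
      linarith
    linarith
  have h43 : 0 < 1 / k := by positivity
  have hsq := s_quad d0.im d1.im
  rcases lt_or_ge 0 (k * (X1 - d1).im) with hF0 | hF0
  · -- `F > 0`
    have hf3 := m5 hF0
    obtain ⟨s1, s2, s3, s4⟩ := h.J0_sP hk hA he hF2 hF0 hke
    have hακ : -X1.im ≤ m + ε := by
      rw [hm, hε]
      linarith
    have hcα : Real.cos (m + ε) ≤ Real.cos (-X1.im) :=
      Real.cos_le_cos_of_nonneg_of_le_pi (by linarith) (by linarith) hακ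
    have hcmε : 0 ≤ Real.cos (m + ε) := Real.cos_nonneg_of_mem_Icc ⟨by linarith, by linarith⟩
    have hsα : 1975 / 1000 * Real.cos (-X1.im) ^ 2 ≤
        Real.cos d0.im * (Real.cos d0.im + Real.cos d1.im) := by
      refine le_trans ?_ s4
      rcases le_or_gt et (-X1.im) with h1 | h1
      · have h2 := j0_two_cos_sq (m := -X1.im) (θ := et) he0.le h1 (by linarith)
        have := sq_nonneg (Real.cos (-X1.im))
        linarith
      · have h2 := Real.one_sub_sq_div_two_le_cos (x := -X1.im - et)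
        have h3 := Real.one_sub_sq_div_two_le_cos (x := -X1.im + et)
        have h4 : (-X1.im - et) ^ 2 ≤ (6 / 55 * et) ^ 2 := by
          apply sq_le_sq'
          · linarith
          · linarith
        have h5 : (-X1.im + et) ^ 2 ≤ (2 * et) ^ 2 :=
          pow_le_pow_left₀ (by linarith) (by linarith) 2
        have h6 : et ^ 2 ≤ (Real.pi / 16) ^ 2 := pow_le_pow_left₀ he0.le he1 2
        have h7 : et ^ 2 ≤ 0.03856 := by nlinarith
        have h8 : 0.97 * (-X1.im) ≤ Real.sin (-X1.im) := by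
          have h9 := Real.sin_gt_sub_cube (x := -X1.im) (by linarith)
          have h10 : (-X1.im) ^ 2 ≤ et ^ 2 := pow_le_pow_left₀ (by linarith) h1.le 2
          nlinarith
        have h9 : (49 / 55 * et) ≤ -X1.im := by linarith
        have h10 : (0.97 * (49 / 55 * et)) ^ 2 ≤ Real.sin (-X1.im) ^ 2 :=
          pow_le_pow_left₀ (by positivity) (by linarith) 2
        have h11 : Real.cos (-X1.im) ^ 2 = 1 - Real.sin (-X1.im) ^ 2 := by
          have := Real.sin_sq_add_cos_sq (-X1.im)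
          linarith
        have h12 : (1 - (6 / 55 * et) ^ 2 / 2) * ((1 - (6 / 55 * et) ^ 2 / 2) +
            (1 - (2 * et) ^ 2 / 2)) ≤ Real.cos (-X1.im - et) *
              (Real.cos (-X1.im - et) + Real.cos (-X1.im + et)) := by
          apply j0_s_mono
          · nlinarith
          · linarith
          · linarith
          · nlinarith
        refine le_trans ?_ h12
        rw [h11]
        nlinarith [sq_nonneg (et ^ 2)]
    have hcα2 : Real.cos (m + ε) ^ 2 ≤ Real.cos (-X1.im) ^ 2 := pow_le_pow_left₀ hcmε hcα 2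
    refine ⟨?_, hmain _ (by linarith), ?_⟩
    · have := j0_cos_sq_pi4 (α := -X1.im) (by linarith) (by linarith)
      linarith
    · refine le_trans ?_ hsq
      have h1 : d1.im = -(-X1.im + (X1 - d1).im) := by simp
      have h2 : d1.im ^ 2 ≤ (-X1.im + et) ^ 2 := by
        rw [h1, neg_sq]
        exact pow_le_pow_left₀ (by linarith) (by linarith) 2
      have h3 : d0.im ^ 2 = (-X1.im - et) ^ 2 := by
        rw [s1]
        ring
      have h4 : (-X1.im) ^ 2 ≤ (y + 43 / 250 * (1 / k)) ^ 2 :=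
        pow_le_pow_left₀ (by linarith) (by linarith) 2
      have h5 : et * (et - -X1.im) ≤ et * (et * (6 / 55)) := by
        apply mul_le_mul_of_nonneg_left _ he0.le
        linarith
      have h6 : et = Real.pi / 2 * (1 / k) := by
        field_simp
        linarith
      have h7 : et ^ 2 ≤ 2.4675 * (1 / k) ^ 2 := by
        rw [h6, mul_pow]
        apply mul_le_mul_of_nonneg_right _ (sq_nonneg _)
        nlinarith
      rw [h3]
      nlinarith
  · obtain ⟨n1, n2⟩ := m6 hF0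
    have hFe := F_eq (k := k) (X1 := X1) (X2 := X2) (d1 := d1)
    have e1 : (X1 - d1).im = θ + (X2 - d1).im := by
      rw [hθ]
      simp only [sub_im]
      ring
    have hd0 : |d0.im| ≤ m + ε := by
      rw [abs_le, hm, hε]
      rcases he7 with h1 | h1 <;> rw [h1] <;> constructor <;> linarith
    have hd1e : d1.im = X1.im - (X1 - d1).im := by simp
    have hd1 : |d1.im| ≤ m := by
      rw [hd1e, e1, abs_le, hm]
      constructor <;> linarith
    have hd1' : |d1.im| ≤ Real.pi / 4 := by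
      rw [hd1e, e1, abs_le]
      constructor <;> linarith
    have c0 : Real.cos (m + ε) ≤ Real.cos d0.im := by
      rw [← Real.cos_abs d0.im]
      exact Real.cos_le_cos_of_nonneg_of_le_pi (abs_nonneg _) (by linarith) hd0
    have c1 : Real.cos (m + ε) ≤ Real.cos d1.im := by
      rw [← Real.cos_abs d1.im]
      exact Real.cos_le_cos_of_nonneg_of_le_pi (abs_nonneg _) (by linarith) (by linarith)
    have hcmε : 0 ≤ Real.cos (m + ε) := Real.cos_nonneg_of_mem_Icc ⟨by linarith, by linarith⟩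
    have hs2 : Real.cos (m + ε) * (Real.cos (m + ε) + Real.cos (m + ε)) ≤
        Real.cos d0.im * (Real.cos d0.im + Real.cos d1.im) :=
      j0_s_mono hcmε c0 c1 (by linarith)
    refine ⟨?_, hmain _ (by nlinarith), ?_⟩
    · have h1 := cos_b2 hd1'
      have h2 : 0.6190 ≤ Real.cos (m + ε) := by
        have h3 : (0.6357 : ℝ) ≤ Real.cos m := by
          have h4 : Real.cos m ^ 2 * (1 + (17 / 14) ^ 2) ≥ 1 := by
            have h5 : Real.tan m ^ 2 ≤ (17 / 14) ^ 2 := pow_le_pow_left₀ hτ0 (by linarith) 2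
            have h6 : 0 ≤ Real.cos m ^ 2 := sq_nonneg _
            nlinarith
          by_contra hcon
          push Not at hcon
          have : Real.cos m ^ 2 < 0.6357 ^ 2 := pow_lt_pow_left₀ hcon hcm.le (by norm_num)
          nlinarith
        have h4 : Real.sin m ≤ 0.772 := by
          have h5 := Real.sin_sq_add_cos_sq m
          have h6 : (0.6357 : ℝ) ^ 2 ≤ Real.cos m ^ 2 := pow_le_pow_left₀ (by norm_num) h3 2
          by_contra hcon
          push Not at hcon
          have : (0.772 : ℝ) ^ 2 < Real.sin m ^ 2 := pow_lt_pow_left₀ hcon (by norm_num) (by norm_num)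
          nlinarith
        have h5 := Real.one_sub_sq_div_two_le_cos (x := ε)
        have h6 : Real.sin ε ≤ ε := Real.sin_le hε0
        have h7 : 0 ≤ Real.sin m := Real.sin_nonneg_of_nonneg_of_le_pi m2.le (by linarith)
        have h8 : ε ^ 2 ≤ 0.02143 ^ 2 := pow_le_pow_left₀ hε0 hε1 2
        rw [Real.cos_add]
        have h9 : 0.6357 * 0.99977 ≤ Real.cos m * Real.cos ε := by
          apply mul_le_mul h3 _ (by norm_num) hcm.le
          linarith
        have h10 : Real.sin m * Real.sin ε ≤ 0.772 * 0.02143 := by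
          calc Real.sin m * Real.sin ε ≤ Real.sin m * ε := mul_le_mul_of_nonneg_left h6 h7
            _ ≤ _ := mul_le_mul h4 hε1 hε0 (by norm_num)
        linarith
      have h3 : (0.6190 : ℝ) * (0.6190 + 0.7071) ≤
          Real.cos d0.im * (Real.cos d0.im + Real.cos d1.im) :=
        j0_s_mono (by norm_num) (h2.trans c0) h1 (by norm_num)
      linarith
    · refine le_trans ?_ hsq
      have h1 : d0.im ^ 2 ≤ (y + 43 / 250 * (1 / k)) ^ 2 := by
        rw [← sq_abs d0.im]
        exact pow_le_pow_left₀ (abs_nonneg _) (by linarith) 2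
      have h2 : d1.im ^ 2 ≤ (y + 43 / 250 * (1 / k)) ^ 2 := by
        rw [← sq_abs d1.im]
        exact pow_le_pow_left₀ (abs_nonneg _) (by linarith) 2
      have h3 : 0 ≤ (1 / k) ^ 2 := by positivity
      linarith

end EQS
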