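import Mathlib
set_option autoImplicit false
namespace EQS

namespace J0d

/-- `(1 - L/2 + L²/12)(e^L - 1) ≥ L` for `L ≥ 0` -/
theorem pade {L : ℝ} (hL : 0 ≤ L) (hL1 : L ≤ 17 / 10) :
    L ≤ (1 - L / 2 + L ^ 2 / 12) * (Real.exp L - 1) := by
  have h5 : 1 + L + L ^ 2 / 2 + L ^ 3 / 6 + L ^ 4 / 24 + L ^ 5 / 120 ≤ Real.exp L := by
    have := Real.sum_le_exp_of_nonneg hL 6
    simp [Finset.sum_range_succ, Nat.factorial] at this
    linarith
  have hq : (0 : ℝ) ≤ 1 - L / 2 + L ^ 2 / 12 := by nlinarith [sq_nonneg L]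
  have h1 : (1 - L / 2 + L ^ 2 / 12) * (L + L ^ 2 / 2 + L ^ 3 / 6 + L ^ 4 / 24 + L ^ 5 / 120) ≤
      (1 - L / 2 + L ^ 2 / 12) * (Real.exp L - 1) :=
    mul_le_mul_of_nonneg_left (by linarith) hq
  have h2 : (1 - L / 2 + L ^ 2 / 12) * (L + L ^ 2 / 2 + L ^ 3 / 6 + L ^ 4 / 24 + L ^ 5 / 120) =
      L + L ^ 5 / 720 * (1 - L / 2 + L ^ 2 / 2) := by ring
  have h3 : 0 ≤ L ^ 5 / 720 * (1 - L / 2 + L ^ 2 / 2) := by
    have : (0 : ℝ) ≤ 1 - L / 2 + L ^ 2 / 2 := by nlinarith [sq_nonneg (L - 1 / 2)]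
    positivity
  linarith

/-- the lower bound of `ell` -/
theorem ell_ge {L : ℝ} (hL : 0 < L) (hL1 : L ≤ 17 / 10) :
    1 - 7 / 100 * (L ^ 2 + L ^ 3 / 2 + L ^ 4 / 12) ≤
      1 - Real.exp L / (Real.exp L - 1) * (1 - Real.exp (-(7 / 100 * L ^ 3))) := by
  have he : 0 < Real.exp L - 1 := by
    have := Real.add_one_lt_exp hL.ne'
    linarith
  have h1 : 1 - Real.exp (-(7 / 100 * L ^ 3)) ≤ 7 / 100 * L ^ 3 := by
    have := Real.add_one_le_exp (-(7 / 100 * L ^ 3))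
    linarith
  have h2 : Real.exp L / (Real.exp L - 1) ≤ (1 + L / 2 + L ^ 2 / 12) / L := by
    rw [div_le_div_iff₀ he hL]
    have := pade hL.le hL1
    nlinarith
  have h0 : 0 ≤ Real.exp L / (Real.exp L - 1) := by positivity
  have h3 : Real.exp L / (Real.exp L - 1) * (1 - Real.exp (-(7 / 100 * L ^ 3))) ≤
      (1 + L / 2 + L ^ 2 / 12) / L * (7 / 100 * L ^ 3) :=
    (mul_le_mul_of_nonneg_left h1 h0).trans (mul_le_mul_of_nonneg_right h2 (by positivity))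
  have h4 : (1 + L / 2 + L ^ 2 / 12) / L * (7 / 100 * L ^ 3) =
      7 / 100 * (L ^ 2 + L ^ 3 / 2 + L ^ 4 / 12) := by
    field_simp
  linarith

/-- `K ≤ exp k` -/
theorem K_le {t L σ r N : ℝ} (ht : 0 < t) (hL : 0 < L) (hN0 : 0 ≤ N) :
    Real.exp (r * N / 2) * Real.sqrt ((1 + L * t) ^ 2 + (σ * t) ^ 2) * (1 + 3 / 25 * N) ≤
      Real.exp ((r / 2 + 3 / 25) * N + L * t + (σ * t) ^ 2 / 2) := by
  have hLt : 0 < L * t := mul_pos hL ht
  have h1 : 1 + 3 / 25 * N ≤ Real.exp (3 / 25 * N) := by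
    have := Real.add_one_le_exp (3 / 25 * N)
    linarith
  have h2 : Real.sqrt ((1 + L * t) ^ 2 + (σ * t) ^ 2) ≤ Real.exp (L * t + (σ * t) ^ 2 / 2) := by
    rw [Real.sqrt_le_left (Real.exp_pos _).le]
    have e1 : 1 + L * t ≤ Real.exp (L * t) := by
      have := Real.add_one_le_exp (L * t)
      linarith
    have e2 : 1 + (σ * t) ^ 2 ≤ Real.exp ((σ * t) ^ 2) := by
      have := Real.add_one_le_exp ((σ * t) ^ 2)
      linarith
    have e3 : Real.exp (L * t + (σ * t) ^ 2 / 2) ^ 2 = Real.exp (L * t) ^ 2 *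
        Real.exp ((σ * t) ^ 2) := by
      rw [← Real.exp_nat_mul, ← Real.exp_nat_mul, ← Real.exp_add]
      congr 1
      push_cast
      ring
    rw [e3]
    have e4 : (1 + L * t) ^ 2 ≤ Real.exp (L * t) ^ 2 := pow_le_pow_left₀ (by positivity) e1 2
    have e5 : (1 + L * t) ^ 2 * (1 + (σ * t) ^ 2) ≤ Real.exp (L * t) ^ 2 *
        Real.exp ((σ * t) ^ 2) := mul_le_mul e4 e2 (by positivity) (by positivity)
    have e6 : (1 : ℝ) ≤ (1 + L * t) ^ 2 := by nlinarith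
    have e7 : (1 + L * t) ^ 2 + (σ * t) ^ 2 ≤ (1 + L * t) ^ 2 * (1 + (σ * t) ^ 2) := by
      nlinarith [mul_nonneg (sub_nonneg.2 e6) (sq_nonneg (σ * t))]
    linarith
  calc Real.exp (r * N / 2) * Real.sqrt ((1 + L * t) ^ 2 + (σ * t) ^ 2) * (1 + 3 / 25 * N)
      ≤ Real.exp (r * N / 2) * Real.exp (L * t + (σ * t) ^ 2 / 2) * Real.exp (3 / 25 * N) := by
        gcongr
    _ = Real.exp ((r / 2 + 3 / 25) * N + L * t + (σ * t) ^ 2 / 2) := by
        rw [← Real.exp_add, ← Real.exp_add]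
        congr 1
        ring

/-- the common last step -/
theorem fin_core {t L σ r N k x m : ℝ} (ht : 0 < t) (hL : 0 < L) (hL1 : L ≤ 17 / 10)
    (hN0 : 0 ≤ N) (hk : (r / 2 + 3 / 25) * N + L * t + (σ * t) ^ 2 / 2 ≤ k) (hx : k + x ≤ L)
    (hm0 : 0 < m)
    (hm : m ≤ Real.exp x * (1 - 7 / 100 * (L ^ 2 + L ^ 3 / 2 + L ^ 4 / 12))) :
    m * (Real.exp (r * N / 2) * Real.sqrt ((1 + L * t) ^ 2 + (σ * t) ^ 2) * (1 + 3 / 25 * N)) ≤
        Real.exp L * (1 - Real.exp L / (Real.exp L - 1) *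
          (1 - Real.exp (-(7 / 100 * L ^ 3)))) := by
  have hK := K_le (σ := σ) (r := r) ht hL hN0
  have he := ell_ge hL hL1
  set e := 1 - 7 / 100 * (L ^ 2 + L ^ 3 / 2 + L ^ 4 / 12) with hedef
  set K := Real.exp (r * N / 2) * Real.sqrt ((1 + L * t) ^ 2 + (σ * t) ^ 2) * (1 + 3 / 25 * N)
  have hKk : K ≤ Real.exp k := hK.trans (Real.exp_le_exp.2 hk)
  have he0 : 0 ≤ e := by
    by_contra hcon
    push Not at hcon
    have : Real.exp x * e < 0 := mul_neg_of_pos_of_neg (Real.exp_pos _) hcon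
    linarith
  calc m * K ≤ m * Real.exp k := mul_le_mul_of_nonneg_left hKk hm0.le
    _ ≤ (Real.exp x * e) * Real.exp k := mul_le_mul_of_nonneg_right hm (Real.exp_pos _).le
    _ = Real.exp (k + x) * e := by rw [Real.exp_add]; ring
    _ ≤ Real.exp L * e := mul_le_mul_of_nonneg_right (Real.exp_le_exp.2 hx) he0
    _ ≤ _ := mul_le_mul_of_nonneg_left he (Real.exp_pos _).le

/-- concavity of the quartic on an interval, as a chord bound -/
theorem chord {A B L θ : ℝ} (hA : 0 ≤ A) (hB : A ≤ B) (hθ : 0 ≤ θ) (hθ1 : θ ≤ 1)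
    (hL : L = A + θ * (B - A)) :
    (1 - θ) * (1 - 7 / 100 * (A ^ 2 + A ^ 3 / 2 + A ^ 4 / 12)) +
      θ * (1 - 7 / 100 * (B ^ 2 + B ^ 3 / 2 + B ^ 4 / 12)) ≤
    1 - 7 / 100 * (L ^ 2 + L ^ 3 / 2 + L ^ 4 / 12) := by
  have hB0 : 0 ≤ B := hA.trans hB
  have hL' : L = (1 - θ) * A + θ * B := by rw [hL]; ring
  have c : ∀ n : ℕ, L ^ n ≤ (1 - θ) * A ^ n + θ * B ^ n := by
    intro n
    have := (convexOn_pow n).2 (Set.mem_Ici.2 hA) (Set.mem_Ici.2 hB0) (sub_nonneg.2 hθ1) hθ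
      (by ring)
    simpa [hL', smul_eq_mul] using this
  have c2 := c 2
  have c3 := c 3
  have c4 := c 4
  linarith

/-- interval step -/
theorem step {t L σ s r N A B a0 N0 r0 s0 P0 m : ℝ} (ht : 0 < t) (ht8 : t ≤ 1 / 8)
    (hσ0 : 0 < σ) (hN : N ^ 2 = (L * t) ^ 2 + (σ * t) ^ 2) (hNn : 0 ≤ N) (hrn : 0 ≤ r)
    (ha : σ * t ≤ a0) (hr : r ≤ r0) (hs : s0 ≤ s)
    (hA0 : 0 < A) (hAL : A ≤ L) (hLB : L ≤ B) (hAB : A < B) (hB : B ≤ 17 / 10)
    (hN0 : 0 ≤ N0) (hN0' : (B / 8) ^ 2 + a0 ^ 2 ≤ N0 ^ 2)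
    (hX : 0 ≤ 7 / 8 * A - ((r0 / 2 + 3 / 25) * N0 + a0 ^ 2 / 2))
    (hP0 : 0 ≤ P0)
    (hP : P0 ≤ 1 + (7 / 8 * A - ((r0 / 2 + 3 / 25) * N0 + a0 ^ 2 / 2)) +
      (7 / 8 * A - ((r0 / 2 + 3 / 25) * N0 + a0 ^ 2 / 2)) ^ 2 / 2 +
      (7 / 8 * A - ((r0 / 2 + 3 / 25) * N0 + a0 ^ 2 / 2)) ^ 3 / 6)
    (hm0 : 0 < m)
    (hm1 : m ≤ P0 * (1 - 7 / 100 * (A ^ 2 + A ^ 3 / 2 + A ^ 4 / 12)))
    (hm2 : m ≤ P0 * (1 + 7 / 8 * (B - A)) * (1 - 7 / 100 * (B ^ 2 + B ^ 3 / 2 + B ^ 4 / 12)))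
    (hms : 1 + m < s0 * m ^ 2) :
    ∃ m : ℝ, 0 < m ∧ 1 + m < s * m ^ 2 ∧
      m * (Real.exp (r * N / 2) * Real.sqrt ((1 + L * t) ^ 2 + (σ * t) ^ 2) * (1 + 3 / 25 * N)) ≤
        Real.exp L * (1 - Real.exp L / (Real.exp L - 1) *
          (1 - Real.exp (-(7 / 100 * L ^ 3)))) := by
  have hL0 : 0 < L := hA0.trans_le hAL
  have hσt : 0 < σ * t := mul_pos hσ0 ht
  have ha0 : 0 < a0 := hσt.trans_le ha
  have hr00 : 0 ≤ r0 := hrn.trans hr
  refine ⟨m, hm0, hms.trans_le (mul_le_mul_of_nonneg_right hs (sq_nonneg m)), ?_⟩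
  set κ := (r0 / 2 + 3 / 25) * N0 + a0 ^ 2 / 2 with hκ
  have hLt : L * t ≤ L / 8 := by nlinarith
  have hLt0 : 0 ≤ L * t := (mul_pos hL0 ht).le
  have hNN0 : N ≤ N0 := by
    apply le_of_sq_le_sq _ hN0 |>.trans le_rfl
    have e1 : (L * t) ^ 2 ≤ (B / 8) ^ 2 := pow_le_pow_left₀ hLt0 (by linarith) 2
    have e2 : (σ * t) ^ 2 ≤ a0 ^ 2 := pow_le_pow_left₀ hσt.le ha 2
    linarith
  refine fin_core (k := κ + L / 8) (x := 7 / 8 * L - κ) ht hL0 (hLB.trans hB) hNn ?_ ?_ hm0 ?_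
  · have e1 : (r / 2 + 3 / 25) * N ≤ (r0 / 2 + 3 / 25) * N0 := by gcongr
    have e2 : (σ * t) ^ 2 ≤ a0 ^ 2 := pow_le_pow_left₀ hσt.le ha 2
    rw [hκ]
    linarith
  · linarith
  · obtain ⟨θ, hθ0, hθ1, hLθ⟩ : ∃ θ : ℝ, 0 ≤ θ ∧ θ ≤ 1 ∧ L = A + θ * (B - A) := by
      refine ⟨(L - A) / (B - A), div_nonneg (by linarith) (by linarith),
        (div_le_one (by linarith)).2 (by linarith), ?_⟩
      have : B - A ≠ 0 := (sub_pos.2 hAB).ne'
      field_simp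
      ring
    have hch := chord hA0.le hAB.le hθ0 hθ1 hLθ
    set eA := 1 - 7 / 100 * (A ^ 2 + A ^ 3 / 2 + A ^ 4 / 12) with heA
    set eB := 1 - 7 / 100 * (B ^ 2 + B ^ 3 / 2 + B ^ 4 / 12) with heB
    have hAB0 : 0 < B - A := sub_pos.2 hAB
    have heBA : eB ≤ eA := by
      have e2 : A ^ 2 ≤ B ^ 2 := pow_le_pow_left₀ hA0.le hAB.le 2
      have e3 : A ^ 3 ≤ B ^ 3 := pow_le_pow_left₀ hA0.le hAB.le 3
      have e4 : A ^ 4 ≤ B ^ 4 := pow_le_pow_left₀ hA0.le hAB.le 4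
      rw [heA, heB]
      linarith
    have heB0 : 0 < eB := by
      by_contra hcon
      push Not at hcon
      have : P0 * (1 + 7 / 8 * (B - A)) * eB ≤ 0 :=
        mul_nonpos_of_nonneg_of_nonpos (by positivity) hcon
      linarith
    have hexpX : P0 ≤ Real.exp (7 / 8 * A - κ) := by
      refine hP.trans ?_
      have := Real.sum_le_exp_of_nonneg hX 4
      simp [Finset.sum_range_succ, Nat.factorial] at this
      linarith
    have hexp : P0 * (1 + 7 / 8 * (θ * (B - A))) ≤ Real.exp (7 / 8 * L - κ) := by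
      have e1 : 7 / 8 * L - κ = (7 / 8 * A - κ) + 7 / 8 * (θ * (B - A)) := by rw [hLθ]; ring
      rw [e1, Real.exp_add]
      have e2 : 1 + 7 / 8 * (θ * (B - A)) ≤ Real.exp (7 / 8 * (θ * (B - A))) := by
        have := Real.add_one_le_exp (7 / 8 * (θ * (B - A)))
        linarith
      exact mul_le_mul hexpX e2 (by positivity) (Real.exp_pos _).le
    have hmid : m ≤ P0 * (1 + 7 / 8 * (θ * (B - A))) * ((1 - θ) * eA + θ * eB) := by
      have e3 : P0 * (1 + 7 / 8 * (θ * (B - A))) * ((1 - θ) * eA + θ * eB) =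
          (1 - θ) * (P0 * eA) + θ * (P0 * (1 + 7 / 8 * (B - A)) * eB) +
            P0 * (7 / 8 * (B - A)) * (θ * (1 - θ)) * (eA - eB) := by ring
      have e4 : 0 ≤ P0 * (7 / 8 * (B - A)) * (θ * (1 - θ)) * (eA - eB) :=
        mul_nonneg (mul_nonneg (by positivity) (mul_nonneg hθ0 (by linarith))) (by linarith)
      have e5 : (1 - θ) * m ≤ (1 - θ) * (P0 * eA) :=
        mul_le_mul_of_nonneg_left hm1 (by linarith)
      have e6 : θ * m ≤ θ * (P0 * (1 + 7 / 8 * (B - A)) * eB) :=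
        mul_le_mul_of_nonneg_left hm2 hθ0
      rw [e3]
      linarith
    refine hmid.trans (mul_le_mul hexp hch ?_ (Real.exp_pos _).le)
    have : 0 ≤ (1 - θ) * eA := mul_nonneg (by linarith) (heB0.le.trans heBA)
    have : 0 ≤ θ * eB := mul_nonneg hθ0 heB0.le
    linarith

/-- the step at small `L` -/
theorem small {t L σ s r N ca n0 r0 cq δ μ : ℝ} (ht : 0 < t) (ht8 : t ≤ 1 / 8)
    (hσ0 : 0 < σ) (hN : N ^ 2 = (L * t) ^ 2 + (σ * t) ^ 2) (hNn : 0 ≤ N) (hrn : 0 ≤ r)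
    (hL0 : 0 < L) (hL : L ≤ 3 / 10) (ha : σ * t ≤ ca * L) (hr : r ≤ r0)
    (hs : 2 - cq * L ^ 2 ≤ s) (hcq : 0 ≤ cq) (hca : 0 ≤ ca)
    (hn0 : 0 ≤ n0) (hn : 1 / 64 + ca ^ 2 ≤ n0 ^ 2)
    (hδ : (r0 / 2 + 3 / 25) * n0 + 1 / 8 + ca ^ 2 * (3 / 20) + δ ≤ 1) (hδ0 : 0 ≤ δ)
    (hμ : 0 < μ) (hμδ : μ + 811 / 10000 * (3 / 10) + δ * (811 / 10000) * (9 / 100) ≤ δ)
    (hfin : 3 / 10 * cq * (1 + 3 / 10 * μ) ^ 2 < 3 * μ) :
    ∃ m : ℝ, 0 < m ∧ 1 + m < s * m ^ 2 ∧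
      m * (Real.exp (r * N / 2) * Real.sqrt ((1 + L * t) ^ 2 + (σ * t) ^ 2) * (1 + 3 / 25 * N)) ≤
        Real.exp L * (1 - Real.exp L / (Real.exp L - 1) *
          (1 - Real.exp (-(7 / 100 * L ^ 3)))) := by
  have hσt : 0 < σ * t := mul_pos hσ0 ht
  have hr00 : 0 ≤ r0 := hrn.trans hr
  have hLt : L * t ≤ L / 8 := by nlinarith
  have hLt0 : 0 ≤ L * t := (mul_pos hL0 ht).le
  have hNN0 : N ≤ n0 * L := by
    refine le_of_sq_le_sq ?_ (by positivity)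
    have e1 : (L * t) ^ 2 ≤ (L / 8) ^ 2 := pow_le_pow_left₀ hLt0 hLt 2
    have e2 : (σ * t) ^ 2 ≤ (ca * L) ^ 2 := pow_le_pow_left₀ hσt.le ha 2
    have e3 : (1 / 64 + ca ^ 2) * L ^ 2 ≤ n0 ^ 2 * L ^ 2 :=
      mul_le_mul_of_nonneg_right hn (sq_nonneg L)
    nlinarith
  have hm0 : 0 < 1 + μ * L := by positivity
  refine ⟨1 + μ * L, hm0, ?_, ?_⟩
  · have hμL : μ * L ≤ 3 / 10 * μ := by nlinarith
    have e0 : 0 ≤ μ * L := by positivity
    have e1 : (1 + μ * L) ^ 2 ≤ (1 + 3 / 10 * μ) ^ 2 := by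
      apply pow_le_pow_left₀ hm0.le
      linarith
    have e2 : cq * L ^ 2 * (1 + μ * L) ^ 2 ≤ L * (3 / 10 * cq * (1 + 3 / 10 * μ) ^ 2) := by
      have e3 : cq * L ^ 2 ≤ L * (3 / 10 * cq) := by
        have : cq * L * L ≤ cq * L * (3 / 10) :=
          mul_le_mul_of_nonneg_left hL (by positivity)
        nlinarith
      calc cq * L ^ 2 * (1 + μ * L) ^ 2 ≤ L * (3 / 10 * cq) * (1 + 3 / 10 * μ) ^ 2 :=
            mul_le_mul e3 e1 (by positivity) (by positivity)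
        _ = _ := by ring
    have e4 : L * (3 / 10 * cq * (1 + 3 / 10 * μ) ^ 2) < L * (3 * μ) :=
      mul_lt_mul_of_pos_left hfin hL0
    have e5 : (2 - cq * L ^ 2) * (1 + μ * L) ^ 2 ≤ s * (1 + μ * L) ^ 2 :=
      mul_le_mul_of_nonneg_right hs (by positivity)
    nlinarith [sq_nonneg (μ * L)]
  · refine fin_core (k := (1 - δ) * L) (x := δ * L) ht hL0 (by linarith) hNn ?_ ?_ hm0 ?_
    · have e1 : (r / 2 + 3 / 25) * N ≤ (r0 / 2 + 3 / 25) * (n0 * L) := by gcongr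
      have e2 : (σ * t) ^ 2 ≤ (ca * L) ^ 2 := pow_le_pow_left₀ hσt.le ha 2
      have e3 : (ca * L) ^ 2 ≤ ca ^ 2 * (3 / 10) * L := by
        have : ca ^ 2 * L * L ≤ ca ^ 2 * L * (3 / 10) :=
          mul_le_mul_of_nonneg_left hL (by positivity)
        nlinarith
      have e4 : ((r0 / 2 + 3 / 25) * n0 + 1 / 8 + ca ^ 2 * (3 / 20) + δ) * L ≤ 1 * L :=
        mul_le_mul_of_nonneg_right hδ hL0.le
      nlinarith
    · linarith
    · have e1 : 1 + δ * L ≤ Real.exp (δ * L) := by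
        have := Real.add_one_le_exp (δ * L)
        linarith
      have hLL : L ^ 2 ≤ 3 / 10 * L := by nlinarith
      have hL3 : L ^ 3 ≤ 3 / 10 * L ^ 2 := by nlinarith [sq_nonneg L]
      have hL4 : L ^ 4 ≤ 9 / 100 * L ^ 2 := by
        have : L ^ 2 * L ^ 2 ≤ 9 / 100 * L ^ 2 :=
          mul_le_mul_of_nonneg_right (by nlinarith) (sq_nonneg L)
        nlinarith
      have e2 : 1 - 811 / 10000 * L ^ 2 ≤ 1 - 7 / 100 * (L ^ 2 + L ^ 3 / 2 + L ^ 4 / 12) := by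
        have := sq_nonneg L
        linarith
      have e3 : 0 ≤ 1 - 811 / 10000 * L ^ 2 := by nlinarith
      refine le_trans ?_ (mul_le_mul e1 e2 e3 (Real.exp_pos _).le)
      have e4 : δ * L * (811 / 10000 * L ^ 2) ≤ δ * L * (811 / 10000 * (9 / 100)) := by
        have : L ^ 2 ≤ 9 / 100 := by nlinarith
        gcongr
      have e5 : (μ + 811 / 10000 * (3 / 10) + δ * (811 / 10000) * (9 / 100)) * L ≤ δ * L :=
        mul_le_mul_of_nonneg_right hμδ hL0.le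
      nlinarith

theorem r_le {r s r0 s0 : ℝ} (hrs : r ^ 2 * s ≤ 1) (hs : s0 ≤ s) (hr0 : 0 ≤ r0)
    (hs0 : 0 < s0) (h : 1 ≤ r0 ^ 2 * s0) : r ≤ r0 := by
  refine le_of_sq_le_sq ?_ hr0
  have h1 : r ^ 2 * s0 ≤ r ^ 2 * s := mul_le_mul_of_nonneg_left hs (sq_nonneg r)
  exact le_of_mul_le_mul_right (h1.trans (hrs.trans h)) hs0

/-- `σ t ≤ a0` from `σ (2σ - 11/7) t ≤ L ≤ B`, `t ≤ 1/8` -/
theorem a_le {t L σ a0 B : ℝ} (ht : 0 < t) (ht8 : t ≤ 1 / 8) (hσ : 7 / 5 ≤ σ)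
    (hLσ : σ * (2 * σ - 11 / 7) * t ≤ L) (hB : L ≤ B)
    (h : B ≤ a0 * (16 * a0 - 11 / 7)) (ha : 11 / 112 < a0) : σ * t ≤ a0 := by
  by_contra hcon
  push Not at hcon
  have h1 : 8 * (σ * t) ≤ σ := by nlinarith
  have h2 : σ * t * (16 * (σ * t) - 11 / 7) ≤ σ * (2 * σ - 11 / 7) * t := by nlinarith
  have h3 : a0 * (16 * a0 - 11 / 7) < σ * t * (16 * (σ * t) - 11 / 7) := by nlinarith
  linarith

end J0d

open J0d

/-- (FIN), `σ ≥ π/2`; margin `(s m² - 1 - m)/L ≥ 1.28` -/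
theorem fin0 {t L σ s r N : ℝ} (ht : 0 < t) (ht8 : t ≤ 1 / 8) (hL0 : 0 < L) (hL1 : L ≤ 17 / 10)
    (hσ : 3 / 2 ≤ σ) (hσ1 : σ ≤ 22 / 7) (hLσ : σ * (2 * σ - 11 / 7) * t ≤ L)
    (hN : N ^ 2 = (L * t) ^ 2 + (σ * t) ^ 2) (hN0 : 0 ≤ N) (hr : 0 ≤ r) (hr1 : r ≤ 53 / 50)
    (hrs : r ^ 2 * s ≤ 1) (hs1 : 1 ≤ s) (hs2 : 2 * σ ^ 2 / (σ ^ 2 + L ^ 2) ≤ s) :
    ∃ m : ℝ, 0 < m ∧ 1 + m < s * m ^ 2 ∧
      m * (Real.exp (r * N / 2) * Real.sqrt ((1 + L * t) ^ 2 + (σ * t) ^ 2) * (1 + 3 / 25 * N)) ≤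
        Real.exp L * (1 - Real.exp L / (Real.exp L - 1) * (1 - Real.exp (-(7 / 100 * L ^ 3)))) := by
  have hσ0 : 0 < σ := by linarith
  have hσ75 : 7 / 5 ≤ σ := by linarith
  have hsB : ∀ B s0 : ℝ, L ≤ B → 0 ≤ s0 → s0 * (9 / 4 + B ^ 2) ≤ 9 / 2 → s0 ≤ s := by
    intro B s0 hLB hs0 hsB
    refine le_trans ?_ hs2
    rw [le_div_iff₀ (by positivity)]
    have e1 : L ^ 2 ≤ B ^ 2 := pow_le_pow_left₀ hL0.le hLB 2
    have e2 : (9 : ℝ) / 4 ≤ σ ^ 2 := by nlinarith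
    have e3 : s0 ≤ 2 := by nlinarith [sq_nonneg B]
    nlinarith [mul_nonneg (sub_nonneg.2 e3) (sub_nonneg.2 e2), mul_le_mul_of_nonneg_left e1 hs0]
  rcases le_or_gt L (3 / 10) with h1 | h1
  · have hs : 2 - 8 / 9 * L ^ 2 ≤ s := by
      refine le_trans ?_ hs2
      rw [le_div_iff₀ (by positivity)]
      have e2 : (9 : ℝ) / 4 ≤ σ ^ 2 := by nlinarith
      have e3 : 0 ≤ L ^ 2 * (8 / 9 * σ ^ 2 - 2) := mul_nonneg (sq_nonneg _) (by linarith)
      have e4 : 0 ≤ L ^ 2 * L ^ 2 := by positivity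
      nlinarith
    have hs' : 192 / 100 ≤ s := by nlinarith
    have hr' : r ≤ 722 / 1000 := r_le hrs hs' (by norm_num) (by norm_num) (by norm_num)
    have ha : σ * t ≤ 7 / 10 * L := by
      have : σ * t * (10 / 7) ≤ σ * t * (2 * σ - 11 / 7) :=
        mul_le_mul_of_nonneg_left (by linarith) (by positivity)
      nlinarith
    exact small (ca := 7 / 10) (n0 := 712 / 1000) (r0 := 722 / 1000) (cq := 8 / 9)
      (δ := 459 / 1000) (μ := 43 / 100) ht ht8 hσ0 hN hN0 hr hL0 h1 ha hr' hs (by norm_num)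
      (by norm_num) (by norm_num) (by norm_num) (by norm_num) (by norm_num) (by norm_num)
      (by norm_num) (by norm_num)
  rcases le_or_gt L (11 / 20) with h2 | h2
  · have hs := hsB (11 / 20) (881 / 500) h2 (by norm_num) (by norm_num)
    have hr' : r ≤ 377 / 500 := r_le hrs hs (by norm_num) (by norm_num) (by norm_num)
    have ha : σ * t ≤ 241 / 1000 := a_le ht ht8 hσ75 hLσ h2 (by norm_num) (by norm_num)
    exact step (A := 3 / 10) (B := 11 / 20) (a0 := 241 / 1000) (N0 := 251 / 1000)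
      (r0 := 377 / 500) (s0 := 881 / 500) (P0 := 557 / 500) (m := 221 / 200) ht ht8 hσ0 hN hN0 hr
      ha hr' hs (by norm_num) h1.le h2 (by norm_num) (by norm_num) (by norm_num) (by norm_num)
      (by norm_num) (by norm_num) (by norm_num) (by norm_num) (by norm_num) (by norm_num)
      (by norm_num)
  rcases le_or_gt L (9 / 10) with h3 | h3
  · have hs := hsB (9 / 10) (147 / 100) h3 (by norm_num) (by norm_num)
    have hr' : r ≤ 33 / 40 := r_le hrs hs (by norm_num) (by norm_num) (by norm_num)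
    have ha : σ * t ≤ 73 / 250 := a_le ht ht8 hσ75 hLσ h3 (by norm_num) (by norm_num)
    exact step (A := 11 / 20) (B := 9 / 10) (a0 := 73 / 250) (N0 := 313 / 1000)
      (r0 := 33 / 40) (s0 := 147 / 100) (P0 := 164 / 125) (m := 51 / 40) ht ht8 hσ0 hN hN0 hr
      ha hr' hs (by norm_num) h2.le h3 (by norm_num) (by norm_num) (by norm_num) (by norm_num)
      (by norm_num) (by norm_num) (by norm_num) (by norm_num) (by norm_num) (by norm_num)
      (by norm_num)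
  rcases le_or_gt L (13 / 10) with h4 | h4
  · have hs := hsB (13 / 10) (571 / 500) h4 (by norm_num) (by norm_num)
    have hr' : r ≤ 117 / 125 := r_le hrs hs (by norm_num) (by norm_num) (by norm_num)
    have ha : σ * t ≤ 339 / 1000 := a_le ht ht8 hσ75 hLσ h4 (by norm_num) (by norm_num)
    exact step (A := 9 / 10) (B := 13 / 10) (a0 := 339 / 1000) (N0 := 47 / 125)
      (r0 := 117 / 125) (s0 := 571 / 500) (P0 := 83 / 50) (m := 1517 / 1000) ht ht8 hσ0 hN hN0 hr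
      ha hr' hs (by norm_num) h3.le h4 (by norm_num) (by norm_num) (by norm_num) (by norm_num)
      (by norm_num) (by norm_num) (by norm_num) (by norm_num) (by norm_num) (by norm_num)
      (by norm_num)
  · have hr' : r ≤ 1 := r_le hrs hs1 (by norm_num) (by norm_num) (by norm_num)
    have ha : σ * t ≤ 379 / 1000 := a_le ht ht8 hσ75 hLσ hL1 (by norm_num) (by norm_num)
    exact step (A := 13 / 10) (B := 17 / 10) (a0 := 379 / 1000) (N0 := 87 / 200)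
      (r0 := 1) (s0 := 1) (P0 := 549 / 250) (m := 171 / 100) ht ht8 hσ0 hN hN0 hr
      ha hr' hs1 (by norm_num) h4.le hL1 (by norm_num) (by norm_num) (by norm_num) (by norm_num)
      (by norm_num) (by norm_num) (by norm_num) (by norm_num) (by norm_num) (by norm_num)
      (by norm_num)

/-- (FIN), `σ ≤ π/2`; margin `(s m² - 1 - m)/L ≥ .75` -/
theorem fin1 {t L σ s r N : ℝ} (ht : 0 < t) (ht8 : t ≤ 1 / 8) (hL0 : 0 < L) (hL1 : L ≤ 17 / 10)
    (hσ : 7 / 5 ≤ σ) (hσ1 : σ ≤ 11 / 7) (hLσ : σ * (2 * σ - 11 / 7) * t ≤ L)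
    (hN : N ^ 2 = (L * t) ^ 2 + (σ * t) ^ 2) (hN0 : 0 ≤ N) (hr : 0 ≤ r) (hr1 : r ≤ 53 / 50)
    (hrs : r ^ 2 * s ≤ 1) (hs1 : 41 / 50 ≤ s)
    (hs2 : (197 / 100 - 9 / 100 * (L / σ)) / (1 + (L / σ) ^ 2) ≤ s)
    (hs3 : 2 - 2 * (L / σ + 43 / 250 * t) ^ 2 - 27 / 50 * t ^ 2 ≤ s) :
    ∃ m : ℝ, 0 < m ∧ 1 + m < s * m ^ 2 ∧
      m * (Real.exp (r * N / 2) * Real.sqrt ((1 + L * t) ^ 2 + (σ * t) ^ 2) * (1 + 3 / 25 * N)) ≤
        Real.exp L * (1 - Real.exp L / (Real.exp L - 1) * (1 - Real.exp (-(7 / 100 * L ^ 3)))) := by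
  have hσ0 : 0 < σ := by linarith
  have hy0 : 0 < L / σ := div_pos hL0 hσ0
  have hyL : L / σ ≤ 5 / 7 * L := by
    rw [div_le_iff₀ hσ0]
    nlinarith
  have ha : σ * t ≤ 197 / 1000 := by nlinarith
  have hsB : ∀ B s0 : ℝ, L ≤ B → 0 ≤ s0 →
      s0 * (1 + (5 / 7 * B) ^ 2) ≤ 197 / 100 - 9 / 100 * (5 / 7 * B) → s0 ≤ s := by
    intro B s0 hLB hs0 hsB
    refine le_trans ?_ hs2
    rw [le_div_iff₀ (by positivity)]
    have e1 : L / σ ≤ 5 / 7 * B := by linarith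
    have e2 : (L / σ) ^ 2 ≤ (5 / 7 * B) ^ 2 := pow_le_pow_left₀ hy0.le e1 2
    nlinarith [mul_le_mul_of_nonneg_left e2 hs0]
  rcases le_or_gt L (3 / 10) with h1 | h1
  · have ht2 : t ≤ 5814 / 10000 * L := by
      have e1 : 43 / 35 ≤ 2 * σ - 11 / 7 := by linarith
      have e2 : 7 / 5 * (43 / 35) ≤ σ * (2 * σ - 11 / 7) :=
        mul_le_mul hσ e1 (by norm_num) hσ0.le
      nlinarith
    have hs : 2 - 151 / 100 * L ^ 2 ≤ s := by
      refine le_trans ?_ hs3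
      have e1 : L / σ + 43 / 250 * t ≤ 8143 / 10000 * L := by
        linarith
      have e2 : (L / σ + 43 / 250 * t) ^ 2 ≤ (8143 / 10000 * L) ^ 2 :=
        pow_le_pow_left₀ (by positivity) e1 2
      have e3 : t ^ 2 ≤ (5814 / 10000 * L) ^ 2 := pow_le_pow_left₀ ht.le ht2 2
      nlinarith
    have hs' : 1864 / 1000 ≤ s := by nlinarith
    have hr' : r ≤ 7326 / 10000 := r_le hrs hs' (by norm_num) (by norm_num) (by norm_num)
    have ha : σ * t ≤ 814 / 1000 * L := by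
      have : σ * t * (43 / 35) ≤ σ * t * (2 * σ - 11 / 7) :=
        mul_le_mul_of_nonneg_left (by linarith) (by positivity)
      nlinarith
    exact small (ca := 814 / 1000) (n0 := 824 / 1000) (r0 := 7326 / 10000) (cq := 151 / 100)
      (δ := 37 / 100) (μ := 34 / 100) ht ht8 hσ0 hN hN0 hr hL0 h1 ha hr' hs (by norm_num)
      (by norm_num) (by norm_num) (by norm_num) (by norm_num) (by norm_num) (by norm_num)
      (by norm_num) (by norm_num)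
  rcases le_or_gt L (1 / 2) with h2 | h2
  · have hs := hsB (1 / 2) (1716 / 1000) h2 (by norm_num) (by norm_num)
    have hr' : r ≤ 764 / 1000 := r_le hrs hs (by norm_num) (by norm_num) (by norm_num)
    exact step (A := 3 / 10) (B := 1 / 2) (a0 := 197 / 1000) (N0 := 207 / 1000)
      (r0 := 764 / 1000) (s0 := 1716 / 1000) (P0 := 1148 / 1000) (m := 1139 / 1000) ht ht8 hσ0 hN
      hN0 hr ha hr' hs (by norm_num) h1.le h2 (by norm_num) (by norm_num) (by norm_num)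
      (by norm_num) (by norm_num) (by norm_num) (by norm_num) (by norm_num) (by norm_num)
      (by norm_num) (by norm_num)
  rcases le_or_gt L (17 / 20) with h3 | h3
  · have hs := hsB (17 / 20) (1398 / 1000) h3 (by norm_num) (by norm_num)
    have hr' : r ≤ 847 / 1000 := r_le hrs hs (by norm_num) (by norm_num) (by norm_num)
    exact step (A := 1 / 2) (B := 17 / 20) (a0 := 197 / 1000) (N0 := 28 / 125)
      (r0 := 847 / 1000) (s0 := 1398 / 1000) (P0 := 1343 / 1000) (m := 1312 / 1000) ht ht8 hσ0 hN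
      hN0 hr ha hr' hs (by norm_num) h2.le h3 (by norm_num) (by norm_num) (by norm_num)
      (by norm_num) (by norm_num) (by norm_num) (by norm_num) (by norm_num) (by norm_num)
      (by norm_num) (by norm_num)
  rcases le_or_gt L (13 / 10) with h4 | h4
  · have hs := hsB (13 / 10) (1011 / 1000) h4 (by norm_num) (by norm_num)
    have hr' : r ≤ 996 / 1000 := r_le hrs hs (by norm_num) (by norm_num) (by norm_num)
    exact step (A := 17 / 20) (B := 13 / 10) (a0 := 197 / 1000) (N0 := 32 / 125)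
      (r0 := 996 / 1000) (s0 := 1011 / 1000) (P0 := 1755 / 1000) (m := 1623 / 1000) ht ht8 hσ0 hN
      hN0 hr ha hr' hs (by norm_num) h3.le h4 (by norm_num) (by norm_num) (by norm_num)
      (by norm_num) (by norm_num) (by norm_num) (by norm_num) (by norm_num) (by norm_num)
      (by norm_num) (by norm_num)
  · exact step (A := 13 / 10) (B := 17 / 10) (a0 := 197 / 1000) (N0 := 29 / 100)
      (r0 := 53 / 50) (s0 := 41 / 50) (P0 := 499 / 200) (m := 1943 / 1000) ht ht8 hσ0 hN hN0 hr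
      ha hr1 hs1 (by norm_num) h4.le hL1 (by norm_num) (by norm_num) (by norm_num) (by norm_num)
      (by norm_num) (by norm_num) (by norm_num) (by norm_num) (by norm_num) (by norm_num)
      (by norm_num)

end EQS
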