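import Mathlib

/-! Value-only tools for the exits of the sweep (`k > 2`): two-point Schwarz-Pick on a left half
plane, and the elimination lemmas. -/

set_option autoImplicit false

namespace EQS

open Complex Metric Set

/-- `w ↦ (h - w h*) / (1 - w)`, `h* = 2 a - conj h`, maps the unit disc to `Re < a`. -/
theorem cay_re {a : ℝ} {h w : ℂ} (hh : h.re < a) (hw : ‖w‖ < 1) :
    ((h - w * (2 * a - (starRingEnd ℂ) h)) / (1 - w)).re < a := by
  have h1 : (1 : ℂ) - w ≠ 0 := by
    intro h2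
    have : w = 1 := by linear_combination -h2
    rw [this, norm_one] at hw
    exact lt_irrefl _ hw
  have h3 : 0 < Complex.normSq (1 - w) := Complex.normSq_pos.2 h1
  have h4 : Complex.normSq w < 1 := by
    rw [Complex.normSq_eq_norm_sq]
    nlinarith [norm_nonneg w]
  have h5 : ((h - w * (2 * a - (starRingEnd ℂ) h)) / (1 - w)).re - a =
      -(a - h.re) * (1 - Complex.normSq w) / Complex.normSq (1 - w) := by
    rw [Complex.div_re, eq_div_iff h3.ne']
    field_simp
    simp only [Complex.normSq_apply, Complex.sub_re, Complex.sub_im, Complex.mul_re,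
      Complex.mul_im, Complex.one_re, Complex.one_im, Complex.conj_re, Complex.conj_im,
      Complex.ofReal_re, Complex.ofReal_im, Complex.re_ofNat, Complex.im_ofNat]
    ring
  have h6 : -(a - h.re) * (1 - Complex.normSq w) / Complex.normSq (1 - w) < 0 := by
    apply div_neg_of_neg_of_pos _ h3
    have : 0 < (a - h.re) * (1 - Complex.normSq w) := mul_pos (by linarith) (by linarith)
    linarith
  linarith

/-- the core: Schwarz lemma after a change of variable in the source -/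
theorem pick_core {T : ℂ → ℂ} {a : ℝ} (hd : DifferentiableOn ℂ T {g | g.re < a})
    (hT : ∀ g : ℂ, g.re < a → ‖T g‖ < 1) {g h : ℂ} (hg : g.re < a) (hh : h.re < a)
    (h0 : T h = 0) :
    ‖T g‖ * ‖g - (2 * a - (starRingEnd ℂ) h)‖ ≤ ‖g - h‖ := by
  set hs : ℂ := 2 * a - (starRingEnd ℂ) h with hhs
  have hsre : hs.re = 2 * a - h.re := by
    simp [hhs]
  have hne : g - hs ≠ 0 := by
    intro h1
    have h2 : (g - hs).re = 0 := by rw [h1]; rfl
    rw [Complex.sub_re, hsre] at h2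
    linarith
  have hne2 : h - hs ≠ 0 := by
    intro h1
    have h2 : (h - hs).re = 0 := by rw [h1]; rfl
    rw [Complex.sub_re, hsre] at h2
    linarith
  let φ : ℂ → ℂ := fun w => (h - w * hs) / (1 - w)
  have hφ : ∀ w : ℂ, ‖w‖ < 1 → (φ w).re < a := fun w hw => cay_re hh hw
  have hdφ : DifferentiableOn ℂ φ (ball 0 1) := by
    intro w hw
    have hw' : ‖w‖ < 1 := by simpa using hw
    have h1 : (1 : ℂ) - w ≠ 0 := by
      intro h2
      have : w = 1 := by linear_combination -h2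
      rw [this, norm_one] at hw'
      exact lt_irrefl _ hw'
    apply DifferentiableAt.differentiableWithinAt
    apply DifferentiableAt.div (by fun_prop) (by fun_prop) h1
  have hcomp : DifferentiableOn ℂ (fun w => T (φ w)) (ball 0 1) :=
    hd.comp hdφ (fun w hw => hφ w (by simpa using hw))
  have hmaps : MapsTo (fun w => T (φ w)) (ball 0 1) (closedBall 0 1) := by
    intro w hw
    have := hT _ (hφ w (by simpa using hw))
    simpa using this.le
  have hz0 : T (φ 0) = 0 := by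
    have : φ 0 = h := by simp [φ]
    rw [this, h0]
  set w : ℂ := (g - h) / (g - hs) with hw
  have hlt : ‖g - h‖ < ‖g - hs‖ := by
    have h1 : Complex.normSq (g - h) < Complex.normSq (g - hs) := by
      have h2 : Complex.normSq (g - hs) - Complex.normSq (g - h) =
          4 * ((a - g.re) * (a - h.re)) := by
        simp only [Complex.normSq_apply, Complex.sub_re, Complex.sub_im, hhs, Complex.mul_re,
          Complex.mul_im, Complex.conj_re, Complex.conj_im, Complex.ofReal_re, Complex.ofReal_im,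
          Complex.re_ofNat, Complex.im_ofNat]
        ring
      have h3 : 0 < (a - g.re) * (a - h.re) := mul_pos (by linarith) (by linarith)
      linarith
    rw [Complex.normSq_eq_norm_sq, Complex.normSq_eq_norm_sq] at h1
    exact lt_of_pow_lt_pow_left₀ 2 (norm_nonneg _) h1
  have hw1 : ‖w‖ < 1 := by
    rw [hw, norm_div, div_lt_one (norm_pos_iff.2 hne)]
    exact hlt
  have hφw : φ w = g := by
    have h1 : (1 : ℂ) - w ≠ 0 := by
      intro h2
      have : w = 1 := by linear_combination -h2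
      rw [this, norm_one] at hw1
      exact lt_irrefl _ hw1
    show (h - w * hs) / (1 - w) = g
    rw [div_eq_iff h1, hw]
    field_simp
    ring
  have := Complex.norm_le_norm_of_mapsTo_ball hcomp hmaps hz0 hw1
  simp only [hφw] at this
  rw [hw, norm_div, le_div_iff₀ (norm_pos_iff.2 hne)] at this
  exact this

theorem normSq_refl {a : ℝ} (g h : ℂ) :
    ‖g - (2 * a - (starRingEnd ℂ) h)‖ ^ 2 = ‖g - h‖ ^ 2 + 4 * ((a - g.re) * (a - h.re)) := by
  rw [← Complex.normSq_eq_norm_sq, ← Complex.normSq_eq_norm_sq]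
  simp only [Complex.normSq_apply, Complex.sub_re, Complex.sub_im, Complex.mul_re,
    Complex.mul_im, Complex.conj_re, Complex.conj_im, Complex.ofReal_re, Complex.ofReal_im,
    Complex.re_ofNat, Complex.im_ofNat]
  ring

/-- Schwarz-Pick, left half plane to right half plane. -/
theorem pick_hh {P : ℂ → ℂ} {a : ℝ} (hd : DifferentiableOn ℂ P {g | g.re < a})
    (hp : ∀ g : ℂ, g.re < a → 0 < (P g).re) {g h : ℂ} (hg : g.re < a) (hh : h.re < a) :
    ‖P g - P h‖ ^ 2 * ((a - g.re) * (a - h.re)) ≤ ‖g - h‖ ^ 2 * ((P g).re * (P h).re) := by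
  have hph := hp h hh
  have hne : ∀ z : ℂ, z.re < a → P z + (starRingEnd ℂ) (P h) ≠ 0 := by
    intro z hz h1
    have h2 : (P z + (starRingEnd ℂ) (P h)).re = 0 := by rw [h1]; rfl
    rw [Complex.add_re, Complex.conj_re] at h2
    have := hp z hz
    linarith
  have key : ∀ z : ℂ, z.re < a →
      ‖P z + (starRingEnd ℂ) (P h)‖ ^ 2 = ‖P z - P h‖ ^ 2 + 4 * ((P z).re * (P h).re) := by
    intro z _
    rw [← Complex.normSq_eq_norm_sq, ← Complex.normSq_eq_norm_sq]
    simp only [Complex.normSq_apply, Complex.sub_re, Complex.sub_im, Complex.add_re,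
      Complex.add_im, Complex.conj_re, Complex.conj_im]
    ring
  let T : ℂ → ℂ := fun z => (P z - P h) / (P z + (starRingEnd ℂ) (P h))
  have hT : ∀ z : ℂ, z.re < a → ‖T z‖ < 1 := by
    intro z hz
    show ‖(P z - P h) / (P z + (starRingEnd ℂ) (P h))‖ < 1
    rw [norm_div, div_lt_one (norm_pos_iff.2 (hne z hz))]
    have h1 := key z hz
    have h2 : 0 < (P z).re * (P h).re := mul_pos (hp z hz) hph
    exact lt_of_pow_lt_pow_left₀ 2 (norm_nonneg _) (by linarith)
  have hdT : DifferentiableOn ℂ T {g | g.re < a} := by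
    apply DifferentiableOn.div (hd.sub_const _) (hd.add_const _)
    intro z hz
    exact hne z hz
  have h0 : T h = 0 := by simp [T]
  have h1 := pick_core hdT hT hg hh h0
  have h2 : ‖T g‖ = ‖P g - P h‖ / ‖P g + (starRingEnd ℂ) (P h)‖ := norm_div _ _
  rw [h2, div_mul_eq_mul_div, div_le_iff₀ (norm_pos_iff.2 (hne g hg))] at h1
  have h3 : (‖P g - P h‖ * ‖g - (2 * a - (starRingEnd ℂ) h)‖) ^ 2 ≤
      (‖g - h‖ * ‖P g + (starRingEnd ℂ) (P h)‖) ^ 2 := by
    apply pow_le_pow_left₀ (by positivity) h1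
  rw [mul_pow, mul_pow, normSq_refl, key g hg] at h3
  nlinarith

/-- Schwarz-Pick, left half plane to a disc. -/
theorem pick_hd {f : ℂ → ℂ} {a M : ℝ} (hM : 0 < M) (hd : DifferentiableOn ℂ f {g | g.re < a})
    (hp : ∀ g : ℂ, g.re < a → ‖f g‖ < M) {g h : ℂ} (hg : g.re < a) (hh : h.re < a) :
    4 * M ^ 2 * ‖f g - f h‖ ^ 2 * ((a - g.re) * (a - h.re)) ≤
      ‖g - h‖ ^ 2 * ((M ^ 2 - ‖f g‖ ^ 2) * (M ^ 2 - ‖f h‖ ^ 2)) := by
  have hph := hp h hh
  have key : ∀ z : ℂ, ‖(M : ℂ) ^ 2 - (starRingEnd ℂ) (f h) * f z‖ ^ 2 =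
      M ^ 2 * ‖f z - f h‖ ^ 2 + (M ^ 2 - ‖f z‖ ^ 2) * (M ^ 2 - ‖f h‖ ^ 2) := by
    intro z
    simp only [← Complex.normSq_eq_norm_sq]
    have e : ((M : ℂ) ^ 2) = ((M ^ 2 : ℝ) : ℂ) := by push_cast; rfl
    rw [e]
    simp only [Complex.normSq_apply, Complex.sub_re, Complex.sub_im, Complex.mul_re,
      Complex.mul_im, Complex.conj_re, Complex.conj_im, Complex.ofReal_re, Complex.ofReal_im]
    ring
  have hpos : ∀ z : ℂ, z.re < a → 0 < (M ^ 2 - ‖f z‖ ^ 2) * (M ^ 2 - ‖f h‖ ^ 2) := by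
    intro z hz
    have h1 : ‖f z‖ ^ 2 < M ^ 2 := pow_lt_pow_left₀ (hp z hz) (norm_nonneg _) (by norm_num)
    have h2 : ‖f h‖ ^ 2 < M ^ 2 := pow_lt_pow_left₀ hph (norm_nonneg _) (by norm_num)
    exact mul_pos (by linarith) (by linarith)
  have hne : ∀ z : ℂ, z.re < a → (M : ℂ) ^ 2 - (starRingEnd ℂ) (f h) * f z ≠ 0 := by
    intro z hz h1
    have h2 := key z
    rw [h1, norm_zero] at h2
    have h3 := hpos z hz
    nlinarith [sq_nonneg (M * ‖f z - f h‖), h2]
  let T : ℂ → ℂ := fun z => M * (f z - f h) / ((M : ℂ) ^ 2 - (starRingEnd ℂ) (f h) * f z)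
  have hT : ∀ z : ℂ, z.re < a → ‖T z‖ < 1 := by
    intro z hz
    show ‖M * (f z - f h) / ((M : ℂ) ^ 2 - (starRingEnd ℂ) (f h) * f z)‖ < 1
    rw [norm_div, div_lt_one (norm_pos_iff.2 (hne z hz)), norm_mul, Complex.norm_real,
      Real.norm_eq_abs, abs_of_pos hM]
    have h1 := key z
    have h2 := hpos z hz
    exact lt_of_pow_lt_pow_left₀ 2 (norm_nonneg _) (by rw [mul_pow]; linarith)
  have hdT : DifferentiableOn ℂ T {g | g.re < a} := by
    apply DifferentiableOn.div ((hd.sub_const _).const_mul _) ((hd.const_mul _).const_sub _)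
    intro z hz
    exact hne z hz
  have h0 : T h = 0 := by simp [T]
  have h1 := pick_core hdT hT hg hh h0
  have h2 : ‖T g‖ = M * ‖f g - f h‖ / ‖(M : ℂ) ^ 2 - (starRingEnd ℂ) (f h) * f g‖ := by
    show ‖M * (f g - f h) / ((M : ℂ) ^ 2 - (starRingEnd ℂ) (f h) * f g)‖ = _
    rw [norm_div, norm_mul, Complex.norm_real, Real.norm_eq_abs, abs_of_pos hM]
  rw [h2, div_mul_eq_mul_div, div_le_iff₀ (norm_pos_iff.2 (hne g hg))] at h1
  have h3 : (M * ‖f g - f h‖ * ‖g - (2 * a - (starRingEnd ℂ) h)‖) ^ 2 ≤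
      (‖g - h‖ * ‖(M : ℂ) ^ 2 - (starRingEnd ℂ) (f h) * f g‖) ^ 2 := by
    apply pow_le_pow_left₀ (by positivity) h1
  rw [mul_pow, mul_pow, mul_pow, normSq_refl, key g] at h3
  nlinarith

/-- helper9's lemma (U): `Re p = 0`, `|P - P'| ≥ m |P - p|`, `s m² > 1 + m`. -/
theorem exit_U {p P P' : ℂ} {m s : ℝ} (hp : p.re = 0) (hP : 0 < P.re) (hP' : 0 < P'.re)
    (hm : 0 < m) (hs : 1 + m < s * m ^ 2) (h : m * ‖P - p‖ ≤ ‖P - P'‖) :
    P.re * P'.re < s * ‖P - P'‖ ^ 2 := by
  have hd : P.re ≤ ‖P - p‖ := by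
    have := Complex.abs_re_le_norm (P - p)
    rw [Complex.sub_re, hp, sub_zero] at this
    exact (le_abs_self _).trans this
  have ht : P'.re ≤ P.re + ‖P - P'‖ := by
    have h1 := Complex.abs_re_le_norm (P' - P)
    rw [norm_sub_rev, Complex.sub_re] at h1
    have := (le_abs_self _).trans h1
    linarith
  have hd0 : 0 < ‖P - p‖ := hP.trans_le hd
  have hs0 : 0 < s := by
    by_contra hcon
    have : s * m ^ 2 ≤ 0 := mul_nonpos_of_nonpos_of_nonneg (not_lt.1 hcon) (sq_nonneg _)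
    linarith
  set d := ‖P - p‖
  set t := ‖P - P'‖
  have h1 : P.re * P'.re ≤ d * (d + t) := by
    apply mul_le_mul hd (by linarith) hP'.le hd0.le
  have h2 : m * d ≤ t := h
  have h3 : 0 < t := lt_of_lt_of_le (by positivity) h2
  -- `d (d + t) < s t²`: with `d ≤ t / m`
  have h4 : d ≤ t / m := by rw [le_div_iff₀ hm]; linarith
  have h5 : d * (d + t) ≤ (t / m) * (t / m + t) := by
    apply mul_le_mul h4 (by linarith) (by positivity) (by positivity)
  have h6 : (t / m) * (t / m + t) = t ^ 2 * (1 + m) / m ^ 2 := by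
    field_simp
  have h7 : t ^ 2 * (1 + m) / m ^ 2 < s * t ^ 2 := by
    rw [div_lt_iff₀ (by positivity)]
    have : 0 < t ^ 2 := by positivity
    nlinarith
  linarith

/-- `Re V * Re (c V) ≤ |V|² (|c| + Re c) / 2` -/
theorem re_mul_re_le (V c : ℂ) : V.re * (c * V).re ≤ ‖V‖ ^ 2 * (‖c‖ + c.re) / 2 := by
  have h1 : 2 * (V.re * (c * V).re) = ‖V‖ ^ 2 * c.re + (c * V ^ 2).re := by
    rw [← Complex.normSq_eq_norm_sq]
    simp only [Complex.normSq_apply, Complex.mul_re, Complex.mul_im, pow_two]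
    ring
  have h2 : (c * V ^ 2).re ≤ ‖c‖ * ‖V‖ ^ 2 := by
    have := (le_abs_self _).trans (Complex.abs_re_le_norm (c * V ^ 2))
    rwa [norm_mul, norm_pow] at this
  linarith

/-- lead's elimination (C): `Re p = 0`, `P - P' = u (P - p)`. -/
theorem exit_C {p P P' u : ℂ} {s : ℝ} (hp : p.re = 0) (hP : 0 < P.re)
    (hu : P - P' = u * (P - p)) (h : ‖1 - u‖ + (1 - u).re < 2 * s * ‖u‖ ^ 2) :
    P.re * P'.re < s * ‖P - P'‖ ^ 2 := by
  set V := P - p with hV
  have e1 : P.re = V.re := by rw [hV, Complex.sub_re, hp, sub_zero]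
  have e2 : P'.re = ((1 - u) * V).re := by
    have : P' = (1 - u) * V + p := by rw [hV]; rw [hV] at hu; linear_combination -hu
    rw [this, Complex.add_re, hp, add_zero]
  have h1 := re_mul_re_le V (1 - u)
  have hV0 : 0 < ‖V‖ := by
    have : V ≠ 0 := by
      intro h2
      rw [e1, h2, Complex.zero_re] at hP
      exact lt_irrefl _ hP
    exact norm_pos_iff.2 this
  rw [e1, e2, hu, norm_mul, mul_pow]
  have h2 : 0 < ‖V‖ ^ 2 := by positivity
  nlinarith

/-- sufficient form of (C): `1 + |u - 1| < |u| √(1 + 4 s)` squared -/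
theorem exit_C' {p P P' u : ℂ} {s : ℝ} (hp : p.re = 0) (hP : 0 < P.re)
    (hu : P - P' = u * (P - p)) (h : (1 + ‖u - 1‖) ^ 2 < ‖u‖ ^ 2 * (1 + 4 * s)) :
    P.re * P'.re < s * ‖P - P'‖ ^ 2 := by
  apply exit_C hp hP hu
  have h1 : ‖1 - u‖ ^ 2 = 1 - 2 * u.re + ‖u‖ ^ 2 := by
    rw [← Complex.normSq_eq_norm_sq, ← Complex.normSq_eq_norm_sq]
    simp only [Complex.normSq_apply, Complex.sub_re, Complex.sub_im, Complex.one_re,
      Complex.one_im]
    ring
  rw [norm_sub_rev] at h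
  rw [Complex.sub_re, Complex.one_re]
  nlinarith

/-- helper11: `Re f = 1` means `|1/f - 1/2| = 1/2` -/
theorem inv_circle {f : ℂ} (hf : f.re = 1) : ‖f⁻¹ - 1 / 2‖ = 1 / 2 := by
  have hf0 : f ≠ 0 := by
    intro h
    rw [h, Complex.zero_re] at hf
    exact zero_ne_one hf
  have h1 : f⁻¹ - 1 / 2 = (2 - f) / (2 * f) := by
    field_simp
  have h2 : ‖2 - f‖ = ‖f‖ := by
    have : Complex.normSq (2 - f) = Complex.normSq f := by
      simp only [Complex.normSq_apply, Complex.sub_re, Complex.sub_im, hf, Complex.re_ofNat,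
        Complex.im_ofNat]
      ring
    rw [Complex.normSq_eq_norm_sq, Complex.normSq_eq_norm_sq] at this
    exact (sq_eq_sq₀ (norm_nonneg _) (norm_nonneg _)).1 this
  rw [h1, norm_div, norm_mul, h2]
  have : ‖(2 : ℂ)‖ = 2 := by simp
  rw [this]
  have h3 : ‖f‖ ≠ 0 := norm_ne_zero_iff.2 hf0
  field_simp

/-- helper11: `K = 1 - 1/y` with `|y - 1/2| ≥ B - 1/2`, `B ≥ 1`, lies in the disc with diameter
`[(B-1)/B, B/(B-1)]`: `|(B-1) K - B/2 ... |`; here in the form `B |K - 1| ≤ |K ...|` free of division: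
`(B - 1) |y|² ≥ ...`.  First form: `Re K ≥ 0`. -/
theorem K_re_nonneg {y : ℂ} (hy : 1 / 2 ≤ ‖y - 1 / 2‖) : 0 ≤ (1 - y⁻¹).re := by
  rcases eq_or_ne y 0 with h0 | h0
  · rw [h0, inv_zero, sub_zero, Complex.one_re]
    norm_num
  · have h1 : 0 < Complex.normSq y := Complex.normSq_pos.2 h0
    have h2 : (1 / 2 : ℝ) ^ 2 ≤ ‖y - 1 / 2‖ ^ 2 := pow_le_pow_left₀ (by norm_num) hy 2
    rw [← Complex.normSq_eq_norm_sq] at h2
    have h3 : y.re ≤ Complex.normSq y := by
      have : Complex.normSq (y - 1 / 2) = Complex.normSq y - y.re + 1 / 4 := by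
        have e : ((1 : ℂ) / 2) = ((1 / 2 : ℝ) : ℂ) := by push_cast; rfl
        rw [e]
        simp only [Complex.normSq_apply, Complex.sub_re, Complex.sub_im, Complex.ofReal_re,
          Complex.ofReal_im]
        ring
      rw [this] at h2
      linarith
    rw [Complex.sub_re, Complex.one_re, Complex.inv_re, sub_nonneg, div_le_one h1]
    exact h3

/-- the value of `u` at a W1 exit -/
theorem u_form {f b1 b2 : ℂ} (hf : f ≠ 0) (hy : 1 + b1 - f⁻¹ ≠ 0) :
    b1 * f - b2 * (1 - b1 * f) =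
      (b1 + (b2 - b1) * (1 - (1 + b1 - f⁻¹)⁻¹)) * (b1 * f - (1 - f)) := by
  have h1 : b1 * f - (1 - f) = f * (1 + b1 - f⁻¹) := by
    field_simp
    ring
  have h2 : (1 + b1 - f⁻¹)⁻¹ * (1 + b1 - f⁻¹) = 1 := inv_mul_cancel₀ hy
  have h3 : f * f⁻¹ = 1 := mul_inv_cancel₀ hf
  rw [h1]
  linear_combination ((b2 - b1) * f) * h2 + b2 * h3

end EQS
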