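import Mathlib
import Pool.Agent.Lib.MP_226de1_co.E.J0Crit
import Pool.Agent.Lib.MP_226de1_co.E.J0Lam
import Pool.Agent.Lib.MP_226de1_co.E.J0S
import Pool.Agent.Lib.MP_226de1_co.E.J0d
import Pool.Agent.Lib.MP_226de1_co.E.PickTools
import Pool.Agent.Lib.MP_226de1_co.E.ExitHalf8

/-! Block (III) of `ExitHalf 8`, `F ≤ 3π/2`, `1.4 ≤ σ`, `0 ≤ L ≤ 1.7`. -/

set_option autoImplicit false

namespace EQS

open Complex

variable {k C : ℝ} {q0 q1 q2 q3 d0 d1 d2 X1 X2 X3 : ℂ}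

/-- `v e^lam = e^{(1+Lam) om}`, `v = 1/f_{-1} - b_1 = f_{-2}/f_{-1}` -/
theorem St.J0_v (h : St k C q0 q1 q2 q3 d0 d1 d2 X1 X2 X3) :
    1 / pv k C X1 d1 - exp ((k : ℂ) * (X2 - X1)) =
      exp ((k : ℂ) * ((X2 - X1) - (d2 - d1))) := by
  have hf : pv k C X1 d1 ≠ 0 := pv_ne h.C0
  have hC : (C : ℂ) ≠ 0 := by exact_mod_cast h.C0.ne'
  have h1 := h.f2_eq
  have h2 : pv k C X2 d1 = exp ((k : ℂ) * (X2 - X1)) * pv k C X1 d1 := pv_mul
  have h3 : pv k C X2 d2 = exp ((k : ℂ) * ((X2 - X1) - (d2 - d1))) * pv k C X1 d1 := by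
    unfold pv
    rw [← mul_div_assoc, ← exp_add]
    congr 2
    ring
  rw [h2, h3] at h1
  field_simp
  linear_combination -h1

theorem lamJ_exp (k : ℝ) (d1 d2 X1 X2 X3 : ℂ) :
    exp ((k : ℂ) * ((X2 - X1) - (d2 - d1))) * exp (lamJ k d1 d2 X1 X2 X3) =
      exp ((1 + (X2 - X1)) * ((k : ℂ) * ((X3 - d2) - (X2 - d1)))) := by
  rw [← exp_add, lamJ]
  congr 1
  ring

/-- `Re` and `Im` of `v` -/
theorem St.J0_vre (h : St k C q0 q1 q2 q3 d0 d1 d2 X1 X2 X3)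
    (he : |k * (X1 - d0).im| = Real.pi / 2) :
    (1 / pv k C X1 d1 - exp ((k : ℂ) * (X2 - X1))).re =
      Real.cos (k * (X1 - d1).im) ^ 2 -
        Real.exp (k * (X2 - X1).re) * Real.cos (k * (X1 - X2).im) ∧
    (1 / pv k C X1 d1 - exp ((k : ℂ) * (X2 - X1))).im =
      Real.exp (k * (X2 - X1).re) * Real.sin (k * (X1 - X2).im) -
        Real.cos (k * (X1 - d1).im) * Real.sin (k * (X1 - d1).im) := by
  have hC := h.C0
  have h0 := pv_re_zero (C := C) he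
  have h1 : (pv k C X1 d1).re = 1 := by
    rw [h.f1_eq, sub_re, one_re, h0, sub_zero]
  rw [pv_re] at h1
  set F := k * (X1 - d1).im with hF
  set R := Real.exp (k * (X1 - d1).re) / C with hR
  have hR0 : 0 < R := div_pos (Real.exp_pos _) hC
  have e1 : pv k C X1 d1 = (R : ℂ) * exp ((F : ℂ) * I) := by
    unfold pv
    rw [hR, hF]
    have : exp ((k : ℂ) * (X1 - d1)) = ((Real.exp (k * (X1 - d1).re) : ℝ) : ℂ) *
        exp (((k * (X1 - d1).im : ℝ) : ℂ) * I) := by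
      rw [ofReal_exp, ← exp_add]
      congr 1
      apply Complex.ext
      · simp
      · simp
    rw [this]
    push_cast
    ring
  have e2 : 1 / pv k C X1 d1 = ((Real.cos F : ℝ) : ℂ) * exp (((-F : ℝ) : ℂ) * I) := by
    rw [e1]
    have h2 : (R : ℂ) * ((Real.cos F : ℝ) : ℂ) = 1 := by exact_mod_cast h1
    have h3 : exp ((F : ℂ) * I) * exp (((-F : ℝ) : ℂ) * I) = 1 := by
      rw [← exp_add, ← exp_zero]
      congr 1
      push_cast
      ring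
    have h4 : (R : ℂ) * exp ((F : ℂ) * I) ≠ 0 :=
      mul_ne_zero (by exact_mod_cast hR0.ne') (exp_ne_zero _)
    rw [div_eq_iff h4]
    calc (1 : ℂ) = ((R : ℂ) * ((Real.cos F : ℝ) : ℂ)) *
          (exp ((F : ℂ) * I) * exp (((-F : ℝ) : ℂ) * I)) := by rw [h2, h3, mul_one]
      _ = _ := by ring
  have i1 : (X2 - X1).im = -(X1 - X2).im := by simp
  constructor
  · rw [e2, sub_re, re_ofReal_mul, exp_ofReal_mul_I_re, exp_re, re_ofReal_mul, im_ofReal_mul,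
      i1, mul_neg, Real.cos_neg, Real.cos_neg]
    ring
  · rw [e2, sub_im, im_ofReal_mul, exp_ofReal_mul_I_im, exp_im, re_ofReal_mul, im_ofReal_mul,
      i1, mul_neg, Real.sin_neg, Real.sin_neg]
    ring

/-- the core: `‖v - 1‖ ℓ ≤ K ‖e^om - 1‖` -/
theorem St.J0_core (h : St k C q0 q1 q2 q3 d0 d1 d2 X1 X2 X3) (hk : 8 ≤ k)
    (hA : -(Real.pi / 4) ≤ X1.im) (he : |k * (X1 - d0).im| = Real.pi / 2)
    (hσ : 7 / 5 ≤ k * (X1 - X2).im)
    (hF : k * (X1 - d1).im ≤ 3 * Real.pi / 2)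
    (hL0 : 0 < k * (X2 - X1).re) (hL : k * (X2 - X1).re ≤ 17 / 10)
    (hω : ‖(k : ℂ) * ((X3 - d2) - (X2 - d1))‖ ≤ 53 / 50) :
    ‖1 / pv k C X1 d1 - exp ((k : ℂ) * (X2 - X1)) - 1‖ *
        (1 - Real.exp (k * (X2 - X1).re) / (Real.exp (k * (X2 - X1).re) - 1) *
          (1 - Real.exp (-(7 / 100 * (k * (X2 - X1).re) ^ 3)))) ≤
      (Real.exp (‖(k : ℂ) * ((X3 - d2) - (X2 - d1))‖ * ‖X2 - X1‖ / 2) * ‖1 + (X2 - X1)‖ *
        (1 + 3 / 25 * ‖X2 - X1‖)) * ‖exp ((k : ℂ) * ((X3 - d2) - (X2 - d1))) - 1‖ := by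
  have hpi := Real.pi_pos
  have hpi3 := Real.pi_gt_d4
  have hpi4 := Real.pi_lt_d4
  have k0 : 0 < k := by linarith
  obtain ⟨hF1, hF2, hσ2⟩ := h.J0_F he hσ hF
  obtain ⟨l1, l2, l3⟩ := h.J0_lam hk hA he hσ hF hL hω
  obtain ⟨v1, v2⟩ := h.J0_vre he
  have hwc := h.w_circ he
  have hp2 := abs_lt.1 h.p2
  have hFe := F_eq (k := k) (X1 := X1) (X2 := X2) (d1 := d1)
  set b : ℂ := exp ((k : ℂ) * (X2 - X1)) with hb
  have hbn : ‖b‖ = Real.exp (k * (X2 - X1).re) := by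
    rw [hb, norm_exp, re_ofReal_mul]
  have hb1 : 1 < ‖b‖ := by
    rw [hbn]
    exact Real.one_lt_exp_iff.2 hL0
  set w : ℂ := 1 / pv k C X1 d1 with hw
  set lam := lamJ k d1 d2 X1 X2 X3 with hlam
  have hvn : (w - b).re ≤ ‖w - b‖ ^ 2 := by
    have := circ_sq hwc hb1.le
    nlinarith [norm_nonneg b]
  have hrho : 0 ≤ 7 / 100 * (k * (X2 - X1).re) ^ 3 := by positivity
  have hx : lam.im / 2 ≤ k * (X1 - X2).im - 9 / 50 := by linarith
  have hQ := j0_Q (B := ‖b‖) (σ := k * (X1 - X2).im) (F := k * (X1 - d1).im) (x := lam.im / 2)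
    hb1.le hσ hσ2 hF2 (by linarith) (by linarith) hx
  have hR := j0_rot (B := ‖b‖) (y := lam.im) l2.le (by linarith) hQ
  have hcrit := j0_crit (v := w - b) (lam := lam) hrho (by linarith) hvn (by
    rw [v1, v2, ← hbn]
    exact hR)
  have hnv := j0_norm_v hwc hb1
  have hexp1 : 0 ≤ 1 - Real.exp (-(7 / 100 * (k * (X2 - X1).re) ^ 3)) := by
    have : Real.exp (-(7 / 100 * (k * (X2 - X1).re) ^ 3)) ≤ 1 :=
      Real.exp_le_one_iff.2 (by linarith)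
    linarith
  have hid : (w - b) * exp lam =
      exp ((1 + (X2 - X1)) * ((k : ℂ) * ((X3 - d2) - (X2 - d1)))) := by
    rw [hw, hb, h.J0_v, hlam]
    exact lamJ_exp k d1 d2 X1 X2 X3
  rw [hid] at hcrit
  -- sizes of `Lam`
  have hθ : 0 < (X1 - X2).im := by
    by_contra hcon
    push Not at hcon
    have := mul_nonpos_of_nonneg_of_nonpos k0.le hcon
    linarith
  have i1 : (X2 - X1).im = -(X1 - X2).im := by simp
  have hl8 : (X2 - X1).re ≤ 17 / 80 := by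
    by_contra hcon
    push Not at hcon
    nlinarith
  have hl0 : 0 ≤ (X2 - X1).re := by
    by_contra hcon
    push Not at hcon
    have := mul_neg_of_pos_of_neg k0 hcon
    linarith
  have hθ8 : (X1 - X2).im ≤ 0.3927 := by
    by_contra hcon
    push Not at hcon
    nlinarith
  have hM : ‖2 + (X2 - X1)‖ ≤ 9 / 4 := by
    have h1 : ‖2 + (X2 - X1)‖ ^ 2 ≤ (9 / 4) ^ 2 := by
      rw [← normSq_eq_norm_sq, normSq_apply, add_re, add_im, i1, re_ofNat, im_ofNat]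
      nlinarith
    exact le_of_sq_le_sq h1 (by norm_num)
  have hΛ : ‖X2 - X1‖ ≤ 1 / 2 := by
    have h1 : ‖X2 - X1‖ ^ 2 ≤ (1 / 2) ^ 2 := by
      rw [← normSq_eq_norm_sq, normSq_apply, i1]
      nlinarith
    exact le_of_sq_le_sq h1 (by norm_num)
  have hmid := j0_mid hω hM hΛ
  refine le_trans ?_ hmid
  refine le_trans ?_ hcrit
  rw [← hbn]
  have h1 : ‖w - b‖ * (1 - Real.exp (-(7 / 100 * (k * (X2 - X1).re) ^ 3))) ≤
      (‖b‖ / (‖b‖ - 1) * ‖w - b - 1‖) * (1 - Real.exp (-(7 / 100 * (k * (X2 - X1).re) ^ 3))) :=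
    mul_le_mul_of_nonneg_right hnv hexp1
  linarith

theorem blk_J0 : Blk (fun L σ F => 0 ≤ L ∧ L ≤ 1.7 ∧ 1.4 ≤ σ ∧ F ≤ 3 * Real.pi / 2) := by
  intro k C q0 q1 q2 q3 d0 d1 d2 X1 X2 X3 hk h hA he hn hQ
  obtain ⟨hL0', hL', hσ', hF⟩ := hQ
  have hpi := Real.pi_pos
  have hpi3 := Real.pi_gt_d4
  have hpi4 := Real.pi_lt_d4
  have k0 : 0 < k := by linarith
  have hσ : 7 / 5 ≤ k * (X1 - X2).im := by norm_num at hσ' ⊢; linarith
  have hL : k * (X2 - X1).re ≤ 17 / 10 := by norm_num at hL' ⊢; linarith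
  obtain ⟨hF1, hF2, hσ2⟩ := h.J0_F he hσ hF
  have hLσ := h.J0_L hk hA he hσ hF
  have ht0 : 0 < 1 / k := by positivity
  have ht8 : 1 / k ≤ 1 / 8 := one_div_le_one_div_of_le (by norm_num) hk
  have hL0 : 0 < k * (X2 - X1).re := by
    refine lt_of_lt_of_le ?_ hLσ
    exact mul_pos (mul_pos (by linarith) (by linarith)) ht0
  set s := Real.cos d0.im * (Real.cos d0.im + Real.cos d1.im) with hs
  have hs82 : 41 / 50 ≤ s := by
    rcases lt_or_ge (k * (X1 - X2).im) (Real.pi / 2) with h1 | h1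
    · exact (h.J0_s1 hk hA he hσ h1 hF hL).1
    · have := (h.J0_s0 hk hA he h1 hF).1
      linarith
  have hs0 : 0 < s := by linarith
  have hss : s * ‖exp d1‖ ^ 2 ≤ (exp d0).re * (exp d0 + exp d1).re := h.s_ge he
  have hspl := h.spl hs0.le hss hn
  have hω : ‖(k : ℂ) * ((X3 - d2) - (X2 - d1))‖ ≤ 53 / 50 := by
    have hsinh := sinh_ge (x := 53 / 50 / 2) (by norm_num)
    have hsd : (1 : ℝ) < 4 * (41 / 50) * Real.sinh (53 / 50 / 2) ^ 2 := by nlinarith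
    exact (h.norm_om_lt he hn (by norm_num) hs82 (by norm_num) hsd).le
  set r := ‖(k : ℂ) * ((X3 - d2) - (X2 - d1))‖ with hr
  have hr0 : 0 ≤ r := norm_nonneg _
  have hrs : r ^ 2 * s ≤ 1 := by
    have h1 : r / 2 ≤ Real.sinh (r / 2) := Real.self_le_sinh_iff.2 (by linarith)
    have h2 : (r / 2) ^ 2 ≤ Real.sinh (r / 2) ^ 2 := pow_le_pow_left₀ (by linarith) h1 2
    have h3 : 4 * s * (r / 2) ^ 2 ≤ 4 * s * Real.sinh (r / 2) ^ 2 :=
      mul_le_mul_of_nonneg_left h2 (by linarith)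
    have h4 : 4 * s * (r / 2) ^ 2 = r ^ 2 * s := by ring
    linarith
  have hcore := h.J0_core hk hA he hσ hF hL0 hL hω
  rw [← hr] at hcore
  have i1 : (X2 - X1).im = -(X1 - X2).im := by simp
  have hN : ‖X2 - X1‖ ^ 2 = (k * (X2 - X1).re * (1 / k)) ^ 2 +
      (k * (X1 - X2).im * (1 / k)) ^ 2 := by
    have e1 : k * (X2 - X1).re * (1 / k) = (X2 - X1).re := by field_simp
    have e2 : k * (X1 - X2).im * (1 / k) = (X1 - X2).im := by field_simp
    rw [e1, e2, ← normSq_eq_norm_sq, normSq_apply, i1]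
    ring
  have hN1 : ‖1 + (X2 - X1)‖ = Real.sqrt ((1 + k * (X2 - X1).re * (1 / k)) ^ 2 +
      (k * (X1 - X2).im * (1 / k)) ^ 2) := by
    have e1 : k * (X2 - X1).re * (1 / k) = (X2 - X1).re := by field_simp
    have e2 : k * (X1 - X2).im * (1 / k) = (X1 - X2).im := by field_simp
    rw [e1, e2]
    symm
    rw [Real.sqrt_eq_iff_mul_self_eq (by positivity) (norm_nonneg _), ← pow_two,
      ← normSq_eq_norm_sq, normSq_apply, add_re, add_im, i1, one_re, one_im]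
    ring
  have hfin : ∃ m : ℝ, 0 < m ∧ 1 + m < s * m ^ 2 ∧
      m * (Real.exp (r * ‖X2 - X1‖ / 2) *
        Real.sqrt ((1 + k * (X2 - X1).re * (1 / k)) ^ 2 + (k * (X1 - X2).im * (1 / k)) ^ 2) *
          (1 + 3 / 25 * ‖X2 - X1‖)) ≤
        Real.exp (k * (X2 - X1).re) * (1 - Real.exp (k * (X2 - X1).re) /
          (Real.exp (k * (X2 - X1).re) - 1) *
            (1 - Real.exp (-(7 / 100 * (k * (X2 - X1).re) ^ 3)))) := by
    rcases lt_or_ge (k * (X1 - X2).im) (Real.pi / 2) with h1 | h1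
    · obtain ⟨s1, s2, s3⟩ := h.J0_s1 hk hA he hσ h1 hF hL
      exact fin1 ht0 ht8 hL0 hL hσ (by linarith) hLσ hN (norm_nonneg _) hr0 hω hrs s1 s2 s3
    · obtain ⟨s1, s2⟩ := h.J0_s0 hk hA he h1 hF
      exact fin0 ht0 ht8 hL0 hL (by linarith) (by linarith) hLσ hN (norm_nonneg _) hr0 hω hrs s1 s2
  obtain ⟨m, hm0, hm1, hm2⟩ := hfin
  rw [← hN1] at hm2
  set f := pv k C X1 d1 with hf
  have hf0 : f ≠ 0 := pv_ne h.C0
  have hfn : 0 < ‖f‖ := norm_pos_iff.2 hf0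
  set b : ℂ := exp ((k : ℂ) * (X2 - X1)) with hb
  have hbn : ‖b‖ = Real.exp (k * (X2 - X1).re) := by
    rw [hb, norm_exp, re_ofReal_mul]
  set K := Real.exp (r * ‖X2 - X1‖ / 2) * ‖1 + (X2 - X1)‖ * (1 + 3 / 25 * ‖X2 - X1‖) with hK
  have hK0 : 0 < K := by
    rw [hK]
    have h1 : 0 < ‖1 + (X2 - X1)‖ := by
      apply norm_pos_iff.2
      intro h2
      have h3 : (1 + (X2 - X1)).re = 0 := by rw [h2]; rfl
      rw [add_re, one_re] at h3
      have h4 : (X2 - X1).re = -1 := by linarith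
      rw [h4] at hL0
      linarith
    have h2 := norm_nonneg (X2 - X1)
    positivity
  set ell := 1 - Real.exp (k * (X2 - X1).re) / (Real.exp (k * (X2 - X1).re) - 1) *
            (1 - Real.exp (-(7 / 100 * (k * (X2 - X1).re) ^ 3))) with hell
  set V := ‖1 / f - b - 1‖ with hV
  set E := ‖exp ((k : ℂ) * ((X3 - d2) - (X2 - d1))) - 1‖ with hE
  have hV0 : 0 ≤ V := norm_nonneg _
  have key : m * V ≤ ‖b‖ * E := by
    have h1 : (m * K) * V ≤ (‖b‖ * ell) * V := by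
      rw [hbn]
      exact mul_le_mul_of_nonneg_right hm2 hV0
    have h2 : ‖b‖ * (V * ell) ≤ ‖b‖ * (K * E) := mul_le_mul_of_nonneg_left hcore (norm_nonneg _)
    have h3 : K * (m * V) ≤ K * (‖b‖ * E) := by linarith
    exact le_of_mul_le_mul_left h3 hK0
  -- `P - p = f (1 - v)`, `P' - P = b f (e^om - 1)`
  have hP : pv k C X2 d1 = b * f := by
    rw [hf, hb]
    exact pv_mul
  have hp : pv k C X1 d0 = 1 - f := by
    rw [hf, h.f1_eq]
    ring
  have hP' : pv k C X3 d2 = exp ((k : ℂ) * ((X3 - d2) - (X2 - d1))) * pv k C X2 d1 := by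
    unfold pv
    rw [← mul_div_assoc, ← exp_add]
    congr 2
    ring
  have e1 : ‖pv k C X2 d1 - pv k C X1 d0‖ = ‖f‖ * V := by
    have : pv k C X2 d1 - pv k C X1 d0 = -(f * (1 / f - b - 1)) := by
      rw [hP, hp]
      field_simp
      ring
    rw [this, norm_neg, norm_mul]
  have e2 : ‖pv k C X2 d1 - pv k C X3 d2‖ = ‖b‖ * ‖f‖ * E := by
    have : pv k C X2 d1 - pv k C X3 d2 =
        -((b * f) * (exp ((k : ℂ) * ((X3 - d2) - (X2 - d1))) - 1)) := by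
      rw [hP', hP]
      ring
    rw [this, norm_neg, norm_mul, norm_mul]
  have hU := exit_U (p := pv k C X1 d0) (P := pv k C X2 d1) (P' := pv k C X3 d2) (m := m) (s := s)
    (pv_re_zero he) h.P_pos h.P3_pos hm0 hm1 (by
      rw [e1, e2]
      calc m * (‖f‖ * V) = ‖f‖ * (m * V) := by ring
        _ ≤ ‖f‖ * (‖b‖ * E) := mul_le_mul_of_nonneg_left key hfn.le
        _ = _ := by ring)
  have hD : 0 < ‖exp d1‖ ^ 2 := by
    have := norm_pos_iff.2 (exp_ne_zero d1)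
    positivity
  have h1 : ‖exp d1‖ ^ 2 * ((pv k C X2 d1).re * (pv k C X3 d2).re) <
      ‖exp d1‖ ^ 2 * (s * ‖pv k C X2 d1 - pv k C X3 d2‖ ^ 2) := mul_lt_mul_of_pos_left hU hD
  have h2 : ‖pv k C X2 d1 - pv k C X3 d2‖ ^ 2 * (s * ‖exp d1‖ ^ 2) ≤
      ‖pv k C X2 d1 - pv k C X3 d2‖ ^ 2 * ((exp d0).re * (exp d0 + exp d1).re) :=
    mul_le_mul_of_nonneg_left hss (sq_nonneg _)
  linarith

end EQS
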