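import Mathlib
import Pool.Agent.Lib.MP_226de1_co.E.PickLog
import Pool.Agent.Lib.MP_226de1_co.E.NumReal

/-! Pure real part of the zone step for the higher sheets (`F > 3π/2`): the inequality
`M - K M^2 ≤ d (1 + T^2/2) + r + K (…)` and the box lemmas. -/

set_option autoImplicit false

namespace EQS

theorem JB_sinh_ge {x : ℝ} (hx : 0 ≤ x) : x + x ^ 3 / 6 ≤ Real.sinh x := by
  have h : MonotoneOn (fun z : ℝ => Real.sinh z - z - z ^ 3 / 6) (Set.Ici 0) := by
    apply monotoneOn_of_deriv_nonneg (convex_Ici 0)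
    · apply Continuous.continuousOn
      fun_prop
    · intro y _
      apply DifferentiableAt.differentiableWithinAt
      fun_prop
    · intro y hy
      rw [interior_Ici] at hy
      have e : HasDerivAt (fun z : ℝ => Real.sinh z - z - z ^ 3 / 6)
          (Real.cosh y - 1 - (3 * y ^ 2) / 6) y := by
        have h1 := (Real.hasDerivAt_sinh y).fun_sub (hasDerivAt_id' y)
        have h2 := (hasDerivAt_pow 3 y).div_const 6
        have h3 := h1.fun_sub h2
        simpa using h3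
      rw [e.deriv]
      have hc : Real.cosh y = 1 + 2 * Real.sinh (y / 2) ^ 2 := by
        have h1 := Real.cosh_two_mul (y / 2)
        have h2 := Real.cosh_sq (y / 2)
        rw [show 2 * (y / 2) = y by ring] at h1
        rw [h1, h2]
        ring
      have hs : y / 2 ≤ Real.sinh (y / 2) :=
        Real.self_le_sinh_iff.2 (by have := Set.mem_Ioi.1 hy; linarith)
      have hy0 : (0 : ℝ) ≤ y / 2 := by have := Set.mem_Ioi.1 hy; linarith
      rw [hc]
      nlinarith
  have := h (Set.mem_Ici.2 le_rfl) (Set.mem_Ici.2 hx) hx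
  simp at this
  linarith

/-- `cos z ≤ exp (- z² / 2)` for `|z| ≤ π / 2` -/
theorem cos_le_exp_neg_sq {z : ℝ} (hz0 : 0 ≤ z) (hz : z ≤ Real.pi / 2) :
    Real.cos z ≤ Real.exp (-(z ^ 2 / 2)) := by
  have hpi := Real.pi_pos
  have h : AntitoneOn (fun u : ℝ => Real.cos u * Real.exp (u ^ 2 / 2))
      (Set.Icc 0 (Real.pi / 2)) := by
    apply antitoneOn_of_deriv_nonpos (convex_Icc _ _)
    · apply Continuous.continuousOn
      fun_prop
    · intro y _
      apply DifferentiableAt.differentiableWithinAt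
      fun_prop
    · intro y hy
      rw [interior_Icc] at hy
      have e : HasDerivAt (fun u : ℝ => Real.cos u * Real.exp (u ^ 2 / 2))
          (-Real.sin y * Real.exp (y ^ 2 / 2) + Real.cos y * (Real.exp (y ^ 2 / 2) *
            (2 * y / 2))) y := by
        have h1 : HasDerivAt (fun u : ℝ => u ^ 2 / 2) (2 * y / 2) y := by
          have := (hasDerivAt_pow 2 y).div_const 2
          simpa using this
        have h2 := h1.exp
        have h3 := (Real.hasDerivAt_cos y).fun_mul h2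
        simpa using h3
      rw [e.deriv]
      have h4 := mul_cos_le_sin' hy.1.le hy.2
      have h5 := Real.exp_pos (y ^ 2 / 2)
      have : -Real.sin y * Real.exp (y ^ 2 / 2) + Real.cos y * (Real.exp (y ^ 2 / 2) *
            (2 * y / 2)) = -(Real.exp (y ^ 2 / 2) * (Real.sin y - y * Real.cos y)) := by ring
      rw [this]
      have := mul_nonneg h5.le (sub_nonneg.2 h4)
      linarith
  have h1 := h (Set.mem_Icc.2 ⟨le_rfl, by positivity⟩) (Set.mem_Icc.2 ⟨hz0, hz⟩) hz0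
  simp only [Real.cos_zero, ne_eq, OfNat.ofNat_ne_zero, not_false_eq_true, zero_pow, zero_div,
    Real.exp_zero, mul_one] at h1
  have h2 := Real.exp_pos (-(z ^ 2 / 2))
  have h3 : Real.exp (z ^ 2 / 2) * Real.exp (-(z ^ 2 / 2)) = 1 := by
    rw [← Real.exp_add, add_neg_cancel, Real.exp_zero]
  calc Real.cos z = Real.cos z * Real.exp (z ^ 2 / 2) * Real.exp (-(z ^ 2 / 2)) := by
        rw [mul_assoc, h3, mul_one]
    _ ≤ 1 * Real.exp (-(z ^ 2 / 2)) := mul_le_mul_of_nonneg_right h1 h2.le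
    _ = _ := one_mul _

/-- real data of an exit state on a higher sheet: `K = 1/k`, `T = σ/k`, `S = σ`, `L = log |b_1|`,
`om = x + i y`, `W = |om|`, `n = |1/p_{-2} - 1|`, `s` the lower bound of
`Re D_0 Re (D_0 + D_{-1}) / |D_{-1}|^2` -/
structure JPack (K T S L x y W n s : ℝ) : Prop where
  K0 : 0 < K
  K8 : K ≤ 1 / 8
  TS : T = S * K
  Spi : Real.pi < S
  LT : T * (S - Real.pi / 2) ≤ L
  L17 : L ≤ 17 / 10
  hs : ∀ q : ℝ, L / S + Real.pi * K ≤ q → q ^ 2 ≤ 2 → q ^ 2 + (q + T) ^ 2 ≤ 4 →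
    (1 - q ^ 2 / 2) * (2 - q ^ 2 / 2 - (q + T) ^ 2 / 2) ≤ s
  W0 : 0 ≤ W
  WW : x ^ 2 + y ^ 2 = W ^ 2
  spl : 4 * s * Real.sinh (W / 2) ^ 2 ≤ 1
  full : 4 * s * (Real.sinh (x / 2) ^ 2 + Real.sin (y / 2) ^ 2) ≤ S - Real.pi
  real : ∀ r : ℝ, 0 ≤ r → r ≤ 1 → Real.exp (-r) ≤ n →
    0 ≤ Real.cos (y * K) - Real.exp (-(2 * L * K)) * Real.cos (2 * T - y * K) →
    Real.cos (y * K) - Real.exp (-(2 * L * K)) * Real.cos (2 * T - y * K) ≤
      Real.exp ((2 * x + r) * K) - Real.exp (-(r * K))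
  n0 : 0 ≤ n
  circ : 1 - Real.exp (-L) * Real.cos S ≤ n ^ 2 + Real.exp (-L) * n

variable {K T S L x y W n s : ℝ}

theorem JPack.T0 (h : JPack K T S L x y W n s) : 0 < T := by
  have := h.TS
  have h1 := mul_pos (lt_trans Real.pi_pos h.Spi) h.K0
  linarith

theorem JPack.T8 (h : JPack K T S L x y W n s) : 8 * T ≤ S := by
  have h1 := h.TS
  have h2 := h.K8
  have h3 := lt_trans Real.pi_pos h.Spi
  nlinarith

theorem JPack.T6 (h : JPack K T S L x y W n s) : T ≤ 0.6 := by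
  have h1 := h.T8
  have h2 := h.LT
  have h3 := h.L17
  have h4 := h.T0
  have h5 := Real.pi_lt_d4
  by_contra hcon
  push Not at hcon
  have h6 : T * (8 * T - Real.pi / 2) ≤ T * (S - Real.pi / 2) :=
    mul_le_mul_of_nonneg_left (by linarith) h4.le
  nlinarith

/-- the Z-inequality -/
theorem JPack.Z (h : JPack K T S L x y W n s) {d r M0 c0 : ℝ} (hW : W ≤ d) (hd : d ≤ 2)
    (hr0 : 0 ≤ r) (hr1 : r ≤ 1) (hr : Real.exp (-r) ≤ n) (hM : M0 ≤ L + T * S)
    (hM0 : T * d ≤ M0) (hc : 1 + 4 * ((2 * d + r) * K) / 9 ≤ c0) :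
    M0 ≤ d * (1 + T ^ 2 / 2) + r + K * (M0 ^ 2 + c0 * (d + r / 2) ^ 2) := by
  have hpi := Real.pi_gt_d4
  have K0 := h.K0
  have K8 := h.K8
  have T0 := h.T0
  have T6 := h.T6
  have hTS := h.TS
  have hSpi := h.Spi
  have W0 := h.W0
  have hWW := h.WW
  have d0 : 0 ≤ d := W0.trans hW
  have hL0 : 0 < L := lt_of_lt_of_le (mul_pos T0 (by linarith [h.Spi])) h.LT
  have hxy : x ^ 2 + y ^ 2 ≤ d ^ 2 := by
    rw [hWW]
    exact pow_le_pow_left₀ W0 hW 2
  have hxd : |x| ≤ d := by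
    apply abs_le_of_sq_le_sq _ d0
    nlinarith [sq_nonneg y]
  have hyd : |y| ≤ d := by
    apply abs_le_of_sq_le_sq _ d0
    nlinarith [sq_nonneg x]
  have hx := abs_le.1 hxd
  have hy := abs_le.1 hyd
  have c1 : 1 ≤ c0 := by
    have : 0 ≤ (2 * d + r) * K := mul_nonneg (by linarith) K0.le
    linarith
  set A := Real.cos (y * K) - Real.exp (-(2 * L * K)) * Real.cos (2 * T - y * K) with hA
  set yp := max y 0 with hyp
  have hyp0 : 0 ≤ yp := le_max_right _ _
  have hypy : y ≤ yp := le_max_left _ _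
  have hypd : yp ≤ d := max_le hy.2 d0
  set Mm := M0 - T * yp with hMm
  have hTyp : T * yp ≤ T * d := mul_le_mul_of_nonneg_left hypd T0.le
  have hMm0 : 0 ≤ Mm := by linarith
  have hMmM : Mm ≤ M0 := by
    have := mul_nonneg T0.le hyp0
    linarith
  -- lower bound of `A`
  have hlow : 2 * K * Mm - 2 * K ^ 2 * Mm ^ 2 - y ^ 2 * K ^ 2 / 2 ≤ A := by
    have hz0 : 0 ≤ 2 * T - y * K := by
      have : 2 * T - y * K = (2 * S - y) * K := by rw [hTS]; ring
      rw [this]
      exact mul_nonneg (by linarith) K0.le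
    have hyK : -(y * K) ≤ 1 / 4 := by nlinarith
    have hz1 : 2 * T - y * K ≤ Real.pi / 2 := by linarith
    have h1 := cos_le_exp_neg_sq hz0 hz1
    have h2 : Real.exp (-(2 * L * K)) * Real.cos (2 * T - y * K) ≤
        Real.exp (-(2 * K * Mm)) := by
      calc Real.exp (-(2 * L * K)) * Real.cos (2 * T - y * K) ≤
            Real.exp (-(2 * L * K)) * Real.exp (-((2 * T - y * K) ^ 2 / 2)) :=
            mul_le_mul_of_nonneg_left h1 (Real.exp_pos _).le
        _ = Real.exp (-(2 * L * K + (2 * T - y * K) ^ 2 / 2)) := by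
            rw [← Real.exp_add]
            congr 1
            ring
        _ ≤ _ := by
            apply Real.exp_le_exp.2
            have e : 2 * L * K + (2 * T - y * K) ^ 2 / 2 =
                2 * K * (L + T * S - T * y) + y ^ 2 * K ^ 2 / 2 := by
              rw [hTS]
              ring
            rw [e]
            have h3 : T * y ≤ T * yp := mul_le_mul_of_nonneg_left hypy T0.le
            have h4 : 2 * K * Mm ≤ 2 * K * (L + T * S - T * y) :=
              mul_le_mul_of_nonneg_left (by linarith) (by linarith)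
            have h5 : 0 ≤ y ^ 2 * K ^ 2 / 2 := by positivity
            linarith
    have h3 := exp_neg_le_quad (x := 2 * K * Mm) (by positivity)
    have h4 := Real.one_sub_sq_div_two_le_cos (x := y * K)
    rw [hA]
    have h5 : (2 * K * Mm) ^ 2 / 2 = 2 * K ^ 2 * Mm ^ 2 := by ring
    have h6 : (y * K) ^ 2 / 2 = y ^ 2 * K ^ 2 / 2 := by ring
    linarith
  -- upper bound of `A`
  have hup : 0 ≤ A → A ≤ 2 * (x + r) * K + ((2 * x + r) * K) ^ 2 / 2 * c0 := by
    intro hA0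
    have h1 := h.real r hr0 hr1 hr hA0
    rw [← hA] at h1
    have h2 : 1 - r * K ≤ Real.exp (-(r * K)) := by
      have := Real.add_one_le_exp (-(r * K))
      linarith
    rcases le_or_gt 0 ((2 * x + r) * K) with hv | hv
    · have hv1 : (2 * x + r) * K ≤ 1 := by nlinarith
      have h3 := exp_le_cubic hv hv1
      have h4 : ((2 * x + r) * K) ≤ (2 * d + r) * K :=
        mul_le_mul_of_nonneg_right (by linarith) K0.le
      have h5 : 2 / 9 * ((2 * x + r) * K) ^ 3 ≤
          ((2 * x + r) * K) ^ 2 / 2 * (4 * ((2 * d + r) * K) / 9) := by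
        have : 0 ≤ ((2 * x + r) * K) ^ 2 := sq_nonneg _
        nlinarith
      have h6 : ((2 * x + r) * K) ^ 2 / 2 * (1 + 4 * ((2 * d + r) * K) / 9) ≤
          ((2 * x + r) * K) ^ 2 / 2 * c0 :=
        mul_le_mul_of_nonneg_left hc (by positivity)
      nlinarith
    · have h3 := exp_neg_le_quad (x := -((2 * x + r) * K)) (by linarith)
      rw [neg_neg] at h3
      have h6 : ((2 * x + r) * K) ^ 2 / 2 * 1 ≤ ((2 * x + r) * K) ^ 2 / 2 * c0 :=
        mul_le_mul_of_nonneg_left c1 (by positivity)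
      nlinarith
  have hMm2 : Mm ^ 2 ≤ M0 ^ 2 := pow_le_pow_left₀ hMm0 hMmM 2
  have hyp2 : yp ^ 2 ≤ y ^ 2 := by
    rcases le_total y 0 with h1 | h1
    · rw [hyp, max_eq_right h1]
      nlinarith [sq_nonneg y]
    · rw [hyp, max_eq_left h1]
  -- `x + T yp ≤ d (1 + T²/2)`
  have hxT : x + T * yp ≤ d * (1 + T ^ 2 / 2) := by
    have h1 : (x + T * yp) ^ 2 ≤ (d * (1 + T ^ 2 / 2)) ^ 2 := by
      have h2 : (x + T * yp) ^ 2 ≤ (x ^ 2 + yp ^ 2) * (1 + T ^ 2) := by
        nlinarith [sq_nonneg (yp - T * x)]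
      have h3 : (x ^ 2 + yp ^ 2) * (1 + T ^ 2) ≤ d ^ 2 * (1 + T ^ 2) :=
        mul_le_mul_of_nonneg_right (by linarith) (by positivity)
      have h4 : d ^ 2 * (1 + T ^ 2) ≤ (d * (1 + T ^ 2 / 2)) ^ 2 := by
        have : (d * (1 + T ^ 2 / 2)) ^ 2 = d ^ 2 * (1 + T ^ 2) + d ^ 2 * (T ^ 4 / 4) := by ring
        rw [this]
        have : 0 ≤ d ^ 2 * (T ^ 4 / 4) := by positivity
        linarith
      linarith
    exact (abs_le_of_sq_le_sq' h1 (by positivity)).2
  have hdr : d ^ 2 ≤ (d + r / 2) ^ 2 := by nlinarith [mul_nonneg d0 hr0]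
  rcases le_or_gt 0 A with hA0 | hA0
  · have h1 := hup hA0
    have h2 : 2 * K * (Mm - K * Mm ^ 2 - y ^ 2 * K / 4) ≤
        2 * K * ((x + r) + K * ((2 * x + r) ^ 2 / 4 * c0)) := by
      calc _ = 2 * K * Mm - 2 * K ^ 2 * Mm ^ 2 - y ^ 2 * K ^ 2 / 2 := by ring
        _ ≤ A := hlow
        _ ≤ _ := h1
        _ = _ := by ring
    have h3 := le_of_mul_le_mul_left h2 (by linarith)
    have h4 : y ^ 2 / 4 + (2 * x + r) ^ 2 / 4 * c0 ≤ c0 * (d + r / 2) ^ 2 := by
      have h5 : (2 * x + r) ^ 2 / 4 + y ^ 2 ≤ (d + r / 2) ^ 2 := by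
        nlinarith [mul_le_mul_of_nonneg_right hx.2 hr0]
      nlinarith [sq_nonneg y]
    have h5 : K * Mm ^ 2 ≤ K * M0 ^ 2 := mul_le_mul_of_nonneg_left hMm2 K0.le
    have h6 : K * (y ^ 2 / 4 + (2 * x + r) ^ 2 / 4 * c0) ≤ K * (c0 * (d + r / 2) ^ 2) :=
      mul_le_mul_of_nonneg_left h4 K0.le
    have e : M0 = Mm + T * yp := by rw [hMm]; ring
    nlinarith
  · have h2 : 2 * K * (Mm - K * Mm ^ 2 - y ^ 2 * K / 4) ≤ 2 * K * 0 := by
      calc _ = 2 * K * Mm - 2 * K ^ 2 * Mm ^ 2 - y ^ 2 * K ^ 2 / 2 := by ring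
        _ ≤ A := hlow
        _ ≤ _ := by linarith
    have h3 := le_of_mul_le_mul_left h2 (by linarith)
    have h5 : K * Mm ^ 2 ≤ K * M0 ^ 2 := mul_le_mul_of_nonneg_left hMm2 K0.le
    have h6 : K * (y ^ 2 / 4) ≤ K * (c0 * (d + r / 2) ^ 2) := by
      apply mul_le_mul_of_nonneg_left _ K0.le
      nlinarith [sq_nonneg y, sq_nonneg x, sq_nonneg (d + r / 2)]
    have h7 : T * yp ≤ d * (1 + T ^ 2 / 2) := by
      have : T * d ≤ d * (1 + T ^ 2 / 2) := by nlinarith [sq_nonneg (T - 1)]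
      linarith
    have e : M0 = Mm + T * yp := by rw [hMm]; ring
    nlinarith

end EQS
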