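import Mathlib
import Pool.Agent.Lib.MP_226de1_co.E.JBox

/-! Box lemmas for the zone step on the higher sheets. -/

set_option autoImplicit false

namespace EQS

variable {K T S L x y W n s : ℝ}

theorem JB_exp5 {x : ℝ} (hx : 0 ≤ x) :
    1 + x + x ^ 2 / 2 + x ^ 3 / 6 + x ^ 4 / 24 + x ^ 5 / 120 ≤ Real.exp x := by
  have h := Real.sum_le_exp_of_nonneg hx 6
  simp only [Finset.sum_range_succ, Finset.sum_range_zero, Nat.factorial] at h
  norm_num at h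
  linarith

theorem JB_exp3 {x : ℝ} (hx : 0 ≤ x) : 1 + x + x ^ 2 / 2 + x ^ 3 / 6 ≤ Real.exp x := by
  have h := JB_exp5 hx
  have h1 : 0 ≤ x ^ 4 / 24 := by positivity
  have h2 : 0 ≤ x ^ 5 / 120 := by positivity
  linarith

theorem JPack.Tle (h : JPack K T S L x y W n s) {s1 L2 t : ℝ} (h1 : s1 ≤ S)
    (hs : 3.1415 ≤ s1) (h2 : L ≤ L2) (h3 : L2 ≤ t * (s1 - 1.5708)) : T ≤ t := by
  have h4 := h.LT
  have h5 := Real.pi_lt_d4
  have h6 : T * (s1 - 1.5708) ≤ T * (S - Real.pi / 2) :=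
    mul_le_mul_of_nonneg_left (by linarith) h.T0.le
  exact le_of_mul_le_mul_right (by linarith : T * (s1 - 1.5708) ≤ t * (s1 - 1.5708))
    (by linarith)

theorem JPack.Lge (h : JPack K T S L x y W n s) {s1 t : ℝ} (h1 : s1 ≤ S)
    (hs : 3.1415 ≤ s1) (ht0 : 0 ≤ t) (ht : t ≤ T) : t * (s1 - 1.5708) ≤ L := by
  have h4 := h.LT
  have h5 := Real.pi_lt_d4
  have h6 : t * (s1 - 1.5708) ≤ T * (S - Real.pi / 2) :=
    mul_le_mul ht (by linarith) (by linarith) h.T0.le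
  linarith

theorem JPack.Kle (h : JPack K T S L x y W n s) {s1 t k : ℝ} (h1 : s1 ≤ S)
    (hs : 3.1415 ≤ s1) (ht : T ≤ t) (hk : t ≤ k * s1) : K ≤ k := by
  have h4 := h.TS
  have h6 : K * s1 ≤ K * S := mul_le_mul_of_nonneg_left h1 h.K0.le
  exact le_of_mul_le_mul_right (by linarith : K * s1 ≤ k * s1) (by linarith)

theorem JPack.sge (h : JPack K T S L x y W n s) {q sb t2 L2 K2 s1 : ℝ} (hS : s1 ≤ S)
    (hs1 : 3.1415 ≤ s1) (hT2 : T ≤ t2) (hL2 : L ≤ L2) (hL20 : 0 ≤ L2) (hK : K ≤ K2)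
    (hq : L2 + 3.1416 * K2 * s1 ≤ q * s1) (q0 : 0 ≤ q)
    (hq4 : q ^ 2 + (q + t2) ^ 2 ≤ 4) (hq2 : q ^ 2 ≤ 2)
    (hsb : sb ≤ (1 - q ^ 2 / 2) * (2 - q ^ 2 / 2 - (q + t2) ^ 2 / 2)) : sb ≤ s := by
  have hpi := Real.pi_lt_d4
  have hpi0 := Real.pi_pos
  have hT0 := h.T0
  have s0 : 0 < s1 := by linarith
  have hS0 : 0 < S := by linarith
  have hL0 : 0 < L := lt_of_lt_of_le (mul_pos hT0 (by linarith [h.Spi])) h.LT
  have h1 : L / S ≤ L2 / s1 := div_le_div₀ hL20 hL2 s0 hS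
  have h2 : Real.pi * K ≤ 3.1416 * K2 := mul_le_mul hpi.le hK h.K0.le (by norm_num)
  have h3 : L2 / s1 + 3.1416 * K2 ≤ q := by
    rw [div_add' _ _ _ s0.ne', div_le_iff₀ s0]
    exact hq
  have h4 : (q + T) ^ 2 ≤ (q + t2) ^ 2 :=
    pow_le_pow_left₀ (by linarith) (by linarith) 2
  have h5 := h.hs q (by linarith) hq2 (by linarith)
  refine le_trans hsb (le_trans ?_ h5)
  exact mul_le_mul_of_nonneg_left (by linarith) (by linarith)

theorem JPack.dS (h : JPack K T S L x y W n s) {sb d : ℝ} (hs : sb ≤ s) (hd0 : 0 ≤ d)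
    (hsb : 0 ≤ sb) (hd : 1 < 4 * sb * (d / 2 + (d / 2) ^ 3 / 6) ^ 2) : W ≤ d := by
  by_contra hcon
  push Not at hcon
  have h1 := h.spl
  have h2 : Real.sinh (d / 2) ≤ Real.sinh (W / 2) := Real.sinh_le_sinh.2 (by linarith)
  have h3 := JB_sinh_ge (x := d / 2) (by linarith)
  have h4 : (d / 2 + (d / 2) ^ 3 / 6) ^ 2 ≤ Real.sinh (W / 2) ^ 2 :=
    pow_le_pow_left₀ (by positivity) (h3.trans h2) 2
  have h5 : 4 * sb * (d / 2 + (d / 2) ^ 3 / 6) ^ 2 ≤ 4 * s * Real.sinh (W / 2) ^ 2 :=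
    mul_le_mul (by linarith) h4 (by positivity) (by linarith)
  linarith

theorem JB_sin_sq {z : ℝ} (hz : z ^ 2 ≤ 6) : z ^ 2 - z ^ 4 / 3 ≤ Real.sin z ^ 2 := by
  have key : ∀ z : ℝ, 0 ≤ z → z ^ 2 ≤ 6 → z ^ 2 - z ^ 4 / 3 ≤ Real.sin z ^ 2 := by
    intro z hz0 hz
    have h1 := Real.sin_ge_sub_cube hz0
    have h2 : 0 ≤ z - z ^ 3 / 6 := by
      have : z - z ^ 3 / 6 = z * (1 - z ^ 2 / 6) := by ring
      rw [this]
      exact mul_nonneg hz0 (by linarith)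
    have h3 : (z - z ^ 3 / 6) ^ 2 ≤ Real.sin z ^ 2 := pow_le_pow_left₀ h2 h1 2
    have h4 : (z - z ^ 3 / 6) ^ 2 = z ^ 2 - z ^ 4 / 3 + z ^ 6 / 36 := by ring
    have h5 : 0 ≤ z ^ 6 / 36 := by positivity
    linarith
  rcases le_total 0 z with h0 | h0
  · exact key z h0 hz
  · have := key (-z) (by linarith) (by rw [neg_sq]; exact hz)
    rw [Real.sin_neg] at this
    have e1 : (-z) ^ 2 = z ^ 2 := by ring
    have e2 : (-z) ^ 4 = z ^ 4 := by ring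
    rw [e1, e2, neg_sq] at this
    exact this

theorem JPack.dF (h : JPack K T S L x y W n s) {sb d d0 dl : ℝ} (hs : sb ≤ s)
    (hd0 : W ≤ d0) (hsb : 0 < sb) (hd04 : d0 ≤ 2) (hdl : S - Real.pi ≤ dl) (hd0' : 0 ≤ d)
    (hd : dl ≤ d ^ 2 * (sb * (1 - d0 ^ 2 / 12))) : W ≤ d := by
  have W0 := h.W0
  have h1 := h.full
  have h2 := h.WW
  have h3 : (x / 2) ^ 2 ≤ Real.sinh (x / 2) ^ 2 := by
    rcases le_total 0 (x / 2) with h0 | h0
    · exact pow_le_pow_left₀ h0 (Real.self_le_sinh_iff.2 h0) 2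
    · have h5 : -(x / 2) ≤ Real.sinh (-(x / 2)) := Real.self_le_sinh_iff.2 (by linarith)
      rw [Real.sinh_neg] at h5
      have h6 : (-(x / 2)) ^ 2 ≤ (-Real.sinh (x / 2)) ^ 2 :=
        pow_le_pow_left₀ (by linarith) h5 2
      rw [neg_sq, neg_sq] at h6
      exact h6
  have hW2 : W ^ 2 ≤ d0 ^ 2 := pow_le_pow_left₀ W0 hd0 2
  have hd2 : d0 ^ 2 ≤ 4 := by nlinarith
  have hy : y ^ 2 ≤ W ^ 2 := by nlinarith [sq_nonneg x]
  have h4 := JB_sin_sq (z := y / 2) (by nlinarith)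
  have h5 : W ^ 2 * (1 - d0 ^ 2 / 12) ≤
      4 * (Real.sinh (x / 2) ^ 2 + Real.sin (y / 2) ^ 2) := by
    have h6 : 4 * ((y / 2) ^ 2 - (y / 2) ^ 4 / 3) = y ^ 2 - y ^ 4 / 12 := by ring
    have h7 : y ^ 4 ≤ W ^ 2 * d0 ^ 2 := by
      have : y ^ 4 = y ^ 2 * y ^ 2 := by ring
      rw [this]
      exact mul_le_mul hy (hy.trans hW2) (sq_nonneg _) (sq_nonneg _)
    nlinarith
  have h6 : sb * (W ^ 2 * (1 - d0 ^ 2 / 12)) ≤ dl := by
    have h7 : 0 ≤ W ^ 2 * (1 - d0 ^ 2 / 12) := mul_nonneg (sq_nonneg _) (by linarith)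
    have h8 : sb * (W ^ 2 * (1 - d0 ^ 2 / 12)) ≤
        s * (4 * (Real.sinh (x / 2) ^ 2 + Real.sin (y / 2) ^ 2)) :=
      mul_le_mul hs h5 h7 (by linarith)
    linarith
  have h7 : W ^ 2 * (sb * (1 - d0 ^ 2 / 12)) ≤ d ^ 2 * (sb * (1 - d0 ^ 2 / 12)) := by
    linarith
  have h8 : 0 < sb * (1 - d0 ^ 2 / 12) := mul_pos hsb (by linarith)
  have h9 := le_of_mul_le_mul_right h7 h8
  exact le_of_sq_le_sq h9 hd0'

theorem JPack.leaf (h : JPack K T S L x y W n s) {s1 t1 t2 Lc K2 d c E1 w r : ℝ}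
    (hS : s1 ≤ S) (hs1 : 3.1415 ≤ s1) (hT1 : t1 ≤ T) (ht1 : 0 ≤ t1) (hT2 : T ≤ t2)
    (hLc : Lc ≤ L) (hLc0 : 0 ≤ Lc) (hK : K ≤ K2) (hW : W ≤ d) (hd2 : d ≤ 2) (d0 : 0 ≤ d)
    (hc : Real.cos S ≤ c)
    (hE : 1 ≤ E1 * (1 + Lc + Lc ^ 2 / 2 + Lc ^ 3 / 6 + Lc ^ 4 / 24 + Lc ^ 5 / 120))
    (hE0 : 0 ≤ E1) (hw0 : 0 ≤ w) (hw1 : w ≤ 1) (hw : w ^ 2 + E1 * (w + c) ≤ 1)
    (hr0 : 0 ≤ r) (hr1 : r ≤ 1) (hr : 1 ≤ w * (1 + r + r ^ 2 / 2 + r ^ 3 / 6))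
    (hM : t2 * d ≤ Lc + t1 * s1)
    (hfin : d * (1 + t2 ^ 2 / 2) + r + K2 * ((Lc + t1 * s1) ^ 2 +
      (1 + 4 * ((2 * d + r) * K2) / 9) * (d + r / 2) ^ 2) < Lc + t1 * s1) : False := by
  have K0 := h.K0
  have T0 := h.T0
  have hE1 : Real.exp (-L) ≤ E1 := by
    have h1 := JB_exp5 hLc0
    have h2 : 1 ≤ E1 * Real.exp L := by
      refine hE.trans (mul_le_mul_of_nonneg_left (h1.trans (Real.exp_le_exp.2 hLc)) hE0)
    have h3 : Real.exp (-L) * Real.exp L = 1 := by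
      rw [← Real.exp_add, neg_add_cancel, Real.exp_zero]
    have h4 := Real.exp_pos (-L)
    calc Real.exp (-L) = Real.exp (-L) * 1 := (mul_one _).symm
      _ ≤ Real.exp (-L) * (E1 * Real.exp L) := mul_le_mul_of_nonneg_left h2 h4.le
      _ = E1 * (Real.exp (-L) * Real.exp L) := by ring
      _ = E1 := by rw [h3, mul_one]
  have hEp := Real.exp_pos (-L)
  have hn : w ≤ n := by
    by_contra hcon
    push Not at hcon
    have h1 := h.circ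
    have h2 := h.n0
    have h3 : Real.exp (-L) * Real.cos S ≤ Real.exp (-L) * c :=
      mul_le_mul_of_nonneg_left hc hEp.le
    have h4 : n ^ 2 + Real.exp (-L) * n < w ^ 2 + Real.exp (-L) * w := by
      have h5 : n ^ 2 ≤ w ^ 2 := pow_le_pow_left₀ h2 hcon.le 2
      have h6 : Real.exp (-L) * n < Real.exp (-L) * w := mul_lt_mul_of_pos_left hcon hEp
      linarith
    have h5 : 1 < w ^ 2 + Real.exp (-L) * (w + c) := by linarith
    rcases le_or_gt 0 (w + c) with h6 | h6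
    · have h7 : Real.exp (-L) * (w + c) ≤ E1 * (w + c) := mul_le_mul_of_nonneg_right hE1 h6
      linarith
    · have h7 : Real.exp (-L) * (w + c) ≤ 0 :=
        mul_nonpos_of_nonneg_of_nonpos hEp.le h6.le
      nlinarith
  have her : Real.exp (-r) ≤ n := by
    refine le_trans ?_ hn
    have h1 := JB_exp3 hr0
    have h2 : 1 ≤ w * Real.exp r := hr.trans (mul_le_mul_of_nonneg_left h1 hw0)
    have h3 : Real.exp (-r) * Real.exp r = 1 := by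
      rw [← Real.exp_add, neg_add_cancel, Real.exp_zero]
    have h4 := Real.exp_pos (-r)
    calc Real.exp (-r) = Real.exp (-r) * 1 := (mul_one _).symm
      _ ≤ Real.exp (-r) * (w * Real.exp r) := mul_le_mul_of_nonneg_left h2 h4.le
      _ = w * (Real.exp (-r) * Real.exp r) := by ring
      _ = w := by rw [h3, mul_one]
  have hMl : Lc + t1 * s1 ≤ L + T * S := by
    have : t1 * s1 ≤ T * S := mul_le_mul hT1 hS (by linarith) T0.le
    linarith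
  have hcc : 1 + 4 * ((2 * d + r) * K) / 9 ≤ 1 + 4 * ((2 * d + r) * K2) / 9 := by
    have : (2 * d + r) * K ≤ (2 * d + r) * K2 :=
      mul_le_mul_of_nonneg_left hK (by linarith)
    linarith
  have hTd : T * d ≤ Lc + t1 * s1 := le_trans (mul_le_mul_of_nonneg_right hT2 d0) hM
  have hz := h.Z hW hd2 hr0 hr1 her hMl hTd hcc
  have h1 : d * (1 + T ^ 2 / 2) ≤ d * (1 + t2 ^ 2 / 2) := by
    have : T ^ 2 ≤ t2 ^ 2 := pow_le_pow_left₀ T0.le hT2 2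
    exact mul_le_mul_of_nonneg_left (by linarith) d0
  have hK2 : 0 ≤ K2 := K0.le.trans hK
  have h2 : K * ((Lc + t1 * s1) ^ 2 + (1 + 4 * ((2 * d + r) * K2) / 9) * (d + r / 2) ^ 2) ≤
      K2 * ((Lc + t1 * s1) ^ 2 + (1 + 4 * ((2 * d + r) * K2) / 9) * (d + r / 2) ^ 2) := by
    apply mul_le_mul_of_nonneg_right hK
    have : 0 ≤ (2 * d + r) * K2 := mul_nonneg (by linarith) hK2
    positivity
  linarith

end EQS
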