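import Mathlib
import Pool.Agent.Lib.MP_226de1_co.E.JBox2

/-! The box tree for the zone step on the higher sheets (written by a script). -/

set_option autoImplicit false
set_option linter.unusedVariables false

namespace EQS

variable {K T S L x y W n s : ℝ}

theorem JPack.tau0 (h : JPack K T S L x y W n s) (hS : 3.1415 ≤ S) (h2 : S ≤ 3.4)
    (hc : Real.cos S ≤ (-0.966)) (hT : 0.16 ≤ T) : False := by
  have hL0 : 0 ≤ L := le_trans (mul_nonneg h.T0.le (by linarith [h.Spi, Real.pi_pos])) h.LT
  have hL1 : L ≤ 1.7 := by linarith [h.L17]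
  have hT2 : T ≤ 0.6 := h.T6
  rcases le_total T 0.2 with g0 | g0
  · have e1 : T ≤ 0.2 := g0
    have e2 : K ≤ 0.06367 := h.Kle hS (by norm_num) e1 (by norm_num)
    have e3 : 0.9301 ≤ s := h.sge (q := 0.7412) hS (by norm_num) e1 hL1 (by norm_num) e2
      (by norm_num) (by norm_num) (by norm_num) (by norm_num) (by norm_num)
    have e4 : W ≤ 0.9958 := h.dS e3 (by norm_num) (by norm_num) (by norm_num)
    have e5 : W ≤ 0.5505 := h.dF (dl := 0.2585) e3 e4 (by norm_num) (by norm_num)
      (by linarith [Real.pi_gt_d4]) (by norm_num) (by norm_num)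
    have e6 : 0.2513 ≤ L := le_trans (by norm_num) (h.Lge hS (by norm_num) (by norm_num) hT)
    exact h.leaf (c := (-0.966)) (E1 := 0.7778) (w := 0.9904) (r := 0.0097) hS (by norm_num) hT
      (by norm_num) e1 e6 (by norm_num) e2 e5 (by norm_num) (by norm_num) hc (by norm_num)
      (by norm_num) (by norm_num) (by norm_num) (by norm_num) (by norm_num) (by norm_num)
      (by norm_num) (by norm_num) (by norm_num)
  · rcases le_total T 0.315 with g1 | g1
    · have e1 : T ≤ 0.315 := g1
      have e2 : K ≤ 0.10028 := h.Kle hS (by norm_num) e1 (by norm_num)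
      have e3 : 0.6002 ≤ s := h.sge (q := 0.8562) hS (by norm_num) e1 hL1 (by norm_num) e2
        (by norm_num) (by norm_num) (by norm_num) (by norm_num) (by norm_num)
      have e4 : W ≤ 1.2159 := h.dS e3 (by norm_num) (by norm_num) (by norm_num)
      have e5 : W ≤ 0.7009 := h.dF (dl := 0.2585) e3 e4 (by norm_num) (by norm_num)
        (by linarith [Real.pi_gt_d4]) (by norm_num) (by norm_num)
      have e6 : 0.3141 ≤ L := le_trans (by norm_num) (h.Lge hS (by norm_num) (by norm_num) g0)
      exact h.leaf (c := (-0.966)) (E1 := 0.7305) (w := 0.9908) (r := 0.0093) hS (by norm_num) g0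
        (by norm_num) e1 e6 (by norm_num) e2 e5 (by norm_num) (by norm_num) hc (by norm_num)
        (by norm_num) (by norm_num) (by norm_num) (by norm_num) (by norm_num) (by norm_num)
        (by norm_num) (by norm_num) (by norm_num)
    · have e1 : T ≤ 0.425 := by linarith [h.T8]
      have e2 : K ≤ 0.125 := by linarith [h.K8]
      have e3 : 0.3612 ≤ s := h.sge (q := 0.9339) hS (by norm_num) e1 hL1 (by norm_num) e2
        (by norm_num) (by norm_num) (by norm_num) (by norm_num) (by norm_num)
      have e4 : W ≤ 1.5182 := h.dS e3 (by norm_num) (by norm_num) (by norm_num)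
      have e5 : W ≤ 0.9412 := h.dF (dl := 0.2585) e3 e4 (by norm_num) (by norm_num)
        (by linarith [Real.pi_gt_d4]) (by norm_num) (by norm_num)
      have e6 : 0.4947 ≤ L := le_trans (by norm_num) (h.Lge hS (by norm_num) (by norm_num) g1)
      exact h.leaf (c := (-0.966)) (E1 := 0.6098) (w := 0.992) (r := 0.0081) hS (by norm_num) g1
        (by norm_num) e1 e6 (by norm_num) e2 e5 (by norm_num) (by norm_num) hc (by norm_num)
        (by norm_num) (by norm_num) (by norm_num) (by norm_num) (by norm_num) (by norm_num)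
        (by norm_num) (by norm_num) (by norm_num)

theorem JPack.L0 (h : JPack K T S L x y W n s) (hS : 3.1415 ≤ S) (h2 : S ≤ 3.4)
    (hc : Real.cos S ≤ (-0.966)) (hT2 : T ≤ 0.16) (hL0 : 1 ≤ L) : False := by
  have hT : 0 ≤ T := h.T0.le
  have hL1 : L ≤ 1.7 := by linarith [h.L17]
  have e1 : T ≤ 0.16 := hT2
  have e2 : K ≤ 0.05094 := h.Kle hS (by norm_num) e1 (by norm_num)
  have e3 : 1.0432 ≤ s := h.sge (q := 0.7012) hS (by norm_num) e1 hL1 (by norm_num) e2
    (by norm_num) (by norm_num) (by norm_num) (by norm_num) (by norm_num)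
  have e4 : W ≤ 0.9441 := h.dS e3 (by norm_num) (by norm_num) (by norm_num)
  have e5 : W ≤ 0.5174 := h.dF (dl := 0.2585) e3 e4 (by norm_num) (by norm_num)
    (by linarith [Real.pi_gt_d4]) (by norm_num) (by norm_num)
  exact h.leaf (c := (-0.966)) (E1 := 0.3681) (w := 0.9947) (r := 0.0054) hS (by norm_num) hT
    (by norm_num) e1 hL0 (by norm_num) e2 e5 (by norm_num) (by norm_num) hc (by norm_num)
    (by norm_num) (by norm_num) (by norm_num) (by norm_num) (by norm_num) (by norm_num)
    (by norm_num) (by norm_num) (by norm_num)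

theorem JPack.tau1 (h : JPack K T S L x y W n s) (hS : 3.4 ≤ S) (h2 : S ≤ 3.7)
    (hc : Real.cos S ≤ (-0.844)) (hT : 0.16 ≤ T) : False := by
  have hL0 : 0 ≤ L := le_trans (mul_nonneg h.T0.le (by linarith [h.Spi, Real.pi_pos])) h.LT
  have hL1 : L ≤ 1.7 := by linarith [h.L17]
  have hT2 : T ≤ 0.6 := h.T6
  rcases le_total T 0.37 with g0 | g0
  · rcases le_total L 1 with g1 | g1
    · rcases le_total T 0.225 with g2 | g2
      · have e1 : T ≤ 0.225 := g2
        have e2 : K ≤ 0.06618 := h.Kle hS (by norm_num) e1 (by norm_num)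
        have e3 : 1.4067 ≤ s := h.sge (q := 0.5021) hS (by norm_num) e1 g1 (by norm_num) e2
          (by norm_num) (by norm_num) (by norm_num) (by norm_num) (by norm_num)
        have e4 : W ≤ 0.8202 := h.dS e3 (by norm_num) (by norm_num) (by norm_num)
        have e5 : W ≤ 0.6486 := h.dF (dl := 0.5585) e3 e4 (by norm_num) (by norm_num)
          (by linarith [Real.pi_gt_d4]) (by norm_num) (by norm_num)
        have e6 : 0.2926 ≤ L := le_trans (by norm_num) (h.Lge hS (by norm_num) (by norm_num) hT)
        exact h.leaf (c := (-0.844)) (E1 := 0.7464) (w := 0.9569) (r := 0.0441) hS (by norm_num) hT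
          (by norm_num) e1 e6 (by norm_num) e2 e5 (by norm_num) (by norm_num) hc (by norm_num)
          (by norm_num) (by norm_num) (by norm_num) (by norm_num) (by norm_num) (by norm_num)
          (by norm_num) (by norm_num) (by norm_num)
      · have e1 : T ≤ 0.37 := g0
        have e2 : K ≤ 0.10883 := h.Kle hS (by norm_num) e1 (by norm_num)
        have e3 : 1.0302 ≤ s := h.sge (q := 0.6361) hS (by norm_num) e1 g1 (by norm_num) e2
          (by norm_num) (by norm_num) (by norm_num) (by norm_num) (by norm_num)
        have e4 : W ≤ 0.9496 := h.dS e3 (by norm_num) (by norm_num) (by norm_num)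
        have e5 : W ≤ 0.7657 := h.dF (dl := 0.5585) e3 e4 (by norm_num) (by norm_num)
          (by linarith [Real.pi_gt_d4]) (by norm_num) (by norm_num)
        have e6 : 0.4115 ≤ L := le_trans (by norm_num) (h.Lge hS (by norm_num) (by norm_num) g2)
        exact h.leaf (c := (-0.844)) (E1 := 0.6627) (w := 0.9605) (r := 0.0404) hS (by norm_num) g2
          (by norm_num) e1 e6 (by norm_num) e2 e5 (by norm_num) (by norm_num) hc (by norm_num)
          (by norm_num) (by norm_num) (by norm_num) (by norm_num) (by norm_num) (by norm_num)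
          (by norm_num) (by norm_num) (by norm_num)
    · have e1 : T ≤ 0.37 := g0
      have e2 : K ≤ 0.10883 := h.Kle hS (by norm_num) e1 (by norm_num)
      have e3 : 0.588 ≤ s := h.sge (q := 0.842) hS (by norm_num) e1 hL1 (by norm_num) e2
        (by norm_num) (by norm_num) (by norm_num) (by norm_num) (by norm_num)
      have e4 : W ≤ 1.2272 := h.dS e3 (by norm_num) (by norm_num) (by norm_num)
      have e5 : W ≤ 1.0422 := h.dF (dl := 0.5585) e3 e4 (by norm_num) (by norm_num)
        (by linarith [Real.pi_gt_d4]) (by norm_num) (by norm_num)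
      exact h.leaf (c := (-0.844)) (E1 := 0.3681) (w := 0.9754) (r := 0.025) hS (by norm_num) hT
        (by norm_num) e1 g1 (by norm_num) e2 e5 (by norm_num) (by norm_num) hc (by norm_num)
        (by norm_num) (by norm_num) (by norm_num) (by norm_num) (by norm_num) (by norm_num)
        (by norm_num) (by norm_num) (by norm_num)
  · rcases le_total L 1.18 with g1 | g1
    · have e1 : T ≤ 0.4625 := by linarith [h.T8]
      have e2 : K ≤ 0.125 := by linarith [h.K8]
      have e3 : 0.7289 ≤ s := h.sge (q := 0.7398) hS (by norm_num) e1 g1 (by norm_num) e2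
        (by norm_num) (by norm_num) (by norm_num) (by norm_num) (by norm_num)
      have e4 : W ≤ 1.1138 := h.dS e3 (by norm_num) (by norm_num) (by norm_num)
      have e5 : W ≤ 0.9245 := h.dF (dl := 0.5585) e3 e4 (by norm_num) (by norm_num)
        (by linarith [Real.pi_gt_d4]) (by norm_num) (by norm_num)
      have e6 : 0.6768 ≤ L := le_trans (by norm_num) (h.Lge hS (by norm_num) (by norm_num) g0)
      exact h.leaf (c := (-0.844)) (E1 := 0.5083) (w := 0.9679) (r := 0.0327) hS (by norm_num) g0
        (by norm_num) e1 e6 (by norm_num) e2 e5 (by norm_num) (by norm_num) hc (by norm_num)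
        (by norm_num) (by norm_num) (by norm_num) (by norm_num) (by norm_num) (by norm_num)
        (by norm_num) (by norm_num) (by norm_num)
    · have e1 : T ≤ 0.4625 := by linarith [h.T8]
      have e2 : K ≤ 0.125 := by linarith [h.K8]
      have e3 : 0.411 ≤ s := h.sge (q := 0.8927) hS (by norm_num) e1 hL1 (by norm_num) e2
        (by norm_num) (by norm_num) (by norm_num) (by norm_num) (by norm_num)
      have e4 : W ≤ 1.4364 := h.dS e3 (by norm_num) (by norm_num) (by norm_num)
      have e5 : W ≤ 1.2811 := h.dF (dl := 0.5585) e3 e4 (by norm_num) (by norm_num)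
        (by linarith [Real.pi_gt_d4]) (by norm_num) (by norm_num)
      exact h.leaf (c := (-0.844)) (E1 := 0.3078) (w := 0.979) (r := 0.0213) hS (by norm_num) g0
        (by norm_num) e1 g1 (by norm_num) e2 e5 (by norm_num) (by norm_num) hc (by norm_num)
        (by norm_num) (by norm_num) (by norm_num) (by norm_num) (by norm_num) (by norm_num)
        (by norm_num) (by norm_num) (by norm_num)

theorem JPack.L1 (h : JPack K T S L x y W n s) (hS : 3.4 ≤ S) (h2 : S ≤ 3.7)
    (hc : Real.cos S ≤ (-0.844)) (hT2 : T ≤ 0.16) (hL0 : 1 ≤ L) : False := by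
  have hT : 0 ≤ T := h.T0.le
  have hL1 : L ≤ 1.7 := by linarith [h.L17]
  have e1 : T ≤ 0.16 := hT2
  have e2 : K ≤ 0.04706 := h.Kle hS (by norm_num) e1 (by norm_num)
  have e3 : 1.1565 ≤ s := h.sge (q := 0.6479) hS (by norm_num) e1 hL1 (by norm_num) e2
    (by norm_num) (by norm_num) (by norm_num) (by norm_num) (by norm_num)
  have e4 : W ≤ 0.8996 := h.dS e3 (by norm_num) (by norm_num) (by norm_num)
  have e5 : W ≤ 0.7197 := h.dF (dl := 0.5585) e3 e4 (by norm_num) (by norm_num)
    (by linarith [Real.pi_gt_d4]) (by norm_num) (by norm_num)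
  exact h.leaf (c := (-0.844)) (E1 := 0.3681) (w := 0.9754) (r := 0.025) hS (by norm_num) hT
    (by norm_num) e1 hL0 (by norm_num) e2 e5 (by norm_num) (by norm_num) hc (by norm_num)
    (by norm_num) (by norm_num) (by norm_num) (by norm_num) (by norm_num) (by norm_num)
    (by norm_num) (by norm_num) (by norm_num)

theorem JPack.tau2 (h : JPack K T S L x y W n s) (hS : 3.7 ≤ S) (h2 : S ≤ 4)
    (hc : Real.cos S ≤ (-0.63)) (hT : 0.16 ≤ T) : False := by
  have hL0 : 0 ≤ L := le_trans (mul_nonneg h.T0.le (by linarith [h.Spi, Real.pi_pos])) h.LT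
  have hL1 : L ≤ 1.7 := by linarith [h.L17]
  have hT2 : T ≤ 0.6 := h.T6
  rcases le_total L 0.74 with g0 | g0
  · rcases le_total T 0.215 with g1 | g1
    · rcases le_total L 0.4 with g2 | g2
      · have e1 : T ≤ 0.1879 := h.Tle hS (by norm_num) g2 (by norm_num)
        have e2 : K ≤ 0.05079 := h.Kle hS (by norm_num) e1 (by norm_num)
        have e3 : 1.7937 ≤ s := h.sge (q := 0.2677) hS (by norm_num) e1 g2 (by norm_num) e2
          (by norm_num) (by norm_num) (by norm_num) (by norm_num) (by norm_num)
        have e4 : W ≤ 0.7305 := h.dS e3 (by norm_num) (by norm_num) (by norm_num)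
        have e6 : 0.3406 ≤ L := le_trans (by norm_num) (h.Lge hS (by norm_num) (by norm_num) hT)
        exact h.leaf (c := (-0.63)) (E1 := 0.7114) (w := 0.8991) (r := 0.1064) hS (by norm_num) hT
          (by norm_num) e1 e6 (by norm_num) e2 e4 (by norm_num) (by norm_num) hc (by norm_num)
          (by norm_num) (by norm_num) (by norm_num) (by norm_num) (by norm_num) (by norm_num)
          (by norm_num) (by norm_num) (by norm_num)
      · have e1 : T ≤ 0.215 := g1
        have e2 : K ≤ 0.05811 := h.Kle hS (by norm_num) e1 (by norm_num)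
        have e3 : 1.6202 ≤ s := h.sge (q := 0.3826) hS (by norm_num) e1 g0 (by norm_num) e2
          (by norm_num) (by norm_num) (by norm_num) (by norm_num) (by norm_num)
        have e4 : W ≤ 0.7669 := h.dS e3 (by norm_num) (by norm_num) (by norm_num)
        exact h.leaf (c := (-0.63)) (E1 := 0.6704) (w := 0.9036) (r := 0.1014) hS (by norm_num) hT
          (by norm_num) e1 g2 (by norm_num) e2 e4 (by norm_num) (by norm_num) hc (by norm_num)
          (by norm_num) (by norm_num) (by norm_num) (by norm_num) (by norm_num) (by norm_num)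
          (by norm_num) (by norm_num) (by norm_num)
    · have e1 : T ≤ 0.3476 := h.Tle hS (by norm_num) g0 (by norm_num)
      have e2 : K ≤ 0.09395 := h.Kle hS (by norm_num) e1 (by norm_num)
      have e3 : 1.3355 ≤ s := h.sge (q := 0.4952) hS (by norm_num) e1 g0 (by norm_num) e2
        (by norm_num) (by norm_num) (by norm_num) (by norm_num) (by norm_num)
      have e4 : W ≤ 0.8406 := h.dS e3 (by norm_num) (by norm_num) (by norm_num)
      have e6 : 0.4577 ≤ L := le_trans (by norm_num) (h.Lge hS (by norm_num) (by norm_num) g1)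
      exact h.leaf (c := (-0.63)) (E1 := 0.6328) (w := 0.9078) (r := 0.0968) hS (by norm_num) g1
        (by norm_num) e1 e6 (by norm_num) e2 e4 (by norm_num) (by norm_num) hc (by norm_num)
        (by norm_num) (by norm_num) (by norm_num) (by norm_num) (by norm_num) (by norm_num)
        (by norm_num) (by norm_num) (by norm_num)
  · rcases le_total T 0.26 with g1 | g1
    · have e1 : T ≤ 0.26 := g1
      have e2 : K ≤ 0.07028 := h.Kle hS (by norm_num) e1 (by norm_num)
      have e3 : 1.0195 ≤ s := h.sge (q := 0.6803) hS (by norm_num) e1 hL1 (by norm_num) e2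
        (by norm_num) (by norm_num) (by norm_num) (by norm_num) (by norm_num)
      have e4 : W ≤ 0.9542 := h.dS e3 (by norm_num) (by norm_num) (by norm_num)
      exact h.leaf (c := (-0.63)) (E1 := 0.4772) (w := 0.9265) (r := 0.0764) hS (by norm_num) hT
        (by norm_num) e1 g0 (by norm_num) e2 e4 (by norm_num) (by norm_num) hc (by norm_num)
        (by norm_num) (by norm_num) (by norm_num) (by norm_num) (by norm_num) (by norm_num)
        (by norm_num) (by norm_num) (by norm_num)
    · rcases le_total T 0.43 with g2 | g2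
      · rcases le_total L 1.22 with g3 | g3
        · have e1 : T ≤ 0.43 := g2
          have e2 : K ≤ 0.11622 := h.Kle hS (by norm_num) e1 (by norm_num)
          have e3 : 0.854 ≤ s := h.sge (q := 0.6949) hS (by norm_num) e1 g3 (by norm_num) e2
            (by norm_num) (by norm_num) (by norm_num) (by norm_num) (by norm_num)
          have e4 : W ≤ 1.0359 := h.dS e3 (by norm_num) (by norm_num) (by norm_num)
          exact h.leaf (c := (-0.63)) (E1 := 0.4772) (w := 0.9265) (r := 0.0764) hS (by norm_num) g1
            (by norm_num) e1 g0 (by norm_num) e2 e4 (by norm_num) (by norm_num) hc (by norm_num)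
            (by norm_num) (by norm_num) (by norm_num) (by norm_num) (by norm_num) (by norm_num)
            (by norm_num) (by norm_num) (by norm_num)
        · have e1 : T ≤ 0.43 := g2
          have e2 : K ≤ 0.11622 := h.Kle hS (by norm_num) e1 (by norm_num)
          have e3 : 0.5761 ≤ s := h.sge (q := 0.8246) hS (by norm_num) e1 hL1 (by norm_num) e2
            (by norm_num) (by norm_num) (by norm_num) (by norm_num) (by norm_num)
          have e4 : W ≤ 1.2384 := h.dS e3 (by norm_num) (by norm_num) (by norm_num)
          exact h.leaf (c := (-0.63)) (E1 := 0.2958) (w := 0.9512) (r := 0.0501) hS (by norm_num) g1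
            (by norm_num) e1 g3 (by norm_num) e2 e4 (by norm_num) (by norm_num) hc (by norm_num)
            (by norm_num) (by norm_num) (by norm_num) (by norm_num) (by norm_num) (by norm_num)
            (by norm_num) (by norm_num) (by norm_num)
      · rcases le_total L 1.46 with g3 | g3
        · have e1 : T ≤ 0.5 := by linarith [h.T8]
          have e2 : K ≤ 0.125 := by linarith [h.K8]
          have e3 : 0.5945 ≤ s := h.sge (q := 0.7873) hS (by norm_num) e1 g3 (by norm_num) e2
            (by norm_num) (by norm_num) (by norm_num) (by norm_num) (by norm_num)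
          have e4 : W ≤ 1.2211 := h.dS e3 (by norm_num) (by norm_num) (by norm_num)
          have e6 : 0.9155 ≤ L := le_trans (by norm_num) (h.Lge hS (by norm_num) (by norm_num) g2)
          exact h.leaf (c := (-0.63)) (E1 := 0.4005) (w := 0.9365) (r := 0.0657) hS (by norm_num) g2
            (by norm_num) e1 e6 (by norm_num) e2 e4 (by norm_num) (by norm_num) hc (by norm_num)
            (by norm_num) (by norm_num) (by norm_num) (by norm_num) (by norm_num) (by norm_num)
            (by norm_num) (by norm_num) (by norm_num)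
        · have e1 : T ≤ 0.5 := by linarith [h.T8]
          have e2 : K ≤ 0.125 := by linarith [h.K8]
          have e3 : 0.4602 ≤ s := h.sge (q := 0.8522) hS (by norm_num) e1 hL1 (by norm_num) e2
            (by norm_num) (by norm_num) (by norm_num) (by norm_num) (by norm_num)
          have e4 : W ≤ 1.3676 := h.dS e3 (by norm_num) (by norm_num) (by norm_num)
          exact h.leaf (c := (-0.63)) (E1 := 0.2332) (w := 0.9606) (r := 0.0402) hS (by norm_num) g2
            (by norm_num) e1 g3 (by norm_num) e2 e4 (by norm_num) (by norm_num) hc (by norm_num)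
            (by norm_num) (by norm_num) (by norm_num) (by norm_num) (by norm_num) (by norm_num)
            (by norm_num) (by norm_num) (by norm_num)

theorem JPack.L2 (h : JPack K T S L x y W n s) (hS : 3.7 ≤ S) (h2 : S ≤ 4)
    (hc : Real.cos S ≤ (-0.63)) (hT2 : T ≤ 0.16) (hL0 : 1 ≤ L) : False := by
  have hT : 0 ≤ T := h.T0.le
  have hL1 : L ≤ 1.7 := by linarith [h.L17]
  rcases le_total T 0.025 with g0 | g0
  · have e1 : T ≤ 0.025 := g0
    have e2 : K ≤ 0.00676 := h.Kle hS (by norm_num) e1 (by norm_num)
    have e3 : 1.5536 ≤ s := h.sge (q := 0.4807) hS (by norm_num) e1 hL1 (by norm_num) e2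
      (by norm_num) (by norm_num) (by norm_num) (by norm_num) (by norm_num)
    have e4 : W ≤ 0.7824 := h.dS e3 (by norm_num) (by norm_num) (by norm_num)
    exact h.leaf (c := (-0.63)) (E1 := 0.3681) (w := 0.941) (r := 0.0609) hS (by norm_num) hT
      (by norm_num) e1 hL0 (by norm_num) e2 e4 (by norm_num) (by norm_num) hc (by norm_num)
      (by norm_num) (by norm_num) (by norm_num) (by norm_num) (by norm_num) (by norm_num)
      (by norm_num) (by norm_num) (by norm_num)
  · have e1 : T ≤ 0.16 := hT2
    have e2 : K ≤ 0.04325 := h.Kle hS (by norm_num) e1 (by norm_num)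
    have e3 : 1.2649 ≤ s := h.sge (q := 0.5954) hS (by norm_num) e1 hL1 (by norm_num) e2
      (by norm_num) (by norm_num) (by norm_num) (by norm_num) (by norm_num)
    have e4 : W ≤ 0.8625 := h.dS e3 (by norm_num) (by norm_num) (by norm_num)
    exact h.leaf (c := (-0.63)) (E1 := 0.3681) (w := 0.941) (r := 0.0609) hS (by norm_num) g0
      (by norm_num) e1 hL0 (by norm_num) e2 e4 (by norm_num) (by norm_num) hc (by norm_num)
      (by norm_num) (by norm_num) (by norm_num) (by norm_num) (by norm_num) (by norm_num)
      (by norm_num) (by norm_num) (by norm_num)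

theorem JPack.tau3 (h : JPack K T S L x y W n s) (hS : 4 ≤ S) (h2 : S ≤ 4.35)
    (hc : Real.cos S ≤ (-0.35)) (hT : 0.16 ≤ T) : False := by
  have hL0 : 0 ≤ L := le_trans (mul_nonneg h.T0.le (by linarith [h.Spi, Real.pi_pos])) h.LT
  have hL1 : L ≤ 1.7 := by linarith [h.L17]
  have hT2 : T ≤ 0.6 := h.T6
  rcases le_total L 0.78 with g0 | g0
  · rcases le_total T 0.21 with g1 | g1
    · rcases le_total T 0.17 with g2 | g2
      · have e1 : T ≤ 0.17 := g2
        have e2 : K ≤ 0.0425 := h.Kle hS (by norm_num) e1 (by norm_num)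
        have e3 : 1.7233 ≤ s := h.sge (q := 0.3286) hS (by norm_num) e1 g0 (by norm_num) e2
          (by norm_num) (by norm_num) (by norm_num) (by norm_num) (by norm_num)
        have e4 : W ≤ 0.7446 := h.dS e3 (by norm_num) (by norm_num) (by norm_num)
        have e6 : 0.3886 ≤ L := le_trans (by norm_num) (h.Lge hS (by norm_num) (by norm_num) hT)
        exact h.leaf (c := (-0.35)) (E1 := 0.6781) (w := 0.8238) (r := 0.1939) hS (by norm_num) hT
          (by norm_num) e1 e6 (by norm_num) e2 e4 (by norm_num) (by norm_num) hc (by norm_num)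
          (by norm_num) (by norm_num) (by norm_num) (by norm_num) (by norm_num) (by norm_num)
          (by norm_num) (by norm_num) (by norm_num)
      · have e1 : T ≤ 0.21 := g1
        have e2 : K ≤ 0.0525 := h.Kle hS (by norm_num) e1 (by norm_num)
        have e3 : 1.6578 ≤ s := h.sge (q := 0.36) hS (by norm_num) e1 g0 (by norm_num) e2
          (by norm_num) (by norm_num) (by norm_num) (by norm_num) (by norm_num)
        have e4 : W ≤ 0.7585 := h.dS e3 (by norm_num) (by norm_num) (by norm_num)
        have e6 : 0.4129 ≤ L := le_trans (by norm_num) (h.Lge hS (by norm_num) (by norm_num) g2)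
        exact h.leaf (c := (-0.35)) (E1 := 0.6618) (w := 0.8271) (r := 0.1899) hS (by norm_num) g2
          (by norm_num) e1 e6 (by norm_num) e2 e4 (by norm_num) (by norm_num) hc (by norm_num)
          (by norm_num) (by norm_num) (by norm_num) (by norm_num) (by norm_num) (by norm_num)
          (by norm_num) (by norm_num) (by norm_num)
    · have e1 : T ≤ 0.3211 := h.Tle hS (by norm_num) g0 (by norm_num)
      have e2 : K ≤ 0.08028 := h.Kle hS (by norm_num) e1 (by norm_num)
      have e3 : 1.4442 ≤ s := h.sge (q := 0.4473) hS (by norm_num) e1 g0 (by norm_num) e2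
        (by norm_num) (by norm_num) (by norm_num) (by norm_num) (by norm_num)
      have e4 : W ≤ 0.81 := h.dS e3 (by norm_num) (by norm_num) (by norm_num)
      have e6 : 0.5101 ≤ L := le_trans (by norm_num) (h.Lge hS (by norm_num) (by norm_num) g1)
      exact h.leaf (c := (-0.35)) (E1 := 0.6005) (w := 0.84) (r := 0.1744) hS (by norm_num) g1
        (by norm_num) e1 e6 (by norm_num) e2 e4 (by norm_num) (by norm_num) hc (by norm_num)
        (by norm_num) (by norm_num) (by norm_num) (by norm_num) (by norm_num) (by norm_num)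
        (by norm_num) (by norm_num) (by norm_num)
  · rcases le_total T 0.43 with g1 | g1
    · rcases le_total T 0.295 with g2 | g2
      · have e1 : T ≤ 0.295 := g2
        have e2 : K ≤ 0.07375 := h.Kle hS (by norm_num) e1 (by norm_num)
        have e3 : 1.0443 ≤ s := h.sge (q := 0.6567) hS (by norm_num) e1 hL1 (by norm_num) e2
          (by norm_num) (by norm_num) (by norm_num) (by norm_num) (by norm_num)
        have e4 : W ≤ 0.9436 := h.dS e3 (by norm_num) (by norm_num) (by norm_num)
        exact h.leaf (c := (-0.35)) (E1 := 0.4585) (w := 0.8721) (r := 0.1369) hS (by norm_num) hT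
          (by norm_num) e1 g0 (by norm_num) e2 e4 (by norm_num) (by norm_num) hc (by norm_num)
          (by norm_num) (by norm_num) (by norm_num) (by norm_num) (by norm_num) (by norm_num)
          (by norm_num) (by norm_num) (by norm_num)
      · have e1 : T ≤ 0.43 := g1
        have e2 : K ≤ 0.1075 := h.Kle hS (by norm_num) e1 (by norm_num)
        have e3 : 0.7074 ≤ s := h.sge (q := 0.7628) hS (by norm_num) e1 hL1 (by norm_num) e2
          (by norm_num) (by norm_num) (by norm_num) (by norm_num) (by norm_num)
        have e4 : W ≤ 1.1291 := h.dS e3 (by norm_num) (by norm_num) (by norm_num)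
        exact h.leaf (c := (-0.35)) (E1 := 0.4585) (w := 0.8721) (r := 0.1369) hS (by norm_num) g2
          (by norm_num) e1 g0 (by norm_num) e2 e4 (by norm_num) (by norm_num) hc (by norm_num)
          (by norm_num) (by norm_num) (by norm_num) (by norm_num) (by norm_num) (by norm_num)
          (by norm_num) (by norm_num) (by norm_num)
    · rcases le_total T 0.485 with g2 | g2
      · have e1 : T ≤ 0.485 := g2
        have e2 : K ≤ 0.12125 := h.Kle hS (by norm_num) e1 (by norm_num)
        have e3 : 0.5683 ≤ s := h.sge (q := 0.806) hS (by norm_num) e1 hL1 (by norm_num) e2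
          (by norm_num) (by norm_num) (by norm_num) (by norm_num) (by norm_num)
        have e4 : W ≤ 1.246 := h.dS e3 (by norm_num) (by norm_num) (by norm_num)
        have e6 : 1.0445 ≤ L := le_trans (by norm_num) (h.Lge hS (by norm_num) (by norm_num) g1)
        exact h.leaf (c := (-0.35)) (E1 := 0.3522) (w := 0.8982) (r := 0.1074) hS (by norm_num) g1
          (by norm_num) e1 e6 (by norm_num) e2 e4 (by norm_num) (by norm_num) hc (by norm_num)
          (by norm_num) (by norm_num) (by norm_num) (by norm_num) (by norm_num) (by norm_num)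
          (by norm_num) (by norm_num) (by norm_num)
      · have e1 : T ≤ 0.54375 := by linarith [h.T8]
        have e2 : K ≤ 0.125 := by linarith [h.K8]
        have e3 : 0.4918 ≤ s := h.sge (q := 0.8177) hS (by norm_num) e1 hL1 (by norm_num) e2
          (by norm_num) (by norm_num) (by norm_num) (by norm_num) (by norm_num)
        have e4 : W ≤ 1.3284 := h.dS e3 (by norm_num) (by norm_num) (by norm_num)
        have e6 : 1.1781 ≤ L := le_trans (by norm_num) (h.Lge hS (by norm_num) (by norm_num) g2)
        exact h.leaf (c := (-0.35)) (E1 := 0.3083) (w := 0.9096) (r := 0.0948) hS (by norm_num) g2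
          (by norm_num) e1 e6 (by norm_num) e2 e4 (by norm_num) (by norm_num) hc (by norm_num)
          (by norm_num) (by norm_num) (by norm_num) (by norm_num) (by norm_num) (by norm_num)
          (by norm_num) (by norm_num) (by norm_num)

theorem JPack.L3 (h : JPack K T S L x y W n s) (hS : 4 ≤ S) (h2 : S ≤ 4.35)
    (hc : Real.cos S ≤ (-0.35)) (hT2 : T ≤ 0.16) (hL0 : 1 ≤ L) : False := by
  have hT : 0 ≤ T := h.T0.le
  have hL1 : L ≤ 1.7 := by linarith [h.L17]
  rcases le_total T 0.025 with g0 | g0
  · have e1 : T ≤ 0.025 := g0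
    have e2 : K ≤ 0.00625 := h.Kle hS (by norm_num) e1 (by norm_num)
    have e3 : 1.6137 ≤ s := h.sge (q := 0.4447) hS (by norm_num) e1 hL1 (by norm_num) e2
      (by norm_num) (by norm_num) (by norm_num) (by norm_num) (by norm_num)
    have e4 : W ≤ 0.7684 := h.dS e3 (by norm_num) (by norm_num) (by norm_num)
    exact h.leaf (c := (-0.35)) (E1 := 0.3681) (w := 0.8942) (r := 0.1119) hS (by norm_num) hT
      (by norm_num) e1 hL0 (by norm_num) e2 e4 (by norm_num) (by norm_num) hc (by norm_num)
      (by norm_num) (by norm_num) (by norm_num) (by norm_num) (by norm_num) (by norm_num)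
      (by norm_num) (by norm_num) (by norm_num)
  · have e1 : T ≤ 0.16 := hT2
    have e2 : K ≤ 0.04 := h.Kle hS (by norm_num) e1 (by norm_num)
    have e3 : 1.3538 ≤ s := h.sge (q := 0.5507) hS (by norm_num) e1 hL1 (by norm_num) e2
      (by norm_num) (by norm_num) (by norm_num) (by norm_num) (by norm_num)
    have e4 : W ≤ 0.8352 := h.dS e3 (by norm_num) (by norm_num) (by norm_num)
    exact h.leaf (c := (-0.35)) (E1 := 0.3681) (w := 0.8942) (r := 0.1119) hS (by norm_num) g0
      (by norm_num) e1 hL0 (by norm_num) e2 e4 (by norm_num) (by norm_num) hc (by norm_num)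
      (by norm_num) (by norm_num) (by norm_num) (by norm_num) (by norm_num) (by norm_num)
      (by norm_num) (by norm_num) (by norm_num)

theorem JPack.tau4 (h : JPack K T S L x y W n s) (hS : 4.35 ≤ S) (h2 : S ≤ 4.7124)
    (hc : Real.cos S ≤ 0) (hT : 0.16 ≤ T) : False := by
  have hL0 : 0 ≤ L := le_trans (mul_nonneg h.T0.le (by linarith [h.Spi, Real.pi_pos])) h.LT
  have hL1 : L ≤ 1.7 := by linarith [h.L17]
  have hT2 : T ≤ 0.6 := h.T6
  rcases le_total T 0.225 with g0 | g0
  · rcases le_total L 0.64 with g1 | g1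
    · rcases le_total T 0.17 with g2 | g2
      · have e1 : T ≤ 0.17 := g2
        have e2 : K ≤ 0.03909 := h.Kle hS (by norm_num) e1 (by norm_num)
        have e3 : 1.7987 ≤ s := h.sge (q := 0.27) hS (by norm_num) e1 g1 (by norm_num) e2
          (by norm_num) (by norm_num) (by norm_num) (by norm_num) (by norm_num)
        have e4 : W ≤ 0.7295 := h.dS e3 (by norm_num) (by norm_num) (by norm_num)
        have e6 : 0.4446 ≤ L := le_trans (by norm_num) (h.Lge hS (by norm_num) (by norm_num) hT)
        exact h.leaf (c := 0) (E1 := 0.6411) (w := 0.7295) (r := 0.3158) hS (by norm_num) hT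
          (by norm_num) e1 e6 (by norm_num) e2 e4 (by norm_num) (by norm_num) hc (by norm_num)
          (by norm_num) (by norm_num) (by norm_num) (by norm_num) (by norm_num) (by norm_num)
          (by norm_num) (by norm_num) (by norm_num)
      · have e1 : T ≤ 0.225 := g0
        have e2 : K ≤ 0.05173 := h.Kle hS (by norm_num) e1 (by norm_num)
        have e3 : 1.7223 ≤ s := h.sge (q := 0.3097) hS (by norm_num) e1 g1 (by norm_num) e2
          (by norm_num) (by norm_num) (by norm_num) (by norm_num) (by norm_num)
        have e4 : W ≤ 0.7448 := h.dS e3 (by norm_num) (by norm_num) (by norm_num)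
        have e6 : 0.4724 ≤ L := le_trans (by norm_num) (h.Lge hS (by norm_num) (by norm_num) g2)
        exact h.leaf (c := 0) (E1 := 0.6236) (w := 0.7356) (r := 0.3074) hS (by norm_num) g2
          (by norm_num) e1 e6 (by norm_num) e2 e4 (by norm_num) (by norm_num) hc (by norm_num)
          (by norm_num) (by norm_num) (by norm_num) (by norm_num) (by norm_num) (by norm_num)
          (by norm_num) (by norm_num) (by norm_num)
    · have e1 : T ≤ 0.225 := g0
      have e2 : K ≤ 0.05173 := h.Kle hS (by norm_num) e1 (by norm_num)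
      have e3 : 1.3075 ≤ s := h.sge (q := 0.5534) hS (by norm_num) e1 hL1 (by norm_num) e2
        (by norm_num) (by norm_num) (by norm_num) (by norm_num) (by norm_num)
      have e4 : W ≤ 0.8491 := h.dS e3 (by norm_num) (by norm_num) (by norm_num)
      exact h.leaf (c := 0) (E1 := 0.5274) (w := 0.7704) (r := 0.2611) hS (by norm_num) hT
        (by norm_num) e1 g1 (by norm_num) e2 e4 (by norm_num) (by norm_num) hc (by norm_num)
        (by norm_num) (by norm_num) (by norm_num) (by norm_num) (by norm_num) (by norm_num)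
        (by norm_num) (by norm_num) (by norm_num)
  · rcases le_total T 0.335 with g1 | g1
    · have e1 : T ≤ 0.335 := g1
      have e2 : K ≤ 0.07702 := h.Kle hS (by norm_num) e1 (by norm_num)
      have e3 : 1.0648 ≤ s := h.sge (q := 0.6328) hS (by norm_num) e1 hL1 (by norm_num) e2
        (by norm_num) (by norm_num) (by norm_num) (by norm_num) (by norm_num)
      have e4 : W ≤ 0.9351 := h.dS e3 (by norm_num) (by norm_num) (by norm_num)
      have e6 : 0.6253 ≤ L := le_trans (by norm_num) (h.Lge hS (by norm_num) (by norm_num) g0)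
      exact h.leaf (c := 0) (E1 := 0.5352) (w := 0.7675) (r := 0.2648) hS (by norm_num) g0
        (by norm_num) e1 e6 (by norm_num) e2 e4 (by norm_num) (by norm_num) hc (by norm_num)
        (by norm_num) (by norm_num) (by norm_num) (by norm_num) (by norm_num) (by norm_num)
        (by norm_num) (by norm_num) (by norm_num)
    · rcases le_total T 0.46 with g2 | g2
      · have e1 : T ≤ 0.46 := g2
        have e2 : K ≤ 0.10575 := h.Kle hS (by norm_num) e1 (by norm_num)
        have e3 : 0.7671 ≤ s := h.sge (q := 0.7231) hS (by norm_num) e1 hL1 (by norm_num) e2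
          (by norm_num) (by norm_num) (by norm_num) (by norm_num) (by norm_num)
        have e4 : W ≤ 1.0881 := h.dS e3 (by norm_num) (by norm_num) (by norm_num)
        have e6 : 0.931 ≤ L := le_trans (by norm_num) (h.Lge hS (by norm_num) (by norm_num) g1)
        exact h.leaf (c := 0) (E1 := 0.3944) (w := 0.822) (r := 0.1961) hS (by norm_num) g1
          (by norm_num) e1 e6 (by norm_num) e2 e4 (by norm_num) (by norm_num) hc (by norm_num)
          (by norm_num) (by norm_num) (by norm_num) (by norm_num) (by norm_num) (by norm_num)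
          (by norm_num) (by norm_num) (by norm_num)
      · have e1 : T ≤ 0.58905 := by linarith [h.T8]
        have e2 : K ≤ 0.125 := by linarith [h.K8]
        have e3 : 0.5203 ≤ s := h.sge (q := 0.7836) hS (by norm_num) e1 hL1 (by norm_num) e2
          (by norm_num) (by norm_num) (by norm_num) (by norm_num) (by norm_num)
        have e4 : W ≤ 1.2958 := h.dS e3 (by norm_num) (by norm_num) (by norm_num)
        have e6 : 1.2784 ≤ L := le_trans (by norm_num) (h.Lge hS (by norm_num) (by norm_num) g2)
        exact h.leaf (c := 0) (E1 := 0.2791) (w := 0.8701) (r := 0.1392) hS (by norm_num) g2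
          (by norm_num) e1 e6 (by norm_num) e2 e4 (by norm_num) (by norm_num) hc (by norm_num)
          (by norm_num) (by norm_num) (by norm_num) (by norm_num) (by norm_num) (by norm_num)
          (by norm_num) (by norm_num) (by norm_num)

theorem JPack.L4 (h : JPack K T S L x y W n s) (hS : 4.35 ≤ S) (h2 : S ≤ 4.7124)
    (hc : Real.cos S ≤ 0) (hT2 : T ≤ 0.16) (hL0 : 1 ≤ L) : False := by
  have hT : 0 ≤ T := h.T0.le
  have hL1 : L ≤ 1.7 := by linarith [h.L17]
  rcases le_total T 0.025 with g0 | g0
  · have e1 : T ≤ 0.025 := g0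
    have e2 : K ≤ 0.00575 := h.Kle hS (by norm_num) e1 (by norm_num)
    have e3 : 1.6699 ≤ s := h.sge (q := 0.4089) hS (by norm_num) e1 hL1 (by norm_num) e2
      (by norm_num) (by norm_num) (by norm_num) (by norm_num) (by norm_num)
    have e4 : W ≤ 0.7559 := h.dS e3 (by norm_num) (by norm_num) (by norm_num)
    exact h.leaf (c := 0) (E1 := 0.3681) (w := 0.8327) (r := 0.1832) hS (by norm_num) hT
      (by norm_num) e1 hL0 (by norm_num) e2 e4 (by norm_num) (by norm_num) hc (by norm_num)
      (by norm_num) (by norm_num) (by norm_num) (by norm_num) (by norm_num) (by norm_num)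
      (by norm_num) (by norm_num) (by norm_num)
  · have e1 : T ≤ 0.16 := hT2
    have e2 : K ≤ 0.03679 := h.Kle hS (by norm_num) e1 (by norm_num)
    have e3 : 1.4382 ≤ s := h.sge (q := 0.5064) hS (by norm_num) e1 hL1 (by norm_num) e2
      (by norm_num) (by norm_num) (by norm_num) (by norm_num) (by norm_num)
    have e4 : W ≤ 0.8116 := h.dS e3 (by norm_num) (by norm_num) (by norm_num)
    exact h.leaf (c := 0) (E1 := 0.3681) (w := 0.8327) (r := 0.1832) hS (by norm_num) g0
      (by norm_num) e1 hL0 (by norm_num) e2 e4 (by norm_num) (by norm_num) hc (by norm_num)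
      (by norm_num) (by norm_num) (by norm_num) (by norm_num) (by norm_num) (by norm_num)
      (by norm_num) (by norm_num) (by norm_num)

theorem JPack.tau5 (h : JPack K T S L x y W n s) (hS : 4.7122 ≤ S) (h2 : S ≤ 4.95)
    (hc : Real.cos S ≤ 0.2378) (hT : 0.16 ≤ T) : False := by
  have hL0 : 0 ≤ L := le_trans (mul_nonneg h.T0.le (by linarith [h.Spi, Real.pi_pos])) h.LT
  have hL1 : L ≤ 1.7 := by linarith [h.L17]
  have hT2 : T ≤ 0.6 := h.T6
  rcases le_total L 0.86 with g0 | g0
  · rcases le_total T 0.175 with g1 | g1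
    · have e1 : T ≤ 0.175 := g1
      have e2 : K ≤ 0.03714 := h.Kle hS (by norm_num) e1 (by norm_num)
      have e3 : 1.7603 ≤ s := h.sge (q := 0.2992) hS (by norm_num) e1 g0 (by norm_num) e2
        (by norm_num) (by norm_num) (by norm_num) (by norm_num) (by norm_num)
      have e4 : W ≤ 0.7371 := h.dS e3 (by norm_num) (by norm_num) (by norm_num)
      have e6 : 0.5026 ≤ L := le_trans (by norm_num) (h.Lge hS (by norm_num) (by norm_num) hT)
      exact h.leaf (c := 0.2378) (E1 := 0.605) (w := 0.6709) (r := 0.4) hS (by norm_num) hT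
        (by norm_num) e1 e6 (by norm_num) e2 e4 (by norm_num) (by norm_num) hc (by norm_num)
        (by norm_num) (by norm_num) (by norm_num) (by norm_num) (by norm_num) (by norm_num)
        (by norm_num) (by norm_num) (by norm_num)
    · have e1 : T ≤ 0.2738 := h.Tle hS (by norm_num) g0 (by norm_num)
      have e2 : K ≤ 0.05811 := h.Kle hS (by norm_num) e1 (by norm_num)
      have e3 : 1.614 ≤ s := h.sge (q := 0.3651) hS (by norm_num) e1 g0 (by norm_num) e2
        (by norm_num) (by norm_num) (by norm_num) (by norm_num) (by norm_num)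
      have e4 : W ≤ 0.7683 := h.dS e3 (by norm_num) (by norm_num) (by norm_num)
      have e6 : 0.5497 ≤ L := le_trans (by norm_num) (h.Lge hS (by norm_num) (by norm_num) g1)
      exact h.leaf (c := 0.2378) (E1 := 0.5772) (w := 0.684) (r := 0.3805) hS (by norm_num) g1
        (by norm_num) e1 e6 (by norm_num) e2 e4 (by norm_num) (by norm_num) hc (by norm_num)
        (by norm_num) (by norm_num) (by norm_num) (by norm_num) (by norm_num) (by norm_num)
        (by norm_num) (by norm_num) (by norm_num)
  · rcases le_total T 0.35 with g1 | g1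
    · have e1 : T ≤ 0.35 := g1
      have e2 : K ≤ 0.07428 := h.Kle hS (by norm_num) e1 (by norm_num)
      have e3 : 1.1344 ≤ s := h.sge (q := 0.5942) hS (by norm_num) e1 hL1 (by norm_num) e2
        (by norm_num) (by norm_num) (by norm_num) (by norm_num) (by norm_num)
      have e4 : W ≤ 0.9078 := h.dS e3 (by norm_num) (by norm_num) (by norm_num)
      exact h.leaf (c := 0.2378) (E1 := 0.4233) (w := 0.76) (r := 0.2747) hS (by norm_num) hT
        (by norm_num) e1 g0 (by norm_num) e2 e4 (by norm_num) (by norm_num) hc (by norm_num)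
        (by norm_num) (by norm_num) (by norm_num) (by norm_num) (by norm_num) (by norm_num)
        (by norm_num) (by norm_num) (by norm_num)
    · have e1 : T ≤ 0.5412 := h.Tle hS (by norm_num) hL1 (by norm_num)
      have e2 : K ≤ 0.11486 := h.Kle hS (by norm_num) e1 (by norm_num)
      have e3 : 0.6967 ≤ s := h.sge (q := 0.7217) hS (by norm_num) e1 hL1 (by norm_num) e2
        (by norm_num) (by norm_num) (by norm_num) (by norm_num) (by norm_num)
      have e4 : W ≤ 1.1369 := h.dS e3 (by norm_num) (by norm_num) (by norm_num)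
      have e6 : 1.0994 ≤ L := le_trans (by norm_num) (h.Lge hS (by norm_num) (by norm_num) g1)
      exact h.leaf (c := 0.2378) (E1 := 0.3334) (w := 0.8072) (r := 0.2143) hS (by norm_num) g1
        (by norm_num) e1 e6 (by norm_num) e2 e4 (by norm_num) (by norm_num) hc (by norm_num)
        (by norm_num) (by norm_num) (by norm_num) (by norm_num) (by norm_num) (by norm_num)
        (by norm_num) (by norm_num) (by norm_num)

theorem JPack.L5 (h : JPack K T S L x y W n s) (hS : 4.7122 ≤ S) (h2 : S ≤ 4.95)
    (hc : Real.cos S ≤ 0.2378) (hT2 : T ≤ 0.16) (hL0 : 1.15 ≤ L) : False := by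
  have hT : 0 ≤ T := h.T0.le
  have hL1 : L ≤ 1.7 := by linarith [h.L17]
  have e1 : T ≤ 0.16 := hT2
  have e2 : K ≤ 0.03396 := h.Kle hS (by norm_num) e1 (by norm_num)
  have e3 : 1.5087 ≤ s := h.sge (q := 0.4675) hS (by norm_num) e1 hL1 (by norm_num) e2
    (by norm_num) (by norm_num) (by norm_num) (by norm_num) (by norm_num)
  have e4 : W ≤ 0.7934 := h.dS e3 (by norm_num) (by norm_num) (by norm_num)
  exact h.leaf (c := 0.2378) (E1 := 0.3171) (w := 0.8159) (r := 0.2036) hS (by norm_num) hT
    (by norm_num) e1 hL0 (by norm_num) e2 e4 (by norm_num) (by norm_num) hc (by norm_num)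
    (by norm_num) (by norm_num) (by norm_num) (by norm_num) (by norm_num) (by norm_num)
    (by norm_num) (by norm_num) (by norm_num)

theorem JPack.tau6 (h : JPack K T S L x y W n s) (hS : 4.95 ≤ S) (h2 : S ≤ 5.2)
    (hc : Real.cos S ≤ 0.4878) (hT : 0.16 ≤ T) : False := by
  have hL0 : 0 ≤ L := le_trans (mul_nonneg h.T0.le (by linarith [h.Spi, Real.pi_pos])) h.LT
  have hL1 : L ≤ 1.7 := by linarith [h.L17]
  have hT2 : T ≤ 0.6 := h.T6
  rcases le_total L 0.72 with g0 | g0
  · rcases le_total T 0.17 with g1 | g1
    · rcases le_total L 0.56 with g2 | g2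
      · have e1 : T ≤ 0.1658 := h.Tle hS (by norm_num) g2 (by norm_num)
        have e2 : K ≤ 0.0335 := h.Kle hS (by norm_num) e1 (by norm_num)
        have e3 : 1.8569 ≤ s := h.sge (q := 0.2184) hS (by norm_num) e1 g2 (by norm_num) e2
          (by norm_num) (by norm_num) (by norm_num) (by norm_num) (by norm_num)
        have e4 : W ≤ 0.7184 := h.dS e3 (by norm_num) (by norm_num) (by norm_num)
        have e6 : 0.5406 ≤ L := le_trans (by norm_num) (h.Lge hS (by norm_num) (by norm_num) hT)
        exact h.leaf (c := 0.4878) (E1 := 0.5825) (w := 0.6035) (r := 0.5069) hS (by norm_num) hT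
          (by norm_num) e1 e6 (by norm_num) e2 e4 (by norm_num) (by norm_num) hc (by norm_num)
          (by norm_num) (by norm_num) (by norm_num) (by norm_num) (by norm_num) (by norm_num)
          (by norm_num) (by norm_num) (by norm_num)
      · have e1 : T ≤ 0.17 := g1
        have e2 : K ≤ 0.03435 := h.Kle hS (by norm_num) e1 (by norm_num)
        have e3 : 1.8179 ≤ s := h.sge (q := 0.2534) hS (by norm_num) e1 g0 (by norm_num) e2
          (by norm_num) (by norm_num) (by norm_num) (by norm_num) (by norm_num)
        have e4 : W ≤ 0.7258 := h.dS e3 (by norm_num) (by norm_num) (by norm_num)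
        exact h.leaf (c := 0.4878) (E1 := 0.5713) (w := 0.6104) (r := 0.4954) hS (by norm_num) hT
          (by norm_num) e1 g2 (by norm_num) e2 e4 (by norm_num) (by norm_num) hc (by norm_num)
          (by norm_num) (by norm_num) (by norm_num) (by norm_num) (by norm_num) (by norm_num)
          (by norm_num) (by norm_num) (by norm_num)
    · have e1 : T ≤ 0.2131 := h.Tle hS (by norm_num) g0 (by norm_num)
      have e2 : K ≤ 0.04306 := h.Kle hS (by norm_num) e1 (by norm_num)
      have e3 : 1.7661 ≤ s := h.sge (q := 0.2808) hS (by norm_num) e1 g0 (by norm_num) e2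
        (by norm_num) (by norm_num) (by norm_num) (by norm_num) (by norm_num)
      have e4 : W ≤ 0.7359 := h.dS e3 (by norm_num) (by norm_num) (by norm_num)
      have e6 : 0.5744 ≤ L := le_trans (by norm_num) (h.Lge hS (by norm_num) (by norm_num) g1)
      exact h.leaf (c := 0.4878) (E1 := 0.5631) (w := 0.6154) (r := 0.4871) hS (by norm_num) g1
        (by norm_num) e1 e6 (by norm_num) e2 e4 (by norm_num) (by norm_num) hc (by norm_num)
        (by norm_num) (by norm_num) (by norm_num) (by norm_num) (by norm_num) (by norm_num)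
        (by norm_num) (by norm_num) (by norm_num)
  · rcases le_total T 0.265 with g1 | g1
    · have e1 : T ≤ 0.265 := g1
      have e2 : K ≤ 0.05354 := h.Kle hS (by norm_num) e1 (by norm_num)
      have e3 : 1.3622 ≤ s := h.sge (q := 0.5117) hS (by norm_num) e1 hL1 (by norm_num) e2
        (by norm_num) (by norm_num) (by norm_num) (by norm_num) (by norm_num)
      have e4 : W ≤ 0.8328 := h.dS e3 (by norm_num) (by norm_num) (by norm_num)
      exact h.leaf (c := 0.4878) (E1 := 0.4869) (w := 0.663) (r := 0.4119) hS (by norm_num) hT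
        (by norm_num) e1 g0 (by norm_num) e2 e4 (by norm_num) (by norm_num) hc (by norm_num)
        (by norm_num) (by norm_num) (by norm_num) (by norm_num) (by norm_num) (by norm_num)
        (by norm_num) (by norm_num) (by norm_num)
    · have e1 : T ≤ 0.5031 := h.Tle hS (by norm_num) hL1 (by norm_num)
      have e2 : K ≤ 0.10164 := h.Kle hS (by norm_num) e1 (by norm_num)
      have e3 : 0.8589 ≤ s := h.sge (q := 0.6628) hS (by norm_num) e1 hL1 (by norm_num) e2
        (by norm_num) (by norm_num) (by norm_num) (by norm_num) (by norm_num)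
      have e4 : W ≤ 1.0331 := h.dS e3 (by norm_num) (by norm_num) (by norm_num)
      have e6 : 0.8954 ≤ L := le_trans (by norm_num) (h.Lge hS (by norm_num) (by norm_num) g1)
      exact h.leaf (c := 0.4878) (E1 := 0.4086) (w := 0.7135) (r := 0.338) hS (by norm_num) g1
        (by norm_num) e1 e6 (by norm_num) e2 e4 (by norm_num) (by norm_num) hc (by norm_num)
        (by norm_num) (by norm_num) (by norm_num) (by norm_num) (by norm_num) (by norm_num)
        (by norm_num) (by norm_num) (by norm_num)

theorem JPack.L6 (h : JPack K T S L x y W n s) (hS : 4.95 ≤ S) (h2 : S ≤ 5.2)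
    (hc : Real.cos S ≤ 0.4878) (hT2 : T ≤ 0.16) (hL0 : 1.15 ≤ L) : False := by
  have hT : 0 ≤ T := h.T0.le
  have hL1 : L ≤ 1.7 := by linarith [h.L17]
  have e1 : T ≤ 0.16 := hT2
  have e2 : K ≤ 0.03233 := h.Kle hS (by norm_num) e1 (by norm_num)
  have e3 : 1.5477 ≤ s := h.sge (q := 0.4451) hS (by norm_num) e1 hL1 (by norm_num) e2
    (by norm_num) (by norm_num) (by norm_num) (by norm_num) (by norm_num)
  have e4 : W ≤ 0.7838 := h.dS e3 (by norm_num) (by norm_num) (by norm_num)
  exact h.leaf (c := 0.4878) (E1 := 0.3171) (w := 0.7744) (r := 0.2559) hS (by norm_num) hT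
    (by norm_num) e1 hL0 (by norm_num) e2 e4 (by norm_num) (by norm_num) hc (by norm_num)
    (by norm_num) (by norm_num) (by norm_num) (by norm_num) (by norm_num) (by norm_num)
    (by norm_num) (by norm_num) (by norm_num)

theorem JPack.tau7 (h : JPack K T S L x y W n s) (hS : 5.2 ≤ S) (h2 : S ≤ 5.4)
    (hc : Real.cos S ≤ 0.642) (hT : 0.16 ≤ T) : False := by
  have hL0 : 0 ≤ L := le_trans (mul_nonneg h.T0.le (by linarith [h.Spi, Real.pi_pos])) h.LT
  have hL1 : L ≤ 1.7 := by linarith [h.L17]
  have hT2 : T ≤ 0.6 := h.T6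
  rcases le_total L 0.74 with g0 | g0
  · rcases le_total T 0.165 with g1 | g1
    · have e1 : T ≤ 0.165 := g1
      have e2 : K ≤ 0.03174 := h.Kle hS (by norm_num) e1 (by norm_num)
      have e3 : 1.8325 ≤ s := h.sge (q := 0.2421) hS (by norm_num) e1 g0 (by norm_num) e2
        (by norm_num) (by norm_num) (by norm_num) (by norm_num) (by norm_num)
      have e4 : W ≤ 0.723 := h.dS e3 (by norm_num) (by norm_num) (by norm_num)
      have e6 : 0.5806 ≤ L := le_trans (by norm_num) (h.Lge hS (by norm_num) (by norm_num) hT)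
      exact h.leaf (c := 0.642) (E1 := 0.5596) (w := 0.5681) (r := 0.5683) hS (by norm_num) hT
        (by norm_num) e1 e6 (by norm_num) e2 e4 (by norm_num) (by norm_num) hc (by norm_num)
        (by norm_num) (by norm_num) (by norm_num) (by norm_num) (by norm_num) (by norm_num)
        (by norm_num) (by norm_num) (by norm_num)
    · have e1 : T ≤ 0.204 := h.Tle hS (by norm_num) g0 (by norm_num)
      have e2 : K ≤ 0.03924 := h.Kle hS (by norm_num) e1 (by norm_num)
      have e3 : 1.789 ≤ s := h.sge (q := 0.2656) hS (by norm_num) e1 g0 (by norm_num) e2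
        (by norm_num) (by norm_num) (by norm_num) (by norm_num) (by norm_num)
      have e4 : W ≤ 0.7314 := h.dS e3 (by norm_num) (by norm_num) (by norm_num)
      have e6 : 0.5988 ≤ L := le_trans (by norm_num) (h.Lge hS (by norm_num) (by norm_num) g1)
      exact h.leaf (c := 0.642) (E1 := 0.5495) (w := 0.5753) (r := 0.5555) hS (by norm_num) g1
        (by norm_num) e1 e6 (by norm_num) e2 e4 (by norm_num) (by norm_num) hc (by norm_num)
        (by norm_num) (by norm_num) (by norm_num) (by norm_num) (by norm_num) (by norm_num)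
        (by norm_num) (by norm_num) (by norm_num)
  · rcases le_total T 0.255 with g1 | g1
    · have e1 : T ≤ 0.255 := g1
      have e2 : K ≤ 0.04904 := h.Kle hS (by norm_num) e1 (by norm_num)
      have e3 : 1.4268 ≤ s := h.sge (q := 0.481) hS (by norm_num) e1 hL1 (by norm_num) e2
        (by norm_num) (by norm_num) (by norm_num) (by norm_num) (by norm_num)
      have e4 : W ≤ 0.8147 := h.dS e3 (by norm_num) (by norm_num) (by norm_num)
      exact h.leaf (c := 0.642) (E1 := 0.4772) (w := 0.6277) (r := 0.4671) hS (by norm_num) hT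
        (by norm_num) e1 g0 (by norm_num) e2 e4 (by norm_num) (by norm_num) hc (by norm_num)
        (by norm_num) (by norm_num) (by norm_num) (by norm_num) (by norm_num) (by norm_num)
        (by norm_num) (by norm_num) (by norm_num)
    · have e1 : T ≤ 0.4685 := h.Tle hS (by norm_num) hL1 (by norm_num)
      have e2 : K ≤ 0.0901 := h.Kle hS (by norm_num) e1 (by norm_num)
      have e3 : 1.003 ≤ s := h.sge (q := 0.61) hS (by norm_num) e1 hL1 (by norm_num) e2
        (by norm_num) (by norm_num) (by norm_num) (by norm_num) (by norm_num)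
      have e4 : W ≤ 0.9615 := h.dS e3 (by norm_num) (by norm_num) (by norm_num)
      have e6 : 0.9254 ≤ L := le_trans (by norm_num) (h.Lge hS (by norm_num) (by norm_num) g1)
      exact h.leaf (c := 0.642) (E1 := 0.3966) (w := 0.6875) (r := 0.3754) hS (by norm_num) g1
        (by norm_num) e1 e6 (by norm_num) e2 e4 (by norm_num) (by norm_num) hc (by norm_num)
        (by norm_num) (by norm_num) (by norm_num) (by norm_num) (by norm_num) (by norm_num)
        (by norm_num) (by norm_num) (by norm_num)

theorem JPack.L7 (h : JPack K T S L x y W n s) (hS : 5.2 ≤ S) (h2 : S ≤ 5.4)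
    (hc : Real.cos S ≤ 0.642) (hT2 : T ≤ 0.16) (hL0 : 1.15 ≤ L) : False := by
  have hT : 0 ≤ T := h.T0.le
  have hL1 : L ≤ 1.7 := by linarith [h.L17]
  have e1 : T ≤ 0.16 := hT2
  have e2 : K ≤ 0.03077 := h.Kle hS (by norm_num) e1 (by norm_num)
  have e3 : 1.5838 ≤ s := h.sge (q := 0.4236) hS (by norm_num) e1 hL1 (by norm_num) e2
    (by norm_num) (by norm_num) (by norm_num) (by norm_num) (by norm_num)
  have e4 : W ≤ 0.7752 := h.dS e3 (by norm_num) (by norm_num) (by norm_num)
  exact h.leaf (c := 0.642) (E1 := 0.3171) (w := 0.7478) (r := 0.2909) hS (by norm_num) hT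
    (by norm_num) e1 hL0 (by norm_num) e2 e4 (by norm_num) (by norm_num) hc (by norm_num)
    (by norm_num) (by norm_num) (by norm_num) (by norm_num) (by norm_num) (by norm_num)
    (by norm_num) (by norm_num) (by norm_num)

theorem JPack.tau8 (h : JPack K T S L x y W n s) (hS : 5.4 ≤ S) (h2 : S ≤ 5.6)
    (hc : Real.cos S ≤ 0.7785) (hT : 0.16 ≤ T) : False := by
  have hL0 : 0 ≤ L := le_trans (mul_nonneg h.T0.le (by linarith [h.Spi, Real.pi_pos])) h.LT
  have hL1 : L ≤ 1.7 := by linarith [h.L17]
  have hT2 : T ≤ 0.6 := h.T6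
  rcases le_total L 0.78 with g0 | g0
  · rcases le_total T 0.165 with g1 | g1
    · have e1 : T ≤ 0.165 := g1
      have e2 : K ≤ 0.03056 := h.Kle hS (by norm_num) e1 (by norm_num)
      have e3 : 1.8342 ≤ s := h.sge (q := 0.2405) hS (by norm_num) e1 g0 (by norm_num) e2
        (by norm_num) (by norm_num) (by norm_num) (by norm_num) (by norm_num)
      have e4 : W ≤ 0.7227 := h.dS e3 (by norm_num) (by norm_num) (by norm_num)
      have e6 : 0.6126 ≤ L := le_trans (by norm_num) (h.Lge hS (by norm_num) (by norm_num) hT)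
      exact h.leaf (c := 0.7785) (E1 := 0.542) (w := 0.5361) (r := 0.6274) hS (by norm_num) hT
        (by norm_num) e1 e6 (by norm_num) e2 e4 (by norm_num) (by norm_num) hc (by norm_num)
        (by norm_num) (by norm_num) (by norm_num) (by norm_num) (by norm_num) (by norm_num)
        (by norm_num) (by norm_num) (by norm_num)
    · have e1 : T ≤ 0.2037 := h.Tle hS (by norm_num) g0 (by norm_num)
      have e2 : K ≤ 0.03773 := h.Kle hS (by norm_num) e1 (by norm_num)
      have e3 : 1.7923 ≤ s := h.sge (q := 0.263) hS (by norm_num) e1 g0 (by norm_num) e2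
        (by norm_num) (by norm_num) (by norm_num) (by norm_num) (by norm_num)
      have e4 : W ≤ 0.7308 := h.dS e3 (by norm_num) (by norm_num) (by norm_num)
      have e6 : 0.6318 ≤ L := le_trans (by norm_num) (h.Lge hS (by norm_num) (by norm_num) g1)
      exact h.leaf (c := 0.7785) (E1 := 0.5317) (w := 0.5445) (r := 0.6115) hS (by norm_num) g1
        (by norm_num) e1 e6 (by norm_num) e2 e4 (by norm_num) (by norm_num) hc (by norm_num)
        (by norm_num) (by norm_num) (by norm_num) (by norm_num) (by norm_num) (by norm_num)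
        (by norm_num) (by norm_num) (by norm_num)
  · rcases le_total T 0.245 with g1 | g1
    · have e1 : T ≤ 0.245 := g1
      have e2 : K ≤ 0.04538 := h.Kle hS (by norm_num) e1 (by norm_num)
      have e3 : 1.4762 ≤ s := h.sge (q := 0.4574) hS (by norm_num) e1 hL1 (by norm_num) e2
        (by norm_num) (by norm_num) (by norm_num) (by norm_num) (by norm_num)
      have e4 : W ≤ 0.8016 := h.dS e3 (by norm_num) (by norm_num) (by norm_num)
      exact h.leaf (c := 0.7785) (E1 := 0.4585) (w := 0.6047) (r := 0.5049) hS (by norm_num) hT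
        (by norm_num) e1 g0 (by norm_num) e2 e4 (by norm_num) (by norm_num) hc (by norm_num)
        (by norm_num) (by norm_num) (by norm_num) (by norm_num) (by norm_num) (by norm_num)
        (by norm_num) (by norm_num) (by norm_num)
    · have e1 : T ≤ 0.444 := h.Tle hS (by norm_num) hL1 (by norm_num)
      have e2 : K ≤ 0.08223 := h.Kle hS (by norm_num) e1 (by norm_num)
      have e3 : 1.1017 ≤ s := h.sge (q := 0.5732) hS (by norm_num) e1 hL1 (by norm_num) e2
        (by norm_num) (by norm_num) (by norm_num) (by norm_num) (by norm_num)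
      have e4 : W ≤ 0.9203 := h.dS e3 (by norm_num) (by norm_num) (by norm_num)
      have e6 : 0.9381 ≤ L := le_trans (by norm_num) (h.Lge hS (by norm_num) (by norm_num) g1)
      exact h.leaf (c := 0.7785) (E1 := 0.3916) (w := 0.6606) (r := 0.4155) hS (by norm_num) g1
        (by norm_num) e1 e6 (by norm_num) e2 e4 (by norm_num) (by norm_num) hc (by norm_num)
        (by norm_num) (by norm_num) (by norm_num) (by norm_num) (by norm_num) (by norm_num)
        (by norm_num) (by norm_num) (by norm_num)

theorem JPack.L8 (h : JPack K T S L x y W n s) (hS : 5.4 ≤ S) (h2 : S ≤ 5.6)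
    (hc : Real.cos S ≤ 0.7785) (hT2 : T ≤ 0.16) (hL0 : 1.15 ≤ L) : False := by
  have hT : 0 ≤ T := h.T0.le
  have hL1 : L ≤ 1.7 := by linarith [h.L17]
  rcases le_total T 0.025 with g0 | g0
  · have e1 : T ≤ 0.025 := g0
    have e2 : K ≤ 0.00463 := h.Kle hS (by norm_num) e1 (by norm_num)
    have e3 : 1.7807 ≤ s := h.sge (q := 0.3294) hS (by norm_num) e1 hL1 (by norm_num) e2
      (by norm_num) (by norm_num) (by norm_num) (by norm_num) (by norm_num)
    have e4 : W ≤ 0.733 := h.dS e3 (by norm_num) (by norm_num) (by norm_num)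
    exact h.leaf (c := 0.7785) (E1 := 0.3171) (w := 0.7236) (r := 0.3239) hS (by norm_num) hT
      (by norm_num) e1 hL0 (by norm_num) e2 e4 (by norm_num) (by norm_num) hc (by norm_num)
      (by norm_num) (by norm_num) (by norm_num) (by norm_num) (by norm_num) (by norm_num)
      (by norm_num) (by norm_num) (by norm_num)
  · have e1 : T ≤ 0.16 := hT2
    have e2 : K ≤ 0.02963 := h.Kle hS (by norm_num) e1 (by norm_num)
    have e3 : 1.6093 ≤ s := h.sge (q := 0.408) hS (by norm_num) e1 hL1 (by norm_num) e2
      (by norm_num) (by norm_num) (by norm_num) (by norm_num) (by norm_num)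
    have e4 : W ≤ 0.7694 := h.dS e3 (by norm_num) (by norm_num) (by norm_num)
    exact h.leaf (c := 0.7785) (E1 := 0.3171) (w := 0.7236) (r := 0.3239) hS (by norm_num) g0
      (by norm_num) e1 hL0 (by norm_num) e2 e4 (by norm_num) (by norm_num) hc (by norm_num)
      (by norm_num) (by norm_num) (by norm_num) (by norm_num) (by norm_num) (by norm_num)
      (by norm_num) (by norm_num) (by norm_num)

theorem JPack.tau9 (h : JPack K T S L x y W n s) (hS : 5.6 ≤ S) (h2 : S ≤ 5.8)
    (hc : Real.cos S ≤ 0.887) (hT : 0.16 ≤ T) : False := by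
  have hL0 : 0 ≤ L := le_trans (mul_nonneg h.T0.le (by linarith [h.Spi, Real.pi_pos])) h.LT
  have hL1 : L ≤ 1.7 := by linarith [h.L17]
  have hT2 : T ≤ 0.6 := h.T6
  rcases le_total T 0.2 with g0 | g0
  · rcases le_total L 0.8 with g1 | g1
    · have e1 : T ≤ 0.1986 := h.Tle hS (by norm_num) g1 (by norm_num)
      have e2 : K ≤ 0.03547 := h.Kle hS (by norm_num) e1 (by norm_num)
      have e3 : 1.8047 ≤ s := h.sge (q := 0.2543) hS (by norm_num) e1 g1 (by norm_num) e2
        (by norm_num) (by norm_num) (by norm_num) (by norm_num) (by norm_num)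
      have e4 : W ≤ 0.7283 := h.dS e3 (by norm_num) (by norm_num) (by norm_num)
      have e6 : 0.6446 ≤ L := le_trans (by norm_num) (h.Lge hS (by norm_num) (by norm_num) hT)
      exact h.leaf (c := 0.887) (E1 := 0.525) (w := 0.5141) (r := 0.6704) hS (by norm_num) hT
        (by norm_num) e1 e6 (by norm_num) e2 e4 (by norm_num) (by norm_num) hc (by norm_num)
        (by norm_num) (by norm_num) (by norm_num) (by norm_num) (by norm_num) (by norm_num)
        (by norm_num) (by norm_num) (by norm_num)
    · have e1 : T ≤ 0.2 := g0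
      have e2 : K ≤ 0.03572 := h.Kle hS (by norm_num) e1 (by norm_num)
      have e3 : 1.5749 ≤ s := h.sge (q := 0.4158) hS (by norm_num) e1 hL1 (by norm_num) e2
        (by norm_num) (by norm_num) (by norm_num) (by norm_num) (by norm_num)
      have e4 : W ≤ 0.7773 := h.dS e3 (by norm_num) (by norm_num) (by norm_num)
      exact h.leaf (c := 0.887) (E1 := 0.4495) (w := 0.5825) (r := 0.5428) hS (by norm_num) hT
        (by norm_num) e1 g1 (by norm_num) e2 e4 (by norm_num) (by norm_num) hc (by norm_num)
        (by norm_num) (by norm_num) (by norm_num) (by norm_num) (by norm_num) (by norm_num)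
        (by norm_num) (by norm_num) (by norm_num)
  · have e1 : T ≤ 0.422 := h.Tle hS (by norm_num) hL1 (by norm_num)
    have e2 : K ≤ 0.07536 := h.Kle hS (by norm_num) e1 (by norm_num)
    have e3 : 1.1877 ≤ s := h.sge (q := 0.5404) hS (by norm_num) e1 hL1 (by norm_num) e2
      (by norm_num) (by norm_num) (by norm_num) (by norm_num) (by norm_num)
    have e4 : W ≤ 0.8884 := h.dS e3 (by norm_num) (by norm_num) (by norm_num)
    have e6 : 0.8058 ≤ L := le_trans (by norm_num) (h.Lge hS (by norm_num) (by norm_num) g0)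
    exact h.leaf (c := 0.887) (E1 := 0.4469) (w := 0.5849) (r := 0.5387) hS (by norm_num) g0
      (by norm_num) e1 e6 (by norm_num) e2 e4 (by norm_num) (by norm_num) hc (by norm_num)
      (by norm_num) (by norm_num) (by norm_num) (by norm_num) (by norm_num) (by norm_num)
      (by norm_num) (by norm_num) (by norm_num)

theorem JPack.L9 (h : JPack K T S L x y W n s) (hS : 5.6 ≤ S) (h2 : S ≤ 5.8)
    (hc : Real.cos S ≤ 0.887) (hT2 : T ≤ 0.16) (hL0 : 1.15 ≤ L) : False := by
  have hT : 0 ≤ T := h.T0.le
  have hL1 : L ≤ 1.7 := by linarith [h.L17]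
  rcases le_total T 0.025 with g0 | g0
  · have e1 : T ≤ 0.025 := g0
    have e2 : K ≤ 0.00447 := h.Kle hS (by norm_num) e1 (by norm_num)
    have e3 : 1.7953 ≤ s := h.sge (q := 0.3177) hS (by norm_num) e1 hL1 (by norm_num) e2
      (by norm_num) (by norm_num) (by norm_num) (by norm_num) (by norm_num)
    have e4 : W ≤ 0.7302 := h.dS e3 (by norm_num) (by norm_num) (by norm_num)
    exact h.leaf (c := 0.887) (E1 := 0.3171) (w := 0.7039) (r := 0.3517) hS (by norm_num) hT
      (by norm_num) e1 hL0 (by norm_num) e2 e4 (by norm_num) (by norm_num) hc (by norm_num)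
      (by norm_num) (by norm_num) (by norm_num) (by norm_num) (by norm_num) (by norm_num)
      (by norm_num) (by norm_num) (by norm_num)
  · have e1 : T ≤ 0.16 := hT2
    have e2 : K ≤ 0.02858 := h.Kle hS (by norm_num) e1 (by norm_num)
    have e3 : 1.6325 ≤ s := h.sge (q := 0.3934) hS (by norm_num) e1 hL1 (by norm_num) e2
      (by norm_num) (by norm_num) (by norm_num) (by norm_num) (by norm_num)
    have e4 : W ≤ 0.7641 := h.dS e3 (by norm_num) (by norm_num) (by norm_num)
    exact h.leaf (c := 0.887) (E1 := 0.3171) (w := 0.7039) (r := 0.3517) hS (by norm_num) g0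
      (by norm_num) e1 hL0 (by norm_num) e2 e4 (by norm_num) (by norm_num) hc (by norm_num)
      (by norm_num) (by norm_num) (by norm_num) (by norm_num) (by norm_num) (by norm_num)
      (by norm_num) (by norm_num) (by norm_num)

theorem JPack.tau10 (h : JPack K T S L x y W n s) (hS : 5.8 ≤ S) (h2 : S ≤ 6.2)
    (hc : Real.cos S ≤ 1) (hT : 0.16 ≤ T) : False := by
  have hL0 : 0 ≤ L := le_trans (mul_nonneg h.T0.le (by linarith [h.Spi, Real.pi_pos])) h.LT
  have hL1 : L ≤ 1.7 := by linarith [h.L17]
  have hT2 : T ≤ 0.6 := h.T6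
  rcases le_total T 0.195 with g0 | g0
  · rcases le_total T 0.165 with g1 | g1
    · have e1 : T ≤ 0.165 := g1
      have e2 : K ≤ 0.02845 := h.Kle hS (by norm_num) e1 (by norm_num)
      have e3 : 1.6469 ≤ s := h.sge (q := 0.3825) hS (by norm_num) e1 hL1 (by norm_num) e2
        (by norm_num) (by norm_num) (by norm_num) (by norm_num) (by norm_num)
      have e4 : W ≤ 0.7609 := h.dS e3 (by norm_num) (by norm_num) (by norm_num)
      have e6 : 0.6766 ≤ L := le_trans (by norm_num) (h.Lge hS (by norm_num) (by norm_num) hT)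
      exact h.leaf (c := 1) (E1 := 0.5084) (w := 0.4915) (r := 0.7166) hS (by norm_num) hT
        (by norm_num) e1 e6 (by norm_num) e2 e4 (by norm_num) (by norm_num) hc (by norm_num)
        (by norm_num) (by norm_num) (by norm_num) (by norm_num) (by norm_num) (by norm_num)
        (by norm_num) (by norm_num) (by norm_num)
    · have e1 : T ≤ 0.195 := g0
      have e2 : K ≤ 0.03363 := h.Kle hS (by norm_num) e1 (by norm_num)
      have e3 : 1.6054 ≤ s := h.sge (q := 0.3988) hS (by norm_num) e1 hL1 (by norm_num) e2
        (by norm_num) (by norm_num) (by norm_num) (by norm_num) (by norm_num)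
      have e4 : W ≤ 0.7703 := h.dS e3 (by norm_num) (by norm_num) (by norm_num)
      have e6 : 0.6978 ≤ L := le_trans (by norm_num) (h.Lge hS (by norm_num) (by norm_num) g1)
      exact h.leaf (c := 1) (E1 := 0.4978) (w := 0.5021) (r := 0.6946) hS (by norm_num) g1
        (by norm_num) e1 e6 (by norm_num) e2 e4 (by norm_num) (by norm_num) hc (by norm_num)
        (by norm_num) (by norm_num) (by norm_num) (by norm_num) (by norm_num) (by norm_num)
        (by norm_num) (by norm_num) (by norm_num)
  · have e1 : T ≤ 0.402 := h.Tle hS (by norm_num) hL1 (by norm_num)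
    have e2 : K ≤ 0.06932 := h.Kle hS (by norm_num) e1 (by norm_num)
    have e3 : 1.2631 ≤ s := h.sge (q := 0.5109) hS (by norm_num) e1 hL1 (by norm_num) e2
      (by norm_num) (by norm_num) (by norm_num) (by norm_num) (by norm_num)
    have e4 : W ≤ 0.863 := h.dS e3 (by norm_num) (by norm_num) (by norm_num)
    have e6 : 0.8246 ≤ L := le_trans (by norm_num) (h.Lge hS (by norm_num) (by norm_num) g0)
    exact h.leaf (c := 1) (E1 := 0.4386) (w := 0.5613) (r := 0.5805) hS (by norm_num) g0
      (by norm_num) e1 e6 (by norm_num) e2 e4 (by norm_num) (by norm_num) hc (by norm_num)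
      (by norm_num) (by norm_num) (by norm_num) (by norm_num) (by norm_num) (by norm_num)
      (by norm_num) (by norm_num) (by norm_num)

theorem JPack.L10 (h : JPack K T S L x y W n s) (hS : 5.8 ≤ S) (h2 : S ≤ 6.2)
    (hc : Real.cos S ≤ 1) (hT2 : T ≤ 0.16) (hL0 : 1.15 ≤ L) : False := by
  have hT : 0 ≤ T := h.T0.le
  have hL1 : L ≤ 1.7 := by linarith [h.L17]
  rcases le_total T 0.025 with g0 | g0
  · have e1 : T ≤ 0.025 := g0
    have e2 : K ≤ 0.00432 := h.Kle hS (by norm_num) e1 (by norm_num)
    have e3 : 1.8086 ≤ s := h.sge (q := 0.3067) hS (by norm_num) e1 hL1 (by norm_num) e2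
      (by norm_num) (by norm_num) (by norm_num) (by norm_num) (by norm_num)
    have e4 : W ≤ 0.7276 := h.dS e3 (by norm_num) (by norm_num) (by norm_num)
    exact h.leaf (c := 1) (E1 := 0.3171) (w := 0.6828) (r := 0.3823) hS (by norm_num) hT
      (by norm_num) e1 hL0 (by norm_num) e2 e4 (by norm_num) (by norm_num) hc (by norm_num)
      (by norm_num) (by norm_num) (by norm_num) (by norm_num) (by norm_num) (by norm_num)
      (by norm_num) (by norm_num) (by norm_num)
  · have e1 : T ≤ 0.16 := hT2
    have e2 : K ≤ 0.02759 := h.Kle hS (by norm_num) e1 (by norm_num)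
    have e3 : 1.6536 ≤ s := h.sge (q := 0.3798) hS (by norm_num) e1 hL1 (by norm_num) e2
      (by norm_num) (by norm_num) (by norm_num) (by norm_num) (by norm_num)
    have e4 : W ≤ 0.7595 := h.dS e3 (by norm_num) (by norm_num) (by norm_num)
    exact h.leaf (c := 1) (E1 := 0.3171) (w := 0.6828) (r := 0.3823) hS (by norm_num) g0
      (by norm_num) e1 hL0 (by norm_num) e2 e4 (by norm_num) (by norm_num) hc (by norm_num)
      (by norm_num) (by norm_num) (by norm_num) (by norm_num) (by norm_num) (by norm_num)
      (by norm_num) (by norm_num) (by norm_num)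

theorem JPack.tau11 (h : JPack K T S L x y W n s) (hS : 6.2 ≤ S) (h2 : S ≤ 7.5)
    (hc : Real.cos S ≤ 1) (hT : 0.16 ≤ T) : False := by
  have hL0 : 0 ≤ L := le_trans (mul_nonneg h.T0.le (by linarith [h.Spi, Real.pi_pos])) h.LT
  have hL1 : L ≤ 1.7 := by linarith [h.L17]
  have hT2 : T ≤ 0.6 := h.T6
  rcases le_total T 0.19 with g0 | g0
  · have e1 : T ≤ 0.19 := g0
    have e2 : K ≤ 0.03065 := h.Kle hS (by norm_num) e1 (by norm_num)
    have e3 : 1.6525 ≤ s := h.sge (q := 0.3705) hS (by norm_num) e1 hL1 (by norm_num) e2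
      (by norm_num) (by norm_num) (by norm_num) (by norm_num) (by norm_num)
    have e4 : W ≤ 0.7597 := h.dS e3 (by norm_num) (by norm_num) (by norm_num)
    have e6 : 0.7406 ≤ L := le_trans (by norm_num) (h.Lge hS (by norm_num) (by norm_num) hT)
    exact h.leaf (c := 1) (E1 := 0.4769) (w := 0.523) (r := 0.6527) hS (by norm_num) hT
      (by norm_num) e1 e6 (by norm_num) e2 e4 (by norm_num) (by norm_num) hc (by norm_num)
      (by norm_num) (by norm_num) (by norm_num) (by norm_num) (by norm_num) (by norm_num)
      (by norm_num) (by norm_num) (by norm_num)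
  · have e1 : T ≤ 0.3673 := h.Tle hS (by norm_num) hL1 (by norm_num)
    have e2 : K ≤ 0.05925 := h.Kle hS (by norm_num) e1 (by norm_num)
    have e3 : 1.387 ≤ s := h.sge (q := 0.4604) hS (by norm_num) e1 hL1 (by norm_num) e2
      (by norm_num) (by norm_num) (by norm_num) (by norm_num) (by norm_num)
    have e4 : W ≤ 0.8257 := h.dS e3 (by norm_num) (by norm_num) (by norm_num)
    have e6 : 0.8795 ≤ L := le_trans (by norm_num) (h.Lge hS (by norm_num) (by norm_num) g0)
    exact h.leaf (c := 1) (E1 := 0.4152) (w := 0.5847) (r := 0.539) hS (by norm_num) g0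
      (by norm_num) e1 e6 (by norm_num) e2 e4 (by norm_num) (by norm_num) hc (by norm_num)
      (by norm_num) (by norm_num) (by norm_num) (by norm_num) (by norm_num) (by norm_num)
      (by norm_num) (by norm_num) (by norm_num)

theorem JPack.L11 (h : JPack K T S L x y W n s) (hS : 6.2 ≤ S) (h2 : S ≤ 7.5)
    (hc : Real.cos S ≤ 1) (hT2 : T ≤ 0.16) (hL0 : 1.15 ≤ L) : False := by
  have hT : 0 ≤ T := h.T0.le
  have hL1 : L ≤ 1.7 := by linarith [h.L17]
  rcases le_total T 0.025 with g0 | g0
  · have e1 : T ≤ 0.025 := g0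
    have e2 : K ≤ 0.00404 := h.Kle hS (by norm_num) e1 (by norm_num)
    have e3 : 1.8315 ≤ s := h.sge (q := 0.2869) hS (by norm_num) e1 hL1 (by norm_num) e2
      (by norm_num) (by norm_num) (by norm_num) (by norm_num) (by norm_num)
    have e4 : W ≤ 0.7232 := h.dS e3 (by norm_num) (by norm_num) (by norm_num)
    exact h.leaf (c := 1) (E1 := 0.3171) (w := 0.6828) (r := 0.3823) hS (by norm_num) hT
      (by norm_num) e1 hL0 (by norm_num) e2 e4 (by norm_num) (by norm_num) hc (by norm_num)
      (by norm_num) (by norm_num) (by norm_num) (by norm_num) (by norm_num) (by norm_num)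
      (by norm_num) (by norm_num) (by norm_num)
  · have e1 : T ≤ 0.16 := hT2
    have e2 : K ≤ 0.02581 := h.Kle hS (by norm_num) e1 (by norm_num)
    have e3 : 1.6902 ≤ s := h.sge (q := 0.3553) hS (by norm_num) e1 hL1 (by norm_num) e2
      (by norm_num) (by norm_num) (by norm_num) (by norm_num) (by norm_num)
    have e4 : W ≤ 0.7516 := h.dS e3 (by norm_num) (by norm_num) (by norm_num)
    exact h.leaf (c := 1) (E1 := 0.3171) (w := 0.6828) (r := 0.3823) hS (by norm_num) g0
      (by norm_num) e1 hL0 (by norm_num) e2 e4 (by norm_num) (by norm_num) hc (by norm_num)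
      (by norm_num) (by norm_num) (by norm_num) (by norm_num) (by norm_num) (by norm_num)
      (by norm_num) (by norm_num) (by norm_num)

theorem JPack.tau12 (h : JPack K T S L x y W n s) (hS : 7.5 ≤ S)
    (hc : Real.cos S ≤ 1) (hT : 0.16 ≤ T) : False := by
  have hL0 : 0 ≤ L := le_trans (mul_nonneg h.T0.le (by linarith [h.Spi, Real.pi_pos])) h.LT
  have hL1 : L ≤ 1.7 := by linarith [h.L17]
  have hT2 : T ≤ 0.6 := h.T6
  have e1 : T ≤ 0.2868 := h.Tle hS (by norm_num) hL1 (by norm_num)
  have e2 : K ≤ 0.03824 := h.Kle hS (by norm_num) e1 (by norm_num)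
  have e3 : 1.6344 ≤ s := h.sge (q := 0.3469) hS (by norm_num) e1 hL1 (by norm_num) e2
    (by norm_num) (by norm_num) (by norm_num) (by norm_num) (by norm_num)
  have e4 : W ≤ 0.7637 := h.dS e3 (by norm_num) (by norm_num) (by norm_num)
  have e6 : 0.9486 ≤ L := le_trans (by norm_num) (h.Lge hS (by norm_num) (by norm_num) hT)
  exact h.leaf (c := 1) (E1 := 0.3875) (w := 0.6124) (r := 0.4921) hS (by norm_num) hT
    (by norm_num) e1 e6 (by norm_num) e2 e4 (by norm_num) (by norm_num) hc (by norm_num)
    (by norm_num) (by norm_num) (by norm_num) (by norm_num) (by norm_num) (by norm_num)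
    (by norm_num) (by norm_num) (by norm_num)

theorem JPack.L12 (h : JPack K T S L x y W n s) (hS : 7.5 ≤ S)
    (hc : Real.cos S ≤ 1) (hT2 : T ≤ 0.16) (hL0 : 1.15 ≤ L) : False := by
  have hT : 0 ≤ T := h.T0.le
  have hL1 : L ≤ 1.7 := by linarith [h.L17]
  rcases le_total T 0.025 with g0 | g0
  · have e1 : T ≤ 0.025 := g0
    have e2 : K ≤ 0.00334 := h.Kle hS (by norm_num) e1 (by norm_num)
    have e3 : 1.8829 ≤ s := h.sge (q := 0.2372) hS (by norm_num) e1 hL1 (by norm_num) e2
      (by norm_num) (by norm_num) (by norm_num) (by norm_num) (by norm_num)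
    have e4 : W ≤ 0.7137 := h.dS e3 (by norm_num) (by norm_num) (by norm_num)
    exact h.leaf (c := 1) (E1 := 0.3171) (w := 0.6828) (r := 0.3823) hS (by norm_num) hT
      (by norm_num) e1 hL0 (by norm_num) e2 e4 (by norm_num) (by norm_num) hc (by norm_num)
      (by norm_num) (by norm_num) (by norm_num) (by norm_num) (by norm_num) (by norm_num)
      (by norm_num) (by norm_num) (by norm_num)
  · have e1 : T ≤ 0.16 := hT2
    have e2 : K ≤ 0.02134 := h.Kle hS (by norm_num) e1 (by norm_num)
    have e3 : 1.7738 ≤ s := h.sge (q := 0.2938) hS (by norm_num) e1 hL1 (by norm_num) e2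
      (by norm_num) (by norm_num) (by norm_num) (by norm_num) (by norm_num)
    have e4 : W ≤ 0.7344 := h.dS e3 (by norm_num) (by norm_num) (by norm_num)
    exact h.leaf (c := 1) (E1 := 0.3171) (w := 0.6828) (r := 0.3823) hS (by norm_num) g0
      (by norm_num) e1 hL0 (by norm_num) e2 e4 (by norm_num) (by norm_num) hc (by norm_num)
      (by norm_num) (by norm_num) (by norm_num) (by norm_num) (by norm_num) (by norm_num)
      (by norm_num) (by norm_num) (by norm_num)

end EQS
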