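import Mathlib
import Pool.Agent.Lib.MP_226de1_co.E.JBox3

/-! Combination of the box lemmas: the zone of the higher sheets. -/

set_option autoImplicit false

namespace EQS

variable {K T S L x y W n s : ℝ}

/-- `cos S ≤ c` on the intervals of the box tree, `π ≤ S ≤ 3π/2` -/
theorem JB_cosA {S : ℝ} (h1 : Real.pi ≤ S) {u c : ℝ} (h2 : S ≤ u)
    (hc : 1 - (u - 3.1415) ^ 2 / 2 ≥ -c) : Real.cos S ≤ c := by
  have hpi := Real.pi_gt_d4
  have h3 := Real.one_sub_sq_div_two_le_cos (x := S - Real.pi)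
  rw [Real.cos_sub_pi] at h3
  have h4 : (S - Real.pi) ^ 2 ≤ (u - 3.1415) ^ 2 :=
    pow_le_pow_left₀ (by linarith) (by linarith) 2
  linarith

theorem JB_cosB {S : ℝ} (h2 : S ≤ 4.35) (h1 : 4 ≤ S) : Real.cos S ≤ -0.35 := by
  have hpi := Real.pi_gt_d4
  have hpi2 := Real.pi_lt_d4
  have e : Real.cos S = -Real.sin (3 * Real.pi / 2 - S) := by
    have : Real.sin (3 * Real.pi / 2 - S) = -Real.cos S := by
      have h := Real.sin_sub_pi_div_two (Real.pi - (S - Real.pi))
      rw [show 3 * Real.pi / 2 - S = (Real.pi - (S - Real.pi)) - Real.pi / 2 by ring, h,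
        Real.cos_pi_sub, Real.cos_sub_pi, neg_neg]
    rw [this, neg_neg]
  rw [e]
  set z := 3 * Real.pi / 2 - S with hz
  have hz0 : 0.3622 ≤ z := by linarith
  have hz1 : z ≤ 0.8 := by linarith
  have h3 := Real.sin_ge_sub_cube (x := z) (by linarith)
  nlinarith [mul_nonneg (sub_nonneg.2 hz0) (sub_nonneg.2 hz1),
    mul_nonneg (mul_nonneg (sub_nonneg.2 hz0) (sub_nonneg.2 hz1)) (by linarith : 0 ≤ z)]

theorem JB_cos0 {S : ℝ} (h1 : Real.pi ≤ S) (h2 : S ≤ 3 * Real.pi / 2) : Real.cos S ≤ 0 := by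
  have h := Real.cos_nonpos_of_pi_div_two_le_of_le (x := S) (by linarith [Real.pi_pos])
    (by linarith)
  exact h

theorem JB_cosC {S : ℝ} (h1 : 3 * Real.pi / 2 ≤ S) {u c : ℝ} (h2 : S ≤ u)
    (hc : u - 4.71225 ≤ c) : Real.cos S ≤ c := by
  have hpi := Real.pi_gt_d4
  have e : Real.cos S = Real.sin (S - 3 * Real.pi / 2) := by
    have h := Real.sin_sub_pi_div_two (S - Real.pi)
    rw [show S - 3 * Real.pi / 2 = (S - Real.pi) - Real.pi / 2 by ring, h, Real.cos_sub_pi,
      neg_neg]
  rw [e]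
  have h3 := Real.sin_le (x := S - 3 * Real.pi / 2) (by linarith)
  linarith

theorem JB_cosD {S : ℝ} {u v c : ℝ} (h1 : u ≤ S) (h2 : S ≤ v) (hv : v ≤ 6.28)
    (hu : 5.29 ≤ u) (hc : 1 - (6.283 - v) ^ 2 / 2 + (6.283 - v) ^ 4 * (5 / 96) ≤ c) :
    Real.cos S ≤ c := by
  have hpi := Real.pi_gt_d4
  have hpi2 := Real.pi_lt_d4
  have e : Real.cos S = Real.cos (2 * Real.pi - S) := by
    rw [Real.cos_two_pi_sub]
  rw [e]
  have h3 : Real.cos (2 * Real.pi - S) ≤ Real.cos (6.283 - v) := by
    apply Real.cos_le_cos_of_nonneg_of_le_pi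
    · linarith
    · linarith
    · linarith
  have h4 := Real.cos_bound (x := 6.283 - v) (by rw [abs_le]; constructor <;> linarith)
  have h5 := (abs_le.1 h4).2
  have h6 : |6.283 - v| ^ 4 = (6.283 - v) ^ 4 := by
    rw [show |6.283 - v| ^ 4 = (|6.283 - v| ^ 2) ^ 2 by ring, sq_abs]
    ring
  rw [h6] at h5
  linarith

/-- the zone: `T ≤ 4/25` -/
theorem JPack.T_le (h : JPack K T S L x y W n s) : T ≤ 0.16 := by
  by_contra hcon
  push Not at hcon
  have hT := hcon.le
  have hpi := Real.pi_gt_d4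
  have hpi2 := Real.pi_lt_d4
  have hS := h.Spi.le
  rcases le_total S 3.4 with a | a
  · exact h.tau0 (by linarith) a (JB_cosA hS a (by norm_num)) hT
  rcases le_total S 3.7 with b | b
  · exact h.tau1 a b (JB_cosA hS b (by norm_num)) hT
  rcases le_total S 4 with c | c
  · exact h.tau2 b c (JB_cosA hS c (by norm_num)) hT
  rcases le_total S 4.35 with d | d
  · exact h.tau3 c d (JB_cosB d c) hT
  rcases le_total S (3 * Real.pi / 2) with e | e
  · exact h.tau4 d (by linarith) (JB_cos0 hS e) hT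
  rcases le_total S 4.95 with f | f
  · exact h.tau5 (by linarith) f (JB_cosC e f (by norm_num)) hT
  rcases le_total S 5.2 with g | g
  · exact h.tau6 f g (JB_cosC e g (by norm_num)) hT
  rcases le_total S 5.4 with i | i
  · refine h.tau7 g i ?_ hT
    rcases le_total S 5.3 with i1 | i1
    · exact JB_cosC e i1 (by norm_num)
    · exact JB_cosD i1 i (by norm_num) (by norm_num) (by norm_num)
  rcases le_total S 5.6 with j | j
  · exact h.tau8 i j (JB_cosD i j (by norm_num) (by norm_num) (by norm_num)) hT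
  rcases le_total S 5.8 with k | k
  · exact h.tau9 j k (JB_cosD j k (by norm_num) (by norm_num) (by norm_num)) hT
  rcases le_total S 6.2 with l | l
  · exact h.tau10 k l (Real.cos_le_one _) hT
  rcases le_total S 7.5 with m | m
  · exact h.tau11 l m (Real.cos_le_one _) hT
  · exact h.tau12 m (Real.cos_le_one _) hT

/-- the zone: `L ≤ 1` for `S ≤ 3π/2` -/
theorem JPack.L_le1 (h : JPack K T S L x y W n s) (h2 : S ≤ 3 * Real.pi / 2) : L ≤ 1 := by
  by_contra hcon
  push Not at hcon
  have hL := hcon.le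
  have hT := h.T_le
  have hpi := Real.pi_gt_d4
  have hpi2 := Real.pi_lt_d4
  have hS := h.Spi.le
  rcases le_total S 3.4 with a | a
  · exact h.L0 (by linarith) a (JB_cosA hS a (by norm_num)) hT hL
  rcases le_total S 3.7 with b | b
  · exact h.L1 a b (JB_cosA hS b (by norm_num)) hT hL
  rcases le_total S 4 with c | c
  · exact h.L2 b c (JB_cosA hS c (by norm_num)) hT hL
  rcases le_total S 4.35 with d | d
  · exact h.L3 c d (JB_cosB d c) hT hL
  · exact h.L4 d (by linarith) (JB_cos0 hS h2) hT hL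

/-- the zone: `L ≤ 23/20` -/
theorem JPack.L_le2 (h : JPack K T S L x y W n s) : L ≤ 1.15 := by
  rcases le_total S (3 * Real.pi / 2) with e | e
  · have := h.L_le1 e
    linarith
  by_contra hcon
  push Not at hcon
  have hL := hcon.le
  have hT := h.T_le
  have hpi := Real.pi_gt_d4
  have hpi2 := Real.pi_lt_d4
  rcases le_total S 4.95 with f | f
  · exact h.L5 (by linarith) f (JB_cosC e f (by norm_num)) hT hL
  rcases le_total S 5.2 with g | g
  · exact h.L6 f g (JB_cosC e g (by norm_num)) hT hL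
  rcases le_total S 5.4 with i | i
  · refine h.L7 g i ?_ hT hL
    rcases le_total S 5.3 with i1 | i1
    · exact JB_cosC e i1 (by norm_num)
    · exact JB_cosD i1 i (by norm_num) (by norm_num) (by norm_num)
  rcases le_total S 5.6 with j | j
  · exact h.L8 i j (JB_cosD i j (by norm_num) (by norm_num) (by norm_num)) hT hL
  rcases le_total S 5.8 with k | k
  · exact h.L9 j k (JB_cosD j k (by norm_num) (by norm_num) (by norm_num)) hT hL
  rcases le_total S 6.2 with l | l
  · exact h.L10 k l (Real.cos_le_one _) hT hL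
  rcases le_total S 7.5 with m | m
  · exact h.L11 l m (Real.cos_le_one _) hT hL
  · exact h.L12 m (Real.cos_le_one _) hT hL

/-- the zone: `W ≤ 4/5` -/
theorem JPack.W_le (h : JPack K T S L x y W n s) : W ≤ 0.8 := by
  have hT := h.T_le
  have hpi := Real.pi_gt_d4
  have hpi2 := Real.pi_lt_d4
  have h3 : (3.1415 : ℝ) ≤ S := by linarith [h.Spi]
  rcases le_total S (3 * Real.pi / 2) with e | e
  · have hL := h.L_le1 e
    have e2 : K ≤ 0.05094 := h.Kle h3 (by norm_num) hT (by norm_num)
    have e3 : 1.488 ≤ s := h.sge (q := 0.4784) h3 (by norm_num) hT hL (by norm_num) e2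
      (by norm_num) (by norm_num) (by norm_num) (by norm_num) (by norm_num)
    exact h.dS e3 (by norm_num) (by norm_num) (by norm_num)
  · have hL := h.L_le2
    have h4 : (4.7 : ℝ) ≤ S := by linarith
    have e2 : K ≤ 0.0341 := h.Kle h4 (by norm_num) hT (by norm_num)
    have e3 : 1.488 ≤ s := h.sge (q := 0.36) h4 (by norm_num) hT hL (by norm_num) e2
      (by norm_num) (by norm_num) (by norm_num) (by norm_num) (by norm_num)
    exact h.dS e3 (by norm_num) (by norm_num) (by norm_num)

end EQS
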