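import Mathlib
import Pool.Agent.Lib.MP_226de1_co.E.JBox4
import Pool.Agent.Lib.MP_226de1_co.E.FThree

/-! The zone step on the higher sheets (`F ≥ π/2`, hence `F > 3π/2`), `0 ≤ L ≤ 1.7`. -/

set_option autoImplicit false

namespace EQS

open Complex

variable {k C : ℝ} {q0 q1 q2 q3 d0 d1 d2 X1 X2 X3 : ℂ}

/-- `n² + E n ≥ 1 - E cos σ`, `n = |1/p_{-2} - 1|`, `E = e^{-L}` -/
theorem St.circ_n (h : St k C q0 q1 q2 q3 d0 d1 d2 X1 X2 X3)
    (he : |k * (X1 - d0).im| = Real.pi / 2) :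
    1 - Real.exp (-(k * (X2 - X1).re)) * Real.cos (k * (X1 - X2).im) ≤
      ‖(pv k C X2 d1)⁻¹ - 1‖ ^ 2 +
        Real.exp (-(k * (X2 - X1).re)) * ‖(pv k C X2 d1)⁻¹ - 1‖ := by
  have h1 := h.z_circ he
  set E := Real.exp (-(k * (X2 - X1).re)) with hE
  set c : ℂ := (E / 2 : ℝ) * exp (((-(k * (X2 - X1).im) : ℝ) : ℂ) * I) with hcd
  have hE0 : 0 < E := Real.exp_pos _
  set n := ‖(pv k C X2 d1)⁻¹ - 1‖ with hn
  have hn0 : 0 ≤ n := norm_nonneg _
  have h5 : ‖1 - c‖ ≤ n + E / 2 := by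
    have e : 1 - c = (1 / pv k C X2 d1 - c) - ((pv k C X2 d1)⁻¹ - 1) := by
      rw [one_div]
      ring
    have h6 := norm_sub_le (1 / pv k C X2 d1 - c) ((pv k C X2 d1)⁻¹ - 1)
    rw [← e, h1] at h6
    linarith
  have h6 : ‖1 - c‖ ^ 2 = 1 - E * Real.cos (k * (X1 - X2).im) + E ^ 2 / 4 := by
    have e1 : c.re = E / 2 * Real.cos (k * (X1 - X2).im) := by
      rw [hcd, re_ofReal_mul, exp_ofReal_mul_I_re]
      congr 3
      simp only [sub_im]
      ring
    have e2 : c.im = E / 2 * Real.sin (k * (X1 - X2).im) := by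
      rw [hcd, im_ofReal_mul, exp_ofReal_mul_I_im]
      congr 3
      simp only [sub_im]
      ring
    rw [← Complex.normSq_eq_norm_sq, Complex.normSq_apply, sub_re, sub_im, one_re, one_im, e1, e2]
    have s1 := Real.sin_sq_add_cos_sq (k * (X1 - X2).im)
    linear_combination (E ^ 2 / 4) * s1
  have h7 : ‖1 - c‖ ^ 2 ≤ (n + E / 2) ^ 2 := pow_le_pow_left₀ (norm_nonneg _) h5 2
  rw [h6] at h7
  nlinarith

/-- the real data of a state on a higher sheet -/
theorem St.jpack (h : St k C q0 q1 q2 q3 d0 d1 d2 X1 X2 X3) (hk : 8 ≤ k)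
    (hA : -(Real.pi / 4) ≤ X1.im) (he : |k * (X1 - d0).im| = Real.pi / 2)
    (hn : ‖pv k C X2 d1 - pv k C X3 d2‖ ^ 2 * ((exp d0).re * (exp d0 + exp d1).re) ≤
      ‖exp d1‖ ^ 2 * ((pv k C X2 d1).re * (pv k C X3 d2).re))
    (hF : Real.pi / 2 ≤ k * (X1 - d1).im) (hL2 : k * (X2 - X1).re ≤ 17 / 10) :
    JPack (1 / k) (X1 - X2).im (k * (X1 - X2).im) (k * (X2 - X1).re)
      ((k : ℂ) * ((X3 - d2) - (X2 - d1))).re ((k : ℂ) * ((X3 - d2) - (X2 - d1))).im
      ‖(k : ℂ) * ((X3 - d2) - (X2 - d1))‖ ‖(pv k C X2 d1)⁻¹ - 1‖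
      (Real.cos d0.im * (Real.cos d0.im + Real.cos d1.im)) := by
  have hpi := Real.pi_pos
  have hpi4 := Real.pi_lt_d4
  have k0 : 0 < k := by linarith
  have c0 := h.cos0
  have c1 := h.cos1
  obtain ⟨hF1, hσ, hom⟩ := h.J_facts he hF
  have hFe := F_eq (k := k) (X1 := X1) (X2 := X2) (d1 := d1)
  have hv0 : 0 < (X1 - X2).im := by
    by_contra hcon
    push Not at hcon
    have := mul_nonpos_of_nonneg_of_nonpos k0.le hcon
    linarith
  have hv1 : X2.im ≤ X1.im := by
    rw [sub_im] at hv0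
    linarith
  have hF3 := h.f3 hk hA he (by linarith)
  set η := Real.pi / (2 * k) with hη
  have hkη : k * η = Real.pi / 2 := by rw [hη]; field_simp
  have hη0 : 0 < η := by positivity
  have hκ1 : |(X2 - d1).im| < η := by
    have h1 := h.p2
    rw [abs_mul, abs_of_pos k0] at h1
    by_contra hcon
    push Not at hcon
    nlinarith
  have hκ2 := abs_lt.1 hκ1
  have hθη : η < (X1 - X2).im := by
    by_contra hcon
    push Not at hcon
    nlinarith
  have hm0 : 0 ≤ -X1.im - (X2 - d1).im := by linarith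
  obtain ⟨_, hlt⟩ := h.mv_lt hA
  have hmlt : -X1.im - (X2 - d1).im < Real.pi / 2 := by
    have : -X2.im - (X2 - d1).im = (-X1.im - (X2 - d1).im) + (X1 - X2).im := by
      simp only [sub_im]
      ring
    linarith
  -- the lower bound of `L`
  have hLT : (X1 - X2).im * (k * (X1 - X2).im - Real.pi / 2) ≤ k * (X2 - X1).re := by
    have h1 := h.F2 hA hm0 hv1
    have h2 : (X1 - X2).im ≤ Real.tan (X1.im - X2.im) := by
      rw [sub_im] at hv0 ⊢
      apply Real.le_tan hv0.le
      linarith [h.a1.2, h.a2.1]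
    have h3 : (X1 - X2).im - (X2 - d1).im ≤ Real.tan (-X1.im - (X2 - d1).im) := by
      have := Real.le_tan hm0 hmlt
      linarith
    have h4 : ((X1 - X2).im - (X2 - d1).im) * (X1 - X2).im ≤ (X2 - X1).re := by
      refine le_trans ?_ h1
      exact mul_le_mul h3 h2 hv0.le (le_trans (by linarith) h3)
    have h5 : k * (((X1 - X2).im - (X2 - d1).im) * (X1 - X2).im) ≤ k * (X2 - X1).re :=
      mul_le_mul_of_nonneg_left h4 k0.le
    have h6 : k * (X2 - d1).im ≤ Real.pi / 2 := by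
      rw [← hkη]
      exact mul_le_mul_of_nonneg_left hκ2.2.le k0.le
    have h7 : (X1 - X2).im * (k * (X2 - d1).im) ≤ (X1 - X2).im * (Real.pi / 2) :=
      mul_le_mul_of_nonneg_left h6 hv0.le
    nlinarith
  -- angles
  have hS : 0 < k * (X1 - X2).im := by linarith
  have htan := h.tan_m hA hS le_rfl le_rfl hm0
  have hmle := Real.le_tan hm0 hmlt
  have hLS : -X1.im ≤ k * (X2 - X1).re / (k * (X1 - X2).im) + η := by linarith
  have hd0 : |d0.im| ≤ -X1.im + η := by
    rw [abs_le]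
    rcases h.im_d0 he with h2 | h2
    · rw [← hη] at h2
      constructor <;> linarith [h.a1.2]
    · rw [← hη] at h2
      constructor <;> linarith [h.a1.2]
  have hd1 : |d1.im| ≤ -X1.im + (X1 - X2).im + η := by
    have e1 : d1.im = X2.im - (X2 - d1).im := by
      rw [sub_im]
      ring
    have e2 : (X1 - X2).im = X1.im - X2.im := sub_im _ _
    rw [e1, abs_le]
    constructor
    · linarith
    · linarith [h.a1.2]
  have hK : Real.pi * (1 / k) = 2 * η := by
    rw [hη]
    field_simp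
  have hcosκ : Real.cos (k * (X2 - d1).im) ≤ k * (X1 - X2).im - Real.pi := by
    rcases le_or_gt (k * (X1 - X2).im) (3 * Real.pi / 2) with h1 | h1
    · have hp := abs_lt.1 h.p2
      have h2 : Real.cos (k * (X2 - d1).im) ≤ Real.cos (3 * Real.pi / 2 - k * (X1 - X2).im) :=
        Real.cos_le_cos_of_nonneg_of_le_pi (by linarith) (by linarith) (by linarith)
      have h3 : Real.cos (3 * Real.pi / 2 - k * (X1 - X2).im) =
          Real.sin (k * (X1 - X2).im - Real.pi) := by
        rw [← Real.cos_pi_div_two_sub]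
        congr 1
        ring
      rw [h3] at h2
      exact h2.trans (Real.sin_le (by linarith))
    · have := Real.cos_le_one (k * (X2 - d1).im)
      have := Real.pi_gt_three
      linarith
  have hss := h.s_ge he
  set s := Real.cos d0.im * (Real.cos d0.im + Real.cos d1.im) with hs
  have hs0 : 0 ≤ s := by positivity
  set w : ℂ := (k : ℂ) * ((X3 - d2) - (X2 - d1)) with hw
  refine
    { K0 := by positivity
      K8 := one_div_le_one_div_of_le (by norm_num) hk
      TS := by field_simp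
      Spi := hσ
      LT := hLT
      L17 := hL2
      hs := ?_
      W0 := norm_nonneg _
      WW := ?_
      spl := h.spl hs0 hss hn
      full := ?_
      real := ?_
      n0 := norm_nonneg _
      circ := h.circ_n he }
  · intro q hq hq2 hq4
    rw [hK] at hq
    have h1 : d0.im ^ 2 ≤ q ^ 2 := by
      rw [← sq_abs d0.im]
      exact pow_le_pow_left₀ (abs_nonneg _) (by linarith) 2
    have h2 : d1.im ^ 2 ≤ (q + (X1 - X2).im) ^ 2 := by
      rw [← sq_abs d1.im]
      exact pow_le_pow_left₀ (abs_nonneg _) (by linarith) 2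
    have h3 := Real.one_sub_sq_div_two_le_cos (x := d0.im)
    have h4 := Real.one_sub_sq_div_two_le_cos (x := d1.im)
    rw [hs]
    exact mul_le_mul (by linarith) (by linarith) (by linarith) c0.le
  · rw [← Complex.normSq_eq_norm_sq, Complex.normSq_apply]
    ring
  · have hP := h.P_pos
    have hP3 := h.P3_pos
    have hD : 0 < ‖exp d1‖ ^ 2 := by
      have := norm_pos_iff.2 (exp_ne_zero d1)
      positivity
    have key := norm_sub_sq_log (p := pv k C X3 d2) (q := pv k C X2 d1) (pv_ne h.C0) (pv_ne h.C0)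
    rw [h.om_eq, ← hw, norm_sub_rev] at key
    have h1 : ‖exp d1‖ ^ 2 * (s * ‖pv k C X2 d1 - pv k C X3 d2‖ ^ 2) ≤
        ‖exp d1‖ ^ 2 * ((pv k C X2 d1).re * (pv k C X3 d2).re) := by
      calc ‖exp d1‖ ^ 2 * (s * ‖pv k C X2 d1 - pv k C X3 d2‖ ^ 2) =
            ‖pv k C X2 d1 - pv k C X3 d2‖ ^ 2 * (s * ‖exp d1‖ ^ 2) := by ring
        _ ≤ ‖pv k C X2 d1 - pv k C X3 d2‖ ^ 2 * ((exp d0).re * (exp d0 + exp d1).re) :=
            mul_le_mul_of_nonneg_left hss (sq_nonneg _)
        _ ≤ _ := hn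
    have h2 := le_of_mul_le_mul_left h1 hD
    have e1 : (pv k C X2 d1).re = ‖pv k C X2 d1‖ * Real.cos (k * (X2 - d1).im) := by
      rw [pv_re, norm_pv h.C0]
    have h3 : (pv k C X3 d2).re ≤ ‖pv k C X3 d2‖ := Complex.re_le_norm _
    have hn1 : 0 < ‖pv k C X2 d1‖ := norm_pos_iff.2 (pv_ne h.C0)
    have hn2 : 0 < ‖pv k C X3 d2‖ := norm_pos_iff.2 (pv_ne h.C0)
    have h4 : (pv k C X2 d1).re * (pv k C X3 d2).re ≤
        (‖pv k C X2 d1‖ * (k * (X1 - X2).im - Real.pi)) * ‖pv k C X3 d2‖ := by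
      apply mul_le_mul _ h3 hP3.le
      · exact mul_nonneg hn1.le (by linarith)
      · rw [e1]
        exact mul_le_mul_of_nonneg_left hcosκ hn1.le
    have hpos : 0 < ‖pv k C X3 d2‖ * ‖pv k C X2 d1‖ := mul_pos hn2 hn1
    rw [key] at h2
    have h5 : (4 * s * (Real.sinh (w.re / 2) ^ 2 + Real.sin (w.im / 2) ^ 2)) *
        (‖pv k C X3 d2‖ * ‖pv k C X2 d1‖) ≤
        (k * (X1 - X2).im - Real.pi) * (‖pv k C X3 d2‖ * ‖pv k C X2 d1‖) := by
      nlinarith
    exact le_of_mul_le_mul_right h5 hpos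
  · intro r hr0 hr1 hr hA0
    have e_re : ((X2 - d1) - (X3 - d2)).re = -(w.re * (1 / k)) := by
      have : w.re = k * ((X3 - d2) - (X2 - d1)).re := by rw [hw, re_ofReal_mul]
      rw [this]
      have : k * ((X3 - d2) - (X2 - d1)).re * (1 / k) = ((X3 - d2) - (X2 - d1)).re := by
        field_simp
      rw [this]
      simp
    have e_im : ((X2 - d1) - (X3 - d2)).im = -(w.im * (1 / k)) := by
      have : w.im = k * ((X3 - d2) - (X2 - d1)).im := by rw [hw, im_ofReal_mul]
      rw [this]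
      have : k * ((X3 - d2) - (X2 - d1)).im * (1 / k) = ((X3 - d2) - (X2 - d1)).im := by
        field_simp
      rw [this]
      simp
    have e_L : 2 * (k * (X2 - X1).re) * (1 / k) = 2 * (X2 - X1).re := by
      field_simp
    -- `|tau| ≤ 2`
    have htau : Real.exp (d2 - d1).re ≤ 2 := by
      have h1 := h.tau_norm
      have h2 : Real.exp (k * (d2 - d1).re) ≤ Real.exp r := by
        have h3 : Real.exp (k * (d2 - d1).re) * Real.exp (-r) ≤ 1 := by
          rw [← h1]
          exact mul_le_mul_of_nonneg_left hr (Real.exp_pos _).le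
        have h4 : Real.exp r * Real.exp (-r) = 1 := by
          rw [← Real.exp_add, add_neg_cancel, Real.exp_zero]
        have h5 := Real.exp_pos (-r)
        nlinarith
      have h3 := Real.exp_le_exp.1 h2
      have h4 : (d2 - d1).re ≤ 1 / 8 := by
        by_contra hcon
        push Not at hcon
        nlinarith
      have h5 := Real.exp_le_exp.2 h4
      have h6 : Real.exp (1 / 8 : ℝ) ≤ Real.exp (Real.log 2) := by
        apply Real.exp_le_exp.2
        linarith [Real.log_two_gt_d9]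
      rw [Real.exp_log (by norm_num)] at h6
      linarith
    have hLB1 := St.LB_re ((X2 - d1) - (X3 - d2)) (X2 - X1)
    have e_ang : Real.cos (((X2 - d1) - (X3 - d2)).im - 2 * (X2 - X1).im) =
        Real.cos (2 * (X1 - X2).im - w.im * (1 / k)) := by
      rw [e_im]
      congr 1
      simp only [sub_im]
      ring
    have e_cos : Real.cos ((X2 - d1) - (X3 - d2)).im = Real.cos (w.im * (1 / k)) := by
      rw [e_im, Real.cos_neg]
    rw [e_ang, e_cos, ← e_L] at hLB1
    set A := Real.cos (w.im * (1 / k)) - Real.exp (-(2 * (k * (X2 - X1).re) * (1 / k))) *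
      Real.cos (2 * (X1 - X2).im - w.im * (1 / k)) with hAdef
    rw [e_re] at hLB1
    have hLB2 := h.LB hk htau (by rw [hLB1]; exact mul_nonneg (Real.exp_pos _).le hA0)
    rw [hLB1] at hLB2
    -- the size of `b_2`
    have h1 := h.om_re
    rw [← hw] at h1
    have h2 : Real.exp (k * (X3 - X2).re) * Real.exp (-r) ≤ Real.exp w.re := by
      rw [h1]
      exact mul_le_mul_of_nonneg_left hr (Real.exp_pos _).le
    rw [← Real.exp_add, Real.exp_le_exp] at h2
    have h3 : (X3 - X2).re ≤ (w.re + r) * (1 / k) := by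
      rw [mul_one_div, le_div_iff₀ k0]
      linarith
    have h4 := Real.sinh_le_sinh.2 h3
    have h5 : Real.exp (-(w.re * (1 / k))) * A ≤ 2 * Real.sinh ((w.re + r) * (1 / k)) := by
      linarith
    have h6 := mul_le_mul_of_nonneg_left h5 (Real.exp_pos (w.re * (1 / k))).le
    have e7 : Real.exp (w.re * (1 / k)) * (Real.exp (-(w.re * (1 / k))) * A) = A := by
      rw [← mul_assoc, ← Real.exp_add, add_neg_cancel, Real.exp_zero, one_mul]
    have e8 : Real.exp (w.re * (1 / k)) * (2 * Real.sinh ((w.re + r) * (1 / k))) =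
        Real.exp ((2 * w.re + r) * (1 / k)) - Real.exp (-(r * (1 / k))) := by
      rw [Real.sinh_eq, show (2 * w.re + r) * (1 / k) = w.re * (1 / k) + (w.re + r) * (1 / k) by ring,
        show -(r * (1 / k)) = w.re * (1 / k) + -((w.re + r) * (1 / k)) by ring, Real.exp_add,
        Real.exp_add]
      ring
    rw [e7, e8] at h6
    exact h6

/-- **the zone step on the higher sheets**: `F ≥ π/2`, `L ≤ 1.7` -/
theorem St.J_zone (h : St k C q0 q1 q2 q3 d0 d1 d2 X1 X2 X3) (hk : 8 ≤ k)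
    (hA : -(Real.pi / 4) ≤ X1.im) (he : |k * (X1 - d0).im| = Real.pi / 2)
    (hn : ‖pv k C X2 d1 - pv k C X3 d2‖ ^ 2 * ((exp d0).re * (exp d0 + exp d1).re) ≤
      ‖exp d1‖ ^ 2 * ((pv k C X2 d1).re * (pv k C X3 d2).re))
    (hF : Real.pi / 2 ≤ k * (X1 - d1).im) (hL2 : k * (X2 - X1).re ≤ 17 / 10) :
    (X1 - X2).im ≤ 4 / 25 ∧ k * (X2 - X1).re ≤ 23 / 20 ∧
      (k * (X1 - X2).im ≤ 3 * Real.pi / 2 → k * (X2 - X1).re ≤ 1) ∧
      ‖(k : ℂ) * ((X3 - d2) - (X2 - d1))‖ ≤ 4 / 5 ∧
      (X1 - X2).im * (k * (X1 - X2).im - Real.pi / 2) ≤ k * (X2 - X1).re := by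
  have hp := h.jpack hk hA he hn hF hL2
  have h1 := hp.T_le
  have h2 := hp.L_le2
  have h3 := hp.W_le
  refine ⟨by linarith, by linarith, hp.L_le1, by linarith, hp.LT⟩

end EQS
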