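import Pool.Agent.Lib.MP_226de1_co.E.LPos
import Pool.Agent.Lib.MP_226de1_co.E.FlowIm

/-! `L ≥ 0` at every `W1` exit which satisfies the Pick inequality, `k ≥ 8`: second site. -/

set_option autoImplicit false

namespace EQS

open Complex

variable {k C : ℝ} {q0 q1 q2 q3 d0 d1 d2 X1 X2 X3 : ℂ}

/-- the second step is small: `|sin Im (X3 - X2)| ≤ .69 φ` -/
theorem St.neg_sin (h : St k C q0 q1 q2 q3 d0 d1 d2 X1 X2 X3) (hk : 8 ≤ k)
    (hom : ‖(k : ℂ) * ((X3 - d2) - (X2 - d1))‖ < 0.77) {φ : ℝ} (hφ0 : 0 < φ)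
    (hφ1 : φ < 0.19635) (ht0 : 0 < (X1 - X2).im) (ht : (X1 - X2).im ≤ 0.531 * φ)
    (hr : Real.exp (2 * (d1 - X1).re) ≤ 0.181 * φ ^ 2)
    (hE : Real.cos φ ≤ Real.exp (2 * (X2 - X1).re)) (hL : (X2 - X1).re < 0) :
    |Real.sin (X3 - X2).im| ≤ 0.69 * φ := by
  have k0 : 0 < k := by linarith
  set E : ℝ := Real.exp (2 * (X2 - X1).re) with hEd
  have hE0 : 0 < E := Real.exp_pos _
  have hE1 : E < 1 := by
    rw [hEd, Real.exp_lt_one_iff]
    linarith
  -- `1/E ≤ 1 + .511 φ^2`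
  have hcos := Real.one_sub_sq_div_two_le_cos (x := φ)
  have hφ2 : φ ^ 2 ≤ 0.0386 := by
    have := pow_le_pow_left₀ hφ0.le hφ1.le 2
    norm_num at this ⊢
    linarith
  have hφ20 : 0 < φ ^ 2 := by positivity
  have hEinv : E⁻¹ ≤ 1 + 0.511 * φ ^ 2 := by
    rw [inv_le_iff_one_le_mul₀ hE0]
    have h1 : 1 - φ ^ 2 / 2 ≤ E := hcos.trans hE
    have h2 : (1 : ℝ) ≤ (1 - φ ^ 2 / 2) * (1 + 0.511 * φ ^ 2) := by
      have := mul_nonneg hφ20.le (show 0 ≤ 0.011 - 0.2555 * φ ^ 2 by linarith)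
      have e : (1 - φ ^ 2 / 2) * (1 + 0.511 * φ ^ 2) = 1 + φ ^ 2 * (0.011 - 0.2555 * φ ^ 2) := by
        ring
      linarith
    calc (1 : ℝ) ≤ (1 - φ ^ 2 / 2) * (1 + 0.511 * φ ^ 2) := h2
      _ ≤ E * (1 + 0.511 * φ ^ 2) := mul_le_mul_of_nonneg_right h1 (by positivity)
      _ = (1 + 0.511 * φ ^ 2) * E := by ring
  have hEinv1 : 1 ≤ E⁻¹ := (one_le_inv₀ hE0).2 hE1.le
  -- `om`
  set om : ℂ := (k : ℂ) * ((X3 - d2) - (X2 - d1)) with homd
  have hore : |om.re| < 0.77 := (Complex.abs_re_le_norm _).trans_lt hom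
  have hore' := abs_lt.1 hore
  have hzre : ((X2 - d1) - (X3 - d2)).re = -(om.re / k) := by
    rw [homd, re_ofReal_mul]
    field_simp
    simp
  have hexp : Real.exp 0.09625 ≤ 1.1011 := by
    have := exp_le_cubic (x := 0.09625) (by norm_num) (by norm_num)
    norm_num at this ⊢
    linarith
  have hdiv : ∀ x : ℝ, x < 0.77 → x / k ≤ 0.09625 := by
    intro x hx
    rw [div_le_iff₀ k0]
    linarith
  have h1 : ‖exp ((X2 - d1) - (X3 - d2))‖ ≤ 1.1011 := by
    rw [norm_exp, hzre]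
    refine (Real.exp_le_exp.2 ?_).trans hexp
    have := hdiv (-om.re) (by linarith)
    rw [neg_div] at this
    exact this
  -- `β`
  set t : ℝ := (X1 - X2).im with htd
  have h2 : ‖1 - exp (-(2 * (X2 - X1)))‖ ≤ 1.1624 * φ := by
    have e1 : exp (-(2 * (X2 - X1))) = ((E⁻¹ : ℝ) : ℂ) * exp (I * ((2 * t : ℝ) : ℂ)) := by
      rw [hEd, ← Real.exp_neg, ofReal_exp, ← exp_add]
      congr 1
      apply Complex.ext
      · simp
      · simp [htd]
        ring
    have e2 : (1 : ℂ) - exp (-(2 * (X2 - X1))) =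
        -(exp (I * ((2 * t : ℝ) : ℂ)) - 1) + exp (I * ((2 * t : ℝ) : ℂ)) * ((1 - E⁻¹ : ℝ) : ℂ) := by
      rw [e1]
      push_cast
      ring
    have e3 : ‖exp (I * ((2 * t : ℝ) : ℂ)) - 1‖ ≤ 2 * t := by
      have := Real.norm_exp_I_mul_ofReal_sub_one_le (x := 2 * t)
      rwa [Real.norm_of_nonneg (by linarith)] at this
    have e4 : ‖exp (I * ((2 * t : ℝ) : ℂ)) * ((1 - E⁻¹ : ℝ) : ℂ)‖ = E⁻¹ - 1 := by
      rw [norm_mul, mul_comm I, Complex.norm_exp_ofReal_mul_I, one_mul, Complex.norm_real,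
        Real.norm_of_nonpos (by linarith)]
      ring
    rw [e2]
    calc ‖-(exp (I * ((2 * t : ℝ) : ℂ)) - 1) + exp (I * ((2 * t : ℝ) : ℂ)) * ((1 - E⁻¹ : ℝ) : ℂ)‖
        ≤ 2 * t + (E⁻¹ - 1) := by
          refine (norm_add_le _ _).trans ?_
          rw [norm_neg, e4]
          linarith
      _ ≤ 2 * (0.531 * φ) + 0.511 * φ ^ 2 := by linarith
      _ ≤ 1.1624 * φ := by
        have := mul_le_mul_of_nonneg_left hφ1.le hφ0.le
        have e : φ ^ 2 = φ * φ := by ring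
        rw [e]
        linarith
  have h3 : ‖exp (2 * (d1 - X2))‖ ≤ 0.185 * φ ^ 2 := by
    have e1 : (2 * (d1 - X2)).re = 2 * (d1 - X1).re + -(2 * (X2 - X1).re) := by simp; ring
    rw [norm_exp, e1, Real.exp_add, Real.exp_neg, ← hEd]
    have e2 : (1 : ℝ) + 0.511 * φ ^ 2 ≤ 1.0198 := by linarith
    calc Real.exp (2 * (d1 - X1).re) * E⁻¹ ≤ 0.181 * φ ^ 2 * 1.0198 :=
          mul_le_mul hr (hEinv.trans e2) (inv_pos.2 hE0).le (by positivity)
      _ ≤ 0.185 * φ ^ 2 := by linarith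
  set S : ℝ := ‖2 * sinh (X3 - X2)‖ with hS
  have hS0 : 0 ≤ S := norm_nonneg _
  -- `tau`
  have h4 : ‖exp (d2 - d1)‖ ≤ 1.1011 * (1 + S) := by
    have e1 := h.tau_norm
    have e2 := h.om_re
    rw [← homd] at e2
    set y : ℝ := (X3 - X2).re with hy
    have e3 : Real.exp (k * (d2 - d1).re) * Real.exp om.re = Real.exp (k * y) := by
      rw [e2]
      calc Real.exp (k * (d2 - d1).re) * (Real.exp (k * y) * ‖(pv k C X2 d1)⁻¹ - 1‖) =
          Real.exp (k * y) * (Real.exp (k * (d2 - d1).re) * ‖(pv k C X2 d1)⁻¹ - 1‖) := by ring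
        _ = _ := by rw [e1, mul_one]
    rw [← Real.exp_add, Real.exp_eq_exp] at e3
    have e4 : (d2 - d1).re = y + -(om.re / k) := by
      field_simp
      linarith
    rw [norm_exp, e4, Real.exp_add]
    have e5 : Real.exp (-(om.re / k)) ≤ 1.1011 := by
      refine (Real.exp_le_exp.2 ?_).trans hexp
      have := hdiv (-om.re) (by linarith)
      rw [neg_div] at this
      exact this
    have e6 : Real.exp y ≤ 1 + S := by
      rcases le_or_gt y 0 with hy0 | hy0
      · have := Real.exp_le_one_iff.2 hy0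
        linarith
      · have e7 : (2 : ℂ) * sinh (X3 - X2) = exp (X3 - X2) - exp (-(X3 - X2)) := by
          rw [Complex.sinh]
          ring
        have e8 : Real.exp y - Real.exp (-y) ≤ S := by
          rw [hS, e7]
          have := norm_sub_norm_le (exp (X3 - X2)) (exp (-(X3 - X2)))
          rw [norm_exp, norm_exp, neg_re] at this
          exact this
        have e9 : Real.exp (-y) ≤ 1 := Real.exp_le_one_iff.2 (by linarith)
        linarith
    calc Real.exp y * Real.exp (-(om.re / k)) ≤ (1 + S) * 1.1011 :=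
          mul_le_mul e6 e5 (Real.exp_pos _).le (by linarith)
      _ = _ := by ring
  -- the flow identity
  have h5 : S ≤ 1.1011 * (1.1624 * φ + 0.185 * φ ^ 2 * (1 + 1.1011 * (1 + S))) := by
    have hS' : S = ‖exp ((X2 - d1) - (X3 - d2))‖ *
        ‖1 - exp (-(2 * (X2 - X1))) + exp (2 * (d1 - X2)) * (1 + exp (d2 - d1))‖ := by
      rw [hS, h.flow, norm_mul]
    refine hS'.le.trans ?_
    refine mul_le_mul h1 ?_ (norm_nonneg _) (by norm_num)
    refine (norm_add_le _ _).trans ?_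
    refine add_le_add h2 ?_
    rw [norm_mul]
    refine mul_le_mul h3 ?_ (norm_nonneg _) (by positivity)
    refine (norm_add_le _ _).trans ?_
    rw [norm_one]
    linarith
  have h6 : S ≤ 1.38 * φ := by
    have e1 : φ ^ 2 ≤ 0.19635 * φ := by
      have := mul_le_mul_of_nonneg_left hφ1.le hφ0.le
      have e : φ ^ 2 = φ * φ := by ring
      rw [e]
      linarith
    have e2 : φ ^ 2 * S ≤ 0.0386 * S := mul_le_mul_of_nonneg_right hφ2 hS0
    have e3 : 1.1011 * (1.1624 * φ + 0.185 * φ ^ 2 * (1 + 1.1011 * (1 + S))) =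
        1.1011 * 1.1624 * φ + 1.1011 * 0.185 * 2.1011 * φ ^ 2 +
          1.1011 * 0.185 * 1.1011 * (φ ^ 2 * S) := by ring
    rw [e3] at h5
    norm_num at h5 e1 e2 ⊢
    linarith
  -- `|sin|`
  have h7 : 2 * |Real.sin (X3 - X2).im| ≤ S := by
    have e1 := Complex.abs_im_le_norm (2 * sinh (X3 - X2))
    rw [two_sinh_im, abs_mul, abs_of_pos (by have := Real.cosh_pos (X3 - X2).re; positivity)] at e1
    have e2 := Real.one_le_cosh (X3 - X2).re
    have e3 := abs_nonneg (Real.sin (X3 - X2).im)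
    have e4 : 2 * |Real.sin (X3 - X2).im| ≤ 2 * Real.cosh (X3 - X2).re * |Real.sin (X3 - X2).im| :=
      mul_le_mul_of_nonneg_right (by linarith) e3
    exact e4.trans e1
  linarith

/-- lower bound of `sin` used below -/
theorem sin_lower {x : ℝ} (hx : 0 < x) (hx1 : x ≤ 0.15) : 0.996 * x ≤ Real.sin x := by
  have h1 : x - x ^ 3 / 6 < Real.sin x := Real.sin_gt_sub_cube hx
  have h2 : x ^ 2 ≤ 0.0225 := by
    have := pow_le_pow_left₀ hx.le hx1 2
    norm_num at this ⊢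
    linarith
  have h3 := mul_le_mul_of_nonneg_left h2 hx.le
  have e : x ^ 3 / 6 = x * x ^ 2 / 6 := by ring
  rw [e] at h1
  linarith

/-- `|sin y| ≤ .69 φ`, `k φ ≤ M`, `|y| < pi/2` give `k |y| < b` when `.69 M < .996 b` -/
theorem small_of_sin {k y φ M b : ℝ} (hk : 8 ≤ k) (hy : |y| < Real.pi / 2)
    (hs : |Real.sin y| ≤ 0.69 * φ) (hM : k * φ ≤ M) (hb0 : 0 < b) (hb : b ≤ 1.2)
    (hMb : 0.69 * M < 0.996 * b) : k * |y| < b := by
  have k0 : 0 < k := by linarith
  by_contra hcon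
  have hcon' := not_lt.1 hcon
  have h1 : b / k ≤ |y| := by
    rw [div_le_iff₀ k0]
    linarith
  have h0 : 0 < b / k := by positivity
  have hbk : b / k ≤ 0.15 := by
    rw [div_le_iff₀ k0]
    linarith
  have h2 : Real.sin (b / k) ≤ Real.sin |y| :=
    Real.sin_le_sin_of_le_of_le_pi_div_two (by linarith [Real.pi_pos]) hy.le h1
  have h3 : Real.sin |y| = |Real.sin y| := by
    rcases abs_cases y with ⟨e, he⟩ | ⟨e, he⟩
    · rw [e, abs_of_nonneg (Real.sin_nonneg_of_nonneg_of_le_pi he (by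
        rw [e] at hy
        linarith [Real.pi_pos]))]
    · rw [e, Real.sin_neg, abs_of_nonpos (Real.sin_nonpos_of_nonpos_of_neg_pi_le he.le (by
        rw [e] at hy
        linarith [Real.pi_pos]))]
  have h4 := sin_lower h0 hbk
  rw [h3] at h2
  have h5 : 0.996 * (b / k) ≤ 0.69 * φ := by linarith
  have h6 : 0.996 * b ≤ 0.69 * (k * φ) := by
    have := mul_le_mul_of_nonneg_left h5 k0.le
    have e : k * (0.996 * (b / k)) = 0.996 * b := by field_simp
    rw [e] at this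
    linarith
  linarith

/-- `‖P⁻¹‖² (1 + F²) ≤ 1 + .0693 F²`, `F = k φ` -/
theorem St.neg_inv (h : St k C q0 q1 q2 q3 d0 d1 d2 X1 X2 X3) (hk : 8 ≤ k)
    (he : |k * (X1 - d0).im| = Real.pi / 2) {φ : ℝ} (hφ : φ = (X1 - d1).im) (hφ0 : 0 < φ)
    (hF : k * φ < Real.pi / 2)
    (hE : Real.cos φ ≤ Real.exp (2 * (X2 - X1).re)) :
    ‖(pv k C X2 d1)⁻¹‖ ^ 2 * (1 + (k * φ) ^ 2) ≤ 1 + 0.0693 * (k * φ) ^ 2 := by
  have k0 : 0 < k := by linarith
  have hpi := Real.pi_pos
  have hpi1 := Real.pi_lt_d4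
  have hC0 := h.C0
  have hF0 : 0 < k * φ := by positivity
  have hφ1 : φ < 0.19635 := by
    have := mul_le_mul_of_nonneg_right hk hφ0.le
    linarith
  have hφ2 : φ ^ 2 ≤ 0.0386 := by
    have := pow_le_pow_left₀ hφ0.le hφ1.le 2
    norm_num at this ⊢
    linarith
  have hφ20 : 0 < φ ^ 2 := by positivity
  have hcosF : 0 < Real.cos (k * φ) := Real.cos_pos_of_mem_Ioo ⟨by linarith, hF⟩
  -- `‖f‖ cos F = 1`
  have hf : ‖pv k C X1 d1‖ * Real.cos (k * φ) = 1 := by
    have h1 : (pv k C X1 d1).re = 1 := by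
      rw [h.f1_eq, sub_re, one_re, pv_re_zero he, sub_zero]
    rw [pv_re, ← hφ] at h1
    rw [norm_pv hC0]
    exact h1
  have hP : ‖(pv k C X2 d1)⁻¹‖ = Real.exp (-(k * (X2 - X1).re)) * Real.cos (k * φ) := by
    have h1 : ‖pv k C X2 d1‖ = Real.exp (k * (X2 - X1).re) * ‖pv k C X1 d1‖ := by
      rw [pv_mul (X := X1) (Y := X2), norm_mul, norm_exp, re_ofReal_mul]
    rw [norm_inv, h1, mul_inv, Real.exp_neg]
    congr 1
    exact inv_eq_of_mul_eq_one_right hf
  have hsq : ‖(pv k C X2 d1)⁻¹‖ ^ 2 = Real.exp (-(k * (2 * (X2 - X1).re))) *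
      Real.cos (k * φ) ^ 2 := by
    rw [hP, mul_pow, ← Real.exp_nat_mul]
    congr 2
    push_cast
    ring
  -- `cos² F (1 + F²) ≤ 1`
  have hc2 : Real.cos (k * φ) ^ 2 * (1 + (k * φ) ^ 2) ≤ 1 := by
    have h1 := Real.cos_le_one_div_sqrt_sq_add_one (x := k * φ) (by linarith) (by linarith)
    have h2 : 0 < (k * φ) ^ 2 + 1 := by positivity
    have h3 := pow_le_pow_left₀ hcosF.le h1 2
    rw [div_pow, one_pow, Real.sq_sqrt h2.le] at h3
    calc Real.cos (k * φ) ^ 2 * (1 + (k * φ) ^ 2) ≤ 1 / ((k * φ) ^ 2 + 1) * (1 + (k * φ) ^ 2) :=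
          mul_le_mul_of_nonneg_right h3 (by positivity)
      _ = 1 := by
          rw [add_comm 1, one_div, inv_mul_cancel₀ h2.ne']
  -- `exp (-2 k l) ≤ 1 + .0693 F²`
  have hcos := Real.one_sub_sq_div_two_le_cos (x := φ)
  have hcpos : 0 < 1 - φ ^ 2 / 2 := by linarith
  have hlog : -(2 * (X2 - X1).re) ≤ 0.511 * φ ^ 2 := by
    have h1 : Real.log (1 - φ ^ 2 / 2) ≤ 2 * (X2 - X1).re := by
      have := Real.log_le_log hcpos (hcos.trans hE)
      rwa [Real.log_exp] at this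
    have h2 := Real.one_sub_inv_le_log_of_pos hcpos
    have h3 : (1 - φ ^ 2 / 2)⁻¹ ≤ 1 + 0.511 * φ ^ 2 := by
      rw [inv_le_iff_one_le_mul₀ hcpos]
      have := mul_nonneg hφ20.le (show 0 ≤ 0.011 - 0.2555 * φ ^ 2 by linarith)
      have e : (1 + 0.511 * φ ^ 2) * (1 - φ ^ 2 / 2) = 1 + φ ^ 2 * (0.011 - 0.2555 * φ ^ 2) := by
        ring
      linarith
    linarith
  set F2 : ℝ := (k * φ) ^ 2 with hF2
  have hF20 : 0 < F2 := by positivity
  have hF2u : F2 ≤ 2.4675 := by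
    have := pow_le_pow_left₀ hF0.le (show k * φ ≤ 1.5708 by linarith) 2
    norm_num at this ⊢
    linarith
  have hx : -(k * (2 * (X2 - X1).re)) ≤ 0.0639 * F2 := by
    have h1 := mul_le_mul_of_nonneg_left hlog k0.le
    have h2 : k * (0.511 * φ ^ 2) ≤ 0.0639 * F2 := by
      have e : F2 = k * (k * φ ^ 2) := by rw [hF2]; ring
      rw [e]
      have h3 : 0 ≤ k * φ ^ 2 := by positivity
      have h4 : 8 * (k * φ ^ 2) ≤ k * (k * φ ^ 2) := mul_le_mul_of_nonneg_right hk h3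
      linarith
    linarith
  have hexp : Real.exp (-(k * (2 * (X2 - X1).re))) ≤ 1 + 0.0693 * F2 := by
    refine (Real.exp_le_exp.2 hx).trans ?_
    have h1 := exp_le_cubic (x := 0.0639 * F2) (by positivity) (by linarith)
    refine h1.trans ?_
    have h2 : (0.0639 * F2) ^ 2 ≤ 0.0639 ^ 2 * 2.4675 * F2 := by
      have := mul_le_mul_of_nonneg_right hF2u hF20.le
      have e : (0.0639 * F2) ^ 2 = 0.0639 ^ 2 * (F2 * F2) := by ring
      rw [e]
      linarith
    have h3 : (0.0639 * F2) ^ 3 ≤ 0.0639 ^ 3 * 2.4675 ^ 2 * F2 := by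
      have a1 := mul_le_mul_of_nonneg_right hF2u hF20.le
      have a2 := mul_le_mul_of_nonneg_right a1 hF20.le
      have e : (0.0639 * F2) ^ 3 = 0.0639 ^ 3 * (F2 * F2 * F2) := by ring
      rw [e]
      have a3 : 2.4675 * F2 * F2 ≤ 2.4675 * (2.4675 * F2) := by
        have := mul_le_mul_of_nonneg_left a1 (show (0 : ℝ) ≤ 2.4675 by norm_num)
        linarith
      linarith
    norm_num at h2 h3 ⊢
    linarith
  rw [hsq]
  have hcc : 0 ≤ Real.cos (k * φ) ^ 2 * (1 + F2) := by positivity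
  calc Real.exp (-(k * (2 * (X2 - X1).re))) * Real.cos (k * φ) ^ 2 * (1 + F2) =
        Real.exp (-(k * (2 * (X2 - X1).re))) * (Real.cos (k * φ) ^ 2 * (1 + F2)) := by ring
    _ ≤ (1 + 0.0693 * F2) * 1 := mul_le_mul hexp hc2 hcc (by positivity)
    _ = _ := by ring

/-- **`L ≥ 0`** at every `W1` exit state which satisfies the Pick inequality -/
theorem St.L_nonneg (h : St k C q0 q1 q2 q3 d0 d1 d2 X1 X2 X3) (hk : 8 ≤ k)
    (hA : -(Real.pi / 4) ≤ X1.im) (he : |k * (X1 - d0).im| = Real.pi / 2)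
    (hn : ‖pv k C X2 d1 - pv k C X3 d2‖ ^ 2 * ((exp d0).re * (exp d0 + exp d1).re) ≤
      ‖exp d1‖ ^ 2 * ((pv k C X2 d1).re * (pv k C X3 d2).re)) : 0 ≤ (X2 - X1).re := by
  by_contra hcon
  have hL := not_le.1 hcon
  have k0 : 0 < k := by linarith
  have hpi := Real.pi_pos
  have hpi1 := Real.pi_lt_d4
  have hpi2 := Real.pi_gt_d4
  obtain ⟨ht0, hκ0, hF, ht, hr, hE, hc0, hc1⟩ := h.neg_data hk hA he hL
  set φ : ℝ := (X1 - d1).im with hφ
  have hφ0 : 0 < φ := by
    have : φ = (X2 - d1).im + (X1 - X2).im := by simp [hφ]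
    linarith
  have hφ1 : φ < 0.19635 := by
    have := mul_le_mul_of_nonneg_right hk hφ0.le
    linarith
  have hom : ‖(k : ℂ) * ((X3 - d2) - (X2 - d1))‖ < 0.77 := by
    refine h.norm_om_lt he hn (s := 1.7) (by norm_num) ?_ (by norm_num) ?_
    · have := mul_le_mul hc0 (show (1.844 : ℝ) ≤ Real.cos d0.im + Real.cos d1.im by linarith)
        (by norm_num) (by linarith)
      norm_num at this ⊢
      linarith
    · have h1 : (0.77 / 2 : ℝ) ≤ Real.sinh (0.77 / 2) := Real.self_le_sinh_iff.2 (by norm_num)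
      have h2 := pow_le_pow_left₀ (by norm_num) h1 2
      norm_num at h2 ⊢
      linarith
  have hsin := h.neg_sin hk hom hφ0 hφ1 ht0 ht hr hE hL
  have hinv := h.neg_inv hk he hφ hφ0 hF hE
  set om : ℂ := (k : ℂ) * ((X3 - d2) - (X2 - d1)) with homd
  set y3 : ℝ := (X3 - X2).im with hy3
  have hy3' : |y3| < Real.pi / 2 := by
    have e : y3 = X3.im - X2.im := by simp [hy3]
    have a2 := h.a2
    have a3 := h.a3
    rw [e, abs_lt]
    constructor <;> linarith
  have hoim : |om.im| < 0.77 := (Complex.abs_im_le_norm _).trans_lt hom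
  -- polar form of `P⁻¹ - 1`
  set z : ℂ := (pv k C X2 d1)⁻¹ with hz
  set y : ℝ := om.im - k * y3 with hy
  have hzp : z - 1 = exp (om - (k : ℂ) * (X3 - X2)) := by
    have h1 := h.exp_om
    rw [← homd, ← hz] at h1
    rw [exp_sub, h1, mul_div_cancel_left₀ _ (exp_ne_zero _)]
  have hyim : (om - (k : ℂ) * (X3 - X2)).im = y := by
    have e1 : ((k : ℂ) * (X3 - X2)).im = k * y3 := im_ofReal_mul _ _
    rw [sub_im, e1]
  set ρ : ℝ := Real.exp (om - (k : ℂ) * (X3 - X2)).re with hρ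
  have hρ0 : 0 < ρ := Real.exp_pos _
  have hre : z.re - 1 = ρ * Real.cos y := by
    have := congrArg Complex.re hzp
    rw [exp_re, hyim, sub_re, one_re] at this
    exact this
  have him : z.im = ρ * Real.sin y := by
    have := congrArg Complex.im hzp
    rw [exp_im, hyim, sub_im, one_im, sub_zero] at this
    exact this
  -- `‖z‖ < 1`
  have hF0 : 0 < k * φ := by positivity
  set F2 : ℝ := (k * φ) ^ 2 with hF2
  have hF20 : 0 < F2 := by positivity
  have hz2 : ‖z‖ ^ 2 < 1 := by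
    by_contra hc
    have h1 : 1 * (1 + F2) ≤ ‖z‖ ^ 2 * (1 + F2) :=
      mul_le_mul_of_nonneg_right (not_lt.1 hc) (by positivity)
    linarith
  have hz1 : ‖z‖ < 1 := by
    by_contra hc
    have := one_le_pow₀ (n := 2) (not_lt.1 hc)
    linarith
  have hcosy : Real.cos y < 0 := by
    have h1 : z.re < 1 := (Complex.re_le_norm z).trans_lt hz1
    have h2 : ρ * Real.cos y < 0 := by linarith
    by_contra hc
    have := mul_nonneg hρ0.le (not_lt.1 hc)
    linarith
  have hyabs : Real.pi / 2 < |y| := by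
    by_contra hc
    have h1 := abs_le.1 (not_lt.1 hc)
    have := Real.cos_nonneg_of_mem_Icc (x := y) ⟨by linarith [h1.1], h1.2⟩
    linarith
  have hyle : |y| < 0.77 + k * |y3| := by
    have h1 : |y| ≤ |om.im| + |k * y3| := abs_sub _ _
    rw [abs_mul, abs_of_pos k0] at h1
    linarith
  rcases lt_or_ge (k * φ) 1 with hF1 | hF1
  · have h1 := small_of_sin hk hy3' hsin hF1.le (b := 0.8) (by norm_num) (by norm_num)
      (by norm_num)
    linarith
  · have h1 := small_of_sin hk hy3' hsin (show k * φ ≤ 1.5708 by linarith) (b := 1.19)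
      (by norm_num) (by norm_num) (by norm_num)
    -- `sin² y ≥ .85`
    have h2 : 0.924 ≤ |Real.sin y| := by
      have h3 : |Real.sin y| = Real.sin |y| := by
        rcases abs_cases y with ⟨e, he'⟩ | ⟨e, he'⟩
        · rw [e, abs_of_nonneg (Real.sin_nonneg_of_nonneg_of_le_pi he' (by
            rw [e] at hyle
            linarith))]
        · rw [e, Real.sin_neg, abs_of_nonpos (Real.sin_nonpos_of_nonpos_of_neg_pi_le he'.le (by
            rw [e] at hyle
            linarith))]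
      rw [h3, ← Real.cos_sub_pi_div_two]
      have h4 := Real.one_sub_sq_div_two_le_cos (x := |y| - Real.pi / 2)
      have h5 : (|y| - Real.pi / 2) ^ 2 ≤ 0.3893 ^ 2 :=
        pow_le_pow_left₀ (by linarith) (by linarith) 2
      norm_num at h5
      linarith
    have h3 : 0.85 ≤ Real.sin y ^ 2 := by
      rw [← sq_abs]
      have := pow_le_pow_left₀ (by norm_num) h2 2
      norm_num at this ⊢
      linarith
    -- `c² ≤ .5347`
    set c2 : ℝ := ‖z‖ ^ 2 with hc2
    have hc2u : c2 ≤ 0.5347 := by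
      have hF21 : 1 ≤ F2 := one_le_pow₀ hF1
      by_contra hc
      have h4 : 0.5347 * (1 + F2) < c2 * (1 + F2) :=
        mul_lt_mul_of_pos_right (not_le.1 hc) (by positivity)
      linarith
    -- `Im z² ≤ c² ‖z - 1‖²`
    have hxy : c2 = z.re ^ 2 + z.im ^ 2 := by
      rw [hc2, ← Complex.normSq_eq_norm_sq, Complex.normSq_apply]
      ring
    have hns : (z.re - 1) ^ 2 + z.im ^ 2 = ρ ^ 2 := by
      rw [hre, him]
      have := Real.sin_sq_add_cos_sq y
      linear_combination ρ ^ 2 * this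
    have hkey : z.im ^ 2 ≤ c2 * ((z.re - 1) ^ 2 + z.im ^ 2) := by
      have e : c2 * ((z.re - 1) ^ 2 + z.im ^ 2) - z.im ^ 2 = (z.re - c2) ^ 2 := by
        rw [hxy]
        ring
      have := sq_nonneg (z.re - c2)
      linarith
    rw [hns, him] at hkey
    have h4e : (ρ * Real.sin y) ^ 2 = ρ ^ 2 * Real.sin y ^ 2 := by ring
    have h4f : c2 * ρ ^ 2 = ρ ^ 2 * c2 := by ring
    have h4 : ρ ^ 2 * Real.sin y ^ 2 ≤ ρ ^ 2 * c2 := by
      rw [h4e, h4f] at hkey
      exact hkey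
    have h5 := le_of_mul_le_mul_left h4 (by positivity)
    linarith

end EQS
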