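import Mathlib
import Pool.Agent.Lib.MP_226de1_co.E.ExitHalf8
import Pool.Agent.Lib.MP_226de1_co.E.LPos2

/-! Block (0) of `ExitHalf 8`: `L < 0` is impossible. -/

set_option autoImplicit false

namespace EQS

open Complex

theorem blk_neg : Blk (fun L _ _ => L < 0) := by
  intro k C q0 q1 q2 q3 d0 d1 d2 X1 X2 X3 hk h hA he hn hQ
  have h0 := h.L_nonneg hk hA he hn
  have k0 : 0 < k := by linarith
  have := mul_nonneg k0.le h0
  exact absurd this (not_le.2 hQ)

end EQS
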