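import Mathlib
import Pool.Agent.Lib.MP_226de1_co.E.TwoNum

/-! Block (II) of the exit from the half plane in real variables.

`a = A_{-1}`, `v = σ/k`, `p = arg p_{-2}/k`, `g = (arg p_{-3} - arg p_{-2})/k`, `w = σ_2/k`,
`l = log|b_1|/k`, `gr = Re om / k`, `μ = |D_{-1}/ξ_{-2}|²`, `τ = |D_{-2}/D_{-1}|`,
`c0 = cos arg D_0`, `c1 = cos arg D_{-1}`, `N = |om|`. -/

set_option autoImplicit false

namespace EQS

open Real Set

/-- the real facts used in block (II) -/
structure RF (k a v p g w l gr l2 μ τ c0 c1 N : ℝ) : Prop where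
  hk : 8 ≤ k
  ha0 : 0 < a
  ha1 : a ≤ π / 4
  hv1 : k * v ≤ 7 / 5
  hp : |p| < π / (2 * k)
  hpg : |p + g| < π / (2 * k)
  hl1 : k * l ≤ 1
  hw : |w| < π / 2
  hμ0 : 0 < μ
  hμ : μ * (2 * c0 + c1) ≤ cos (a - p + v) - exp (-(2 * l)) * cos (a - p - v)
  hτ0 : 0 < τ
  c0p : 0 ≤ p + v → c0 = cos (a - π / (2 * k))
  c0n : p + v ≤ 0 → c0 = cos (a + π / (2 * k))
  c1e : c1 = cos (a + (p + v))
  hc0 : 0 < c0
  hc1 : 0 < c1
  flow : 2 * cosh l2 * sin w = exp (-gr) * (sin g + exp (-(2 * l)) * sin (2 * v - g) +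
    μ * (sin (2 * p + g) + τ * sin (2 * p + g + (w + g))))
  hN0 : 0 ≤ N
  hN : N ^ 2 = (k * gr) ^ 2 + (k * g) ^ 2
  pick : 4 * (c0 * (c0 + c1)) * sinh (N / 2) ^ 2 ≤ 1
  phase : 2 * sin (k * g + k * w) ≤ exp (-(k * l)) * (1 + sin (k * g + k * w - k * v))
  hsin : p ≤ 0 → 0 ≤ sin (k * g + k * w)
  hsin' : 0 < p → sin (k * g + k * w) < 0
  hF : |k * (p + v)| < π / 2
  τq : τ ^ 2 * (exp (2 * gr) - μ) ≤
    1 + τ * (|1 - exp (-(2 * l))| + exp (-(2 * l)) * (2 * |v|) + μ)
  τ3 : 3 / 10 ≤ k * l → τ ≤ 6 / 5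
  hF2 : p ≤ 0 → 0 ≤ v → tan (a - p) * tan v ≤ l

variable {k a v p g w l gr l2 μ τ c0 c1 N : ℝ}

theorem RF.k0 (H : RF k a v p g w l gr l2 μ τ c0 c1 N) : 0 < k := by linarith [H.hk]

theorem RF.δ16 (H : RF k a v p g w l gr l2 μ τ c0 c1 N) : π / (2 * k) ≤ π / 16 := by
  have hk := H.hk
  apply div_le_div_of_nonneg_left Real.pi_pos.le (by norm_num) (by linarith)

theorem RF.δ0 (H : RF k a v p g w l gr l2 μ τ c0 c1 N) : 0 < π / (2 * k) := by
  have := H.k0
  have := Real.pi_pos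
  positivity

theorem RF.f_lt (H : RF k a v p g w l gr l2 μ τ c0 c1 N) : |p + v| < π / (2 * k) := by
  have h1 := H.hF
  have k0 := H.k0
  rw [abs_mul, abs_of_pos k0] at h1
  rw [lt_div_iff₀ (by linarith)]
  linarith

/-- the ratio bound -/
theorem mu_ratio {a f δ : ℝ} (ha0 : 0 ≤ a) (ha1 : a ≤ π / 4) (hf : |f| ≤ δ) (hδ : δ ≤ π / 16) :
    (0 ≤ f → 5 / 2 * cos (a - f) ≤ 2 * cos (a - δ) + cos (a + f)) ∧
      (f ≤ 0 → 5 / 2 * cos (a - f) ≤ 2 * cos (a + δ) + cos (a + f)) := by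
  have hpi := Real.pi_pos
  have hpi4 := Real.pi_lt_d4
  have hδ0 : 0 ≤ δ := (abs_nonneg f).trans hf
  have hcd : 9807 / 10000 ≤ cos δ := cos_pi16 (by rw [abs_of_nonneg hδ0]; exact hδ)
  have hsd : sin δ ≤ 19636 / 100000 := (Real.sin_le hδ0).trans (by linarith)
  have hsd0 : 0 ≤ sin δ := Real.sin_nonneg_of_nonneg_of_le_pi hδ0 (by linarith)
  have hsa0 : 0 ≤ sin a := Real.sin_nonneg_of_nonneg_of_le_pi ha0 (by linarith)
  have hca0 : 0 < cos a := Real.cos_pos_of_mem_Ioo ⟨by linarith, by linarith⟩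
  have hsc : sin a ≤ cos a := by
    rw [← Real.cos_pi_div_two_sub]
    apply Real.cos_le_cos_of_nonneg_of_le_pi ha0 (by linarith) (by linarith)
  have hcf := Real.cos_le_one f
  have e1 : cos (a - f) = cos a * cos f + sin a * sin f := Real.cos_sub a f
  have e2 : cos (a + f) = cos a * cos f - sin a * sin f := Real.cos_add a f
  have e3 : cos (a - δ) = cos a * cos δ + sin a * sin δ := Real.cos_sub a δ
  have e4 : cos (a + δ) = cos a * cos δ - sin a * sin δ := Real.cos_add a δ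
  constructor
  · intro hf0
    rw [abs_of_nonneg hf0] at hf
    have hs : sin f ≤ sin δ := Real.sin_le_sin_of_le_of_le_pi_div_two (by linarith) (by linarith) hf
    have hs0 : 0 ≤ sin f := Real.sin_nonneg_of_nonneg_of_le_pi hf0 (by linarith)
    rw [e1, e2, e3]
    have h1 : cos a * cos f ≤ cos a := by nlinarith
    have h2 : sin a * sin f ≤ sin a * sin δ := mul_le_mul_of_nonneg_left hs hsa0
    have h3 : sin a * sin δ ≤ cos a * (19636 / 100000) := mul_le_mul hsc hsd hsd0 hca0.le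
    have h4 : cos a * (9807 / 10000) ≤ cos a * cos δ := mul_le_mul_of_nonneg_left hcd hca0.le
    nlinarith
  · intro hf0
    have hs0 : sin f ≤ 0 := Real.sin_nonpos_of_nonpos_of_neg_pi_le hf0 (by
      rw [abs_of_nonpos hf0] at hf
      linarith)
    rw [e1, e2, e4]
    have h1 : cos a * cos f ≤ cos a := by nlinarith
    have h2 : sin a * sin f ≤ 0 := mul_nonpos_of_nonneg_of_nonpos hsa0 hs0
    have h3 : sin a * sin δ ≤ cos a * (19636 / 100000) := mul_le_mul hsc hsd hsd0 hca0.le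
    have h4 : cos a * (9807 / 10000) ≤ cos a * cos δ := mul_le_mul_of_nonneg_left hcd hca0.le
    nlinarith

theorem RF.ratio (H : RF k a v p g w l gr l2 μ τ c0 c1 N) :
    5 / 2 * cos (a - p - v) ≤ 2 * c0 + c1 := by
  have h1 := mu_ratio H.ha0.le H.ha1 H.f_lt.le H.δ16
  have e : a - p - v = a - (p + v) := by ring
  rw [e]
  rcases le_total 0 (p + v) with h | h
  · rw [H.c0p h, H.c1e]
    exact h1.1 h
  · rw [H.c0n h, H.c1e]
    exact h1.2 h

/-- case A: `v ≥ 0`, `p ≤ 0`: `μ ≤ (2/5) (1 - T)` -/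
theorem RF.muA (H : RF k a v p g w l gr l2 μ τ c0 c1 N) (hv : 0 ≤ v) (hp0 : p ≤ 0) :
    μ ≤ 2 / 5 * (1 - exp (-(2 * l))) := by
  have hpi := Real.pi_pos
  have h1 := H.ratio
  have h2 := H.hμ
  have h3 := abs_lt.1 H.hp
  have h4 := H.δ16
  have h5 := abs_lt.1 H.f_lt
  have hμ0 := H.hμ0
  have hc : 0 < cos (a - p - v) := by
    apply Real.cos_pos_of_mem_Ioo
    constructor
    · linarith [H.ha0]
    · linarith [H.ha1]
  have h6 : cos (a - p + v) ≤ cos (a - p - v) := by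
    have e : cos (a - p + v) - cos (a - p - v) = -(2 * (sin (a - p) * sin v)) := by
      rw [Real.cos_add, Real.cos_sub (a - p) v]
      ring
    have s1 : 0 ≤ sin (a - p) :=
      Real.sin_nonneg_of_nonneg_of_le_pi (by linarith [H.ha0]) (by linarith [H.ha1])
    have s2 : 0 ≤ sin v := Real.sin_nonneg_of_nonneg_of_le_pi hv (by linarith)
    nlinarith [mul_nonneg s1 s2]
  have h7 : μ * (5 / 2 * cos (a - p - v)) ≤ (1 - exp (-(2 * l))) * cos (a - p - v) := by
    calc μ * (5 / 2 * cos (a - p - v)) ≤ μ * (2 * c0 + c1) := mul_le_mul_of_nonneg_left h1 hμ0.le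
      _ ≤ _ := h2
      _ ≤ cos (a - p - v) - exp (-(2 * l)) * cos (a - p - v) := by linarith
      _ = _ := by ring
  have h8 : μ * (5 / 2) ≤ 1 - exp (-(2 * l)) := by
    have : μ * (5 / 2) * cos (a - p - v) ≤ (1 - exp (-(2 * l))) * cos (a - p - v) := by linarith
    exact le_of_mul_le_mul_right this hc
  linarith

/-- `1 - T ≤ 2 l` -/
theorem one_sub_T (l : ℝ) : 1 - exp (-(2 * l)) ≤ 2 * l := by
  have := Real.add_one_le_exp (-(2 * l))
  linarith

theorem RF.l8 (H : RF k a v p g w l gr l2 μ τ c0 c1 N) (hl : 0 ≤ l) : l ≤ 1 / 8 := by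
  have := H.hk
  have := H.hl1
  nlinarith

theorem RF.l_le (H : RF k a v p g w l gr l2 μ τ c0 c1 N) (hl : 0 ≤ l) : l ≤ k * l / 8 := by
  have := H.hk
  nlinarith

theorem RF.lA (H : RF k a v p g w l gr l2 μ τ c0 c1 N) (hv : 0 ≤ v) (hp0 : p ≤ 0) : 0 ≤ l := by
  have hpi := Real.pi_pos
  have h3 := abs_lt.1 H.hp
  have h4 := H.δ16
  have h5 := abs_lt.1 H.f_lt
  have t1 : 0 ≤ tan (a - p) := Real.tan_nonneg_of_nonneg_of_le_pi_div_two
    (by linarith [H.ha0]) (by linarith [H.ha1])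
  have t2 : 0 ≤ tan v := Real.tan_nonneg_of_nonneg_of_le_pi_div_two hv (by linarith)
  exact (mul_nonneg t1 t2).trans (H.hF2 hp0 hv)

/-- `tan (a - p) * (k v) ≤ k l` -/
theorem RF.tanA (H : RF k a v p g w l gr l2 μ τ c0 c1 N) (hv : 0 ≤ v) (hp0 : p ≤ 0) :
    tan (a - p) * (k * v) ≤ k * l := by
  have hpi := Real.pi_pos
  have h3 := abs_lt.1 H.hp
  have h4 := H.δ16
  have h5 := abs_lt.1 H.f_lt
  have t1 : 0 ≤ tan (a - p) := Real.tan_nonneg_of_nonneg_of_le_pi_div_two
    (by linarith [H.ha0]) (by linarith [H.ha1])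
  have t2 : v ≤ tan v := Real.le_tan hv (by linarith)
  have h6 := H.hF2 hp0 hv
  have h7 : tan (a - p) * v ≤ l := (mul_le_mul_of_nonneg_left t2 t1).trans h6
  have := mul_le_mul_of_nonneg_left h7 H.k0.le
  linarith

/-- the general radius bound -/
theorem RF.radius (H : RF k a v p g w l gr l2 μ τ c0 c1 N) {m c c' ρ r q s0 D : ℝ}
    (ham : a ≤ m) (hm : m < π / 2) (hρ : tan m ≤ ρ) (hρ0 : 0 ≤ ρ) (hr : 0 ≤ r)
    (nr : r ^ 2 * (1 + ρ ^ 2) ≤ 1) (h1 : 0 ≤ p + v → a + (p + v) ≤ m + c)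
    (h2 : p + v ≤ 0 → a + π / (2 * k) ≤ m + c') (hc : 0 ≤ c) (hcc : c ≤ 1) (hc' : 0 ≤ c')
    (hcc' : c' ≤ 1) (hq0 : 0 ≤ q) (hq : q ≤ 9807 / 10000) (hqr : q ≤ r)
    (n1 : 0 ≤ 1 - c ^ 2 / 2 - ρ * c) (n2 : 0 ≤ 1 - c' ^ 2 / 2 - ρ * c')
    (hs0 : 0 ≤ s0) (hs1 : s0 ≤ q * (q + r * (1 - c ^ 2 / 2 - ρ * c)))
    (hs2 : s0 ≤ r * (1 - c' ^ 2 / 2 - ρ * c') * (r * (1 - c' ^ 2 / 2 - ρ * c') + q))
    (hD0 : 0 ≤ D) (hn : 1 < 4 * s0 * (D / 2 + (D / 2) ^ 3 / 6) ^ 2) : N ≤ D := by
  have hpi := Real.pi_pos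
  have hpi3 := Real.pi_gt_three
  have ha0 := H.ha0
  have hm0 : 0 ≤ m := ha0.le.trans ham
  have hcm := cos_ge_tan hm0 hm hr hρ nr
  have hca : r ≤ cos a := hcm.trans
    (Real.cos_le_cos_of_nonneg_of_le_pi ha0.le (by linarith) ham)
  have hδ := H.δ16
  have hδ0 := H.δ0
  have hf := abs_lt.1 H.f_lt
  apply pick_radius H.hN0 hD0 hs0 _ H.pick hn
  rcases le_total 0 (p + v) with h | h
  · have e0 := H.c0p h
    have b0 : q ≤ c0 := by
      rw [e0]
      rcases le_total a (π / (2 * k)) with h3 | h3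
      · refine hq.trans (cos_pi16 ?_)
        rw [abs_le]
        constructor <;> linarith
      · refine hqr.trans (hca.trans ?_)
        apply Real.cos_le_cos_of_nonneg_of_le_pi (by linarith) (by linarith [H.ha1]) (by linarith)
    have b1 : r * (1 - c ^ 2 / 2 - ρ * c) ≤ c1 := by
      rw [H.c1e]
      refine (cos_add_ge hm0 hm hr hρ nr hc hρ0 n1 (by linarith)).trans ?_
      apply Real.cos_le_cos_of_nonneg_of_le_pi (by linarith) (by linarith) (h1 h)
    have b2 : 0 ≤ r * (1 - c ^ 2 / 2 - ρ * c) := mul_nonneg hr n1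
    refine hs1.trans ?_
    apply mul_le_mul b0 (by linarith) (by linarith) H.hc0.le
  · have e0 := H.c0n h
    have b0 : r * (1 - c' ^ 2 / 2 - ρ * c') ≤ c0 := by
      rw [e0]
      refine (cos_add_ge hm0 hm hr hρ nr hc' hρ0 n2 (by linarith)).trans ?_
      apply Real.cos_le_cos_of_nonneg_of_le_pi (by linarith) (by linarith) (h2 h)
    have b1 : q ≤ c1 := by
      rw [H.c1e]
      rcases le_total 0 (a + (p + v)) with h3 | h3
      · refine hqr.trans (hca.trans ?_)
        apply Real.cos_le_cos_of_nonneg_of_le_pi h3 (by linarith [H.ha1]) (by linarith)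
      · refine hq.trans (cos_pi16 ?_)
        rw [abs_le]
        constructor <;> linarith
    have b2 : 0 ≤ r * (1 - c' ^ 2 / 2 - ρ * c') := mul_nonneg hr n2
    refine hs2.trans ?_
    apply mul_le_mul b0 (by linarith) (by linarith) H.hc0.le

/-- the radius is at most `1.135` always -/
theorem RF.radius_all (H : RF k a v p g w l gr l2 μ τ c0 c1 N) : N ≤ 227 / 200 := by
  have hpi := Real.pi_pos
  have hpi4 := Real.pi_lt_d4
  have hδ := H.δ16
  have hf := abs_lt.1 H.f_lt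
  have htan : tan a ≤ 1 := by
    rw [← Real.tan_pi_div_four]
    rcases eq_or_lt_of_le H.ha1 with h | h
    · rw [h]
    · exact (Real.tan_lt_tan_of_lt_of_lt_pi_div_two (by linarith [H.ha0]) (by linarith) h).le
  apply H.radius (m := a) (c := 19636 / 100000) (c' := 19636 / 100000) (ρ := 1) (r := 7071 / 10000)
    (q := 7071 / 10000) (s0 := 6997 / 10000) le_rfl (by linarith [H.ha1]) htan (by norm_num)
    (by norm_num) (by norm_num) (fun _ => by linarith) (fun _ => by linarith) <;> norm_num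

/-- `|k g| ≤ D`, `|k gr| ≤ D` -/
theorem RF.kg (H : RF k a v p g w l gr l2 μ τ c0 c1 N) {D : ℝ} (hD : N ≤ D) :
    |k * g| ≤ D ∧ |k * gr| ≤ D ∧ (k * gr) ^ 2 + (k * g) ^ 2 ≤ D ^ 2 := by
  have h1 := H.hN
  have h2 : N ^ 2 ≤ D ^ 2 := pow_le_pow_left₀ H.hN0 hD 2
  have hD0 : 0 ≤ D := H.hN0.trans hD
  refine ⟨?_, ?_, by linarith⟩
  · apply abs_le_of_sq_le_sq _ hD0
    nlinarith [sq_nonneg (k * gr)]
  · apply abs_le_of_sq_le_sq _ hD0
    nlinarith [sq_nonneg (k * g)]

/-- `|g| ≤ D/k`, as `k |g| ≤ D` -/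
theorem RF.g_le (H : RF k a v p g w l gr l2 μ τ c0 c1 N) {D : ℝ} (hD : N ≤ D) :
    |g| ≤ D / k := by
  have h1 := (H.kg hD).1
  rw [abs_mul, abs_of_pos H.k0] at h1
  rw [le_div_iff₀ H.k0]
  linarith

/-- `e^{-gr} ≤ 1.154` -/
theorem RF.egr (H : RF k a v p g w l gr l2 μ τ c0 c1 N) : exp (-gr) ≤ 577 / 500 := by
  have h1 := (H.kg H.radius_all).2.1
  have hk := H.hk
  have h2 : |-gr| ≤ 227 / 1600 := by
    rw [abs_neg]
    rw [abs_mul, abs_of_pos H.k0] at h1
    nlinarith [abs_nonneg gr]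
  have h3 := exp_le_quad (h2.trans (by norm_num))
  have h4 : (-gr) ^ 2 ≤ (227 / 1600) ^ 2 := by
    rw [← sq_abs]
    exact pow_le_pow_left₀ (abs_nonneg _) h2 2
  have h5 := le_abs_self (-gr)
  norm_num at h4 ⊢
  linarith

theorem RF.e2gr (H : RF k a v p g w l gr l2 μ τ c0 c1 N) : 179 / 250 ≤ exp (2 * gr) := by
  have h1 := (H.kg H.radius_all).2.1
  have hk := H.hk
  have h2 : |gr| ≤ 227 / 1600 := by
    rw [abs_mul, abs_of_pos H.k0] at h1
    nlinarith [abs_nonneg gr]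
  have h3 := Real.add_one_le_exp (2 * gr)
  have h5 := neg_abs_le gr
  linarith

/-- `|tau| ≤ 2` -/
theorem RF.tau_two (H : RF k a v p g w l gr l2 μ τ c0 c1 N) {n : ℝ}
    (h1 : |1 - exp (-(2 * l))| + exp (-(2 * l)) * (2 * |v|) + μ ≤ n)
    (h2 : 1 + 2 * n < 4 * (179 / 250 - μ)) : τ ≤ 2 := by
  have h3 := H.e2gr
  have h4 := H.τq
  have h5 := H.hτ0
  by_contra hcon
  push Not at hcon
  have h6 : τ * (|1 - exp (-(2 * l))| + exp (-(2 * l)) * (2 * |v|) + μ) ≤ τ * n :=
    mul_le_mul_of_nonneg_left h1 h5.le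
  have h7 : τ ^ 2 * (179 / 250 - μ) ≤ τ ^ 2 * (exp (2 * gr) - μ) :=
    mul_le_mul_of_nonneg_left (by linarith) (sq_nonneg τ)
  have h8 : 0 ≤ n := by
    refine le_trans ?_ h1
    have := H.hμ0
    positivity
  have h9 : 2 * (2 * (179 / 250 - μ) - n) < τ * (τ * (179 / 250 - μ) - n) := by
    have e1 : 0 < 179 / 250 - μ := by linarith
    have e2 : 2 * (179 / 250 - μ) - n < τ * (179 / 250 - μ) - n := by nlinarith
    have e3 : 0 < 2 * (179 / 250 - μ) - n := by linarith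
    nlinarith
  nlinarith

theorem RF.tauA (H : RF k a v p g w l gr l2 μ τ c0 c1 N) (hv : 0 ≤ v) (hp0 : p ≤ 0) : τ ≤ 2 := by
  have hl := H.lA hv hp0
  have hl8 := H.l8 hl
  have hu := one_sub_T l
  have hμ := H.muA hv hp0
  have hT : exp (-(2 * l)) ≤ 1 := Real.exp_le_one_iff.2 (by linarith)
  have hk := H.hk
  have hv1 := H.hv1
  have hv8 : v ≤ 7 / 40 := by nlinarith
  apply H.tau_two (n := 62 / 100)
  · rw [abs_of_nonneg (by linarith), abs_of_nonneg hv]
    nlinarith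
  · linarith

/-- the flow bound, case A -/
theorem RF.flowA (H : RF k a v p g w l gr l2 μ τ c0 c1 N) (hv : 0 ≤ v) (hp0 : p ≤ 0) {D t0 : ℝ}
    (hD : N ≤ D) (hD1 : D ≤ 227 / 200) (ht0 : τ ≤ t0) (hw0 : 0 ≤ w) :
    k * sin w ≤ exp (-gr) * (k * v + (1 - exp (-(2 * l))) / 2 *
      ((7 / 5 + 4 / 5 * t0) * D - 193 / 100 * (k * v) + 2 / 5 * t0 * (k * w))) := by
  have hpi := Real.pi_pos
  have hpi3 := Real.pi_gt_three
  have k0 := H.k0
  have hk := H.hk
  have hl := H.lA hv hp0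
  have hv8 : v ≤ 7 / 40 := by nlinarith [H.hv1]
  have hT : exp (-(2 * l)) ≤ 1 := Real.exp_le_one_iff.2 (by linarith)
  set T := exp (-(2 * l)) with hTd
  have hg := H.g_le hD
  have hG8 : D / k ≤ 227 / 1600 := by
    have h0 : 0 ≤ D := H.hN0.trans hD
    rw [div_le_iff₀ k0]
    nlinarith
  set G := D / k with hGd
  have hG0 : 0 ≤ G := (abs_nonneg g).trans hg
  have hkG : k * G = D := by
    rw [hGd]
    field_simp
  have hsw : 0 ≤ sin w := Real.sin_nonneg_of_nonneg_of_le_pi hw0 (by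
    linarith [(abs_lt.1 H.hw).2])
  have hμ := H.muA hv hp0
  have hμ0 := H.hμ0
  have hp := abs_lt.1 H.hp
  have hpg := abs_lt.1 H.hpg
  have hδ := H.δ16
  have hgu := (abs_le.1 hg).2
  have hgl := (abs_le.1 hg).1
  -- the bracket
  have b1 : sin g + T * sin (2 * v - g) ≤ 2 * v + (1 - T) * (G - 193 / 100 * v) := by
    have e1 : sin g + sin (2 * v - g) = 2 * (sin v * cos (v - g)) := by
      have a1 : sin g = sin v * cos (v - g) - cos v * sin (v - g) := by
        rw [← Real.sin_sub]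
        congr 1
        ring
      have a2 : sin (2 * v - g) = sin v * cos (v - g) + cos v * sin (v - g) := by
        rw [← Real.sin_add]
        congr 1
        ring
      rw [a1, a2]
      ring
    have e2 : sin v * cos (v - g) ≤ v := by
      have s0 : 0 ≤ sin v := Real.sin_nonneg_of_nonneg_of_le_pi hv (by linarith)
      have s1 := Real.sin_le hv
      have s2 := Real.cos_le_one (v - g)
      nlinarith
    have e3 : -sin (2 * v - g) ≤ G - 193 / 100 * v := by
      have a1 : sin (2 * v - g) = sin (2 * v) * cos g - cos (2 * v) * sin g := Real.sin_sub _ _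
      have a2 : cos (2 * v) * sin g ≤ G := by
        have s1 : |cos (2 * v) * sin g| ≤ |g| := by
          rw [abs_mul]
          have s2 := Real.abs_cos_le_one (2 * v)
          have s3 : |sin g| ≤ |g| := Real.abs_sin_le_abs
          calc |cos (2 * v)| * |sin g| ≤ 1 * |g| :=
                mul_le_mul s2 s3 (abs_nonneg _) (by norm_num)
            _ = |g| := one_mul _
        exact (le_abs_self _).trans (s1.trans hg)
      have a3 : 193 / 100 * v ≤ sin (2 * v) * cos g := by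
        have s1 := sin_ge3 (x := 2 * v) (by linarith)
        have s2 := Real.one_sub_sq_div_two_le_cos (x := g)
        have s3 : g ^ 2 ≤ (227 / 1600) ^ 2 := by
          rw [← sq_abs]
          exact pow_le_pow_left₀ (abs_nonneg _) (hg.trans hG8) 2
        have s4 : 9898 / 10000 ≤ cos g := by
          norm_num at s3
          linarith
        have s5 : 19591 / 10000 * v ≤ sin (2 * v) := by
          have : v ^ 3 ≤ (7 / 40) ^ 2 * v := by
            have : v ^ 2 ≤ (7 / 40) ^ 2 := pow_le_pow_left₀ hv hv8 2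
            nlinarith
          norm_num at this
          nlinarith
        calc 193 / 100 * v ≤ (19591 / 10000 * v) * (9898 / 10000) := by nlinarith
          _ ≤ _ := mul_le_mul s5 s4 (by norm_num) (by nlinarith)
      rw [a1]
      linarith
    have e4 : (1 - T) * -sin (2 * v - g) ≤ (1 - T) * (G - 193 / 100 * v) :=
      mul_le_mul_of_nonneg_left e3 (by linarith)
    have e5 : sin g + T * sin (2 * v - g) = (sin g + sin (2 * v - g)) +
        (1 - T) * -sin (2 * v - g) := by ring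
    rw [e5, e1]
    linarith
  have b2 : sin (2 * p + g) ≤ G := sin_le_of_le (by linarith) hG0 (by linarith)
  have b3 : sin (2 * p + g + (w + g)) ≤ 2 * G + w :=
    sin_le_of_le (by linarith) (by linarith) (by linarith)
  have b4 : μ * (sin (2 * p + g) + τ * sin (2 * p + g + (w + g))) ≤
      2 / 5 * (1 - T) * (G + t0 * (2 * G + w)) := by
    have e1 : τ * sin (2 * p + g + (w + g)) ≤ t0 * (2 * G + w) :=
      (mul_le_mul_of_nonneg_left b3 H.hτ0.le).trans
        (mul_le_mul_of_nonneg_right ht0 (by linarith))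
    have e2 : 0 ≤ t0 * (2 * G + w) := mul_nonneg (H.hτ0.le.trans ht0) (by linarith)
    calc μ * (sin (2 * p + g) + τ * sin (2 * p + g + (w + g))) ≤ μ * (G + t0 * (2 * G + w)) :=
          mul_le_mul_of_nonneg_left (by linarith) hμ0.le
      _ ≤ _ := mul_le_mul_of_nonneg_right hμ (by linarith)
  have b5 : 2 * sin w ≤ exp (-gr) * (sin g + T * sin (2 * v - g) +
      μ * (sin (2 * p + g) + τ * sin (2 * p + g + (w + g)))) := by
    rw [← H.flow]
    have := Real.one_le_cosh l2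
    nlinarith
  have b6 : exp (-gr) * (sin g + T * sin (2 * v - g) +
      μ * (sin (2 * p + g) + τ * sin (2 * p + g + (w + g)))) ≤
      exp (-gr) * (2 * v + (1 - T) * (G - 193 / 100 * v) +
        2 / 5 * (1 - T) * (G + t0 * (2 * G + w))) :=
    mul_le_mul_of_nonneg_left (by linarith) (Real.exp_pos _).le
  have b7 : k * (2 * v + (1 - T) * (G - 193 / 100 * v) +
        2 / 5 * (1 - T) * (G + t0 * (2 * G + w))) = 2 * (k * v + (1 - T) / 2 *
      ((7 / 5 + 4 / 5 * t0) * D - 193 / 100 * (k * v) + 2 / 5 * t0 * (k * w))) := by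
    rw [← hkG]
    ring
  have b8 := mul_le_mul_of_nonneg_left (b5.trans b6) k0.le
  have b9 : k * (exp (-gr) * (2 * v + (1 - T) * (G - 193 / 100 * v) +
        2 / 5 * (1 - T) * (G + t0 * (2 * G + w)))) = exp (-gr) * (2 * (k * v + (1 - T) / 2 *
      ((7 / 5 + 4 / 5 * t0) * D - 193 / 100 * (k * v) + 2 / 5 * t0 * (k * w)))) := by
    rw [← b7]
    ring
  rw [b9] at b8
  linarith

/-- crude bound of `σ_2`, case A -/
theorem RF.kwA (H : RF k a v p g w l gr l2 μ τ c0 c1 N) (hv : 0 ≤ v) (hp0 : p ≤ 0) (hw0 : 0 ≤ w) :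
    k * w ≤ 201 / 100 := by
  have hpi := Real.pi_pos
  have hpi4 := Real.pi_lt_d4
  have k0 := H.k0
  have hk := H.hk
  have hl := H.lA hv hp0
  have hl8 := H.l8 hl
  have hu := one_sub_T l
  have hT : exp (-(2 * l)) ≤ 1 := Real.exp_le_one_iff.2 (by linarith)
  have h1 := H.flowA hv hp0 H.radius_all le_rfl (H.tauA hv hp0) hw0
  set x := (1 - exp (-(2 * l))) / 2 with hx
  have hx0 : 0 ≤ x := by rw [hx]; linarith
  have hx1 : x ≤ 1 / 8 := by rw [hx]; linarith
  have hkw : 0 ≤ k * w := mul_nonneg k0.le hw0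
  have h2 : k * v + x * ((7 / 5 + 4 / 5 * 2) * (227 / 200) - 193 / 100 * (k * v) +
      2 / 5 * 2 * (k * w)) ≤ 14879 / 10000 + 1 / 10 * (k * w) := by
    have e1 : k * v * (1 - 193 / 100 * x) ≤ 7 / 5 * (1 - 193 / 100 * x) :=
      mul_le_mul_of_nonneg_right H.hv1 (by linarith)
    have e2 : x * (k * w) ≤ 1 / 8 * (k * w) := mul_le_mul_of_nonneg_right hx1 hkw
    nlinarith
  have h3 : k * sin w ≤ 577 / 500 * (14879 / 10000 + 1 / 10 * (k * w)) := by
    refine h1.trans ?_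
    calc _ ≤ exp (-gr) * (14879 / 10000 + 1 / 10 * (k * w)) :=
          mul_le_mul_of_nonneg_left h2 (Real.exp_pos _).le
      _ ≤ _ := mul_le_mul_of_nonneg_right H.egr (by linarith)
  have h4 : 2 / π * w ≤ sin w := Real.mul_le_sin hw0 (abs_lt.1 H.hw).2.le
  have h5 : 63660 / 100000 * w ≤ sin w := by
    refine le_trans ?_ h4
    apply mul_le_mul_of_nonneg_right _ hw0
    rw [le_div_iff₀ hpi]
    nlinarith
  have h6 : k * w ≤ 33 / 10 := by
    have := mul_le_mul_of_nonneg_left h5 k0.le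
    linarith
  have h7 : w ≤ 33 / 80 := by nlinarith
  have h8 := sin_ge3 hw0
  have h9 : 97163 / 100000 * w ≤ sin w := by
    have e1 : w ^ 3 ≤ (33 / 80) ^ 2 * w := by
      have : w ^ 2 ≤ (33 / 80) ^ 2 := pow_le_pow_left₀ hw0 h7 2
      nlinarith
    norm_num at e1
    linarith
  have := mul_le_mul_of_nonneg_left h9 k0.le
  linarith

/-- `φ > -π` in the cases with `|bracket|` small: general lower bound -/
theorem RF.kw_lower (H : RF k a v p g w l gr l2 μ τ c0 c1 N) {P Q : ℝ} (hP : 0 ≤ P) (hQ : 0 ≤ Q)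
    (hQ1 : Q ≤ 1 / 4) (hw0 : w ≤ 0)
    (h : -(sin g + exp (-(2 * l)) * sin (2 * v - g) +
      μ * (sin (2 * p + g) + τ * sin (2 * p + g + (w + g)))) ≤ 2 * (P / k + Q * -w)) :
    k * -w * (6366 / 10000 - 577 / 500 * Q) ≤ 577 / 500 * P := by
  have hpi := Real.pi_pos
  have hpi4 := Real.pi_lt_d4
  have k0 := H.k0
  have hw' : 0 ≤ -w := by linarith
  have h1 : 0 ≤ sin (-w) := Real.sin_nonneg_of_nonneg_of_le_pi hw' (by
    linarith [(abs_lt.1 H.hw).1])
  have h2 := H.flow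
  have h3 : 2 * sin (-w) ≤ exp (-gr) * (2 * (P / k + Q * -w)) := by
    have e1 : 2 * cosh l2 * sin (-w) = exp (-gr) * -(sin g + exp (-(2 * l)) * sin (2 * v - g) +
        μ * (sin (2 * p + g) + τ * sin (2 * p + g + (w + g)))) := by
      rw [Real.sin_neg]
      linarith
    have e2 := mul_le_mul_of_nonneg_left h (Real.exp_pos (-gr)).le
    have := Real.one_le_cosh l2
    nlinarith
  have h4 : k * sin (-w) ≤ 577 / 500 * (P + Q * (k * -w)) := by
    have e1 : 0 ≤ P / k + Q * -w := add_nonneg (div_nonneg hP k0.le) (mul_nonneg hQ hw')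
    have e2 : exp (-gr) * (2 * (P / k + Q * -w)) ≤ 577 / 500 * (2 * (P / k + Q * -w)) :=
      mul_le_mul_of_nonneg_right H.egr (by linarith)
    have e3 : k * (P / k + Q * -w) = P + Q * (k * -w) := by
      field_simp
    have e4 : sin (-w) ≤ 577 / 500 * (P / k + Q * -w) := by linarith
    have e5 := mul_le_mul_of_nonneg_left e4 k0.le
    nlinarith
  have h5 : 2 / π * -w ≤ sin (-w) := Real.mul_le_sin hw' (by linarith [(abs_lt.1 H.hw).1])
  have h6 : 6366 / 10000 * -w ≤ sin (-w) := by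
    refine le_trans ?_ h5
    apply mul_le_mul_of_nonneg_right _ hw'
    rw [le_div_iff₀ hpi]
    nlinarith
  have := mul_le_mul_of_nonneg_left h6 k0.le
  nlinarith

theorem RF.phi_gtA (H : RF k a v p g w l gr l2 μ τ c0 c1 N) (hv : 0 ≤ v) (hp0 : p ≤ 0) :
    -π < k * g + k * w := by
  have hpi := Real.pi_pos
  have hpi3 := Real.pi_gt_three
  have hpi4 := Real.pi_lt_d4
  have k0 := H.k0
  have hg := (abs_le.1 (H.kg H.radius_all).1).1
  rcases le_total 0 w with hw0 | hw0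
  · have := mul_nonneg k0.le hw0
    linarith
  · have hl := H.lA hv hp0
    have hl8 := H.l8 hl
    have hu := one_sub_T l
    have hT : exp (-(2 * l)) ≤ 1 := Real.exp_le_one_iff.2 (by linarith)
    have hT0 := Real.exp_pos (-(2 * l))
    have hμ := H.muA hv hp0
    have hμ0 := H.hμ0
    have hk := H.hk
    have hv8 : v ≤ 7 / 40 := by nlinarith [H.hv1]
    have hG := H.g_le H.radius_all
    have hp := abs_lt.1 H.hp
    have hpg := abs_lt.1 H.hpg
    set T := exp (-(2 * l)) with hTd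
    set δ := π / (2 * k) with hδ
    set G : ℝ := 227 / 200 / k with hGd
    have hkδ : k * δ = π / 2 := by rw [hδ]; field_simp
    have hkG : k * G = 227 / 200 := by rw [hGd]; field_simp
    have hδ16 : δ ≤ π / 16 := H.δ16
    have hG8 : G ≤ 227 / 1600 := by
      rw [hGd, div_le_iff₀ k0]
      linarith
    have h1 : -(1 - T) * G ≤ sin g + T * sin (2 * v - g) := by
      have e1 : sin (-g) ≤ sin (2 * v - g) := by
        have := abs_le.1 hG
        apply Real.sin_le_sin_of_le_of_le_pi_div_two <;> linarith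
      have e2 : |sin g| ≤ |g| := Real.abs_sin_le_abs
      have e3 : -G ≤ sin g := by
        have := (abs_le.1 (e2.trans hG)).1
        linarith
      rw [Real.sin_neg] at e1
      nlinarith
    have a1 : |sin (2 * p + g)| ≤ 2 * δ := by
      refine Real.abs_sin_le_abs.trans ?_
      rw [abs_le]
      constructor <;> linarith
    have a2 : |sin (2 * p + g + (w + g))| ≤ 2 * δ + -w := by
      refine Real.abs_sin_le_abs.trans ?_
      rw [abs_le]
      constructor <;> linarith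
    have h2 : -(μ * (sin (2 * p + g) + τ * sin (2 * p + g + (w + g)))) ≤
        2 / 5 * (1 - T) * (2 * δ + 2 * (2 * δ + -w)) := by
      have e1 := (abs_le.1 a1).1
      have e2 := (abs_le.1 a2).1
      have e3 : -(2 * (2 * δ + -w)) ≤ τ * sin (2 * p + g + (w + g)) := by
        have t1 := H.tauA hv hp0
        have t2 := H.hτ0
        have t3 : 0 ≤ 2 * δ + -w := (abs_nonneg _).trans a2
        nlinarith
      have e4 : 0 ≤ 2 * δ + 2 * (2 * δ + -w) := by
        have : 0 ≤ 2 * δ + -w := (abs_nonneg _).trans a2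
        have : 0 ≤ 2 * δ := (abs_nonneg _).trans a1
        linarith
      calc -(μ * (sin (2 * p + g) + τ * sin (2 * p + g + (w + g)))) =
            μ * -(sin (2 * p + g) + τ * sin (2 * p + g + (w + g))) := by ring
        _ ≤ μ * (2 * δ + 2 * (2 * δ + -w)) := mul_le_mul_of_nonneg_left (by linarith) hμ0.le
        _ ≤ _ := mul_le_mul_of_nonneg_right hμ e4
    have h3 := H.kw_lower (P := 62 / 100) (Q := 1 / 10) (by norm_num) (by norm_num) (by norm_num)
      hw0 (by
        have e1 : 0 ≤ 2 * δ + -w := (abs_nonneg _).trans a2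
        have e2 : k * ((1 - T) * G + 2 / 5 * (1 - T) * (2 * δ + 2 * (2 * δ + -w))) ≤
            k * (2 * (62 / 100 / k + 1 / 10 * -w)) := by
          have s1 : k * ((1 - T) * G + 2 / 5 * (1 - T) * (2 * δ + 2 * (2 * δ + -w))) =
              (1 - T) * (k * G + 12 / 5 * (k * δ) + 4 / 5 * (k * -w)) := by ring
          have s2 : k * (2 * (62 / 100 / k + 1 / 10 * -w)) = 2 * (62 / 100 + 1 / 10 * (k * -w)) := by
            field_simp
          rw [s1, s2, hkG, hkδ]
          have s3 : 0 ≤ k * -w := mul_nonneg k0.le (by linarith)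
          have s4 : 1 - T ≤ 1 / 4 := by linarith
          have s5 : (1 - T) * (227 / 200 + 12 / 5 * (π / 2) + 4 / 5 * (k * -w)) ≤
              1 / 4 * (227 / 200 + 12 / 5 * (π / 2) + 4 / 5 * (k * -w)) :=
            mul_le_mul_of_nonneg_right s4 (by linarith)
          linarith
        have e3 := le_of_mul_le_mul_left e2 k0
        linarith)
    have h4 : k * -w ≤ 14 / 10 := by linarith
    linarith

end EQS
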