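import Mathlib
import Pool.Agent.Lib.MP_226de1_co.E.TwoCase

/-! Block (II), case B (`v ≥ 0`, `arg p_{-2} > 0`). -/

set_option autoImplicit false

namespace EQS

open Real Set

variable {k a v p g w l gr l2 μ τ c0 c1 N : ℝ}

theorem RF.pvB (H : RF k a v p g w l gr l2 μ τ c0 c1 N) : p * v ≤ 97 / 10000 := by
  have hpi4 := Real.pi_lt_d4
  have h1 := H.f_lt
  have h2 := H.δ16
  have h3 : |p + v| ≤ 1964 / 10000 := by linarith
  have h4 : (p + v) ^ 2 ≤ (1964 / 10000) ^ 2 := by
    rw [← sq_abs]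
    exact pow_le_pow_left₀ (abs_nonneg _) h3 2
  nlinarith [sq_nonneg (p - v)]

theorem RF.muB (H : RF k a v p g w l gr l2 μ τ c0 c1 N) (hv : 0 ≤ v) (hp0 : 0 < p) :
    exp (-(2 * l)) - 1 ≤ 41 / 20 * (p * v) ∧
      μ ≤ 2 / 5 * (1 - exp (-(2 * l))) + 41 / 50 * (p * v) := by
  have hpi := Real.pi_pos
  have h1 := H.ratio
  have h2 := H.hμ
  have h3 := abs_lt.1 H.hp
  have h4 := H.δ16
  have h5 := abs_lt.1 H.f_lt
  have hμ0 := H.hμ0
  have hpv : 0 ≤ p * v := mul_nonneg hp0.le hv
  have hc : 0 < cos (a - p - v) := by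
    apply Real.cos_pos_of_mem_Ioo
    constructor
    · linarith [H.ha0]
    · linarith [H.ha1]
  have e : cos (a - p + v) - cos (a - p - v) = -(2 * (sin (a - p) * sin v)) := by
    rw [Real.cos_add, Real.cos_sub (a - p) v]
    ring
  have s2 : 0 ≤ sin v := Real.sin_nonneg_of_nonneg_of_le_pi hv (by linarith)
  set T := exp (-(2 * l)) with hT
  set c := cos (a - p - v) with hcd
  have h6 : μ * (5 / 2 * c) ≤ (1 - T) * c + (cos (a - p + v) - c) := by
    calc μ * (5 / 2 * c) ≤ μ * (2 * c0 + c1) := mul_le_mul_of_nonneg_left h1 hμ0.le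
      _ ≤ _ := h2
      _ = _ := by ring
  rw [e] at h6
  have h7 : 0 < μ * (5 / 2 * c) := by positivity
  rcases le_total 0 (a - p) with hm | hm
  · have s1 : 0 ≤ sin (a - p) :=
      Real.sin_nonneg_of_nonneg_of_le_pi hm (by linarith [H.ha1])
    have s3 := mul_nonneg s1 s2
    have h8 : μ * (5 / 2) * c ≤ (1 - T) * c := by linarith
    have h9 := le_of_mul_le_mul_right h8 hc
    constructor <;> linarith
  · have s1 : sin v ≤ v := Real.sin_le hv
    have s3 : -sin (a - p) ≤ p := by
      rw [← Real.sin_neg]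
      have := Real.sin_le (x := -(a - p)) (by linarith)
      linarith [H.ha0]
    have s4 : 0 ≤ -sin (a - p) := by
      rw [← Real.sin_neg]
      exact Real.sin_nonneg_of_nonneg_of_le_pi (by linarith) (by linarith [H.ha0])
    have s5 : -(2 * (sin (a - p) * sin v)) ≤ 2 * (p * v) := by
      have := mul_le_mul s3 s1 s2 hp0.le
      linarith
    have hc2 : 9807 / 10000 ≤ c := by
      rw [hcd]
      apply cos_pi16
      rw [abs_le]
      constructor
      · linarith [H.ha0]
      · linarith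
    have h8 : μ * (5 / 2 * c) ≤ (1 - T) * c + 2 * (p * v) := by linarith
    constructor
    · have h9 : (T - 1) * c ≤ 41 / 20 * (p * v) * c := by nlinarith
      exact le_of_mul_le_mul_right h9 hc
    · have h9 : μ * c ≤ (2 / 5 * (1 - T) + 41 / 50 * (p * v)) * c := by nlinarith
      exact le_of_mul_le_mul_right h9 hc

/-- `T ≤ 1.02`, `1 - T ≤ 1/4` , `μ ≤ 27/250` -/
theorem RF.TB (H : RF k a v p g w l gr l2 μ τ c0 c1 N) (hv : 0 ≤ v) (hp0 : 0 < p) :
    exp (-(2 * l)) ≤ 102 / 100 ∧ 1 - exp (-(2 * l)) ≤ 1 / 4 ∧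
      μ ≤ 2 / 5 * (1 - exp (-(2 * l))) + 8 / 1000 := by
  obtain ⟨h1, h2⟩ := H.muB hv hp0
  have h3 := H.pvB
  refine ⟨by linarith, ?_, by linarith⟩
  have h4 := one_sub_T l
  rcases le_total 0 l with hl | hl
  · have := H.l8 hl
    linarith
  · have : 1 ≤ exp (-(2 * l)) := Real.one_le_exp (by linarith)
    linarith

theorem RF.tauB (H : RF k a v p g w l gr l2 μ τ c0 c1 N) (hv : 0 ≤ v) (hp0 : 0 < p) : τ ≤ 2 := by
  obtain ⟨h1, h2, h3⟩ := H.TB hv hp0
  have hk := H.hk
  have hv8 : v ≤ 7 / 40 := by nlinarith [H.hv1]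
  have hT0 := Real.exp_pos (-(2 * l))
  have hμ : μ ≤ 108 / 1000 := by linarith
  apply H.tau_two (n := 63 / 100) _ (by linarith)
  rw [abs_of_nonneg hv]
  rcases le_total (exp (-(2 * l))) 1 with h4 | h4
  · rw [abs_of_nonneg (by linarith)]
    nlinarith
  · rw [abs_of_nonpos (by linarith)]
    nlinarith

theorem RF.radiusB (H : RF k a v p g w l gr l2 μ τ c0 c1 N) (hv : 0 ≤ v) (hp0 : 0 < p) :
    N ≤ 127 / 125 := by
  have hpi := Real.pi_pos
  have hpi4 := Real.pi_lt_d4
  have hδ := H.δ16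
  have hf := abs_lt.1 H.f_lt
  have htan : tan a ≤ 1 := by
    rw [← Real.tan_pi_div_four]
    rcases eq_or_lt_of_le H.ha1 with h | h
    · rw [h]
    · exact (Real.tan_lt_tan_of_lt_of_lt_pi_div_two (by linarith [H.ha0]) (by linarith) h).le
  apply H.radius (m := a) (c := 19636 / 100000) (c' := 0) (ρ := 1) (r := 7071 / 10000)
    (q := 7071 / 10000) (s0 := 8921 / 10000) le_rfl (by linarith [H.ha1]) htan (by norm_num)
    (by norm_num) (by norm_num) (fun _ => by linarith) (fun _ => by linarith) <;> norm_num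

/-- `φ < π` -/
theorem RF.phi_ltB (H : RF k a v p g w l gr l2 μ τ c0 c1 N) (hv : 0 ≤ v) (hp0 : 0 < p) :
    k * g + k * w < π := by
  have hpi := Real.pi_pos
  have hpi3 := Real.pi_gt_three
  have hpi4 := Real.pi_lt_d4
  have k0 := H.k0
  have hk := H.hk
  have hD := H.radiusB hv hp0
  obtain ⟨hkg, hkgr, hDD⟩ := H.kg hD
  rcases le_total w 0 with hw0 | hw0
  · have := mul_nonpos_of_nonneg_of_nonpos k0.le hw0
    linarith [(abs_le.1 hkg).2]
  obtain ⟨t1, t2, t3⟩ := H.TB hv hp0
  have hτ := H.tauB hv hp0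
  have hv8 : v ≤ 7 / 40 := by nlinarith [H.hv1]
  have hT0 := Real.exp_pos (-(2 * l))
  set T := exp (-(2 * l)) with hTd
  have hg := H.g_le hD
  set G : ℝ := 127 / 125 / k with hGd
  have hG8 : G ≤ 127 / 1000 := by
    rw [hGd, div_le_iff₀ k0]
    linarith
  have hG0 : 0 ≤ G := (abs_nonneg g).trans hg
  have hkG : k * G = 127 / 125 := by
    rw [hGd]
    field_simp
  have hsw : 0 ≤ sin w := Real.sin_nonneg_of_nonneg_of_le_pi hw0 (by
    linarith [(abs_lt.1 H.hw).2])
  have hμ0 := H.hμ0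
  have hp := abs_lt.1 H.hp
  have hpg := abs_lt.1 H.hpg
  have hδ := H.δ16
  have hgu := (abs_le.1 hg).2
  have hgl := (abs_le.1 hg).1
  have hkw : 0 ≤ k * w := mul_nonneg k0.le hw0
  have hkv : 0 ≤ k * v := mul_nonneg k0.le hv
  have hF := (abs_lt.1 H.hF).2
  -- the bracket
  have e1 : sin g + sin (2 * v - g) ≤ 2 * v := by
    have e0 : sin g + sin (2 * v - g) = 2 * (sin v * cos (v - g)) := by
      have a1 : sin g = sin v * cos (v - g) - cos v * sin (v - g) := by
        rw [← Real.sin_sub]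
        congr 1
        ring
      have a2 : sin (2 * v - g) = sin v * cos (v - g) + cos v * sin (v - g) := by
        rw [← Real.sin_add]
        congr 1
        ring
      rw [a1, a2]
      ring
    rw [e0]
    have s0 : 0 ≤ sin v := Real.sin_nonneg_of_nonneg_of_le_pi hv (by linarith)
    have s1 := Real.sin_le hv
    have s2 := Real.cos_le_one (v - g)
    nlinarith
  have e3 : -sin (2 * v - g) ≤ G - 193 / 100 * v := by
    have a1 : sin (2 * v - g) = sin (2 * v) * cos g - cos (2 * v) * sin g := Real.sin_sub _ _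
    have a2 : cos (2 * v) * sin g ≤ G := by
      have s1 : |cos (2 * v) * sin g| ≤ |g| := by
        rw [abs_mul]
        have s2 := Real.abs_cos_le_one (2 * v)
        have s3 : |sin g| ≤ |g| := Real.abs_sin_le_abs
        calc |cos (2 * v)| * |sin g| ≤ 1 * |g| :=
              mul_le_mul s2 s3 (abs_nonneg _) (by norm_num)
          _ = |g| := one_mul _
      exact (le_abs_self _).trans (s1.trans hg)
    have a3 : 193 / 100 * v ≤ sin (2 * v) * cos g := by
      have s1 := sin_ge3 (x := 2 * v) (by linarith)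
      have s2 := Real.one_sub_sq_div_two_le_cos (x := g)
      have s3 : g ^ 2 ≤ (127 / 1000) ^ 2 := by
        rw [← sq_abs]
        exact pow_le_pow_left₀ (abs_nonneg _) (hg.trans hG8) 2
      have s4 : 9898 / 10000 ≤ cos g := by
        norm_num at s3
        linarith
      have s5 : 19591 / 10000 * v ≤ sin (2 * v) := by
        have : v ^ 3 ≤ (7 / 40) ^ 2 * v := by
          have : v ^ 2 ≤ (7 / 40) ^ 2 := pow_le_pow_left₀ hv hv8 2
          nlinarith
        norm_num at this
        nlinarith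
      calc 193 / 100 * v ≤ (19591 / 10000 * v) * (9898 / 10000) := by nlinarith
        _ ≤ _ := mul_le_mul s5 s4 (by norm_num) (by nlinarith)
    rw [a1]
    linarith
  have e4 : sin (2 * v - g) ≤ 2 * v + G := sin_le_of_le (by linarith) (by linarith) (by linarith)
  have b2 : sin (2 * p + g) ≤ 2 * p + G := sin_le_of_le (by linarith) (by linarith) (by linarith)
  have b3 : sin (2 * p + g + (w + g)) ≤ 2 * p + 2 * G + w :=
    sin_le_of_le (by linarith) (by linarith) (by linarith)
  have b4 : μ * (sin (2 * p + g) + τ * sin (2 * p + g + (w + g))) ≤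
      μ * (6 * p + 5 * G + 2 * w) := by
    have e1 : τ * sin (2 * p + g + (w + g)) ≤ 2 * (2 * p + 2 * G + w) :=
      (mul_le_mul_of_nonneg_left b3 H.hτ0.le).trans
        (mul_le_mul_of_nonneg_right hτ (by linarith))
    apply mul_le_mul_of_nonneg_left (by linarith) hμ0.le
  -- `k * bracket / 2 ≤ 153/100 + 11/100 k w`
  have b5 : k * (sin g + T * sin (2 * v - g) +
      μ * (sin (2 * p + g) + τ * sin (2 * p + g + (w + g)))) ≤
      2 * (153 / 100 + 11 / 100 * (k * w)) := by
    have hkp : k * p ≤ 15708 / 10000 - k * v := by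
      have : k * (p + v) = k * p + k * v := by ring
      linarith
    have hkp0 : 0 ≤ k * p := mul_nonneg k0.le hp0.le
    have f1 : k * (μ * (6 * p + 5 * G + 2 * w)) ≤
        μ * (6 * (15708 / 10000 - k * v) + 5 * (127 / 125) + 2 * (k * w)) := by
      have : k * (μ * (6 * p + 5 * G + 2 * w)) =
          μ * (6 * (k * p) + 5 * (k * G) + 2 * (k * w)) := by ring
      rw [this, hkG]
      apply mul_le_mul_of_nonneg_left (by linarith) hμ0.le
    have f0 : 0 ≤ 6 * (15708 / 10000 - k * v) + 5 * (127 / 125) + 2 * (k * w) := by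
      linarith [H.hv1]
    have f2 := mul_le_mul_of_nonneg_left b4 k0.le
    rcases le_total T 1 with h | h
    · have g1 : sin g + T * sin (2 * v - g) ≤ 2 * v + (1 - T) * (G - 193 / 100 * v) := by
        have : (1 - T) * -sin (2 * v - g) ≤ (1 - T) * (G - 193 / 100 * v) :=
          mul_le_mul_of_nonneg_left e3 (by linarith)
        linarith
      have g2 := mul_le_mul_of_nonneg_left g1 k0.le
      have g3 : k * (2 * v + (1 - T) * (G - 193 / 100 * v)) =
          2 * (k * v) + (1 - T) * (127 / 125 - 193 / 100 * (k * v)) := by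
        rw [← hkG]
        ring
      have g4 : μ * (6 * (15708 / 10000 - k * v) + 5 * (127 / 125) + 2 * (k * w)) ≤
          (2 / 5 * (1 - T) + 8 / 1000) *
            (6 * (15708 / 10000 - k * v) + 5 * (127 / 125) + 2 * (k * w)) :=
        mul_le_mul_of_nonneg_right t3 f0
      set x := 1 - T with hx
      have hx0 : 0 ≤ x := by rw [hx]; linarith
      have g5 : x * (k * w) ≤ 1 / 4 * (k * w) := mul_le_mul_of_nonneg_right t2 hkw
      have g6 : (7 / 5 - k * v) * (2 - 193 / 100 * x - 12 / 5 * x - 48 / 1000) ≥ 0 :=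
        mul_nonneg (by linarith [H.hv1]) (by linarith)
      nlinarith
    · have g1 : sin g + T * sin (2 * v - g) ≤ 2 * v + (T - 1) * (2 * v + G) := by
        have : (T - 1) * sin (2 * v - g) ≤ (T - 1) * (2 * v + G) :=
          mul_le_mul_of_nonneg_left e4 (by linarith)
        linarith
      have g2 := mul_le_mul_of_nonneg_left g1 k0.le
      have g3 : k * (2 * v + (T - 1) * (2 * v + G)) =
          2 * (k * v) + (T - 1) * (2 * (k * v) + 127 / 125) := by
        rw [← hkG]
        ring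
      have g4 : μ * (6 * (15708 / 10000 - k * v) + 5 * (127 / 125) + 2 * (k * w)) ≤
          (8 / 1000) *
            (6 * (15708 / 10000 - k * v) + 5 * (127 / 125) + 2 * (k * w)) :=
        mul_le_mul_of_nonneg_right (by linarith) f0
      have g5 : (T - 1) * (2 * (k * v) + 127 / 125) ≤ 2 / 100 * (2 * (k * v) + 127 / 125) :=
        mul_le_mul_of_nonneg_right (by linarith) (by linarith)
      have := H.hv1
      linarith
  set B := 153 / 100 + 11 / 100 * (k * w) with hB
  have hB0 : 0 ≤ B := by rw [hB]; linarith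
  have b6 : k * sin w ≤ exp (-gr) * B := by
    have h1 : 2 * sin w ≤ exp (-gr) * (sin g + T * sin (2 * v - g) +
        μ * (sin (2 * p + g) + τ * sin (2 * p + g + (w + g)))) := by
      rw [← H.flow]
      have := Real.one_le_cosh l2
      nlinarith
    have h2 := mul_le_mul_of_nonneg_left h1 k0.le
    have h3 := mul_le_mul_of_nonneg_left b5 (Real.exp_pos (-gr)).le
    nlinarith
  have b7 : k * sin w ≤ 577 / 500 * B :=
    b6.trans (mul_le_mul_of_nonneg_right H.egr hB0)
  have h4 : 2 / π * w ≤ sin w := Real.mul_le_sin hw0 (abs_lt.1 H.hw).2.le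
  have h5 : 63660 / 100000 * w ≤ sin w := by
    refine le_trans ?_ h4
    apply mul_le_mul_of_nonneg_right _ hw0
    rw [le_div_iff₀ hpi]
    nlinarith
  have h6 : k * w ≤ 35 / 10 := by
    have := mul_le_mul_of_nonneg_left h5 k0.le
    rw [hB] at b7
    linarith
  have h7 : w ≤ 35 / 80 := by nlinarith
  have h8 := sin_ge3 hw0
  have h9 : 968 / 1000 * w ≤ sin w := by
    have e1 : w ^ 3 ≤ (35 / 80) ^ 2 * w := by
      have : w ^ 2 ≤ (35 / 80) ^ 2 := pow_le_pow_left₀ hw0 h7 2
      nlinarith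
    norm_num at e1
    linarith
  have h10 : k * w ≤ 21 / 10 := by
    have := mul_le_mul_of_nonneg_left h9 k0.le
    rw [hB] at b7
    linarith
  have hub := ub_phi hk hw0 hB0 (by norm_num) (by norm_num) hDD b6
  have hBB : B ≤ 1761 / 1000 := by rw [hB]; linarith
  have e5 : B ^ 2 ≤ (1761 / 1000) ^ 2 := pow_le_pow_left₀ hB0 hBB 2
  have e6 : (k * w) ^ 3 ≤ (21 / 10) ^ 3 := pow_le_pow_left₀ hkw h10 3
  norm_num at hub e5 e6
  linarith

/-- `φ > -π/2` -/
theorem RF.phi_gtB (H : RF k a v p g w l gr l2 μ τ c0 c1 N) (hv : 0 ≤ v) (hp0 : 0 < p) :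
    -(π / 2) < k * g + k * w := by
  have hpi := Real.pi_pos
  have hpi3 : 31415 / 10000 < π := by
    have := Real.pi_gt_d4
    linarith
  have hpi4 := Real.pi_lt_d4
  have k0 := H.k0
  have hk := H.hk
  have hD := H.radiusB hv hp0
  obtain ⟨hkg, hkgr, hDD⟩ := H.kg hD
  have hkgl := (abs_le.1 hkg).1
  rcases le_total 0 w with hw0 | hw0
  · have := mul_nonneg k0.le hw0
    linarith
  obtain ⟨t1, t2, t3⟩ := H.TB hv hp0
  have hτ := H.tauB hv hp0
  have hv8 : v ≤ 7 / 40 := by nlinarith [H.hv1]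
  have hT0 := Real.exp_pos (-(2 * l))
  set T := exp (-(2 * l)) with hTd
  have hg := H.g_le hD
  set G : ℝ := 127 / 125 / k with hGd
  have hG8 : G ≤ 127 / 1000 := by
    rw [hGd, div_le_iff₀ k0]
    linarith
  have hG0 : 0 ≤ G := (abs_nonneg g).trans hg
  have hkG : k * G = 127 / 125 := by
    rw [hGd]
    field_simp
  have hμ0 := H.hμ0
  have hμ : μ ≤ 108 / 1000 := by linarith
  have hp := abs_lt.1 H.hp
  have hpg := abs_lt.1 H.hpg
  have hδ := H.δ16
  have hgu := (abs_le.1 hg).2
  have hgl := (abs_le.1 hg).1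
  have hu : |1 - T| ≤ 1 / 4 := by
    rw [abs_le]
    constructor <;> linarith
  have h1 : -(|1 - T| * G) ≤ sin g + T * sin (2 * v - g) := by
    have e1 : sin (-g) ≤ sin (2 * v - g) := by
      apply Real.sin_le_sin_of_le_of_le_pi_div_two <;> linarith
    have e2 : |(1 - T) * sin g| ≤ |1 - T| * G := by
      rw [abs_mul]
      exact mul_le_mul_of_nonneg_left (Real.abs_sin_le_abs.trans hg) (abs_nonneg _)
    have e3 := (abs_le.1 e2).1
    rw [Real.sin_neg] at e1
    nlinarith
  have h2 : -(5 * G + 2 * -w) ≤ sin (2 * p + g) + τ * sin (2 * p + g + (w + g)) := by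
    have e1 : -G ≤ sin (2 * p + g) := by
      have e2 : -sin (2 * p + g) ≤ G := by
        rw [← Real.sin_neg]
        exact sin_le_of_le (by linarith) hG0 (by linarith)
      linarith
    have e3 : -(2 * G + -w) ≤ sin (2 * p + g + (w + g)) := by
      have e2 : -sin (2 * p + g + (w + g)) ≤ 2 * G + -w := by
        rw [← Real.sin_neg]
        exact sin_le_of_le (by linarith) (by linarith) (by linarith)
      linarith
    have e4 : -(2 * (2 * G + -w)) ≤ τ * sin (2 * p + g + (w + g)) := by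
      have : 0 ≤ 2 * G + -w := by linarith
      nlinarith [H.hτ0]
    linarith
  have hw' : 0 ≤ -w := by linarith
  have h3 : -(sin g + T * sin (2 * v - g) +
      μ * (sin (2 * p + g) + τ * sin (2 * p + g + (w + g)))) ≤
      1 / 4 * G + 108 / 1000 * (5 * G + 2 * -w) := by
    have e1 : |1 - T| * G ≤ 1 / 4 * G := mul_le_mul_of_nonneg_right hu hG0
    have e2 : -(μ * (sin (2 * p + g) + τ * sin (2 * p + g + (w + g)))) ≤
        μ * (5 * G + 2 * -w) := by
      have := mul_le_mul_of_nonneg_left h2 hμ0.le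
      linarith
    have e3 : μ * (5 * G + 2 * -w) ≤ 108 / 1000 * (5 * G + 2 * -w) :=
      mul_le_mul_of_nonneg_right hμ (by linarith)
    linarith
  -- first pass
  have h4 : -(sin g + T * sin (2 * v - g) +
      μ * (sin (2 * p + g) + τ * sin (2 * p + g + (w + g)))) ≤
      2 * ((4014 / 10000) / k + 108 / 1000 * -w) := by
    refine h3.trans ?_
    have e1 : k * (1 / 4 * G + 108 / 1000 * (5 * G + 2 * -w)) ≤
        k * (2 * ((4014 / 10000) / k + 108 / 1000 * -w)) := by
      have e2 : k * (1 / 4 * G + 108 / 1000 * (5 * G + 2 * -w)) =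
          1 / 4 * (k * G) + 108 / 1000 * (5 * (k * G) + 2 * (k * -w)) := by ring
      have e3 : k * (2 * ((4014 / 10000) / k + 108 / 1000 * -w)) =
          2 * (4014 / 10000 + 108 / 1000 * (k * -w)) := by
        field_simp
      rw [e2, e3, hkG]
      linarith
    exact le_of_mul_le_mul_left e1 k0
  have h5 := H.kw_lower (P := 4014 / 10000) (Q := 108 / 1000) (by norm_num) (by norm_num)
    (by norm_num) hw0 h4
  have h6 : k * -w ≤ 91 / 100 := by linarith
  have h7 : -w ≤ 91 / 800 := by nlinarith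
  -- second pass
  have h8 := sin_ge3 hw'
  have h9 : 997 / 1000 * -w ≤ sin (-w) := by
    have e1 : (-w) ^ 3 ≤ (91 / 800) ^ 2 * -w := by
      have : (-w) ^ 2 ≤ (91 / 800) ^ 2 := pow_le_pow_left₀ hw' h7 2
      nlinarith
    norm_num at e1
    linarith
  have h10 : 2 * sin (-w) ≤ 577 / 500 * (2 * ((4014 / 10000) / k + 108 / 1000 * -w)) := by
    have e1 : 2 * cosh l2 * sin (-w) = exp (-gr) * -(sin g + exp (-(2 * l)) * sin (2 * v - g) +
        μ * (sin (2 * p + g) + τ * sin (2 * p + g + (w + g)))) := by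
      rw [Real.sin_neg]
      linarith [H.flow]
    have e2 := mul_le_mul_of_nonneg_left h4 (Real.exp_pos (-gr)).le
    have e3 : 0 ≤ sin (-w) := Real.sin_nonneg_of_nonneg_of_le_pi hw' (by
      linarith [(abs_lt.1 H.hw).1])
    have e4 := Real.one_le_cosh l2
    have e5 : 2 * sin (-w) ≤ exp (-gr) * (2 * ((4014 / 10000) / k + 108 / 1000 * -w)) := by
      nlinarith
    refine e5.trans ?_
    apply mul_le_mul_of_nonneg_right H.egr
    have : 0 ≤ (4014 / 10000) / k := by positivity
    linarith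
  have h11 : k * -w * (997 / 1000 - 577 / 500 * (108 / 1000)) ≤ 577 / 500 * (4014 / 10000) := by
    have e1 := mul_le_mul_of_nonneg_left h9 k0.le
    have e2 := mul_le_mul_of_nonneg_left h10 k0.le
    have e3 : k * (577 / 500 * (2 * ((4014 / 10000) / k + 108 / 1000 * -w))) =
        577 / 500 * (2 * (4014 / 10000 + 108 / 1000 * (k * -w))) := by
      field_simp
    rw [e3] at e2
    linarith
  have h12 : k * -w ≤ 532 / 1000 := by linarith
  linarith

/-- `cos F cos ψ ≤ |b_1|` in case B -/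
theorem RF.cosB (H : RF k a v p g w l gr l2 μ τ c0 c1 N) (hv : 0 ≤ v) (hp0 : 0 < p) :
    cos (k * (p + v)) * cos (k * p) ≤ exp (k * l) := by
  have hpi := Real.pi_pos
  have hpi3 := Real.pi_gt_three
  have hpi4 := Real.pi_lt_d4
  have k0 := H.k0
  have hk := H.hk
  have hF := abs_lt.1 H.hF
  have hc : 0 < cos (k * (p + v)) := Real.cos_pos_of_mem_Ioo ⟨by linarith, hF.2⟩
  have h1 : cos (k * (p + v)) * cos (k * p) ≤ cos (k * (p + v)) := by
    have := Real.cos_le_one (k * p)
    nlinarith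
  refine h1.trans ?_
  rcases le_total 0 l with hl | hl
  · have : 1 ≤ exp (k * l) := Real.one_le_exp (mul_nonneg k0.le hl)
    exact (Real.cos_le_one _).trans this
  · have h2 := (H.muB hv hp0).1
    have h3 := Real.add_one_le_exp (-(2 * l))
    have h4 : -l ≤ 21 / 20 * (p * v) := by nlinarith [mul_nonneg hp0.le hv]
    have h5 := Real.add_one_le_exp (k * l)
    have h6 := Real.cos_le_one_sub_mul_cos_sq (x := k * (p + v)) (by
      rw [abs_le]
      constructor <;> linarith)
    have hpv : 0 ≤ p * v := mul_nonneg hp0.le hv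
    -- `2/π² F² ≥ 2/10 * 4 k² p v ≥ 21/20 k p v`
    have h7 : 21 / 20 * (k * (p * v)) ≤ 2 / π ^ 2 * (k * (p + v)) ^ 2 := by
      have e1 : 2 / 10 ≤ 2 / π ^ 2 := by
        apply div_le_div_of_nonneg_left (by norm_num) (by positivity)
        nlinarith
      have e2 : 4 * (k ^ 2 * (p * v)) ≤ (k * (p + v)) ^ 2 := by
        have : (k * (p + v)) ^ 2 - 4 * (k ^ 2 * (p * v)) = (k * (p - v)) ^ 2 := by ring
        nlinarith [sq_nonneg (k * (p - v))]
      have e3 : 8 * (k * (p * v)) ≤ k ^ 2 * (p * v) := by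
        have : k ^ 2 * (p * v) = k * (k * (p * v)) := by ring
        rw [this]
        apply mul_le_mul_of_nonneg_right hk (by positivity)
      have e4 : 2 / 10 * (k * (p + v)) ^ 2 ≤ 2 / π ^ 2 * (k * (p + v)) ^ 2 :=
        mul_le_mul_of_nonneg_right e1 (sq_nonneg _)
      have e5 : 0 ≤ k * (p * v) := by positivity
      linarith
    have h8 : k * -l ≤ k * (21 / 20 * (p * v)) := mul_le_mul_of_nonneg_left h4 k0.le
    linarith

/-- **Block (II), case B** -/
theorem RF.falseB (H : RF k a v p g w l gr l2 μ τ c0 c1 N) (hv : 0 ≤ v) (hp0 : 0 < p)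
    (hcos : cos (k * g + k * w) ≤ 0) : False := by
  have hpi := Real.pi_pos
  have h1 := H.phi_gtB hv hp0
  have h2 := H.phi_ltB hv hp0
  have h3 := H.hsin' hp0
  rcases lt_or_ge (k * g + k * w) 0 with h4 | h4
  · have : 0 < cos (k * g + k * w) := Real.cos_pos_of_mem_Ioo ⟨h1, by linarith⟩
    linarith
  · have := Real.sin_nonneg_of_nonneg_of_le_pi h4 h2.le
    linarith

end EQS
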