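import Mathlib
import Pool.Agent.Lib.MP_226de1_co.E.TwoCase

/-! Block (II), case C (`v < 0`; then `arg f_{-1} < 0`, `arg p_{-2} < 0`, `|v| ≤ 0.42 l`). -/

set_option autoImplicit false

namespace EQS

open Real Set

variable {k a v p g w l gr l2 μ τ c0 c1 N : ℝ}

/-- `V ≤ 0.42 l` from `sin (2P + 2V) < e^{2l} sin 2P` -/
theorem V_le {P V l : ℝ} (hP : 0 < P) (hV : 0 < V) (hPV : 2 * P + V ≤ π / 8)
    (h : sin (2 * P + 2 * V) < exp (2 * l) * sin (2 * P)) : 0 < l ∧ V ≤ 21 / 50 * l := by
  have hpi := Real.pi_pos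
  have hpi3 := Real.pi_gt_three
  have hpi4 := Real.pi_lt_d4
  have hs : 0 < sin (2 * P) := Real.sin_pos_of_pos_of_lt_pi (by linarith) (by linarith)
  have hl : 0 < l := by
    by_contra hcon
    push Not at hcon
    have h1 : exp (2 * l) ≤ 1 := Real.exp_le_one_iff.2 (by linarith)
    have h2 : sin (2 * P) ≤ sin (2 * P + 2 * V) := by
      apply Real.sin_le_sin_of_le_of_le_pi_div_two <;> linarith
    nlinarith
  refine ⟨hl, ?_⟩
  set A := 2 * P + V with hA
  have hA0 : 0 < A := by rw [hA]; linarith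
  have e1 : 2 * P + 2 * V = A + V := by rw [hA]; ring
  have e2 : 2 * P = A - V := by rw [hA]; ring
  rw [e1, e2, Real.sin_add, Real.sin_sub] at h
  have hsA : sin A ≤ 38271 / 100000 := by
    have h1 : sin A ≤ sin (3927 / 10000) := by
      apply Real.sin_le_sin_of_le_of_le_pi_div_two <;> linarith
    have h2 := sin_le5 (x := 3927 / 10000) (by norm_num)
    norm_num at h2
    linarith
  have hcA : 92386 / 100000 ≤ cos A := by
    have h1 : cos (3927 / 10000) ≤ cos A := by
      apply Real.cos_le_cos_of_nonneg_of_le_pi hA0.le (by linarith) (by linarith)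
    have h2 := cos_ge6 (x := 3927 / 10000) (by norm_num)
    norm_num at h2
    linarith
  have hsA0 : 0 < sin A := Real.sin_pos_of_pos_of_lt_pi hA0 (by linarith)
  have hV2 : V < π / 2 := by linarith
  have hcV : 0 < cos V := Real.cos_pos_of_mem_Ioo ⟨by linarith, hV2⟩
  have hsV : 0 < sin V := Real.sin_pos_of_pos_of_lt_pi hV (by linarith)
  have hE : 1 < exp (2 * l) := Real.one_lt_exp_iff.2 (by linarith)
  -- `e^{2l} - 1 ≤ l (e^{2l} + 1)`
  have ht : exp (2 * l) - 1 ≤ l * (exp (2 * l) + 1) := by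
    have h1 := sinh_le_mul_cosh' hl.le
    have h2 : exp (2 * l) = exp l * exp l := by
      rw [← Real.exp_add]
      congr 1
      ring
    have h3 : exp l * exp (-l) = 1 := by rw [← Real.exp_add, add_neg_cancel, Real.exp_zero]
    rw [Real.sinh_eq, Real.cosh_eq] at h1
    have h4 := Real.exp_pos l
    nlinarith
  have h5 : (exp (2 * l) + 1) * (cos A * sin V) < (exp (2 * l) - 1) * (sin A * cos V) := by
    nlinarith
  have h6 : (exp (2 * l) + 1) * (cos A * sin V) < (exp (2 * l) + 1) * (l * (sin A * cos V)) := by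
    refine h5.trans_le ?_
    have := mul_le_mul_of_nonneg_right ht (mul_pos hsA0 hcV).le
    linarith
  have h7 : cos A * sin V < l * (sin A * cos V) := lt_of_mul_lt_mul_left h6 (by linarith)
  have h8 : V * cos V ≤ sin V := by
    have := Real.le_tan hV.le hV2
    rw [Real.tan_eq_sin_div_cos, le_div_iff₀ hcV] at this
    exact this
  have h9 : 92386 / 100000 * (V * cos V) < l * (38271 / 100000 * cos V) := by
    calc 92386 / 100000 * (V * cos V) ≤ cos A * sin V :=
          mul_le_mul hcA h8 (by positivity) (by linarith)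
      _ < l * (sin A * cos V) := h7
      _ ≤ _ := by
          apply mul_le_mul_of_nonneg_left _ hl.le
          exact mul_le_mul_of_nonneg_right hsA hcV.le
  have h10 : (92386 / 100000 * V) * cos V < (38271 / 100000 * l) * cos V := by linarith
  have h11 := lt_of_mul_lt_mul_right h10 hcV.le
  linarith

theorem RF.muC (H : RF k a v p g w l gr l2 μ τ c0 c1 N) (hv : v < 0) (hp0 : p < 0) (hl : 0 < l)
    (hV : -v ≤ 21 / 50 * l) : μ ≤ 131 / 100 * l := by
  have hpi := Real.pi_pos
  have hpi3 := Real.pi_gt_three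
  have hpi4 := Real.pi_lt_d4
  have h1 := H.ratio
  have h2 := H.hμ
  have h3 := abs_lt.1 H.hp
  have h4 := H.δ16
  have h5 := abs_lt.1 H.f_lt
  have hμ0 := H.hμ0
  have hu := one_sub_T l
  have hl8 := H.l8 hl.le
  set T := exp (-(2 * l)) with hT
  have hT1 : T ≤ 1 := Real.exp_le_one_iff.2 (by linarith)
  have e0 : a - p - v = a + -(p + v) := by ring
  have hm1 : a - p - v ≤ π / 4 + π / 16 := by
    have := H.ha1
    linarith
  have hc1 : 5546 / 10000 ≤ cos (a - p - v) := by
    have h6 : cos (π / 4 + π / 16) ≤ cos (a - p - v) := by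
      apply Real.cos_le_cos_of_nonneg_of_le_pi (by linarith [H.ha0]) (by linarith) hm1
    refine le_trans ?_ h6
    have h7 := cos_add_ge (m := π / 4) (ρ := 1) (r := 7071 / 10000) (c := π / 16) (by positivity)
      (by linarith) (by norm_num) (by rw [Real.tan_pi_div_four]) (by norm_num) (by positivity)
      (by norm_num) (by nlinarith) (by linarith)
    refine le_trans ?_ h7
    have h8 : (π / 16) ^ 2 ≤ (19635 / 100000) ^ 2 := by
      apply pow_le_pow_left₀ (by positivity)
      linarith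
    norm_num at h8 ⊢
    linarith
  set c := cos (a - p - v) with hcd
  have e : cos (a - p + v) - c = 2 * (sin (a - p) * sin (-v)) := by
    rw [hcd, Real.cos_add, Real.cos_sub (a - p) v, Real.sin_neg]
    ring
  have s1 : sin (-v) ≤ -v := Real.sin_le (by linarith)
  have s2 : 0 ≤ sin (-v) := Real.sin_nonneg_of_nonneg_of_le_pi (by linarith) (by linarith)
  have s3 : sin (a - p) ≤ 84 / 100 := by
    have h6 : sin (a - p) ≤ sin (98175 / 100000) := by
      apply Real.sin_le_sin_of_le_of_le_pi_div_two (by linarith [H.ha0]) (by linarith)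
      linarith [H.ha1]
    have h7 := sin_le5 (x := 98175 / 100000) (by norm_num)
    norm_num at h7
    linarith
  have s4 : 0 ≤ sin (a - p) :=
    Real.sin_nonneg_of_nonneg_of_le_pi (by linarith [H.ha0]) (by linarith [H.ha1])
  have h6 : μ * (5 / 2 * c) ≤ (1 - T) * c + 2 * (84 / 100 * (21 / 50 * l)) := by
    have h7 : sin (a - p) * sin (-v) ≤ 84 / 100 * (21 / 50 * l) :=
      mul_le_mul s3 (s1.trans hV) s2 (by norm_num)
    calc μ * (5 / 2 * c) ≤ μ * (2 * c0 + c1) := mul_le_mul_of_nonneg_left h1 hμ0.le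
      _ ≤ cos (a - p + v) - T * c := h2
      _ = (1 - T) * c + 2 * (sin (a - p) * sin (-v)) := by rw [← e]; ring
      _ ≤ _ := by linarith
  have h7 : μ * c ≤ (131 / 100 * l) * c := by
    have h8 : (1 - T) * c ≤ 2 * l * c := mul_le_mul_of_nonneg_right hu (by linarith)
    have h9 : l * (5546 / 10000) ≤ l * c := mul_le_mul_of_nonneg_left hc1 hl.le
    linarith
  exact le_of_mul_le_mul_right h7 (by linarith)

theorem RF.tauC (H : RF k a v p g w l gr l2 μ τ c0 c1 N) (hv : v < 0) (hp0 : p < 0) (hl : 0 < l)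
    (hV : -v ≤ 21 / 50 * l) : τ ≤ 2 := by
  have hμ := H.muC hv hp0 hl hV
  have hl8 := H.l8 hl.le
  have hu := one_sub_T l
  have hT : exp (-(2 * l)) ≤ 1 := Real.exp_le_one_iff.2 (by linarith)
  have hT0 := Real.exp_pos (-(2 * l))
  apply H.tau_two (n := 53 / 100) _ (by linarith)
  rw [abs_of_nonneg (by linarith), abs_of_neg hv]
  nlinarith

/-- `φ > -π` -/
theorem RF.phi_gtC (H : RF k a v p g w l gr l2 μ τ c0 c1 N) (hv : v < 0) (hp0 : p < 0) (hl : 0 < l)
    (hV : -v ≤ 21 / 50 * l) : -π < k * g + k * w := by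
  have hpi := Real.pi_pos
  have hpi3 : 31415 / 10000 < π := by
    have := Real.pi_gt_d4
    linarith
  have hpi4 := Real.pi_lt_d4
  have k0 := H.k0
  have hk := H.hk
  have hD := H.radius_all
  obtain ⟨hkg, hkgr, hDD⟩ := H.kg hD
  have hkgl := (abs_le.1 hkg).1
  rcases le_total 0 w with hw0 | hw0
  · have := mul_nonneg k0.le hw0
    linarith
  have hμ := H.muC hv hp0 hl hV
  have hμ0 := H.hμ0
  have hτ := H.tauC hv hp0 hl hV
  have hl8 := H.l8 hl.le
  have hu := one_sub_T l
  have hT0 := Real.exp_pos (-(2 * l))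
  have hll := H.hl1
  set T := exp (-(2 * l)) with hTd
  have hT : T ≤ 1 := Real.exp_le_one_iff.2 (by linarith)
  have hg := H.g_le hD
  set G : ℝ := 227 / 200 / k with hGd
  have hG8 : G ≤ 227 / 1600 := by
    rw [hGd, div_le_iff₀ k0]
    linarith
  have hG0 : 0 ≤ G := (abs_nonneg g).trans hg
  have hkG : k * G = 227 / 200 := by
    rw [hGd]
    field_simp
  have hp := abs_lt.1 H.hp
  have hpg := abs_lt.1 H.hpg
  have hδ16 := H.δ16
  set δ := π / (2 * k) with hδ
  have hkδ : k * δ = π / 2 := by rw [hδ]; field_simp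
  have hgu := (abs_le.1 hg).2
  have hgl := (abs_le.1 hg).1
  have hw' : 0 ≤ -w := by linarith
  have h1 : -(sin g + T * sin (2 * v - g)) ≤ (1 - T) * G + 2 * -v := by
    have e1 : sin (g + 2 * -v) - sin g ≤ 2 * -v := by
      have e2 : |sin (g + 2 * -v) - sin g| ≤ |g + 2 * -v - g| := Real.abs_sin_sub_sin_le _ _
      have e3 : |g + 2 * -v - g| = 2 * -v := by
        rw [add_sub_cancel_left, abs_of_nonneg (by linarith)]
      rw [e3] at e2
      exact (le_abs_self _).trans e2
    have e4 : sin (2 * v - g) = -sin (g + 2 * -v) := by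
      rw [← Real.sin_neg]
      congr 1
      ring
    have e5 : -sin g ≤ G := by
      have := (abs_le.1 (Real.abs_sin_le_abs.trans hg : |sin g| ≤ G)).1
      linarith
    rw [e4]
    have e6 : T * (sin (g + 2 * -v) - sin g) ≤ 1 * (2 * -v) := by
      calc T * (sin (g + 2 * -v) - sin g) ≤ T * (2 * -v) := mul_le_mul_of_nonneg_left e1 hT0.le
        _ ≤ 1 * (2 * -v) := mul_le_mul_of_nonneg_right hT (by linarith)
    have e7 : (1 - T) * -sin g ≤ (1 - T) * G := mul_le_mul_of_nonneg_left e5 (by linarith)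
    linarith
  have a1 : |sin (2 * p + g)| ≤ 2 * δ := by
    refine Real.abs_sin_le_abs.trans ?_
    rw [abs_le]
    constructor <;> linarith
  have a2 : |sin (2 * p + g + (w + g))| ≤ 2 * δ + -w := by
    refine Real.abs_sin_le_abs.trans ?_
    rw [abs_le]
    constructor <;> linarith
  have h2 : -(μ * (sin (2 * p + g) + τ * sin (2 * p + g + (w + g)))) ≤
      131 / 100 * l * (6 * δ + 2 * -w) := by
    have e1 := (abs_le.1 a1).1
    have e2 := (abs_le.1 a2).1
    have t3 : 0 ≤ 2 * δ + -w := (abs_nonneg _).trans a2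
    have t4 : 0 ≤ 2 * δ := (abs_nonneg _).trans a1
    have e3 : -(2 * (2 * δ + -w)) ≤ τ * sin (2 * p + g + (w + g)) := by
      have t2 := H.hτ0
      nlinarith
    calc -(μ * (sin (2 * p + g) + τ * sin (2 * p + g + (w + g)))) =
          μ * -(sin (2 * p + g) + τ * sin (2 * p + g + (w + g))) := by ring
      _ ≤ μ * (6 * δ + 2 * -w) := mul_le_mul_of_nonneg_left (by linarith) hμ0.le
      _ ≤ _ := mul_le_mul_of_nonneg_right hμ (by linarith)
  have h4 : -(sin g + T * sin (2 * v - g) +
      μ * (sin (2 * p + g) + τ * sin (2 * p + g + (w + g)))) ≤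
      2 * ((1334 / 1000) / k + 164 / 1000 * -w) := by
    have e1 : k * ((1 - T) * G + 2 * -v + 131 / 100 * l * (6 * δ + 2 * -w)) ≤
        k * (2 * ((1334 / 1000) / k + 164 / 1000 * -w)) := by
      have e2 : k * ((1 - T) * G + 2 * -v + 131 / 100 * l * (6 * δ + 2 * -w)) =
          (1 - T) * (k * G) + 2 * (k * -v) + 131 / 100 * l * (6 * (k * δ) + 2 * (k * -w)) := by
        ring
      have e3 : k * (2 * ((1334 / 1000) / k + 164 / 1000 * -w)) =
          2 * (1334 / 1000 + 164 / 1000 * (k * -w)) := by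
        field_simp
      rw [e2, e3, hkG, hkδ]
      have e4 : k * -v ≤ k * (21 / 50 * l) := mul_le_mul_of_nonneg_left hV k0.le
      have e5 : 0 ≤ k * -w := mul_nonneg k0.le hw'
      have e6 : l * (k * -w) ≤ 1 / 8 * (k * -w) := mul_le_mul_of_nonneg_right hl8 e5
      have e7 : l * π ≤ 1 / 8 * π := mul_le_mul_of_nonneg_right hl8 hpi.le
      linarith
    have e2 := le_of_mul_le_mul_left e1 k0
    linarith
  have h5 := H.kw_lower (P := 1334 / 1000) (Q := 164 / 1000) (by norm_num) (by norm_num)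
    (by norm_num) hw0 h4
  have h6 : k * -w ≤ 345 / 100 := by linarith
  have h7 : -w ≤ 345 / 800 := by nlinarith
  have h8 := sin_ge3 hw'
  have h9 : 969 / 1000 * -w ≤ sin (-w) := by
    have e1 : (-w) ^ 3 ≤ (345 / 800) ^ 2 * -w := by
      have : (-w) ^ 2 ≤ (345 / 800) ^ 2 := pow_le_pow_left₀ hw' h7 2
      nlinarith
    norm_num at e1
    linarith
  have h10 : 2 * sin (-w) ≤ 577 / 500 * (2 * ((1334 / 1000) / k + 164 / 1000 * -w)) := by
    have e1 : 2 * cosh l2 * sin (-w) = exp (-gr) * -(sin g + exp (-(2 * l)) * sin (2 * v - g) +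
        μ * (sin (2 * p + g) + τ * sin (2 * p + g + (w + g)))) := by
      rw [Real.sin_neg]
      linarith [H.flow]
    have e2 := mul_le_mul_of_nonneg_left h4 (Real.exp_pos (-gr)).le
    have e3 : 0 ≤ sin (-w) := Real.sin_nonneg_of_nonneg_of_le_pi hw' (by
      linarith [(abs_lt.1 H.hw).1])
    have e4 := Real.one_le_cosh l2
    have e5 : 2 * sin (-w) ≤ exp (-gr) * (2 * ((1334 / 1000) / k + 164 / 1000 * -w)) := by
      nlinarith
    refine e5.trans ?_
    apply mul_le_mul_of_nonneg_right H.egr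
    have : 0 ≤ (1334 / 1000) / k := by positivity
    linarith
  have h11 : k * -w * (969 / 1000 - 577 / 500 * (164 / 1000)) ≤ 577 / 500 * (1334 / 1000) := by
    have e1 := mul_le_mul_of_nonneg_left h9 k0.le
    have e2 := mul_le_mul_of_nonneg_left h10 k0.le
    have e3 : k * (577 / 500 * (2 * ((1334 / 1000) / k + 164 / 1000 * -w))) =
        577 / 500 * (2 * (1334 / 1000 + 164 / 1000 * (k * -w))) := by
      field_simp
    rw [e3] at e2
    linarith
  have h12 : k * -w ≤ 2 := by linarith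
  linarith

/-- **Block (II), case C** -/
theorem RF.falseC (H : RF k a v p g w l gr l2 μ τ c0 c1 N) (hv : v < 0) (hp0 : p < 0) (hl : 0 < l)
    (hV : -v ≤ 21 / 50 * l) (hcos : cos (k * g + k * w) ≤ 0) : False := by
  have hpi := Real.pi_pos
  have hpi3 : 31415 / 10000 < π := by
    have := Real.pi_gt_d4
    linarith
  have hpi4 := Real.pi_lt_d4
  have k0 := H.k0
  have hk := H.hk
  have hD := H.radius_all
  obtain ⟨hkg, hkgr, hDD⟩ := H.kg hD
  have hkgu := (abs_le.1 hkg).2
  have hφ1 := H.phi_gtC hv hp0 hl hV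
  have hsn := H.hsin hp0.le
  have hφ : π / 2 ≤ k * g + k * w := by
    by_contra hcon
    push Not at hcon
    rcases lt_or_ge (k * g + k * w) 0 with h3 | h3
    · have := Real.sin_neg_of_neg_of_neg_pi_lt h3 hφ1
      linarith
    · have : 0 < cos (k * g + k * w) := Real.cos_pos_of_mem_Ioo ⟨by linarith, hcon⟩
      linarith
  have hw0 : 0 ≤ w := by
    by_contra hcon
    push Not at hcon
    have := mul_neg_of_pos_of_neg k0 hcon
    linarith
  have hkw0 : 0 ≤ k * w := mul_nonneg k0.le hw0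
  have hμ := H.muC hv hp0 hl hV
  have hμ0 := H.hμ0
  have hτ := H.tauC hv hp0 hl hV
  have hl8 := H.l8 hl.le
  have hll := H.l_le hl.le
  have hu := one_sub_T l
  have hT0 := Real.exp_pos (-(2 * l))
  set T := exp (-(2 * l)) with hTd
  have hT : T ≤ 1 := Real.exp_le_one_iff.2 (by linarith)
  have hg := H.g_le hD
  set G : ℝ := 227 / 200 / k with hGd
  have hG8 : G ≤ 227 / 1600 := by
    rw [hGd, div_le_iff₀ k0]
    linarith
  have hG0 : 0 ≤ G := (abs_nonneg g).trans hg
  have hkG : k * G = 227 / 200 := by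
    rw [hGd]
    field_simp
  have hsw : 0 ≤ sin w := Real.sin_nonneg_of_nonneg_of_le_pi hw0 (by
    linarith [(abs_lt.1 H.hw).2])
  have hp := abs_lt.1 H.hp
  have hpg := abs_lt.1 H.hpg
  have hδ16 := H.δ16
  have hgu := (abs_le.1 hg).2
  have hgl := (abs_le.1 hg).1
  have b1 : sin g + T * sin (2 * v - g) ≤ (1 - T) * G := by
    have e1 : sin g ≤ sin (g - 2 * v) := by
      apply Real.sin_le_sin_of_le_of_le_pi_div_two <;> nlinarith
    have e2 : sin (2 * v - g) = -sin (g - 2 * v) := by
      rw [← Real.sin_neg]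
      congr 1
      ring
    have e3 : sin g ≤ G := (le_abs_self _).trans (Real.abs_sin_le_abs.trans hg)
    rw [e2]
    have e4 : (1 - T) * sin g ≤ (1 - T) * G := mul_le_mul_of_nonneg_left e3 (by linarith)
    nlinarith
  have b2 : sin (2 * p + g) ≤ G := sin_le_of_le (by linarith) hG0 (by linarith)
  have b3 : sin (2 * p + g + (w + g)) ≤ 2 * G + w :=
    sin_le_of_le (by linarith) (by linarith) (by linarith)
  have b4 : μ * (sin (2 * p + g) + τ * sin (2 * p + g + (w + g))) ≤
      131 / 100 * l * (5 * G + 2 * w) := by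
    have e1 : τ * sin (2 * p + g + (w + g)) ≤ 2 * (2 * G + w) :=
      (mul_le_mul_of_nonneg_left b3 H.hτ0.le).trans
        (mul_le_mul_of_nonneg_right hτ (by linarith))
    calc μ * (sin (2 * p + g) + τ * sin (2 * p + g + (w + g))) ≤ μ * (5 * G + 2 * w) :=
          mul_le_mul_of_nonneg_left (by linarith) hμ0.le
      _ ≤ _ := mul_le_mul_of_nonneg_right hμ (by linarith)
  set L := k * l with hL
  have hL0 : 0 < L := mul_pos k0 hl
  have hL1 : L ≤ 1 := H.hl1
  have b5 : k * (sin g + T * sin (2 * v - g) +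
      μ * (sin (2 * p + g) + τ * sin (2 * p + g + (w + g)))) ≤
      2 * (L * (607 / 1000 + 164 / 1000 * (k * w))) := by
    have f1 : k * ((1 - T) * G + 131 / 100 * l * (5 * G + 2 * w)) =
        (1 - T) * (k * G) + 131 / 100 * l * (5 * (k * G) + 2 * (k * w)) := by ring
    have f2 := mul_le_mul_of_nonneg_left (add_le_add b1 b4) k0.le
    rw [f1, hkG] at f2
    have f3 : l * (k * w) ≤ L / 8 * (k * w) := mul_le_mul_of_nonneg_right hll hkw0
    refine f2.trans ?_
    nlinarith
  have b7 : k * sin w ≤ 577 / 500 * (L * (607 / 1000 + 164 / 1000 * (k * w))) := by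
    have h1 : 2 * sin w ≤ exp (-gr) * (sin g + T * sin (2 * v - g) +
        μ * (sin (2 * p + g) + τ * sin (2 * p + g + (w + g)))) := by
      rw [← H.flow]
      have := Real.one_le_cosh l2
      nlinarith
    have h2 := mul_le_mul_of_nonneg_left h1 k0.le
    have h3 := mul_le_mul_of_nonneg_left b5 (Real.exp_pos (-gr)).le
    have h4 : 0 ≤ L * (607 / 1000 + 164 / 1000 * (k * w)) := by positivity
    have h5 := mul_le_mul_of_nonneg_right H.egr h4
    nlinarith
  have h4 : 2 / π * w ≤ sin w := Real.mul_le_sin hw0 (abs_lt.1 H.hw).2.le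
  have h5 : 63660 / 100000 * w ≤ sin w := by
    refine le_trans ?_ h4
    apply mul_le_mul_of_nonneg_right _ hw0
    rw [le_div_iff₀ hpi]
    nlinarith
  have hLkw : L * (k * w) ≤ 1 * (k * w) := mul_le_mul_of_nonneg_right hL1 hkw0
  have h6 : k * w ≤ 16 / 10 := by
    have := mul_le_mul_of_nonneg_left h5 k0.le
    linarith
  have h7 : w ≤ 1 / 5 := by nlinarith
  have h8 := sin_ge3 hw0
  have h9 : 993 / 1000 * w ≤ sin w := by
    have e1 : w ^ 3 ≤ (1 / 5) ^ 2 * w := by
      have : w ^ 2 ≤ (1 / 5) ^ 2 := pow_le_pow_left₀ hw0 h7 2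
      nlinarith
    norm_num at e1
    linarith
  have h10 := mul_le_mul_of_nonneg_left h9 k0.le
  have h11 : k * w ≤ 877 / 1000 := by linarith
  -- `L ≥ 1/2`
  have h12 : 1 / 2 ≤ L := by
    have e1 : 4357 / 10000 ≤ k * w := by linarith
    by_contra hcon
    push Not at hcon
    have e2 : L * (607 / 1000 + 164 / 1000 * (k * w)) ≤
        1 / 2 * (607 / 1000 + 164 / 1000 * (k * w)) :=
      mul_le_mul_of_nonneg_right hcon.le (by linarith)
    linarith
  have hE : exp (-(k * l)) ≤ 61 / 100 := by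
    have e1 : exp (-(k * l)) ≤ exp (-(1 / 2)) := Real.exp_le_exp.2 (by linarith)
    have e2 := exp_neg_le4 (x := 1 / 2) (by norm_num)
    refine e1.trans (e2.trans ?_)
    norm_num
  have hs : 9 / 10 ≤ sin (k * g + k * w) := by
    have e1 : sin (k * g + k * w) = cos (k * g + k * w - π / 2) := by
      rw [Real.cos_sub_pi_div_two]
    rw [e1]
    have e2 := Real.one_sub_sq_div_two_le_cos (x := k * g + k * w - π / 2)
    have e3 : 0 ≤ k * g + k * w - π / 2 := by linarith
    have e4 : k * g + k * w - π / 2 ≤ 442 / 1000 := by linarith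
    have e5 : (k * g + k * w - π / 2) ^ 2 ≤ (442 / 1000) ^ 2 := pow_le_pow_left₀ e3 e4 2
    norm_num at e5
    linarith
  have hph := H.phase
  have e1 := Real.sin_le_one (k * g + k * w - k * v)
  have e2 : exp (-(k * l)) * (1 + sin (k * g + k * w - k * v)) ≤ exp (-(k * l)) * 2 :=
    mul_le_mul_of_nonneg_left (by linarith) (Real.exp_pos _).le
  linarith

end EQS
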