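import Mathlib
import Pool.Agent.Lib.MP_226de1_co.E.TwoCase

/-! Block (II), case A (`v ≥ 0`, `arg p_{-2} ≤ 0`): the cells. -/

set_option autoImplicit false

namespace EQS

open Real Set

variable {k a v p g w l gr l2 μ τ c0 c1 N : ℝ}

/-- `φ ≥ π/2` -/
theorem RF.phi_geA (H : RF k a v p g w l gr l2 μ τ c0 c1 N) (hv : 0 ≤ v) (hp0 : p ≤ 0)
    (hcos : cos (k * g + k * w) ≤ 0) : π / 2 ≤ k * g + k * w := by
  have hpi := Real.pi_pos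
  have h1 := H.phi_gtA hv hp0
  have h2 := H.hsin hp0
  by_contra hcon
  push Not at hcon
  rcases lt_or_ge (k * g + k * w) 0 with h3 | h3
  · have := Real.sin_neg_of_neg_of_neg_pi_lt h3 h1
    linarith
  · have : 0 < cos (k * g + k * w) := Real.cos_pos_of_mem_Ioo ⟨by linarith, hcon⟩
    linarith

theorem RF.w_posA (H : RF k a v p g w l gr l2 μ τ c0 c1 N) (hv : 0 ≤ v) (hp0 : p ≤ 0)
    (hcos : cos (k * g + k * w) ≤ 0) : 0 ≤ w := by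
  have hpi3 := Real.pi_gt_three
  have h1 := H.phi_geA hv hp0 hcos
  have h2 := (abs_le.1 (H.kg H.radius_all).1).2
  by_contra hcon
  push Not at hcon
  have := mul_neg_of_pos_of_neg H.k0 hcon
  linarith

theorem RF.cellA (H : RF k a v p g w l gr l2 μ τ c0 c1 N) (hv : 0 ≤ v) (hp0 : p ≤ 0)
    (hcos : cos (k * g + k * w) ≤ 0) {θ0 θ1 L0 L1 t0 D T2 B1 Φ Y S2 E0 w0 w1 w2 z : ℝ}
    (hθ0 : θ0 ≤ k * v) (hθ1 : k * v ≤ θ1) (hL0 : L0 ≤ k * l) (hL1 : k * l ≤ L1) (ht0 : τ ≤ t0)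
    (hD : N ≤ D) (n1 : 0 ≤ L0) (n2 : L1 ≤ 1) (n3 : D ≤ 227 / 200) (n4 : 0 ≤ t0)
    (a1 : (7 / 5 + 4 / 5 * t0) * D - 193 / 100 * θ1 + 2 / 5 * t0 * (201 / 100) ≤ w1)
    (a1' : 0 ≤ w1)
    (a2 : (1 + D / 8 + 3 / 5 * (D / 8) ^ 2) * (θ1 + L1 / 8 * w1) + (201 / 100) ^ 3 / 384 ≤ T2)
    (a3 : (7 / 5 + 4 / 5 * t0) * D - 193 / 100 * θ1 + 2 / 5 * t0 * T2 ≤ w2) (a3' : 0 ≤ w2)
    (a4 : θ1 + L1 / 8 * w2 ≤ B1)
    (a5 : B1 + (D + (D * B1 ^ 2 / 2 + 3 / 5 * D ^ 2 * B1 + T2 ^ 3 / 6) / 64) ≤ Φ)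
    (a6 : (7 / 5 + 4 / 5 * t0) * D - 193 / 100 * θ0 + 2 / 5 * t0 * T2 ≤ w0) (a6' : 0 ≤ w0)
    (a7 : L1 / 8 * w0 + (D + (D * B1 ^ 2 / 2 + 3 / 5 * D ^ 2 * B1 + T2 ^ 3 / 6) / 64) ≤ Y)
    (a8 : Φ ≤ 3) (a9 : Φ - 15707 / 10000 ≤ z) (a9' : 0 ≤ z) (a9'' : z ≤ 3 / 2)
    (a10 : (Y ≤ 157 / 100 ∧ Y - Y ^ 3 / 6 + Y ^ 5 / 120 ≤ S2) ∨ 1 ≤ S2)
    (a11 : 1 - L0 + L0 ^ 2 / 2 - L0 ^ 3 / 6 + L0 ^ 4 / 24 ≤ E0)
    (a12 : E0 * (1 + S2) < 2 * (1 - z ^ 2 / 2 + z ^ 4 / 24 - z ^ 6 / 720)) : False := by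
  have hpi := Real.pi_pos
  have hpi3 := Real.pi_gt_three
  have hpi4 : 31415 / 10000 < π := by
    have := Real.pi_gt_d4
    linarith
  have hk := H.hk
  have k0 := H.k0
  have hφ := H.phi_geA hv hp0 hcos
  have hw0 := H.w_posA hv hp0 hcos
  have hl := H.lA hv hp0
  have hu := one_sub_T l
  have hT : exp (-(2 * l)) ≤ 1 := Real.exp_le_one_iff.2 (by linarith)
  have hll := H.l_le hl
  have hkw := H.kwA hv hp0 hw0
  have hkw0 : 0 ≤ k * w := mul_nonneg k0.le hw0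
  have hD0 : 0 ≤ D := H.hN0.trans hD
  have hkv : 0 ≤ k * v := mul_nonneg k0.le hv
  have h1 := H.flowA hv hp0 hD n3 ht0 hw0
  obtain ⟨hkg, hkgr, hDD⟩ := H.kg hD
  set x := (1 - exp (-(2 * l))) / 2 with hx
  have hx0 : 0 ≤ x := by rw [hx]; linarith
  have hx1 : x ≤ L1 / 8 := by rw [hx]; linarith
  set C : ℝ := (7 / 5 + 4 / 5 * t0) * D with hC
  have hC0 : 0 ≤ C := by rw [hC]; positivity
  have ht1 : 0 ≤ 2 / 5 * t0 := by positivity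
  -- upper bound of the bracket
  have key : ∀ {T W : ℝ}, k * w ≤ T → C - 193 / 100 * θ1 + 2 / 5 * t0 * T ≤ W → 0 ≤ W →
      k * v + x * (C - 193 / 100 * (k * v) + 2 / 5 * t0 * (k * w)) ≤ θ1 + L1 / 8 * W := by
    intro T W hT1 hW hW0
    have e1 : 2 / 5 * t0 * (k * w) ≤ 2 / 5 * t0 * T := mul_le_mul_of_nonneg_left hT1 ht1
    have e2 : x * (2 / 5 * t0 * (k * w)) ≤ x * (2 / 5 * t0 * T) :=
      mul_le_mul_of_nonneg_left e1 hx0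
    have e3 : k * v * (1 - 193 / 100 * x) ≤ θ1 * (1 - 193 / 100 * x) :=
      mul_le_mul_of_nonneg_right hθ1 (by linarith)
    have e4 : x * (C - 193 / 100 * θ1 + 2 / 5 * t0 * T) ≤ x * W :=
      mul_le_mul_of_nonneg_left hW hx0
    have e5 : x * W ≤ L1 / 8 * W := mul_le_mul_of_nonneg_right hx1 hW0
    linarith
  set B := k * v + x * (C - 193 / 100 * (k * v) + 2 / 5 * t0 * (k * w)) with hB
  have hB0 : 0 ≤ B := by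
    have e1 : 0 ≤ k * v * (1 - 193 / 100 * x) := mul_nonneg hkv (by linarith)
    have e2 : 0 ≤ x * (C + 2 / 5 * t0 * (k * w)) :=
      mul_nonneg hx0 (add_nonneg hC0 (mul_nonneg ht1 hkw0))
    have e3 : B = k * v * (1 - 193 / 100 * x) + x * (C + 2 / 5 * t0 * (k * w)) := by
      rw [hB]
      ring
    rw [e3]
    linarith
  have hBw1 := key hkw a1 a1'
  have hT2 : k * w ≤ T2 := by
    have e1 := kw_le hk hw0 hB0 hD0 (by linarith) hkgr hkw h1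
    have e2 : (1 + D / 8 + 3 / 5 * (D / 8) ^ 2) * B ≤
        (1 + D / 8 + 3 / 5 * (D / 8) ^ 2) * (θ1 + L1 / 8 * w1) :=
      mul_le_mul_of_nonneg_left hBw1 (by positivity)
    linarith
  have hBw2 := key hT2 a3 a3'
  have hBB : B ≤ B1 := hBw2.trans a4
  have hub := ub_phi hk hw0 hB0 hD0 (by linarith) hDD h1
  have hR : D + (D * B ^ 2 / 2 + 3 / 5 * D ^ 2 * B + (k * w) ^ 3 / 6) / 64 ≤
      D + (D * B1 ^ 2 / 2 + 3 / 5 * D ^ 2 * B1 + T2 ^ 3 / 6) / 64 := by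
    have e1 : B ^ 2 ≤ B1 ^ 2 := pow_le_pow_left₀ hB0 hBB 2
    have e2 : D * B ^ 2 ≤ D * B1 ^ 2 := mul_le_mul_of_nonneg_left e1 hD0
    have e3 : D ^ 2 * B ≤ D ^ 2 * B1 := mul_le_mul_of_nonneg_left hBB (sq_nonneg D)
    have e4 : (k * w) ^ 3 ≤ T2 ^ 3 := pow_le_pow_left₀ hkw0 hT2 3
    linarith
  have hΦ : k * g + k * w ≤ Φ := by linarith
  have hY : k * g + k * w - k * v ≤ Y := by
    have e0 : x * (C - 193 / 100 * (k * v) + 2 / 5 * t0 * (k * w)) ≤ L1 / 8 * w0 := by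
      have e1 : 2 / 5 * t0 * (k * w) ≤ 2 / 5 * t0 * T2 := mul_le_mul_of_nonneg_left hT2 ht1
      have e2 : C - 193 / 100 * (k * v) + 2 / 5 * t0 * (k * w) ≤ w0 := by linarith
      calc _ ≤ x * w0 := mul_le_mul_of_nonneg_left e2 hx0
        _ ≤ _ := mul_le_mul_of_nonneg_right hx1 a6'
    have e1 : B = k * v + x * (C - 193 / 100 * (k * v) + 2 / 5 * t0 * (k * w)) := hB
    linarith
  -- `sin φ ≥ cos z`
  have hs1 : 1 - z ^ 2 / 2 + z ^ 4 / 24 - z ^ 6 / 720 ≤ sin (k * g + k * w) := by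
    have e1 : sin (k * g + k * w) = cos (k * g + k * w - π / 2) := by
      rw [Real.cos_sub_pi_div_two]
    rw [e1]
    refine (cos_ge6 a9').trans ?_
    apply Real.cos_le_cos_of_nonneg_of_le_pi (by linarith) (by linarith)
    linarith
  have hs2 : sin (k * g + k * w - k * v) ≤ S2 := by
    rcases a10 with ⟨h2, h3⟩ | h2
    · refine le_trans ?_ h3
      have e0 : 0 ≤ k * g + k * w - k * v := by linarith [H.hv1]
      refine le_trans ?_ (sin_le5 (e0.trans hY))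
      apply Real.sin_le_sin_of_le_of_le_pi_div_two (by linarith) (by linarith) hY
    · exact (Real.sin_le_one _).trans h2
  have hph := H.phase
  have hE : exp (-(k * l)) ≤ E0 := by
    refine le_trans ?_ a11
    refine le_trans ?_ (exp_neg_le4 n1)
    exact Real.exp_le_exp.2 (by linarith)
  have h5 : exp (-(k * l)) * (1 + sin (k * g + k * w - k * v)) ≤ E0 * (1 + S2) := by
    have := Real.neg_one_le_sin (k * g + k * w - k * v)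
    apply mul_le_mul hE (by linarith) (by linarith) ((Real.exp_pos _).le.trans hE)
  linarith

/-- radius by `tan (a - p) ≤ ρ` -/
theorem RF.radiusT (H : RF k a v p g w l gr l2 μ τ c0 c1 N) (hv : 0 ≤ v) (hp0 : p ≤ 0)
    {θ0 θ1 L1 ρ r q s0 D c c' : ℝ} (hθ0 : θ0 ≤ k * v) (hθ1 : k * v ≤ θ1) (hL1 : k * l ≤ L1)
    (h0 : 0 < θ0) (hρ : L1 ≤ ρ * θ0) (hρ0 : 0 ≤ ρ) (hr : 0 ≤ r) (nr : r ^ 2 * (1 + ρ ^ 2) ≤ 1)
    (hc : θ1 / 8 ≤ c) (hcc : c ≤ 1) (hc' : (15708 / 10000 - θ0) / 8 ≤ c') (hc'0 : 0 ≤ c')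
    (hcc' : c' ≤ 1) (hq0 : 0 ≤ q) (hq : q ≤ 9807 / 10000) (hqr : q ≤ r)
    (n1 : 0 ≤ 1 - c ^ 2 / 2 - ρ * c) (n2 : 0 ≤ 1 - c' ^ 2 / 2 - ρ * c')
    (hs0 : 0 ≤ s0) (hs1 : s0 ≤ q * (q + r * (1 - c ^ 2 / 2 - ρ * c)))
    (hs2 : s0 ≤ r * (1 - c' ^ 2 / 2 - ρ * c') * (r * (1 - c' ^ 2 / 2 - ρ * c') + q))
    (hD0 : 0 ≤ D) (hn : 1 < 4 * s0 * (D / 2 + (D / 2) ^ 3 / 6) ^ 2) : N ≤ D := by
  have hpi := Real.pi_pos
  have hpi4 := Real.pi_lt_d4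
  have k0 := H.k0
  have hk := H.hk
  have hp := abs_lt.1 H.hp
  have hδ := H.δ16
  have hm : a - p < π / 2 := by linarith [H.ha1]
  have hm0 : 0 ≤ a - p := by linarith [H.ha0]
  have ht0 : 0 ≤ tan (a - p) := Real.tan_nonneg_of_nonneg_of_le_pi_div_two hm0 hm.le
  have htan : tan (a - p) ≤ ρ := by
    have h1 := H.tanA hv hp0
    have h2 : tan (a - p) * θ0 ≤ ρ * θ0 := by
      calc tan (a - p) * θ0 ≤ tan (a - p) * (k * v) := mul_le_mul_of_nonneg_left hθ0 ht0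
        _ ≤ k * l := h1
        _ ≤ L1 := hL1
        _ ≤ _ := hρ
    exact le_of_mul_le_mul_right h2 h0
  have hkδ : k * (π / (2 * k)) = π / 2 := by field_simp
  apply H.radius (m := a - p) (c := c) (c' := c') (ρ := ρ) (r := r) (q := q) (s0 := s0)
    (by linarith) hm htan hρ0 hr nr _ _ (by linarith) hcc hc'0 hcc' hq0 hq hqr n1 n2
    hs0 hs1 hs2 hD0 hn
  · intro _
    have : v ≤ θ1 / 8 := by nlinarith
    linarith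
  · intro h
    -- `p + δ ≤ δ - v ≤ c'`
    have e1 : π / (2 * k) - v ≤ c' := by
      have e2 : k * (π / (2 * k) - v) ≤ 15708 / 10000 - θ0 := by
        have : k * (π / (2 * k) - v) = π / 2 - k * v := by rw [mul_sub, hkδ]
        rw [this]
        linarith
      have e3 : 8 * (π / (2 * k) - v) ≤ k * (π / (2 * k) - v) ∨ π / (2 * k) - v < 0 := by
        rcases lt_or_ge (π / (2 * k) - v) 0 with h4 | h4
        · right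
          exact h4
        · left
          nlinarith
      rcases e3 with e3 | e3
      · linarith
      · linarith
    linarith

/-- radius by `a ≤ π/4` -/
theorem RF.tan_a (H : RF k a v p g w l gr l2 μ τ c0 c1 N) : tan a ≤ 1 := by
  have hpi := Real.pi_pos
  rw [← Real.tan_pi_div_four]
  rcases eq_or_lt_of_le H.ha1 with h | h
  · rw [h]
  · exact (Real.tan_lt_tan_of_lt_of_lt_pi_div_two (by linarith [H.ha0]) (by linarith) h).le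

theorem RF.cA1 (H : RF k a v p g w l gr l2 μ τ c0 c1 N) (hv : 0 ≤ v) (hp0 : p ≤ 0)
    (hcos : cos (k * g + k * w) ≤ 0) (h1 : (0 : ℝ) ≤ k * v) (h2 : k * v ≤ (9 / 20 : ℝ))
    (h3 : (0 : ℝ) ≤ k * l) (h4 : k * l ≤ (1 / 4 : ℝ)) : False := by
  have ht0 : τ ≤ 2 := H.tauA hv hp0
  have hD : N ≤ (227 / 200 : ℝ) := H.radius_all
  apply H.cellA hv hp0 hcos h1 h2 h3 h4 ht0 hD (T2 := (6899 / 10000 : ℝ)) (B1 := (2733 / 5000 : ℝ))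
    (Φ := (8459 / 5000 : ℝ)) (Y := (793 / 625 : ℝ)) (S2 := (4779 / 5000 : ℝ)) (E0 := (1 : ℝ))
    (w0 := (3957 / 1000 : ℝ)) (w1 := (8289 / 2000 : ℝ)) (w2 := (6177 / 2000 : ℝ)) (z := (1211 / 10000 : ℝ)) <;> norm_num

theorem RF.cA2 (H : RF k a v p g w l gr l2 μ τ c0 c1 N) (hv : 0 ≤ v) (hp0 : p ≤ 0)
    (hcos : cos (k * g + k * w) ≤ 0) (h1 : (0 : ℝ) ≤ k * v) (h2 : k * v ≤ (9 / 20 : ℝ))
    (h3 : (1 / 4 : ℝ) ≤ k * l) (h4 : k * l ≤ (1 : ℝ)) : False := by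
  have ht0 : τ ≤ 2 := H.tauA hv hp0
  have hD : N ≤ (227 / 200 : ℝ) := H.radius_all
  apply H.cellA hv hp0 hcos h1 h2 h3 h4 ht0 hD (T2 := (11383 / 10000 : ℝ)) (B1 := (8809 / 10000 : ℝ))
    (Φ := (20373 / 10000 : ℝ)) (Y := (16959 / 10000 : ℝ)) (S2 := (1 : ℝ)) (E0 := (7789 / 10000 : ℝ))
    (w0 := (43157 / 10000 : ℝ)) (w1 := (8289 / 2000 : ℝ)) (w2 := (4309 / 1250 : ℝ)) (z := (2333 / 5000 : ℝ)) <;> norm_num

theorem RF.cA3 (H : RF k a v p g w l gr l2 μ τ c0 c1 N) (hv : 0 ≤ v) (hp0 : p ≤ 0)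
    (hcos : cos (k * g + k * w) ≤ 0) (h1 : (9 / 20 : ℝ) ≤ k * v) (h2 : k * v ≤ (9 / 10 : ℝ))
    (h3 : (0 : ℝ) ≤ k * l) (h4 : k * l ≤ (3 / 10 : ℝ)) : False := by
  have ht0 : τ ≤ 2 := H.tauA hv hp0
  have hD : N ≤ (8921 / 10000 : ℝ) := by
    apply H.radiusT hv hp0 h1 h2 h4 (ρ := (6667 / 10000 : ℝ)) (r := (104 / 125 : ℝ)) (q := (104 / 125 : ℝ))
      (s0 := (5887 / 5000 : ℝ)) (c := (9 / 80 : ℝ)) (c' := (1401 / 10000 : ℝ)) <;> norm_num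
  apply H.cellA hv hp0 hcos h1 h2 h3 h4 ht0 hD (T2 := (1419 / 1250 : ℝ)) (B1 := (9693 / 10000 : ℝ))
    (Φ := (1879 / 1000 : ℝ)) (Y := (2529 / 2500 : ℝ)) (S2 := (8479 / 10000 : ℝ)) (E0 := (1 : ℝ))
    (w0 := (679 / 250 : ℝ)) (w1 := (25473 / 10000 : ℝ)) (w2 := (739 / 400 : ℝ)) (z := (3083 / 10000 : ℝ)) <;> norm_num

theorem RF.cA4 (H : RF k a v p g w l gr l2 μ τ c0 c1 N) (hv : 0 ≤ v) (hp0 : p ≤ 0)
    (hcos : cos (k * g + k * w) ≤ 0) (h1 : (9 / 20 : ℝ) ≤ k * v) (h2 : k * v ≤ (9 / 10 : ℝ))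
    (h3 : (3 / 10 : ℝ) ≤ k * l) (h4 : k * l ≤ (1 : ℝ)) : False := by
  have ht0 : τ ≤ 6 / 5 := H.τ3 (by linarith)
  have hD : N ≤ (227 / 200 : ℝ) := H.radius_all
  apply H.cellA hv hp0 hcos h1 h2 h3 h4 ht0 hD (T2 := (13347 / 10000 : ℝ)) (B1 := (5489 / 5000 : ℝ))
    (Φ := (2263 / 1000 : ℝ)) (Y := (2943 / 2000 : ℝ)) (S2 := (499 / 500 : ℝ)) (E0 := (7409 / 10000 : ℝ))
    (w0 := (6127 / 2500 : ℝ)) (w1 := (2383 / 1250 : ℝ)) (w2 := (15823 / 10000 : ℝ)) (z := (6923 / 10000 : ℝ)) <;> norm_num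

theorem RF.cA5 (H : RF k a v p g w l gr l2 μ τ c0 c1 N) (hv : 0 ≤ v) (hp0 : p ≤ 0)
    (hcos : cos (k * g + k * w) ≤ 0) (h1 : (9 / 10 : ℝ) ≤ k * v) (h2 : k * v ≤ (7 / 5 : ℝ))
    (h3 : (0 : ℝ) ≤ k * l) (h4 : k * l ≤ (1 / 20 : ℝ)) : False := by
  have ht0 : τ ≤ 2 := H.tauA hv hp0
  have hD : N ≤ (7077 / 10000 : ℝ) := by
    apply H.radiusT hv hp0 h1 h2 h4 (ρ := (139 / 2500 : ℝ)) (r := (624 / 625 : ℝ)) (q := (9807 / 10000 : ℝ))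
      (s0 := (19163 / 10000 : ℝ)) (c := (7 / 40 : ℝ)) (c' := (839 / 10000 : ℝ)) <;> norm_num
  apply H.cellA hv hp0 hcos h1 h2 h3 h4 ht0 hD (T2 := (7793 / 5000 : ℝ)) (B1 := (7021 / 5000 : ℝ))
    (Φ := (21393 / 10000 : ℝ)) (Y := (7453 / 10000 : ℝ)) (S2 := (6783 / 10000 : ℝ)) (E0 := (1 : ℝ))
    (w0 := (1633 / 1000 : ℝ)) (w1 := (10291 / 10000 : ℝ)) (w2 := (167 / 250 : ℝ)) (z := (2843 / 5000 : ℝ)) <;> norm_num

theorem RF.cA6 (H : RF k a v p g w l gr l2 μ τ c0 c1 N) (hv : 0 ≤ v) (hp0 : p ≤ 0)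
    (hcos : cos (k * g + k * w) ≤ 0) (h1 : (9 / 10 : ℝ) ≤ k * v) (h2 : k * v ≤ (7 / 5 : ℝ))
    (h3 : (1 / 20 : ℝ) ≤ k * l) (h4 : k * l ≤ (1 / 5 : ℝ)) : False := by
  have ht0 : τ ≤ 2 := H.tauA hv hp0
  have hD : N ≤ (7211 / 10000 : ℝ) := by
    apply H.radiusT hv hp0 h1 h2 h4 (ρ := (2223 / 10000 : ℝ)) (r := (9761 / 10000 : ℝ)) (q := (9761 / 10000 : ℝ))
      (s0 := (9213 / 5000 : ℝ)) (c := (7 / 40 : ℝ)) (c' := (839 / 10000 : ℝ)) <;> norm_num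
  apply H.cellA hv hp0 hcos h1 h2 h3 h4 ht0 hD (T2 := (3167 / 2000 : ℝ)) (B1 := (14183 / 10000 : ℝ))
    (Φ := (271 / 125 : ℝ)) (Y := (7921 / 10000 : ℝ)) (S2 := (7119 / 10000 : ℝ)) (E0 := (9513 / 10000 : ℝ))
    (w0 := (16931 / 10000 : ℝ)) (w1 := (10693 / 10000 : ℝ)) (w2 := (7281 / 10000 : ℝ)) (z := (5973 / 10000 : ℝ)) <;> norm_num

theorem RF.cA7 (H : RF k a v p g w l gr l2 μ τ c0 c1 N) (hv : 0 ≤ v) (hp0 : p ≤ 0)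
    (hcos : cos (k * g + k * w) ≤ 0) (h1 : (9 / 10 : ℝ) ≤ k * v) (h2 : k * v ≤ (7 / 5 : ℝ))
    (h3 : (1 / 5 : ℝ) ≤ k * l) (h4 : k * l ≤ (9 / 20 : ℝ)) : False := by
  have ht0 : τ ≤ 2 := H.tauA hv hp0
  have hD : N ≤ (319 / 400 : ℝ) := by
    apply H.radiusT hv hp0 h1 h2 h4 (ρ := (1 / 2 : ℝ)) (r := (559 / 625 : ℝ)) (q := (559 / 625 : ℝ))
      (s0 := (3731 / 2500 : ℝ)) (c := (7 / 40 : ℝ)) (c' := (839 / 10000 : ℝ)) <;> norm_num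
  apply H.cellA hv hp0 hcos h1 h2 h3 h4 ht0 hD (T2 := (16499 / 10000 : ℝ)) (B1 := (14569 / 10000 : ℝ))
    (Φ := (22881 / 10000 : ℝ)) (Y := (9423 / 10000 : ℝ)) (S2 := (8091 / 10000 : ℝ)) (E0 := (2047 / 2500 : ℝ))
    (w0 := (3951 / 2000 : ℝ)) (w1 := (2597 / 2000 : ℝ)) (w2 := (2021 / 2000 : ℝ)) (z := (3587 / 5000 : ℝ)) <;> norm_num

theorem RF.cA8 (H : RF k a v p g w l gr l2 μ τ c0 c1 N) (hv : 0 ≤ v) (hp0 : p ≤ 0)
    (hcos : cos (k * g + k * w) ≤ 0) (h1 : (9 / 10 : ℝ) ≤ k * v) (h2 : k * v ≤ (7 / 5 : ℝ))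
    (h3 : (9 / 20 : ℝ) ≤ k * l) (h4 : k * l ≤ (4 / 5 : ℝ)) : False := by
  have ht0 : τ ≤ 6 / 5 := H.τ3 (by linarith)
  have hD : N ≤ (387 / 400 : ℝ) := by
    apply H.radiusT hv hp0 h1 h2 h4 (ρ := (8889 / 10000 : ℝ)) (r := (3737 / 5000 : ℝ)) (q := (3737 / 5000 : ℝ))
      (s0 := (9897 / 10000 : ℝ)) (c := (7 / 40 : ℝ)) (c' := (839 / 10000 : ℝ)) <;> norm_num
  apply H.cellA hv hp0 hcos h1 h2 h3 h4 ht0 hD (T2 := (3329 / 2000 : ℝ)) (B1 := (14381 / 10000 : ℝ))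
    (Φ := (24459 / 10000 : ℝ)) (Y := (11423 / 10000 : ℝ)) (S2 := (9101 / 10000 : ℝ)) (E0 := (3189 / 5000 : ℝ))
    (w0 := (13453 / 10000 : ℝ)) (w1 := (5461 / 10000 : ℝ)) (w2 := (3803 / 10000 : ℝ)) (z := (547 / 625 : ℝ)) <;> norm_num

theorem RF.cA9 (H : RF k a v p g w l gr l2 μ τ c0 c1 N) (hv : 0 ≤ v) (hp0 : p ≤ 0)
    (hcos : cos (k * g + k * w) ≤ 0) (h1 : (9 / 10 : ℝ) ≤ k * v) (h2 : k * v ≤ (7 / 5 : ℝ))
    (h3 : (4 / 5 : ℝ) ≤ k * l) (h4 : k * l ≤ (1 : ℝ)) : False := by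
  have ht0 : τ ≤ 6 / 5 := H.τ3 (by linarith)
  have hD : N ≤ (2717 / 2500 : ℝ) := by
    apply H.radiusT hv hp0 h1 h2 h4 (ρ := (1389 / 1250 : ℝ)) (r := (6689 / 10000 : ℝ)) (q := (6689 / 10000 : ℝ))
      (s0 := (7691 / 10000 : ℝ)) (c := (7 / 40 : ℝ)) (c' := (839 / 10000 : ℝ)) <;> norm_num
  apply H.cellA hv hp0 hcos h1 h2 h3 h4 ht0 hD (T2 := (1091 / 625 : ℝ)) (B1 := (3719 / 2500 : ℝ))
    (Φ := (6559 / 2500 : ℝ)) (Y := (6721 / 5000 : ℝ)) (S2 := (122 / 125 : ℝ)) (E0 := (2259 / 5000 : ℝ))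
    (w0 := (8329 / 5000 : ℝ)) (w1 := (8277 / 10000 : ℝ)) (w2 := (438 / 625 : ℝ)) (z := (10529 / 10000 : ℝ)) <;> norm_num

/-- **Block (II), case A** -/
theorem RF.falseA (H : RF k a v p g w l gr l2 μ τ c0 c1 N) (hv : 0 ≤ v) (hp0 : p ≤ 0)
    (hcos : cos (k * g + k * w) ≤ 0) : False := by
  have hl := H.lA hv hp0
  have k0 := H.k0
  have h0 : 0 ≤ k * v := mul_nonneg k0.le hv
  have h1 : 0 ≤ k * l := mul_nonneg k0.le hl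
  have h2 := H.hv1
  have h3 := H.hl1
  rcases le_total (k * v) (9 / 20) with h4 | h4
  · rcases le_total (k * l) (1 / 4) with h5 | h5
    · exact H.cA1 hv hp0 hcos h0 h4 h1 h5
    · exact H.cA2 hv hp0 hcos h0 h4 h5 h3
  rcases le_total (k * v) (9 / 10) with h6 | h6
  · rcases le_total (k * l) (3 / 10) with h5 | h5
    · exact H.cA3 hv hp0 hcos h4 h6 h1 h5
    · exact H.cA4 hv hp0 hcos h4 h6 h5 h3
  rcases le_total (k * l) (1 / 20) with h5 | h5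
  · exact H.cA5 hv hp0 hcos h6 h2 h1 h5
  rcases le_total (k * l) (1 / 5) with h7 | h7
  · exact H.cA6 hv hp0 hcos h6 h2 h5 h7
  rcases le_total (k * l) (9 / 20) with h8 | h8
  · exact H.cA7 hv hp0 hcos h6 h2 h7 h8
  rcases le_total (k * l) (4 / 5) with h9 | h9
  · exact H.cA8 hv hp0 hcos h6 h2 h8 h9
  · exact H.cA9 hv hp0 hcos h6 h2 h9 h3

end EQS
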