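import Mathlib
import Pool.Agent.Lib.MP_226de1_co.E.FlowIm
import Pool.Agent.Lib.MP_226de1_co.E.Step

/-! Geometry of one step used in block (II) of the exit from the half plane.

`A_1 = - Im X1`, `f = Im (X1 - d1) = arg f_{-1} / k`, `p = Im (X2 - d1) = arg p_{-2} / k`,
`v = Im (X1 - X2) = - arg b_1 / k`.

* `geoG1`: `0 ≤ f`, `v < 0` is impossible;
* `geoG2`: `f < 0` implies `e^{2l} sin 2p < sin 2f`. -/

set_option autoImplicit false

namespace EQS

open Complex

variable {k C : ℝ} {q0 q1 q2 q3 d0 d1 d2 X1 X2 X3 : ℂ}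

/-- `Im q_{-1} cos A > (- Re q_{-1}) sin A` -/
theorem St.ysin (h : St k C q0 q1 q2 q3 d0 d1 d2 X1 X2 X3) :
    -q1.re * Real.sin (-X1.im) < q1.im * Real.cos (-X1.im) := by
  obtain ⟨_, h2⟩ := quad_polar h.x1
  have h3 := h.xh1
  have hq := h.q1neg
  have hR : 0 < Real.exp X1.re := Real.exp_pos _
  have hpi := Real.pi_pos
  have hs : 0 < Real.sin (-X1.im) :=
    Real.sin_pos_of_pos_of_lt_pi (by linarith [h.a1.2]) (by linarith [h.a1.1])
  have hc : 0 < Real.cos (-X1.im) :=
    Real.cos_pos_of_mem_Ioo ⟨by linarith [h.a1.2], by linarith [h.a1.1]⟩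
  rw [Real.sin_two_mul] at h2
  rw [Real.sin_neg] at hs
  rw [Real.cos_neg] at hc
  rw [Real.sin_neg, Real.cos_neg]
  set A := -q1.re with hA
  set R := Real.exp X1.re
  have hA0 : 0 < A := by linarith
  -- `A y = - R² s c`
  have h4 : A * q1.im = R ^ 2 * (-Real.sin X1.im) * Real.cos X1.im := by
    have : q1.re = -A := by rw [hA]; ring
    rw [this] at h2
    linarith
  have h5 : A ^ 2 < R ^ 2 * Real.cos X1.im ^ 2 := by
    have := mul_self_lt_mul_self hA0.le h3
    nlinarith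
  have h6 : A * (A * -Real.sin X1.im) < A * (q1.im * Real.cos X1.im) := by
    calc A * (A * -Real.sin X1.im) = A ^ 2 * -Real.sin X1.im := by ring
      _ < R ^ 2 * Real.cos X1.im ^ 2 * -Real.sin X1.im := by
          apply mul_lt_mul_of_pos_right h5 hs
      _ = (A * q1.im) * Real.cos X1.im := by rw [h4]; ring
      _ = _ := by ring
  exact lt_of_mul_lt_mul_left h6 hA0.le

/-- `f < 0` implies `|xi_2|^2 sin 2p < |xi_1|^2 sin 2f` -/
theorem St.geoG2 (h : St k C q0 q1 q2 q3 d0 d1 d2 X1 X2 X3) (hf : (X1 - d1).im < 0)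
    (hf' : -Real.pi < (X1 - d1).im) :
    Real.exp (2 * (X2 - X1).re) * Real.sin (2 * (X2 - d1).im) < Real.sin (2 * (X1 - d1).im) := by
  obtain ⟨_, h2⟩ := step_id h.x1 h.x2 h.s1
  have hy := h.ysin
  have hpi := Real.pi_pos
  have hq := h.q1neg
  have hc : 0 < Real.cos (-X1.im) :=
    Real.cos_pos_of_mem_Ioo ⟨by linarith [h.a1.2], by linarith [h.a1.1]⟩
  have hb := cos_pos_of_re h.D1
  have hre : (exp d1).re = Real.exp d1.re * Real.cos d1.im := exp_re d1
  have him : (exp d1).im = Real.exp d1.re * Real.sin d1.im := exp_im d1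
  have hD : 0 < Real.exp d1.re := Real.exp_pos _
  -- `y cos b - A sin b > 0`
  have h3 : 0 < q1.im * Real.cos d1.im - q1.re * Real.sin d1.im := by
    have e1 : -X1.im - -d1.im = -(X1 - d1).im := by
      rw [sub_im]
      ring
    have h4 : 0 < Real.sin (-X1.im - -d1.im) := by
      rw [e1]
      exact Real.sin_pos_of_pos_of_lt_pi (by linarith) (by linarith)
    rw [Real.sin_sub, Real.cos_neg d1.im, Real.sin_neg d1.im] at h4
    have h5 : 0 < Real.cos (-X1.im) * (q1.im * Real.cos d1.im - q1.re * Real.sin d1.im) := by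
      have e2 : Real.cos (-X1.im) * (q1.im * Real.cos d1.im - q1.re * Real.sin d1.im) =
          (q1.im * Real.cos (-X1.im) - -q1.re * Real.sin (-X1.im)) * Real.cos d1.im +
            -q1.re * (Real.sin (-X1.im) * Real.cos d1.im - Real.cos (-X1.im) * -Real.sin d1.im) := by
        ring
      rw [e2]
      have : 0 < (q1.im * Real.cos (-X1.im) - -q1.re * Real.sin (-X1.im)) * Real.cos d1.im :=
        mul_pos (by linarith) hb
      have : 0 < -q1.re *
          (Real.sin (-X1.im) * Real.cos d1.im - Real.cos (-X1.im) * -Real.sin d1.im) :=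
        mul_pos (by linarith) h4
      linarith
    exact (mul_pos_iff_of_pos_left hc).1 h5
  rw [hre, him] at h2
  have hR : 0 < Real.exp X1.re ^ 2 := by positivity
  have h6 : Real.exp X2.re ^ 2 = Real.exp (2 * (X2 - X1).re) * Real.exp X1.re ^ 2 := by
    rw [← Real.exp_nat_mul, ← Real.exp_nat_mul, ← Real.exp_add]
    congr 1
    simp only [sub_re]
    push_cast
    ring
  rw [h6] at h2
  have h7 : 0 < Real.exp d1.re * (q1.im * Real.cos d1.im - q1.re * Real.sin d1.im) :=
    mul_pos hD h3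
  have h8 : Real.exp X1.re ^ 2 * (Real.exp (2 * (X2 - X1).re) * Real.sin (2 * (X2 - d1).im)) <
      Real.exp X1.re ^ 2 * Real.sin (2 * (X1 - d1).im) := by
    calc Real.exp X1.re ^ 2 * (Real.exp (2 * (X2 - X1).re) * Real.sin (2 * (X2 - d1).im)) =
          Real.exp (2 * (X2 - X1).re) * Real.exp X1.re ^ 2 * Real.sin (2 * (X2 - d1).im) := by ring
      _ = _ := h2
      _ < _ := by nlinarith
  exact lt_of_mul_lt_mul_left h8 hR.le

/-- `0 ≤ f` implies `0 < sin 2v` -/
theorem St.geoG1 (h : St k C q0 q1 q2 q3 d0 d1 d2 X1 X2 X3) (hf : 0 ≤ (X1 - d1).im)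
    (hf' : (X1 - d1).im ≤ Real.pi / 2) :
    0 < Real.sin (2 * (X1 - X2).im) := by
  obtain ⟨h1, h2⟩ := step_id h.x1 h.x2 h.s1
  have hy := h.ysin
  have hpi := Real.pi_pos
  have hq := h.q1neg
  have hc : 0 < Real.cos (-X1.im) :=
    Real.cos_pos_of_mem_Ioo ⟨by linarith [h.a1.2], by linarith [h.a1.1]⟩
  have hre : (exp d1).re = Real.exp d1.re * Real.cos d1.im := exp_re d1
  have him : (exp d1).im = Real.exp d1.re * Real.sin d1.im := exp_im d1
  have hD : 0 < Real.exp d1.re := Real.exp_pos _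
  set f := (X1 - d1).im with hfd
  set a := -X1.im with ha
  have ea : d1.im = -(a + f) := by
    rw [hfd, ha, sub_im]
    ring
  have haf : 0 < Real.cos (a - f) :=
    Real.cos_pos_of_mem_Ioo ⟨by linarith [h.a1.2], by linarith [h.a1.1]⟩
  have hsf : 0 ≤ Real.sin f := Real.sin_nonneg_of_nonneg_of_le_pi hf (by linarith)
  have hs2f : 0 ≤ Real.sin (2 * f) :=
    Real.sin_nonneg_of_nonneg_of_le_pi (by linarith) (by linarith)
  -- `y cos (a - f) - A sin (a - f) > 0`
  have h3 : 0 < q1.im * Real.cos (a - f) - -q1.re * Real.sin (a - f) := by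
    have h5 : 0 < Real.cos a * (q1.im * Real.cos (a - f) - -q1.re * Real.sin (a - f)) := by
      have e2 : Real.cos a * (q1.im * Real.cos (a - f) - -q1.re * Real.sin (a - f)) =
          (q1.im * Real.cos a - -q1.re * Real.sin a) * Real.cos (a - f) +
            -q1.re * Real.sin f := by
        have e3 : Real.sin f = Real.sin a * Real.cos (a - f) - Real.cos a * Real.sin (a - f) := by
          rw [← Real.sin_sub]
          congr 1
          ring
        rw [e3]
        ring
      rw [e2]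
      have : 0 < (q1.im * Real.cos a - -q1.re * Real.sin a) * Real.cos (a - f) :=
        mul_pos (by linarith) haf
      have : 0 ≤ -q1.re * Real.sin f := mul_nonneg (by linarith) hsf
      linarith
    exact (mul_pos_iff_of_pos_left hc).1 h5
  -- the identity
  have hn : ‖exp d1‖ = Real.exp d1.re := norm_exp d1
  rw [hre, him, hn, ea, Real.cos_neg, Real.sin_neg] at h1
  rw [hre, him, ea, Real.cos_neg, Real.sin_neg] at h2
  have e4 : 2 * (X1 - X2).im = 2 * f - 2 * (X2 - d1).im := by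
    rw [hfd]
    simp only [sub_im]
    ring
  have hR : 0 < Real.exp X2.re ^ 2 := by positivity
  have key : Real.exp X2.re ^ 2 * Real.sin (2 * (X1 - X2).im) =
      Real.exp d1.re ^ 2 * Real.sin (2 * f) +
        2 * Real.exp d1.re * (q1.im * Real.cos (a - f) - -q1.re * Real.sin (a - f)) := by
    have e5 : Real.cos (a - f) = Real.cos (2 * f) * Real.cos (a + f) +
        Real.sin (2 * f) * Real.sin (a + f) := by
      rw [← Real.cos_sub, ← Real.cos_neg]
      congr 1
      ring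
    have e6 : Real.sin (a - f) = Real.sin (a + f) * Real.cos (2 * f) -
        Real.cos (a + f) * Real.sin (2 * f) := by
      rw [← Real.sin_sub]
      congr 1
      ring
    rw [e4, Real.sin_sub, e5, e6]
    linear_combination (Real.sin (2 * f)) * h1 - (Real.cos (2 * f)) * h2
  have h8 : 0 < Real.exp X2.re ^ 2 * Real.sin (2 * (X1 - X2).im) := by
    rw [key]
    have t1 : 0 ≤ Real.exp d1.re ^ 2 * Real.sin (2 * f) := mul_nonneg (by positivity) hs2f
    have t2 : 0 < 2 * Real.exp d1.re *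
        (q1.im * Real.cos (a - f) - -q1.re * Real.sin (a - f)) := by positivity
    linarith
  exact (mul_pos_iff_of_pos_left hR).1 h8

/-- the quadratic bound of `|tau|` -/
theorem St.tau_quad (h : St k C q0 q1 q2 q3 d0 d1 d2 X1 X2 X3) :
    Real.exp (d2 - d1).re ^ 2 *
        (Real.exp (2 * ((X3 - d2).re - (X2 - d1).re)) - Real.exp (2 * (d1 - X2).re)) ≤
      1 + Real.exp (d2 - d1).re *
        (‖1 - exp (-(2 * (X2 - X1)))‖ + Real.exp (2 * (d1 - X2).re)) := by
  have hr := h.rel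
  have e : ∀ z : ℂ, exp (2 * z) = exp z ^ 2 := by
    intro z
    rw [← Complex.exp_nat_mul]
    congr 1
  have h1 : exp (2 * (X3 - X2)) = 1 + exp (d2 - d1) * (1 - exp (-(2 * (X2 - X1)))) +
      exp (d2 - d1) * exp (2 * (d1 - X2)) + exp (d2 - d1) ^ 2 * exp (2 * (d1 - X2)) := by
    have h2 : exp (2 * X3) * exp (-(2 * X2)) = exp (2 * (X3 - X2)) := by
      rw [← exp_add]
      congr 1
      ring
    have h3 : exp (2 * X2) * exp (-(2 * X2)) = 1 := by
      rw [← exp_add, add_neg_cancel, exp_zero]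
    have h4 : exp (2 * X1) * exp (-(2 * X2)) = exp (-(2 * (X2 - X1))) := by
      rw [← exp_add]
      congr 1
      ring
    have h5 : exp d1 ^ 2 * exp (-(2 * X2)) = exp (2 * (d1 - X2)) := by
      rw [← e, ← exp_add]
      congr 1
      ring
    rw [← h2, ← h4, ← h5, hr]
    linear_combination (1 + exp (d2 - d1)) * h3
  have h2 := congrArg norm h1
  have n1 : ‖exp (2 * (X3 - X2))‖ = Real.exp (d2 - d1).re ^ 2 *
      Real.exp (2 * ((X3 - d2).re - (X2 - d1).re)) := by
    rw [norm_exp, ← Real.exp_nat_mul, ← Real.exp_add]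
    congr 1
    simp
    ring
  have n2 : ‖exp (d2 - d1)‖ = Real.exp (d2 - d1).re := norm_exp _
  have n3 : ‖exp (2 * (d1 - X2))‖ = Real.exp (2 * (d1 - X2).re) := by
    rw [norm_exp]
    congr 1
    simp
  have h3 : ‖exp (2 * (X3 - X2))‖ ≤ 1 + Real.exp (d2 - d1).re * ‖1 - exp (-(2 * (X2 - X1)))‖ +
      Real.exp (d2 - d1).re * Real.exp (2 * (d1 - X2).re) +
      Real.exp (d2 - d1).re ^ 2 * Real.exp (2 * (d1 - X2).re) := by
    rw [h1]
    refine (norm_add_le _ _).trans ?_
    refine add_le_add ((norm_add_le _ _).trans (add_le_add ((norm_add_le _ _).trans ?_) ?_)) ?_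
    · rw [norm_one, norm_mul, n2]
    · rw [norm_mul, n2, n3]
    · rw [norm_mul, norm_pow, n2, n3]
  rw [n1] at h3
  linarith

/-- `|1 - e^{-2 Lam}| ≤ |1 - T| + 2 T |v|` -/
theorem norm_one_sub_exp (Y : ℂ) :
    ‖1 - exp (-(2 * Y))‖ ≤ |1 - Real.exp (-(2 * Y.re))| + Real.exp (-(2 * Y.re)) * (2 * |Y.im|) := by
  have h1 : (1 : ℂ) - exp (-(2 * Y)) = ((1 - Real.exp (-(2 * Y.re)) : ℝ) : ℂ) +
      ((Real.exp (-(2 * Y.re)) : ℝ) : ℂ) * (1 - exp (((-(2 * Y.im) : ℝ) : ℂ) * I)) := by
    have h2 : exp (-(2 * Y)) = ((Real.exp (-(2 * Y.re)) : ℝ) : ℂ) *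
        exp (((-(2 * Y.im) : ℝ) : ℂ) * I) := by
      rw [ofReal_exp, ← exp_add]
      congr 1
      apply Complex.ext <;> simp
    rw [h2]
    push_cast
    ring
  rw [h1]
  refine (norm_add_le _ _).trans ?_
  rw [Complex.norm_real, norm_mul, Complex.norm_real, Real.norm_eq_abs, Real.norm_eq_abs,
    abs_of_pos (Real.exp_pos _)]
  have h3 : ‖(1 : ℂ) - exp (((-(2 * Y.im) : ℝ) : ℂ) * I)‖ ≤ 2 * |Y.im| := by
    have := Real.norm_exp_I_mul_ofReal_sub_one_le (x := -(2 * Y.im))
    rw [norm_sub_rev]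
    calc ‖exp (((-(2 * Y.im) : ℝ) : ℂ) * I) - 1‖ = ‖exp (I * ((-(2 * Y.im) : ℝ) : ℂ)) - 1‖ := by
          rw [mul_comm]
      _ ≤ ‖-(2 * Y.im)‖ := this
      _ = 2 * |Y.im| := by
          rw [norm_neg, norm_mul, Real.norm_eq_abs, Real.norm_eq_abs]
          norm_num
  have := mul_le_mul_of_nonneg_left h3 (Real.exp_pos (-(2 * Y.re))).le
  linarith

/-- the sign of `sin φ`, `1/p_{-2} = 1 + r e^{i φ}` -/
theorem St.sin_phase (h : St k C q0 q1 q2 q3 d0 d1 d2 X1 X2 X3) {φ : ℝ}
    (hφ : φ = k * ((X3 - d2).im - (X2 - d1).im - (X3 - X2).im)) :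
    Real.exp (k * ((X3 - d2).re - (X2 - d1).re - (X3 - X2).re)) * Real.sin φ =
      -(‖pv k C X2 d1‖⁻¹ * Real.sin (k * (X2 - d1).im)) := by
  have h1 := congrArg Complex.im h.inv_P
  rw [← hφ] at h1
  simp only [add_im, one_im, mul_im, ofReal_re, ofReal_im, exp_ofReal_mul_I_re,
    exp_ofReal_mul_I_im, zero_mul, add_zero, zero_add] at h1
  rw [← h1]
  have hC := h.C0
  have hn := norm_pv (k := k) (X := X2) (d := d1) hC
  have hP : pv k C X2 d1 ≠ 0 := pv_ne hC
  have hn0 : ‖pv k C X2 d1‖ ≠ 0 := norm_ne_zero_iff.2 hP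
  have him := pv_im (k := k) (C := C) (X := X2) (d := d1)
  rw [← hn] at him
  rw [one_div, Complex.inv_im, him, Complex.normSq_eq_norm_sq]
  field_simp

/-- the real part of `1/p_{-2}` is `e^{-L} cos F cos ψ` -/
theorem St.cos_phase' (h : St k C q0 q1 q2 q3 d0 d1 d2 X1 X2 X3)
    (he : |k * (X1 - d0).im| = Real.pi / 2)
    (hb : Real.cos (k * (X1 - d1).im) * Real.cos (k * (X2 - d1).im) ≤
      Real.exp (k * (X2 - X1).re)) {φ : ℝ}
    (hφ : φ = k * ((X3 - d2).im - (X2 - d1).im - (X3 - X2).im)) :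
    Real.cos φ ≤ 0 := by
  have h1 := congrArg Complex.re h.inv_P
  rw [← hφ] at h1
  simp only [add_re, one_re, mul_re, ofReal_re, ofReal_im, exp_ofReal_mul_I_re,
    exp_ofReal_mul_I_im, zero_mul, sub_zero] at h1
  have hC := h.C0
  have hn := norm_pv (k := k) (X := X2) (d := d1) hC
  have hP : pv k C X2 d1 ≠ 0 := pv_ne hC
  have hn0 : 0 < ‖pv k C X2 d1‖ := norm_pos_iff.2 hP
  have hre := pv_re (k := k) (C := C) (X := X2) (d := d1)
  rw [← hn] at hre
  -- `|p_{-2}| cos F = e^L`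
  have hf : (pv k C X1 d1).re = 1 := by
    rw [h.f1_eq, sub_re, one_re, pv_re_zero he, sub_zero]
  have hf' := pv_re (k := k) (C := C) (X := X1) (d := d1)
  rw [hf] at hf'
  have hm : ‖pv k C X2 d1‖ = Real.exp (k * (X2 - X1).re) *
      (Real.exp (k * (X1 - d1).re) / C) := by
    rw [hn, ← mul_div_assoc, ← Real.exp_add]
    congr 2
    simp only [sub_re]
    ring
  have h2 : ‖pv k C X2 d1‖ * Real.cos (k * (X1 - d1).im) = Real.exp (k * (X2 - X1).re) := by
    rw [hm, mul_assoc, ← hf', mul_one]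
  have h3 : (1 / pv k C X2 d1).re ≤ 1 := by
    rw [one_div, Complex.inv_re, hre, Complex.normSq_eq_norm_sq]
    have h4 : ‖pv k C X2 d1‖ * Real.cos (k * (X2 - d1).im) / ‖pv k C X2 d1‖ ^ 2 =
        Real.cos (k * (X2 - d1).im) / ‖pv k C X2 d1‖ := by
      field_simp
    rw [h4, div_le_one hn0]
    have hE := Real.exp_pos (k * (X2 - X1).re)
    have hcf : 0 < Real.cos (k * (X1 - d1).im) := by
      by_contra hcon
      push Not at hcon
      have := mul_nonpos_of_nonneg_of_nonpos hn0.le hcon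
      linarith
    rw [← h2] at hb
    have : Real.cos (k * (X1 - d1).im) * Real.cos (k * (X2 - d1).im) ≤
        Real.cos (k * (X1 - d1).im) * ‖pv k C X2 d1‖ := by linarith
    exact le_of_mul_le_mul_left this hcf
  rw [h1] at h3
  by_contra hcon
  push Not at hcon
  have := mul_pos (Real.exp_pos (k * ((X3 - d2).re - (X2 - d1).re - (X3 - X2).re))) hcon
  linarith

/-- `cos F > 0` at an exit -/
theorem St.cos_F (h : St k C q0 q1 q2 q3 d0 d1 d2 X1 X2 X3)
    (he : |k * (X1 - d0).im| = Real.pi / 2) : 0 < Real.cos (k * (X1 - d1).im) := by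
  have hf : (pv k C X1 d1).re = 1 := by
    rw [h.f1_eq, sub_re, one_re, pv_re_zero he, sub_zero]
  rw [pv_re] at hf
  have h1 : 0 < Real.exp (k * (X1 - d1).re) / C := div_pos (Real.exp_pos _) h.C0
  by_contra hcon
  push Not at hcon
  have := mul_nonpos_of_nonneg_of_nonpos h1.le hcon
  linarith

/-- the sign of `arg p_{-1}` is opposite to the sign of `sin F` -/
theorem St.sgnF (h : St k C q0 q1 q2 q3 d0 d1 d2 X1 X2 X3)
    (he : |k * (X1 - d0).im| = Real.pi / 2) :
    (0 ≤ Real.sin (k * (X1 - d1).im) → d0.im = X1.im + Real.pi / (2 * k)) ∧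
      (Real.sin (k * (X1 - d1).im) ≤ 0 → d0.im = X1.im - Real.pi / (2 * k)) := by
  have hpi := Real.pi_pos
  have hk := h.k0
  have him := congrArg Complex.im h.f1
  rw [add_im, one_im, pv_im, pv_im] at him
  have e1 : 0 < Real.exp (k * (X1 - d1).re) / C := div_pos (Real.exp_pos _) h.C0
  have e2 : 0 < Real.exp (k * (X1 - d0).re) / C := div_pos (Real.exp_pos _) h.C0
  rcases abs_cases (k * (X1 - d0).im) with ⟨h1, _⟩ | ⟨h1, _⟩
  · have h2 : k * (X1 - d0).im = Real.pi / 2 := by rw [← h1]; exact he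
    have h3 : d0.im = X1.im - Real.pi / (2 * k) := by
      rw [sub_im] at h2
      field_simp
      nlinarith
    rw [h2, Real.sin_pi_div_two, mul_one] at him
    refine ⟨fun hs => ?_, fun _ => h3⟩
    have := mul_nonneg e1.le hs
    linarith
  · have h2 : k * (X1 - d0).im = -(Real.pi / 2) := by linarith
    have h3 : d0.im = X1.im + Real.pi / (2 * k) := by
      rw [sub_im] at h2
      field_simp
      nlinarith
    rw [h2, Real.sin_neg, Real.sin_pi_div_two] at him
    refine ⟨fun _ => h3, fun hs => ?_⟩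
    have := mul_nonpos_of_nonneg_of_nonpos e1.le hs
    linarith

end EQS
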