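import Mathlib
import Pool.Agent.Lib.MP_226de1_co.E.TwoGeo
import Pool.Agent.Lib.MP_226de1_co.E.TwoCell
import Pool.Agent.Lib.MP_226de1_co.E.TwoB
import Pool.Agent.Lib.MP_226de1_co.E.TwoC
import Pool.Agent.Lib.MP_226de1_co.E.ExitHalf8

/-! Block (II) of `ExitHalf 8`: `0 ≤ L ≤ 1`, `σ ≤ 7/5` (all signs of `σ`), all `k ≥ 8`. -/

set_option autoImplicit false

namespace EQS

open Complex

variable {k C : ℝ} {q0 q1 q2 q3 d0 d1 d2 X1 X2 X3 : ℂ}

theorem St.p2' (h : St k C q0 q1 q2 q3 d0 d1 d2 X1 X2 X3) :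
    |(X2 - d1).im| < Real.pi / (2 * k) := by
  have k0 := h.k0
  have h1 := h.p2
  rw [abs_mul, abs_of_pos k0] at h1
  rw [lt_div_iff₀ (by linarith)]
  linarith

theorem St.p3' (h : St k C q0 q1 q2 q3 d0 d1 d2 X1 X2 X3) :
    |(X3 - d2).im| < Real.pi / (2 * k) := by
  have k0 := h.k0
  have h1 := h.p3
  rw [abs_mul, abs_of_pos k0] at h1
  rw [lt_div_iff₀ (by linarith)]
  linarith

theorem St.f_split : (X1 - d1).im = (X2 - d1).im + (X1 - X2).im := by
  simp

/-- `v < 0`: then `arg f_{-1} < 0` -/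
theorem St.neg_f (h : St k C q0 q1 q2 q3 d0 d1 d2 X1 X2 X3) (hk : 8 ≤ k)
    (hA : -(Real.pi / 4) ≤ X1.im) (hv : (X1 - X2).im < 0) : (X1 - d1).im < 0 := by
  have hpi := Real.pi_pos
  have k0 := h.k0
  by_contra hcon
  push Not at hcon
  have h1 := abs_lt.1 h.p2'
  have hδ : Real.pi / (2 * k) ≤ Real.pi / 16 :=
    div_le_div_of_nonneg_left hpi.le (by norm_num) (by linarith)
  have e := St.f_split (X1 := X1) (X2 := X2) (d1 := d1)
  have h2 := h.geoG1 hcon (by linarith)
  have h3 : (X1 - X2).im = X1.im - X2.im := by simp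
  have h4 := h.a2
  have h5 : Real.sin (2 * (X1 - X2).im) < 0 := by
    apply Real.sin_neg_of_neg_of_neg_pi_lt (by linarith)
    rw [h3]
    linarith
  linarith

/-- `v < 0`: the data of case C -/
theorem St.neg_v (h : St k C q0 q1 q2 q3 d0 d1 d2 X1 X2 X3) (hk : 8 ≤ k)
    (hA : -(Real.pi / 4) ≤ X1.im) (he : |k * (X1 - d0).im| = Real.pi / 2)
    (hL : k * (X2 - X1).re ≤ 1) (hv : (X1 - X2).im < 0) :
    (X2 - d1).im < 0 ∧ |k * (X1 - d1).im| < Real.pi / 2 ∧
      0 < (X2 - X1).re ∧ -(X1 - X2).im ≤ 21 / 50 * (X2 - X1).re := by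
  have hpi := Real.pi_pos
  have hpi3 := Real.pi_gt_three
  have hpi4 := Real.pi_lt_d4
  have k0 := h.k0
  have hf := h.neg_f hk hA hv
  have hp := abs_lt.1 h.p2'
  have hδ : Real.pi / (2 * k) ≤ Real.pi / 16 :=
    div_le_div_of_nonneg_left hpi.le (by norm_num) (by linarith)
  have hkδ : k * (Real.pi / (2 * k)) = Real.pi / 2 := by field_simp
  have e := St.f_split (X1 := X1) (X2 := X2) (d1 := d1)
  have h3 : (X1 - X2).im = X1.im - X2.im := by simp
  have h4 := h.a2
  have hv4 : -(Real.pi / 4) < (X1 - X2).im := by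
    rw [h3]
    linarith
  have hg2 := h.geoG2 hf (by linarith)
  set δ := Real.pi / (2 * k) with hδd
  set p := (X2 - d1).im with hpd
  set v := (X1 - X2).im with hvd
  set f := (X1 - d1).im with hfd
  set l := (X2 - X1).re with hld
  have hl8 : l ≤ 1 / 8 := by
    by_contra hcon
    push Not at hcon
    nlinarith
  have hsf : Real.sin (2 * f) < 0 := by
    apply Real.sin_neg_of_neg_of_neg_pi_lt (by linarith)
    linarith
  have hsp : Real.sin (2 * p) < 0 := by
    by_contra hcon
    push Not at hcon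
    have := mul_nonneg (Real.exp_pos (2 * l)).le hcon
    linarith
  have hp0 : p < 0 := by
    by_contra hcon
    push Not at hcon
    have := Real.sin_nonneg_of_nonneg_of_le_pi (x := 2 * p) (by linarith) (by linarith)
    linarith
  -- positive form
  have hs : Real.sin (2 * (-f)) < Real.exp (2 * l) * Real.sin (2 * (-p)) := by
    have e1 : Real.sin (2 * (-f)) = -Real.sin (2 * f) := by
      rw [← Real.sin_neg]
      congr 1
      ring
    have e2 : Real.sin (2 * (-p)) = -Real.sin (2 * p) := by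
      rw [← Real.sin_neg]
      congr 1
      ring
    rw [e1, e2]
    linarith
  have hE : Real.exp (2 * l) ≤ 1.3 := by
    have h5 : Real.exp (2 * l) ≤ Real.exp (1 / 4) := Real.exp_le_exp.2 (by linarith)
    have h6 := exp_le_cubic (x := 1 / 4) (by norm_num) (by norm_num)
    norm_num at h6 ⊢
    linarith
  have hs2 : Real.sin (2 * (-p)) ≤ 2 * (-p) := Real.sin_le (by linarith)
  have hs3 : Real.sin (2 * (-f)) < 1.3 * (2 * δ) := by
    refine hs.trans_le ?_
    apply mul_le_mul hE (by linarith) _ (by norm_num)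
    exact Real.sin_nonneg_of_nonneg_of_le_pi (by linarith) (by linarith)
  have hδk : δ * (2 * k) = Real.pi := by
    rw [hδd]
    field_simp
  have hk3 : k * (-f) < 3 * Real.pi / 2 := by
    by_contra hcon
    push Not at hcon
    have hf3 : 3 * δ ≤ -f := by
      have : k * (3 * δ) ≤ k * (-f) := by linarith
      exact le_of_mul_le_mul_left this k0
    rcases le_or_gt (2 * (-f)) (Real.pi / 2) with h7 | h7
    · have h8 := Real.mul_le_sin (x := 2 * (-f)) (by linarith) h7
      have h9 : 2 / Real.pi * (2 * (3 * δ)) ≤ 2 / Real.pi * (2 * (-f)) := by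
        apply mul_le_mul_of_nonneg_left (by linarith)
        positivity
      have h10 : 0.6 ≤ 2 / Real.pi := by
        rw [le_div_iff₀ hpi]
        linarith
      have hδ0 : 0 < δ := by
        rw [hδd]
        positivity
      have h11 : 0.6 * (2 * (3 * δ)) ≤ 2 / Real.pi * (2 * (3 * δ)) :=
        mul_le_mul_of_nonneg_right h10 (by linarith)
      linarith
    · have h8 : Real.sin (2 * (-f)) = Real.cos (2 * (-f) - Real.pi / 2) := by
        rw [Real.cos_sub_pi_div_two]
      have h9 : 2 * (-f) - Real.pi / 2 ≤ Real.pi / 8 := by linarith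
      have h10 := Real.one_sub_sq_div_two_le_cos (x := 2 * (-f) - Real.pi / 2)
      have h11 : (2 * (-f) - Real.pi / 2) ^ 2 ≤ (0.4) ^ 2 := by
        apply pow_le_pow_left₀ (by linarith)
        linarith
      rw [h8] at hs3
      norm_num at h11
      linarith
  have hcF := h.cosF he
  have hF : |k * f| < Real.pi / 2 := by
    rw [abs_lt]
    have h7 : k * f < 0 := mul_neg_of_pos_of_neg k0 hf
    refine ⟨?_, by linarith⟩
    by_contra hcon
    push Not at hcon
    have h8 := Real.cos_nonpos_of_pi_div_two_le_of_le (x := -(k * f)) (by linarith) (by linarith)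
    rw [Real.cos_neg] at h8
    linarith
  have hfδ : -f < δ := by
    have h7 := (abs_lt.1 hF).1
    have : k * (-f) < k * δ := by linarith
    exact lt_of_mul_lt_mul_left this k0.le
  refine ⟨hp0, hF, ?_⟩
  apply V_le (P := -p) (V := -v) (l := l) (by linarith) (by linarith) (by linarith)
  have e1 : 2 * -p + 2 * -v = 2 * (-f) := by
    rw [e]
    ring
  rw [e1]
  exact hs

/-- `v ≥ 0`: the sheet -/
theorem St.pos_v (h : St k C q0 q1 q2 q3 d0 d1 d2 X1 X2 X3)
    (he : |k * (X1 - d0).im| = Real.pi / 2)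
    (hσ : k * (X1 - X2).im ≤ 7 / 5) (hv : 0 ≤ (X1 - X2).im) :
    |k * (X1 - d1).im| < Real.pi / 2 := by
  have hpi3 := Real.pi_gt_three
  have k0 := h.k0
  have hp := abs_lt.1 h.p2
  have e := St.f_split (X1 := X1) (X2 := X2) (d1 := d1)
  have hkv := mul_nonneg k0.le hv
  have e2 : k * (X1 - d1).im = k * (X2 - d1).im + k * (X1 - X2).im := by
    rw [e]
    ring
  rw [abs_lt]
  refine ⟨by linarith, ?_⟩
  by_contra hcon
  push Not at hcon
  have h8 := Real.cos_nonpos_of_pi_div_two_le_of_le (x := k * (X1 - d1).im) hcon (by linarith)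
  have := h.cosF he
  linarith

/-- the real data of block (II) -/
theorem St.rf (h : St k C q0 q1 q2 q3 d0 d1 d2 X1 X2 X3) (hk : 8 ≤ k)
    (hA : -(Real.pi / 4) ≤ X1.im) (he : |k * (X1 - d0).im| = Real.pi / 2)
    (hn : ‖pv k C X2 d1 - pv k C X3 d2‖ ^ 2 * ((exp d0).re * (exp d0 + exp d1).re) ≤
      ‖exp d1‖ ^ 2 * ((pv k C X2 d1).re * (pv k C X3 d2).re))
    (hL : k * (X2 - X1).re ≤ 1) (hσ : k * (X1 - X2).im ≤ 7 / 5)
    (hF : |k * (X1 - d1).im| < Real.pi / 2) :
    RF k (-X1.im) (X1 - X2).im (X2 - d1).im ((X3 - d2).im - (X2 - d1).im) (X2 - X3).im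
      (X2 - X1).re ((X3 - d2).re - (X2 - d1).re) (X3 - X2).re (Real.exp (2 * (d1 - X2).re))
      (Real.exp (d2 - d1).re) (Real.cos d0.im) (Real.cos d1.im)
      ‖(k : ℂ) * ((X3 - d2) - (X2 - d1))‖ := by
  have hpi := Real.pi_pos
  have k0 := h.k0
  have e := St.f_split (X1 := X1) (X2 := X2) (d1 := d1)
  have hv3 : (X1 - X2).im = X1.im - X2.im := by simp
  have hc0 := h.cos0
  have hc1 := h.cos1
  have hφ : k * ((X3 - d2).im - (X2 - d1).im) + k * (X2 - X3).im =
      k * ((X3 - d2).im - (X2 - d1).im - (X3 - X2).im) := by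
    simp
    ring
  have hkp := abs_lt.1 h.p2
  have hP0 : 0 < ‖pv k C X2 d1‖⁻¹ := inv_pos.2 (norm_pos_iff.2 (pv_ne h.C0))
  refine
    { hk := hk
      ha0 := by linarith [h.a1.2]
      ha1 := by linarith
      hv1 := hσ
      hp := h.p2'
      hpg := by
        have e1 : (X2 - d1).im + ((X3 - d2).im - (X2 - d1).im) = (X3 - d2).im := by ring
        rw [e1]
        exact h.p3'
      hl1 := hL
      hw := ?_
      hμ0 := Real.exp_pos _
      hμ := ?_
      hτ0 := Real.exp_pos _
      c0p := ?_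
      c0n := ?_
      c1e := ?_
      hc0 := hc0
      hc1 := hc1
      flow := ?_
      hN0 := norm_nonneg _
      hN := ?_
      pick := ?_
      phase := ?_
      hsin := ?_
      hsin' := ?_
      hF := by
        rw [← e]
        exact hF
      τq := ?_
      τ3 := ?_
      hF2 := ?_ }
  · have h2 := h.a2
    have h3 := h.a3
    have e1 : (X2 - X3).im = X2.im - X3.im := by simp
    rw [e1, abs_lt]
    constructor <;> linarith
  · have h1 := h.F1_ge he
    have h2 := mul_le_mul_of_nonneg_left h1 (Real.exp_pos (-(2 * (X2 - X1).re))).le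
    rw [← mul_assoc, ← Real.exp_add, neg_add_cancel, Real.exp_zero, one_mul, mul_add,
      ← mul_assoc, ← Real.exp_add] at h2
    have e1 : -(2 * (X2 - X1).re) + (2 * (d1 - X1)).re = 2 * (d1 - X2).re := by
      simp
      ring
    have e2 : -X1.im - (X1 - d1).im = -X1.im - (X2 - d1).im - (X1 - X2).im := by
      rw [e]
      ring
    have e3 : -X2.im - (X2 - d1).im = -X1.im - (X2 - d1).im + (X1 - X2).im := by
      rw [hv3]
      ring
    rw [e1, e2, e3] at h2
    linarith
  · intro hf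
    have h1 := (h.sgnF he).1 (by
      rw [e]
      apply Real.sin_nonneg_of_nonneg_of_le_pi (mul_nonneg k0.le hf)
      rw [← e]
      linarith [(abs_lt.1 hF).2])
    rw [h1, ← Real.cos_neg]
    congr 1
    ring
  · intro hf
    have h1 := (h.sgnF he).2 (by
      rw [e]
      apply Real.sin_nonpos_of_nonpos_of_neg_pi_le (mul_nonpos_of_nonneg_of_nonpos k0.le hf)
      rw [← e]
      linarith [(abs_lt.1 hF).1])
    rw [h1, ← Real.cos_neg]
    congr 1
    ring
  · rw [← e, ← Real.cos_neg]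
    congr 1
    simp
    ring
  · have h1 := h.flow_im
    have e1 : (X2 - X3).im + ((X3 - d2).im - (X2 - d1).im) = (d1 - d2).im := by
      simp
      ring
    rw [e1]
    exact h1
  · rw [← Complex.normSq_eq_norm_sq, Complex.normSq_apply]
    simp
    ring
  · have h1 := h.spl (s := Real.cos d0.im * (Real.cos d0.im + Real.cos d1.im))
      (by positivity) (h.s_ge he) hn
    exact h1
  · have h1 := h.phase he (φ := k * ((X3 - d2).im - (X2 - d1).im) + k * (X2 - X3).im) hφ
    have e1 : -(k * (X2 - X1).im) = k * (X1 - X2).im := by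
      simp
      ring
    rw [e1] at h1
    exact h1
  · intro hp
    have h1 := h.sin_phase hφ
    have h2 : Real.sin (k * (X2 - d1).im) ≤ 0 := by
      apply Real.sin_nonpos_of_nonpos_of_neg_pi_le (mul_nonpos_of_nonneg_of_nonpos k0.le hp)
      linarith
    by_contra hcon
    push Not at hcon
    have h3 := mul_neg_of_pos_of_neg
      (Real.exp_pos (k * ((X3 - d2).re - (X2 - d1).re - (X3 - X2).re))) hcon
    have h4 := mul_nonpos_of_nonneg_of_nonpos hP0.le h2
    linarith
  · intro hp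
    have h1 := h.sin_phase hφ
    have h2 : 0 < Real.sin (k * (X2 - d1).im) := by
      apply Real.sin_pos_of_pos_of_lt_pi (mul_pos k0 hp)
      linarith
    by_contra hcon
    push Not at hcon
    have h3 := mul_nonneg
      (Real.exp_pos (k * ((X3 - d2).re - (X2 - d1).re - (X3 - X2).re))).le hcon
    have h4 := mul_pos hP0 h2
    linarith
  · have h1 := h.tau_quad
    have h2 := norm_one_sub_exp (X2 - X1)
    have e1 : |(X2 - X1).im| = |(X1 - X2).im| := by
      rw [← abs_neg]
      congr 1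
      simp
    rw [e1] at h2
    have h3 := Real.exp_pos (d2 - d1).re
    refine h1.trans ?_
    have h4 := mul_le_mul_of_nonneg_left h2 h3.le
    linarith
  · intro hl
    have h1 := h.tau_norm
    have h2 := h.inv_norm he
    by_contra hcon
    push Not at hcon
    have h3 : Real.exp (-(k * (X2 - X1).re)) ≤ Real.exp (-(3 / 10)) := Real.exp_le_exp.2 (by linarith)
    have h4 := h3.trans (exp_neg_le4 (x := 3 / 10) (by norm_num))
    have h5 : 0.259 ≤ ‖(pv k C X2 d1)⁻¹ - 1‖ := by
      norm_num only at h4 ⊢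
      linarith
    have hx : 0 < (d2 - d1).re := by
      rw [← Real.exp_lt_exp, Real.exp_zero]
      linarith
    have h6 : Real.exp (d2 - d1).re ^ 8 ≤ Real.exp (k * (d2 - d1).re) := by
      rw [← Real.exp_nat_mul]
      apply Real.exp_le_exp.2
      push_cast
      exact mul_le_mul_of_nonneg_right hk hx.le
    have h7 : (6 / 5 : ℝ) ^ 8 ≤ Real.exp (d2 - d1).re ^ 8 :=
      pow_le_pow_left₀ (by norm_num) hcon.le 8
    have h8 : (6 / 5 : ℝ) ^ 8 * 0.259 ≤
        Real.exp (k * (d2 - d1).re) * ‖(pv k C X2 d1)⁻¹ - 1‖ :=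
      mul_le_mul (h7.trans h6) h5 (by norm_num) (Real.exp_pos _).le
    rw [h1] at h8
    norm_num at h8
  · intro hp hv
    apply h.F2 hA _ (by linarith)
    linarith [h.a1.2]

/-- **Block (II) of `ExitHalf 8`** -/
theorem blk_two : Blk (fun L σ _ => 0 ≤ L ∧ L ≤ 1 ∧ σ ≤ 1.4) := by
  intro k C q0 q1 q2 q3 d0 d1 d2 X1 X2 X3 hk h hA he hn hQ
  obtain ⟨hL0, hL1, hσ⟩ := hQ
  have k0 := h.k0
  have hσ' : k * (X1 - X2).im ≤ 7 / 5 := by
    norm_num at hσ ⊢
    exact hσ
  have hl0 : 0 ≤ (X2 - X1).re := nonneg_of_mul_nonneg_right hL0 k0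
  have hcos : Real.cos (k * ((X3 - d2).im - (X2 - d1).im) + k * (X2 - X3).im) ≤ 0 := by
    apply h.cos_phase he hl0
    simp
    ring
  rcases le_or_gt 0 (X1 - X2).im with hv | hv
  · have hF := h.pos_v he hσ' hv
    have H := h.rf hk hA he hn hL1 hσ' hF
    rcases le_or_gt (X2 - d1).im 0 with hp | hp
    · exact H.falseA hv hp hcos
    · exact H.falseB hv hp hcos
  · obtain ⟨hp, hF, hl, hV⟩ := h.neg_v hk hA he hL1 hv
    have H := h.rf hk hA he hn hL1 hσ' hF
    exact H.falseC hv hp hl hV hcos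

end EQS
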