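import Mathlib
import Pool.Agent.Lib.MP_226de1_co.E.ExitHalf8
import Pool.Agent.Lib.MP_226de1_co.E.LNeg
import Pool.Agent.Lib.MP_226de1_co.E.BlkC
import Pool.Agent.Lib.MP_226de1_co.E.Two
import Pool.Agent.Lib.MP_226de1_co.E.J0
import Pool.Agent.Lib.MP_226de1_co.E.JZone

/-! `ExitHalf 8` from the remaining block `F > 3π/2`. -/

set_option autoImplicit false

namespace EQS

theorem exitHalf8_of_J1
    (hJ1 : Blk (fun L σ F => 0 ≤ L ∧ L ≤ 1.7 ∧ 1.4 ≤ σ ∧ 3 * Real.pi / 2 < F)) :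
    ExitHalf 8 := by
  apply exitHalf8_of blk_neg blk_C2 blk_C3 blk_two
  intro k C q0 q1 q2 q3 d0 d1 d2 X1 X2 X3 hk h hA he hn hQ
  obtain ⟨h1, h2, h3⟩ := hQ
  rcases le_or_gt (k * (X1 - d1).im) (3 * Real.pi / 2) with h4 | h4
  · exact blk_J0 k C q0 q1 q2 q3 d0 d1 d2 X1 X2 X3 hk h hA he hn ⟨h1, h2, h3, h4⟩
  · exact hJ1 k C q0 q1 q2 q3 d0 d1 d2 X1 X2 X3 hk h hA he hn ⟨h1, h2, h3, h4⟩

end EQS
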