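import Mathlib
import Pool.Agent.Lib.MP_226de1_co.E.Mid

/-! The final (pure, real) inequalities of block (III). -/

set_option autoImplicit false

namespace EQS

open Complex

/-- `e^f ≥ 1 + f + f²/2` -/
theorem exp_ge_quad {f : ℝ} (hf : 0 ≤ f) : 1 + f + f ^ 2 / 2 ≤ Real.exp f :=
  Real.quadratic_le_exp_of_nonneg hf

/-- `2 y² ≥ (1 + 3f/2 + f²)(1 + y)` at `y = e^f`, strictly -/
theorem final_exp {f : ℝ} (hf : 0 < f) :
    (1 + 3 / 2 * f + f ^ 2) * (1 + Real.exp f) < 2 * Real.exp f ^ 2 := by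
  have h1 := exp_ge_quad hf.le
  set y := Real.exp f with hy
  set y0 := 1 + f + f ^ 2 / 2 with hy0
  have h2 : (1 + 3 / 2 * f + f ^ 2) * (1 + y0) < 2 * y0 ^ 2 := by
    have : 2 * y0 ^ 2 - (1 + 3 / 2 * f + f ^ 2) * (1 + y0) = f ^ 3 / 4 := by
      rw [hy0]; ring
    have h3 : 0 < f ^ 3 / 4 := by positivity
    linarith
  have h4 : 2 * y ^ 2 - (1 + 3 / 2 * f + f ^ 2) * (1 + y) -
      (2 * y0 ^ 2 - (1 + 3 / 2 * f + f ^ 2) * (1 + y0)) =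
      (y - y0) * (2 * (y + y0) - (1 + 3 / 2 * f + f ^ 2)) := by ring
  have h5 : 0 ≤ (y - y0) * (2 * (y + y0) - (1 + 3 / 2 * f + f ^ 2)) := by
    apply mul_nonneg (by linarith)
    have : 0 ≤ f ^ 2 := sq_nonneg f
    rw [hy0] at h1 ⊢
    linarith
  linarith

/-- FINAL: `1 + m < s m²` for `m = e^f`, `s ≥ 2/(1 + X2)`, `X2 ≤ 3f/2 + f²` -/
theorem final_m {X2 f s : ℝ} (hf : 0 < f) (hX : X2 ≤ 3 / 2 * f + f ^ 2)
    (hs : 2 ≤ s * (1 + X2)) (hX0 : 0 ≤ X2) : 1 + Real.exp f < s * Real.exp f ^ 2 := by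
  have h1 := final_exp hf
  have hy : 0 < Real.exp f := Real.exp_pos f
  have h2 : 0 < 1 + X2 := by linarith
  have h3 : (1 + X2) * (1 + Real.exp f) < 2 * Real.exp f ^ 2 := by
    have : (1 + X2) * (1 + Real.exp f) ≤ (1 + 3 / 2 * f + f ^ 2) * (1 + Real.exp f) :=
      mul_le_mul_of_nonneg_right (by linarith) (by linarith)
    linarith
  have h4 : 2 * Real.exp f ^ 2 ≤ s * (1 + X2) * Real.exp f ^ 2 :=
    mul_le_mul_of_nonneg_right hs (by positivity)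
  have h5 : (1 + X2) * (1 + Real.exp f) < (1 + X2) * (s * Real.exp f ^ 2) := by
    calc _ < _ := h3
      _ ≤ _ := h4
      _ = _ := by ring
  exact lt_of_mul_lt_mul_left h5 h2.le

/-- version with `s` bounded from below by the rational function of `f` -/
theorem final_s {f s : ℝ} (hf : 0 < f) (hs : 2 ≤ s * (1 + 3 / 2 * f + f ^ 2)) :
    1 + Real.exp f < s * Real.exp f ^ 2 :=
  final_m (X2 := 3 / 2 * f + f ^ 2) hf le_rfl (by linarith) (by positivity)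

/-- `|1 + Λ| ≤ e^{l + θ²/2}` -/
theorem norm_one_add_le {Lam : ℂ} (hl : 0 ≤ Lam.re) :
    ‖1 + Lam‖ ≤ Real.exp (Lam.re + Lam.im ^ 2 / 2) := by
  have h1 : ‖1 + Lam‖ ^ 2 ≤ Real.exp (Lam.re + Lam.im ^ 2 / 2) ^ 2 := by
    have e1 : ‖1 + Lam‖ ^ 2 = (1 + Lam.re) ^ 2 + Lam.im ^ 2 := by
      rw [← normSq_eq_norm_sq, normSq_apply]; simp; ring
    have e2 : Real.exp (Lam.re + Lam.im ^ 2 / 2) ^ 2 =
        Real.exp Lam.re ^ 2 * Real.exp (Lam.im ^ 2) := by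
      rw [← Real.exp_nat_mul, ← Real.exp_nat_mul, ← Real.exp_add]
      congr 1; push_cast; ring
    have h2 : 1 + Lam.re ≤ Real.exp Lam.re := by
      have := Real.add_one_le_exp Lam.re; linarith
    have h3 : (1 + Lam.re) ^ 2 ≤ Real.exp Lam.re ^ 2 :=
      pow_le_pow_left₀ (by linarith) h2 2
    have h4 : 1 + Lam.im ^ 2 ≤ Real.exp (Lam.im ^ 2) := by
      have := Real.add_one_le_exp (Lam.im ^ 2); linarith
    rw [e1, e2]
    calc (1 + Lam.re) ^ 2 + Lam.im ^ 2 ≤ (1 + Lam.re) ^ 2 * (1 + Lam.im ^ 2) := by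
          have : 1 ≤ (1 + Lam.re) ^ 2 := one_le_pow₀ (by linarith)
          nlinarith [sq_nonneg Lam.im]
      _ ≤ _ := mul_le_mul h3 h4 (by positivity) (by positivity)
  exact le_of_sq_le_sq h1 (Real.exp_pos _).le

/-- MID in exponential form -/
theorem mid_exp {om Lam : ℂ} {d : ℝ} (h1 : ‖om‖ ≤ d) (hd : d ≤ 11 / 10) (h2 : ‖Lam‖ ≤ 1 / 2)
    (hl : 0 ≤ Lam.re) :
    ‖exp ((1 + Lam) * om) - 1‖ ≤
      Real.exp (‖Lam‖ * (d / 2 + d ^ 2 / 7) + Lam.re + Lam.im ^ 2 / 2) * ‖exp om - 1‖ := by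
  have h3 := mid (om := om) (Lam := Lam) (h1.trans hd) h2
  refine h3.trans (mul_le_mul_of_nonneg_right ?_ (norm_nonneg _))
  have h4 : Real.exp ((Lam * om).re / 2) ≤ Real.exp (‖Lam‖ * (d / 2)) := by
    apply Real.exp_le_exp.2
    have h5 := (le_abs_self _).trans (Complex.abs_re_le_norm (Lam * om))
    rw [norm_mul] at h5
    have h6 : ‖Lam‖ * ‖om‖ ≤ ‖Lam‖ * d := mul_le_mul_of_nonneg_left h1 (norm_nonneg _)
    linarith
  have h5 := norm_one_add_le hl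
  have h6 : 1 + ‖Lam‖ * ‖om‖ ^ 2 / 7 ≤ Real.exp (‖Lam‖ * (d ^ 2 / 7)) := by
    have h7 := Real.add_one_le_exp (‖Lam‖ * (d ^ 2 / 7))
    have h8 : ‖om‖ ^ 2 ≤ d ^ 2 := pow_le_pow_left₀ (norm_nonneg _) h1 2
    have h9 := mul_le_mul_of_nonneg_left h8 (norm_nonneg Lam)
    linarith
  calc Real.exp ((Lam * om).re / 2) * ‖1 + Lam‖ * (1 + ‖Lam‖ * ‖om‖ ^ 2 / 7)
      ≤ Real.exp (‖Lam‖ * (d / 2)) * Real.exp (Lam.re + Lam.im ^ 2 / 2) *
        Real.exp (‖Lam‖ * (d ^ 2 / 7)) := by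
        apply mul_le_mul (mul_le_mul h4 h5 (norm_nonneg _) (by positivity)) h6 (by positivity)
          (by positivity)
    _ = _ := by
        rw [← Real.exp_add, ← Real.exp_add]
        congr 1; ring

theorem f_poly {y : ℝ} (h1 : 153 / 1000 ≤ y) (h2 : y ≤ 17 / 14) :
    (1 + y ^ 2) * (3536 / 10000) + (1 + y ^ 2) * (1 + y ^ 2 / 2) / 14 + y + (y / 4 + 1 / 20) ≤
      32 / 7 * y := by
  have h3 : y ^ 2 ≤ (17 / 14 + 153 / 1000) * y - 153 / 1000 * (17 / 14) := by nlinarith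
  have h4 : y ^ 2 ≤ (17 / 14) ^ 2 := pow_le_pow_left₀ (by linarith) h2 2
  have h5 : y ^ 2 * y ^ 2 ≤ (17 / 14) ^ 2 * y ^ 2 :=
    mul_le_mul_of_nonneg_right h4 (sq_nonneg y)
  nlinarith

/-- lemma B: `f ≥ (3/5) x`, where `x = L/σ`, `θ = σ/k` -/
theorem f_ge {x σ θ : ℝ} (hx : 0 ≤ x) (hσ : 7 / 5 ≤ σ) (hσ2 : σ ≤ Real.pi)
    (hL : x * σ ≤ 17 / 10) (hθ0 : 0 ≤ θ) (hθ : θ ≤ σ / 8)
    (hK : θ * (2 * σ - Real.pi / 2) ≤ x * σ) :
    3 / 5 * x ≤ x * σ - (θ * (1 + x ^ 2) * (3536 / 10000) +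
      θ * ((1 + x ^ 2) * (1 + x ^ 2 / 2)) / 14 + x * θ + θ ^ 2 / 2) := by
  have hpi1 := Real.pi_gt_d2
  have hpi2 := Real.pi_lt_d2
  have hx1 : x ≤ 17 / 14 := by nlinarith
  have key : θ * ((1 + x ^ 2) * (3536 / 10000) + (1 + x ^ 2) * (1 + x ^ 2 / 2) / 14 + x +
      σ / 16) ≤ 4 / 7 * (x * σ) := by
    rcases le_total (2 * σ - Real.pi / 2) (8 * x) with hA | hB
    · have h1 := f_poly (y := x) (by linarith) hx1
      have h2 : (1 + x ^ 2) * (3536 / 10000) + (1 + x ^ 2) * (1 + x ^ 2 / 2) / 14 + x +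
          σ / 16 ≤ 32 / 7 * x := by linarith
      calc _ ≤ θ * (32 / 7 * x) := mul_le_mul_of_nonneg_left h2 hθ0
        _ ≤ σ / 8 * (32 / 7 * x) := mul_le_mul_of_nonneg_right hθ (by linarith)
        _ = _ := by ring
    · set y := (2 * σ - Real.pi / 2) / 8 with hy
      have hxy : x ≤ y := by rw [hy]; linarith
      have h1 := f_poly (y := y) (by rw [hy]; linarith) (by rw [hy]; linarith)
      have h3 : x ^ 2 ≤ y ^ 2 := pow_le_pow_left₀ hx hxy 2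
      have h4 : (1 + x ^ 2) * (1 + x ^ 2 / 2) ≤ (1 + y ^ 2) * (1 + y ^ 2 / 2) :=
        mul_le_mul (by linarith) (by linarith) (by positivity) (by positivity)
      have h2 : (1 + x ^ 2) * (3536 / 10000) + (1 + x ^ 2) * (1 + x ^ 2 / 2) / 14 + x +
          σ / 16 ≤ 32 / 7 * y := by
        have : σ / 16 ≤ y / 4 + 1 / 20 := by rw [hy]; linarith
        linarith
      have h5 : θ * (8 * y) ≤ x * σ := by rw [hy]; linarith
      calc _ ≤ θ * (32 / 7 * y) := mul_le_mul_of_nonneg_left h2 hθ0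
        _ = 4 / 7 * (θ * (8 * y)) := by ring
        _ ≤ _ := by linarith
  have h6 : θ ^ 2 / 2 ≤ θ * (σ / 16) := by
    have := mul_le_mul_of_nonneg_left hθ hθ0
    linarith
  have h7 : 3 / 5 * x ≤ 3 / 7 * (x * σ) := by
    have := mul_le_mul_of_nonneg_left hσ hx
    linarith
  have h8 : θ * (1 + x ^ 2) * (3536 / 10000) +
      θ * ((1 + x ^ 2) * (1 + x ^ 2 / 2)) / 14 + x * θ + θ * (σ / 16) =
      θ * ((1 + x ^ 2) * (3536 / 10000) + (1 + x ^ 2) * (1 + x ^ 2 / 2) / 14 + x +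
      σ / 16) := by ring
  linarith

/-- `X² ≤ 3f/2 + f²` from `f ≥ (3/5) x`, with the slack `.9 x - .64 x²` -/
theorem X_le {x f X2 : ℝ} (hx : 0 ≤ x) (hf : 3 / 5 * x ≤ f)
    (hX : X2 ≤ 9 / 10 * x + 9 / 25 * x ^ 2) : X2 ≤ 3 / 2 * f + f ^ 2 := by
  have h1 : (3 / 5 * x) ^ 2 ≤ f ^ 2 := pow_le_pow_left₀ (by positivity) hf 2
  nlinarith

/-- `√(1+x²) · d ≤ (1+x²)/√2`, `√(1+x²) d² ≤ (1+x²)(1+x²/2)/2`, for `d² ≤ (1+x²)/2` -/
theorem norm_Lam_le {x θ n d : ℝ} (hθ : 0 ≤ θ) (hn : n ^ 2 ≤ θ ^ 2 * (1 + x ^ 2))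
    (hd : d ^ 2 ≤ (1 + x ^ 2) / 2) :
    n * (d / 2 + d ^ 2 / 7) ≤ θ * (1 + x ^ 2) * (3536 / 10000) +
      θ * ((1 + x ^ 2) * (1 + x ^ 2 / 2)) / 14 := by
  have hx1 : 0 < 1 + x ^ 2 := by positivity
  have h1 : n * d ≤ θ * (1 + x ^ 2) * (7072 / 10000) := by
    apply le_of_sq_le_sq _ (by positivity)
    have h2 : n ^ 2 * d ^ 2 ≤ (θ ^ 2 * (1 + x ^ 2)) * ((1 + x ^ 2) / 2) :=
      mul_le_mul hn hd (sq_nonneg _) (by positivity)
    have h3 : 0 ≤ θ ^ 2 * (1 + x ^ 2) ^ 2 := by positivity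
    nlinarith
  have h2 : n ≤ θ * (1 + x ^ 2 / 2) := by
    apply le_of_sq_le_sq _ (by positivity)
    have h3 : 0 ≤ θ ^ 2 * (x ^ 2 / 2) ^ 2 := by positivity
    nlinarith
  have h3 : n * d ^ 2 ≤ θ * (1 + x ^ 2 / 2) * ((1 + x ^ 2) / 2) :=
    mul_le_mul h2 hd (sq_nonneg _) (by positivity)
  nlinarith

end EQS
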