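import Mathlib
import Pool.Agent.Lib.MP_226de1_co.E.ExitHalf8
import Pool.Agent.Lib.MP_226de1_co.E.LNeg
import Pool.Agent.Lib.MP_226de1_co.E.BlkC
import Pool.Agent.Lib.MP_226de1_co.E.Two
import Pool.Agent.Lib.MP_226de1_co.E.J0

set_option autoImplicit false

namespace EQS

/-- `ExitHalf 8` from its last block (III), sheets `F ≥ π/2` (file `E/J1.lean`) -/
theorem exitHalf8_of_J1'
    (hJ1 : Blk (fun L _ F => 0 ≤ L ∧ L ≤ 1.7 ∧ Real.pi / 2 ≤ F)) : ExitHalf 8 := by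
  refine exitHalf8_of blk_neg blk_C2 blk_C3 blk_two ?_
  intro k C q0 q1 q2 q3 d0 d1 d2 X1 X2 X3 hk h hA he hcon hQ
  rcases le_or_gt (k * (X1 - d1).im) (3 * Real.pi / 2) with hF | hF
  · exact blk_J0 k C q0 q1 q2 q3 d0 d1 d2 X1 X2 X3 hk h hA he hcon ⟨hQ.1, hQ.2.1, hQ.2.2, hF⟩
  · exact hJ1 k C q0 q1 q2 q3 d0 d1 d2 X1 X2 X3 hk h hA he hcon
      ⟨hQ.1, hQ.2.1, by linarith [Real.pi_pos]⟩

end EQS
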