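import Mathlib
import Pool.Agent.Lib.MP_226de1_co.E.NumReal

/-! Real estimates for the block `σ ≥ π` of `ExitHalf 8`. -/

set_option autoImplicit false

namespace EQS

namespace J1

/-- `cos y ≤ 1 - y²/2 + y⁴/24` -/
theorem cos_le4 {y : ℝ} (hy : |y| ≤ 2) : Real.cos y ≤ 1 - y ^ 2 / 2 + y ^ 4 / 24 := by
  have h0 : Real.cos y = Real.cos |y| := (Real.cos_abs y).symm
  have e2 : y ^ 2 = |y| ^ 2 := (sq_abs y).symm
  have e4 : y ^ 4 = |y| ^ 4 := by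
    rw [show (4 : ℕ) = 2 * 2 by norm_num, pow_mul, pow_mul, sq_abs]
  rw [h0, e2, e4]
  set x := |y| with hx
  have hx0 : 0 ≤ x := abs_nonneg y
  have h1 : Real.cos x = 1 - 2 * Real.sin (x / 2) ^ 2 := by
    have := Real.cos_two_mul (x / 2)
    have h2 := Real.sin_sq_add_cos_sq (x / 2)
    rw [show 2 * (x / 2) = x by ring] at this
    rw [this]
    linarith
  have h3 : x / 2 - (x / 2) ^ 3 / 6 ≤ Real.sin (x / 2) := Real.sin_ge_sub_cube (by linarith)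
  have h4 : 0 ≤ x / 2 - (x / 2) ^ 3 / 6 := by
    have : x / 2 - (x / 2) ^ 3 / 6 = x / 2 * (1 - x ^ 2 / 24) := by ring
    rw [this]
    apply mul_nonneg (by linarith)
    nlinarith
  have h5 := pow_le_pow_left₀ h4 h3 2
  rw [h1]
  have h6 : 0 ≤ x ^ 6 := by positivity
  nlinarith

/-- (P1) the bracket -/
theorem bracket {b l θ : ℝ} (hθ0 : 0 < θ) (hθ : θ ≤ 1 / 5) (hl0 : 0 ≤ l)
    (hb : |b| ≤ 271 / 1000 * θ) :
    2 * (l - l ^ 2 + θ ^ 2 - θ * b) - l * (2 * θ - b) ^ 2 - (2 * θ - b) ^ 4 / 24 ≤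
      Real.cos b - Real.exp (-(2 * l)) * Real.cos (2 * θ - b) := by
  obtain ⟨hb1, hb2⟩ := abs_le.1 hb
  set y := 2 * θ - b with hy
  have hy0 : 0 ≤ y := by rw [hy]; nlinarith
  have hy1 : y ≤ 1 / 2 := by rw [hy]; nlinarith
  have h1 := Real.one_sub_sq_div_two_le_cos (x := b)
  have h2 := exp_neg_le_quad (x := 2 * l) (by linarith)
  have h3 : Real.cos y ≤ 1 - y ^ 2 / 2 + y ^ 4 / 24 := cos_le4 (by rw [abs_of_nonneg hy0]; linarith)
  have h4 : 0 ≤ Real.cos y := by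
    have := Real.one_sub_sq_div_two_le_cos (x := y)
    nlinarith
  have h5 : 0 ≤ 1 - 2 * l + (2 * l) ^ 2 / 2 := by nlinarith [sq_nonneg (1 - 2 * l)]
  have h6 : Real.exp (-(2 * l)) * Real.cos y ≤
      (1 - 2 * l + (2 * l) ^ 2 / 2) * (1 - y ^ 2 / 2 + y ^ 4 / 24) := by
    calc Real.exp (-(2 * l)) * Real.cos y ≤ (1 - 2 * l + (2 * l) ^ 2 / 2) * Real.cos y :=
          mul_le_mul_of_nonneg_right h2 h4
      _ ≤ _ := mul_le_mul_of_nonneg_left h3 h5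
  have h7 : (1 - 2 * l + (2 * l) ^ 2 / 2) * (1 - y ^ 2 / 2 + y ^ 4 / 24) ≤
      1 - y ^ 2 / 2 + y ^ 4 / 24 - 2 * l + l * y ^ 2 + 2 * l ^ 2 := by
    have h8 : 0 ≤ y ^ 4 := by positivity
    have h9 : 0 ≤ l * y ^ 4 := mul_nonneg hl0 h8
    have h10 : 0 ≤ l ^ 2 * (y ^ 2 * (1 / 2 - y ^ 2 / 24)) :=
      mul_nonneg (sq_nonneg _) (mul_nonneg (sq_nonneg _) (by nlinarith))
    nlinarith
  have e : (y ^ 2 - b ^ 2) / 2 = 2 * θ ^ 2 - 2 * θ * b := by rw [hy]; ring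
  nlinarith

/-- (P2) lower bound of `mu_r` -/
theorem mur_ge {a b l θ l2 : ℝ} (hθ0 : 0 < θ) (hθ : θ ≤ 1 / 5) (hl0 : 0 ≤ l)
    (hl : l ≤ 8 / 25 * θ) (ha : |a| ≤ 271 / 1000 * θ) (hb : |b| ≤ 271 / 1000 * θ)
    (hab : |a| * |b| ≤ 367205 / 10000000 * θ ^ 2)
    (h : Real.exp (-a) * (Real.cos b - Real.exp (-(2 * l)) * Real.cos (2 * θ - b)) ≤
      2 * Real.sinh l2) :
    θ ^ 2 - l ^ 2 - 1 / 2 * θ ^ 3 - 3 * l * θ ^ 2 ≤ l2 - l + l * a + θ * b := by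
  have hbr := bracket hθ0 hθ hl0 hb
  obtain ⟨hb1, hb2⟩ := abs_le.1 hb
  obtain ⟨ha1, ha2⟩ := abs_le.1 ha
  set y := 2 * θ - b with hy
  have hy0 : 0 ≤ y := by rw [hy]; linarith
  have hy1 : y ≤ 2271 / 1000 * θ := by rw [hy]; linarith
  have hθ2 : 0 < θ ^ 2 := by positivity
  have hθ3 : 0 < θ ^ 3 := by positivity
  have h43 : θ ^ 4 ≤ 1 / 5 * θ ^ 3 := by
    have := mul_le_mul_of_nonneg_left hθ hθ3.le
    calc θ ^ 4 = θ ^ 3 * θ := by ring
      _ ≤ θ ^ 3 * (1 / 5) := this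
      _ = _ := by ring
  have h32 : θ ^ 3 ≤ 1 / 5 * θ ^ 2 := by
    have := mul_le_mul_of_nonneg_left hθ hθ2.le
    calc θ ^ 3 = θ ^ 2 * θ := by ring
      _ ≤ θ ^ 2 * (1 / 5) := this
      _ = _ := by ring
  -- powers of y
  have y2 : y ^ 2 ≤ 51575 / 10000 * θ ^ 2 := by
    have := pow_le_pow_left₀ hy0 hy1 2
    have e : (2271 / 1000 * θ) ^ 2 = (2271 / 1000) ^ 2 * θ ^ 2 := by ring
    rw [e] at this
    norm_num at this ⊢
    linarith
  have y4 : y ^ 4 ≤ 26600 / 1000 * θ ^ 4 := by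
    have := pow_le_pow_left₀ hy0 hy1 4
    have e : (2271 / 1000 * θ) ^ 4 = (2271 / 1000) ^ 4 * θ ^ 4 := by ring
    rw [e] at this
    have hθ4 : 0 < θ ^ 4 := by positivity
    norm_num at this ⊢
    linarith
  have y4' : y ^ 4 / 48 ≤ 1109 / 10000 * θ ^ 3 := by linarith
  have ly2 : l * y ^ 2 / 2 ≤ 2579 / 1000 * (l * θ ^ 2) := by
    have := mul_le_mul_of_nonneg_left y2 hl0
    have hp : 0 ≤ l * θ ^ 2 := by positivity
    linarith
  have lyn : 0 ≤ l * y ^ 2 := mul_nonneg hl0 (sq_nonneg y)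
  have y4n : 0 ≤ y ^ 4 := by positivity
  have hll : l ^ 2 ≤ 8 / 25 * (l * θ) := by
    have := mul_le_mul_of_nonneg_left hl hl0
    calc l ^ 2 = l * l := by ring
      _ ≤ l * (8 / 25 * θ) := this
      _ = _ := by ring
  have hlθ : 0 ≤ l * θ := mul_nonneg hl0 hθ0.le
  have hlθ1 : l * θ ≤ 1 / 5 * l := by
    have := mul_le_mul_of_nonneg_left hθ hl0
    linarith
  have hlθ2 : 0 ≤ l * θ ^ 2 := mul_nonneg hl0 hθ2.le
  have hlθ3 : l * θ ^ 2 ≤ 1 / 5 * (l * θ) := by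
    have := mul_le_mul_of_nonneg_left hθ hlθ
    calc l * θ ^ 2 = l * θ * θ := by ring
      _ ≤ l * θ * (1 / 5) := this
      _ = _ := by ring
  have tb1 : θ * b ≤ 271 / 1000 * θ ^ 2 := by
    have := mul_le_mul_of_nonneg_left hb2 hθ0.le
    calc θ * b ≤ θ * (271 / 1000 * θ) := this
      _ = _ := by ring
  have tb2 : -(θ * b) ≤ 271 / 1000 * θ ^ 2 := by
    have := mul_le_mul_of_nonneg_left hb1 hθ0.le
    have e : θ * (271 / 1000 * θ) = 271 / 1000 * θ ^ 2 := by ring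
    linarith
  have ha3 : |a| ≤ 543 / 10000 := by linarith
  have la1 : l * a ≤ 543 / 10000 * l := by
    have := mul_le_mul_of_nonneg_left ((le_abs_self a).trans ha3) hl0
    linarith
  have la2 : -(l * a) ≤ 543 / 10000 * l := by
    have := mul_le_mul_of_nonneg_left ((neg_le_abs a).trans ha3) hl0
    linarith
  have habs : |a * b| ≤ 367205 / 10000000 * θ ^ 2 := by rw [abs_mul]; exact hab
  obtain ⟨hab1, hab2⟩ := abs_le.1 habs
  clear_value y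
  by_contra hcon
  push Not at hcon
  obtain ⟨Y, hY⟩ : ∃ Y, Y = l - l * a - θ * b + θ ^ 2 - l ^ 2 - 1 / 2 * θ ^ 3 -
    3 * (l * θ ^ 2) := ⟨_, rfl⟩
  have hlY : l2 < Y := by rw [hY]; linarith
  obtain ⟨β, hβ⟩ : ∃ β, β = l - l ^ 2 + θ ^ 2 - θ * b - l * y ^ 2 / 2 - y ^ 4 / 48 := ⟨_, rfl⟩
  have hβ0 : 0 ≤ β := by
    rw [hβ]
    linarith
  -- the small terms of `a β`
  have aβ : a * β ≤ a * l + 2775 / 10000 * θ ^ 3 + 2270 / 10000 * (l * θ ^ 2) +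
      3673 / 100000 * θ ^ 3 := by
    have e : a * β = a * l + a * (θ ^ 2 - l ^ 2 - l * y ^ 2 / 2 - y ^ 4 / 48) - θ * (a * b) := by
      rw [hβ]; ring
    have h1 : a * (θ ^ 2 - l ^ 2 - l * y ^ 2 / 2 - y ^ 4 / 48) ≤
        271 / 1000 * θ * (θ ^ 2 + l ^ 2 + l * y ^ 2 / 2 + y ^ 4 / 48) := by
      have h2 : |θ ^ 2 - l ^ 2 - l * y ^ 2 / 2 - y ^ 4 / 48| ≤
          θ ^ 2 + l ^ 2 + l * y ^ 2 / 2 + y ^ 4 / 48 := by
        have := sq_nonneg l
        rw [abs_le]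
        constructor <;> linarith
      refine (le_abs_self _).trans ?_
      rw [abs_mul]
      exact mul_le_mul ha h2 (abs_nonneg _) (by positivity)
    have h3 : 271 / 1000 * θ * (l ^ 2) ≤ 271 / 1000 * (8 / 25) * (l * θ ^ 2) := by
      have := mul_le_mul_of_nonneg_left hll (show 0 ≤ 271 / 1000 * θ by positivity)
      refine this.trans (le_of_eq (by ring))
    have h4 : 271 / 1000 * θ * (l * y ^ 2 / 2) ≤
        271 / 1000 * (1 / 5) * (2579 / 1000 * (l * θ ^ 2)) := by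
      have h5 : 271 / 1000 * θ ≤ 271 / 1000 * (1 / 5) := by linarith
      exact mul_le_mul h5 ly2 (by positivity) (by positivity)
    have h6 : 271 / 1000 * θ * (y ^ 4 / 48) ≤ 271 / 1000 * (1 / 5) * (1109 / 10000 * θ ^ 3) := by
      have h5 : 271 / 1000 * θ ≤ 271 / 1000 * (1 / 5) := by linarith
      exact mul_le_mul h5 y4' (by positivity) (by positivity)
    have h7 : -(θ * (a * b)) ≤ 367205 / 10000000 * θ ^ 3 := by
      have := mul_le_mul_of_nonneg_left hab1 hθ0.le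
      have e : θ * (367205 / 10000000 * θ ^ 2) = 367205 / 10000000 * θ ^ 3 := by ring
      linarith
    have h8 : 271 / 1000 * θ * (θ ^ 2 + l ^ 2 + l * y ^ 2 / 2 + y ^ 4 / 48) =
        271 / 1000 * θ ^ 3 + 271 / 1000 * θ * (l ^ 2) + 271 / 1000 * θ * (l * y ^ 2 / 2) +
          271 / 1000 * θ * (y ^ 4 / 48) := by ring
    rw [e]
    linarith
  -- bound of `Y`
  have hY0 : 0 ≤ Y := by
    rw [hY]
    linarith
  have hY1 : Y ≤ 1055 / 1000 * l + 1271 / 1000 * θ ^ 2 := by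
    have := sq_nonneg l
    rw [hY]
    linarith
  have hY2 : Y ≤ 6 / 10 * θ := by
    have : θ ^ 2 ≤ 1 / 5 * θ := by
      have := mul_le_mul_of_nonneg_left hθ hθ0.le
      calc θ ^ 2 = θ * θ := by ring
        _ ≤ θ * (1 / 5) := this
        _ = _ := by ring
    linarith
  have hY3 : Y ^ 3 ≤ 38 / 100 * (l * θ ^ 2) + 92 / 1000 * θ ^ 3 := by
    have h1 : Y ^ 2 ≤ (6 / 10 * θ) ^ 2 := pow_le_pow_left₀ hY0 hY2 2
    have h2 : Y ^ 3 ≤ (6 / 10 * θ) ^ 2 * (1055 / 1000 * l + 1271 / 1000 * θ ^ 2) := by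
      have : Y ^ 3 = Y ^ 2 * Y := by ring
      rw [this]
      exact mul_le_mul h1 hY1 hY0 (by positivity)
    have h3 : (6 / 10 * θ) ^ 2 * (1055 / 1000 * l + 1271 / 1000 * θ ^ 2) =
      36 / 100 * (1055 / 1000) * (l * θ ^ 2) + 36 / 100 * (1271 / 1000) * θ ^ 4 := by ring
    linarith
  have hsY : 2 * Real.sinh Y ≤ 2 * Y + 1 / 2 * Y ^ 3 := two_sinh_le hY0 (by linarith)
  have hs : Real.sinh l2 < Real.sinh Y := Real.sinh_lt_sinh.2 hlY
  have hexp : 1 - a ≤ Real.exp (-a) := by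
    have := Real.add_one_le_exp (-a); linarith
  have h1 : (1 - a) * (2 * β) ≤ 2 * Real.sinh l2 := by
    have h2 : 2 * β ≤ Real.cos b - Real.exp (-(2 * l)) * Real.cos y := by
      refine le_trans (le_of_eq ?_) hbr
      rw [hβ]; ring
    calc (1 - a) * (2 * β) ≤ Real.exp (-a) * (2 * β) :=
          mul_le_mul_of_nonneg_right hexp (by linarith)
      _ ≤ Real.exp (-a) * (Real.cos b - Real.exp (-(2 * l)) * Real.cos y) :=
          mul_le_mul_of_nonneg_left h2 (Real.exp_pos _).le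
      _ ≤ _ := h
  -- comparison
  have h2 : β - Y = l * a + 1 / 2 * θ ^ 3 + 3 * (l * θ ^ 2) - l * y ^ 2 / 2 - y ^ 4 / 48 := by
    rw [hβ, hY]; ring
  have h3 : (1 - a) * (2 * β) = 2 * β - 2 * (a * β) := by ring
  linarith

end J1

end EQS
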