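import Mathlib
import Pool.Agent.Lib.MP_226de1_co.E.NumReal

/-! Real estimates for the block `σ ≥ π` of `ExitHalf 8`, part 2. -/

set_option autoImplicit false

namespace EQS

namespace J1

theorem exp_a_le {a : ℝ} (ha : |a| ≤ 543 / 10000) : Real.exp (-a) ≤ 1056 / 1000 := by
  have h1 : Real.exp (-a) ≤ Real.exp (543 / 10000) :=
    Real.exp_le_exp.2 ((neg_le_abs a).trans ha)
  have h2 := exp_le_cubic (x := 543 / 10000) (by norm_num) (by norm_num)
  norm_num at h2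
  linarith

/-- (P3) bound of `T = e^{l2 - a}` -/
theorem T_le {l2 a p C : ℝ} (ha : |a| ≤ 543 / 10000) (hC0 : 0 ≤ C) (hC : C ≤ 52 / 1000)
    (hp0 : 0 ≤ p) (hp : p ≤ 42 / 100)
    (h : 2 * Real.sinh l2 ≤ Real.exp (-a) * (p + C * (1 + Real.exp (l2 - a)))) :
    Real.exp (l2 - a) ≤ 142 / 100 := by
  have hE := exp_a_le ha
  have hE0 := Real.exp_pos (-a)
  have e1 : Real.exp (l2 - a) = Real.exp l2 * Real.exp (-a) := by rw [← Real.exp_add]; ring_nf
  have hy0 := Real.exp_pos l2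
  rw [e1] at h ⊢
  set E := Real.exp (-a) with hEdef
  set y := Real.exp l2 with hy
  have hyi : Real.exp (-l2) = y⁻¹ := by rw [hy, Real.exp_neg]
  rcases le_or_gt y (134 / 100) with h1 | h1
  · calc y * E ≤ 134 / 100 * (1056 / 1000) := mul_le_mul h1 hE hE0.le (by norm_num)
      _ ≤ _ := by norm_num
  exfalso
  have h2 : 2 * Real.sinh l2 = y - y⁻¹ := by
    rw [Real.sinh_eq, hyi]; ring
  have h3 : y⁻¹ ≤ (134 / 100)⁻¹ := inv_anti₀ (by norm_num) h1.le
  have h4 : E * (p + C * (1 + y * E)) ≤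
      1056 / 1000 * (42 / 100 + 52 / 1000 * (1 + y * (1056 / 1000))) := by
    have h5 : y * E ≤ y * (1056 / 1000) := mul_le_mul_of_nonneg_left hE hy0.le
    have h6 : C * (1 + y * E) ≤ 52 / 1000 * (1 + y * (1056 / 1000)) :=
      mul_le_mul hC (by linarith) (by positivity) (by norm_num)
    exact mul_le_mul hE (by linarith) (by positivity) (by norm_num)
  rw [h2] at h
  norm_num at h3
  linarith

/-- (P3b) bound of `θ2` -/
theorem th2_le {θ θ2 : ℝ} (hθ0 : 0 < θ) (hθ : θ ≤ 1 / 5) (h1 : |θ2| < Real.pi / 2)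
    (h : |Real.sin θ2| ≤ 1441 / 1000 * θ) : |θ2| ≤ 147 / 100 * θ := by
  by_contra hcon
  push Not at hcon
  have h2 : |Real.sin θ2| = Real.sin |θ2| := by
    rcases le_or_gt 0 θ2 with h0 | h0
    · rw [abs_of_nonneg h0] at h1 ⊢
      exact abs_of_nonneg (Real.sin_nonneg_of_nonneg_of_le_pi h0 (by linarith [Real.pi_pos]))
    · rw [abs_of_neg h0] at h1 ⊢
      rw [Real.sin_neg, abs_of_nonpos]
      exact Real.sin_nonpos_of_nonpos_of_neg_pi_le h0.le (by linarith [Real.pi_pos])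
  have h3 : Real.sin (147 / 100 * θ) < Real.sin |θ2| :=
    Real.sin_lt_sin_of_lt_of_le_pi_div_two (by linarith [Real.pi_pos]) h1.le hcon
  have h4 := Real.sin_ge_sub_cube (x := 147 / 100 * θ) (by positivity)
  have h5 : (147 / 100 * θ) ^ 3 / 6 ≤ 22 / 1000 * θ := by
    have h6 : θ ^ 2 ≤ 1 / 25 := by nlinarith
    have h7 : θ ^ 3 ≤ 1 / 25 * θ := by
      calc θ ^ 3 = θ ^ 2 * θ := by ring
        _ ≤ 1 / 25 * θ := mul_le_mul_of_nonneg_right h6 hθ0.le
    have e : (147 / 100 * θ) ^ 3 / 6 = (147 / 100) ^ 3 / 6 * θ ^ 3 := by ring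
    rw [e]
    norm_num
    linarith
  rw [h2] at h
  linarith

/-- (P4) upper bound of `l2` -/
theorem l2_le {a b l θ l2 θ2 C T : ℝ} (hθ0 : 0 < θ) (hθ : θ ≤ 1 / 5) (hl0 : 0 ≤ l)
    (hl : l ≤ 8 / 25 * θ) (ha : |a| ≤ 543 / 10000) (hb : |b| ≤ 271 / 1000 * θ)
    (hC : C ≤ 81 / 100 * l) (hT0 : 0 ≤ T) (hT : T ≤ 142 / 100)
    (hl2 : 0 ≤ l2) (hθ2 : |θ2| ≤ 147 / 100 * θ)
    (h : 2 * Real.sinh l2 * Real.cos θ2 ≤ Real.exp (-a) *
      (Real.cos b - Real.exp (-(2 * l)) * Real.cos (2 * θ - b) + C * (1 + T))) :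
    l2 ≤ 22 / 10 * l + 143 / 100 * θ ^ 2 := by
  have hE := exp_a_le ha
  have hE0 := Real.exp_pos (-a)
  obtain ⟨hb1, hb2⟩ := abs_le.1 hb
  set y := 2 * θ - b with hy
  have hy0 : 0 ≤ y := by rw [hy]; linarith
  have hy1 : y ≤ 2271 / 1000 * θ := by rw [hy]; linarith
  have hθ2' : 0 < θ ^ 2 := by positivity
  have hθq : θ ^ 2 ≤ 1 / 25 := by nlinarith
  have y2 : y ^ 2 ≤ 51575 / 10000 * θ ^ 2 := by
    have := pow_le_pow_left₀ hy0 hy1 2
    have e : (2271 / 1000 * θ) ^ 2 = (2271 / 1000) ^ 2 * θ ^ 2 := by ring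
    rw [e] at this
    norm_num at this ⊢
    linarith
  have hcos : 9567 / 10000 ≤ Real.cos θ2 := by
    have h1 := Real.one_sub_sq_div_two_le_cos (x := θ2)
    have h2 : θ2 ^ 2 ≤ (147 / 100 * θ) ^ 2 := by
      rw [← sq_abs θ2]
      exact pow_le_pow_left₀ (abs_nonneg _) hθ2 2
    have e : (147 / 100 * θ) ^ 2 = (147 / 100) ^ 2 * θ ^ 2 := by ring
    rw [e] at h2
    norm_num at h2 ⊢
    linarith
  have hs : l2 ≤ Real.sinh l2 := Real.self_le_sinh_iff.2 hl2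
  have h1 : Real.cos b - Real.exp (-(2 * l)) * Real.cos y ≤ 2 * l + y ^ 2 / 2 := by
    have h2 := Real.cos_le_one b
    have h3 := Real.one_sub_sq_div_two_le_cos (x := y)
    have h4 : 1 - 2 * l ≤ Real.exp (-(2 * l)) := by
      have := Real.add_one_le_exp (-(2 * l)); linarith
    have h5 : 0 ≤ 1 - 2 * l := by linarith
    have h6 : 0 ≤ 1 - y ^ 2 / 2 := by linarith
    have h7 : (1 - 2 * l) * (1 - y ^ 2 / 2) ≤ Real.exp (-(2 * l)) * Real.cos y :=
      mul_le_mul h4 h3 h6 (Real.exp_pos _).le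
    have h8 : 0 ≤ l * y ^ 2 := mul_nonneg hl0 (sq_nonneg y)
    linarith
  have h2 : C * (1 + T) ≤ 81 / 100 * l * (242 / 100) :=
    mul_le_mul hC (by linarith) (by linarith) (by positivity)
  have h3 : 2 * l2 * (9567 / 10000) ≤ 2 * Real.sinh l2 * Real.cos θ2 :=
    mul_le_mul (by linarith) hcos (by norm_num) (by linarith)
  have h4 : Real.exp (-a) * (Real.cos b - Real.exp (-(2 * l)) * Real.cos y + C * (1 + T)) ≤
      1056 / 1000 * (2 * l + 51575 / 20000 * θ ^ 2 + 81 / 100 * l * (242 / 100)) := by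
    refine (mul_le_mul_of_nonneg_left (show _ ≤ 2 * l + 51575 / 20000 * θ ^ 2 +
      81 / 100 * l * (242 / 100) by linarith) hE0.le).trans ?_
    exact mul_le_mul_of_nonneg_right hE (by positivity)
  linarith

end J1

end EQS
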