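import Mathlib
import Pool.Agent.Lib.MP_226de1_co.E.J1Pure2
import Pool.Agent.Lib.MP_226de1_co.E.Final

/-! Real estimates for the block `σ ≥ π` of `ExitHalf 8`, part 4. -/

set_option autoImplicit false

namespace EQS

namespace J1

/-- (P6) lower bound of `mu_i` -/
theorem mui_ge {a b l θ l2 θ2 C T κ κ3 : ℝ} (hθ0 : 0 < θ) (hθ : θ ≤ 1 / 5) (hl0 : 0 ≤ l)
    (hl : l ≤ 8 / 25 * θ) (ha : |a| ≤ 271 / 1000 * θ) (hb : |b| ≤ 271 / 1000 * θ)
    (hC0 : 0 ≤ C) (hC : C ≤ 81 / 100 * l) (hT0 : 0 ≤ T) (hT : T ≤ 142 / 100)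
    (hκ : |κ| ≤ θ / 2) (hκ3 : |κ3| ≤ θ / 2) (hθ2 : |θ2| ≤ 147 / 100 * θ)
    (h : 2 * Real.cosh l2 * Real.sin θ2 = Real.exp (-a) *
      (Real.sin b + Real.exp (-(2 * l)) * Real.sin (2 * θ - b) +
        C * (Real.sin (κ + κ3) + T * Real.sin (2 * κ3 + θ2)))) :
    -(5 / 2 * (l * θ) + 28 / 10 * (l * θ ^ 2) + 115 / 100 * θ ^ 3) ≤
      θ - θ2 + l * b - θ * a := by
  obtain ⟨hb1, hb2⟩ := abs_le.1 hb
  obtain ⟨ha1, ha2⟩ := abs_le.1 ha
  obtain ⟨hk1, hk2⟩ := abs_le.1 hκ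
  obtain ⟨hk3, hk4⟩ := abs_le.1 hκ3
  obtain ⟨ht1, ht2⟩ := abs_le.1 hθ2
  have hpi := Real.pi_gt_three
  have hθ2p : 0 < θ ^ 2 := by positivity
  have hθ3 : 0 < θ ^ 3 := by positivity
  have q2 : θ ^ 2 ≤ 1 / 5 * θ := by
    calc θ ^ 2 = θ * θ := by ring
      _ ≤ 1 / 5 * θ := mul_le_mul_of_nonneg_right hθ hθ0.le
  have q3 : θ ^ 3 ≤ 1 / 5 * θ ^ 2 := by
    calc θ ^ 3 = θ * θ ^ 2 := by ring
      _ ≤ 1 / 5 * θ ^ 2 := mul_le_mul_of_nonneg_right hθ hθ2p.le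
  have q4 : θ ^ 4 ≤ 1 / 5 * θ ^ 3 := by
    calc θ ^ 4 = θ * θ ^ 3 := by ring
      _ ≤ 1 / 5 * θ ^ 3 := mul_le_mul_of_nonneg_right hθ hθ3.le
  have hlθ : 0 ≤ l * θ := mul_nonneg hl0 hθ0.le
  have hlθ2 : 0 ≤ l * θ ^ 2 := mul_nonneg hl0 hθ2p.le
  have p1 : l * θ ≤ 8 / 25 * θ ^ 2 := by
    have := mul_le_mul_of_nonneg_right hl hθ0.le
    calc l * θ ≤ 8 / 25 * θ * θ := this
      _ = _ := by ring
  have p2 : l * θ ^ 2 ≤ 1 / 5 * (l * θ) := by
    have := mul_le_mul_of_nonneg_left hθ hlθ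
    calc l * θ ^ 2 = l * θ * θ := by ring
      _ ≤ l * θ * (1 / 5) := this
      _ = _ := by ring
  have p3 : l * θ ^ 3 ≤ 1 / 5 * (l * θ ^ 2) := by
    have := mul_le_mul_of_nonneg_left hθ hlθ2
    calc l * θ ^ 3 = l * θ ^ 2 * θ := by ring
      _ ≤ l * θ ^ 2 * (1 / 5) := this
      _ = _ := by ring
  have p4 : l ^ 2 * θ ≤ 8 / 25 * (l * θ ^ 2) := by
    have := mul_le_mul_of_nonneg_left hl hlθ
    calc l ^ 2 * θ = l * θ * l := by ring
      _ ≤ l * θ * (8 / 25 * θ) := this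
      _ = _ := by ring
  have tb : |l * b| ≤ 271 / 1000 * (l * θ) := by
    rw [abs_mul, abs_of_nonneg hl0]
    calc l * |b| ≤ l * (271 / 1000 * θ) := mul_le_mul_of_nonneg_left hb hl0
      _ = _ := by ring
  have ta : |θ * a| ≤ 271 / 1000 * θ ^ 2 := by
    rw [abs_mul, abs_of_pos hθ0]
    calc θ * |a| ≤ θ * (271 / 1000 * θ) := mul_le_mul_of_nonneg_left ha hθ0.le
      _ = _ := by ring
  obtain ⟨tb1, tb2⟩ := abs_le.1 tb
  obtain ⟨ta1, ta2⟩ := abs_le.1 ta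
  rcases le_or_gt θ2 0 with h0 | h0
  · linarith
  have hs0 : 0 ≤ Real.sin θ2 := Real.sin_nonneg_of_nonneg_of_le_pi h0.le (by linarith)
  have hch1 := Real.one_le_cosh l2
  have h1 : 2 * Real.sin θ2 ≤ 2 * Real.cosh l2 * Real.sin θ2 :=
    mul_le_mul_of_nonneg_right (by linarith) hs0
  rw [h] at h1
  -- upper bound of the sine sum
  have hS : Real.sin b + Real.exp (-(2 * l)) * Real.sin (2 * θ - b) ≤
      2 * θ - 4 * (l * θ) + 2 * (l * b) + 14535 / 10000 * (l * θ ^ 2) + 34 / 10000 * θ ^ 3 := by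
    obtain ⟨y, hy⟩ : ∃ y, y = 2 * θ - b := ⟨_, rfl⟩
    rw [← hy]
    have hy0 : 0 ≤ y := by rw [hy]; linarith
    have hy1 : y ≤ 2271 / 1000 * θ := by rw [hy]; linarith
    have b3 : |b| ^ 3 ≤ 2 / 100 * θ ^ 3 := by
      have := pow_le_pow_left₀ (abs_nonneg b) hb 3
      have e : (271 / 1000 * θ) ^ 3 = (271 / 1000) ^ 3 * θ ^ 3 := by ring
      rw [e] at this
      norm_num at this ⊢
      linarith
    have h2 : Real.sin b ≤ b + |b| ^ 3 / 6 := by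
      rcases le_or_gt 0 b with h0 | h0
      · have := Real.sin_le h0
        have h3 : 0 ≤ |b| ^ 3 / 6 := by positivity
        linarith
      · rw [abs_of_neg h0]
        have := Real.sin_ge_sub_cube (x := -b) (by linarith)
        rw [Real.sin_neg] at this
        linarith
    have h3 := Real.sin_le hy0
    have h4 := exp_neg_le_quad (x := 2 * l) (by linarith)
    have h5 : Real.exp (-(2 * l)) * Real.sin y ≤ (1 - 2 * l + (2 * l) ^ 2 / 2) * y := by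
      calc Real.exp (-(2 * l)) * Real.sin y ≤ Real.exp (-(2 * l)) * y :=
            mul_le_mul_of_nonneg_left h3 (Real.exp_pos _).le
        _ ≤ _ := mul_le_mul_of_nonneg_right h4 hy0
    have h6 : (1 - 2 * l + (2 * l) ^ 2 / 2) * y = y - 2 * (l * y) + 2 * (l ^ 2 * y) := by ring
    have h7 : l ^ 2 * y ≤ 2271 / 1000 * (l ^ 2 * θ) := by
      calc l ^ 2 * y ≤ l ^ 2 * (2271 / 1000 * θ) := mul_le_mul_of_nonneg_left hy1 (sq_nonneg l)
        _ = _ := by ring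
    have h8 : l * y = 2 * (l * θ) - l * b := by rw [hy]; ring
    linarith
  have hN : C * (Real.sin (κ + κ3) + T * Real.sin (2 * κ3 + θ2)) ≤ 3651 / 1000 * (l * θ) := by
    have n1 : Real.sin (κ + κ3) ≤ θ := by
      have h2 : |Real.sin (κ + κ3)| ≤ |κ + κ3| := Real.abs_sin_le_abs
      have h3 : |κ + κ3| ≤ θ := by rw [abs_le]; constructor <;> linarith
      exact (le_abs_self _).trans (h2.trans h3)
    have n2 : Real.sin (2 * κ3 + θ2) ≤ 247 / 100 * θ := by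
      have h2 : |Real.sin (2 * κ3 + θ2)| ≤ |2 * κ3 + θ2| := Real.abs_sin_le_abs
      have h3 : |2 * κ3 + θ2| ≤ 247 / 100 * θ := by rw [abs_le]; constructor <;> linarith
      exact (le_abs_self _).trans (h2.trans h3)
    have n3 : T * Real.sin (2 * κ3 + θ2) ≤ 142 / 100 * (247 / 100 * θ) := by
      calc T * Real.sin (2 * κ3 + θ2) ≤ T * (247 / 100 * θ) := mul_le_mul_of_nonneg_left n2 hT0
        _ ≤ _ := mul_le_mul_of_nonneg_right hT (by positivity)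
    have n4 : C * (Real.sin (κ + κ3) + T * Real.sin (2 * κ3 + θ2)) ≤
        C * (θ + 142 / 100 * (247 / 100 * θ)) := mul_le_mul_of_nonneg_left (by linarith) hC0
    have n5 : C * (θ + 142 / 100 * (247 / 100 * θ)) ≤
        81 / 100 * l * (θ + 142 / 100 * (247 / 100 * θ)) :=
      mul_le_mul_of_nonneg_right hC (by positivity)
    have e : 81 / 100 * l * (θ + 142 / 100 * (247 / 100 * θ)) =
      81 / 100 * (1 + 142 / 100 * (247 / 100)) * (l * θ) := by ring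
    rw [e] at n5
    norm_num at n5
    linarith
  obtain ⟨W, hW⟩ : ∃ W, W = 2 * θ + 2 * (l * b) - 349 / 1000 * (l * θ) +
    14535 / 10000 * (l * θ ^ 2) + 34 / 10000 * θ ^ 3 := ⟨_, rfl⟩
  have hW0 : 0 ≤ W := by rw [hW]; linarith
  have hW1 : W ≤ 21 / 10 * θ := by rw [hW]; linarith
  have hW2 : |W - 2 * θ| ≤ 891 / 1000 * (l * θ) + 14535 / 10000 * (l * θ ^ 2) +
      34 / 10000 * θ ^ 3 := by
    rw [hW, abs_le]
    constructor <;> linarith
  have hE2 : Real.exp (-a) ≤ 1 - a + a ^ 2 := by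
    have := Real.abs_exp_sub_one_sub_id_le (x := -a) (by
      rw [abs_neg]; linarith)
    rw [neg_sq] at this
    have h2 := (abs_le.1 this).2
    linarith
  have h2 : 2 * Real.sin θ2 ≤ (1 - a + a ^ 2) * W := by
    calc 2 * Real.sin θ2 ≤ Real.exp (-a) * (Real.sin b + Real.exp (-(2 * l)) *
          Real.sin (2 * θ - b) + C * (Real.sin (κ + κ3) + T * Real.sin (2 * κ3 + θ2))) := h1
      _ ≤ Real.exp (-a) * W := by
          apply mul_le_mul_of_nonneg_left _ (Real.exp_pos _).le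
          rw [hW]; linarith
      _ ≤ _ := mul_le_mul_of_nonneg_right hE2 hW0
  have h3 : -(a * (W - 2 * θ)) ≤ 3203 / 10000 * (l * θ ^ 2) + 2 / 10000 * θ ^ 3 := by
    have h4 : -(a * (W - 2 * θ)) ≤ 271 / 1000 * θ * (891 / 1000 * (l * θ) +
        14535 / 10000 * (l * θ ^ 2) + 34 / 10000 * θ ^ 3) := by
      refine (neg_le_abs _).trans ?_
      rw [abs_mul]
      exact mul_le_mul ha hW2 (abs_nonneg _) (by positivity)
    have e : 271 / 1000 * θ * (891 / 1000 * (l * θ) + 14535 / 10000 * (l * θ ^ 2) +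
        34 / 10000 * θ ^ 3) = 271 / 1000 * (891 / 1000) * (l * θ ^ 2) +
        271 / 1000 * (14535 / 10000) * (l * θ ^ 3) + 271 / 1000 * (34 / 10000) * θ ^ 4 := by ring
    rw [e] at h4
    norm_num at h4 ⊢
    linarith
  have h5 : a ^ 2 * W ≤ 155 / 1000 * θ ^ 3 := by
    have h6 : a ^ 2 ≤ (271 / 1000 * θ) ^ 2 := by
      rw [← sq_abs a]
      exact pow_le_pow_left₀ (abs_nonneg _) ha 2
    have h7 : a ^ 2 * W ≤ (271 / 1000 * θ) ^ 2 * (21 / 10 * θ) :=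
      mul_le_mul h6 hW1 hW0 (sq_nonneg _)
    have e : (271 / 1000 * θ) ^ 2 * (21 / 10 * θ) = (271 / 1000) ^ 2 * (21 / 10) * θ ^ 3 := by ring
    rw [e] at h7
    norm_num at h7
    linarith
  have h6 : θ2 - θ2 ^ 3 / 6 ≤ Real.sin θ2 := Real.sin_ge_sub_cube h0.le
  have h7 : θ2 ^ 3 ≤ 3177 / 1000 * θ ^ 3 := by
    have := pow_le_pow_left₀ h0.le ht2 3
    have e : (147 / 100 * θ) ^ 3 = (147 / 100) ^ 3 * θ ^ 3 := by ring
    rw [e] at this
    norm_num at this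
    linarith
  have e : (1 - a + a ^ 2) * W = W - 2 * (θ * a) + -(a * (W - 2 * θ)) + a ^ 2 * W := by ring
  rw [e, hW] at h2
  rw [hW] at h3 h5
  linarith

/-- the quotient bound, first range -/
theorem kA {A θ : ℝ} (hθ0 : 0 < θ) (hθ : θ ≤ 1 / 5) (h1 : θ ≤ 2 * A) (h2 : A ≤ 3184 / 10000) :
    5 / 2 * A + 28 / 10 * (A * θ) + 115 / 100 * θ ≤
      66 / 10 * A * (1 - A ^ 2 - 1 / 2 * θ - 3 * (A * θ)) := by
  have hA : 0 < A := by linarith
  rcases le_or_gt A (1 / 10) with h3 | h3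
  · have h4 : θ * (115 / 100 + 61 / 10 * A + 198 / 10 * A ^ 2) ≤
        2 * A * (115 / 100 + 61 / 10 * A + 198 / 10 * A ^ 2) :=
      mul_le_mul_of_nonneg_right h1 (by positivity)
    have h5 : A ^ 2 ≤ 1 / 10 * A := by nlinarith
    have h6 : A ^ 3 ≤ 1 / 100 * A := by nlinarith
    nlinarith
  · have h4 : θ * (115 / 100 + 61 / 10 * A + 198 / 10 * A ^ 2) ≤
        1 / 5 * (115 / 100 + 61 / 10 * A + 198 / 10 * A ^ 2) :=
      mul_le_mul_of_nonneg_right hθ (by positivity)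
    have h5 : (A - 1 / 10) * (A - 3184 / 10000) ≤ 0 :=
      mul_nonpos_of_nonneg_of_nonpos (by linarith) (by linarith)
    have h6 : (A - 1 / 10) * (A - 3184 / 10000) * A ≤ 0 := mul_nonpos_of_nonpos_of_nonneg h5 hA.le
    nlinarith

/-- the quotient bound, second range -/
theorem kB {A θ : ℝ} (hθ0 : 0 < θ) (hθ : θ ≤ 4 / 25) (h1 : θ ≤ 182 / 100 * A)
    (h2 : A ≤ 286 / 1000) :
    5 / 2 * A + 28 / 10 * (A * θ) + 115 / 100 * θ ≤
      585 / 100 * A * (1 - A ^ 2 - 1 / 2 * θ - 3 * (A * θ)) := by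
  have hA : 0 < A := by linarith
  rcases le_or_gt A (879 / 10000) with h3 | h3
  · have h4 : θ * (115 / 100 + 5725 / 1000 * A + 1755 / 100 * A ^ 2) ≤
        182 / 100 * A * (115 / 100 + 5725 / 1000 * A + 1755 / 100 * A ^ 2) :=
      mul_le_mul_of_nonneg_right h1 (by positivity)
    have h5 : A ^ 2 ≤ 879 / 10000 * A := by nlinarith
    have h6 : A ^ 3 ≤ (879 / 10000) ^ 2 * A := by nlinarith
    nlinarith
  · have h4 : θ * (115 / 100 + 5725 / 1000 * A + 1755 / 100 * A ^ 2) ≤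
        4 / 25 * (115 / 100 + 5725 / 1000 * A + 1755 / 100 * A ^ 2) :=
      mul_le_mul_of_nonneg_right hθ (by positivity)
    have h5 : (A - 879 / 10000) * (A - 286 / 1000) ≤ 0 :=
      mul_nonpos_of_nonneg_of_nonpos (by linarith) (by linarith)
    have h6 : (A - 879 / 10000) * (A - 286 / 1000) * A ≤ 0 :=
      mul_nonpos_of_nonpos_of_nonneg h5 hA.le
    nlinarith

/-- the quotient bound, third range -/
theorem kC {A θ : ℝ} (hθ0 : 0 < θ) (hθ : θ ≤ 4 / 25) (h1 : θ ≤ 165 / 100 * A)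
    (h2 : A ≤ 1 / 4) :
    5 / 2 * A + 28 / 10 * (A * θ) + 115 / 100 * θ ≤
      565 / 100 * A * (1 - A ^ 2 - 1 / 2 * θ - 3 * (A * θ)) := by
  have hA : 0 < A := by linarith
  rcases le_or_gt A (9697 / 100000) with h3 | h3
  · have h4 : θ * (115 / 100 + 5625 / 1000 * A + 1695 / 100 * A ^ 2) ≤
        165 / 100 * A * (115 / 100 + 5625 / 1000 * A + 1695 / 100 * A ^ 2) :=
      mul_le_mul_of_nonneg_right h1 (by positivity)
    have h5 : A ^ 2 ≤ 9697 / 100000 * A := by nlinarith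
    have h6 : A ^ 3 ≤ (9697 / 100000) ^ 2 * A := by nlinarith
    nlinarith
  · have h4 : θ * (115 / 100 + 5625 / 1000 * A + 1695 / 100 * A ^ 2) ≤
        4 / 25 * (115 / 100 + 5625 / 1000 * A + 1695 / 100 * A ^ 2) :=
      mul_le_mul_of_nonneg_right hθ (by positivity)
    have h5 : (A - 9697 / 100000) * (A - 1 / 4) ≤ 0 :=
      mul_nonpos_of_nonneg_of_nonpos (by linarith) (by linarith)
    have h6 : (A - 9697 / 100000) * (A - 1 / 4) * A ≤ 0 :=
      mul_nonpos_of_nonpos_of_nonneg h5 hA.le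
    nlinarith

/-- criterion of `apolA` -/
theorem crit1 {A σ s K : ℝ} (hA : 0 ≤ A) (hσ : 0 ≤ σ) (hs : 0 ≤ s) (hK : 0 ≤ K)
    (h : K * (s + 1 / 2) ≤ 2 * σ) :
    K * A / 2 * (2 * (Real.exp (A * σ) * s) + 1) ≤ Real.exp (A * σ) ^ 2 - 1 := by
  have hL : 0 ≤ A * σ := mul_nonneg hA hσ
  have h1 : A * σ ≤ Real.sinh (A * σ) := Real.self_le_sinh_iff.2 hL
  set B := Real.exp (A * σ) with hB
  have hB1 : 1 ≤ B := Real.one_le_exp hL
  have h2 : B ^ 2 - 1 = 2 * B * Real.sinh (A * σ) := by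
    rw [Real.sinh_eq, ← hB]
    have : B * Real.exp (-(A * σ)) = 1 := by rw [hB, ← Real.exp_add]; simp
    linear_combination this
  rw [h2]
  have h3 : 2 * B * (A * σ) ≤ 2 * B * Real.sinh (A * σ) :=
    mul_le_mul_of_nonneg_left h1 (by linarith)
  refine le_trans ?_ h3
  have h4 : A * B * (K * (s + 1 / 2)) ≤ A * B * (2 * σ) :=
    mul_le_mul_of_nonneg_left h (by positivity)
  have h5 : K * A * 1 ≤ K * A * B := mul_le_mul_of_nonneg_left hB1 (by positivity)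
  linarith

/-- second criterion of `apolB` -/
theorem crit2 {A σ K : ℝ} (hA : 0 ≤ A) (hσ : 0 ≤ σ) (hK : 0 ≤ K) (h1 : K ≤ 2 * σ)
    (h2 : K ^ 2 ≤ 2 * σ ^ 2) :
    2 * (K * A / 2) + 4 * (K * A / 2) ^ 2 ≤ Real.exp (A * σ) ^ 2 - 1 := by
  have hL : 0 ≤ A * σ := mul_nonneg hA hσ
  have h3 := Real.quadratic_le_exp_of_nonneg (x := 2 * (A * σ)) (by linarith)
  have h4 : Real.exp (2 * (A * σ)) = Real.exp (A * σ) ^ 2 := by
    rw [← Real.exp_nat_mul]; norm_num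
  rw [h4] at h3
  have h5 : A * K ≤ A * (2 * σ) := mul_le_mul_of_nonneg_left h1 hA
  have h6 : A ^ 2 * K ^ 2 ≤ A ^ 2 * (2 * σ ^ 2) := mul_le_mul_of_nonneg_left h2 (sq_nonneg A)
  linarith

/-- `1 ≤ e^x cos y` -/
theorem one_le_exp_cos {x y x0 y0 : ℝ} (hx0 : 0 ≤ x0) (hx : x0 ≤ x) (hy : |y| ≤ y0)
    (h1 : y0 ≤ 82 / 100) (h2 : y0 ≤ 142 / 100 * x0) : 1 ≤ Real.exp x * Real.cos y := by
  have hy0 : 0 ≤ y0 := (abs_nonneg y).trans hy
  have hc : 1 - y0 ^ 2 / 2 ≤ Real.cos y := by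
    have h3 := Real.one_sub_sq_div_two_le_cos (x := y)
    have h4 : y ^ 2 ≤ y0 ^ 2 := by
      rw [← sq_abs y]; exact pow_le_pow_left₀ (abs_nonneg _) hy 2
    linarith
  have h5 : y0 ^ 2 ≤ (82 / 100) ^ 2 := pow_le_pow_left₀ hy0 h1 2
  have h6 : 0 ≤ 1 - y0 ^ 2 / 2 := by norm_num at h5; linarith
  have hq := Real.quadratic_le_exp_of_nonneg hx0
  have he : 1 + x0 + x0 ^ 2 / 2 ≤ Real.exp x := hq.trans (Real.exp_le_exp.2 hx)
  have h7 : (1 + x0 + x0 ^ 2 / 2) * (1 - y0 ^ 2 / 2) ≤ Real.exp x * Real.cos y :=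
    mul_le_mul he hc h6 (Real.exp_pos _).le
  refine le_trans ?_ h7
  rcases le_or_gt x0 (6 / 10) with h8 | h8
  · have h9 : y0 ^ 2 ≤ (142 / 100 * x0) ^ 2 := pow_le_pow_left₀ hy0 h2 2
    have h10 : (1 + x0 + x0 ^ 2 / 2) * (1 - (142 / 100 * x0) ^ 2 / 2) ≤
        (1 + x0 + x0 ^ 2 / 2) * (1 - y0 ^ 2 / 2) :=
      mul_le_mul_of_nonneg_left (by linarith) (by positivity)
    refine le_trans ?_ h10
    have h11 : (1 + x0 + x0 ^ 2 / 2) * (1 - (142 / 100 * x0) ^ 2 / 2) - 1 =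
        x0 * (1 + x0 / 2 - (142 / 100) ^ 2 / 2 * x0 * (1 + x0 + x0 ^ 2 / 2)) := by ring
    have h12 : 0 ≤ x0 * (1 + x0 / 2 - (142 / 100) ^ 2 / 2 * x0 * (1 + x0 + x0 ^ 2 / 2)) := by
      apply mul_nonneg hx0
      have h13 : x0 * (1 + x0 + x0 ^ 2 / 2) ≤ x0 * (178 / 100) := by
        apply mul_le_mul_of_nonneg_left _ hx0
        nlinarith
      norm_num
      nlinarith
    linarith
  · have h9 : 178 / 100 ≤ 1 + x0 + x0 ^ 2 / 2 := by nlinarith
    have h10 : 178 / 100 * (1 - (82 / 100) ^ 2 / 2) ≤ (1 + x0 + x0 ^ 2 / 2) * (1 - y0 ^ 2 / 2) :=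
      mul_le_mul h9 (by linarith) (by norm_num) (by positivity)
    refine le_trans ?_ h10
    norm_num

/-- the final inequality -/
theorem final_ineq {A θ σ a0 a1 f : ℝ} (hθ0 : 0 < θ) (hθ : θ ≤ 1 / 5) (h1 : θ ≤ 2 * A)
    (h2 : A ≤ 3184 / 10000) (hσ : 314 / 100 ≤ σ) (ha0 : |a0| ≤ A + θ) (ha1 : |a1| ≤ A + 2 * θ)
    (hf : A * σ - 523 / 1000 * θ - A * θ - θ ^ 2 / 2 ≤ f) {s : ℝ}
    (hs : 2 - (3 * a0 ^ 2 + a1 ^ 2) / 2 ≤ s) :
    1 + Real.exp f < s * Real.exp f ^ 2 := by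
  have hA : 0 < A := by linarith
  have hX : (3 * a0 ^ 2 + a1 ^ 2) / 2 ≤ 2 * A ^ 2 + 5 * (A * θ) + 35 / 10 * θ ^ 2 := by
    have h3 : a0 ^ 2 ≤ (A + θ) ^ 2 := by
      rw [← sq_abs a0]; exact pow_le_pow_left₀ (abs_nonneg _) ha0 2
    have h4 : a1 ^ 2 ≤ (A + 2 * θ) ^ 2 := by
      rw [← sq_abs a1]; exact pow_le_pow_left₀ (abs_nonneg _) ha1 2
    nlinarith
  obtain ⟨X, hXd⟩ : ∃ X, X = 2 * A ^ 2 + 5 * (A * θ) + 35 / 10 * θ ^ 2 := ⟨_, rfl⟩
  rw [← hXd] at hX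
  have hX0 : 0 ≤ X := by rw [hXd]; positivity
  obtain ⟨g, hg⟩ : ∃ g, g = 314 / 100 * A - 523 / 1000 * θ - A * θ - θ ^ 2 / 2 := ⟨_, rfl⟩
  have hgf : g ≤ f := by
    have : 314 / 100 * A ≤ A * σ := by
      have := mul_le_mul_of_nonneg_left hσ hA.le
      linarith
    rw [hg]; linarith
  -- bounds of `g` and `X` by `A`
  have key : 0 < g ∧ X ≤ 1 ∧ X * (1 + 3 / 2 * g + g ^ 2) ≤ 3 * g + 2 * g ^ 2 := by
    rcases le_or_gt A (1 / 10) with h3 | h3
    · have hg1 : 169 / 100 * A ≤ g := by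
        have h4 : A * θ ≤ 1 / 5 * A := by nlinarith
        have h5 : θ ^ 2 ≤ 4 / 10 * A := by nlinarith
        rw [hg]; linarith
      have hg2 : g ≤ 314 / 1000 := by
        have h4 : 0 ≤ A * θ := by positivity
        have h5 : 0 ≤ θ ^ 2 := by positivity
        rw [hg]; linarith
      have hX1 : X ≤ 26 / 10 * A := by
        have h4 : A * θ ≤ 1 / 10 * (2 * A) := by nlinarith
        have h5 : θ ^ 2 ≤ 1 / 5 * (2 * A) := by nlinarith
        have h6 : A ^ 2 ≤ 1 / 10 * A := by nlinarith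
        rw [hXd]; linarith
      have hg0 : 0 < g := by linarith
      refine ⟨hg0, by linarith, ?_⟩
      have h7 : 1 + 3 / 2 * g + g ^ 2 ≤ 158 / 100 := by nlinarith
      have h8 : X * (1 + 3 / 2 * g + g ^ 2) ≤ 26 / 10 * A * (158 / 100) :=
        mul_le_mul hX1 h7 (by positivity) (by positivity)
      nlinarith [sq_nonneg g]
    · have hg1 : 294 / 100 * A - 1246 / 10000 ≤ g := by
        have h4 : A * θ ≤ 1 / 5 * A := by nlinarith
        have h5 : θ ^ 2 ≤ 1 / 25 := by nlinarith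
        rw [hg]; linarith
      have hg2 : g ≤ 1 := by
        have h4 : 0 ≤ A * θ := by positivity
        have h5 : 0 ≤ θ ^ 2 := by positivity
        rw [hg]; linarith
      have hX1 : X ≤ 2 * A ^ 2 + A + 14 / 100 := by
        have h4 : A * θ ≤ 1 / 5 * A := by nlinarith
        have h5 : θ ^ 2 ≤ 1 / 25 := by nlinarith
        rw [hXd]; linarith
      have hg0 : 0 < g := by linarith
      have hX2 : X ≤ 2 * g := by
        have h6 : A ^ 2 ≤ (1 / 10 + 3184 / 10000) * A - 1 / 10 * (3184 / 10000) := by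
          nlinarith [mul_nonneg (sub_nonneg.2 h3.le) (sub_nonneg.2 h2)]
        nlinarith
      have hX3 : X ≤ 67 / 100 := by nlinarith
      refine ⟨hg0, by linarith, ?_⟩
      -- `3 g + 2 g² - X (1 + 3g/2 + g²) = (3 g - X) + g (2 g - X (3/2 + g))`
      have h7 : X * (3 / 2 + g) ≤ X * (5 / 2) := mul_le_mul_of_nonneg_left (by linarith) hX0
      have h8 : 0 ≤ g * (2 * g + 1 - X * (5 / 2)) := by
        apply mul_nonneg hg0.le
        nlinarith
      nlinarith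
  obtain ⟨hg0, hX1, hk⟩ := key
  apply final_s (lt_of_lt_of_le hg0 hgf)
  have h9 : (2 - X) * (1 + 3 / 2 * g + g ^ 2) ≤ (2 - X) * (1 + 3 / 2 * f + f ^ 2) := by
    apply mul_le_mul_of_nonneg_left _ (by linarith)
    nlinarith
  have h10 : (2 - X) * (1 + 3 / 2 * f + f ^ 2) ≤ s * (1 + 3 / 2 * f + f ^ 2) := by
    apply mul_le_mul_of_nonneg_right (by linarith)
    have : 0 < f := lt_of_lt_of_le hg0 hgf
    positivity
  linarith

/-- (P10) bound of `|A_c|` -/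
theorem C_le {C E l m θ a0 a1 A : ℝ} (hθ0 : 0 < θ) (hθ : θ ≤ 1 / 5) (hA : A ≤ 3184 / 10000)
    (hm0 : 0 ≤ m) (hm : m ≤ 1) (hl0 : 0 ≤ l)
    (ha0 : |a0| ≤ A + θ) (ha1 : |a1| ≤ A + 2 * θ) (hC0 : 0 ≤ C) (hE : E = C * Real.exp (2 * l))
    (h : Real.cos (m - θ) + E * (2 * Real.cos a0 + Real.cos a1) ≤
      Real.exp (2 * l) * Real.cos (m + θ)) : C ≤ 81 / 100 * l := by
  have hpi := Real.pi_gt_three
  have h1 : Real.cos (m + θ) ≤ Real.cos (m - θ) := by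
    rw [Real.cos_add, Real.cos_sub]
    have h2 : 0 ≤ Real.sin m := Real.sin_nonneg_of_nonneg_of_le_pi hm0 (by linarith)
    have h3 : 0 ≤ Real.sin θ := Real.sin_nonneg_of_nonneg_of_le_pi hθ0.le (by linarith)
    have := mul_nonneg h2 h3
    linarith
  have h2 : 0 ≤ Real.cos (m + θ) := Real.cos_nonneg_of_mem_Icc ⟨by linarith, by linarith⟩
  have h3 : Real.cos (m + θ) ≤ 1 := Real.cos_le_one _
  have e0 := Real.exp_pos (2 * l)
  have e1 : 1 ≤ Real.exp (2 * l) := Real.one_le_exp (by linarith)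
  -- `E (2 cos a0 + cos a1) ≤ e^{2l} - 1`
  have h4 : E * (2 * Real.cos a0 + Real.cos a1) ≤ Real.exp (2 * l) - 1 := by
    have h5 : (Real.exp (2 * l) - 1) * Real.cos (m + θ) ≤ (Real.exp (2 * l) - 1) * 1 :=
      mul_le_mul_of_nonneg_left h3 (by linarith)
    linarith
  have hc0 : 8656 / 10000 ≤ Real.cos a0 := by
    have h5 := Real.one_sub_sq_div_two_le_cos (x := a0)
    have h6 : a0 ^ 2 ≤ (5184 / 10000) ^ 2 := by
      rw [← sq_abs a0]; exact pow_le_pow_left₀ (abs_nonneg _) (by linarith) 2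
    norm_num at h6
    linarith
  have hc1 : 7419 / 10000 ≤ Real.cos a1 := by
    have h5 := Real.one_sub_sq_div_two_le_cos (x := a1)
    have h6 : a1 ^ 2 ≤ (7184 / 10000) ^ 2 := by
      rw [← sq_abs a1]; exact pow_le_pow_left₀ (abs_nonneg _) (by linarith) 2
    norm_num at h6
    linarith
  have h7 : E * (24731 / 10000) ≤ E * (2 * Real.cos a0 + Real.cos a1) :=
    mul_le_mul_of_nonneg_left (by linarith) (by rw [hE]; positivity)
  have h8 : C * (24731 / 10000) ≤ 1 - Real.exp (-(2 * l)) := by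
    have h9 : Real.exp (2 * l) * Real.exp (-(2 * l)) = 1 := by rw [← Real.exp_add]; simp
    have h10 : C * (24731 / 10000) * Real.exp (2 * l) ≤
        (1 - Real.exp (-(2 * l))) * Real.exp (2 * l) := by
      rw [hE] at h7 h4
      nlinarith
    exact le_of_mul_le_mul_right h10 e0
  have h9 : 1 - 2 * l ≤ Real.exp (-(2 * l)) := by
    have := Real.add_one_le_exp (-(2 * l)); linarith
  linarith

end J1

end EQS
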