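import Mathlib
import Pool.Agent.Lib.MP_226de1_co.E.Apol
import Pool.Agent.Lib.MP_226de1_co.E.J1Pure
import Pool.Agent.Lib.MP_226de1_co.E.J1Pure4

/-! The circle criterion in the ranges of `σ ≥ π`. -/

set_option autoImplicit false

namespace EQS

open Complex

namespace J1

/-- the common part of the ranges -/
theorem quot {k A θ K R M x : ℝ} (hk0 : 0 < k) (hθ0 : 0 < θ) (hA : 0 < A) (hK : 0 < K)
    (hM0 : 0 < M) (hKM : M ≤ K * A * R) (hx : k * (θ ^ 2 * R) ≤ x) :
    0 < x ∧ k * (θ ^ 2 * M) ≤ 2 * x * (K * A / 2) := by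
  have hR : 0 < R := by
    by_contra hcon
    push Not at hcon
    have := mul_nonpos_of_nonneg_of_nonpos (mul_pos hK hA).le hcon
    linarith
  have h1 : 0 < k * (θ ^ 2 * R) := by positivity
  refine ⟨by linarith, ?_⟩
  have h2 : k * (θ ^ 2 * M) ≤ k * (θ ^ 2 * (K * A * R)) :=
    mul_le_mul_of_nonneg_left (mul_le_mul_of_nonneg_left hKM (sq_nonneg _)) hk0.le
  have h3 : K * A * (k * (θ ^ 2 * R)) ≤ K * A * x := mul_le_mul_of_nonneg_left hx (by positivity)
  linarith

theorem abs_sin_le1 {σ : ℝ} (h1 : Real.pi ≤ σ) : |Real.sin σ| ≤ σ - Real.pi := by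
  have e : Real.sin σ = -Real.sin (σ - Real.pi) := by
    rw [Real.sin_sub_pi, neg_neg]
  rw [e, abs_neg]
  have := Real.abs_sin_le_abs (x := σ - Real.pi)
  rw [abs_of_nonneg (by linarith : 0 ≤ σ - Real.pi)] at this
  exact this

theorem abs_sin_le2 {σ : ℝ} (h1 : 4 ≤ σ) (h2 : σ ≤ 2 * Real.pi) (h3 : σ ≤ 42375 / 10000) :
    |Real.sin σ| ≤ 91 / 100 := by
  have hp1 := Real.pi_gt_d4
  have hp2 := Real.pi_lt_d4
  have e : Real.sin σ = -Real.cos (3 * Real.pi / 2 - σ) := by
    have : 3 * Real.pi / 2 - σ = Real.pi - (σ - Real.pi / 2) := by ring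
    rw [this, Real.cos_pi_sub, Real.cos_sub_pi_div_two, neg_neg]
  rw [e, abs_neg]
  obtain ⟨u, hu⟩ : ∃ u, u = 3 * Real.pi / 2 - σ := ⟨_, rfl⟩
  rw [← hu]
  have u1 : 47 / 100 ≤ u := by rw [hu]; linarith
  have u2 : u ≤ 72 / 100 := by rw [hu]; linarith
  have hc0 : 0 ≤ Real.cos u := Real.cos_nonneg_of_mem_Icc ⟨by linarith, by linarith⟩
  rw [abs_of_nonneg hc0]
  have h4 := cos_le4 (y := u) (by rw [abs_of_nonneg (by linarith)]; linarith)
  have h5 : (47 / 100) ^ 2 ≤ u ^ 2 := pow_le_pow_left₀ (by norm_num) u1 2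
  have h6 : u ^ 2 ≤ (72 / 100) ^ 2 := pow_le_pow_left₀ (by linarith) u2 2
  have h7 : u ^ 4 = u ^ 2 * u ^ 2 := by ring
  have h8 : u ^ 2 * u ^ 2 ≤ (72 / 100) ^ 2 * u ^ 2 := mul_le_mul_of_nonneg_right h6 (sq_nonneg _)
  rw [h7] at h4
  norm_num at h5 h6 h8
  linarith

/-- the criterion for `|v - 1| ≤ |v e^lam - 1|` when `σ ≥ π` -/
theorem apply {w b lam : ℂ} {k A θ σ : ℝ} (hw : ‖w - 1 / 2‖ = 1 / 2) (hk0 : 0 < k)
    (hσ : σ = k * θ) (hθ0 : 0 < θ) (hθ : θ ≤ 4 / 25) (hσπ : Real.pi ≤ σ)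
    (hA2 : θ * (σ - Real.pi / 2) ≤ A * σ) (hL : A * σ ≤ 23 / 20)
    (hL1 : σ ≤ 3 * Real.pi / 2 → A * σ ≤ 1)
    (hre : b.re = Real.exp (A * σ) * Real.cos σ)
    (him : b.im = -(Real.exp (A * σ) * Real.sin σ)) (hbn : ‖b‖ = Real.exp (A * σ))
    (hlr : k * (θ ^ 2 * (1 - A ^ 2 - 1 / 2 * θ - 3 * (A * θ))) ≤ lam.re)
    (hli : |lam.im| ≤ k * (θ ^ 2 * (5 / 2 * A + 28 / 10 * (A * θ) + 115 / 100 * θ))) :
    ‖w - b - 1‖ ≤ ‖(w - b) * exp lam - 1‖ := by
  have hp1 := Real.pi_gt_d4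
  have hp2 := Real.pi_lt_d4
  have hσ0 : 0 < σ := by linarith
  have hθ2A : θ ≤ 2 * A := by
    have h1 : θ * (σ / 2) ≤ θ * (σ - Real.pi / 2) :=
      mul_le_mul_of_nonneg_left (by linarith) hθ0.le
    have h2 : θ * σ ≤ 2 * A * σ := by linarith
    exact le_of_mul_le_mul_right h2 hσ0
  have hA : 0 < A := by linarith
  have hM0 : 0 < 5 / 2 * A + 28 / 10 * (A * θ) + 115 / 100 * θ := by positivity
  have habs : |b.im| = Real.exp (A * σ) * |Real.sin σ| := by
    rw [him, abs_neg, abs_mul, abs_of_pos (Real.exp_pos _)]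
  have hs0 : 0 ≤ |Real.sin σ| := abs_nonneg _
  have hs1 : |Real.sin σ| ≤ 1 := Real.abs_sin_le_one σ
  -- the first three ranges
  have rangeA : ∀ K : ℝ, 0 < K → σ ≤ 3 * Real.pi / 2 →
      5 / 2 * A + 28 / 10 * (A * θ) + 115 / 100 * θ ≤
        K * A * (1 - A ^ 2 - 1 / 2 * θ - 3 * (A * θ)) →
      K * (|Real.sin σ| + 1 / 2) ≤ 2 * σ →
      ‖w - b - 1‖ ≤ ‖(w - b) * exp lam - 1‖ := by
    intro K hK h1 h2 h3
    obtain ⟨hx, hy⟩ := quot hk0 hθ0 hA hK hM0 h2 hlr
    apply apolA (c := K * A / 2) hw hx (by positivity) (hli.trans hy)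
    · rw [hre]
      have : Real.cos σ ≤ 0 :=
        Real.cos_nonpos_of_pi_div_two_le_of_le (by linarith) (by linarith)
      exact mul_nonpos_of_nonneg_of_nonpos (Real.exp_pos _).le this
    · rw [habs, hbn]
      exact crit1 hA.le hσ0.le hs0 hK.le h3
  rcases le_or_gt σ (35 / 10) with c1 | c1
  · -- first range
    have hA3 : A ≤ 3184 / 10000 := by
      by_contra hcon
      push Not at hcon
      have h1 : 3184 / 10000 * 3.1415 < A * σ :=
        mul_lt_mul hcon (by linarith) (by norm_num) hA.le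
      have h2 := hL1 (by linarith)
      norm_num at h1
      linarith
    apply rangeA (66 / 10) (by norm_num) (by linarith) (kA hθ0 (by linarith) hθ2A hA3)
    have := abs_sin_le1 hσπ
    linarith
  rcases le_or_gt σ 4 with c2 | c2
  · -- second range
    have hA3 : A ≤ 286 / 1000 := by
      by_contra hcon
      push Not at hcon
      have h1 : 286 / 1000 * (35 / 10) < A * σ :=
        mul_lt_mul hcon c1.le (by norm_num) hA.le
      have h2 := hL1 (by linarith)
      norm_num at h1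
      linarith
    have hθA : θ ≤ 182 / 100 * A := by
      have h1 : θ * σ ≤ 182 / 100 * (θ * (σ - Real.pi / 2)) := by
        have : θ * (82 / 100 * σ - 182 / 100 * (Real.pi / 2)) ≥ 0 :=
          mul_nonneg hθ0.le (by linarith)
        linarith
      have h2 : θ * σ ≤ 182 / 100 * A * σ := by linarith
      exact le_of_mul_le_mul_right h2 hσ0
    apply rangeA (585 / 100) (by norm_num) (by linarith) (kB hθ0 hθ hθA hA3)
    have := abs_sin_le1 hσπ
    linarith
  have hθA : θ ≤ 165 / 100 * A := by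
    have h1 : θ * σ ≤ 165 / 100 * (θ * (σ - Real.pi / 2)) := by
      have : θ * (65 / 100 * σ - 165 / 100 * (Real.pi / 2)) ≥ 0 :=
        mul_nonneg hθ0.le (by linarith)
      linarith
    have h2 : θ * σ ≤ 165 / 100 * A * σ := by linarith
    exact le_of_mul_le_mul_right h2 hσ0
  rcases le_or_gt σ (3 * Real.pi / 2) with c3 | c3
  · -- third range
    have hA3 : A ≤ 1 / 4 := by
      by_contra hcon
      push Not at hcon
      have h1 : 1 / 4 * 4 < A * σ := mul_lt_mul hcon c2.le (by norm_num) hA.le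
      have h2 := hL1 c3
      norm_num at h1
      linarith
    apply rangeA (565 / 100) (by norm_num) c3 (kC hθ0 hθ hθA hA3)
    rcases le_or_gt σ (42375 / 10000) with c4 | c4
    · have := abs_sin_le2 c2.le (by linarith) c4
      linarith
    · linarith
  · -- fourth range
    have hA3 : A ≤ 2441 / 10000 := by
      by_contra hcon
      push Not at hcon
      have h1 : 2441 / 10000 * (4712 / 1000) < A * σ :=
        mul_lt_mul hcon (by linarith) (by norm_num) hA.le
      norm_num at h1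
      linarith
    have hq := kC hθ0 hθ hθA (by linarith)
    obtain ⟨hx, hy⟩ := quot hk0 hθ0 hA (by norm_num : (0 : ℝ) < 565 / 100) hM0 hq hlr
    obtain ⟨hx0, hy0⟩ := quot hk0 hθ0 hA (by norm_num : (0 : ℝ) < 565 / 100) hM0 hq le_rfl
    apply apolB (c := 565 / 100 * A / 2) hw hx (by positivity) (hli.trans hy)
    · apply one_le_exp_cos hx0.le hlr hli
      · -- `y0 ≤ .82`
        have hθσ : θ * σ ≤ 23 / 20 + 4 / 25 * (31416 / 20000) := by
          have h1 : θ * (Real.pi / 2) ≤ 4 / 25 * (31416 / 20000) :=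
            mul_le_mul hθ (by linarith) (by linarith) (by norm_num)
          linarith
        have e : k * (θ ^ 2 * (5 / 2 * A + 28 / 10 * (A * θ) + 115 / 100 * θ)) =
            (A * σ) * θ * (5 / 2 + 28 / 10 * θ) + 115 / 100 * (θ * (θ * σ)) := by
          rw [hσ]; ring
        have h1 : (A * σ) * θ ≤ 23 / 20 * (4 / 25) := mul_le_mul hL hθ hθ0.le (by norm_num)
        have h2 : (A * σ) * θ * (5 / 2 + 28 / 10 * θ) ≤
            23 / 20 * (4 / 25) * (5 / 2 + 28 / 10 * (4 / 25)) :=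
          mul_le_mul h1 (by linarith) (by positivity) (by norm_num)
        have h3 : θ * (θ * σ) ≤ 4 / 25 * (23 / 20 + 4 / 25 * (31416 / 20000)) :=
          mul_le_mul hθ hθσ (by positivity) (by norm_num)
        rw [e]
        norm_num at h2 h3 ⊢
        linarith
      · -- `y0 ≤ 1.42 x0`
        have h1 : 565 / 100 * A ≤ 142 / 100 := by linarith
        have h2 := mul_le_mul_of_nonneg_right h1 hx0.le
        linarith
    · rw [habs, hbn]
      apply crit1 hA.le hσ0.le hs0 (by norm_num)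
      linarith
    · rw [hbn]
      apply crit2 hA.le hσ0.le (by norm_num) (by linarith)
      nlinarith

end J1

end EQS
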