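import Mathlib
import Pool.Agent.Lib.MP_226de1_co.E.J1Pure2

/-! Real estimates for the block `σ ≥ π` of `ExitHalf 8`, part 3: bounds of `mu_i`. -/

set_option autoImplicit false

namespace EQS

namespace J1

/-- the sine has slope at least `1/2` on `[-3/10, 3/10]` -/
theorem sin_slope {u v : ℝ} (hu : -(3 / 10) ≤ u) (hv : v ≤ 3 / 10) (h : u ≤ v) :
    1 / 2 * (v - u) ≤ Real.sin v - Real.sin u := by
  rw [Real.sin_sub_sin]
  have h1 := Real.sin_ge_sub_cube (x := (v - u) / 2) (by linarith)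
  have h2 := Real.one_sub_sq_div_two_le_cos (x := (v + u) / 2)
  have h3 : 9 / 10 ≤ Real.cos ((v + u) / 2) := by
    have : ((v + u) / 2) ^ 2 ≤ (3 / 10) ^ 2 := by
      rw [← sq_abs]
      apply pow_le_pow_left₀ (abs_nonneg _)
      rw [abs_le]; constructor <;> linarith
    norm_num at this
    linarith
  have h4 : 6 / 10 * ((v - u) / 2) ≤ Real.sin ((v - u) / 2) := by
    have h5 : 0 ≤ (v - u) / 2 := by linarith
    have h6 : (v - u) / 2 ≤ 1 := by linarith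
    have h7 : ((v - u) / 2) ^ 3 ≤ (v - u) / 2 := by
      have : ((v - u) / 2) ^ 3 ≤ ((v - u) / 2) ^ 1 := pow_le_pow_of_le_one h5 h6 (by norm_num)
      simpa using this
    linarith
  have h5 : 0 ≤ (v - u) / 2 := by linarith
  have h8 : 6 / 10 * ((v - u) / 2) * (9 / 10) ≤
      Real.sin ((v - u) / 2) * Real.cos ((v + u) / 2) :=
    mul_le_mul h4 h3 (by norm_num) (by linarith)
  linarith

/-- `cosh x ≤ 1 + (51/100) x²` on `[0, 1/5]` -/
theorem cosh_le51 {x : ℝ} (h0 : 0 ≤ x) (h1 : x ≤ 1 / 5) : Real.cosh x ≤ 1 + 51 / 100 * x ^ 2 := by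
  have h2 := Real.cosh_le_exp_half_sq x
  have h3 : x ^ 2 ≤ 1 / 25 := by nlinarith
  have h4 : 0 ≤ x ^ 2 / 2 := by positivity
  have h5 := exp_le_cubic (x := x ^ 2 / 2) h4 (by linarith)
  set u := x ^ 2 / 2 with hu
  have h6 : u ≤ 1 / 50 := by rw [hu]; linarith
  have h7 : u ^ 2 ≤ 1 / 50 * u := by
    calc u ^ 2 = u * u := by ring
      _ ≤ 1 / 50 * u := mul_le_mul_of_nonneg_right h6 h4
  have h8 : u ^ 3 ≤ 1 / 50 * u ^ 2 := by
    calc u ^ 3 = u * u ^ 2 := by ring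
      _ ≤ 1 / 50 * u ^ 2 := mul_le_mul_of_nonneg_right h6 (sq_nonneg u)
  have h9 : x ^ 2 = 2 * u := by rw [hu]; ring
  rw [h9]
  linarith

/-- lower bound of the sine sum -/
theorem sin_sum_ge {b l θ : ℝ} (hθ0 : 0 < θ) (hθ : θ ≤ 1 / 5) (hl0 : 0 ≤ l)
    (hl : l ≤ 8 / 25 * θ) (hb : |b| ≤ 271 / 1000 * θ) :
    2 * θ - 4 * (l * θ) + 2 * (l * b) - 19556 / 10000 * θ ^ 3 ≤
      Real.sin b + Real.exp (-(2 * l)) * Real.sin (2 * θ - b) := by
  obtain ⟨hb1, hb2⟩ := abs_le.1 hb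
  obtain ⟨y, hy⟩ : ∃ y, y = 2 * θ - b := ⟨_, rfl⟩
  rw [← hy]
  have hy0 : 0 ≤ y := by rw [hy]; linarith
  have hy1 : y ≤ 2271 / 1000 * θ := by rw [hy]; linarith
  have hθ3 : 0 < θ ^ 3 := by positivity
  have y3 : y ^ 3 ≤ 1171281 / 100000 * θ ^ 3 := by
    have := pow_le_pow_left₀ hy0 hy1 3
    have e : (2271 / 1000 * θ) ^ 3 = (2271 / 1000) ^ 3 * θ ^ 3 := by ring
    rw [e] at this
    norm_num at this ⊢
    linarith
  have b3 : |b| ^ 3 ≤ 2 / 100 * θ ^ 3 := by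
    have := pow_le_pow_left₀ (abs_nonneg b) hb 3
    have e : (271 / 1000 * θ) ^ 3 = (271 / 1000) ^ 3 * θ ^ 3 := by ring
    rw [e] at this
    norm_num at this ⊢
    linarith
  have h1 : b - |b| ^ 3 / 6 ≤ Real.sin b := by
    rcases le_or_gt 0 b with h0 | h0
    · rw [abs_of_nonneg h0]
      exact Real.sin_ge_sub_cube h0
    · have := Real.lt_sin h0
      have h2 : 0 ≤ |b| ^ 3 / 6 := by positivity
      linarith
  have h2 := Real.sin_ge_sub_cube hy0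
  have h3 : 1 - 2 * l ≤ Real.exp (-(2 * l)) := by
    have := Real.add_one_le_exp (-(2 * l)); linarith
  have h4 : 0 ≤ y - y ^ 3 / 6 := by
    have : y - y ^ 3 / 6 = y * (1 - y ^ 2 / 6) := by ring
    rw [this]
    exact mul_nonneg hy0 (by nlinarith)
  have h5 : (1 - 2 * l) * (y - y ^ 3 / 6) ≤ Real.exp (-(2 * l)) * Real.sin y :=
    mul_le_mul h3 h2 h4 (Real.exp_pos _).le
  have h6 : 0 ≤ l * y ^ 3 := by positivity
  have h7 : (1 - 2 * l) * (y - y ^ 3 / 6) = y - y ^ 3 / 6 - 2 * (l * y) + l * y ^ 3 / 3 := by ring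
  have h8 : l * y = 2 * (l * θ) - l * b := by rw [hy]; ring
  linarith

/-- (P5) upper bound of `mu_i` -/
theorem mui_le {a b l θ l2 θ2 C T κ κ3 : ℝ} (hθ0 : 0 < θ) (hθ : θ ≤ 1 / 5) (hl0 : 0 ≤ l)
    (hl : l ≤ 8 / 25 * θ) (ha : |a| ≤ 271 / 1000 * θ) (hb : |b| ≤ 271 / 1000 * θ)
    (hC0 : 0 ≤ C) (hC : C ≤ 81 / 100 * l) (hT0 : 0 ≤ T) (hT : T ≤ 142 / 100)
    (hκ : |κ| ≤ θ / 2) (hκ3 : |κ3| ≤ θ / 2)
    (hl2 : 0 ≤ l2) (hl2' : l2 ≤ 22 / 10 * l + 143 / 100 * θ ^ 2) (hθ2 : |θ2| ≤ 147 / 100 * θ)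
    (h : 2 * Real.cosh l2 * Real.sin θ2 = Real.exp (-a) *
      (Real.sin b + Real.exp (-(2 * l)) * Real.sin (2 * θ - b) +
        C * (Real.sin (κ + κ3) + T * Real.sin (2 * κ3 + θ2)))) :
    θ - θ2 + l * b - θ * a ≤ 5 / 2 * (l * θ) + 28 / 10 * (l * θ ^ 2) + 115 / 100 * θ ^ 3 := by
  have hS := sin_sum_ge hθ0 hθ hl0 hl hb
  obtain ⟨S, hSd⟩ : ∃ S, S = Real.sin b + Real.exp (-(2 * l)) * Real.sin (2 * θ - b) := ⟨_, rfl⟩
  rw [← hSd] at h hS
  have ha' : |a| ≤ 543 / 10000 := by linarith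
  have hE := exp_a_le ha'
  obtain ⟨E, hEd⟩ : ∃ E, E = Real.exp (-a) := ⟨_, rfl⟩
  have hE0 : 0 < E := by rw [hEd]; exact Real.exp_pos _
  have hE1 : 1 - a ≤ E := by
    rw [hEd]
    have := Real.add_one_le_exp (-a); linarith
  rw [← hEd] at h hE
  obtain ⟨hb1, hb2⟩ := abs_le.1 hb
  obtain ⟨ha1, ha2⟩ := abs_le.1 ha
  obtain ⟨hk1, hk2⟩ := abs_le.1 hκ
  obtain ⟨hk3, hk4⟩ := abs_le.1 hκ3
  obtain ⟨ht1, ht2⟩ := abs_le.1 hθ2
  have hpi := Real.pi_gt_three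
  have hθ2p : 0 < θ ^ 2 := by positivity
  have hθ3 : 0 < θ ^ 3 := by positivity
  have q2 : θ ^ 2 ≤ 1 / 5 * θ := by
    calc θ ^ 2 = θ * θ := by ring
      _ ≤ 1 / 5 * θ := mul_le_mul_of_nonneg_right hθ hθ0.le
  have q3 : θ ^ 3 ≤ 1 / 5 * θ ^ 2 := by
    calc θ ^ 3 = θ * θ ^ 2 := by ring
      _ ≤ 1 / 5 * θ ^ 2 := mul_le_mul_of_nonneg_right hθ hθ2p.le
  have q4 : θ ^ 4 ≤ 1 / 5 * θ ^ 3 := by
    calc θ ^ 4 = θ * θ ^ 3 := by ring
      _ ≤ 1 / 5 * θ ^ 3 := mul_le_mul_of_nonneg_right hθ hθ3.le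
  have q5 : θ ^ 5 ≤ 1 / 25 * θ ^ 3 := by
    have : 0 < θ ^ 4 := by positivity
    have : θ ^ 5 ≤ 1 / 5 * θ ^ 4 := by
      calc θ ^ 5 = θ * θ ^ 4 := by ring
        _ ≤ 1 / 5 * θ ^ 4 := mul_le_mul_of_nonneg_right hθ this.le
    linarith
  have hlθ : 0 ≤ l * θ := mul_nonneg hl0 hθ0.le
  have hlθ2 : 0 ≤ l * θ ^ 2 := mul_nonneg hl0 hθ2p.le
  have p1 : l * θ ≤ 8 / 25 * θ ^ 2 := by
    have := mul_le_mul_of_nonneg_right hl hθ0.le
    calc l * θ ≤ 8 / 25 * θ * θ := this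
      _ = _ := by ring
  have p2 : l * θ ^ 2 ≤ 1 / 5 * (l * θ) := by
    have := mul_le_mul_of_nonneg_left hθ hlθ
    calc l * θ ^ 2 = l * θ * θ := by ring
      _ ≤ l * θ * (1 / 5) := this
      _ = _ := by ring
  have p3 : l * θ ^ 3 ≤ 1 / 5 * (l * θ ^ 2) := by
    have := mul_le_mul_of_nonneg_left hθ hlθ2
    calc l * θ ^ 3 = l * θ ^ 2 * θ := by ring
      _ ≤ l * θ ^ 2 * (1 / 5) := this
      _ = _ := by ring
  have p4 : l ^ 2 * θ ≤ 8 / 25 * (l * θ ^ 2) := by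
    have := mul_le_mul_of_nonneg_left hl hlθ
    calc l ^ 2 * θ = l * θ * l := by ring
      _ ≤ l * θ * (8 / 25 * θ) := this
      _ = _ := by ring
  have p5 : l ^ 2 * θ ^ 2 ≤ 8 / 125 * (l * θ ^ 2) := by
    have := mul_le_mul_of_nonneg_right p4 hθ0.le
    calc l ^ 2 * θ ^ 2 = l ^ 2 * θ * θ := by ring
      _ ≤ 8 / 25 * (l * θ ^ 2) * θ := this
      _ = 8 / 25 * (l * θ ^ 3) := by ring
      _ ≤ _ := by linarith
  have tb : |l * b| ≤ 271 / 1000 * (l * θ) := by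
    rw [abs_mul, abs_of_nonneg hl0]
    calc l * |b| ≤ l * (271 / 1000 * θ) := mul_le_mul_of_nonneg_left hb hl0
      _ = _ := by ring
  have ta : |θ * a| ≤ 271 / 1000 * θ ^ 2 := by
    rw [abs_mul, abs_of_pos hθ0]
    calc θ * |a| ≤ θ * (271 / 1000 * θ) := mul_le_mul_of_nonneg_left ha hθ0.le
      _ = _ := by ring
  obtain ⟨tb1, tb2⟩ := abs_le.1 tb
  obtain ⟨ta1, ta2⟩ := abs_le.1 ta
  by_contra hcon
  push Not at hcon
  obtain ⟨M, hM⟩ : ∃ M, M = 5 / 2 * (l * θ) + 28 / 10 * (l * θ ^ 2) + 115 / 100 * θ ^ 3 :=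
    ⟨_, rfl⟩
  rw [← hM] at hcon
  have hM0 : 0 ≤ M := by rw [hM]; positivity
  have hM1 : M ≤ 1 / 4 * θ := by rw [hM]; linarith
  obtain ⟨Y, hY⟩ : ∃ Y, Y = θ + l * b - θ * a - M := ⟨_, rfl⟩
  have hYθ : θ2 < Y := by rw [hY]; linarith
  have hY0 : 0 ≤ Y := by rw [hY]; linarith
  have hY1 : Y ≤ 1072 / 1000 * θ := by rw [hY]; linarith
  obtain ⟨G, hG⟩ : ∃ G, G = M + 271 / 1000 * θ ^ 2 + 271 / 1000 * (l * θ) := ⟨_, rfl⟩
  have hG0 : 0 ≤ G := by rw [hG]; positivity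
  have hz : θ - θ2 ≤ (Y - θ2) + G := by rw [hY, hG]; linarith
  have hz0 : 0 ≤ (Y - θ2) + G := by linarith
  -- the sine terms of `N`
  have n1 : -θ ≤ Real.sin (κ + κ3) := by
    rcases le_or_gt 0 (κ + κ3) with h0 | h0
    · have := Real.sin_nonneg_of_nonneg_of_le_pi h0 (by linarith)
      linarith
    · have := Real.lt_sin h0
      linarith
  have n2 : -((Y - θ2) + G) ≤ Real.sin (2 * κ3 + θ2) := by
    rcases le_or_gt 0 (2 * κ3 + θ2) with h0 | h0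
    · have := Real.sin_nonneg_of_nonneg_of_le_pi h0 (by linarith)
      linarith
    · have := Real.lt_sin h0
      linarith
  have n3 : -(θ + 142 / 100 * ((Y - θ2) + G)) ≤
      Real.sin (κ + κ3) + T * Real.sin (2 * κ3 + θ2) := by
    have h1 : T * (-((Y - θ2) + G)) ≤ T * Real.sin (2 * κ3 + θ2) :=
      mul_le_mul_of_nonneg_left n2 hT0
    have h2 : T * ((Y - θ2) + G) ≤ 142 / 100 * ((Y - θ2) + G) :=
      mul_le_mul_of_nonneg_right hT hz0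
    linarith
  have n4 : -(81 / 100 * l * (θ + 142 / 100 * ((Y - θ2) + G))) ≤
      C * (Real.sin (κ + κ3) + T * Real.sin (2 * κ3 + θ2)) := by
    have h1 := mul_le_mul_of_nonneg_left n3 hC0
    have h2 : C * (θ + 142 / 100 * ((Y - θ2) + G)) ≤
        81 / 100 * l * (θ + 142 / 100 * ((Y - θ2) + G)) :=
      mul_le_mul_of_nonneg_right hC (by linarith)
    linarith
  -- lower bound of the right side
  have r1 : E * (S - 81 / 100 * (l * θ) - 11502 / 10000 * (l * G)) -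
      8 / 100 * (Y - θ2) ≤ 2 * Real.cosh l2 * Real.sin θ2 := by
    rw [h]
    have h1 : S - 81 / 100 * (l * θ) - 11502 / 10000 * (l * G) -
        11502 / 10000 * (l * (Y - θ2)) ≤
        S + C * (Real.sin (κ + κ3) + T * Real.sin (2 * κ3 + θ2)) := by
      have e : 81 / 100 * l * (θ + 142 / 100 * ((Y - θ2) + G)) =
        81 / 100 * (l * θ) + 11502 / 10000 * (l * G) + 11502 / 10000 * (l * (Y - θ2)) := by ring
      linarith
    have h2 := mul_le_mul_of_nonneg_left h1 hE0.le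
    have h3 : E * (11502 / 10000 * (l * (Y - θ2))) ≤ 8 / 100 * (Y - θ2) := by
      have h4 : l ≤ 8 / 125 := by linarith
      have h5 : E * l ≤ 1056 / 1000 * (8 / 125) := mul_le_mul hE h4 hl0 (by norm_num)
      have h6 : E * (11502 / 10000 * (l * (Y - θ2))) = 11502 / 10000 * (E * l) * (Y - θ2) := by ring
      rw [h6]
      apply mul_le_mul_of_nonneg_right _ (by linarith)
      norm_num at h5 ⊢
      linarith
    have e2 : E * (S - 81 / 100 * (l * θ) - 11502 / 10000 * (l * G) -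
        11502 / 10000 * (l * (Y - θ2))) = E * (S - 81 / 100 * (l * θ) - 11502 / 10000 * (l * G)) -
        E * (11502 / 10000 * (l * (Y - θ2))) := by ring
    linarith
  -- upper bound of the left side
  have hl2s : l2 ≤ 1 / 5 := by linarith
  have hch := cosh_le51 hl2 hl2s
  have hch1 := Real.one_le_cosh l2
  have hsin : Real.sin θ2 ≤ Y - 1 / 2 * (Y - θ2) := by
    have h1 := sin_slope (u := θ2) (v := Y) (by linarith) (by linarith) hYθ.le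
    have h2 := Real.sin_le hY0
    linarith
  have r2 : 2 * Real.cosh l2 * Real.sin θ2 ≤
      2 * Y + 102 / 100 * l2 ^ 2 * Y - (Y - θ2) := by
    have h1 : 2 * Real.cosh l2 * Real.sin θ2 ≤ 2 * Real.cosh l2 * (Y - 1 / 2 * (Y - θ2)) :=
      mul_le_mul_of_nonneg_left hsin (by linarith)
    have h2 : 2 * Real.cosh l2 * Y ≤ 2 * (1 + 51 / 100 * l2 ^ 2) * Y :=
      mul_le_mul_of_nonneg_right (by linarith) hY0
    have h3 : 1 * (Y - θ2) ≤ Real.cosh l2 * (Y - θ2) :=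
      mul_le_mul_of_nonneg_right hch1 (by linarith)
    linarith
  have r3 : E * (S - 81 / 100 * (l * θ) - 11502 / 10000 * (l * G)) <
      2 * Y + 102 / 100 * l2 ^ 2 * Y := by linarith
  -- the explicit lower bound `Q`
  have lG : l * G ≤ 156693 / 100000 * (l * θ ^ 2) := by
    have e : l * G = 5 / 2 * (l ^ 2 * θ) + 28 / 10 * (l ^ 2 * θ ^ 2) + 115 / 100 * (l * θ ^ 3) +
        271 / 1000 * (l * θ ^ 2) + 271 / 1000 * (l ^ 2 * θ) := by
      rw [hG, hM]; ring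
    rw [e]
    linarith
  have lG0 : 0 ≤ l * G := mul_nonneg hl0 hG0
  obtain ⟨Q, hQ⟩ : ∃ Q, Q = 2 * θ - 4 * (l * θ) + 2 * (l * b) - 19556 / 10000 * θ ^ 3 -
    81 / 100 * (l * θ) - 11502 / 10000 * (l * G) := ⟨_, rfl⟩
  have hQ0 : 0 ≤ Q := by rw [hQ]; linarith
  have hQ1 : |Q - 2 * θ| ≤ 5352 / 1000 * (l * θ) + 180229 / 100000 * (l * θ ^ 2) +
      19556 / 10000 * θ ^ 3 := by
    rw [hQ, abs_le]
    constructor <;> linarith
  have r4 : (1 - a) * Q ≤ E * (S - 81 / 100 * (l * θ) - 11502 / 10000 * (l * G)) := by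
    have h1 : Q ≤ S - 81 / 100 * (l * θ) - 11502 / 10000 * (l * G) := by rw [hQ]; linarith
    calc (1 - a) * Q ≤ E * Q := mul_le_mul_of_nonneg_right hE1 hQ0
      _ ≤ _ := mul_le_mul_of_nonneg_left h1 hE0.le
  have r5 : a * Q ≤ 2 * (θ * a) + 154810 / 100000 * (l * θ ^ 2) + 106 / 1000 * θ ^ 3 := by
    have e : a * Q = 2 * (θ * a) + a * (Q - 2 * θ) := by ring
    have h1 : a * (Q - 2 * θ) ≤ 271 / 1000 * θ * (5352 / 1000 * (l * θ) +
        180229 / 100000 * (l * θ ^ 2) + 19556 / 10000 * θ ^ 3) := by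
      refine (le_abs_self _).trans ?_
      rw [abs_mul]
      exact mul_le_mul ha hQ1 (abs_nonneg _) (by positivity)
    have e2 : 271 / 1000 * θ * (5352 / 1000 * (l * θ) +
        180229 / 100000 * (l * θ ^ 2) + 19556 / 10000 * θ ^ 3) =
        271 / 1000 * (5352 / 1000) * (l * θ ^ 2) + 271 / 1000 * (180229 / 100000) * (l * θ ^ 3) +
        271 / 1000 * (19556 / 10000) * θ ^ 4 := by ring
    rw [e]
    norm_num at e2 h1 ⊢
    linarith
  have r6 : l2 ^ 2 * Y ≤ 1072 / 1000 * (484 / 100 * (l ^ 2 * θ) + 6292 / 1000 * (l * θ ^ 3) +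
      20449 / 10000 * θ ^ 5) := by
    have h1 : l2 ^ 2 ≤ (22 / 10 * l + 143 / 100 * θ ^ 2) ^ 2 := pow_le_pow_left₀ hl2 hl2' 2
    have h2 : l2 ^ 2 * Y ≤ (22 / 10 * l + 143 / 100 * θ ^ 2) ^ 2 * (1072 / 1000 * θ) :=
      mul_le_mul h1 hY1 hY0 (sq_nonneg _)
    refine h2.trans (le_of_eq (by ring))
  have hYe : 2 * Y = 2 * θ + 2 * (l * b) - 2 * (θ * a) - 2 * M := by rw [hY]; ring
  have e7 : (1 - a) * Q = Q - a * Q := by ring
  rw [e7] at r4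
  rw [hM] at hYe
  linarith

end J1

end EQS
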