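import Mathlib
import Pool.Agent.Lib.MP_226de1_co.E.J0
import Pool.Agent.Lib.MP_226de1_co.E.JZone
import Pool.Agent.Lib.MP_226de1_co.E.FlowIm
import Pool.Agent.Lib.MP_226de1_co.E.Mid
import Pool.Agent.Lib.MP_226de1_co.E.J1Pure3
import Pool.Agent.Lib.MP_226de1_co.E.J1Apply

/-! Block (III) of `ExitHalf 8` on the higher sheets: `π/2 ≤ F` (then `σ > π`),
`0 ≤ L ≤ 1.7`. -/

set_option autoImplicit false

namespace EQS

open Complex

variable {k C : ℝ} {q0 q1 q2 q3 d0 d1 d2 X1 X2 X3 : ℂ}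

/-- `|1 - e^{-z}| ≤ |z|` for `Re z ≥ 0` -/
theorem norm_one_sub_exp_neg {z : ℂ} (hz : 0 ≤ z.re) : ‖1 - exp (-z)‖ ≤ ‖z‖ := by
  have hconv : Convex ℝ {w : ℂ | 0 ≤ w.re} := convex_halfSpace_re_ge 0
  have h := hconv.norm_image_sub_le_of_norm_hasDerivWithin_le (f := fun w : ℂ => exp (-w))
    (f' := fun w : ℂ => -exp (-w)) (C := 1) (x := 0) (y := z)
    (fun w _ => by
      have h1 : HasDerivAt (fun w : ℂ => exp (-w)) (exp (-w) * -1) w :=
        (hasDerivAt_neg w).cexp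
      have h2 : exp (-w) * -1 = -exp (-w) := by ring
      rw [h2] at h1
      exact h1.hasDerivWithinAt)
    (fun w hw => by
      rw [norm_neg, norm_exp, neg_re]
      exact Real.exp_le_one_iff.2 (by simpa using hw))
    (by simp) hz
  rw [norm_sub_rev]
  simpa using h

/-- `|sinh Re z| ≤ |sinh z|` and `|sin Im z| ≤ |sinh z|`, doubled -/
theorem two_sinh_norm (z : ℂ) :
    |2 * Real.sinh z.re| ≤ ‖2 * sinh z‖ ∧ |2 * Real.sin z.im| ≤ ‖2 * sinh z‖ := by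
  have h1 : ‖2 * sinh z‖ ^ 2 = (2 * Real.sinh z.re) ^ 2 + (2 * Real.sin z.im) ^ 2 := by
    rw [← normSq_eq_norm_sq, normSq_apply, two_sinh_re, two_sinh_im]
    have h2 := Real.cosh_sq z.re
    have h3 := Real.sin_sq_add_cos_sq z.im
    have h4 : Real.cos z.im ^ 2 = 1 - Real.sin z.im ^ 2 := by linarith
    calc 2 * Real.sinh z.re * Real.cos z.im * (2 * Real.sinh z.re * Real.cos z.im) +
          2 * Real.cosh z.re * Real.sin z.im * (2 * Real.cosh z.re * Real.sin z.im) =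
          4 * Real.sinh z.re ^ 2 * Real.cos z.im ^ 2 +
            4 * Real.cosh z.re ^ 2 * Real.sin z.im ^ 2 := by ring
      _ = _ := by rw [h2, h4]; ring
  constructor
  · apply abs_le_of_sq_le_sq _ (norm_nonneg _)
    rw [h1]
    nlinarith [sq_nonneg (2 * Real.sin z.im)]
  · apply abs_le_of_sq_le_sq _ (norm_nonneg _)
    rw [h1]
    nlinarith [sq_nonneg (2 * Real.sinh z.re)]

/-- the norm form of the flow identity -/
theorem St.flow_norm (h : St k C q0 q1 q2 q3 d0 d1 d2 X1 X2 X3) (hl : 0 ≤ (X2 - X1).re) :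
    ‖2 * sinh (X3 - X2)‖ ≤ Real.exp (-((X3 - d2).re - (X2 - d1).re)) *
      (2 * ‖X2 - X1‖ + Real.exp (2 * (d1 - X2).re) * (1 + Real.exp (d2 - d1).re)) := by
  rw [h.flow, norm_mul, norm_exp]
  have e1 : ((X2 - d1) - (X3 - d2)).re = -((X3 - d2).re - (X2 - d1).re) := by
    simp only [sub_re]; ring
  rw [e1]
  apply mul_le_mul_of_nonneg_left _ (Real.exp_pos _).le
  have h1 : ‖1 - exp (-(2 * (X2 - X1)))‖ ≤ 2 * ‖X2 - X1‖ := by
    have h2 := norm_one_sub_exp_neg (z := 2 * (X2 - X1)) (by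
      have : (2 * (X2 - X1)).re = 2 * (X2 - X1).re := by simp
      rw [this]; linarith)
    rw [norm_mul] at h2
    simpa using h2
  have h3 : ‖exp (2 * (d1 - X2)) * (1 + exp (d2 - d1))‖ ≤
      Real.exp (2 * (d1 - X2).re) * (1 + Real.exp (d2 - d1).re) := by
    rw [norm_mul, norm_exp]
    have e2 : (2 * (d1 - X2)).re = 2 * (d1 - X2).re := by simp
    rw [e2]
    apply mul_le_mul_of_nonneg_left _ (Real.exp_pos _).le
    have := norm_add_le (1 : ℂ) (exp (d2 - d1))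
    rw [norm_exp, norm_one] at this
    exact this
  exact (norm_add_le _ _).trans (add_le_add h1 h3)

/-- the basic facts of a state with `σ ≥ π` -/
theorem St.J1_basic (h : St k C q0 q1 q2 q3 d0 d1 d2 X1 X2 X3) (hk : 8 ≤ k)
    (hA : -(Real.pi / 4) ≤ X1.im) (he : |k * (X1 - d0).im| = Real.pi / 2)
    (hθ : (X1 - X2).im ≤ 4 / 25) (hσ : Real.pi ≤ k * (X1 - X2).im)
    (hLT : (X1 - X2).im * (k * (X1 - X2).im - Real.pi / 2) ≤ k * (X2 - X1).re)
    (hL : k * (X2 - X1).re ≤ 23 / 20)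
    (hL1 : k * (X1 - X2).im ≤ 3 * Real.pi / 2 → k * (X2 - X1).re ≤ 1)
    {A : ℝ} (hAd : A = (X2 - X1).re / (X1 - X2).im) :
    0 < (X1 - X2).im ∧ (X2 - X1).re = A * (X1 - X2).im ∧ 0 < A ∧ A ≤ 3184 / 10000 ∧
      (X1 - X2).im ≤ 2 * A ∧ |(X2 - d1).im| ≤ (X1 - X2).im / 2 ∧
      |(X3 - d2).im| ≤ (X1 - X2).im / 2 ∧ |d0.im| ≤ A + (X1 - X2).im ∧
      |d1.im| ≤ A + 2 * (X1 - X2).im ∧
      Real.exp (2 * (d1 - X2).re) ≤ 81 / 100 * (X2 - X1).re := by
  have hp1 := Real.pi_gt_d4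
  have hp2 := Real.pi_lt_d4
  have k0 : 0 < k := by linarith
  obtain ⟨θ, hθd⟩ : ∃ θ, θ = (X1 - X2).im := ⟨_, rfl⟩
  obtain ⟨l, hld⟩ : ∃ l, l = (X2 - X1).re := ⟨_, rfl⟩
  obtain ⟨κ, hκd⟩ : ∃ κ, κ = (X2 - d1).im := ⟨_, rfl⟩
  rw [← hθd, ← hld] at hAd hLT hL1
  rw [← hθd] at hθ hσ
  rw [← hld] at hL
  have hθ0 : 0 < θ := by
    by_contra hcon
    push Not at hcon
    have := mul_nonpos_of_nonneg_of_nonpos k0.le hcon
    linarith
  have hσ0 : 0 < k * θ := by positivity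
  have hlA : l = A * θ := by rw [hAd]; field_simp
  have hθ2A : θ ≤ 2 * A := by
    have h1 : θ * (k * θ / 2) ≤ θ * (k * θ - Real.pi / 2) :=
      mul_le_mul_of_nonneg_left (by linarith) hθ0.le
    have h2 : θ * (k * θ) ≤ 2 * A * (k * θ) := by
      rw [hlA] at hLT
      linarith
    exact le_of_mul_le_mul_right h2 hσ0
  have hA0 : 0 < A := by linarith
  have hl0 : 0 < l := by rw [hlA]; positivity
  have hA3 : A ≤ 3184 / 10000 := by
    by_contra hcon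
    push Not at hcon
    have e : k * l = A * (k * θ) := by rw [hlA]; ring
    rcases le_or_gt (k * θ) (3 * Real.pi / 2) with c | c
    · have h1 : 3184 / 10000 * 3.1415 < A * (k * θ) :=
        mul_lt_mul hcon (by linarith) (by norm_num) hA0.le
      have h2 := hL1 c
      norm_num at h1
      linarith
    · have h1 : 3184 / 10000 * 4.7 < A * (k * θ) :=
        mul_lt_mul hcon (by linarith) (by norm_num) hA0.le
      norm_num at h1
      linarith
  have hκ : |κ| ≤ θ / 2 := by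
    have h1 := h.p2
    rw [abs_mul, abs_of_pos k0, ← hκd] at h1
    by_contra hcon
    push Not at hcon
    have := mul_lt_mul_of_pos_left hcon k0
    linarith
  have hκ3 : |(X3 - d2).im| ≤ θ / 2 := by
    have h1 := h.p3
    rw [abs_mul, abs_of_pos k0] at h1
    by_contra hcon
    push Not at hcon
    have := mul_lt_mul_of_pos_left hcon k0
    linarith
  obtain ⟨hκ1, hκ2⟩ := abs_le.1 hκ
  have hf3 := h.f3 hk hA he (by rw [← hθd]; linarith)
  rw [← hθd] at hf3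
  -- `m = α - κ`
  obtain ⟨m, hmd⟩ : ∃ m, m = -X1.im - κ := ⟨_, rfl⟩
  have hm0 : 0 ≤ m := by rw [hmd]; linarith
  have hm1 : m < Real.pi / 2 := by rw [hmd]; linarith
  have hmA : m ≤ A := by
    have h1 := h.F2 hA (by rw [← hκd, ← hmd]; exact hm0) (by
      have : (X1 - X2).im = X1.im - X2.im := sub_im _ _
      linarith)
    rw [← hκd, ← hmd, ← hld] at h1
    have e : X1.im - X2.im = θ := by rw [hθd, sub_im]
    rw [e] at h1
    have h2 : m ≤ Real.tan m := Real.le_tan hm0 hm1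
    have h3 : θ ≤ Real.tan θ := Real.le_tan hθ0.le (by linarith)
    have h4 : m * θ ≤ Real.tan m * Real.tan θ := mul_le_mul h2 h3 hθ0.le (hm0.trans h2)
    rw [hlA] at h1
    exact le_of_mul_le_mul_right (h4.trans h1) hθ0
  have hpk : Real.pi / (2 * k) ≤ θ / 2 := by
    rw [div_le_iff₀ (by positivity)]
    linarith
  have hd0 : |d0.im| ≤ A + θ := by
    rcases h.im_d0 he with h1 | h1
    · rw [h1, abs_le]
      have : 0 < Real.pi / (2 * k) := by positivity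
      constructor <;> linarith
    · rw [h1, abs_le]
      have : 0 < Real.pi / (2 * k) := by positivity
      constructor <;> linarith
  have hd1 : |d1.im| ≤ A + 2 * θ := by
    have e : d1.im = -(m + κ + θ + κ) := by
      have e1 : κ = X2.im - d1.im := by rw [hκd, sub_im]
      have e2 : θ = X1.im - X2.im := by rw [hθd, sub_im]
      rw [hmd, e2]
      linarith
    rw [e, abs_neg, abs_le]
    constructor <;> linarith
  have hC : Real.exp (2 * (d1 - X2).re) ≤ 81 / 100 * l := by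
    have h1 := h.F1_ge he
    have e1 : -X1.im - (X1 - d1).im = m - θ := by
      rw [hmd, hκd, hθd]; simp only [sub_im]; ring
    have e2 : -X2.im - (X2 - d1).im = m + θ := by
      rw [hmd, hκd, hθd]; simp only [sub_im]; ring
    rw [e1, e2, ← hld] at h1
    apply J1.C_le hθ0 (by linarith) hA3 hm0 (by linarith) hl0.le hd0 hd1 (Real.exp_pos _).le _ h1
    rw [← Real.exp_add]
    congr 1
    rw [hld]
    simp only [sub_re, mul_re, re_ofNat, im_ofNat]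
    ring
  rw [← hκd, ← hθd, ← hld]
  exact ⟨hθ0, hlA, hA0, hA3, hθ2A, hκ, hκ3, hd0, hd1, hC⟩

/-- bounds of `lam` on the higher sheets -/
theorem St.J1_lam (h : St k C q0 q1 q2 q3 d0 d1 d2 X1 X2 X3) (hk : 8 ≤ k)
    {θ l A : ℝ} (hθd : θ = (X1 - X2).im) (hld : l = (X2 - X1).re)
    (hθ0 : 0 < θ) (hθ : θ ≤ 4 / 25) (hσ : Real.pi ≤ k * θ)
    (hlA : l = A * θ) (hA0 : 0 < A) (hA3 : A ≤ 3184 / 10000)
    (hκ : |(X2 - d1).im| ≤ θ / 2) (hκ3 : |(X3 - d2).im| ≤ θ / 2)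
    (hC : Real.exp (2 * (d1 - X2).re) ≤ 81 / 100 * l)
    (hω : ‖(k : ℂ) * ((X3 - d2) - (X2 - d1))‖ ≤ 4 / 5) :
    k * (θ ^ 2 * (1 - A ^ 2 - 1 / 2 * θ - 3 * (A * θ))) ≤ (lamJ k d1 d2 X1 X2 X3).re ∧
      |(lamJ k d1 d2 X1 X2 X3).im| ≤
        k * (θ ^ 2 * (5 / 2 * A + 28 / 10 * (A * θ) + 115 / 100 * θ)) := by
  have hp1 := Real.pi_gt_d4
  have k0 : 0 < k := by linarith
  have hl0 : 0 ≤ l := by rw [hlA]; positivity
  have hl : l ≤ 8 / 25 * θ := by
    rw [hlA]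
    exact mul_le_mul_of_nonneg_right (by linarith) hθ0.le
  obtain ⟨a, had⟩ : ∃ a, a = (X3 - d2).re - (X2 - d1).re := ⟨_, rfl⟩
  obtain ⟨b, hbd⟩ : ∃ b, b = (X3 - d2).im - (X2 - d1).im := ⟨_, rfl⟩
  have hωr : ((k : ℂ) * ((X3 - d2) - (X2 - d1))).re = k * a := by
    rw [re_ofReal_mul, sub_re, had]
  have hωi : ((k : ℂ) * ((X3 - d2) - (X2 - d1))).im = k * b := by
    rw [im_ofReal_mul, sub_im, hbd]
  -- sizes of `a`, `b`
  have hsq : (k * a) ^ 2 + (k * b) ^ 2 ≤ (4 / 5) ^ 2 := by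
    have h1 := pow_le_pow_left₀ (norm_nonneg _) hω 2
    rw [← normSq_eq_norm_sq, normSq_apply, hωr, hωi] at h1
    linarith
  have hsize : ∀ x : ℝ, (k * x) ^ 2 ≤ (4 / 5) ^ 2 → |x| ≤ 2547 / 10000 * θ := by
    intro x hx
    have h1 : |k * x| ≤ 4 / 5 := abs_le_of_sq_le_sq hx (by norm_num)
    rw [abs_mul, abs_of_pos k0] at h1
    have h2 : k * |x| ≤ k * (2547 / 10000 * θ) := by
      have : 4 / 5 ≤ 2547 / 10000 * (k * θ) := by linarith
      linarith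
    exact le_of_mul_le_mul_left h2 k0
  have ha : |a| ≤ 2547 / 10000 * θ := hsize a (by nlinarith [sq_nonneg (k * b)])
  have hb : |b| ≤ 2547 / 10000 * θ := hsize b (by nlinarith [sq_nonneg (k * a)])
  have ha' : |a| ≤ 271 / 1000 * θ := by linarith
  have hb' : |b| ≤ 271 / 1000 * θ := by linarith
  have hab : |a| * |b| ≤ 367205 / 10000000 * θ ^ 2 := by
    have h1 : k ^ 2 * (|a| * |b|) ≤ 8 / 25 := by
      have h2 : k ^ 2 * (|a| * |b|) = |k * a| * |k * b| := by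
        rw [abs_mul, abs_mul, abs_of_pos k0]; ring
      rw [h2]
      nlinarith [sq_nonneg (|k * a| - |k * b|), sq_abs (k * a), sq_abs (k * b)]
    have h3 : (3.1415 : ℝ) ^ 2 ≤ (k * θ) ^ 2 := pow_le_pow_left₀ (by norm_num) (by linarith) 2
    have h4 : k ^ 2 * (|a| * |b|) ≤ k ^ 2 * (367205 / 10000000 * θ ^ 2) := by
      have e : k ^ 2 * (367205 / 10000000 * θ ^ 2) = 367205 / 10000000 * (k * θ) ^ 2 := by ring
      rw [e]
      norm_num at h3
      linarith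
    exact le_of_mul_le_mul_left h4 (by positivity)
  have ha3 : |a| ≤ 543 / 10000 := by linarith
  -- the flow data
  obtain ⟨l2, hl2d⟩ : ∃ l2, l2 = (X3 - X2).re := ⟨_, rfl⟩
  obtain ⟨θ2, hθ2d⟩ : ∃ θ2, θ2 = (X2 - X3).im := ⟨_, rfl⟩
  obtain ⟨C1, hC1⟩ : ∃ C1, C1 = Real.exp (2 * (d1 - X2).re) := ⟨_, rfl⟩
  have hC10 : 0 ≤ C1 := by rw [hC1]; exact (Real.exp_pos _).le
  rw [← hC1] at hC
  have hTe : Real.exp (d2 - d1).re = Real.exp (l2 - a) := by
    congr 1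
    rw [hl2d, had]; simp only [sub_re]; ring
  have hfn := h.flow_norm (by rw [← hld]; exact hl0)
  rw [← had, ← hC1, hTe] at hfn
  have hΛ : ‖X2 - X1‖ ≤ 105 / 100 * θ := by
    apply le_of_sq_le_sq _ (by positivity)
    have i1 : (X2 - X1).im = -θ := by rw [hθd]; simp
    rw [← normSq_eq_norm_sq, normSq_apply, i1, ← hld, hlA]
    have : A ^ 2 ≤ (3184 / 10000) ^ 2 := pow_le_pow_left₀ hA0.le hA3 2
    have h2 : A ^ 2 * θ ^ 2 ≤ (3184 / 10000) ^ 2 * θ ^ 2 :=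
      mul_le_mul_of_nonneg_right this (sq_nonneg _)
    have h3 := sq_nonneg θ
    norm_num at h2
    linarith
  obtain ⟨hn1, hn2⟩ := two_sinh_norm (X3 - X2)
  rw [← hl2d] at hn1
  have hi32 : (X3 - X2).im = -θ2 := by rw [hθ2d]; simp
  rw [hi32, Real.sin_neg] at hn2
  have hCnum : C1 ≤ 52 / 1000 := by linarith
  have hT : Real.exp (l2 - a) ≤ 142 / 100 := by
    apply J1.T_le (p := 2 * ‖X2 - X1‖) ha3 hC10 hCnum (by positivity) (by linarith)
    exact (le_abs_self _).trans (hn1.trans hfn)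
  have hT0 : 0 ≤ Real.exp (l2 - a) := (Real.exp_pos _).le
  have hE := J1.exp_a_le ha3
  have hE0 := Real.exp_pos (-a)
  have hθ2b : |θ2| ≤ 147 / 100 * θ := by
    apply J1.th2_le hθ0 (by linarith)
    · rw [hθ2d, abs_lt, sub_im]
      constructor
      · linarith [h.a2.2, h.a3.1, h.a2.1, h.a3.2]
      · linarith [h.a2.2, h.a3.1, h.a2.1, h.a3.2]
    · have h1 : |2 * -Real.sin θ2| = 2 * |Real.sin θ2| := by
        rw [abs_mul, abs_neg, abs_of_pos (by norm_num : (0 : ℝ) < 2)]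
      rw [h1] at hn2
      have h2 : C1 * (1 + Real.exp (l2 - a)) ≤ 81 / 100 * (3184 / 10000 * θ) * (242 / 100) := by
        apply mul_le_mul _ (by linarith) (by linarith) (by positivity)
        refine hC.trans ?_
        rw [hlA]
        have := mul_le_mul_of_nonneg_right hA3 hθ0.le
        linarith
      have h3 : Real.exp (-a) * (2 * ‖X2 - X1‖ + C1 * (1 + Real.exp (l2 - a))) ≤
          1056 / 1000 * (2 * (105 / 100 * θ) + 81 / 100 * (3184 / 10000 * θ) * (242 / 100)) :=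
        mul_le_mul hE (by linarith) (by positivity) (by norm_num)
      norm_num at h3
      linarith
  -- lower bound of `l2`
  have hLBre := St.LB_re ((X2 - d1) - (X3 - d2)) (X2 - X1)
  have e1 : ((X2 - d1) - (X3 - d2)).re = -a := by rw [had]; simp only [sub_re]; ring
  have e2 : ((X2 - d1) - (X3 - d2)).im = -b := by rw [hbd]; simp only [sub_im]; ring
  have e3 : (X2 - X1).im = -θ := by rw [hθd]; simp
  rw [e1, e2, e3, ← hld, Real.cos_neg, show -b - 2 * -θ = 2 * θ - b by ring] at hLBre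
  have hbr := J1.bracket hθ0 (by linarith) hl0 hb'
  have hbr0 : 0 ≤ 2 * (l - l ^ 2 + θ ^ 2 - θ * b) - l * (2 * θ - b) ^ 2 -
      (2 * θ - b) ^ 4 / 24 := by
    obtain ⟨hb1, hb2⟩ := abs_le.1 hb'
    obtain ⟨y, hy⟩ : ∃ y, y = 2 * θ - b := ⟨_, rfl⟩
    rw [← hy]
    have hy0 : 0 ≤ y := by rw [hy]; linarith
    have hy1 : y ≤ 2271 / 1000 * θ := by rw [hy]; linarith
    have y2 : y ^ 2 ≤ 5158 / 1000 * θ ^ 2 := by
      have := pow_le_pow_left₀ hy0 hy1 2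
      have e : (2271 / 1000 * θ) ^ 2 = (2271 / 1000) ^ 2 * θ ^ 2 := by ring
      rw [e] at this
      have := sq_nonneg θ
      norm_num at *
      linarith
    have hθq : θ ^ 2 ≤ 16 / 625 := by nlinarith
    have y2' : y ^ 2 ≤ 1 / 5 := by linarith
    have y4 : y ^ 4 ≤ 1 / 5 * y ^ 2 := by
      calc y ^ 4 = y ^ 2 * y ^ 2 := by ring
        _ ≤ 1 / 5 * y ^ 2 := mul_le_mul_of_nonneg_right y2' (sq_nonneg _)
    have ly : l * y ^ 2 ≤ l * (1 / 5) := mul_le_mul_of_nonneg_left y2' hl0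
    have tb : θ * b ≤ 271 / 1000 * θ ^ 2 := by
      calc θ * b ≤ θ * (271 / 1000 * θ) := mul_le_mul_of_nonneg_left hb2 hθ0.le
        _ = _ := by ring
    have ll : l ^ 2 ≤ 1 / 10 * l := by
      calc l ^ 2 = l * l := by ring
        _ ≤ 1 / 10 * l := mul_le_mul_of_nonneg_right (by linarith) hl0
    have := sq_nonneg θ
    linarith
  have hLB := h.LB hk (by rw [hTe]; linarith) (by
    rw [hLBre]
    exact mul_nonneg hE0.le (hbr0.trans hbr))
  rw [hLBre, ← hl2d] at hLB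
  have hmr := J1.mur_ge hθ0 (by linarith) hl0 hl ha' hb' hab hLB
  have hl20 : 0 ≤ l2 := by
    have h1 : 0 ≤ 2 * Real.sinh l2 := le_trans (mul_nonneg hE0.le (hbr0.trans hbr)) hLB
    exact Real.sinh_nonneg_iff.1 (by linarith)
  -- upper bound of `l2`
  have hfr := h.flow_real
  rw [← hl2d, ← hθ2d, ← had, ← hbd, ← hld, ← hθd, ← hC1, hTe] at hfr
  have hl2u : l2 ≤ 22 / 10 * l + 143 / 100 * θ ^ 2 := by
    apply J1.l2_le (T := Real.exp (l2 - a)) hθ0 (by linarith) hl0 hl ha3 hb' hC hT0 hT hl20 hθ2b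
    rw [hfr]
    apply mul_le_mul_of_nonneg_left _ hE0.le
    have c1 := Real.cos_le_one (2 * (X2 - d1).im + b)
    have c2 := Real.cos_le_one (2 * (X2 - d1).im + b + (d1 - d2).im)
    have c3 : Real.exp (l2 - a) * Real.cos (2 * (X2 - d1).im + b + (d1 - d2).im) ≤
        Real.exp (l2 - a) * 1 := mul_le_mul_of_nonneg_left c2 hT0
    have c4 : C1 * (Real.cos (2 * (X2 - d1).im + b) +
        Real.exp (l2 - a) * Real.cos (2 * (X2 - d1).im + b + (d1 - d2).im)) ≤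
        C1 * (1 + Real.exp (l2 - a)) := mul_le_mul_of_nonneg_left (by linarith) hC10
    linarith
  -- imaginary part
  have hfi := h.flow_im
  rw [← hl2d, ← hθ2d, ← had, ← hbd, ← hld, ← hθd, ← hC1, hTe] at hfi
  have g1 : 2 * (X2 - d1).im + b = (X2 - d1).im + (X3 - d2).im := by rw [hbd]; ring
  have g2 : 2 * (X2 - d1).im + b + (d1 - d2).im = 2 * (X3 - d2).im + θ2 := by
    rw [hbd, hθ2d]; simp only [sub_im]; ring
  rw [g2, g1] at hfi
  have hmu := J1.mui_le hθ0 (by linarith) hl0 hl ha' hb' hC10 hC hT0 hT hκ hκ3 hl20 hl2u hθ2b hfi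
  have hml := J1.mui_ge hθ0 (by linarith) hl0 hl ha' hb' hC10 hC hT0 hT hκ hκ3 hθ2b hfi
  constructor
  · rw [lamJ_re, hωr, hωi, ← hl2d, ← hld, ← hθd]
    have e : k * (θ ^ 2 * (1 - A ^ 2 - 1 / 2 * θ - 3 * (A * θ))) =
        k * (θ ^ 2 - l ^ 2 - 1 / 2 * θ ^ 3 - 3 * l * θ ^ 2) := by rw [hlA]; ring
    have e' : k * (l2 - l) + (l * (k * a) + θ * (k * b)) = k * (l2 - l + l * a + θ * b) := by ring
    rw [e, e']
    exact mul_le_mul_of_nonneg_left hmr k0.le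
  · rw [lamJ_im, hωr, hωi, ← hθ2d, ← hld, ← hθd]
    have e : k * (θ ^ 2 * (5 / 2 * A + 28 / 10 * (A * θ) + 115 / 100 * θ)) =
        k * (5 / 2 * (l * θ) + 28 / 10 * (l * θ ^ 2) + 115 / 100 * θ ^ 3) := by rw [hlA]; ring
    have e' : k * (θ - θ2) + (l * (k * b) - θ * (k * a)) = k * (θ - θ2 + l * b - θ * a) := by ring
    rw [e, e', abs_mul, abs_of_pos k0]
    apply mul_le_mul_of_nonneg_left _ k0.le
    rw [abs_le]
    exact ⟨hml, hmu⟩

/-- **the last block of `ExitHalf 8`** -/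
theorem blk_J1 : Blk (fun L _ F => 0 ≤ L ∧ L ≤ 1.7 ∧ Real.pi / 2 ≤ F) := by
  intro k C q0 q1 q2 q3 d0 d1 d2 X1 X2 X3 hk h hA he hn hQ
  obtain ⟨_, hL', hF⟩ := hQ
  have hpi := Real.pi_pos
  have hpi3 := Real.pi_gt_d4
  have hpi4 := Real.pi_lt_d4
  have k0 : 0 < k := by linarith
  have hL : k * (X2 - X1).re ≤ 17 / 10 := by norm_num at hL' ⊢; linarith
  obtain ⟨hF1, hσ, _⟩ := h.J_facts he hF
  obtain ⟨hθ, hL2, hL3, hω, hLT⟩ := h.J_zone hk hA he hn hF hL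
  obtain ⟨A, hAd⟩ : ∃ A, A = (X2 - X1).re / (X1 - X2).im := ⟨_, rfl⟩
  obtain ⟨hθ0, hlA, hA0, hA3, hθ2A, hκ, hκ3, hd0, hd1, hC⟩ :=
    h.J1_basic hk hA he hθ hσ.le hLT hL2 hL3 hAd
  obtain ⟨θ, hθd⟩ : ∃ θ, θ = (X1 - X2).im := ⟨_, rfl⟩
  obtain ⟨l, hld⟩ : ∃ l, l = (X2 - X1).re := ⟨_, rfl⟩
  rw [← hθd] at hθ0 hlA hθ hσ hL3 hLT hθ2A hκ hκ3 hd0 hd1
  rw [← hld] at hlA hL2 hL3 hLT hC
  obtain ⟨hlr, hli⟩ := h.J1_lam hk hθd hld hθ0 hθ hσ.le hlA hA0 hA3 hκ hκ3 hC hω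
  have eL : k * l = A * (k * θ) := by rw [hlA]; ring
  have hwc := h.w_circ he
  have i1 : (X2 - X1).im = -θ := by rw [hθd]; simp
  set f := pv k C X1 d1 with hf
  have hf0 : f ≠ 0 := pv_ne h.C0
  have hfn : 0 < ‖f‖ := norm_pos_iff.2 hf0
  set b : ℂ := exp ((k : ℂ) * (X2 - X1)) with hb
  have hbn : ‖b‖ = Real.exp (A * (k * θ)) := by
    rw [hb, norm_exp, re_ofReal_mul, ← hld, eL]
  have hbre : b.re = Real.exp (A * (k * θ)) * Real.cos (k * θ) := by
    rw [hb, exp_re, re_ofReal_mul, im_ofReal_mul, ← hld, i1, eL, mul_neg, Real.cos_neg]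
  have hbim : b.im = -(Real.exp (A * (k * θ)) * Real.sin (k * θ)) := by
    rw [hb, exp_im, re_ofReal_mul, im_ofReal_mul, ← hld, i1, eL, mul_neg, Real.sin_neg, mul_neg]
  have hcrit : ‖1 / f - b - 1‖ ≤ ‖(1 / f - b) * exp (lamJ k d1 d2 X1 X2 X3) - 1‖ :=
    J1.apply hwc k0 rfl hθ0 hθ hσ.le (by rw [← eL]; exact hLT) (by rw [← eL]; exact hL2)
      (fun hx => by rw [← eL]; exact hL3 hx) hbre hbim hbn hlr hli
  have hid : (1 / f - b) * exp (lamJ k d1 d2 X1 X2 X3) =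
      exp ((1 + (X2 - X1)) * ((k : ℂ) * ((X3 - d2) - (X2 - d1)))) := by
    rw [hf, hb, h.J0_v]
    exact lamJ_exp k d1 d2 X1 X2 X3
  rw [hid] at hcrit
  -- the middle factor
  have hΛ : ‖X2 - X1‖ ≤ 105 / 100 * θ := by
    apply le_of_sq_le_sq _ (by positivity)
    rw [← normSq_eq_norm_sq, normSq_apply, i1, ← hld, hlA]
    have : A ^ 2 ≤ (3184 / 10000) ^ 2 := pow_le_pow_left₀ hA0.le hA3 2
    have h2 : A ^ 2 * θ ^ 2 ≤ (3184 / 10000) ^ 2 * θ ^ 2 :=
      mul_le_mul_of_nonneg_right this (sq_nonneg _)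
    have h3 := sq_nonneg θ
    norm_num at h2
    linarith
  have hΛ1 : ‖X2 - X1‖ ≤ 1 / 5 := by linarith
  have hM : ‖2 + (X2 - X1)‖ ≤ 9 / 4 := by
    have := norm_add_le (2 : ℂ) (X2 - X1)
    have h2 : ‖(2 : ℂ)‖ = 2 := by simp
    rw [h2] at this
    linarith
  obtain ⟨ω, hωd⟩ : ∃ ω, ω = (k : ℂ) * ((X3 - d2) - (X2 - d1)) := ⟨_, rfl⟩
  rw [← hωd] at hω hcrit
  have hmid := mid_85 (ω := ω) (Λ := X2 - X1) (by linarith) hM (by linarith)
  set K := Real.exp (((X2 - X1) * ω).re / 2) * ‖1 + (X2 - X1)‖ * (1 + 73 / 1000 * ‖X2 - X1‖)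
    with hK
  set E := ‖exp ω - 1‖ with hE
  obtain ⟨g, hg⟩ : ∃ g, g = A * (k * θ) - 523 / 1000 * θ - A * θ - θ ^ 2 / 2 := ⟨_, rfl⟩
  have hKle : Real.exp g * K ≤ ‖b‖ := by
    have h1 : Real.exp (((X2 - X1) * ω).re / 2) ≤ Real.exp (4 / 10 * (105 / 100 * θ)) := by
      apply Real.exp_le_exp.2
      have h2 : ((X2 - X1) * ω).re ≤ ‖X2 - X1‖ * ‖ω‖ := by
        rw [← norm_mul]
        exact (le_abs_self _).trans (abs_re_le_norm _)
      have h3 : ‖X2 - X1‖ * ‖ω‖ ≤ 105 / 100 * θ * (4 / 5) :=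
        mul_le_mul hΛ hω (norm_nonneg _) (by positivity)
      linarith
    have h2 : ‖1 + (X2 - X1)‖ ≤ Real.exp (A * θ + θ ^ 2 / 2) := by
      have h3 := norm_one_add_le (Lam := X2 - X1) (by rw [← hld, hlA]; positivity)
      rw [← hld, i1, neg_sq, hlA] at h3
      exact h3
    have h3 : 1 + 73 / 1000 * ‖X2 - X1‖ ≤ Real.exp (73 / 1000 * (105 / 100 * θ)) := by
      have h4 := Real.add_one_le_exp (73 / 1000 * (105 / 100 * θ))
      linarith
    have h4 : K ≤ Real.exp (4 / 10 * (105 / 100 * θ)) * Real.exp (A * θ + θ ^ 2 / 2) *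
        Real.exp (73 / 1000 * (105 / 100 * θ)) := by
      rw [hK]
      exact mul_le_mul (mul_le_mul h1 h2 (norm_nonneg _) (Real.exp_pos _).le) h3
        (by positivity) (by positivity)
    calc Real.exp g * K ≤ Real.exp g * (Real.exp (4 / 10 * (105 / 100 * θ)) *
          Real.exp (A * θ + θ ^ 2 / 2) * Real.exp (73 / 1000 * (105 / 100 * θ))) :=
          mul_le_mul_of_nonneg_left h4 (Real.exp_pos _).le
      _ = Real.exp (g + (4 / 10 * (105 / 100 * θ) + (A * θ + θ ^ 2 / 2) +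
          73 / 1000 * (105 / 100 * θ))) := by
          rw [← Real.exp_add, ← Real.exp_add, ← Real.exp_add]
      _ ≤ Real.exp (A * (k * θ)) := by
          apply Real.exp_le_exp.2
          rw [hg]
          linarith
      _ = ‖b‖ := hbn.symm
  set s := Real.cos d0.im * (Real.cos d0.im + Real.cos d1.im) with hs
  have hss : s * ‖exp d1‖ ^ 2 ≤ (exp d0).re * (exp d0 + exp d1).re := h.s_ge he
  have hm1 : 1 + Real.exp g < s * Real.exp g ^ 2 :=
    J1.final_ineq hθ0 (by linarith) hθ2A hA3 (by linarith : 314 / 100 ≤ k * θ) hd0 hd1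
      (le_of_eq hg.symm) (s_quad _ _)
  set V := ‖1 / f - b - 1‖ with hV
  have hV0 : 0 ≤ V := norm_nonneg _
  have key : Real.exp g * V ≤ ‖b‖ * E := by
    have h1 : V ≤ E * K := hcrit.trans hmid
    calc Real.exp g * V ≤ Real.exp g * (E * K) := mul_le_mul_of_nonneg_left h1 (Real.exp_pos _).le
      _ = Real.exp g * K * E := by ring
      _ ≤ ‖b‖ * E := mul_le_mul_of_nonneg_right hKle (norm_nonneg _)
  -- `P - p = f (1 - v)`, `P' - P = b f (e^om - 1)`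
  have hP : pv k C X2 d1 = b * f := by
    rw [hf, hb]
    exact pv_mul
  have hp : pv k C X1 d0 = 1 - f := by
    rw [hf, h.f1_eq]
    ring
  have hP' : pv k C X3 d2 = exp ω * pv k C X2 d1 := by
    rw [hωd]
    unfold pv
    rw [← mul_div_assoc, ← exp_add]
    congr 2
    ring
  have e1 : ‖pv k C X2 d1 - pv k C X1 d0‖ = ‖f‖ * V := by
    have : pv k C X2 d1 - pv k C X1 d0 = -(f * (1 / f - b - 1)) := by
      rw [hP, hp]
      field_simp
      ring
    rw [this, norm_neg, norm_mul]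
  have e2 : ‖pv k C X2 d1 - pv k C X3 d2‖ = ‖b‖ * ‖f‖ * E := by
    have : pv k C X2 d1 - pv k C X3 d2 = -((b * f) * (exp ω - 1)) := by
      rw [hP', hP]
      ring
    rw [this, norm_neg, norm_mul, norm_mul]
  have hU := exit_U (p := pv k C X1 d0) (P := pv k C X2 d1) (P' := pv k C X3 d2)
    (m := Real.exp g) (s := s) (pv_re_zero he) h.P_pos h.P3_pos (Real.exp_pos _) hm1 (by
      rw [e1, e2]
      calc Real.exp g * (‖f‖ * V) = ‖f‖ * (Real.exp g * V) := by ring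
        _ ≤ ‖f‖ * (‖b‖ * E) := mul_le_mul_of_nonneg_left key hfn.le
        _ = _ := by ring)
  have hD : 0 < ‖exp d1‖ ^ 2 := by
    have := norm_pos_iff.2 (exp_ne_zero d1)
    positivity
  have h1 : ‖exp d1‖ ^ 2 * ((pv k C X2 d1).re * (pv k C X3 d2).re) <
      ‖exp d1‖ ^ 2 * (s * ‖pv k C X2 d1 - pv k C X3 d2‖ ^ 2) := mul_lt_mul_of_pos_left hU hD
  have h2 : ‖pv k C X2 d1 - pv k C X3 d2‖ ^ 2 * (s * ‖exp d1‖ ^ 2) ≤
      ‖pv k C X2 d1 - pv k C X3 d2‖ ^ 2 * ((exp d0).re * (exp d0 + exp d1).re) :=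
    mul_le_mul_of_nonneg_left hss (sq_nonneg _)
  linarith

end EQS
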