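import Mathlib
import Pool.Agent.Lib.MP_226de1_co.E.Half8
import Pool.Agent.Lib.MP_226de1_co.E.J1

/-! `ExitHalf 8`, complete. -/

set_option autoImplicit false

namespace EQS

/-- **the half plane exit for `k ≥ 8`** -/
theorem exitHalf8 : ExitHalf 8 := exitHalf8_of_J1' blk_J1

end EQS
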