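import Pool.Agent.Lib.MP_226de1_co.E.RealPart
import Pool.Agent.Lib.MP_226de1_co.E.NumReal
import Pool.Agent.Lib.MP_226de1_co.E.Zone

/-! `L = k Re (X2 - X1) ≥ 0` at every `W1` exit which satisfies the Pick inequality, `k ≥ 8`. -/

set_option autoImplicit false

namespace EQS

open Complex

variable {k C : ℝ} {q0 q1 q2 q3 d0 d1 d2 X1 X2 X3 : ℂ}

/-- the first step in real form, rotated by an arbitrary angle -/
theorem St.rotc (h : St k C q0 q1 q2 q3 d0 d1 d2 X1 X2 X3) (c : ℝ) :
    Real.exp (2 * (X2 - X1).re) * Real.cos c =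
        Real.cos (2 * (X1 - X2).im + c) +
          2 * (-q1.re) * Real.exp (d1 - 2 * X1).re *
            Real.cos (-X1.im - (X2 - d1).im + (X1 - X2).im + c) +
          2 * q1.im * Real.exp (d1 - 2 * X1).re *
            Real.sin (-X1.im - (X2 - d1).im + (X1 - X2).im + c) +
          Real.exp (2 * (d1 - X1).re) * Real.cos (c - 2 * (X2 - d1).im) ∧
    Real.exp (2 * (X2 - X1).re) * Real.sin c =
        Real.sin (2 * (X1 - X2).im + c) +
          2 * (-q1.re) * Real.exp (d1 - 2 * X1).re *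
            Real.sin (-X1.im - (X2 - d1).im + (X1 - X2).im + c) -
          2 * q1.im * Real.exp (d1 - 2 * X1).re *
            Real.cos (-X1.im - (X2 - d1).im + (X1 - X2).im + c) +
          Real.exp (2 * (d1 - X1).re) * Real.sin (c - 2 * (X2 - d1).im) := by
  have e : ∀ z : ℂ, exp (2 * z) = exp z ^ 2 := by
    intro z
    rw [← Complex.exp_nat_mul]
    congr 1
  have hq : q2 = q1 - exp d1 := by rw [h.s1]; ring
  have h1 : exp (2 * (X2 - X1)) = 1 - 2 * q1 * exp (d1 - 2 * X1) + exp (2 * (d1 - X1)) := by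
    have h2 : exp (2 * X2) = exp (2 * X1) - 2 * q1 * exp d1 + exp d1 ^ 2 := by
      rw [h.x2, h.x1, hq]
      ring
    have h3 : exp (2 * (X2 - X1)) = exp (2 * X2) * exp (-(2 * X1)) := by
      rw [← exp_add]
      congr 1
      ring
    have h4 : exp (d1 - 2 * X1) = exp d1 * exp (-(2 * X1)) := by
      rw [← exp_add]
      congr 1
    have h5 : exp (2 * (d1 - X1)) = exp d1 ^ 2 * exp (-(2 * X1)) := by
      rw [← e, ← exp_add]
      congr 1
      ring
    have h6 : exp (2 * X1) * exp (-(2 * X1)) = 1 := by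
      rw [← exp_add, add_neg_cancel, exp_zero]
    rw [h3, h4, h5, h2]
    linear_combination h6
  set b : ℝ := 2 * (X1 - X2).im + c with hb
  have h2 : exp (2 * (X2 - X1)) * exp ((b : ℂ) * I) =
      exp ((b : ℂ) * I) - 2 * q1 * (exp (d1 - 2 * X1) * exp ((b : ℂ) * I)) +
        exp (2 * (d1 - X1)) * exp ((b : ℂ) * I) := by
    rw [h1]
    ring
  rw [← exp_add, ← exp_add, ← exp_add] at h2
  have r1 : (2 * (X2 - X1) + (b : ℂ) * I).re = 2 * (X2 - X1).re := by simp
  have i1 : (2 * (X2 - X1) + (b : ℂ) * I).im = c := by simp [hb]; ring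
  have r2 : (d1 - 2 * X1 + (b : ℂ) * I).re = (d1 - 2 * X1).re := by simp
  have i2 : (d1 - 2 * X1 + (b : ℂ) * I).im = -X1.im - (X2 - d1).im + (X1 - X2).im + c := by
    simp [hb]; ring
  have r3 : (2 * (d1 - X1) + (b : ℂ) * I).re = 2 * (d1 - X1).re := by simp
  have i3 : (2 * (d1 - X1) + (b : ℂ) * I).im = c - 2 * (X2 - d1).im := by
    simp [hb]; ring
  have r0 : ((b : ℂ) * I).re = 0 := by simp
  have i0 : ((b : ℂ) * I).im = b := by simp
  constructor
  · have h3 := congrArg Complex.re h2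
    rw [add_re, sub_re, mul_re, exp_re, exp_re, exp_re, exp_re, exp_im, r1, i1, r2, i2, r3, i3,
      r0, i0, Real.exp_zero] at h3
    simp only [mul_re, mul_im, re_ofNat, im_ofNat, zero_mul, sub_zero, add_zero] at h3
    rw [h3]
    ring
  · have h3 := congrArg Complex.im h2
    rw [add_im, sub_im, mul_im, exp_im, exp_im, exp_im, exp_im, exp_re, r1, i1, r2, i2, r3, i3,
      r0, i0, Real.exp_zero] at h3
    simp only [mul_re, mul_im, re_ofNat, im_ofNat, zero_mul, sub_zero, add_zero] at h3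
    rw [h3]
    ring

/-- `L < 0` forces `σ > 0` and `α < ψ/k` -/
theorem lpos_sign {a κ t E u v r : ℝ} (ha0 : 0 < a) (ha1 : a ≤ Real.pi / 4)
    (hκ : |κ| < Real.pi / 16) (h1 : -(Real.pi / 4) < a - κ + t) (h2 : a - κ + t < Real.pi / 2)
    (hE0 : 0 < E) (hE1 : E < 1) (hr0 : 0 < r) (hr1 : r < 1) (hu : 0 < u) (hv : 0 < v)
    (hc1 : 0 < Real.cos (a + κ + t)) (htan : u * Real.sin a ≤ v * Real.cos a)
    (R1 : E * Real.cos (a - κ + t) = Real.cos (a - κ - t) + u + r * Real.cos (a + κ + t))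
    (R2 : -(E * Real.sin (2 * t)) = u * Real.sin (a - κ - t) - v * Real.cos (a - κ - t) -
      r * Real.sin (2 * t + 2 * κ))
    (R3 : E * Real.cos (2 * t) = 1 + u * Real.cos (a - κ - t) + v * Real.sin (a - κ - t) +
      r * Real.cos (2 * t + 2 * κ))
    (R4 : E * Real.sin (κ - t) = (1 - r) * Real.sin (κ + t) + u * Real.sin a -
      v * Real.cos a) :
    0 < t ∧ a < κ := by
  have hpi := Real.pi_pos
  have hκ' := abs_lt.1 hκ
  have hcp : 0 < Real.cos (a - κ + t) := Real.cos_pos_of_mem_Ioo ⟨by linarith, h2⟩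
  have ht0 : -Real.pi < t := by linarith
  have ht1 : t < Real.pi := by linarith
  have hsa : 0 < Real.sin a := Real.sin_pos_of_pos_of_lt_pi ha0 (by linarith)
  have hca : 0 < Real.cos a := Real.cos_pos_of_mem_Ioo ⟨by linarith, by linarith⟩
  -- product form
  have hprod : Real.sin (a - κ) * Real.sin t < 0 := by
    have e1 : Real.cos (a - κ + t) - Real.cos (a - κ - t) =
        -(2 * (Real.sin (a - κ) * Real.sin t)) := by
      rw [Real.cos_add (a - κ) t, Real.cos_sub (a - κ) t]
      ring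
    have e2 : E * Real.cos (a - κ + t) < Real.cos (a - κ + t) :=
      mul_lt_of_lt_one_left hcp hE1
    have e3 : 0 < r * Real.cos (a + κ + t) := mul_pos hr0 hc1
    linarith
  -- rotated forms
  have f1 : u * Real.sin (a - κ - t) - v * Real.cos (a - κ - t) =
      (u * Real.sin a - v * Real.cos a) * Real.cos (κ + t) -
        (u * Real.cos a + v * Real.sin a) * Real.sin (κ + t) := by
    rw [show a - κ - t = a - (κ + t) by ring, Real.sin_sub, Real.cos_sub]
    ring
  have f2 : u * Real.cos (a - κ - t) + v * Real.sin (a - κ - t) =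
      (u * Real.cos a + v * Real.sin a) * Real.cos (κ + t) +
        (u * Real.sin a - v * Real.cos a) * Real.sin (κ + t) := by
    rw [show a - κ - t = a - (κ + t) by ring, Real.sin_sub, Real.cos_sub]
    ring
  have hI : u * Real.sin a - v * Real.cos a ≤ 0 := by linarith
  have hRe : 0 < u * Real.cos a + v * Real.sin a := by positivity
  have htpos : 0 < t := by
    by_contra hcon
    have hcon' : t ≤ 0 := not_lt.1 hcon
    rcases hcon'.eq_or_lt with h0 | htn
    · rw [h0, Real.sin_zero, mul_zero] at hprod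
      exact lt_irrefl _ hprod
    -- `m > 0`, `-9 pi/16 < t < 0`
    have ht2 : -(9 * Real.pi / 16) < t := by linarith
    rcases le_or_gt 0 (κ + t) with hφ | hφ
    · -- `φ ≥ 0`
      have g1 : 0 ≤ Real.sin (κ + t) := Real.sin_nonneg_of_nonneg_of_le_pi hφ (by linarith)
      have g2 : 0 < Real.cos (κ + t) := Real.cos_pos_of_mem_Ioo ⟨by linarith, by linarith⟩
      have g3 : 0 ≤ Real.sin (2 * t + 2 * κ) :=
        Real.sin_nonneg_of_nonneg_of_le_pi (by linarith) (by linarith)
      have g4 : Real.sin (2 * t) < 0 := Real.sin_neg_of_neg_of_neg_pi_lt (by linarith) (by linarith)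
      have g5 : 0 < -(E * Real.sin (2 * t)) := by
        have := mul_neg_of_pos_of_neg hE0 g4
        linarith
      rw [R2, f1] at g5
      have g6 : (u * Real.sin a - v * Real.cos a) * Real.cos (κ + t) ≤ 0 :=
        mul_nonpos_of_nonpos_of_nonneg hI g2.le
      have g7 : 0 ≤ (u * Real.cos a + v * Real.sin a) * Real.sin (κ + t) :=
        mul_nonneg hRe.le g1
      have g8 : 0 ≤ r * Real.sin (2 * t + 2 * κ) := mul_nonneg hr0.le g3
      linarith
    · -- `φ < 0`
      have g1 : Real.sin (κ + t) < 0 := Real.sin_neg_of_neg_of_neg_pi_lt hφ (by linarith)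
      have g2 : E * Real.sin (κ - t) < 0 := by
        rw [R4]
        have := mul_neg_of_pos_of_neg (sub_pos.2 hr1) g1
        linarith
      have g3 : Real.sin (κ - t) < 0 := by
        by_contra hc
        have := mul_nonneg hE0.le (not_lt.1 hc)
        linarith
      have g4 : κ - t < 0 := by
        by_contra hc
        have := Real.sin_nonneg_of_nonneg_of_le_pi (not_lt.1 hc) (by linarith)
        linarith
      have g5 : 0 < Real.cos (κ + t) := Real.cos_pos_of_mem_Ioo ⟨by linarith, by linarith⟩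
      have g6 : 0 < Real.cos (2 * t + 2 * κ) :=
        Real.cos_pos_of_mem_Ioo ⟨by linarith, by linarith⟩
      have g7 : E * Real.cos (2 * t) < 1 := by
        have := mul_le_of_le_one_right hE0.le (Real.cos_le_one (2 * t))
        linarith
      rw [R3, add_assoc 1, f2] at g7
      have g8 : 0 < (u * Real.cos a + v * Real.sin a) * Real.cos (κ + t) := mul_pos hRe g5
      have g9 : 0 ≤ (u * Real.sin a - v * Real.cos a) * Real.sin (κ + t) :=
        mul_nonneg_of_nonpos_of_nonpos hI g1.le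
      have g10 : 0 < r * Real.cos (2 * t + 2 * κ) := mul_pos hr0 g6
      linarith
  refine ⟨htpos, ?_⟩
  have hst : 0 < Real.sin t := Real.sin_pos_of_pos_of_lt_pi htpos ht1
  have hsm : Real.sin (a - κ) < 0 := by
    by_contra hc
    have := mul_nonneg (not_lt.1 hc) hst.le
    linarith
  by_contra hc
  have := Real.sin_nonneg_of_nonneg_of_le_pi (x := a - κ) (by linarith) (by linarith)
  linarith

/-- sizes in the case `L < 0` -/
theorem lpos_size {k a κ t E u v r c0 : ℝ} (hk : 8 ≤ k) (ha0 : 0 < a) (haκ : a < κ)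
    (hκ : k * κ < Real.pi / 2) (ht0 : 0 < t) (ht1 : a + t < Real.pi / 2)
    (hE0 : 0 < E) (hE1 : E < 1) (hr0 : 0 < r) (hc0 : 0.922 ≤ c0) (hu : 2 * r * c0 ≤ u)
    (huv : u * v = 2 * r * Real.sin (2 * a)) (hv : 0 < v)
    (hc1 : 0 < Real.cos (a + κ + t)) (hcos : 0 < Real.cos (k * (κ + t)))
    (R1 : E * Real.cos (a - κ + t) = Real.cos (a - κ - t) + u + r * Real.cos (a + κ + t))
    (R3 : E * Real.cos (2 * t) = 1 + u * Real.cos (a - κ - t) + v * Real.sin (a - κ - t) +
      r * Real.cos (2 * t + 2 * κ))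
    (R5 : 0 = Real.sin (2 * t) + u * Real.sin (a - κ + t) - v * Real.cos (a - κ + t) -
      r * Real.sin (2 * κ)) :
    k * (κ + t) < Real.pi / 2 ∧ t ≤ 0.531 * (κ + t) ∧ r ≤ 0.181 * (κ + t) ^ 2 ∧
      Real.cos (κ + t) ≤ E := by
  have hpi := Real.pi_pos
  have hpi1 := Real.pi_lt_d4
  have hpi2 := Real.pi_gt_d4
  have hk0 : 0 < k := by linarith
  have hκ0 : 0 < κ := ha0.trans haκ
  have hκ1 : κ < 0.19635 := by
    have : 8 * κ ≤ k * κ := mul_le_mul_of_nonneg_right hk hκ0.le
    linarith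
  have hu0 : 0 < u := lt_of_lt_of_le (by positivity) hu
  have hmt : 0 < Real.cos (a - κ + t) := Real.cos_pos_of_mem_Ioo ⟨by linarith, by linarith⟩
  have hst : 0 < Real.sin t := Real.sin_pos_of_pos_of_lt_pi ht0 (by linarith)
  have hst1 : Real.sin t ≤ 1 := Real.sin_le_one t
  have hstt : Real.sin t ≤ t := (Real.sin_lt ht0).le
  have hsκ : Real.sin (κ - a) ≤ κ := (Real.sin_lt (by linarith)).le.trans (by linarith)
  have hsκ0 : 0 < Real.sin (κ - a) := Real.sin_pos_of_pos_of_lt_pi (by linarith) (by linarith)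
  -- `u + r c1 ≤ 2 κ sin t`
  have hU : u + r * Real.cos (a + κ + t) ≤ 2 * κ * Real.sin t := by
    have e1 : Real.cos (a - κ + t) - Real.cos (a - κ - t) =
        2 * (Real.sin (κ - a) * Real.sin t) := by
      rw [Real.cos_add (a - κ) t, Real.cos_sub (a - κ) t, show κ - a = -(a - κ) by ring,
        Real.sin_neg]
      ring
    have e2 : E * Real.cos (a - κ + t) ≤ Real.cos (a - κ + t) :=
      mul_le_of_le_one_left hmt.le hE1.le
    have e3 : Real.sin (κ - a) * Real.sin t ≤ κ * Real.sin t :=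
      mul_le_mul_of_nonneg_right hsκ hst.le
    linarith
  have hrc1 : 0 < r * Real.cos (a + κ + t) := mul_pos hr0 hc1
  have hu1 : u ≤ 2 * κ * Real.sin t := by linarith
  have hr1 : r ≤ κ * Real.sin t / 0.922 := by
    rw [le_div_iff₀ (by norm_num)]
    have := mul_le_mul_of_nonneg_left hc0 (show 0 ≤ 2 * r by positivity)
    linarith
  have hv1 : v ≤ 2.1692 * κ := by
    have h1 : Real.sin (2 * a) ≤ 2 * κ := (Real.sin_lt (by linarith)).le.trans (by linarith)
    have h2 : 2 * r * c0 * v ≤ u * v := mul_le_mul_of_nonneg_right hu hv.le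
    rw [huv] at h2
    have h3 : c0 * v ≤ Real.sin (2 * a) := by
      have h4 : (2 * r) * (c0 * v) ≤ (2 * r) * Real.sin (2 * a) := by linarith
      exact le_of_mul_le_mul_left h4 (by positivity)
    have h5 : 0.922 * v ≤ c0 * v := mul_le_mul_of_nonneg_right hc0 hv.le
    linarith
  -- `cos 2t > 0`
  have hu2 : u ≤ 0.3927 := by
    have : κ * Real.sin t ≤ 0.19635 * 1 := mul_le_mul hκ1.le hst1 hst.le (by norm_num)
    linarith
  have hr2 : r ≤ 0.213 := by
    have : κ * Real.sin t ≤ 0.19635 * 1 := mul_le_mul hκ1.le hst1 hst.le (by norm_num)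
    have h2 : κ * Real.sin t / 0.922 ≤ 0.19635 * 1 / 0.922 :=
      div_le_div_of_nonneg_right this (by norm_num)
    have h3 : (0.19635 * 1 / 0.922 : ℝ) ≤ 0.213 := by norm_num
    linarith
  have hv2 : v ≤ 0.426 := by linarith
  have hc2t : 0 < Real.cos (2 * t) := by
    have h1 : -0.5802 ≤ u * Real.cos (a - κ - t) + v * Real.sin (a - κ - t) := by
      have h2 := Real.sin_sq_add_cos_sq (a - κ - t)
      set C := Real.cos (a - κ - t)
      set S := Real.sin (a - κ - t)
      have h3 : (u * C + v * S) ^ 2 ≤ u ^ 2 + v ^ 2 := by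
        have e : u ^ 2 + v ^ 2 - (u * C + v * S) ^ 2 = (u * S - v * C) ^ 2 := by
          linear_combination (-(u ^ 2) - v ^ 2) * h2
        have := sq_nonneg (u * S - v * C)
        linarith
      have h4 : u ^ 2 + v ^ 2 ≤ 0.5802 ^ 2 := by
        have a1 := pow_le_pow_left₀ hu0.le hu2 2
        have a2 := pow_le_pow_left₀ hv.le hv2 2
        norm_num at a1 a2 ⊢
        linarith
      exact (abs_le.1 (abs_le_of_sq_le_sq (h3.trans h4) (by norm_num))).1
    have h5 : -0.213 ≤ r * Real.cos (2 * t + 2 * κ) := by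
      have := mul_le_mul_of_nonneg_left (Real.neg_one_le_cos (2 * t + 2 * κ)) hr0.le
      linarith
    have h6 : 0 < E * Real.cos (2 * t) := by
      rw [R3]
      linarith
    exact (pos_iff_pos_of_mul_pos h6).1 hE0
  have ht2 : t < Real.pi / 4 := by
    by_contra hc
    have := Real.cos_nonpos_of_pi_div_two_le_of_le (x := 2 * t) (by linarith) (by linarith)
    linarith
  have h2κ : Real.sin (2 * κ) ≤ 2 * κ := (Real.sin_lt (by linarith)).le
  have h2κ0 : 0 < Real.sin (2 * κ) := Real.sin_pos_of_pos_of_lt_pi (by linarith) (by linarith)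
  -- general upper bound of `sin 2t`
  have hS2 : ∀ r' : ℝ, r ≤ r' → 0 ≤ r' → κ ≤ a + t →
      Real.sin (2 * t) ≤ (2.1692 + 2 * r') * κ := by
    intro r' hr' hr0' hm
    have h1 : 0 ≤ Real.sin (a - κ + t) :=
      Real.sin_nonneg_of_nonneg_of_le_pi (by linarith) (by linarith)
    have h2 : 0 ≤ u * Real.sin (a - κ + t) := mul_nonneg hu0.le h1
    have h3 : v * Real.cos (a - κ + t) ≤ v := mul_le_of_le_one_right hv.le (Real.cos_le_one _)
    have h4 : r * Real.sin (2 * κ) ≤ r' * (2 * κ) := mul_le_mul hr' h2κ h2κ0.le hr0'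
    linarith
  have ht3 : t ≤ 1.97 * κ := by
    rcases lt_or_ge (a + t) κ with hm | hm
    · linarith
    · have h1 : Real.sin t ≤ 0.7855 := hstt.trans (by linarith)
      have h1' : r ≤ 0.168 := by
        have h2 : κ * Real.sin t ≤ 0.19635 * 0.7855 := mul_le_mul hκ1.le h1 hst.le (by norm_num)
        have h3 : κ * Real.sin t / 0.922 ≤ 0.19635 * 0.7855 / 0.922 :=
          div_le_div_of_nonneg_right h2 (by norm_num)
        have h4 : (0.19635 * 0.7855 / 0.922 : ℝ) ≤ 0.168 := by norm_num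
        linarith
      have h5 := hS2 0.168 h1' (by norm_num) hm
      have h6 : 2 / Real.pi * (2 * t) ≤ Real.sin (2 * t) :=
        Real.mul_le_sin (by linarith) (by linarith)
      have h7 : 1.273 * t ≤ 2 / Real.pi * (2 * t) := by
        rw [div_mul_eq_mul_div, le_div_iff₀ hpi]
        have := mul_le_mul_of_nonneg_left (show 1.273 * Real.pi ≤ 4 by linarith) ht0.le
        linarith
      linarith
  have hF : k * (κ + t) < Real.pi / 2 := by
    by_contra hc
    have h1 : k * (κ + t) ≤ 2.97 * (k * κ) := by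
      have := mul_le_mul_of_nonneg_left (show κ + t ≤ 2.97 * κ by linarith) hk0.le
      linarith
    have := Real.cos_nonpos_of_pi_div_two_le_of_le (x := k * (κ + t)) (not_lt.1 hc)
      (by linarith)
    linarith
  have hφ1 : κ + t < 0.19635 := by
    have : 8 * (κ + t) ≤ k * (κ + t) := mul_le_mul_of_nonneg_right hk (by linarith)
    linarith
  have ht4 : t ≤ 0.664 * (κ + t) := by linarith
  have ht5 : t ≤ 0.1304 := by linarith
  have ht6 : t ≤ 0.531 * (κ + t) := by
    rcases lt_or_ge (a + t) κ with hm | hm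
    · linarith
    · have h1' : r ≤ 0.0278 := by
        have h2 : κ * Real.sin t ≤ 0.19635 * 0.1304 :=
          mul_le_mul hκ1.le (hstt.trans ht5) hst.le (by norm_num)
        have h3 : κ * Real.sin t / 0.922 ≤ 0.19635 * 0.1304 / 0.922 :=
          div_le_div_of_nonneg_right h2 (by norm_num)
        have h4 : (0.19635 * 0.1304 / 0.922 : ℝ) ≤ 0.0278 := by norm_num
        linarith
      have h5 := hS2 0.0278 h1' (by norm_num) hm
      have h6 : 2 * t - (2 * t) ^ 3 / 6 < Real.sin (2 * t) :=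
        Real.sin_gt_sub_cube (by linarith)
      have h7 : t ^ 2 ≤ 0.0171 := by
        have := pow_le_pow_left₀ ht0.le ht5 2
        norm_num at this ⊢
        linarith
      have h8 : (2 * t) ^ 3 / 6 ≤ 0.0342 * t := by
        have : (2 * t) ^ 3 / 6 = 4 / 3 * t * t ^ 2 := by ring
        rw [this]
        have := mul_le_mul_of_nonneg_left h7 (show 0 ≤ 4 / 3 * t by linarith)
        linarith
      linarith
  refine ⟨hF, ht6, ?_, ?_⟩
  · have h1 : 0.9228 ≤ Real.cos (a + κ + t) := by
      have h2 := Real.one_sub_sq_div_two_le_cos (x := a + κ + t)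
      have h3 : (a + κ + t) ^ 2 ≤ 0.3927 ^ 2 := by
        apply pow_le_pow_left₀ (by linarith)
        linarith
      have h4 : (0.3927 ^ 2 / 2 : ℝ) ≤ 0.0772 := by norm_num
      linarith
    have h2 : 2 * r * 0.922 + r * 0.9228 ≤ 2 * κ * t := by
      have h3 : r * 0.9228 ≤ r * Real.cos (a + κ + t) := mul_le_mul_of_nonneg_left h1 hr0.le
      have h4 : 2 * r * 0.922 ≤ 2 * r * c0 := mul_le_mul_of_nonneg_left hc0 (by positivity)
      have h5 : 2 * κ * Real.sin t ≤ 2 * κ * t := mul_le_mul_of_nonneg_left hstt (by positivity)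
      linarith
    have h6 := sq_nonneg (κ - t)
    have h7 : 2 * κ * t ≤ (κ + t) ^ 2 / 2 := by linarith [show (κ - t) ^ 2 = (κ + t) ^ 2 - 4 * (κ * t) by ring]
    have h8 := sq_nonneg (κ + t)
    linarith
  · have h1 : Real.cos (κ + t) ≤ Real.cos (a - κ - t) := by
      rw [show a - κ - t = -(κ + t - a) by ring, Real.cos_neg]
      apply Real.cos_le_cos_of_nonneg_of_le_pi <;> linarith
    have h2 : E * Real.cos (a - κ + t) ≤ E := mul_le_of_le_one_right hE0.le (Real.cos_le_one _)
    linarith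

/-- `(-Re q) sin α ≤ (Im q) cos α` -/
theorem tan_le {q X : ℂ} (hx : exp (2 * X) = 1 + q ^ 2) (hi : 0 < q.im) (hr : q.re < 0)
    (ha : |X.im| < Real.pi / 2) :
    -q.re * Real.sin (-X.im) ≤ q.im * Real.cos (-X.im) := by
  obtain ⟨h1, h2⟩ := quad_polar hx
  have hc : 0 < Real.cos X.im := by
    have := abs_lt.1 ha
    exact Real.cos_pos_of_mem_Ioo ⟨by linarith, by linarith⟩
  have hs := Real.sin_sq_add_cos_sq X.im
  rw [Real.cos_two_mul] at h1
  rw [Real.sin_two_mul] at h2
  rw [Real.sin_neg, Real.cos_neg]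
  -- `|q|^2 ≤ R^2 + 1`
  have hn : q.re ^ 2 + q.im ^ 2 ≤ Real.exp X.re ^ 2 + 1 := by
    have e1 : q.re ^ 2 + q.im ^ 2 = ‖q ^ 2‖ := by
      rw [norm_pow, ← Complex.normSq_eq_norm_sq, Complex.normSq_apply]
      ring
    have e2 : ‖(1 : ℂ) + q ^ 2‖ = Real.exp X.re ^ 2 := by
      rw [← hx, norm_exp, ← Real.exp_nat_mul]
      simp
    have e3 : ‖q ^ 2‖ ≤ ‖(1 : ℂ) + q ^ 2‖ + 1 := by
      have := norm_sub_le ((1 : ℂ) + q ^ 2) 1
      rw [add_sub_cancel_left, norm_one] at this
      exact this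
    rw [e1, ← e2]
    exact e3
  set R := Real.exp X.re
  set c := Real.cos X.im
  set s := Real.sin X.im
  have hR : 0 < R := Real.exp_pos _
  -- `2 A B = - 2 R^2 s c`, `2 R^2 c^2 = 1 + A^2 - B^2 + R^2 ≥ 2 A^2`
  have h3 : -q.re * q.im = -(R ^ 2 * (s * c)) := by linarith
  have h4 : q.re ^ 2 ≤ (R * c) ^ 2 := by
    have : (R * c) ^ 2 = R ^ 2 * c ^ 2 := by ring
    rw [this]
    linarith [show R ^ 2 * (2 * c ^ 2 - 1) = 2 * (R ^ 2 * c ^ 2) - R ^ 2 by ring]
  have hA : 0 < -q.re := by linarith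
  -- multiply by `R^2 c A > 0`
  have h5 : (-q.re * -s) * (R ^ 2 * c) ≤ (q.im * c) * (R ^ 2 * c) := by
    have e1 : (-q.re * -s) * (R ^ 2 * c) = -q.re * (-q.re * q.im) := by
      rw [h3]
      ring
    have e2 : (q.im * c) * (R ^ 2 * c) = q.im * (R * c) ^ 2 := by ring
    have e3 : -q.re * (-q.re * q.im) = q.im * q.re ^ 2 := by ring
    rw [e1, e2, e3]
    exact mul_le_mul_of_nonneg_left h4 hi.le
  exact le_of_mul_le_mul_right h5 (by positivity)

theorem St.neg_data (h : St k C q0 q1 q2 q3 d0 d1 d2 X1 X2 X3) (hk : 8 ≤ k)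
    (hA : -(Real.pi / 4) ≤ X1.im) (he : |k * (X1 - d0).im| = Real.pi / 2)
    (hL : (X2 - X1).re < 0) :
    0 < (X1 - X2).im ∧ 0 < (X2 - d1).im ∧ k * (X1 - d1).im < Real.pi / 2 ∧
      (X1 - X2).im ≤ 0.531 * (X1 - d1).im ∧
      Real.exp (2 * (d1 - X1).re) ≤ 0.181 * (X1 - d1).im ^ 2 ∧
      Real.cos (X1 - d1).im ≤ Real.exp (2 * (X2 - X1).re) ∧
      0.922 ≤ Real.cos d0.im ∧ 0.922 ≤ Real.cos d1.im := by
  have hpi := Real.pi_pos
  have hpi1 := Real.pi_lt_d4
  have k0 := h.k0
  have hC := h.hC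
  have hC0 := h.C0
  set a : ℝ := -X1.im with ha
  set κ : ℝ := (X2 - d1).im with hκd
  set t : ℝ := (X1 - X2).im with htd
  have hφ : (X1 - d1).im = κ + t := by simp [hκd, htd]
  have hd1 : d1.im = -(a + κ + t) := by simp [ha, hκd, htd]
  set E : ℝ := Real.exp (2 * (X2 - X1).re) with hE
  set r : ℝ := Real.exp (2 * (d1 - X1).re) with hr
  set w : ℝ := Real.exp (d1 - 2 * X1).re with hw
  set u : ℝ := 2 * (-q1.re) * w with hu
  set v : ℝ := 2 * q1.im * w with hv
  have hw0 : 0 < w := Real.exp_pos _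
  have hq1 := h.q1neg
  have hi1 := h.i1
  have hu0 : 0 < u := by
    have : 0 < -q1.re := by linarith
    positivity
  have hv0 : 0 < v := by positivity
  have hE0 : 0 < E := Real.exp_pos _
  have hE1 : E < 1 := by
    rw [hE, Real.exp_lt_one_iff]
    linarith
  have hr0 : 0 < r := Real.exp_pos _
  have ha0 : 0 < a := by
    rw [ha]
    linarith [h.a1.2]
  have ha1 : a ≤ Real.pi / 4 := by
    rw [ha]
    linarith
  -- `|f| ≥ 1`, so `r < 1`
  have hf := h.f1_norm he
  rw [← h.f1_eq, norm_pv hC0, le_div_iff₀ hC0, one_mul] at hf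
  have hr1 : r < 1 := by
    rw [hr, Real.exp_lt_one_iff]
    have h1 : 1 < Real.exp (k * (X1 - d1).re) := lt_of_lt_of_le hC hf
    have h2 : 0 < k * (X1 - d1).re := Real.one_lt_exp_iff.1 h1
    have h3 : 0 < (X1 - d1).re := (pos_iff_pos_of_mul_pos h2).1 k0
    have h4 : (d1 - X1).re = -(X1 - d1).re := by simp
    rw [h4]
    linarith
  have hκk : |k * κ| < Real.pi / 2 := h.p2
  have hκ16 : |κ| < Real.pi / 16 := by
    rw [abs_mul, abs_of_pos k0] at hκk
    have := mul_le_mul_of_nonneg_right hk (abs_nonneg κ)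
    linarith
  obtain ⟨hm1, hm2⟩ := h.mv_lt hA
  have hm : -X2.im - (X2 - d1).im = a - κ + t := by simp [ha, hκd, htd]; ring
  rw [hm] at hm1 hm2
  have hc1 : 0 < Real.cos (a + κ + t) := by
    have := h.cos1
    rwa [hd1, Real.cos_neg] at this
  have htan : u * Real.sin a ≤ v * Real.cos a := by
    have h1 := tan_le h.x1 hi1 hq1 h.abs1
    have h2 := mul_le_mul_of_nonneg_left h1 (show 0 ≤ 2 * w by positivity)
    calc u * Real.sin a = 2 * w * (-q1.re * Real.sin (-X1.im)) := by rw [hu, ha]; ring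
      _ ≤ _ := h2
      _ = v * Real.cos a := by rw [hv, ha]; ring
  -- rotated identities
  have key := fun c => h.rotc c
  have R1 : E * Real.cos (a - κ + t) = Real.cos (a - κ - t) + u + r * Real.cos (a + κ + t) := by
    have h1 := (key (-(a - κ + t))).1
    rw [Real.cos_neg, show 2 * (X1 - X2).im + -(a - κ + t) = -(a - κ - t) by ring,
      show -X1.im - (X2 - d1).im + (X1 - X2).im + -(a - κ + t) = 0 by ring,
      show -(a - κ + t) - 2 * (X2 - d1).im = -(a + κ + t) by ring, Real.cos_neg, Real.cos_neg,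
      Real.cos_zero, Real.sin_zero] at h1
    rw [h1]
    ring
  have R2 : -(E * Real.sin (2 * t)) = u * Real.sin (a - κ - t) - v * Real.cos (a - κ - t) -
      r * Real.sin (2 * t + 2 * κ) := by
    have h1 := (key (-(2 * t))).2
    rw [Real.sin_neg, show 2 * (X1 - X2).im + -(2 * t) = 0 by ring,
      show -X1.im - (X2 - d1).im + (X1 - X2).im + -(2 * t) = a - κ - t by ring,
      show -(2 * t) - 2 * (X2 - d1).im = -(2 * t + 2 * κ) by ring, Real.sin_neg,
      Real.sin_zero] at h1
    linarith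
  have R3 : E * Real.cos (2 * t) = 1 + u * Real.cos (a - κ - t) + v * Real.sin (a - κ - t) +
      r * Real.cos (2 * t + 2 * κ) := by
    have h1 := (key (-(2 * t))).1
    rw [Real.cos_neg, show 2 * (X1 - X2).im + -(2 * t) = 0 by ring,
      show -X1.im - (X2 - d1).im + (X1 - X2).im + -(2 * t) = a - κ - t by ring,
      show -(2 * t) - 2 * (X2 - d1).im = -(2 * t + 2 * κ) by ring, Real.cos_neg,
      Real.cos_zero] at h1
    linarith
  have R4 : E * Real.sin (κ - t) = (1 - r) * Real.sin (κ + t) + u * Real.sin a -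
      v * Real.cos a := by
    have h1 := (key (κ - t)).2
    rw [show 2 * (X1 - X2).im + (κ - t) = κ + t by ring,
      show -X1.im - (X2 - d1).im + (X1 - X2).im + (κ - t) = a by ring,
      show (κ - t) - 2 * (X2 - d1).im = -(κ + t) by ring, Real.sin_neg (κ + t)] at h1
    linarith
  have R5 : 0 = Real.sin (2 * t) + u * Real.sin (a - κ + t) - v * Real.cos (a - κ + t) -
      r * Real.sin (2 * κ) := by
    have h1 := (key 0).2
    rw [Real.sin_zero, mul_zero, add_zero,
      show -X1.im - (X2 - d1).im + (X1 - X2).im + 0 = a - κ + t by ring,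
      show (0 : ℝ) - 2 * (X2 - d1).im = -(2 * κ) by ring, Real.sin_neg] at h1
    linarith
  obtain ⟨ht0, haκ⟩ := lpos_sign ha0 ha1 hκ16 hm1 hm2 hE0 hE1 hr0 hr1 hu0 hv0 hc1 htan R1 R2
    R3 R4
  have hκ0 : 0 < κ := ha0.trans haκ
  -- `c0`
  have hd0 : |d0.im| ≤ 0.3927 := by
    have h1 : Real.pi / (2 * k) ≤ Real.pi / 16 :=
      div_le_div_of_nonneg_left hpi.le (by norm_num) (by linarith)
    have h2 : 0 < Real.pi / (2 * k) := by positivity
    have h3 := (abs_lt.1 hκ16).2
    rcases h.im_d0 he with h4 | h4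
    · rw [h4, abs_le]
      constructor <;> linarith
    · rw [h4, abs_le]
      constructor <;> linarith
  have hcosb : ∀ x : ℝ, |x| ≤ 0.3927 → 0.922 ≤ Real.cos x := by
    intro x hx
    have h1 := Real.one_sub_sq_div_two_le_cos (x := x)
    have h2 : x ^ 2 ≤ 0.3927 ^ 2 := by
      rw [← sq_abs]
      exact pow_le_pow_left₀ (abs_nonneg x) hx 2
    norm_num at h2
    linarith
  have hc0 := hcosb _ hd0
  have hur : 2 * r * Real.cos d0.im ≤ u := by
    have h1 := h.D0_le
    have h2 := Real.exp_le_exp.2 (h.exit_len he)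
    have h3 : Real.exp d1.re * Real.cos d0.im ≤ -q1.re := by
      rw [exp_re] at h1
      exact (mul_le_mul_of_nonneg_right h2 h.cos0.le).trans h1
    have h4 : r = Real.exp d1.re * w := by
      rw [hr, hw, ← Real.exp_add]
      congr 1
      simp
      ring
    have h5 := mul_le_mul_of_nonneg_right h3 (show 0 ≤ 2 * w by positivity)
    calc 2 * r * Real.cos d0.im = Real.exp d1.re * Real.cos d0.im * (2 * w) := by rw [h4]; ring
      _ ≤ _ := h5
      _ = u := by rw [hu]; ring
  have huv : u * v = 2 * r * Real.sin (2 * a) := by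
    obtain ⟨-, h2⟩ := quad_polar h.x1
    have h3 : Real.sin (2 * a) = -Real.sin (2 * X1.im) := by
      rw [ha, mul_neg, Real.sin_neg]
    have h4 : r = Real.exp X1.re ^ 2 * w ^ 2 := by
      rw [hr, hw, ← Real.exp_nat_mul, ← Real.exp_nat_mul, ← Real.exp_add]
      congr 1
      simp
      ring
    rw [h3, h4, hu, hv]
    linear_combination (-2 * w ^ 2) * h2
  have hcosk : 0 < Real.cos (k * (κ + t)) := by
    have h1 : (pv k C X1 d1).re = 1 := by
      rw [h.f1_eq, sub_re, one_re, pv_re_zero he, sub_zero]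
    rw [pv_re, hφ] at h1
    by_contra hc
    have h2 : 0 < Real.exp (k * (X1 - d1).re) / C := by positivity
    have := mul_nonpos_of_nonneg_of_nonpos h2.le (not_lt.1 hc)
    linarith
  have hat : a + t < Real.pi / 2 := by
    have : a + t = -X2.im := by simp [ha, htd]; ring
    rw [this]
    linarith [h.a2.1]
  obtain ⟨b1, b2, b3, b4⟩ := lpos_size hk ha0 haκ (by have := (abs_lt.1 hκk).2; exact this) ht0 hat
    hE0 hE1 hr0 hc0 hur huv hv0 hc1 hcosk R1 R3 R5
  rw [hφ]
  refine ⟨ht0, hκ0, b1, b2, b3, b4, hc0, ?_⟩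
  apply hcosb
  rw [hd1, abs_neg, abs_of_pos (by linarith)]
  have h1 : 8 * (κ + t) ≤ k * (κ + t) := mul_le_mul_of_nonneg_right hk (by linarith)
  linarith

end EQS
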