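import Pool.Agent.Lib.MP_226de1_co.E.PickTools
import Pool.Agent.Lib.MP_226de1_co.E.PickLog

/-! The logarithmic form of the two-point Schwarz-Pick inequality as a bound of a norm. -/

set_option autoImplicit false

namespace EQS

open Complex Metric Set

/-- `(SPL)` as a bound for the norm -/
theorem norm_log_sub_le {p q : ℂ} {s : ℝ} (hp : 0 < p.re) (hq : 0 < q.re) (hs : 0 < s)
    (h : s * ‖p - q‖ ^ 2 ≤ p.re * q.re) :
    ‖Complex.log p - Complex.log q‖ ≤ 2 * Real.arsinh (1 / (2 * Real.sqrt s)) := by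
  have h1 := log_pick hp hq hs.le h
  set r := ‖Complex.log p - Complex.log q‖ / 2 with hr
  have hr0 : 0 ≤ r := by positivity
  have hss : 0 < Real.sqrt s := Real.sqrt_pos.2 hs
  have h2 : Real.sinh r ≤ 1 / (2 * Real.sqrt s) := by
    rw [le_div_iff₀ (by positivity)]
    have h3 : (Real.sinh r * (2 * Real.sqrt s)) ^ 2 ≤ 1 ^ 2 := by
      have : (Real.sinh r * (2 * Real.sqrt s)) ^ 2 = 4 * s * Real.sinh r ^ 2 := by
        rw [mul_pow, mul_pow, Real.sq_sqrt hs.le]
        ring
      rw [this]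
      linarith
    exact le_of_sq_le_sq h3 (by norm_num)
  have h4 : r ≤ Real.arsinh (1 / (2 * Real.sqrt s)) := by
    rw [← Real.arsinh_sinh r]
    exact Real.arsinh_le_arsinh.2 h2
  rw [hr] at h4
  linarith

/-- for `s ≥ 2` the bound is `log 2` -/
theorem norm_log_sub_le_log_two {p q : ℂ} {s : ℝ} (hp : 0 < p.re) (hq : 0 < q.re) (hs : 2 ≤ s)
    (h : s * ‖p - q‖ ^ 2 ≤ p.re * q.re) :
    ‖Complex.log p - Complex.log q‖ ≤ Real.log 2 := by
  have h1 := log_pick hp hq (by linarith) h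
  set r := ‖Complex.log p - Complex.log q‖ / 2 with hr
  have hr0 : 0 ≤ r := by positivity
  have h2 : 8 * Real.sinh r ^ 2 ≤ 1 := by nlinarith [sq_nonneg (Real.sinh r)]
  have h3 : Real.sinh (Real.log 2 / 2) ^ 2 = 1 / 8 := by
    have e1 := Real.cosh_two_mul (Real.log 2 / 2)
    have e2 := Real.cosh_sq (Real.log 2 / 2)
    rw [show 2 * (Real.log 2 / 2) = Real.log 2 by ring, Real.cosh_log (by norm_num)] at e1
    norm_num at e1
    linarith
  have h4 : Real.sinh r ≤ Real.sinh (Real.log 2 / 2) := by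
    apply le_of_sq_le_sq (by linarith) (Real.sinh_nonneg_iff.2 (by positivity))
  have h5 := Real.sinh_le_sinh.1 h4
  rw [hr] at h5
  linarith

/-- Schwarz-Pick in logarithmic form -/
theorem pick_log {P : ℂ → ℂ} {a : ℝ} (hd : DifferentiableOn ℂ P {g | g.re < a})
    (hp : ∀ g : ℂ, g.re < a → 0 < (P g).re) {g h : ℂ} (hg : g.re < a) (hh : h.re < a) :
    ‖Complex.log (P g) - Complex.log (P h)‖ ≤
      2 * Real.arsinh (‖g - h‖ / (2 * Real.sqrt ((a - g.re) * (a - h.re)))) := by
  have hdd : 0 < (a - g.re) * (a - h.re) := mul_pos (by linarith) (by linarith)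
  rcases eq_or_ne g h with hgh | hgh
  · rw [hgh, sub_self, norm_zero, sub_self, norm_zero, zero_div, Real.arsinh_zero, mul_zero]
  · have hn : 0 < ‖g - h‖ := norm_pos_iff.2 (sub_ne_zero.2 hgh)
    have h1 := pick_hh hd hp hg hh
    set s : ℝ := ((a - g.re) * (a - h.re)) / ‖g - h‖ ^ 2 with hs
    have hs0 : 0 < s := by positivity
    have h2 : s * ‖P g - P h‖ ^ 2 ≤ (P g).re * (P h).re := by
      rw [hs, div_mul_eq_mul_div, div_le_iff₀ (by positivity)]
      linarith
    have h3 := norm_log_sub_le (hp g hg) (hp h hh) hs0 h2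
    have h4 : 1 / (2 * Real.sqrt s) =
        ‖g - h‖ / (2 * Real.sqrt ((a - g.re) * (a - h.re))) := by
      rw [hs, Real.sqrt_div hdd.le, Real.sqrt_sq hn.le]
      have : 0 < Real.sqrt ((a - g.re) * (a - h.re)) := Real.sqrt_pos.2 hdd
      field_simp
    rwa [h4] at h3

end EQS
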