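import Mathlib
import Pool.Agent.Lib.MP_226de1_co.E.FlowIm

/-! The flow identity rotated by a unimodular factor: two-sided bounds of `σ_2` which contain no
information on the geometric term `|X|`.

`F/k = Im (X1 - d1)`, `ψ/k = Im (X2 - d1)`, `F_2/k = Im (X2 - d2)`, `ψ_3/k = Im (X3 - d2)`,
`g/k = Re (X3 - d2) - Re (X2 - d1)`. -/

set_option autoImplicit false

namespace EQS

open Complex

variable {k C : ℝ} {q0 q1 q2 q3 d0 d1 d2 X1 X2 X3 : ℂ}

/-- imaginary part of `e^{ic}` times the flow identity -/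
theorem St.flow_rot (h : St k C q0 q1 q2 q3 d0 d1 d2 X1 X2 X3) (c : ℝ) :
    Real.exp (X3 - X2).re * Real.sin (c - (X2 - X3).im) -
        Real.exp (-(X3 - X2).re) * Real.sin (c + (X2 - X3).im) =
      Real.exp (-((X3 - d2).re - (X2 - d1).re)) *
        (Real.sin (c - ((X3 - d2).im - (X2 - d1).im)) -
          Real.exp (-(2 * (X2 - X1).re)) *
            Real.sin (c - ((X3 - d2).im - (X2 - d1).im) + 2 * (X1 - X2).im) +
          Real.exp (2 * (d1 - X2).re) *
            (Real.sin (c - ((X3 - d2).im + (X2 - d1).im)) +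
              Real.exp (d2 - d1).re *
                Real.sin (c - ((X3 - d2).im + (X2 - d2).im)))) := by
  have hs : (2 : ℂ) * sinh (X3 - X2) = exp (X3 - X2) - exp (-(X3 - X2)) := by
    rw [Complex.sinh]
    ring
  have h1 := h.flow
  rw [hs, flow_expand] at h1
  have r1 : ((c : ℂ) * I + (X3 - X2)).re = (X3 - X2).re := by simp
  have i1 : ((c : ℂ) * I + (X3 - X2)).im = c - (X2 - X3).im := by simp only [add_im, sub_im, mul_im, ofReal_re, ofReal_im, I_re, I_im]; ring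
  have r2 : ((c : ℂ) * I + -(X3 - X2)).re = -(X3 - X2).re := by simp
  have i2 : ((c : ℂ) * I + -(X3 - X2)).im = c + (X2 - X3).im := by simp only [add_im, neg_im, sub_im, mul_im, ofReal_re, ofReal_im, I_re, I_im]; ring
  have h3 := congrArg (fun z => (exp ((c : ℂ) * I) * z).im) h1
  have e1 : (exp ((c : ℂ) * I) * (exp (X3 - X2) - exp (-(X3 - X2)))).im =
      Real.exp (X3 - X2).re * Real.sin (c - (X2 - X3).im) -
        Real.exp (-(X3 - X2).re) * Real.sin (c + (X2 - X3).im) := by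
    rw [mul_sub, ← exp_add, ← exp_add, sub_im, exp_im, exp_im, r1, i1, r2, i2]
  have g1 : ((c : ℂ) * I + -((X3 - d2) - (X2 - d1))).re =
      -((X3 - d2).re - (X2 - d1).re) := by simp
  have j1 : ((c : ℂ) * I + -((X3 - d2) - (X2 - d1))).im =
      c - ((X3 - d2).im - (X2 - d1).im) := by simp; ring
  have g2 : ((c : ℂ) * I + (-((X3 - d2) - (X2 - d1)) - 2 * (X2 - X1))).re =
      -((X3 - d2).re - (X2 - d1).re) + -(2 * (X2 - X1).re) := by simp; ring
  have j2 : ((c : ℂ) * I + (-((X3 - d2) - (X2 - d1)) - 2 * (X2 - X1))).im =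
      c - ((X3 - d2).im - (X2 - d1).im) + 2 * (X1 - X2).im := by simp; ring
  have g3 : ((c : ℂ) * I + (-((X3 - d2) - (X2 - d1)) + 2 * (d1 - X2))).re =
      -((X3 - d2).re - (X2 - d1).re) + 2 * (d1 - X2).re := by simp
  have j3 : ((c : ℂ) * I + (-((X3 - d2) - (X2 - d1)) + 2 * (d1 - X2))).im =
      c - ((X3 - d2).im + (X2 - d1).im) := by simp; ring
  have g4 : ((c : ℂ) * I + (-((X3 - d2) - (X2 - d1)) + 2 * (d1 - X2) + (d2 - d1))).re =
      -((X3 - d2).re - (X2 - d1).re) + 2 * (d1 - X2).re + (d2 - d1).re := by simp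
  have j4 : ((c : ℂ) * I + (-((X3 - d2) - (X2 - d1)) + 2 * (d1 - X2) + (d2 - d1))).im =
      c - ((X3 - d2).im + (X2 - d2).im) := by simp; ring
  have e2 : (exp ((c : ℂ) * I) * (exp (-((X3 - d2) - (X2 - d1))) -
        exp (-((X3 - d2) - (X2 - d1)) - 2 * (X2 - X1)) +
        exp (-((X3 - d2) - (X2 - d1)) + 2 * (d1 - X2)) +
        exp (-((X3 - d2) - (X2 - d1)) + 2 * (d1 - X2) + (d2 - d1)))).im =
      Real.exp (-((X3 - d2).re - (X2 - d1).re)) *
        (Real.sin (c - ((X3 - d2).im - (X2 - d1).im)) -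
          Real.exp (-(2 * (X2 - X1).re)) *
            Real.sin (c - ((X3 - d2).im - (X2 - d1).im) + 2 * (X1 - X2).im) +
          Real.exp (2 * (d1 - X2).re) *
            (Real.sin (c - ((X3 - d2).im + (X2 - d1).im)) +
              Real.exp (d2 - d1).re *
                Real.sin (c - ((X3 - d2).im + (X2 - d2).im)))) := by
    rw [mul_add, mul_add, mul_sub, ← exp_add, ← exp_add, ← exp_add, ← exp_add, add_im, add_im,
      sub_im, exp_im, exp_im, exp_im, exp_im, g1, j1, g2, j2, g3, j3, g4, j4, Real.exp_add,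
      Real.exp_add, Real.exp_add, Real.exp_add]
    ring
  rw [e1, e2] at h3
  exact h3

/-- (R2+), upper bound of `σ_2`:
`e^{-a_2} sin (2F_2/k) - e^{a_2} sin (2ψ_3/k) ≤ e^{-g/k} (e^{-2a} sin ((F_2+2F-ψ)/k) - sin ((F_2+ψ)/k))` -/
theorem St.rot_up (h : St k C q0 q1 q2 q3 d0 d1 d2 X1 X2 X3) (h1 : 0 ≤ (d1 - d2).im)
    (h2 : (d1 - d2).im ≤ Real.pi) :
    Real.exp (-(X3 - X2).re) * Real.sin (2 * (X2 - d2).im) -
        Real.exp (X3 - X2).re * Real.sin (2 * (X3 - d2).im) ≤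
      Real.exp (-((X3 - d2).re - (X2 - d1).re)) *
        (Real.exp (-(2 * (X2 - X1).re)) *
            Real.sin ((X2 - d2).im + (X2 - d1).im + 2 * (X1 - X2).im) -
          Real.sin ((X2 - d2).im + (X2 - d1).im)) := by
  have h3 := h.flow_rot ((X3 - d2).im + (X2 - d2).im)
  have e1 : (X3 - d2).im + (X2 - d2).im - (X2 - X3).im = 2 * (X3 - d2).im := by
    simp only [sub_im]; ring
  have e2 : (X3 - d2).im + (X2 - d2).im + (X2 - X3).im = 2 * (X2 - d2).im := by
    simp only [sub_im]; ring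
  have e3 : (X3 - d2).im + (X2 - d2).im - ((X3 - d2).im - (X2 - d1).im) =
      (X2 - d2).im + (X2 - d1).im := by ring
  have e4 : (X3 - d2).im + (X2 - d2).im - ((X3 - d2).im + (X2 - d1).im) = (d1 - d2).im := by
    simp only [sub_im]; ring
  rw [e1, e2, e3, e4, sub_self, Real.sin_zero, mul_zero, add_zero] at h3
  have h4 := Real.sin_nonneg_of_nonneg_of_le_pi h1 h2
  have h5 : 0 ≤ Real.exp (-((X3 - d2).re - (X2 - d1).re)) *
      (Real.exp (2 * (d1 - X2).re) * Real.sin (d1 - d2).im) := by positivity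
  nlinarith

/-- (R2-), lower bound of `σ_2`:
`e^{a_2} sin ((F_2-ψ-2ψ_3)/k) + e^{-a_2} sin ((F_2+ψ)/k) ≥ e^{-g/k} (e^{-2a} sin (2F/k) - sin (2ψ/k))` -/
theorem St.rot_dn (h : St k C q0 q1 q2 q3 d0 d1 d2 X1 X2 X3) (h1 : 0 ≤ (d1 - d2).im)
    (h2 : (d1 - d2).im ≤ Real.pi) :
    Real.exp (-((X3 - d2).re - (X2 - d1).re)) *
        (Real.exp (-(2 * (X2 - X1).re)) * Real.sin (2 * (X1 - d1).im) -
          Real.sin (2 * (X2 - d1).im)) ≤
      Real.exp (X3 - X2).re * Real.sin ((X2 - d2).im - (X2 - d1).im - 2 * (X3 - d2).im) +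
        Real.exp (-(X3 - X2).re) * Real.sin ((X2 - d2).im + (X2 - d1).im) := by
  have h3 := h.flow_rot ((X3 - d2).im + (X2 - d1).im)
  have e1 : (X3 - d2).im + (X2 - d1).im - (X2 - X3).im =
      -((X2 - d2).im - (X2 - d1).im - 2 * (X3 - d2).im) := by
    simp only [sub_im]; ring
  have e2 : (X3 - d2).im + (X2 - d1).im + (X2 - X3).im = (X2 - d2).im + (X2 - d1).im := by
    simp only [sub_im]; ring
  have e3 : (X3 - d2).im + (X2 - d1).im - ((X3 - d2).im - (X2 - d1).im) =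
      2 * (X2 - d1).im := by ring
  have e4 : (X3 - d2).im + (X2 - d1).im - ((X3 - d2).im + (X2 - d2).im) = -(d1 - d2).im := by
    simp only [sub_im]; ring
  have e5 : 2 * (X2 - d1).im + 2 * (X1 - X2).im = 2 * (X1 - d1).im := by
    simp only [sub_im]; ring
  rw [e1, e2, e3, e4, e5, sub_self, Real.sin_zero, Real.sin_neg, Real.sin_neg, zero_add] at h3
  have h4 := Real.sin_nonneg_of_nonneg_of_le_pi h1 h2
  have h5 : 0 ≤ Real.exp (-((X3 - d2).re - (X2 - d1).re)) *
      (Real.exp (2 * (d1 - X2).re) * (Real.exp (d2 - d1).re * Real.sin (d1 - d2).im)) := by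
    positivity
  nlinarith

/-- (R1) with `cos b_2` kept -/
theorem St.rot_re (h : St k C q0 q1 q2 q3 d0 d1 d2 X1 X2 X3) (hk : 8 ≤ k)
    (ht : Real.exp (d2 - d1).re ≤ 2) :
    Real.exp (-((X3 - d2).re - (X2 - d1).re)) *
        (Real.cos ((X3 - d2).im - (X2 - d1).im) -
          Real.exp (-(2 * (X2 - X1).re)) *
            Real.cos (2 * (X1 - X2).im - ((X3 - d2).im - (X2 - d1).im))) ≤
      2 * Real.sinh (X3 - X2).re * Real.cos (X2 - X3).im := by
  have h1 := h.flow_re hk ht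
  have h2 := congrArg Complex.re h.flow
  rw [two_sinh_re, mul_add, add_re, St.LB_re] at h2
  have i5 : (X3 - X2).im = -(X2 - X3).im := by simp
  have i6 : ((X2 - d1) - (X3 - d2)).re = -((X3 - d2).re - (X2 - d1).re) := by simp
  have i7 : ((X2 - d1) - (X3 - d2)).im = -((X3 - d2).im - (X2 - d1).im) := by simp
  have i8 : -((X3 - d2).im - (X2 - d1).im) - 2 * (X2 - X1).im =
      2 * (X1 - X2).im - ((X3 - d2).im - (X2 - d1).im) := by
    simp only [sub_im]; ring
  rw [i5, Real.cos_neg, i6, i7, Real.cos_neg, i8] at h2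
  linarith

end EQS
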